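import Mathlib

set_option autoImplicit false
open Set

namespace Pool.Agent.Helper320.Gold

/-- Euclidean three-space -/
abbrev E3 := EuclideanSpace ℝ (Fin 3)

/-- `v` is a point of `S` at which the linear functional `a` is maximal over `S` -/
def IsMax (S : Finset E3) (a v : E3) : Prop := v ∈ S ∧ ∀ x ∈ S, inner ℝ a x ≤ inner ℝ a v

/-- unit vectors, every supporting plane contains at most three points, the origin is an interior point
of the convex hull -/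
structure Good (S : Finset E3) : Prop where
  unit : ∀ x ∈ S, ‖x‖ = 1
  simp : ∀ a : E3, a ≠ 0 → ∀ T : Finset E3, (∀ x ∈ T, IsMax S a x) → T.card ≤ 3
  origin : ∀ a : E3, a ≠ 0 → ∃ x ∈ S, 0 < inner ℝ a x

/-- `v w` is an edge of the convex hull of `S` -/
def Adj (S : Finset E3) (v w : E3) : Prop :=
  v ≠ w ∧ ∃ a : E3, a ≠ 0 ∧ ∀ x, IsMax S a x ↔ (x = v ∨ x = w)

/-- `u v w` is a facet of the convex hull of `S` -/
def Facet (S : Finset E3) (u v w : E3) : Prop :=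
  u ≠ v ∧ v ≠ w ∧ u ≠ w ∧ ∃ a : E3, a ≠ 0 ∧ ∀ x, IsMax S a x ↔ (x = u ∨ x = v ∨ x = w)

/-- the triple product -/
noncomputable def tp (u v w : E3) : ℝ :=
  u 0 * (v 1 * w 2 - v 2 * w 1) - u 1 * (v 0 * w 2 - v 2 * w 0) + u 2 * (v 0 * w 1 - v 1 * w 0)

/-- the neighbour of `v` that follows the neighbour `w` in the positive direction -/
noncomputable def nxt (S : Finset E3) (v w : E3) : E3 :=
  open Classical in if h : ∃ x, Facet S v w x ∧ 0 < tp v w x then h.choose else w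

/-- the positively oriented facets -/
noncomputable def FS (S : Finset E3) : Finset (E3 × E3 × E3) :=
  open Classical in (S ×ˢ S ×ˢ S).filter
    (fun t => Facet S t.1 t.2.1 t.2.2 ∧ 0 < tp t.1 t.2.1 t.2.2)

/-- the cone over a triangle -/
def cone3 (u v w : E3) : Set E3 :=
  {x | ∃ r s t : ℝ, 0 ≤ r ∧ 0 ≤ s ∧ 0 ≤ t ∧ x = r • u + s • v + t • w}

/-- sum of the squared side lengths -/
noncomputable def sq3 (t : E3 × E3 × E3) : ℝ :=
  ‖t.1 - t.2.1‖ ^ 2 + ‖t.2.1 - t.2.2‖ ^ 2 + ‖t.2.2 - t.1‖ ^ 2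

/-- triple product of a triangle -/
noncomputable def tpt (t : E3 × E3 × E3) : ℝ := tp t.1 t.2.1 t.2.2

/-- deviation from the equilateral triangle of the right size -/
noncomputable def pen (X : ℝ) (t : E3 × E3 × E3) : ℝ :=
  tpt t * (sq3 t - 2 * √3 * tpt t) / 48 + √3 / 24 * (tpt t - X) ^ 2

/-- the spherical sector of chordal radius `κ` around `p` -/
def capS (p : E3) (κ : ℝ) : Set E3 := {x | ‖x‖ ≤ 1 ∧ (1 - κ ^ 2 / 2) * ‖x‖ ≤ inner ℝ x p}

/-- the six unit vectors of the triangular lattice -/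
def eps (k : ZMod 6) : ℤ × ℤ :=
  (![(1, 0), (0, 1), (-1, 1), (-1, 0), (0, -1), (1, -1)] : Fin 6 → ℤ × ℤ) k

/-- the composite lattice steps -/
def vec (k : ZMod 6) (j : Fin 5) : ℤ × ℤ :=
  ![eps k, 2 • eps k + eps (k + 1), eps k + eps (k + 1), eps k + 2 • eps (k + 1), eps (k + 1)] j

/-- their Euclidean lengths -/
noncomputable def len (j : Fin 5) : ℝ := ![1, √7, √3, √7, 1] j

/-- the composite steps in the hull -/
def St (T : ZMod 6 → E3 → E3) (k : ZMod 6) (j : Fin 5) (x : E3) : E3 :=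
  ![T k x, T k (T (k + 1) (T k x)), T (k + 1) (T k x), T (k + 1) (T k (T (k + 1) x)),
    T (k + 1) x] j

/-- developing data on the cap of chordal radius 0.577 around `p` -/
structure Dev (S : Finset E3) (p : E3) (q : ℝ) (T : ZMod 6 → E3 → E3) (D : E3 → ℤ × ℤ) :
    Prop where
  mem : ∀ v ∈ S, ‖v - p‖ < 0.577 → ∀ k, T k v ∈ S
  dev : ∀ v ∈ S, ‖v - p‖ < 0.577 → ∀ k, D (T k v) = D v + eps k
  step : ∀ v ∈ S, ‖v - p‖ < 0.577 → ∀ k, ‖T k v - v‖ ≤ 2 * q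
  inv : ∀ v ∈ S, ‖v - p‖ < 0.577 → ∀ k, ‖T k v - p‖ < 0.577 → T (k + 3) (T k v) = v
  tri : ∀ v ∈ S, ‖v - p‖ < 0.577 → ∀ k, ‖T k v - p‖ < 0.577 →
    T (k + 2) (T k v) = T (k + 1) v

/-- index set of the broken lattice geodesics of length at most `L` -/
noncomputable def idx (L : ℝ) : Finset (ZMod 6 × Fin 4 × ℕ × ℕ) :=
  (Finset.univ ×ˢ Finset.univ ×ˢ Finset.range (⌊L⌋₊ + 1) ×ˢ Finset.range (⌊L⌋₊ + 1)).filter
    (fun i => 1 ≤ i.2.2.1 ∧
      (i.2.2.1 : ℝ) * len i.2.1.castSucc + (i.2.2.2 : ℝ) * len i.2.1.succ ≤ L)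

/-- total lattice displacement -/
def disp (i : ZMod 6 × Fin 4 × ℕ × ℕ) : ℤ × ℤ :=
  i.2.2.1 • vec i.1 i.2.1.castSucc + i.2.2.2 • vec i.1 i.2.1.succ

/-- the affine chart of the tangent plane at `w` -/
noncomputable def pl (w e f : E3) (z : ℝ × ℝ) : E3 := w + z.1 • e + z.2 • f

/-- radial projection to the unit sphere -/
noncomputable def nrm (x : E3) : E3 := (‖x‖)⁻¹ • x

/-- the part of the unit ball over a subset of the tangent plane -/
def sec (w e f : E3) (Z : Set (ℝ × ℝ)) : Set E3 :=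
  {x | ‖x‖ ≤ 1 ∧ ∃ r : ℝ, 0 ≤ r ∧ ∃ z ∈ Z, x = r • pl w e f z}

/-- orthonormal triple -/
structure ON (w e f : E3) : Prop where
  w1 : ‖w‖ = 1
  e1 : ‖e‖ = 1
  f1 : ‖f‖ = 1
  we : inner ℝ w e = 0
  wf : inner ℝ w f = 0
  ef : inner ℝ e f = 0

/-- hexagonal lattice of mesh `h`, shifted by `τ` -/
noncomputable def lat (h : ℝ) (τ : ℝ × ℝ) (z : ℤ × ℤ) : ℝ × ℝ :=
  (h * (z.1 + z.2 / 2) + τ.1, h * (√3 / 2 * z.2) + τ.2)

/-- the vertices of the lattice triangles -/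
noncomputable def tv (h : ℝ) (τ : ℝ × ℝ) (t : (ℤ × ℤ) × Fin 2) : Fin 3 → ℝ × ℝ :=
  if t.2 = 0 then ![lat h τ t.1, lat h τ (t.1 + (1, 0)), lat h τ (t.1 + (0, 1))]
  else ![lat h τ (t.1 + (1, 1)), lat h τ (t.1 + (0, 1)), lat h τ (t.1 + (1, 0))]

end Pool.Agent.Helper320.Gold
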