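import Mathlib
import Pool.Agent.Helper320.GBase

set_option autoImplicit false
open Set

namespace Pool.Agent.Helper320.Gold

/-- the cross product -/
noncomputable def cr (u v : E3) : E3 :=
  WithLp.toLp 2 ![u 1 * v 2 - u 2 * v 1, u 2 * v 0 - u 0 * v 2, u 0 * v 1 - u 1 * v 0]

/-- the vertex of the polar body dual to the facet `u v w` -/
noncomputable def nv (u v w : E3) : E3 := (tp u v w)⁻¹ • (cr u v + cr v w + cr w u)

/-- the polar body -/
def polar (S : Finset E3) : Set E3 := {x | ∀ u ∈ S, inner ℝ x u ≤ 1}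

/-- the dual vertex of an oriented facet -/
noncomputable def va (t : E3 × E3 × E3) : E3 := nv t.1 t.2.1 t.2.2

/-- the dual vertex of the facet across the edge `t.1 t.2.1` -/
noncomputable def vb (S : Finset E3) (t : E3 × E3 × E3) : E3 := nv t.2.1 t.1 (nxt S t.2.1 t.1)

/-- the constant `k(π/3)` -/
noncomputable def k0 : ℝ := 3 * √3 / 5

/-- deviation of a triangle with apex at the origin, side vectors of lengths `r`, `s`, apex angle
`φ`, from one sixth of a regular hexagon; `A0` is the reference area. -/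
noncomputable def penA (A0 r s φ : ℝ) : ℝ :=
  r * s * Real.sin φ / 12 * (r ^ 2 + s ^ 2 + r * s * Real.cos φ) -
    2 * (A0 / k0) * (r * s * Real.sin φ / 2) +
    (A0 / k0) ^ 2 * (k0 + 24 / 25 * (φ - Real.pi / 3))

/-- area of the fan triangle -/
noncomputable def Ar (S : Finset E3) (t : E3 × E3 × E3) : ℝ := tp t.1 (vb S t) (va t) / 2

/-- second moment of the fan triangle about its apex -/
noncomputable def Mt (S : Finset E3) (t : E3 × E3 × E3) : ℝ :=
  Ar S t / 6 * (‖vb S t - t.1‖ ^ 2 + ‖va t - t.1‖ ^ 2 + inner ℝ (vb S t - t.1) (va t - t.1))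

/-- apex angle of the fan triangle -/
noncomputable def ang (S : Finset E3) (t : E3 × E3 × E3) : ℝ :=
  InnerProductGeometry.angle (vb S t - t.1) (va t - t.1)

/-- deviation of the fan triangle -/
noncomputable def pt (S : Finset E3) (A0 : ℝ) (t : E3 × E3 × E3) : ℝ :=
  penA A0 ‖vb S t - t.1‖ ‖va t - t.1‖ (ang S t)

/-- sector over the fan triangle -/
noncomputable def vW (S : Finset E3) (t : E3 × E3 × E3) : ℝ :=
  (MeasureTheory.volume (cone3 t.1 (vb S t) (va t) ∩ Metric.closedBall 0 1)).toReal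

/-- squared Euclidean distance in the chart -/
def d2 (z v : ℝ × ℝ) : ℝ := (z.1 - v.1) ^ 2 + (z.2 - v.2) ^ 2

/-- the cone over a subset of the tangent plane -/
def con (w e f : E3) (Z : Set (ℝ × ℝ)) : Set E3 := {x | ∃ r : ℝ, 0 ≤ r ∧ ∃ z ∈ Z, x = r • pl w e f z}

end Pool.Agent.Helper320.Gold
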