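import Mathlib
import Pool.Agent.Helper320.GBase

set_option autoImplicit false
open Set

namespace Pool.Agent.Helper320.Gold.NFA

open Pool.Agent.Helper320.Gold

theorem inner_e (a x : E3) : inner ℝ a x = a 0 * x 0 + a 1 * x 1 + a 2 * x 2 := by
  simp [PiLp.inner_apply, Fin.sum_univ_three, mul_comm]

/-- cross product -/
noncomputable def cr (v w : E3) : E3 :=
  !₂[v 1 * w 2 - v 2 * w 1, v 2 * w 0 - v 0 * w 2, v 0 * w 1 - v 1 * w 0]

theorem inner_cr (v w x : E3) : inner ℝ (cr v w) x = tp v w x := by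
  rw [inner_e]; simp [cr, tp]; ring

theorem ext3 {a b : E3} (h0 : a 0 = b 0) (h1 : a 1 = b 1) (h2 : a 2 = b 2) : a = b := by
  ext i; fin_cases i <;> assumption

theorem unit_e {x : E3} (h : ‖x‖ = 1) : x 0 ^ 2 + x 1 ^ 2 + x 2 ^ 2 = 1 := by
  have := real_inner_self_eq_norm_sq x
  rw [h, inner_e] at this; linarith [this]

theorem eq_of_inner {u v : E3} (hu : ‖u‖ = 1) (hv : ‖v‖ = 1) (h : inner ℝ u v = 1) : u = v := by
  have := (inner_eq_one_iff_of_norm_eq_one (𝕜 := ℝ) hu hv).1 h
  exact this

theorem max_pos {S : Finset E3} (hS : Good S) {a u : E3} (ha : a ≠ 0) (h : IsMax S a u) :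
    0 < inner ℝ a u := by
  obtain ⟨x, hx, hp⟩ := hS.origin a ha
  exact lt_of_lt_of_le hp (h.2 x hx)

theorem max_eq {S : Finset E3} {a u v : E3} (h : IsMax S a u) (h' : IsMax S a v) :
    inner ℝ a u = inner ℝ a v :=
  le_antisymm (h'.2 u h.1) (h.2 v h'.1)

/-- core of target 1 -/
theorem tp_ne_of {u v w a : E3} (hu : ‖u‖ = 1) (hv : ‖v‖ = 1) (hw : ‖w‖ = 1)
    (huv : u ≠ v) (hvw : v ≠ w) (huw : u ≠ w) (hp : 0 < inner ℝ a u)
    (h1 : inner ℝ a u = inner ℝ a v) (h2 : inner ℝ a u = inner ℝ a w) : tp u v w ≠ 0 := by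
  intro ht
  have hdet : (Matrix.of ![![u 0, u 1, u 2], ![v 0, v 1, v 2], ![w 0, w 1, w 2]]).det = 0 := by
    rw [Matrix.det_fin_three]; simp; rw [tp] at ht; linarith
  obtain ⟨c, hc, hcm⟩ := Matrix.exists_vecMul_eq_zero_iff.2 hdet
  have e0 := congrFun hcm 0
  have e1 := congrFun hcm 1
  have e2 := congrFun hcm 2
  simp [Matrix.vecMul, dotProduct, Fin.sum_univ_three] at e0 e1 e2
  have hs : c 0 + c 1 + c 2 = 0 := by
    have : (c 0 + c 1 + c 2) * inner ℝ a u = 0 := by
      have : (c 0 + c 1 + c 2) * inner ℝ a u = c 0 * inner ℝ a u + c 1 * inner ℝ a v + c 2 * inner ℝ a w := by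
        rw [← h1, ← h2]; ring
      rw [this, inner_e, inner_e, inner_e]
      linear_combination a 0 * e0 + a 1 * e1 + a 2 * e2
    rcases mul_eq_zero.1 this with h | h
    · exact h
    · linarith
  have nu := unit_e hu
  have nv := unit_e hv
  have nw := unit_e hw
  have key : ∀ (p q r : E3) (x y z : ℝ), p 0 ^ 2 + p 1 ^ 2 + p 2 ^ 2 = 1 →
      q 0 ^ 2 + q 1 ^ 2 + q 2 ^ 2 = 1 → r 0 ^ 2 + r 1 ^ 2 + r 2 ^ 2 = 1 →
      x * p 0 + y * q 0 + z * r 0 = 0 → x * p 1 + y * q 1 + z * r 1 = 0 →
      x * p 2 + y * q 2 + z * r 2 = 0 → x + y + z = 0 → x * y * (inner ℝ p q - 1) = 0 := by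
    intro p q r x y z hp hq hr g0 g1 g2 g3
    rw [inner_e]
    have hz : z = -(x + y) := by linarith
    subst hz
    have i0 : x * p 0 + y * q 0 = (x + y) * r 0 := by linarith
    have i1 : x * p 1 + y * q 1 = (x + y) * r 1 := by linarith
    have i2 : x * p 2 + y * q 2 = (x + y) * r 2 := by linarith
    have : (x * p 0 + y * q 0) ^ 2 + (x * p 1 + y * q 1) ^ 2 + (x * p 2 + y * q 2) ^ 2 =
        (x + y) ^ 2 := by
      rw [i0, i1, i2]; linear_combination (x + y) ^ 2 * hr
    linear_combination (1/2) * this - (1/2) * x ^ 2 * hp - (1/2) * y ^ 2 * hq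
  have k1 := key u v w (c 0) (c 1) (c 2) nu nv nw e0 e1 e2 hs
  have k2 := key v w u (c 1) (c 2) (c 0) nv nw nu (by linarith) (by linarith) (by linarith) (by linarith)
  have k3 := key u w v (c 0) (c 2) (c 1) nu nw nv (by linarith) (by linarith) (by linarith) (by linarith)
  have l1 : inner ℝ u v - 1 ≠ 0 := fun h => huv (eq_of_inner hu hv (by linarith))
  have l2 : inner ℝ v w - 1 ≠ 0 := fun h => hvw (eq_of_inner hv hw (by linarith))
  have l3 : inner ℝ u w - 1 ≠ 0 := fun h => huw (eq_of_inner hu hw (by linarith))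
  have m1 : c 0 * c 1 = 0 := (mul_eq_zero.1 k1).resolve_right l1
  have m2 : c 1 * c 2 = 0 := (mul_eq_zero.1 k2).resolve_right l2
  have m3 : c 0 * c 2 = 0 := (mul_eq_zero.1 k3).resolve_right l3
  have q0 : c 0 = 0 := by
    have : c 0 * c 0 = 0 := by
      have : c 0 * (c 0 + c 1 + c 2) = 0 := by rw [hs, mul_zero]
      linarith
    simpa using this
  have q1 : c 1 = 0 := by
    have : c 1 * c 1 = 0 := by
      have : c 1 * (c 0 + c 1 + c 2) = 0 := by rw [hs, mul_zero]
      linarith
    simpa using this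
  have q2 : c 2 = 0 := by linarith
  exact hc (by ext i; fin_cases i <;> simp [q0, q1, q2])

theorem facet_tp_ne {S : Finset E3} (hS : Good S) {u v w : E3} (h : Facet S u v w) :
    tp u v w ≠ 0 := by
  obtain ⟨huv, hvw, huw, a, ha, hm⟩ := h
  have mu := (hm u).2 (by simp)
  have mv := (hm v).2 (by simp)
  have mw := (hm w).2 (by simp)
  exact tp_ne_of (hS.unit u mu.1) (hS.unit v mv.1) (hS.unit w mw.1) huv hvw huw
    (max_pos hS ha mu) (max_eq mu mv) (max_eq mu mw)

theorem exists_eps (S : Finset E3) (a b : E3) (m : ℝ) :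
    ∃ e : ℝ, 0 < e ∧ ∀ x ∈ S, inner ℝ a x < m → inner ℝ (a + e • b) x < m := by
  have h : ∀ᶠ e : ℝ in nhdsWithin 0 (Ioi 0), ∀ x ∈ S, inner ℝ a x < m → inner ℝ (a + e • b) x < m := by
    rw [Filter.eventually_all_finset]
    intro x hx
    by_cases hl : inner ℝ a x < m
    · have hc : Filter.Tendsto (fun e : ℝ => inner ℝ (a + e • b) x) (nhdsWithin 0 (Ioi 0))
          (nhds (inner ℝ (a + (0:ℝ) • b) x)) := by
        apply Filter.Tendsto.mono_left _ nhdsWithin_le_nhds
        exact Continuous.tendsto (by fun_prop) 0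
      rw [zero_smul, add_zero] at hc
      filter_upwards [hc.eventually (gt_mem_nhds hl)] with e he _
      exact he
    · filter_upwards with e h'
      exact absurd h' hl
  obtain ⟨e, he1, he2⟩ := (h.and self_mem_nhdsWithin).exists
  exact ⟨e, he2, he1⟩

theorem adj_of_facet {S : Finset E3} (hS : Good S) {u v w : E3} (h : Facet S u v w) :
    Adj S u v := by
  have ht := facet_tp_ne hS h
  obtain ⟨huv, hvw, huw, a, ha, hm⟩ := h
  have mu := (hm u).2 (by simp)
  have mv := (hm v).2 (by simp)
  have mw := (hm w).2 (by simp)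
  refine ⟨huv, ?_⟩
  obtain ⟨e, he, hx⟩ := exists_eps S a (-(tp u v w) • cr u v) (inner ℝ a u)
  set a' := a + e • (-(tp u v w) • cr u v) with ha'
  have hpos := max_pos hS ha mu
  have hin : ∀ x, inner ℝ a' x = inner ℝ a x - e * tp u v w * tp u v x := by
    intro x
    rw [ha', inner_add_left, inner_smul_left, inner_smul_left, inner_cr]
    simp; ring
  have hau : inner ℝ a' u = inner ℝ a u := by
    rw [hin, show tp u v u = 0 by simp [tp]; ring]; ring
  have hav : inner ℝ a' v = inner ℝ a u := by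
    rw [hin, show tp u v v = 0 by simp [tp]; ring, max_eq mu mv]; ring
  have haw : inner ℝ a' w < inner ℝ a u := by
    rw [hin, max_eq mu mw]
    have : 0 < e * tp u v w * tp u v w := by
      rw [mul_assoc]; exact mul_pos he (mul_self_pos.2 ht)
    linarith
  have hle : ∀ x ∈ S, (x = u ∨ x = v) ∨ inner ℝ a' x < inner ℝ a u := by
    intro x hxS
    by_cases h1 : x = u ∨ x = v
    · exact Or.inl h1
    right
    by_cases h2 : x = w
    · rw [h2]; exact haw
    apply hx x hxS
    by_contra hcon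
    push Not at hcon
    have : IsMax S a x := ⟨hxS, fun y hy => (mu.2 y hy).trans hcon⟩
    rcases (hm x).1 this with h | h | h
    · exact h1 (Or.inl h)
    · exact h1 (Or.inr h)
    · exact h2 h
  refine ⟨a', ?_, ?_⟩
  · intro h0
    rw [h0, inner_zero_left] at hau
    linarith
  · intro x
    constructor
    · intro hmx
      rcases hle x hmx.1 with h | h
      · exact h
      · have := hmx.2 u mu.1
        rw [hau] at this
        linarith
    · intro hx'
      have hval : inner ℝ a' x = inner ℝ a u := by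
        rcases hx' with h | h
        · rw [h, hau]
        · rw [h, hav]
      refine ⟨by rcases hx' with h | h <;> rw [h]; exacts [mu.1, mv.1], ?_⟩
      intro y hy
      rw [hval]
      rcases hle y hy with (h | h) | h
      · rw [h, hau]
      · rw [h, hav]
      · exact h.le

theorem exists_facet {S : Finset E3} (hS : Good S) {v w : E3} (h : Adj S v w) :
    ∃ x, Facet S v w x ∧ 0 < tp v w x := by
  classical
  obtain ⟨hvw, a, ha, hm⟩ := h
  have mv := (hm v).2 (by simp)
  have mw := (hm w).2 (by simp)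
  have hpos := max_pos hS ha mv
  have heq := max_eq mv mw
  have hv := hS.unit v mv.1
  have hw := hS.unit w mw.1
  have hb : cr v w ≠ 0 := by
    intro h0
    have c0 : v 1 * w 2 - v 2 * w 1 = 0 := by
      have := congrArg (fun z : E3 => z 0) h0; simpa [cr] using this
    have c1 : v 2 * w 0 - v 0 * w 2 = 0 := by
      have := congrArg (fun z : E3 => z 1) h0; simpa [cr] using this
    have c2 : v 0 * w 1 - v 1 * w 0 = 0 := by
      have := congrArg (fun z : E3 => z 2) h0; simpa [cr] using this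
    have nv := unit_e hv
    have nw := unit_e hw
    have hsq : (inner ℝ v w - 1) * (inner ℝ v w + 1) = 0 := by
      rw [inner_e]
      have : (v 0 ^ 2 + v 1 ^ 2 + v 2 ^ 2) * (w 0 ^ 2 + w 1 ^ 2 + w 2 ^ 2) = 1 := by
        rw [nv, nw]; norm_num
      linear_combination this - (v 1 * w 2 - v 2 * w 1) * c0 - (v 2 * w 0 - v 0 * w 2) * c1 -
        (v 0 * w 1 - v 1 * w 0) * c2
    rcases mul_eq_zero.1 hsq with h | h
    · exact hvw (eq_of_inner hv hw (by linarith))
    · have : v = -w := by
        apply eq_of_inner hv (by rw [norm_neg]; exact hw)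
        rw [inner_neg_right]; linarith
      rw [this, inner_neg_right] at heq
      rw [this, inner_neg_right] at hpos
      linarith
  obtain ⟨z, hzS, hz⟩ := hS.origin _ hb
  set T := S.filter (fun x => 0 < inner ℝ (cr v w) x) with hT
  have hTne : T.Nonempty := ⟨z, by rw [hT, Finset.mem_filter]; exact ⟨hzS, hz⟩⟩
  obtain ⟨x0, hx0, hmin⟩ := Finset.exists_min_image T
    (fun x => (inner ℝ a v - inner ℝ a x) / inner ℝ (cr v w) x) hTne
  rw [hT, Finset.mem_filter] at hx0
  obtain ⟨hx0S, hx0p⟩ := hx0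
  set s := (inner ℝ a v - inner ℝ a x0) / inner ℝ (cr v w) x0 with hs
  set a' := a + s • cr v w with ha'
  have hin : ∀ x, inner ℝ a' x = inner ℝ a x + s * tp v w x := by
    intro x
    rw [ha', inner_add_left, inner_smul_left, inner_cr]
    simp
  have tv : tp v w v = 0 := by simp [tp]; ring
  have tw : tp v w w = 0 := by simp [tp]; ring
  have hav : inner ℝ a' v = inner ℝ a v := by rw [hin, tv]; ring
  have haw : inner ℝ a' w = inner ℝ a v := by rw [hin, tw, heq]; ring
  have hs0 : 0 ≤ s := by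
    rw [hs]; exact div_nonneg (sub_nonneg.2 (mv.2 x0 hx0S)) hx0p.le
  have hax0 : inner ℝ a' x0 = inner ℝ a v := by
    rw [hin, ← inner_cr, hs]; field_simp; ring
  have hle : ∀ x ∈ S, inner ℝ a' x ≤ inner ℝ a v := by
    intro x hx
    rw [hin]
    by_cases hp : 0 < inner ℝ (cr v w) x
    · have := hmin x (by rw [hT, Finset.mem_filter]; exact ⟨hx, hp⟩)
      rw [le_div_iff₀ hp, inner_cr] at this
      linarith
    · push Not at hp
      rw [inner_cr] at hp
      have := mv.2 x hx
      have : s * tp v w x ≤ 0 := mul_nonpos_of_nonneg_of_nonpos hs0 hp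
      linarith
  have ha0 : a' ≠ 0 := by
    intro h0
    rw [h0, inner_zero_left] at hav
    linarith
  have M : ∀ x ∈ S, inner ℝ a' x = inner ℝ a v → IsMax S a' x := fun x hx he =>
    ⟨hx, fun y hy => by rw [he]; exact hle y hy⟩
  have mv' := M v mv.1 hav
  have mw' := M w mw.1 haw
  have mx' := M x0 hx0S hax0
  have hx0p' : 0 < tp v w x0 := by rw [← inner_cr]; exact hx0p
  have hvx : v ≠ x0 := by rintro rfl; linarith
  have hwx : w ≠ x0 := by rintro rfl; linarith
  refine ⟨x0, ⟨hvw, hwx, hvx, a', ha0, ?_⟩, hx0p'⟩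
  intro x
  constructor
  · intro hx
    by_contra hcon
    push Not at hcon
    obtain ⟨n1, n2, n3⟩ := hcon
    have hc := hS.simp a' ha0 {x, v, w, x0} (by
      intro y hy
      simp only [Finset.mem_insert, Finset.mem_singleton] at hy
      rcases hy with rfl | rfl | rfl | rfl
      · exact hx
      · exact mv'
      · exact mw'
      · exact mx')
    rw [Finset.card_insert_of_notMem (by simp [n1, n2, n3]),
      Finset.card_insert_of_notMem (by simp [hvw, hvx]),
      Finset.card_insert_of_notMem (by simp [hwx]), Finset.card_singleton] at hc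
    omega
  · rintro (rfl | rfl | rfl)
    · exact mv'
    · exact mw'
    · exact mx'

theorem facet_unique {S : Finset E3} (hS : Good S) {v w x y : E3} (hx : Facet S v w x)
    (hy : Facet S v w y) (px : 0 < tp v w x) (py : 0 < tp v w y) : x = y := by
  obtain ⟨hvw, hwx, hvx, a, ha, hm⟩ := hx
  obtain ⟨-, hwy, hvy, b, hb, hn⟩ := hy
  have mv := (hm v).2 (by simp)
  have mw := (hm w).2 (by simp)
  have mx := (hm x).2 (by simp)
  have nv := (hn v).2 (by simp)
  have nw := (hn w).2 (by simp)
  have ny := (hn y).2 (by simp)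
  have pa := max_pos hS ha mv
  have pb := max_pos hS hb nv
  -- D = m b - m' a
  set m := inner ℝ a v with hmdef
  set m' := inner ℝ b v with hm'def
  have aw : inner ℝ a w = m := max_eq mw mv
  have ax : inner ℝ a x = m := max_eq mx mv
  have bw : inner ℝ b w = m' := max_eq nw nv
  have by' : inner ℝ b y = m' := max_eq ny nv
  have ay : inner ℝ a y ≤ m := mv.2 y ny.1
  have bx : inner ℝ b x ≤ m' := nv.2 x mx.1
  have key : (m * inner ℝ b x - m' * inner ℝ a x) * tp v w y =
      (m * inner ℝ b y - m' * inner ℝ a y) * tp v w x := by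
    have h1 : m * inner ℝ b v - m' * inner ℝ a v = 0 := by rw [← hmdef, ← hm'def]; ring
    have h2 : m * inner ℝ b w - m' * inner ℝ a w = 0 := by rw [aw, bw]; ring
    have h3 : (m * inner ℝ b x - m' * inner ℝ a x) * tp v w y -
      (m * inner ℝ b y - m' * inner ℝ a y) * tp v w x =
      - (m * inner ℝ b v - m' * inner ℝ a v) * tp w x y + (m * inner ℝ b w - m' * inner ℝ a w) * tp v x y := by
      simp only [inner_e, tp]
      clear_value m m'
      ring
    rw [h1, h2] at h3
    linarith
  have d1 : m * inner ℝ b x - m' * inner ℝ a x ≤ 0 := by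
    rw [ax]; nlinarith
  have d2 : 0 ≤ m * inner ℝ b y - m' * inner ℝ a y := by
    rw [by']; nlinarith
  have d3 : (m * inner ℝ b x - m' * inner ℝ a x) * tp v w y ≤ 0 :=
    mul_nonpos_of_nonpos_of_nonneg d1 py.le
  have d4 : 0 ≤ (m * inner ℝ b y - m' * inner ℝ a y) * tp v w x := mul_nonneg d2 px.le
  have d5 : (m * inner ℝ b x - m' * inner ℝ a x) * tp v w y = 0 := by
    apply le_antisymm d3; rw [key]; exact d4
  have d6 : m * inner ℝ b x - m' * inner ℝ a x = 0 := (mul_eq_zero.1 d5).resolve_right py.ne'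
  rw [ax] at d6
  have d7 : inner ℝ b x = m' := by
    have : m * (inner ℝ b x - m') = 0 := by linarith
    have := (mul_eq_zero.1 this).resolve_left pa.ne'
    linarith
  have : IsMax S b x := ⟨mx.1, fun z hz => by rw [d7]; exact nv.2 z hz⟩
  rcases (hn x).1 this with h | h | h
  · exact absurd h.symm hvx
  · exact absurd h.symm hwx
  · exact h

theorem facet_normal {S : Finset E3} (hS : Good S) {u v w a b : E3} (h : Facet S u v w)
    (ha : a ≠ 0) (hb : b ≠ 0) (hau : IsMax S a u) (hav : IsMax S a v) (haw : IsMax S a w)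
    (hbu : IsMax S b u) (hbv : IsMax S b v) (hbw : IsMax S b w) :
    ∃ c : ℝ, 0 < c ∧ b = c • a := by
  have ht := facet_tp_ne hS h
  have pa := max_pos hS ha hau
  have pb := max_pos hS hb hbu
  set m := inner ℝ a u with hmdef
  set m' := inner ℝ b u with hm'def
  have av : inner ℝ a v = m := max_eq hav hau
  have aw : inner ℝ a w = m := max_eq haw hau
  have bv : inner ℝ b v = m' := max_eq hbv hbu
  have bw : inner ℝ b w = m' := max_eq hbw hbu
  refine ⟨m' / m, div_pos pb pa, ?_⟩
  have h1 : m * inner ℝ b u - m' * inner ℝ a u = 0 := by rw [← hmdef, ← hm'def]; ring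
  have h2 : m * inner ℝ b v - m' * inner ℝ a v = 0 := by rw [av, bv]; ring
  have h3 : m * inner ℝ b w - m' * inner ℝ a w = 0 := by rw [aw, bw]; ring
  have z : ∀ i : Fin 3, m * b i - m' * a i = 0 := by
    have hh : ∀ i : Fin 3, tp u v w * (m * b i - m' * a i) = 0 := by
      clear_value m m'
      simp only [inner_e] at h1 h2 h3
      intro i
      fin_cases i
      · simp only [tp, Fin.isValue, Fin.zero_eta]
        linear_combination (v 1 * w 2 - v 2 * w 1) * h1 + (w 1 * u 2 - w 2 * u 1) * h2 +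
          (u 1 * v 2 - u 2 * v 1) * h3
      · simp only [tp, Fin.isValue, Fin.mk_one]
        linear_combination (v 2 * w 0 - v 0 * w 2) * h1 + (w 2 * u 0 - w 0 * u 2) * h2 +
          (u 2 * v 0 - u 0 * v 2) * h3
      · simp only [tp, Fin.isValue, Fin.reduceFinMk]
        linear_combination (v 0 * w 1 - v 1 * w 0) * h1 + (w 0 * u 1 - w 1 * u 0) * h2 +
          (u 0 * v 1 - u 1 * v 0) * h3
    intro i
    exact (mul_eq_zero.1 (hh i)).resolve_left ht
  ext i
  have := z i
  simp only [PiLp.smul_apply, smul_eq_mul]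
  field_simp
  linarith

end Pool.Agent.Helper320.Gold.NFA
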