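import Mathlib
import Pool.Agent.Helper320.GBase
import Pool.Agent.Helper320.GFA

set_option autoImplicit false
open Set

namespace Pool.Agent.Helper320.Gold.NL

open Pool.Agent.Helper320.Gold Pool.Agent.Helper320.Gold.NFA

theorem lk_swap {S : Finset E3} {u v w : E3} (h : Facet S u v w) : Facet S u w v := by
  obtain ⟨h1, h2, h3, a, ha, hx⟩ := h
  exact ⟨h3, h2.symm, h1, a, ha, fun x => by rw [hx x]; tauto⟩

theorem lk_rot {S : Finset E3} {u v w : E3} (h : Facet S u v w) : Facet S w u v := by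
  obtain ⟨h1, h2, h3, a, ha, hx⟩ := h
  exact ⟨h3.symm, h1, h2.symm, a, ha, fun x => by rw [hx x]; tauto⟩

theorem lk_tp_rot (u v w : E3) : tp w u v = tp u v w := by unfold tp; ring

theorem lk_tp_swap (u v w : E3) : tp u w v = - tp u v w := by unfold tp; ring

theorem lk_inner (x y : E3) : inner ℝ x y = x 0 * y 0 + x 1 * y 1 + x 2 * y 2 := by
  rw [PiLp.inner_apply, Fin.sum_univ_three]
  simp only [RCLike.inner_apply, conj_trivial]
  ring

theorem nxt_spec {S : Finset E3} (hS : Good S) {v w : E3} (h : Adj S v w) :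
    Facet S v w (nxt S v w) ∧ 0 < tp v w (nxt S v w) := by
  have hex := exists_facet hS h
  unfold nxt
  rw [dif_pos hex]
  exact hex.choose_spec

theorem adj_nxt {S : Finset E3} (hS : Good S) {v w : E3} (h : Adj S v w) :
    Adj S v (nxt S v w) :=
  adj_of_facet hS (lk_swap (nxt_spec hS h).1)

theorem nxt_inj {S : Finset E3} (hS : Good S) {v w w' : E3} (h : Adj S v w) (h' : Adj S v w')
    (e : nxt S v w = nxt S v w') : w = w' := by
  obtain ⟨h1, h2⟩ := nxt_spec hS h
  obtain ⟨h3, h4⟩ := nxt_spec hS h'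
  rw [← e] at h3 h4
  exact facet_unique hS (lk_rot h1) (lk_rot h3) (by rw [lk_tp_rot]; exact h2)
    (by rw [lk_tp_rot]; exact h4)

theorem nxt_eq {S : Finset E3} (hS : Good S) {v w x : E3} (h : Facet S v w x)
    (p : 0 < tp v w x) : nxt S v w = x := by
  obtain ⟨h1, h2⟩ := nxt_spec hS (adj_of_facet hS h)
  exact facet_unique hS h1 h h2 p

theorem lk_mem {S : Finset E3} {v w : E3} (h : Adj S v w) : w ∈ S := by
  obtain ⟨-, a, -, hx⟩ := h
  exact ((hx w).2 (Or.inr rfl)).1

theorem lk_fin (S : Finset E3) (v : E3) : {w | Adj S v w}.Finite :=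
  (S.finite_toSet).subset fun _ hw => lk_mem hw

theorem lk_normal {S : Finset E3} (hS : Good S) {v y z : E3} (h : Facet S v y z) :
    ∃ a : E3, inner ℝ a v = 1 ∧ inner ℝ a y = 1 ∧ inner ℝ a z = 1 ∧
      (∀ x ∈ S, inner ℝ a x ≤ 1) ∧ ∀ x ∈ S, inner ℝ a x = 1 → (x = v ∨ x = y ∨ x = z) := by
  obtain ⟨h1, h2, h3, a, ha, hx⟩ := h
  have hv := (hx v).2 (Or.inl rfl)
  have hy := (hx y).2 (Or.inr (Or.inl rfl))
  have hz := (hx z).2 (Or.inr (Or.inr rfl))
  obtain ⟨x₀, hx₀, hpos⟩ := hS.origin a ha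
  have hav : 0 < inner ℝ a v := lt_of_lt_of_le hpos (hv.2 x₀ hx₀)
  have hay : inner ℝ a y = inner ℝ a v := le_antisymm (hv.2 y hy.1) (hy.2 v hv.1)
  have haz : inner ℝ a z = inner ℝ a v := le_antisymm (hv.2 z hz.1) (hz.2 v hv.1)
  refine ⟨(inner ℝ a v)⁻¹ • a, ?_, ?_, ?_, ?_, ?_⟩
  · rw [real_inner_smul_left, inv_mul_cancel₀ hav.ne']
  · rw [real_inner_smul_left, hay, inv_mul_cancel₀ hav.ne']
  · rw [real_inner_smul_left, haz, inv_mul_cancel₀ hav.ne']
  · intro x hxS
    rw [real_inner_smul_left, inv_mul_le_iff₀ hav, mul_one]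
    exact hv.2 x hxS
  · intro x hxS hxe
    rw [real_inner_smul_left, inv_mul_eq_iff_eq_mul₀ hav.ne', mul_one] at hxe
    exact (hx x).1 ⟨hxS, fun t ht => by rw [hxe]; exact hv.2 t ht⟩

theorem lk_basis {v y z q : E3} (h : tp v y z ≠ 0) (h1 : inner ℝ q v = 0)
    (h2 : inner ℝ q y = 0) (h3 : inner ℝ q z = 0) : q = 0 := by
  rw [lk_inner] at h1 h2 h3
  have e0 : q 0 = 0 := by
    have : q 0 * tp v y z = 0 := by
      unfold tp
      linear_combination (y 1 * z 2 - y 2 * z 1) * h1 - (v 1 * z 2 - v 2 * z 1) * h2 +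
        (v 1 * y 2 - v 2 * y 1) * h3
    exact (mul_eq_zero.1 this).resolve_right h
  have e1 : q 1 = 0 := by
    have : q 1 * tp v y z = 0 := by
      unfold tp
      linear_combination -(y 0 * z 2 - y 2 * z 0) * h1 + (v 0 * z 2 - v 2 * z 0) * h2 -
        (v 0 * y 2 - v 2 * y 0) * h3
    exact (mul_eq_zero.1 this).resolve_right h
  have e2 : q 2 = 0 := by
    have : q 2 * tp v y z = 0 := by
      unfold tp
      linear_combination (y 0 * z 1 - y 1 * z 0) * h1 - (v 0 * z 1 - v 1 * z 0) * h2 +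
        (v 0 * y 1 - v 1 * y 0) * h3
    exact (mul_eq_zero.1 this).resolve_right h
  ext i
  fin_cases i
  · exact e0
  · exact e1
  · exact e2

theorem link_conn {S : Finset E3} (hS : Good S) {v w w' : E3} (h : Adj S v w)
    (h' : Adj S v w') : ∃ k : ℕ, (nxt S v)^[k] w = w' := by
  classical
  -- the orbit
  set O : Set E3 := {y | ∃ k : ℕ, (nxt S v)^[k] w = y} with hO
  have hadj : ∀ k : ℕ, Adj S v ((nxt S v)^[k] w) := by
    intro k
    induction k with
    | zero => exact h
    | succ k ih => rw [Function.iterate_succ_apply']; exact adj_nxt hS ih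
  have hOadj : ∀ y ∈ O, Adj S v y := by
    rintro y ⟨k, rfl⟩
    exact hadj k
  have hOfin : O.Finite := (lk_fin S v).subset fun y hy => hOadj y hy
  have hwO : w ∈ O := ⟨0, rfl⟩
  have hmaps : MapsTo (nxt S v) O O := by
    rintro y ⟨k, rfl⟩
    exact ⟨k + 1, by rw [Function.iterate_succ_apply']⟩
  have hinj : InjOn (nxt S v) O := fun y hy z hz e => nxt_inj hS (hOadj y hy) (hOadj z hz) e
  have hsurj : SurjOn (nxt S v) O O := ((hOfin.injOn_iff_bijOn_of_mapsTo hmaps).1 hinj).surjOn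
  -- normals
  have hnorm : ∀ y, ∃ a : E3, Adj S v y → (inner ℝ a v = 1 ∧ inner ℝ a y = 1 ∧
      inner ℝ a (nxt S v y) = 1 ∧
      (∀ x ∈ S, inner ℝ a x ≤ 1) ∧
      ∀ x ∈ S, inner ℝ a x = 1 → (x = v ∨ x = y ∨ x = nxt S v y)) := by
    intro y
    by_cases hy : Adj S v y
    · obtain ⟨a, ha⟩ := lk_normal hS (nxt_spec hS hy).1
      exact ⟨a, fun _ => ha⟩
    · exact ⟨0, fun hh => absurd hh hy⟩
  choose f hf using hnorm
  set c : E3 := w' + nxt S v w' with hc
  have hw'S : w' ∈ S := lk_mem h'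
  have hn'S : nxt S v w' ∈ S := lk_mem (adj_nxt hS h')
  obtain ⟨y, hyO, hymax⟩ := Set.exists_max_image O (fun y => inner ℝ (f y) c) hOfin ⟨w, hwO⟩
  have hy := hOadj y hyO
  obtain ⟨ay1, ay2, ay3, ay4, ay5⟩ := hf y hy
  by_cases hcase : inner ℝ (f y) w' = 1
  · have hvw : w' ≠ v := h'.1.symm
    rcases ay5 w' hw'S hcase with e | e | e
    · exact absurd e hvw
    · rw [e]; exact hyO
    · rw [e]; exact hmaps hyO
  · exfalso
    obtain ⟨aw1, aw2, aw3, aw4, aw5⟩ := hf w' h'
    have hlt : inner ℝ (f y) c < 2 := by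
      rw [hc, inner_add_right]
      have h1 := lt_of_le_of_ne (ay4 w' hw'S) hcase
      have h2 := ay4 _ hn'S
      linarith
    have hwc : inner ℝ (f w') c = 2 := by
      rw [hc, inner_add_right, aw2, aw3]; norm_num
    obtain ⟨z, hz⟩ : ∃ z, z = nxt S v y := ⟨_, rfl⟩
    have hzO : z ∈ O := by rw [hz]; exact hmaps hyO
    have hzadj := hOadj z hzO
    obtain ⟨p, hpO, hpy⟩ := hsurj hyO
    have hpadj := hOadj p hpO
    obtain ⟨az1, az2, az3, az4, az5⟩ := hf z hzadj
    obtain ⟨ap1, ap2, ap3, ap4, ap5⟩ := hf p hpadj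
    rw [hpy] at ap3 ap5
    rw [← hz] at ay3 ay5
    obtain ⟨hfac, htp⟩ := nxt_spec hS hy
    rw [← hz] at hfac htp
    have hyS := lk_mem hy
    have hzS := lk_mem hzadj
    have hyv : y ≠ v := hy.1.symm
    have hzv : z ≠ v := hzadj.1.symm
    have hyz : y ≠ z := hfac.2.1
    -- e1
    have he1y : inner ℝ (f z) y < 1 := by
      apply lt_of_le_of_ne (az4 y hyS)
      intro hh
      rcases az5 y hyS hh with e | e | e
      · exact hyv e
      · exact hyz e
      · have h1 := (nxt_spec hS hzadj).2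
        rw [← e, lk_tp_swap] at h1
        linarith
    have he2z : inner ℝ (f p) z < 1 := by
      apply lt_of_le_of_ne (ap4 z hzS)
      intro hh
      rcases ap5 z hzS hh with e | e | e
      · exact hzv e
      · have h1 := (nxt_spec hS hpadj).2
        rw [hpy, ← e, lk_tp_swap] at h1
        linarith
      · exact hyz e.symm
    -- decomposition
    set α : ℝ := (inner ℝ (f w') y - 1) / (inner ℝ (f z) y - 1) with hα
    set β : ℝ := (inner ℝ (f w') z - 1) / (inner ℝ (f p) z - 1) with hβ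
    have hα0 : 0 ≤ α := div_nonneg_of_nonpos (by linarith [aw4 y hyS]) (by linarith)
    have hβ0 : 0 ≤ β := div_nonneg_of_nonpos (by linarith [aw4 z hzS]) (by linarith)
    have hαe : α * (inner ℝ (f z) y - 1) = inner ℝ (f w') y - 1 :=
      div_mul_cancel₀ _ (by linarith)
    have hβe : β * (inner ℝ (f p) z - 1) = inner ℝ (f w') z - 1 :=
      div_mul_cancel₀ _ (by linarith)
    have hdec : (f w' - f y) - α • (f z - f y) - β • (f p - f y) = 0 := by
      apply lk_basis htp.ne'
      · simp only [inner_sub_left, real_inner_smul_left, aw1, ay1, az1, ap1]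
        ring
      · simp only [inner_sub_left, real_inner_smul_left, ay2, ap3]
        linarith
      · simp only [inner_sub_left, real_inner_smul_left, ay3, az2]
        linarith
    have hcc := congrArg (fun q => inner ℝ q c) hdec
    simp only [inner_sub_left, real_inner_smul_left, inner_zero_left] at hcc
    have h1 := hymax z hzO
    have h2 := hymax p hpO
    have h3 : α * (inner ℝ (f z) c - inner ℝ (f y) c) ≤ 0 :=
      mul_nonpos_of_nonneg_of_nonpos hα0 (by linarith)
    have h4 : β * (inner ℝ (f p) c - inner ℝ (f y) c) ≤ 0 :=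
      mul_nonpos_of_nonneg_of_nonpos hβ0 (by linarith)
    linarith

theorem exists_label {S : Finset E3} (hS : Good S) {v : E3} (h6 : {w | Adj S v w}.ncard = 6) :
    ∃ lab : E3 → ZMod 6, (∀ w, Adj S v w → lab (nxt S v w) = lab w + 1) ∧
      ∀ k, ∃! w, Adj S v w ∧ lab w = k := by
  classical
  obtain ⟨w₀, hw₀⟩ : ∃ w, Adj S v w := by
    have : {w | Adj S v w}.Nonempty := by
      apply Set.nonempty_of_ncard_ne_zero
      omega
    exact this
  have hadj : ∀ k : ℕ, Adj S v ((nxt S v)^[k] w₀) := by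
    intro k
    induction k with
    | zero => exact hw₀
    | succ k ih => rw [Function.iterate_succ_apply']; exact adj_nxt hS ih
  obtain ⟨P, hP⟩ : ∃ P, P = Function.minimalPeriod (nxt S v) w₀ := ⟨_, rfl⟩
  have hPpos : 0 < P := by
    obtain ⟨k, hk⟩ := link_conn hS (adj_nxt hS hw₀) hw₀
    rw [hP]
    apply Function.IsPeriodicPt.minimalPeriod_pos (n := k + 1) (Nat.succ_pos k)
    unfold Function.IsPeriodicPt Function.IsFixedPt
    rw [Function.iterate_succ_apply]
    exact hk
  have hmod : ∀ n, (nxt S v)^[n % P] w₀ = (nxt S v)^[n] w₀ := by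
    intro n
    rw [hP]
    exact Function.iterate_mod_minimalPeriod_eq
  have hinj : ∀ i j, i < P → j < P → (nxt S v)^[i] w₀ = (nxt S v)^[j] w₀ → i = j := by
    intro i j hi hj e
    rw [hP] at hi hj
    exact (Function.iterate_eq_iterate_iff_of_lt_minimalPeriod hi hj).1 e
  have himg : {w | Adj S v w} = (fun k => (nxt S v)^[k] w₀) '' ↑(Finset.range P) := by
    ext w
    constructor
    · intro hw
      obtain ⟨k, hk⟩ := link_conn hS hw₀ hw
      refine ⟨k % P, ?_, ?_⟩
      · simpa using Nat.mod_lt k hPpos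
      · simp only [hmod]
        exact hk
    · rintro ⟨k, -, rfl⟩
      exact hadj k
  have hP6 : P = 6 := by
    rw [himg, Set.ncard_image_of_injOn, Set.ncard_coe_finset, Finset.card_range] at h6
    · exact h6
    · intro i hi j hj e
      simp only [Finset.coe_range, mem_Iio] at hi hj
      exact hinj i j hi hj e
  have hcong : ∀ i j : ℕ, (nxt S v)^[i] w₀ = (nxt S v)^[j] w₀ ↔ ((i : ZMod 6) = j) := by
    intro i j
    rw [ZMod.natCast_eq_natCast_iff]
    constructor
    · intro e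
      rw [← hmod i, ← hmod j] at e
      have := hinj _ _ (Nat.mod_lt i hPpos) (Nat.mod_lt j hPpos) e
      rw [hP6] at this
      exact this
    · intro e
      rw [← hmod i, ← hmod j, hP6]
      have : i % 6 = j % 6 := e
      rw [this]
  set lab : E3 → ZMod 6 := fun w => if h : ∃ k : ℕ, (nxt S v)^[k] w₀ = w then (h.choose : ZMod 6)
    else 0 with hlab
  have hlabk : ∀ k : ℕ, lab ((nxt S v)^[k] w₀) = k := by
    intro k
    have hex : ∃ j : ℕ, (nxt S v)^[j] w₀ = (nxt S v)^[k] w₀ := ⟨k, rfl⟩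
    simp only [hlab]
    rw [dif_pos hex]
    exact (hcong _ _).1 hex.choose_spec
  refine ⟨lab, ?_, ?_⟩
  · intro w hw
    obtain ⟨k, rfl⟩ := link_conn hS hw₀ hw
    rw [← Function.iterate_succ_apply' (nxt S v), hlabk, hlabk]
    push_cast
    rfl
  · intro κ
    refine ⟨(nxt S v)^[κ.val] w₀, ⟨hadj _, ?_⟩, ?_⟩
    · rw [hlabk, ZMod.natCast_val, ZMod.cast_id]
    · rintro w ⟨hw, hwk⟩
      obtain ⟨k, rfl⟩ := link_conn hS hw₀ hw
      rw [hlabk] at hwk
      rw [hcong, hwk, ZMod.natCast_val, ZMod.cast_id]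

end Pool.Agent.Helper320.Gold.NL
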