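import Mathlib
import Pool.Agent.Helper320.GBaseA
import Pool.Agent.Helper320.GFA
import Pool.Agent.Helper320.GL

set_option autoImplicit false
open Set

namespace Pool.Agent.Helper320.Gold.NA1

open Pool.Agent.Helper320.Gold Pool.Agent.Helper320.Gold.NFA Pool.Agent.Helper320.Gold.NL

/-! ### coordinates -/

theorem in3 (a x : E3) : inner ℝ a x = a 0 * x 0 + a 1 * x 1 + a 2 * x 2 := by
  rw [PiLp.inner_apply, Fin.sum_univ_three]
  simp only [RCLike.inner_apply, conj_trivial]
  ring

theorem ext3 {a b : E3} (h0 : a 0 = b 0) (h1 : a 1 = b 1) (h2 : a 2 = b 2) : a = b := by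
  ext i
  fin_cases i
  · exact h0
  · exact h1
  · exact h2

@[simp] theorem cr0 (u v : E3) : cr u v 0 = u 1 * v 2 - u 2 * v 1 := rfl
@[simp] theorem cr1 (u v : E3) : cr u v 1 = u 2 * v 0 - u 0 * v 2 := rfl
@[simp] theorem cr2 (u v : E3) : cr u v 2 = u 0 * v 1 - u 1 * v 0 := rfl

theorem inner_cr (u v w : E3) : inner ℝ (cr u v) w = tp u v w := by
  rw [in3]; simp only [cr0, cr1, cr2, tp]; ring

theorem cr_swap (u v : E3) : cr v u = - cr u v := by
  apply ext3 <;> simp only [PiLp.neg_apply, cr0, cr1, cr2] <;> ring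

/-- expansion in the dual basis -/
theorem E1 (u v w z : E3) : tp u v w • z =
    (inner ℝ z u : ℝ) • cr v w + (inner ℝ z v : ℝ) • cr w u + (inner ℝ z w : ℝ) • cr u v := by
  apply ext3 <;> simp only [PiLp.add_apply, PiLp.smul_apply, smul_eq_mul, cr0, cr1, cr2, in3, tp] <;>
    ring

/-- expansion in the basis -/
theorem E2 (u v w z : E3) : tp u v w • z = tp z v w • u + tp u z w • v + tp u v z • w := by
  apply ext3 <;> simp only [PiLp.add_apply, PiLp.smul_apply, smul_eq_mul, tp] <;> ring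

theorem tp_swap (u v w : E3) : tp v u w = - tp u v w := by simp only [tp]; ring

theorem tp_cyc (u v w : E3) : tp v w u = tp u v w := by simp only [tp]; ring

/-- uniqueness of a vector with given products -/
theorem eq_of_inner {u v w y z : E3} (h : tp u v w ≠ 0) (hu : inner ℝ y u = (inner ℝ z u : ℝ))
    (hv : inner ℝ y v = (inner ℝ z v : ℝ)) (hw : inner ℝ y w = (inner ℝ z w : ℝ)) : y = z := by
  have h1 := E1 u v w y
  rw [hu, hv, hw, ← E1 u v w z] at h1
  exact smul_right_injective E3 h h1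

theorem nv_inner {u v w : E3} (h : tp u v w ≠ 0) : inner ℝ (nv u v w) u = (1 : ℝ) ∧
    inner ℝ (nv u v w) v = (1 : ℝ) ∧ inner ℝ (nv u v w) w = (1 : ℝ) := by
  have e : ∀ x, inner ℝ (nv u v w) x = (tp u v w)⁻¹ * (tp u v x + tp v w x + tp w u x) := by
    intro x
    rw [nv, real_inner_smul_left, inner_add_left, inner_add_left, inner_cr, inner_cr, inner_cr]
  refine ⟨?_, ?_, ?_⟩
  · rw [e, inv_mul_eq_one₀ h]; simp only [tp]; ring
  · rw [e, inv_mul_eq_one₀ h]; simp only [tp]; ring
  · rw [e, inv_mul_eq_one₀ h]; simp only [tp]; ring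

theorem nv_unique {u v w y : E3} (h : tp u v w ≠ 0) (hu : inner ℝ y u = (1 : ℝ))
    (hv : inner ℝ y v = (1 : ℝ)) (hw : inner ℝ y w = (1 : ℝ)) : y = nv u v w := by
  obtain ⟨h1, h2, h3⟩ := nv_inner h
  exact eq_of_inner h (hu.trans h1.symm) (hv.trans h2.symm) (hw.trans h3.symm)

theorem facet_mem {S : Finset E3} {u v w : E3} (h : Facet S u v w) : u ∈ S ∧ v ∈ S ∧ w ∈ S := by
  obtain ⟨_, _, _, a, _, ha⟩ := h
  exact ⟨((ha u).mpr (Or.inl rfl)).1, ((ha v).mpr (Or.inr (Or.inl rfl))).1,
    ((ha w).mpr (Or.inr (Or.inr rfl))).1⟩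

theorem nv_spec {S : Finset E3} (hS : Good S) {u v w : E3} (h : Facet S u v w) :
    inner ℝ (nv u v w) u = (1 : ℝ) ∧ inner ℝ (nv u v w) v = (1 : ℝ) ∧
    inner ℝ (nv u v w) w = (1 : ℝ) ∧ ∀ x ∈ S, x ≠ u → x ≠ v → x ≠ w →
      inner ℝ (nv u v w) x < (1 : ℝ) := by
  have htp := facet_tp_ne hS h
  obtain ⟨h1, h2, h3⟩ := nv_inner htp
  refine ⟨h1, h2, h3, fun x hx hxu hxv hxw => ?_⟩
  obtain ⟨_, _, _, a, ha0, ha⟩ := h
  have hu := (ha u).mpr (Or.inl rfl)
  have hv := (ha v).mpr (Or.inr (Or.inl rfl))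
  have hw := (ha w).mpr (Or.inr (Or.inr rfl))
  set m : ℝ := inner ℝ a u with hm
  have hav : inner ℝ a v = m := le_antisymm (hu.2 v hv.1) (hv.2 u hu.1)
  have haw : inner ℝ a w = m := le_antisymm (hu.2 w hw.1) (hw.2 u hu.1)
  have hmpos : 0 < m := by
    obtain ⟨y, hy, hy'⟩ := hS.origin a ha0
    exact lt_of_lt_of_le hy' (hu.2 y hy)
  have hax : inner ℝ a x < m := by
    refine lt_of_le_of_ne (hu.2 x hx) (fun heq => ?_)
    have : IsMax S a x := ⟨hx, fun y hy => by rw [heq]; exact hu.2 y hy⟩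
    rcases (ha x).mp this with h | h | h
    · exact hxu h
    · exact hxv h
    · exact hxw h
  have e : m • nv u v w = a := by
    refine eq_of_inner htp ?_ ?_ ?_
    · rw [real_inner_smul_left, h1, mul_one]
    · rw [real_inner_smul_left, h2, mul_one, hav]
    · rw [real_inner_smul_left, h3, mul_one, haw]
  rw [← e, real_inner_smul_left] at hax
  by_contra hcon
  push Not at hcon
  nlinarith

theorem nv_polar {S : Finset E3} (hS : Good S) {u v w : E3} (h : Facet S u v w) :
    nv u v w ∈ polar S := by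
  obtain ⟨h1, h2, h3, h4⟩ := nv_spec hS h
  intro x hx
  by_cases hu : x = u
  · rw [hu, h1]
  by_cases hv : x = v
  · rw [hv, h2]
  by_cases hw : x = w
  · rw [hw, h3]
  exact (h4 x hx hu hv hw).le

theorem _root_.Pool.Agent.Helper320.Gold.Adj.symm {S : Finset E3} {v w : E3} (h : Adj S v w) : Adj S w v := by
  obtain ⟨h1, a, ha, h2⟩ := h
  exact ⟨h1.symm, a, ha, fun x => (h2 x).trans or_comm⟩

theorem mem_FS {S : Finset E3} {t : E3 × E3 × E3} : t ∈ FS S ↔
    Facet S t.1 t.2.1 t.2.2 ∧ 0 < tp t.1 t.2.1 t.2.2 := by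
  classical
  unfold FS
  rw [Finset.mem_filter, Finset.mem_product, Finset.mem_product]
  constructor
  · exact fun h => h.2
  · exact fun h => ⟨facet_mem h.1, h⟩

theorem inner_self_one {S : Finset E3} (hS : Good S) {u : E3} (hu : u ∈ S) :
    inner ℝ u u = (1 : ℝ) := by
  rw [real_inner_self_eq_norm_sq, hS.unit u hu, one_pow]

theorem inner_lt_one {S : Finset E3} (hS : Good S) {u v : E3} (hu : u ∈ S) (hv : v ∈ S)
    (hne : u ≠ v) : inner ℝ u v < (1 : ℝ) :=
  (inner_lt_one_iff_real_of_norm_eq_one (hS.unit u hu) (hS.unit v hv)).mpr hne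

theorem mem_polar_of_mem {S : Finset E3} (hS : Good S) {u : E3} (hu : u ∈ S) : u ∈ polar S := by
  intro v hv
  by_cases h : u = v
  · rw [← h, inner_self_one hS hu]
  · exact (inner_lt_one hS hu hv h).le

theorem fan_spec {S : Finset E3} (hS : Good S) {t : E3 × E3 × E3} (ht : t ∈ FS S) :
    inner ℝ (va t) t.1 = (1 : ℝ) ∧ inner ℝ (vb S t) t.1 = (1 : ℝ) ∧
    inner ℝ (va t) t.2.1 = (1 : ℝ) ∧ inner ℝ (vb S t) t.2.1 = (1 : ℝ) ∧
    va t ∈ polar S ∧ vb S t ∈ polar S ∧ 0 < tp t.1 (vb S t) (va t) := by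
  rw [mem_FS] at ht
  obtain ⟨hf, hpos⟩ := ht
  obtain ⟨u, w, x⟩ := t
  simp only at hf hpos
  have hadj := (adj_of_facet hS hf).symm
  obtain ⟨hf', hpos'⟩ := nxt_spec hS hadj
  set y := nxt S w u with hy
  obtain ⟨a1, a2, a3, a4⟩ := nv_spec hS hf
  obtain ⟨b1, b2, b3, b4⟩ := nv_spec hS hf'
  simp only [va, vb]
  rw [← hy]
  refine ⟨a1, b2, a2, b1, nv_polar hS hf, nv_polar hS hf', ?_⟩
  set a := nv u w x
  set b := nv w u y
  obtain ⟨hu, hw, hx⟩ := facet_mem hf
  have hxy : x ≠ y := by
    rintro rfl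
    rw [tp_swap] at hpos'
    linarith
  have hbx := b4 x hx hf.2.1.symm hf.2.2.1.symm hxy
  -- a - b is a positive multiple of the cross product
  have h1 := E1 u w x (a - b)
  rw [inner_sub_left, inner_sub_left, inner_sub_left, a1, a2, a3, b1, b2, sub_self, zero_smul,
    zero_smul, zero_add, zero_add] at h1
  have h2 : tp u w x * tp u b a = (1 - inner ℝ b x) * (1 - inner ℝ u w) := by
    have h3 : tp u w x * tp u b a = tp u b (tp u w x • (a - b)) := by
      simp only [tp, PiLp.smul_apply, PiLp.sub_apply, smul_eq_mul]; ring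
    rw [h3, h1]
    have h4 : tp u b ((1 - inner ℝ b x : ℝ) • cr u w) = (1 - inner ℝ b x) *
        (inner ℝ u u * inner ℝ b w - inner ℝ u w * inner ℝ b u) := by
      rw [in3 u u, in3 b w, in3 u w, in3 b u]
      simp only [tp, PiLp.smul_apply, smul_eq_mul, cr0, cr1, cr2]
      ring
    rw [h4, inner_self_one hS hu, b1, b2]
    ring
  have h5 := inner_lt_one hS hu hw hf.1
  have h6 : 0 < tp u w x * tp u b a := by
    rw [h2]
    exact mul_pos (by linarith) (by linarith)
  exact (mul_pos_iff_of_pos_left hpos).mp h6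

theorem first_mem {S : Finset E3} {t : E3 × E3 × E3} (ht : t ∈ FS S) : t.1 ∈ S ∧ t.2.1 ∈ S :=
  ⟨(facet_mem (mem_FS.mp ht).1).1, (facet_mem (mem_FS.mp ht).1).2.1⟩

theorem volume_plane (n : E3) (hn : n ≠ 0) :
    MeasureTheory.volume {z : E3 | inner ℝ n z = (0 : ℝ)} = 0 := by
  have h1 : {z : E3 | inner ℝ n z = (0 : ℝ)} = ((ℝ ∙ n)ᗮ : Submodule ℝ E3) := by
    ext z
    rw [SetLike.mem_coe, Submodule.mem_orthogonal_singleton_iff_inner_right]
    rfl
  rw [h1]
  refine MeasureTheory.Measure.addHaar_submodule _ _ (fun htop => hn ?_)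
  have : n ∈ (ℝ ∙ n)ᗮ := by rw [htop]; trivial
  rw [Submodule.mem_orthogonal_singleton_iff_inner_right] at this
  exact inner_self_eq_zero.mp this

/-- products of a point of the fan cone -/
theorem cone_ineq {S : Finset E3} (hS : Good S) {t : E3 × E3 × E3} (ht : t ∈ FS S) {z : E3}
    (hz : z ∈ cone3 t.1 (vb S t) (va t)) : ∃ r m : ℝ, 0 ≤ r ∧ 0 ≤ m ∧
      inner ℝ z t.1 = r + m ∧ inner ℝ z t.2.1 = r * inner ℝ t.1 t.2.1 + m ∧
      ∀ v ∈ S, inner ℝ z v ≤ r * inner ℝ t.1 v + m := by
  obtain ⟨r, s, q, hr, hs, hq, rfl⟩ := hz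
  obtain ⟨h1, h2, h3, h4, h5, h6, _⟩ := fan_spec hS ht
  have hu := (first_mem ht).1
  have e : ∀ v, inner ℝ (r • t.1 + s • vb S t + q • va t) v =
      r * inner ℝ t.1 v + s * inner ℝ (vb S t) v + q * inner ℝ (va t) v := by
    intro v
    rw [inner_add_left, inner_add_left, real_inner_smul_left, real_inner_smul_left,
      real_inner_smul_left]
  refine ⟨r, s + q, hr, add_nonneg hs hq, ?_, ?_, ?_⟩
  · rw [e, h1, h2, inner_self_one hS hu]; ring
  · rw [e, h3, h4]; ring
  · intro v hv
    rw [e]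
    have h7 := h5 v hv
    have h8 := h6 v hv
    nlinarith

theorem fan_disj {S : Finset E3} (hS : Good S) {t t' : E3 × E3 × E3} (ht : t ∈ FS S)
    (ht' : t' ∈ FS S) (hne : t ≠ t') :
    MeasureTheory.volume (cone3 t.1 (vb S t) (va t) ∩ cone3 t'.1 (vb S t') (va t')) = 0 := by
  obtain ⟨hu, hw⟩ := first_mem ht
  obtain ⟨hu', hw'⟩ := first_mem ht'
  by_cases h1 : t.1 = t'.1
  · have hww : t.2.1 ≠ t'.2.1 := by
      intro h2
      apply hne
      obtain ⟨hf, hp⟩ := mem_FS.mp ht
      obtain ⟨hf', hp'⟩ := mem_FS.mp ht'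
      rw [← h1, ← h2] at hf' hp'
      have h3 := (nxt_eq hS hf hp).symm.trans (nxt_eq hS hf' hp')
      exact Prod.ext h1 (Prod.ext h2 h3)
    have hf := (mem_FS.mp ht).1
    have hf' := (mem_FS.mp ht').1
    rw [← h1] at hf'
    set u := t.1 with hudef
    set w := t.2.1 with hwdef
    set w' := t'.2.1 with hwdef'
    set c : ℝ := inner ℝ u w with hc
    set c' : ℝ := inner ℝ u w' with hc'
    have hc1 : c < 1 := inner_lt_one hS hu hw hf.1
    have hc1' : c' < 1 := inner_lt_one hS hu hw' hf'.1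
    set n : E3 := (1 - c') • (w - c • u) - (1 - c) • (w' - c' • u) with hn
    have huu := inner_self_one hS hu
    have hww1 := inner_self_one hS hw
    have hww1' := inner_self_one hS hw'
    have hn0 : n ≠ 0 := by
      intro h0
      have h2 : (1 - c') • (w - c • u) = (1 - c) • (w' - c' • u) := sub_eq_zero.mp h0
      have h3 : inner ℝ (w - c • u) (w - c • u) = 1 - c ^ 2 := by
        rw [inner_sub_left, inner_sub_right, inner_sub_right, real_inner_smul_left,
          real_inner_smul_left, real_inner_smul_right, real_inner_smul_right, hww1, huu,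
          real_inner_comm u w, ← hc]
        ring
      have h3' : inner ℝ (w' - c' • u) (w' - c' • u) = 1 - c' ^ 2 := by
        rw [inner_sub_left, inner_sub_right, inner_sub_right, real_inner_smul_left,
          real_inner_smul_left, real_inner_smul_right, real_inner_smul_right, hww1', huu,
          real_inner_comm u w', ← hc']
        ring
      have h4 : (1 - c') * ((1 - c') * (1 - c ^ 2)) = (1 - c) * ((1 - c) * (1 - c' ^ 2)) := by
        rw [← h3, ← h3', ← real_inner_smul_right, ← real_inner_smul_left, h2,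
          real_inner_smul_left, real_inner_smul_right]
      have h5 : (1 - c) * (1 - c') * (c - c') = 0 := by nlinarith
      have h6 : c = c' := by
        have h7 : (1 - c) * (1 - c') ≠ 0 := mul_ne_zero (by linarith) (by linarith)
        have := (mul_eq_zero.mp h5).resolve_left h7
        linarith
      rw [← h6] at h2
      have h7 := smul_right_injective E3 (show (1 - c : ℝ) ≠ 0 by linarith) h2
      exact hww (sub_left_injective h7)
    refine MeasureTheory.measure_mono_null ?_ (volume_plane n hn0)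
    rintro z ⟨hz, hz'⟩
    obtain ⟨r, m, hr, hm, e1, e2, e3⟩ := cone_ineq hS ht hz
    obtain ⟨r', m', hr', hm', e1', e2', e3'⟩ := cone_ineq hS ht' hz'
    have i1 := e3' w hw
    have i2 := e3 w' hw'
    replace e1 : inner ℝ z u = r + m := e1
    replace e2 : inner ℝ z w = r * c + m := e2
    replace i2 : inner ℝ z w' ≤ r * c' + m := i2
    replace e1' : inner ℝ z u = r' + m' := by rw [h1]; exact e1'
    replace e2' : inner ℝ z w' = r' * c' + m' := by rw [hc', h1]; exact e2'
    replace i1 : inner ℝ z w ≤ r' * c + m' := by rw [hc, h1]; exact i1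
    have hmm : m = m' := by
      have j1 : m * (1 - c) ≤ m' * (1 - c) := by nlinarith
      have j2 : m' * (1 - c') ≤ m * (1 - c') := by nlinarith
      have k1 := le_of_mul_le_mul_right j1 (by linarith)
      have k2 := le_of_mul_le_mul_right j2 (by linarith)
      exact le_antisymm k1 k2
    have hrr : r = r' := by linarith
    show inner ℝ n z = (0 : ℝ)
    rw [hn, inner_sub_left, real_inner_smul_left, real_inner_smul_left, inner_sub_left,
      inner_sub_left, real_inner_smul_left, real_inner_smul_left, real_inner_comm z w,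
      real_inner_comm z w', real_inner_comm z u, e1, e2, e2', ← hmm, ← hrr]
    ring
  · have hn0 : t.1 - t'.1 ≠ 0 := sub_ne_zero.mpr h1
    refine MeasureTheory.measure_mono_null ?_ (volume_plane _ hn0)
    rintro z ⟨hz, hz'⟩
    obtain ⟨r, m, hr, hm, e1, e2, e3⟩ := cone_ineq hS ht hz
    obtain ⟨r', m', hr', hm', e1', e2', e3'⟩ := cone_ineq hS ht' hz'
    have i1 := e3' t.1 hu
    have i2 := e3 t'.1 hu'
    have c1 := inner_lt_one hS hu hu' h1
    have c2 := inner_lt_one hS hu' hu (Ne.symm h1)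
    show inner ℝ (t.1 - t'.1) z = (0 : ℝ)
    rw [inner_sub_left, real_inner_comm z t.1, real_inner_comm z t'.1]
    nlinarith

theorem tp_left (r s q : ℝ) (u b a : E3) : tp (r • u + s • b + q • a) b a = r * tp u b a := by
  simp only [tp, PiLp.add_apply, PiLp.smul_apply, smul_eq_mul]; ring

theorem tp_mid (r s q : ℝ) (u b a : E3) : tp u (r • u + s • b + q • a) a = s * tp u b a := by
  simp only [tp, PiLp.add_apply, PiLp.smul_apply, smul_eq_mul]; ring

theorem tp_right (r s q : ℝ) (u b a : E3) : tp u b (r • u + s • b + q • a) = q * tp u b a := by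
  simp only [tp, PiLp.add_apply, PiLp.smul_apply, smul_eq_mul]; ring

theorem cone3_eq {u b a : E3} (h : 0 < tp u b a) :
    cone3 u b a = {z | 0 ≤ tp z b a ∧ 0 ≤ tp u z a ∧ 0 ≤ tp u b z} := by
  ext z
  constructor
  · rintro ⟨r, s, q, hr, hs, hq, rfl⟩
    refine ⟨?_, ?_, ?_⟩
    · rw [tp_left]; positivity
    · rw [tp_mid]; positivity
    · rw [tp_right]; positivity
  · rintro ⟨h1, h2, h3⟩
    refine ⟨tp z b a / tp u b a, tp u z a / tp u b a, tp u b z / tp u b a, by positivity,
      by positivity, by positivity, ?_⟩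
    refine smul_right_injective E3 h.ne' ?_
    show tp u b a • z = _
    rw [E2 u b a z]
    simp only [smul_add, smul_smul]
    rw [mul_div_cancel₀ _ h.ne', mul_div_cancel₀ _ h.ne', mul_div_cancel₀ _ h.ne']

theorem cone3_closed {u b a : E3} (h : 0 < tp u b a) : IsClosed (cone3 u b a) := by
  rw [cone3_eq h]
  have c1 : IsClosed {z : E3 | 0 ≤ tp z b a} := by
    refine isClosed_le continuous_const ?_
    unfold tp; fun_prop
  have c2 : IsClosed {z : E3 | 0 ≤ tp u z a} := by
    refine isClosed_le continuous_const ?_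
    unfold tp; fun_prop
  have c3 : IsClosed {z : E3 | 0 ≤ tp u b z} := by
    refine isClosed_le continuous_const ?_
    unfold tp; fun_prop
  exact c1.inter (c2.inter c3)

/-- from a point of the edge of the polar body move to a vertex -/
theorem ray_facet {S : Finset E3} (hS : Good S) {u w y : E3} (hu : u ∈ S) (hw : w ∈ S)
    (hne : w ≠ u) (hy : y ∈ polar S) (hyu : inner ℝ y u = (1 : ℝ)) (hyw : inner ℝ y w = (1 : ℝ)) :
    ∃ s : ℝ, 0 ≤ s ∧ ∃ x, Facet S u w x ∧ 0 < tp u w x ∧ y + s • cr u w = nv u w x := by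
  classical
  -- the direction is nonzero
  have hd : cr u w ≠ 0 := by
    intro h0
    -- Lagrange: |u×w|² = |u|²|w|² - (u·w)²
    have h1 : inner ℝ (cr u w) (cr u w) =
        (inner ℝ u u : ℝ) * inner ℝ w w - (inner ℝ u w : ℝ) ^ 2 := by
      simp only [in3, cr0, cr1, cr2]; ring
    rw [h0, inner_self_one hS hu, inner_self_one hS hw, inner_zero_left] at h1
    have h2 : (inner ℝ u w : ℝ) = 1 ∨ (inner ℝ u w : ℝ) = -1 := by
      have : (inner ℝ u w - 1 : ℝ) * (inner ℝ u w + 1) = 0 := by linarith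
      rcases mul_eq_zero.mp this with h | h
      · left; linarith
      · right; linarith
    rcases h2 with h2 | h2
    · have := inner_lt_one hS hu hw hne.symm
      linarith
    · have h3 : inner ℝ (u + w) (u + w) = (0 : ℝ) := by
        rw [inner_add_left, inner_add_right, inner_add_right, inner_self_one hS hu,
          inner_self_one hS hw, real_inner_comm u w, h2]
        norm_num
      rw [inner_self_eq_zero] at h3
      have h4 : inner ℝ y (u + w) = (2 : ℝ) := by
        rw [inner_add_right, hyu, hyw]; norm_num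
      rw [h3, inner_zero_right] at h4
      norm_num at h4
  obtain ⟨x₀, hx₀, hx₀'⟩ := hS.origin _ hd
  rw [inner_cr] at hx₀'
  obtain ⟨x, hx, hxmin⟩ := (S.filter (fun v => 0 < tp u w v)).exists_min_image
    (fun v => (1 - inner ℝ y v) / tp u w v) ⟨x₀, Finset.mem_filter.mpr ⟨hx₀, hx₀'⟩⟩
  rw [Finset.mem_filter] at hx
  obtain ⟨hxS, hxpos⟩ := hx
  set s : ℝ := (1 - inner ℝ y x) / tp u w x with hs
  have hs0 : 0 ≤ s := div_nonneg (by have := hy x hxS; linarith) hxpos.le
  refine ⟨s, hs0, x, ?_⟩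
  set y2 : E3 := y + s • cr u w with hy2
  have ey2 : ∀ v, inner ℝ y2 v = inner ℝ y v + s * tp u w v := by
    intro v
    rw [hy2, inner_add_left, real_inner_smul_left, inner_cr]
  have e1 : tp u w u = 0 := by simp only [tp]; ring
  have e2 : tp u w w = 0 := by simp only [tp]; ring
  have h1 : inner ℝ y2 u = (1 : ℝ) := by rw [ey2, e1, hyu]; ring
  have h2 : inner ℝ y2 w = (1 : ℝ) := by rw [ey2, e2, hyw]; ring
  have h3 : inner ℝ y2 x = (1 : ℝ) := by
    rw [ey2, hs, div_mul_cancel₀ _ hxpos.ne']; ring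
  have h4 : ∀ v ∈ S, inner ℝ y2 v ≤ (1 : ℝ) := by
    intro v hv
    rw [ey2]
    rcases lt_or_ge 0 (tp u w v) with h | h
    · have h5 := hxmin v (Finset.mem_filter.mpr ⟨hv, h⟩)
      rw [le_div_iff₀ h] at h5
      linarith
    · have h5 := hy v hv
      nlinarith
  have hxu : u ≠ x := by rintro rfl; rw [e1] at hxpos; exact lt_irrefl _ hxpos
  have hxw : w ≠ x := by rintro rfl; rw [e2] at hxpos; exact lt_irrefl _ hxpos
  have hy20 : y2 ≠ 0 := by
    intro h0
    rw [h0, inner_zero_left] at h1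
    norm_num at h1
  have hmax : ∀ v ∈ S, inner ℝ y2 v = (1 : ℝ) → IsMax S y2 v := fun v hv hv1 =>
    ⟨hv, fun z hz => by rw [hv1]; exact h4 z hz⟩
  have hF : Facet S u w x := by
    refine ⟨hne.symm, hxw, hxu, y2, hy20, fun v => ⟨fun hv => ?_, ?_⟩⟩
    · by_contra hcon
      push Not at hcon
      have hcard : ({v, u, w, x} : Finset E3).card = 4 := by
        rw [Finset.card_insert_of_notMem, Finset.card_insert_of_notMem,
          Finset.card_insert_of_notMem, Finset.card_singleton]
        · simpa using hxw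
        · simp only [Finset.mem_insert, Finset.mem_singleton, not_or]
          exact ⟨hne.symm, hxu⟩
        · simp only [Finset.mem_insert, Finset.mem_singleton, not_or]
          exact hcon
      have h6 := hS.simp y2 hy20 {v, u, w, x} (by
        intro z hz
        simp only [Finset.mem_insert, Finset.mem_singleton] at hz
        rcases hz with rfl | rfl | rfl | rfl
        · exact hv
        · exact hmax _ hu h1
        · exact hmax _ hw h2
        · exact hmax _ hxS h3)
      omega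
    · rintro (rfl | rfl | rfl)
      · exact hmax _ hu h1
      · exact hmax _ hw h2
      · exact hmax _ hxS h3
  exact ⟨hF, hxpos, nv_unique hxpos.ne' h1 h2 h3⟩

/-- a point of an edge of the polar body -/
theorem edge_point {S : Finset E3} (hS : Good S) {u w y : E3} (hu : u ∈ S) (hw : w ∈ S)
    (hne : w ≠ u) (hy : y ∈ polar S) (hyu : inner ℝ y u = (1 : ℝ)) (hyw : inner ℝ y w = (1 : ℝ)) :
    ∃ t ∈ FS S, t.1 = u ∧ ∃ p q : ℝ, 0 ≤ p ∧ 0 ≤ q ∧ y = p • vb S t + q • va t := by
  obtain ⟨s, hs, x, hF, hpos, he⟩ := ray_facet hS hu hw hne hy hyu hyw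
  obtain ⟨s', hs', x', hF', hpos', he'⟩ := ray_facet hS hw hu hne.symm hy hyw hyu
  have ht : ((u, w, x) : E3 × E3 × E3) ∈ FS S := mem_FS.mpr ⟨hF, hpos⟩
  refine ⟨(u, w, x), ht, rfl, ?_⟩
  have hnx : nxt S w u = x' := nxt_eq hS hF' hpos'
  have hva : va (u, w, x) = y + s • cr u w := he.symm
  have hvb : vb S (u, w, x) = y - s' • cr u w := by
    show nv w u (nxt S w u) = _
    rw [hnx, ← he', cr_swap, smul_neg, sub_eq_add_neg]
  have hss : 0 < s + s' := by
    by_contra hcon
    push Not at hcon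
    have h1 : s = 0 := by linarith
    have h2 : s' = 0 := by linarith
    have h3 := (fan_spec hS ht).2.2.2.2.2.2
    rw [hva, hvb, h1, h2] at h3
    have h4 : tp u (y - (0:ℝ) • cr u w) (y + (0:ℝ) • cr u w) = 0 := by
      rw [zero_smul, sub_zero, add_zero]; simp only [tp]; ring
    rw [h4] at h3
    exact lt_irrefl _ h3
  refine ⟨s / (s + s'), s' / (s + s'), by positivity, by positivity, ?_⟩
  rw [hva, hvb]
  refine smul_right_injective E3 hss.ne' ?_
  show (s + s') • y = (s + s') • _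
  rw [smul_add, smul_smul, smul_smul, mul_div_cancel₀ _ hss.ne', mul_div_cancel₀ _ hss.ne']
  rw [smul_sub, smul_add, smul_smul, smul_smul, add_smul, mul_comm s' s]
  abel

/-- projection along `u` to the boundary -/
theorem exists_edge {S : Finset E3} (hS : Good S) {u : E3} (hu : u ∈ S) (z : E3) :
    ∃ w ∈ S, w ≠ u ∧ ∃ m : ℝ, inner ℝ (z - (inner ℝ z u - m) • u) u = m ∧
      inner ℝ (z - (inner ℝ z u - m) • u) w = m ∧
      ∀ v ∈ S, inner ℝ (z - (inner ℝ z u - m) • u) v ≤ m := by
  classical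
  have huu := inner_self_one hS hu
  have hne : (S.erase u).Nonempty := by
    have hu0 : -u ≠ 0 := by
      intro h
      rw [neg_eq_zero] at h
      rw [h, inner_zero_left] at huu
      norm_num at huu
    obtain ⟨x, hx, hx'⟩ := hS.origin (-u) hu0
    refine ⟨x, Finset.mem_erase.mpr ⟨?_, hx⟩⟩
    rintro rfl
    rw [inner_neg_left, huu] at hx'
    norm_num at hx'
  obtain ⟨w, hw, hmax⟩ := (S.erase u).exists_max_image
    (fun v => (inner ℝ z v - inner ℝ z u * inner ℝ u v) / (1 - inner ℝ u v)) hne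
  obtain ⟨hwu, hwS⟩ := Finset.mem_erase.mp hw
  set m : ℝ := (inner ℝ z w - inner ℝ z u * inner ℝ u w) / (1 - inner ℝ u w) with hm
  have hpos : ∀ v ∈ S, v ≠ u → (0 : ℝ) < 1 - inner ℝ u v := fun v hv hvu => by
    have := inner_lt_one hS hu hv hvu.symm
    linarith
  have e : ∀ v, inner ℝ (z - (inner ℝ z u - m) • u) v =
      inner ℝ z v - (inner ℝ z u - m) * inner ℝ u v := by
    intro v
    rw [inner_sub_left, real_inner_smul_left]
  refine ⟨w, hwS, hwu, m, ?_, ?_, ?_⟩
  · rw [e, huu]; ring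
  · rw [e]
    have h1 : m * (1 - inner ℝ u w) = inner ℝ z w - inner ℝ z u * inner ℝ u w := by
      rw [hm, div_mul_cancel₀ _ (hpos w hwS hwu).ne']
    linarith
  · intro v hv
    rw [e]
    by_cases hvu : v = u
    · rw [hvu, huu]; linarith
    · have h1 := hmax v (Finset.mem_erase.mpr ⟨hvu, hv⟩)
      rw [div_le_iff₀ (hpos v hv hvu)] at h1
      linarith

/-- the scaled point -/
theorem exists_fan {S : Finset E3} (hS : Good S) {u : E3} (hu : u ∈ S) (z : E3)
    (hz : ∀ r : ℝ, z ≠ r • u) : ∃ t ∈ FS S, t.1 = u ∧ ∃ m p q : ℝ, 0 ≤ p ∧ 0 ≤ q ∧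
      z = (inner ℝ z u - m) • u + p • vb S t + q • va t ∧
      (∃ w ∈ S, w ≠ u ∧ inner ℝ (z - (inner ℝ z u - m) • u) w = m) := by
  obtain ⟨w, hw, hwu, m, h1, h2, h3⟩ := exists_edge hS hu z
  set y : E3 := z - (inner ℝ z u - m) • u with hy
  have hy0 : y ≠ 0 := by
    intro h0
    rw [hy, sub_eq_zero] at h0
    exact hz _ h0
  have hm : 0 < m := by
    obtain ⟨x, hx, hx'⟩ := hS.origin y hy0
    exact lt_of_lt_of_le hx' (h3 x hx)
  obtain ⟨t, ht, htu, p, q, hp, hq, hpq⟩ := edge_point hS (y := m⁻¹ • y) hu hw hwu (by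
    intro v hv
    rw [real_inner_smul_left, inv_mul_le_iff₀ hm, mul_one]
    exact h3 v hv) (by rw [real_inner_smul_left, h1, inv_mul_cancel₀ hm.ne'])
    (by rw [real_inner_smul_left, h2, inv_mul_cancel₀ hm.ne'])
  refine ⟨t, ht, htu, m, m * p, m * q, by positivity, by positivity, ?_, w, hw, hwu, h2⟩
  have h4 : y = (m * p) • vb S t + (m * q) • va t := by
    rw [mul_smul, mul_smul, ← smul_add, ← hpq, smul_smul, mul_inv_cancel₀ hm.ne', one_smul]
  rw [add_assoc, ← h4, hy]
  abel

theorem exists_not_smul (u : E3) : ∃ e : E3, ∀ r : ℝ, e ≠ r • u := by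
  by_contra hcon
  push Not at hcon
  obtain ⟨a, ha⟩ := hcon (WithLp.toLp 2 ![1, 0, 0])
  obtain ⟨b, hb⟩ := hcon (WithLp.toLp 2 ![0, 1, 0])
  have a0 : (1:ℝ) = a * u 0 := by simpa using congrArg (fun v : E3 => v 0) ha
  have a1 : (0:ℝ) = a * u 1 := by simpa using congrArg (fun v : E3 => v 1) ha
  have b0 : (0:ℝ) = b * u 0 := by simpa using congrArg (fun v : E3 => v 0) hb
  have b1 : (1:ℝ) = b * u 1 := by simpa using congrArg (fun v : E3 => v 1) hb
  have h1 : a ≠ 0 := by rintro rfl; norm_num at a0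
  have h2 : u 1 = 0 := (mul_eq_zero.mp a1.symm).resolve_left h1
  rw [h2] at b1
  norm_num at b1

theorem fan_cover {S : Finset E3} (hS : Good S) (x : E3) :
    ∃ t ∈ FS S, x ∈ cone3 t.1 (vb S t) (va t) := by
  classical
  have hSne : S.Nonempty := by
    obtain ⟨e, he⟩ := exists_not_smul 0
    obtain ⟨x, hx, _⟩ := hS.origin e (by simpa using he 0)
    exact ⟨x, hx⟩
  obtain ⟨u, hu, humax⟩ := S.exists_max_image (fun v => (inner ℝ x v : ℝ)) hSne
  by_cases hxu : ∃ r : ℝ, x = r • u
  · obtain ⟨r, rfl⟩ := hxu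
    have hr : 0 ≤ r := by
      by_cases h0 : r = 0
      · rw [h0]
      have huu := inner_self_one hS hu
      have hu0 : u ≠ 0 := by rintro rfl; rw [inner_zero_left] at huu; norm_num at huu
      obtain ⟨v, hv, hv'⟩ := hS.origin (r • u) (smul_ne_zero h0 hu0)
      have := humax v hv
      rw [real_inner_smul_left, real_inner_smul_left, huu] at this
      rw [real_inner_smul_left] at hv'
      linarith
    obtain ⟨e, he⟩ := exists_not_smul u
    obtain ⟨t, ht, htu, _⟩ := exists_fan hS hu e he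
    refine ⟨t, ht, r, 0, 0, hr, le_rfl, le_rfl, ?_⟩
    rw [htu]; simp
  · push Not at hxu
    obtain ⟨t, ht, htu, m, p, q, hp, hq, hz, w, hw, hwu, hw2⟩ := exists_fan hS hu x hxu
    refine ⟨t, ht, inner ℝ x u - m, p, q, ?_, hp, hq, by rw [htu]; exact hz⟩
    rw [inner_sub_left, real_inner_smul_left] at hw2
    have h1 := humax w hw
    have h2 := inner_lt_one hS hu hw hwu.symm
    have h3 : (inner ℝ x u - m) * (1 - inner ℝ u w) = inner ℝ x u - inner ℝ x w := by
      linarith
    by_contra hcon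
    push Not at hcon
    nlinarith

theorem fan_tile {S : Finset E3} (hS : Good S) (A : Set E3) (hA : MeasurableSet A) :
    ∑ t ∈ FS S, MeasureTheory.volume (cone3 t.1 (vb S t) (va t) ∩ A) =
      MeasureTheory.volume A := by
  rw [← MeasureTheory.measure_biUnion_finset₀]
  · congr 1
    ext z
    simp only [Set.mem_iUnion, Set.mem_inter_iff, exists_prop]
    constructor
    · rintro ⟨t, _, _, h⟩; exact h
    · intro h
      obtain ⟨t, ht, hz⟩ := fan_cover hS z
      exact ⟨t, ht, hz, h⟩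
  · intro t ht t' ht' hne
    refine MeasureTheory.measure_mono_null ?_ (fan_disj hS ht ht' hne)
    intro z hz
    exact ⟨hz.1.1, hz.2.1⟩
  · intro t ht
    exact ((cone3_closed (fan_spec hS ht).2.2.2.2.2.2).measurableSet.inter hA).nullMeasurableSet

theorem convex_cone3 (u v w : E3) : Convex ℝ (cone3 u v w) := by
  rintro _ ⟨r, s, t, hr, hs, ht, rfl⟩ _ ⟨r', s', t', hr', hs', ht', rfl⟩ a b ha hb _
  refine ⟨a * r + b * r', a * s + b * s', a * t + b * t', by positivity, by positivity,
    by positivity, ?_⟩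
  simp only [smul_add, add_smul, mul_smul]
  abel

theorem convex_polar (S : Finset E3) : Convex ℝ (polar S) := by
  intro x hx y hy a b ha hb hab v hv
  rw [inner_add_left, real_inner_smul_left, real_inner_smul_left]
  have h1 := hx v hv
  have h2 := hy v hv
  nlinarith

theorem polar_cone {S : Finset E3} (hS : Good S) {t : E3 × E3 × E3} (ht : t ∈ FS S) :
    cone3 t.1 (vb S t) (va t) ∩ polar S = convexHull ℝ {0, t.1, vb S t, va t} := by
  obtain ⟨h1, h2, h3, h4, h5, h6, h7⟩ := fan_spec hS ht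
  have hu := (first_mem ht).1
  apply Set.Subset.antisymm
  · rintro z ⟨⟨r, s, q, hr, hs, hq, rfl⟩, hz⟩
    have h8 : r + s + q ≤ 1 := by
      have := hz t.1 hu
      rw [inner_add_left, inner_add_left, real_inner_smul_left, real_inner_smul_left,
        real_inner_smul_left, h1, h2, inner_self_one hS hu] at this
      linarith
    have hc := convex_convexHull ℝ ({0, t.1, vb S t, va t} : Set E3)
    have m0 : (0 : E3) ∈ convexHull ℝ ({0, t.1, vb S t, va t} : Set E3) :=
      subset_convexHull _ _ (by simp)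
    have m1 : t.1 ∈ convexHull ℝ ({0, t.1, vb S t, va t} : Set E3) :=
      subset_convexHull _ _ (by simp)
    have m2 : vb S t ∈ convexHull ℝ ({0, t.1, vb S t, va t} : Set E3) :=
      subset_convexHull _ _ (by simp)
    have m3 : va t ∈ convexHull ℝ ({0, t.1, vb S t, va t} : Set E3) :=
      subset_convexHull _ _ (by simp)
    have key := hc.sum_mem (t := (Finset.univ : Finset (Fin 4)))
      (w := ![1 - (r + s + q), r, s, q]) (z := ![0, t.1, vb S t, va t])
      (by
        intro i _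
        fin_cases i
        · show (0:ℝ) ≤ 1 - (r + s + q); linarith
        · exact hr
        · exact hs
        · exact hq)
      (by
        rw [Fin.sum_univ_four]
        show 1 - (r + s + q) + r + s + q = (1 : ℝ)
        ring)
      (by
        intro i _
        fin_cases i
        · exact m0
        · exact m1
        · exact m2
        · exact m3)
    rw [Fin.sum_univ_four] at key
    have e : (![1 - (r + s + q), r, s, q] : Fin 4 → ℝ) 0 • (![0, t.1, vb S t, va t] : Fin 4 → E3) 0 +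
        (![1 - (r + s + q), r, s, q] : Fin 4 → ℝ) 1 • (![0, t.1, vb S t, va t] : Fin 4 → E3) 1 +
        (![1 - (r + s + q), r, s, q] : Fin 4 → ℝ) 2 • (![0, t.1, vb S t, va t] : Fin 4 → E3) 2 +
        (![1 - (r + s + q), r, s, q] : Fin 4 → ℝ) 3 • (![0, t.1, vb S t, va t] : Fin 4 → E3) 3
        = r • t.1 + s • vb S t + q • va t := by
      show (1 - (r + s + q)) • (0 : E3) + r • t.1 + s • vb S t + q • va t = _
      rw [smul_zero, zero_add]
    rw [e] at key
    exact key
  · refine convexHull_min ?_ ((convex_cone3 _ _ _).inter (convex_polar S))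
    rintro z (rfl | rfl | rfl | rfl)
    · refine ⟨⟨0, 0, 0, le_rfl, le_rfl, le_rfl, by simp⟩, fun v _ => ?_⟩
      rw [inner_zero_left]; exact zero_le_one
    · exact ⟨⟨1, 0, 0, zero_le_one, le_rfl, le_rfl, by simp⟩, mem_polar_of_mem hS hu⟩
    · exact ⟨⟨0, 1, 0, le_rfl, zero_le_one, le_rfl, by simp⟩, h6⟩
    · exact ⟨⟨0, 0, 1, le_rfl, le_rfl, zero_le_one, by simp⟩, h5⟩

end Pool.Agent.Helper320.Gold.NA1
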