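import Mathlib
import Pool.Agent.Helper320.GBaseA

set_option autoImplicit false
open Set

namespace Pool.Agent.Helper320.Gold.NA4

open Pool.Agent.Helper320.Gold

theorem two_add_cos_pos (φ : ℝ) : 0 < 2 + Real.cos φ := by
  have := Real.neg_one_le_cos φ; linarith

theorem hasDerivAt_k (φ : ℝ) : HasDerivAt (fun φ : ℝ => 3 * Real.sin φ / (2 + Real.cos φ))
    (3 * (2 * Real.cos φ + 1) / (2 + Real.cos φ) ^ 2) φ := by
  have h := (((Real.hasDerivAt_sin φ).const_mul 3).div ((Real.hasDerivAt_cos φ).const_add 2)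
    (two_add_cos_pos φ).ne')
  refine h.congr_deriv ?_
  have := Real.sin_sq_add_cos_sq φ
  congr 1
  linear_combination 3 * this

theorem hasDerivAt_G (φ : ℝ) : HasDerivAt (fun φ : ℝ => k0 + 24 / 25 * (φ - Real.pi / 3) -
    3 * Real.sin φ / (2 + Real.cos φ) - 1 / 100 * (φ - Real.pi / 3) ^ 2)
    (3 * (2 * Real.cos φ - 1) * (4 * Real.cos φ - 7) / (25 * (2 + Real.cos φ) ^ 2) -
      (φ - Real.pi / 3) / 50) φ := by
  have h1 : HasDerivAt (fun φ : ℝ => φ - Real.pi / 3) 1 φ := (hasDerivAt_id φ).sub_const _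
  have h := (((h1.const_mul (24 / 25)).const_add k0).sub (hasDerivAt_k φ)).sub
    ((h1.pow 2).const_mul (1 / 100))
  refine h.congr_deriv ?_
  have := (two_add_cos_pos φ).ne'
  field_simp
  ring

theorem k_bound_aux1 {φ : ℝ} (h0 : Real.pi / 3 ≤ φ) (h1 : φ ≤ Real.pi) :
    0 ≤ 3 * (2 * Real.cos φ - 1) * (4 * Real.cos φ - 7) / (25 * (2 + Real.cos φ) ^ 2) -
      (φ - Real.pi / 3) / 50 := by
  have hpi := Real.pi_pos
  have hpi4 := Real.pi_lt_four
  set c := Real.cos φ with hc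
  have hc1 : -1 ≤ c := Real.neg_one_le_cos φ
  -- 1 - 2 c = 4 sin ((φ+π/3)/2) sin ((φ-π/3)/2)
  have e1 : 1 - 2 * c = 4 * Real.sin ((φ + Real.pi / 3) / 2) * Real.sin ((φ - Real.pi / 3) / 2) := by
    have := Real.cos_sub_cos φ (Real.pi / 3)
    rw [Real.cos_pi_div_three] at this
    linarith
  have s1 : 1 / 2 ≤ Real.sin ((φ + Real.pi / 3) / 2) := by
    rw [← Real.sin_pi_div_six]
    rcases le_total ((φ + Real.pi / 3) / 2) (Real.pi / 2) with h2 | h2
    · apply Real.sin_le_sin_of_le_of_le_pi_div_two <;> linarith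
    · rw [← Real.sin_pi_sub ((φ + Real.pi / 3) / 2)]
      apply Real.sin_le_sin_of_le_of_le_pi_div_two <;> linarith
  have s2 : 1 / 2 * ((φ - Real.pi / 3) / 2) ≤ Real.sin ((φ - Real.pi / 3) / 2) := by
    have h3 := Real.mul_le_sin (x := (φ - Real.pi / 3) / 2) (by linarith) (by linarith)
    refine le_trans ?_ h3
    apply mul_le_mul_of_nonneg_right _ (by linarith)
    rw [div_le_div_iff₀ (by norm_num) hpi]
    linarith
  have hx : 0 ≤ (φ - Real.pi / 3) / 2 := by linarith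
  have e2 : (φ - Real.pi / 3) / 2 ≤ 1 - 2 * c := by
    rw [e1]
    nlinarith
  have hc2 : c ≤ 1 / 2 := by linarith
  have hpc : 0 < 2 + c := two_add_cos_pos φ
  rw [sub_nonneg, le_div_iff₀ (by positivity)]
  have h5 : (2 + c) ^ 2 ≤ 25 / 4 := by nlinarith
  have h6 : (φ - Real.pi / 3) / 50 * (25 * (2 + c) ^ 2) ≤ (φ - Real.pi / 3) / 50 * (25 * (25 / 4)) := by
    apply mul_le_mul_of_nonneg_left _ (by linarith)
    linarith
  have h7 : 3 * (2 * c - 1) * (4 * c - 7) = 3 * (1 - 2 * c) * (7 - 4 * c) := by ring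
  rw [h7]
  nlinarith [mul_nonneg (sub_nonneg.2 e2) (sub_nonneg.2 hc2), mul_nonneg hx (sub_nonneg.2 hc2)]

theorem k_bound_aux2 {φ : ℝ} (h0 : 0 ≤ φ) (h1 : φ ≤ Real.pi / 3) :
    3 * (2 * Real.cos φ - 1) * (4 * Real.cos φ - 7) / (25 * (2 + Real.cos φ) ^ 2) -
      (φ - Real.pi / 3) / 50 ≤ 0 := by
  have hpi := Real.pi_pos
  have hpi4 : Real.pi < 3.15 := Real.pi_lt_d2
  set c := Real.cos φ with hc
  have hc1 : c ≤ 1 := Real.cos_le_one φ
  have e1 : 2 * c - 1 = 4 * Real.sin ((φ + Real.pi / 3) / 2) * Real.sin ((Real.pi / 3 - φ) / 2) := by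
    have := Real.cos_sub_cos φ (Real.pi / 3)
    rw [Real.cos_pi_div_three] at this
    have h2 : Real.sin ((φ - Real.pi / 3) / 2) = - Real.sin ((Real.pi / 3 - φ) / 2) := by
      rw [← Real.sin_neg]; congr 1; ring
    rw [h2] at this
    linarith
  have s1 : 1 / 2 ≤ Real.sin ((φ + Real.pi / 3) / 2) := by
    rw [← Real.sin_pi_div_six]
    apply Real.sin_le_sin_of_le_of_le_pi_div_two <;> linarith
  have s2 : 0.63 * ((Real.pi / 3 - φ) / 2) ≤ Real.sin ((Real.pi / 3 - φ) / 2) := by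
    have h3 := Real.mul_le_sin (x := (Real.pi / 3 - φ) / 2) (by linarith) (by linarith)
    refine le_trans ?_ h3
    apply mul_le_mul_of_nonneg_right _ (by linarith)
    rw [le_div_iff₀ hpi]
    linarith
  have hx : 0 ≤ (Real.pi / 3 - φ) / 2 := by linarith
  have e2 : 1.26 * ((Real.pi / 3 - φ) / 2) ≤ 2 * c - 1 := by
    rw [e1]
    nlinarith
  have hc2 : 1 / 2 ≤ c := by linarith
  have h7 : 3 * (2 * c - 1) * (4 * c - 7) / (25 * (2 + c) ^ 2) - (φ - Real.pi / 3) / 50
    = (Real.pi / 3 - φ) / 50 - 3 * (2 * c - 1) * (7 - 4 * c) / (25 * (2 + c) ^ 2) := by ring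
  have hpc : 0 < 2 + c := two_add_cos_pos φ
  rw [h7, sub_nonpos, le_div_iff₀ (by positivity)]
  have h5 : (2 + c) ^ 2 ≤ 9 := by nlinarith
  have h6 : (Real.pi / 3 - φ) / 50 * (25 * (2 + c) ^ 2) ≤ (Real.pi / 3 - φ) / 50 * (25 * 9) := by
    apply mul_le_mul_of_nonneg_left _ (by linarith)
    linarith
  nlinarith [mul_nonneg (sub_nonneg.2 e2) (sub_nonneg.2 hc1), mul_nonneg hx (sub_nonneg.2 hc1)]

theorem k_bound {φ : ℝ} (h0 : 0 < φ) (h1 : φ < Real.pi) :
    3 * Real.sin φ / (2 + Real.cos φ) + 1 / 100 * (φ - Real.pi / 3) ^ 2 ≤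
      k0 + 24 / 25 * (φ - Real.pi / 3) := by
  have hpi := Real.pi_pos
  set G : ℝ → ℝ := fun φ : ℝ => k0 + 24 / 25 * (φ - Real.pi / 3) -
    3 * Real.sin φ / (2 + Real.cos φ) - 1 / 100 * (φ - Real.pi / 3) ^ 2 with hG
  have hG0 : G (Real.pi / 3) = 0 := by
    simp only [hG, Real.sin_pi_div_three, Real.cos_pi_div_three, k0]
    ring
  have hcont : Continuous G :=
    continuous_iff_continuousAt.2 fun x => (hasDerivAt_G x).continuousAt
  have key : 0 ≤ G φ := by
    rcases le_total φ (Real.pi / 3) with h2 | h2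
    · have hanti : AntitoneOn G (Icc 0 (Real.pi / 3)) := by
        apply antitoneOn_of_deriv_nonpos (convex_Icc _ _) hcont.continuousOn
        · intro x _
          exact (hasDerivAt_G x).differentiableAt.differentiableWithinAt
        · intro x hx
          rw [interior_Icc] at hx
          rw [(hasDerivAt_G x).deriv]
          exact k_bound_aux2 hx.1.le hx.2.le
      rw [← hG0]
      exact hanti ⟨h0.le, h2⟩ ⟨by positivity, le_rfl⟩ h2
    · have hmono : MonotoneOn G (Icc (Real.pi / 3) Real.pi) := by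
        apply monotoneOn_of_deriv_nonneg (convex_Icc _ _) hcont.continuousOn
        · intro x _
          exact (hasDerivAt_G x).differentiableAt.differentiableWithinAt
        · intro x hx
          rw [interior_Icc] at hx
          rw [(hasDerivAt_G x).deriv]
          exact k_bound_aux1 hx.1.le hx.2.le
      rw [← hG0]
      exact hmono ⟨le_rfl, by linarith⟩ ⟨h2, h1.le⟩ h2
  simp only [hG] at key
  linarith

theorem k0_pos : 0 < k0 := by unfold k0; positivity

theorem k0_lt : k0 < 1.04 := by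
  unfold k0
  have : √3 < 1.733 := by
    rw [Real.sqrt_lt' (by norm_num)]; norm_num
  linarith

theorem k0_sq : k0 ^ 2 = 27 / 25 := by
  unfold k0
  have : √3 ^ 2 = 3 := Real.sq_sqrt (by norm_num)
  nlinarith

/-- `k` is `3`-Lipschitz -/
theorem k_lip (φ : ℝ) : |3 * Real.sin φ / (2 + Real.cos φ) - k0| ≤ 3 * |φ - Real.pi / 3| := by
  have h := Convex.norm_image_sub_le_of_norm_hasDerivWithin_le
    (f := fun φ : ℝ => 3 * Real.sin φ / (2 + Real.cos φ))
    (f' := fun φ => 3 * (2 * Real.cos φ + 1) / (2 + Real.cos φ) ^ 2) (s := univ) (C := 3)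
    (x := Real.pi / 3) (y := φ)
    (fun x _ => (hasDerivAt_k x).hasDerivWithinAt) (fun x _ => by
      have hp := two_add_cos_pos x
      have h1 := Real.neg_one_le_cos x
      have h2 := Real.cos_le_one x
      rw [Real.norm_eq_abs, abs_le]
      constructor
      · rw [le_div_iff₀ (by positivity)]
        nlinarith
      · rw [div_le_iff₀ (by positivity)]
        nlinarith) convex_univ (mem_univ _) (mem_univ _)
  have e : 3 * Real.sin (Real.pi / 3) / (2 + Real.cos (Real.pi / 3)) = k0 := by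
    rw [Real.sin_pi_div_three, Real.cos_pi_div_three, k0]; ring
  simp only [e, Real.norm_eq_abs] at h
  exact h

/-- the three contributions to `penA` -/
theorem penA_split {A0 r s φ : ℝ} (hA : 0 < A0) (hr : 0 < r) (hs : 0 < s) (h0 : 0 < φ)
    (h1 : φ < Real.pi) :
    r * s * Real.sin φ / 12 * (r - s) ^ 2 +
      (r * s * Real.sin φ / 2 - A0 / k0 * (3 * Real.sin φ / (2 + Real.cos φ))) ^ 2 / 2 +
      (A0 / k0) ^ 2 * (1 / 100 * (φ - Real.pi / 3) ^ 2) ≤ penA A0 r s φ := by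
  have hk := k_bound h0 h1
  have hsin : 0 < Real.sin φ := Real.sin_pos_of_pos_of_lt_pi h0 h1
  have hp := two_add_cos_pos φ
  set S := Real.sin φ with hS
  set c := Real.cos φ with hc
  set k := 3 * S / (2 + c) with hkd
  have hkpos : 0 < k := by positivity
  have hk2 : k ≤ 2 := by
    rw [hkd, div_le_iff₀ hp]
    have := Real.sin_sq_add_cos_sq φ
    nlinarith [sq_nonneg (3 * c + 2 * S), sq_nonneg (c + 1/2)]
  set lam := A0 / k0 with hlam
  have hlampos : 0 < lam := div_pos hA k0_pos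
  set A := r * s * S / 2 with hAd
  have hApos : 0 < A := by positivity
  have hkc : k * (2 + c) = 3 * S := by rw [hkd]; field_simp
  -- rs (2 + c) A / 6 = A^2 / k
  have e1 : r * s * S / 12 * (r * s * (2 + c)) = A ^ 2 / k := by
    rw [eq_div_iff hkpos.ne', hAd]
    linear_combination (r ^ 2 * s ^ 2 * S / 12) * hkc
  have e2 : (A - lam * k) ^ 2 / 2 ≤ (A - lam * k) ^ 2 / k := by
    apply div_le_div_of_nonneg_left (sq_nonneg _) hkpos hk2
  have e3 : (A - lam * k) ^ 2 / k = A ^ 2 / k - 2 * lam * A + lam ^ 2 * k := by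
    field_simp
    ring
  have e4 : lam ^ 2 * (k + 1 / 100 * (φ - Real.pi / 3) ^ 2) ≤
      lam ^ 2 * (k0 + 24 / 25 * (φ - Real.pi / 3)) := by
    apply mul_le_mul_of_nonneg_left hk (by positivity)
  have e5 : penA A0 r s φ = r * s * S / 12 * (r - s) ^ 2 + A ^ 2 / k - 2 * lam * A +
      lam ^ 2 * (k0 + 24 / 25 * (φ - Real.pi / 3)) := by
    rw [← e1]
    unfold penA
    rw [← hS, ← hc, ← hlam, hAd]
    ring
  rw [e5]
  nlinarith

theorem penA_bound {A0 r s φ : ℝ} (hA : 0 < A0) (hr : 0 < r) (hs : 0 < s) (h0 : 0 < φ)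
    (h1 : φ < Real.pi) : 1e-3 * (r * s * Real.sin φ / 2 - A0) ^ 2 ≤ penA A0 r s φ := by
  refine le_trans ?_ (penA_split hA hr hs h0 h1)
  have hsin : 0 < Real.sin φ := Real.sin_pos_of_pos_of_lt_pi h0 h1
  have hl := k_lip φ
  set k := 3 * Real.sin φ / (2 + Real.cos φ) with hkd
  set lam := A0 / k0 with hlam
  have hA0 : A0 = lam * k0 := by rw [hlam]; field_simp [k0_pos.ne']
  have hl2 : (k - k0) ^ 2 ≤ 9 * (φ - Real.pi / 3) ^ 2 := by
    have := sq_le_sq' (by have := abs_nonneg (k - k0); linarith [abs_nonneg (φ - Real.pi / 3)]) hl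
    rw [mul_pow, sq_abs, sq_abs] at this
    linarith
  have hpos : 0 ≤ r * s * Real.sin φ / 12 * (r - s) ^ 2 := by positivity
  set A := r * s * Real.sin φ / 2 with hAd
  have h3 : lam ^ 2 * (k - k0) ^ 2 ≤ lam ^ 2 * (9 * (φ - Real.pi / 3) ^ 2) :=
    mul_le_mul_of_nonneg_left hl2 (sq_nonneg _)
  rw [hA0]
  have h4 : 1e-3 * (A - lam * k0) ^ 2 ≤ (A - lam * k) ^ 2 / 2 + lam ^ 2 * (k - k0) ^ 2 / 900 := by
    have := sq_nonneg (10 * (A - lam * k) - lam * (k - k0))
    nlinarith [sq_nonneg (A - lam * k), sq_nonneg (lam * (k - k0))]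
  nlinarith

theorem sin_lip (φ : ℝ) : |Real.sin φ - √3 / 2| ≤ |φ - Real.pi / 3| := by
  have h := Convex.norm_image_sub_le_of_norm_hasDerivWithin_le
    (f := Real.sin) (f' := Real.cos) (s := univ) (C := 1) (x := Real.pi / 3) (y := φ)
    (fun x _ => (Real.hasDerivAt_sin x).hasDerivWithinAt)
    (fun x _ => by rw [Real.norm_eq_abs]; exact Real.abs_cos_le_one x)
    convex_univ (mem_univ _) (mem_univ _)
  rw [Real.sin_pi_div_three, one_mul] at h
  exact h

/-- normalised version -/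
theorem shape_aux {x y S q : ℝ} (hx : 0 < x) (hy : 0 < y) (hq : 0.86 < q) (hq1 : q < 0.87)
    (hS : |S - q| ≤ 1.1e-9) (h1 : |x * y * S - q| ≤ 3.2e-9 * q)
    (h2 : x * y * S * (x - y) ^ 2 ≤ 12e-20 * (q / 2) ^ 2) :
    |x - 1| ≤ 1e-8 := by
  rw [abs_le] at hS h1
  obtain ⟨hS1, hS2⟩ := hS
  obtain ⟨h11, h12⟩ := h1
  have hxy : 0 < x * y := mul_pos hx hy
  have hup : x * y ≤ 1 + 5e-9 := by
    by_contra hcon
    push Not at hcon
    have : (1 + 5e-9) * (q - 1.1e-9) < x * y * S := by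
      calc (1 + 5e-9) * (q - 1.1e-9) < x * y * (q - 1.1e-9) := by
            apply mul_lt_mul_of_pos_right hcon; linarith
        _ ≤ x * y * S := by
            apply mul_le_mul_of_nonneg_left _ hxy.le; linarith
    linarith
  have hlo : 1 - 5e-9 ≤ x * y := by
    by_contra hcon
    push Not at hcon
    have : x * y * S < (1 - 5e-9) * (q + 1.1e-9) := by
      calc x * y * S ≤ x * y * (q + 1.1e-9) := by
            apply mul_le_mul_of_nonneg_left _ hxy.le; linarith
        _ < (1 - 5e-9) * (q + 1.1e-9) := by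
            apply mul_lt_mul_of_pos_right hcon; linarith
    linarith
  have hd : (x - y) ^ 2 ≤ (1e-9) ^ 2 := by
    have h3 : 0.8 * (x - y) ^ 2 ≤ x * y * S * (x - y) ^ 2 := by
      apply mul_le_mul_of_nonneg_right _ (sq_nonneg _)
      linarith
    nlinarith
  have hd2 := abs_le_of_sq_le_sq' hd (by norm_num)
  obtain ⟨hd3, hd4⟩ := hd2
  rw [abs_le]
  constructor
  · by_contra hcon
    push Not at hcon
    have hx1 : x < 1 - 1e-8 := by linarith
    have hy1 : y < 1 - 9e-9 := by linarith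
    have : x * y < (1 - 1e-8) * (1 - 9e-9) := by
      apply mul_lt_mul'' hx1 hy1 hx.le hy.le
    linarith
  · by_contra hcon
    push Not at hcon
    have hx1 : 1 + 1e-8 < x := by linarith
    have hy1 : 1 + 9e-9 < y := by linarith
    have : (1 + 1e-8) * (1 + 9e-9) < x * y := by
      apply mul_lt_mul'' hx1 hy1 (by norm_num) (by norm_num)
    linarith

theorem penA_shape {A0 r s φ l : ℝ} (hl : 0 < l) (hA : 6 * A0 = √3 / 2 * l ^ 2) (hr : 0 < r)
    (hs : 0 < s) (h0 : 0 < φ) (h1 : φ < Real.pi) (hp : penA A0 r s φ ≤ 1e-20 * A0 ^ 2) :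
    |r - l / √3| ≤ 1e-7 * l ∧ |s - l / √3| ≤ 1e-7 * l ∧ |φ - Real.pi / 3| ≤ 1e-7 := by
  have hsq : √3 ^ 2 = 3 := Real.sq_sqrt (by norm_num)
  have hs3 : 0 < √3 := by positivity
  have hq1 : √3 / 2 < 0.87 := by
    have : √3 < 1.74 := by
      rw [Real.sqrt_lt' (by norm_num)]; norm_num
    linarith
  have hq0 : 0.86 < √3 / 2 := by
    have : 1.72 < √3 := by
      rw [Real.lt_sqrt (by norm_num)]; norm_num
    linarith
  set m := l / √3 with hm
  have hmpos : 0 < m := div_pos hl hs3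
  have hml : m ≤ l := div_le_self hl.le (by linarith)
  have hlm : l = √3 * m := by rw [hm]; field_simp
  have hA0 : A0 = √3 / 4 * m ^ 2 := by
    have h2 : l ^ 2 = 3 * m ^ 2 := by rw [hlm, mul_pow, hsq]
    rw [h2] at hA
    linarith
  have hApos : 0 < A0 := by rw [hA0]; positivity
  have hsplit := (penA_split hApos hr hs h0 h1).trans hp
  have hb := (penA_bound hApos hr hs h0 h1).trans hp
  have hsin : 0 < Real.sin φ := Real.sin_pos_of_pos_of_lt_pi h0 h1
  set S := Real.sin φ with hSd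
  have p1 : 0 ≤ r * s * S / 12 * (r - s) ^ 2 := by positivity
  have p2 : 0 ≤ (r * s * S / 2 - A0 / k0 * (3 * S / (2 + Real.cos φ))) ^ 2 / 2 := by positivity
  have p3 : 0 ≤ (A0 / k0) ^ 2 * (1 / 100 * (φ - Real.pi / 3) ^ 2) := by positivity
  -- angle
  have hphi : |φ - Real.pi / 3| ≤ 1.1e-9 := by
    apply abs_le_of_sq_le_sq _ (by norm_num)
    have h2 : (A0 / k0) ^ 2 * (1 / 100 * (φ - Real.pi / 3) ^ 2) ≤ 1e-20 * A0 ^ 2 := by linarith
    rw [div_pow, k0_sq, div_mul_eq_mul_div, div_le_iff₀ (by norm_num)] at h2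
    have h3 : A0 ^ 2 * ((φ - Real.pi / 3) ^ 2) ≤ A0 ^ 2 * (1.1e-9) ^ 2 := by
      have hA2 : 0 < A0 ^ 2 := by positivity
      nlinarith
    exact le_of_mul_le_mul_left h3 (by positivity)
  have hS : |S - √3 / 2| ≤ 1.1e-9 := (sin_lip φ).trans hphi
  -- area
  have harea : |r * s * S / 2 - A0| ≤ 3.2e-9 * A0 := by
    apply abs_le_of_sq_le_sq _ (by positivity)
    have hA2 : 0 < A0 ^ 2 := by positivity
    nlinarith
  clear_value m
  have hx : 0 < r / m := div_pos hr hmpos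
  have hy : 0 < s / m := div_pos hs hmpos
  have er : r = r / m * m := by field_simp
  have es : s = s / m * m := by field_simp
  generalize r / m = x at *
  generalize s / m = y at *
  have hm2 : 0 < m ^ 2 := by positivity
  have hm4 : 0 < m ^ 4 := by positivity
  have g1 : |x * y * S - √3 / 2| ≤ 3.2e-9 * (√3 / 2) := by
    rw [abs_le] at harea ⊢
    obtain ⟨a1, a2⟩ := harea
    rw [er, es, hA0] at a1 a2
    constructor
    · have : m ^ 2 * (-(3.2e-9 * (√3 / 2))) ≤ m ^ 2 * (x * y * S - √3 / 2) := by linarith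
      exact le_of_mul_le_mul_left this hm2
    · have : m ^ 2 * (x * y * S - √3 / 2) ≤ m ^ 2 * (3.2e-9 * (√3 / 2)) := by linarith
      exact le_of_mul_le_mul_left this hm2
  have g2 : x * y * S * (x - y) ^ 2 ≤ 12e-20 * (√3 / 2 / 2) ^ 2 := by
    have h2 : r * s * S / 12 * (r - s) ^ 2 ≤ 1e-20 * A0 ^ 2 := by linarith
    rw [er, es, hA0] at h2
    have : m ^ 4 * (x * y * S * (x - y) ^ 2) ≤ m ^ 4 * (12e-20 * (√3 / 2 / 2) ^ 2) := by
      linarith
    exact le_of_mul_le_mul_left this hm4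
  refine ⟨?_, ?_, hphi.trans (by norm_num)⟩
  · have h3 := shape_aux hx hy hq0 hq1 hS g1 g2
    have e : r - m = (x - 1) * m := by rw [sub_mul, ← er]; ring
    rw [e, abs_mul, abs_of_pos hmpos]
    calc |x - 1| * m ≤ 1e-8 * m := mul_le_mul_of_nonneg_right h3 hmpos.le
      _ ≤ 1e-7 * l := by linarith
  · have h3 := shape_aux hy hx hq0 hq1 hS (by rw [mul_comm y x]; exact g1)
      (by rw [mul_comm y x, ← neg_sub x y, neg_sq]; exact g2)
    have e : s - m = (y - 1) * m := by rw [sub_mul, ← es]; ring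
    rw [e, abs_mul, abs_of_pos hmpos]
    calc |y - 1| * m ≤ 1e-8 * m := mul_le_mul_of_nonneg_right h3 hmpos.le
      _ ≤ 1e-7 * l := by linarith

end Pool.Agent.Helper320.Gold.NA4
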