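import Mathlib
import Pool.Agent.Helper320.GBaseA

set_option autoImplicit false
open Set

namespace Pool.Agent.Helper320.Gold.NA2

open Pool.Agent.Helper320.Gold

open MeasureTheory in
theorem sector_volume (Q : ℂ) (hQ : 0 < Q.im) (ρ : ℝ) (hρ : 0 < ρ) :
    ENNReal.ofReal (Complex.arg Q / 2) ≤
      volume ({z : ℂ | 0 < z.re * Q.im - z.im * Q.re ∧ 0 < ρ * z.im} ∩ Metric.ball 0 1) := by
  set S : Set ℂ := {z : ℂ | 0 < z.re * Q.im - z.im * Q.re ∧ 0 < ρ * z.im} ∩ Metric.ball 0 1 with hS
  have hSm : MeasurableSet S := by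
    apply MeasurableSet.inter _ measurableSet_ball
    exact ((isOpen_lt (f := fun _ : ℂ => (0:ℝ)) (g := fun z : ℂ => z.re * Q.im - z.im * Q.re)
      continuous_const (by fun_prop)).inter
      (isOpen_lt (f := fun _ : ℂ => (0:ℝ)) (g := fun z : ℂ => ρ * z.im)
      continuous_const (by fun_prop))).measurableSet
  set φ := Complex.arg Q with hφ
  have hφ0 : 0 < φ := by
    rcases (Complex.arg_nonneg_iff.2 hQ.le).eq_or_lt with h | h
    · exfalso
      have h2 := Complex.norm_mul_sin_arg Q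
      rw [← h, Real.sin_zero, mul_zero] at h2
      linarith
    · exact h
  have hφπ : φ < Real.pi := by
    rcases (Complex.arg_le_pi Q).lt_or_eq with h | h
    · exact h
    · exfalso
      have h2 := Complex.norm_mul_sin_arg Q
      rw [h, Real.sin_pi, mul_zero] at h2
      linarith
  have hQre : Q.re = ‖Q‖ * Real.cos φ := (Complex.norm_mul_cos_arg Q).symm
  have hQim : Q.im = ‖Q‖ * Real.sin φ := (Complex.norm_mul_sin_arg Q).symm
  have hQn : 0 < ‖Q‖ := by
    rw [norm_pos_iff]
    rintro rfl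
    simp at hQ
  have h1 : volume S = ∫⁻ z, S.indicator 1 z := by
    rw [lintegral_indicator_one hSm]
  rw [h1, ← Complex.lintegral_comp_polarCoord_symm]
  have hsub : Ioo (0:ℝ) 1 ×ˢ Ioo (0:ℝ) φ ⊆ polarCoord.target := by
    rintro ⟨r, θ⟩ ⟨hr, hθ⟩
    rw [polarCoord_target]
    simp only [mem_Ioo] at hr hθ
    exact ⟨hr.1, by simp only [mem_Ioo]; constructor <;> linarith [Real.pi_pos]⟩
  have hmem : ∀ p ∈ Ioo (0:ℝ) 1 ×ˢ Ioo (0:ℝ) φ, Complex.polarCoord.symm p ∈ S := by
    rintro ⟨r, θ⟩ ⟨hr, hθ⟩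
    simp only [mem_Ioo] at hr hθ
    rw [hS]
    have hre : (Complex.polarCoord.symm (r, θ)).re = r * Real.cos θ := by
      simp [Complex.cos_ofReal_re, Complex.sin_ofReal_re]
    have him : (Complex.polarCoord.symm (r, θ)).im = r * Real.sin θ := by
      simp [Complex.cos_ofReal_re, Complex.sin_ofReal_re]
    refine ⟨⟨?_, ?_⟩, ?_⟩
    · rw [hre, him, hQre, hQim]
      have h3 : r * Real.cos θ * (‖Q‖ * Real.sin φ) - r * Real.sin θ * (‖Q‖ * Real.cos φ) =
          r * ‖Q‖ * Real.sin (φ - θ) := by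
        rw [Real.sin_sub]; ring
      rw [h3]
      exact mul_pos (mul_pos hr.1 hQn) (Real.sin_pos_of_pos_of_lt_pi (by linarith) (by linarith))
    · rw [him]
      exact mul_pos hρ (mul_pos hr.1 (Real.sin_pos_of_pos_of_lt_pi hθ.1 (by linarith)))
    · rw [mem_ball_zero_iff, Complex.norm_polarCoord_symm, abs_of_pos hr.1]
      exact hr.2
  calc ENNReal.ofReal (φ / 2) ≤ ∫⁻ p in Ioo (0:ℝ) 1 ×ˢ Ioo (0:ℝ) φ, ENNReal.ofReal p.1 := by
        rw [Measure.volume_eq_prod, setLIntegral_prod _ (by fun_prop)]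
        simp only [lintegral_const, Measure.restrict_apply_univ, Real.volume_Ioo, sub_zero]
        rw [lintegral_mul_const _ (by fun_prop)]
        have h4 : ∫⁻ x in Ioo (0:ℝ) 1, ENNReal.ofReal x = ENNReal.ofReal (1 / 2) := by
          rw [← ofReal_integral_eq_lintegral_ofReal]
          · rw [← integral_Ioc_eq_integral_Ioo, ← intervalIntegral.integral_of_le zero_le_one,
              integral_id]
            norm_num
          · exact (continuous_id.integrableOn_Icc).mono_set Ioo_subset_Icc_self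
          · filter_upwards [self_mem_ae_restrict measurableSet_Ioo] with x hx
            exact hx.1.le
        rw [h4, ← ENNReal.ofReal_mul (by norm_num)]
        apply ENNReal.ofReal_le_ofReal
        linarith
    _ = ∫⁻ p in Ioo (0:ℝ) 1 ×ˢ Ioo (0:ℝ) φ,
          ENNReal.ofReal p.1 • S.indicator 1 (Complex.polarCoord.symm p) := by
        apply setLIntegral_congr_fun (measurableSet_Ioo.prod measurableSet_Ioo)
        intro p hp
        simp only
        rw [indicator_of_mem (hmem p hp), Pi.one_apply, smul_eq_mul, mul_one]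
    _ ≤ _ := lintegral_mono_set hsub


/-- open planar cone -/
def Co (P P' : ℂ) : Set ℂ :=
  {z | 0 < z.re * P'.im - z.im * P'.re ∧ 0 < P.re * z.im - P.im * z.re}

theorem isOpen_Co (P P' : ℂ) : IsOpen (Co P P') :=
  (isOpen_lt (f := fun _ : ℂ => (0:ℝ)) (g := fun z : ℂ => z.re * P'.im - z.im * P'.re)
      continuous_const (by fun_prop)).inter
      (isOpen_lt (f := fun _ : ℂ => (0:ℝ)) (g := fun z : ℂ => P.re * z.im - P.im * z.re)
      continuous_const (by fun_prop))

open MeasureTheory in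
theorem cone_volume (P P' : ℂ) (hD : 0 < P.re * P'.im - P.im * P'.re) :
    ENNReal.ofReal (Real.arccos ((P.re * P'.re + P.im * P'.im) / (‖P‖ * ‖P'‖)) / 2) ≤
      volume (Co P P' ∩ Metric.ball 0 1) := by
  have hP : P ≠ 0 := by
    rintro rfl
    simp at hD
  have hP' : P' ≠ 0 := by
    rintro rfl
    simp at hD
  have hPn : 0 < ‖P‖ := norm_pos_iff.2 hP
  have hPn' : 0 < ‖P'‖ := norm_pos_iff.2 hP'
  set α := Complex.arg P with hα
  set c : Circle := Circle.exp (-α) with hc
  have hcre : (c : ℂ).re = Real.cos α := by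
    rw [hc, Circle.coe_exp, Complex.exp_mul_I]
    simp [Complex.cos_ofReal_re, Complex.sin_ofReal_re, Complex.sin_ofReal_im, Complex.cos_ofReal_im]
  have hcim : (c : ℂ).im = -Real.sin α := by
    rw [hc, Circle.coe_exp, Complex.exp_mul_I]
    simp [Complex.cos_ofReal_re, Complex.sin_ofReal_re, Complex.sin_ofReal_im, Complex.cos_ofReal_im]
  have hPre : P.re = ‖P‖ * Real.cos α := (Complex.norm_mul_cos_arg P).symm
  have hPim : P.im = ‖P‖ * Real.sin α := (Complex.norm_mul_sin_arg P).symm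
  set Q : ℂ := c * P' with hQ
  have hQre : Q.re = Real.cos α * P'.re + Real.sin α * P'.im := by
    rw [hQ, Complex.mul_re, hcre, hcim]; ring
  have hQim : Q.im = Real.cos α * P'.im - Real.sin α * P'.re := by
    rw [hQ, Complex.mul_im, hcre, hcim]; ring
  have hQn : ‖Q‖ = ‖P'‖ := by
    rw [hQ, norm_mul, Circle.norm_coe, one_mul]
  have hQpos : 0 < Q.im := by
    rw [hPre, hPim] at hD
    have : 0 < ‖P‖ * Q.im := by rw [hQim]; linarith
    exact (mul_pos_iff_of_pos_left hPn).1 this
  have hQ0 : Q ≠ 0 := by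
    rintro h
    rw [h] at hQpos
    simp at hQpos
  have hang : Real.arccos ((P.re * P'.re + P.im * P'.im) / (‖P‖ * ‖P'‖)) = Complex.arg Q := by
    have h1 : (P.re * P'.re + P.im * P'.im) / (‖P‖ * ‖P'‖) = Real.cos (Complex.arg Q) := by
      rw [Complex.cos_arg hQ0, hQn, hQre, hPre, hPim]
      field_simp
    rw [h1, Real.arccos_cos (Complex.arg_nonneg_iff.2 hQpos.le) (Complex.arg_le_pi Q)]
  rw [hang]
  refine (sector_volume Q hQpos ‖P‖ hPn).trans ?_
  have hpre : Co P P' ∩ Metric.ball 0 1 = (rotation c) ⁻¹'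
      ({z : ℂ | 0 < z.re * Q.im - z.im * Q.re ∧ 0 < ‖P‖ * z.im} ∩ Metric.ball 0 1) := by
    ext z
    rw [mem_preimage, rotation_apply]
    have hcs : Real.cos α ^ 2 + Real.sin α ^ 2 = 1 := Real.cos_sq_add_sin_sq α
    have hre : ((c : ℂ) * z).re = Real.cos α * z.re + Real.sin α * z.im := by
      rw [Complex.mul_re, hcre, hcim]; ring
    have him : ((c : ℂ) * z).im = Real.cos α * z.im - Real.sin α * z.re := by
      rw [Complex.mul_im, hcre, hcim]; ring
    simp only [mem_inter_iff, Co, mem_setOf_eq, mem_ball_zero_iff, norm_mul, Circle.norm_coe,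
      one_mul, hre, him, hQre, hQim]
    have e1 : (Real.cos α * z.re + Real.sin α * z.im) * (Real.cos α * P'.im - Real.sin α * P'.re) -
        (Real.cos α * z.im - Real.sin α * z.re) * (Real.cos α * P'.re + Real.sin α * P'.im) =
        z.re * P'.im - z.im * P'.re := by
      linear_combination (z.re * P'.im - z.im * P'.re) * hcs
    have e2 : ‖P‖ * (Real.cos α * z.im - Real.sin α * z.re) = P.re * z.im - P.im * z.re := by
      rw [hPre, hPim]; ring
    rw [e1, e2]
  rw [hpre, ((rotation c).measurePreserving).measure_preimage]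
  exact (((isOpen_lt (f := fun _ : ℂ => (0:ℝ)) (g := fun z : ℂ => z.re * Q.im - z.im * Q.re)
      continuous_const (by fun_prop)).inter
      (isOpen_lt (f := fun _ : ℂ => (0:ℝ)) (g := fun z : ℂ => ‖P‖ * z.im)
      continuous_const (by fun_prop))).inter Metric.isOpen_ball).measurableSet.nullMeasurableSet

open MeasureTheory in
theorem planar_sum {ι : Type} (I : Finset ι) (P P' : ι → ℂ)
    (hD : ∀ i ∈ I, 0 < (P i).re * (P' i).im - (P i).im * (P' i).re)
    (hdis : ∀ i ∈ I, ∀ j ∈ I, i ≠ j → Disjoint (Co (P i) (P' i)) (Co (P j) (P' j))) :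
    ∑ i ∈ I, Real.arccos (((P i).re * (P' i).re + (P i).im * (P' i).im) / (‖P i‖ * ‖P' i‖)) ≤
      2 * Real.pi := by
  have h1 : ∑ i ∈ I, volume (Co (P i) (P' i) ∩ Metric.ball 0 1) ≤ ENNReal.ofReal Real.pi := by
    rw [← measure_biUnion_finset]
    · have h2 : volume (Metric.ball (0:ℂ) 1) = ENNReal.ofReal Real.pi := by
        rw [Complex.volume_ball]
        simp [ENNReal.ofReal, NNReal.pi]
        rw [Real.toNNReal_of_nonneg Real.pi_pos.le]
        rfl
      rw [← h2]
      apply measure_mono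
      intro z hz
      simp only [mem_iUnion] at hz
      obtain ⟨i, _, hz⟩ := hz
      exact hz.2
    · intro i hi j hj hij
      exact (hdis i hi j hj hij).mono inter_subset_left inter_subset_left
    · intro i _
      exact ((isOpen_Co _ _).inter Metric.isOpen_ball).measurableSet
  have h3 : ENNReal.ofReal (∑ i ∈ I, Real.arccos
      (((P i).re * (P' i).re + (P i).im * (P' i).im) / (‖P i‖ * ‖P' i‖)) / 2) ≤
      ENNReal.ofReal Real.pi := by
    rw [ENNReal.ofReal_sum_of_nonneg]
    · exact (Finset.sum_le_sum (fun i hi => cone_volume (P i) (P' i) (hD i hi))).trans h1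
    · intro i _
      exact div_nonneg (Real.arccos_nonneg _) zero_le_two
  rw [ENNReal.ofReal_le_ofReal_iff Real.pi_pos.le, ← Finset.sum_div] at h3
  linarith


theorem mem_cone3' {u e f b a x : E3} {xb yb xa ya X Y h : ℝ} (hb : b = xb • e + yb • f + u)
    (ha : a = xa • e + ya • f + u) (hx : x = X • e + Y • f + h • u) (hD : 0 < xb * ya - yb * xa)
    (h1 : 0 < X * ya - Y * xa) (h2 : 0 < xb * Y - yb * X)
    (h3 : (X * ya - Y * xa) / (xb * ya - yb * xa) + (xb * Y - yb * X) / (xb * ya - yb * xa) < h) :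
    x ∈ cone3 u b a := by
  obtain ⟨s, hs⟩ : ∃ s, s = (X * ya - Y * xa) / (xb * ya - yb * xa) := ⟨_, rfl⟩
  obtain ⟨t, ht⟩ : ∃ t, t = (xb * Y - yb * X) / (xb * ya - yb * xa) := ⟨_, rfl⟩
  rw [← hs, ← ht] at h3
  have hs0 : 0 ≤ s := by rw [hs]; exact (div_pos h1 hD).le
  have ht0 : 0 ≤ t := by rw [ht]; exact (div_pos h2 hD).le
  have e1 : s * xb + t * xa = X := by
    rw [hs, ht, div_mul_eq_mul_div, div_mul_eq_mul_div, ← add_div, div_eq_iff hD.ne']
    ring
  have e2 : s * yb + t * ya = Y := by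
    rw [hs, ht, div_mul_eq_mul_div, div_mul_eq_mul_div, ← add_div, div_eq_iff hD.ne']
    ring
  refine ⟨h - s - t, s, t, by linarith, hs0, ht0, ?_⟩
  rw [hx, hb, ha, ← e1, ← e2]
  module

open MeasureTheory in
theorem frame_case {ι : Type} (I : Finset ι) {u e f : E3} (b a : ι → E3)
    (hexp : ∀ x : E3, x = inner ℝ e x • e + inner ℝ f x • f + inner ℝ u x • u)
    (hee : inner ℝ e e = (1 : ℝ)) (hff : inner ℝ f f = (1 : ℝ)) (huu : inner ℝ u u = (1 : ℝ))
    (hef : inner ℝ e f = (0 : ℝ)) (heu : inner ℝ e u = (0 : ℝ)) (hfu : inner ℝ f u = (0 : ℝ))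
    (hb : ∀ i ∈ I, inner ℝ (b i) u = (1 : ℝ)) (ha : ∀ i ∈ I, inner ℝ (a i) u = (1 : ℝ))
    (hD : ∀ i ∈ I, 0 < inner ℝ e (b i) * inner ℝ f (a i) - inner ℝ f (b i) * inner ℝ e (a i))
    (hdis : ∀ i ∈ I, ∀ j ∈ I, i ≠ j →
      MeasureTheory.volume (cone3 u (b i) (a i) ∩ cone3 u (b j) (a j)) = 0) :
    ∑ i ∈ I, InnerProductGeometry.angle (b i - u) (a i - u) ≤ 2 * Real.pi := by
  have hfe : inner ℝ f e = (0 : ℝ) := by rw [real_inner_comm]; exact hef
  have hue : inner ℝ u e = (0 : ℝ) := by rw [real_inner_comm]; exact heu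
  have huf : inner ℝ u f = (0 : ℝ) := by rw [real_inner_comm]; exact hfu
  have hbe : ∀ i ∈ I, b i = inner ℝ e (b i) • e + inner ℝ f (b i) • f + u := by
    intro i hi
    have h1 := hexp (b i)
    rw [real_inner_comm (b i) u, hb i hi, one_smul] at h1
    exact h1
  have hae : ∀ i ∈ I, a i = inner ℝ e (a i) • e + inner ℝ f (a i) • f + u := by
    intro i hi
    have h1 := hexp (a i)
    rw [real_inner_comm (a i) u, ha i hi, one_smul] at h1
    exact h1
  let P : ι → ℂ := fun i => ⟨inner ℝ e (b i), inner ℝ f (b i)⟩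
  let P' : ι → ℂ := fun i => ⟨inner ℝ e (a i), inner ℝ f (a i)⟩
  have hinner : ∀ x y x' y' : ℝ, inner ℝ (x • e + y • f) (x' • e + y' • f) = x * x' + y * y' := by
    intro x y x' y'
    simp only [inner_add_left, inner_add_right, real_inner_smul_left, real_inner_smul_right,
      hee, hff, hef, hfe]
    ring
  have hang : ∀ i ∈ I, InnerProductGeometry.angle (b i - u) (a i - u) =
      Real.arccos (((P i).re * (P' i).re + (P i).im * (P' i).im) / (‖P i‖ * ‖P' i‖)) := by
    intro i hi
    have h1 : b i - u = inner ℝ e (b i) • e + inner ℝ f (b i) • f := by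
      have := hbe i hi
      exact sub_eq_of_eq_add this
    have h2 : a i - u = inner ℝ e (a i) • e + inner ℝ f (a i) • f := by
      have := hae i hi
      exact sub_eq_of_eq_add this
    rw [InnerProductGeometry.angle, h1, h2, hinner]
    have h3 : ‖inner ℝ e (b i) • e + inner ℝ f (b i) • f‖ = ‖P i‖ := by
      rw [norm_eq_sqrt_real_inner, hinner, Complex.norm_def, Complex.normSq_apply]
    have h4 : ‖inner ℝ e (a i) • e + inner ℝ f (a i) • f‖ = ‖P' i‖ := by
      rw [norm_eq_sqrt_real_inner, hinner, Complex.norm_def, Complex.normSq_apply]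
    rw [h3, h4]
  rw [Finset.sum_congr rfl hang]
  apply planar_sum I P P' hD
  intro i hi j hj hij
  rw [Set.disjoint_left]
  intro z hzi hzj
  -- open set in space
  let S : ι → E3 → ℝ := fun k x =>
    inner ℝ e x * inner ℝ f (a k) - inner ℝ f x * inner ℝ e (a k)
  let T : ι → E3 → ℝ := fun k x =>
    inner ℝ e (b k) * inner ℝ f x - inner ℝ f (b k) * inner ℝ e x
  let D : ι → ℝ := fun k => inner ℝ e (b k) * inner ℝ f (a k) - inner ℝ f (b k) * inner ℝ e (a k)
  let R : ι → E3 → ℝ := fun k x => inner ℝ u x - (S k x / D k + T k x / D k)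
  have hScont : ∀ k, Continuous (S k) := fun k => by
    show Continuous (fun x : E3 => inner ℝ e x * inner ℝ f (a k) - inner ℝ f x * inner ℝ e (a k))
    fun_prop
  have hTcont : ∀ k, Continuous (T k) := fun k => by
    show Continuous (fun x : E3 => inner ℝ e (b k) * inner ℝ f x - inner ℝ f (b k) * inner ℝ e x)
    fun_prop
  have hRcont : ∀ k, Continuous (R k) := fun k => by
    show Continuous (fun x : E3 => inner ℝ u x - (S k x / D k + T k x / D k))
    have h1 := hScont k
    have h2 := hTcont k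
    fun_prop
  let V : ι → Set E3 := fun k => {x | 0 < S k x} ∩ {x | 0 < T k x} ∩ {x | 0 < R k x}
  have hVo : ∀ k, IsOpen (V k) := fun k =>
    ((isOpen_lt continuous_const (hScont k)).inter (isOpen_lt continuous_const (hTcont k))).inter
      (isOpen_lt continuous_const (hRcont k))
  have hVc : ∀ k ∈ I, V k ⊆ cone3 u (b k) (a k) := by
    rintro k hk x ⟨⟨h1, h2⟩, h3⟩
    have h3' : 0 < inner ℝ u x - (S k x / D k + T k x / D k) := h3
    exact mem_cone3' (hbe k hk) (hae k hk) (hexp x) (hD k hk) h1 h2 (by linarith)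
  have hpos : 0 < volume (V i ∩ V j) := by
    refine ((hVo i).inter (hVo j)).measure_pos volume ?_
    obtain ⟨hz1, hz2⟩ := hzi
    obtain ⟨hz3, hz4⟩ := hzj
    have hz1' : 0 < z.re * inner ℝ f (a i) - z.im * inner ℝ e (a i) := hz1
    have hz2' : 0 < inner ℝ e (b i) * z.im - inner ℝ f (b i) * z.re := hz2
    have hz3' : 0 < z.re * inner ℝ f (a j) - z.im * inner ℝ e (a j) := hz3
    have hz4' : 0 < inner ℝ e (b j) * z.im - inner ℝ f (b j) * z.re := hz4
    obtain ⟨H, hH⟩ : ∃ H, H = (z.re * inner ℝ f (a i) - z.im * inner ℝ e (a i)) / D i +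
      (inner ℝ e (b i) * z.im - inner ℝ f (b i) * z.re) / D i +
      ((z.re * inner ℝ f (a j) - z.im * inner ℝ e (a j)) / D j +
      (inner ℝ e (b j) * z.im - inner ℝ f (b j) * z.re) / D j) + 1 := ⟨_, rfl⟩
    have hx1 : inner ℝ e (z.re • e + z.im • f + H • u) = z.re := by
      simp only [inner_add_right, real_inner_smul_right, hee, hef, heu]
      ring
    have hx2 : inner ℝ f (z.re • e + z.im • f + H • u) = z.im := by
      simp only [inner_add_right, real_inner_smul_right, hff, hfe, hfu]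
      ring
    have hx3 : inner ℝ u (z.re • e + z.im • f + H • u) = H := by
      simp only [inner_add_right, real_inner_smul_right, hue, huf, huu]
      ring
    have hDi := hD i hi
    have hDj := hD j hj
    have q1 := div_pos hz1' hDi
    have q2 := div_pos hz2' hDi
    have q3 := div_pos hz3' hDj
    have q4 := div_pos hz4' hDj
    refine ⟨z.re • e + z.im • f + H • u, ⟨⟨?_, ?_⟩, ?_⟩, ⟨⟨?_, ?_⟩, ?_⟩⟩
    · show 0 < inner ℝ e _ * inner ℝ f (a i) - inner ℝ f _ * inner ℝ e (a i)
      rw [hx1, hx2]; exact hz1'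
    · show 0 < inner ℝ e (b i) * inner ℝ f _ - inner ℝ f (b i) * inner ℝ e _
      rw [hx1, hx2]; exact hz2'
    · show 0 < inner ℝ u _ - ((inner ℝ e _ * inner ℝ f (a i) - inner ℝ f _ * inner ℝ e (a i)) / D i +
        (inner ℝ e (b i) * inner ℝ f _ - inner ℝ f (b i) * inner ℝ e _) / D i)
      rw [hx1, hx2, hx3, hH]
      linarith
    · show 0 < inner ℝ e _ * inner ℝ f (a j) - inner ℝ f _ * inner ℝ e (a j)
      rw [hx1, hx2]; exact hz3'
    · show 0 < inner ℝ e (b j) * inner ℝ f _ - inner ℝ f (b j) * inner ℝ e _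
      rw [hx1, hx2]; exact hz4'
    · show 0 < inner ℝ u _ - ((inner ℝ e _ * inner ℝ f (a j) - inner ℝ f _ * inner ℝ e (a j)) / D j +
        (inner ℝ e (b j) * inner ℝ f _ - inner ℝ f (b j) * inner ℝ e _) / D j)
      rw [hx1, hx2, hx3, hH]
      linarith
  have hle : volume (V i ∩ V j) ≤ volume (cone3 u (b i) (a i) ∩ cone3 u (b j) (a j)) :=
    measure_mono (inter_subset_inter (hVc i hi) (hVc j hj))
  rw [hdis i hi j hj hij] at hle
  exact absurd hpos (not_lt.2 hle)

theorem tp_expand (u e f : E3) (x y h x' y' h' : ℝ) :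
    tp u (x • e + y • f + h • u) (x' • e + y' • f + h' • u) = (x * y' - y * x') * tp u e f := by
  simp only [tp, PiLp.add_apply, PiLp.smul_apply, smul_eq_mul]
  ring

theorem angle_sum_le {ι : Type} (I : Finset ι) {u : E3} (hu : ‖u‖ = 1) (b a : ι → E3)
    (hb : ∀ i ∈ I, inner ℝ (b i) u = (1 : ℝ)) (ha : ∀ i ∈ I, inner ℝ (a i) u = (1 : ℝ))
    (hD : ∀ i ∈ I, 0 < tp u (b i) (a i))
    (hdis : ∀ i ∈ I, ∀ j ∈ I, i ≠ j →
      MeasureTheory.volume (cone3 u (b i) (a i) ∩ cone3 u (b j) (a j)) = 0) :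
    ∑ i ∈ I, InnerProductGeometry.angle (b i - u) (a i - u) ≤ 2 * Real.pi := by
  have hon : Orthonormal ℝ (({2} : Set (Fin 3)).domRestrict (fun _ : Fin 3 => u)) := by
    constructor
    · intro i
      exact hu
    · rintro ⟨i, hi⟩ ⟨j, hj⟩ hij
      exfalso
      apply hij
      rw [mem_singleton_iff] at hi hj
      subst hi
      subst hj
      rfl
  obtain ⟨B, hB⟩ := hon.exists_orthonormalBasis_extension_of_card_eq (by simp)
  have hB2 : B 2 = u := hB 2 (mem_singleton 2)
  have hin := fun i j => orthonormal_iff_ite.1 B.orthonormal i j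
  have h00 : inner ℝ (B 0) (B 0) = (1 : ℝ) := by simpa using hin 0 0
  have h11 : inner ℝ (B 1) (B 1) = (1 : ℝ) := by simpa using hin 1 1
  have h22 : inner ℝ u u = (1 : ℝ) := by rw [← hB2]; simpa using hin 2 2
  have h01 : inner ℝ (B 0) (B 1) = (0 : ℝ) := by simpa using hin 0 1
  have h10 : inner ℝ (B 1) (B 0) = (0 : ℝ) := by simpa using hin 1 0
  have h02 : inner ℝ (B 0) u = (0 : ℝ) := by rw [← hB2]; simpa using hin 0 2
  have h12 : inner ℝ (B 1) u = (0 : ℝ) := by rw [← hB2]; simpa using hin 1 2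
  have hexp : ∀ x : E3, x = inner ℝ (B 0) x • B 0 + inner ℝ (B 1) x • B 1 + inner ℝ u x • u := by
    intro x
    have h := B.sum_repr' x
    rw [Fin.sum_univ_three, hB2] at h
    exact h.symm
  have htp : ∀ i ∈ I, 0 < (inner ℝ (B 0) (b i) * inner ℝ (B 1) (a i) -
      inner ℝ (B 1) (b i) * inner ℝ (B 0) (a i)) * tp u (B 0) (B 1) := by
    intro i hi
    have h := hD i hi
    rw [hexp (b i), hexp (a i), tp_expand] at h
    exact h
  rcases lt_trichotomy (tp u (B 0) (B 1)) 0 with hneg | hzero | hpos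
  · refine frame_case I (e := B 1) (f := B 0) b a ?_ h11 h00 h22 h10 h12 h02 hb ha ?_ hdis
    · intro x
      conv_lhs => rw [hexp x]
      rw [add_comm (inner ℝ (B 0) x • B 0)]
    · intro i hi
      have h := htp i hi
      have h2 := neg_of_mul_pos_left h hneg.le
      linarith
  · have hI : I = ∅ := by
      rw [Finset.eq_empty_iff_forall_notMem]
      intro i hi
      have h := htp i hi
      rw [hzero, mul_zero] at h
      exact lt_irrefl _ h
    rw [hI, Finset.sum_empty]
    positivity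
  · refine frame_case I (e := B 0) (f := B 1) b a hexp h00 h11 h22 h01 h02 h12 hb ha ?_ hdis
    intro i hi
    exact (mul_pos_iff_of_pos_right hpos).1 (htp i hi)

end Pool.Agent.Helper320.Gold.NA2
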