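import Mathlib
import Pool.Agent.Helper320.GBaseA

set_option autoImplicit false
open Set

namespace Pool.Agent.Helper320.Gold.NA3

open Pool.Agent.Helper320.Gold

open MeasureTheory

/-- star shaped region over `T` -/
def StarK (g : ℝ × ℝ → ℝ) (T : Set (ℝ × ℝ)) : Set (ℝ × (ℝ × ℝ)) :=
  {c | 0 < c.1 ∧ c.1⁻¹ • c.2 ∈ T ∧ c.1 ^ 2 * (1 + g (c.1⁻¹ • c.2)) ≤ 1}

theorem starK_meas {g : ℝ × ℝ → ℝ} (hg : Measurable g) {T : Set (ℝ × ℝ)} (hT : MeasurableSet T) :
    MeasurableSet (StarK g T) := by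
  have hm : Measurable fun c : ℝ × (ℝ × ℝ) => c.1⁻¹ • c.2 := by fun_prop
  refine (measurableSet_lt measurable_const measurable_fst).inter ((hm hT).inter ?_)
  exact measurableSet_le ((measurable_fst.pow_const 2).mul (measurable_const.add (hg.comp hm)))
    measurable_const

theorem inner_int {a : ℝ} (ha : 0 < a) :
    ∫⁻ z : ℝ, (Ioc 0 (1 / √a)).indicator (fun z => ENNReal.ofReal (z ^ 2)) z =
      ENNReal.ofReal ((1 / 3) * (1 / √a) ^ 3) := by
  have hr : 0 ≤ 1 / √a := by positivity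
  rw [lintegral_indicator measurableSet_Ioc]
  rw [← ofReal_integral_eq_lintegral_ofReal]
  · congr 1
    rw [← intervalIntegral.integral_of_le hr, integral_pow]
    ring
  · exact (continuous_pow 2).integrableOn_Ioc
  · exact Filter.Eventually.of_forall fun z => sq_nonneg z

theorem vol_star {g : ℝ × ℝ → ℝ} (hg : Measurable g) (hg0 : ∀ y, 0 ≤ g y)
    {T : Set (ℝ × ℝ)} (hT : MeasurableSet T) :
    volume (StarK g T) = ∫⁻ y in T, ENNReal.ofReal ((1 / 3) * (1 / √(1 + g y)) ^ 3) := by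
  rw [Measure.volume_eq_prod, Measure.prod_apply (starK_meas hg hT)]
  have h1 : ∀ z : ℝ, volume (Prod.mk z ⁻¹' StarK g T) =
      ∫⁻ y, T.indicator (fun y => (Ioc 0 (1 / √(1 + g y))).indicator
        (fun z => ENNReal.ofReal (z ^ 2)) z) y := by
    intro z
    by_cases hz : 0 < z
    · have hset : Prod.mk z ⁻¹' StarK g T =
          (z⁻¹ • ·) ⁻¹' {y : ℝ × ℝ | y ∈ T ∧ z ^ 2 * (1 + g y) ≤ 1} := by
        ext w
        simp [StarK, hz]
      have hmS : MeasurableSet {y : ℝ × ℝ | y ∈ T ∧ z ^ 2 * (1 + g y) ≤ 1} :=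
        hT.inter (measurableSet_le (measurable_const.mul (measurable_const.add hg)) measurable_const)
      rw [hset, Measure.addHaar_preimage_smul volume (inv_ne_zero hz.ne'), ← lintegral_indicator_one hmS,
        ← lintegral_const_mul _ (measurable_one.indicator hmS)]
      refine lintegral_congr fun y => ?_
      have hfr : Module.finrank ℝ (ℝ × ℝ) = 2 := by simp
      by_cases hy : y ∈ T
      · have hgy := hg0 y
        have hpos : 0 < 1 + g y := by linarith
        have hiff : z ^ 2 * (1 + g y) ≤ 1 ↔ z ≤ 1 / √(1 + g y) := by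
          rw [le_div_iff₀ (Real.sqrt_pos.2 hpos)]
          have : z ^ 2 * (1 + g y) = (z * √(1 + g y)) ^ 2 := by
            rw [mul_pow, Real.sq_sqrt hpos.le]
          rw [this, sq_le_one_iff₀ (by positivity)]
        by_cases h : z ^ 2 * (1 + g y) ≤ 1
        · rw [Set.indicator_of_mem (show y ∈ {y : ℝ × ℝ | y ∈ T ∧ z ^ 2 * (1 + g y) ≤ 1} from ⟨hy, h⟩),
            Set.indicator_of_mem hy, Set.indicator_of_mem (show z ∈ Ioc 0 (1 / √(1 + g y)) from
              ⟨hz, hiff.1 h⟩), hfr]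
          simp only [Pi.one_apply, mul_one]
          congr 1
          rw [inv_pow, inv_inv, abs_of_nonneg (sq_nonneg z)]
        · rw [Set.indicator_of_notMem (show y ∉ {y : ℝ × ℝ | y ∈ T ∧ z ^ 2 * (1 + g y) ≤ 1} from
            fun h' => h h'.2), Set.indicator_of_mem hy, Set.indicator_of_notMem
              (show z ∉ Ioc 0 (1 / √(1 + g y)) from fun h' => h (hiff.2 h'.2))]
          simp
      · rw [Set.indicator_of_notMem (show y ∉ {y : ℝ × ℝ | y ∈ T ∧ z ^ 2 * (1 + g y) ≤ 1} from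
            fun h' => hy h'.1), Set.indicator_of_notMem hy]
        simp
    · have hset : Prod.mk z ⁻¹' StarK g T = ∅ := by
        ext w
        simp [StarK, hz]
      rw [hset, measure_empty]
      symm
      calc ∫⁻ y, T.indicator (fun y => (Ioc 0 (1 / √(1 + g y))).indicator
            (fun z => ENNReal.ofReal (z ^ 2)) z) y = ∫⁻ _ : ℝ × ℝ, 0 := by
            refine lintegral_congr fun y => ?_
            by_cases hy : y ∈ T
            · rw [Set.indicator_of_mem hy, Set.indicator_of_notMem fun h' => hz h'.1]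
            · rw [Set.indicator_of_notMem hy]
        _ = 0 := lintegral_zero
  simp_rw [h1]
  rw [lintegral_lintegral_swap]
  · rw [← lintegral_indicator hT]
    refine lintegral_congr fun y => ?_
    by_cases hy : y ∈ T
    · simp only [Set.indicator_of_mem hy]
      exact inner_int (by linarith [hg0 y])
    · simp only [Set.indicator_of_notMem hy]
      simp
  · have hS : MeasurableSet {c : ℝ × (ℝ × ℝ) | c.2 ∈ T ∧ 0 < c.1 ∧ c.1 ≤ 1 / √(1 + g c.2)} := by
      refine (measurable_snd hT).inter ((measurableSet_lt measurable_const measurable_fst).inter ?_)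
      refine measurableSet_le measurable_fst ?_
      have : Measurable fun c : ℝ × (ℝ × ℝ) => √(1 + g c.2) :=
        Real.continuous_sqrt.measurable.comp (measurable_const.add (hg.comp measurable_snd))
      exact measurable_const.div this
    have heq : (Function.uncurry fun (z : ℝ) (y : ℝ × ℝ) => T.indicator (fun y =>
        (Ioc 0 (1 / √(1 + g y))).indicator (fun z => ENNReal.ofReal (z ^ 2)) z) y) =
        {c : ℝ × (ℝ × ℝ) | c.2 ∈ T ∧ 0 < c.1 ∧ c.1 ≤ 1 / √(1 + g c.2)}.indicator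
          (fun c => ENNReal.ofReal (c.1 ^ 2)) := by
      ext ⟨z, y⟩
      simp only [Function.uncurry_apply_pair]
      by_cases hy : y ∈ T
      · rw [Set.indicator_of_mem hy]
        by_cases hz : z ∈ Ioc 0 (1 / √(1 + g y))
        · rw [Set.indicator_of_mem hz, Set.indicator_of_mem]
          exact ⟨hy, hz.1, hz.2⟩
        · rw [Set.indicator_of_notMem hz, Set.indicator_of_notMem]
          exact fun h => hz ⟨h.2.1, h.2.2⟩
      · rw [Set.indicator_of_notMem hy, Set.indicator_of_notMem]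
        exact fun h => hy h.1
    rw [heq]
    exact (Measurable.indicator (by fun_prop) hS).aemeasurable

/-- the unit triangle -/
def Tri : Set (ℝ × ℝ) := {y | 0 ≤ y.1 ∧ 0 ≤ y.2 ∧ y.1 + y.2 ≤ 1}

theorem tri_closed : IsClosed Tri := by
  refine (isClosed_le continuous_const continuous_fst).inter
    ((isClosed_le continuous_const continuous_snd).inter ?_)
  exact isClosed_le (continuous_fst.add continuous_snd) continuous_const

theorem tri_compact : IsCompact Tri := by
  refine (isCompact_Icc (a := ((0 : ℝ), (0 : ℝ))) (b := (1, 1))).of_isClosed_subset tri_closed ?_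
  rintro ⟨x, y⟩ ⟨h1, h2, h3⟩
  simp only at h1 h2 h3
  constructor
  · exact ⟨h1, h2⟩
  · exact ⟨by simp only; linarith, by simp only; linarith⟩

/-- quadratic polynomial -/
def quad (a0 a1 a2 a3 : ℝ) (y : ℝ × ℝ) : ℝ := a0 + a1 * y.1 ^ 2 + a2 * y.2 ^ 2 + a3 * (y.1 * y.2)

theorem quad_cont (a0 a1 a2 a3 : ℝ) : Continuous (quad a0 a1 a2 a3) := by
  unfold quad; fun_prop

theorem tri_int_real (a0 a1 a2 a3 : ℝ) :
    ∫ y in Tri, quad a0 a1 a2 a3 y = a0 / 2 + a1 / 12 + a2 / 12 + a3 / 24 := by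
  have hint : IntegrableOn (quad a0 a1 a2 a3) Tri :=
    (quad_cont a0 a1 a2 a3).continuousOn.integrableOn_compact tri_compact
  rw [← integral_indicator tri_closed.measurableSet, Measure.volume_eq_prod,
    integral_prod _ (by
      rw [← Measure.volume_eq_prod]; exact hint.integrable_indicator tri_closed.measurableSet)]
  have h1 : ∀ s : ℝ, (∫ t : ℝ, Tri.indicator (quad a0 a1 a2 a3) (s, t)) =
      (Icc (0 : ℝ) 1).indicator (fun s => (a0 + a1 * s ^ 2) * (1 - s) + a2 * (1 - s) ^ 3 / 3 +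
        a3 * s * (1 - s) ^ 2 / 2) s := by
    intro s
    by_cases hs : s ∈ Icc (0 : ℝ) 1
    · rw [Set.indicator_of_mem hs]
      have : (fun t : ℝ => Tri.indicator (quad a0 a1 a2 a3) (s, t)) =
          (Icc (0 : ℝ) (1 - s)).indicator (fun t => quad a0 a1 a2 a3 (s, t)) := by
        ext t
        by_cases ht : t ∈ Icc (0 : ℝ) (1 - s)
        · rw [Set.indicator_of_mem ht, Set.indicator_of_mem]
          exact ⟨hs.1, ht.1, by simp only; linarith [ht.2]⟩
        · rw [Set.indicator_of_notMem ht, Set.indicator_of_notMem]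
          rintro ⟨-, h2, h3⟩
          exact ht ⟨h2, by simp only at h3; linarith⟩
      rw [this, integral_indicator measurableSet_Icc, integral_Icc_eq_integral_Ioc,
        ← intervalIntegral.integral_of_le (by linarith [hs.2])]
      have hd : ∀ t : ℝ, HasDerivAt (fun t : ℝ => (a0 + a1 * s ^ 2) * t + a2 * t ^ 3 / 3 +
          a3 * s * t ^ 2 / 2) (quad a0 a1 a2 a3 (s, t)) t := by
        intro t
        have h1 := (hasDerivAt_id t).const_mul (a0 + a1 * s ^ 2)
        have h2 := ((hasDerivAt_pow 3 t).const_mul a2).div_const 3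
        have h3 := ((hasDerivAt_pow 2 t).const_mul (a3 * s)).div_const 2
        refine ((h1.add h2).add h3).congr_deriv ?_
        simp only [quad]
        norm_num
        ring
      rw [intervalIntegral.integral_eq_sub_of_hasDerivAt (fun t _ => hd t)
        (((quad_cont a0 a1 a2 a3).comp (by fun_prop : Continuous fun t : ℝ => (s, t))).intervalIntegrable _ _)]
      ring
    · rw [Set.indicator_of_notMem hs]
      have : (fun t : ℝ => Tri.indicator (quad a0 a1 a2 a3) (s, t)) = fun _ => 0 := by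
        ext t
        rw [Set.indicator_of_notMem]
        rintro ⟨h1, h2, h3⟩
        simp only at h1 h2 h3
        exact hs ⟨h1, by linarith⟩
      rw [this]
      simp
  simp_rw [h1]
  rw [integral_indicator measurableSet_Icc, integral_Icc_eq_integral_Ioc,
    ← intervalIntegral.integral_of_le (by norm_num : (0 : ℝ) ≤ 1)]
  have hd : ∀ s : ℝ, HasDerivAt (fun s : ℝ => a0 * (s - s ^ 2 / 2) + a1 * (s ^ 3 / 3 - s ^ 4 / 4)
      + a2 * (s - 3 * s ^ 2 / 2 + s ^ 3 - s ^ 4 / 4) / 3 +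
      a3 * (s ^ 2 / 2 - 2 * s ^ 3 / 3 + s ^ 4 / 4) / 2)
      ((a0 + a1 * s ^ 2) * (1 - s) + a2 * (1 - s) ^ 3 / 3 + a3 * s * (1 - s) ^ 2 / 2) s := by
    intro s
    have e1 := hasDerivAt_id s
    have e2 := hasDerivAt_pow 2 s
    have e3 := hasDerivAt_pow 3 s
    have e4 := hasDerivAt_pow 4 s
    have f0 := (e1.sub (e2.div_const 2)).const_mul a0
    have f1 := ((e3.div_const 3).sub (e4.div_const 4)).const_mul a1
    have f2 := ((((e1.sub ((e2.const_mul 3).div_const 2)).add e3).sub (e4.div_const 4)).const_mul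
      a2).div_const 3
    have f3 := ((((e2.div_const 2).sub ((e3.const_mul 2).div_const 3)).add (e4.div_const 4)).const_mul
      a3).div_const 2
    refine (((f0.add f1).add f2).add f3).congr_deriv ?_
    norm_num
    ring
  rw [intervalIntegral.integral_eq_sub_of_hasDerivAt (fun t _ => hd t)
    (by apply Continuous.intervalIntegrable; fun_prop)]
  ring

theorem tri_int (a0 a1 a2 a3 : ℝ) (h : ∀ y ∈ Tri, 0 ≤ quad a0 a1 a2 a3 y) :
    ∫⁻ y in Tri, ENNReal.ofReal (quad a0 a1 a2 a3 y) =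
      ENNReal.ofReal (a0 / 2 + a1 / 12 + a2 / 12 + a3 / 24) := by
  rw [← tri_int_real, ofReal_integral_eq_lintegral_ofReal]
  · exact (quad_cont a0 a1 a2 a3).continuousOn.integrableOn_compact tri_compact
  · exact (ae_restrict_iff' tri_closed.measurableSet).2 (Filter.Eventually.of_forall h)


/-- coordinates -/
def eco (c : Fin 3 → ℝ) : ℝ × (ℝ × ℝ) := (c 0, (c 1, c 2))

theorem eco_mp : MeasurePreserving eco := by
  have h1 := volume_preserving_piFinSuccAbove (fun _ : Fin 3 => ℝ) 0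
  have h2 : MeasurePreserving (Prod.map (id : ℝ → ℝ) (MeasurableEquiv.finTwoArrow (α := ℝ))) :=
    (MeasurePreserving.id volume).prod (volume_preserving_finTwoArrow ℝ)
  have h3 := h2.comp h1
  have : eco = (Prod.map (id : ℝ → ℝ) (MeasurableEquiv.finTwoArrow (α := ℝ))) ∘
      (MeasurableEquiv.piFinSuccAbove (fun _ : Fin 3 => ℝ) 0) := by
    ext c <;> rfl
  rw [this]
  exact h3

/-- the matrix with columns u p q -/
noncomputable def mat (u p q : E3) : Matrix (Fin 3) (Fin 3) ℝ :=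
  Matrix.of fun i j => ![u i, p i, q i] j

theorem mat_apply (u p q : E3) (c : Fin 3 → ℝ) :
    WithLp.toLp 2 (Matrix.toLin' (mat u p q) c) = c 0 • u + c 1 • p + c 2 • q := by
  ext i
  simp [mat, Matrix.toLin'_apply, Matrix.mulVec, dotProduct, Fin.sum_univ_three]
  ring

theorem mat_det (u b a : E3) : LinearMap.det (Matrix.toLin' (mat u (b - u) (a - u))) = tp u b a := by
  rw [LinearMap.det_toLin']
  simp [mat, Matrix.det_fin_three, tp]
  ring

/-- parameter region -/
def K3 (u p q : E3) : Set (Fin 3 → ℝ) :=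
  {c | 0 ≤ c 1 ∧ 0 ≤ c 2 ∧ c 1 + c 2 ≤ c 0 ∧ ‖c 0 • u + c 1 • p + c 2 • q‖ ≤ 1}

theorem norm_form {u p q : E3} (hu : ‖u‖ = 1) (hp : inner ℝ p u = (0 : ℝ))
    (hq : inner ℝ q u = (0 : ℝ)) (z s t : ℝ) :
    ‖z • u + s • p + t • q‖ ^ 2 = z ^ 2 + ‖s • p + t • q‖ ^ 2 := by
  have h : inner ℝ (z • u) (s • p + t • q) = (0 : ℝ) := by
    rw [inner_add_right, real_inner_smul_left, real_inner_smul_left, real_inner_smul_right,
      real_inner_smul_right, real_inner_comm, hp, real_inner_comm, hq]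
    ring
  rw [add_assoc, norm_add_sq_real, h, norm_smul, hu]
  simp

theorem vol_K3 {u p q : E3} (hu : ‖u‖ = 1) (hp : inner ℝ p u = (0 : ℝ))
    (hq : inner ℝ q u = (0 : ℝ)) :
    volume (K3 u p q) = volume (StarK (fun w => ‖w.1 • p + w.2 • q‖ ^ 2) Tri) := by
  have hg : Measurable (fun w : ℝ × ℝ => ‖w.1 • p + w.2 • q‖ ^ 2) := by
    have : Continuous (fun w : ℝ × ℝ => ‖w.1 • p + w.2 • q‖ ^ 2) := by fun_prop
    exact this.measurable
  rw [← eco_mp.measure_preimage (starK_meas hg tri_closed.measurableSet).nullMeasurableSet]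
  have hK : K3 u p q = insert 0 (eco ⁻¹' StarK (fun w => ‖w.1 • p + w.2 • q‖ ^ 2) Tri) := by
    ext c
    simp only [K3, StarK, eco, Tri, mem_ofPred_eq, mem_insert_iff, mem_preimage, Prod.smul_mk,
      smul_eq_mul]
    have key : ∀ z : ℝ, 0 < z → ∀ s t : ℝ, z ^ 2 * (1 + ‖(z⁻¹ * s) • p + (z⁻¹ * t) • q‖ ^ 2) =
        ‖z • u + s • p + t • q‖ ^ 2 := by
      intro z hz s t
      rw [norm_form hu hp hq, mul_smul, mul_smul, ← smul_add, norm_smul, norm_inv,
        Real.norm_of_nonneg hz.le]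
      field_simp
    constructor
    · rintro ⟨h1, h2, h3, h4⟩
      rcases (add_nonneg h1 h2).trans h3 |>.eq_or_lt with h0 | h0
      · left
        have : c 1 = 0 := by linarith
        have : c 2 = 0 := by linarith
        ext i
        fin_cases i <;> simp [*]
      · right
        refine ⟨h0, ⟨by positivity, by positivity, ?_⟩, ?_⟩
        · rw [← mul_add, inv_mul_le_iff₀ h0]
          linarith
        · rw [key _ h0, sq_le_one_iff₀ (norm_nonneg _)]
          exact h4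
    · rintro (rfl | ⟨h0, ⟨h1, h2, h3⟩, h4⟩)
      · simp
      · have h1' : 0 ≤ c 1 := by
          have := mul_nonneg h0.le h1
          rwa [mul_inv_cancel_left₀ h0.ne'] at this
        have h2' : 0 ≤ c 2 := by
          have := mul_nonneg h0.le h2
          rwa [mul_inv_cancel_left₀ h0.ne'] at this
        refine ⟨h1', h2', ?_, ?_⟩
        · rw [← mul_add, inv_mul_le_iff₀ h0] at h3
          linarith
        · rw [key _ h0, sq_le_one_iff₀ (norm_nonneg _)] at h4
          exact h4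
  rw [hK]
  exact measure_congr (insert_ae_eq_self _ _)

theorem cramer (u b a x : E3) : tp u b a • x = tp x b a • u + tp u x a • b + tp u b x • a := by
  ext i
  fin_cases i <;> simp [tp] <;> ring

theorem cone3_eq {u b a : E3} (hD : 0 < tp u b a) :
    cone3 u b a = {x | 0 ≤ tp x b a ∧ 0 ≤ tp u x a ∧ 0 ≤ tp u b x} := by
  ext x
  constructor
  · rintro ⟨r, s, t, hr, hs, ht, rfl⟩
    have e1 : tp (r • u + s • b + t • a) b a = r * tp u b a := by simp [tp]; ring
    have e2 : tp u (r • u + s • b + t • a) a = s * tp u b a := by simp [tp]; ring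
    have e3 : tp u b (r • u + s • b + t • a) = t * tp u b a := by simp [tp]; ring
    refine ⟨?_, ?_, ?_⟩
    · rw [e1]; positivity
    · rw [e2]; positivity
    · rw [e3]; positivity
  · rintro ⟨h1, h2, h3⟩
    refine ⟨tp x b a / tp u b a, tp u x a / tp u b a, tp u b x / tp u b a, by positivity,
      by positivity, by positivity, ?_⟩
    have h : x = (tp u b a)⁻¹ • (tp u b a • x) := by rw [smul_smul, inv_mul_cancel₀ hD.ne', one_smul]
    rw [cramer u b a x] at h
    refine h.trans ?_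
    rw [smul_add, smul_add, smul_smul, smul_smul, smul_smul]
    simp only [div_eq_inv_mul]

theorem cone3_meas {u b a : E3} (hD : 0 < tp u b a) :
    MeasurableSet (cone3 u b a ∩ Metric.closedBall 0 1) := by
  rw [cone3_eq hD]
  have c1 : Continuous fun x : E3 => tp x b a := by unfold tp; fun_prop
  have c2 : Continuous fun x : E3 => tp u x a := by unfold tp; fun_prop
  have c3 : Continuous fun x : E3 => tp u b x := by unfold tp; fun_prop
  exact (((isClosed_le continuous_const c1).inter ((isClosed_le continuous_const c2).inter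
    (isClosed_le continuous_const c3))).inter Metric.isClosed_closedBall).measurableSet

theorem rho_bounds {g R : ℝ} (hg : 0 ≤ g) (hgR : g ≤ R ^ 2) (hR2 : R ^ 2 ≤ 1 / 100) :
    1 - 3 / 2 * R ^ 2 ≤ (1 / √(1 + g)) ^ 3 ∧
      (1 / √(1 + g)) ^ 3 ≤ 1 - 3 / 2 * (1 - 5 / 4 * R ^ 2) * g := by
  have hpos : 0 < 1 + g := by linarith
  have hs : 0 < √(1 + g) := Real.sqrt_pos.2 hpos
  have hsq : √(1 + g) ^ 2 = 1 + g := Real.sq_sqrt hpos.le
  have h6 : ((1 / √(1 + g)) ^ 3) ^ 2 * (1 + g) ^ 3 = 1 := by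
    have e : (1 + g) ^ 3 = (√(1 + g) ^ 2) ^ 3 := by rw [hsq]
    rw [e]
    generalize √(1 + g) = w at hs
    field_simp
  set r := (1 / √(1 + g)) ^ 3 with hr
  have hr0 : 0 < r := by positivity
  have hg1 : g ≤ 1 / 100 := hgR.trans hR2
  constructor
  · have h1 : (1 - 3 / 2 * g) ^ 2 * (1 + g) ^ 3 ≤ 1 := by
      nlinarith [mul_nonneg hg hg, mul_nonneg (mul_nonneg hg hg) hg,
        mul_nonneg (mul_nonneg hg hg) (sub_nonneg.2 hg1),
        mul_nonneg (mul_nonneg (mul_nonneg hg hg) hg) (sub_nonneg.2 hg1),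
        mul_nonneg (mul_nonneg (mul_nonneg hg hg) (mul_nonneg hg hg)) (sub_nonneg.2 hg1)]
    have h2 : (1 - 3 / 2 * g) ^ 2 ≤ r ^ 2 := by
      have hc : 0 < (1 + g) ^ 3 := by positivity
      nlinarith
    have h3 : 1 - 3 / 2 * g ≤ r := by
      exact (le_abs_self _).trans (abs_le_of_sq_le_sq h2 hr0.le)
    linarith
  · set β := 1 - 3 / 2 * g + 15 / 8 * g ^ 2 with hβ
    have hβ0 : 0 < β := by nlinarith
    have h1 : 1 ≤ β ^ 2 * (1 + g) ^ 3 := by
      have : β ^ 2 * (1 + g) ^ 3 - 1 = g ^ 3 * (35 / 8 + 105 / 64 * g - 21 / 64 * g ^ 2 + 315 / 64 * g ^ 3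
          + 225 / 64 * g ^ 4) := by
        rw [hβ]; ring
      have h : 0 ≤ g ^ 3 * (35 / 8 + 105 / 64 * g - 21 / 64 * g ^ 2 + 315 / 64 * g ^ 3
          + 225 / 64 * g ^ 4) := by
        apply mul_nonneg (by positivity)
        have : 0 ≤ g ^ 3 := by positivity
        have : 0 ≤ g ^ 4 := by positivity
        nlinarith
      linarith
    have h2 : r ^ 2 ≤ β ^ 2 := by
      have hc : 0 < (1 + g) ^ 3 := by positivity
      nlinarith
    have h3 : r ≤ β := by
      exact (le_abs_self _).trans (abs_le_of_sq_le_sq h2 hβ0.le)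
    have h4 : g ^ 2 ≤ g * R ^ 2 := by nlinarith
    nlinarith

theorem gbound {p q : E3} {R : ℝ} (hp : ‖p‖ ≤ R) (hq : ‖q‖ ≤ R) {y : ℝ × ℝ} (hy : y ∈ Tri) :
    ‖y.1 • p + y.2 • q‖ ^ 2 ≤ R ^ 2 := by
  obtain ⟨h1, h2, h3⟩ := hy
  have hR : 0 ≤ R := (norm_nonneg p).trans hp
  have : ‖y.1 • p + y.2 • q‖ ≤ R := by
    calc ‖y.1 • p + y.2 • q‖ ≤ ‖y.1 • p‖ + ‖y.2 • q‖ := norm_add_le _ _
      _ = y.1 * ‖p‖ + y.2 * ‖q‖ := by
        rw [norm_smul, norm_smul, Real.norm_of_nonneg h1, Real.norm_of_nonneg h2]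
      _ ≤ y.1 * R + y.2 * R := by gcongr
      _ ≤ R := by nlinarith
  exact pow_le_pow_left₀ (norm_nonneg _) this 2

theorem vol_formula {u b a : E3} (hu : ‖u‖ = 1) (hb : inner ℝ b u = (1 : ℝ))
    (ha : inner ℝ a u = (1 : ℝ)) (hD : 0 < tp u b a) :
    volume (cone3 u b a ∩ Metric.closedBall 0 1) = ENNReal.ofReal (tp u b a) *
      ∫⁻ y in Tri, ENNReal.ofReal ((1 / 3) *
        (1 / √(1 + ‖y.1 • (b - u) + y.2 • (a - u)‖ ^ 2)) ^ 3) := by
  have huu : inner ℝ u u = (1 : ℝ) := by rw [real_inner_self_eq_norm_sq, hu]; norm_num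
  have hp : inner ℝ (b - u) u = (0 : ℝ) := by rw [inner_sub_left, hb, huu]; ring
  have hq : inner ℝ (a - u) u = (0 : ℝ) := by rw [inner_sub_left, ha, huu]; ring
  have hg : Measurable (fun w : ℝ × ℝ => ‖w.1 • (b - u) + w.2 • (a - u)‖ ^ 2) := by
    have : Continuous (fun w : ℝ × ℝ => ‖w.1 • (b - u) + w.2 • (a - u)‖ ^ 2) := by fun_prop
    exact this.measurable
  rw [← vol_star hg (fun y => by positivity) tri_closed.measurableSet, ← vol_K3 hu hp hq]
  have himg : (WithLp.toLp 2) ⁻¹' (cone3 u b a ∩ Metric.closedBall 0 1) =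
      (Matrix.toLin' (mat u (b - u) (a - u))) '' K3 u (b - u) (a - u) := by
    ext x
    constructor
    · rintro ⟨⟨r, s, t, hr, hs, ht, hx⟩, hn⟩
      have hx' : WithLp.toLp 2 x = (r + s + t) • u + s • (b - u) + t • (a - u) := by
        rw [hx]; module
      refine ⟨![r + s + t, s, t], ⟨hs, ht, ?_, ?_⟩, ?_⟩
      · simp; linarith
      · rw [Metric.mem_closedBall, dist_zero_right, hx'] at hn
        simpa using hn
      · have := mat_apply u (b - u) (a - u) ![r + s + t, s, t]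
        simp only [Matrix.cons_val_zero, Matrix.cons_val_one, Matrix.cons_val] at this
        rw [← hx'] at this
        exact WithLp.toLp_injective 2 this
    · rintro ⟨c, ⟨h1, h2, h3, h4⟩, rfl⟩
      have := mat_apply u (b - u) (a - u) c
      constructor
      · refine ⟨c 0 - c 1 - c 2, c 1, c 2, by linarith, h1, h2, ?_⟩
        rw [this]; module
      · rw [Metric.mem_closedBall, dist_zero_right, this]
        exact h4
  have hmeas : MeasurableSet (cone3 u b a ∩ Metric.closedBall 0 1) := cone3_meas hD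
  rw [← (PiLp.volume_preserving_toLp (Fin 3)).measure_preimage hmeas.nullMeasurableSet, himg,
    Measure.addHaar_image_linearMap, mat_det, abs_of_pos hD]



theorem vol_flat_upper {u b a : E3} {R : ℝ} (hu : ‖u‖ = 1) (hb : inner ℝ b u = (1 : ℝ))
    (ha : inner ℝ a u = (1 : ℝ)) (hD : 0 < tp u b a) (hR : R ≤ 1 / 10) (hbR : ‖b - u‖ ≤ R)
    (haR : ‖a - u‖ ≤ R) :
    (MeasureTheory.volume (cone3 u b a ∩ Metric.closedBall 0 1)).toReal ≤
      tp u b a / 6 - 1 / 2 * (1 - 5 / 4 * R ^ 2) * (tp u b a / 12 *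
        (‖b - u‖ ^ 2 + ‖a - u‖ ^ 2 + inner ℝ (b - u) (a - u))) := by
  have hR0 : 0 ≤ R := (norm_nonneg _).trans hbR
  have hR2 : R ^ 2 ≤ 1 / 100 := by nlinarith
  set p := b - u with hp
  set q := a - u with hq
  set κ := 3 / 2 * (1 - 5 / 4 * R ^ 2) with hκ
  have hκ0 : 0 ≤ κ := by rw [hκ]; nlinarith
  have hκ1 : κ ≤ 3 / 2 := by rw [hκ]; nlinarith
  have hquad : ∀ y : ℝ × ℝ, quad (1 / 3) (-(κ / 3 * ‖p‖ ^ 2)) (-(κ / 3 * ‖q‖ ^ 2))
      (-(κ / 3 * (2 * inner ℝ p q))) y = (1 / 3) * (1 - κ * ‖y.1 • p + y.2 • q‖ ^ 2) := by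
    intro y
    rw [norm_add_sq_real, norm_smul, norm_smul, real_inner_smul_left, real_inner_smul_right,
      mul_pow, mul_pow, Real.norm_eq_abs, Real.norm_eq_abs, sq_abs, sq_abs]
    simp only [quad]
    ring
  have hle : ∫⁻ y in Tri, ENNReal.ofReal ((1 / 3) * (1 / √(1 + ‖y.1 • p + y.2 • q‖ ^ 2)) ^ 3) ≤
      ENNReal.ofReal (1 / 3 / 2 + (-(κ / 3 * ‖p‖ ^ 2)) / 12 + (-(κ / 3 * ‖q‖ ^ 2)) / 12 +
        (-(κ / 3 * (2 * inner ℝ p q))) / 24) := by
    rw [← tri_int]
    · refine setLIntegral_mono' tri_closed.measurableSet fun y hy => ?_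
      apply ENNReal.ofReal_le_ofReal
      rw [hquad]
      have := (rho_bounds (sq_nonneg ‖y.1 • p + y.2 • q‖) (gbound hbR haR hy) hR2).2
      gcongr
    · intro y hy
      rw [hquad]
      have h1 := gbound hbR haR hy
      have h2 : 0 ≤ ‖y.1 • p + y.2 • q‖ ^ 2 := sq_nonneg _
      have : κ * ‖y.1 • p + y.2 • q‖ ^ 2 ≤ 3 / 2 * (1 / 100) := by
        apply mul_le_mul hκ1 (h1.trans hR2) h2 (by norm_num)
      linarith
  rw [vol_formula hu hb ha hD]
  have hval : 0 ≤ 1 / 3 / 2 + (-(κ / 3 * ‖p‖ ^ 2)) / 12 + (-(κ / 3 * ‖q‖ ^ 2)) / 12 +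
        (-(κ / 3 * (2 * inner ℝ p q))) / 24 := by
    have h1 : ‖p‖ ^ 2 ≤ 1 / 100 := (pow_le_pow_left₀ (norm_nonneg _) hbR 2).trans hR2
    have h2 : ‖q‖ ^ 2 ≤ 1 / 100 := (pow_le_pow_left₀ (norm_nonneg _) haR 2).trans hR2
    have h3 : inner ℝ p q ≤ 1 / 100 := by
      have := real_inner_le_norm p q
      have : ‖p‖ * ‖q‖ ≤ R * R := mul_le_mul hbR haR (norm_nonneg _) hR0
      nlinarith
    have a1 : κ * ‖p‖ ^ 2 ≤ 3 / 2 * (1 / 100) := mul_le_mul hκ1 h1 (sq_nonneg _) (by norm_num)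
    have a2 : κ * ‖q‖ ^ 2 ≤ 3 / 2 * (1 / 100) := mul_le_mul hκ1 h2 (sq_nonneg _) (by norm_num)
    have a3 : κ * inner ℝ p q ≤ 3 / 2 * (1 / 100) := by
      calc κ * inner ℝ p q ≤ κ * (1 / 100) := mul_le_mul_of_nonneg_left h3 hκ0
        _ ≤ 3 / 2 * (1 / 100) := mul_le_mul_of_nonneg_right hκ1 (by norm_num)
    linarith
  calc (ENNReal.ofReal (tp u b a) * ∫⁻ y in Tri, ENNReal.ofReal ((1 / 3) *
        (1 / √(1 + ‖y.1 • p + y.2 • q‖ ^ 2)) ^ 3)).toReal
      ≤ (ENNReal.ofReal (tp u b a) * ENNReal.ofReal (1 / 3 / 2 + (-(κ / 3 * ‖p‖ ^ 2)) / 12 +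
        (-(κ / 3 * ‖q‖ ^ 2)) / 12 + (-(κ / 3 * (2 * inner ℝ p q))) / 24)).toReal := by
        apply ENNReal.toReal_mono
        · exact ENNReal.mul_ne_top ENNReal.ofReal_ne_top ENNReal.ofReal_ne_top
        · exact mul_le_mul_right hle _
    _ = tp u b a * (1 / 3 / 2 + (-(κ / 3 * ‖p‖ ^ 2)) / 12 +
        (-(κ / 3 * ‖q‖ ^ 2)) / 12 + (-(κ / 3 * (2 * inner ℝ p q))) / 24) := by
        rw [ENNReal.toReal_mul, ENNReal.toReal_ofReal hD.le, ENNReal.toReal_ofReal hval]
    _ = _ := by rw [hκ]; ring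

theorem vol_flat_lower {u b a : E3} {R : ℝ} (hu : ‖u‖ = 1) (hb : inner ℝ b u = (1 : ℝ))
    (ha : inner ℝ a u = (1 : ℝ)) (hD : 0 < tp u b a) (hR : R ≤ 1 / 10) (hbR : ‖b - u‖ ≤ R)
    (haR : ‖a - u‖ ≤ R) :
    tp u b a / 6 * (1 - 3 / 2 * R ^ 2) ≤
      (MeasureTheory.volume (cone3 u b a ∩ Metric.closedBall 0 1)).toReal := by
  have hR0 : 0 ≤ R := (norm_nonneg _).trans hbR
  have hR2 : R ^ 2 ≤ 1 / 100 := by nlinarith
  have hc : 0 ≤ 1 - 3 / 2 * R ^ 2 := by linarith
  have hquad : ∀ y : ℝ × ℝ, quad (1 / 3 * (1 - 3 / 2 * R ^ 2)) 0 0 0 y =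
      1 / 3 * (1 - 3 / 2 * R ^ 2) := by
    intro y
    simp only [quad]
    ring
  have hle : ENNReal.ofReal (1 / 3 * (1 - 3 / 2 * R ^ 2) / 2 + 0 / 12 + 0 / 12 + 0 / 24) ≤
      ∫⁻ y in Tri, ENNReal.ofReal ((1 / 3) *
        (1 / √(1 + ‖y.1 • (b - u) + y.2 • (a - u)‖ ^ 2)) ^ 3) := by
    rw [← tri_int]
    · refine setLIntegral_mono' tri_closed.measurableSet fun y hy => ?_
      apply ENNReal.ofReal_le_ofReal
      rw [hquad]
      have := (rho_bounds (sq_nonneg ‖y.1 • (b - u) + y.2 • (a - u)‖) (gbound hbR haR hy) hR2).1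
      gcongr
    · intro y _
      rw [hquad]
      positivity
  have hfin : volume (cone3 u b a ∩ Metric.closedBall 0 1) ≠ ⊤ :=
    ((measure_mono inter_subset_right).trans_lt measure_closedBall_lt_top).ne
  have hmain : ENNReal.ofReal (tp u b a) *
      ENNReal.ofReal (1 / 3 * (1 - 3 / 2 * R ^ 2) / 2 + 0 / 12 + 0 / 12 + 0 / 24) ≤
      volume (cone3 u b a ∩ Metric.closedBall 0 1) := by
    rw [vol_formula hu hb ha hD]
    exact mul_le_mul_right hle _
  have := ENNReal.toReal_mono hfin hmain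
  rw [ENNReal.toReal_mul, ENNReal.toReal_ofReal hD.le, ENNReal.toReal_ofReal (by positivity)] at this
  linarith

end Pool.Agent.Helper320.Gold.NA3
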