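import Mathlib
import Pool.Agent.Helper320.GBase
import Pool.Agent.Helper320.GFA
import Pool.Agent.Helper320.GL

set_option autoImplicit false
open Set

namespace Pool.Agent.Helper320.Gold.NEU

open Pool.Agent.Helper320.Gold Pool.Agent.Helper320.Gold.NFA Pool.Agent.Helper320.Gold.NL

theorem inner_eq (u v : E3) : inner ℝ u v = u 0 * v 0 + u 1 * v 1 + u 2 * v 2 := by
  simp only [PiLp.inner_apply, Fin.sum_univ_three, RCLike.inner_apply, conj_trivial]
  ring

theorem mem_FS {S : Finset E3} {t : E3 × E3 × E3} :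
    t ∈ FS S ↔ Facet S t.1 t.2.1 t.2.2 ∧ 0 < tp t.1 t.2.1 t.2.2 := by
  classical
  unfold FS
  simp only [Finset.mem_filter, Finset.mem_product, and_iff_right_iff_imp]
  rintro ⟨⟨_, _, _, a, _, h⟩, _⟩
  exact ⟨((h _).2 (Or.inl rfl)).1, ((h _).2 (Or.inr (Or.inl rfl))).1,
    ((h _).2 (Or.inr (Or.inr rfl))).1⟩

theorem _root_.Pool.Agent.Helper320.Gold.Adj.left_mem {S : Finset E3} {v w : E3} (h : Adj S v w) : v ∈ S := by
  obtain ⟨_, a, _, h⟩ := h
  exact ((h v).2 (Or.inl rfl)).1

theorem _root_.Pool.Agent.Helper320.Gold.Adj.right_mem {S : Finset E3} {v w : E3} (h : Adj S v w) : w ∈ S := by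
  obtain ⟨_, a, _, h⟩ := h
  exact ((h w).2 (Or.inr rfl)).1

theorem sum_valence {S : Finset E3} (hS : Good S) :
    ∑ v ∈ S, {w | Adj S v w}.ncard = (FS S).card := by
  classical
  have h1 : ∀ v ∈ S, {w | Adj S v w}.ncard = (S.filter (fun w => Adj S v w)).card := by
    intro v _
    rw [← Set.ncard_coe_finset]
    congr 1
    ext w
    simp only [Set.mem_ofPred_eq, Finset.coe_filter]
    exact ⟨fun h => ⟨h.right_mem, h⟩, fun h => h.2⟩
  rw [Finset.sum_congr rfl h1, ← Finset.card_sigma]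
  refine Finset.card_bij (fun p _ => (p.1, p.2, nxt S p.1 p.2)) ?_ ?_ ?_
  · rintro ⟨v, w⟩ hp
    simp only [Finset.mem_sigma, Finset.mem_filter] at hp
    rw [mem_FS]
    exact nxt_spec hS hp.2.2
  · rintro ⟨v, w⟩ _ ⟨v', w'⟩ _ h
    simp only [Prod.mk.injEq] at h
    obtain ⟨h1, h2, _⟩ := h
    subst h1; subst h2; rfl
  · rintro ⟨v, w, x⟩ ht
    rw [mem_FS] at ht
    have hadj := adj_of_facet hS ht.1
    refine ⟨⟨v, w⟩, ?_, ?_⟩
    · simp only [Finset.mem_sigma, Finset.mem_filter]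
      exact ⟨hadj.left_mem, hadj.right_mem, hadj⟩
    · simp only [nxt_eq hS ht.1 ht.2]

/-- generic height -/
structure Gen (S : Finset E3) (h : E3) : Prop where
  inj : ∀ x ∈ S, ∀ y ∈ S, inner ℝ h x = inner ℝ h y → x = y
  npar : ∀ x ∈ S, ∀ t : ℝ, x + t • h ≠ 0

theorem Gen.neg {S : Finset E3} {h : E3} (g : Gen S h) : Gen S (-h) := by
  constructor
  · intro x hx y hy hxy
    rw [inner_neg_left, inner_neg_left, neg_inj] at hxy
    exact g.inj x hx y hy hxy
  · intro x hx t
    have := g.npar x hx (-t)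
    rwa [neg_smul, ← smul_neg] at this

theorem exists_gen {S : Finset E3} (hS : Good S) : ∃ h : E3, Gen S h := by
  classical
  by_contra hcon
  have hno : ∀ h : E3, ¬ Gen S h := fun h g => hcon ⟨h, g⟩
  set s : Finset (Subspace ℝ E3) := (S.offDiag).image (fun p => (ℝ ∙ (p.1 - p.2))ᗮ) ∪
    S.image (fun x => ℝ ∙ x) with hs
  have hcov : ⋃ p ∈ s, (p : Set E3) = Set.univ := by
    rw [Set.eq_univ_iff_forall]
    intro h
    by_contra hh
    simp only [Set.mem_iUnion, not_exists] at hh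
    apply hno h
    constructor
    · intro x hx y hy hxy
      by_contra hne
      apply hh ((ℝ ∙ (x - y))ᗮ)
      · rw [hs, Finset.mem_union]
        left
        rw [Finset.mem_image]
        exact ⟨(x, y), Finset.mem_offDiag.2 ⟨hx, hy, hne⟩, rfl⟩
      · rw [SetLike.mem_coe, Submodule.mem_orthogonal_singleton_iff_inner_left, inner_sub_right,
          hxy, sub_self]
    · intro x hx t hxt
      apply hh (ℝ ∙ x)
      · rw [hs, Finset.mem_union]
        right
        rw [Finset.mem_image]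
        exact ⟨x, hx, rfl⟩
      · rw [SetLike.mem_coe, Submodule.mem_span_singleton]
        have ht : t ≠ 0 := by
          rintro rfl
          rw [zero_smul, add_zero] at hxt
          have := hS.unit x hx
          rw [hxt, norm_zero] at this
          exact zero_ne_one this
        refine ⟨-t⁻¹, ?_⟩
        have h2 : x = -(t • h) := eq_neg_of_add_eq_zero_left hxt
        rw [h2, smul_neg, neg_smul, neg_neg, smul_smul, inv_mul_cancel₀ ht, one_smul]
  have htop := Subspace.top_mem_of_biUnion_eq_univ hcov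
  rw [hs, Finset.mem_union, Finset.mem_image, Finset.mem_image] at htop
  rcases htop with ⟨⟨x, y⟩, hp, hp'⟩ | ⟨x, hx, hx'⟩
  · rw [Finset.mem_offDiag] at hp
    rw [Submodule.orthogonal_eq_top_iff, Submodule.span_singleton_eq_bot] at hp'
    exact hp.2.2 (sub_eq_zero.1 hp')
  · have hx0 : x ≠ 0 := by
      rintro rfl
      have := hS.unit _ hx
      rw [norm_zero] at this
      exact zero_ne_one this
    have h1 : Module.finrank ℝ (ℝ ∙ x) = 1 := finrank_span_singleton hx0
    rw [hx', finrank_top] at h1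
    simp at h1

/-- CLAIM A -/
theorem exists_up {S : Finset E3} (hS : Good S) {h : E3} (g : Gen S h) {v : E3} (hv : v ∈ S)
    (hnt : ∃ y ∈ S, inner ℝ h v < inner ℝ h y) :
    ∃ w, Adj S v w ∧ inner ℝ h v < inner ℝ h w := by
  classical
  have hvv : inner ℝ v v = (1 : ℝ) := by
    rw [real_inner_self_eq_norm_sq, hS.unit v hv, one_pow]
  have hlt : ∀ y ∈ S, y ≠ v → inner ℝ v y < (1 : ℝ) := by
    intro y hy hne
    exact (inner_lt_one_iff_real_of_norm_eq_one (hS.unit v hv) (hS.unit y hy)).2 (Ne.symm hne)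
  have hne : (S.filter (fun y => inner ℝ h v < inner ℝ h y)).Nonempty := by
    obtain ⟨y, hy, hy'⟩ := hnt
    exact ⟨y, Finset.mem_filter.2 ⟨hy, hy'⟩⟩
  obtain ⟨y0, hy0, hmin⟩ := Finset.exists_min_image _
    (fun y => (1 - inner ℝ v y) / (inner ℝ h y - inner ℝ h v)) hne
  rw [Finset.mem_filter] at hy0
  set t := (1 - inner ℝ v y0) / (inner ℝ h y0 - inner ℝ h v) with ht
  have hy0v : y0 ≠ v := by
    rintro rfl
    exact lt_irrefl _ hy0.2
  have hd0 : 0 < inner ℝ h y0 - inner ℝ h v := sub_pos.2 hy0.2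
  have hteq : t * (inner ℝ h y0 - inner ℝ h v) = 1 - inner ℝ v y0 := by
    rw [ht, div_mul_cancel₀ _ hd0.ne']
  have htpos : 0 < t := div_pos (sub_pos.2 (hlt y0 hy0.1 hy0v)) hd0
  have hall : ∀ y ∈ S, t * (inner ℝ h y - inner ℝ h v) ≤ 1 - inner ℝ v y := by
    intro y hy
    by_cases hyv : y = v
    · subst hyv
      rw [hvv, sub_self, sub_self, mul_zero]
    by_cases hc : inner ℝ h v < inner ℝ h y
    · have h2 : t ≤ (1 - inner ℝ v y) / (inner ℝ h y - inner ℝ h v) :=
        hmin y (Finset.mem_filter.2 ⟨hy, hc⟩)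
      have h3 : 0 < inner ℝ h y - inner ℝ h v := sub_pos.2 hc
      rwa [le_div_iff₀ h3] at h2
    · push Not at hc
      have h2 : t * (inner ℝ h y - inner ℝ h v) ≤ 0 :=
        mul_nonpos_of_nonneg_of_nonpos htpos.le (sub_nonpos.2 hc)
      have h3 := hlt y hy hyv
      linarith
  set a : E3 := v + t • h with ha
  have hane : a ≠ 0 := g.npar v hv t
  have hain : ∀ y, inner ℝ a y = inner ℝ v y + t * inner ℝ h y := by
    intro y
    rw [ha, inner_add_left, real_inner_smul_left]
  have hmv : IsMax S a v := by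
    refine ⟨hv, fun y hy => ?_⟩
    rw [hain, hain, hvv]
    have := hall y hy
    linarith
  have hmy : IsMax S a y0 := by
    refine ⟨hy0.1, fun y hy => ?_⟩
    rw [hain, hain]
    have := hall y hy
    linarith
  refine ⟨y0, ?_, hy0.2⟩
  set M := S.filter (fun y => IsMax S a y) with hM
  have hMmem : ∀ y, y ∈ M ↔ IsMax S a y := by
    intro y
    rw [hM, Finset.mem_filter]
    exact ⟨fun h => h.2, fun h => ⟨h.1, h⟩⟩
  have hMc : M.card ≤ 3 := hS.simp a hane M (fun y hy => (hMmem y).1 hy)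
  have hpair : ({v, y0} : Finset E3) ⊆ M := by
    intro y hy
    rw [Finset.mem_insert, Finset.mem_singleton] at hy
    rcases hy with rfl | rfl
    · exact (hMmem _).2 hmv
    · exact (hMmem _).2 hmy
  have hpc : ({v, y0} : Finset E3).card = 2 := Finset.card_pair (Ne.symm hy0v)
  have hge : 2 ≤ M.card := hpc ▸ Finset.card_le_card hpair
  rcases (by omega : M.card = 2 ∨ M.card = 3) with h2 | h3
  · have hMeq : ({v, y0} : Finset E3) = M := Finset.eq_of_subset_of_card_le hpair (by omega)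
    refine ⟨Ne.symm hy0v, a, hane, fun x => ?_⟩
    rw [← hMmem, ← hMeq, Finset.mem_insert, Finset.mem_singleton]
  · obtain ⟨y1, hy1⟩ : ∃ y1, y1 ∈ M \ {v, y0} := by
      apply Finset.card_pos.1
      rw [Finset.card_sdiff_of_subset hpair]
      omega
    rw [Finset.mem_sdiff, Finset.mem_insert, Finset.mem_singleton] at hy1
    push Not at hy1
    have hsub : ({v, y0, y1} : Finset E3) ⊆ M := by
      intro y hy
      rw [Finset.mem_insert, Finset.mem_insert, Finset.mem_singleton] at hy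
      rcases hy with rfl | rfl | rfl
      · exact (hMmem _).2 hmv
      · exact (hMmem _).2 hmy
      · exact hy1.1
    have hc3 : ({v, y0, y1} : Finset E3).card = 3 := by
      rw [Finset.card_eq_three]
      exact ⟨v, y0, y1, Ne.symm hy0v, Ne.symm hy1.2.1, Ne.symm hy1.2.2, rfl⟩
    have hMeq : ({v, y0, y1} : Finset E3) = M := Finset.eq_of_subset_of_card_le hsub (by omega)
    have hF : Facet S v y0 y1 := by
      refine ⟨Ne.symm hy0v, Ne.symm hy1.2.2, Ne.symm hy1.2.1, a, hane, fun x => ?_⟩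
      rw [← hMmem, ← hMeq, Finset.mem_insert, Finset.mem_insert, Finset.mem_singleton]
    exact adj_of_facet hS hF

/-- up-crossing -/
def Up (S : Finset E3) (h v w : E3) : Prop :=
  Adj S v w ∧ inner ℝ h w < inner ℝ h v ∧ inner ℝ h v < inner ℝ h (nxt S v w)

/-- CLAIM B -/
theorem exists_upcross {S : Finset E3} (hS : Good S) {h : E3} (g : Gen S h) {v : E3} (hv : v ∈ S)
    (hnt : ∃ y ∈ S, inner ℝ h v < inner ℝ h y) (hnb : ∃ y ∈ S, inner ℝ h y < inner ℝ h v) :
    ∃ w, Up S h v w := by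
  classical
  obtain ⟨w2, hw2, hw2'⟩ := exists_up hS g hv hnt
  obtain ⟨w1, hw1, hw1'⟩ := exists_up hS g.neg hv (by
    obtain ⟨y, hy, hy'⟩ := hnb
    exact ⟨y, hy, by rw [inner_neg_left, inner_neg_left]; exact neg_lt_neg hy'⟩)
  rw [inner_neg_left, inner_neg_left, neg_lt_neg_iff] at hw1'
  obtain ⟨k, hk⟩ := link_conn hS hw1 hw2
  have hadj : ∀ k, Adj S v ((nxt S v)^[k] w1) := by
    intro k
    induction k with
    | zero => exact hw1
    | succ k ih =>
      rw [Function.iterate_succ_apply']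
      exact adj_nxt hS ih
  have hex : ∃ k, inner ℝ h v < inner ℝ h ((nxt S v)^[k] w1) := ⟨k, by rw [hk]; exact hw2'⟩
  have hspec := Nat.find_spec hex
  have hminn : ∀ m, m < Nat.find hex → ¬ inner ℝ h v < inner ℝ h ((nxt S v)^[m] w1) :=
    fun m hm => Nat.find_min hex hm
  obtain ⟨m, hm⟩ : ∃ m, Nat.find hex = m + 1 := by
    cases hc : Nat.find hex with
    | zero =>
      rw [hc] at hspec
      exact absurd hspec (not_lt.2 hw1'.le)
    | succ m => exact ⟨m, rfl⟩
  have h1 := hminn m (by omega)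
  rw [hm, Function.iterate_succ_apply'] at hspec
  refine ⟨(nxt S v)^[m] w1, hadj m, ?_, hspec⟩
  push Not at h1
  refine lt_of_le_of_ne h1 fun heq => ?_
  have h2 := g.inj _ (hadj m).right_mem _ hv heq
  exact (hadj m).1 h2.symm

theorem facet_nrm {S : Finset E3} (hS : Good S) {v w x : E3} (h : Facet S v w x) :
    ∃ a : E3, inner ℝ a v = (1 : ℝ) ∧ inner ℝ a w = (1 : ℝ) ∧ inner ℝ a x = (1 : ℝ) ∧
      (∀ y ∈ S, inner ℝ a y ≤ (1 : ℝ)) ∧
      ∀ y ∈ S, inner ℝ a y = (1 : ℝ) → y = v ∨ y = w ∨ y = x := by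
  obtain ⟨_, _, _, a, ha, hm⟩ := h
  have hv := (hm v).2 (Or.inl rfl)
  have hw := (hm w).2 (Or.inr (Or.inl rfl))
  have hx := (hm x).2 (Or.inr (Or.inr rfl))
  obtain ⟨y, hy, hpos⟩ := hS.origin a ha
  have hav : 0 < inner ℝ a v := hpos.trans_le (hv.2 y hy)
  have hwv : inner ℝ a w = inner ℝ a v := le_antisymm (hv.2 w hw.1) (hw.2 v hv.1)
  have hxv : inner ℝ a x = inner ℝ a v := le_antisymm (hv.2 x hx.1) (hx.2 v hv.1)
  refine ⟨(inner ℝ a v)⁻¹ • a, ?_, ?_, ?_, ?_, ?_⟩
  · rw [real_inner_smul_left, inv_mul_cancel₀ hav.ne']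
  · rw [real_inner_smul_left, hwv, inv_mul_cancel₀ hav.ne']
  · rw [real_inner_smul_left, hxv, inv_mul_cancel₀ hav.ne']
  · intro y hy
    rw [real_inner_smul_left, inv_mul_le_iff₀ hav, mul_one]
    exact hv.2 y hy
  · intro y hy h1
    rw [real_inner_smul_left, inv_mul_eq_one₀ hav.ne'] at h1
    apply (hm y).1
    refine ⟨hy, fun z hz => ?_⟩
    rw [← h1]
    exact hv.2 z hz

/-- the crossing direction -/
noncomputable def dd (h v w x : E3) : E3 :=
  (inner ℝ h x - inner ℝ h v) • (w - v) + (inner ℝ h v - inner ℝ h w) • (x - v)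

theorem dd_h (h v w x : E3) : inner ℝ h (dd h v w x) = (0 : ℝ) := by
  rw [dd, inner_add_right, real_inner_smul_right, real_inner_smul_right, inner_sub_right,
    inner_sub_right]
  ring

theorem dd_inner (a h v w x : E3) : inner ℝ a (dd h v w x) =
    (inner ℝ h x - inner ℝ h v) * (inner ℝ a w - inner ℝ a v) +
      (inner ℝ h v - inner ℝ h w) * (inner ℝ a x - inner ℝ a v) := by
  rw [dd, inner_add_right, real_inner_smul_right, real_inner_smul_right, inner_sub_right,
    inner_sub_right]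

theorem gram (v W X h a d : E3) : tp v W X * tp h a d =
    inner ℝ a v * (inner ℝ h X * inner ℝ W d - inner ℝ h W * inner ℝ X d) +
    inner ℝ a X * (inner ℝ h W * inner ℝ v d - inner ℝ h v * inner ℝ W d) -
    inner ℝ a W * (inner ℝ h X * inner ℝ v d - inner ℝ h v * inner ℝ X d) := by
  simp only [inner_eq, tp]
  ring

theorem tp_sub (v w x : E3) : tp v (w - v) (x - v) = tp v w x := by
  simp only [tp, PiLp.sub_apply]
  ring

theorem c1 {h v w x a : E3} (hav : inner ℝ a v = (1 : ℝ)) (haw : inner ℝ a w = (1 : ℝ))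
    (hax : inner ℝ a x = (1 : ℝ)) :
    tp v w x * tp h a (dd h v w x) = inner ℝ (dd h v w x) (dd h v w x) := by
  have e1 : inner ℝ a (w - v) = (0 : ℝ) := by rw [inner_sub_right, haw, hav, sub_self]
  have e2 : inner ℝ a (x - v) = (0 : ℝ) := by rw [inner_sub_right, hax, hav, sub_self]
  have e3 : inner ℝ (dd h v w x) (dd h v w x) =
      (inner ℝ h x - inner ℝ h v) * inner ℝ (w - v) (dd h v w x) +
      (inner ℝ h v - inner ℝ h w) * inner ℝ (x - v) (dd h v w x) := by
    conv_lhs => rw [dd, inner_add_left, real_inner_smul_left, real_inner_smul_left]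
    rfl
  rw [← tp_sub, gram, e1, e2, hav, e3, inner_sub_right, inner_sub_right]
  ring

theorem c2 {h a a' d : E3} (hd : inner ℝ h d = (0 : ℝ)) (had : inner ℝ a d = (0 : ℝ)) :
    inner ℝ d d * tp h a a' = inner ℝ a' d * tp h a d := by
  have key : inner ℝ d d * tp h a a' - inner ℝ a' d * tp h a d =
      inner ℝ h d * tp a' d a - inner ℝ a d * tp a' d h := by
    simp only [inner_eq, tp]
    ring
  rw [hd, had, zero_mul, zero_mul, sub_zero] at key
  exact sub_eq_zero.1 key

theorem tp_swap (h a a' : E3) : tp h a' a = - tp h a a' := by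
  simp only [tp]; ring

theorem tp_cyc (u v w : E3) : tp v w u = tp u v w := by
  simp only [tp]; ring

theorem dd_ne {h v w x : E3} (hlt : inner ℝ h w < inner ℝ h v) (ht : 0 < tp v w x) :
    dd h v w x ≠ 0 := by
  intro h0
  have h1 : tp v w (dd h v w x) = (inner ℝ h v - inner ℝ h w) * tp v w x := by
    simp only [dd, tp, PiLp.add_apply, PiLp.smul_apply, PiLp.sub_apply, smul_eq_mul]
    ring
  rw [h0] at h1
  have h2 : tp v w 0 = 0 := by simp [tp]
  rw [h2] at h1
  have h3 : 0 < (inner ℝ h v - inner ℝ h w) * tp v w x := mul_pos (sub_pos.2 hlt) ht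
  linarith

/-- CLAIM C -/
theorem upcross_unique {S : Finset E3} (hS : Good S) {h : E3} {v w w' : E3}
    (hu : Up S h v w) (hu' : Up S h v w') : w = w' := by
  obtain ⟨h1, h2, h3⟩ := hu
  obtain ⟨h1', h2', h3'⟩ := hu'
  obtain ⟨hF, hp⟩ := nxt_spec hS h1
  obtain ⟨hF', hp'⟩ := nxt_spec hS h1'
  set x := nxt S v w
  set x' := nxt S v w'
  obtain ⟨a, hav, haw, hax, hle, heq⟩ := facet_nrm hS hF
  obtain ⟨a', hav', haw', hax', hle', heq'⟩ := facet_nrm hS hF'
  have hwS : w ∈ S := h1.right_mem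
  have hwS' : w' ∈ S := h1'.right_mem
  have hxS : x ∈ S := by
    obtain ⟨_, _, _, b, _, hb⟩ := hF
    exact ((hb x).2 (Or.inr (Or.inr rfl))).1
  have hxS' : x' ∈ S := by
    obtain ⟨_, _, _, b, _, hb⟩ := hF'
    exact ((hb x').2 (Or.inr (Or.inr rfl))).1
  have d0 := dd_ne h2 hp
  have d0' := dd_ne h2' hp'
  have dp : 0 < inner ℝ (dd h v w x) (dd h v w x) := real_inner_self_pos.2 d0
  have dp' : 0 < inner ℝ (dd h v w' x') (dd h v w' x') := real_inner_self_pos.2 d0'
  have k1 : 0 < tp h a (dd h v w x) := by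
    have := c1 (h := h) hav haw hax
    rw [← this] at dp
    exact (mul_pos_iff_of_pos_left hp).1 dp
  have k1' : 0 < tp h a' (dd h v w' x') := by
    have := c1 (h := h) hav' haw' hax'
    rw [← this] at dp'
    exact (mul_pos_iff_of_pos_left hp').1 dp'
  have had : inner ℝ a (dd h v w x) = (0 : ℝ) := by
    rw [dd_inner, hav, haw, hax]; ring
  have had' : inner ℝ a' (dd h v w' x') = (0 : ℝ) := by
    rw [dd_inner, hav', haw', hax']; ring
  have hb : 0 < inner ℝ h x - inner ℝ h v := sub_pos.2 h3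
  have ha : 0 < inner ℝ h v - inner ℝ h w := sub_pos.2 h2
  have hb' : 0 < inner ℝ h x' - inner ℝ h v := sub_pos.2 h3'
  have ha' : 0 < inner ℝ h v - inner ℝ h w' := sub_pos.2 h2'
  have m1 : inner ℝ a' (dd h v w x) ≤ (0 : ℝ) := by
    rw [dd_inner, hav']
    have t1 := mul_nonpos_of_nonneg_of_nonpos hb.le (sub_nonpos.2 (hle' w hwS))
    have t2 := mul_nonpos_of_nonneg_of_nonpos ha.le (sub_nonpos.2 (hle' x hxS))
    linarith
  have m1' : inner ℝ a (dd h v w' x') ≤ (0 : ℝ) := by
    rw [dd_inner, hav]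
    have t1 := mul_nonpos_of_nonneg_of_nonpos hb'.le (sub_nonpos.2 (hle w' hwS'))
    have t2 := mul_nonpos_of_nonneg_of_nonpos ha'.le (sub_nonpos.2 (hle x' hxS'))
    linarith
  have q1 := c2 (a' := a') (dd_h h v w x) had
  have q1' := c2 (a' := a) (dd_h h v w' x') had'
  have n1 : tp h a a' ≤ 0 := by
    by_contra hc
    push Not at hc
    have r1 := mul_pos dp hc
    have r2 := mul_nonpos_of_nonpos_of_nonneg m1 k1.le
    linarith
  have n1' : tp h a' a ≤ 0 := by
    by_contra hc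
    push Not at hc
    have r1 := mul_pos dp' hc
    have r2 := mul_nonpos_of_nonpos_of_nonneg m1' k1'.le
    linarith
  rw [tp_swap] at n1'
  have n0 : tp h a a' = 0 := by linarith
  rw [n0, mul_zero] at q1
  have m0 : inner ℝ a' (dd h v w x) = (0 : ℝ) := by
    rcases mul_eq_zero.1 q1.symm with hh | hh
    · exact hh
    · exact absurd hh k1.ne'
  have haw1 : inner ℝ a' w = (1 : ℝ) := by
    rw [dd_inner, hav'] at m0
    have t1 := mul_nonpos_of_nonneg_of_nonpos hb.le (sub_nonpos.2 (hle' w hwS))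
    have t2 := mul_nonpos_of_nonneg_of_nonpos ha.le (sub_nonpos.2 (hle' x hxS))
    have t3 : (inner ℝ h x - inner ℝ h v) * (inner ℝ a' w - 1) = 0 := by linarith
    rcases mul_eq_zero.1 t3 with hh | hh
    · exact absurd hh hb.ne'
    · linarith
  rcases heq' w hwS haw1 with hh | hh | hh
  · rw [hh] at h2
    exact absurd h2 (lt_irrefl _)
  · exact hh
  · rw [hh] at h2
    exact absurd (h2.trans h3') (lt_irrefl _)

/-- triples of FS whose first vertex is crossed upwards -/
noncomputable def UF (S : Finset E3) (h : E3) : Finset (E3 × E3 × E3) :=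
  open Classical in (FS S).filter
    (fun t => inner ℝ h t.2.1 < inner ℝ h t.1 ∧ inner ℝ h t.1 < inner ℝ h t.2.2)

theorem card_UF {S : Finset E3} (hS : Good S) {h : E3} (g : Gen S h) :
    (UF S h).card + 2 = S.card := by
  classical
  have hne : S.Nonempty := by
    obtain ⟨x, hx, _⟩ := hS.origin (EuclideanSpace.single 0 1) (by simp)
    exact ⟨x, hx⟩
  have hh0 : h ≠ 0 := by
    rintro rfl
    obtain ⟨x, hx⟩ := hne
    obtain ⟨a, ha, hpos⟩ := hS.origin x (by
      rintro rfl
      have := hS.unit _ hx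
      rw [norm_zero] at this
      exact zero_ne_one this)
    obtain ⟨b, hb, hbpos⟩ := hS.origin (-x) (by
      intro h0
      have := hS.unit _ hx
      rw [neg_eq_zero.1 h0, norm_zero] at this
      exact zero_ne_one this)
    have hab := g.inj a ha b hb (by rw [inner_zero_left, inner_zero_left])
    rw [hab] at hpos
    rw [inner_neg_left] at hbpos
    linarith
  obtain ⟨top, htop, htop'⟩ := Finset.exists_max_image S (fun y => (inner ℝ h y : ℝ)) hne
  obtain ⟨bot, hbot, hbot'⟩ := Finset.exists_min_image S (fun y => (inner ℝ h y : ℝ)) hne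
  have htb : bot ≠ top := by
    intro hE
    obtain ⟨a, ha, hpos⟩ := hS.origin h hh0
    obtain ⟨b, hb, hbpos⟩ := hS.origin (-h) (neg_ne_zero.2 hh0)
    rw [inner_neg_left] at hbpos
    have h1 : inner ℝ h a ≤ inner ℝ h top := htop' a ha
    have h2 : inner ℝ h bot ≤ inner ℝ h b := hbot' b hb
    rw [hE] at h2
    linarith
  have hcard : (UF S h).card = ((S.erase top).erase bot).card := by
    refine Finset.card_bij (fun t _ => t.1) ?_ ?_ ?_
    · rintro ⟨v, w, x⟩ ht
      simp only [UF, Finset.mem_filter, mem_FS] at ht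
      obtain ⟨⟨hF, hp⟩, hl, hr⟩ := ht
      have hadj := adj_of_facet hS hF
      have hxS : x ∈ S := by
        obtain ⟨_, _, _, b, _, hb⟩ := hF
        exact ((hb x).2 (Or.inr (Or.inr rfl))).1
      simp only
      rw [Finset.mem_erase, Finset.mem_erase]
      refine ⟨?_, ?_, hadj.left_mem⟩
      · rintro rfl
        exact absurd hl (not_lt.2 (hbot' w hadj.right_mem))
      · rintro rfl
        exact absurd hr (not_lt.2 (htop' x hxS))
    · rintro ⟨v, w, x⟩ ht ⟨v', w', x'⟩ ht' hvv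
      simp only at hvv
      subst hvv
      simp only [UF, Finset.mem_filter, mem_FS] at ht ht'
      obtain ⟨⟨hF, hp⟩, hl, hr⟩ := ht
      obtain ⟨⟨hF', hp'⟩, hl', hr'⟩ := ht'
      have e1 := nxt_eq hS hF hp
      have e1' := nxt_eq hS hF' hp'
      have hww : w = w' := by
        apply upcross_unique hS (h := h) (v := v)
        · exact ⟨adj_of_facet hS hF, hl, by rw [e1]; exact hr⟩
        · exact ⟨adj_of_facet hS hF', hl', by rw [e1']; exact hr'⟩
      subst hww
      rw [← e1, ← e1']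
    · intro v hv
      rw [Finset.mem_erase, Finset.mem_erase] at hv
      obtain ⟨hvb, hvt, hvS⟩ := hv
      have l1 : inner ℝ h v < inner ℝ h top :=
        lt_of_le_of_ne (htop' v hvS) fun e => hvt (g.inj _ hvS _ htop e)
      have l2 : inner ℝ h bot < inner ℝ h v :=
        lt_of_le_of_ne (hbot' v hvS) fun e => hvb (g.inj _ hbot _ hvS e).symm
      obtain ⟨w, hw1, hw2, hw3⟩ := exists_upcross hS g hvS ⟨top, htop, l1⟩ ⟨bot, hbot, l2⟩
      refine ⟨(v, w, nxt S v w), ?_, rfl⟩
      simp only [UF, Finset.mem_filter, mem_FS]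
      exact ⟨nxt_spec hS hw1, hw2, hw3⟩
  have hbot1 : bot ∈ S.erase top := Finset.mem_erase.2 ⟨htb, hbot⟩
  rw [hcard, Finset.card_erase_of_mem hbot1, Finset.card_erase_of_mem htop]
  have h2 : 2 ≤ S.card := by
    have : ({bot, top} : Finset E3) ⊆ S := by
      intro y hy
      rw [Finset.mem_insert, Finset.mem_singleton] at hy
      rcases hy with rfl | rfl
      · exact hbot
      · exact htop
    calc 2 = ({bot, top} : Finset E3).card := (Finset.card_pair htb).symm
      _ ≤ S.card := Finset.card_le_card this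
  omega

/-- rotation -/
def rho (t : E3 × E3 × E3) : E3 × E3 × E3 := (t.2.1, t.2.2, t.1)

theorem rho_mem {S : Finset E3} {t : E3 × E3 × E3} (ht : t ∈ FS S) : rho t ∈ FS S := by
  rw [mem_FS] at ht ⊢
  obtain ⟨⟨h1, h2, h3, a, ha, hm⟩, hp⟩ := ht
  refine ⟨⟨h2, h3.symm, h1.symm, a, ha, fun x => ?_⟩, ?_⟩
  · rw [hm]
    simp only [rho]
    tauto
  · simp only [rho]
    rw [tp_cyc]
    exact hp

theorem rho_rho_rho (t : E3 × E3 × E3) : rho (rho (rho t)) = t := rfl

theorem sum_rho {S : Finset E3} (f : E3 × E3 × E3 → ℕ) :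
    ∑ t ∈ FS S, f (rho t) = ∑ t ∈ FS S, f t := by
  refine Finset.sum_bij' (fun t _ => rho t) (fun t _ => rho (rho t)) ?_ ?_ ?_ ?_ ?_
  · intro t ht; exact rho_mem ht
  · intro t ht; exact rho_mem (rho_mem ht)
  · intro t _; exact rho_rho_rho t
  · intro t _; exact rho_rho_rho t
  · intro t _; rfl

theorem euler {S : Finset E3} (hS : Good S) : (FS S).card + 12 = 6 * S.card := by
  classical
  obtain ⟨h, g⟩ := exists_gen hS
  have hU := card_UF hS g
  have hD := card_UF hS g.neg
  let f : E3 × E3 × E3 → ℕ := fun t =>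
    (if inner ℝ h t.2.1 < inner ℝ h t.1 ∧ inner ℝ h t.1 < inner ℝ h t.2.2 then 1 else 0) +
    (if inner ℝ (-h) t.2.1 < inner ℝ (-h) t.1 ∧ inner ℝ (-h) t.1 < inner ℝ (-h) t.2.2 then 1 else 0)
  have hf : ∑ t ∈ FS S, f t = (UF S h).card + (UF S (-h)).card := by
    simp only [f, Finset.sum_add_distrib, UF, Finset.card_filter]
  have hone : ∀ t ∈ FS S, 1 = f t + f (rho t) + f (rho (rho t)) := by
    rintro ⟨u, v, w⟩ ht
    rw [mem_FS] at ht
    obtain ⟨⟨n1, n2, n3, a, ha, hm⟩, hp⟩ := ht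
    simp only at n1 n2 n3 hm
    have hu : u ∈ S := ((hm u).2 (Or.inl rfl)).1
    have hv : v ∈ S := ((hm v).2 (Or.inr (Or.inl rfl))).1
    have hw : w ∈ S := ((hm w).2 (Or.inr (Or.inr rfl))).1
    have e1 : inner ℝ h u ≠ inner ℝ h v := fun e => n1 (g.inj _ hu _ hv e)
    have e2 : inner ℝ h v ≠ inner ℝ h w := fun e => n2 (g.inj _ hv _ hw e)
    have e3 : inner ℝ h u ≠ inner ℝ h w := fun e => n3 (g.inj _ hu _ hw e)
    simp only [f, rho, inner_neg_left, neg_lt_neg_iff]
    generalize (inner ℝ h u : ℝ) = p at *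
    generalize (inner ℝ h v : ℝ) = q at *
    generalize (inner ℝ h w : ℝ) = r at *
    rcases lt_or_gt_of_ne e1 with l1 | l1 <;> rcases lt_or_gt_of_ne e2 with l2 | l2 <;>
      rcases lt_or_gt_of_ne e3 with l3 | l3 <;>
      simp [l1, l2, l3, not_lt.2 l1.le, not_lt.2 l2.le, not_lt.2 l3.le] <;>
      linarith
  have hcard : (FS S).card = ∑ t ∈ FS S, (f t + f (rho t) + f (rho (rho t))) := by
    rw [Finset.card_eq_sum_ones]
    exact Finset.sum_congr rfl hone
  rw [Finset.sum_add_distrib, Finset.sum_add_distrib, sum_rho (fun t => f (rho t)), sum_rho f,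
    hf] at hcard
  omega

theorem twelve {S : Finset E3} (hS : Good S)
    (h : ∀ v ∈ S, {w | Adj S v w}.ncard = 5 ∨ {w | Adj S v w}.ncard = 6) :
    {v | v ∈ S ∧ {w | Adj S v w}.ncard = 5}.ncard = 12 := by
  classical
  have h1 := sum_valence hS
  have h2 := euler hS
  have h3 : {v | v ∈ S ∧ {w | Adj S v w}.ncard = 5}.ncard =
      (S.filter (fun v => {w | Adj S v w}.ncard = 5)).card := by
    rw [← Set.ncard_coe_finset]
    congr 1
    ext v
    simp only [Set.mem_ofPred_eq, Finset.coe_filter]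
  rw [h3]
  have h4 : ∑ v ∈ S, ({w | Adj S v w}.ncard + (if {w | Adj S v w}.ncard = 5 then 1 else 0)) =
      ∑ v ∈ S, 6 := by
    apply Finset.sum_congr rfl
    intro v hv
    rcases h v hv with h5 | h5
    · rw [h5]; simp
    · rw [h5]; simp
  rw [Finset.sum_add_distrib, ← Finset.card_filter, Finset.sum_const, smul_eq_mul] at h4
  omega

end Pool.Agent.Helper320.Gold.NEU
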