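import Mathlib
import Pool.Agent.Helper320.GBase

set_option autoImplicit false
open Set

namespace Pool.Agent.Helper320.Gold.NFV

open Pool.Agent.Helper320.Gold

open MeasureTheory in
/-- the radial measure -/
noncomputable def h170mu : Measure ℝ :=
  (volume.restrict (Ioi (0:ℝ))).withDensity (fun z => ENNReal.ofReal (z ^ 2))

open MeasureTheory in
instance h170mu_sf : SFinite h170mu := by
  unfold h170mu; infer_instance

open MeasureTheory in
lemma h170mu_Iic (ρ : ℝ) (hρ : 0 ≤ ρ) : h170mu (Iic ρ) = ENNReal.ofReal (ρ ^ 3 / 3) := by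
  unfold h170mu
  rw [withDensity_apply _ measurableSet_Iic, Measure.restrict_restrict measurableSet_Iic,
    show Iic ρ ∩ Ioi 0 = Ioc 0 ρ by ext x; simp [and_comm]]
  have hint : IntegrableOn (fun z : ℝ => z ^ 2) (Ioc 0 ρ) :=
    ((continuous_pow 2).integrableOn_Icc).mono_set Ioc_subset_Icc_self
  rw [← ofReal_integral_eq_lintegral_ofReal hint (Filter.Eventually.of_forall (fun x => by positivity)),
    ← intervalIntegral.integral_of_le hρ, integral_pow]
  norm_num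

open MeasureTheory in
lemma h170polar (R : Set (ℝ × (ℝ × ℝ))) (hR : MeasurableSet R) :
    volume {p : ℝ × (ℝ × ℝ) | 0 < p.1 ∧ (p.1, p.1⁻¹ • p.2) ∈ R} =
      ∫⁻ y : ℝ × ℝ, h170mu {z | (z, y) ∈ R} := by
  have hmeas : Measurable (fun p : ℝ × (ℝ × ℝ) => (p.1, p.1⁻¹ • p.2)) := by fun_prop
  have hm : MeasurableSet {p : ℝ × (ℝ × ℝ) | 0 < p.1 ∧ (p.1, p.1⁻¹ • p.2) ∈ R} :=
    MeasurableSet.inter (measurableSet_lt measurable_const measurable_fst) (hmeas hR)
  have hsl : Measurable (fun z : ℝ => volume (Prod.mk z ⁻¹' R : Set (ℝ × ℝ))) :=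
    measurable_measure_prodMk_left hR
  have h1 : ∀ z : ℝ, volume (Prod.mk z ⁻¹' {p : ℝ × (ℝ × ℝ) | 0 < p.1 ∧ (p.1, p.1⁻¹ • p.2) ∈ R}) =
      (Ioi (0:ℝ)).indicator (fun z => ENNReal.ofReal (z ^ 2) * volume (Prod.mk z ⁻¹' R : Set (ℝ × ℝ))) z := by
    intro z
    by_cases hz : 0 < z
    · rw [indicator_of_mem (show z ∈ Ioi (0:ℝ) from hz)]
      have : (Prod.mk z ⁻¹' {p : ℝ × (ℝ × ℝ) | 0 < p.1 ∧ (p.1, p.1⁻¹ • p.2) ∈ R}) =
          (fun y : ℝ × ℝ => z⁻¹ • y) ⁻¹' (Prod.mk z ⁻¹' R) := by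
        ext y
        simp [hz]
      rw [this, Measure.addHaar_preimage_smul volume (inv_ne_zero hz.ne')]
      congr 2
      have : Module.finrank ℝ (ℝ × ℝ) = 2 := by simp
      rw [this, inv_pow, inv_inv, abs_of_nonneg (by positivity)]
    · rw [indicator_of_notMem (show z ∉ Ioi (0:ℝ) from hz)]
      have : (Prod.mk z ⁻¹' {p : ℝ × (ℝ × ℝ) | 0 < p.1 ∧ (p.1, p.1⁻¹ • p.2) ∈ R}) = ∅ := by
        ext y
        simp [hz]
      rw [this, measure_empty]
  calc volume {p : ℝ × (ℝ × ℝ) | 0 < p.1 ∧ (p.1, p.1⁻¹ • p.2) ∈ R}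
      = ∫⁻ z, volume (Prod.mk z ⁻¹' {p : ℝ × (ℝ × ℝ) | 0 < p.1 ∧ (p.1, p.1⁻¹ • p.2) ∈ R}) := by
        rw [Measure.volume_eq_prod, Measure.prod_apply hm]
    _ = ∫⁻ z in Ioi (0:ℝ), ENNReal.ofReal (z ^ 2) * volume (Prod.mk z ⁻¹' R : Set (ℝ × ℝ)) := by
        simp_rw [h1]
        rw [lintegral_indicator measurableSet_Ioi]
    _ = ∫⁻ z, volume (Prod.mk z ⁻¹' R : Set (ℝ × ℝ)) ∂h170mu := by
        have hmz : Measurable (fun z : ℝ => ENNReal.ofReal (z ^ 2)) := by fun_prop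
        unfold h170mu
        rw [lintegral_withDensity_eq_lintegral_mul _ hmz hsl]
        rfl
    _ = (h170mu.prod volume) R := (Measure.prod_apply hR).symm
    _ = ∫⁻ y : ℝ × ℝ, h170mu ((fun z => (z, y)) ⁻¹' R) := Measure.prod_apply_symm hR
    _ = _ := rfl

/-- the simplex -/
def h170D : Set (ℝ × ℝ) := {y | 0 ≤ y.1 ∧ 0 ≤ y.2 ∧ y.1 + y.2 ≤ 1}

lemma h170D_meas : MeasurableSet h170D := by
  unfold h170D
  refine MeasurableSet.inter (measurableSet_le measurable_const measurable_fst)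
    (MeasurableSet.inter (measurableSet_le measurable_const measurable_snd) ?_)
  exact measurableSet_le (f := fun y : ℝ × ℝ => y.1 + y.2) (by fun_prop) measurable_const

open MeasureTheory in
lemma h170D_int (k0 k1 k2 k3 : ℝ) (h0 : 0 ≤ k0) (h1 : 0 ≤ k1) (h2 : 0 ≤ k2) (h3 : 0 ≤ k3) :
    ∫⁻ y in h170D, ENNReal.ofReal (k0 + k1 * ((1 - y.1 - y.2) * y.1) + k2 * (y.1 * y.2)
      + k3 * (y.2 * (1 - y.1 - y.2))) = ENNReal.ofReal (k0 / 2 + (k1 + k2 + k3) / 24) := by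
  set P : ℝ × ℝ → ℝ := fun y => k0 + k1 * ((1 - y.1 - y.2) * y.1) + k2 * (y.1 * y.2)
      + k3 * (y.2 * (1 - y.1 - y.2)) with hP
  have hPc : Continuous P := by rw [hP]; fun_prop
  rw [← lintegral_indicator h170D_meas]
  have hmeas : Measurable (h170D.indicator (fun y => ENNReal.ofReal (P y))) :=
    (hPc.measurable.ennreal_ofReal).indicator h170D_meas
  rw [Measure.volume_eq_prod, lintegral_prod _ hmeas.aemeasurable]
  have hin : ∀ b : ℝ, ∫⁻ c, h170D.indicator (fun y => ENNReal.ofReal (P y)) (b, c) =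
      (Icc (0:ℝ) 1).indicator (fun b => ENNReal.ofReal (k0 * (1 - b) + (k1 + k2) * (b * (1 - b) ^ 2) / 2
        + k3 * (1 - b) ^ 3 / 6)) b := by
    intro b
    by_cases hb : b ∈ Icc (0:ℝ) 1
    · rw [indicator_of_mem hb]
      have e1 : ∀ c, h170D.indicator (fun y => ENNReal.ofReal (P y)) (b, c) =
          (Icc (0:ℝ) (1 - b)).indicator (fun c => ENNReal.ofReal (P (b, c))) c := by
        intro c
        by_cases hc : c ∈ Icc (0:ℝ) (1 - b)
        · rw [indicator_of_mem hc, indicator_of_mem]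
          exact ⟨hb.1, hc.1, by have := hc.2; simp only; linarith⟩
        · rw [indicator_of_notMem hc, indicator_of_notMem]
          rintro ⟨_, h5, h6⟩
          exact hc ⟨h5, by simp only at h6; linarith⟩
      simp_rw [e1]
      rw [lintegral_indicator measurableSet_Icc]
      have hPb : Continuous (fun c => P (b, c)) := by fun_prop
      rw [← ofReal_integral_eq_lintegral_ofReal hPb.integrableOn_Icc]
      · congr 1
        rw [integral_Icc_eq_integral_Ioc, ← intervalIntegral.integral_of_le (by linarith [hb.2])]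
        have : ∀ c, P (b, c) = (k0 + k1 * ((1 - b) * b)) + (- (k1 * b) + k2 * b + k3 * (1 - b)) * c
            + (- k3) * c ^ 2 := by
          intro c; simp only [hP]; ring
        simp_rw [this]
        rw [intervalIntegral.integral_add (Continuous.intervalIntegrable (by fun_prop) _ _) (Continuous.intervalIntegrable (by fun_prop) _ _),
          intervalIntegral.integral_add (Continuous.intervalIntegrable (by fun_prop) _ _) (Continuous.intervalIntegrable (by fun_prop) _ _),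
          intervalIntegral.integral_const, intervalIntegral.integral_const_mul,
          intervalIntegral.integral_const_mul, integral_id, integral_pow]
        simp
        ring
      · filter_upwards [ae_restrict_mem measurableSet_Icc] with c hc
        have hc1 := hc.1
        have hc2 : 0 ≤ 1 - b - c := by linarith [hc.2]
        have hb1 := hb.1
        simp only [hP]
        positivity
    · rw [indicator_of_notMem hb]
      have e1 : ∀ c, h170D.indicator (fun y => ENNReal.ofReal (P y)) (b, c) = 0 := by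
        intro c
        rw [indicator_of_notMem]
        rintro ⟨h4, h5, h6⟩
        simp only at h4 h5 h6
        exact hb ⟨h4, by linarith⟩
      simp_rw [e1]
      simp
  simp_rw [hin]
  rw [lintegral_indicator measurableSet_Icc]
  have hc : Continuous (fun b : ℝ => k0 * (1 - b) + (k1 + k2) * (b * (1 - b) ^ 2) / 2
        + k3 * (1 - b) ^ 3 / 6) := by fun_prop
  rw [← ofReal_integral_eq_lintegral_ofReal hc.integrableOn_Icc]
  · congr 1
    rw [integral_Icc_eq_integral_Ioc, ← intervalIntegral.integral_of_le zero_le_one]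
    have : ∀ b : ℝ, k0 * (1 - b) + (k1 + k2) * (b * (1 - b) ^ 2) / 2 + k3 * (1 - b) ^ 3 / 6 =
      (k0 + k3 / 6) + (- k0 + (k1 + k2) / 2 - k3 / 2) * b + (- (k1 + k2) + k3 / 2) * b ^ 2 +
        ((k1 + k2) / 2 - k3 / 6) * b ^ 3 := by
      intro b; ring
    simp_rw [this]
    rw [intervalIntegral.integral_add (Continuous.intervalIntegrable (by fun_prop) _ _) (Continuous.intervalIntegrable (by fun_prop) _ _),
      intervalIntegral.integral_add (Continuous.intervalIntegrable (by fun_prop) _ _) (Continuous.intervalIntegrable (by fun_prop) _ _),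
      intervalIntegral.integral_add (Continuous.intervalIntegrable (by fun_prop) _ _) (Continuous.intervalIntegrable (by fun_prop) _ _),
      intervalIntegral.integral_const, intervalIntegral.integral_const_mul,
      intervalIntegral.integral_const_mul, intervalIntegral.integral_const_mul, integral_id, integral_pow, integral_pow]
    simp
    ring
  · filter_upwards [ae_restrict_mem measurableSet_Icc] with b hb
    have h4 : 0 ≤ 1 - b := by linarith [hb.2]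
    have h5 := hb.1
    simp only [Pi.zero_apply]
    positivity
/-- the linear parametrisation -/
noncomputable def h170M (u v w : E3) (p : ℝ × (ℝ × ℝ)) : E3 :=
  (p.1 - p.2.1 - p.2.2) • u + p.2.1 • v + p.2.2 • w

open MeasureTheory in
lemma h170M_vol (u v w : E3) (K : Set (ℝ × (ℝ × ℝ))) :
    volume (h170M u v w '' K) = ENNReal.ofReal |tp u v w| * volume K := by
  let φ : E3 ≃ᵐ (Fin 3 → ℝ) := (MeasurableEquiv.toLp 2 (Fin 3 → ℝ)).symm
  have hφ : MeasurePreserving φ := EuclideanSpace.volume_preserving_symm_measurableEquiv_toLp (Fin 3)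
  let ψ : (Fin 3 → ℝ) ≃ᵐ ℝ × (ℝ × ℝ) :=
    (MeasurableEquiv.piFinSuccAbove (fun _ : Fin 3 => ℝ) 0).trans
      ((MeasurableEquiv.refl ℝ).prodCongr (@MeasurableEquiv.finTwoArrow ℝ _))
  have hψ : MeasurePreserving ψ := by
    refine (volume_preserving_piFinSuccAbove (fun _ : Fin 3 => ℝ) 0).trans ?_
    exact (MeasurePreserving.id (volume : Measure ℝ)).prod (volume_preserving_finTwoArrow ℝ)
  let A : Matrix (Fin 3) (Fin 3) ℝ := Matrix.of (fun i j => ![u i, v i - u i, w i - u i] j)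
  let L : (Fin 3 → ℝ) →ₗ[ℝ] (Fin 3 → ℝ) := Matrix.toLin' A
  have hdet : LinearMap.det L = tp u v w := by
    simp only [L]
    rw [LinearMap.det_toLin', Matrix.det_fin_three]
    simp only [A, tp, Matrix.of_apply]
    simp
    ring
  have hL : ∀ y : Fin 3 → ℝ, L y = φ (h170M u v w (ψ y)) := by
    intro y
    have hψy : ψ y = (y 0, (y 1, y 2)) := rfl
    rw [hψy]
    ext i
    have e1 : φ (h170M u v w (y 0, (y 1, y 2))) i = (y 0 - y 1 - y 2) * u i + y 1 * v i + y 2 * w i := rfl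
    rw [e1]
    simp only [L, A]
    rw [Matrix.toLin'_apply, Matrix.mulVec, dotProduct, Fin.sum_univ_three]
    simp
    ring
  have hset : h170M u v w '' K = φ ⁻¹' (L '' (ψ ⁻¹' K)) := by
    ext x
    simp only [mem_image, mem_preimage]
    constructor
    · rintro ⟨p, hp, rfl⟩
      refine ⟨ψ.symm p, ?_, ?_⟩
      · rwa [ψ.apply_symm_apply]
      · rw [hL, ψ.apply_symm_apply]
    · rintro ⟨y, hy, hyx⟩
      refine ⟨ψ y, hy, ?_⟩
      apply φ.injective
      rw [← hyx, hL]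
  rw [hset, hφ.measure_preimage_equiv, Measure.addHaar_image_linearMap, hdet,
    hψ.measure_preimage_equiv]
open MeasureTheory in
lemma h170_sing : volume ({(0, (0, 0))} : Set (ℝ × (ℝ × ℝ))) = 0 := by
  rw [Measure.volume_eq_prod, ← singleton_prod_singleton, Measure.prod_prod, Real.volume_singleton,
    zero_mul]

open MeasureTheory in
lemma h170S_vol (ρ : ℝ × ℝ → ℝ) (hρ : Continuous ρ) (hρ0 : ∀ y ∈ h170D, 0 ≤ ρ y) :
    volume {p : ℝ × (ℝ × ℝ) | 0 < p.1 ∧ (p.1⁻¹ • p.2 ∈ h170D ∧ p.1 ≤ ρ (p.1⁻¹ • p.2))} =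
      ∫⁻ y in h170D, ENNReal.ofReal (ρ y ^ 3 / 3) := by
  have hR : MeasurableSet {p : ℝ × (ℝ × ℝ) | p.2 ∈ h170D ∧ p.1 ≤ ρ p.2} := by
    refine MeasurableSet.inter (measurable_snd h170D_meas) ?_
    exact measurableSet_le measurable_fst (hρ.measurable.comp measurable_snd)
  have h := h170polar {p : ℝ × (ℝ × ℝ) | p.2 ∈ h170D ∧ p.1 ≤ ρ p.2} hR
  refine (Eq.trans ?_ h).trans ?_
  · rfl
  · rw [← lintegral_indicator h170D_meas]
    refine lintegral_congr (fun y => ?_)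
    by_cases hy : y ∈ h170D
    · rw [indicator_of_mem hy, ← h170mu_Iic _ (hρ0 y hy)]
      congr 1
      ext z
      simp [hy]
    · rw [indicator_of_notMem hy]
      have : {z : ℝ | (z, y) ∈ {p : ℝ × (ℝ × ℝ) | p.2 ∈ h170D ∧ p.1 ≤ ρ p.2}} = ∅ := by
        ext z
        simp [hy]
      rw [this, measure_empty]

/-- the tetrahedron -/
def h170T : Set (ℝ × (ℝ × ℝ)) := {p | 0 ≤ p.2.1 ∧ 0 ≤ p.2.2 ∧ p.2.1 + p.2.2 ≤ p.1 ∧ p.1 ≤ 1}

open MeasureTheory in
lemma h170T_vol : volume h170T = ENNReal.ofReal (1 / 6) := by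
  have h := h170S_vol (fun _ => 1) continuous_const (fun _ _ => zero_le_one)
  have h2 := h170D_int (1/3) 0 0 0 (by norm_num) le_rfl le_rfl le_rfl
  have h3 : ∫⁻ y in h170D, ENNReal.ofReal ((1:ℝ) ^ 3 / 3) = ENNReal.ofReal (1 / 6) := by
    refine (Eq.trans ?_ h2).trans ?_
    · refine lintegral_congr (fun y => ?_)
      congr 1
      ring
    · congr 1; norm_num
  rw [h3] at h
  rw [← h]
  have key : ∀ p : ℝ × (ℝ × ℝ), 0 < p.1 → ((p.1⁻¹ • p.2 ∈ h170D ∧ p.1 ≤ (1:ℝ)) ↔ p ∈ h170T) := by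
    rintro ⟨z, s, t⟩ hz
    simp only at hz
    simp only [h170D, h170T, Set.mem_ofPred_eq, Prod.smul_mk, smul_eq_mul]
    have e1 : 0 ≤ z⁻¹ * s ↔ 0 ≤ s := by
      rw [mul_nonneg_iff_of_pos_left (inv_pos.2 hz)]
    have e2 : 0 ≤ z⁻¹ * t ↔ 0 ≤ t := by
      rw [mul_nonneg_iff_of_pos_left (inv_pos.2 hz)]
    have e3 : z⁻¹ * s + z⁻¹ * t ≤ 1 ↔ s + t ≤ z := by
      rw [← mul_add, inv_mul_le_iff₀ hz, mul_one]
    rw [e1, e2, e3]
    tauto
  refine le_antisymm ?_ (measure_mono ?_)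
  · have hsub : h170T ⊆ {p : ℝ × (ℝ × ℝ) | 0 < p.1 ∧ (p.1⁻¹ • p.2 ∈ h170D ∧ p.1 ≤ (1:ℝ))} ∪ {(0, (0, 0))} := by
      intro p hp
      by_cases hz : 0 < p.1
      · left; exact ⟨hz, (key p hz).2 hp⟩
      · right
        obtain ⟨z, s, t⟩ := p
        obtain ⟨h1, h2, h3, h4⟩ := hp
        simp only at hz h1 h2 h3 h4
        have a1 : z = 0 := by linarith
        have a2 : s = 0 := by linarith
        have a3 : t = 0 := by linarith
        rw [a1, a2, a3]; rfl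
    refine (measure_mono hsub).trans ((measure_union_le _ _).trans ?_)
    rw [h170_sing, add_zero]
  · rintro p ⟨hz, hp⟩
    exact (key p hz).1 hp

lemma h170_hull (u v w : E3) : convexHull ℝ {0, u, v, w} = h170M u v w '' h170T := by
  apply subset_antisymm
  · apply convexHull_min
    · rintro x (rfl | rfl | rfl | rfl)
      · refine ⟨(0, (0, 0)), ⟨le_rfl, le_rfl, by norm_num, by norm_num⟩, by simp [h170M]⟩
      · refine ⟨(1, (0, 0)), ⟨le_rfl, le_rfl, by norm_num, by norm_num⟩, by simp [h170M]⟩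
      · refine ⟨(1, (1, 0)), ⟨by norm_num, le_rfl, by norm_num, by norm_num⟩, by simp [h170M]⟩
      · refine ⟨(1, (0, 1)), ⟨le_rfl, by norm_num, by norm_num, by norm_num⟩, by simp [h170M]⟩
    · rintro x ⟨p, hp, rfl⟩ y ⟨q, hq, rfl⟩ a b ha hb hab
      refine ⟨a • p + b • q, ?_, ?_⟩
      · obtain ⟨z, s, t⟩ := p
        obtain ⟨z', s', t'⟩ := q
        obtain ⟨h1, h2, h3, h4⟩ := hp
        obtain ⟨h1', h2', h3', h4'⟩ := hq
        simp only at h1 h2 h3 h4 h1' h2' h3' h4'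
        simp only [h170T, Set.mem_ofPred_eq, Prod.smul_mk, smul_eq_mul, Prod.mk_add_mk]
        refine ⟨by positivity, by positivity, ?_, ?_⟩
        · nlinarith [mul_le_mul_of_nonneg_left h3 ha, mul_le_mul_of_nonneg_left h3' hb]
        · nlinarith [mul_le_mul_of_nonneg_left h4 ha, mul_le_mul_of_nonneg_left h4' hb]
      · simp only [h170M, Prod.fst_add, Prod.snd_add, Prod.smul_fst, Prod.smul_snd, smul_eq_mul]
        module
  · rintro x ⟨⟨z, s, t⟩, ⟨h1, h2, h3, h4⟩, rfl⟩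
    simp only at h1 h2 h3 h4
    have hc : Convex ℝ (convexHull ℝ ({0, u, v, w} : Set E3)) := convex_convexHull ℝ _
    have hsub := subset_convexHull ℝ ({0, u, v, w} : Set E3)
    have := hc.sum_mem (t := Finset.univ) (w := ![1 - z, z - s - t, s, t]) (z := ![0, u, v, w])
      (by
        intro i _
        fin_cases i
        · simp; linarith
        · simp; linarith
        · simpa using h1
        · simpa using h2)
      (by simp [Fin.sum_univ_four]; ring)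
      (by
        intro i _
        fin_cases i
        · exact hsub (by simp)
        · exact hsub (by simp)
        · exact hsub (by simp)
        · exact hsub (by simp))
    simpa [Fin.sum_univ_four, h170M] using this

theorem vol_tetra (u v w : E3) :
    MeasureTheory.volume (convexHull ℝ {0, u, v, w}) = ENNReal.ofReal (|tp u v w| / 6) := by
  rw [h170_hull, h170M_vol, h170T_vol, ← ENNReal.ofReal_mul (abs_nonneg _)]
  congr 1
  ring

lemma h170M_norm {u v w : E3} (hu : ‖u‖ = 1) (hv : ‖v‖ = 1) (hw : ‖w‖ = 1) (z s t : ℝ) :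
    ‖h170M u v w (z, (s, t))‖ ^ 2 = z ^ 2 - ((z - s - t) * s * ‖u - v‖ ^ 2 + s * t * ‖v - w‖ ^ 2 +
      t * (z - s - t) * ‖w - u‖ ^ 2) := by
  have e1 : ‖h170M u v w (z, (s, t))‖ ^ 2 = (z - s - t) ^ 2 * ‖u‖ ^ 2 + s ^ 2 * ‖v‖ ^ 2 + t ^ 2 * ‖w‖ ^ 2
      + 2 * ((z - s - t) * s * inner ℝ u v) + 2 * (s * t * inner ℝ v w) + 2 * (t * (z - s - t) * inner ℝ w u) := by
    simp only [h170M]
    rw [@norm_add_sq_real, @norm_add_sq_real, norm_smul, norm_smul, norm_smul, mul_pow, mul_pow,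
      mul_pow, Real.norm_eq_abs, Real.norm_eq_abs, Real.norm_eq_abs, sq_abs, sq_abs, sq_abs,
      inner_add_left, inner_smul_left, inner_smul_left, inner_smul_right, inner_smul_right,
      inner_smul_left, inner_smul_right, real_inner_comm u w]
    simp only [conj_trivial]
    ring
  rw [e1, @norm_sub_sq_real _ _ _ u v, @norm_sub_sq_real _ _ _ v w, @norm_sub_sq_real _ _ _ w u, hu, hv, hw]
  ring

/-- the quadratic form on the simplex -/
noncomputable def h170Q (u v w : E3) (y : ℝ × ℝ) : ℝ :=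
  (1 - y.1 - y.2) * y.1 * ‖u - v‖ ^ 2 + y.1 * y.2 * ‖v - w‖ ^ 2 +
    y.2 * (1 - y.1 - y.2) * ‖w - u‖ ^ 2

lemma h170Q_nonneg (u v w : E3) (y : ℝ × ℝ) (hy : y ∈ h170D) : 0 ≤ h170Q u v w y := by
  obtain ⟨h1, h2, h3⟩ := hy
  have h4 : 0 ≤ 1 - y.1 - y.2 := by linarith
  unfold h170Q
  positivity

lemma h170Q_cont (u v w : E3) : Continuous (h170Q u v w) := by
  unfold h170Q
  fun_prop

lemma h170Q_norm {u v w : E3} (hu : ‖u‖ = 1) (hv : ‖v‖ = 1) (hw : ‖w‖ = 1)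
    (p : ℝ × (ℝ × ℝ)) (hp : 0 < p.1) :
    ‖h170M u v w p‖ ^ 2 = p.1 ^ 2 * (1 - h170Q u v w (p.1⁻¹ • p.2)) := by
  obtain ⟨z, s, t⟩ := p
  simp only at hp
  rw [h170M_norm hu hv hw]
  simp only [h170Q, Prod.smul_mk, smul_eq_mul]
  field_simp

lemma h170_mem_iff {u v w : E3} (p : ℝ × (ℝ × ℝ)) (hp : 0 < p.1) :
    p.1⁻¹ • p.2 ∈ h170D ↔ (0 ≤ p.2.1 ∧ 0 ≤ p.2.2 ∧ p.2.1 + p.2.2 ≤ p.1) := by
  obtain ⟨z, s, t⟩ := p
  simp only at hp
  simp only [h170D, Set.mem_ofPred_eq, Prod.smul_mk, smul_eq_mul]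
  have e1 : 0 ≤ z⁻¹ * s ↔ 0 ≤ s := by
    rw [mul_nonneg_iff_of_pos_left (inv_pos.2 hp)]
  have e2 : 0 ≤ z⁻¹ * t ↔ 0 ≤ t := by
    rw [mul_nonneg_iff_of_pos_left (inv_pos.2 hp)]
  have e3 : z⁻¹ * s + z⁻¹ * t ≤ 1 ↔ s + t ≤ z := by
    rw [← mul_add, inv_mul_le_iff₀ hp, mul_one]
  rw [e1, e2, e3]

lemma h170_numA (h q : ℝ) (hh2 : h ^ 2 ≤ 1 / 100) (hq0 : 0 ≤ q) (hq1 : q ≤ h ^ 2 / 3) :
    1 ≤ (1 + (1 + h ^ 2) / 2 * q) ^ 2 * (1 - q) := by
  have hk := sq_nonneg h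
  set k := h ^ 2
  set α : ℝ := (1 + k) / 2 with hα
  have hα0 : 0 < α := by positivity
  have hα1 : α ≤ 101 / 200 := by rw [hα]; linarith
  have g4 : (1 + α * q) ^ 2 * (1 - q) = 1 + q * (k - (2 * α - α ^ 2) * q - α ^ 2 * q ^ 2) := by
    rw [hα]; ring
  rw [g4]
  have g5 : (2 * α - α ^ 2) * q ≤ 1 * (k / 3) :=
    mul_le_mul (by linarith [sq_nonneg (1 - α)]) hq1 hq0 (by norm_num)
  have hq2 : q ^ 2 ≤ k / 3 := by
    have : q * q ≤ q * 1 := mul_le_mul_of_nonneg_left (by linarith) hq0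
    linarith [sq q]
  have hα2 : α ^ 2 ≤ 1 := pow_le_one₀ hα0.le (by linarith)
  have g6 : α ^ 2 * q ^ 2 ≤ 1 * (k / 3) := mul_le_mul hα2 hq2 (sq_nonneg _) (by norm_num)
  have g7 : 0 ≤ k - (2 * α - α ^ 2) * q - α ^ 2 * q ^ 2 := by linarith
  linarith [mul_nonneg hq0 g7]

lemma h170_numB (h q : ℝ) (hh2 : h ^ 2 ≤ 1 / 100) (hq0 : 0 ≤ q) (hq1 : q ≤ h ^ 2 / 3) :
    (1 + (1 + h ^ 2) / 2 * q) ^ 3 / 3 ≤ 1 / 3 + q / 2 * (1 + 2 * h ^ 2) := by
  have hk := sq_nonneg h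
  set k := h ^ 2
  set α : ℝ := (1 + k) / 2 with hα
  have hα0 : 0 < α := by positivity
  have hα1 : α ≤ 101 / 200 := by rw [hα]; linarith
  have e2 : (1 + α * q) ^ 3 / 3 = 1 / 3 + q * (α + α ^ 2 * q + α ^ 3 * q ^ 2 / 3) := by ring
  rw [e2]
  have hα2 : α ^ 2 ≤ 1 / 2 := by
    have : α * α ≤ (101 / 200) * (101 / 200) := mul_le_mul hα1 hα1 hα0.le (by norm_num)
    linarith [sq α]
  have hα3 : α ^ 3 ≤ 1 := pow_le_one₀ hα0.le (by linarith)
  have hq2 : q ^ 2 ≤ k / 3 := by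
    have : q * q ≤ q * 1 := mul_le_mul_of_nonneg_left (by linarith) hq0
    linarith [sq q]
  have g5 : α ^ 2 * q ≤ (1 / 2) * (k / 3) := mul_le_mul hα2 hq1 hq0 (by norm_num)
  have g6 : α ^ 3 * q ^ 2 ≤ 1 * (k / 3) := mul_le_mul hα3 hq2 (sq_nonneg _) (by norm_num)
  have g7 : α + α ^ 2 * q + α ^ 3 * q ^ 2 / 3 ≤ 1 / 2 * (1 + 2 * k) := by
    rw [hα] at g5 g6 ⊢
    linarith
  have := mul_le_mul_of_nonneg_left g7 hq0
  linarith

lemma h170_numC (b c : ℝ) :
    (1 - b - c) * b + b * c + c * (1 - b - c) ≤ 1 / 3 := by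
  nlinarith [sq_nonneg (b - c), sq_nonneg (1 - b - c - b), sq_nonneg (1 - b - c - c)]

lemma h170_fin (u v w : E3) :
    MeasureTheory.volume (cone3 u v w ∩ Metric.closedBall 0 1) ≠ ⊤ :=
  ((MeasureTheory.measure_mono inter_subset_right).trans_lt
    (MeasureTheory.measure_closedBall_lt_top (x := (0:E3)) (r := 1))).ne

theorem vol_sector_lower {u v w : E3} (hu : ‖u‖ = 1) (hv : ‖v‖ = 1) (hw : ‖w‖ = 1)
    (hD : 0 < tp u v w) :
    tp u v w / 6 + tp u v w * (‖u - v‖ ^ 2 + ‖v - w‖ ^ 2 + ‖w - u‖ ^ 2) / 48 ≤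
      (MeasureTheory.volume (cone3 u v w ∩ Metric.closedBall 0 1)).toReal := by
  rw [← ENNReal.ofReal_le_iff_le_toReal (h170_fin u v w)]
  set Q := h170Q u v w with hQ
  have hQ0 : ∀ y ∈ h170D, 0 ≤ Q y := fun y hy => h170Q_nonneg u v w y hy
  set ρ : ℝ × ℝ → ℝ := fun y => 1 + Q y / 2 with hρ
  have hQc := h170Q_cont u v w
  have hρc : Continuous ρ := by rw [hρ]; fun_prop
  have hvol := h170S_vol ρ hρc (fun y hy => by have := hQ0 y hy; simp only [hρ]; linarith)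
  have hsub : h170M u v w '' {p : ℝ × (ℝ × ℝ) | 0 < p.1 ∧ (p.1⁻¹ • p.2 ∈ h170D ∧ p.1 ≤ ρ (p.1⁻¹ • p.2))} ⊆
      cone3 u v w ∩ Metric.closedBall 0 1 := by
    rintro x ⟨p, ⟨hp0, hpD, hpρ⟩, rfl⟩
    refine ⟨?_, ?_⟩
    · obtain ⟨h1, h2, h3⟩ := (h170_mem_iff (u := u) (v := v) (w := w) p hp0).1 hpD
      exact ⟨p.1 - p.2.1 - p.2.2, p.2.1, p.2.2, by linarith, h1, h2, rfl⟩
    · rw [Metric.mem_closedBall, dist_zero_right]
      have hn := h170Q_norm hu hv hw p hp0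
      have hq := hQ0 _ hpD
      rw [← hQ] at hn
      set q := Q (p.1⁻¹ • p.2)
      have hle : p.1 ^ 2 * (1 - q) ≤ 1 := by
        by_cases hq1 : 1 - q ≤ 0
        · nlinarith [mul_nonneg (sq_nonneg p.1) (neg_nonneg.2 hq1)]
        · push Not at hq1
          have h1 : p.1 ^ 2 ≤ (1 + q / 2) ^ 2 := pow_le_pow_left₀ hp0.le hpρ 2
          calc p.1 ^ 2 * (1 - q) ≤ (1 + q / 2) ^ 2 * (1 - q) := mul_le_mul_of_nonneg_right h1 hq1.le
            _ = 1 - 3 / 4 * q ^ 2 - q ^ 3 / 4 := by ring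
            _ ≤ 1 := by
              have : 0 ≤ q ^ 3 := by positivity
              nlinarith [sq_nonneg q]
      rw [← hn] at hle
      exact (sq_le_one_iff₀ (norm_nonneg _)).1 hle
  refine le_trans ?_ (MeasureTheory.measure_mono hsub)
  rw [h170M_vol, hvol, abs_of_pos hD]
  have hint := h170D_int (1/3) (‖u - v‖ ^ 2 / 2) (‖v - w‖ ^ 2 / 2) (‖w - u‖ ^ 2 / 2) (by norm_num)
    (by positivity) (by positivity) (by positivity)
  have hmono : ENNReal.ofReal (1 / 3 / 2 + (‖u - v‖ ^ 2 / 2 + ‖v - w‖ ^ 2 / 2 + ‖w - u‖ ^ 2 / 2) / 24) ≤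
      ∫⁻ y in h170D, ENNReal.ofReal (ρ y ^ 3 / 3) := by
    rw [← hint]
    refine MeasureTheory.setLIntegral_mono' h170D_meas (fun y hy => ENNReal.ofReal_le_ofReal ?_)
    have hq := hQ0 y hy
    have e1 : 1 / 3 + ‖u - v‖ ^ 2 / 2 * ((1 - y.1 - y.2) * y.1) + ‖v - w‖ ^ 2 / 2 * (y.1 * y.2) +
        ‖w - u‖ ^ 2 / 2 * (y.2 * (1 - y.1 - y.2)) = 1 / 3 + Q y / 2 := by
      rw [hQ]; unfold h170Q; ring
    rw [e1]
    simp only [hρ]
    have : (1 + Q y / 2) ^ 3 / 3 = 1 / 3 + Q y / 2 + Q y ^ 2 / 4 + Q y ^ 3 / 24 := by ring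
    rw [this]
    have : 0 ≤ Q y ^ 3 := by positivity
    nlinarith [sq_nonneg (Q y)]
  refine le_trans (le_of_eq ?_) (mul_le_mul_right hmono (ENNReal.ofReal (tp u v w)))
  rw [← ENNReal.ofReal_mul hD.le]
  congr 1
  ring

theorem vol_sector_upper {u v w : E3} (hu : ‖u‖ = 1) (hv : ‖v‖ = 1) (hw : ‖w‖ = 1)
    (hD : 0 < tp u v w) {h : ℝ} (hh : h ≤ 1 / 10) (h1 : ‖u - v‖ ≤ h) (h2 : ‖v - w‖ ≤ h)
    (h3 : ‖w - u‖ ≤ h) :
    (MeasureTheory.volume (cone3 u v w ∩ Metric.closedBall 0 1)).toReal ≤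
      tp u v w / 6 + tp u v w * (3 * h ^ 2) / 48 * (1 + 2 * h ^ 2) := by
  have hh0 : 0 ≤ h := (norm_nonneg _).trans h1
  have hh2 : h ^ 2 ≤ 1 / 100 := by nlinarith
  have c1 : ‖u - v‖ ^ 2 ≤ h ^ 2 := pow_le_pow_left₀ (norm_nonneg _) h1 2
  have c2 : ‖v - w‖ ^ 2 ≤ h ^ 2 := pow_le_pow_left₀ (norm_nonneg _) h2 2
  have c3 : ‖w - u‖ ^ 2 ≤ h ^ 2 := pow_le_pow_left₀ (norm_nonneg _) h3 2
  have hrhs : 0 ≤ tp u v w / 6 + tp u v w * (3 * h ^ 2) / 48 * (1 + 2 * h ^ 2) := by positivity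
  refine ENNReal.toReal_le_of_le_ofReal hrhs ?_
  set Q := h170Q u v w with hQ
  have hQ0 : ∀ y ∈ h170D, 0 ≤ Q y := fun y hy => h170Q_nonneg u v w y hy
  have hQ1 : ∀ y ∈ h170D, Q y ≤ h ^ 2 / 3 := by
    rintro ⟨b, c⟩ ⟨g1, g2, g3⟩
    simp only at g1 g2 g3
    have g4 : 0 ≤ 1 - b - c := by linarith
    have e1 : Q (b, c) ≤ (1 - b - c) * b * h ^ 2 + b * c * h ^ 2 + c * (1 - b - c) * h ^ 2 := by
      rw [hQ]; unfold h170Q
      simp only
      gcongr
    have e2 := h170_numC b c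
    have e3 : (1 - b - c) * b * h ^ 2 + b * c * h ^ 2 + c * (1 - b - c) * h ^ 2 =
      h ^ 2 * ((1 - b - c) * b + b * c + c * (1 - b - c)) := by ring
    rw [e3] at e1
    linarith [mul_le_mul_of_nonneg_left e2 (sq_nonneg h)]
  set α : ℝ := (1 + h ^ 2) / 2 with hα
  have hα0 : 0 < α := by positivity
  have hα1 : α ≤ 101 / 200 := by rw [hα]; linarith
  set ρ : ℝ × ℝ → ℝ := fun y => 1 + α * Q y with hρ
  have hQc := h170Q_cont u v w
  have hρc : Continuous ρ := by rw [hρ]; fun_prop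
  have hvol := h170S_vol ρ hρc (fun y hy => by have := hQ0 y hy; simp only [hρ]; positivity)
  have hsub : cone3 u v w ∩ Metric.closedBall 0 1 ⊆
      h170M u v w '' ({p : ℝ × (ℝ × ℝ) | 0 < p.1 ∧ (p.1⁻¹ • p.2 ∈ h170D ∧ p.1 ≤ ρ (p.1⁻¹ • p.2))} ∪
        {(0, (0, 0))}) := by
    rintro x ⟨⟨r, s, t, hr, hs, ht, rfl⟩, hx⟩
    refine ⟨(r + s + t, (s, t)), ?_, ?_⟩
    · by_cases hz : 0 < r + s + t
      · left
        have hmem : (r + s + t)⁻¹ • (s, t) ∈ h170D :=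
          (h170_mem_iff (u := u) (v := v) (w := w) (r + s + t, (s, t)) hz).2
            ⟨hs, ht, by simp only; linarith⟩
        refine ⟨hz, hmem, ?_⟩
        have hn := h170Q_norm hu hv hw (r + s + t, (s, t)) hz
        have hxM : h170M u v w (r + s + t, (s, t)) = r • u + s • v + t • w := by
          simp only [h170M]
          congr 2; congr 1; ring
        rw [hxM, ← hQ] at hn
        simp only at hn
        rw [Metric.mem_closedBall, dist_zero_right] at hx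
        have hx2 : ‖r • u + s • v + t • w‖ ^ 2 ≤ 1 := by
          exact pow_le_one₀ (norm_nonneg _) hx
        rw [hn] at hx2
        have hq0 := hQ0 _ hmem
        have hq1 := hQ1 _ hmem
        show r + s + t ≤ 1 + α * Q ((r + s + t)⁻¹ • (s, t))
        set q := Q ((r + s + t)⁻¹ • (s, t))
        set z := r + s + t
        by_contra hc
        push Not at hc
        have hq2 : q ≤ 1 / 300 := by linarith
        have g1 : (1 + α * q) ^ 2 < z ^ 2 := pow_lt_pow_left₀ hc (by positivity) (by norm_num)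
        have g2 : (1 + α * q) ^ 2 * (1 - q) < z ^ 2 * (1 - q) :=
          mul_lt_mul_of_pos_right g1 (by linarith)
        have g3 : 1 ≤ (1 + α * q) ^ 2 * (1 - q) := h170_numA h q hh2 hq0 hq1
        linarith
      · right
        have a1 : r = 0 := by linarith
        have a2 : s = 0 := by linarith
        have a3 : t = 0 := by linarith
        rw [a1, a2, a3]
        simp
    · simp only [h170M]
      congr 2; congr 1; ring
  refine (MeasureTheory.measure_mono hsub).trans ?_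
  rw [h170M_vol, abs_of_pos hD]
  have hint := h170D_int (1/3) (‖u - v‖ ^ 2 / 2 * (1 + 2 * h ^ 2)) (‖v - w‖ ^ 2 / 2 * (1 + 2 * h ^ 2))
    (‖w - u‖ ^ 2 / 2 * (1 + 2 * h ^ 2)) (by norm_num)
    (by positivity) (by positivity) (by positivity)
  have hmono : ∫⁻ y in h170D, ENNReal.ofReal (ρ y ^ 3 / 3) ≤
      ENNReal.ofReal (1 / 3 / 2 + (‖u - v‖ ^ 2 / 2 * (1 + 2 * h ^ 2) + ‖v - w‖ ^ 2 / 2 * (1 + 2 * h ^ 2) +
        ‖w - u‖ ^ 2 / 2 * (1 + 2 * h ^ 2)) / 24) := by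
    rw [← hint]
    refine MeasureTheory.setLIntegral_mono' h170D_meas (fun y hy => ENNReal.ofReal_le_ofReal ?_)
    have hq0 := hQ0 y hy
    have hq1 := hQ1 y hy
    have e1 : 1 / 3 + ‖u - v‖ ^ 2 / 2 * (1 + 2 * h ^ 2) * ((1 - y.1 - y.2) * y.1) +
        ‖v - w‖ ^ 2 / 2 * (1 + 2 * h ^ 2) * (y.1 * y.2) +
        ‖w - u‖ ^ 2 / 2 * (1 + 2 * h ^ 2) * (y.2 * (1 - y.1 - y.2)) =
          1 / 3 + Q y / 2 * (1 + 2 * h ^ 2) := by
      rw [hQ]; unfold h170Q; ring
    rw [e1]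
    simp only [hρ]
    set q := Q y
    exact h170_numB h q hh2 hq0 hq1
  have hu2 : MeasureTheory.volume ({p : ℝ × (ℝ × ℝ) | 0 < p.1 ∧ (p.1⁻¹ • p.2 ∈ h170D ∧ p.1 ≤ ρ (p.1⁻¹ • p.2))} ∪
        {(0, (0, 0))}) ≤ ENNReal.ofReal (1 / 3 / 2 + (‖u - v‖ ^ 2 / 2 * (1 + 2 * h ^ 2) + ‖v - w‖ ^ 2 / 2 * (1 + 2 * h ^ 2) +
        ‖w - u‖ ^ 2 / 2 * (1 + 2 * h ^ 2)) / 24) := by
    refine (MeasureTheory.measure_union_le _ _).trans ?_
    rw [h170_sing, add_zero, hvol]
    exact hmono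
  refine (mul_le_mul_right hu2 (ENNReal.ofReal (tp u v w))).trans ?_
  rw [← ENNReal.ofReal_mul hD.le]
  apply ENNReal.ofReal_le_ofReal
  have g8 : tp u v w * (1 / 3 / 2 + (‖u - v‖ ^ 2 / 2 * (1 + 2 * h ^ 2) + ‖v - w‖ ^ 2 / 2 * (1 + 2 * h ^ 2) +
        ‖w - u‖ ^ 2 / 2 * (1 + 2 * h ^ 2)) / 24) = tp u v w / 6 + tp u v w * ((1 + 2 * h ^ 2) / 48) *
          (‖u - v‖ ^ 2 + ‖v - w‖ ^ 2 + ‖w - u‖ ^ 2) := by ring
  have g9 : tp u v w / 6 + tp u v w * (3 * h ^ 2) / 48 * (1 + 2 * h ^ 2) =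
      tp u v w / 6 + tp u v w * ((1 + 2 * h ^ 2) / 48) * (3 * h ^ 2) := by ring
  rw [g8, g9]
  have g10 : 0 ≤ tp u v w * ((1 + 2 * h ^ 2) / 48) := by positivity
  have := mul_le_mul_of_nonneg_left (show ‖u - v‖ ^ 2 + ‖v - w‖ ^ 2 + ‖w - u‖ ^ 2 ≤ 3 * h ^ 2 by linarith) g10
  linarith

open scoped Pointwise in
theorem vol_sector_upper' {u v w a : E3} {d : ℝ} (hd : 0 < d) (ha : ‖a‖ = 1)
    (hu : inner ℝ a u = d) (hv : inner ℝ a v = d) (hw : inner ℝ a w = d)
    (hD : 0 < tp u v w) :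
    (MeasureTheory.volume (cone3 u v w ∩ Metric.closedBall 0 1)).toReal ≤
      tp u v w / 6 / d ^ 3 := by
  refine ENNReal.toReal_le_of_le_ofReal (by positivity) ?_
  have hsub : cone3 u v w ∩ Metric.closedBall 0 1 ⊆ d⁻¹ • convexHull ℝ {0, u, v, w} := by
    rintro x ⟨⟨r, s, t, hr, hs, ht, rfl⟩, hx⟩
    rw [Set.mem_inv_smul_set_iff₀ hd.ne', h170_hull]
    refine ⟨(d * (r + s + t), (d * s, d * t)), ⟨by positivity, by positivity, ?_, ?_⟩, ?_⟩
    · simp only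
      nlinarith [mul_nonneg hd.le hr]
    · simp only
      rw [Metric.mem_closedBall, dist_zero_right] at hx
      have h1 : inner ℝ a (r • u + s • v + t • w) ≤ ‖a‖ * ‖r • u + s • v + t • w‖ :=
        real_inner_le_norm _ _
      rw [inner_add_right, inner_add_right, inner_smul_right, inner_smul_right, inner_smul_right,
        hu, hv, hw, ha] at h1
      linarith
    · simp only [h170M]
      module
  refine (MeasureTheory.measure_mono hsub).trans ?_
  rw [MeasureTheory.Measure.addHaar_smul, vol_tetra, ← ENNReal.ofReal_mul (abs_nonneg _)]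
  apply ENNReal.ofReal_le_ofReal
  apply le_of_eq
  have : Module.finrank ℝ E3 = 3 := by simp
  rw [this, abs_of_pos hD, abs_of_pos (by positivity)]
  field_simp

end Pool.Agent.Helper320.Gold.NFV
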