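import Mathlib
import Pool.Agent.Helper320.GBaseA
import Pool.Agent.Helper320.GA1
import Pool.Agent.Helper320.GA2
import Pool.Agent.Helper320.GA3
import Pool.Agent.Helper320.GA4
import Pool.Agent.Helper320.GEU
import Pool.Agent.Helper320.GFV

set_option autoImplicit false
open Set

namespace Pool.Agent.Helper320.Gold.NA5

open Pool.Agent.Helper320.Gold Pool.Agent.Helper320.Gold.NA1 Pool.Agent.Helper320.Gold.NA2 Pool.Agent.Helper320.Gold.NA3 Pool.Agent.Helper320.Gold.NA4 Pool.Agent.Helper320.Gold.NEU Pool.Agent.Helper320.Gold.NFV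

theorem gd_mem {S : Finset E3} {t : E3 × E3 × E3} (ht : t ∈ FS S) : t.1 ∈ S := by
  classical
  unfold FS at ht
  rw [Finset.mem_filter, Finset.mem_product] at ht
  exact ht.1.1

theorem gd_inner (x y : E3) : inner ℝ x y = x 0 * y 0 + x 1 * y 1 + x 2 * y 2 := by
  rw [PiLp.inner_apply, Fin.sum_univ_three]
  simp only [RCLike.inner_apply, conj_trivial]
  ring

theorem gd_norm_sq (x : E3) : ‖x‖ ^ 2 = x 0 * x 0 + x 1 * x 1 + x 2 * x 2 := by
  rw [← real_inner_self_eq_norm_sq, gd_inner]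

theorem fan_near {S : Finset E3} (hS : Good S) {q : ℝ} (hq : q ≤ 1 / 20) (hq0 : 0 ≤ q)
    (hcov : ∀ a : E3, ‖a‖ = 1 → ∃ x ∈ S, ‖a - x‖ ≤ q) {t : E3 × E3 × E3} (ht : t ∈ FS S) :
    ‖vb S t - t.1‖ ≤ 1.1 * q ∧ ‖va t - t.1‖ ≤ 1.1 * q ∧
    ∀ y ∈ cone3 t.1 (vb S t) (va t), ‖y‖ = 1 → ‖y - t.1‖ ≤ q := by
  obtain ⟨h1, h2, -, -, h5, h6, -⟩ := fan_spec hS ht
  have huS := gd_mem ht
  obtain ⟨u, hu⟩ : ∃ u, u = t.1 := ⟨_, rfl⟩
  obtain ⟨b, hb⟩ : ∃ b, b = vb S t := ⟨_, rfl⟩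
  obtain ⟨a, ha⟩ : ∃ a, a = va t := ⟨_, rfl⟩
  rw [← hu, ← ha] at h1
  rw [← hu, ← hb] at h2
  rw [← ha] at h5
  rw [← hb] at h6
  rw [← hu] at huS
  rw [← hu, ← hb, ← ha]
  have hun : ‖u‖ = 1 := hS.unit u huS
  have huu : inner ℝ u u = (1 : ℝ) := by rw [real_inner_self_eq_norm_sq, hun]; norm_num
  have key : ∀ y ∈ cone3 u b a, ∀ v ∈ S, (inner ℝ y v : ℝ) ≤ inner ℝ y u := by
    rintro y ⟨r, s, w, hr, hs, hw, rfl⟩ v hv
    have huv : (inner ℝ u v : ℝ) ≤ 1 := by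
      refine (real_inner_le_norm u v).trans ?_
      rw [hun, hS.unit v hv]; norm_num
    simp only [inner_add_left, real_inner_smul_left]
    rw [huu, h1, h2]
    have hbv := h6 v hv
    have hav := h5 v hv
    nlinarith [mul_le_mul_of_nonneg_left huv hr, mul_le_mul_of_nonneg_left hbv hs,
      mul_le_mul_of_nonneg_left hav hw]
  have key2 : ∀ y ∈ cone3 u b a, ‖y‖ = 1 → 1 - q ^ 2 / 2 ≤ inner ℝ y u := by
    intro y hy hyn
    obtain ⟨v, hv, hyv⟩ := hcov y hyn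
    have e1 := norm_sub_sq_real y v
    rw [hyn, hS.unit v hv] at e1
    have e2 : ‖y - v‖ ^ 2 ≤ q ^ 2 := by gcongr
    have e3 := key y hy v hv
    linarith
  have key3 : ∀ y ∈ cone3 u b a, ‖y‖ = 1 → ‖y - u‖ ≤ q := by
    intro y hy hyn
    have e1 := norm_sub_sq_real y u
    rw [hyn, hun] at e1
    have e2 := key2 y hy hyn
    have e3 : ‖y - u‖ ^ 2 ≤ q ^ 2 := by linarith
    exact le_of_sq_le_sq e3 hq0
  have key4 : ∀ z ∈ cone3 u b a, inner ℝ z u = (1 : ℝ) → (∀ c : ℝ, 0 ≤ c → c • z ∈ cone3 u b a) →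
      ‖z - u‖ ≤ 1.1 * q := by
    intro z hz hzu hcone
    have hz0 : 0 < ‖z‖ := by
      rw [norm_pos_iff]
      rintro rfl
      simp at hzu
    have e1 := key2 (‖z‖⁻¹ • z) (hcone _ (by positivity)) (by
      rw [norm_smul, norm_inv, norm_norm, inv_mul_cancel₀ hz0.ne'])
    rw [real_inner_smul_left, hzu, mul_one] at e1
    have hx : 0 ≤ q ^ 2 / 2 ∧ q ^ 2 / 2 ≤ 1 / 800 := by
      constructor
      · positivity
      · nlinarith
    obtain ⟨x, hxd⟩ : ∃ x, x = q ^ 2 / 2 := ⟨_, rfl⟩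
    rw [← hxd] at e1 hx
    have e2 : (1 - x) * ‖z‖ ≤ 1 := by
      have := mul_le_mul_of_nonneg_right e1 hz0.le
      rwa [inv_mul_cancel₀ hz0.ne'] at this
    have e3 := norm_sub_sq_real z u
    rw [hzu, hun] at e3
    have e4 : ‖z‖ ^ 2 - 1 ≤ 1.21 * q ^ 2 := by
      have e5 : (1 - x) ^ 2 * ‖z‖ ^ 2 ≤ 1 := by
        have : ((1 - x) * ‖z‖) ^ 2 ≤ 1 ^ 2 := by
          apply pow_le_pow_left₀ _ e2
          have : 0 ≤ 1 - x := by linarith [hx.2]
          positivity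
        rwa [mul_pow, one_pow] at this
      have e6 : q ^ 2 = 2 * x := by rw [hxd]; ring
      rw [e6]
      by_contra hcon
      push Not at hcon
      have e7 : (1 - x) ^ 2 * (1 + 1.21 * (2 * x)) ≤ 1 := by
        refine le_trans ?_ e5
        apply mul_le_mul_of_nonneg_left _ (sq_nonneg _)
        linarith
      -- (1-2x)(1+2.42x) = 1 + 0.42 x - 4.84 x^2
      rcases eq_or_lt_of_le hx.1 with h0 | h0
      · rw [← h0] at hcon e5
        norm_num at hcon e5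
        linarith
      · nlinarith [mul_pos h0 h0, mul_pos h0 (mul_pos h0 h0)]
    have e8 : ‖z - u‖ ^ 2 ≤ (1.1 * q) ^ 2 := by
      rw [e3, mul_pow]; norm_num at e4 ⊢; linarith
    exact le_of_sq_le_sq e8 (by positivity)
  refine ⟨?_, ?_, key3⟩
  · apply key4 b ⟨0, 1, 0, le_rfl, zero_le_one, le_rfl, by simp⟩ h2
    intro c hc
    exact ⟨0, c, 0, le_rfl, hc, le_rfl, by simp⟩
  · apply key4 a ⟨0, 0, 1, le_rfl, le_rfl, zero_le_one, by simp⟩ h1
    intro c hc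
    exact ⟨0, 0, c, le_rfl, le_rfl, hc, by simp⟩

theorem gd_gram (u p q : E3) (hu : ‖u‖ = 1) (hp : inner ℝ p u = (0 : ℝ)) (hq : inner ℝ q u = (0 : ℝ)) :
    (tp u p q) ^ 2 = inner ℝ p p * inner ℝ q q - inner ℝ p q * inner ℝ p q := by
  have h1 : u 0 * u 0 + u 1 * u 1 + u 2 * u 2 = 1 := by
    rw [← gd_norm_sq, hu]; norm_num
  rw [gd_inner] at hp hq
  rw [gd_inner, gd_inner, gd_inner]
  have h2 : (tp u p q) ^ 2 = (u 0 * u 0 + u 1 * u 1 + u 2 * u 2) *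
      ((p 0 * p 0 + p 1 * p 1 + p 2 * p 2) * (q 0 * q 0 + q 1 * q 1 + q 2 * q 2)) +
      2 * (p 0 * u 0 + p 1 * u 1 + p 2 * u 2) * (p 0 * q 0 + p 1 * q 1 + p 2 * q 2) *
        (q 0 * u 0 + q 1 * u 1 + q 2 * u 2) -
      (u 0 * u 0 + u 1 * u 1 + u 2 * u 2) * (p 0 * q 0 + p 1 * q 1 + p 2 * q 2) ^ 2 -
      (p 0 * p 0 + p 1 * p 1 + p 2 * p 2) * (q 0 * u 0 + q 1 * u 1 + q 2 * u 2) ^ 2 -
      (q 0 * q 0 + q 1 * q 1 + q 2 * q 2) * (p 0 * u 0 + p 1 * u 1 + p 2 * u 2) ^ 2 := by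
    unfold tp; ring
  rw [h2, h1, hp, hq]
  ring

theorem gd_tp_sub (u b a : E3) : tp u b a = tp u (b - u) (a - u) := by
  unfold tp
  simp only [PiLp.sub_apply]
  ring

theorem fan_shape {S : Finset E3} (hS : Good S) {t : E3 × E3 × E3} (ht : t ∈ FS S) :
    0 < Ar S t ∧ 0 < ‖vb S t - t.1‖ ∧ 0 < ‖va t - t.1‖ ∧ 0 < ang S t ∧ ang S t < Real.pi ∧
    Ar S t = ‖vb S t - t.1‖ * ‖va t - t.1‖ * Real.sin (ang S t) / 2 ∧
    ∀ A0 : ℝ, pt S A0 t = Mt S t - (2 * (A0 / k0) * Ar S t -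
      (A0 / k0) ^ 2 * (k0 + 24 / 25 * (ang S t - Real.pi / 3))) := by
  obtain ⟨h1, h2, -, -, -, -, h7⟩ := fan_spec hS ht
  have huS := gd_mem ht
  have hun : ‖t.1‖ = 1 := hS.unit _ huS
  have huu : inner ℝ t.1 t.1 = (1 : ℝ) := by rw [real_inner_self_eq_norm_sq, hun]; norm_num
  obtain ⟨p, hp⟩ : ∃ p, p = vb S t - t.1 := ⟨_, rfl⟩
  obtain ⟨q, hq⟩ : ∃ q, q = va t - t.1 := ⟨_, rfl⟩
  have hpu : inner ℝ p t.1 = (0 : ℝ) := by rw [hp, inner_sub_left, h2, huu, sub_self]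
  have hqu : inner ℝ q t.1 = (0 : ℝ) := by rw [hq, inner_sub_left, h1, huu, sub_self]
  have htp : tp t.1 (vb S t) (va t) = tp t.1 p q := by rw [gd_tp_sub, hp, hq]
  have hgram := gd_gram t.1 p q hun hpu hqu
  rw [htp] at h7
  have hang : ang S t = InnerProductGeometry.angle p q := by unfold ang; rw [hp, hq]
  have hsin : Real.sin (InnerProductGeometry.angle p q) * (‖p‖ * ‖q‖) = tp t.1 p q := by
    rw [InnerProductGeometry.sin_angle_mul_norm_mul_norm, ← hgram, Real.sqrt_sq h7.le]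
  have hcos := InnerProductGeometry.cos_angle_mul_norm_mul_norm p q
  have hpq : 0 < ‖p‖ * ‖q‖ := by
    rcases (mul_nonneg (norm_nonneg p) (norm_nonneg q)).eq_or_lt with h | h
    · rw [← h, mul_zero] at hsin; linarith
    · exact h
  have hp0 : 0 < ‖p‖ := by
    rcases (norm_nonneg p).eq_or_lt with h | h
    · rw [← h, zero_mul] at hpq; exact absurd hpq (lt_irrefl _)
    · exact h
  have hq0 : 0 < ‖q‖ := by
    rcases (norm_nonneg q).eq_or_lt with h | h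
    · rw [← h, mul_zero] at hpq; exact absurd hpq (lt_irrefl _)
    · exact h
  have hsinpos : 0 < Real.sin (InnerProductGeometry.angle p q) := by
    rw [← hsin] at h7
    exact (pos_iff_pos_of_mul_pos h7).mpr hpq
  have hAr : Ar S t = ‖p‖ * ‖q‖ * Real.sin (InnerProductGeometry.angle p q) / 2 := by
    unfold Ar; rw [htp, ← hsin]; ring
  rw [← hp, ← hq, hang]
  refine ⟨?_, hp0, hq0, ?_, ?_, hAr, ?_⟩
  · rw [hAr]; positivity
  · rcases (InnerProductGeometry.angle_nonneg p q).eq_or_lt with h | h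
    · rw [← h, Real.sin_zero] at hsinpos; exact absurd hsinpos (lt_irrefl _)
    · exact h
  · rcases (InnerProductGeometry.angle_le_pi p q).eq_or_lt with h | h
    · rw [h, Real.sin_pi] at hsinpos; exact absurd hsinpos (lt_irrefl _)
    · exact h
  · intro A0
    unfold pt penA Mt
    rw [hang, ← hp, ← hq, hAr, ← hcos]
    ring

theorem gd_Mt {S : Finset E3} (hS : Good S) {t : E3 × E3 × E3} (ht : t ∈ FS S) : 0 ≤ Mt S t := by
  have h := (fan_shape hS ht).1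
  unfold Mt
  have h1 := abs_real_inner_le_norm (vb S t - t.1) (va t - t.1)
  have h2 := neg_abs_le (inner ℝ (vb S t - t.1) (va t - t.1) : ℝ)
  have h3 : 0 ≤ ‖vb S t - t.1‖ ^ 2 + ‖va t - t.1‖ ^ 2 + inner ℝ (vb S t - t.1) (va t - t.1) := by
    nlinarith [sq_nonneg (‖vb S t - t.1‖ - ‖va t - t.1‖), norm_nonneg (vb S t - t.1),
      norm_nonneg (va t - t.1), mul_nonneg (norm_nonneg (vb S t - t.1)) (norm_nonneg (va t - t.1))]
  positivity

theorem fan_vol {S : Finset E3} (hS : Good S) {q : ℝ} (hq : q ≤ 1 / 20) (hq0 : 0 ≤ q)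
    (hcov : ∀ a : E3, ‖a‖ = 1 → ∃ x ∈ S, ‖a - x‖ ≤ q) {t : E3 × E3 × E3} (ht : t ∈ FS S) :
    1 / 2 * (1 - 1.6 * q ^ 2) * Mt S t ≤ Ar S t / 3 - vW S t ∧
    Ar S t / 3 * (1 - 2 * q ^ 2) ≤ vW S t ∧ 0 ≤ Mt S t := by
  obtain ⟨h1, h2, -, -, -, -, h7⟩ := fan_spec hS ht
  have hun : ‖t.1‖ = 1 := hS.unit _ (gd_mem ht)
  obtain ⟨n1, n2, -⟩ := fan_near hS hq hq0 hcov ht
  have hR : 1.1 * q ≤ 1 / 10 := by norm_num at hq ⊢; linarith
  have hup := vol_flat_upper hun h2 h1 h7 hR n1 n2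
  have hlo := vol_flat_lower hun h2 h1 h7 hR n1 n2
  have hM := gd_Mt hS ht
  have hA := (fan_shape hS ht).1
  have e1 : tp t.1 (vb S t) (va t) / 12 * (‖vb S t - t.1‖ ^ 2 + ‖va t - t.1‖ ^ 2 +
      inner ℝ (vb S t - t.1) (va t - t.1)) = Mt S t := by
    unfold Mt Ar; ring
  have e2 : tp t.1 (vb S t) (va t) / 6 = Ar S t / 3 := by unfold Ar; ring
  rw [e1, e2] at hup
  rw [e2] at hlo
  have hq2 : 0 ≤ q ^ 2 := sq_nonneg q
  refine ⟨?_, ?_, hM⟩
  · unfold vW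
    have e3 : 1 / 2 * (1 - 1.6 * q ^ 2) * Mt S t ≤ 1 / 2 * (1 - 5 / 4 * (1.1 * q) ^ 2) * Mt S t := by
      apply mul_le_mul_of_nonneg_right _ hM
      rw [mul_pow]; norm_num; nlinarith
    linarith
  · unfold vW
    refine le_trans ?_ hlo
    apply mul_le_mul_of_nonneg_left _ (by positivity)
    rw [mul_pow]; norm_num; nlinarith

theorem sum_fan {S : Finset E3} (hS : Good S) :
    ∑ t ∈ FS S, Ar S t = 3 * (MeasureTheory.volume (polar S)).toReal ∧
    ∑ t ∈ FS S, vW S t = 4 * Real.pi / 3 ∧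
    4 * Real.pi / 3 ≤ (MeasureTheory.volume (polar S)).toReal ∧
    ∑ t ∈ FS S, ang S t ≤ 2 * Real.pi * S.card := by
  classical
  -- the polar body is closed
  have hclosed : IsClosed (polar S) := by
    have : polar S = ⋂ u ∈ S, {x : E3 | inner ℝ x u ≤ (1 : ℝ)} := by
      ext x
      simp [polar]
    rw [this]
    refine isClosed_biInter fun u _ => isClosed_le (by fun_prop) continuous_const
  have hvolp : MeasureTheory.volume (polar S) = ENNReal.ofReal (∑ t ∈ FS S, Ar S t / 3) := by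
    rw [← fan_tile hS _ hclosed.measurableSet,
      ENNReal.ofReal_sum_of_nonneg (fun t ht => by have := (fan_shape hS ht).1; positivity)]
    refine Finset.sum_congr rfl fun t ht => ?_
    rw [polar_cone hS ht, vol_tetra]
    congr 1
    obtain ⟨-, -, -, -, -, -, h7⟩ := fan_spec hS ht
    rw [abs_of_pos h7]
    unfold Ar
    ring
  have hnn : 0 ≤ ∑ t ∈ FS S, Ar S t / 3 :=
    Finset.sum_nonneg fun t ht => by have := (fan_shape hS ht).1; positivity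
  have hvol : (MeasureTheory.volume (polar S)).toReal = ∑ t ∈ FS S, Ar S t / 3 := by
    rw [hvolp, ENNReal.toReal_ofReal hnn]
  have hball : MeasureTheory.volume (Metric.closedBall (0 : E3) 1) = ENNReal.ofReal (4 * Real.pi / 3) := by
    rw [EuclideanSpace.volume_closedBall_fin_three]
    simp
    congr 1
    ring
  have hpi := Real.pi_pos
  refine ⟨?_, ?_, ?_, ?_⟩
  · rw [hvol, ← Finset.sum_div]; ring
  · have h1 := fan_tile hS (Metric.closedBall 0 1) Metric.isClosed_closedBall.measurableSet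
    have h2 := congrArg ENNReal.toReal h1
    rw [hball, ENNReal.toReal_ofReal (by positivity), ENNReal.toReal_sum] at h2
    · exact h2
    · intro t _
      apply ne_of_lt
      refine lt_of_le_of_lt (MeasureTheory.measure_mono Set.inter_subset_right) ?_
      rw [hball]; exact ENNReal.ofReal_lt_top
  · have hsub : Metric.closedBall (0 : E3) 1 ⊆ polar S := by
      intro x hx u hu
      rw [Metric.mem_closedBall, dist_zero_right] at hx
      refine (real_inner_le_norm x u).trans ?_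
      rw [hS.unit u hu, mul_one]; exact hx
    have h1 := MeasureTheory.measure_mono (μ := MeasureTheory.volume) hsub
    rw [hball] at h1
    have h2 := ENNReal.toReal_mono (by rw [hvolp]; exact ENNReal.ofReal_ne_top) h1
    rwa [ENNReal.toReal_ofReal (by positivity)] at h2
  · rw [← Finset.sum_fiberwise_of_maps_to (g := fun t : E3 × E3 × E3 => t.1) (t := S)
      (fun t ht => gd_mem ht)]
    have h1 : ∀ u ∈ S, ∑ t ∈ FS S with t.1 = u, ang S t ≤ 2 * Real.pi := by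
      intro u hu
      have h2 := angle_sum_le ((FS S).filter (fun t => t.1 = u)) (hS.unit u hu)
        (fun t => vb S t) (fun t => va t)
        (by
          intro t ht
          rw [Finset.mem_filter] at ht
          rw [← ht.2]; exact (fan_spec hS ht.1).2.1)
        (by
          intro t ht
          rw [Finset.mem_filter] at ht
          rw [← ht.2]; exact (fan_spec hS ht.1).1)
        (by
          intro t ht
          rw [Finset.mem_filter] at ht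
          rw [← ht.2]; exact (fan_spec hS ht.1).2.2.2.2.2.2)
        (by
          intro t ht t' ht' hne
          rw [Finset.mem_filter] at ht ht'
          have := fan_disj hS ht.1 ht'.1 hne
          rw [ht.2, ht'.2] at this
          exact this)
      refine le_trans (le_of_eq ?_) h2
      refine Finset.sum_congr rfl fun t ht => ?_
      rw [Finset.mem_filter] at ht
      unfold ang
      rw [ht.2]
    calc ∑ u ∈ S, ∑ t ∈ FS S with t.1 = u, ang S t ≤ ∑ _u ∈ S, 2 * Real.pi := Finset.sum_le_sum h1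
      _ = 2 * Real.pi * S.card := by rw [Finset.sum_const, nsmul_eq_mul]; ring

theorem gd_k0 : 1.039 ≤ k0 := by
  unfold k0
  have h : (1.732 : ℝ) ≤ √3 := by
    apply Real.le_sqrt_of_sq_le; norm_num
  norm_num at h ⊢
  linarith

theorem sum_defA {S : Finset E3} (hS : Good S) {q : ℝ} (hq : q ≤ 1 / 20) (hq0 : 0 ≤ q)
    {A0 ε : ℝ} (hA : 0 < A0) (hAn : 6 * S.card * A0 = 4 * Real.pi)
    (hvol : (MeasureTheory.volume (polar S)).toReal ≤
      4 * Real.pi / 3 + 2 * Real.pi * A0 / k0 * (1 + ε)) :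
    ∑ t ∈ FS S, (Ar S t / 3 - vW S t - 1 / 2 * (1 - 1.6 * q ^ 2) *
      (2 * (A0 / k0) * Ar S t - (A0 / k0) ^ 2 * (k0 + 24 / 25 * (ang S t - Real.pi / 3)))) ≤
      2 * Real.pi * A0 / k0 * (ε + 1.6 * q ^ 2) := by
  obtain ⟨s1, s2, s3, s4⟩ := sum_fan hS
  have hE := euler hS
  have hk := gd_k0
  have hk0 : 0 < k0 := lt_of_lt_of_le (by norm_num) hk
  obtain ⟨V, hV⟩ : ∃ V, V = (MeasureTheory.volume (polar S)).toReal := ⟨_, rfl⟩
  rw [← hV] at s1 s3 hvol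
  obtain ⟨n, hn⟩ : ∃ n : ℝ, n = S.card := ⟨_, rfl⟩
  obtain ⟨N, hN⟩ : ∃ N : ℝ, N = (FS S).card := ⟨_, rfl⟩
  have hNn : N + 12 = 6 * n := by rw [hN, hn]; exact_mod_cast hE
  rw [← hn] at hAn s4
  obtain ⟨lam, hlam⟩ : ∃ lam, lam = A0 / k0 := ⟨_, rfl⟩
  have hlam0 : 0 < lam := by rw [hlam]; positivity
  have hA0 : A0 = lam * k0 := by rw [hlam]; field_simp
  obtain ⟨Θ, hΘ⟩ : ∃ Θ, Θ = ∑ t ∈ FS S, ang S t := ⟨_, rfl⟩
  rw [← hΘ] at s4
  have hL : ∑ t ∈ FS S, (2 * (A0 / k0) * Ar S t - (A0 / k0) ^ 2 *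
      (k0 + 24 / 25 * (ang S t - Real.pi / 3))) =
      2 * lam * (3 * V) - lam ^ 2 * (k0 * N + 24 / 25 * (Θ - Real.pi / 3 * N)) := by
    rw [← hlam, Finset.sum_sub_distrib, ← Finset.mul_sum, s1, ← Finset.mul_sum,
      Finset.sum_add_distrib, ← Finset.mul_sum, Finset.sum_sub_distrib, ← hΘ, Finset.sum_const,
      Finset.sum_const, nsmul_eq_mul, nsmul_eq_mul, ← hN]
    ring
  have hsum : ∑ t ∈ FS S, (Ar S t / 3 - vW S t - 1 / 2 * (1 - 1.6 * q ^ 2) *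
      (2 * (A0 / k0) * Ar S t - (A0 / k0) ^ 2 * (k0 + 24 / 25 * (ang S t - Real.pi / 3)))) =
      V - 4 * Real.pi / 3 - 1 / 2 * (1 - 1.6 * q ^ 2) *
        (2 * lam * (3 * V) - lam ^ 2 * (k0 * N + 24 / 25 * (Θ - Real.pi / 3 * N))) := by
    rw [Finset.sum_sub_distrib, Finset.sum_sub_distrib, ← Finset.mul_sum, hL, s2,
      ← Finset.sum_div, s1]
    ring
  rw [hsum]
  have hq2 : 0 ≤ 1 - 1.6 * q ^ 2 := by norm_num; nlinarith
  have hpi := Real.pi_pos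
  have hpi2 := Real.pi_lt_d4
  have h12 : 24 / 25 * (4 * Real.pi) ≤ 12 * k0 := by
    norm_num at hk hpi2 ⊢
    linarith
  have hin : k0 * N + 24 / 25 * (Θ - Real.pi / 3 * N) ≤ 6 * n * k0 := by
    have e1 : N = 6 * n - 12 := by linarith
    rw [e1]
    nlinarith
  have hLlow : 4 * Real.pi * lam ≤
      2 * lam * (3 * V) - lam ^ 2 * (k0 * N + 24 / 25 * (Θ - Real.pi / 3 * N)) := by
    have e1 : lam ^ 2 * (k0 * N + 24 / 25 * (Θ - Real.pi / 3 * N)) ≤ lam ^ 2 * (6 * n * k0) :=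
      mul_le_mul_of_nonneg_left hin (sq_nonneg _)
    have e2 : lam ^ 2 * (6 * n * k0) = 4 * Real.pi * lam := by
      rw [← hAn, hA0]; ring
    have e3 : 8 * Real.pi * lam ≤ 2 * lam * (3 * V) := by nlinarith
    linarith
  have e4 : 2 * Real.pi * A0 / k0 = 2 * Real.pi * lam := by rw [hlam]; ring
  rw [e4] at hvol ⊢
  have e5 : 1 / 2 * (1 - 1.6 * q ^ 2) * (4 * Real.pi * lam) ≤ 1 / 2 * (1 - 1.6 * q ^ 2) *
      (2 * lam * (3 * V) - lam ^ 2 * (k0 * N + 24 / 25 * (Θ - Real.pi / 3 * N))) :=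
    mul_le_mul_of_nonneg_left hLlow (by positivity)
  have e6 : 1 / 2 * (1 - 1.6 * q ^ 2) * (4 * Real.pi * lam) =
    2 * Real.pi * lam - 2 * Real.pi * lam * (1.6 * q ^ 2) := by ring
  have e7 : 2 * Real.pi * lam * (1 + ε) = 2 * Real.pi * lam + 2 * Real.pi * lam * ε := by ring
  have e8 : 2 * Real.pi * lam * (ε + 1.6 * q ^ 2) =
    2 * Real.pi * lam * ε + 2 * Real.pi * lam * (1.6 * q ^ 2) := by ring
  linarith

theorem sum_penA {S : Finset E3} (hS : Good S) {q : ℝ} (hq : q ≤ 1 / 20) (hq0 : 0 ≤ q)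
    (hcov : ∀ a : E3, ‖a‖ = 1 → ∃ x ∈ S, ‖a - x‖ ≤ q)
    {A0 ε : ℝ} (hA : 0 < A0) (hε : 0 ≤ ε) (hAn : 6 * S.card * A0 = 4 * Real.pi)
    (hvol : (MeasureTheory.volume (polar S)).toReal ≤
      4 * Real.pi / 3 + 2 * Real.pi * A0 / k0 * (1 + ε)) :
    ∑ t ∈ FS S, pt S A0 t ≤ 25 * A0 * (ε + q ^ 2) := by
  have h5 := sum_defA hS hq hq0 hA hAn hvol
  have hk := gd_k0
  have hk0 : 0 < k0 := lt_of_lt_of_le (by norm_num) hk
  have hpi := Real.pi_pos
  have hpi2 := Real.pi_lt_d4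
  have h6 : ∑ t ∈ FS S, 1 / 2 * (1 - 1.6 * q ^ 2) * pt S A0 t ≤
      2 * Real.pi * A0 / k0 * (ε + 1.6 * q ^ 2) := by
    refine le_trans (Finset.sum_le_sum fun t ht => ?_) h5
    obtain ⟨v1, -, -⟩ := fan_vol hS hq hq0 hcov ht
    obtain ⟨-, -, -, -, -, -, f⟩ := fan_shape hS ht
    have e1 := f A0
    have e2 : 2 * (A0 / k0) * Ar S t - (A0 / k0) ^ 2 * (k0 + 24 / 25 * (ang S t - Real.pi / 3)) =
      Mt S t - pt S A0 t := by rw [e1]; ring
    rw [e2]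
    have e3 : 1 / 2 * (1 - 1.6 * q ^ 2) * (Mt S t - pt S A0 t) =
      1 / 2 * (1 - 1.6 * q ^ 2) * Mt S t - 1 / 2 * (1 - 1.6 * q ^ 2) * pt S A0 t := by ring
    rw [e3]
    linarith
  rw [← Finset.mul_sum] at h6
  obtain ⟨P, hP⟩ : ∃ P, P = ∑ t ∈ FS S, pt S A0 t := ⟨_, rfl⟩
  rw [← hP] at h6 ⊢
  have hq2 : 0.996 ≤ 1 - 1.6 * q ^ 2 := by norm_num; nlinarith
  have hX : 0 ≤ ε + q ^ 2 := by positivity
  rcases le_or_gt P 0 with hP0 | hP0
  · refine hP0.trans (by positivity)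
  · have e1 : 1 / 2 * 0.996 * P ≤ 1 / 2 * (1 - 1.6 * q ^ 2) * P := by
      apply mul_le_mul_of_nonneg_right _ hP0.le
      linarith
    have e2 : 2 * Real.pi * A0 / k0 ≤ 6.05 * A0 := by
      rw [div_le_iff₀ hk0]
      have e3 : 2 * Real.pi ≤ 6.05 * k0 := by norm_num at hk hpi2 ⊢; linarith
      nlinarith
    have e4 : ε + 1.6 * q ^ 2 ≤ 1.6 * (ε + q ^ 2) := by nlinarith
    have e5 : 2 * Real.pi * A0 / k0 * (ε + 1.6 * q ^ 2) ≤ 6.05 * A0 * (1.6 * (ε + q ^ 2)) := by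
      apply mul_le_mul e2 e4
      · have := sq_nonneg q; norm_num; nlinarith
      · positivity
    have e6 : 1 / 2 * 0.996 * P ≤ 6.05 * A0 * (1.6 * (ε + q ^ 2)) := e1.trans (h6.trans e5)
    have e7 : 0 ≤ A0 * (ε + q ^ 2) := by positivity
    norm_num at e6 ⊢
    nlinarith

end Pool.Agent.Helper320.Gold.NA5
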