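import Mathlib
import Pool.Agent.Helper320.GBase

set_option autoImplicit false
open Set

namespace Pool.Agent.Helper320.Gold.NCAP

open Pool.Agent.Helper320.Gold

section capaux
open MeasureTheory

/-- area of a disc in `Fin 2 → ℝ` -/
theorem vol_disc (s : ℝ) : (volume : Measure (Fin 2 → ℝ)) {w | w 0 ^ 2 + w 1 ^ 2 ≤ s} = ENNReal.ofReal (Real.pi * s) := by
  rcases lt_or_ge s 0 with hs | hs
  · have : {w : Fin 2 → ℝ | w 0 ^ 2 + w 1 ^ 2 ≤ s} = ∅ := by
      ext w; simp only [Set.mem_ofPred_eq, mem_empty_iff_false, iff_false, not_le]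
      nlinarith [sq_nonneg (w 0), sq_nonneg (w 1)]
    rw [this, measure_empty, ENNReal.ofReal_of_nonpos]
    nlinarith [Real.pi_pos]
  · have hmp := PiLp.volume_preserving_toLp (Fin 2)
    have h1 : {w : Fin 2 → ℝ | w 0 ^ 2 + w 1 ^ 2 ≤ s} = (WithLp.toLp 2) ⁻¹' (Metric.closedBall (0 : EuclideanSpace ℝ (Fin 2)) (Real.sqrt s)) := by
      ext w
      simp only [Set.mem_ofPred_eq, mem_preimage, Metric.mem_closedBall, dist_zero_right, EuclideanSpace.norm_eq, Fin.sum_univ_two, Real.norm_eq_abs, sq_abs]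
      rw [Real.sqrt_le_sqrt_iff hs]
    rw [h1, hmp.measure_preimage (Metric.isClosed_closedBall.measurableSet.nullMeasurableSet), EuclideanSpace.volume_closedBall_fin_two,
      ← ENNReal.ofReal_pow (Real.sqrt_nonneg s), Real.sq_sqrt hs, ← ENNReal.ofReal_mul hs, mul_comm]

theorem integral_min {c : ℝ} (hc0 : 0 < c) (hc1 : c ≤ 1) :
    ∫ z in (0:ℝ)..1, Real.pi * min (1 - z ^ 2) (z ^ 2 * ((1 - c ^ 2) / c ^ 2)) = 2 * Real.pi / 3 * (1 - c) := by
  have hcont : Continuous (fun z : ℝ => Real.pi * min (1 - z ^ 2) (z ^ 2 * ((1 - c ^ 2) / c ^ 2))) := by fun_prop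
  rw [← intervalIntegral.integral_add_adjacent_intervals (b := c) (hcont.intervalIntegrable _ _) (hcont.intervalIntegrable _ _)]
  have e1 : ∫ z in (0:ℝ)..c, Real.pi * min (1 - z ^ 2) (z ^ 2 * ((1 - c ^ 2) / c ^ 2)) = ∫ z in (0:ℝ)..c, (Real.pi * ((1 - c ^ 2) / c ^ 2)) * z ^ 2 := by
    apply intervalIntegral.integral_congr
    intro z hz
    rw [uIcc_of_le hc0.le] at hz
    simp only
    have : z ^ 2 * ((1 - c ^ 2) / c ^ 2) ≤ 1 - z ^ 2 := by
      rw [mul_div_assoc', div_le_iff₀ (by positivity)]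
      nlinarith [pow_le_pow_left₀ hz.1 hz.2 2]
    rw [min_eq_right this]; ring
  have e2 : ∫ z in c..(1:ℝ), Real.pi * min (1 - z ^ 2) (z ^ 2 * ((1 - c ^ 2) / c ^ 2)) = ∫ z in c..(1:ℝ), (Real.pi - Real.pi * z ^ 2) := by
    apply intervalIntegral.integral_congr
    intro z hz
    rw [uIcc_of_le hc1] at hz
    simp only
    have : 1 - z ^ 2 ≤ z ^ 2 * ((1 - c ^ 2) / c ^ 2) := by
      rw [mul_div_assoc', le_div_iff₀ (by positivity)]
      nlinarith [pow_le_pow_left₀ hc0.le hz.1 2]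
    rw [min_eq_left this]; ring
  rw [e1, e2, intervalIntegral.integral_const_mul, integral_pow, intervalIntegral.integral_sub (by simp) (by apply Continuous.intervalIntegrable; fun_prop), intervalIntegral.integral_const_mul, integral_pow]
  simp only [intervalIntegral.integral_const, smul_eq_mul]
  field_simp
  ring

/-- the cap in coordinates -/
theorem vol_coord {c : ℝ} (hc0 : 0 < c) (hc1 : c ≤ 1) :
    (volume : Measure (ℝ × (Fin 2 → ℝ))) {q | q.1 ^ 2 + (q.2 0 ^ 2 + q.2 1 ^ 2) ≤ 1 ∧ c ^ 2 * (q.1 ^ 2 + (q.2 0 ^ 2 + q.2 1 ^ 2)) ≤ q.1 ^ 2 ∧ 0 ≤ q.1} =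
      ENNReal.ofReal (2 * Real.pi / 3 * (1 - c)) := by
  have hmeas : MeasurableSet {q : ℝ × (Fin 2 → ℝ) | q.1 ^ 2 + (q.2 0 ^ 2 + q.2 1 ^ 2) ≤ 1 ∧ c ^ 2 * (q.1 ^ 2 + (q.2 0 ^ 2 + q.2 1 ^ 2)) ≤ q.1 ^ 2 ∧ 0 ≤ q.1} := by
    apply IsClosed.measurableSet
    apply IsClosed.and
    · exact isClosed_le (by fun_prop) (by fun_prop)
    · apply IsClosed.and
      · exact isClosed_le (by fun_prop) (by fun_prop)
      · exact isClosed_le (by fun_prop) (by fun_prop)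
  rw [Measure.volume_eq_prod, Measure.prod_apply hmeas]
  have key : ∀ z : ℝ, (volume : Measure (Fin 2 → ℝ)) (Prod.mk z ⁻¹' {q : ℝ × (Fin 2 → ℝ) | q.1 ^ 2 + (q.2 0 ^ 2 + q.2 1 ^ 2) ≤ 1 ∧ c ^ 2 * (q.1 ^ 2 + (q.2 0 ^ 2 + q.2 1 ^ 2)) ≤ q.1 ^ 2 ∧ 0 ≤ q.1}) =
      (Icc (0:ℝ) 1).indicator (fun z => ENNReal.ofReal (Real.pi * min (1 - z ^ 2) (z ^ 2 * ((1 - c ^ 2) / c ^ 2)))) z := by
    intro z
    by_cases hz : z ∈ Icc (0:ℝ) 1
    · rw [indicator_of_mem hz, ← vol_disc]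
      congr 1
      ext w
      simp only [mem_preimage, Set.mem_ofPred_eq, le_min_iff]
      rw [mul_div_assoc', le_div_iff₀ (by positivity)]
      constructor
      · rintro ⟨a1, a2, a3⟩
        exact ⟨by linarith, by nlinarith⟩
      · rintro ⟨a1, a2⟩
        exact ⟨by linarith, by nlinarith, hz.1⟩
    · rw [indicator_of_notMem hz]
      have : Prod.mk z ⁻¹' {q : ℝ × (Fin 2 → ℝ) | q.1 ^ 2 + (q.2 0 ^ 2 + q.2 1 ^ 2) ≤ 1 ∧ c ^ 2 * (q.1 ^ 2 + (q.2 0 ^ 2 + q.2 1 ^ 2)) ≤ q.1 ^ 2 ∧ 0 ≤ q.1} = ∅ := by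
        ext w
        simp only [mem_preimage, Set.mem_ofPred_eq, mem_empty_iff_false, iff_false]
        rintro ⟨a1, a2, a3⟩
        apply hz
        refine ⟨a3, ?_⟩
        nlinarith [sq_nonneg (w 0), sq_nonneg (w 1)]
      rw [this, measure_empty]
  simp_rw [key]
  rw [lintegral_indicator measurableSet_Icc, Measure.restrict_congr_set Ioc_ae_eq_Icc.symm, ← integral_min hc0 hc1, intervalIntegral.integral_of_le (by norm_num), ofReal_integral_eq_lintegral_ofReal]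
  · have hcont : Continuous (fun z : ℝ => Real.pi * min (1 - z ^ 2) (z ^ 2 * ((1 - c ^ 2) / c ^ 2))) := by fun_prop
    exact (hcont.integrableOn_Icc (a := 0) (b := 1)).mono_set Ioc_subset_Icc_self
  · rw [Filter.EventuallyLE, ae_restrict_iff' measurableSet_Ioc]
    apply ae_of_all
    intro z hz
    simp only [Pi.zero_apply]
    apply mul_nonneg Real.pi_pos.le
    apply le_min
    · nlinarith [hz.1, hz.2]
    · apply mul_nonneg (sq_nonneg z)
      apply div_nonneg _ (by positivity)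
      nlinarith

/-- the standard cap -/
theorem vol_std {c : ℝ} (hc0 : 0 < c) (hc1 : c ≤ 1) :
    (volume : Measure E3) {x | ‖x‖ ≤ 1 ∧ c * ‖x‖ ≤ x 0} = ENNReal.ofReal (2 * Real.pi / 3 * (1 - c)) := by
  have hcl : IsClosed {x : E3 | ‖x‖ ≤ 1 ∧ c * ‖x‖ ≤ x 0} := by
    apply IsClosed.and
    · exact isClosed_le (by fun_prop) (by fun_prop)
    · exact isClosed_le (by fun_prop) (by fun_prop)
  have hmp := PiLp.volume_preserving_toLp (Fin 3)
  rw [← hmp.measure_preimage hcl.measurableSet.nullMeasurableSet]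
  have hmp2 := volume_preserving_piFinSuccAbove (fun _ : Fin 3 => ℝ) 0
  rw [← vol_coord hc0 hc1, ← hmp2.measure_preimage_equiv]
  congr 1
  ext v
  simp only [mem_preimage, Set.mem_ofPred_eq, EuclideanSpace.norm_eq, Fin.sum_univ_three, Real.norm_eq_abs, sq_abs]
  have e1 : (MeasurableEquiv.piFinSuccAbove (fun _ : Fin 3 => ℝ) 0) v = (v 0, fun i => v (Fin.succAbove 0 i)) := rfl
  rw [e1]
  simp only
  have e2 : Fin.succAbove (0 : Fin 3) (0 : Fin 2) = 1 := rfl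
  have e3 : Fin.succAbove (0 : Fin 3) (1 : Fin 2) = 2 := rfl
  rw [e2, e3]
  have hN : 0 ≤ v 0 ^ 2 + v 1 ^ 2 + v 2 ^ 2 := by positivity
  have hs := Real.sq_sqrt hN
  have hs0 := Real.sqrt_nonneg (v 0 ^ 2 + v 1 ^ 2 + v 2 ^ 2)
  set s := Real.sqrt (v 0 ^ 2 + v 1 ^ 2 + v 2 ^ 2) with hsdef
  constructor
  · rintro ⟨a1, a2⟩
    have hv0 : 0 ≤ v 0 := le_trans (by positivity) a2
    refine ⟨?_, ?_, hv0⟩
    · rw [← add_assoc, ← hs]; nlinarith
    · rw [← add_assoc, ← hs, ← mul_pow]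
      exact pow_le_pow_left₀ (by positivity) a2 2
  · rintro ⟨a1, a2, a3⟩
    rw [← add_assoc, ← hs] at a1 a2
    refine ⟨?_, ?_⟩
    · exact (sq_le_one_iff₀ hs0).mp a1
    · rw [← mul_pow] at a2
      exact (pow_le_pow_iff_left₀ (by positivity) a3 (by norm_num)).mp a2


end capaux

theorem vol_cap {p : E3} (hp : ‖p‖ = 1) {κ : ℝ} (h0 : 0 ≤ κ) (h1 : κ ≤ 1) :
    MeasureTheory.volume (capS p κ) = ENNReal.ofReal (Real.pi * κ ^ 2 / 3) := by
  have hv : Orthonormal ℝ (({0} : Set (Fin 3)).domRestrict (fun _ : Fin 3 => p)) := by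
    constructor
    · intro i; exact hp
    · intro i j hij
      exact absurd (Subsingleton.elim i j) hij
  obtain ⟨b, hb⟩ := Orthonormal.exists_orthonormalBasis_extension_of_card_eq (𝕜 := ℝ) (E := E3) (ι := Fin 3) (by simp) (v := fun _ => p) (s := {0}) hv
  have hb0 : b 0 = p := hb 0 rfl
  have hmp := b.measurePreserving_repr
  have hc0 : 0 < 1 - κ ^ 2 / 2 := by nlinarith
  have hc1 : 1 - κ ^ 2 / 2 ≤ 1 := by nlinarith [sq_nonneg κ]
  have hpre : capS p κ = b.repr ⁻¹' {x : E3 | ‖x‖ ≤ 1 ∧ (1 - κ ^ 2 / 2) * ‖x‖ ≤ x 0} := by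
    ext x
    simp only [capS, mem_preimage, Set.mem_ofPred_eq, LinearIsometryEquiv.norm_map]
    rw [b.repr_apply_apply, hb0, real_inner_comm]
  have hcl : IsClosed {x : E3 | ‖x‖ ≤ 1 ∧ (1 - κ ^ 2 / 2) * ‖x‖ ≤ x 0} := by
    apply IsClosed.and
    · exact isClosed_le (by fun_prop) (by fun_prop)
    · exact isClosed_le (by fun_prop) (by fun_prop)
  rw [hpre, hmp.measure_preimage hcl.measurableSet.nullMeasurableSet, vol_std hc0 hc1]
  congr 1
  ring

theorem exists_far (P : Finset E3) (hP : P.card ≤ 12) (hu : ∀ x ∈ P, ‖x‖ = 1) :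
    ∃ p : E3, ‖p‖ = 1 ∧ ∀ x ∈ P, 0.5773 ≤ ‖x - p‖ := by
  by_contra hcon
  push Not at hcon
  have hcov : Metric.closedBall (0 : E3) 1 ⊆ ⋃ x ∈ P, capS x 0.5773 := by
    intro y hy
    rw [mem_closedBall_zero_iff] at hy
    simp only [mem_iUnion, exists_prop]
    by_cases hy0 : y = 0
    · obtain ⟨x, hx, -⟩ := hcon (EuclideanSpace.single 0 1) (by simp)
      refine ⟨x, hx, ?_⟩
      subst hy0
      simp [capS]
    · have hny : 0 < ‖y‖ := norm_pos_iff.mpr hy0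
      obtain ⟨x, hx, hlt⟩ := hcon (‖y‖⁻¹ • y) (by rw [norm_smul, norm_inv, norm_norm, inv_mul_cancel₀ hny.ne'])
      refine ⟨x, hx, hy, ?_⟩
      have hx1 := hu x hx
      have hsq : ‖x - ‖y‖⁻¹ • y‖ ^ 2 < 0.5773 ^ 2 := pow_lt_pow_left₀ hlt (norm_nonneg _) (by norm_num)
      rw [norm_sub_sq_real, hx1, norm_smul, norm_inv, norm_norm, inv_mul_cancel₀ hny.ne', inner_smul_right, real_inner_comm] at hsq
      have h2 : 1 - 0.5773 ^ 2 / 2 < ‖y‖⁻¹ * inner ℝ y x := by nlinarith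
      have h3 : (1 - 0.5773 ^ 2 / 2) * ‖y‖ < (‖y‖⁻¹ * inner ℝ y x) * ‖y‖ := mul_lt_mul_of_pos_right h2 hny
      have h4 : (‖y‖⁻¹ * inner ℝ y x) * ‖y‖ = inner ℝ y x := by field_simp
      rw [h4] at h3
      exact h3.le
  have hle := MeasureTheory.measure_mono (μ := (MeasureTheory.volume : MeasureTheory.Measure E3)) hcov
  have hle2 := hle.trans (MeasureTheory.measure_biUnion_finset_le P _)
  have h5 : ∑ x ∈ P, (MeasureTheory.volume : MeasureTheory.Measure E3) (capS x 0.5773) = ∑ x ∈ P, ENNReal.ofReal (Real.pi * 0.5773 ^ 2 / 3) :=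
    Finset.sum_congr rfl (fun x hx => vol_cap (hu x hx) (by norm_num) (by norm_num))
  rw [h5, Finset.sum_const, EuclideanSpace.volume_closedBall_fin_three, nsmul_eq_mul] at hle2
  have h6 : ((P.card : ℕ) : ENNReal) * ENNReal.ofReal (Real.pi * 0.5773 ^ 2 / 3) ≤ ENNReal.ofReal (12 * (Real.pi * 0.5773 ^ 2 / 3)) := by
    rw [ENNReal.ofReal_mul (by norm_num)]
    apply mul_le_mul_left
    have : (12 : ENNReal) = ((12 : ℕ) : ENNReal) := by norm_num
    rw [show ENNReal.ofReal (12:ℝ) = ((12:ℕ) : ENNReal) by simp]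
    exact_mod_cast hP
  have h7 := hle2.trans h6
  rw [ENNReal.ofReal_one, one_pow, one_mul, ENNReal.ofReal_le_ofReal_iff (by positivity)] at h7
  have hpi := Real.pi_pos
  nlinarith

end Pool.Agent.Helper320.Gold.NCAP
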