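import Mathlib
import Pool.Agent.Helper320.GBaseA
import Pool.Agent.Helper320.GA1
import Pool.Agent.Helper320.GA4
import Pool.Agent.Helper320.GA5
import Pool.Agent.Helper320.GCAP
import Pool.Agent.Helper320.GFV
import Pool.Agent.Helper320.GEU

set_option autoImplicit false
open Set

namespace Pool.Agent.Helper320.Gold.NA6

open Pool.Agent.Helper320.Gold Pool.Agent.Helper320.Gold.NA1 Pool.Agent.Helper320.Gold.NA4 Pool.Agent.Helper320.Gold.NA5 Pool.Agent.Helper320.Gold.NCAP Pool.Agent.Helper320.Gold.NFV Pool.Agent.Helper320.Gold.NEU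

/-! helper lemmas -/

theorem ball_vol : MeasureTheory.volume (Metric.closedBall (0 : E3) 1) =
    ENNReal.ofReal (4 * Real.pi / 3) := by
  rw [EuclideanSpace.volume_closedBall_fin_three]
  rw [ENNReal.ofReal_one, one_pow, one_mul]
  congr 1
  ring

theorem unit_inner {y z : E3} (hy : ‖y‖ = 1) (hz : ‖z‖ = 1) :
    inner ℝ y z = 1 - ‖y - z‖ ^ 2 / 2 := by
  rw [norm_sub_sq_real, hy, hz]
  ring

theorem norm_normalize {x : E3} (hx : x ≠ 0) : ‖(‖x‖⁻¹ • x)‖ = 1 := by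
  rw [norm_smul, norm_inv, norm_norm, inv_mul_cancel₀ (norm_ne_zero_iff.mpr hx)]

theorem smul_normalize {x : E3} (hx : x ≠ 0) : x = ‖x‖ • (‖x‖⁻¹ • x) := by
  rw [smul_smul, mul_inv_cancel₀ (norm_ne_zero_iff.mpr hx), one_smul]

/-- the cap condition in terms of the direction -/
theorem cap_iff {x p : E3} (hx : x ≠ 0) (hp : ‖p‖ = 1) {κ : ℝ} (hκ : 0 ≤ κ) :
    (1 - κ ^ 2 / 2) * ‖x‖ ≤ inner ℝ x p ↔ ‖(‖x‖⁻¹ • x) - p‖ ≤ κ := by
  have h0 : 0 < ‖x‖ := norm_pos_iff.mpr hx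
  have h1 := unit_inner (norm_normalize hx) hp
  rw [real_inner_smul_left] at h1
  have h2 : inner ℝ x p = ‖x‖ * (1 - ‖(‖x‖⁻¹ • x) - p‖ ^ 2 / 2) := by
    rw [← h1]
    field_simp
  rw [h2, mul_comm, mul_le_mul_iff_right₀ h0]
  constructor
  · intro h
    have h3 : ‖(‖x‖⁻¹ • x) - p‖ ^ 2 ≤ κ ^ 2 := by linarith
    exact le_of_sq_le_sq h3 hκ
  · intro h
    have h3 : ‖(‖x‖⁻¹ • x) - p‖ ^ 2 ≤ κ ^ 2 := pow_le_pow_left₀ (norm_nonneg _) h 2
    linarith

theorem cone_smul {u v w x : E3} (hx : x ∈ cone3 u v w) {c : ℝ} (hc : 0 ≤ c) :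
    c • x ∈ cone3 u v w := by
  obtain ⟨r, s, t, hr, hs, ht, rfl⟩ := hx
  exact ⟨c * r, c * s, c * t, mul_nonneg hc hr, mul_nonneg hc hs, mul_nonneg hc ht, by
    simp only [smul_add, smul_smul]⟩

theorem ball_sub_polar {S : Finset E3} (hS : Good S) : Metric.closedBall (0 : E3) 1 ⊆ polar S := by
  intro x hx u hu
  rw [mem_closedBall_zero_iff] at hx
  have h1 := real_inner_le_norm x u
  rw [hS.unit u hu, mul_one] at h1
  linarith

theorem polar_ne_top {S : Finset E3} (hS : Good S) : MeasureTheory.volume (polar S) ≠ ⊤ := by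
  intro h
  have h1 := (sum_fan hS).2.2.1
  rw [h, ENNReal.toReal_top] at h1
  have := Real.pi_pos
  linarith

theorem capS_closed (p : E3) (κ : ℝ) : IsClosed (capS p κ) := by
  apply IsClosed.inter
  · exact isClosed_le continuous_norm continuous_const
  · exact isClosed_le (continuous_const.mul continuous_norm)
      (continuous_id.inner continuous_const)

open scoped Pointwise in
theorem R1_spec {S : Finset E3} (hS : Good S) {z : E3} (hz : ‖z‖ = 1) {r : ℝ} (hr : 0 ≤ r)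
    (hr1 : r ≤ 1) (hh : ∀ x ∈ S, r ≤ ‖z - x‖) :
    ∃ R : Set E3, MeasurableSet R ∧ R ⊆ polar S ∧ Disjoint R (Metric.closedBall 0 1) ∧
      ENNReal.ofReal (Real.pi * r ^ 4 / 32) ≤ MeasureTheory.volume R ∧
      ∀ x ∈ R, x ≠ 0 ∧ ‖(‖x‖⁻¹ • x) - z‖ ≤ r / 2 := by
  set δ : ℝ := r ^ 2 / 8 with hδ
  have hδ0 : 0 ≤ δ := by positivity
  have hδ1 : δ ≤ 1 / 8 := by
    rw [hδ]; nlinarith
  set K : Set E3 := {x | ‖x‖ ≤ 1 + δ ∧ (1 - (r / 2) ^ 2 / 2) * ‖x‖ ≤ inner ℝ x z} with hK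
  have hKclosed : IsClosed K := by
    apply IsClosed.inter
    · exact isClosed_le continuous_norm continuous_const
    · exact isClosed_le (continuous_const.mul continuous_norm)
        (continuous_id.inner continuous_const)
  have hKsmul : K = (1 + δ) • capS z (r / 2) := by
    ext x
    rw [Set.mem_smul_set]
    constructor
    · rintro ⟨h1, h2⟩
      refine ⟨(1 + δ)⁻¹ • x, ⟨?_, ?_⟩, ?_⟩
      · rw [norm_smul, norm_inv, Real.norm_eq_abs, abs_of_nonneg (by linarith),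
          inv_mul_le_iff₀ (by linarith), mul_one]
        exact h1
      · rw [norm_smul, norm_inv, Real.norm_eq_abs, abs_of_nonneg (show (0:ℝ) ≤ 1 + δ by linarith),
          real_inner_smul_left]
        have h3 : 0 ≤ (1 + δ)⁻¹ := by positivity
        calc (1 - (r / 2) ^ 2 / 2) * ((1 + δ)⁻¹ * ‖x‖) = (1 + δ)⁻¹ * ((1 - (r / 2) ^ 2 / 2) * ‖x‖) := by ring
          _ ≤ _ := mul_le_mul_of_nonneg_left h2 h3
      · rw [smul_smul, mul_inv_cancel₀ (by positivity), one_smul]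
    · rintro ⟨y, ⟨h1, h2⟩, rfl⟩
      refine ⟨?_, ?_⟩
      · rw [norm_smul, Real.norm_eq_abs, abs_of_nonneg (by linarith)]
        nlinarith
      · rw [norm_smul, Real.norm_eq_abs, abs_of_nonneg (by linarith), real_inner_smul_left]
        calc (1 - (r / 2) ^ 2 / 2) * ((1 + δ) * ‖y‖) = (1 + δ) * ((1 - (r / 2) ^ 2 / 2) * ‖y‖) := by ring
          _ ≤ _ := mul_le_mul_of_nonneg_left h2 (by linarith)
  have hcapvol := vol_cap hz (κ := r / 2) (by linarith) (by linarith)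
  have hKvol : MeasureTheory.volume K =
      ENNReal.ofReal ((1 + δ) ^ 3 * (Real.pi * (r / 2) ^ 2 / 3)) := by
    rw [hKsmul, MeasureTheory.Measure.addHaar_smul, hcapvol, finrank_euclideanSpace,
      Fintype.card_fin, abs_of_nonneg (by positivity), ← ENNReal.ofReal_mul (by positivity)]
  have hKball : K ∩ Metric.closedBall 0 1 = capS z (r / 2) := by
    ext x
    constructor
    · rintro ⟨⟨h1, h2⟩, h3⟩
      rw [mem_closedBall_zero_iff] at h3
      exact ⟨h3, h2⟩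
    · rintro ⟨h1, h2⟩
      refine ⟨⟨by linarith, h2⟩, ?_⟩
      rw [mem_closedBall_zero_iff]
      exact h1
  have hball : MeasurableSet (Metric.closedBall (0 : E3) 1) := Metric.isClosed_closedBall.measurableSet
  refine ⟨K \ Metric.closedBall 0 1, hKclosed.measurableSet.diff hball, ?_, disjoint_sdiff_left, ?_, ?_⟩
  · rintro x ⟨⟨h1, h2⟩, h3⟩ u hu
    have hx0 : x ≠ 0 := by
      rintro rfl
      apply h3
      simp
    rw [cap_iff hx0 hz (by linarith)] at h2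
    have hxn : 0 < ‖x‖ := norm_pos_iff.mpr hx0
    have h4 : r / 2 ≤ ‖(‖x‖⁻¹ • x) - u‖ := by
      have h5 := hh u hu
      have h6 : ‖z - u‖ ≤ ‖(‖x‖⁻¹ • x) - z‖ + ‖(‖x‖⁻¹ • x) - u‖ := by
        calc ‖z - u‖ = ‖-((‖x‖⁻¹ • x) - z) + ((‖x‖⁻¹ • x) - u)‖ := by congr 1; abel
          _ ≤ ‖-((‖x‖⁻¹ • x) - z)‖ + ‖(‖x‖⁻¹ • x) - u‖ := norm_add_le _ _
          _ = _ := by rw [norm_neg]
      linarith
    have h7 := unit_inner (norm_normalize hx0) (hS.unit u hu)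
    rw [real_inner_smul_left] at h7
    have h8 : inner ℝ x u = ‖x‖ * (1 - ‖(‖x‖⁻¹ • x) - u‖ ^ 2 / 2) := by
      rw [← h7]
      field_simp
    have h9 : (r / 2) ^ 2 ≤ ‖(‖x‖⁻¹ • x) - u‖ ^ 2 := pow_le_pow_left₀ (by linarith) h4 2
    rw [h8]
    have h10 : 1 - ‖(‖x‖⁻¹ • x) - u‖ ^ 2 / 2 ≤ 1 - δ := by
      rw [hδ]; nlinarith
    calc ‖x‖ * (1 - ‖(‖x‖⁻¹ • x) - u‖ ^ 2 / 2) ≤ ‖x‖ * (1 - δ) :=
          mul_le_mul_of_nonneg_left h10 hxn.le
      _ ≤ (1 + δ) * (1 - δ) := mul_le_mul_of_nonneg_right h1 (by linarith)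
      _ ≤ 1 := by nlinarith
  · have h1 := MeasureTheory.measure_inter_add_sdiff (μ := MeasureTheory.volume) K hball
    rw [hKball, hcapvol, hKvol] at h1
    have h2 : MeasureTheory.volume (K \ Metric.closedBall 0 1) =
        ENNReal.ofReal ((1 + δ) ^ 3 * (Real.pi * (r / 2) ^ 2 / 3)) -
          ENNReal.ofReal (Real.pi * (r / 2) ^ 2 / 3) := by
      rw [← h1, ENNReal.add_sub_cancel_left ENNReal.ofReal_ne_top]
    rw [h2, ← ENNReal.ofReal_sub _ (by have := Real.pi_pos; positivity)]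
    apply ENNReal.ofReal_le_ofReal
    have h3 : 3 * δ ≤ (1 + δ) ^ 3 - 1 := by
      have : (1 + δ) ^ 3 - 1 = 3 * δ + 3 * δ ^ 2 + δ ^ 3 := by ring
      rw [this]
      have : 0 ≤ 3 * δ ^ 2 + δ ^ 3 := by positivity
      linarith
    have h4 : 0 ≤ Real.pi * (r / 2) ^ 2 / 3 := by have := Real.pi_pos; positivity
    calc Real.pi * r ^ 4 / 32 = 3 * δ * (Real.pi * (r / 2) ^ 2 / 3) := by rw [hδ]; ring
      _ ≤ ((1 + δ) ^ 3 - 1) * (Real.pi * (r / 2) ^ 2 / 3) := mul_le_mul_of_nonneg_right h3 h4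
      _ = _ := by ring
  · rintro x ⟨⟨h1, h2⟩, h3⟩
    have hx0 : x ≠ 0 := by
      rintro rfl
      apply h3
      simp
    exact ⟨hx0, (cap_iff hx0 hz (by linarith)).mp h2⟩

theorem holeA_crude {S : Finset E3} (hS : Good S) {z : E3} (hz : ‖z‖ = 1) {r : ℝ} (hr : 0 ≤ r)
    (hr1 : r ≤ 1) (hh : ∀ x ∈ S, r ≤ ‖z - x‖) :
    Real.pi * r ^ 4 / 32 ≤ (MeasureTheory.volume (polar S)).toReal - 4 * Real.pi / 3 := by
  obtain ⟨R, hRm, hRp, hRd, hRv, -⟩ := R1_spec hS hz hr hr1 hh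
  have hball : MeasurableSet (Metric.closedBall (0 : E3) 1) := Metric.isClosed_closedBall.measurableSet
  have h1 := MeasureTheory.measure_inter_add_sdiff (μ := MeasureTheory.volume) (polar S) hball
  rw [Set.inter_eq_self_of_subset_right (ball_sub_polar hS), ball_vol] at h1
  have h2 : MeasureTheory.volume R ≤ MeasureTheory.volume (polar S \ Metric.closedBall 0 1) := by
    apply MeasureTheory.measure_mono
    intro x hx
    exact ⟨hRp hx, Set.disjoint_left.mp hRd hx⟩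
  have hpi := Real.pi_pos
  have h3 : ENNReal.ofReal (4 * Real.pi / 3 + Real.pi * r ^ 4 / 32) ≤ MeasureTheory.volume (polar S) := by
    rw [← h1, ENNReal.ofReal_add (by positivity) (by positivity)]
    exact add_le_add (le_refl _) (hRv.trans h2)
  have h4 := (ENNReal.ofReal_le_iff_le_toReal (polar_ne_top hS)).mp h3
  linarith

theorem Ar_vol {S : Finset E3} (hS : Good S) {t : E3 × E3 × E3} (ht : t ∈ FS S) :
    MeasureTheory.volume (cone3 t.1 (vb S t) (va t) ∩ polar S) = ENNReal.ofReal (Ar S t / 3) := by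
  rw [polar_cone hS ht, vol_tetra, abs_of_pos (fan_spec hS ht).2.2.2.2.2.2]
  congr 1
  unfold Ar
  ring

theorem vW_vol {S : Finset E3} (t : E3 × E3 × E3) :
    MeasureTheory.volume (cone3 t.1 (vb S t) (va t) ∩ Metric.closedBall 0 1) ≠ ⊤ := by
  apply ne_top_of_le_ne_top _ (MeasureTheory.measure_mono Set.inter_subset_right)
  rw [ball_vol]
  exact ENNReal.ofReal_ne_top

theorem cone_R {S : Finset E3} (hS : Good S) {t : E3 × E3 × E3} (ht : t ∈ FS S) {R : Set E3}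
    (hRp : R ⊆ polar S) (hRd : Disjoint R (Metric.closedBall 0 1)) :
    MeasureTheory.volume (cone3 t.1 (vb S t) (va t) ∩ R) ≤ ENNReal.ofReal (Ar S t / 3 - vW S t) := by
  have hball : MeasurableSet (Metric.closedBall (0 : E3) 1) := Metric.isClosed_closedBall.measurableSet
  have h1 := MeasureTheory.measure_inter_add_sdiff (μ := MeasureTheory.volume)
    (cone3 t.1 (vb S t) (va t) ∩ polar S) hball
  rw [Ar_vol hS ht, Set.inter_assoc,
    Set.inter_eq_self_of_subset_right (ball_sub_polar hS)] at h1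
  have h2 : MeasureTheory.volume (cone3 t.1 (vb S t) (va t) ∩ R) ≤
      MeasureTheory.volume ((cone3 t.1 (vb S t) (va t) ∩ polar S) \ Metric.closedBall 0 1) := by
    apply MeasureTheory.measure_mono
    rintro x ⟨hx1, hx2⟩
    exact ⟨⟨hx1, hRp hx2⟩, Set.disjoint_left.mp hRd hx2⟩
  have h3 : ENNReal.ofReal (vW S t) =
      MeasureTheory.volume (cone3 t.1 (vb S t) (va t) ∩ Metric.closedBall 0 1) :=
    ENNReal.ofReal_toReal (vW_vol t)
  refine h2.trans (le_of_eq ?_)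
  rw [ENNReal.ofReal_sub _ (show 0 ≤ vW S t from ENNReal.toReal_nonneg), h3, ← h1,
    ENNReal.add_sub_cancel_left (vW_vol t)]

theorem sum_vW_le {S : Finset E3} (hS : Good S) {U : Finset (E3 × E3 × E3)} (hU : U ⊆ FS S)
    {p : E3} (hp : ‖p‖ = 1) {κ : ℝ} (h0 : 0 ≤ κ) (h1 : κ ≤ 1)
    (hy : ∀ t ∈ U, ∀ y ∈ cone3 t.1 (vb S t) (va t), ‖y‖ = 1 → ‖y - p‖ ≤ κ) :
    ∑ t ∈ U, vW S t ≤ Real.pi * κ ^ 2 / 3 := by
  unfold vW
  rw [← ENNReal.toReal_sum (fun t _ => vW_vol t)]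
  apply ENNReal.toReal_le_of_le_ofReal (by have := Real.pi_pos; positivity)
  calc ∑ t ∈ U, MeasureTheory.volume (cone3 t.1 (vb S t) (va t) ∩ Metric.closedBall 0 1)
      ≤ ∑ t ∈ U, MeasureTheory.volume (cone3 t.1 (vb S t) (va t) ∩ capS p κ) := by
        apply Finset.sum_le_sum
        intro t ht
        apply MeasureTheory.measure_mono
        rintro x ⟨hx1, hx2⟩
        rw [mem_closedBall_zero_iff] at hx2
        refine ⟨hx1, hx2, ?_⟩
        by_cases hx0 : x = 0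
        · subst hx0; simp
        · rw [cap_iff hx0 hp h0]
          exact hy t ht _ (cone_smul hx1 (by positivity)) (norm_normalize hx0)
    _ ≤ ∑ t ∈ FS S, MeasureTheory.volume (cone3 t.1 (vb S t) (va t) ∩ capS p κ) :=
        Finset.sum_le_sum_of_subset hU
    _ = MeasureTheory.volume (capS p κ) := fan_tile hS _ (capS_closed p κ).measurableSet
    _ = ENNReal.ofReal (Real.pi * κ ^ 2 / 3) := vol_cap hp h0 h1

theorem k0_low : (1.0392 : ℝ) < k0 := by
  unfold k0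
  have h : (1.732 : ℝ) < √3 := by
    rw [show (1.732:ℝ) = √(1.732^2) by rw [Real.sqrt_sq (by norm_num)]]
    exact Real.sqrt_lt_sqrt (by norm_num) (by norm_num)
  norm_num at h ⊢
  linarith

theorem sum_Ar_le {S : Finset E3} (hS : Good S) {q : ℝ} (hq : q ≤ 1 / 20) (hq0 : 0 ≤ q)
    (hcov : ∀ a : E3, ‖a‖ = 1 → ∃ x ∈ S, ‖a - x‖ ≤ q)
    {U : Finset (E3 × E3 × E3)} (hU : U ⊆ FS S)
    {p : E3} (hp : ‖p‖ = 1) {κ : ℝ} (h0 : 0 ≤ κ) (h1 : κ ≤ 1)
    (hy : ∀ t ∈ U, ∀ y ∈ cone3 t.1 (vb S t) (va t), ‖y‖ = 1 → ‖y - p‖ ≤ κ) :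
    (1 - 2 * q ^ 2) * ∑ t ∈ U, Ar S t ≤ Real.pi * κ ^ 2 := by
  have h2 : (1 - 2 * q ^ 2) * ∑ t ∈ U, Ar S t ≤ 3 * ∑ t ∈ U, vW S t := by
    rw [Finset.mul_sum, Finset.mul_sum]
    apply Finset.sum_le_sum
    intro t ht
    have := (fan_vol hS hq hq0 hcov (hU ht)).2.1
    linarith
  have h3 := sum_vW_le hS hU hp h0 h1 hy
  linarith

theorem pt_low {S : Finset E3} (hS : Good S) {A0 : ℝ} (hA : 0 < A0) {t : E3 × E3 × E3}
    (ht : t ∈ FS S) : 1e-3 * (Ar S t - A0) ^ 2 ≤ pt S A0 t := by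
  obtain ⟨h1, h2, h3, h4, h5, h6, h7⟩ := fan_shape hS ht
  rw [h6]
  exact penA_bound hA h2 h3 h4 h5

theorem dev {S : Finset E3} (hS : Good S) {q : ℝ} (hq : q ≤ 1 / 20) (hq0 : 0 ≤ q)
    (hcov : ∀ a : E3, ‖a‖ = 1 → ∃ x ∈ S, ‖a - x‖ ≤ q) {A0 ε : ℝ} (hA : 0 < A0) (hε : 0 ≤ ε)
    (hAn : 6 * S.card * A0 = 4 * Real.pi)
    (hvol : (MeasureTheory.volume (polar S)).toReal ≤
      4 * Real.pi / 3 + 2 * Real.pi * A0 / k0 * (1 + ε)) {F : Finset (E3 × E3 × E3)}
    (hF : F ⊆ FS S) :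
    |∑ t ∈ F, Ar S t - F.card * A0| ≤ 600 * √(ε + q ^ 2) := by
  have heq : 0 ≤ ε + q ^ 2 := by positivity
  have h1 : ∑ t ∈ F, (Ar S t - A0) ^ 2 ≤ 25000 * A0 * (ε + q ^ 2) := by
    calc ∑ t ∈ F, (Ar S t - A0) ^ 2 ≤ ∑ t ∈ FS S, (Ar S t - A0) ^ 2 :=
          Finset.sum_le_sum_of_subset_of_nonneg hF (fun _ _ _ => sq_nonneg _)
      _ ≤ ∑ t ∈ FS S, 1000 * pt S A0 t := by
          apply Finset.sum_le_sum
          intro t ht
          have h := pt_low hS hA ht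
          norm_num at h
          linarith
      _ = 1000 * ∑ t ∈ FS S, pt S A0 t := by rw [Finset.mul_sum]
      _ ≤ _ := by
          have h := sum_penA hS hq hq0 hcov hA hε hAn hvol
          linarith
  have h2 : (∑ t ∈ F, (Ar S t - A0)) ^ 2 ≤ F.card * ∑ t ∈ F, (Ar S t - A0) ^ 2 :=
    sq_sum_le_card_mul_sum_sq
  have h3 : (F.card : ℝ) ≤ 6 * S.card := by
    have e1 := Finset.card_le_card hF
    have e2 := euler hS
    have e3 : F.card ≤ 6 * S.card := by omega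
    exact_mod_cast e3
  have h4 : (∑ t ∈ F, (Ar S t - A0)) ^ 2 ≤ 360000 * (ε + q ^ 2) := by
    calc (∑ t ∈ F, (Ar S t - A0)) ^ 2 ≤ F.card * (25000 * A0 * (ε + q ^ 2)) :=
          h2.trans (mul_le_mul_of_nonneg_left h1 (Nat.cast_nonneg _))
      _ ≤ 6 * S.card * (25000 * A0 * (ε + q ^ 2)) :=
          mul_le_mul_of_nonneg_right h3 (by positivity)
      _ = (6 * S.card * A0) * 25000 * (ε + q ^ 2) := by ring
      _ = 4 * Real.pi * 25000 * (ε + q ^ 2) := by rw [hAn]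
      _ ≤ 360000 * (ε + q ^ 2) := by
          apply mul_le_mul_of_nonneg_right _ heq
          have := Real.pi_lt_d2
          norm_num at this
          linarith
  have h5 : ∑ t ∈ F, (Ar S t - A0) = ∑ t ∈ F, Ar S t - F.card * A0 := by
    rw [Finset.sum_sub_distrib, Finset.sum_const, nsmul_eq_mul]
  rw [← h5]
  apply abs_le_of_sq_le_sq _ (by positivity)
  rw [mul_pow, Real.sq_sqrt heq]
  have h6 : (600:ℝ) ^ 2 = 360000 := by norm_num
  rw [h6]
  exact h4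

theorem FS_fst {S : Finset E3} {t : E3 × E3 × E3} (ht : t ∈ FS S) : t.1 ∈ S := by
  classical
  unfold FS at ht
  rw [Finset.mem_filter, Finset.mem_product] at ht
  exact ht.1.1

theorem card_F {S : Finset E3} {v : E3} {κ : ℝ}
    (h6 : ∀ w ∈ S, ‖w - v‖ < κ → ((FS S).filter (fun t => t.1 = w)).card = 6) :
    ((FS S).filter (fun t => ‖t.1 - v‖ < κ)).card = 6 * (S.filter (fun w => ‖w - v‖ < κ)).card := by
  rw [Finset.card_eq_sum_card_fiberwise (f := fun t : E3 × E3 × E3 => t.1)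
    (t := S.filter (fun w => ‖w - v‖ < κ))]
  · rw [mul_comm, ← smul_eq_mul, ← Finset.sum_const]
    apply Finset.sum_congr rfl
    intro w hw
    rw [Finset.mem_filter] at hw
    rw [← h6 w hw.1 hw.2]
    congr 1
    ext t
    simp only [Finset.mem_filter]
    constructor
    · rintro ⟨⟨h1, h2⟩, h3⟩
      exact ⟨h1, h3⟩
    · rintro ⟨h1, h3⟩
      refine ⟨⟨h1, ?_⟩, h3⟩
      rw [h3]
      exact hw.2
  · intro t ht
    have ht' := Finset.mem_filter.mp ht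
    exact Finset.mem_coe.mpr (Finset.mem_filter.mpr ⟨FS_fst ht'.1, ht'.2⟩)

theorem holeA_bound {S : Finset E3} (hS : Good S) {q : ℝ} (hq : q ≤ 1 / 20) (hq0 : 0 ≤ q)
    (hcov : ∀ a : E3, ‖a‖ = 1 → ∃ x ∈ S, ‖a - x‖ ≤ q) {z : E3} (hz : ‖z‖ = 1)
    (hh : ∀ x ∈ S, q ≤ ‖z - x‖) {A0 ε : ℝ} (hA : 0 < A0) (hε : 0 ≤ ε)
    (hAn : 6 * S.card * A0 = 4 * Real.pi)
    (hvol : (MeasureTheory.volume (polar S)).toReal ≤
      4 * Real.pi / 3 + 2 * Real.pi * A0 / k0 * (1 + ε)) :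
    q ^ 4 ≤ 70 * A0 * ε + 350 * A0 * q ^ 2 := by
  classical
  obtain ⟨R, hRm, hRp, hRd, hRv, hRx⟩ := R1_spec hS hz hq0 (by linarith) hh
  set U := (FS S).filter (fun t => ∃ y ∈ cone3 t.1 (vb S t) (va t), ‖y‖ = 1 ∧ ‖y - z‖ ≤ q / 2)
    with hU
  have hUs : U ⊆ FS S := Finset.filter_subset _ _
  have hpi := Real.pi_pos
  have hpi1 := Real.pi_gt_d4
  have hpi2 := Real.pi_lt_d4
  norm_num at hpi1 hpi2
  have hk0 := k0_low
  norm_num at hk0
  have hk0p : 0 < k0 := by linarith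
  have hq2 : q ^ 2 ≤ 1 / 400 := by nlinarith
  have hnear : ∀ t ∈ U, ∀ y ∈ cone3 t.1 (vb S t) (va t), ‖y‖ = 1 → ‖y - z‖ ≤ 2.5 * q := by
    intro t ht y hy hy1
    obtain ⟨htF, y', hy', hy1', hyz⟩ := Finset.mem_filter.mp ht
    obtain ⟨_, _, hn⟩ := fan_near hS hq hq0 hcov htF
    have e1 := hn y hy hy1
    have e2 := hn y' hy' hy1'
    calc ‖y - z‖ = ‖(y - t.1) - (y' - t.1) + (y' - z)‖ := by congr 1; abel
      _ ≤ ‖(y - t.1) - (y' - t.1)‖ + ‖y' - z‖ := norm_add_le _ _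
      _ ≤ ‖y - t.1‖ + ‖y' - t.1‖ + ‖y' - z‖ := by
          have := norm_sub_le (y - t.1) (y' - t.1)
          linarith
      _ ≤ _ := by norm_num; linarith
  have hArU := sum_Ar_le hS hq hq0 hcov hUs hz (κ := 2.5 * q) (by positivity)
    (by norm_num; linarith) hnear
  have hArpos : ∀ t ∈ FS S, 0 < Ar S t := fun t ht => (fan_shape hS ht).1
  have hArU0 : 0 ≤ ∑ t ∈ U, Ar S t := Finset.sum_nonneg (fun t ht => (hArpos t (hUs ht)).le)
  have hArU' : ∑ t ∈ U, Ar S t ≤ 20 * q ^ 2 := by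
    have e1 : (1 - 2 * (1 / 400)) * ∑ t ∈ U, Ar S t ≤ (1 - 2 * q ^ 2) * ∑ t ∈ U, Ar S t :=
      mul_le_mul_of_nonneg_right (by linarith) hArU0
    have e2 : Real.pi * (2.5 * q) ^ 2 ≤ 19.7 * q ^ 2 := by
      have : Real.pi * (2.5 * q) ^ 2 = (6.25 * Real.pi) * q ^ 2 := by ring
      rw [this]
      apply mul_le_mul_of_nonneg_right _ (sq_nonneg q)
      norm_num
      linarith
    norm_num at e1 e2 hArU ⊢
    nlinarith [sq_nonneg q]
  have hnn : ∀ t ∈ FS S, 0 ≤ Ar S t / 3 - vW S t := by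
    intro t ht
    obtain ⟨e1, _, e3⟩ := fan_vol hS hq hq0 hcov ht
    have e4 : 0 ≤ 1 / 2 * (1 - 1.6 * q ^ 2) * Mt S t := by
      apply mul_nonneg _ e3
      norm_num
      linarith
    linarith
  have hvolR : Real.pi * q ^ 4 / 32 ≤ ∑ t ∈ U, (Ar S t / 3 - vW S t) := by
    have e1 : ENNReal.ofReal (Real.pi * q ^ 4 / 32) ≤
        ENNReal.ofReal (∑ t ∈ U, (Ar S t / 3 - vW S t)) := by
      calc ENNReal.ofReal (Real.pi * q ^ 4 / 32) ≤ MeasureTheory.volume R := hRv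
        _ = ∑ t ∈ FS S, MeasureTheory.volume (cone3 t.1 (vb S t) (va t) ∩ R) :=
            (fan_tile hS R hRm).symm
        _ = ∑ t ∈ U, MeasureTheory.volume (cone3 t.1 (vb S t) (va t) ∩ R) := by
            refine (Finset.sum_subset hUs ?_).symm
            intro t ht htU
            have : cone3 t.1 (vb S t) (va t) ∩ R = ∅ := by
              rw [Set.eq_empty_iff_forall_notMem]
              rintro x ⟨hx1, hx2⟩
              apply htU
              obtain ⟨hx0, hxz⟩ := hRx x hx2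
              exact Finset.mem_filter.mpr ⟨ht, _, cone_smul hx1 (by positivity),
                norm_normalize hx0, hxz⟩
            rw [this, MeasureTheory.measure_empty]
        _ ≤ ∑ t ∈ U, ENNReal.ofReal (Ar S t / 3 - vW S t) :=
            Finset.sum_le_sum (fun t ht => cone_R hS (hUs ht) hRp hRd)
        _ = _ := (ENNReal.ofReal_sum_of_nonneg (fun t ht => hnn t (hUs ht))).symm
    exact (ENNReal.ofReal_le_ofReal_iff
      (Finset.sum_nonneg (fun t ht => hnn t (hUs ht)))).mp e1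
  have hsum := sum_defA hS hq hq0 hA hAn hvol
  set B : ℝ := A0 / k0 with hB
  have hB0 : 0 < B := div_pos hA hk0p
  have hBA : B ≤ 0.963 * A0 := by
    rw [hB, div_le_iff₀ hk0p]
    norm_num
    nlinarith
  set lin : E3 × E3 × E3 → ℝ := fun t => 1 / 2 * (1 - 1.6 * q ^ 2) *
      (2 * B * Ar S t - B ^ 2 * (k0 + 24 / 25 * (ang S t - Real.pi / 3))) with hlin
  have hs0 : ∀ t ∈ FS S, 0 ≤ Ar S t / 3 - vW S t - lin t := by
    intro t ht
    obtain ⟨_, _, _, _, _, _, h7⟩ := fan_shape hS ht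
    have e0 := pt_low hS hA ht
    have e1 := (fan_vol hS hq hq0 hcov ht).1
    have e2 := h7 A0
    have e3 : 0 ≤ pt S A0 t := le_trans (by positivity) e0
    have e4 : 0 ≤ 1 / 2 * (1 - 1.6 * q ^ 2) * pt S A0 t := by
      apply mul_nonneg _ e3
      norm_num
      linarith
    rw [e2, mul_sub, ← hB] at e4
    have e5 : lin t = 1 / 2 * (1 - 1.6 * q ^ 2) *
      (2 * B * Ar S t - B ^ 2 * (k0 + 24 / 25 * (ang S t - Real.pi / 3))) := rfl
    rw [e5]
    linarith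
  have hlinle : ∀ t ∈ FS S, lin t ≤ B * Ar S t := by
    intro t ht
    obtain ⟨h1, _, _, h4, _, _, _⟩ := fan_shape hS ht
    have e1 : 0 ≤ k0 + 24 / 25 * (ang S t - Real.pi / 3) := by
      linarith
    have e2 : 0 ≤ B ^ 2 * (k0 + 24 / 25 * (ang S t - Real.pi / 3)) := by positivity
    have e3 : 0 ≤ B * Ar S t := by positivity
    have e4 : 0 ≤ 1 - 1.6 * q ^ 2 := by norm_num; linarith
    have e5 : 0 ≤ 1.6 * q ^ 2 := by positivity
    have e6 : lin t = (1 - 1.6 * q ^ 2) * (B * Ar S t) -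
      1 / 2 * ((1 - 1.6 * q ^ 2) * (B ^ 2 * (k0 + 24 / 25 * (ang S t - Real.pi / 3)))) := by
      rw [hlin]; ring
    have e7 := mul_nonneg e4 e2
    have e8 := mul_nonneg e5 e3
    rw [e6]
    linarith
  have hmain : ∑ t ∈ U, (Ar S t / 3 - vW S t) ≤
      2 * Real.pi * A0 / k0 * (ε + 1.6 * q ^ 2) + B * (20 * q ^ 2) := by
    calc ∑ t ∈ U, (Ar S t / 3 - vW S t) = ∑ t ∈ U, (Ar S t / 3 - vW S t - lin t) + ∑ t ∈ U, lin t := by
          rw [← Finset.sum_add_distrib]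
          apply Finset.sum_congr rfl
          intro t _
          ring
      _ ≤ ∑ t ∈ FS S, (Ar S t / 3 - vW S t - lin t) + ∑ t ∈ U, B * Ar S t :=
          add_le_add (Finset.sum_le_sum_of_subset_of_nonneg hUs (fun t ht _ => hs0 t ht))
            (Finset.sum_le_sum (fun t ht => hlinle t (hUs ht)))
      _ ≤ _ := by
          rw [← Finset.mul_sum]
          exact add_le_add hsum (mul_le_mul_of_nonneg_left hArU' hB0.le)
  have hfin := hvolR.trans hmain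
  have e1 : 2 * Real.pi * A0 / k0 * (ε + 1.6 * q ^ 2) = 2 * Real.pi * B * (ε + 1.6 * q ^ 2) := by
    rw [hB]; ring
  rw [e1] at hfin
  have e2 : Real.pi * q ^ 4 ≤ Real.pi * (64 * B * (ε + 1.6 * q ^ 2) + 204 * B * q ^ 2) := by
    have e3 : 640 * (B * q ^ 2) ≤ (204 * Real.pi) * (B * q ^ 2) :=
      mul_le_mul_of_nonneg_right (by linarith) (by positivity)
    norm_num at hfin e3 ⊢
    linarith
  have e4 := le_of_mul_le_mul_left e2 hpi
  have e5 : B * ε ≤ 0.963 * A0 * ε := mul_le_mul_of_nonneg_right hBA hε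
  have e6 : B * q ^ 2 ≤ 0.963 * A0 * q ^ 2 := mul_le_mul_of_nonneg_right hBA (sq_nonneg q)
  have e7 : 0 ≤ A0 * ε := by positivity
  have e8 : 0 ≤ A0 * q ^ 2 := by positivity
  norm_num at e4 e5 e6 ⊢
  linarith

theorem countA_upper {S : Finset E3} (hS : Good S) {q : ℝ} (hq : q ≤ 1 / 20) (hq0 : 0 ≤ q)
    (hcov : ∀ a : E3, ‖a‖ = 1 → ∃ x ∈ S, ‖a - x‖ ≤ q) {A0 ε : ℝ} (hA : 0 < A0) (hε : 0 ≤ ε)
    (hAn : 6 * S.card * A0 = 4 * Real.pi)
    (hvol : (MeasureTheory.volume (polar S)).toReal ≤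
      4 * Real.pi / 3 + 2 * Real.pi * A0 / k0 * (1 + ε)) {v : E3} (hv : ‖v‖ = 1)
    {κ : ℝ} (hκ0 : 0 ≤ κ) (hκ : κ ≤ 0.6)
    (h6 : ∀ w ∈ S, ‖w - v‖ < κ → ((FS S).filter (fun t => t.1 = w)).card = 6) :
    ((S.filter (fun w => ‖w - v‖ < κ)).card : ℝ) * (6 * A0) ≤
      Real.pi * (κ + q) ^ 2 * (1 + 3 * q ^ 2) + 600 * √(ε + q ^ 2) := by
  have hcard := card_F h6
  have hF : (FS S).filter (fun t => ‖t.1 - v‖ < κ) ⊆ FS S := Finset.filter_subset _ _
  have hdev := dev hS hq hq0 hcov hA hε hAn hvol hF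
  rw [hcard] at hdev
  push_cast at hdev
  have hq2 : q ^ 2 ≤ 1 / 400 := by nlinarith
  have hAr := sum_Ar_le hS hq hq0 hcov hF hv (κ := κ + q) (by linarith)
    (by norm_num at hκ ⊢; linarith) (by
      intro t ht y hy hy1
      obtain ⟨htF, htv⟩ := Finset.mem_filter.mp ht
      have e1 := (fan_near hS hq hq0 hcov htF).2.2 y hy hy1
      calc ‖y - v‖ = ‖(y - t.1) + (t.1 - v)‖ := by congr 1; abel
        _ ≤ ‖y - t.1‖ + ‖t.1 - v‖ := norm_add_le _ _
        _ ≤ κ + q := by linarith)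
  have h1 : ∑ t ∈ (FS S).filter (fun t => ‖t.1 - v‖ < κ), Ar S t ≤
      Real.pi * (κ + q) ^ 2 * (1 + 3 * q ^ 2) := by
    have e1 : 1 ≤ (1 - 2 * q ^ 2) * (1 + 3 * q ^ 2) := by nlinarith [sq_nonneg q]
    have e2 : 0 < 1 - 2 * q ^ 2 := by linarith
    have e3 : 0 ≤ ∑ t ∈ (FS S).filter (fun t => ‖t.1 - v‖ < κ), Ar S t :=
      Finset.sum_nonneg (fun t ht => (fan_shape hS (hF ht)).1.le)
    calc ∑ t ∈ (FS S).filter (fun t => ‖t.1 - v‖ < κ), Ar S t
        ≤ ((1 - 2 * q ^ 2) * (1 + 3 * q ^ 2)) * ∑ t ∈ (FS S).filter (fun t => ‖t.1 - v‖ < κ), Ar S t :=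
          le_mul_of_one_le_left e3 e1
      _ = ((1 - 2 * q ^ 2) * ∑ t ∈ (FS S).filter (fun t => ‖t.1 - v‖ < κ), Ar S t) * (1 + 3 * q ^ 2) := by
          ring
      _ ≤ _ := mul_le_mul_of_nonneg_right hAr (by positivity)
  have h2 := (abs_le.mp hdev).1
  linarith

theorem countA_lower {S : Finset E3} (hS : Good S) {q : ℝ} (hq : q ≤ 1e-5) (hq0 : 0 ≤ q)
    (hcov : ∀ a : E3, ‖a‖ = 1 → ∃ x ∈ S, ‖a - x‖ ≤ q) {A0 ε : ℝ} (hA : 0 < A0) (hε : 0 ≤ ε)
    (hAn : 6 * S.card * A0 = 4 * Real.pi)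
    (hvol : (MeasureTheory.volume (polar S)).toReal ≤
      4 * Real.pi / 3 + 2 * Real.pi * A0 / k0 * (1 + ε)) {p : E3} (hp : ‖p‖ = 1)
    (h6 : ∀ w ∈ S, ‖w - p‖ < 0.002 → ((FS S).filter (fun t => t.1 = w)).card = 6) :
    3e-6 - 600 * √(ε + q ^ 2) ≤
      ((S.filter (fun w => ‖w - p‖ < 0.002)).card : ℝ) * (6 * A0) := by
  classical
  have hq' : q ≤ 1 / 20 := by norm_num at hq ⊢; linarith
  have hcard := card_F h6
  have hpi1 := Real.pi_gt_d4
  norm_num at hpi1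
  set F := (FS S).filter (fun t => ∃ y ∈ cone3 t.1 (vb S t) (va t), ‖y‖ = 1 ∧ ‖y - p‖ ≤ 0.001)
    with hFdef
  have hF : F ⊆ FS S := Finset.filter_subset _ _
  have hFG : F ⊆ (FS S).filter (fun t => ‖t.1 - p‖ < 0.002) := by
    intro t ht
    obtain ⟨htF, y, hy, hy1, hyp⟩ := Finset.mem_filter.mp ht
    refine Finset.mem_filter.mpr ⟨htF, ?_⟩
    have e1 := (fan_near hS hq' hq0 hcov htF).2.2 y hy hy1
    have e2 : ‖t.1 - p‖ ≤ ‖y - t.1‖ + ‖y - p‖ := by
      calc ‖t.1 - p‖ = ‖-(y - t.1) + (y - p)‖ := by congr 1; abel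
        _ ≤ ‖-(y - t.1)‖ + ‖y - p‖ := norm_add_le _ _
        _ = _ := by rw [norm_neg]
    norm_num at hq hyp ⊢
    linarith
  have hdev := dev hS hq' hq0 hcov hA hε hAn hvol hF
  have h1 : (F.card : ℝ) * A0 ≤ ((S.filter (fun w => ‖w - p‖ < 0.002)).card : ℝ) * (6 * A0) := by
    have e1 := Finset.card_le_card hFG
    rw [hcard] at e1
    have e2 : (F.card : ℝ) ≤ 6 * ((S.filter (fun w => ‖w - p‖ < 0.002)).card : ℝ) := by
      exact_mod_cast e1
    calc (F.card : ℝ) * A0 ≤ (6 * ((S.filter (fun w => ‖w - p‖ < 0.002)).card : ℝ)) * A0 :=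
          mul_le_mul_of_nonneg_right e2 hA.le
      _ = _ := by ring
  have h2 : Real.pi * 1e-6 / 3 ≤ ∑ t ∈ F, vW S t := by
    have e0 : ∑ t ∈ F, vW S t = (∑ t ∈ F, MeasureTheory.volume
        (cone3 t.1 (vb S t) (va t) ∩ Metric.closedBall 0 1)).toReal := by
      unfold vW
      rw [ENNReal.toReal_sum (fun t _ => vW_vol t)]
    rw [e0]
    have e1 : ENNReal.ofReal (Real.pi * 1e-6 / 3) ≤ ∑ t ∈ F, MeasureTheory.volume
        (cone3 t.1 (vb S t) (va t) ∩ Metric.closedBall 0 1) := by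
      calc ENNReal.ofReal (Real.pi * 1e-6 / 3) = MeasureTheory.volume (capS p 0.001) := by
            rw [vol_cap hp (by norm_num) (by norm_num)]
            congr 1
            norm_num
        _ = ∑ t ∈ FS S, MeasureTheory.volume (cone3 t.1 (vb S t) (va t) ∩ capS p 0.001) :=
            (fan_tile hS _ (capS_closed p 0.001).measurableSet).symm
        _ = ∑ t ∈ F, MeasureTheory.volume (cone3 t.1 (vb S t) (va t) ∩ capS p 0.001) := by
            refine (Finset.sum_subset hF ?_).symm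
            intro t ht htU
            have : cone3 t.1 (vb S t) (va t) ∩ capS p 0.001 ⊆ {0} := by
              rintro x ⟨hx1, hx2, hx3⟩
              by_contra hx0
              rw [Set.mem_singleton_iff] at hx0
              apply htU
              rw [cap_iff hx0 hp (by norm_num)] at hx3
              exact Finset.mem_filter.mpr ⟨ht, _, cone_smul hx1 (by positivity),
                norm_normalize hx0, hx3⟩
            exact MeasureTheory.measure_mono_null this (MeasureTheory.measure_singleton 0)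
        _ ≤ _ := by
            apply Finset.sum_le_sum
            intro t _
            apply MeasureTheory.measure_mono
            rintro x ⟨hx1, hx2, hx3⟩
            refine ⟨hx1, ?_⟩
            rw [mem_closedBall_zero_iff]
            exact hx2
    refine (ENNReal.ofReal_le_iff_le_toReal ?_).mp e1
    exact (ENNReal.sum_lt_top.mpr (fun t _ => (vW_vol t).lt_top)).ne
  have h3 : 3 * ∑ t ∈ F, vW S t ≤ ∑ t ∈ F, Ar S t := by
    rw [Finset.mul_sum]
    apply Finset.sum_le_sum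
    intro t ht
    obtain ⟨e1, _, e3⟩ := fan_vol hS hq' hq0 hcov (hF ht)
    have hq2 : q ^ 2 ≤ 1 / 400 := by nlinarith
    have e4 : 0 ≤ 1 / 2 * (1 - 1.6 * q ^ 2) * Mt S t := by
      apply mul_nonneg _ e3
      norm_num
      linarith
    linarith
  have h4 := (abs_le.mp hdev).2
  norm_num at h2 ⊢
  linarith

end Pool.Agent.Helper320.Gold.NA6
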