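import Mathlib
import Pool.Agent.Helper320.GBaseA

set_option autoImplicit false
open Set

namespace Pool.Agent.Helper320.Gold.NA7

open Pool.Agent.Helper320.Gold

theorem mulb {a b c d x y : ℝ} (ha : 0 ≤ a) (hc : 0 ≤ c) (h1 : a ≤ x) (h2 : x ≤ b) (h3 : c ≤ y)
    (h4 : y ≤ d) : a * c ≤ x * y ∧ x * y ≤ b * d :=
  ⟨mul_le_mul h1 h3 hc (ha.trans h1), mul_le_mul h2 h4 (hc.trans h3) ((ha.trans h1).trans h2)⟩

theorem bounds {X Y C : ℝ} (hX1 : |X - 1| ≤ 2e-7) (hY1 : |Y - 1| ≤ 2e-7)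
    (hC : |C - 1 / 2| ≤ 1e-7) :
    3 / 4 - 1e-5 ≤ X ^ 2 * Y ^ 2 * (1 - C ^ 2) ∧ X ^ 2 * Y ^ 2 * (1 - C ^ 2) ≤ 3 / 4 + 1e-5 ∧
    1 - 1e-5 ≤ X ^ 2 + Y ^ 2 - 2 * (X * Y) * C ∧ X ^ 2 + Y ^ 2 - 2 * (X * Y) * C ≤ 1 + 1e-5 := by
  rw [abs_le] at hX1 hY1 hC
  obtain ⟨hXl, hXu⟩ := hX1
  obtain ⟨hYl, hYu⟩ := hY1
  obtain ⟨hCl, hCu⟩ := hC
  have hXl' : 1 - 2e-7 ≤ X := by linarith
  have hXu' : X ≤ 1 + 2e-7 := by linarith
  have hYl' : 1 - 2e-7 ≤ Y := by linarith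
  have hYu' : Y ≤ 1 + 2e-7 := by linarith
  have hCl' : 1 / 2 - 1e-7 ≤ C := by linarith
  have hCu' : C ≤ 1 / 2 + 1e-7 := by linarith
  obtain ⟨a1, a2⟩ := mulb (by norm_num) (by norm_num) hXl' hXu' hXl' hXu'
  obtain ⟨b1, b2⟩ := mulb (by norm_num) (by norm_num) hYl' hYu' hYl' hYu'
  obtain ⟨c1, c2⟩ := mulb (by norm_num) (by norm_num) hCl' hCu' hCl' hCu'
  obtain ⟨d1, d2⟩ := mulb (by norm_num) (by norm_num) hXl' hXu' hYl' hYu'
  obtain ⟨f1, f2⟩ := mulb (by norm_num) (by norm_num) a1 a2 b1 b2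
  obtain ⟨g1, g2⟩ := mulb (by norm_num) (by norm_num) d1 d2 hCl' hCu'
  have j1 : 1 - (1 / 2 + 1e-7) * (1 / 2 + 1e-7) ≤ 1 - C * C := by linarith
  have j2 : 1 - C * C ≤ 1 - (1 / 2 - 1e-7) * (1 / 2 - 1e-7) := by linarith
  obtain ⟨k1, k2⟩ := mulb (by norm_num) (by norm_num) f1 f2 j1 j2
  have ek : X ^ 2 * Y ^ 2 * (1 - C ^ 2) = X * X * (Y * Y) * (1 - C * C) := by ring
  have eh : X ^ 2 + Y ^ 2 - 2 * (X * Y) * C = X * X + Y * Y - 2 * (X * Y * C) := by ring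
  rw [ek, eh]
  norm_num at k1 k2 a1 a2 b1 b2 g1 g2 ⊢
  refine ⟨by linarith, by linarith, by linarith, by linarith⟩

theorem real_part {L l r s C : ℝ} (hl : 0 < l) (hl' : l ≤ 1e-6) (hL : 0 ≤ L)
    (hr : |r - l / √3| ≤ 1e-7 * l) (hs : |s - l / √3| ≤ 1e-7 * l)
    (hC : |C - 1 / 2| ≤ 1e-7)
    (hmain : L ^ 2 * ((r ^ 2 * s ^ 2 - (r * s * C) ^ 2) + (r ^ 2 + s ^ 2 - 2 * (r * s * C))) =
      4 * (r ^ 2 * s ^ 2 - (r * s * C) ^ 2)) :
    |L - l| ≤ 1e-4 * l := by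
  set k : ℝ := l / √3 with hk
  have h3 : (0:ℝ) < √3 := by positivity
  have hk0 : 0 < k := by positivity
  have hsq : (√3 : ℝ) ^ 2 = 3 := Real.sq_sqrt (by norm_num)
  have hkl : k ^ 2 = l ^ 2 / 3 := by rw [hk, div_pow, hsq]
  have hlk : l = √3 * k := by rw [hk]; field_simp
  have h174 : (√3 : ℝ) ≤ 2 := by
    rw [show (2:ℝ) = √(2 ^ 2) by rw [Real.sqrt_sq (by norm_num)]]
    exact Real.sqrt_le_sqrt (by norm_num)
  have hl2 : l ≤ 2 * k := by rw [hlk]; exact mul_le_mul_of_nonneg_right h174 hk0.le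
  obtain ⟨X, hX⟩ : ∃ X : ℝ, r = k * X := ⟨r / k, by field_simp⟩
  obtain ⟨Y, hY⟩ : ∃ Y : ℝ, s = k * Y := ⟨s / k, by field_simp⟩
  have hX1 : |X - 1| ≤ 2e-7 := by
    have h1 : |r - k| = k * |X - 1| := by
      rw [hX, ← abs_of_pos hk0, abs_of_pos hk0, show k * X - k = k * (X - 1) by ring, abs_mul,
        abs_of_pos hk0]
    rw [h1] at hr
    have : k * |X - 1| ≤ k * 2e-7 := by linarith
    exact le_of_mul_le_mul_left this hk0
  have hY1 : |Y - 1| ≤ 2e-7 := by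
    have h1 : |s - k| = k * |Y - 1| := by
      rw [hY, show k * Y - k = k * (Y - 1) by ring, abs_mul, abs_of_pos hk0]
    rw [h1] at hs
    have : k * |Y - 1| ≤ k * 2e-7 := by linarith
    exact le_of_mul_le_mul_left this hk0
  obtain ⟨hul, huu, hhl, hhu⟩ := bounds hX1 hY1 hC
  set u : ℝ := X ^ 2 * Y ^ 2 * (1 - C ^ 2) with hu
  set h : ℝ := X ^ 2 + Y ^ 2 - 2 * (X * Y) * C with hh
  have hmain2 : k ^ 2 * (L ^ 2 * (k ^ 2 * u + h)) = k ^ 2 * (4 * k ^ 2 * u) := by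
    rw [hX, hY] at hmain
    rw [hu, hh]
    linear_combination hmain
  have hmain3 : L ^ 2 * (k ^ 2 * u + h) = 4 * k ^ 2 * u :=
    mul_left_cancel₀ (by positivity) hmain2
  rw [hkl] at hmain3
  have hll : l ^ 2 ≤ 1e-12 := by
    have := mul_le_mul hl' hl' hl.le (by norm_num)
    calc l ^ 2 = l * l := sq l
      _ ≤ 1e-6 * 1e-6 := this
      _ = 1e-12 := by norm_num
  have hl0 : 0 < l ^ 2 := by positivity
  have hD : l ^ 2 / 3 * u ≤ 1e-12 := by nlinarith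
  have hD0 : 0 ≤ l ^ 2 / 3 * u := by
    have : 0 ≤ u := by linarith
    positivity
  have hpos : 0 < l ^ 2 / 3 * u + h := by linarith
  rw [abs_le]
  constructor
  · by_contra hcon
    have hcon' : L < (1 - 1e-4) * l := by linarith [not_le.1 hcon]
    have h1 : L ^ 2 ≤ ((1 - 1e-4) * l) ^ 2 := pow_le_pow_left₀ hL hcon'.le 2
    have h2 : 4 * (l ^ 2 / 3) * u ≤ ((1 - 1e-4) * l) ^ 2 * (1e-12 + (1 + 1e-5)) := by
      rw [← hmain3]
      exact mul_le_mul h1 (by linarith) hpos.le (by positivity)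
    have h3 : l ^ 2 * (4 / 3 * u) ≤ l ^ 2 * ((1 - 1e-4) ^ 2 * (1e-12 + (1 + 1e-5))) := by
      linarith
    have h4 := le_of_mul_le_mul_left h3 hl0
    norm_num at h4
    linarith
  · by_contra hcon
    have hcon' : (1 + 1e-4) * l < L := by linarith [not_le.1 hcon]
    have h1 : ((1 + 1e-4) * l) ^ 2 ≤ L ^ 2 := pow_le_pow_left₀ (by positivity) hcon'.le 2
    have h2 : ((1 + 1e-4) * l) ^ 2 * (1 - 1e-5) ≤ 4 * (l ^ 2 / 3) * u := by
      rw [← hmain3]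
      exact mul_le_mul h1 (by linarith) (by norm_num) (by positivity)
    have h3 : l ^ 2 * ((1 + 1e-4) ^ 2 * (1 - 1e-5)) ≤ l ^ 2 * (4 / 3 * u) := by
      linarith
    have h4 := le_of_mul_le_mul_left h3 hl0
    norm_num at h4
    linarith

/-- three vectors orthogonal to a unit vector have zero triple product -/
theorem tp_zero {v x y z : E3} (hv : v ≠ 0) (h1 : inner ℝ x v = (0:ℝ)) (h2 : inner ℝ y v = (0:ℝ))
    (h3 : inner ℝ z v = (0:ℝ)) : tp x y z = 0 := by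
  by_contra h
  apply hv
  simp only [PiLp.inner_apply, Fin.sum_univ_three, RCLike.inner_apply, conj_trivial] at h1 h2 h3
  unfold tp at h
  ext i
  fin_cases i
  · simp only [Fin.zero_eta, Fin.isValue, PiLp.zero_apply]
    refine (mul_eq_zero.1 ?_).resolve_left h
    linear_combination (y 1 * z 2 - y 2 * z 1) * h1 - (x 1 * z 2 - x 2 * z 1) * h2 +
      (x 1 * y 2 - x 2 * y 1) * h3
  · simp only [Fin.mk_one, Fin.isValue, PiLp.zero_apply]
    refine (mul_eq_zero.1 ?_).resolve_left h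
    linear_combination -(y 0 * z 2 - y 2 * z 0) * h1 + (x 0 * z 2 - x 2 * z 0) * h2 -
      (x 0 * y 2 - x 2 * y 0) * h3
  · simp only [Fin.reduceFinMk, Fin.isValue, PiLp.zero_apply]
    refine (mul_eq_zero.1 ?_).resolve_left h
    linear_combination (y 0 * z 1 - y 1 * z 0) * h1 - (x 0 * z 1 - x 1 * z 0) * h2 +
      (x 0 * y 1 - x 1 * y 0) * h3

theorem gram_tp (x y z : E3) :
    inner ℝ x x * (inner ℝ y y * inner ℝ z z - inner ℝ y z * inner ℝ y z) -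
      inner ℝ x y * (inner ℝ x y * inner ℝ z z - inner ℝ y z * inner ℝ x z) +
      inner ℝ x z * (inner ℝ x y * inner ℝ y z - inner ℝ y y * inner ℝ x z) = (tp x y z) ^ 2 := by
  simp only [PiLp.inner_apply, Fin.sum_univ_three, RCLike.inner_apply, conj_trivial, tp]
  ring

theorem edge_from_shape {v w b a : E3} (hv : ‖v‖ = 1) (hw : ‖w‖ = 1) (hvw : v ≠ w)
    (h1 : inner ℝ b v = (1 : ℝ)) (h2 : inner ℝ a v = (1 : ℝ)) (h3 : inner ℝ b w = (1 : ℝ))
    (h4 : inner ℝ a w = (1 : ℝ)) {l : ℝ} (hl : 0 < l) (hl' : l ≤ 1e-6)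
    (hr : |‖b - v‖ - l / √3| ≤ 1e-7 * l) (hs : |‖a - v‖ - l / √3| ≤ 1e-7 * l)
    (hφ : |InnerProductGeometry.angle (b - v) (a - v) - Real.pi / 3| ≤ 1e-7) :
    |‖v - w‖ - l| ≤ 1e-4 * l := by
  have hvv : inner ℝ v v = (1:ℝ) := by rw [real_inner_self_eq_norm_sq, hv]; norm_num
  have hww : inner ℝ w w = (1:ℝ) := by rw [real_inner_self_eq_norm_sq, hw]; norm_num
  have hv0 : v ≠ 0 := by intro h; rw [h, norm_zero] at hv; norm_num at hv
  set d : ℝ := inner ℝ v w with hd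
  set p : E3 := b - v with hp
  set q : E3 := a - v with hq
  set z : E3 := w - d • v with hz
  have hwv : inner ℝ w v = d := by rw [real_inner_comm]
  have e1 : inner ℝ p v = (0:ℝ) := by rw [hp, inner_sub_left, h1, hvv]; norm_num
  have e2 : inner ℝ q v = (0:ℝ) := by rw [hq, inner_sub_left, h2, hvv]; norm_num
  have e3 : inner ℝ z v = (0:ℝ) := by
    rw [hz, inner_sub_left, real_inner_smul_left, hvv, hwv]; ring
  have e4 : inner ℝ p z = 1 - d := by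
    rw [hz, inner_sub_right, real_inner_smul_right, e1, hp, inner_sub_left, h3, ← hd]; ring
  have e5 : inner ℝ q z = 1 - d := by
    rw [hz, inner_sub_right, real_inner_smul_right, e2, hq, inner_sub_left, h4, ← hd]; ring
  have e6 : inner ℝ z z = 1 - d ^ 2 := by
    have : inner ℝ z z = inner ℝ z w - d * inner ℝ z v := by
      nth_rewrite 2 [hz]
      rw [inner_sub_right, real_inner_smul_right]
    rw [this, e3, hz, inner_sub_left, real_inner_smul_left, hww, ← hd]; ring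
  have hgram := gram_tp p q z
  rw [tp_zero hv0 e1 e2 e3, e4, e5, e6, real_inner_self_eq_norm_sq, real_inner_self_eq_norm_sq]
    at hgram
  have hL2 : ‖v - w‖ ^ 2 = 2 * (1 - d) := by
    rw [← real_inner_self_eq_norm_sq, inner_sub_left, inner_sub_right, inner_sub_right, hvv, hww,
      hwv, ← hd]
    ring
  have hL0 : 0 < ‖v - w‖ ^ 2 := by
    have : ‖v - w‖ ≠ 0 := by rw [norm_ne_zero_iff]; exact sub_ne_zero.2 hvw
    positivity
  have hc : 0 < 1 - d := by linarith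
  have hg : inner ℝ p q = ‖p‖ * ‖q‖ * Real.cos (InnerProductGeometry.angle p q) := by
    rw [← InnerProductGeometry.cos_angle_mul_norm_mul_norm]; ring
  have hC : |Real.cos (InnerProductGeometry.angle p q) - 1 / 2| ≤ 1e-7 := by
    rw [← Real.cos_pi_div_three]
    exact (Real.abs_cos_sub_cos_le _ _).trans hφ
  refine real_part hl hl' (norm_nonneg _) hr hs hC ?_
  rw [← hg, hL2]
  refine mul_left_cancel₀ hc.ne' ?_
  linear_combination (-2) * hgram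

end Pool.Agent.Helper320.Gold.NA7
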