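import Mathlib
import Pool.Agent.Helper320.GBase

set_option autoImplicit false
open Set

namespace Pool.Agent.Helper320.Gold.NC1

open Pool.Agent.Helper320.Gold

/-- `v` is a point of `S` at distance at most `n` small steps from the cap -/
def Lv (S : Finset E3) (p : E3) (n : ℕ) (v : E3) : Prop := v ∈ S ∧ ‖v - p‖ < 0.5769 + 2e-5 * n

section
variable {S : Finset E3} {p : E3} {q : ℝ} {T : ZMod 6 → E3 → E3} {D : E3 → ℤ × ℤ}

theorem Lv.R {n : ℕ} (hn : n ≤ 4) {v : E3} (hv : Lv S p n v) : ‖v - p‖ < 0.577 := by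
  have h1 : (n : ℝ) ≤ 4 := by exact_mod_cast hn
  have h2 := hv.2
  norm_num at h2 ⊢
  linarith

theorem Lv.step (h : Dev S p q T D) (hq : q ≤ 1e-5) {n : ℕ} (hn : n ≤ 4) {v : E3}
    (hv : Lv S p n v) (k : ZMod 6) : Lv S p (n + 1) (T k v) := by
  have hR := hv.R hn
  refine ⟨h.mem v hv.1 hR k, ?_⟩
  have h1 := h.step v hv.1 hR k
  have h2 : ‖T k v - p‖ ≤ ‖T k v - v‖ + ‖v - p‖ := by
    have := norm_add_le (T k v - v) (v - p)
    rwa [sub_add_sub_cancel] at this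
  have h3 := hv.2
  push_cast
  norm_num at hq h3 ⊢
  linarith

theorem Lv.inj (h : Dev S p q T D) (hq : q ≤ 1e-5) {n : ℕ} (hn : n + 1 ≤ 4) {v v' : E3}
    (hv : Lv S p n v) (hv' : Lv S p n v') (k : ZMod 6) (e : T k v = T k v') : v = v' := by
  have h1 := h.inv v hv.1 (hv.R (by omega)) k ((hv.step h hq (by omega) k).R hn)
  have h2 := h.inv v' hv'.1 (hv'.R (by omega)) k ((hv'.step h hq (by omega) k).R hn)
  rw [← h1, ← h2, e]

theorem Lv.of {y : E3} (hy : y ∈ S) (hyp : ‖y - p‖ < 0.5769) : Lv S p 0 y := by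
  refine ⟨hy, ?_⟩
  norm_num at hyp ⊢
  exact hyp

/-- the triangle relations -/
theorem Lv.rel (h : Dev S p q T D) (hq : q ≤ 1e-5) {n : ℕ} (hn : n ≤ 1) {x : E3}
    (hx : Lv S p n x) (k : ZMod 6) :
    T (k + 2) (T k x) = T (k + 1) x ∧ T k (T (k + 1) x) = T (k + 1) (T k x) := by
  have ha := hx.step h hq (by omega) k
  have hc := ha.step h hq (by omega) (k + 1)
  have hd := hc.step h hq (by omega) (k + 3)
  have e1 := h.tri x hx.1 (hx.R (by omega)) k (ha.R (by omega))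
  have e2 := h.tri (T k x) ha.1 (ha.R (by omega)) (k + 1) (hc.R (by omega))
  have e3 := h.inv (T (k + 1) (T k x)) hc.1 (hc.R (by omega)) (k + 3) (hd.R (by omega))
  have k1 : k + 1 + 2 = k + 3 := by ring
  have k2 : k + 1 + 1 = k + 2 := by ring
  have k3 : k + 3 + 3 = k := by
    have : (3 : ZMod 6) + 3 = 0 := by decide
    rw [add_assoc, this, add_zero]
  rw [k1, k2, e1] at e2
  rw [k3, e2] at e3
  exact ⟨e1, e3⟩

end

theorem half_tri {u v : E3} {r1 r2 s M : ℝ} (h1 : ‖u‖ ≤ r1) (h2 : ‖v‖ ≤ r2) (hs : s ≤ ‖u - v‖)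
    (hs0 : 0 ≤ s) (hM : 0 ≤ M) (hA : (r1 ^ 2 + r2 ^ 2) / 2 - s ^ 2 / 4 ≤ M ^ 2) :
    ‖u + v‖ ≤ 2 * M := by
  have h3 := parallelogram_law_with_norm ℝ u v
  have h4 : ‖u‖ ^ 2 ≤ r1 ^ 2 := pow_le_pow_left₀ (norm_nonneg _) h1 2
  have h5 : ‖v‖ ^ 2 ≤ r2 ^ 2 := pow_le_pow_left₀ (norm_nonneg _) h2 2
  have h6 : s ^ 2 ≤ ‖u - v‖ ^ 2 := pow_le_pow_left₀ hs0 hs 2
  have h7 : ‖u + v‖ ^ 2 ≤ (2 * M) ^ 2 := by nlinarith
  exact (pow_le_pow_iff_left₀ (norm_nonneg _) (by positivity) two_ne_zero).1 h7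

theorem two_tri {A B C D : E3} {r1 r2 r3 r4 s M : ℝ} (h1 : ‖C - A‖ ≤ r1) (h2 : ‖D - A‖ ≤ r2)
    (h3 : ‖B - C‖ ≤ r3) (h4 : ‖B - D‖ ≤ r4) (hs : s ≤ ‖D - C‖) (hs0 : 0 ≤ s) (hM : 0 ≤ M)
    (hA : (r1 ^ 2 + r2 ^ 2) / 2 - s ^ 2 / 4 ≤ M ^ 2)
    (hB : (r3 ^ 2 + r4 ^ 2) / 2 - s ^ 2 / 4 ≤ M ^ 2) : ‖B - A‖ ≤ 2 * M := by
  have a1 : ‖(C - A) + (D - A)‖ ≤ 2 * M := by
    refine half_tri h1 h2 ?_ hs0 hM hA
    rw [sub_sub_sub_cancel_right, norm_sub_rev]
    exact hs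
  have a2 : ‖(B - C) + (B - D)‖ ≤ 2 * M := by
    refine half_tri h3 h4 ?_ hs0 hM hB
    rw [sub_sub_sub_cancel_left]
    exact hs
  have a3 : (2 : ℝ) • (B - A) = ((B - C) + (B - D)) + ((C - A) + (D - A)) := by
    rw [two_smul]; abel
  have a4 : ‖(2 : ℝ) • (B - A)‖ ≤ 2 * M + 2 * M := by
    rw [a3]
    exact (norm_add_le _ _).trans (add_le_add a2 a1)
  rw [norm_smul, Real.norm_eq_abs, abs_of_pos (by norm_num : (0 : ℝ) < 2)] at a4
  linarith

theorem St_mem {S : Finset E3} {p : E3} {q : ℝ} {T : ZMod 6 → E3 → E3} {D : E3 → ℤ × ℤ}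
    (h : Dev S p q T D) (hq0 : 0 ≤ q) (hq : q ≤ 1e-5) {y : E3} (hy : y ∈ S)
    (hyp : ‖y - p‖ < 0.5769) (k : ZMod 6) (j : Fin 5) :
    St T k j y ∈ S ∧ D (St T k j y) = D y + vec k j ∧ ‖St T k j y - y‖ ≤ 6 * q := by
  have hL := Lv.of hy hyp
  have one : ∀ u : ZMod 6, T u y ∈ S ∧ D (T u y) = D y + eps u ∧ ‖T u y - y‖ ≤ 2 * q := by
    intro u
    have hR := hL.R (by omega)
    exact ⟨h.mem y hy hR u, h.dev y hy hR u, h.step y hy hR u⟩
  have two : ∀ u v : ZMod 6, T v (T u y) ∈ S ∧ D (T v (T u y)) = D y + eps u + eps v ∧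
      ‖T v (T u y) - y‖ ≤ 4 * q := by
    intro u v
    have h1 := hL.step h hq (by omega) u
    have hR := h1.R (by omega)
    refine ⟨h.mem _ h1.1 hR v, ?_, ?_⟩
    · rw [h.dev _ h1.1 hR v, (one u).2.1]
    · have h2 := h.step _ h1.1 hR v
      have h3 := norm_add_le (T v (T u y) - T u y) (T u y - y)
      rw [sub_add_sub_cancel] at h3
      have h4 := (one u).2.2
      linarith
  have three : ∀ u v w : ZMod 6, T w (T v (T u y)) ∈ S ∧
      D (T w (T v (T u y))) = D y + eps u + eps v + eps w ∧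
      ‖T w (T v (T u y)) - y‖ ≤ 6 * q := by
    intro u v w
    have h1 := (hL.step h hq (by omega) u).step h hq (by omega) v
    have hR := h1.R (by omega)
    refine ⟨h.mem _ h1.1 hR w, ?_, ?_⟩
    · rw [h.dev _ h1.1 hR w, (two u v).2.1]
    · have h2 := h.step _ h1.1 hR w
      have h3 := norm_add_le (T w (T v (T u y)) - T v (T u y)) (T v (T u y) - y)
      rw [sub_add_sub_cancel] at h3
      have h4 := (two u v).2.2
      linarith
  fin_cases j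
  · obtain ⟨a, b, c⟩ := one k
    refine ⟨a, b, ?_⟩
    show ‖T k y - y‖ ≤ 6 * q
    linarith
  · obtain ⟨a, b, c⟩ := three k (k + 1) k
    refine ⟨a, ?_, c⟩
    show D (T k (T (k + 1) (T k y))) = D y + (2 • eps k + eps (k + 1))
    rw [b, two_smul]; abel
  · obtain ⟨a, b, c⟩ := two k (k + 1)
    refine ⟨a, ?_, ?_⟩
    · show D (T (k + 1) (T k y)) = D y + (eps k + eps (k + 1))
      rw [b]; abel
    · show ‖T (k + 1) (T k y) - y‖ ≤ 6 * q
      linarith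
  · obtain ⟨a, b, c⟩ := three (k + 1) k (k + 1)
    refine ⟨a, ?_, c⟩
    show D (T (k + 1) (T k (T (k + 1) y))) = D y + (eps k + 2 • eps (k + 1))
    rw [b, two_smul]; abel
  · obtain ⟨a, b, c⟩ := one (k + 1)
    refine ⟨a, b, ?_⟩
    show ‖T (k + 1) y - y‖ ≤ 6 * q
    linarith

theorem St_inj {S : Finset E3} {p : E3} {q : ℝ} {T : ZMod 6 → E3 → E3} {D : E3 → ℤ × ℤ}
    (h : Dev S p q T D) (hq0 : 0 ≤ q) (hq : q ≤ 1e-5) {y y' : E3} (hy : y ∈ S)
    (hyp : ‖y - p‖ < 0.5769) (hy' : y' ∈ S) (hyp' : ‖y' - p‖ < 0.5769) (k : ZMod 6)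
    (j : Fin 5) (e : St T k j y = St T k j y') : y = y' := by
  have hL := Lv.of hy hyp
  have hL' := Lv.of hy' hyp'
  have one : ∀ u : ZMod 6, T u y = T u y' → y = y' := fun u e =>
    Lv.inj h hq (by omega) hL hL' u e
  have two : ∀ u v : ZMod 6, T v (T u y) = T v (T u y') → y = y' := fun u v e =>
    one u (Lv.inj h hq (by omega) (hL.step h hq (by omega) u) (hL'.step h hq (by omega) u) v e)
  have three : ∀ u v w : ZMod 6, T w (T v (T u y)) = T w (T v (T u y')) → y = y' :=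
    fun u v w e => two u v (Lv.inj h hq (by omega)
      ((hL.step h hq (by omega) u).step h hq (by omega) v)
      ((hL'.step h hq (by omega) u).step h hq (by omega) v) w e)
  fin_cases j
  · exact one k e
  · exact three k (k + 1) k e
  · exact two k (k + 1) e
  · exact three (k + 1) k (k + 1) e
  · exact one (k + 1) e

/-- the step of length `√3` -/
theorem step3 {S : Finset E3} {p : E3} {q : ℝ} {T : ZMod 6 → E3 → E3} {D : E3 → ℤ × ℤ}
    (h : Dev S p q T D) (hq : q ≤ 1e-5) {l δ : ℝ} (hl : 0 < l) (hδ : 0 ≤ δ)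
    (hδ' : δ ≤ 1e-4) {n : ℕ} (hn : n ≤ 1) {x : E3} (hx : Lv S p n x) (k : ZMod 6)
    (g1 : ∀ u, |‖T u x - x‖ - l| ≤ δ * l)
    (g2 : ∀ u, |‖T u (T k x) - T k x‖ - l| ≤ δ * l)
    (g3 : ∀ u, |‖T u (T (k + 1) x) - T (k + 1) x‖ - l| ≤ δ * l) :
    ‖T (k + 1) (T k x) - x‖ ≤ √3 * (l * (1 + 2 * δ)) := by
  have hrel := hx.rel h hq hn k
  have hd1 : δ ≤ 1 := by norm_num at hδ'; linarith
  have b1 := abs_le.1 (g1 k)
  have b2 := abs_le.1 (g1 (k + 1))
  have b3 := abs_le.1 (g2 (k + 2))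
  have b4 := abs_le.1 (g2 (k + 1))
  have b5 := abs_le.1 (g3 k)
  rw [hrel.1] at b3
  rw [hrel.2] at b5
  have h3 : √3 ^ 2 = 3 := Real.sq_sqrt (by norm_num)
  have key := two_tri (A := x) (B := T (k + 1) (T k x)) (C := T k x) (D := T (k + 1) x)
    (r1 := (1 + δ) * l) (r2 := (1 + δ) * l) (r3 := (1 + δ) * l) (r4 := (1 + δ) * l)
    (s := (1 - δ) * l) (M := √3 / 2 * (l * (1 + 2 * δ))) (by linarith) (by linarith)
    (by linarith) (by linarith) (by linarith) (mul_nonneg (by linarith) hl.le) (by positivity)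
    (by
      have e1 : (√3 / 2 * (l * (1 + 2 * δ))) ^ 2 = 3 / 4 * (l * (1 + 2 * δ)) ^ 2 := by
        rw [mul_pow, div_pow, h3]; norm_num
      rw [e1]
      have e2 : 3 / 4 * (l * (1 + 2 * δ)) ^ 2 - ((((1 + δ) * l) ^ 2 + ((1 + δ) * l) ^ 2) / 2 -
          ((1 - δ) * l) ^ 2 / 4) = l ^ 2 * (1 / 2 * δ + 9 / 4 * δ ^ 2) := by ring
      have e3 : 0 ≤ l ^ 2 * (1 / 2 * δ + 9 / 4 * δ ^ 2) := by positivity
      linarith)
    (by
      have e1 : (√3 / 2 * (l * (1 + 2 * δ))) ^ 2 = 3 / 4 * (l * (1 + 2 * δ)) ^ 2 := by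
        rw [mul_pow, div_pow, h3]; norm_num
      rw [e1]
      have e2 : 3 / 4 * (l * (1 + 2 * δ)) ^ 2 - ((((1 + δ) * l) ^ 2 + ((1 + δ) * l) ^ 2) / 2 -
          ((1 - δ) * l) ^ 2 / 4) = l ^ 2 * (1 / 2 * δ + 9 / 4 * δ ^ 2) := by ring
      have e3 : 0 ≤ l ^ 2 * (1 / 2 * δ + 9 / 4 * δ ^ 2) := by positivity
      linarith)
  refine key.trans (le_of_eq ?_)
  ring

/-- the step of length `√7` from the two triangles -/
theorem step7 {A B C D : E3} {l δ : ℝ} (hl : 0 < l) (hδ : 0 ≤ δ) (hδ' : δ ≤ 1e-4)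
    (h1 : ‖C - A‖ ≤ (1 + δ) * l) (h2 : ‖D - A‖ ≤ √3 * (l * (1 + 2 * δ)))
    (h3 : ‖B - C‖ ≤ √3 * (l * (1 + 2 * δ))) (h4 : ‖B - D‖ ≤ (1 + δ) * l)
    (hs : (1 - δ) * l ≤ ‖D - C‖) : ‖B - A‖ ≤ √7 * ((1 + 4 * δ) * l) := by
  have hd1 : δ ≤ 1 := by norm_num at hδ'; linarith
  have s3 : √3 ^ 2 = 3 := Real.sq_sqrt (by norm_num)
  have s7 : √7 ^ 2 = 7 := Real.sq_sqrt (by norm_num)
  have e1 : (√7 / 2 * ((1 + 4 * δ) * l)) ^ 2 = 7 / 4 * ((1 + 4 * δ) * l) ^ 2 := by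
    rw [mul_pow, div_pow, s7]; norm_num
  have e2 : (√3 * (l * (1 + 2 * δ))) ^ 2 = 3 * (l * (1 + 2 * δ)) ^ 2 := by
    rw [mul_pow, s3]
  have e3 : 0 ≤ l ^ 2 * (13 / 2 * δ + 87 / 4 * δ ^ 2) := by positivity
  have key := two_tri (A := A) (B := B) (C := C) (D := D)
    (M := √7 / 2 * ((1 + 4 * δ) * l)) h1 h2 h3 h4 hs (mul_nonneg (by linarith) hl.le)
    (by positivity) (by
      rw [e1, e2]
      have e4 : 7 / 4 * ((1 + 4 * δ) * l) ^ 2 - ((((1 + δ) * l) ^ 2 +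
          3 * (l * (1 + 2 * δ)) ^ 2) / 2 - ((1 - δ) * l) ^ 2 / 4) =
          l ^ 2 * (13 / 2 * δ + 87 / 4 * δ ^ 2) := by ring
      linarith) (by
      rw [e1, e2]
      have e4 : 7 / 4 * ((1 + 4 * δ) * l) ^ 2 - ((3 * (l * (1 + 2 * δ)) ^ 2 +
          ((1 + δ) * l) ^ 2) / 2 - ((1 - δ) * l) ^ 2 / 4) =
          l ^ 2 * (13 / 2 * δ + 87 / 4 * δ ^ 2) := by ring
      linarith)
  refine key.trans (le_of_eq ?_)
  ring

theorem St_len {S : Finset E3} {p : E3} {q : ℝ} {T : ZMod 6 → E3 → E3} {D : E3 → ℤ × ℤ}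
    (h : Dev S p q T D) (hq0 : 0 ≤ q) (hq : q ≤ 1e-5) {l δ : ℝ} (hl : 0 < l) (hδ : 0 ≤ δ)
    (hδ' : δ ≤ 1e-4) (Bad : Finset E3)
    (hgood : ∀ v ∈ S, ‖v - p‖ < 0.577 → v ∉ Bad → ∀ k, |‖T k v - v‖ - l| ≤ δ * l) :
    ∃ BB : Finset E3, BB.card ≤ 43 * Bad.card ∧ ∀ y ∈ S, ‖y - p‖ < 0.5769 → y ∉ BB →
      ∀ k j, ‖St T k j y - y‖ ≤ len j * ((1 + 4 * δ) * l) := by
  classical
  obtain ⟨F, hF⟩ : ∃ F : Finset E3, F = S.filter (fun y => ‖y - p‖ < 0.5769) := ⟨_, rfl⟩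
  have hFm : ∀ y, y ∈ F ↔ y ∈ S ∧ ‖y - p‖ < 0.5769 := by
    intro y; rw [hF, Finset.mem_filter]
  have hFL : ∀ y ∈ F, Lv S p 0 y := fun y hy => Lv.of ((hFm y).1 hy).1 ((hFm y).1 hy).2
  refine ⟨Bad ∪ (Finset.univ.biUnion fun u : ZMod 6 => F.filter fun y => T u y ∈ Bad) ∪
    (Finset.univ.biUnion fun u : ZMod 6 × ZMod 6 => F.filter fun y => T u.1 (T u.2 y) ∈ Bad),
    ?_, ?_⟩
  · have c1 : (Finset.univ.biUnion fun u : ZMod 6 => F.filter fun y => T u y ∈ Bad).card ≤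
        6 * Bad.card := by
      refine (Finset.card_biUnion_le_card_mul _ _ Bad.card fun u _ => ?_).trans (le_of_eq ?_)
      · refine Finset.card_le_card_of_injOn (T u) ?_ ?_
        · intro y hy
          exact Finset.mem_coe.2 (Finset.mem_filter.1 (Finset.mem_coe.1 hy)).2
        · intro y hy y' hy' e
          exact Lv.inj h hq (by omega) (hFL y (Finset.mem_filter.1 (Finset.mem_coe.1 hy)).1)
            (hFL y' (Finset.mem_filter.1 (Finset.mem_coe.1 hy')).1) u e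
      · rw [Finset.card_univ, ZMod.card]
    have c2 : (Finset.univ.biUnion fun u : ZMod 6 × ZMod 6 => F.filter
        fun y => T u.1 (T u.2 y) ∈ Bad).card ≤ 36 * Bad.card := by
      refine (Finset.card_biUnion_le_card_mul _ _ Bad.card fun u _ => ?_).trans (le_of_eq ?_)
      · refine Finset.card_le_card_of_injOn (fun y => T u.1 (T u.2 y)) ?_ ?_
        · intro y hy
          exact Finset.mem_coe.2 (Finset.mem_filter.1 (Finset.mem_coe.1 hy)).2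
        · intro y hy y' hy' e
          have k1 := hFL y (Finset.mem_filter.1 (Finset.mem_coe.1 hy)).1
          have k2 := hFL y' (Finset.mem_filter.1 (Finset.mem_coe.1 hy')).1
          have k3 := Lv.inj h hq (by omega) (k1.step h hq (by omega) u.2)
            (k2.step h hq (by omega) u.2) u.1 e
          exact Lv.inj h hq (by omega) k1 k2 u.2 k3
      · rw [Finset.card_univ, Fintype.card_prod, ZMod.card]
    have c3 := Finset.card_union_le (Bad ∪ (Finset.univ.biUnion fun u : ZMod 6 =>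
      F.filter fun y => T u y ∈ Bad)) (Finset.univ.biUnion fun u : ZMod 6 × ZMod 6 =>
      F.filter fun y => T u.1 (T u.2 y) ∈ Bad)
    have c4 := Finset.card_union_le Bad (Finset.univ.biUnion fun u : ZMod 6 =>
      F.filter fun y => T u y ∈ Bad)
    omega
  · intro y hy hyp hyB k j
    have hyF : y ∈ F := (hFm y).2 ⟨hy, hyp⟩
    have hL := hFL y hyF
    simp only [Finset.mem_union, Finset.mem_biUnion, Finset.mem_univ, true_and,
      Finset.mem_filter, not_or, not_exists, not_and] at hyB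
    obtain ⟨⟨n0, n1⟩, n2⟩ := hyB
    have g0 : ∀ u, |‖T u y - y‖ - l| ≤ δ * l := hgood y hy (hL.R (by omega)) n0
    have g1 : ∀ v u, |‖T u (T v y) - T v y‖ - l| ≤ δ * l := fun v =>
      hgood _ (hL.step h hq (by omega) v).1 ((hL.step h hq (by omega) v).R (by omega))
        (n1 v hyF)
    have g2 : ∀ w v u, |‖T u (T v (T w y)) - T v (T w y)‖ - l| ≤ δ * l := fun w v =>
      hgood _ ((hL.step h hq (by omega) w).step h hq (by omega) v).1
        (((hL.step h hq (by omega) w).step h hq (by omega) v).R (by omega))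
        (n2 (v, w) hyF)
    have hs3 : ‖T (k + 1) (T k y) - y‖ ≤ √3 * (l * (1 + 2 * δ)) :=
      step3 h hq hl hδ hδ' (by omega) hL k g0 (g1 k) (g1 (k + 1))
    have up : ∀ {r : ℝ}, |r - l| ≤ δ * l → r ≤ (1 + δ) * l := fun hr => by
      have := (abs_le.1 hr).2; linarith
    have low : ∀ {r : ℝ}, |r - l| ≤ δ * l → (1 - δ) * l ≤ r := fun hr => by
      have := (abs_le.1 hr).1; linarith
    have hδl : 0 ≤ δ * l := by positivity
    have hrel := hL.rel h hq (by omega) k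
    fin_cases j
    · show ‖T k y - y‖ ≤ 1 * ((1 + 4 * δ) * l)
      have := up (g0 k)
      linarith
    · show ‖T k (T (k + 1) (T k y)) - y‖ ≤ √7 * ((1 + 4 * δ) * l)
      have hL1 := hL.step h hq (by omega) k
      have hrel1 := hL1.rel h hq (by omega) k
      have hs3' : ‖T (k + 1) (T k (T k y)) - T k y‖ ≤ √3 * (l * (1 + 2 * δ)) :=
        step3 h hq hl hδ hδ' (by omega) hL1 k (g1 k) (g2 k k) (g2 k (k + 1))
      rw [← hrel1.2] at hs3'
      exact step7 hl hδ hδ' (up (g0 k)) hs3 hs3' (up (g2 k (k + 1) k)) (low (g1 k (k + 1)))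
    · show ‖T (k + 1) (T k y) - y‖ ≤ √3 * ((1 + 4 * δ) * l)
      refine hs3.trans (mul_le_mul_of_nonneg_left ?_ (Real.sqrt_nonneg _))
      linarith
    · show ‖T (k + 1) (T k (T (k + 1) y)) - y‖ ≤ √7 * ((1 + 4 * δ) * l)
      have hL1 := hL.step h hq (by omega) (k + 1)
      have hs3' : ‖T (k + 1) (T k (T (k + 1) y)) - T (k + 1) y‖ ≤ √3 * (l * (1 + 2 * δ)) :=
        step3 h hq hl hδ hδ' (by omega) hL1 k (g1 (k + 1)) (g2 (k + 1) k) (g2 (k + 1) (k + 1))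
      rw [← hrel.2] at hs3
      exact step7 hl hδ hδ' (up (g0 (k + 1))) hs3 hs3' (up (g2 (k + 1) k (k + 1)))
        (low (g1 (k + 1) k))
    · show ‖T (k + 1) y - y‖ ≤ 1 * ((1 + 4 * δ) * l)
      have := up (g0 (k + 1))
      linarith

end Pool.Agent.Helper320.Gold.NC1
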