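import Mathlib
import Pool.Agent.Helper320.GBase

set_option autoImplicit false
open Set

namespace Pool.Agent.Helper320.Gold.NC2

open Pool.Agent.Helper320.Gold

theorem len_ge (j : Fin 5) : 1 ≤ len j := by
  have h7 : (1 : ℝ) ≤ √7 := by
    rw [Real.one_le_sqrt]; norm_num
  have h3 : (1 : ℝ) ≤ √3 := by
    rw [Real.one_le_sqrt]; norm_num
  fin_cases j <;> simp [len, h7, h3]

theorem len_le (j : Fin 5) : len j ≤ 3 := by
  have h7 : √7 ≤ (3 : ℝ) := by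
    rw [Real.sqrt_le_left (by norm_num)]; norm_num
  have h3 : √3 ≤ (3 : ℝ) := by
    rw [Real.sqrt_le_left (by norm_num)]; norm_num
  fin_cases j <;> simp [len, h7, h3] <;> norm_num

/-- the number of lattice points in one sector -/
noncomputable def cnt (al be L : ℝ) : ℕ :=
  (((Finset.range (⌊L⌋₊ + 1)) ×ˢ (Finset.range (⌊L⌋₊ + 1))).filter
    (fun i : ℕ × ℕ => 1 ≤ i.1 ∧ (i.1 : ℝ) * al + (i.2 : ℝ) * be ≤ L)).card

theorem cnt_sum (al be L : ℝ) (m : ℕ) :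
    ∑ a ∈ Finset.range m, (L - ((a : ℝ) + 1) * al) / be =
      (m * L - al * (m * (m + 1) / 2)) / be := by
  induction m with
  | zero => simp
  | succ m ih =>
    rw [Finset.sum_range_succ, ih]
    push_cast
    ring

theorem cnt_ge (al be L : ℝ) (hL : 1 ≤ L) (ha : 1 ≤ al) (ha3 : al ≤ 3) (hb : 1 ≤ be) :
    L ^ 2 / (2 * al * be) - (L + 3) / 2 ≤ (cnt al be L : ℝ) := by
  have hal : 0 < al := by linarith
  have hbe : 0 < be := by linarith
  set m := ⌊L / al⌋₊ with hm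
  have hmle : (m : ℝ) ≤ L / al := Nat.floor_le (by positivity)
  have hmlt : L / al < m + 1 := Nat.lt_floor_add_one _
  have hmL : m ≤ ⌊L⌋₊ := Nat.floor_le_floor (div_le_self (by linarith) ha)
  -- the count as a double sum
  have h1 : (cnt al be L : ℝ) = ∑ a ∈ Finset.range (⌊L⌋₊ + 1),
      (((Finset.range (⌊L⌋₊ + 1)).filter
        (fun b : ℕ => 1 ≤ a ∧ (a : ℝ) * al + (b : ℝ) * be ≤ L)).card : ℝ) := by
    unfold cnt
    rw [Finset.card_filter, Finset.sum_product]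
    push_cast
    refine Finset.sum_congr rfl fun a _ => ?_
    rw [Finset.card_filter]
    push_cast
    rfl
  have h2 : ∀ a : ℕ, a < m → (L - ((a : ℝ) + 1) * al) / be ≤
      (((Finset.range (⌊L⌋₊ + 1)).filter
        (fun b : ℕ => 1 ≤ a + 1 ∧ ((a + 1 : ℕ) : ℝ) * al + (b : ℝ) * be ≤ L)).card : ℝ) := by
    intro a ham
    have ham' : (a : ℝ) + 1 ≤ m := by exact_mod_cast ham
    have h0 : 0 ≤ L - ((a : ℝ) + 1) * al := by
      have : ((a : ℝ) + 1) * al ≤ L / al * al :=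
        mul_le_mul_of_nonneg_right (ham'.trans hmle) hal.le
      rw [div_mul_cancel₀ _ hal.ne'] at this
      linarith
    have h0' : 0 ≤ (L - ((a : ℝ) + 1) * al) / be := by positivity
    set t := ⌊(L - ((a : ℝ) + 1) * al) / be⌋₊ with ht
    have hsub : Finset.range (t + 1) ⊆ (Finset.range (⌊L⌋₊ + 1)).filter
        (fun b : ℕ => 1 ≤ a + 1 ∧ ((a + 1 : ℕ) : ℝ) * al + (b : ℝ) * be ≤ L) := by
      intro b hb'
      rw [Finset.mem_range] at hb'
      have hbt : (b : ℝ) ≤ t := by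
        have : b ≤ t := by omega
        exact_mod_cast this
      have hbt2 : (b : ℝ) ≤ (L - ((a : ℝ) + 1) * al) / be := hbt.trans (Nat.floor_le h0')
      have hbt3 : (b : ℝ) * be ≤ L - ((a : ℝ) + 1) * al := by
        rwa [le_div_iff₀ hbe] at hbt2
      rw [Finset.mem_filter, Finset.mem_range]
      refine ⟨?_, by omega, ?_⟩
      · rw [Nat.lt_succ_iff]
        apply Nat.le_floor
        have : (b : ℝ) ≤ b * be := by
          have hb0 : (0 : ℝ) ≤ b := by positivity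
          nlinarith
        have : 0 ≤ ((a : ℝ) + 1) * al := by positivity
        linarith
      · push_cast
        linarith
    have hcard := Finset.card_le_card hsub
    rw [Finset.card_range] at hcard
    have h3 : (L - ((a : ℝ) + 1) * al) / be < t + 1 := Nat.lt_floor_add_one _
    have h4 : ((t : ℝ) + 1) ≤ (((Finset.range (⌊L⌋₊ + 1)).filter
        (fun b : ℕ => 1 ≤ a + 1 ∧ ((a + 1 : ℕ) : ℝ) * al + (b : ℝ) * be ≤ L)).card : ℝ) := by
      exact_mod_cast hcard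
    linarith
  have h3 : (m * L - al * (m * (m + 1) / 2)) / be ≤ (cnt al be L : ℝ) := by
    rw [h1, Finset.sum_range_succ', ← cnt_sum]
    calc ∑ a ∈ Finset.range m, (L - ((a : ℝ) + 1) * al) / be
        ≤ ∑ a ∈ Finset.range m, (((Finset.range (⌊L⌋₊ + 1)).filter
        (fun b : ℕ => 1 ≤ a + 1 ∧ ((a + 1 : ℕ) : ℝ) * al + (b : ℝ) * be ≤ L)).card : ℝ) :=
          Finset.sum_le_sum fun a ha => h2 a (Finset.mem_range.1 ha)
      _ ≤ ∑ a ∈ Finset.range ⌊L⌋₊, (((Finset.range (⌊L⌋₊ + 1)).filter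
        (fun b : ℕ => 1 ≤ a + 1 ∧ ((a + 1 : ℕ) : ℝ) * al + (b : ℝ) * be ≤ L)).card : ℝ) :=
          Finset.sum_le_sum_of_subset_of_nonneg (Finset.range_subset_range.2 hmL)
            fun _ _ _ => by positivity
      _ ≤ _ := le_add_of_nonneg_right (by positivity)
  refine le_trans ?_ h3
  -- the inequality
  set x := L / al - m with hx
  have hx0 : 0 ≤ x := by linarith
  have hx1 : x < 1 := by linarith
  have hmx : (m : ℝ) = L / al - x := by rw [hx]; ring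
  have e1 : (m : ℝ) * L - al * (m * (m + 1) / 2) =
      L ^ 2 / (2 * al) - al * x ^ 2 / 2 - (L - al * x) / 2 := by
    rw [hmx]
    field_simp
    ring
  rw [e1]
  have e2 : L ^ 2 / (2 * al * be) = L ^ 2 / (2 * al) / be := by
    rw [div_div]
  rw [e2]
  have e3 : (L ^ 2 / (2 * al) - al * x ^ 2 / 2 - (L - al * x) / 2) / be =
      L ^ 2 / (2 * al) / be - (al * x ^ 2 + (L - al * x)) / 2 / be := by
    field_simp
    ring
  rw [e3]
  have e4 : (al * x ^ 2 + (L - al * x)) / 2 / be ≤ (L + 3) / 2 := by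
    rw [div_le_iff₀ hbe]
    have h5 : al * x ^ 2 ≤ 3 := by
      have : x ^ 2 ≤ 1 := by nlinarith
      nlinarith [sq_nonneg x]
    have h6 : 0 ≤ al * x := by positivity
    nlinarith
  linarith

theorem mem_idx {L : ℝ} (hL : 0 ≤ L) (k : ZMod 6) (j : Fin 4) (a b : ℕ) :
    (k, j, a, b) ∈ idx L ↔ 1 ≤ a ∧ (a : ℝ) * len j.castSucc + (b : ℝ) * len j.succ ≤ L := by
  unfold idx
  rw [Finset.mem_filter]
  constructor
  · exact fun h => h.2
  · intro h
    refine ⟨?_, h⟩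
    have h1 := len_ge j.castSucc
    have h2 := len_ge j.succ
    have ha0 : (0 : ℝ) ≤ a := by positivity
    have hb0 : (0 : ℝ) ≤ b := by positivity
    have ha : (a : ℝ) ≤ L := by nlinarith [h.2]
    have hb : (b : ℝ) ≤ L := by nlinarith [h.2]
    simp only [Finset.mem_product, Finset.mem_univ, true_and, Finset.mem_range]
    exact ⟨Nat.lt_succ_iff.2 (Nat.le_floor ha), Nat.lt_succ_iff.2 (Nat.le_floor hb)⟩

theorem idx_card_le (L : ℝ) (hL : 1 ≤ L) : ((idx L).card : ℝ) ≤ 24 * (L + 1) ^ 2 := by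
  have h1 : (idx L).card ≤ 6 * (4 * ((⌊L⌋₊ + 1) * (⌊L⌋₊ + 1))) := by
    unfold idx
    refine (Finset.card_filter_le _ _).trans ?_
    rw [Finset.card_product, Finset.card_product, Finset.card_product, Finset.card_range,
      Finset.card_univ, Finset.card_univ, ZMod.card, Fintype.card_fin]
  have h2 : ((idx L).card : ℝ) ≤ 6 * (4 * (((⌊L⌋₊ : ℝ) + 1) * ((⌊L⌋₊ : ℝ) + 1))) := by
    exact_mod_cast h1
  have h3 : (⌊L⌋₊ : ℝ) ≤ L := Nat.floor_le (by linarith)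
  have h4 : (0 : ℝ) ≤ ⌊L⌋₊ := by positivity
  nlinarith

theorem idx_eq (L : ℝ) : ((idx L).card : ℝ) =
    6 * ∑ j : Fin 4, (cnt (len j.castSucc) (len j.succ) L : ℝ) := by
  unfold idx cnt
  rw [Finset.card_filter, Finset.sum_product]
  push_cast
  have h1 : ∀ x : ZMod 6, (∑ y ∈ Finset.univ ×ˢ Finset.range (⌊L⌋₊ + 1) ×ˢ
      Finset.range (⌊L⌋₊ + 1), if 1 ≤ ((x, y) : ZMod 6 × Fin 4 × ℕ × ℕ).2.2.1 ∧
        (((x, y) : ZMod 6 × Fin 4 × ℕ × ℕ).2.2.1 : ℝ) * len y.1.castSucc +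
        (((x, y) : ZMod 6 × Fin 4 × ℕ × ℕ).2.2.2 : ℝ) * len y.1.succ ≤ L then (1 : ℝ) else 0) =
      ∑ j : Fin 4, (((((Finset.range (⌊L⌋₊ + 1)) ×ˢ (Finset.range (⌊L⌋₊ + 1))).filter
    (fun i : ℕ × ℕ => 1 ≤ i.1 ∧ (i.1 : ℝ) * len j.castSucc + (i.2 : ℝ) * len j.succ ≤ L)).card : ℕ) : ℝ) := by
    intro x
    rw [Finset.sum_product]
    refine Finset.sum_congr rfl fun j _ => ?_
    rw [Finset.card_filter]
    push_cast
    rfl
  rw [Finset.sum_congr rfl fun x _ => h1 x, Finset.sum_const, Finset.card_univ, ZMod.card]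
  simp

theorem idx_card (L : ℝ) (hL : 1 ≤ L) : 3.577 * L ^ 2 - 100 * L ≤ ((idx L).card : ℝ) := by
  rw [idx_eq, Fin.sum_univ_four]
  have l0 : len (0 : Fin 4).castSucc = 1 := rfl
  have l1 : len (0 : Fin 4).succ = √7 := rfl
  have l2 : len (1 : Fin 4).castSucc = √7 := rfl
  have l3 : len (1 : Fin 4).succ = √3 := rfl
  have l4 : len (2 : Fin 4).castSucc = √3 := rfl
  have l5 : len (2 : Fin 4).succ = √7 := rfl
  have l6 : len (3 : Fin 4).castSucc = √7 := rfl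
  have l7 : len (3 : Fin 4).succ = 1 := rfl
  rw [l0, l1, l2, l3, l4, l5, l6, l7]
  have h7 : (1 : ℝ) ≤ √7 := by
    rw [Real.one_le_sqrt]; norm_num
  have h3 : (1 : ℝ) ≤ √3 := by
    rw [Real.one_le_sqrt]; norm_num
  have h7' : √7 ≤ (3 : ℝ) := by
    rw [Real.sqrt_le_left (by norm_num)]; norm_num
  have h3' : √3 ≤ (3 : ℝ) := by
    rw [Real.sqrt_le_left (by norm_num)]; norm_num
  have c0 := cnt_ge 1 (√7) L hL le_rfl (by norm_num) h7
  have c1 := cnt_ge (√7) (√3) L hL h7 h7' h3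
  have c2 := cnt_ge (√3) (√7) L hL h3 h3' h7
  have c3 := cnt_ge (√7) 1 L hL h7 h7' le_rfl
  have b7 : √7 ≤ (2.645752 : ℝ) := by
    rw [Real.sqrt_le_left (by norm_num)]; norm_num
  have b3 : √3 ≤ (1.732051 : ℝ) := by
    rw [Real.sqrt_le_left (by norm_num)]; norm_num
  have i7 : (0.377964 : ℝ) ≤ 1 / √7 := by
    rw [le_div_iff₀ (by linarith)]
    nlinarith
  have i21 : (0.218217 : ℝ) ≤ 1 / (√7 * √3) := by
    rw [le_div_iff₀ (by positivity)]
    have : √7 * √3 ≤ 2.645752 * 1.732051 := mul_le_mul b7 b3 (by positivity) (by norm_num)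
    nlinarith
  have e0 : L ^ 2 / (2 * 1 * √7) = L ^ 2 / 2 * (1 / √7) := by field_simp
  have e1 : L ^ 2 / (2 * √7 * √3) = L ^ 2 / 2 * (1 / (√7 * √3)) := by field_simp
  have e2 : L ^ 2 / (2 * √3 * √7) = L ^ 2 / 2 * (1 / (√7 * √3)) := by field_simp
  have e3 : L ^ 2 / (2 * √7 * 1) = L ^ 2 / 2 * (1 / √7) := by field_simp
  rw [e0] at c0
  rw [e1] at c1
  rw [e2] at c2
  rw [e3] at c3
  have k1 : L ^ 2 / 2 * 0.377964 ≤ L ^ 2 / 2 * (1 / √7) :=
    mul_le_mul_of_nonneg_left i7 (by positivity)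
  have k2 : L ^ 2 / 2 * 0.218217 ≤ L ^ 2 / 2 * (1 / (√7 * √3)) :=
    mul_le_mul_of_nonneg_left i21 (by positivity)
  nlinarith

theorem eps_cases (k : ZMod 6) :
    (k = 0 ∧ eps k = (1, 0) ∧ eps (k + 1) = (0, 1)) ∨
    (k = 1 ∧ eps k = (0, 1) ∧ eps (k + 1) = (-1, 1)) ∨
    (k = 2 ∧ eps k = (-1, 1) ∧ eps (k + 1) = (-1, 0)) ∨
    (k = 3 ∧ eps k = (-1, 0) ∧ eps (k + 1) = (0, -1)) ∨
    (k = 4 ∧ eps k = (0, -1) ∧ eps (k + 1) = (1, -1)) ∨
    (k = 5 ∧ eps k = (1, -1) ∧ eps (k + 1) = (1, 0)) := by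
  revert k
  decide

theorem sector {k k' : ZMod 6} {x y x' y' : ℤ} (hx : 1 ≤ x) (hy : 0 ≤ y) (hx' : 1 ≤ x')
    (hy' : 0 ≤ y')
    (e : x • eps k + y • eps (k + 1) = x' • eps k' + y' • eps (k' + 1)) :
    k = k' ∧ x = x' ∧ y = y' := by
  rcases eps_cases k with ⟨h1, h2, h3⟩ | ⟨h1, h2, h3⟩ | ⟨h1, h2, h3⟩ | ⟨h1, h2, h3⟩ |
    ⟨h1, h2, h3⟩ | ⟨h1, h2, h3⟩ <;>
  rcases eps_cases k' with ⟨g1, g2, g3⟩ | ⟨g1, g2, g3⟩ | ⟨g1, g2, g3⟩ | ⟨g1, g2, g3⟩ |
    ⟨g1, g2, g3⟩ | ⟨g1, g2, g3⟩ <;>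
  rw [h2, h3, g2, g3] at e <;>
  simp only [Prod.smul_mk, Prod.mk_add_mk, Prod.mk.injEq, smul_eq_mul] at e <;>
  first
    | (exfalso; omega)
    | exact ⟨h1.trans g1.symm, by omega, by omega⟩

theorem disp_eq (k : ZMod 6) (j : Fin 4) (a b : ℕ) : disp (k, j, a, b) =
    (![(a : ℤ) + 2 * b, 2 * a + b, a + b, a] j) • eps k +
    (![(b : ℤ), a + b, a + 2 * b, 2 * a + b] j) • eps (k + 1) := by
  unfold disp
  simp only
  generalize he : eps k = u
  generalize he' : eps (k + 1) = v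
  obtain ⟨u1, u2⟩ := u
  obtain ⟨v1, v2⟩ := v
  fin_cases j <;> simp [vec, he, he'] <;> constructor <;> ring

theorem disp_inj {i i' : ZMod 6 × Fin 4 × ℕ × ℕ} (h : 1 ≤ i.2.2.1) (h' : 1 ≤ i'.2.2.1)
    (e : disp i = disp i') : i = i' := by
  obtain ⟨k, j, a, b⟩ := i
  obtain ⟨k', j', a', b'⟩ := i'
  simp only at h h'
  rw [disp_eq, disp_eq] at e
  have hs : ∀ (j : Fin 4) (a b : ℕ), 1 ≤ a → 1 ≤ ![(a : ℤ) + 2 * b, 2 * a + b, a + b, a] j ∧
      0 ≤ ![(b : ℤ), a + b, a + 2 * b, 2 * a + b] j := by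
    intro j a b hab
    fin_cases j <;> simp <;> omega
  obtain ⟨hk, hx, hy⟩ := sector (hs j a b h).1 (hs j a b h).2 (hs j' a' b' h').1
    (hs j' a' b' h').2 e
  subst hk
  fin_cases j <;> fin_cases j' <;> simp at hx hy ⊢ <;> first | omega | (constructor <;> omega)

end Pool.Agent.Helper320.Gold.NC2
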