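import Mathlib
import Pool.Agent.Helper320.GBase

set_option autoImplicit false
open Set

namespace Pool.Agent.Helper320.Gold.NC4

open Pool.Agent.Helper320.Gold

theorem aux_norm {x y : E3} (hx : ‖x‖ = 1) (hy : ‖y‖ = 1) :
    ‖x - y‖ ^ 2 = 2 - 2 * Real.cos (InnerProductGeometry.angle x y) := by
  rw [norm_sub_sq_real, InnerProductGeometry.cos_angle, hx, hy]
  ring

theorem aux_cos : (0.83480248 : ℝ) < Real.cos 0.583 := by
  have step : ∀ x a b : ℝ, 0 ≤ a → a ≤ Real.cos x → b ≤ 2 * a ^ 2 - 1 → b ≤ Real.cos (2 * x) := by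
    intro x a b ha h1 h2
    rw [Real.cos_two_mul]
    have : a ^ 2 ≤ Real.cos x ^ 2 := pow_le_pow_left₀ ha h1 2
    linarith
  have h5 : (0.9998340385 : ℝ) ≤ Real.cos (0.583 / 32) := by
    refine le_trans ?_ (Real.one_sub_sq_div_two_le_cos)
    norm_num
  have h4 := step _ _ 0.999336209 (by norm_num) h5 (by norm_num)
  have h3 := step _ _ 0.9973457172 (by norm_num) h4 (by norm_num)
  have h2 := step _ _ 0.9893969592 (by norm_num) h3 (by norm_num)
  have h1 := step _ _ 0.9578126857 (by norm_num) h2 (by norm_num)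
  have h0 := step _ _ 0.8348102817 (by norm_num) h1 (by norm_num)
  have e : 2 * (2 * (2 * (2 * (2 * ((0.583 : ℝ) / 32))))) = 0.583 := by norm_num
  rw [e] at h0
  refine lt_of_lt_of_le ?_ h0
  norm_num

theorem angle_le_of_chord {x y : E3} (hx : ‖x‖ = 1) (hy : ‖y‖ = 1) {c : ℝ}
    (h : ‖x - y‖ ≤ c) (hc : c ≤ 1) : InnerProductGeometry.angle x y ≤ c * (1 + c) := by
  have hc0 : 0 ≤ c := le_trans (norm_nonneg _) h
  by_contra hcon
  push Not at hcon
  set θ := InnerProductGeometry.angle x y with hθ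
  have hsq : ‖x - y‖ ^ 2 ≤ c ^ 2 := pow_le_pow_left₀ (norm_nonneg _) h 2
  rw [aux_norm hx hy, ← hθ] at hsq
  have hθπ : θ ≤ Real.pi := InnerProductGeometry.angle_le_pi x y
  have h2 : c * (1 + c) ≤ 2 := by nlinarith
  have hcos : Real.cos θ < Real.cos (c * (1 + c)) := by
    apply Real.cos_lt_cos_of_nonneg_of_le_pi (by positivity) hθπ hcon
  set t := c * (1 + c) / 2 with ht
  have e : c * (1 + c) = 2 * t := by rw [ht]; ring
  rw [e, Real.cos_two_mul] at hcos
  have hs : c / 2 ≤ Real.sin t := by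
    rcases eq_or_lt_of_le hc0 with h0 | h0
    · rw [ht, ← h0]
      simp
    · have ht0 : 0 < t := by rw [ht]; positivity
      have ht1 : t ≤ 1 := by rw [ht]; linarith
      have h3' : t - t ^ 3 / 6 < Real.sin t := Real.sin_gt_sub_cube ht0
      have h3 : t - t ^ 3 / 4 < Real.sin t := by
        have : 0 < t ^ 3 := by positivity
        linarith
      have h4 : t ^ 3 / 4 ≤ c ^ 2 / 2 := by
        have h5 : (1 + c) ^ 3 ≤ 8 := by
          have : (1 + c) ^ 3 ≤ 2 ^ 3 := pow_le_pow_left₀ (by linarith) (by linarith) 3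
          linarith
        have h6 : t ^ 3 = c ^ 3 * (1 + c) ^ 3 / 8 := by rw [ht]; ring
        have h7 : c ^ 3 ≤ c ^ 2 := by nlinarith [sq_nonneg c]
        have h8 : 0 ≤ c ^ 3 := by positivity
        have h9 : c ^ 3 * (1 + c) ^ 3 ≤ c ^ 3 * 8 := mul_le_mul_of_nonneg_left h5 h8
        have h10 : 0 ≤ c ^ 2 := by positivity
        rw [h6]
        linarith
      have h11 : t = c / 2 + c ^ 2 / 2 := by rw [ht]; ring
      linarith
  have hs2 : (c / 2) ^ 2 ≤ Real.sin t ^ 2 := pow_le_pow_left₀ (by linarith) hs 2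
  have hsc := Real.sin_sq_add_cos_sq t
  nlinarith

theorem chain_bound (y : ℕ → E3) (c : ℕ → ℝ) (m : ℕ) (hy : ∀ i ≤ m, ‖y i‖ = 1)
    (h : ∀ i < m, ‖y (i + 1) - y i‖ ≤ c i) (hc : ∀ i < m, c i ≤ 1)
    (hs : ∑ i ∈ Finset.range m, c i * (1 + c i) ≤ 0.583) : ‖y m - y 0‖ < 0.5748 := by
  have key : ∀ k ≤ m, InnerProductGeometry.angle (y k) (y 0) ≤
      ∑ i ∈ Finset.range k, c i * (1 + c i) := by
    intro k
    induction k with
    | zero =>
      intro _
      have h0 : y 0 ≠ 0 := by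
        intro h0
        have := hy 0 (Nat.zero_le m)
        rw [h0, norm_zero] at this
        exact zero_ne_one this
      rw [InnerProductGeometry.angle_self h0]
      simp
    | succ k ih =>
      intro hk
      rw [Finset.sum_range_succ]
      have h1 := InnerProductGeometry.angle_le_angle_add_angle (y (k + 1)) (y k) (y 0)
      have h2 := angle_le_of_chord (hy (k + 1) hk) (hy k (by omega)) (h k (by omega))
        (hc k (by omega))
      have h3 := ih (by omega)
      linarith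
  have h1 : InnerProductGeometry.angle (y m) (y 0) ≤ 0.583 := (key m le_rfl).trans hs
  have h2 : Real.cos 0.583 ≤ Real.cos (InnerProductGeometry.angle (y m) (y 0)) := by
    apply Real.cos_le_cos_of_nonneg_of_le_pi (InnerProductGeometry.angle_nonneg _ _) _ h1
    have := Real.pi_gt_three
    norm_num
    linarith
  have h3 := aux_norm (hy m le_rfl) (hy 0 (Nat.zero_le m))
  have h4 := aux_cos
  have h5 : ‖y m - y 0‖ ^ 2 < 0.5748 ^ 2 := by
    rw [h3]
    have : (2 : ℝ) - 2 * 0.83480248 = 0.5748 ^ 2 := by norm_num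
    linarith
  exact lt_of_pow_lt_pow_left₀ 2 (by norm_num) h5

end Pool.Agent.Helper320.Gold.NC4
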