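import Mathlib
import Pool.Agent.Helper320.GBase
import Pool.Agent.Helper320.GC1
import Pool.Agent.Helper320.GC2
import Pool.Agent.Helper320.GC4

set_option autoImplicit false
open Set

namespace Pool.Agent.Helper320.Gold.NC3

open Pool.Agent.Helper320.Gold Pool.Agent.Helper320.Gold.NC1 Pool.Agent.Helper320.Gold.NC2 Pool.Agent.Helper320.Gold.NC4

/-- type of the `m`-th step of a broken geodesic -/
def ccj (j : Fin 4) (a m : ℕ) : Fin 5 := if m < a then j.castSucc else j.succ

/-- the points of a broken geodesic -/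
def ccy (T : ZMod 6 → E3 → E3) (k : ZMod 6) (j : Fin 4) (a : ℕ) (v : E3) : ℕ → E3
  | 0 => v
  | m + 1 => St T k (ccj j a m) (ccy T k j a v m)

/-- the working cap -/
def ccR (S : Finset E3) (p y : E3) : Prop := y ∈ S ∧ ‖y - p‖ < 0.5769

theorem cc_len_ge (j : Fin 5) : 1 ≤ len j := by
  have h7 : (1 : ℝ) ≤ √7 := by rw [Real.one_le_sqrt]; norm_num
  have h3 : (1 : ℝ) ≤ √3 := by rw [Real.one_le_sqrt]; norm_num
  fin_cases j <;> simp [len, h7, h3]

theorem cc_len_le (j : Fin 5) : len j ≤ 3 := by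
  have h7 : √7 ≤ (3 : ℝ) := by rw [Real.sqrt_le_left (by norm_num)]; norm_num
  have h3 : √3 ≤ (3 : ℝ) := by rw [Real.sqrt_le_left (by norm_num)]; norm_num
  fin_cases j <;> simp [len, h7, h3]

theorem cc_sum_len (j : Fin 4) (a b : ℕ) :
    ∑ m ∈ Finset.range (a + b), len (ccj j a m) =
      (a : ℝ) * len j.castSucc + (b : ℝ) * len j.succ := by
  rw [Finset.sum_range_add]
  congr 1
  · rw [Finset.sum_congr rfl (g := fun _ => len j.castSucc)]
    · simp
    · intro m hm
      rw [ccj, if_pos (Finset.mem_range.mp hm)]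
  · rw [Finset.sum_congr rfl (g := fun _ => len j.succ)]
    · simp
    · intro m hm
      rw [ccj, if_neg (by omega)]

theorem cc_sum_vec (k : ZMod 6) (j : Fin 4) (a b : ℕ) :
    ∑ m ∈ Finset.range (a + b), vec k (ccj j a m) = disp (k, j, a, b) := by
  rw [Finset.sum_range_add]
  unfold disp
  congr 1
  · rw [Finset.sum_congr rfl (g := fun _ => vec k j.castSucc)]
    · simp
    · intro m hm
      rw [ccj, if_pos (Finset.mem_range.mp hm)]
  · rw [Finset.sum_congr rfl (g := fun _ => vec k j.succ)]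
    · simp
    · intro m hm
      rw [ccj, if_neg (by omega)]

theorem cc_ab_le {L : ℝ} {k : ZMod 6} {j : Fin 4} {a b : ℕ} (hL : 0 ≤ L)
    (h : (k, j, a, b) ∈ idx L) : (a : ℝ) + b ≤ L := by
  obtain ⟨_, h2⟩ := (mem_idx hL k j a b).mp h
  have h3 := cc_len_ge j.castSucc
  have h4 := cc_len_ge j.succ
  have ha : (0 : ℝ) ≤ a := Nat.cast_nonneg a
  have hb : (0 : ℝ) ≤ b := Nat.cast_nonneg b
  nlinarith

section
variable {S : Finset E3} {p : E3} {q l δ : ℝ} {T : ZMod 6 → E3 → E3} {D : E3 → ℤ × ℤ}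

theorem cc_inj (h : Dev S p q T D) (hq0 : 0 ≤ q) (hq : q ≤ 1e-5) (k : ZMod 6) (j : Fin 4) (a : ℕ)
    {v v' : E3} (m : ℕ) (hv : ∀ m' < m, ccR S p (ccy T k j a v m'))
    (hv' : ∀ m' < m, ccR S p (ccy T k j a v' m'))
    (e : ccy T k j a v m = ccy T k j a v' m) : v = v' := by
  induction m with
  | zero => exact e
  | succ m ih =>
    have h1 := hv m (Nat.lt_succ_self m)
    have h2 := hv' m (Nat.lt_succ_self m)
    exact ih (fun m' hm' => hv m' (by omega)) (fun m' hm' => hv' m' (by omega))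
      (St_inj h hq0 hq h1.1 h1.2 h2.1 h2.2 k _ e)

theorem cc_D (h : Dev S p q T D) (hq0 : 0 ≤ q) (hq : q ≤ 1e-5) (k : ZMod 6) (j : Fin 4) (a : ℕ)
    {v : E3} (m : ℕ) (hv : ∀ m' < m, ccR S p (ccy T k j a v m')) :
    D (ccy T k j a v m) = D v + ∑ i ∈ Finset.range m, vec k (ccj j a i) := by
  induction m with
  | zero => simp [ccy]
  | succ m ih =>
    have h1 := hv m (Nat.lt_succ_self m)
    have h2 := ih (fun m' hm' => hv m' (by omega))
    have h3 := (St_mem h hq0 hq h1.1 h1.2 k (ccj j a m)).2.1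
    show D (St T k (ccj j a m) (ccy T k j a v m)) = _
    rw [h3, h2, Finset.sum_range_succ, add_assoc]

open Classical in
/-- number of bad steps -/
noncomputable def ccbad (S : Finset E3) (p : E3) (T : ZMod 6 → E3 → E3) (BB : Finset E3)
    (i : ZMod 6 × Fin 4 × ℕ × ℕ) (v : E3) : ℕ :=
  ((Finset.range (i.2.2.1 + i.2.2.2)).filter (fun m =>
    (∀ m' ≤ m, ccR S p (ccy T i.1 i.2.1 i.2.2.1 v m')) ∧
      ccy T i.1 i.2.1 i.2.2.1 v m ∈ BB)).card

theorem cc_sum_bad (h : Dev S p q T D) (hq0 : 0 ≤ q) (hq : q ≤ 1e-5) (BB M : Finset E3)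
    (i : ZMod 6 × Fin 4 × ℕ × ℕ) :
    ∑ v ∈ M, ccbad S p T BB i v ≤ (i.2.2.1 + i.2.2.2) * BB.card := by
  classical
  unfold ccbad
  simp only [Finset.card_filter]
  rw [Finset.sum_comm]
  calc _ ≤ ∑ m ∈ Finset.range (i.2.2.1 + i.2.2.2), BB.card := by
        refine Finset.sum_le_sum fun m _ => ?_
        rw [← Finset.card_filter]
        refine Finset.card_le_card_of_injOn (fun v => ccy T i.1 i.2.1 i.2.2.1 v m) ?_ ?_
        · intro v hv
          exact (Finset.mem_filter.mp hv).2.2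
        · intro v hv v' hv' e
          have h1 := (Finset.mem_filter.mp hv).2.1
          have h2 := (Finset.mem_filter.mp hv').2.1
          exact cc_inj h hq0 hq i.1 i.2.1 i.2.2.1 m (fun m' hm' => h1 m' hm'.le)
            (fun m' hm' => h2 m' hm'.le) e
    _ = (i.2.2.1 + i.2.2.2) * BB.card := by simp

theorem cc_claim (h : Dev S p q T D) (hS : ∀ x ∈ S, ‖x‖ = 1) (hq0 : 0 < q)
    (hq : q ≤ 1e-5) (hl : 0 < l) (hl' : l ≤ 1e-6) (hδ : 0 ≤ δ) (hδ' : δ ≤ 1e-4) (BB : Finset E3)
    (hBB : ∀ y ∈ S, ‖y - p‖ < 0.5769 → y ∉ BB →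
      ∀ k j, ‖St T k j y - y‖ ≤ len j * ((1 + 4 * δ) * l))
    (k : ZMod 6) (j : Fin 4) (a b : ℕ) (hi : (k, j, a, b) ∈ idx (0.58 / l)) {v : E3} (hv : v ∈ S)
    (hvp : ‖v - p‖ < 0.002) (hbad : (ccbad S p T BB (k, j, a, b) v : ℝ) ≤ 3e-4 / q) :
    (∀ m ≤ a + b, ccR S p (ccy T k j a v m)) ∧ ‖ccy T k j a v (a + b) - v‖ < 0.5748 := by
  classical
  have hL : (0 : ℝ) ≤ 0.58 / l := by positivity
  obtain ⟨ha, hlen⟩ := (mem_idx hL k j a b).mp hi
  have key : ∀ m, m < a + b → (∀ m' ≤ m, ccR S p (ccy T k j a v m')) →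
      ‖ccy T k j a v (m + 1) - v‖ < 0.5748 ∧ ccR S p (ccy T k j a v (m + 1)) := by
    intro m hm hR
    have hmem : ccy T k j a v (m + 1) ∈ S :=
      (St_mem h hq0.le hq (hR m le_rfl).1 (hR m le_rfl).2 k (ccj j a m)).1
    let c : ℕ → ℝ := fun i => if ccy T k j a v i ∈ BB then 6 * q
      else len (ccj j a i) * ((1 + 4 * δ) * l)
    have ht1 : (1 + 4 * δ) * l ≤ 1.0004 * l := by nlinarith
    have ht0 : 0 ≤ (1 + 4 * δ) * l := by positivity
    have hc1 : ∀ i, c i ≤ 1 := by
      intro i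
      simp only [c]
      split_ifs
      · norm_num at hq ⊢; linarith
      · have h1 := cc_len_le (ccj j a i)
        have h2 := cc_len_ge (ccj j a i)
        have h3 : (1 + 4 * δ) * l ≤ 0.1 := by norm_num at hl' ⊢; linarith
        nlinarith
    have hbnd : ∀ i, c i * (1 + c i) ≤ (if ccy T k j a v i ∈ BB then 7 * q else 0) +
        len (ccj j a i) * (1.0005 * l) := by
      intro i
      have h1 := cc_len_le (ccj j a i)
      have h2 := cc_len_ge (ccj j a i)
      simp only [c]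
      split_ifs
      · have h3 : 0 ≤ len (ccj j a i) * (1.0005 * l) := by positivity
        have h4 : 6 * q * (1 + 6 * q) ≤ 7 * q := by
          norm_num at hq
          nlinarith
        linarith
      · set t := (1 + 4 * δ) * l with ht
        have h3 : len (ccj j a i) * t ≤ 4e-6 := by
          have : len (ccj j a i) * t ≤ 3 * (1.0004 * l) := mul_le_mul h1 ht1 ht0 (by norm_num)
          norm_num at hl' this ⊢
          linarith
        have h4 : 1 + len (ccj j a i) * t ≤ 1 + 4e-6 := by linarith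
        have h5 : len (ccj j a i) * t * (1 + len (ccj j a i) * t) ≤
            len (ccj j a i) * t * (1 + 4e-6) := mul_le_mul_of_nonneg_left h4 (by positivity)
        have h6 : len (ccj j a i) * t ≤ len (ccj j a i) * (1.0004 * l) :=
          mul_le_mul_of_nonneg_left ht1 (by linarith)
        have h7 : 0 ≤ len (ccj j a i) * l := by positivity
        have h8 : len (ccj j a i) * (1.0004 * l) * (1 + 4e-6) ≤
            len (ccj j a i) * (1.0005 * l) := by
          norm_num; nlinarith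
        have h9 : len (ccj j a i) * t * (1 + 4e-6) ≤
            len (ccj j a i) * (1.0004 * l) * (1 + 4e-6) :=
          mul_le_mul_of_nonneg_right h6 (by norm_num)
        linarith
    have hsum : ∑ i ∈ Finset.range (m + 1), c i * (1 + c i) ≤ 0.583 := by
      have h1 : ∑ i ∈ Finset.range (m + 1), c i * (1 + c i) ≤
          ∑ i ∈ Finset.range (m + 1), ((if ccy T k j a v i ∈ BB then 7 * q else 0) +
            len (ccj j a i) * (1.0005 * l)) := Finset.sum_le_sum fun i _ => hbnd i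
      rw [Finset.sum_add_distrib, ← Finset.sum_mul, ← Finset.sum_filter, Finset.sum_const,
        nsmul_eq_mul] at h1
      have h2 : ∑ i ∈ Finset.range (m + 1), len (ccj j a i) ≤ 0.58 / l := by
        calc ∑ i ∈ Finset.range (m + 1), len (ccj j a i)
            ≤ ∑ i ∈ Finset.range (a + b), len (ccj j a i) := by
              refine Finset.sum_le_sum_of_subset_of_nonneg ?_ ?_
              · intro i hi'
                rw [Finset.mem_range] at hi' ⊢
                omega
              · intro i _ _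
                linarith [cc_len_ge (ccj j a i)]
          _ = (a : ℝ) * len j.castSucc + (b : ℝ) * len j.succ := cc_sum_len j a b
          _ ≤ 0.58 / l := hlen
      have h3 : (∑ i ∈ Finset.range (m + 1), len (ccj j a i)) * (1.0005 * l) ≤ 0.5803 := by
        calc (∑ i ∈ Finset.range (m + 1), len (ccj j a i)) * (1.0005 * l)
            ≤ 0.58 / l * (1.0005 * l) := mul_le_mul_of_nonneg_right h2 (by positivity)
          _ = 0.58 * 1.0005 := by field_simp
          _ ≤ 0.5803 := by norm_num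
      have h4 : (((Finset.range (m + 1)).filter (fun i => ccy T k j a v i ∈ BB)).card : ℝ) ≤
          3e-4 / q := by
        refine le_trans ?_ hbad
        rw [Nat.cast_le]
        unfold ccbad
        refine Finset.card_le_card ?_
        intro i hi'
        rw [Finset.mem_filter, Finset.mem_range] at hi' ⊢
        exact ⟨show i < a + b by omega, fun m' hm' => hR m' (by omega), hi'.2⟩
      have h5 : (((Finset.range (m + 1)).filter (fun i => ccy T k j a v i ∈ BB)).card : ℝ) *
          (7 * q) ≤ 2.1e-3 := by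
        calc (((Finset.range (m + 1)).filter (fun i => ccy T k j a v i ∈ BB)).card : ℝ) *
          (7 * q) ≤ 3e-4 / q * (7 * q) := mul_le_mul_of_nonneg_right h4 (by positivity)
          _ = 3e-4 * 7 := by field_simp
          _ ≤ 2.1e-3 := by norm_num
      norm_num at h1 h3 h5 ⊢
      linarith
    have hcb := chain_bound (ccy T k j a v) c (m + 1) (fun i hi' => ?_) (fun i hi' => ?_)
      (fun i _ => hc1 i) hsum
    · have h0 : ccy T k j a v 0 = v := rfl
      rw [h0] at hcb
      refine ⟨hcb, hmem, ?_⟩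
      calc ‖ccy T k j a v (m + 1) - p‖ = ‖(ccy T k j a v (m + 1) - v) + (v - p)‖ := by
            congr 1; abel
        _ ≤ ‖ccy T k j a v (m + 1) - v‖ + ‖v - p‖ := norm_add_le _ _
        _ < 0.5769 := by norm_num at hcb hvp ⊢; linarith
    · rcases Nat.lt_or_ge i (m + 1) with hlt | hge
      · exact hS _ (hR i (by omega)).1
      · have : i = m + 1 := by omega
        rw [this]; exact hS _ hmem
    · have hRi := hR i (by omega)
      show ‖St T k (ccj j a i) (ccy T k j a v i) - ccy T k j a v i‖ ≤ c i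
      simp only [c]
      split_ifs with hb
      · exact (St_mem h hq0.le hq hRi.1 hRi.2 k (ccj j a i)).2.2
      · exact hBB _ hRi.1 hRi.2 hb k (ccj j a i)
  have hall : ∀ m, m ≤ a + b → ∀ m' ≤ m, ccR S p (ccy T k j a v m') := by
    intro m
    induction m with
    | zero =>
      intro _ m' hm'
      have : m' = 0 := by omega
      rw [this]
      exact ⟨hv, by norm_num at hvp ⊢; show ‖v - p‖ < _; linarith⟩
    | succ m ih =>
      intro hm m' hm'
      have h1 := ih (by omega)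
      rcases Nat.lt_or_ge m' (m + 1) with hlt | hge
      · exact h1 m' (by omega)
      · have : m' = m + 1 := by omega
        rw [this]
        exact (key m (by omega) h1).2
  refine ⟨fun m hm => hall (a + b) le_rfl m hm, ?_⟩
  obtain ⟨n, hn⟩ : ∃ n, a + b = n + 1 := ⟨a + b - 1, by omega⟩
  rw [hn]
  exact (key n (by omega) (hall n (by omega))).1

end

theorem count_contra {S : Finset E3} {p : E3} {q l δ : ℝ} {T : ZMod 6 → E3 → E3}
    {D : E3 → ℤ × ℤ} (h : Dev S p q T D) (hS : ∀ x ∈ S, ‖x‖ = 1) (hq0 : 0 < q)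
    (hq : q ≤ 1e-5) (hl : 0 < l) (hl' : l ≤ 1e-6) (hδ : 0 ≤ δ) (hδ' : δ ≤ 1e-4)
    (Bad : Finset E3) (hB : (Bad.card : ℝ) * l * q ≤ 1e-16)
    (hgood : ∀ v ∈ S, ‖v - p‖ < 0.577 → v ∉ Bad → ∀ k, |‖T k v - v‖ - l| ≤ δ * l)
    (hup : ∀ v ∈ S, ‖v - p‖ < 0.002 →
      ((S.filter (fun w => ‖w - v‖ < 0.5748)).card : ℝ) * l ^ 2 ≤ 1.2)
    (hM : 1e-6 ≤ ((S.filter (fun v => ‖v - p‖ < 0.002)).card : ℝ) * l ^ 2) : False := by
  classical
  obtain ⟨BB, hBBc, hBB⟩ := St_len h hq0.le hq hl hδ hδ' Bad hgood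
  set L : ℝ := 0.58 / l with hLdef
  have hL0 : 0 ≤ L := by positivity
  have hLl : L * l = 0.58 := by rw [hLdef]; field_simp
  have hL1 : 1000 ≤ L := by
    rw [hLdef, le_div_iff₀ hl]
    norm_num at hl' ⊢
    linarith
  set M := S.filter (fun v => ‖v - p‖ < 0.002) with hMdef
  -- lower bound of the number of failing indices
  have hfail : ∀ v ∈ M, 0.003 / l ^ 2 ≤
      (((idx L).filter (fun i => 3e-4 / q < (ccbad S p T BB i v : ℝ))).card : ℝ) := by
    intro v hv
    rw [hMdef, Finset.mem_filter] at hv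
    have h1 : ((idx L).filter (fun i => ¬ 3e-4 / q < (ccbad S p T BB i v : ℝ))).card ≤
        (S.filter (fun w => ‖w - v‖ < 0.5748)).card := by
      refine Finset.card_le_card_of_injOn
        (fun i => ccy T i.1 i.2.1 i.2.2.1 v (i.2.2.1 + i.2.2.2)) ?_ ?_
      · rintro ⟨k, j, a, b⟩ hi
        have hi' := Finset.mem_filter.mp hi
        have h2 := cc_claim h hS hq0 hq hl hl' hδ hδ' BB hBB k j a b hi'.1 hv.1 hv.2
          (not_lt.mp hi'.2)
        exact Finset.mem_filter.mpr ⟨(h2.1 (a + b) le_rfl).1, h2.2⟩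
      · rintro ⟨k, j, a, b⟩ hi ⟨k', j', a', b'⟩ hi2 e
        have hi' := Finset.mem_filter.mp hi
        have hi2' := Finset.mem_filter.mp hi2
        have h2 := cc_claim h hS hq0 hq hl hl' hδ hδ' BB hBB k j a b hi'.1 hv.1 hv.2
          (not_lt.mp hi'.2)
        have h3 := cc_claim h hS hq0 hq hl hl' hδ hδ' BB hBB k' j' a' b' hi2'.1 hv.1 hv.2
          (not_lt.mp hi2'.2)
        have e1 := cc_D h hq0.le hq k j a (v := v) (a + b) (fun m' hm' => h2.1 m' hm'.le)
        have e2 := cc_D h hq0.le hq k' j' a' (v := v) (a' + b') (fun m' hm' => h3.1 m' hm'.le)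
        rw [cc_sum_vec] at e1 e2
        have e3 : ccy T k j a v (a + b) = ccy T k' j' a' v (a' + b') := e
        rw [e3, e2] at e1
        have e4 := add_left_cancel e1
        exact disp_inj ((mem_idx hL0 k j a b).mp hi'.1).1 ((mem_idx hL0 k' j' a' b').mp hi2'.1).1
          e4.symm
    have h2 := Finset.card_filter_add_card_filter_not (s := idx L)
      (fun i => 3e-4 / q < (ccbad S p T BB i v : ℝ))
    have h3 := hup v hv.1 hv.2
    have h4 := idx_card L (by linarith)
    have h5 : (((idx L).filter (fun i => 3e-4 / q < (ccbad S p T BB i v : ℝ))).card : ℝ) +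
        (((idx L).filter (fun i => ¬ 3e-4 / q < (ccbad S p T BB i v : ℝ))).card : ℝ) =
        ((idx L).card : ℝ) := by exact_mod_cast h2
    have h6 : (((idx L).filter (fun i => ¬ 3e-4 / q < (ccbad S p T BB i v : ℝ))).card : ℝ) ≤
        ((S.filter (fun w => ‖w - v‖ < 0.5748)).card : ℝ) := by exact_mod_cast h1
    rw [div_le_iff₀ (by positivity)]
    have h7 : (3.577 * L ^ 2 - 100 * L) * l ^ 2 = 3.577 * 0.58 ^ 2 - 58 * l := by
      have : (3.577 * L ^ 2 - 100 * L) * l ^ 2 = 3.577 * (L * l) ^ 2 - 100 * (L * l) * l := by ring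
      rw [this, hLl]; ring
    have hl2 : 0 < l ^ 2 := by positivity
    have h8 : (3.577 * L ^ 2 - 100 * L) * l ^ 2 ≤ ((idx L).card : ℝ) * l ^ 2 :=
      mul_le_mul_of_nonneg_right h4 hl2.le
    have h9 : (((idx L).filter (fun i => ¬ 3e-4 / q < (ccbad S p T BB i v : ℝ))).card : ℝ) * l ^ 2
        ≤ ((S.filter (fun w => ‖w - v‖ < 0.5748)).card : ℝ) * l ^ 2 :=
      mul_le_mul_of_nonneg_right h6 hl2.le
    have h10 : (((idx L).filter (fun i => 3e-4 / q < (ccbad S p T BB i v : ℝ))).card : ℝ) * l ^ 2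
        = ((idx L).card : ℝ) * l ^ 2 -
        (((idx L).filter (fun i => ¬ 3e-4 / q < (ccbad S p T BB i v : ℝ))).card : ℝ) * l ^ 2 := by
      rw [← h5]; ring
    rw [h10]
    rw [h7] at h8
    norm_num at h8 h9 h3 hl' ⊢
    linarith
  -- double counting
  have hlow : (M.card : ℝ) * (0.003 / l ^ 2 * (3e-4 / q)) ≤
      ∑ v ∈ M, ∑ i ∈ idx L, (ccbad S p T BB i v : ℝ) := by
    rw [← nsmul_eq_mul, ← Finset.sum_const]
    refine Finset.sum_le_sum fun v hv => ?_
    calc 0.003 / l ^ 2 * (3e-4 / q) ≤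
        (((idx L).filter (fun i => 3e-4 / q < (ccbad S p T BB i v : ℝ))).card : ℝ) * (3e-4 / q) :=
          mul_le_mul_of_nonneg_right (hfail v hv) (by positivity)
      _ = ∑ i ∈ (idx L).filter (fun i => 3e-4 / q < (ccbad S p T BB i v : ℝ)), (3e-4 / q) := by
          rw [Finset.sum_const, nsmul_eq_mul]
      _ ≤ ∑ i ∈ (idx L).filter (fun i => 3e-4 / q < (ccbad S p T BB i v : ℝ)),
          (ccbad S p T BB i v : ℝ) := Finset.sum_le_sum fun i hi => (Finset.mem_filter.mp hi).2.le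
      _ ≤ ∑ i ∈ idx L, (ccbad S p T BB i v : ℝ) :=
          Finset.sum_le_sum_of_subset_of_nonneg (Finset.filter_subset _ _)
            (fun i _ _ => Nat.cast_nonneg _)
  have hupp : ∑ v ∈ M, ∑ i ∈ idx L, (ccbad S p T BB i v : ℝ) ≤
      (24 * (L + 1) ^ 2) * (L * (43 * Bad.card)) := by
    rw [Finset.sum_comm]
    have hb : (BB.card : ℝ) ≤ 43 * Bad.card := by exact_mod_cast hBBc
    calc ∑ i ∈ idx L, ∑ v ∈ M, (ccbad S p T BB i v : ℝ)
        ≤ ∑ i ∈ idx L, L * (43 * (Bad.card : ℝ)) := by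
          refine Finset.sum_le_sum fun i hi => ?_
          obtain ⟨k, j, a, b⟩ := i
          have h1 := cc_sum_bad h hq0.le hq BB M (k, j, a, b)
          have h2 : ∑ v ∈ M, (ccbad S p T BB (k, j, a, b) v : ℝ) ≤ ((a : ℝ) + b) * BB.card := by
            exact_mod_cast h1
          have h3 := cc_ab_le hL0 hi
          calc ∑ v ∈ M, (ccbad S p T BB (k, j, a, b) v : ℝ) ≤ ((a : ℝ) + b) * BB.card := h2
            _ ≤ L * (43 * (Bad.card : ℝ)) := mul_le_mul h3 hb (Nat.cast_nonneg _) hL0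
      _ = ((idx L).card : ℝ) * (L * (43 * (Bad.card : ℝ))) := by
          rw [Finset.sum_const, nsmul_eq_mul]
      _ ≤ (24 * (L + 1) ^ 2) * (L * (43 * Bad.card)) :=
          mul_le_mul_of_nonneg_right (idx_card_le L (by linarith)) (by positivity)
  have hfin := hlow.trans hupp
  have h1 : (M.card : ℝ) * (0.003 / l ^ 2 * (3e-4 / q)) * (l ^ 4 * q) =
      (M.card : ℝ) * l ^ 2 * 9e-7 := by
    field_simp
    norm_num
    ring
  have h2 : (24 * (L + 1) ^ 2) * (L * (43 * (Bad.card : ℝ))) ≤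
      (24 * (1.001 * L) ^ 2) * (L * (43 * (Bad.card : ℝ))) := by
    refine mul_le_mul_of_nonneg_right ?_ (by positivity)
    have : L + 1 ≤ 1.001 * L := by norm_num; linarith
    nlinarith [mul_self_le_mul_self (by linarith : 0 ≤ L + 1) this]
  have h3 : (24 * (1.001 * L) ^ 2) * (L * (43 * (Bad.card : ℝ))) * (l ^ 4 * q) =
      24 * 1.001 ^ 2 * 43 * (L * l) ^ 3 * ((Bad.card : ℝ) * l * q) := by ring
  have h4 : (M.card : ℝ) * l ^ 2 * 9e-7 ≤
      24 * 1.001 ^ 2 * 43 * (L * l) ^ 3 * ((Bad.card : ℝ) * l * q) := by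
    rw [← h1, ← h3]
    exact mul_le_mul_of_nonneg_right (hfin.trans h2) (by positivity)
  rw [hLl] at h4
  norm_num at h4 hB hM
  linarith

end Pool.Agent.Helper320.Gold.NC3
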