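import Mathlib
import Pool.Agent.Helper320.GBase

set_option autoImplicit false
open Set Filter Topology

namespace Pool.Agent.Helper320.Gold.NCE

open Pool.Agent.Helper320.Gold

/-- A `G`-valued Cech 1-cocycle on a family of open sets: charts `W i`, transitions `c i j`. -/
structure Cyc (X : Type) [TopologicalSpace X] (G : Type) [Group G] (ι : Type) where
  W : ι → Set X
  c : ι → ι → X → G
  isOpen_W : ∀ i, IsOpen (W i)
  loc : ∀ i j, ∀ x ∈ W i ∩ W j, ∀ᶠ y in 𝓝 x, c i j y = c i j x
  cocycle : ∀ i j k, ∀ x, x ∈ W i → x ∈ W j → x ∈ W k → c j k x * c i j x = c i k x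

/-- `t` is a trivialisation of the cocycle over the set `B`. -/
structure IsTriv {X : Type} [TopologicalSpace X] {G : Type} [Group G] {ι : Type}
    (C : Cyc X G ι) (B : Set X) (t : ι → X → G) : Prop where
  loc : ∀ i, ∀ x ∈ B ∩ C.W i, ∀ᶠ y in 𝓝[B] x, t i y = t i x
  compat : ∀ i j, ∀ x ∈ B, x ∈ C.W i → x ∈ C.W j → t j x = C.c i j x * t i x
/-- On a simply connected, locally path connected space every cocycle whose charts cover
is trivial. -/
theorem exists_triv {X : Type} [TopologicalSpace X] [SimplyConnectedSpace X]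
    [LocallyPathConnectedSpace X] {G : Type} [Group G] {ι : Type} (C : Cyc X G ι)
    (hcov : ∀ x, ∃ i, x ∈ C.W i) : ∃ t : ι → X → G, IsTriv C univ t := by
  classical
  let tG : TopologicalSpace G := ⊥
  have hdG : DiscreteTopology G := ⟨rfl⟩
  have hcii : ∀ i x, x ∈ C.W i → C.c i i x = 1 := by
    intro i x hx
    have := C.cocycle i i i x hx hx hx
    exact mul_eq_left.1 this
  choose idx hidx using hcov
  let Z : FiberBundleCore ι X G :=
    { baseSet := C.W
      isOpen_baseSet := C.isOpen_W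
      indexAt := idx
      mem_baseSet_at := hidx
      coordChange := fun i j x g => C.c i j x * g
      coordChange_self := by
        intro i x hx v
        rw [hcii i x hx, one_mul]
      continuousOn_coordChange := by
        rintro i j ⟨x, g⟩ ⟨hx, _⟩
        apply ContinuousAt.continuousWithinAt
        have h1 : ∀ᶠ p in 𝓝 (x, g), C.c i j p.1 = C.c i j x :=
          (continuous_fst.tendsto (x, g)).eventually (C.loc i j x hx)
        have h2 : ∀ᶠ p in 𝓝 (x, g), p.2 = g :=
          (continuous_snd.tendsto (x, g)).eventually ((isOpen_discrete {g}).mem_nhds rfl)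
        have h3 : (fun p : X × G => C.c i j p.1 * p.2) =ᶠ[𝓝 (x, g)] fun _ => C.c i j x * g := by
          filter_upwards [h1, h2] with p hp1 hp2
          rw [hp1, hp2]
        exact continuousAt_const.congr h3.symm
      coordChange_comp := by
        rintro i j k x ⟨⟨hi, hj⟩, hk⟩ v
        rw [← mul_assoc, C.cocycle i j k x hi hj hk] }
  have hcovmap : IsCoveringMap (Bundle.TotalSpace.proj : Bundle.TotalSpace G Z.Fiber → X) :=
    FiberBundle.isCoveringMap
  obtain ⟨x0⟩ : Nonempty X := inferInstance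
  obtain ⟨σ, ⟨_, hσ⟩, _⟩ := hcovmap.existsUnique_continuousMap_lifts (ContinuousMap.id X) x0
    (⟨x0, (1 : G)⟩ : Bundle.TotalSpace G Z.Fiber) rfl
  have hσ' : ∀ x, (σ x).1 = x := fun x => congrFun hσ x
  let t : ι → X → G := fun i x => (Z.localTriv i (σ x)).2
  let s : X → G := fun x => (σ x).2
  have ht : ∀ i x, t i x = C.c (idx (σ x).1) i (σ x).1 * s x := fun i x => rfl
  refine ⟨t, ⟨?_, ?_⟩⟩
  · intro i x hx
    rw [nhdsWithin_univ]
    have hsrc : σ x ∈ (Z.localTriv i).source := by
      rw [FiberBundleCore.mem_localTriv_source, hσ' x]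
      exact hx.2
    have hcont : ContinuousAt (fun y => (Z.localTriv i (σ y)).2) x := by
      have h1 : ContinuousAt (Z.localTriv i) (σ x) :=
        (Z.localTriv i).toOpenPartialHomeomorph.continuousAt hsrc
      have h2 : ContinuousAt σ x := σ.continuous.continuousAt
      exact continuous_snd.continuousAt.comp (ContinuousAt.comp h1 h2)
    exact hcont.eventually ((isOpen_discrete {t i x}).mem_nhds rfl)
  · intro i j x _ hi hj
    rw [ht, ht, hσ' x, ← mul_assoc, C.cocycle _ i j x (hidx x) hi hj]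

theorem cech_convex {ι A : Type} [AddCommGroup A] (Q : Set E3) (hQ : Convex ℝ Q)
    (hQo : IsOpen Q) (hQn : Q.Nonempty) (W : ι → Set E3) (hWo : ∀ i, IsOpen (W i))
    (hWc : ∀ i, Convex ℝ (W i)) (hcov : ∀ x ∈ Q, ∃ i, x ∈ W i) (c : ι → ι → A)
    (hc : ∀ i j k, ∀ x ∈ Q, x ∈ W i → x ∈ W j → x ∈ W k → c i j + c j k = c i k) :
    ∃ t : ι → A, ∀ i j, ∀ x ∈ Q, x ∈ W i → x ∈ W j → t j = t i + c i j := by
  classical
  have hcontr : ContractibleSpace Q := hQ.contractibleSpace hQn
  have hsc : SimplyConnectedSpace Q := inferInstance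
  have hlp : LocallyPathConnectedSpace Q := hQo.locallyPathConnectedSpace
  let C : Cyc Q (Multiplicative A) ι :=
    { W := fun i => Subtype.val ⁻¹' (W i)
      c := fun i j _ => Multiplicative.ofAdd (c i j)
      isOpen_W := fun i => (hWo i).preimage continuous_subtype_val
      loc := fun i j x _ => Eventually.of_forall fun _ => rfl
      cocycle := by
        intro i j k x hi hj hk
        rw [mul_comm, ← ofAdd_add, hc i j k x x.2 hi hj hk] }
  obtain ⟨t', ht'⟩ := exists_triv C (fun x => hcov x x.2)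
  have hpre : ∀ i, IsPreconnected (Subtype.val ⁻¹' (W i) : Set Q) := by
    intro i
    have h1 : IsPreconnected (Subtype.val '' (Subtype.val ⁻¹' (W i) : Set Q)) := by
      rw [Subtype.image_preimage_coe]
      exact (hQ.inter (hWc i)).isPreconnected
    exact Topology.IsInducing.subtypeVal.isPreconnected_image.mp h1
  have hconst : ∀ i (x y : Q), (x : E3) ∈ W i → (y : E3) ∈ W i → t' i x = t' i y := by
    intro i x y hx hy
    let tG : TopologicalSpace (Multiplicative A) := ⊥
    have hdG : DiscreteTopology (Multiplicative A) := ⟨rfl⟩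
    apply (hpre i).constant (f := t' i) _ hx hy
    intro z hz
    apply ContinuousAt.continuousWithinAt
    have h1 := ht'.loc i z ⟨mem_univ _, hz⟩
    rw [nhdsWithin_univ] at h1
    exact (continuousAt_const (y := t' i z)).congr (h1.mono fun y hy => hy.symm)
  refine ⟨fun i => if h : (W i ∩ Q).Nonempty then
    Multiplicative.toAdd (t' i ⟨h.some, h.some_mem.2⟩) else 0, ?_⟩
  intro i j x hxQ hxi hxj
  have hi : (W i ∩ Q).Nonempty := ⟨x, hxi, hxQ⟩
  have hj : (W j ∩ Q).Nonempty := ⟨x, hxj, hxQ⟩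
  simp only [dif_pos hi, dif_pos hj]
  have h1 : t' i ⟨hi.some, hi.some_mem.2⟩ = t' i ⟨x, hxQ⟩ := hconst i _ _ hi.some_mem.1 hxi
  have h2 : t' j ⟨hj.some, hj.some_mem.2⟩ = t' j ⟨x, hxQ⟩ := hconst j _ _ hj.some_mem.1 hxj
  have h3 := ht'.compat i j ⟨x, hxQ⟩ (mem_univ _) hxi hxj
  rw [h1, h2, h3]
  show Multiplicative.toAdd (Multiplicative.ofAdd (c i j) * t' i ⟨x, hxQ⟩) = _
  rw [toAdd_mul, toAdd_ofAdd, add_comm]

end Pool.Agent.Helper320.Gold.NCE
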