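import Mathlib
import Pool.Agent.Helper320.GBase

set_option autoImplicit false
open Set

namespace Pool.Agent.Helper320.Gold.NN

open Pool.Agent.Helper320.Gold

/-- local version -/
theorem nerve_local (S : Finset E3) (a₀ : E3) (T : Finset E3) : T ⊆ S → ∃ η > 0,
    ∀ᶠ a in nhds a₀, ∀ x ∈ T, (∀ y ∈ S, inner ℝ a y ≤ inner ℝ a x + η) → IsMax S a₀ x := by
  classical
  induction T using Finset.induction_on with
  | empty => intro _; exact ⟨1, one_pos, Filter.Eventually.of_forall fun a x hx => by simp at hx⟩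
  | insert x T hx ih =>
    intro hT
    obtain ⟨η, hη, hev⟩ := ih ((Finset.subset_insert x T).trans hT)
    have hxS : x ∈ S := hT (Finset.mem_insert_self x T)
    by_cases hmax : IsMax S a₀ x
    · refine ⟨η, hη, ?_⟩
      filter_upwards [hev] with a ha x' hx' h
      rcases Finset.mem_insert.1 hx' with rfl | hx'
      · exact hmax
      · exact ha x' hx' h
    · have : ∃ y ∈ S, inner ℝ a₀ x < inner ℝ a₀ y := by
        by_contra hcon
        push Not at hcon
        exact hmax ⟨hxS, hcon⟩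
      obtain ⟨y, hy, hlt⟩ := this
      set g : ℝ := inner ℝ a₀ y - inner ℝ a₀ x with hg
      have hg0 : 0 < g := sub_pos.2 hlt
      have hcont : Continuous fun a : E3 => (inner ℝ a y - inner ℝ a x : ℝ) := by fun_prop
      have hev2 : ∀ᶠ a in nhds a₀, g / 2 < inner ℝ a y - inner ℝ a x :=
        hcont.continuousAt.eventually (lt_mem_nhds (by linarith : g / 2 < inner ℝ a₀ y - inner ℝ a₀ x))
      refine ⟨min η (g / 2), lt_min hη (by positivity), ?_⟩
      filter_upwards [hev, hev2] with a ha ha2 x' hx' h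
      rcases Finset.mem_insert.1 hx' with rfl | hx'
      · exfalso
        have h1 := h y hy
        have h2 : min η (g / 2) ≤ g / 2 := min_le_right _ _
        linarith
      · exact ha x' hx' fun y' hy' => (h y' hy').trans (by gcongr; exact min_le_left _ _)

theorem nerve {S : Finset E3} (hS : Good S) : ∃ η > 0, ∀ a : E3, ‖a‖ = 1 →
    ∃ b : E3, b ≠ 0 ∧ ∀ x ∈ S, (∀ y ∈ S, inner ℝ a y ≤ inner ℝ a x + η) → IsMax S b x := by
  have hcomp : IsCompact (Metric.sphere (0 : E3) 1) := isCompact_sphere 0 1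
  have key : ∃ η > 0, ∀ a ∈ Metric.sphere (0 : E3) 1,
    ∃ b : E3, b ≠ 0 ∧ ∀ x ∈ S, (∀ y ∈ S, inner ℝ a y ≤ inner ℝ a x + η) → IsMax S b x := by
    refine hcomp.induction_on (p := fun s => ∃ η > 0, ∀ a ∈ s,
      ∃ b : E3, b ≠ 0 ∧ ∀ x ∈ S, (∀ y ∈ S, inner ℝ a y ≤ inner ℝ a x + η) → IsMax S b x) ?_ ?_ ?_ ?_
    · exact ⟨1, one_pos, fun a ha => absurd ha (Set.notMem_empty a)⟩
    · rintro s t hst ⟨η, hη, h⟩
      exact ⟨η, hη, fun a ha => h a (hst ha)⟩
    · rintro s t ⟨η, hη, h⟩ ⟨η', hη', h'⟩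
      refine ⟨min η η', lt_min hη hη', ?_⟩
      rintro a (ha | ha)
      · obtain ⟨b, hb, hb'⟩ := h a ha
        exact ⟨b, hb, fun x hx hxy => hb' x hx fun y hy =>
          (hxy y hy).trans (by gcongr; exact min_le_left _ _)⟩
      · obtain ⟨b, hb, hb'⟩ := h' a ha
        exact ⟨b, hb, fun x hx hxy => hb' x hx fun y hy =>
          (hxy y hy).trans (by gcongr; exact min_le_right _ _)⟩
    · intro a₀ ha₀
      have ha0 : a₀ ≠ 0 := by
        rintro rfl; simp at ha₀
      obtain ⟨η, hη, hev⟩ := nerve_local S a₀ S subset_rfl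
      exact ⟨_, mem_nhdsWithin_of_mem_nhds hev, η, hη, fun a ha => ⟨a₀, ha0, ha⟩⟩
  obtain ⟨η, hη, h⟩ := key
  exact ⟨η, hη, fun a ha => h a (by simpa using ha)⟩

end Pool.Agent.Helper320.Gold.NN
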