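import Mathlib
import Pool.Agent.Helper320.GBase
import Pool.Agent.Helper320.GFA
import Pool.Agent.Helper320.GL
import Pool.Agent.Helper320.GN
import Pool.Agent.Helper320.GCE

set_option autoImplicit false
open Set

namespace Pool.Agent.Helper320.Gold.NDV

open Pool.Agent.Helper320.Gold Pool.Agent.Helper320.Gold.NFA Pool.Agent.Helper320.Gold.NL Pool.Agent.Helper320.Gold.NN Pool.Agent.Helper320.Gold.NCE

lemma dev_eps3 : ∀ k : ZMod 6, eps k + eps (k + 3) = 0 := by decide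

lemma dev_eps2 : ∀ k : ZMod 6, eps k + eps (k + 2) = eps (k + 1) := by decide

lemma dev_adj_symm {S : Finset E3} {v w : E3} (h : Adj S v w) : Adj S w v := by
  obtain ⟨h1, a, ha, h2⟩ := h
  exact ⟨h1.symm, a, ha, fun x => by rw [h2 x, or_comm]⟩

lemma dev_facet_rot {S : Finset E3} {u v w : E3} (h : Facet S u v w) : Facet S v w u := by
  obtain ⟨h1, h2, h3, a, ha, h4⟩ := h
  refine ⟨h2, h3.symm, h1.symm, a, ha, fun x => ?_⟩
  rw [h4 x]
  tauto

lemma dev_facet_swap {S : Finset E3} {u v w : E3} (h : Facet S u v w) : Facet S u w v := by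
  obtain ⟨h1, h2, h3, a, ha, h4⟩ := h
  refine ⟨h3, h2.symm, h1, a, ha, fun x => ?_⟩
  rw [h4 x]
  tauto

lemma dev_tp_rot (u v w : E3) : tp v w u = tp u v w := by
  unfold tp; ring

lemma dev_tp_swap (u v w : E3) : tp u w v = - tp u v w := by
  unfold tp; ring

lemma dev_inner (a b : E3) : inner ℝ a b = a 0 * b 0 + a 1 * b 1 + a 2 * b 2 := by
  rw [EuclideanSpace.inner_eq_star_dotProduct]
  simp [dotProduct, Fin.sum_univ_three]
  ring

lemma dev_ne {x y : E3} (hxy : x ≠ y) :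
    (x 0 - y 0) ^ 2 + (x 1 - y 1) ^ 2 + (x 2 - y 2) ^ 2 ≠ 0 := by
  intro h
  have s0 := sq_nonneg (x 0 - y 0)
  have s1 := sq_nonneg (x 1 - y 1)
  have s2 := sq_nonneg (x 2 - y 2)
  have h0 : (x 0 - y 0) ^ 2 = 0 := by linarith
  have h1 : (x 1 - y 1) ^ 2 = 0 := by linarith
  have h2 : (x 2 - y 2) ^ 2 = 0 := by linarith
  have g0 : x 0 = y 0 := sub_eq_zero.1 (pow_eq_zero_iff (two_ne_zero)|>.1 h0)
  have g1 : x 1 = y 1 := sub_eq_zero.1 (pow_eq_zero_iff (two_ne_zero)|>.1 h1)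
  have g2 : x 2 = y 2 := sub_eq_zero.1 (pow_eq_zero_iff (two_ne_zero)|>.1 h2)
  apply hxy
  ext i
  fin_cases i
  · exact g0
  · exact g1
  · exact g2

lemma dev_alg {c0 c1 c2 u0 u1 u2 v0 v1 v2 w0 w1 w2 : ℝ}
    (r0 : c0 * u0 + c1 * v0 + c2 * w0 = 0) (r1 : c0 * u1 + c1 * v1 + c2 * w1 = 0)
    (r2 : c0 * u2 + c1 * v2 + c2 * w2 = 0) (hs : c0 + c1 + c2 = 0)
    (nu : u0 * u0 + u1 * u1 + u2 * u2 = 1) (nv : v0 * v0 + v1 * v1 + v2 * v2 = 1)
    (nw : w0 * w0 + w1 * w1 + w2 * w2 = 1) :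
    c0 * c1 * ((u0 - v0) ^ 2 + (u1 - v1) ^ 2 + (u2 - v2) ^ 2) = 0 := by
  linear_combination (c0 * c1 + c0 ^ 2) * nu + (c0 * c1 + c1 ^ 2) * nv - c2 ^ 2 * nw -
    (c0 * u0 + c1 * v0 - c2 * w0) * r0 - (c0 * u1 + c1 * v1 - c2 * w1) * r1 -
    (c0 * u2 + c1 * v2 - c2 * w2) * r2 + (c0 + c1 - c2) * hs

/-- three distinct points of a facet are linearly independent -/
lemma dev_tp_ne {S : Finset E3} (hS : Good S) {u v w : E3} (h : Facet S u v w) :
    tp u v w ≠ 0 := by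
  obtain ⟨h1, h2, h3, a, ha, h4⟩ := h
  intro h0
  have hu : IsMax S a u := (h4 u).2 (Or.inl rfl)
  have hv : IsMax S a v := (h4 v).2 (Or.inr (Or.inl rfl))
  have hw : IsMax S a w := (h4 w).2 (Or.inr (Or.inr rfl))
  have euv : inner ℝ a u = inner ℝ a v := le_antisymm (hv.2 u hu.1) (hu.2 v hv.1)
  have euw : inner ℝ a u = inner ℝ a w := le_antisymm (hw.2 u hu.1) (hu.2 w hw.1)
  obtain ⟨x0, hx0, hpos⟩ := hS.origin a ha
  have hc : 0 < inner ℝ a u := hpos.trans_le (hu.2 x0 hx0)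
  -- a linear relation
  set M : Matrix (Fin 3) (Fin 3) ℝ := !![u 0, u 1, u 2; v 0, v 1, v 2; w 0, w 1, w 2] with hM
  have hdet : M.det = 0 := by
    rw [hM, Matrix.det_fin_three]
    simp only [Matrix.of_apply, Matrix.cons_val', Matrix.cons_val_zero, Matrix.cons_val_one,
      Matrix.cons_val]
    unfold tp at h0
    linarith
  obtain ⟨c, hc0, hc1⟩ := Matrix.exists_vecMul_eq_zero_iff.2 hdet
  have r0 : c 0 * u 0 + c 1 * v 0 + c 2 * w 0 = 0 := by
    have := congrFun hc1 0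
    simpa [Matrix.vecMul, dotProduct, Fin.sum_univ_three, hM] using this
  have r1 : c 0 * u 1 + c 1 * v 1 + c 2 * w 1 = 0 := by
    have := congrFun hc1 1
    simpa [Matrix.vecMul, dotProduct, Fin.sum_univ_three, hM] using this
  have r2 : c 0 * u 2 + c 1 * v 2 + c 2 * w 2 = 0 := by
    have := congrFun hc1 2
    simpa [Matrix.vecMul, dotProduct, Fin.sum_univ_three, hM] using this
  rw [dev_inner, dev_inner] at euv
  rw [dev_inner, dev_inner] at euw
  rw [dev_inner] at hc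
  have hsum : (c 0 + c 1 + c 2) * (a 0 * u 0 + a 1 * u 1 + a 2 * u 2) = 0 := by
    linear_combination a 0 * r0 + a 1 * r1 + a 2 * r2 + c 1 * euv + c 2 * euw
  have hs : c 0 + c 1 + c 2 = 0 := by
    rcases mul_eq_zero.1 hsum with h | h
    · exact h
    · exact absurd h hc.ne'
  have hn : ∀ x ∈ S, x 0 * x 0 + x 1 * x 1 + x 2 * x 2 = 1 := by
    intro x hx
    have := real_inner_self_eq_norm_sq x
    rw [hS.unit x hx, dev_inner] at this
    linarith
  have nu := hn u hu.1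
  have nv := hn v hv.1
  have nw := hn w hw.1
  have q1 : c 0 * c 1 = 0 :=
    (mul_eq_zero.1 (dev_alg r0 r1 r2 hs nu nv nw)).resolve_right (dev_ne h1)
  have q2 : c 1 * c 2 = 0 :=
    (mul_eq_zero.1 (dev_alg (c2 := c 0) (by linarith) (by linarith) (by linarith) (by linarith)
      nv nw nu)).resolve_right (dev_ne h2)
  have q3 : c 0 * c 2 = 0 :=
    (mul_eq_zero.1 (dev_alg (c2 := c 1) (by linarith) (by linarith) (by linarith) (by linarith)
      nu nw nv)).resolve_right (dev_ne h3)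
  apply hc0
  have z0 : c 0 = 0 := by
    have : c 0 * c 0 = 0 := by linear_combination c 0 * hs - q1 - q3
    simpa using this
  have z1 : c 1 = 0 := by
    have : c 1 * c 1 = 0 := by linear_combination c 1 * hs - q1 - q2
    simpa using this
  have z2 : c 2 = 0 := by linarith
  ext i
  fin_cases i
  · exact z0
  · exact z1
  · exact z2

/-- the cone over the cap -/
def devQ (p : E3) (r2 : ℝ) : Set E3 := {a | (1 - r2 ^ 2 / 2) * ‖a‖ < inner ℝ a p}

/-- the functionals that are almost maximal at `v` -/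
def devW (S : Finset E3) (p : E3) (e : ℝ) (v : E3) : Set E3 :=
  {a | v ∈ S ∧ ∀ x ∈ S, 0 < inner ℝ a (v - x) + e * inner ℝ a p}

lemma devQ_convex (p : E3) {r2 : ℝ} (h : 0 ≤ 1 - r2 ^ 2 / 2) : Convex ℝ (devQ p r2) := by
  intro a ha b hb s t hs ht hst
  simp only [devQ, Set.mem_ofPred_eq] at ha hb ⊢
  rw [inner_add_left, real_inner_smul_left, real_inner_smul_left]
  have h1 : ‖s • a + t • b‖ ≤ s * ‖a‖ + t * ‖b‖ := by
    refine (norm_add_le _ _).trans ?_
    rw [norm_smul, norm_smul, Real.norm_of_nonneg hs, Real.norm_of_nonneg ht]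
  have h2 := mul_le_mul_of_nonneg_left h1 h
  rcases hs.eq_or_lt with rfl | hs'
  · have ht1 : t = 1 := by linarith
    subst ht1
    linarith
  · have h3 : s * ((1 - r2 ^ 2 / 2) * ‖a‖) < s * inner ℝ a p := mul_lt_mul_of_pos_left ha hs'
    have h4 : t * ((1 - r2 ^ 2 / 2) * ‖b‖) ≤ t * inner ℝ b p := mul_le_mul_of_nonneg_left hb.le ht
    linarith

lemma devQ_open (p : E3) (r2 : ℝ) : IsOpen (devQ p r2) := by
  unfold devQ
  exact isOpen_lt (by fun_prop) (by fun_prop)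

lemma devW_open (S : Finset E3) (p : E3) (e : ℝ) (v : E3) : IsOpen (devW S p e v) := by
  by_cases hv : v ∈ S
  · have : devW S p e v = ⋂ x ∈ S, {a | 0 < inner ℝ a (v - x) + e * inner ℝ a p} := by
      ext a
      simp [devW, hv]
    rw [this]
    refine isOpen_biInter_finset fun x _ => ?_
    exact isOpen_lt (by fun_prop) (by fun_prop)
  · have : devW S p e v = ∅ := by
      ext a
      simp [devW, hv]
    rw [this]
    exact isOpen_empty

lemma devW_convex (S : Finset E3) (p : E3) (e : ℝ) (v : E3) : Convex ℝ (devW S p e v) := by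
  intro a ha b hb s t hs ht hst
  refine ⟨ha.1, fun x hx => ?_⟩
  have h1 := ha.2 x hx
  have h2 := hb.2 x hx
  rw [inner_add_left, real_inner_smul_left, real_inner_smul_left, inner_add_left,
    real_inner_smul_left, real_inner_smul_left]
  rcases hs.eq_or_lt with rfl | hs'
  · have ht1 : t = 1 := by linarith
    subst ht1
    linarith
  · have h3 := mul_pos hs' h1
    have h4 := mul_nonneg ht h2.le
    linarith

lemma devQ_pos {p a : E3} {r2 : ℝ} (h : 0 ≤ 1 - r2 ^ 2 / 2) (ha : a ∈ devQ p r2) :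
    0 < inner ℝ a p :=
  lt_of_le_of_lt (mul_nonneg h (norm_nonneg a)) ha

lemma devQ_norm {p a : E3} {r2 : ℝ} (h : 0 ≤ 1 - r2 ^ 2 / 2) (ha : a ∈ devQ p r2) :
    0 < ‖a‖ := by
  have h1 := devQ_pos h ha
  rw [norm_pos_iff]
  rintro rfl
  simp at h1

lemma dev_cover {S : Finset E3} (hSn : S.Nonempty) {p a : E3} {e : ℝ} (he : 0 < e)
    (ha : 0 < inner ℝ a p) : ∃ v, a ∈ devW S p e v := by
  obtain ⟨v, hv, hvm⟩ := S.exists_max_image (fun x => inner ℝ a x) hSn
  refine ⟨v, hv, fun x hx => ?_⟩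
  have := hvm x hx
  rw [inner_sub_right]
  have := mul_pos he ha
  linarith

/-- passing to the unit vector -/
lemma dev_unit {S : Finset E3} {p a : E3} {r2 e : ℝ} (h : 0 ≤ 1 - r2 ^ 2 / 2)
    (ha : a ∈ devQ p r2) : ∃ a' : E3, ‖a'‖ = 1 ∧ a' ∈ devQ p r2 ∧
      ∀ v, a ∈ devW S p e v → a' ∈ devW S p e v := by
  have hn := devQ_norm h ha
  have hn' : 0 < ‖a‖⁻¹ := inv_pos.2 hn
  refine ⟨‖a‖⁻¹ • a, ?_, ?_, ?_⟩
  · rw [norm_smul, norm_inv, norm_norm, inv_mul_cancel₀ hn.ne']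
  · simp only [devQ, Set.mem_ofPred_eq] at ha ⊢
    rw [norm_smul, norm_inv, norm_norm, real_inner_smul_left]
    have := mul_lt_mul_of_pos_left ha hn'
    linarith
  · intro v hv
    refine ⟨hv.1, fun x hx => ?_⟩
    have := mul_pos hn' (hv.2 x hx)
    rw [real_inner_smul_left, real_inner_smul_left]
    linarith

lemma dev_inner_le {a p : E3} (ha : ‖a‖ = 1) (hp : ‖p‖ = 1) : inner ℝ a p ≤ 1 := by
  have := real_inner_le_norm a p
  rw [ha, hp] at this
  linarith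

lemma dev_dist_sq {a x : E3} (ha : ‖a‖ = 1) (hx : ‖x‖ = 1) :
    ‖a - x‖ ^ 2 = 2 - 2 * inner ℝ a x := by
  rw [norm_sub_sq_real, ha, hx]
  ring

/-- FACT 1 -/
lemma dev_fact1 {S : Finset E3} {p : E3} (hp : ‖p‖ = 1) {r2 e η : ℝ}
    (h : 0 ≤ 1 - r2 ^ 2 / 2) (he : 0 < e) (heη : e ≤ η)
    (hη : ∀ a : E3, ‖a‖ = 1 →
      ∃ b : E3, b ≠ 0 ∧ ∀ x ∈ S, (∀ y ∈ S, inner ℝ a y ≤ inner ℝ a x + η) → IsMax S b x)
    {a : E3} (ha : a ∈ devQ p r2) :
    ∃ b : E3, b ≠ 0 ∧ ∀ v, a ∈ devW S p e v → IsMax S b v := by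
  obtain ⟨a', h1, h2, h3⟩ := dev_unit (S := S) (e := e) h ha
  obtain ⟨b, hb, hb'⟩ := hη a' h1
  refine ⟨b, hb, fun v hv => hb' v hv.1 fun y hy => ?_⟩
  have h4 := (h3 v hv).2 y hy
  rw [inner_sub_right] at h4
  have h5 := dev_inner_le h1 hp
  nlinarith

/-- FACT 2 -/
lemma dev_fact2 {S : Finset E3} (hS : Good S) {p : E3} (hp : ‖p‖ = 1) {r r2 e q : ℝ}
    (h : 0 ≤ 1 - r2 ^ 2 / 2) (hr2 : 0 < r2) (he : 0 < e)
    (hrr : r2 < r) (he2 : q ^ 2 + 2 * e < (r - r2) ^ 2)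
    (hcov : ∀ a : E3, ‖a‖ = 1 → ∃ x ∈ S, ‖a - x‖ ≤ q)
    {a : E3} (ha : a ∈ devQ p r2) {v : E3} (hv : a ∈ devW S p e v) : ‖v - p‖ < r := by
  obtain ⟨a', h1, h2, h3⟩ := dev_unit (S := S) (e := e) h ha
  obtain ⟨x, hx, hxq⟩ := hcov a' h1
  have h4 := (h3 v hv).2 x hx
  rw [inner_sub_right] at h4
  have h5 := dev_inner_le h1 hp
  have h6 := dev_dist_sq h1 (hS.unit x hx)
  have h7 := dev_dist_sq h1 (hS.unit v hv.1)
  have h8 := dev_dist_sq h1 hp
  have h9 : ‖a' - x‖ ^ 2 ≤ q ^ 2 := pow_le_pow_left₀ (norm_nonneg _) hxq 2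
  have h10 : ‖a' - v‖ ^ 2 < (r - r2) ^ 2 := by nlinarith
  have h11 : ‖a' - v‖ < r - r2 := lt_of_pow_lt_pow_left₀ 2 (by linarith) h10
  have h12 : ‖a' - p‖ ^ 2 < r2 ^ 2 := by
    simp only [devQ, Set.mem_ofPred_eq, h1] at h2
    nlinarith
  have h13 : ‖a' - p‖ < r2 := lt_of_pow_lt_pow_left₀ 2 hr2.le h12
  have h14 : ‖v - p‖ ≤ ‖v - a'‖ + ‖a' - p‖ := norm_sub_le_norm_sub_add_norm_sub _ _ _
  rw [norm_sub_rev v a'] at h14
  linarith

/-- the maximal points of a functional, as a finset -/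
lemma dev_max_card {S : Finset E3} (hS : Good S) {b : E3} (hb : b ≠ 0) :
    ∃ T : Finset E3, T.card ≤ 3 ∧ ∀ x, x ∈ T ↔ IsMax S b x := by
  classical
  refine ⟨S.filter (IsMax S b), hS.simp b hb _ fun x hx => (Finset.mem_filter.1 hx).2,
    fun x => ?_⟩
  rw [Finset.mem_filter]
  exact ⟨fun h => h.2, fun h => ⟨h.1, h⟩⟩

lemma dev_facet_of {S : Finset E3} (hS : Good S) {b : E3} (hb : b ≠ 0) {u v w : E3}
    (hu : IsMax S b u) (hv : IsMax S b v) (hw : IsMax S b w) (h1 : u ≠ v) (h2 : v ≠ w)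
    (h3 : u ≠ w) : Facet S u v w := by
  classical
  obtain ⟨T, hT, hT'⟩ := dev_max_card hS hb
  have hsub : ({u, v, w} : Finset E3) ⊆ T := by
    intro x hx
    simp only [Finset.mem_insert, Finset.mem_singleton] at hx
    rcases hx with rfl | rfl | rfl
    · exact (hT' _).2 hu
    · exact (hT' _).2 hv
    · exact (hT' _).2 hw
  have hc : ({u, v, w} : Finset E3).card = 3 := Finset.card_eq_three.2 ⟨u, v, w, h1, h3, h2, rfl⟩
  have he : ({u, v, w} : Finset E3) = T := Finset.eq_of_subset_of_card_le hsub (by omega)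
  refine ⟨h1, h2, h3, b, hb, fun x => ?_⟩
  rw [← hT', ← he]
  simp

lemma dev_adj_of {S : Finset E3} (hS : Good S) {b : E3} (hb : b ≠ 0) {u v : E3}
    (hu : IsMax S b u) (hv : IsMax S b v) (h1 : u ≠ v) : Adj S u v := by
  classical
  by_cases h : ∃ w, IsMax S b w ∧ w ≠ u ∧ w ≠ v
  · obtain ⟨w, hw, hwu, hwv⟩ := h
    exact adj_of_facet hS (dev_facet_of hS hb hu hv hw h1 hwv.symm hwu.symm)
  · push Not at h
    refine ⟨h1, b, hb, fun x => ⟨fun hx => ?_, ?_⟩⟩
    · by_cases hxu : x = u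
      · exact Or.inl hxu
      · exact Or.inr (h x hx hxu)
    · rintro (rfl | rfl)
      · exact hu
      · exact hv

lemma dev_cocycle {S : Finset E3} (hS : Good S) {A : Type} [AddCommGroup A] (c : E3 → E3 → A)
    (V : E3 → Prop) (hfac : ∀ u v w, V u → V v → V w → u ≠ v → v ≠ w → u ≠ w → Facet S u v w)
    (diag : ∀ v, c v v = 0) (anti : ∀ v w, V v → V w → v ≠ w → c v w + c w v = 0)
    (fac : ∀ u v w, V u → V v → V w → Facet S u v w → 0 < tp u v w → c u v + c v w = c u w)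
    (u v w : E3) (hu : V u) (hv : V v) (hw : V w) : c u v + c v w = c u w := by
  by_cases h1 : u = v
  · subst h1
    rw [diag, zero_add]
  by_cases h2 : v = w
  · subst h2
    rw [diag, add_zero]
  by_cases h3 : u = w
  · subst h3
    rw [diag]
    exact anti u v hu hv h1
  have F := hfac u v w hu hv hw h1 h2 h3
  rcases lt_trichotomy (tp u v w) 0 with h | h | h
  · have F' := dev_facet_swap F
    have h' : 0 < tp u w v := by rw [dev_tp_swap]; linarith
    have e1 := fac u w v hu hw hv F' h'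
    have e2 := anti v w hv hw h2
    rw [← e1, add_assoc, add_comm (c w v), e2, add_zero]
  · exact absurd h (dev_tp_ne hS F)
  · exact fac u v w hu hv hw F h

theorem exists_dev {S : Finset E3} (hS : Good S) {p : E3} (hp : ‖p‖ = 1) {r r1 q : ℝ}
    (hr : r ≤ 1) (hr1 : 0 < r1) (hq : 0 ≤ q) (hrr : r1 + 2 * q < r)
    (hcov : ∀ a : E3, ‖a‖ = 1 → ∃ x ∈ S, ‖a - x‖ ≤ q)
    (h6 : ∀ v ∈ S, ‖v - p‖ < r → {w | Adj S v w}.ncard = 6) :
    ∃ (T : ZMod 6 → E3 → E3) (D : E3 → ℤ × ℤ),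
      (∀ v ∈ S, ‖v - p‖ < r1 → ∀ k, Adj S v (T k v) ∧ D (T k v) = D v + eps k) ∧
      (∀ v ∈ S, ‖v - p‖ < r1 → ∀ k, ‖T k v - p‖ < r1 → T (k + 3) (T k v) = v ∧
          T (k + 2) (T k v) = T (k + 1) v) := by
  classical
  obtain ⟨η, hη, hnerve⟩ := nerve hS
  obtain ⟨r2, hr2⟩ : ∃ r2, r2 = r1 + q := ⟨_, rfl⟩
  have hr2pos : 0 < r2 := by linarith
  have hr2r : r2 + q < r := by linarith
  have hr2lt : r2 < 1 := by linarith
  have hc : 0 ≤ 1 - r2 ^ 2 / 2 := by nlinarith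
  obtain ⟨e, he, heη, he2⟩ : ∃ e, 0 < e ∧ e ≤ η ∧ q ^ 2 + 2 * e < (r - r2) ^ 2 := by
    have h1 : 0 < (r - r2) ^ 2 - q ^ 2 := by nlinarith
    refine ⟨min η (((r - r2) ^ 2 - q ^ 2) / 4), lt_min hη (by linarith), min_le_left _ _, ?_⟩
    have := min_le_right η (((r - r2) ^ 2 - q ^ 2) / 4)
    linarith
  -- labels
  have hlab : ∀ v, ∃ lab : E3 → ZMod 6, v ∈ S → ‖v - p‖ < r →
      (∀ w, Adj S v w → lab (nxt S v w) = lab w + 1) ∧ ∀ k, ∃! w, Adj S v w ∧ lab w = k := by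
    intro v
    by_cases h : v ∈ S ∧ ‖v - p‖ < r
    · obtain ⟨lab, hl⟩ := exists_label hS (h6 v h.1 h.2)
      exact ⟨lab, fun _ _ => hl⟩
    · exact ⟨fun _ => 0, fun h1 h2 => absurd ⟨h1, h2⟩ h⟩
  choose lab hlab using hlab
  have hSn : S.Nonempty := by
    obtain ⟨x, hx, _⟩ := hcov p hp
    exact ⟨x, hx⟩
  have hnear : ∀ a ∈ devQ p r2, ∀ v, a ∈ devW S p e v → v ∈ S ∧ ‖v - p‖ < r := by
    intro a ha v hv
    exact ⟨hv.1, dev_fact2 hS hp hc hr2pos he (by linarith) he2 hcov ha hv⟩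
  have hadj : ∀ a ∈ devQ p r2, ∀ v w, a ∈ devW S p e v → a ∈ devW S p e w → v ≠ w →
      Adj S v w := by
    intro a ha v w hv hw hvw
    obtain ⟨b, hb, hb'⟩ := dev_fact1 hp hc he heη hnerve ha
    exact dev_adj_of hS hb (hb' v hv) (hb' w hw) hvw
  have hfac : ∀ a ∈ devQ p r2, ∀ u v w, a ∈ devW S p e u → a ∈ devW S p e v →
      a ∈ devW S p e w → u ≠ v → v ≠ w → u ≠ w → Facet S u v w := by
    intro a ha u v w hu hv hw h1 h2 h3
    obtain ⟨b, hb, hb'⟩ := dev_fact1 hp hc he heη hnerve ha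
    exact dev_facet_of hS hb (hb' u hu) (hb' v hv) (hb' w hw) h1 h2 h3
  have lab_rot : ∀ u v w, u ∈ S → ‖u - p‖ < r → Facet S u v w → 0 < tp u v w →
      lab u w = lab u v + 1 := by
    intro u v w hu hur F ht
    have := (hlab u hu hur).1 v (adj_of_facet hS F)
    rw [nxt_eq hS F ht] at this
    exact this
  -- first cocycle
  have six : (6 : ZMod 6) = 0 := by decide
  obtain ⟨c, hcd⟩ : ∃ c : E3 → E3 → ZMod 6,
    c = fun v w => if v = w then 0 else lab v w - lab w v + 3 := ⟨_, rfl⟩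
  have cdiag : ∀ v, c v v = 0 := fun v => by rw [hcd]; simp
  have cne : ∀ v w, v ≠ w → c v w = lab v w - lab w v + 3 := fun v w h => by
    rw [hcd]; simp only; rw [if_neg h]
  have ccoc : ∀ i j k, ∀ x ∈ devQ p r2, x ∈ devW S p e i → x ∈ devW S p e j →
      x ∈ devW S p e k → c i j + c j k = c i k := by
    intro i j k a ha hi hj hk
    refine dev_cocycle hS c (fun v => a ∈ devW S p e v) (hfac a ha) cdiag ?_ ?_ i j k hi hj hk
    · intro v w _ _ hvw
      rw [cne v w hvw, cne w v hvw.symm]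
      linear_combination six
    · intro u v w hu hv hw F ht
      obtain ⟨hu1, hu2⟩ := hnear a ha u hu
      obtain ⟨hv1, hv2⟩ := hnear a ha v hv
      obtain ⟨hw1, hw2⟩ := hnear a ha w hw
      have F1 := dev_facet_rot F
      have F2 := dev_facet_rot F1
      have t1 : 0 < tp v w u := by rw [dev_tp_rot]; exact ht
      have t2 : 0 < tp w u v := by rw [dev_tp_rot]; exact t1
      have l1 := lab_rot u v w hu1 hu2 F ht
      have l2 := lab_rot v w u hv1 hv2 F1 t1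
      have l3 := lab_rot w u v hw1 hw2 F2 t2
      rw [cne u v F.1, cne v w F.2.1, cne u w F.2.2.1]
      linear_combination (-1 : ZMod 6) * l1 - l2 - l3
  obtain ⟨t, ht⟩ := cech_convex (devQ p r2) (devQ_convex p hc) (devQ_open p r2)
    ⟨p, by
      simp only [devQ, Set.mem_ofPred_eq, real_inner_self_eq_norm_sq, hp]
      nlinarith⟩ (devW S p e) (devW_open S p e) (devW_convex S p e)
    (fun x hx => dev_cover hSn he (devQ_pos hc hx)) c ccoc
  obtain ⟨P, hP⟩ : ∃ P : E3 → E3 → ZMod 6, P = fun v w => lab v w + t v := ⟨_, rfl⟩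
  have hP3 : ∀ a ∈ devQ p r2, ∀ v w, a ∈ devW S p e v → a ∈ devW S p e w → v ≠ w →
      P w v = P v w + 3 := by
    intro a ha v w hv hw hvw
    have h1 := ht v w a ha hv hw
    rw [cne v w hvw] at h1
    rw [hP]
    simp only
    linear_combination h1
  have hProt : ∀ u v w, u ∈ S → ‖u - p‖ < r → Facet S u v w → 0 < tp u v w →
      P u w = P u v + 1 := by
    intro u v w hu hur F h0
    have := lab_rot u v w hu hur F h0
    rw [hP]
    simp only
    linear_combination this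
  have hPex : ∀ v, v ∈ S → ‖v - p‖ < r → ∀ k, ∃! w, Adj S v w ∧ P v w = k := by
    intro v hv hvr k
    obtain ⟨w, hw, hw'⟩ := (hlab v hv hvr).2 (k - t v)
    refine ⟨w, ⟨hw.1, ?_⟩, fun y hy => hw' y ⟨hy.1, ?_⟩⟩
    · rw [hP]
      simp only
      rw [hw.2]
      ring
    · have := hy.2
      rw [hP] at this
      simp only at this
      rw [← this]
      ring
  have hT : ∀ (k : ZMod 6) (v : E3), ∃ w, v ∈ S → ‖v - p‖ < r → Adj S v w ∧ P v w = k := by
    intro k v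
    by_cases h : v ∈ S ∧ ‖v - p‖ < r
    · obtain ⟨w, hw, _⟩ := hPex v h.1 h.2 k
      exact ⟨w, fun _ _ => hw⟩
    · exact ⟨v, fun h1 h2 => absurd ⟨h1, h2⟩ h⟩
  choose T hT using hT
  have hTu : ∀ v, v ∈ S → ‖v - p‖ < r → ∀ w, Adj S v w → ∀ k, P v w = k → T k v = w := by
    intro v hv hvr w hw k hk
    exact (hPex v hv hvr k).unique (hT k v hv hvr) ⟨hw, hk⟩
  -- second cocycle
  obtain ⟨c', hcd'⟩ : ∃ c' : E3 → E3 → ℤ × ℤ,
    c' = fun v w => if v = w then 0 else eps (P v w) := ⟨_, rfl⟩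
  have cdiag' : ∀ v, c' v v = 0 := fun v => by rw [hcd']; simp
  have cne' : ∀ v w, v ≠ w → c' v w = eps (P v w) := fun v w h => by
    rw [hcd']; simp only; rw [if_neg h]
  have ccoc' : ∀ i j k, ∀ x ∈ devQ p r2, x ∈ devW S p e i → x ∈ devW S p e j →
      x ∈ devW S p e k → c' i j + c' j k = c' i k := by
    intro i j k a ha hi hj hk
    refine dev_cocycle hS c' (fun v => a ∈ devW S p e v) (hfac a ha) cdiag' ?_ ?_ i j k hi hj hk
    · intro v w hv hw hvw
      rw [cne' v w hvw, cne' w v hvw.symm, hP3 a ha v w hv hw hvw]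
      exact dev_eps3 _
    · intro u v w hu hv hw F h0
      obtain ⟨hu1, hu2⟩ := hnear a ha u hu
      obtain ⟨hv1, hv2⟩ := hnear a ha v hv
      have F1 := dev_facet_rot F
      have t1 : 0 < tp v w u := by rw [dev_tp_rot]; exact h0
      have l1 := hProt u v w hu1 hu2 F h0
      have l2 := hProt v w u hv1 hv2 F1 t1
      have l3 := hP3 a ha u v hu hv F.1
      have l4 : P v w = P u v + 2 := by linear_combination l3 - l2
      rw [cne' u v F.1, cne' v w F.2.1, cne' u w F.2.2.1, l1, l4]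
      exact dev_eps2 _
  obtain ⟨D, hD⟩ := cech_convex (devQ p r2) (devQ_convex p hc) (devQ_open p r2)
    ⟨p, by
      simp only [devQ, Set.mem_ofPred_eq, real_inner_self_eq_norm_sq, hp]
      nlinarith⟩ (devW S p e) (devW_open S p e) (devW_convex S p e)
    (fun x hx => dev_cover hSn he (devQ_pos hc hx)) c' ccoc'
  -- edges at near vertices
  have hedge : ∀ v w, v ∈ S → ‖v - p‖ < r1 → Adj S v w →
      w ∈ S ∧ D w = D v + eps (P v w) ∧ P w v = P v w + 3 := by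
    intro v w hv hvr hvw
    obtain ⟨hne, a, ha, hmax⟩ := hvw
    have hn : 0 < ‖a‖ := norm_pos_iff.2 ha
    have hn' : 0 < ‖a‖⁻¹ := inv_pos.2 hn
    have hmv : IsMax S a v := (hmax v).2 (Or.inl rfl)
    have hmw : IsMax S a w := (hmax w).2 (Or.inr rfl)
    obtain ⟨a', ha'⟩ : ∃ a' : E3, a' = ‖a‖⁻¹ • a := ⟨_, rfl⟩
    have hu : ‖a'‖ = 1 := by
      rw [ha', norm_smul, norm_inv, norm_norm, inv_mul_cancel₀ hn.ne']
    have hmv' : ∀ x ∈ S, inner ℝ a' x ≤ inner ℝ a' v := by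
      intro x hx
      rw [ha', real_inner_smul_left, real_inner_smul_left]
      exact mul_le_mul_of_nonneg_left (hmv.2 x hx) hn'.le
    have hmw' : ∀ x ∈ S, inner ℝ a' x ≤ inner ℝ a' w := by
      intro x hx
      rw [ha', real_inner_smul_left, real_inner_smul_left]
      exact mul_le_mul_of_nonneg_left (hmw.2 x hx) hn'.le
    obtain ⟨x, hx, hxq⟩ := hcov a' hu
    have h7 := dev_dist_sq hu (hS.unit x hx)
    have h8 := dev_dist_sq hu (hS.unit v hv)
    have h9 : ‖a' - x‖ ^ 2 ≤ q ^ 2 := pow_le_pow_left₀ (norm_nonneg _) hxq 2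
    have h10 : ‖a' - v‖ ^ 2 ≤ q ^ 2 := by
      have := hmv' x hx
      linarith
    have h11 : ‖a' - v‖ ≤ q := le_of_sq_le_sq h10 hq
    have h12 : ‖a' - p‖ < r2 := by
      have := norm_sub_le_norm_sub_add_norm_sub a' v p
      linarith
    have h13 := dev_dist_sq hu hp
    have h14 : ‖a' - p‖ ^ 2 < r2 ^ 2 := pow_lt_pow_left₀ h12 (norm_nonneg _) two_ne_zero
    have haQ : a' ∈ devQ p r2 := by
      simp only [devQ, Set.mem_ofPred_eq, hu]
      linarith
    have hpos := mul_pos he (devQ_pos hc haQ)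
    have haV : a' ∈ devW S p e v := by
      refine ⟨hv, fun x hx => ?_⟩
      rw [inner_sub_right]
      have := hmv' x hx
      linarith
    have haW : a' ∈ devW S p e w := by
      refine ⟨hmw.1, fun x hx => ?_⟩
      rw [inner_sub_right]
      have := hmw' x hx
      linarith
    have hD' := hD v w a' haQ haV haW
    rw [cne' v w hne] at hD'
    exact ⟨hmw.1, hD', hP3 a' haQ v w haV haW hne⟩
  refine ⟨T, D, fun v hv hvr k => ?_, fun v hv hvr k hkr => ?_⟩
  · have h1 := hT k v hv (by linarith)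
    refine ⟨h1.1, ?_⟩
    rw [(hedge v _ hv hvr h1.1).2.1, h1.2]
  · have h1 := hT k v hv (by linarith)
    obtain ⟨hwS, _, hw3⟩ := hedge v _ hv hvr h1.1
    have hwr : ‖T k v - p‖ < r := by linarith
    refine ⟨hTu _ hwS hwr v (dev_adj_symm h1.1) (k + 3) (by rw [hw3, h1.2]), ?_⟩
    obtain ⟨F, htp⟩ := nxt_spec hS h1.1
    have hx1 := hProt v (T k v) _ hv (by linarith) F htp
    rw [h1.2] at hx1
    have hx2 : T (k + 1) v = nxt S v (T k v) :=
      hTu v hv (by linarith) _ (adj_nxt hS h1.1) (k + 1) hx1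
    rw [hx2]
    have F1 := dev_facet_rot F
    have t1 : 0 < tp (T k v) (nxt S v (T k v)) v := by rw [dev_tp_rot]; exact htp
    have hx3 := hProt (T k v) (nxt S v (T k v)) v hwS hwr F1 t1
    refine hTu (T k v) hwS hwr _ (adj_of_facet hS F1) (k + 2) ?_
    rw [hw3, h1.2] at hx3
    linear_combination (-1 : ZMod 6) * hx3

end Pool.Agent.Helper320.Gold.NDV
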