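import Mathlib
import Pool.Agent.Helper320.GBase
import Pool.Agent.Helper320.GFA
import Pool.Agent.Helper320.GL

set_option autoImplicit false
open Set

namespace Pool.Agent.Helper320.Gold.NFC

open Pool.Agent.Helper320.Gold Pool.Agent.Helper320.Gold.NFA Pool.Agent.Helper320.Gold.NL

theorem fiber_card {S : Finset E3} (hS : Good S) (w : E3) (hw : w ∈ S) :
    ((FS S).filter (fun t => t.1 = w)).card = {x | Adj S w x}.ncard := by
  classical
  have hmem : ∀ {v x : E3}, Adj S v x → x ∈ S := by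
    rintro v x ⟨_, a, _, ha⟩
    exact ((ha x).2 (Or.inr rfl)).1
  have hfin : {x | Adj S w x} ⊆ (S : Set E3) := fun x hx => hmem hx
  have hFS : ∀ t : E3 × E3 × E3, t ∈ (FS S).filter (fun t => t.1 = w) ↔
      t.1 = w ∧ Facet S t.1 t.2.1 t.2.2 ∧ 0 < tp t.1 t.2.1 t.2.2 := by
    intro t
    rw [Finset.mem_filter, FS, Finset.mem_filter]
    constructor
    · rintro ⟨⟨_, h1⟩, h2⟩
      exact ⟨h2, h1⟩
    · rintro ⟨h2, h1⟩
      refine ⟨⟨?_, h1⟩, h2⟩
      obtain ⟨⟨_, _, _, a, _, ha⟩, _⟩ := h1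
      rw [Finset.mem_product, Finset.mem_product]
      exact ⟨((ha _).2 (Or.inl rfl)).1, ((ha _).2 (Or.inr (Or.inl rfl))).1,
        ((ha _).2 (Or.inr (Or.inr rfl))).1⟩
  have himg : (((FS S).filter (fun t => t.1 = w) : Finset (E3 × E3 × E3)) : Set (E3 × E3 × E3)) =
      (fun x => (w, x, nxt S w x)) '' {x | Adj S w x} := by
    ext t
    rw [Finset.mem_coe, hFS]
    constructor
    · rintro ⟨rfl, h1, h2⟩
      refine ⟨t.2.1, adj_of_facet hS h1, ?_⟩
      show (t.1, t.2.1, nxt S t.1 t.2.1) = t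
      rw [nxt_eq hS h1 h2]
    · rintro ⟨x, hx, rfl⟩
      exact ⟨rfl, nxt_spec hS hx⟩
  rw [← Set.ncard_coe_finset, himg, Set.ncard_image_of_injective]
  intro x y hxy
  exact (Prod.ext_iff.1 (Prod.ext_iff.1 hxy).2).1

end Pool.Agent.Helper320.Gold.NFC
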