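import Mathlib
import Pool.Agent.Helper320.GBase
import Pool.Agent.Helper320.GFA

set_option autoImplicit false
open Set

namespace Pool.Agent.Helper320.Gold.NFB

open Pool.Agent.Helper320.Gold Pool.Agent.Helper320.Gold.NFA

/-- cross product -/
noncomputable def cr (v w : E3) : E3 :=
  !₂[v 1 * w 2 - v 2 * w 1, v 2 * w 0 - v 0 * w 2, v 0 * w 1 - v 1 * w 0]

lemma inner_cr (v w u : E3) : inner ℝ (cr v w) u = tp u v w := by
  simp only [PiLp.inner_apply, Fin.sum_univ_three, cr, tp]
  simp
  ring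

lemma cramer (u v w x : E3) :
    tp u v w • x = tp x v w • u + tp x w u • v + tp x u v • w := by
  ext i
  fin_cases i <;> simp [tp] <;> ring

/-- the polar polytope -/
def PP (S : Finset E3) : Set E3 := {a | ∀ y ∈ S, inner ℝ a y ≤ 1}

lemma PP_closed (S : Finset E3) : IsClosed (PP S) := by
  have : PP S = ⋂ y ∈ S, {a | inner ℝ a y ≤ 1} := by
    ext a; simp [PP]
  rw [this]
  apply isClosed_biInter
  intro y _
  exact isClosed_le (by fun_prop) continuous_const

lemma PP_bdd {S : Finset E3} (hS : Good S) : ∃ R : ℝ, PP S ⊆ Metric.closedBall 0 R := by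
  have hg : Continuous fun a : E3 => ∑ y ∈ S, max (inner ℝ a y) 0 := by fun_prop
  have hne : (Metric.sphere (0 : E3) 1).Nonempty := NormedSpace.sphere_nonempty.2 (by norm_num)
  obtain ⟨e, he, hmin⟩ := (isCompact_sphere (0 : E3) 1).exists_isMinOn hne hg.continuousOn
  have hc : 0 < ∑ y ∈ S, max (inner ℝ e y) 0 := by
    have he0 : e ≠ 0 := by
      intro h; rw [h] at he; simp at he
    obtain ⟨y, hy, hpos⟩ := hS.origin e he0
    apply Finset.sum_pos' (fun z _ => le_max_right _ _)
    exact ⟨y, hy, lt_max_of_lt_left hpos⟩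
  set c := ∑ y ∈ S, max (inner ℝ e y) 0 with hcdef
  refine ⟨S.card / c, ?_⟩
  intro a ha
  rw [mem_closedBall_zero_iff]
  by_cases h0 : a = 0
  · rw [h0, norm_zero]; positivity
  · have hn : 0 < ‖a‖ := norm_pos_iff.2 h0
    have hsph : (‖a‖⁻¹ • a) ∈ Metric.sphere (0 : E3) 1 := by
      rw [mem_sphere_zero_iff_norm, norm_smul, norm_inv, norm_norm, inv_mul_cancel₀ hn.ne']
    have h1 : c ≤ ∑ y ∈ S, max (inner ℝ (‖a‖⁻¹ • a) y) 0 := hmin hsph
    have h2 : ∑ y ∈ S, max (inner ℝ (‖a‖⁻¹ • a) y) 0 ≤ ∑ y ∈ S, ‖a‖⁻¹ := by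
      apply Finset.sum_le_sum
      intro y hy
      rw [real_inner_smul_left]
      apply max_le
      · have := ha y hy
        have h3 : ‖a‖⁻¹ * inner ℝ a y ≤ ‖a‖⁻¹ * 1 :=
          mul_le_mul_of_nonneg_left this (by positivity)
        linarith
      · positivity
    rw [Finset.sum_const, nsmul_eq_mul] at h2
    have h3 : c ≤ S.card * ‖a‖⁻¹ := h1.trans h2
    rw [le_div_iff₀ hc]
    have h4 : c * ‖a‖ ≤ (S.card * ‖a‖⁻¹) * ‖a‖ := mul_le_mul_of_nonneg_right h3 hn.le
    rw [mul_assoc, inv_mul_cancel₀ hn.ne', mul_one] at h4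
    linarith

lemma PP_compact {S : Finset E3} (hS : Good S) : IsCompact (PP S) := by
  obtain ⟨R, hR⟩ := PP_bdd hS
  exact (isCompact_closedBall (0 : E3) R).of_isClosed_subset (PP_closed S) hR

/-- active points -/
noncomputable def act (S : Finset E3) (a : E3) : Finset E3 := by
  classical exact S.filter fun y => inner ℝ a y = 1

lemma mem_act {S : Finset E3} {a y : E3} : y ∈ act S a ↔ y ∈ S ∧ inner ℝ a y = 1 := by
  unfold act
  simp

/-- a maximiser with the maximal number of active points -/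
lemma exists_best {S : Finset E3} (hS : Good S) (x : E3) :
    ∃ a ∈ PP S, (∀ b ∈ PP S, inner ℝ b x ≤ inner ℝ a x) ∧
      ∀ b ∈ PP S, inner ℝ b x = inner ℝ a x → (act S b).card ≤ (act S a).card := by
  have hcont : Continuous fun a : E3 => inner ℝ a x := by fun_prop
  have hne : (PP S).Nonempty := ⟨0, fun y _ => by simp⟩
  obtain ⟨a₀, ha₀, hmax⟩ := (PP_compact hS).exists_isMaxOn hne hcont.continuousOn
  set F : Set E3 := {a | a ∈ PP S ∧ inner ℝ a x = inner ℝ a₀ x} with hF
  have hFne : F.Nonempty := ⟨a₀, ha₀, rfl⟩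
  have hcard : ∀ b, (act S b).card ≤ S.card := by
    intro b
    apply Finset.card_le_card
    intro y hy
    exact (mem_act.1 hy).1
  set a := Function.argminOn (fun a => S.card - (act S a).card) F hFne with ha
  have haF : a ∈ F := Function.argminOn_mem _ _ _
  refine ⟨a, haF.1, ?_, ?_⟩
  · intro b hb
    rw [haF.2]
    exact hmax hb
  · intro b hb hbx
    have hbF : b ∈ F := ⟨hb, hbx.trans haF.2⟩
    have := Function.argminOn_le (fun a => S.card - (act S a).card) F hbF
    have h1 : S.card - (act S a).card ≤ S.card - (act S b).card := this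
    have h2 := hcard a
    have h3 := hcard b
    omega

lemma exists_orth (A : Finset E3) (hA : A.card ≤ 2) : ∃ d : E3, d ≠ 0 ∧ ∀ y ∈ A, inner ℝ d y = 0 := by
  set V : Submodule ℝ E3 := Submodule.span ℝ (A : Set E3) with hV
  have h1 : Module.finrank ℝ V ≤ 2 := (finrank_span_finset_le_card A).trans hA
  have h2 := V.finrank_add_finrank_orthogonal
  have h3 : Module.finrank ℝ E3 = 3 := by simp
  have h4 : Vᗮ ≠ ⊥ := by
    intro h
    rw [h, finrank_bot] at h2
    omega
  obtain ⟨d, hd, hd0⟩ := Submodule.exists_mem_ne_zero_of_ne_bot h4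
  refine ⟨d, hd0, fun y hy => ?_⟩
  rw [real_inner_comm]
  exact hd y (Submodule.subset_span hy)

lemma three_le {S : Finset E3} (hS : Good S) (x a : E3) (ha : a ∈ PP S)
    (hmax : ∀ b ∈ PP S, inner ℝ b x ≤ inner ℝ a x)
    (hbest : ∀ b ∈ PP S, inner ℝ b x = inner ℝ a x → (act S b).card ≤ (act S a).card) :
    3 ≤ (act S a).card := by
  classical
  by_contra hlt
  obtain ⟨d₀, hd₀, hd₀o⟩ := exists_orth (act S a) (by omega)
  obtain ⟨d, hd, hdo, hdx⟩ : ∃ d : E3, d ≠ 0 ∧ (∀ y ∈ act S a, inner ℝ d y = 0) ∧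
      0 ≤ inner ℝ d x := by
    by_cases h : 0 ≤ inner ℝ d₀ x
    · exact ⟨d₀, hd₀, hd₀o, h⟩
    · refine ⟨-d₀, neg_ne_zero.2 hd₀, fun y hy => ?_, ?_⟩
      · rw [inner_neg_left, hd₀o y hy, neg_zero]
      · rw [inner_neg_left]; linarith
  obtain ⟨y₁, hy₁, hy₁pos⟩ := hS.origin d hd
  set T := S.filter fun y => 0 < inner ℝ d y with hT
  have hTne : T.Nonempty := ⟨y₁, Finset.mem_filter.2 ⟨hy₁, hy₁pos⟩⟩
  obtain ⟨y₀, hy₀, hmin⟩ := Finset.exists_min_image T
    (fun y => (1 - inner ℝ a y) / inner ℝ d y) hTne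
  have hy₀S := (Finset.mem_filter.1 hy₀).1
  have hy₀pos := (Finset.mem_filter.1 hy₀).2
  set s := (1 - inner ℝ a y₀) / inner ℝ d y₀ with hs
  have hs0 : 0 ≤ s := div_nonneg (by linarith [ha y₀ hy₀S]) hy₀pos.le
  have hb : a + s • d ∈ PP S := by
    intro y hy
    rw [inner_add_left, real_inner_smul_left]
    by_cases hp : 0 < inner ℝ d y
    · have h1 := hmin y (Finset.mem_filter.2 ⟨hy, hp⟩)
      rw [le_div_iff₀ hp] at h1
      linarith
    · have h1 : s * inner ℝ d y ≤ 0 := mul_nonpos_of_nonneg_of_nonpos hs0 (not_lt.1 hp)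
      have h2 := ha y hy
      linarith
  have hbx : inner ℝ (a + s • d) x = inner ℝ a x := by
    apply le_antisymm (hmax _ hb)
    rw [inner_add_left, real_inner_smul_left]
    have := mul_nonneg hs0 hdx
    linarith
  have hc := hbest _ hb hbx
  have hsub : insert y₀ (act S a) ⊆ act S (a + s • d) := by
    intro y hy
    rw [Finset.mem_insert] at hy
    rw [mem_act, inner_add_left, real_inner_smul_left]
    rcases hy with rfl | hy
    · refine ⟨hy₀S, ?_⟩
      rw [hs, div_mul_cancel₀ _ hy₀pos.ne']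
      ring
    · have h1 := mem_act.1 hy
      refine ⟨h1.1, ?_⟩
      rw [hdo y hy, h1.2]; ring
  have hnot : y₀ ∉ act S a := by
    intro h
    have := hdo y₀ h
    linarith
  have h1 := Finset.card_le_card hsub
  rw [Finset.card_insert_of_notMem hnot] at h1
  omega

/-- first order optimality -/
lemma first_order {S : Finset E3} (x a d : E3) (ha : a ∈ PP S)
    (hmax : ∀ b ∈ PP S, inner ℝ b x ≤ inner ℝ a x)
    (hd : ∀ y ∈ act S a, inner ℝ d y ≤ 0) : inner ℝ d x ≤ 0 := by
  have hev : ∀ y ∈ S, ∀ᶠ e : ℝ in nhdsWithin 0 (Set.Ioi 0), inner ℝ (a + e • d) y ≤ 1 := by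
    intro y hy
    by_cases h1 : inner ℝ a y = 1
    · have h2 := hd y (mem_act.2 ⟨hy, h1⟩)
      filter_upwards [self_mem_nhdsWithin] with e he
      have he' : 0 < e := he
      rw [inner_add_left, real_inner_smul_left, h1]
      have := mul_nonpos_of_nonneg_of_nonpos he'.le h2
      linarith
    · have h2 : inner ℝ a y < 1 := lt_of_le_of_ne (ha y hy) h1
      have hcont : Continuous fun e : ℝ => inner ℝ (a + e • d) y := by fun_prop
      have h3 : ∀ᶠ e : ℝ in nhds 0, inner ℝ (a + e • d) y < 1 := by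
        apply (hcont.tendsto 0).eventually_lt_const
        simpa using h2
      exact (h3.filter_mono nhdsWithin_le_nhds).mono fun e he => he.le
  have hall : ∀ᶠ e : ℝ in nhdsWithin 0 (Set.Ioi 0), ∀ y ∈ S, inner ℝ (a + e • d) y ≤ 1 :=
    (Finset.eventually_all S).2 hev
  obtain ⟨e, he, hepos⟩ := (hall.and self_mem_nhdsWithin).exists
  have hepos' : 0 < e := hepos
  have h4 := hmax (a + e • d) he
  rw [inner_add_left, real_inner_smul_left] at h4
  by_contra hcon
  push Not at hcon
  have := mul_pos hepos' hcon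
  linarith

theorem exists_facet_cone {S : Finset E3} (hS : Good S) (x : E3) :
    ∃ u v w : E3, Facet S u v w ∧ 0 < tp u v w ∧
      ∃ r s t : ℝ, 0 ≤ r ∧ 0 ≤ s ∧ 0 ≤ t ∧ x = r • u + s • v + t • w := by
  classical
  obtain ⟨a, ha, hmax, hbest⟩ := exists_best hS x
  have h3 := three_le hS x a ha hmax hbest
  have ha0 : a ≠ 0 := by
    intro h
    obtain ⟨y, hy⟩ : (act S a).Nonempty := Finset.card_pos.1 (by omega)
    have := (mem_act.1 hy).2
    rw [h, inner_zero_left] at this
    norm_num at this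
  have hIs : ∀ y, IsMax S a y ↔ y ∈ act S a := by
    intro y
    rw [mem_act]
    constructor
    · rintro ⟨hy, hm⟩
      refine ⟨hy, le_antisymm (ha y hy) ?_⟩
      obtain ⟨z, hz⟩ : (act S a).Nonempty := Finset.card_pos.1 (by omega)
      have h1 := mem_act.1 hz
      rw [← h1.2]
      exact hm z h1.1
    · rintro ⟨hy, h1⟩
      refine ⟨hy, fun z hz => ?_⟩
      rw [h1]; exact ha z hz
  have hle3 : (act S a).card ≤ 3 := hS.simp a ha0 (act S a) fun y hy => (hIs y).2 hy
  obtain ⟨u, v, w, huv, huw, hvw, hact⟩ := Finset.card_eq_three.1 (le_antisymm hle3 h3)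
  have hmem : ∀ y, y ∈ act S a ↔ (y = u ∨ y = v ∨ y = w) := by
    intro y; rw [hact]; simp
  have hfac : Facet S u v w :=
    ⟨huv, hvw, huw, a, ha0, fun y => (hIs y).trans (hmem y)⟩
  have hD := facet_tp_ne hS hfac
  -- the coefficients
  have hx : x = (tp x v w / tp u v w) • u + (tp x w u / tp u v w) • v
      + (tp x u v / tp u v w) • w := by
    have h2 : x = (tp u v w)⁻¹ • (tp u v w • x) := by
      rw [smul_smul, inv_mul_cancel₀ hD, one_smul]
    calc x = (tp u v w)⁻¹ • (tp u v w • x) := h2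
      _ = (tp u v w)⁻¹ • (tp x v w • u + tp x w u • v + tp x u v • w) := by
          rw [cramer u v w x]
      _ = _ := by simp only [smul_add, smul_smul, div_eq_inv_mul]
  have key : ∀ p q : E3, (∀ y, (y = u ∨ y = v ∨ y = w) → 0 ≤ tp y p q / tp u v w) →
      0 ≤ tp x p q / tp u v w := by
    intro p q hpq
    have h1 := first_order (S := S) x a (-((tp u v w)⁻¹ • cr p q)) ha hmax (by
      intro y hy
      have h2 := hpq y ((hmem y).1 hy)
      rw [inner_neg_left, real_inner_smul_left, inner_cr]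
      rw [div_eq_inv_mul] at h2
      linarith)
    rw [inner_neg_left, real_inner_smul_left, inner_cr] at h1
    rw [div_eq_inv_mul]
    linarith
  have hr : 0 ≤ tp x v w / tp u v w := by
    apply key
    rintro y (rfl | rfl | rfl)
    · rw [div_self hD]; norm_num
    · rw [show tp y y w = 0 by simp only [tp]; ring, zero_div]
    · rw [show tp y v y = 0 by simp only [tp]; ring, zero_div]
  have hs : 0 ≤ tp x w u / tp u v w := by
    apply key
    rintro y (rfl | rfl | rfl)
    · rw [show tp y w y = 0 by simp only [tp]; ring, zero_div]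
    · rw [show tp y w u = tp u y w by simp only [tp]; ring, div_self hD]; norm_num
    · rw [show tp y y u = 0 by simp only [tp]; ring, zero_div]
  have ht : 0 ≤ tp x u v / tp u v w := by
    apply key
    rintro y (rfl | rfl | rfl)
    · rw [show tp y y v = 0 by simp only [tp]; ring, zero_div]
    · rw [show tp y u y = 0 by simp only [tp]; ring, zero_div]
    · rw [show tp y u v = tp u v y by simp only [tp]; ring, div_self hD]; norm_num
  rcases lt_or_gt_of_ne hD with hneg | hpos
  · refine ⟨v, u, w, ⟨huv.symm, huw, hvw, a, ha0, fun y => ?_⟩, ?_, _, _, _, hs, hr, ht, ?_⟩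
    · rw [hIs y, hmem y]; tauto
    · rw [show tp v u w = - tp u v w by simp only [tp]; ring]; linarith
    · conv_lhs => rw [hx]
      rw [add_comm ((tp x v w / tp u v w) • u)]
  · exact ⟨u, v, w, hfac, hpos, _, _, _, hr, hs, ht, hx⟩

end Pool.Agent.Helper320.Gold.NFB
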