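import Mathlib
import Pool.Agent.Helper320.GBase
import Pool.Agent.Helper320.GFA
import Pool.Agent.Helper320.GFB

set_option autoImplicit false
open Set

namespace Pool.Agent.Helper320.Gold.NTI

open Pool.Agent.Helper320.Gold Pool.Agent.Helper320.Gold.NFA Pool.Agent.Helper320.Gold.NFB

theorem near_max {S : Finset E3} (hS : Good S) {q : ℝ}
    (hcov : ∀ a : E3, ‖a‖ = 1 → ∃ x ∈ S, ‖a - x‖ ≤ q) {a : E3} (ha : ‖a‖ = 1) {u : E3}
    (hu : IsMax S a u) : 1 - q ^ 2 / 2 ≤ inner ℝ a u ∧ ‖a - u‖ ≤ q := by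
  obtain ⟨x, hx, hxq⟩ := hcov a ha
  have hq0 : 0 ≤ q := (norm_nonneg _).trans hxq
  have h1 := norm_sub_sq_real a x
  have h2 := norm_sub_sq_real a u
  rw [ha, hS.unit x hx] at h1
  rw [ha, hS.unit u hu.1] at h2
  have h3 := hu.2 x hx
  have h4 : ‖a - x‖ ^ 2 ≤ q ^ 2 := pow_le_pow_left₀ (norm_nonneg _) hxq 2
  constructor
  · nlinarith
  · apply le_of_sq_le_sq _ hq0
    nlinarith

theorem max_smul {S : Finset E3} {a u : E3} {c : ℝ} (hc : 0 < c) :
    IsMax S (c • a) u ↔ IsMax S a u := by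
  unfold IsMax
  constructor
  · rintro ⟨h1, h2⟩
    refine ⟨h1, fun x hx => ?_⟩
    have := h2 x hx
    rw [real_inner_smul_left, real_inner_smul_left] at this
    exact le_of_mul_le_mul_left this hc
  · rintro ⟨h1, h2⟩
    refine ⟨h1, fun x hx => ?_⟩
    rw [real_inner_smul_left, real_inner_smul_left]
    exact mul_le_mul_of_nonneg_left (h2 x hx) hc.le

theorem facet_normal {S : Finset E3} (hS : Good S) {u v w : E3} (h : Facet S u v w) :
    ∃ b : E3, u ∈ S ∧ v ∈ S ∧ w ∈ S ∧ inner ℝ b u = 1 ∧ inner ℝ b v = 1 ∧ inner ℝ b w = 1 ∧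
      (∀ x ∈ S, inner ℝ b x ≤ 1) ∧ (∀ x ∈ S, inner ℝ b x = 1 → x = u ∨ x = v ∨ x = w) := by
  obtain ⟨_, _, _, a, ha, hmax⟩ := h
  have hu : IsMax S a u := (hmax u).mpr (Or.inl rfl)
  have hv : IsMax S a v := (hmax v).mpr (Or.inr (Or.inl rfl))
  have hw : IsMax S a w := (hmax w).mpr (Or.inr (Or.inr rfl))
  have e1 : (inner ℝ a v : ℝ) = inner ℝ a u := le_antisymm (hu.2 v hv.1) (hv.2 u hu.1)
  have e2 : (inner ℝ a w : ℝ) = inner ℝ a u := le_antisymm (hu.2 w hw.1) (hw.2 u hu.1)
  obtain ⟨x0, hx0, hx0'⟩ := hS.origin a ha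
  have hm : 0 < (inner ℝ a u : ℝ) := lt_of_lt_of_le hx0' (hu.2 x0 hx0)
  set m : ℝ := inner ℝ a u with hmdef
  refine ⟨m⁻¹ • a, hu.1, hv.1, hw.1, ?_, ?_, ?_, ?_, ?_⟩
  · rw [real_inner_smul_left, ← hmdef, inv_mul_cancel₀ hm.ne']
  · rw [real_inner_smul_left, e1, inv_mul_cancel₀ hm.ne']
  · rw [real_inner_smul_left, e2, inv_mul_cancel₀ hm.ne']
  · intro x hx
    rw [real_inner_smul_left, inv_mul_le_iff₀ hm, mul_one]
    exact hu.2 x hx
  · intro x hx h1
    rw [real_inner_smul_left, inv_mul_eq_one₀ hm.ne'] at h1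
    apply (hmax x).mp
    refine ⟨hx, fun y hy => ?_⟩
    rw [← h1]
    exact hu.2 y hy

theorem cone3_iff {u v w : E3} (h : tp u v w ≠ 0) (x : E3) :
    x ∈ cone3 u v w ↔ 0 ≤ tp x v w / tp u v w ∧ 0 ≤ tp u x w / tp u v w ∧
      0 ≤ tp u v x / tp u v w := by
  constructor
  · rintro ⟨r, s, t, hr, hs, ht, rfl⟩
    have e1 : tp (r • u + s • v + t • w) v w = r * tp u v w := by
      unfold tp; simp only [PiLp.add_apply, PiLp.smul_apply, smul_eq_mul]; ring
    have e2 : tp u (r • u + s • v + t • w) w = s * tp u v w := by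
      unfold tp; simp only [PiLp.add_apply, PiLp.smul_apply, smul_eq_mul]; ring
    have e3 : tp u v (r • u + s • v + t • w) = t * tp u v w := by
      unfold tp; simp only [PiLp.add_apply, PiLp.smul_apply, smul_eq_mul]; ring
    rw [e1, e2, e3, mul_div_cancel_right₀ _ h, mul_div_cancel_right₀ _ h,
      mul_div_cancel_right₀ _ h]
    exact ⟨hr, hs, ht⟩
  · rintro ⟨h1, h2, h3⟩
    refine ⟨_, _, _, h1, h2, h3, ?_⟩
    have key : tp u v w • x = tp x v w • u + tp u x w • v + tp u v x • w := by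
      ext i
      simp only [PiLp.add_apply, PiLp.smul_apply, smul_eq_mul]
      unfold tp
      fin_cases i
      · simp only [Fin.zero_eta]; ring
      · simp only [Fin.mk_one]; ring
      · simp only [Fin.reduceFinMk]; ring
    have h5 : x = (tp u v w)⁻¹ • (tp u v w • x) := by
      rw [smul_smul, inv_mul_cancel₀ h, one_smul]
    have h6 : (tp u v w)⁻¹ • (tp u v w • x) =
        (tp x v w / tp u v w) • u + (tp u x w / tp u v w) • v + (tp u v x / tp u v w) • w := by
      rw [key, smul_add, smul_add, smul_smul, smul_smul, smul_smul]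
      simp only [div_eq_inv_mul]
    exact h5.trans h6

theorem cone3_meas {u v w : E3} (h : tp u v w ≠ 0) : MeasurableSet (cone3 u v w) := by
  have e : cone3 u v w = {x | 0 ≤ tp x v w / tp u v w} ∩ ({x | 0 ≤ tp u x w / tp u v w} ∩
      {x | 0 ≤ tp u v x / tp u v w}) := by
    ext x
    rw [cone3_iff h]
    rfl
  rw [e]
  have c1 : Continuous fun x : E3 => tp x v w / tp u v w := by
    unfold tp; fun_prop
  have c2 : Continuous fun x : E3 => tp u x w / tp u v w := by
    unfold tp; fun_prop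
  have c3 : Continuous fun x : E3 => tp u v x / tp u v w := by
    unfold tp; fun_prop
  exact (measurableSet_le measurable_const c1.measurable).inter
    ((measurableSet_le measurable_const c2.measurable).inter
      (measurableSet_le measurable_const c3.measurable))

theorem plane_null {c : E3} (hc : c ≠ 0) :
    MeasureTheory.volume {x : E3 | (inner ℝ c x : ℝ) = 0} = 0 := by
  have h : {x : E3 | (inner ℝ c x : ℝ) = 0} =
      ((LinearMap.ker (innerSL ℝ c : E3 →L[ℝ] ℝ).toLinearMap : Submodule ℝ E3) : Set E3) := by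
    ext x
    simp
  rw [h]
  apply MeasureTheory.Measure.addHaar_submodule
  intro htop
  have h1 : c ∈ LinearMap.ker (innerSL ℝ c : E3 →L[ℝ] ℝ).toLinearMap := by
    rw [htop]; exact Submodule.mem_top
  have h2 : (inner ℝ c c : ℝ) = 0 := by simpa using h1
  exact hc (inner_self_eq_zero.mp h2)

theorem null_union {ι : Type} (F : Finset ι) (s : ι → Set E3)
    (h : ∀ i ∈ F, MeasureTheory.volume (s i) = 0) :
    MeasureTheory.volume (⋃ i ∈ F, s i) = 0 := by
  have h1 := MeasureTheory.measure_biUnion_finset_le (μ := MeasureTheory.volume) F s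
  rw [Finset.sum_eq_zero h] at h1
  exact le_antisymm h1 bot_le

theorem facet_rot {S : Finset E3} {u v w : E3} (h : Facet S u v w) : Facet S v w u := by
  obtain ⟨h1, h2, h3, a, ha, hmax⟩ := h
  refine ⟨h2, h3.symm, h1.symm, a, ha, fun x => ?_⟩
  rw [hmax x]
  tauto

theorem tp_rot (u v w : E3) : tp v w u = tp u v w := by
  unfold tp; ring

theorem cone_rot {u v w x : E3} (h : x ∈ cone3 u v w) : x ∈ cone3 v w u := by
  obtain ⟨r, s, t, hr, hs, ht, rfl⟩ := h
  exact ⟨s, t, r, hs, ht, hr, by abel⟩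

theorem mem_FS {S : Finset E3} (hS : Good S) {t : E3 × E3 × E3} :
    t ∈ FS S ↔ Facet S t.1 t.2.1 t.2.2 ∧ 0 < tp t.1 t.2.1 t.2.2 := by
  classical
  unfold FS
  rw [Finset.mem_filter, Finset.mem_product, Finset.mem_product]
  constructor
  · exact fun h => h.2
  · intro h
    obtain ⟨b, h1, h2, h3, _⟩ := facet_normal hS h.1
    exact ⟨⟨h1, h2, h3⟩, h⟩

theorem tile {S : Finset E3} (hS : Good S) (A : Set E3) (hA : MeasurableSet A) :
    ∑ t ∈ FS S, MeasureTheory.volume (cone3 t.1 t.2.1 t.2.2 ∩ A) =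
      3 * MeasureTheory.volume A := by
  classical
  -- normals
  have hnorm : ∀ t : E3 × E3 × E3, ∃ b : E3, t ∈ FS S → (t.1 ∈ S ∧ t.2.1 ∈ S ∧ t.2.2 ∈ S ∧
      inner ℝ b t.1 = 1 ∧ inner ℝ b t.2.1 = 1 ∧ inner ℝ b t.2.2 = 1 ∧
      (∀ x ∈ S, inner ℝ b x ≤ 1) ∧
      (∀ x ∈ S, inner ℝ b x = 1 → x = t.1 ∨ x = t.2.1 ∨ x = t.2.2)) := by
    intro t
    by_cases ht : t ∈ FS S
    · obtain ⟨b, hb⟩ := facet_normal hS ((mem_FS hS).mp ht).1
      exact ⟨b, fun _ => hb⟩
    · exact ⟨0, fun h => absurd h ht⟩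
  choose b hb using hnorm
  -- the null set
  set N : Set E3 := ⋃ p ∈ ((FS S) ×ˢ (FS S)).filter (fun p => b p.1 ≠ b p.2),
    {x : E3 | (inner ℝ (b p.1 - b p.2) x : ℝ) = 0} with hN
  have hN0 : MeasureTheory.volume N = 0 := by
    rw [hN]
    apply null_union
    intro p hp
    rw [Finset.mem_filter] at hp
    have hne : b p.1 - b p.2 ≠ 0 := sub_ne_zero.mpr hp.2
    exact plane_null hne
  have hcone : ∀ t ∈ FS S, ∀ t' ∈ FS S, ∀ x ∈ cone3 t.1 t.2.1 t.2.2,
      (inner ℝ (b t') x : ℝ) ≤ inner ℝ (b t) x := by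
    rintro t ht t' ht' x ⟨r, s, z, hr, hs, hz, rfl⟩
    obtain ⟨m1, m2, m3, e1, e2, e3, _, _⟩ := hb t ht
    obtain ⟨_, _, _, _, _, _, hle, _⟩ := hb t' ht'
    rw [inner_add_right, inner_add_right, inner_add_right, inner_add_right,
      real_inner_smul_right, real_inner_smul_right, real_inner_smul_right,
      real_inner_smul_right, real_inner_smul_right, real_inner_smul_right, e1, e2, e3]
    have l1 := mul_le_mul_of_nonneg_left (hle _ m1) hr
    have l2 := mul_le_mul_of_nonneg_left (hle _ m2) hs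
    have l3 := mul_le_mul_of_nonneg_left (hle _ m3) hz
    linarith
  have hthree : ∀ x, x ∉ N →
      ∑ t ∈ FS S, (cone3 t.1 t.2.1 t.2.2).indicator (1 : E3 → ENNReal) x = 3 := by
    intro x hx
    obtain ⟨u, v, w, hf, htp, r, s, z, hr, hs, hz, hxe⟩ := exists_facet_cone hS x
    have hxc : x ∈ cone3 u v w := ⟨r, s, z, hr, hs, hz, hxe⟩
    have hf2 := facet_rot hf
    have hf3 := facet_rot hf2
    have htp2 : 0 < tp v w u := by rw [tp_rot]; exact htp
    have htp3 : 0 < tp w u v := by rw [tp_rot]; exact htp2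
    have hm1 : (u, v, w) ∈ FS S := (mem_FS hS).mpr ⟨hf, htp⟩
    have hm2 : (v, w, u) ∈ FS S := (mem_FS hS).mpr ⟨hf2, htp2⟩
    have hm3 : (w, u, v) ∈ FS S := (mem_FS hS).mpr ⟨hf3, htp3⟩
    have hfil : (FS S).filter (fun t => x ∈ cone3 t.1 t.2.1 t.2.2) =
        {(u, v, w), (v, w, u), (w, u, v)} := by
      ext t
      rw [Finset.mem_filter, Finset.mem_insert, Finset.mem_insert, Finset.mem_singleton]
      constructor
      · rintro ⟨ht, htx⟩
        have hbb : b t = b (u, v, w) := by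
          by_contra hne
          apply hx
          rw [hN, Set.mem_iUnion₂]
          refine ⟨(t, (u, v, w)), ?_, ?_⟩
          · rw [Finset.mem_filter, Finset.mem_product]
            exact ⟨⟨ht, hm1⟩, hne⟩
          · show (inner ℝ (b t - b (u, v, w)) x : ℝ) = 0
            rw [inner_sub_left]
            have l1 := hcone t ht _ hm1 x htx
            have l2 := hcone _ hm1 t ht x hxc
            linarith
        obtain ⟨m1, m2, m3, e1, e2, e3, _, _⟩ := hb t ht
        obtain ⟨_, _, _, _, _, _, _, hdet⟩ := hb _ hm1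
        rw [hbb] at e1 e2 e3
        have d1 := hdet _ m1 e1
        have d2 := hdet _ m2 e2
        have d3 := hdet _ m3 e3
        obtain ⟨⟨n1, n2, n3, _⟩, htpt⟩ := (mem_FS hS).mp ht
        obtain ⟨t1, t2, t3⟩ := t
        simp only at d1 d2 d3 n1 n2 n3 htpt
        have o1 : tp u w v = - tp u v w := by unfold tp; ring
        have o2 : tp v u w = - tp u v w := by unfold tp; ring
        have o3 : tp w v u = - tp u v w := by unfold tp; ring
        rcases d1 with rfl | rfl | rfl <;> rcases d2 with rfl | rfl | rfl <;>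
          rcases d3 with rfl | rfl | rfl <;>
          first
          | exact absurd rfl n1
          | exact absurd rfl n2
          | exact absurd rfl n3
          | (left; rfl)
          | (right; left; rfl)
          | (right; right; rfl)
          | (exfalso; linarith)
      · rintro (rfl | rfl | rfl)
        · exact ⟨hm1, hxc⟩
        · exact ⟨hm2, cone_rot hxc⟩
        · exact ⟨hm3, cone_rot (cone_rot hxc)⟩
    have hcard : ((FS S).filter (fun t => x ∈ cone3 t.1 t.2.1 t.2.2)).card = 3 := by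
      rw [hfil]
      obtain ⟨n1, n2, n3, _⟩ := hf
      rw [Finset.card_insert_of_notMem, Finset.card_insert_of_notMem, Finset.card_singleton]
      · rw [Finset.mem_singleton]
        intro h
        exact n2 (congrArg Prod.fst h)
      · rw [Finset.mem_insert, Finset.mem_singleton]
        rintro (h | h)
        · exact n1 (congrArg Prod.fst h)
        · exact n3 (congrArg Prod.fst h)
    calc ∑ t ∈ FS S, (cone3 t.1 t.2.1 t.2.2).indicator (1 : E3 → ENNReal) x
        = ∑ t ∈ FS S, (if x ∈ cone3 t.1 t.2.1 t.2.2 then (1 : ENNReal) else 0) := by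
          apply Finset.sum_congr rfl
          intro t _
          rw [Set.indicator_apply]; rfl
      _ = (((FS S).filter (fun t => x ∈ cone3 t.1 t.2.1 t.2.2)).card : ENNReal) := by
          rw [Finset.sum_ite, Finset.sum_const_zero, add_zero, Finset.sum_const, nsmul_eq_mul,
            mul_one]
      _ = 3 := by rw [hcard]; rfl
  have hmeas : ∀ t ∈ FS S, MeasurableSet (cone3 t.1 t.2.1 t.2.2) := by
    intro t ht
    exact cone3_meas ((mem_FS hS).mp ht).2.ne'
  calc ∑ t ∈ FS S, MeasureTheory.volume (cone3 t.1 t.2.1 t.2.2 ∩ A)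
      = ∑ t ∈ FS S, ∫⁻ x in A, (cone3 t.1 t.2.1 t.2.2).indicator (1 : E3 → ENNReal) x := by
        apply Finset.sum_congr rfl
        intro t ht
        rw [MeasureTheory.lintegral_indicator_one (hmeas t ht),
          MeasureTheory.Measure.restrict_apply (hmeas t ht)]
    _ = ∫⁻ x in A, ∑ t ∈ FS S, (cone3 t.1 t.2.1 t.2.2).indicator (1 : E3 → ENNReal) x := by
        rw [MeasureTheory.lintegral_finset_sum']
        intro t ht
        exact (measurable_one.indicator (hmeas t ht)).aemeasurable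
    _ = ∫⁻ x in A, 3 := by
        apply MeasureTheory.lintegral_congr_ae
        have h1 : ∀ᵐ x : E3, x ∉ N := by
          rw [MeasureTheory.ae_iff]
          simpa using hN0
        filter_upwards [MeasureTheory.ae_restrict_of_ae h1] with x hx
        exact hthree x hx
    _ = 3 * MeasureTheory.volume A := by
        rw [MeasureTheory.setLIntegral_const]

theorem cone3_convex (u v w : E3) : Convex ℝ (cone3 u v w) := by
  rintro x ⟨r, s, t, hr, hs, ht, rfl⟩ y ⟨r', s', t', hr', hs', ht', rfl⟩ a c ha hc _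
  refine ⟨a * r + c * r', a * s + c * s', a * t + c * t', by positivity, by positivity,
    by positivity, ?_⟩
  module

theorem zero_mem_hull {S : Finset E3} (hS : Good S) (hne : S.Nonempty) :
    (0 : E3) ∈ convexHull ℝ (S : Set E3) := by
  by_contra hcon
  have hcl : IsClosed (convexHull ℝ (S : Set E3)) :=
    (Set.Finite.isCompact_convexHull ℝ S.finite_toSet).isClosed
  obtain ⟨f, c, h1, h2⟩ := geometric_hahn_banach_closed_point (convex_convexHull ℝ _) hcl hcon
  rw [map_zero] at h2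
  set a : E3 := (InnerProductSpace.toDual ℝ E3).symm f with ha
  have hfa : ∀ x, f x = inner ℝ a x := by
    intro x
    rw [ha, InnerProductSpace.toDual_symm_apply]
  obtain ⟨y, hy⟩ := hne
  have h3 := h1 y (subset_convexHull ℝ _ hy)
  have ha0 : a ≠ 0 := by
    intro h0
    rw [hfa, h0, inner_zero_left] at h3
    linarith
  obtain ⟨x, hx, hx0⟩ := hS.origin a ha0
  have h4 := h1 x (subset_convexHull ℝ _ hx)
  rw [hfa] at h4
  linarith

theorem hull_cone {S : Finset E3} (hS : Good S) {u v w : E3} (h : Facet S u v w) :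
    cone3 u v w ∩ convexHull ℝ (S : Set E3) = convexHull ℝ {0, u, v, w} := by
  obtain ⟨b, hu, hv, hw, e1, e2, e3, hle, _⟩ := facet_normal hS h
  apply Set.Subset.antisymm
  · rintro x ⟨⟨r, s, t, hr, hs, ht, hx⟩, hxS⟩
    have hbx : (inner ℝ b x : ℝ) ≤ 1 := by
      have h1 : convexHull ℝ (S : Set E3) ⊆ {y | (inner ℝ b y : ℝ) ≤ 1} := by
        apply convexHull_min
        · intro y hy; exact hle y hy
        · exact convex_halfSpace_le (IsLinearMap.mk (fun x y => inner_add_right b x y)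
            (fun c x => real_inner_smul_right b x c)) 1
      exact h1 hxS
    rw [hx, inner_add_right, inner_add_right, real_inner_smul_right, real_inner_smul_right,
      real_inner_smul_right, e1, e2, e3] at hbx
    have hC : Convex ℝ (convexHull ℝ ({0, u, v, w} : Set E3)) := convex_convexHull ℝ _
    have hsub := subset_convexHull ℝ ({0, u, v, w} : Set E3)
    have h0 : (0 : E3) ∈ convexHull ℝ ({0, u, v, w} : Set E3) := hsub (by simp)
    have hu' : u ∈ convexHull ℝ ({0, u, v, w} : Set E3) := hsub (by simp)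
    have hv' : v ∈ convexHull ℝ ({0, u, v, w} : Set E3) := hsub (by simp)
    have hw' : w ∈ convexHull ℝ ({0, u, v, w} : Set E3) := hsub (by simp)
    have key := hC.sum_mem (t := (Finset.univ : Finset (Fin 4)))
      (w := ![1 - r - s - t, r, s, t]) (z := ![0, u, v, w])
      (by
        intro i _
        fin_cases i
        · simp; linarith
        · simpa using hr
        · simpa using hs
        · simpa using ht)
      (by simp [Fin.sum_univ_four]; ring)
      (by
        intro i _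
        fin_cases i
        · exact h0
        · exact hu'
        · exact hv'
        · exact hw')
    rw [hx]
    simpa [Fin.sum_univ_four] using key
  · apply convexHull_min
    · intro y hy
      have hS0 : S.Nonempty := ⟨u, hu⟩
      rcases hy with rfl | rfl | rfl | rfl
      · exact ⟨⟨0, 0, 0, le_rfl, le_rfl, le_rfl, by simp⟩, zero_mem_hull hS hS0⟩
      · exact ⟨⟨1, 0, 0, zero_le_one, le_rfl, le_rfl, by simp⟩, subset_convexHull ℝ _ hu⟩
      · exact ⟨⟨0, 1, 0, le_rfl, zero_le_one, le_rfl, by simp⟩, subset_convexHull ℝ _ hv⟩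
      · exact ⟨⟨0, 0, 1, le_rfl, le_rfl, zero_le_one, by simp⟩, subset_convexHull ℝ _ hw⟩
    · exact (cone3_convex u v w).inter (convex_convexHull ℝ _)

theorem cone_near {S : Finset E3} (hS : Good S) {q : ℝ} (hq : q ≤ 1)
    (hcov : ∀ a : E3, ‖a‖ = 1 → ∃ x ∈ S, ‖a - x‖ ≤ q) {u v w : E3} (h : Facet S u v w) :
    ∃ a : E3, ‖a‖ = 1 ∧ 1 - q ^ 2 / 2 ≤ inner ℝ a u ∧ inner ℝ a u = inner ℝ a v ∧
      inner ℝ a u = inner ℝ a w ∧ ∀ y ∈ cone3 u v w, ‖y‖ = 1 → ‖y - a‖ ≤ q := by
  obtain ⟨_, _, _, a0, ha0, hmax⟩ := h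
  have hn : 0 < ‖a0‖ := norm_pos_iff.mpr ha0
  set a : E3 := ‖a0‖⁻¹ • a0 with ha
  have ha1 : ‖a‖ = 1 := by
    rw [ha, norm_smul, norm_inv, norm_norm, inv_mul_cancel₀ hn.ne']
  have hmax' : ∀ x, IsMax S a x ↔ (x = u ∨ x = v ∨ x = w) := by
    intro x
    rw [ha, max_smul (inv_pos.mpr hn), hmax]
  have hu : IsMax S a u := (hmax' u).mpr (Or.inl rfl)
  have hv : IsMax S a v := (hmax' v).mpr (Or.inr (Or.inl rfl))
  have hw : IsMax S a w := (hmax' w).mpr (Or.inr (Or.inr rfl))
  have e1 : (inner ℝ a u : ℝ) = inner ℝ a v := le_antisymm (hv.2 u hu.1) (hu.2 v hv.1)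
  have e2 : (inner ℝ a u : ℝ) = inner ℝ a w := le_antisymm (hw.2 u hu.1) (hu.2 w hw.1)
  obtain ⟨h1, h2⟩ := near_max hS hcov ha1 hu
  have hq0 : 0 ≤ q := (norm_nonneg _).trans h2
  refine ⟨a, ha1, h1, e1, e2, ?_⟩
  rintro y ⟨r, s, t, hr, hs, ht, hy⟩ hy1
  have hrst : 1 ≤ r + s + t := by
    calc 1 = ‖y‖ := hy1.symm
      _ ≤ ‖r • u‖ + ‖s • v‖ + ‖t • w‖ := by rw [hy]; exact norm_add₃_le
      _ = r + s + t := by
          rw [norm_smul, norm_smul, norm_smul, hS.unit u hu.1, hS.unit v hv.1, hS.unit w hw.1,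
            Real.norm_of_nonneg hr, Real.norm_of_nonneg hs, Real.norm_of_nonneg ht]
          ring
  have hay : (inner ℝ a y : ℝ) = inner ℝ a u * (r + s + t) := by
    rw [hy, inner_add_right, inner_add_right, real_inner_smul_right, real_inner_smul_right,
      real_inner_smul_right, ← e1, ← e2]
    ring
  have hm : 0 ≤ (inner ℝ a u : ℝ) := by nlinarith
  have hay' : 1 - q ^ 2 / 2 ≤ (inner ℝ a y : ℝ) := by
    rw [hay]
    nlinarith
  have h3 := norm_sub_sq_real y a
  rw [ha1, hy1, real_inner_comm] at h3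
  apply le_of_sq_le_sq _ hq0
  nlinarith

theorem adj_near {S : Finset E3} (hS : Good S) {q : ℝ}
    (hcov : ∀ a : E3, ‖a‖ = 1 → ∃ x ∈ S, ‖a - x‖ ≤ q) {u v : E3} (h : Adj S u v) :
    ‖u - v‖ ≤ 2 * q := by
  obtain ⟨_, a0, ha0, hmax⟩ := h
  have hn : 0 < ‖a0‖ := norm_pos_iff.mpr ha0
  set a : E3 := ‖a0‖⁻¹ • a0 with ha
  have ha1 : ‖a‖ = 1 := by
    rw [ha, norm_smul, norm_inv, norm_norm, inv_mul_cancel₀ hn.ne']
  have hmax' : ∀ x, IsMax S a x ↔ (x = u ∨ x = v) := by
    intro x
    rw [ha, max_smul (inv_pos.mpr hn), hmax]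
  have hu : IsMax S a u := (hmax' u).mpr (Or.inl rfl)
  have hv : IsMax S a v := (hmax' v).mpr (Or.inr rfl)
  have h1 := (near_max hS hcov ha1 hu).2
  have h2 := (near_max hS hcov ha1 hv).2
  calc ‖u - v‖ = ‖(a - v) - (a - u)‖ := by congr 1; abel
    _ ≤ ‖a - v‖ + ‖a - u‖ := norm_sub_le _ _
    _ ≤ 2 * q := by linarith

end Pool.Agent.Helper320.Gold.NTI
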