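import Mathlib
import Pool.Agent.Helper320.GBase

set_option autoImplicit false
open Set

namespace Pool.Agent.Helper320.Gold.NAL

open Pool.Agent.Helper320.Gold

theorem AL_nsq (x : E3) : ‖x‖ ^ 2 = x 0 ^ 2 + x 1 ^ 2 + x 2 ^ 2 := by
  rw [EuclideanSpace.norm_sq_eq, Fin.sum_univ_three]
  simp

theorem AL_sub (x y : E3) : ‖x - y‖ ^ 2 = ‖x‖ ^ 2 + ‖y‖ ^ 2
    - 2 * (x 0 * y 0 + x 1 * y 1 + x 2 * y 2) := by
  rw [AL_nsq, AL_nsq, AL_nsq]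
  simp only [PiLp.sub_apply]
  ring

theorem AL_gram (u v w : E3) : tp u v w ^ 2 = ‖u‖ ^ 2 * ‖v‖ ^ 2 * ‖w‖ ^ 2
    + 2 * (u 0 * v 0 + u 1 * v 1 + u 2 * v 2) * (v 0 * w 0 + v 1 * w 1 + v 2 * w 2)
      * (w 0 * u 0 + w 1 * u 1 + w 2 * u 2)
    - ‖u‖ ^ 2 * (v 0 * w 0 + v 1 * w 1 + v 2 * w 2) ^ 2
    - ‖v‖ ^ 2 * (w 0 * u 0 + w 1 * u 1 + w 2 * u 2) ^ 2
    - ‖w‖ ^ 2 * (u 0 * v 0 + u 1 * v 1 + u 2 * v 2) ^ 2 := by
  rw [AL_nsq, AL_nsq, AL_nsq]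
  unfold tp
  ring

/-- the exact identity -/
theorem AL_id {u v w : E3} (hu : ‖u‖ = 1) (hv : ‖v‖ = 1) (hw : ‖w‖ = 1) :
    12 * tp u v w ^ 2 + 2 * ((‖u - v‖ ^ 2 - ‖v - w‖ ^ 2) ^ 2 + (‖v - w‖ ^ 2 - ‖w - u‖ ^ 2) ^ 2 +
      (‖w - u‖ ^ 2 - ‖u - v‖ ^ 2) ^ 2) + 3 * (‖u - v‖ ^ 2 * ‖v - w‖ ^ 2 * ‖w - u‖ ^ 2)
      = (‖u - v‖ ^ 2 + ‖v - w‖ ^ 2 + ‖w - u‖ ^ 2) ^ 2 := by
  have h1 := AL_gram u v w
  rw [AL_sub u v, AL_sub v w, AL_sub w u, h1, hu, hv, hw]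
  ring

theorem weitz {u v w : E3} (hu : ‖u‖ = 1) (hv : ‖v‖ = 1) (hw : ‖w‖ = 1) :
    12 * tp u v w ^ 2 + 2 * ((‖u - v‖ ^ 2 - ‖v - w‖ ^ 2) ^ 2 + (‖v - w‖ ^ 2 - ‖w - u‖ ^ 2) ^ 2 +
      (‖w - u‖ ^ 2 - ‖u - v‖ ^ 2) ^ 2) ≤ (‖u - v‖ ^ 2 + ‖v - w‖ ^ 2 + ‖w - u‖ ^ 2) ^ 2 := by
  have h1 := AL_id hu hv hw
  have h2 : 0 ≤ 3 * (‖u - v‖ ^ 2 * ‖v - w‖ ^ 2 * ‖w - u‖ ^ 2) := by positivity
  linarith

theorem near_regular {u v w : E3} (hu : ‖u‖ = 1) (hv : ‖v‖ = 1) (hw : ‖w‖ = 1)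
    (hD : 0 < tp u v w) {X l : ℝ} (hl : 0 < l) (hX : X = √3 / 2 * l ^ 2)
    (hp : tp u v w * (‖u - v‖ ^ 2 + ‖v - w‖ ^ 2 + ‖w - u‖ ^ 2 - 2 * √3 * tp u v w) / 48 +
      √3 / 24 * (tp u v w - X) ^ 2 ≤ 1e-12 * X ^ 2) :
    |‖u - v‖ - l| ≤ 1e-4 * l := by
  have hW := weitz hu hv hw
  set x := ‖u - v‖ ^ 2 with hx
  set y := ‖v - w‖ ^ 2 with hy
  set z := ‖w - u‖ ^ 2 with hz
  set D := tp u v w with hDd
  have hx0 : 0 ≤ x := by positivity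
  have hy0 : 0 ≤ y := by positivity
  have hz0 : 0 ≤ z := by positivity
  have t0 : 0 ≤ √3 := Real.sqrt_nonneg 3
  have t2 : √3 * √3 = 3 := Real.mul_self_sqrt (by norm_num)
  have t3 : 1.732 < √3 := by
    rw [Real.lt_sqrt (by norm_num)]; norm_num
  have t4 : √3 < 1.7321 := by
    rw [Real.sqrt_lt' (by norm_num)]; norm_num
  set t := √3 with ht
  clear_value t
  have hl2 : 0 < l ^ 2 := by positivity
  have hXpos : 0 < X := by rw [hX]; positivity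
  have hXl : X ≤ 0.8661 * l ^ 2 := by rw [hX]; nlinarith
  have htX : 2 * t * X = 3 * l ^ 2 := by rw [hX]; linear_combination l ^ 2 * t2
  -- P ≥ 2 t D
  set P := x + y + z with hP
  have hP0 : 0 ≤ P := by positivity
  have h12 : 12 * D ^ 2 ≤ P ^ 2 := by
    nlinarith [sq_nonneg (x - y), sq_nonneg (y - z), sq_nonneg (z - x)]
  have hPD : 2 * t * D ≤ P := by
    apply le_of_sq_le_sq _ hP0
    calc (2 * t * D) ^ 2 = 4 * (t * t) * D ^ 2 := by ring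
      _ = 12 * D ^ 2 := by rw [t2]; ring
      _ ≤ P ^ 2 := h12
  have hterm1 : 0 ≤ D * (P - 2 * t * D) := mul_nonneg hD.le (by linarith)
  have hterm2 : 0 ≤ t / 24 * (D - X) ^ 2 := by positivity
  have hDX2 : (D - X) ^ 2 ≤ (4e-6 * X) ^ 2 := by
    have h1 : t / 24 * (D - X) ^ 2 ≤ 1e-12 * X ^ 2 := by linarith
    have h2 : 1.732 / 24 * (D - X) ^ 2 ≤ t / 24 * (D - X) ^ 2 := by
      have := sq_nonneg (D - X)
      nlinarith
    have h3 : 0 ≤ X ^ 2 := sq_nonneg X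
    nlinarith
  have hDX : |D - X| ≤ 4e-6 * X := by
    exact abs_le_of_sq_le_sq hDX2 (by positivity)
  rw [abs_le] at hDX
  obtain ⟨hDX1, hDX3⟩ := hDX
  have hgap : P - 2 * t * D ≤ 49e-12 * X := by
    by_contra hc
    push Not at hc
    have h1 : D * (P - 2 * t * D) ≤ 48e-12 * X ^ 2 := by linarith
    have h2 : (1 - 4e-6) * X * (49e-12 * X) ≤ D * (P - 2 * t * D) := by
      apply mul_le_mul (by linarith) hc.le (by positivity) hD.le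
    have h3 : 0 < X ^ 2 := by positivity
    nlinarith
  have hsum : P + 2 * t * D ≤ 7 * X := by
    have h1 : t * D ≤ 1.7321 * ((1 + 4e-6) * X) :=
      mul_le_mul t4.le (by linarith) hD.le (by norm_num)
    nlinarith
  have hprod : P ^ 2 - 12 * D ^ 2 ≤ 343e-12 * X ^ 2 := by
    have h1 : P ^ 2 - 12 * D ^ 2 = (P - 2 * t * D) * (P + 2 * t * D) := by
      linear_combination (4 * D ^ 2) * t2
    rw [h1]
    calc (P - 2 * t * D) * (P + 2 * t * D) ≤ (49e-12 * X) * (7 * X) := by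
          apply mul_le_mul hgap hsum _ (by positivity)
          have : 0 ≤ t * D := by positivity
          linarith
      _ = 343e-12 * X ^ 2 := by ring
  have hxy2 : (x - y) ^ 2 ≤ (1.4e-5 * X) ^ 2 := by
    nlinarith [sq_nonneg (x - y), sq_nonneg (y - z), sq_nonneg (z - x), sq_nonneg X]
  have hxz2 : (x - z) ^ 2 ≤ (1.4e-5 * X) ^ 2 := by
    nlinarith [sq_nonneg (x - y), sq_nonneg (y - z), sq_nonneg (z - x), sq_nonneg X]
  have hxy := abs_le.1 (abs_le_of_sq_le_sq hxy2 (by positivity))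
  have hxz := abs_le.1 (abs_le_of_sq_le_sq hxz2 (by positivity))
  have hPlo : 2 * t * ((1 - 4e-6) * X) ≤ P := by
    have : t * ((1 - 4e-6) * X) ≤ t * D := mul_le_mul_of_nonneg_left (by linarith) t0
    linarith
  have hPhi : P ≤ 2 * t * ((1 + 4e-6) * X) + 49e-12 * X := by
    have : t * D ≤ t * ((1 + 4e-6) * X) := mul_le_mul_of_nonneg_left (by linarith) t0
    linarith
  have hPlo' : 3 * l ^ 2 * (1 - 4e-6) ≤ P := by
    have : 2 * t * ((1 - 4e-6) * X) = 3 * l ^ 2 * (1 - 4e-6) := by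
      rw [← htX]; ring
    linarith
  have hPhi' : P ≤ 3 * l ^ 2 * (1 + 4e-6) + 49e-12 * X := by
    have : 2 * t * ((1 + 4e-6) * X) = 3 * l ^ 2 * (1 + 4e-6) := by
      rw [← htX]; ring
    linarith
  have hxl1 : x - l ^ 2 ≤ 1e-4 * l ^ 2 := by
    have : 3 * x = P + (x - y) + (x - z) := by rw [hP]; ring
    linarith [hxy.2, hxz.2]
  have hxl2 : -(1e-4 * l ^ 2) ≤ x - l ^ 2 := by
    have : 3 * x = P + (x - y) + (x - z) := by rw [hP]; ring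
    linarith [hxy.1, hxz.1]
  set m := ‖u - v‖ with hm
  have hm0 : 0 ≤ m := norm_nonneg _
  rw [abs_le]
  constructor
  · by_contra hc
    push Not at hc
    have h1 : m < (1 - 1e-4) * l := by linarith
    have h2 : m ^ 2 < ((1 - 1e-4) * l) ^ 2 := pow_lt_pow_left₀ h1 hm0 (by norm_num)
    rw [mul_pow] at h2
    linarith
  · by_contra hc
    push Not at hc
    have h1 : (1 + 1e-4) * l < m := by linarith
    have h2 : ((1 + 1e-4) * l) ^ 2 < m ^ 2 := pow_lt_pow_left₀ h1 (by positivity) (by norm_num)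
    rw [mul_pow] at h2
    linarith

end Pool.Agent.Helper320.Gold.NAL
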