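import Mathlib
import Pool.Agent.Helper320.GBase
import Pool.Agent.Helper320.GAL
import Pool.Agent.Helper320.GFV
import Pool.Agent.Helper320.GTI
import Pool.Agent.Helper320.GCAP
import Pool.Agent.Helper320.GEU

set_option autoImplicit false
open Set

namespace Pool.Agent.Helper320.Gold.NLA

open Pool.Agent.Helper320.Gold Pool.Agent.Helper320.Gold.NAL Pool.Agent.Helper320.Gold.NFV Pool.Agent.Helper320.Gold.NTI Pool.Agent.Helper320.Gold.NCAP Pool.Agent.Helper320.Gold.NEU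

theorem la_facet_mem {S : Finset E3} {u v w : E3} (h : Facet S u v w) : u ∈ S ∧ v ∈ S ∧ w ∈ S := by
  obtain ⟨_, _, _, a, _, hx⟩ := h
  exact ⟨((hx u).2 (Or.inl rfl)).1, ((hx v).2 (Or.inr (Or.inl rfl))).1,
    ((hx w).2 (Or.inr (Or.inr rfl))).1⟩

theorem la_FS {S : Finset E3} {t : E3 × E3 × E3} (ht : t ∈ FS S) :
    Facet S t.1 t.2.1 t.2.2 ∧ 0 < tp t.1 t.2.1 t.2.2 := by
  classical
  unfold FS at ht
  exact (Finset.mem_filter.1 ht).2

theorem facet_bounds {S : Finset E3} (hS : Good S) {q : ℝ} (hq : q ≤ 1 / 10) (hq0 : 0 ≤ q)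
    (hcov : ∀ a : E3, ‖a‖ = 1 → ∃ x ∈ S, ‖a - x‖ ≤ q) (t : E3 × E3 × E3) (ht : t ∈ FS S) :
    0 < tpt t ∧ tpt t / 6 + tpt t * sq3 t / 48 ≤
      (MeasureTheory.volume (cone3 t.1 t.2.1 t.2.2 ∩ Metric.closedBall 0 1)).toReal ∧
    (1 - 3 / 2 * q ^ 2) * (MeasureTheory.volume (cone3 t.1 t.2.1 t.2.2 ∩ Metric.closedBall 0 1)).toReal
      ≤ tpt t / 6 ∧ 2 * √3 * tpt t ≤ sq3 t := by
  obtain ⟨hF, hD⟩ := la_FS ht
  obtain ⟨mu, mv, mw⟩ := la_facet_mem hF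
  have hu := hS.unit _ mu
  have hv := hS.unit _ mv
  have hw := hS.unit _ mw
  refine ⟨hD, vol_sector_lower hu hv hw hD, ?_, ?_⟩
  · obtain ⟨a, ha, hd, e1, e2, _⟩ := cone_near hS (by linarith) hcov hF
    set d : ℝ := inner ℝ a t.1 with hdd
    have hqq : q ^ 2 ≤ 1 / 100 := by nlinarith
    have hd0 : 0 < d := by linarith
    have h1 := vol_sector_upper' hd0 ha hdd.symm e1.symm e2.symm hD
    set V : ℝ := (MeasureTheory.volume (cone3 t.1 t.2.1 t.2.2 ∩ Metric.closedBall 0 1)).toReal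
    have hV : 0 ≤ V := ENNReal.toReal_nonneg
    have h2 : V * d ^ 3 ≤ tpt t / 6 := by
      rw [le_div_iff₀ (pow_pos hd0 3)] at h1
      exact h1
    have h3 : 1 - 3 / 2 * q ^ 2 ≤ d ^ 3 := by
      have h4 : (1 - q ^ 2 / 2) ^ 3 ≤ d ^ 3 :=
        pow_le_pow_left₀ (by linarith) hd 3
      have h5 : 0 ≤ q ^ 2 := sq_nonneg q
      have h6 : (1 - q ^ 2 / 2) ^ 3 = 1 - 3 / 2 * q ^ 2 + (q ^ 2) ^ 2 * (3 / 4 - q ^ 2 / 8) := by
        ring
      have h7 : 0 ≤ (q ^ 2) ^ 2 * (3 / 4 - q ^ 2 / 8) :=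
        mul_nonneg (sq_nonneg _) (by linarith)
      linarith
    calc (1 - 3 / 2 * q ^ 2) * V ≤ d ^ 3 * V := mul_le_mul_of_nonneg_right h3 hV
      _ = V * d ^ 3 := mul_comm _ _
      _ ≤ tpt t / 6 := h2
  · have h1 := weitz hu hv hw
    have h2 : (2 * √3 * tpt t) ^ 2 ≤ (sq3 t) ^ 2 := by
      have h3 : (2 * √3 * tpt t) ^ 2 = 12 * (tpt t) ^ 2 := by
        rw [mul_pow, mul_pow, Real.sq_sqrt (by norm_num : (0:ℝ) ≤ 3)]
        ring
      rw [h3]
      unfold sq3 tpt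
      nlinarith [h1, sq_nonneg (‖t.1 - t.2.1‖ ^ 2 - ‖t.2.1 - t.2.2‖ ^ 2),
        sq_nonneg (‖t.2.1 - t.2.2‖ ^ 2 - ‖t.2.2 - t.1‖ ^ 2),
        sq_nonneg (‖t.2.2 - t.1‖ ^ 2 - ‖t.1 - t.2.1‖ ^ 2)]
    have h4 : 0 ≤ sq3 t := by
      unfold sq3
      positivity
    exact (le_abs_self _).trans (abs_le_of_sq_le_sq h2 h4)

theorem sum_sector {S : Finset E3} (hS : Good S) :
    ∑ t ∈ FS S, (MeasureTheory.volume
      (cone3 t.1 t.2.1 t.2.2 ∩ Metric.closedBall 0 1)).toReal = 4 * Real.pi := by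
  have h1 := tile hS (Metric.closedBall 0 1) Metric.isClosed_closedBall.measurableSet
  rw [← ENNReal.toReal_sum, h1]
  · rw [EuclideanSpace.volume_closedBall_fin_three]
    simp only [ENNReal.toReal_mul, ENNReal.toReal_ofNat, ENNReal.toReal_pow]
    rw [ENNReal.toReal_ofReal (by norm_num), ENNReal.toReal_ofReal (by positivity)]
    ring
  · intro t _
    exact ((MeasureTheory.measure_mono Set.inter_subset_right).trans_lt
      MeasureTheory.measure_closedBall_lt_top).ne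

theorem sum_tpt {S : Finset E3} (hS : Good S) :
    ∑ t ∈ FS S, tpt t = 18 * (MeasureTheory.volume (convexHull ℝ (S : Set E3))).toReal := by
  have hc : IsCompact (convexHull ℝ (S : Set E3)) := S.finite_toSet.isCompact_convexHull ℝ
  have h1 := tile hS (convexHull ℝ (S : Set E3)) hc.isClosed.measurableSet
  have h2 : ∀ t ∈ FS S, (MeasureTheory.volume
      (cone3 t.1 t.2.1 t.2.2 ∩ convexHull ℝ (S : Set E3))).toReal = tpt t / 6 := by
    intro t ht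
    obtain ⟨hF, hD⟩ := la_FS ht
    rw [hull_cone hS hF, vol_tetra, abs_of_pos hD, ENNReal.toReal_ofReal (by positivity)]
    rfl
  have h3 : ∑ t ∈ FS S, (MeasureTheory.volume
      (cone3 t.1 t.2.1 t.2.2 ∩ convexHull ℝ (S : Set E3))).toReal =
      3 * (MeasureTheory.volume (convexHull ℝ (S : Set E3))).toReal := by
    rw [← ENNReal.toReal_sum, h1, ENNReal.toReal_mul, ENNReal.toReal_ofNat]
    intro t _
    exact ((MeasureTheory.measure_mono Set.inter_subset_right).trans_lt hc.measure_lt_top).ne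
  rw [Finset.sum_congr rfl h2, ← Finset.sum_div] at h3
  linarith

theorem sum_def {S : Finset E3} (hS : Good S) {q : ℝ} (hq : q ≤ 1 / 10) (hq0 : 0 ≤ q)
    (hcov : ∀ a : E3, ‖a‖ = 1 → ∃ x ∈ S, ‖a - x‖ ≤ q) {X ε : ℝ} (hX : 0 < X)
    (hXc : ((FS S).card : ℝ) * X = 24 * Real.pi)
    (hvol : 4 * Real.pi / 3 - √3 * Real.pi / 3 * X * (1 + ε) ≤
      (MeasureTheory.volume (convexHull ℝ (S : Set E3))).toReal) :
    ∑ t ∈ FS S, ((MeasureTheory.volume
      (cone3 t.1 t.2.1 t.2.2 ∩ Metric.closedBall 0 1)).toReal - tpt t / 6 -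
        √3 / 24 * (2 * X * tpt t - X ^ 2)) ≤ √3 * Real.pi * X * (ε + 3 * q ^ 2) := by
  have h2 := sum_sector hS
  have h3 := sum_tpt hS
  have h4 : (1 - 3 / 2 * q ^ 2) * (4 * Real.pi) ≤ (∑ t ∈ FS S, tpt t) / 6 := by
    rw [← h2, Finset.mul_sum, Finset.sum_div]
    exact Finset.sum_le_sum fun t ht => (facet_bounds hS hq hq0 hcov t ht).2.2.1
  have h5 : ∑ t ∈ FS S, ((MeasureTheory.volume
      (cone3 t.1 t.2.1 t.2.2 ∩ Metric.closedBall 0 1)).toReal - tpt t / 6 -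
        √3 / 24 * (2 * X * tpt t - X ^ 2)) =
      4 * Real.pi - (∑ t ∈ FS S, tpt t) / 6 - √3 / 24 * (2 * X * (∑ t ∈ FS S, tpt t) -
        ((FS S).card : ℝ) * X * X) := by
    rw [Finset.sum_sub_distrib, Finset.sum_sub_distrib, h2, ← Finset.sum_div, ← Finset.mul_sum,
      Finset.sum_sub_distrib, ← Finset.mul_sum, Finset.sum_const, nsmul_eq_mul]
    ring
  rw [h5, hXc]
  set T : ℝ := ∑ t ∈ FS S, tpt t with hT
  set Vl : ℝ := (MeasureTheory.volume (convexHull ℝ (S : Set E3))).toReal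
  have h6 : 4 * Real.pi - T / 6 ≤ √3 * Real.pi * X * (1 + ε) := by
    rw [h3]
    linarith
  have h7 : √3 / 24 * (2 * X * T - 24 * Real.pi * X) ≥
      √3 / 24 * (2 * X * (6 * ((1 - 3 / 2 * q ^ 2) * (4 * Real.pi))) - 24 * Real.pi * X) := by
    have h8 : 6 * ((1 - 3 / 2 * q ^ 2) * (4 * Real.pi)) ≤ T := by linarith
    have h9 : 0 ≤ √3 / 24 := by positivity
    have h10 : 2 * X * (6 * ((1 - 3 / 2 * q ^ 2) * (4 * Real.pi))) ≤ 2 * X * T :=
      mul_le_mul_of_nonneg_left h8 (by linarith)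
    exact mul_le_mul_of_nonneg_left (by linarith) h9
  have h11 : √3 * Real.pi * X * (ε + 3 * q ^ 2) = √3 * Real.pi * X * (1 + ε) -
      √3 / 24 * (2 * X * (6 * ((1 - 3 / 2 * q ^ 2) * (4 * Real.pi))) - 24 * Real.pi * X) := by
    ring
  rw [h11]
  linarith

theorem sum_pen {S : Finset E3} (hS : Good S) {q : ℝ} (hq : q ≤ 1 / 10) (hq0 : 0 ≤ q)
    (hcov : ∀ a : E3, ‖a‖ = 1 → ∃ x ∈ S, ‖a - x‖ ≤ q) {X ε : ℝ} (hX : 0 < X)
    (hXc : ((FS S).card : ℝ) * X = 24 * Real.pi)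
    (hvol : 4 * Real.pi / 3 - √3 * Real.pi / 3 * X * (1 + ε) ≤
      (MeasureTheory.volume (convexHull ℝ (S : Set E3))).toReal) :
    (∀ t ∈ FS S, 0 ≤ pen X t) ∧
    ∑ t ∈ FS S, pen X t ≤ √3 * Real.pi * X * (ε + 3 * q ^ 2) := by
  constructor
  · intro t ht
    obtain ⟨h1, _, _, h2⟩ := facet_bounds hS hq hq0 hcov t ht
    unfold pen
    have h3 : 0 ≤ tpt t * (sq3 t - 2 * √3 * tpt t) :=
      mul_nonneg h1.le (by linarith)
    positivity
  · refine le_trans (Finset.sum_le_sum fun t ht => ?_) (sum_def hS hq hq0 hcov hX hXc hvol)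
    obtain ⟨_, h1, _, _⟩ := facet_bounds hS hq hq0 hcov t ht
    have h2 : pen X t = tpt t * sq3 t / 48 - √3 / 24 * (2 * X * tpt t - X ^ 2) := by
      unfold pen
      ring
    rw [h2]
    linarith

end Pool.Agent.Helper320.Gold.NLA
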