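import Mathlib
import Pool.Agent.Helper320.GBase
import Pool.Agent.Helper320.GLA
import Pool.Agent.Helper320.GAL
import Pool.Agent.Helper320.GFV
import Pool.Agent.Helper320.GTI
import Pool.Agent.Helper320.GCAP
import Pool.Agent.Helper320.GEU

set_option autoImplicit false
open Set

namespace Pool.Agent.Helper320.Gold.NLC

open Pool.Agent.Helper320.Gold Pool.Agent.Helper320.Gold.NLA Pool.Agent.Helper320.Gold.NAL Pool.Agent.Helper320.Gold.NFV Pool.Agent.Helper320.Gold.NTI Pool.Agent.Helper320.Gold.NCAP Pool.Agent.Helper320.Gold.NEU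

theorem ofLp_inner_unit {z x : E3} (hz : ‖z‖ = 1) (hx : ‖x‖ = 1) :
    ‖z - x‖ ^ 2 = 2 - 2 * inner ℝ x z := by
  rw [norm_sub_sq_real, hz, hx, real_inner_comm]
  ring

theorem capS_closed (p : E3) (κ : ℝ) : IsClosed (capS p κ) := by
  have h1 : IsClosed {x : E3 | ‖x‖ ≤ 1} := isClosed_le continuous_norm continuous_const
  have h2 : IsClosed {x : E3 | (1 - κ ^ 2 / 2) * ‖x‖ ≤ inner ℝ x p} :=
    isClosed_le (continuous_const.mul continuous_norm) (continuous_id.inner continuous_const)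
  exact h1.inter h2

theorem capS_meas (p : E3) (κ : ℝ) : MeasurableSet (capS p κ) := (capS_closed p κ).measurableSet

theorem capS_sub (p : E3) (κ : ℝ) : capS p κ ⊆ Metric.closedBall 0 1 := by
  intro x hx
  rw [mem_closedBall_zero_iff]
  exact hx.1

theorem hull_closed (S : Finset E3) : IsClosed (convexHull ℝ (S : Set E3)) :=
  S.finite_toSet.isClosed_convexHull ℝ

open Pointwise in
theorem vol_scaled {A B : Set E3} {ρ : ℝ} (hρ : 0 < ρ) (h : ∀ x ∈ B, ρ⁻¹ • x ∈ A) :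
    MeasureTheory.volume B ≤ ENNReal.ofReal (ρ ^ 3) * MeasureTheory.volume A := by
  have hsub : B ⊆ ρ • A := by
    intro x hx
    refine Set.mem_smul_set.2 ⟨ρ⁻¹ • x, h x hx, ?_⟩
    rw [smul_smul, mul_inv_cancel₀ hρ.ne', one_smul]
  have h1 : MeasureTheory.volume B ≤ MeasureTheory.volume (ρ • A) :=
    MeasureTheory.measure_mono hsub
  rwa [MeasureTheory.Measure.addHaar_smul, finrank_euclideanSpace_fin,
    abs_of_pos (by positivity)] at h1

theorem hull_meas (S : Finset E3) : MeasurableSet (convexHull ℝ (S : Set E3)) :=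
  (hull_closed S).measurableSet

theorem hull_sub_ball {S : Finset E3} (hS : Good S) :
    convexHull ℝ (S : Set E3) ⊆ Metric.closedBall 0 1 := by
  refine convexHull_min ?_ (convex_closedBall _ _)
  intro x hx
  rw [mem_closedBall_zero_iff, hS.unit x hx]

theorem ball_fin : MeasureTheory.volume (Metric.closedBall (0 : E3) 1) ≠ ⊤ :=
  (isCompact_closedBall (0 : E3) 1).measure_lt_top.ne

theorem fin_of_sub {A : Set E3} (hA : A ⊆ Metric.closedBall 0 1) : MeasureTheory.volume A ≠ ⊤ :=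
  ne_top_of_le_ne_top ball_fin (MeasureTheory.measure_mono hA)

theorem vol_mono {A B : Set E3} (hB : B ⊆ Metric.closedBall 0 1) (h : A ⊆ B) :
    (MeasureTheory.volume A).toReal ≤ (MeasureTheory.volume B).toReal :=
  ENNReal.toReal_mono (fin_of_sub hB) (MeasureTheory.measure_mono h)

theorem hole_cost {S : Finset E3} (hS : Good S) {z : E3} (hz : ‖z‖ = 1) {r : ℝ} (hr : 0 ≤ r)
    (hr1 : r ≤ 1) (hh : ∀ x ∈ S, r ≤ ‖z - x‖) :
    Real.pi * r ^ 4 / 32 ≤
      (MeasureTheory.volume (capS z (r / 2) \ convexHull ℝ (S : Set E3))).toReal := by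
  have hr2 : r ^ 2 ≤ 1 := by nlinarith
  have hr20 : 0 ≤ r ^ 2 := by positivity
  have hH : convexHull ℝ (S : Set E3) ⊆ {x | inner ℝ z x ≤ 1 - r ^ 2 / 2} := by
    refine convexHull_min ?_ (convex_halfSpace_le (f := fun x => inner ℝ z x)
      (innerSL ℝ z).toLinearMap.isLinear _)
    intro x hx
    have h1 := ofLp_inner_unit hz (hS.unit x hx)
    have h2 : r ^ 2 ≤ ‖z - x‖ ^ 2 := by
      have := hh x hx
      gcongr
    have h3 : inner ℝ z x = inner ℝ x z := real_inner_comm _ _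
    show inner ℝ z x ≤ 1 - r ^ 2 / 2
    rw [h3]
    linarith
  set A := capS z (r / 2) with hA
  set H := convexHull ℝ (S : Set E3) with hHdef
  set ρ : ℝ := (1 - r ^ 2 / 2) / (1 - r ^ 2 / 8) with hρ
  have hd : 0 < 1 - r ^ 2 / 8 := by linarith
  have hn : 0 < 1 - r ^ 2 / 2 := by linarith
  have hρ0 : 0 < ρ := div_pos hn hd
  have hρ1 : ρ ≤ 1 := by
    rw [hρ, div_le_one hd]
    linarith
  have hsub : ∀ x ∈ A ∩ H, ρ⁻¹ • x ∈ A := by
    rintro x ⟨hxA, hxH⟩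
    have h1 : inner ℝ z x ≤ 1 - r ^ 2 / 2 := hH hxH
    have h2 : (1 - (r / 2) ^ 2 / 2) * ‖x‖ ≤ inner ℝ x z := hxA.2
    have h3 : inner ℝ z x = inner ℝ x z := real_inner_comm _ _
    have h4 : ‖x‖ ≤ ρ := by
      rw [hρ, le_div_iff₀ hd]
      nlinarith
    refine ⟨?_, ?_⟩
    · rw [norm_smul, norm_inv, Real.norm_of_nonneg hρ0.le, inv_mul_le_iff₀ hρ0, mul_one]
      exact h4
    · rw [norm_smul, norm_inv, Real.norm_of_nonneg hρ0.le, real_inner_smul_left]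
      have : 0 < ρ⁻¹ := inv_pos.2 hρ0
      nlinarith
  have hAb : A ⊆ Metric.closedBall 0 1 := capS_sub _ _
  have hAv : (MeasureTheory.volume A).toReal = Real.pi * r ^ 2 / 12 := by
    rw [hA, vol_cap hz (by positivity) (by linarith), ENNReal.toReal_ofReal (by positivity)]
    ring
  have hv2 : (MeasureTheory.volume (A ∩ H)).toReal ≤ ρ ^ 3 * (Real.pi * r ^ 2 / 12) := by
    have h1 := vol_scaled hρ0 hsub
    have h2 := ENNReal.toReal_mono (ENNReal.mul_ne_top ENNReal.ofReal_ne_top (fin_of_sub hAb)) h1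
    rw [ENNReal.toReal_mul, ENNReal.toReal_ofReal (by positivity), hAv] at h2
    exact h2
  have hv3 : (MeasureTheory.volume A).toReal ≤
      (MeasureTheory.volume (A ∩ H)).toReal + (MeasureTheory.volume (A \ H)).toReal := by
    rw [← ENNReal.toReal_add (fin_of_sub (Set.inter_subset_left.trans hAb))
      (fin_of_sub (Set.diff_subset.trans hAb))]
    refine ENNReal.toReal_mono (ENNReal.add_ne_top.2
      ⟨fin_of_sub (Set.inter_subset_left.trans hAb), fin_of_sub (Set.diff_subset.trans hAb)⟩) ?_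
    exact MeasureTheory.measure_le_inter_add_diff _ _ _
  rw [hAv] at hv3
  have h5 : 3 * r ^ 2 / 8 ≤ 1 - ρ := by
    have : 1 - ρ = (3 * r ^ 2 / 8) / (1 - r ^ 2 / 8) := by
      rw [hρ, eq_div_iff hd.ne', sub_mul, div_mul_cancel₀ _ hd.ne']
      ring
    rw [this, le_div_iff₀ hd]
    nlinarith
  have h6 : ρ ^ 3 ≤ ρ := by
    have : ρ ^ 2 ≤ 1 := by nlinarith
    nlinarith
  have h7 : 3 * r ^ 2 / 8 ≤ 1 - ρ ^ 3 := by linarith
  have h8 : 0 ≤ Real.pi * r ^ 2 / 12 := by positivity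
  have h9 : 3 * r ^ 2 / 8 * (Real.pi * r ^ 2 / 12) ≤ (1 - ρ ^ 3) * (Real.pi * r ^ 2 / 12) :=
    mul_le_mul_of_nonneg_right h7 h8
  have h10 : 3 * r ^ 2 / 8 * (Real.pi * r ^ 2 / 12) = Real.pi * r ^ 4 / 32 := by ring
  rw [← h10]
  linarith

theorem hole_crude {S : Finset E3} (hS : Good S) {z : E3} (hz : ‖z‖ = 1) {r : ℝ} (hr : 0 ≤ r)
    (hr1 : r ≤ 1) (hh : ∀ x ∈ S, r ≤ ‖z - x‖) :
    Real.pi * r ^ 4 / 32 ≤ 4 * Real.pi / 3 -
      (MeasureTheory.volume (convexHull ℝ (S : Set E3))).toReal := by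
  refine (hole_cost hS hz hr hr1 hh).trans ?_
  have h1 : (MeasureTheory.volume (capS z (r / 2) \ convexHull ℝ (S : Set E3))).toReal ≤
      (MeasureTheory.volume (Metric.closedBall 0 1 \ convexHull ℝ (S : Set E3))).toReal :=
    vol_mono Set.diff_subset (Set.diff_subset_diff_left (capS_sub _ _))
  refine h1.trans ?_
  rw [MeasureTheory.measure_diff (hull_sub_ball hS) (hull_meas S).nullMeasurableSet
    (fin_of_sub (hull_sub_ball hS)), ENNReal.toReal_sub_of_le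
    (MeasureTheory.measure_mono (hull_sub_ball hS)) ball_fin]
  have : (MeasureTheory.volume (Metric.closedBall (0 : E3) 1)).toReal = 4 * Real.pi / 3 := by
    rw [EuclideanSpace.volume_closedBall_fin_three, ENNReal.ofReal_one, one_pow, one_mul,
      ENNReal.toReal_ofReal (by positivity)]
    ring
  rw [this]

theorem tileR {S : Finset E3} (hS : Good S) {A : Set E3} (hA : MeasurableSet A)
    (hb : A ⊆ Metric.closedBall 0 1) :
    ∑ t ∈ FS S, (MeasureTheory.volume (cone3 t.1 t.2.1 t.2.2 ∩ A)).toReal =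
      3 * (MeasureTheory.volume A).toReal := by
  rw [← ENNReal.toReal_sum (fun t _ => fin_of_sub (Set.inter_subset_right.trans hb)),
    tile hS A hA, ENNReal.toReal_mul]
  rfl

theorem cone_smul {u v w x : E3} (h : x ∈ cone3 u v w) {c : ℝ} (hc : 0 ≤ c) :
    c • x ∈ cone3 u v w := by
  obtain ⟨r, s, t, hr, hs, ht, rfl⟩ := h
  refine ⟨c * r, c * s, c * t, by positivity, by positivity, by positivity, ?_⟩
  rw [smul_add, smul_add, smul_smul, smul_smul, smul_smul]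

theorem near_iff {z x : E3} (hz : ‖z‖ = 1) (hx : x ≠ 0) {κ : ℝ} (hκ : 0 ≤ κ) :
    (1 - κ ^ 2 / 2) * ‖x‖ ≤ inner ℝ x z ↔ ‖‖x‖⁻¹ • x - z‖ ≤ κ := by
  have hn : 0 < ‖x‖ := norm_pos_iff.2 hx
  have h1 : ‖(‖x‖⁻¹ • x : E3)‖ = 1 := by
    rw [norm_smul, norm_inv, norm_norm, inv_mul_cancel₀ hn.ne']
  have h2 : ‖‖x‖⁻¹ • x - z‖ ^ 2 = 2 - 2 * (‖x‖⁻¹ * inner ℝ x z) := by
    rw [norm_sub_sq_real, h1, hz, real_inner_smul_left]
    ring
  have h3 : ‖‖x‖⁻¹ • x - z‖ ≤ κ ↔ ‖‖x‖⁻¹ • x - z‖ ^ 2 ≤ κ ^ 2 :=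
    (pow_le_pow_iff_left₀ (norm_nonneg _) hκ two_ne_zero).symm
  rw [h3, h2]
  have h4 : inner ℝ x z = ‖x‖ * (‖x‖⁻¹ * inner ℝ x z) := by
    rw [← mul_assoc, mul_inv_cancel₀ hn.ne', one_mul]
  constructor
  · intro h
    rw [h4] at h
    have : 1 - κ ^ 2 / 2 ≤ ‖x‖⁻¹ * inner ℝ x z := by
      refine le_of_mul_le_mul_left ?_ hn
      linarith
    linarith
  · intro h
    rw [h4]
    have : 1 - κ ^ 2 / 2 ≤ ‖x‖⁻¹ * inner ℝ x z := by linarith
    nlinarith

theorem mem_capS_of {z x : E3} (hz : ‖z‖ = 1) {κ : ℝ} (hκ : 0 ≤ κ) (hx1 : ‖x‖ ≤ 1)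
    (h : x ≠ 0 → ‖‖x‖⁻¹ • x - z‖ ≤ κ) : x ∈ capS z κ := by
  refine ⟨hx1, ?_⟩
  by_cases hx : x = 0
  · subst hx
    simp
  · exact (near_iff hz hx hκ).2 (h hx)

theorem sector_local {S : Finset E3} (hS : Good S) {q : ℝ} (hq : q ≤ 1 / 10) (hq0 : 0 ≤ q)
    (hcov : ∀ a : E3, ‖a‖ = 1 → ∃ x ∈ S, ‖a - x‖ ≤ q) {z : E3} (hz : ‖z‖ = 1)
    {u v w : E3} (h : Facet S u v w) (hU : ∃ y ∈ cone3 u v w, ‖y‖ = 1 ∧ ‖y - z‖ ≤ q / 2) :
    cone3 u v w ∩ Metric.closedBall 0 1 ⊆ capS z (5 / 2 * q) := by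
  obtain ⟨y, hyc, hy1, hyz⟩ := hU
  obtain ⟨a, ha, _, _, _, hcn⟩ := cone_near hS (by linarith) hcov h
  rintro x ⟨hxc, hxb⟩
  rw [mem_closedBall_zero_iff] at hxb
  refine mem_capS_of hz (by positivity) hxb ?_
  intro hx
  have hn : 0 < ‖x‖ := norm_pos_iff.2 hx
  have h1 : ‖(‖x‖⁻¹ • x : E3)‖ = 1 := by
    rw [norm_smul, norm_inv, norm_norm, inv_mul_cancel₀ hn.ne']
  have h2 := hcn _ (cone_smul hxc (inv_nonneg.2 (norm_nonneg x))) h1
  have h3 := hcn y hyc hy1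
  calc ‖‖x‖⁻¹ • x - z‖ = ‖(‖x‖⁻¹ • x - a) - (y - a) + (y - z)‖ := by congr 1; abel
    _ ≤ ‖(‖x‖⁻¹ • x - a) - (y - a)‖ + ‖y - z‖ := norm_add_le _ _
    _ ≤ ‖‖x‖⁻¹ • x - a‖ + ‖y - a‖ + ‖y - z‖ := by gcongr; exact norm_sub_le _ _
    _ ≤ q + q + q / 2 := by gcongr
    _ = 5 / 2 * q := by ring

theorem sector_far {q : ℝ} (hq0 : 0 ≤ q) {z : E3} (hz : ‖z‖ = 1)
    {u v w : E3} (hU : ¬ ∃ y ∈ cone3 u v w, ‖y‖ = 1 ∧ ‖y - z‖ ≤ q / 2) :
    cone3 u v w ∩ capS z (q / 2) ⊆ {0} := by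
  rintro x ⟨hxc, hxb, hx2⟩
  by_contra hx
  have hx : x ≠ 0 := hx
  have hn : 0 < ‖x‖ := norm_pos_iff.2 hx
  have h1 : ‖(‖x‖⁻¹ • x : E3)‖ = 1 := by
    rw [norm_smul, norm_inv, norm_norm, inv_mul_cancel₀ hn.ne']
  exact hU ⟨_, cone_smul hxc (inv_nonneg.2 (norm_nonneg x)), h1,
    (near_iff hz hx (by positivity)).1 hx2⟩

theorem hole_bound {S : Finset E3} (hS : Good S) {q : ℝ} (hq : q ≤ 1 / 10) (hq0 : 0 ≤ q)
    (hcov : ∀ a : E3, ‖a‖ = 1 → ∃ x ∈ S, ‖a - x‖ ≤ q) {z : E3} (hz : ‖z‖ = 1)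
    (hh : ∀ x ∈ S, q ≤ ‖z - x‖) {X ε : ℝ} (hX : 0 < X) (he : 0 ≤ ε)
    (hXc : ((FS S).card : ℝ) * X = 24 * Real.pi)
    (hvol : 4 * Real.pi / 3 - √3 * Real.pi / 3 * X * (1 + ε) ≤
      (MeasureTheory.volume (convexHull ℝ (S : Set E3))).toReal) :
    q ^ 4 ≤ 19 * X * ε + 114 * X * q ^ 2 := by
  classical
  set V : E3 × E3 × E3 → ℝ := fun t => (MeasureTheory.volume
      (cone3 t.1 t.2.1 t.2.2 ∩ Metric.closedBall 0 1)).toReal with hV
  set U : Finset (E3 × E3 × E3) := (FS S).filter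
    (fun t => ∃ y ∈ cone3 t.1 t.2.1 t.2.2, ‖y‖ = 1 ∧ ‖y - z‖ ≤ q / 2) with hU
  have hUF : U ⊆ FS S := Finset.filter_subset _ _
  have hFac : ∀ t ∈ FS S, Facet S t.1 t.2.1 t.2.2 ∧ 0 < tp t.1 t.2.1 t.2.2 := by
    intro t ht
    rw [FS, Finset.mem_filter] at ht
    exact ht.2
  have hfb := fun t ht => facet_bounds hS hq hq0 hcov t ht
  have hAb : capS z (q / 2) ⊆ Metric.closedBall 0 1 := capS_sub _ _
  set H := convexHull ℝ (S : Set E3) with hH
  have hHm : MeasurableSet H := hull_meas S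
  have hHb : H ⊆ Metric.closedBall 0 1 := hull_sub_ball hS
  -- step c
  have hc : 3 * (Real.pi * q ^ 4 / 32) ≤ ∑ t ∈ U, (V t - tpt t / 6) := by
    have h1 := hole_cost hS hz hq0 (by linarith) hh
    have h2 := tileR hS (A := capS z (q / 2) \ H) ((capS_meas _ _).diff hHm)
      (Set.diff_subset.trans hAb)
    have h3 : ∑ t ∈ FS S, (MeasureTheory.volume
        (cone3 t.1 t.2.1 t.2.2 ∩ (capS z (q / 2) \ H))).toReal =
        ∑ t ∈ U, (MeasureTheory.volume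
        (cone3 t.1 t.2.1 t.2.2 ∩ (capS z (q / 2) \ H))).toReal := by
      symm
      refine Finset.sum_subset hUF ?_
      intro t ht htU
      have h4 : ¬ ∃ y ∈ cone3 t.1 t.2.1 t.2.2, ‖y‖ = 1 ∧ ‖y - z‖ ≤ q / 2 := by
        intro h
        exact htU (Finset.mem_filter.2 ⟨ht, h⟩)
      have h5 : cone3 t.1 t.2.1 t.2.2 ∩ (capS z (q / 2) \ H) ⊆ {0} :=
        (Set.inter_subset_inter_right _ Set.diff_subset).trans (sector_far hq0 hz h4)
      have h6 : MeasureTheory.volume (cone3 t.1 t.2.1 t.2.2 ∩ (capS z (q / 2) \ H)) = 0 :=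
        MeasureTheory.measure_mono_null h5 (MeasureTheory.measure_singleton _)
      rw [h6, ENNReal.toReal_zero]
    rw [h3] at h2
    have h7 : ∑ t ∈ U, (MeasureTheory.volume
        (cone3 t.1 t.2.1 t.2.2 ∩ (capS z (q / 2) \ H))).toReal ≤ ∑ t ∈ U, (V t - tpt t / 6) := by
      refine Finset.sum_le_sum ?_
      intro t ht
      have htF := hUF ht
      obtain ⟨hF, htp⟩ := hFac t htF
      have h8 : cone3 t.1 t.2.1 t.2.2 ∩ (capS z (q / 2) \ H) ⊆
          (cone3 t.1 t.2.1 t.2.2 ∩ Metric.closedBall 0 1) \ (cone3 t.1 t.2.1 t.2.2 ∩ H) := by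
        rintro x ⟨hx1, hx2, hx3⟩
        exact ⟨⟨hx1, hAb hx2⟩, fun h => hx3 h.2⟩
      have h9 := vol_mono (Set.diff_subset.trans Set.inter_subset_right) h8
      refine h9.trans ?_
      have hsub : cone3 t.1 t.2.1 t.2.2 ∩ H ⊆ cone3 t.1 t.2.1 t.2.2 ∩ Metric.closedBall 0 1 :=
        Set.inter_subset_inter_right _ hHb
      have hcm : MeasurableSet (cone3 t.1 t.2.1 t.2.2 ∩ H) := by
        rw [hH, hull_cone hS hF]
        have hfs : ({0, t.1, t.2.1, t.2.2} : Set E3).Finite := by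
          simp only [Set.finite_insert, Set.finite_singleton]
        exact (hfs.isClosed_convexHull ℝ).measurableSet
      have hvt : (MeasureTheory.volume (cone3 t.1 t.2.1 t.2.2 ∩ H)).toReal = tpt t / 6 := by
        rw [hH, hull_cone hS hF, vol_tetra, abs_of_pos htp, ENNReal.toReal_ofReal (by positivity)]
        rfl
      rw [MeasureTheory.measure_diff hsub hcm.nullMeasurableSet
        (fin_of_sub (hsub.trans Set.inter_subset_right)), ENNReal.toReal_sub_of_le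
        (MeasureTheory.measure_mono hsub) (fin_of_sub Set.inter_subset_right), hvt]
    linarith
  -- step d
  have hdd : ∑ t ∈ U, V t ≤ 25 / 4 * Real.pi * q ^ 2 := by
    have h2 := tileR hS (A := capS z (5 / 2 * q)) (capS_meas _ _) (capS_sub _ _)
    rw [vol_cap hz (by positivity) (by linarith), ENNReal.toReal_ofReal (by positivity)] at h2
    have h3 : ∑ t ∈ U, V t ≤ ∑ t ∈ U, (MeasureTheory.volume
        (cone3 t.1 t.2.1 t.2.2 ∩ capS z (5 / 2 * q))).toReal := by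
      refine Finset.sum_le_sum ?_
      intro t ht
      refine vol_mono (Set.inter_subset_right.trans (capS_sub _ _)) ?_
      refine Set.subset_inter Set.inter_subset_left ?_
      exact sector_local hS hq hq0 hcov hz (hFac t (hUF ht)).1 (Finset.mem_filter.1 ht).2
    have h4 : ∑ t ∈ U, (MeasureTheory.volume
        (cone3 t.1 t.2.1 t.2.2 ∩ capS z (5 / 2 * q))).toReal ≤ ∑ t ∈ FS S, (MeasureTheory.volume
        (cone3 t.1 t.2.1 t.2.2 ∩ capS z (5 / 2 * q))).toReal :=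
      Finset.sum_le_sum_of_subset_of_nonneg hUF (fun _ _ _ => ENNReal.toReal_nonneg)
    rw [h2] at h4
    have h5 : 3 * (Real.pi * (5 / 2 * q) ^ 2 / 3) = 25 / 4 * Real.pi * q ^ 2 := by ring
    linarith
  have h3p : 0 < √3 := by positivity
  -- step e
  have hsq : ∀ t, 0 ≤ sq3 t := by
    intro t
    unfold sq3
    positivity
  have htV : ∀ t ∈ FS S, tpt t ≤ 6 * V t := by
    intro t ht
    obtain ⟨h1, h2, _, _⟩ := hfb t ht
    have h3 : 0 ≤ tpt t * sq3 t / 48 := by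
      have := hsq t
      positivity
    have h4 : tpt t / 6 + tpt t * sq3 t / 48 ≤ V t := h2
    linarith
  have hee : ∑ t ∈ U, √3 / 24 * (2 * X * tpt t - X ^ 2) ≤ √3 / 12 * X * (75 / 2 * Real.pi * q ^ 2) := by
    calc ∑ t ∈ U, √3 / 24 * (2 * X * tpt t - X ^ 2)
        ≤ ∑ t ∈ U, √3 / 12 * X * (6 * V t) := by
          refine Finset.sum_le_sum ?_
          intro t ht
          have h1 := htV t (hUF ht)
          have h2 : √3 / 24 * (2 * X * tpt t - X ^ 2) = √3 / 12 * X * tpt t - √3 / 24 * X ^ 2 := by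
            ring
          rw [h2]
          have h3 : √3 / 12 * X * tpt t ≤ √3 / 12 * X * (6 * V t) :=
            mul_le_mul_of_nonneg_left h1 (by positivity)
          have h4 : 0 ≤ √3 / 24 * X ^ 2 := by positivity
          linarith
      _ = √3 / 12 * X * (6 * ∑ t ∈ U, V t) := by
          rw [← Finset.mul_sum, ← Finset.mul_sum]
      _ ≤ √3 / 12 * X * (75 / 2 * Real.pi * q ^ 2) := by
          refine mul_le_mul_of_nonneg_left ?_ (by positivity)
          linarith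
  -- step f
  have hf := sum_def hS hq hq0 hcov hX hXc hvol
  have hpen := (sum_pen hS hq hq0 hcov hX hXc hvol).1
  have hnn : ∀ t ∈ FS S, 0 ≤ V t - tpt t / 6 - √3 / 24 * (2 * X * tpt t - X ^ 2) := by
    intro t ht
    have h1 := hpen t ht
    obtain ⟨_, h2, _, _⟩ := hfb t ht
    have h4 : tpt t / 6 + tpt t * sq3 t / 48 ≤ V t := h2
    unfold pen at h1
    have h5 : √3 * √3 = 3 := Real.mul_self_sqrt (by norm_num)
    nlinarith
  have hsub : ∑ t ∈ U, (V t - tpt t / 6 - √3 / 24 * (2 * X * tpt t - X ^ 2)) ≤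
      ∑ t ∈ FS S, (V t - tpt t / 6 - √3 / 24 * (2 * X * tpt t - X ^ 2)) :=
    Finset.sum_le_sum_of_subset_of_nonneg hUF (fun t ht _ => hnn t ht)
  rw [Finset.sum_sub_distrib] at hsub
  have hfin : 3 * (Real.pi * q ^ 4 / 32) - √3 / 12 * X * (75 / 2 * Real.pi * q ^ 2) ≤
      √3 * Real.pi * X * (ε + 3 * q ^ 2) := by
    have hf' : ∑ t ∈ FS S, (V t - tpt t / 6 - √3 / 24 * (2 * X * tpt t - X ^ 2)) ≤
        √3 * Real.pi * X * (ε + 3 * q ^ 2) := hf
    linarith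
  have hpi := Real.pi_pos
  have h1 : Real.pi * q ^ 4 ≤ Real.pi * (32 / 3 * √3 * X * (ε + 3 * q ^ 2) +
      32 / 3 * (√3 / 12 * X * (75 / 2 * q ^ 2))) := by
    nlinarith
  have h2 : q ^ 4 ≤ 32 / 3 * √3 * X * (ε + 3 * q ^ 2) +
      32 / 3 * (√3 / 12 * X * (75 / 2 * q ^ 2)) := le_of_mul_le_mul_left h1 hpi
  have h3 : √3 ≤ 17321 / 10000 := by
    rw [Real.sqrt_le_left (by norm_num)]
    norm_num
  have h4 : 32 / 3 * √3 * X * (ε + 3 * q ^ 2) + 32 / 3 * (√3 / 12 * X * (75 / 2 * q ^ 2)) =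
      √3 * (32 / 3 * (X * ε) + (196 / 3) * (X * q ^ 2)) := by ring
  rw [h4] at h2
  have h5 : 0 ≤ X * ε := by positivity
  have h6 : 0 ≤ X * q ^ 2 := by positivity
  have h7 : √3 * (32 / 3 * (X * ε) + (196 / 3) * (X * q ^ 2)) ≤
      17321 / 10000 * (32 / 3 * (X * ε) + (196 / 3) * (X * q ^ 2)) :=
    mul_le_mul_of_nonneg_right h3 (by positivity)
  linarith

theorem sphere_inf (S : Finset E3) : ∃ a : E3, ‖a‖ = 1 ∧ a ∉ S := by
  by_contra hcon
  push Not at hcon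
  let w : ℕ → E3 := fun n => EuclideanSpace.single (0 : Fin 3) (1 : ℝ) +
    (n : ℝ) • EuclideanSpace.single (1 : Fin 3) (1 : ℝ)
  have w0 : ∀ n, w n 0 = 1 := by
    intro n
    simp [w]
  have w1 : ∀ n, w n 1 = n := by
    intro n
    simp [w]
  have hw : ∀ n, w n ≠ 0 := by
    intro n h
    have := w0 n
    rw [h] at this
    simp at this
  have hn : ∀ n, 0 < ‖w n‖ := fun n => norm_pos_iff.2 (hw n)
  have hinj : Function.Injective (fun n => ‖w n‖⁻¹ • w n) := by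
    intro n m h
    have h : ‖w n‖⁻¹ • w n = ‖w m‖⁻¹ • w m := h
    have h0 := congrArg (fun x : E3 => x 0) h
    have h1 := congrArg (fun x : E3 => x 1) h
    simp only [PiLp.smul_apply, w0, w1, smul_eq_mul, mul_one] at h0 h1
    rw [h0] at h1
    have h2 := mul_left_cancel₀ (inv_ne_zero (hn m).ne') h1
    exact_mod_cast h2
  have hfin : (Set.range (fun n => ‖w n‖⁻¹ • w n)).Finite := by
    refine S.finite_toSet.subset ?_
    rintro _ ⟨n, rfl⟩
    refine hcon _ ?_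
    show ‖(‖w n‖⁻¹ • w n : E3)‖ = 1
    rw [norm_smul, norm_inv, norm_norm, inv_mul_cancel₀ (hn n).ne']
  exact (Set.infinite_range_of_injective hinj) hfin

theorem exists_cov {S : Finset E3} (hS : Good S) : ∃ q : ℝ, 0 < q ∧ ∃ z : E3, ‖z‖ = 1 ∧
    (∀ x ∈ S, q ≤ ‖z - x‖) ∧ ∀ a : E3, ‖a‖ = 1 → ∃ x ∈ S, ‖a - x‖ ≤ q := by
  obtain ⟨a₀, ha₀, ha₀S⟩ := sphere_inf S
  have hSne : S.Nonempty := by
    obtain ⟨x, hx, _⟩ := hS.origin a₀ (by rintro rfl; simp at ha₀)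
    exact ⟨x, hx⟩
  let f : E3 → ℝ := fun a => S.inf' hSne (fun x => ‖a - x‖)
  have hf : Continuous f := by
    refine Continuous.finset_inf'_apply hSne (fun x _ => ?_)
    exact (continuous_id.sub continuous_const).norm
  have hcomp : IsCompact (Metric.sphere (0 : E3) 1) := isCompact_sphere 0 1
  obtain ⟨z, hz, hmax⟩ := hcomp.exists_isMaxOn ⟨a₀, by
    rw [mem_sphere_zero_iff_norm]; exact ha₀⟩ hf.continuousOn
  have hz1 : ‖z‖ = 1 := mem_sphere_zero_iff_norm.1 hz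
  refine ⟨f z, ?_, z, hz1, ?_, ?_⟩
  · have h1 : f a₀ ≤ f z := hmax (by
      show a₀ ∈ Metric.sphere (0 : E3) 1
      rw [mem_sphere_zero_iff_norm]; exact ha₀)
    refine lt_of_lt_of_le ?_ h1
    show 0 < S.inf' hSne (fun x => ‖a₀ - x‖)
    rw [Finset.lt_inf'_iff]
    intro x hx
    rw [norm_pos_iff, sub_ne_zero]
    rintro rfl
    exact ha₀S hx
  · intro x hx
    exact Finset.inf'_le _ hx
  · intro a ha
    have h1 : f a ≤ f z := hmax (by
      show a ∈ Metric.sphere (0 : E3) 1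
      rw [mem_sphere_zero_iff_norm]; exact ha)
    obtain ⟨x, hx, hxe⟩ := S.exists_mem_eq_inf' hSne (fun x => ‖a - x‖)
    refine ⟨x, hx, ?_⟩
    rw [← hxe]
    exact h1

end Pool.Agent.Helper320.Gold.NLC
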