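import Mathlib
import Pool.Agent.Helper320.GBaseA

set_option autoImplicit false
open Set

namespace Pool.Agent.Helper320.Gold.NB0

open Pool.Agent.Helper320.Gold

theorem j3951_phi {w e f : E3} (h : ON w e f) :
    ∃ Φ : (ℝ × (ℝ × ℝ)) ≃ᵐ E3, MeasureTheory.MeasurePreserving Φ ∧
      ∀ p, Φ p = p.1 • w + p.2.1 • e + p.2.2 • f := by
  have hon : Orthonormal ℝ (![w, e, f] : Fin 3 → E3) := by
    have hwe := h.we
    have hwf := h.wf
    have hef := h.ef
    have hew : inner ℝ e w = 0 := by rw [real_inner_comm]; exact hwe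
    have hfw : inner ℝ f w = 0 := by rw [real_inner_comm]; exact hwf
    have hfe : inner ℝ f e = 0 := by rw [real_inner_comm]; exact hef
    refine ⟨?_, ?_⟩
    · intro i
      fin_cases i
      · exact h.w1
      · exact h.e1
      · exact h.f1
    · intro i j hij
      fin_cases i <;> fin_cases j <;> simp_all
  have hspan : ⊤ ≤ Submodule.span ℝ (Set.range (![w, e, f] : Fin 3 → E3)) := by
    refine (hon.linearIndependent.span_eq_top_of_card_eq_finrank' ?_).ge
    simp
  let b : OrthonormalBasis (Fin 3) ℝ E3 := OrthonormalBasis.mk hon hspan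
  have hb : ∀ i, b i = (![w, e, f] : Fin 3 → E3) i := by
    intro i
    exact congrFun (OrthonormalBasis.coe_mk hon hspan) i
  have mp1 : MeasureTheory.MeasurePreserving
      (MeasurableEquiv.prodCongr (MeasurableEquiv.refl ℝ)
        (@MeasurableEquiv.finTwoArrow ℝ _).symm) := by
    exact (MeasureTheory.MeasurePreserving.id _).prod
      ((MeasureTheory.volume_preserving_finTwoArrow ℝ).symm _)
  have mp2 := (MeasureTheory.volume_preserving_piFinSuccAbove (fun _ : Fin 3 => ℝ) 0).symm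
  have mp3 := (EuclideanSpace.volume_preserving_symm_measurableEquiv_toLp (Fin 3)).symm
  have mp4 := b.measurePreserving_measurableEquiv.symm
  refine ⟨((MeasurableEquiv.prodCongr (MeasurableEquiv.refl ℝ)
        (@MeasurableEquiv.finTwoArrow ℝ _).symm).trans
          (MeasurableEquiv.piFinSuccAbove (fun _ : Fin 3 => ℝ) 0).symm).trans
          ((MeasurableEquiv.toLp 2 (Fin 3 → ℝ)).trans b.measurableEquiv.symm), ?_, ?_⟩
  · have h12 := mp2.comp mp1
    have h34 := mp4.comp mp3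
    exact h34.comp h12
  · rintro ⟨t, x, y⟩
    have key : ∀ v : EuclideanSpace ℝ (Fin 3), b.measurableEquiv.symm v =
        ∑ i, v i • b i := fun v => (b.sum_repr_symm v).symm
    show b.measurableEquiv.symm _ = _
    rw [key, Fin.sum_univ_three, hb, hb, hb]
    rfl

theorem j3951_norm {w e f : E3} (h : ON w e f) (z : ℝ × ℝ) :
    ‖pl w e f z‖ = √(1 + z.1 ^ 2 + z.2 ^ 2) := by
  have hwe := h.we
  have hwf := h.wf
  have hef := h.ef
  have hew : inner ℝ e w = 0 := by rw [real_inner_comm]; exact hwe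
  have hfw : inner ℝ f w = 0 := by rw [real_inner_comm]; exact hwf
  have hfe : inner ℝ f e = 0 := by rw [real_inner_comm]; exact hef
  have hww : inner ℝ w w = 1 := by rw [real_inner_self_eq_norm_sq, h.w1]; norm_num
  have hee : inner ℝ e e = 1 := by rw [real_inner_self_eq_norm_sq, h.e1]; norm_num
  have hff : inner ℝ f f = 1 := by rw [real_inner_self_eq_norm_sq, h.f1]; norm_num
  rw [eq_comm, Real.sqrt_eq_iff_mul_self_eq (by positivity) (norm_nonneg _),
    ← real_inner_self_eq_norm_mul_norm]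
  simp only [pl, inner_add_left, inner_add_right, real_inner_smul_left, real_inner_smul_right,
    hwe, hwf, hef, hew, hfw, hfe, hww, hee, hff]
  ring

theorem vol_shell_le {w e f : E3} (h : ON w e f) {Z : Set (ℝ × ℝ)} (hZ : MeasurableSet Z)
    (R : ℝ × ℝ → ℝ) (hR : Measurable R) (hR1 : ∀ z ∈ Z, 1 ≤ R z) :
    MeasureTheory.volume {x : E3 | ∃ r : ℝ, 0 ≤ r ∧ ∃ z ∈ Z, x = r • pl w e f z ∧ 1 ≤ ‖x‖ ∧
      ‖x‖ ≤ R z} ≤ ∫⁻ z in Z, ENNReal.ofReal ((R z ^ 3 - 1) / 3) := by
  classical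
  obtain ⟨Φ, hΦ, hΦv⟩ := j3951_phi h
  set S : Set E3 := {x : E3 | ∃ r : ℝ, 0 ≤ r ∧ ∃ z ∈ Z, x = r • pl w e f z ∧ 1 ≤ ‖x‖ ∧
      ‖x‖ ≤ R z} with hS
  rw [← hΦ.measure_preimage_equiv S]
  set n : ℝ × ℝ → ℝ := fun z => √(1 + z.1 ^ 2 + z.2 ^ 2) with hn
  have hn1 : ∀ z, 1 ≤ n z := by
    intro z
    rw [hn]
    show 1 ≤ √(1 + z.1 ^ 2 + z.2 ^ 2)
    rw [Real.one_le_sqrt]
    nlinarith [sq_nonneg z.1, sq_nonneg z.2]
  have hnm : Measurable n := by
    rw [hn]; fun_prop
  set B : Set (ℝ × (ℝ × ℝ)) := {p | 0 < p.1 ∧ p.2 ∈ Z ∧ 1 ≤ p.1 * n p.2 ∧ p.1 * n p.2 ≤ R p.2}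
    with hB
  have hBm : MeasurableSet B := by
    have e1 : MeasurableSet {p : ℝ × (ℝ × ℝ) | 0 < p.1} :=
      measurableSet_lt measurable_const measurable_fst
    have e2 : MeasurableSet {p : ℝ × (ℝ × ℝ) | p.2 ∈ Z} := measurable_snd hZ
    have e3 : MeasurableSet {p : ℝ × (ℝ × ℝ) | 1 ≤ p.1 * n p.2} :=
      measurableSet_le measurable_const (measurable_fst.mul (hnm.comp measurable_snd))
    have e4 : MeasurableSet {p : ℝ × (ℝ × ℝ) | p.1 * n p.2 ≤ R p.2} :=
      measurableSet_le (measurable_fst.mul (hnm.comp measurable_snd)) (hR.comp measurable_snd)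
    exact e1.inter (e2.inter (e3.inter e4))
  set g : ℝ × (ℝ × ℝ) → ℝ × (ℝ × ℝ) := fun p => (p.1, p.1⁻¹ • p.2) with hg
  have hgm : Measurable g := measurable_fst.prodMk (measurable_fst.inv.smul measurable_snd)
  have hsub : Φ ⁻¹' S ⊆ g ⁻¹' B := by
    rintro ⟨t, x⟩ hp
    obtain ⟨r, hr0, z, hz, hx, h1, h2⟩ := hp
    have hx' : Φ (t, x) = Φ (r, r • z) := by
      rw [hx, hΦv]
      simp only [pl, smul_add, smul_smul, Prod.smul_fst, Prod.smul_snd, smul_eq_mul]
    have hinj := Φ.injective hx'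
    have ht : t = r := congrArg Prod.fst hinj
    have hxz : x = r • z := congrArg Prod.snd hinj
    have hnorm : ‖Φ (t, x)‖ = r * n z := by
      rw [hx, norm_smul, j3951_norm h, Real.norm_eq_abs, abs_of_nonneg hr0]
    rw [hnorm] at h1 h2
    have hrpos : 0 < r := by
      rcases eq_or_lt_of_le hr0 with h0 | h0
      · rw [← h0] at h1; norm_num at h1
      · exact h0
    subst ht
    subst hxz
    have hz' : t⁻¹ • (t • z) = z := by rw [smul_smul, inv_mul_cancel₀ hrpos.ne', one_smul]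
    show 0 < t ∧ t⁻¹ • (t • z) ∈ Z ∧ 1 ≤ t * n (t⁻¹ • (t • z)) ∧
      t * n (t⁻¹ • (t • z)) ≤ R (t⁻¹ • (t • z))
    rw [hz']
    exact ⟨hrpos, hz, h1, h2⟩
  refine (MeasureTheory.measure_mono hsub).trans ?_
  have hvol : (MeasureTheory.volume : MeasureTheory.Measure (ℝ × (ℝ × ℝ))) =
    (MeasureTheory.volume : MeasureTheory.Measure ℝ).prod
      (MeasureTheory.volume : MeasureTheory.Measure (ℝ × ℝ)) := rfl
  rw [hvol, MeasureTheory.Measure.prod_apply (hgm hBm)]
  have hslice : ∀ t : ℝ, MeasureTheory.volume (Prod.mk t ⁻¹' (g ⁻¹' B)) =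
      ∫⁻ z : ℝ × ℝ, B.indicator (fun p => ENNReal.ofReal (p.1 ^ 2)) (t, z) := by
    intro t
    by_cases ht : 0 < t
    · have e1 : Prod.mk t ⁻¹' (g ⁻¹' B) = (t⁻¹ • ·) ⁻¹' (Prod.mk t ⁻¹' B) := rfl
      rw [e1, MeasureTheory.Measure.addHaar_preimage_smul _ (inv_ne_zero ht.ne')]
      have e2 : Module.finrank ℝ (ℝ × ℝ) = 2 := by simp
      have e3 : ∀ z : ℝ × ℝ, B.indicator (fun p => ENNReal.ofReal (p.1 ^ 2)) (t, z) =
          (Prod.mk t ⁻¹' B).indicator (fun _ => ENNReal.ofReal (t ^ 2)) z := fun z => rfl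
      simp_rw [e3]
      rw [MeasureTheory.lintegral_indicator (measurable_prodMk_left hBm),
        MeasureTheory.setLIntegral_const, e2]
      congr 2
      rw [inv_pow, inv_inv, abs_of_nonneg (by positivity)]
    · have e1 : Prod.mk t ⁻¹' (g ⁻¹' B) = ∅ := by
        ext x
        simp only [Set.mem_preimage, Set.mem_empty_iff_false, iff_false]
        intro hx
        exact ht hx.1
      have e3 : ∀ z : ℝ × ℝ, B.indicator (fun p => ENNReal.ofReal (p.1 ^ 2)) (t, z) = 0 := by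
        intro z
        rw [Set.indicator_of_notMem]
        intro hx
        exact ht hx.1
      simp_rw [e3, e1]
      simp
  simp_rw [hslice]
  have hmeas : Measurable (B.indicator (fun p : ℝ × (ℝ × ℝ) => ENNReal.ofReal (p.1 ^ 2))) :=
    (by fun_prop : Measurable (fun p : ℝ × (ℝ × ℝ) => ENNReal.ofReal (p.1 ^ 2))).indicator hBm
  have hswap := MeasureTheory.lintegral_lintegral_swap
    (μ := (MeasureTheory.volume : MeasureTheory.Measure ℝ))
    (ν := (MeasureTheory.volume : MeasureTheory.Measure (ℝ × ℝ)))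
    (f := fun (t : ℝ) (z : ℝ × ℝ) => B.indicator (fun p => ENNReal.ofReal (p.1 ^ 2)) (t, z))
    hmeas.aemeasurable
  rw [hswap, ← MeasureTheory.lintegral_indicator hZ]
  refine MeasureTheory.lintegral_mono ?_
  intro z
  by_cases hz : z ∈ Z
  · rw [Set.indicator_of_mem hz]
    have hnz := hn1 z
    have hn0 : 0 < n z := by linarith
    have hRz := hR1 z hz
    have hle : 1 / n z ≤ R z / n z := by gcongr
    calc ∫⁻ t : ℝ, B.indicator (fun p => ENNReal.ofReal (p.1 ^ 2)) (t, z)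
        ≤ ∫⁻ t : ℝ, (Set.Icc (1 / n z) (R z / n z)).indicator
            (fun t => ENNReal.ofReal (t ^ 2)) t := by
          refine MeasureTheory.lintegral_mono ?_
          intro t
          by_cases htB : (t, z) ∈ B
          · have hmem : t ∈ Set.Icc (1 / n z) (R z / n z) := by
              obtain ⟨_, _, h3, h4⟩ := htB
              exact ⟨by rw [div_le_iff₀ hn0]; exact h3, by rw [le_div_iff₀ hn0]; exact h4⟩
            show B.indicator (fun p => ENNReal.ofReal (p.1 ^ 2)) (t, z) ≤ _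
            rw [Set.indicator_of_mem htB, Set.indicator_of_mem hmem]
          · show B.indicator (fun p => ENNReal.ofReal (p.1 ^ 2)) (t, z) ≤ _
            rw [Set.indicator_of_notMem htB]
            exact zero_le
      _ = ∫⁻ t in Set.Icc (1 / n z) (R z / n z), ENNReal.ofReal (t ^ 2) :=
          MeasureTheory.lintegral_indicator measurableSet_Icc _
      _ = ENNReal.ofReal (∫ t in Set.Icc (1 / n z) (R z / n z), t ^ 2) := by
          rw [MeasureTheory.ofReal_integral_eq_lintegral_ofReal]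
          · exact (continuous_pow 2).integrableOn_Icc
          · exact Filter.Eventually.of_forall fun t => sq_nonneg t
      _ = ENNReal.ofReal ((R z ^ 3 - 1) / 3 / n z ^ 3) := by
          congr 1
          rw [MeasureTheory.integral_Icc_eq_integral_Ioc,
            ← intervalIntegral.integral_of_le hle, integral_pow]
          have hn3 : n z ^ 3 ≠ 0 := by positivity
          norm_num
          field_simp
      _ ≤ ENNReal.ofReal ((R z ^ 3 - 1) / 3) := by
          refine ENNReal.ofReal_le_ofReal ?_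
          refine div_le_self ?_ (one_le_pow₀ hnz)
          have : 1 ≤ R z ^ 3 := one_le_pow₀ hRz
          linarith
  · have e3 : ∀ t : ℝ, B.indicator (fun p => ENNReal.ofReal (p.1 ^ 2)) (t, z) = 0 := by
      intro t
      rw [Set.indicator_of_notMem]
      intro hx
      exact hz hx.2.1
    show ∫⁻ t : ℝ, B.indicator (fun p => ENNReal.ofReal (p.1 ^ 2)) (t, z) ≤ _
    simp_rw [e3]
    simp

/-- squared norm in the triangle coordinates -/
noncomputable def j3951_q (x y : ℝ) : ℝ := x ^ 2 + x * y + y ^ 2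

noncomputable def j3951_m (p : ℝ × ℝ) : ℝ :=
  min (min (j3951_q p.1 p.2) (j3951_q p.2 (1 - p.1 - p.2))) (j3951_q p.1 (1 - p.1 - p.2))

def j3951_T : Set (ℝ × ℝ) := {p | 0 ≤ p.1 ∧ 0 ≤ p.2 ∧ p.1 + p.2 ≤ 1}

theorem j3951_closed : IsClosed j3951_T := by
  have e1 : IsClosed {p : ℝ × ℝ | 0 ≤ p.1} := isClosed_le continuous_const continuous_fst
  have e2 : IsClosed {p : ℝ × ℝ | 0 ≤ p.2} := isClosed_le continuous_const continuous_snd
  have e3 : IsClosed {p : ℝ × ℝ | p.1 + p.2 ≤ 1} :=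
    isClosed_le (continuous_fst.add continuous_snd) continuous_const
  exact e1.inter (e2.inter e3)

theorem j3951_compact : IsCompact j3951_T := by
  refine IsCompact.of_isClosed_subset (isCompact_Icc (a := ((0 : ℝ), (0 : ℝ))) (b := (1, 1)))
    j3951_closed ?_
  rintro ⟨x, y⟩ ⟨h1, h2, h3⟩
  simp only at h1 h2 h3
  refine ⟨⟨h1, h2⟩, ⟨?_, ?_⟩⟩
  · show x ≤ 1
    linarith
  · show y ≤ 1
    linarith

theorem j3951_fubini (g : ℝ × ℝ → ℝ) (hg : Continuous g) :
    ∫ p in j3951_T, g p = ∫ a in (0:ℝ)..1, ∫ b in (0:ℝ)..(1 - a), g (a, b) := by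
  have hTm : MeasurableSet j3951_T := j3951_closed.measurableSet
  have hint : MeasureTheory.IntegrableOn g j3951_T :=
    hg.continuousOn.integrableOn_compact j3951_compact
  rw [← MeasureTheory.integral_indicator hTm]
  have hvol : (MeasureTheory.volume : MeasureTheory.Measure (ℝ × ℝ)) =
    (MeasureTheory.volume : MeasureTheory.Measure ℝ).prod
      (MeasureTheory.volume : MeasureTheory.Measure ℝ) := rfl
  have hint2 : MeasureTheory.Integrable (j3951_T.indicator g)
      ((MeasureTheory.volume : MeasureTheory.Measure ℝ).prod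
      (MeasureTheory.volume : MeasureTheory.Measure ℝ)) :=
    (MeasureTheory.integrable_indicator_iff hTm).2 hint
  rw [hvol, MeasureTheory.integral_prod _ hint2]
  have key : ∀ a : ℝ, ∫ b : ℝ, j3951_T.indicator g (a, b) =
      (Set.Icc (0:ℝ) 1).indicator (fun a => ∫ b in (0:ℝ)..(1 - a), g (a, b)) a := by
    intro a
    by_cases ha : a ∈ Set.Icc (0:ℝ) 1
    · rw [Set.indicator_of_mem ha]
      have e1 : ∀ b : ℝ, j3951_T.indicator g (a, b) =
          (Set.Icc (0:ℝ) (1 - a)).indicator (fun b => g (a, b)) b := by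
        intro b
        by_cases hb : b ∈ Set.Icc (0:ℝ) (1 - a)
        · have hm : (a, b) ∈ j3951_T := ⟨ha.1, hb.1, by
            show a + b ≤ 1
            linarith [hb.2]⟩
          rw [Set.indicator_of_mem hb, Set.indicator_of_mem hm]
        · have hm : (a, b) ∉ j3951_T := by
            rintro ⟨_, h2, h3⟩
            simp only at h2 h3
            exact hb ⟨h2, by linarith⟩
          rw [Set.indicator_of_notMem hb, Set.indicator_of_notMem hm]
      simp_rw [e1]
      rw [MeasureTheory.integral_indicator measurableSet_Icc,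
        MeasureTheory.integral_Icc_eq_integral_Ioc,
        ← intervalIntegral.integral_of_le (by linarith [ha.2])]
    · rw [Set.indicator_of_notMem ha]
      have e1 : ∀ b : ℝ, j3951_T.indicator g (a, b) = 0 := by
        intro b
        have hm : (a, b) ∉ j3951_T := by
          rintro ⟨h1, h2, h3⟩
          simp only at h1 h2 h3
          exact ha ⟨h1, by linarith⟩
        rw [Set.indicator_of_notMem hm]
      simp_rw [e1]
      simp
  simp_rw [key]
  rw [MeasureTheory.integral_indicator measurableSet_Icc,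
    MeasureTheory.integral_Icc_eq_integral_Ioc,
    ← intervalIntegral.integral_of_le zero_le_one]

theorem j3951_cubic (α β γ δ l r : ℝ) :
    ∫ x in l..r, (α + β * x + γ * x ^ 2 + δ * x ^ 3) =
      α * (r - l) + β * (r ^ 2 - l ^ 2) / 2 + γ * (r ^ 3 - l ^ 3) / 3 +
        δ * (r ^ 4 - l ^ 4) / 4 := by
  have hd : ∀ x ∈ Set.uIcc l r, HasDerivAt
      (fun x : ℝ => α * x + β * x ^ 2 / 2 + γ * x ^ 3 / 3 + δ * x ^ 4 / 4)
      (α + β * x + γ * x ^ 2 + δ * x ^ 3) x := by
    intro x _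
    have h1 : HasDerivAt (fun x : ℝ => α * x) (α * 1) x := (hasDerivAt_id x).const_mul α
    have h2 : HasDerivAt (fun x : ℝ => β * x ^ 2 / 2) (β * ((2 : ℕ) * x ^ (2 - 1)) / 2) x :=
      ((hasDerivAt_pow 2 x).const_mul β).div_const 2
    have h3 : HasDerivAt (fun x : ℝ => γ * x ^ 3 / 3) (γ * ((3 : ℕ) * x ^ (3 - 1)) / 3) x :=
      ((hasDerivAt_pow 3 x).const_mul γ).div_const 3
    have h4 : HasDerivAt (fun x : ℝ => δ * x ^ 4 / 4) (δ * ((4 : ℕ) * x ^ (4 - 1)) / 4) x :=
      ((hasDerivAt_pow 4 x).const_mul δ).div_const 4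
    have h5 := ((h1.add h2).add h3).add h4
    convert! h5 using 1
    norm_num
    ring
  rw [intervalIntegral.integral_eq_sub_of_hasDerivAt hd
    ((by fun_prop : Continuous fun x : ℝ => α + β * x + γ * x ^ 2 + δ * x ^ 3).intervalIntegrable
      _ _)]
  ring

theorem j3951_q1 (a b : ℝ) : j3951_q a b = a ^ 2 + a * b + 1 * b ^ 2 + 0 * b ^ 3 := by
  unfold j3951_q; ring

theorem j3951_q2 (a b : ℝ) : j3951_q b (1 - a - b) =
    (1 - a) ^ 2 + (-(1 - a)) * b + 1 * b ^ 2 + 0 * b ^ 3 := by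
  unfold j3951_q; ring

theorem j3951_q3 (a b : ℝ) : j3951_q a (1 - a - b) =
    (a ^ 2 + a * (1 - a) + (1 - a) ^ 2) + (-a - 2 * (1 - a)) * b + 1 * b ^ 2 + 0 * b ^ 3 := by
  unfold j3951_q; ring

theorem j3951_mcont : Continuous j3951_m := by
  unfold j3951_m j3951_q
  fun_prop

theorem j3951_mcont2 (a : ℝ) : Continuous fun b : ℝ => j3951_m (a, b) :=
  j3951_mcont.comp (by fun_prop)

theorem j3951_le1 (a l r : ℝ) (h : l ≤ r) :
    ∫ b in l..r, j3951_m (a, b) ≤ a ^ 2 * (r - l) + a * (r ^ 2 - l ^ 2) / 2 +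
      1 * (r ^ 3 - l ^ 3) / 3 + 0 * (r ^ 4 - l ^ 4) / 4 := by
  rw [← j3951_cubic]
  refine intervalIntegral.integral_mono_on h ((j3951_mcont2 a).intervalIntegrable _ _)
    ((by fun_prop : Continuous fun b : ℝ => a ^ 2 + a * b + 1 * b ^ 2 + 0 * b ^ 3).intervalIntegrable
      _ _) ?_
  intro b _
  rw [← j3951_q1]
  exact (min_le_left _ _).trans (min_le_left _ _)

theorem j3951_le2 (a l r : ℝ) (h : l ≤ r) :
    ∫ b in l..r, j3951_m (a, b) ≤ (1 - a) ^ 2 * (r - l) + (-(1 - a)) * (r ^ 2 - l ^ 2) / 2 +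
      1 * (r ^ 3 - l ^ 3) / 3 + 0 * (r ^ 4 - l ^ 4) / 4 := by
  rw [← j3951_cubic]
  refine intervalIntegral.integral_mono_on h ((j3951_mcont2 a).intervalIntegrable _ _)
    ((by fun_prop : Continuous fun b : ℝ =>
      (1 - a) ^ 2 + (-(1 - a)) * b + 1 * b ^ 2 + 0 * b ^ 3).intervalIntegrable _ _) ?_
  intro b _
  rw [← j3951_q2]
  exact (min_le_left _ _).trans (min_le_right _ _)

theorem j3951_le3 (a l r : ℝ) (h : l ≤ r) :
    ∫ b in l..r, j3951_m (a, b) ≤ (a ^ 2 + a * (1 - a) + (1 - a) ^ 2) * (r - l) +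
      (-a - 2 * (1 - a)) * (r ^ 2 - l ^ 2) / 2 +
      1 * (r ^ 3 - l ^ 3) / 3 + 0 * (r ^ 4 - l ^ 4) / 4 := by
  rw [← j3951_cubic]
  refine intervalIntegral.integral_mono_on h ((j3951_mcont2 a).intervalIntegrable _ _)
    ((by fun_prop : Continuous fun b : ℝ =>
      (a ^ 2 + a * (1 - a) + (1 - a) ^ 2) + (-a - 2 * (1 - a)) * b + 1 * b ^ 2 +
        0 * b ^ 3).intervalIntegrable _ _) ?_
  intro b _
  rw [← j3951_q3]
  exact min_le_right _ _

theorem j3951_int : ∫ p in j3951_T, j3951_m p ≤ 5 / 72 := by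
  rw [j3951_fubini _ j3951_mcont]
  set I : ℝ → ℝ := fun a => ∫ b in (0:ℝ)..(1 - a), j3951_m (a, b) with hI
  have hIc : Continuous I := by
    rw [hI]
    refine intervalIntegral.continuous_parametric_intervalIntegral_of_continuous
      (f := fun a b => j3951_m (a, b)) ?_ (by fun_prop)
    exact j3951_mcont
  have hii : ∀ l r, IntervalIntegrable I MeasureTheory.volume l r :=
    fun l r => hIc.intervalIntegrable _ _
  have hmi : ∀ a l r, IntervalIntegrable (fun b => j3951_m (a, b)) MeasureTheory.volume l r :=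
    fun a l r => (j3951_mcont2 a).intervalIntegrable _ _
  have hci : ∀ α β γ δ l r : ℝ, IntervalIntegrable (fun x => α + β * x + γ * x ^ 2 + δ * x ^ 3)
      MeasureTheory.volume l r := fun α β γ δ l r =>
    (by fun_prop : Continuous fun x : ℝ => α + β * x + γ * x ^ 2 + δ * x ^ 3).intervalIntegrable _ _
  rw [← intervalIntegral.integral_add_adjacent_intervals (hii 0 (1/3)) (hii (1/3) 1),
    ← intervalIntegral.integral_add_adjacent_intervals (hii (1/3) (1/2)) (hii (1/2) 1)]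
  have b1 : ∫ a in (0:ℝ)..(1/3), I a ≤
      ∫ a in (0:ℝ)..(1/3), ((1/12) + 0 * a + (3/4) * a ^ 2 + (-5/6) * a ^ 3) := by
    refine intervalIntegral.integral_mono_on (by norm_num) (hii _ _) (hci _ _ _ _ _ _) ?_
    intro a ha
    have e : I a = (∫ b in (0:ℝ)..((1 - a) / 2), j3951_m (a, b)) +
        ∫ b in ((1 - a) / 2)..(1 - a), j3951_m (a, b) :=
      (intervalIntegral.integral_add_adjacent_intervals (hmi _ _ _) (hmi _ _ _)).symm
    have c1 := j3951_le1 a 0 ((1 - a) / 2) (by linarith [ha.2])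
    have c2 := j3951_le3 a ((1 - a) / 2) (1 - a) (by linarith [ha.2])
    rw [e]
    nlinarith [c1, c2]
  have b2 : ∫ a in (1/3:ℝ)..(1/2), I a ≤
      ∫ a in (1/3:ℝ)..(1/2), ((-1/6) + (3/2) * a + (-3/2) * a ^ 2 + (-5/6) * a ^ 3) := by
    refine intervalIntegral.integral_mono_on (by norm_num) (hii _ _) (hci _ _ _ _ _ _) ?_
    intro a ha
    have e : I a = ((∫ b in (0:ℝ)..(1 - 2 * a), j3951_m (a, b)) +
        ∫ b in (1 - 2 * a)..a, j3951_m (a, b)) + ∫ b in a..(1 - a), j3951_m (a, b) := by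
      rw [intervalIntegral.integral_add_adjacent_intervals (hmi _ _ _) (hmi _ _ _),
        intervalIntegral.integral_add_adjacent_intervals (hmi _ _ _) (hmi _ _ _)]
    have c1 := j3951_le1 a 0 (1 - 2 * a) (by linarith [ha.2])
    have c2 := j3951_le2 a (1 - 2 * a) a (by linarith [ha.1])
    have c3 := j3951_le3 a a (1 - a) (by linarith [ha.2])
    rw [e]
    nlinarith [c1, c2, c3]
  have b3 : ∫ a in (1/2:ℝ)..1, I a ≤
      ∫ a in (1/2:ℝ)..1, ((5/6) + (-5/2) * a + (5/2) * a ^ 2 + (-5/6) * a ^ 3) := by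
    refine intervalIntegral.integral_mono_on (by norm_num) (hii _ _) (hci _ _ _ _ _ _) ?_
    intro a ha
    have c1 := j3951_le2 a 0 (1 - a) (by linarith [ha.2])
    show (∫ b in (0:ℝ)..(1 - a), j3951_m (a, b)) ≤ _
    nlinarith [c1]
  rw [j3951_cubic] at b1 b2 b3
  norm_num at b1 b2 b3 ⊢
  linarith

theorem j3951_one : ∫ _ in j3951_T, (1 : ℝ) = 1 / 2 := by
  rw [j3951_fubini _ continuous_const]
  have e : ∀ a : ℝ, ∫ _ in (0:ℝ)..(1 - a), (1 : ℝ) = 1 + (-1) * a + 0 * a ^ 2 + 0 * a ^ 3 := by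
    intro a
    rw [intervalIntegral.integral_const]
    simp
    ring
  simp_rw [e]
  rw [j3951_cubic]
  norm_num

noncomputable def j3951_L' (ε h : ℝ) : (ℝ × ℝ) →L[ℝ] (ℝ × ℝ) :=
  ((ε * h) • (ContinuousLinearMap.fst ℝ ℝ ℝ + (1 / 2 : ℝ) • ContinuousLinearMap.snd ℝ ℝ ℝ)).prod
    ((ε * (√3 / 2) * h) • ContinuousLinearMap.snd ℝ ℝ ℝ)

theorem j3951_L'_apply (ε h : ℝ) (p : ℝ × ℝ) : j3951_L' ε h p =
    (ε * h * (p.1 + 1 / 2 * p.2), ε * (√3 / 2) * h * p.2) := by
  simp [j3951_L']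
  ring

theorem j3951_gen (h ε : ℝ) (hh : 0 < h) (hε : ε ^ 2 = 1) (v v1 v2 : ℝ × ℝ)
    (hv1 : v1 = (v.1 + ε * h, v.2))
    (hv2 : v2 = (v.1 + ε * (h / 2), v.2 + ε * (√3 / 2 * h))) :
    ∫ z in convexHull ℝ {v, v1, v2}, min (min (d2 z v) (d2 z v1)) (d2 z v2) ≤
    5 / 36 * h ^ 2 * (MeasureTheory.volume (convexHull ℝ {v, v1, v2})).toReal := by
  set L : ℝ × ℝ → ℝ × ℝ := fun p => v + j3951_L' ε h p with hL
  have hε0 : ε ≠ 0 := by
    intro h0
    rw [h0] at hε
    norm_num at hε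
  have h3 : (√3 : ℝ) ^ 2 = 3 := Real.sq_sqrt (by norm_num)
  have h30 : (√3 : ℝ) ≠ 0 := by positivity
  have hLap : ∀ p, L p = (v.1 + ε * h * (p.1 + 1 / 2 * p.2), v.2 + ε * (√3 / 2) * h * p.2) := by
    intro p
    show v + j3951_L' ε h p = _
    rw [j3951_L'_apply]
    rfl
  have himg : L '' j3951_T = convexHull ℝ {v, v1, v2} := by
    apply Set.Subset.antisymm
    · rintro _ ⟨⟨a, b⟩, ⟨h1, h2, h4⟩, rfl⟩
      simp only at h1 h2 h4
      have hc := convex_convexHull ℝ ({v, v1, v2} : Set (ℝ × ℝ))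
      have m0 : v ∈ convexHull ℝ ({v, v1, v2} : Set (ℝ × ℝ)) := subset_convexHull ℝ _ (by simp)
      have m1 : v1 ∈ convexHull ℝ ({v, v1, v2} : Set (ℝ × ℝ)) := subset_convexHull ℝ _ (by simp)
      have m2 : v2 ∈ convexHull ℝ ({v, v1, v2} : Set (ℝ × ℝ)) := subset_convexHull ℝ _ (by simp)
      have hs := hc.sum_mem (t := (Finset.univ : Finset (Fin 3)))
        (w := ![1 - a - b, a, b]) (z := ![v, v1, v2])
        (by
          intro i _
          fin_cases i
          · show 0 ≤ 1 - a - b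
            linarith
          · exact h1
          · exact h2)
        (by
          simp [Fin.sum_univ_three]
          ring)
        (by
          intro i _
          fin_cases i
          · exact m0
          · exact m1
          · exact m2)
      have e : ∑ i : Fin 3, (![1 - a - b, a, b] : Fin 3 → ℝ) i • (![v, v1, v2] : Fin 3 → ℝ × ℝ) i =
          L (a, b) := by
        rw [Fin.sum_univ_three, hLap, hv1, hv2]
        refine Prod.ext ?_ ?_
        · show (1 - a - b) * v.1 + a * (v.1 + ε * h) + b * (v.1 + ε * (h / 2)) =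
            v.1 + ε * h * (a + 1 / 2 * b)
          ring
        · show (1 - a - b) * v.2 + a * v.2 + b * (v.2 + ε * (√3 / 2 * h)) =
            v.2 + ε * (√3 / 2) * h * b
          ring
      rw [e] at hs
      exact hs
    · refine convexHull_min ?_ ?_
      · intro x hx
        rcases hx with rfl | rfl | rfl
        · refine ⟨(0, 0), ⟨le_refl _, le_refl _, by norm_num⟩, ?_⟩
          rw [hLap]
          refine Prod.ext ?_ ?_ <;> simp
        · refine ⟨(1, 0), ⟨zero_le_one, le_refl _, by norm_num⟩, ?_⟩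
          rw [hLap, hv1]
          refine Prod.ext ?_ ?_ <;> simp
        · refine ⟨(0, 1), ⟨le_refl _, zero_le_one, by norm_num⟩, ?_⟩
          rw [hLap, hv2]
          refine Prod.ext ?_ ?_
          · show v.1 + ε * h * (0 + 1 / 2 * 1) = v.1 + ε * (h / 2)
            ring
          · show v.2 + ε * (√3 / 2) * h * 1 = v.2 + ε * (√3 / 2 * h)
            ring
      · rintro _ ⟨p, ⟨p1, p2, p3⟩, rfl⟩ _ ⟨q, ⟨q1, q2, q3⟩, rfl⟩ a b ha hb hab
        refine ⟨a • p + b • q, ⟨?_, ?_, ?_⟩, ?_⟩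
        · show 0 ≤ a * p.1 + b * q.1
          positivity
        · show 0 ≤ a * p.2 + b * q.2
          positivity
        · show (a * p.1 + b * q.1) + (a * p.2 + b * q.2) ≤ 1
          nlinarith [mul_le_mul_of_nonneg_left p3 ha, mul_le_mul_of_nonneg_left q3 hb]
        · rw [hLap, hLap, hLap]
          have hb' : b = 1 - a := by linarith
          subst hb'
          refine Prod.ext ?_ ?_
          · show v.1 + ε * h * ((a * p.1 + (1 - a) * q.1) + 1 / 2 * (a * p.2 + (1 - a) * q.2)) =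
              a * (v.1 + ε * h * (p.1 + 1 / 2 * p.2)) +
                (1 - a) * (v.1 + ε * h * (q.1 + 1 / 2 * q.2))
            ring
          · show v.2 + ε * (√3 / 2) * h * (a * p.2 + (1 - a) * q.2) =
              a * (v.2 + ε * (√3 / 2) * h * p.2) + (1 - a) * (v.2 + ε * (√3 / 2) * h * q.2)
            ring
  have hder : ∀ x ∈ j3951_T, HasFDerivWithinAt L (j3951_L' ε h) j3951_T x := by
    intro x _
    exact ((j3951_L' ε h).hasFDerivAt.const_add v).hasFDerivWithinAt
  have hinj : Set.InjOn L j3951_T := by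
    intro p _ q _ hpq
    rw [hLap, hLap] at hpq
    have e1 : v.1 + ε * h * (p.1 + 1 / 2 * p.2) = v.1 + ε * h * (q.1 + 1 / 2 * q.2) :=
      congrArg Prod.fst hpq
    have e2 : v.2 + ε * (√3 / 2) * h * p.2 = v.2 + ε * (√3 / 2) * h * q.2 :=
      congrArg Prod.snd hpq
    have hc2 : ε * (√3 / 2) * h ≠ 0 := by positivity
    have hc1 : ε * h ≠ 0 := by positivity
    have f2 : p.2 = q.2 := mul_left_cancel₀ hc2 (add_left_cancel e2)
    have f1 : p.1 + 1 / 2 * p.2 = q.1 + 1 / 2 * q.2 := mul_left_cancel₀ hc1 (add_left_cancel e1)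
    rw [f2] at f1
    exact Prod.ext (add_right_cancel f1) f2
  have hTm : MeasurableSet j3951_T := j3951_closed.measurableSet
  rw [← himg]
  have hvol : (MeasureTheory.volume (L '' j3951_T)).toReal = |(j3951_L' ε h).det| * (1 / 2) := by
    have e := MeasureTheory.integral_image_eq_integral_abs_det_fderiv_smul
      MeasureTheory.volume hTm hder hinj (fun _ => (1 : ℝ))
    have e2 : ∫ _ in L '' j3951_T, (1 : ℝ) = (MeasureTheory.volume (L '' j3951_T)).toReal := by
      simp [MeasureTheory.Measure.real]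
    rw [← e2, e]
    have e3 : ∀ x : ℝ × ℝ, |(j3951_L' ε h).det| • (1 : ℝ) = |(j3951_L' ε h).det| * 1 := fun _ => rfl
    rw [show (fun x : ℝ × ℝ => |(j3951_L' ε h).det| • (1 : ℝ)) =
      fun x : ℝ × ℝ => |(j3951_L' ε h).det| * (1 : ℝ) from rfl,
      MeasureTheory.integral_const_mul, j3951_one]
  rw [hvol, MeasureTheory.integral_image_eq_integral_abs_det_fderiv_smul
      MeasureTheory.volume hTm hder hinj]
  have hpt : ∀ p : ℝ × ℝ, |(j3951_L' ε h).det| •
      min (min (d2 (L p) v) (d2 (L p) v1)) (d2 (L p) v2) =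
      (|(j3951_L' ε h).det| * h ^ 2) * j3951_m p := by
    intro p
    have hh2 : 0 ≤ h ^ 2 := sq_nonneg h
    have a0 : d2 (L p) v = h ^ 2 * j3951_q p.1 p.2 := by
      rw [hLap]
      unfold d2 j3951_q
      simp only
      have : (v.1 + ε * h * (p.1 + 1 / 2 * p.2) - v.1) ^ 2 +
          (v.2 + ε * (√3 / 2) * h * p.2 - v.2) ^ 2 =
          ε ^ 2 * h ^ 2 * ((p.1 + 1 / 2 * p.2) ^ 2 + (√3) ^ 2 / 4 * p.2 ^ 2) := by ring
      rw [this, hε, h3]
      ring
    have a1 : d2 (L p) v1 = h ^ 2 * j3951_q p.2 (1 - p.1 - p.2) := by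
      rw [hLap, hv1]
      unfold d2 j3951_q
      simp only
      have : (v.1 + ε * h * (p.1 + 1 / 2 * p.2) - (v.1 + ε * h)) ^ 2 +
          (v.2 + ε * (√3 / 2) * h * p.2 - v.2) ^ 2 =
          ε ^ 2 * h ^ 2 * ((p.1 + 1 / 2 * p.2 - 1) ^ 2 + (√3) ^ 2 / 4 * p.2 ^ 2) := by ring
      rw [this, hε, h3]
      ring
    have a2 : d2 (L p) v2 = h ^ 2 * j3951_q p.1 (1 - p.1 - p.2) := by
      rw [hLap, hv2]
      unfold d2 j3951_q
      simp only
      have : (v.1 + ε * h * (p.1 + 1 / 2 * p.2) - (v.1 + ε * (h / 2))) ^ 2 +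
          (v.2 + ε * (√3 / 2) * h * p.2 - (v.2 + ε * (√3 / 2 * h))) ^ 2 =
          ε ^ 2 * h ^ 2 * ((p.1 + 1 / 2 * p.2 - 1 / 2) ^ 2 + (√3) ^ 2 / 4 * (p.2 - 1) ^ 2) := by
        ring
      rw [this, hε, h3]
      ring
    rw [a0, a1, a2, ← mul_min_of_nonneg _ _ hh2, ← mul_min_of_nonneg _ _ hh2, smul_eq_mul,
      mul_assoc]
    rfl
  simp_rw [hpt]
  rw [MeasureTheory.integral_const_mul]
  have hI := j3951_int
  have hnn : 0 ≤ |(j3951_L' ε h).det| * h ^ 2 := by positivity
  calc |(j3951_L' ε h).det| * h ^ 2 * ∫ p in j3951_T, j3951_m p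
      ≤ |(j3951_L' ε h).det| * h ^ 2 * (5 / 72) := mul_le_mul_of_nonneg_left hI hnn
    _ = 5 / 36 * h ^ 2 * (|(j3951_L' ε h).det| * (1 / 2)) := by ring

theorem tri_moment (h : ℝ) (hh : 0 < h) (τ : ℝ × ℝ) (t : (ℤ × ℤ) × Fin 2) :
    ∫ z in convexHull ℝ (range (tv h τ t)),
      min (min (d2 z (tv h τ t 0)) (d2 z (tv h τ t 1))) (d2 z (tv h τ t 2)) ≤
    5 / 36 * h ^ 2 * (MeasureTheory.volume (convexHull ℝ (range (tv h τ t)))).toReal := by
  have hr : range (tv h τ t) = {tv h τ t 0, tv h τ t 1, tv h τ t 2} := by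
    ext x
    simp only [Set.mem_range, Set.mem_insert_iff, Set.mem_singleton_iff]
    constructor
    · rintro ⟨i, rfl⟩
      fin_cases i <;> simp
    · rintro (rfl | rfl | rfl)
      · exact ⟨0, rfl⟩
      · exact ⟨1, rfl⟩
      · exact ⟨2, rfl⟩
  rw [hr]
  obtain ⟨⟨m, n⟩, s⟩ := t
  by_cases hs : s = 0
  · refine j3951_gen h 1 hh (by norm_num) _ _ _ ?_ ?_
    · subst hs
      simp only [tv, lat, if_true]
      refine Prod.ext ?_ ?_
      · simp
        ring
      · simp
    · subst hs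
      simp only [tv, lat, if_true]
      refine Prod.ext ?_ ?_
      · simp
        ring
      · simp
        ring
  · refine j3951_gen h (-1) hh (by norm_num) _ _ _ ?_ ?_
    · simp only [tv, lat, if_neg hs]
      refine Prod.ext ?_ ?_
      · simp
        ring
      · simp
    · simp only [tv, lat, if_neg hs]
      refine Prod.ext ?_ ?_
      · simp
        ring
      · simp
        ring

end Pool.Agent.Helper320.Gold.NB0
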