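import Mathlib
import Pool.Agent.Helper320.GBase

set_option autoImplicit false
open Set

namespace Pool.Agent.Helper320.Gold.NK1

open Pool.Agent.Helper320.Gold

theorem exists_net (s : ℝ) (hs : 0 < s) : ∃ W : Finset E3, (∀ w ∈ W, ‖w‖ = 1) ∧
    (∀ w ∈ W, ∀ w' ∈ W, w ≠ w' → s ≤ ‖w - w'‖) ∧
    ∀ a : E3, ‖a‖ = 1 → ∃ w ∈ W, ‖a - w‖ < s := by
  classical
  by_contra hcon
  have hext : ∀ W : Finset E3, (∀ w ∈ W, ‖w‖ = 1) →
      (∀ w ∈ W, ∀ w' ∈ W, w ≠ w' → s ≤ ‖w - w'‖) →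
      ∃ a : E3, ‖a‖ = 1 ∧ ∀ w ∈ W, s ≤ ‖a - w‖ := by
    intro W h1 h2
    by_contra h3
    apply hcon
    refine ⟨W, h1, h2, fun a ha => ?_⟩
    by_contra h4
    push Not at h4
    exact h3 ⟨a, ha, h4⟩
  have hall : ∀ n : ℕ, ∃ W : Finset E3, (∀ w ∈ W, ‖w‖ = 1) ∧
      (∀ w ∈ W, ∀ w' ∈ W, w ≠ w' → s ≤ ‖w - w'‖) ∧ W.card = n := by
    intro n
    induction n with
    | zero => exact ⟨∅, by simp, by simp, rfl⟩
    | succ n ih =>
      obtain ⟨W, h1, h2, h3⟩ := ih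
      obtain ⟨a, ha, haW⟩ := hext W h1 h2
      have hanot : a ∉ W := by
        intro h
        have := haW a h
        rw [sub_self, norm_zero] at this
        linarith
      refine ⟨insert a W, ?_, ?_, ?_⟩
      · intro w hw
        rcases Finset.mem_insert.1 hw with rfl | hw
        · exact ha
        · exact h1 w hw
      · intro w hw w' hw' hne
        rcases Finset.mem_insert.1 hw with hw1 | hw1
        · rcases Finset.mem_insert.1 hw' with hw2 | hw2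
          · exact absurd (hw1.trans hw2.symm) hne
          · rw [hw1]; exact haW w' hw2
        · rcases Finset.mem_insert.1 hw' with hw2 | hw2
          · rw [norm_sub_rev, hw2]; exact haW w hw1
          · exact h2 w hw1 w' hw2 hne
      · rw [Finset.card_insert_of_notMem hanot, h3]
  obtain ⟨t, _, htf, hcov⟩ := (isCompact_sphere (0 : E3) 1).finite_cover_balls (half_pos hs)
  obtain ⟨W, h1, h2, h3⟩ := hall (htf.toFinset.card + 1)
  have hc : ∀ w ∈ W, ∃ c ∈ htf.toFinset, ‖w - c‖ < s / 2 := by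
    intro w hw
    have hwS : w ∈ Metric.sphere (0 : E3) 1 := by
      rw [mem_sphere_zero_iff_norm]; exact h1 w hw
    have := hcov hwS
    rw [mem_iUnion₂] at this
    obtain ⟨c, hc, hwc⟩ := this
    exact ⟨c, htf.mem_toFinset.2 hc, by rwa [mem_ball_iff_norm] at hwc⟩
  choose! φ hφ1 hφ2 using hc
  have hcard : W.card ≤ htf.toFinset.card := by
    refine Finset.card_le_card_of_injOn φ hφ1 ?_
    intro w hw w' hw' he
    by_contra hne
    have h4 := h2 w hw w' hw' hne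
    have h5 := hφ2 w hw
    have h6 := hφ2 w' hw'
    rw [he] at h5
    have h7 : ‖w - w'‖ ≤ ‖w - φ w'‖ + ‖φ w' - w'‖ := norm_sub_le_norm_sub_add_norm_sub _ _ _
    rw [norm_sub_rev (φ w') w'] at h7
    linarith
  omega

theorem sphere_inf : Infinite (Metric.sphere (0 : E3) 1) := by
  refine Infinite.of_injective (fun n : ℕ => (⟨!₂[(1 / (n + 1) : ℝ), √(1 - (1 / (n + 1) : ℝ) ^ 2), 0], ?_⟩ :
    Metric.sphere (0 : E3) 1)) ?_
  · rw [mem_sphere_zero_iff_norm, EuclideanSpace.norm_eq]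
    have h1 : (0 : ℝ) ≤ 1 - (1 / (n + 1) : ℝ) ^ 2 := by
      have h2 : (1 / (n + 1) : ℝ) ≤ 1 := by
        rw [div_le_one (by positivity)]
        have : (0 : ℝ) ≤ n := Nat.cast_nonneg n
        linarith
      have h3 : (0 : ℝ) ≤ (1 / (n + 1) : ℝ) := by positivity
      nlinarith
    simp only [Fin.sum_univ_three, Real.norm_eq_abs, sq_abs]
    simp only [Matrix.cons_val_zero, Matrix.cons_val_one, Matrix.cons_val]
    rw [Real.sq_sqrt h1]
    simp
  · intro n m hnm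
    have h1 := congrArg (fun x : Metric.sphere (0 : E3) 1 => x.1 0) hnm
    simp at h1
    exact_mod_cast h1

theorem exists_pad (X : Finset E3) (hX : ∀ x ∈ X, ‖x‖ = 1) (n : ℕ) (hn : X.card ≤ n) :
    ∃ Y : Finset E3, X ⊆ Y ∧ Y.card = n ∧ ∀ x ∈ Y, ‖x‖ = 1 := by
  rcases Nat.eq_zero_or_pos n with hn0 | hn0
  · subst hn0
    exact ⟨X, fun _ h => h, Nat.le_zero.1 hn, hX⟩
  · have hinf : (Metric.sphere (0 : E3) 1).Infinite := Set.infinite_coe_iff.1 sphere_inf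
    obtain ⟨s', hs1, hs2, hs3⟩ := hinf.exists_superset_ncard_eq (s := (X : Set E3))
      (fun x hx => mem_sphere_zero_iff_norm.2 (hX x hx)) X.finite_toSet (k := n)
      (by rw [Set.ncard_coe_finset]; exact hn)
    have hfin : s'.Finite := Set.finite_of_ncard_pos (by rw [hs3]; exact hn0)
    refine ⟨hfin.toFinset, ?_, ?_, ?_⟩
    · intro x hx
      exact hfin.mem_toFinset.2 (hs1 hx)
    · rw [← Set.ncard_eq_toFinset_card _ hfin, hs3]
    · intro x hx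
      exact mem_sphere_zero_iff_norm.1 (hs2 (hfin.mem_toFinset.1 hx))

theorem ball_subset_hull (Y : Finset E3) (r : ℝ) (hr : 0 ≤ r) (hr1 : r ≤ 1)
    (hcov : ∀ a : E3, ‖a‖ = 1 → ∃ x ∈ Y, ‖x‖ = 1 ∧ ‖x - a‖ ≤ r) :
    Metric.closedBall (0 : E3) (1 - r ^ 2 / 2) ⊆ convexHull ℝ (Y : Set E3) := by
  intro x hx
  rw [mem_closedBall_zero_iff] at hx
  by_contra hxn
  obtain ⟨f, u, hf1, hf2⟩ := geometric_hahn_banach_closed_point
    (convex_convexHull ℝ (Y : Set E3)) (Y.finite_toSet.isCompact_convexHull ℝ).isClosed hxn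
  obtain ⟨a, ha⟩ : ∃ a : E3, ∀ y, f y = inner ℝ a y :=
    ⟨(InnerProductSpace.toDual ℝ E3).symm f, fun y => by
      rw [InnerProductSpace.toDual_symm_apply]⟩
  have hY : ∀ y ∈ Y, inner ℝ a y < inner ℝ a x := by
    intro y hy
    rw [← ha, ← ha]
    exact (hf1 y (subset_convexHull ℝ _ hy)).trans hf2
  have ha0 : a ≠ 0 := by
    rintro rfl
    obtain ⟨y, hy, _, _⟩ := hcov (EuclideanSpace.single 0 1) (by simp)
    have := hY y hy
    simp at this
  have hna : 0 < ‖a‖ := norm_pos_iff.2 ha0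
  obtain ⟨b, hb⟩ : ∃ b, b = (‖a‖⁻¹ : ℝ) • a := ⟨_, rfl⟩
  have hb1 : ‖b‖ = 1 := by
    rw [hb, norm_smul, norm_inv, norm_norm, inv_mul_cancel₀ hna.ne']
  obtain ⟨y, hy, hy1, hyr⟩ := hcov b hb1
  have h1 : inner ℝ b y < inner ℝ b x := by
    rw [hb, real_inner_smul_left, real_inner_smul_left]
    exact mul_lt_mul_of_pos_left (hY y hy) (inv_pos.2 hna)
  have h2 : inner ℝ b x ≤ ‖x‖ := by
    have := real_inner_le_norm b x
    rwa [hb1, one_mul] at this
  have h3 : ‖y - b‖ ^ 2 = 2 - 2 * inner ℝ b y := by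
    rw [norm_sub_sq_real, hy1, hb1, real_inner_comm]
    ring
  have h4 : ‖y - b‖ ^ 2 ≤ r ^ 2 := by
    apply pow_le_pow_left₀ (norm_nonneg _) hyr
  linarith

open MeasureTheory in
theorem exists_shift (h : ℝ) (hh : 0 < h) (A : Set (ℝ × ℝ)) (hA : MeasurableSet A)
    (hb : Bornology.IsBounded A) : ∃ τ : ℝ × ℝ, {z : ℤ × ℤ | lat h τ z ∈ A}.Finite ∧
      ({z : ℤ × ℤ | lat h τ z ∈ A}.ncard : ℝ) * (√3 / 2 * h ^ 2) ≤
        (MeasureTheory.volume A).toReal := by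
  classical
  have h3 : (0 : ℝ) < √3 := Real.sqrt_pos.2 (by norm_num)
  obtain ⟨g, hg⟩ : ∃ g : ℝ × ℝ →ₗ[ℝ] ℝ × ℝ, g = Matrix.toLin (Module.Basis.finTwoProd ℝ)
    (Module.Basis.finTwoProd ℝ) !![h, h / 2; 0, h * (√3 / 2)] := ⟨_, rfl⟩
  have hgapp : ∀ p : ℝ × ℝ, g p = (h * p.1 + h / 2 * p.2, 0 * p.1 + h * (√3 / 2) * p.2) := by
    intro p
    rw [hg, Matrix.toLin_finTwoProd_apply]
  have hdet : LinearMap.det g = √3 / 2 * h ^ 2 := by
    rw [hg, LinearMap.det_toLin, Matrix.det_fin_two_of]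
    ring
  have hdet0 : (0 : ℝ) < √3 / 2 * h ^ 2 := by positivity
  have hlat : ∀ (t : ℝ × ℝ) (z : ℤ × ℤ), lat h (g t) z = g (((z.1 : ℝ), (z.2 : ℝ)) + t) := by
    intro t z
    rw [hgapp, hgapp]
    unfold lat
    ext
    · simp only [Prod.fst_add, Prod.snd_add]; ring
    · simp only [Prod.fst_add, Prod.snd_add]; ring
  have hgc : Continuous g := LinearMap.continuous_of_finiteDimensional g
  obtain ⟨A', hA'⟩ : ∃ A', A' = g ⁻¹' A := ⟨_, rfl⟩
  have hA'm : MeasurableSet A' := by rw [hA']; exact hgc.measurable hA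
  have hvol : volume A' = ENNReal.ofReal |(√3 / 2 * h ^ 2)⁻¹| * volume A := by
    rw [hA', Measure.addHaar_preimage_linearMap volume (by rw [hdet]; exact hdet0.ne'), hdet]
  -- finiteness for all shifts
  have hfin : ∀ τ : ℝ × ℝ, {z : ℤ × ℤ | lat h τ z ∈ A}.Finite := by
    intro τ
    obtain ⟨C, hC⟩ := isBounded_iff_forall_norm_le.1 hb
    have hC' : ∀ z ∈ {z : ℤ × ℤ | lat h τ z ∈ A},
        |(z.2 : ℝ)| ≤ (C + ‖τ‖) / (h * (√3 / 2)) ∧
        |(z.1 : ℝ)| ≤ (C + ‖τ‖) / h + (C + ‖τ‖) / (h * (√3 / 2)) / 2 := by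
      intro z hz
      have h1 := hC _ hz
      have h2 : |h * ((z.1 : ℝ) + z.2 / 2) + τ.1| ≤ C := (norm_fst_le (lat h τ z)).trans h1
      have h4 : |h * (√3 / 2 * (z.2 : ℝ)) + τ.2| ≤ C := (norm_snd_le (lat h τ z)).trans h1
      have h5 : |τ.1| ≤ ‖τ‖ := norm_fst_le τ
      have h6 : |τ.2| ≤ ‖τ‖ := norm_snd_le τ
      have h7 : |(z.2 : ℝ)| ≤ (C + ‖τ‖) / (h * (√3 / 2)) := by
        rw [le_div_iff₀ (by positivity)]
        calc |(z.2 : ℝ)| * (h * (√3 / 2)) = |(h * (√3 / 2 * (z.2 : ℝ)) + τ.2) - τ.2| := by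
              have e9 : h * (√3 / 2 * (z.2 : ℝ)) = (z.2 : ℝ) * (h * (√3 / 2)) := by ring
              rw [add_sub_cancel_right, e9, abs_mul, abs_of_pos (by positivity :
                (0 : ℝ) < h * (√3 / 2))]
          _ ≤ |h * (√3 / 2 * (z.2 : ℝ)) + τ.2| + |τ.2| := abs_sub _ _
          _ ≤ C + ‖τ‖ := add_le_add h4 h6
      refine ⟨h7, ?_⟩
      have h8 : |(z.1 : ℝ) + z.2 / 2| ≤ (C + ‖τ‖) / h := by
        rw [le_div_iff₀ hh]
        calc |(z.1 : ℝ) + z.2 / 2| * h = |(h * ((z.1 : ℝ) + z.2 / 2) + τ.1) - τ.1| := by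
              rw [add_sub_cancel_right, abs_mul, abs_of_pos hh]
              ring
          _ ≤ |h * ((z.1 : ℝ) + z.2 / 2) + τ.1| + |τ.1| := abs_sub _ _
          _ ≤ C + ‖τ‖ := add_le_add h2 h5
      calc |(z.1 : ℝ)| = |((z.1 : ℝ) + z.2 / 2) - z.2 / 2| := by ring_nf
        _ ≤ |(z.1 : ℝ) + z.2 / 2| + |(z.2 : ℝ) / 2| := abs_sub _ _
        _ ≤ (C + ‖τ‖) / h + (C + ‖τ‖) / (h * (√3 / 2)) / 2 := by
          rw [abs_div, abs_of_pos (by norm_num : (0 : ℝ) < 2)]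
          gcongr
    obtain ⟨N1, hN1⟩ := exists_nat_ge ((C + ‖τ‖) / h + (C + ‖τ‖) / (h * (√3 / 2)) / 2)
    obtain ⟨N2, hN2⟩ := exists_nat_ge ((C + ‖τ‖) / (h * (√3 / 2)))
    refine ((Set.finite_Icc (-(N1 : ℤ)) N1).prod (Set.finite_Icc (-(N2 : ℤ)) N2)).subset ?_
    intro z hz
    obtain ⟨h1, h2⟩ := hC' z hz
    have h1' := abs_le.1 (h1.trans hN2)
    have h2' := abs_le.1 (h2.trans hN1)
    refine Set.mem_prod.2 ⟨Set.mem_Icc.2 ⟨?_, ?_⟩, Set.mem_Icc.2 ⟨?_, ?_⟩⟩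
    · exact_mod_cast h2'.1
    · exact_mod_cast h2'.2
    · exact_mod_cast h1'.1
    · exact_mod_cast h1'.2
  -- the averaging
  obtain ⟨D, hD⟩ : ∃ D : Set (ℝ × ℝ), D = Set.Ico (0 : ℝ) 1 ×ˢ Set.Ico (0 : ℝ) 1 := ⟨_, rfl⟩
  have hDm : MeasurableSet D := by rw [hD]; exact measurableSet_Ico.prod measurableSet_Ico
  have hD1 : volume D = 1 := by
    rw [hD, Measure.volume_eq_prod, Measure.prod_prod, Real.volume_Ico]
    simp
  have hprob : IsProbabilityMeasure (volume.restrict D) :=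
    ⟨by rw [Measure.restrict_apply_univ, hD1]⟩
  have hfm : ∀ z : ℤ × ℤ, Measurable
      (fun t : ℝ × ℝ => A'.indicator (1 : ℝ × ℝ → ENNReal) (((z.1 : ℝ), (z.2 : ℝ)) + t)) :=
    fun z => (measurable_one.indicator hA'm).comp (measurable_const_add _)
  have hint : ∫⁻ t, (∑' z : ℤ × ℤ, A'.indicator (1 : ℝ × ℝ → ENNReal)
      (((z.1 : ℝ), (z.2 : ℝ)) + t)) ∂(volume.restrict D) = volume A' := by
    rw [lintegral_tsum fun z => (hfm z).aemeasurable]
    have hz : ∀ z : ℤ × ℤ, ∫⁻ t, A'.indicator (1 : ℝ × ℝ → ENNReal)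
        (((z.1 : ℝ), (z.2 : ℝ)) + t) ∂(volume.restrict D) =
        volume (A' ∩ {p : ℝ × ℝ | ⌊p.1⌋ = z.1 ∧ ⌊p.2⌋ = z.2}) := by
      intro z
      rw [← lintegral_indicator hDm]
      have hfib : MeasurableSet {p : ℝ × ℝ | ⌊p.1⌋ = z.1 ∧ ⌊p.2⌋ = z.2} :=
        (measurableSet_eq_fun (Int.measurable_floor.comp measurable_fst) measurable_const).inter
          (measurableSet_eq_fun (Int.measurable_floor.comp measurable_snd) measurable_const)
      rw [← lintegral_indicator_one (hA'm.inter hfib)]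
      rw [← lintegral_add_left_eq_self (μ := (volume : Measure (ℝ × ℝ)))
        ((A' ∩ {p : ℝ × ℝ | ⌊p.1⌋ = z.1 ∧ ⌊p.2⌋ = z.2}).indicator 1) ((z.1 : ℝ), (z.2 : ℝ))]
      congr 1
      funext t
      have hiff : t ∈ D ↔ (((z.1 : ℝ), (z.2 : ℝ)) + t) ∈
          {p : ℝ × ℝ | ⌊p.1⌋ = z.1 ∧ ⌊p.2⌋ = z.2} := by
        rw [hD, Set.mem_prod, Set.mem_Ico, Set.mem_Ico]
        show _ ↔ ⌊(z.1 : ℝ) + t.1⌋ = z.1 ∧ ⌊(z.2 : ℝ) + t.2⌋ = z.2
        rw [Int.floor_eq_iff, Int.floor_eq_iff]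
        constructor
        · rintro ⟨⟨a1, a2⟩, a3, a4⟩
          refine ⟨⟨?_, ?_⟩, ?_, ?_⟩ <;> linarith
        · rintro ⟨⟨a1, a2⟩, a3, a4⟩
          refine ⟨⟨?_, ?_⟩, ?_, ?_⟩ <;> linarith
      by_cases htD : t ∈ D
      · rw [Set.indicator_of_mem htD]
        have h4 := hiff.1 htD
        by_cases htA : (((z.1 : ℝ), (z.2 : ℝ)) + t) ∈ A'
        · rw [Set.indicator_of_mem htA, Set.indicator_of_mem (Set.mem_inter htA h4)]
        · rw [Set.indicator_of_notMem htA, Set.indicator_of_notMem (fun hc => htA hc.1)]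
      · rw [Set.indicator_of_notMem htD, Set.indicator_of_notMem (fun hc => htD (hiff.2 hc.2))]
    rw [tsum_congr hz]
    rw [← measure_iUnion]
    · congr 1
      ext p
      rw [Set.mem_iUnion]
      constructor
      · rintro ⟨z, hz⟩
        exact hz.1
      · intro hp
        exact ⟨(⌊p.1⌋, ⌊p.2⌋), hp, rfl, rfl⟩
    · intro z z' hzz'
      rw [Function.onFun, Set.disjoint_left]
      rintro p ⟨_, h4, h5⟩ ⟨_, h6, h7⟩
      exact hzz' (Prod.ext (h4.symm.trans h6) (h5.symm.trans h7))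
    · intro z
      exact hA'm.inter ((measurableSet_eq_fun (Int.measurable_floor.comp measurable_fst)
        measurable_const).inter (measurableSet_eq_fun (Int.measurable_floor.comp measurable_snd)
        measurable_const))
  obtain ⟨t, ht⟩ := exists_le_lintegral (μ := volume.restrict D)
    (f := fun t => ∑' z : ℤ × ℤ, A'.indicator (1 : ℝ × ℝ → ENNReal)
      (((z.1 : ℝ), (z.2 : ℝ)) + t)) (Measurable.tsum hfm).aemeasurable
  rw [hint] at ht
  refine ⟨g t, hfin _, ?_⟩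
  have hcount : (({z : ℤ × ℤ | lat h (g t) z ∈ A}.ncard : ℕ) : ENNReal) ≤ volume A' := by
    refine le_trans ?_ ht
    rw [Set.ncard_eq_toFinset_card _ (hfin (g t))]
    have h4 : (((hfin (g t)).toFinset.card : ℕ) : ENNReal) = ∑ z ∈ (hfin (g t)).toFinset,
        A'.indicator (1 : ℝ × ℝ → ENNReal) (((z.1 : ℝ), (z.2 : ℝ)) + t) := by
      rw [Finset.sum_congr rfl (g := fun _ => (1 : ENNReal))]
      · simp
      · intro z hz
        rw [Set.Finite.mem_toFinset] at hz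
        have h5 : (((z.1 : ℝ), (z.2 : ℝ)) + t) ∈ A' := by
          rw [hA']
          show g _ ∈ A
          rw [← hlat]
          exact hz
        rw [Set.indicator_of_mem h5]
        rfl
    rw [h4]
    exact ENNReal.sum_le_tsum _
  have hAfin : volume A ≠ ⊤ := hb.measure_lt_top.ne
  have hA'fin : volume A' ≠ ⊤ := by
    rw [hvol]
    exact ENNReal.mul_ne_top ENNReal.ofReal_ne_top hAfin
  have h4 := ENNReal.toReal_mono hA'fin hcount
  rw [ENNReal.toReal_natCast] at h4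
  have h5 : (volume A').toReal = (√3 / 2 * h ^ 2)⁻¹ * (volume A).toReal := by
    rw [hvol, ENNReal.toReal_mul, abs_of_pos (inv_pos.2 hdet0),
      ENNReal.toReal_ofReal (inv_pos.2 hdet0).le]
  rw [h5] at h4
  calc ({z : ℤ × ℤ | lat h (g t) z ∈ A}.ncard : ℝ) * (√3 / 2 * h ^ 2)
      ≤ ((√3 / 2 * h ^ 2)⁻¹ * (volume A).toReal) * (√3 / 2 * h ^ 2) :=
        mul_le_mul_of_nonneg_right h4 hdet0.le
    _ = (volume A).toReal := by
        rw [mul_comm, ← mul_assoc, mul_inv_cancel₀ hdet0.ne', one_mul]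

end Pool.Agent.Helper320.Gold.NK1
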