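import Mathlib
import Pool.Agent.Helper320.GBase

set_option autoImplicit false
open Set

namespace Pool.Agent.Helper320.Gold.NK3

open Pool.Agent.Helper320.Gold

/-- lattice coordinates -/
noncomputable def uu (h : ℝ) (τ p : ℝ × ℝ) : ℝ := ((p.1 - τ.1) - (p.2 - τ.2) / √3) / h
/-- lattice coordinates -/
noncomputable def ww (h : ℝ) (τ p : ℝ × ℝ) : ℝ := (p.2 - τ.2) * (2 / √3) / h

theorem s3 : √3 * √3 = 3 := Real.mul_self_sqrt (by norm_num)

theorem s3pos : 0 < √3 := Real.sqrt_pos.2 (by norm_num)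

theorem uw1 (h : ℝ) (hh : 0 < h) (τ p : ℝ × ℝ) : h * (uu h τ p + ww h τ p / 2) = p.1 - τ.1 := by
  unfold uu ww
  have := s3pos.ne'
  field_simp
  ring

theorem uw2 (h : ℝ) (hh : 0 < h) (τ p : ℝ × ℝ) : h * (√3 / 2 * ww h τ p) = p.2 - τ.2 := by
  unfold ww
  have := s3pos.ne'
  field_simp

theorem uu_lat (h : ℝ) (hh : 0 < h) (τ : ℝ × ℝ) (z : ℤ × ℤ) : uu h τ (lat h τ z) = z.1 := by
  unfold uu lat
  have := s3pos.ne'
  have h2 := s3
  field_simp
  ring

theorem ww_lat (h : ℝ) (hh : 0 < h) (τ : ℝ × ℝ) (z : ℤ × ℤ) : ww h τ (lat h τ z) = z.2 := by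
  unfold ww lat
  have := s3pos.ne'
  have h2 := s3
  field_simp
  ring

theorem uu_comb (h : ℝ) (τ x y : ℝ × ℝ) (a b : ℝ) (hab : a + b = 1) :
    uu h τ (a • x + b • y) = a * uu h τ x + b * uu h τ y := by
  unfold uu
  have hb : b = 1 - a := by linarith
  subst hb
  simp only [Prod.fst_add, Prod.snd_add, Prod.smul_fst, Prod.smul_snd, smul_eq_mul]
  ring

theorem ww_comb (h : ℝ) (τ x y : ℝ × ℝ) (a b : ℝ) (hab : a + b = 1) :
    ww h τ (a • x + b • y) = a * ww h τ x + b * ww h τ y := by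
  unfold ww
  have hb : b = 1 - a := by linarith
  subst hb
  simp only [Prod.fst_add, Prod.snd_add, Prod.smul_fst, Prod.smul_snd, smul_eq_mul]
  ring

/-- cell of a triangle -/
def reg (h : ℝ) (τ : ℝ × ℝ) (t : (ℤ × ℤ) × Fin 2) : Set (ℝ × ℝ) :=
  {p | (t.1.1 : ℝ) ≤ uu h τ p ∧ uu h τ p ≤ t.1.1 + 1 ∧ (t.1.2 : ℝ) ≤ ww h τ p ∧
    ww h τ p ≤ t.1.2 + 1 ∧ (t.1.1 : ℝ) + t.1.2 + ((t.2 : ℕ) : ℝ) ≤ uu h τ p + ww h τ p ∧
    uu h τ p + ww h τ p ≤ (t.1.1 : ℝ) + t.1.2 + ((t.2 : ℕ) : ℝ) + 1}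

theorem reg_convex (h : ℝ) (τ : ℝ × ℝ) (t : (ℤ × ℤ) × Fin 2) : Convex ℝ (reg h τ t) := by
  intro x hx y hy a b ha hb hab
  obtain ⟨x1, x2, x3, x4, x5, x6⟩ := hx
  obtain ⟨y1, y2, y3, y4, y5, y6⟩ := hy
  have hu := uu_comb h τ x y a b hab
  have hw := ww_comb h τ x y a b hab
  have hb2 : b = 1 - a := by linarith
  have key : ∀ (f : ℝ × ℝ → ℝ) (c : ℝ), f (a • x + b • y) = a * f x + b * f y →
      c ≤ f x → c ≤ f y → c ≤ f (a • x + b • y) := by
    intro f c hf h1 h2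
    rw [hf]
    have h3 := mul_le_mul_of_nonneg_left h1 ha
    have h4 := mul_le_mul_of_nonneg_left h2 hb
    have h5 : a * c + b * c = c := by rw [← add_mul, hab, one_mul]
    linarith
  have key2 : ∀ (f : ℝ × ℝ → ℝ) (c : ℝ), f (a • x + b • y) = a * f x + b * f y →
      f x ≤ c → f y ≤ c → f (a • x + b • y) ≤ c := by
    intro f c hf h1 h2
    rw [hf]
    have h3 := mul_le_mul_of_nonneg_left h1 ha
    have h4 := mul_le_mul_of_nonneg_left h2 hb
    have h5 : a * c + b * c = c := by rw [← add_mul, hab, one_mul]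
    linarith
  have hs : uu h τ (a • x + b • y) + ww h τ (a • x + b • y)
      = a * (uu h τ x + ww h τ x) + b * (uu h τ y + ww h τ y) := by
    rw [hu, hw]; ring
  exact ⟨key _ _ hu x1 y1, key2 _ _ hu x2 y2, key _ _ hw x3 y3, key2 _ _ hw x4 y4,
    key (fun p => uu h τ p + ww h τ p) _ hs x5 y5, key2 (fun p => uu h τ p + ww h τ p) _ hs x6 y6⟩

theorem tv_mem_reg (h : ℝ) (hh : 0 < h) (τ : ℝ × ℝ) (t : (ℤ × ℤ) × Fin 2) (i : Fin 3) :
    tv h τ t i ∈ reg h τ t := by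
  obtain ⟨⟨z1, z2⟩, j⟩ := t
  unfold reg tv
  fin_cases j <;> fin_cases i <;>
    simp [uu_lat h hh, ww_lat h hh] <;> (try constructor) <;> (try linarith)

theorem hull_sub_reg (h : ℝ) (hh : 0 < h) (τ : ℝ × ℝ) (t : (ℤ × ℤ) × Fin 2) :
    convexHull ℝ (range (tv h τ t)) ⊆ reg h τ t := by
  refine convexHull_min ?_ (reg_convex h τ t)
  rintro _ ⟨i, rfl⟩
  exact tv_mem_reg h hh τ t i

theorem reg_sub_hull (h : ℝ) (hh : 0 < h) (τ : ℝ × ℝ) (t : (ℤ × ℤ) × Fin 2) :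
    reg h τ t ⊆ convexHull ℝ (range (tv h τ t)) := by
  intro p hp
  obtain ⟨⟨z1, z2⟩, j⟩ := t
  obtain ⟨p1, p2, p3, p4, p5, p6⟩ := hp
  have e1 := uw1 h hh τ p
  have e2 := uw2 h hh τ p
  simp only at p1 p2 p3 p4 p5 p6
  have hconv := convex_convexHull ℝ (range (tv h τ ((z1, z2), j)))
  have hmem : ∀ i, tv h τ ((z1, z2), j) i ∈ convexHull ℝ (range (tv h τ ((z1, z2), j))) :=
    fun i => subset_convexHull ℝ _ ⟨i, rfl⟩
  obtain ⟨u, hu⟩ : ∃ u, u = uu h τ p := ⟨_, rfl⟩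
  obtain ⟨w, hw⟩ : ∃ w, w = ww h τ p := ⟨_, rfl⟩
  rw [← hu] at p1 p2 p5 p6 e1
  rw [← hw] at p3 p4 p5 p6 e1 e2
  have hj : j = 0 ∨ j = 1 := by fin_cases j <;> simp
  rcases hj with hj | hj
  · subst hj
    simp only [Fin.isValue, Fin.val_zero, Nat.cast_zero, add_zero] at p5 p6
    have := hconv.sum_mem (t := Finset.univ) (w := ![1 - (u - z1) - (w - z2), u - z1, w - z2])
      (z := tv h τ ((z1, z2), 0)) (by
        intro i _
        fin_cases i <;> simp <;> linarith) (by simp [Fin.sum_univ_three]; ring) (fun i _ => hmem i)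
    convert this using 1
    rw [Fin.sum_univ_three]
    unfold tv lat
    ext
    · simp
      linear_combination (-1 : ℝ) * e1
    · simp
      linear_combination (-1 : ℝ) * e2
  · subst hj
    simp only [Fin.isValue, Fin.val_one, Nat.cast_one] at p5 p6
    have := hconv.sum_mem (t := Finset.univ)
      (w := ![u + w - z1 - z2 - 1, z1 + 1 - u, z2 + 1 - w])
      (z := tv h τ ((z1, z2), 1)) (by
        intro i _
        fin_cases i <;> simp <;> linarith) (by simp [Fin.sum_univ_three]; ring) (fun i _ => hmem i)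
    convert this using 1
    rw [Fin.sum_univ_three]
    unfold tv lat
    ext
    · simp
      linear_combination (-1 : ℝ) * e1
    · simp
      linear_combination (-1 : ℝ) * e2

theorem line_null (a b c : ℝ) (hab : a ^ 2 + b ^ 2 ≠ 0) :
    MeasureTheory.volume {p : ℝ × ℝ | a * p.1 + b * p.2 = c} = 0 := by
  obtain ⟨f, hf⟩ : ∃ f : (ℝ × ℝ) →ₗ[ℝ] ℝ, f = a • LinearMap.fst ℝ ℝ ℝ + b • LinearMap.snd ℝ ℝ ℝ :=
    ⟨_, rfl⟩
  have hfv : ∀ p, f p = a * p.1 + b * p.2 := by intro p; rw [hf]; simp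
  obtain ⟨p0, hp0⟩ : ∃ p0 : ℝ × ℝ, p0 = (a * c / (a ^ 2 + b ^ 2), b * c / (a ^ 2 + b ^ 2)) :=
    ⟨_, rfl⟩
  have hfp0 : f p0 = c := by
    rw [hfv, hp0]
    field_simp
  have hset : {p : ℝ × ℝ | a * p.1 + b * p.2 = c}
      ⊆ (AffineSubspace.mk' p0 (LinearMap.ker f) : Set (ℝ × ℝ)) := by
    intro p hp
    rw [SetLike.mem_coe, AffineSubspace.mem_mk', LinearMap.mem_ker, vsub_eq_sub, map_sub, hfp0, hfv]
    have : a * p.1 + b * p.2 = c := hp
    rw [this, sub_self]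
  refine MeasureTheory.measure_mono_null hset ?_
  refine MeasureTheory.Measure.addHaar_affineSubspace _ _ ?_
  intro htop
  have h1 : p0 + (a, b) ∈ AffineSubspace.mk' p0 (LinearMap.ker f) := by
    rw [htop]; exact AffineSubspace.mem_top ℝ _ _
  rw [AffineSubspace.mem_mk', LinearMap.mem_ker, vsub_eq_sub, add_sub_cancel_left, hfv] at h1
  apply hab
  simp only at h1
  nlinarith [h1]

theorem null_u (h : ℝ) (hh : 0 < h) (τ : ℝ × ℝ) (α β c : ℝ) (hab : α ≠ 0 ∨ β ≠ 0) :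
    MeasureTheory.volume {p : ℝ × ℝ | α * uu h τ p + β * ww h τ p = c} = 0 := by
  have h3 := s3pos
  have hn := line_null (α / h) (((2 * β - α) / √3) / h)
    (c + (α / h) * τ.1 + ((2 * β - α) / √3) / h * τ.2) (by
      intro h0
      have h1 : (α / h) ^ 2 = 0 := by nlinarith [sq_nonneg (α / h), sq_nonneg (((2 * β - α) / √3) / h)]
      have h2 : (((2 * β - α) / √3) / h) ^ 2 = 0 := by nlinarith [sq_nonneg (α / h), sq_nonneg (((2 * β - α) / √3) / h)]
      have h4 : α = 0 := by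
        have := pow_eq_zero_iff (n := 2) (by norm_num) |>.1 h1
        rcases div_eq_zero_iff.1 this with h5 | h5
        · exact h5
        · exact absurd h5 hh.ne'
      have h6 : 2 * β - α = 0 := by
        have := pow_eq_zero_iff (n := 2) (by norm_num) |>.1 h2
        rcases div_eq_zero_iff.1 this with h5 | h5
        · rcases div_eq_zero_iff.1 h5 with h7 | h7
          · exact h7
          · exact absurd h7 h3.ne'
        · exact absurd h5 hh.ne'
      rcases hab with h8 | h8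
      · exact h8 h4
      · apply h8; linarith)
  convert hn using 2
  ext p
  simp only [mem_ofPred_eq]
  unfold uu ww
  have e : α * ((p.1 - τ.1 - (p.2 - τ.2) / √3) / h) + β * ((p.2 - τ.2) * (2 / √3) / h)
      = α / h * p.1 + (2 * β - α) / √3 / h * p.2 -
        ((α / h) * τ.1 + ((2 * β - α) / √3) / h * τ.2) := by
    have := h3.ne'
    field_simp
    ring
  rw [e]
  constructor
  · intro h1; linarith
  · intro h1; linarith

theorem tv_disj (h : ℝ) (hh : 0 < h) (τ : ℝ × ℝ) (t t' : (ℤ × ℤ) × Fin 2) (ht : t ≠ t') :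
    MeasureTheory.volume (convexHull ℝ (range (tv h τ t)) ∩ convexHull ℝ (range (tv h τ t'))) =
      0 := by
  obtain ⟨⟨z1, z2⟩, i⟩ := t
  obtain ⟨⟨y1, y2⟩, j⟩ := t'
  have hex : ∃ α β c : ℝ, (α ≠ 0 ∨ β ≠ 0) ∧ ∀ p, p ∈ reg h τ ((z1, z2), i) →
      p ∈ reg h τ ((y1, y2), j) → α * uu h τ p + β * ww h τ p = c := by
    rcases lt_trichotomy z1 y1 with h1 | h1 | h1
    · refine ⟨1, 0, y1, Or.inl one_ne_zero, ?_⟩
      intro p hp hq
      have h2 : (z1 : ℝ) + 1 ≤ y1 := by exact_mod_cast h1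
      have h3 := hp.2.1
      have h4 := hq.1
      simp only at h3 h4
      linarith
    · rcases lt_trichotomy z2 y2 with h1' | h1' | h1'
      · refine ⟨0, 1, y2, Or.inr one_ne_zero, ?_⟩
        intro p hp hq
        have h2 : (z2 : ℝ) + 1 ≤ y2 := by exact_mod_cast h1'
        have h3 := hp.2.2.2.1
        have h4 := hq.2.2.1
        simp only at h3 h4
        linarith
      · subst h1; subst h1'
        have hij : i ≠ j := fun hij => ht (by rw [hij])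
        refine ⟨1, 1, z1 + z2 + 1, Or.inl one_ne_zero, ?_⟩
        intro p hp hq
        have h3 := hp.2.2.2.2
        have h4 := hq.2.2.2.2
        simp only at h3 h4
        have hi : i = 0 ∨ i = 1 := by fin_cases i <;> simp
        have hj : j = 0 ∨ j = 1 := by fin_cases j <;> simp
        rcases hi with hi | hi <;> rcases hj with hj | hj
        · exact absurd (hi.trans hj.symm) hij
        · subst hi; subst hj
          simp only [Fin.isValue, Fin.val_zero, Nat.cast_zero, add_zero, Fin.val_one,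
            Nat.cast_one] at h3 h4
          linarith [h3.2, h4.1]
        · subst hi; subst hj
          simp only [Fin.isValue, Fin.val_zero, Nat.cast_zero, add_zero, Fin.val_one,
            Nat.cast_one] at h3 h4
          linarith [h4.2, h3.1]
        · exact absurd (hi.trans hj.symm) hij
      · refine ⟨0, 1, z2, Or.inr one_ne_zero, ?_⟩
        intro p hp hq
        have h2 : (y2 : ℝ) + 1 ≤ z2 := by exact_mod_cast h1'
        have h3 := hq.2.2.2.1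
        have h4 := hp.2.2.1
        simp only at h3 h4
        linarith
    · refine ⟨1, 0, z1, Or.inl one_ne_zero, ?_⟩
      intro p hp hq
      have h2 : (y1 : ℝ) + 1 ≤ z1 := by exact_mod_cast h1
      have h3 := hq.2.1
      have h4 := hp.1
      simp only at h3 h4
      linarith
  obtain ⟨α, β, c, hab, hall⟩ := hex
  refine MeasureTheory.measure_mono_null ?_ (null_u h hh τ α β c hab)
  rintro p ⟨hp, hq⟩
  exact hall p (hull_sub_reg h hh τ _ hp) (hull_sub_reg h hh τ _ hq)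

theorem hexineq (x y : ℝ) (hx : |x| ≤ 1) (hy : |y| ≤ 1) (hxy : |x + y| ≤ 1) :
    x ^ 2 + x * y + y ^ 2 ≤ 1 := by
  have h1 : x ^ 2 ≤ 1 := by rw [← sq_abs]; nlinarith [abs_nonneg x]
  have h2 : y ^ 2 ≤ 1 := by rw [← sq_abs]; nlinarith [abs_nonneg y]
  have h3 : (x + y) ^ 2 ≤ 1 := by rw [← sq_abs]; nlinarith [abs_nonneg (x + y)]
  by_cases h4 : 0 ≤ x * y
  · nlinarith
  · push Not at h4
    by_cases h5 : y * (x + y) ≤ 0
    · nlinarith
    · push Not at h5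
      have h6 : x * (x + y) ≤ 0 := by
        by_contra h7
        push Not at h7
        have h8 : 0 < (y * (x + y)) * (x * (x + y)) := mul_pos h5 h7
        have h9 : (y * (x + y)) * (x * (x + y)) = (x * y) * (x + y) ^ 2 := by ring
        rw [h9] at h8
        nlinarith [sq_nonneg (x + y)]
      nlinarith

/-- two points of a cell are close -/
theorem reg_dist (h : ℝ) (hh : 0 < h) (τ : ℝ × ℝ) (t : (ℤ × ℤ) × Fin 2) (p q : ℝ × ℝ)
    (hp : p ∈ reg h τ t) (hq : q ∈ reg h τ t) : (q.1 - p.1) ^ 2 + (q.2 - p.2) ^ 2 ≤ h ^ 2 := by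
  obtain ⟨p1, p2, p3, p4, p5, p6⟩ := hp
  obtain ⟨q1, q2, q3, q4, q5, q6⟩ := hq
  have e1 := uw1 h hh τ p
  have e2 := uw2 h hh τ p
  have f1 := uw1 h hh τ q
  have f2 := uw2 h hh τ q
  have hk := hexineq (uu h τ q - uu h τ p) (ww h τ q - ww h τ p)
    (abs_le.2 ⟨by linarith, by linarith⟩) (abs_le.2 ⟨by linarith, by linarith⟩)
    (abs_le.2 ⟨by linarith, by linarith⟩)
  obtain ⟨x, hx⟩ : ∃ x, x = uu h τ q - uu h τ p := ⟨_, rfl⟩
  obtain ⟨y, hy⟩ : ∃ y, y = ww h τ q - ww h τ p := ⟨_, rfl⟩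
  rw [← hx, ← hy] at hk
  have g1 : q.1 - p.1 = h * (x + y / 2) := by rw [hx, hy]; linarith
  have g2 : q.2 - p.2 = h * (√3 / 2 * y) := by rw [hy]; linarith
  rw [g1, g2]
  have e : (h * (x + y / 2)) ^ 2 + (h * (√3 / 2 * y)) ^ 2 = h ^ 2 * (x ^ 2 + x * y + y ^ 2) := by
    have := s3
    have h4 : (h * (√3 / 2 * y)) ^ 2 = h ^ 2 * (√3 * √3) / 4 * y ^ 2 := by ring
    rw [h4, s3]; ring
  rw [e]
  have := mul_le_mul_of_nonneg_left hk (sq_nonneg h)
  linarith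

/-- every point is in a cell -/
theorem exists_reg (h : ℝ) (τ p : ℝ × ℝ) : ∃ t, p ∈ reg h τ t := by
  have a1 := Int.floor_le (uu h τ p)
  have a2 := Int.lt_floor_add_one (uu h τ p)
  have b1 := Int.floor_le (ww h τ p)
  have b2 := Int.lt_floor_add_one (ww h τ p)
  by_cases hc : uu h τ p + ww h τ p ≤ (⌊uu h τ p⌋ : ℝ) + ⌊ww h τ p⌋ + 1
  · refine ⟨((⌊uu h τ p⌋, ⌊ww h τ p⌋), 0), a1, a2.le, b1, b2.le, ?_, ?_⟩
    · simp only [Fin.isValue, Fin.val_zero, Nat.cast_zero, add_zero]; linarith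
    · simp only [Fin.isValue, Fin.val_zero, Nat.cast_zero, add_zero]; linarith
  · push Not at hc
    refine ⟨((⌊uu h τ p⌋, ⌊ww h τ p⌋), 1), a1, a2.le, b1, b2.le, ?_, ?_⟩
    · simp only [Fin.isValue, Fin.val_one, Nat.cast_one]; linarith
    · simp only [Fin.isValue, Fin.val_one, Nat.cast_one]; linarith

/-- points near a shrunk copy -/
theorem near_mem (h s : ℝ) (hh : 0 < h) (hs : 100 * h ≤ s) (A : Set (ℝ × ℝ))
    (hc : Convex ℝ A) (hin : ∀ z : ℝ × ℝ, z.1 ^ 2 + z.2 ^ 2 < (s / 4) ^ 2 → z ∈ A)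
    (a q : ℝ × ℝ) (ha : a ∈ A)
    (hq : (q.1 - (1 - 8 * h / s) * a.1) ^ 2 + (q.2 - (1 - 8 * h / s) * a.2) ^ 2 ≤ h ^ 2) :
    q ∈ A := by
  have hs0 : 0 < s := by linarith
  obtain ⟨t0, ht0⟩ : ∃ t0, t0 = 8 * h / s := ⟨_, rfl⟩
  have ht0p : 0 < t0 := by rw [ht0]; positivity
  have ht1 : t0 ≤ 1 := by rw [ht0, div_le_one hs0]; linarith
  rw [← ht0] at hq
  obtain ⟨v, hv⟩ : ∃ v : ℝ × ℝ, v = ((q.1 - (1 - t0) * a.1) / t0, (q.2 - (1 - t0) * a.2) / t0) :=
    ⟨_, rfl⟩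
  have hvA : v ∈ A := by
    apply hin
    rw [hv]
    simp only
    have e : ((q.1 - (1 - t0) * a.1) / t0) ^ 2 + ((q.2 - (1 - t0) * a.2) / t0) ^ 2
        = ((q.1 - (1 - t0) * a.1) ^ 2 + (q.2 - (1 - t0) * a.2) ^ 2) / t0 ^ 2 := by
      field_simp
    rw [e, div_lt_iff₀ (by positivity)]
    have e2 : (s / 4) ^ 2 * t0 ^ 2 = 4 * h ^ 2 := by
      rw [ht0]; field_simp; ring
    rw [e2]
    have : 0 < h ^ 2 := by positivity
    linarith
  have := hc ha hvA (show 0 ≤ 1 - t0 by linarith) ht0p.le (by ring)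
  convert this using 1
  rw [hv]
  ext
  · simp; field_simp; ring
  · simp; field_simp; ring

theorem lat_succ_eq (h : ℝ) (τ : ℝ × ℝ) (t : (ℤ × ℤ) × Fin 2) :
    ∃ i, tv h τ t i = lat h τ (t.1 + (0, 1)) := by
  obtain ⟨z, j⟩ := t
  have hj : j = 0 ∨ j = 1 := by fin_cases j <;> simp
  rcases hj with hj | hj
  · subst hj; exact ⟨2, by simp [tv]⟩
  · subst hj; exact ⟨1, by simp [tv]⟩

theorem lat_finite (h s : ℝ) (hh : 0 < h) (τ : ℝ × ℝ) (A : Set (ℝ × ℝ))
    (hout : ∀ z ∈ A, z.1 ^ 2 + z.2 ^ 2 ≤ 4 * s ^ 2) : {k : ℤ × ℤ | lat h τ k ∈ A}.Finite := by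
  obtain ⟨B, hB⟩ : ∃ B, B = 2 * |s| + |τ.1| + |τ.2| := ⟨_, rfl⟩
  have hbd : ∀ k : ℤ × ℤ, lat h τ k ∈ A → |(k.1 : ℝ)| ≤ 2 * B / h * 2 ∧ |(k.2 : ℝ)| ≤ 2 * B / h := by
    intro k hk
    have h1 := hout _ hk
    have h2 : |(lat h τ k).1| ≤ 2 * |s| := by
      apply abs_le_of_sq_le_sq' _ (by positivity) |> abs_le.2
      rw [mul_pow, sq_abs]; nlinarith [sq_nonneg (lat h τ k).2]
    have h3 : |(lat h τ k).2| ≤ 2 * |s| := by
      apply abs_le_of_sq_le_sq' _ (by positivity) |> abs_le.2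
      rw [mul_pow, sq_abs]; nlinarith [sq_nonneg (lat h τ k).1]
    have h4 : |h * ((k.1 : ℝ) + k.2 / 2)| ≤ B := by
      have : h * ((k.1 : ℝ) + k.2 / 2) = (lat h τ k).1 - τ.1 := by unfold lat; ring
      rw [this]
      refine (abs_sub _ _).trans ?_
      rw [hB]; have := abs_nonneg τ.2; linarith
    have h5 : |h * (√3 / 2 * (k.2 : ℝ))| ≤ B := by
      have : h * (√3 / 2 * (k.2 : ℝ)) = (lat h τ k).2 - τ.2 := by unfold lat; ring
      rw [this]
      refine (abs_sub _ _).trans ?_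
      rw [hB]; have := abs_nonneg τ.1; linarith
    have hs1 : 1 ≤ √3 := by
      rw [Real.one_le_sqrt]; norm_num
    have h6 : |(k.2 : ℝ)| ≤ 2 * B / h := by
      rw [le_div_iff₀ hh]
      rw [abs_mul, abs_mul, abs_of_pos hh, abs_of_pos (show (0:ℝ) < √3 / 2 by positivity)] at h5
      have h7 : h * (1 / 2 * |(k.2 : ℝ)|) ≤ h * (√3 / 2 * |(k.2 : ℝ)|) := by
        refine mul_le_mul_of_nonneg_left ?_ hh.le
        exact mul_le_mul_of_nonneg_right (by linarith) (abs_nonneg _)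
      linarith
    refine ⟨?_, h6⟩
    rw [abs_mul, abs_of_pos hh] at h4
    have h8 : |(k.1 : ℝ)| ≤ |(k.1 : ℝ) + k.2 / 2| + |(k.2 : ℝ)| / 2 := by
      have := abs_sub ((k.1 : ℝ) + k.2 / 2) (k.2 / 2)
      rw [add_sub_cancel_right, abs_div, abs_of_pos (show (0:ℝ) < 2 by norm_num)] at this
      exact this
    have h9 : |(k.1 : ℝ) + k.2 / 2| ≤ B / h := by
      rw [le_div_iff₀ hh]; linarith
    have h10 : 2 * B / h * 2 = B / h + 3 * (B / h) := by ring
    have h11 : 2 * B / h = 2 * (B / h) := by ring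
    have h12 : 0 ≤ B / h := le_trans (abs_nonneg _) h9
    rw [h10]
    rw [h11] at h6
    linarith
  obtain ⟨N, hN⟩ := exists_int_gt (2 * B / h * 2 + 2 * B / h)
  refine ((Set.finite_Icc (-N) N).prod (Set.finite_Icc (-N) N)).subset ?_
  intro k hk
  obtain ⟨h1, h2⟩ := hbd k hk
  have hp1 : 0 ≤ 2 * B / h * 2 := (abs_nonneg _).trans h1
  have hp2 : 0 ≤ 2 * B / h := (abs_nonneg _).trans h2
  have h3 : |(k.1 : ℝ)| ≤ N := by linarith
  have h4 : |(k.2 : ℝ)| ≤ N := by linarith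
  rw [abs_le] at h3 h4
  refine ⟨⟨?_, ?_⟩, ⟨?_, ?_⟩⟩
  · exact_mod_cast h3.1
  · exact_mod_cast h3.2
  · exact_mod_cast h4.1
  · exact_mod_cast h4.2

open Pointwise in
theorem tv_fill (h s : ℝ) (hh : 0 < h) (hs : 100 * h ≤ s) (τ : ℝ × ℝ) (A : Set (ℝ × ℝ))
    (hA : MeasurableSet A) (hc : Convex ℝ A) (hin : ∀ z : ℝ × ℝ, z.1 ^ 2 + z.2 ^ 2 < (s / 4) ^ 2 → z ∈ A)
    (hout : ∀ z ∈ A, z.1 ^ 2 + z.2 ^ 2 ≤ 4 * s ^ 2) :
    {t : (ℤ × ℤ) × Fin 2 | ∀ i, tv h τ t i ∈ A}.Finite ∧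
    (MeasureTheory.volume (A \ ⋃ t ∈ {t : (ℤ × ℤ) × Fin 2 | ∀ i, tv h τ t i ∈ A},
      convexHull ℝ (range (tv h τ t)))).toReal ≤ 17 * (h / s) * (MeasureTheory.volume A).toReal := by
  have hs0 : 0 < s := by linarith
  constructor
  · have hfin := lat_finite h s hh τ A hout
    have hfin2 : ((fun k : ℤ × ℤ => k - (0, 1)) '' {k : ℤ × ℤ | lat h τ k ∈ A}).Finite :=
      hfin.image _
    refine (hfin2.prod (Set.finite_univ : (Set.univ : Set (Fin 2)).Finite)).subset ?_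
    intro t ht
    refine ⟨⟨t.1 + (0, 1), ?_, by simp⟩, Set.mem_univ _⟩
    obtain ⟨i, hi⟩ := lat_succ_eq h τ t
    have := ht i
    rw [hi] at this
    exact this
  · obtain ⟨r, hr⟩ : ∃ r, r = 1 - 8 * h / s := ⟨_, rfl⟩
    have hr0 : 0 ≤ r := by
      have : 8 * h / s ≤ 1 := by rw [div_le_one hs0]; linarith
      linarith
    have hr1 : r ≤ 1 := by
      have : 0 ≤ 8 * h / s := by positivity
      linarith
    have h0A : (0 : ℝ × ℝ) ∈ A := hin 0 (by simp; positivity)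
    have hsubA : r • A ⊆ A := by
      rintro _ ⟨a, ha, rfl⟩
      have := hc ha h0A hr0 (show 0 ≤ 1 - r by linarith) (by ring)
      simpa using this
    have hcover : r • A ⊆ ⋃ t ∈ {t : (ℤ × ℤ) × Fin 2 | ∀ i, tv h τ t i ∈ A},
        convexHull ℝ (range (tv h τ t)) := by
      rintro _ ⟨a, ha, rfl⟩
      obtain ⟨t, ht⟩ := exists_reg h τ (r • a)
      refine Set.mem_iUnion₂.2 ⟨t, ?_, reg_sub_hull h hh τ t ht⟩
      intro i
      have hd := reg_dist h hh τ t _ _ ht (tv_mem_reg h hh τ t i)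
      refine near_mem h s hh hs A hc hin a _ ha ?_
      rw [← hr]
      exact hd
    have hfinA : MeasureTheory.volume A ≠ ⊤ := by
      have hb : Bornology.IsBounded A := by
        refine (Metric.isBounded_closedBall (x := (0 : ℝ × ℝ)) (r := 2 * |s|)).subset ?_
        intro z hz
        have h1 := hout z hz
        rw [mem_closedBall_zero_iff, Prod.norm_def, max_le_iff]
        constructor
        · rw [Real.norm_eq_abs]
          apply abs_le_of_sq_le_sq' _ (by positivity) |> abs_le.2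
          rw [mul_pow, sq_abs]; nlinarith [sq_nonneg z.2]
        · rw [Real.norm_eq_abs]
          apply abs_le_of_sq_le_sq' _ (by positivity) |> abs_le.2
          rw [mul_pow, sq_abs]; nlinarith [sq_nonneg z.1]
      exact hb.measure_lt_top.ne
    have hmeas : MeasurableSet (r • A) := by
      by_cases hr00 : r = 0
      · rw [hr00, Set.zero_smul_set ⟨_, h0A⟩]
        exact MeasurableSet.singleton _
      · exact hA.const_smul₀ r
    have hvol : MeasureTheory.volume (r • A) = ENNReal.ofReal (r ^ 2) * MeasureTheory.volume A := by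
      rw [MeasureTheory.Measure.addHaar_smul]
      congr 2
      simp
    have h1 : MeasureTheory.volume (A \ ⋃ t ∈ {t : (ℤ × ℤ) × Fin 2 | ∀ i, tv h τ t i ∈ A},
        convexHull ℝ (range (tv h τ t))) ≤ MeasureTheory.volume (A \ (r • A)) :=
      MeasureTheory.measure_mono (Set.diff_subset_diff_right hcover)
    have h2 : MeasureTheory.volume (A \ (r • A)) ≠ ⊤ :=
      ne_top_of_le_ne_top hfinA (MeasureTheory.measure_mono Set.diff_subset)
    have h3 := ENNReal.toReal_mono h2 h1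
    have h4 : (MeasureTheory.volume (A \ (r • A))).toReal
        = (MeasureTheory.volume A).toReal - r ^ 2 * (MeasureTheory.volume A).toReal := by
      rw [MeasureTheory.measure_diff hsubA hmeas.nullMeasurableSet
        (ne_top_of_le_ne_top hfinA (MeasureTheory.measure_mono hsubA)),
        ENNReal.toReal_sub_of_le (MeasureTheory.measure_mono hsubA) hfinA, hvol,
        ENNReal.toReal_mul, ENNReal.toReal_ofReal (by positivity)]
    rw [h4] at h3
    refine h3.trans ?_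
    have hV : 0 ≤ (MeasureTheory.volume A).toReal := ENNReal.toReal_nonneg
    have h5 : 1 - r ^ 2 ≤ 17 * (h / s) := by
      rw [hr]
      have h6 : 0 ≤ h / s := by positivity
      have h7 : 8 * h / s = 8 * (h / s) := by ring
      rw [h7]
      nlinarith [sq_nonneg (h / s)]
    have := mul_le_mul_of_nonneg_right h5 hV
    linarith

theorem lat_near (h s : ℝ) (hh : 0 < h) (hs : 100 * h ≤ s) (τ : ℝ × ℝ) (A : Set (ℝ × ℝ))
    (hc : Convex ℝ A) (hin : ∀ z : ℝ × ℝ, z.1 ^ 2 + z.2 ^ 2 < (s / 4) ^ 2 → z ∈ A)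
    (hout : ∀ z ∈ A, z.1 ^ 2 + z.2 ^ 2 ≤ 4 * s ^ 2) (z : ℝ × ℝ) (hz : z ∈ A) :
    ∃ k : ℤ × ℤ, lat h τ k ∈ A ∧
      ((lat h τ k).1 - z.1) ^ 2 + ((lat h τ k).2 - z.2) ^ 2 ≤ (18 * h) ^ 2 := by
  have hs0 : 0 < s := by linarith
  obtain ⟨r, hr⟩ : ∃ r, r = 1 - 8 * h / s := ⟨_, rfl⟩
  obtain ⟨t, ht⟩ := exists_reg h τ (r • z)
  obtain ⟨i, hi⟩ := lat_succ_eq h τ t
  have hd := reg_dist h hh τ t _ _ ht (tv_mem_reg h hh τ t i)
  rw [hi] at hd
  refine ⟨t.1 + (0, 1), ?_, ?_⟩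
  · refine near_mem h s hh hs A hc hin z _ hz ?_
    rw [← hr]
    exact hd
  · obtain ⟨q, hq⟩ : ∃ q, q = lat h τ (t.1 + (0, 1)) := ⟨_, rfl⟩
    rw [← hq] at hd ⊢
    have hd2 : (q.1 - r * z.1) ^ 2 + (q.2 - r * z.2) ^ 2 ≤ h ^ 2 := hd
    have h1 := hout z hz
    have e : (1 - r) = 8 * h / s := by rw [hr]; ring
    have h2 : ((1 - r) * z.1) ^ 2 + ((1 - r) * z.2) ^ 2 ≤ (16 * h) ^ 2 := by
      have h3 : ((1 - r) * z.1) ^ 2 + ((1 - r) * z.2) ^ 2 = (1 - r) ^ 2 * (z.1 ^ 2 + z.2 ^ 2) := by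
        ring
      rw [h3]
      have h4 := mul_le_mul_of_nonneg_left h1 (sq_nonneg (1 - r))
      have h5 : (1 - r) ^ 2 * (4 * s ^ 2) = (16 * h) ^ 2 := by
        rw [e]; field_simp; ring
      linarith
    obtain ⟨a1, ha1⟩ : ∃ a1, a1 = q.1 - r * z.1 := ⟨_, rfl⟩
    obtain ⟨a2, ha2⟩ : ∃ a2, a2 = q.2 - r * z.2 := ⟨_, rfl⟩
    obtain ⟨b1, hb1⟩ : ∃ b1, b1 = (1 - r) * z.1 := ⟨_, rfl⟩
    obtain ⟨b2, hb2⟩ : ∃ b2, b2 = (1 - r) * z.2 := ⟨_, rfl⟩
    rw [← ha1, ← ha2] at hd2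
    rw [← hb1, ← hb2] at h2
    have g1 : q.1 - z.1 = a1 - b1 := by rw [ha1, hb1]; ring
    have g2 : q.2 - z.2 = a2 - b2 := by rw [ha2, hb2]; ring
    rw [g1, g2]
    nlinarith [sq_nonneg (16 * a1 + b1), sq_nonneg (16 * a2 + b2), sq_nonneg h]

end Pool.Agent.Helper320.Gold.NK3
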