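import Mathlib
import Pool.Agent.Helper320.GBaseA
import Pool.Agent.Helper320.GK1
import Pool.Agent.Helper320.GK3
import Pool.Agent.Helper320.GB0

set_option autoImplicit false
open Set

namespace Pool.Agent.Helper320.Gold.NB2

open Pool.Agent.Helper320.Gold Pool.Agent.Helper320.Gold.NK1 Pool.Agent.Helper320.Gold.NK3 Pool.Agent.Helper320.Gold.NB0

theorem norm_sq_comb {w e f : E3} (h : ON w e f) (a b c : ℝ) :
    ‖a • w + b • e + c • f‖ ^ 2 = a ^ 2 + b ^ 2 + c ^ 2 := by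
  have hww : inner ℝ w w = (1 : ℝ) := by rw [real_inner_self_eq_norm_sq, h.w1]; norm_num
  have hee : inner ℝ e e = (1 : ℝ) := by rw [real_inner_self_eq_norm_sq, h.e1]; norm_num
  have hff : inner ℝ f f = (1 : ℝ) := by rw [real_inner_self_eq_norm_sq, h.f1]; norm_num
  have hew : inner ℝ e w = (0 : ℝ) := by rw [real_inner_comm]; exact h.we
  have hfw : inner ℝ f w = (0 : ℝ) := by rw [real_inner_comm]; exact h.wf
  have hfe : inner ℝ f e = (0 : ℝ) := by rw [real_inner_comm]; exact h.ef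
  rw [← real_inner_self_eq_norm_sq]
  simp only [inner_add_left, inner_add_right, real_inner_smul_left, real_inner_smul_right,
    hww, hee, hff, hew, hfw, hfe, h.we, h.wf, h.ef]
  ring

theorem pl_norm_sq {w e f : E3} (h : ON w e f) (z : ℝ × ℝ) :
    ‖pl w e f z‖ ^ 2 = 1 + z.1 ^ 2 + z.2 ^ 2 := by
  have := norm_sq_comb h 1 z.1 z.2
  rw [one_smul] at this
  unfold pl
  rw [this]; ring

theorem pl_norm_ge {w e f : E3} (h : ON w e f) (z : ℝ × ℝ) : 1 ≤ ‖pl w e f z‖ := by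
  have h1 := pl_norm_sq h z
  have h2 : 0 ≤ ‖pl w e f z‖ := norm_nonneg _
  nlinarith [sq_nonneg z.1, sq_nonneg z.2]

theorem pl_sub_sq {w e f : E3} (h : ON w e f) (z v : ℝ × ℝ) :
    ‖pl w e f z - pl w e f v‖ ^ 2 = d2 z v := by
  have := norm_sq_comb h 0 (z.1 - v.1) (z.2 - v.2)
  have h2 : pl w e f z - pl w e f v = (0 : ℝ) • w + (z.1 - v.1) • e + (z.2 - v.2) • f := by
    unfold pl
    module
  rw [h2, this]
  unfold d2
  ring

theorem nrm_norm {x : E3} (hx : 1 ≤ ‖x‖) : ‖nrm x‖ = 1 := by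
  unfold nrm
  rw [norm_smul, norm_inv, norm_norm]
  exact inv_mul_cancel₀ (by positivity)

theorem nrm_sub_sq_le {x y : E3} (hx : 1 ≤ ‖x‖) (hy : 1 ≤ ‖y‖) :
    ‖nrm x - nrm y‖ ^ 2 ≤ ‖x - y‖ ^ 2 := by
  have h1 : ‖nrm x - nrm y‖ ^ 2 = 2 - 2 * inner ℝ (nrm x) (nrm y) := by
    rw [norm_sub_sq_real, nrm_norm hx, nrm_norm hy]; ring
  have h2 : ‖x - y‖ ^ 2 = ‖x‖ ^ 2 - 2 * inner ℝ x y + ‖y‖ ^ 2 := norm_sub_sq_real x y
  have h3 : inner ℝ x y = ‖x‖ * ‖y‖ * inner ℝ (nrm x) (nrm y) := by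
    unfold nrm
    rw [real_inner_smul_left, real_inner_smul_right]
    field_simp
  have h4 : inner ℝ (nrm x) (nrm y) ≤ (1 : ℝ) := by
    have := real_inner_le_norm (nrm x) (nrm y)
    rwa [nrm_norm hx, nrm_norm hy, one_mul] at this
  rw [h1, h2, h3]
  set c : ℝ := inner ℝ (nrm x) (nrm y)
  nlinarith [sq_nonneg (‖x‖ - ‖y‖), mul_nonneg (sub_nonneg.2 h4)
    (sub_nonneg.2 (one_le_mul_of_one_le_of_one_le hx hy))]

theorem nrm_sub_le {x y : E3} (hx : 1 ≤ ‖x‖) (hy : 1 ≤ ‖y‖) :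
    ‖nrm x - nrm y‖ ≤ ‖x - y‖ :=
  le_of_sq_le_sq (nrm_sub_sq_le hx hy) (norm_nonneg _)

theorem tv_lat (h : ℝ) (τ : ℝ × ℝ) (t : (ℤ × ℤ) × Fin 2) (i : Fin 3) :
    ∃ k : ℤ × ℤ, tv h τ t i = lat h τ k := by
  unfold tv
  split_ifs with h1
  · fin_cases i
    · exact ⟨_, rfl⟩
    · exact ⟨_, rfl⟩
    · exact ⟨_, rfl⟩
  · fin_cases i
    · exact ⟨_, rfl⟩
    · exact ⟨_, rfl⟩
    · exact ⟨_, rfl⟩

theorem tv_dist (h : ℝ) (τ : ℝ × ℝ) (t : (ℤ × ℤ) × Fin 2) (i : Fin 3) :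
    d2 (tv h τ t i) (tv h τ t 0) ≤ h ^ 2 := by
  have h3 : (√3 : ℝ) ^ 2 = 3 := Real.sq_sqrt (by norm_num)
  unfold tv
  split_ifs with h1
  · fin_cases i
    · simp [d2]
      positivity
    · simp [d2, lat]
      nlinarith [sq_nonneg h]
    · simp [d2, lat]
      nlinarith [sq_nonneg h]
  · fin_cases i
    · simp [d2]
      positivity
    · simp [d2, lat]
      nlinarith [sq_nonneg h]
    · simp [d2, lat]
      nlinarith [sq_nonneg h]

theorem d2_nonneg (z v : ℝ × ℝ) : 0 ≤ d2 z v := by unfold d2; positivity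

theorem convex_d2 (v : ℝ × ℝ) (c : ℝ) : Convex ℝ {z : ℝ × ℝ | d2 z v ≤ c} := by
  intro x hx y hy a b ha hb hab
  simp only [Set.mem_ofPred_eq, d2, Prod.fst_add, Prod.snd_add, Prod.smul_fst, Prod.smul_snd,
    smul_eq_mul] at hx hy ⊢
  have hb' : b = 1 - a := by linarith
  subst hb'
  nlinarith [mul_nonneg (mul_nonneg ha hb) (sq_nonneg (x.1 - y.1)),
    mul_nonneg (mul_nonneg ha hb) (sq_nonneg (x.2 - y.2)), mul_le_mul_of_nonneg_left hx ha,
    mul_le_mul_of_nonneg_left hy hb]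

theorem tri_d2_le (h : ℝ) (τ : ℝ × ℝ) (t : (ℤ × ℤ) × Fin 2) {z : ℝ × ℝ}
    (hz : z ∈ convexHull ℝ (range (tv h τ t))) : d2 z (tv h τ t 0) ≤ h ^ 2 := by
  have : convexHull ℝ (range (tv h τ t)) ⊆ {z | d2 z (tv h τ t 0) ≤ h ^ 2} := by
    apply convexHull_min _ (convex_d2 _ _)
    rintro _ ⟨i, rfl⟩
    exact tv_dist h τ t i
  exact this hz

/-- the minimum -/
noncomputable def mm (h : ℝ) (τ : ℝ × ℝ) (t : (ℤ × ℤ) × Fin 2) (z : ℝ × ℝ) : ℝ :=
  min (min (d2 z (tv h τ t 0)) (d2 z (tv h τ t 1))) (d2 z (tv h τ t 2))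

theorem d2_cont (v : ℝ × ℝ) : Continuous (fun z => d2 z v) := by
  unfold d2
  fun_prop

theorem mm_cont (h : ℝ) (τ : ℝ × ℝ) (t : (ℤ × ℤ) × Fin 2) : Continuous (mm h τ t) := by
  unfold mm
  exact ((d2_cont _).min (d2_cont _)).min (d2_cont _)

theorem mm_nonneg (h : ℝ) (τ : ℝ × ℝ) (t : (ℤ × ℤ) × Fin 2) (z : ℝ × ℝ) : 0 ≤ mm h τ t z := by
  unfold mm
  exact le_min (le_min (d2_nonneg _ _) (d2_nonneg _ _)) (d2_nonneg _ _)

theorem mm_le (h : ℝ) (τ : ℝ × ℝ) (t : (ℤ × ℤ) × Fin 2) {z : ℝ × ℝ}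
    (hz : z ∈ convexHull ℝ (range (tv h τ t))) : mm h τ t z ≤ h ^ 2 := by
  unfold mm
  exact ((min_le_left _ _).trans (min_le_left _ _)).trans (tri_d2_le h τ t hz)

theorem mm_mem (h : ℝ) (τ : ℝ × ℝ) (t : (ℤ × ℤ) × Fin 2) (z : ℝ × ℝ) :
    ∃ i, mm h τ t z = d2 z (tv h τ t i) := by
  unfold mm
  rcases min_choice (min (d2 z (tv h τ t 0)) (d2 z (tv h τ t 1))) (d2 z (tv h τ t 2)) with h1 | h1
  · rcases min_choice (d2 z (tv h τ t 0)) (d2 z (tv h τ t 1)) with h2 | h2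
    · exact ⟨0, by rw [h1, h2]⟩
    · exact ⟨1, by rw [h1, h2]⟩
  · exact ⟨2, h1⟩

/-- pointwise estimate for the radius -/
theorem radius_bound {m q : ℝ} (hm : 0 ≤ m) (hq : m ≤ q) (hq1 : q ≤ 1 / 100) :
    (((1 - m / 2)⁻¹) ^ 3 - 1) / 3 ≤ 1 / 2 * (1 + 2 * q) * m := by
  have h1 : 0 < 1 - m / 2 := by linarith
  have h2 : ((1 - m / 2)⁻¹) ^ 3 ≤ 1 + 3 / 2 * m * (1 + 2 * m) := by
    rw [inv_pow, inv_le_iff_one_le_mul₀ (by positivity)]
    have : (1 + 3 / 2 * m * (1 + 2 * m)) * (1 - m / 2) ^ 3 - 1 =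
        m ^ 2 * (3 / 2 - 7 / 2 * m + 33 / 16 * m ^ 2 - 3 / 8 * m ^ 3) := by ring
    have h4 : 0 ≤ 3 / 2 - 7 / 2 * m + 33 / 16 * m ^ 2 - 3 / 8 * m ^ 3 := by
      have : m ^ 3 ≤ 1 := by
        apply pow_le_one₀ hm
        linarith
      nlinarith [sq_nonneg m]
    nlinarith [mul_nonneg (sq_nonneg m) h4]
  nlinarith [mul_le_mul_of_nonneg_left hq hm]

theorem inner_nrm_ge {w e f : E3} (hON : ON w e f) (z v : ℝ × ℝ) :
    1 - d2 z v / 2 ≤ inner ℝ (nrm (pl w e f z)) (nrm (pl w e f v)) := by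
  have h1 := nrm_sub_sq_le (pl_norm_ge hON z) (pl_norm_ge hON v)
  rw [pl_sub_sq hON] at h1
  rw [norm_sub_sq_real, nrm_norm (pl_norm_ge hON z), nrm_norm (pl_norm_ge hON v)] at h1
  linarith

/-- the radial estimate -/
theorem radial {w e f : E3} (hON : ON w e f) {z v : ℝ × ℝ} {x : E3} {r : ℝ} (hr : 0 ≤ r)
    (hx : x = r • pl w e f z) (hi : inner ℝ x (nrm (pl w e f v)) ≤ (1 : ℝ)) :
    ‖x‖ * (1 - d2 z v / 2) ≤ 1 := by
  have h1 : x = ‖x‖ • nrm (pl w e f z) := by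
    unfold nrm
    rw [hx, norm_smul, Real.norm_of_nonneg hr, smul_smul]
    congr 1
    have := pl_norm_ge hON z
    field_simp
  have h2 : inner ℝ x (nrm (pl w e f v)) = ‖x‖ * inner ℝ (nrm (pl w e f z)) (nrm (pl w e f v)) := by
    conv_lhs => rw [h1]
    rw [real_inner_smul_left]
  rw [h2] at hi
  exact (mul_le_mul_of_nonneg_left (inner_nrm_ge hON z v) (norm_nonneg x)).trans hi

/-- shell over a planar set -/
def shell (w e f : E3) (Z : Set (ℝ × ℝ)) (R : ℝ × ℝ → ℝ) : Set E3 :=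
  {x : E3 | ∃ r : ℝ, 0 ≤ r ∧ ∃ z ∈ Z, x = r • pl w e f z ∧ 1 ≤ ‖x‖ ∧ ‖x‖ ≤ R z}

theorem meas_tri (h : ℝ) (τ : ℝ × ℝ) (t : (ℤ × ℤ) × Fin 2) :
    IsCompact (convexHull ℝ (range (tv h τ t))) :=
  (Set.finite_range (tv h τ t)).isCompact_convexHull ℝ

theorem shell_tri {w e f : E3} (hON : ON w e f) {h : ℝ} (hh : 0 < h) (hh1 : h ^ 2 ≤ 1 / 100)
    (τ : ℝ × ℝ) (t : (ℤ × ℤ) × Fin 2) :
    MeasureTheory.volume (shell w e f (convexHull ℝ (range (tv h τ t)))
      (fun z => (1 - mm h τ t z / 2)⁻¹)) ≤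
    ENNReal.ofReal (5 / 72 * h ^ 2 * (1 + 2 * h ^ 2)) *
      MeasureTheory.volume (convexHull ℝ (range (tv h τ t))) := by
  have hc := meas_tri h τ t
  have hm : Measurable (fun z => (1 - mm h τ t z / 2)⁻¹) :=
    ((measurable_const.sub ((mm_cont h τ t).measurable.div_const 2))).inv
  have hR1 : ∀ z ∈ convexHull ℝ (range (tv h τ t)), 1 ≤ (1 - mm h τ t z / 2)⁻¹ := by
    intro z hz
    have h1 := mm_nonneg h τ t z
    have h2 := mm_le h τ t hz
    rw [one_le_inv₀ (by linarith)]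
    linarith
  refine (vol_shell_le hON hc.measurableSet _ hm hR1).trans ?_
  have hle : ∫⁻ z in convexHull ℝ (range (tv h τ t)),
      ENNReal.ofReal ((((1 - mm h τ t z / 2)⁻¹) ^ 3 - 1) / 3) ≤
      ∫⁻ z in convexHull ℝ (range (tv h τ t)),
        ENNReal.ofReal (1 / 2 * (1 + 2 * h ^ 2) * mm h τ t z) := by
    apply MeasureTheory.setLIntegral_mono'
    · exact hc.measurableSet
    · intro z hz
      apply ENNReal.ofReal_le_ofReal
      exact radius_bound (mm_nonneg h τ t z) (mm_le h τ t hz) hh1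
  refine hle.trans ?_
  have hint : MeasureTheory.IntegrableOn (fun z => 1 / 2 * (1 + 2 * h ^ 2) * mm h τ t z)
      (convexHull ℝ (range (tv h τ t))) := by
    apply ContinuousOn.integrableOn_compact hc
    exact ((mm_cont h τ t).const_mul _ : Continuous fun z => 1 / 2 * (1 + 2 * h ^ 2) * mm h τ t z
      ).continuousOn
  rw [← MeasureTheory.ofReal_integral_eq_lintegral_ofReal hint]
  · rw [MeasureTheory.integral_const_mul]
    have h3 := tri_moment h hh τ t
    have h4 : 1 / 2 * (1 + 2 * h ^ 2) * ∫ z in convexHull ℝ (range (tv h τ t)), mm h τ t z ≤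
        (5 / 72 * h ^ 2 * (1 + 2 * h ^ 2)) *
          (MeasureTheory.volume (convexHull ℝ (range (tv h τ t)))).toReal := by
      have h5 : ∫ z in convexHull ℝ (range (tv h τ t)), mm h τ t z ≤ 5 / 36 * h ^ 2 *
        (MeasureTheory.volume (convexHull ℝ (range (tv h τ t)))).toReal := h3
      have h6 : 0 ≤ 1 / 2 * (1 + 2 * h ^ 2) := by positivity
      calc _ ≤ 1 / 2 * (1 + 2 * h ^ 2) * (5 / 36 * h ^ 2 *
        (MeasureTheory.volume (convexHull ℝ (range (tv h τ t)))).toReal) :=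
            mul_le_mul_of_nonneg_left h5 h6
        _ = _ := by ring
    refine (ENNReal.ofReal_le_ofReal h4).trans ?_
    rw [ENNReal.ofReal_mul (by positivity), ENNReal.ofReal_toReal hc.measure_lt_top.ne]
  · filter_upwards with z
    have := mm_nonneg h τ t z
    positivity

theorem shell_rest {w e f : E3} (hON : ON w e f) {h : ℝ} (hh1 : h ^ 2 ≤ 1 / 100000000)
    {Z : Set (ℝ × ℝ)} (hZ : MeasurableSet Z) :
    MeasureTheory.volume (shell w e f Z (fun _ => 1 + 400 * h ^ 2)) ≤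
    ENNReal.ofReal (401 * h ^ 2) * MeasureTheory.volume Z := by
  have h0 : 0 ≤ h ^ 2 := sq_nonneg h
  refine (vol_shell_le hON hZ _ measurable_const (fun z _ => by linarith)).trans ?_
  rw [MeasureTheory.setLIntegral_const]
  gcongr
  set q := h ^ 2
  have : q * q ≤ q * (1 / 100000000) := mul_le_mul_of_nonneg_left hh1 h0
  have h3 : q ^ 3 ≤ q * (1 / 100000000) := by
    have : q * (q * q) ≤ q * (1 / 100000000) := by
      apply mul_le_mul_of_nonneg_left _ h0
      nlinarith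
    nlinarith
  nlinarith

theorem exists_patchA {w e f : E3} (hON : ON w e f) {h s : ℝ} (hh : 0 < h) (hs : 100 * h ≤ s)
    (hs1 : s ≤ 1 / 100) (A : Set (ℝ × ℝ)) (hA : MeasurableSet A) (hc : Convex ℝ A)
    (hin : ∀ z : ℝ × ℝ, z.1 ^ 2 + z.2 ^ 2 < (s / 4) ^ 2 → z ∈ A)
    (hout : ∀ z ∈ A, z.1 ^ 2 + z.2 ^ 2 ≤ 4 * s ^ 2) :
    ∃ X : Finset E3, (∀ x ∈ X, ‖x‖ = 1) ∧
      (X.card : ℝ) * (√3 / 2 * h ^ 2) ≤ (MeasureTheory.volume A).toReal ∧
      (∀ z ∈ A, ∃ x ∈ X, ‖x - nrm (pl w e f z)‖ ≤ 18 * h) ∧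
      ∀ K : Set E3, MeasurableSet K → (∀ x ∈ K, ∀ u ∈ X, inner ℝ x u ≤ 1) →
        K ⊆ Metric.closedBall 0 (1 + 400 * h ^ 2) →
        (MeasureTheory.volume (con w e f A ∩ (K \ Metric.closedBall 0 1))).toReal ≤
          5 / 72 * h ^ 2 * (1 + 2 * h ^ 2) * (MeasureTheory.volume A).toReal +
            8000 * (h ^ 3 / s) * (MeasureTheory.volume A).toReal := by
  classical
  have hs0 : 0 < s := by linarith
  have hhs : h ≤ 1 / 10000 := by linarith
  have hh2 : h ^ 2 ≤ 1 / 100000000 := by nlinarith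
  have hbdd : Bornology.IsBounded A := by
    rw [isBounded_iff_forall_norm_le]
    refine ⟨2 * s, fun z hz => ?_⟩
    have h1 := hout z hz
    rw [Prod.norm_def]
    apply max_le
    · rw [Real.norm_eq_abs]
      apply abs_le_of_sq_le_sq _ (by positivity)
      nlinarith [sq_nonneg z.2]
    · rw [Real.norm_eq_abs]
      apply abs_le_of_sq_le_sq _ (by positivity)
      nlinarith [sq_nonneg z.1]
  have hAfin : MeasureTheory.volume A ≠ ⊤ := hbdd.measure_lt_top.ne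
  obtain ⟨τ, hfin, hcard⟩ := exists_shift h hh A hA hbdd
  obtain ⟨hTfin, hrest⟩ := tv_fill h s hh hs τ A hA hc hin hout
  set X : Finset E3 := hfin.toFinset.image (fun k => nrm (pl w e f (lat h τ k))) with hX
  have hXmem : ∀ k, lat h τ k ∈ A → nrm (pl w e f (lat h τ k)) ∈ X := by
    intro k hk
    rw [hX, Finset.mem_image]
    exact ⟨k, by simpa using hk, rfl⟩
  refine ⟨X, ?_, ?_, ?_, ?_⟩
  · intro x hx
    rw [hX, Finset.mem_image] at hx
    obtain ⟨k, -, rfl⟩ := hx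
    exact nrm_norm (pl_norm_ge hON _)
  · refine le_trans ?_ hcard
    apply mul_le_mul_of_nonneg_right _ (by positivity)
    have : X.card ≤ hfin.toFinset.card := Finset.card_image_le
    rw [← Set.ncard_eq_toFinset_card _ hfin] at this
    exact_mod_cast this
  · intro z hz
    obtain ⟨k, hk, hd⟩ := lat_near h s hh hs τ A hc hin hout z hz
    refine ⟨_, hXmem k hk, ?_⟩
    refine (nrm_sub_le (pl_norm_ge hON _) (pl_norm_ge hON _)).trans ?_
    apply le_of_sq_le_sq _ (by positivity)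
    rw [pl_sub_sq hON]
    exact hd
  · intro K hK hKX hKb
    set T : Finset ((ℤ × ℤ) × Fin 2) := hTfin.toFinset with hT
    have hTmem : ∀ t, t ∈ T ↔ ∀ i, tv h τ t i ∈ A := by
      intro t
      rw [hT]
      simp
    set Z0 : Set (ℝ × ℝ) := A \ ⋃ t ∈ {t : (ℤ × ℤ) × Fin 2 | ∀ i, tv h τ t i ∈ A},
      convexHull ℝ (range (tv h τ t)) with hZ0
    have hZ0m : MeasurableSet Z0 := by
      apply hA.diff
      apply MeasurableSet.biUnion hTfin.countable
      intro t _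
      exact (meas_tri h τ t).measurableSet
    have hcover : con w e f A ∩ (K \ Metric.closedBall 0 1) ⊆
        (⋃ t ∈ T, shell w e f (convexHull ℝ (range (tv h τ t)))
          (fun z => (1 - mm h τ t z / 2)⁻¹)) ∪ shell w e f Z0 (fun _ => 1 + 400 * h ^ 2) := by
      rintro x ⟨⟨r, hr, z, hz, hx⟩, hxK, hx1⟩
      have hx1' : 1 ≤ ‖x‖ := by
        rw [Metric.mem_closedBall, dist_zero_right] at hx1
        linarith
      by_cases hzt : ∃ t ∈ T, z ∈ convexHull ℝ (range (tv h τ t))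
      · left
        obtain ⟨t, ht, hzt⟩ := hzt
        rw [Set.mem_iUnion₂]
        refine ⟨t, ht, r, hr, z, hzt, hx, hx1', ?_⟩
        show ‖x‖ ≤ (1 - mm h τ t z / 2)⁻¹
        obtain ⟨i, hi⟩ := mm_mem h τ t z
        obtain ⟨k, hk⟩ := tv_lat h τ t i
        have hkA : lat h τ k ∈ A := by
          rw [← hk]
          exact (hTmem t).1 ht i
        have h1 := hKX x hxK _ (hXmem k hkA)
        have h2 := radial hON hr hx h1
        rw [← hk, ← hi] at h2
        have h3 := mm_nonneg h τ t z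
        have h4 := mm_le h τ t hzt
        rw [← one_div, le_div_iff₀ (by linarith)]
        exact h2
      · right
        refine ⟨r, hr, z, ⟨hz, ?_⟩, hx, hx1', ?_⟩
        · intro hmem
          rw [Set.mem_iUnion₂] at hmem
          obtain ⟨t, ht, hzt'⟩ := hmem
          exact hzt ⟨t, (hTmem t).2 ht, hzt'⟩
        · have := hKb hxK
          rwa [Metric.mem_closedBall, dist_zero_right] at this
    have hsub : ∀ t ∈ T, convexHull ℝ (range (tv h τ t)) ⊆ A := by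
      intro t ht
      apply convexHull_min _ hc
      rintro _ ⟨i, rfl⟩
      exact (hTmem t).1 ht i
    have hsum : ∑ t ∈ T, MeasureTheory.volume (convexHull ℝ (range (tv h τ t))) ≤
        MeasureTheory.volume A := by
      rw [← MeasureTheory.measure_biUnion_finset₀]
      · apply MeasureTheory.measure_mono
        exact Set.iUnion₂_subset hsub
      · intro t _ t' _ htt'
        exact tv_disj h hh τ t t' htt'
      · intro t _
        exact (meas_tri h τ t).measurableSet.nullMeasurableSet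
    have hc1 : 0 ≤ 5 / 72 * h ^ 2 * (1 + 2 * h ^ 2) := by positivity
    have hbound : MeasureTheory.volume (con w e f A ∩ (K \ Metric.closedBall 0 1)) ≤
        ENNReal.ofReal (5 / 72 * h ^ 2 * (1 + 2 * h ^ 2)) * MeasureTheory.volume A +
          ENNReal.ofReal (401 * h ^ 2) * MeasureTheory.volume Z0 := by
      refine (MeasureTheory.measure_mono hcover).trans ?_
      refine (MeasureTheory.measure_union_le _ _).trans ?_
      apply add_le_add _ (shell_rest hON hh2 hZ0m)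
      refine (MeasureTheory.measure_biUnion_finset_le _ _).trans ?_
      refine (Finset.sum_le_sum (fun t _ => shell_tri hON hh (by linarith) τ t)).trans ?_
      rw [← Finset.mul_sum]
      exact mul_le_mul_of_nonneg_left hsum (by positivity)
    have hZ0fin : MeasureTheory.volume Z0 ≠ ⊤ :=
      ne_top_of_le_ne_top hAfin (MeasureTheory.measure_mono Set.sdiff_subset)
    have hne : ENNReal.ofReal (5 / 72 * h ^ 2 * (1 + 2 * h ^ 2)) * MeasureTheory.volume A +
          ENNReal.ofReal (401 * h ^ 2) * MeasureTheory.volume Z0 ≠ ⊤ := by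
      apply ENNReal.add_ne_top.2
      exact ⟨ENNReal.mul_ne_top ENNReal.ofReal_ne_top hAfin,
        ENNReal.mul_ne_top ENNReal.ofReal_ne_top hZ0fin⟩
    have h1 := ENNReal.toReal_mono hne hbound
    refine h1.trans ?_
    rw [ENNReal.toReal_add (ENNReal.mul_ne_top ENNReal.ofReal_ne_top hAfin)
      (ENNReal.mul_ne_top ENNReal.ofReal_ne_top hZ0fin), ENNReal.toReal_mul, ENNReal.toReal_mul,
      ENNReal.toReal_ofReal hc1, ENNReal.toReal_ofReal (by positivity)]
    have h2 : 401 * h ^ 2 * (MeasureTheory.volume Z0).toReal ≤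
        8000 * (h ^ 3 / s) * (MeasureTheory.volume A).toReal := by
      have h3 : 401 * h ^ 2 * (MeasureTheory.volume Z0).toReal ≤
          401 * h ^ 2 * (17 * (h / s) * (MeasureTheory.volume A).toReal) :=
        mul_le_mul_of_nonneg_left hrest (by positivity)
      refine h3.trans ?_
      have h4 : 401 * h ^ 2 * (17 * (h / s) * (MeasureTheory.volume A).toReal) =
          6817 * (h ^ 3 / s) * (MeasureTheory.volume A).toReal := by
        field_simp
        ring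
      rw [h4]
      have h5 : 0 ≤ h ^ 3 / s * (MeasureTheory.volume A).toReal := by positivity
      nlinarith
    linarith

end Pool.Agent.Helper320.Gold.NB2
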