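import Mathlib
import Pool.Agent.Helper320.GBase

set_option autoImplicit false
open Set

namespace Pool.Agent.Helper320.Gold.NK0

open Pool.Agent.Helper320.Gold

theorem _root_.Pool.Agent.Helper320.Gold.ON.exists_basis {w e f : E3} (h : ON w e f) :
    ∃ b : OrthonormalBasis (Fin 3) ℝ E3, b 0 = w ∧ b 1 = e ∧ b 2 = f := by
  have this : Orthonormal ℝ ![w, e, f] := by
    rw [orthonormal_iff_ite]
    intro i j
    have hw := h.w1; have he := h.e1; have hf := h.f1
    have h1 := h.we; have h2 := h.wf; have h3 := h.ef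
    have h1' : inner ℝ e w = 0 := by rw [real_inner_comm]; exact h1
    have h2' : inner ℝ f w = 0 := by rw [real_inner_comm]; exact h2
    have h3' : inner ℝ f e = 0 := by rw [real_inner_comm]; exact h3
    fin_cases i <;> fin_cases j <;>
      simp [hw, he, hf, h1, h2, h3, h1', h2', h3']
  obtain ⟨b, hb⟩ := Orthonormal.exists_orthonormalBasis_extension_of_card_eq (𝕜 := ℝ) (E := E3)
    (ι := Fin 3) (by simp) (v := ![w, e, f]) (s := Set.univ)
    (this.comp _ Subtype.val_injective)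
  exact ⟨b, by simpa using hb 0 (Set.mem_univ _), by simpa using hb 1 (Set.mem_univ _),
    by simpa using hb 2 (Set.mem_univ _)⟩

/-- coordinates -/
noncomputable def Phi (w e f : E3) (x : E3) : ℝ × (ℝ × ℝ) :=
  (inner ℝ w x, (inner ℝ e x, inner ℝ f x))

theorem Phi_mp {w e f : E3} (h : ON w e f) :
    MeasureTheory.MeasurePreserving (Phi w e f) MeasureTheory.volume MeasureTheory.volume := by
  obtain ⟨b, h0, h1, h2⟩ := h.exists_basis
  have m1 := b.measurePreserving_repr
  have m2 := EuclideanSpace.volume_preserving_symm_measurableEquiv_toLp (Fin 3)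
  have m3 := MeasureTheory.volume_preserving_piFinSuccAbove (fun _ : Fin 3 => ℝ) 0
  have m4 := MeasureTheory.volume_preserving_finTwoArrow ℝ
  have m5 := (MeasureTheory.MeasurePreserving.id
    (MeasureTheory.volume : MeasureTheory.Measure ℝ)).prod m4
  have m6 := m5.comp (m3.comp (m2.comp m1))
  have : Phi w e f = (Prod.map id (MeasurableEquiv.finTwoArrow (α := ℝ))) ∘
      ((MeasurableEquiv.piFinSuccAbove (fun _ : Fin 3 => ℝ) 0) ∘
        ((MeasurableEquiv.toLp 2 (Fin 3 → ℝ)).symm ∘ b.repr)) := by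
    funext x
    simp only [Phi, Function.comp, ← h0, ← h1, ← h2]
    refine Prod.ext ?_ (Prod.ext ?_ ?_)
    · simp [MeasurableEquiv.piFinSuccAbove, b.repr_apply_apply]
    · simp [MeasurableEquiv.piFinSuccAbove, MeasurableEquiv.finTwoArrow]
      rw [← b.repr_apply_apply]; rfl
    · simp [MeasurableEquiv.piFinSuccAbove, MeasurableEquiv.finTwoArrow]
      rw [← b.repr_apply_apply]; rfl
  rw [this]
  exact m6

/-- the cone of height `k` in coordinates -/
def Cn (k : ℝ) (Z : Set (ℝ × ℝ)) : Set (ℝ × (ℝ × ℝ)) :=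
  {p | 0 < p.1 ∧ p.1 ≤ k ∧ p.1⁻¹ • p.2 ∈ Z}

theorem Cn_meas (k : ℝ) {Z : Set (ℝ × ℝ)} (hZ : MeasurableSet Z) : MeasurableSet (Cn k Z) := by
  refine (measurableSet_lt measurable_const measurable_fst).inter
    ((measurableSet_le measurable_fst measurable_const).inter ?_)
  exact (measurable_fst.inv.smul measurable_snd) hZ

theorem Cn_vol {k : ℝ} (hk : 0 ≤ k) {Z : Set (ℝ × ℝ)} (hZ : MeasurableSet Z) :
    MeasureTheory.volume (Cn k Z) = ENNReal.ofReal (k ^ 3 / 3) * MeasureTheory.volume Z := by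
  rw [MeasureTheory.Measure.volume_eq_prod, MeasureTheory.Measure.prod_apply (Cn_meas k hZ)]
  have h1 : ∀ t : ℝ, MeasureTheory.volume (Prod.mk t ⁻¹' Cn k Z) =
      (Set.Ioc 0 k).indicator (fun t => ENNReal.ofReal (t ^ 2) * MeasureTheory.volume Z) t := by
    intro t
    by_cases ht : t ∈ Set.Ioc 0 k
    · rw [Set.indicator_of_mem ht]
      have : Prod.mk t ⁻¹' Cn k Z = (fun y : ℝ × ℝ => t⁻¹ • y) ⁻¹' Z := by
        ext y
        exact ⟨fun h => h.2.2, fun h => ⟨ht.1, ht.2, h⟩⟩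
      rw [this, MeasureTheory.Measure.addHaar_preimage_smul _ (inv_ne_zero ht.1.ne')]
      congr 2
      have hfr : Module.finrank ℝ (ℝ × ℝ) = 2 := by simp
      rw [hfr, inv_pow, inv_inv, abs_of_nonneg (by positivity)]
    · rw [Set.indicator_of_notMem ht]
      have : Prod.mk t ⁻¹' Cn k Z = ∅ := by
        ext y
        exact ⟨fun h => ht ⟨h.1, h.2.1⟩, fun h => absurd h (Set.notMem_empty _)⟩
      rw [this, MeasureTheory.measure_empty]
  simp_rw [h1]
  rw [MeasureTheory.lintegral_indicator measurableSet_Ioc,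
    MeasureTheory.lintegral_mul_const _ (by fun_prop)]
  congr 1
  rw [← MeasureTheory.ofReal_integral_eq_lintegral_ofReal, ← intervalIntegral.integral_of_le hk,
    integral_pow]
  · norm_num
  · exact ((continuous_pow 2).integrableOn_Icc).mono_set Set.Ioc_subset_Icc_self
  · exact Filter.Eventually.of_forall fun t => by positivity

theorem pl_norm_sq {w e f : E3} (h : ON w e f) (z : ℝ × ℝ) :
    ‖pl w e f z‖ ^ 2 = 1 + (z.1 ^ 2 + z.2 ^ 2) := by
  have hwe : inner ℝ w e = 0 := h.we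
  have hwf : inner ℝ w f = 0 := h.wf
  have hef : inner ℝ e f = 0 := h.ef
  have h1' : inner ℝ e w = 0 := by rw [real_inner_comm]; exact hwe
  have h2' : inner ℝ f w = 0 := by rw [real_inner_comm]; exact hwf
  have h3' : inner ℝ f e = 0 := by rw [real_inner_comm]; exact hef
  have hw : inner ℝ w w = (1 : ℝ) := by rw [real_inner_self_eq_norm_sq, h.w1]; norm_num
  have he : inner ℝ e e = (1 : ℝ) := by rw [real_inner_self_eq_norm_sq, h.e1]; norm_num
  have hf : inner ℝ f f = (1 : ℝ) := by rw [real_inner_self_eq_norm_sq, h.f1]; norm_num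
  rw [← real_inner_self_eq_norm_sq]
  simp only [pl, inner_add_left, inner_add_right, real_inner_smul_left, real_inner_smul_right,
    hwe, hwf, hef, h1', h2', h3', hw, he, hf]
  ring

theorem Phi_pl {w e f : E3} (h : ON w e f) (r : ℝ) (z : ℝ × ℝ) :
    Phi w e f (r • pl w e f z) = (r, r • z) := by
  have hwe : inner ℝ w e = 0 := h.we
  have hwf : inner ℝ w f = 0 := h.wf
  have hef : inner ℝ e f = 0 := h.ef
  have h1' : inner ℝ e w = 0 := by rw [real_inner_comm]; exact hwe
  have h2' : inner ℝ f w = 0 := by rw [real_inner_comm]; exact hwf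
  have h3' : inner ℝ f e = 0 := by rw [real_inner_comm]; exact hef
  have hw : inner ℝ w w = (1 : ℝ) := by rw [real_inner_self_eq_norm_sq, h.w1]; norm_num
  have he : inner ℝ e e = (1 : ℝ) := by rw [real_inner_self_eq_norm_sq, h.e1]; norm_num
  have hf : inner ℝ f f = (1 : ℝ) := by rw [real_inner_self_eq_norm_sq, h.f1]; norm_num
  refine Prod.ext ?_ (Prod.ext ?_ ?_) <;>
  simp only [Phi, pl, inner_add_left, inner_add_right, real_inner_smul_left,
    real_inner_smul_right, hwe, hwf, hef, h1', h2', h3', hw, he, hf, Prod.smul_fst,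
    Prod.smul_snd, smul_eq_mul] <;> ring

theorem eq_of_Phi {w e f : E3} (h : ON w e f) {x : E3} (hx : 0 < (Phi w e f x).1) :
    x = (Phi w e f x).1 • pl w e f ((Phi w e f x).1⁻¹ • (Phi w e f x).2) := by
  obtain ⟨b, h0, h1, h2⟩ := h.exists_basis
  have hs := b.sum_repr' x
  rw [Fin.sum_univ_three, h0, h1, h2] at hs
  have hx' : inner ℝ w x ≠ 0 := hx.ne'
  conv_lhs => rw [← hs]
  simp only [Phi, pl, smul_add, smul_smul, Prod.smul_fst, Prod.smul_snd, smul_eq_mul]
  rw [mul_inv_cancel_left₀ hx', mul_inv_cancel_left₀ hx']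

theorem sec_subset {w e f : E3} (h : ON w e f) (Z : Set (ℝ × ℝ)) :
    sec w e f Z ⊆ {0} ∪ Phi w e f ⁻¹' Cn 1 Z := by
  rintro x ⟨hx, r, hr, z, hz, rfl⟩
  rcases hr.eq_or_lt with rfl | hr
  · left; simp
  · right
    rw [Set.mem_preimage, Phi_pl h]
    refine ⟨hr, ?_, ?_⟩
    · have h1 : 1 ≤ ‖pl w e f z‖ := by
        have := pl_norm_sq h z
        nlinarith [norm_nonneg (pl w e f z), sq_nonneg z.1, sq_nonneg z.2]
      rw [norm_smul, Real.norm_of_nonneg hr.le] at hx
      show r ≤ 1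
      nlinarith
    · show r⁻¹ • (r • z) ∈ Z
      rw [inv_smul_smul₀ hr.ne']
      exact hz

theorem vol_sec_le {w e f : E3} (h : ON w e f) {Z : Set (ℝ × ℝ)} (hZ : MeasurableSet Z) :
    MeasureTheory.volume (sec w e f Z) ≤ MeasureTheory.volume Z / 3 := by
  refine (MeasureTheory.measure_mono (sec_subset h Z)).trans ?_
  refine (MeasureTheory.measure_union_le _ _).trans ?_
  rw [(Phi_mp h).measure_preimage (Cn_meas 1 hZ).nullMeasurableSet, Cn_vol zero_le_one hZ,
    MeasureTheory.measure_singleton, zero_add, ENNReal.div_eq_inv_mul]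
  gcongr
  rw [one_pow, one_div, ENNReal.ofReal_inv_of_pos (by norm_num)]
  simp

theorem le_vol_sec {w e f : E3} (h : ON w e f) {Z : Set (ℝ × ℝ)} (hZ : MeasurableSet Z)
    {s : ℝ} (hs : 0 ≤ s) (hs' : s ≤ 1 / 10) (hb : ∀ z ∈ Z, z.1 ^ 2 + z.2 ^ 2 ≤ 4 * s ^ 2) :
    MeasureTheory.volume Z ≤
      3 * ENNReal.ofReal (1 + 7 * s ^ 2) * MeasureTheory.volume (sec w e f Z) := by
  set q : ℝ := Real.sqrt (1 + 4 * s ^ 2) with hq
  have hq0 : 0 < q := Real.sqrt_pos.2 (by positivity)
  have hq2 : q ^ 2 = 1 + 4 * s ^ 2 := Real.sq_sqrt (by positivity)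
  have hsub : Phi w e f ⁻¹' Cn q⁻¹ Z ⊆ sec w e f Z := by
    intro x hx
    obtain ⟨h1, h2, h3⟩ := hx
    have hxe := eq_of_Phi h h1
    refine ⟨?_, _, h1.le, _, h3, hxe⟩
    rw [hxe, norm_smul, Real.norm_of_nonneg h1.le]
    have h4 : ‖pl w e f ((Phi w e f x).1⁻¹ • (Phi w e f x).2)‖ ≤ q := by
      refine Real.le_sqrt_of_sq_le ?_
      rw [pl_norm_sq h]
      have := hb _ h3
      linarith
    calc (Phi w e f x).1 * ‖pl w e f ((Phi w e f x).1⁻¹ • (Phi w e f x).2)‖ ≤ q⁻¹ * q := by gcongr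
      _ = 1 := inv_mul_cancel₀ hq0.ne'
  have hv := MeasureTheory.measure_mono (μ := MeasureTheory.volume) hsub
  rw [(Phi_mp h).measure_preimage (Cn_meas _ hZ).nullMeasurableSet,
    Cn_vol (inv_nonneg.2 hq0.le) hZ] at hv
  have hle : 1 ≤ 3 * (1 + 7 * s ^ 2) * (q⁻¹ ^ 3 / 3) := by
    have hq3 : q ^ 3 ≤ 1 + 7 * s ^ 2 := by
      have h1 : (q ^ 3) ^ 2 ≤ (1 + 7 * s ^ 2) ^ 2 := by
        have : (q ^ 3) ^ 2 = (q ^ 2) ^ 3 := by ring
        rw [this, hq2]
        have hs2 : s ^ 2 ≤ 1 / 100 := by nlinarith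
        nlinarith [sq_nonneg s, mul_nonneg (sq_nonneg s) (sub_nonneg.2 hs2),
          mul_nonneg (mul_nonneg (sq_nonneg s) (sq_nonneg s)) (sub_nonneg.2 hs2)]
      exact le_of_sq_le_sq h1 (by positivity)
    have : 3 * (1 + 7 * s ^ 2) * (q⁻¹ ^ 3 / 3) = (1 + 7 * s ^ 2) / q ^ 3 := by
      rw [inv_pow]; ring
    rw [this, le_div_iff₀ (by positivity)]
    linarith
  calc MeasureTheory.volume Z = ENNReal.ofReal 1 * MeasureTheory.volume Z := by simp
    _ ≤ ENNReal.ofReal (3 * (1 + 7 * s ^ 2) * (q⁻¹ ^ 3 / 3)) * MeasureTheory.volume Z := by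
        gcongr
    _ = 3 * ENNReal.ofReal (1 + 7 * s ^ 2) *
          (ENNReal.ofReal (q⁻¹ ^ 3 / 3) * MeasureTheory.volume Z) := by
        rw [ENNReal.ofReal_mul (by positivity), ENNReal.ofReal_mul (by norm_num)]
        simp only [ENNReal.ofReal_ofNat, mul_assoc]
    _ ≤ _ := by gcongr

theorem sec_measurable {w e f : E3} (h : ON w e f) {Z : Set (ℝ × ℝ)} (hZ : MeasurableSet Z)  :
    MeasureTheory.NullMeasurableSet (sec w e f Z) MeasureTheory.volume := by
  set A : Set E3 := Metric.closedBall 0 1 ∩ Phi w e f ⁻¹' {p | 0 < p.1 ∧ p.1⁻¹ • p.2 ∈ Z} with hA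
  have hAm : MeasurableSet A := by
    refine Metric.isClosed_closedBall.measurableSet.inter ((Phi_mp h).measurable ?_)
    exact (measurableSet_lt measurable_const measurable_fst).inter
      ((measurable_fst.inv.smul measurable_snd) hZ)
  have h1 : A ⊆ sec w e f Z := by
    rintro x ⟨hx, h1, h3⟩
    exact ⟨by simpa using hx, _, h1.le, _, h3, eq_of_Phi h h1⟩
  have h2 : sec w e f Z ⊆ A ∪ {0} := by
    rintro x ⟨hx, r, hr, z, hz, rfl⟩
    rcases hr.eq_or_lt with rfl | hr
    · right; simp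
    · left
      refine ⟨by simpa using hx, ?_⟩
      rw [Set.mem_preimage, Phi_pl h]
      refine ⟨hr, ?_⟩
      show r⁻¹ • (r • z) ∈ Z
      rw [inv_smul_smul₀ hr.ne']
      exact hz
  refine hAm.nullMeasurableSet.congr (Filter.EventuallyLE.antisymm h1.eventuallyLE ?_)
  refine Filter.EventuallyLE.trans h2.eventuallyLE ?_
  have : ∀ᵐ x ∂(MeasureTheory.volume : MeasureTheory.Measure E3), x ∉ ({0} : Set E3) :=
    MeasureTheory.measure_eq_zero_iff_ae_notMem.1 (MeasureTheory.measure_singleton _)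
  filter_upwards [this] with x hx hx'
  rcases hx' with hx' | hx'
  · exact hx'
  · exact absurd hx' hx

theorem exists_ON {w : E3} (hw : ‖w‖ = 1) : ∃ e f : E3, ON w e f := by
  have hon : Orthonormal ℝ ((fun x : ({0} : Set (Fin 3)) => (fun _ : Fin 3 => w) x.1)) := by
    rw [orthonormal_iff_ite]
    rintro ⟨i, hi⟩ ⟨j, hj⟩
    simp only [Set.mem_singleton_iff] at hi hj
    subst hi; subst hj
    simp [hw]
  obtain ⟨b, hb⟩ := Orthonormal.exists_orthonormalBasis_extension_of_card_eq (𝕜 := ℝ) (E := E3)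
    (ι := Fin 3) (by simp) (v := fun _ => w) (s := {0}) hon
  have h0 : b 0 = w := hb 0 (Set.mem_singleton _)
  refine ⟨b 1, b 2, hw, b.orthonormal.1 1, b.orthonormal.1 2, ?_, ?_, ?_⟩
  · rw [← h0]; exact b.orthonormal.2 (by decide)
  · rw [← h0]; exact b.orthonormal.2 (by decide)
  · exact b.orthonormal.2 (by decide)

end Pool.Agent.Helper320.Gold.NK0
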