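import Mathlib
import Pool.Agent.Helper320.GBaseA
import Pool.Agent.Helper320.GK0
import Pool.Agent.Helper320.GK1
import Pool.Agent.Helper320.GB2

set_option autoImplicit false
open Set

namespace Pool.Agent.Helper320.Gold.NB3

open Pool.Agent.Helper320.Gold Pool.Agent.Helper320.Gold.NK0 Pool.Agent.Helper320.Gold.NK1 Pool.Agent.Helper320.Gold.NB2

theorem ON_expand {w e f : E3} (h : ON w e f) (x : E3) :
    x = (inner ℝ x w) • w + (inner ℝ x e) • e + (inner ℝ x f) • f := by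
  have hort : Orthonormal ℝ ![w, e, f] := by
    rw [orthonormal_iff_ite]
    intro i j
    have h1 := h.w1
    have h2 := h.e1
    have h3 := h.f1
    have h4 := h.we
    have h5 := h.wf
    have h6 := h.ef
    have h4' : inner ℝ e w = (0:ℝ) := by rw [real_inner_comm]; exact h4
    have h5' : inner ℝ f w = (0:ℝ) := by rw [real_inner_comm]; exact h5
    have h6' : inner ℝ f e = (0:ℝ) := by rw [real_inner_comm]; exact h6
    have g1 : inner ℝ w w = (1:ℝ) := by rw [real_inner_self_eq_norm_sq, h1]; norm_num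
    have g2 : inner ℝ e e = (1:ℝ) := by rw [real_inner_self_eq_norm_sq, h2]; norm_num
    have g3 : inner ℝ f f = (1:ℝ) := by rw [real_inner_self_eq_norm_sq, h3]; norm_num
    fin_cases i <;> fin_cases j <;> simp [h4, h5, h6, h4', h5', h6', h1, h2, h3]
  have hcard : Fintype.card (Fin 3) = Module.finrank ℝ E3 := by simp
  let b := basisOfOrthonormalOfCardEqFinrank hort hcard
  have hb : (b : Fin 3 → E3) = ![w, e, f] := coe_basisOfOrthonormalOfCardEqFinrank hort hcard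
  have hbo : Orthonormal ℝ b := by rw [hb]; exact hort
  let ob := b.toOrthonormalBasis hbo
  have hob : (ob : Fin 3 → E3) = ![w, e, f] := by
    rw [Module.Basis.coe_toOrthonormalBasis]; exact hb
  have := ob.sum_repr' x
  rw [Fin.sum_univ_three] at this
  rw [hob] at this
  simp only [Matrix.cons_val_zero, Matrix.cons_val_one, Matrix.cons_val] at this
  rw [real_inner_comm w x, real_inner_comm e x, real_inner_comm f x]
  exact this.symm

theorem inner_pl_w {w e f : E3} (h : ON w e f) (z : ℝ × ℝ) : inner ℝ (pl w e f z) w = (1:ℝ) := by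
  unfold pl
  rw [inner_add_left, inner_add_left, real_inner_smul_left, real_inner_smul_left,
    real_inner_self_eq_norm_sq, h.w1, real_inner_comm w e, real_inner_comm w f, h.we, h.wf]
  norm_num

theorem norm_pl_sq {w e f : E3} (h : ON w e f) (z : ℝ × ℝ) :
    ‖pl w e f z‖ ^ 2 = 1 + z.1 ^ 2 + z.2 ^ 2 := by
  have h4' : inner ℝ e w = (0:ℝ) := by rw [real_inner_comm]; exact h.we
  have h5' : inner ℝ f w = (0:ℝ) := by rw [real_inner_comm]; exact h.wf
  have h6' : inner ℝ f e = (0:ℝ) := by rw [real_inner_comm]; exact h.ef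
  have g1 : inner ℝ w w = (1:ℝ) := by rw [real_inner_self_eq_norm_sq, h.w1]; norm_num
  have g2 : inner ℝ e e = (1:ℝ) := by rw [real_inner_self_eq_norm_sq, h.e1]; norm_num
  have g3 : inner ℝ f f = (1:ℝ) := by rw [real_inner_self_eq_norm_sq, h.f1]; norm_num
  rw [← real_inner_self_eq_norm_sq]
  unfold pl
  simp only [inner_add_left, inner_add_right, real_inner_smul_left, real_inner_smul_right,
    h4', h5', h6', g1, g2, g3, h.we, h.wf, h.ef]
  ring

theorem norm_pl_ge {w e f : E3} (h : ON w e f) (z : ℝ × ℝ) : 1 ≤ ‖pl w e f z‖ := by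
  have := norm_pl_sq h z
  have h0 := norm_nonneg (pl w e f z)
  nlinarith [sq_nonneg z.1, sq_nonneg z.2]

theorem continuous_pl (w e f : E3) : Continuous (pl w e f) := by
  unfold pl
  fun_prop

/-- the cell -/
def cell (W : Finset E3) (w e f : E3) : Set (ℝ × ℝ) :=
  {z | ∀ w' ∈ W, inner ℝ (pl w e f z) w' ≤ (1:ℝ)}

theorem cell_closed (W : Finset E3) (w e f : E3) : IsClosed (cell W w e f) := by
  have : cell W w e f = ⋂ w' ∈ W, {z | inner ℝ (pl w e f z) w' ≤ (1:ℝ)} := by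
    ext z; simp [cell]
  rw [this]
  refine isClosed_biInter ?_
  intro w' _
  exact isClosed_le ((continuous_pl w e f).inner continuous_const) continuous_const

theorem cell_convex (W : Finset E3) (w e f : E3) : Convex ℝ (cell W w e f) := by
  intro x hx y hy a b ha hb hab w' hw'
  have h1 := hx w' hw'
  have h2 := hy w' hw'
  have : pl w e f (a • x + b • y) = a • pl w e f x + b • pl w e f y := by
    unfold pl
    simp only [Prod.fst_add, Prod.smul_fst, Prod.snd_add, Prod.smul_snd, smul_eq_mul, smul_add,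
      add_smul, mul_smul]
    have hw : w = a • w + b • w := by rw [← add_smul, hab, one_smul]
    nth_rewrite 1 [hw]
    abel
  rw [this, inner_add_left, real_inner_smul_left, real_inner_smul_left]
  nlinarith

theorem inner_unit {x y : E3} (hx : ‖x‖ = 1) (hy : ‖y‖ = 1) :
    inner ℝ x y = (1:ℝ) - ‖x - y‖ ^ 2 / 2 := by
  have := norm_sub_sq_real x y
  rw [hx, hy] at this
  linarith

theorem cell_in {W : Finset E3} (hW1 : ∀ w ∈ W, ‖w‖ = 1) {s : ℝ} (hs : 0 < s)
    (hsep : ∀ w ∈ W, ∀ w' ∈ W, w ≠ w' → s ≤ ‖w - w'‖)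
    {w e f : E3} (hw : w ∈ W) (h : ON w e f) (z : ℝ × ℝ) (hz : z.1 ^ 2 + z.2 ^ 2 < (s / 4) ^ 2) :
    z ∈ cell W w e f := by
  intro w' hw'
  by_cases hww : w = w'
  · subst hww
    rw [inner_pl_w h]
  · have hd := hsep w hw w' hw' hww
    set v : E3 := z.1 • e + z.2 • f with hv
    have hpl : pl w e f z = w + v := by rw [hv]; unfold pl; abel
    have h4' : inner ℝ e w = (0:ℝ) := by rw [real_inner_comm]; exact h.we
    have h5' : inner ℝ f w = (0:ℝ) := by rw [real_inner_comm]; exact h.wf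
    have h6' : inner ℝ f e = (0:ℝ) := by rw [real_inner_comm]; exact h.ef
    have g2 : inner ℝ e e = (1:ℝ) := by rw [real_inner_self_eq_norm_sq, h.e1]; norm_num
    have g3 : inner ℝ f f = (1:ℝ) := by rw [real_inner_self_eq_norm_sq, h.f1]; norm_num
    have hvw : inner ℝ v w = (0:ℝ) := by
      rw [hv, inner_add_left, real_inner_smul_left, real_inner_smul_left, h4', h5']; ring
    have hvn : ‖v‖ ^ 2 = z.1 ^ 2 + z.2 ^ 2 := by
      rw [← real_inner_self_eq_norm_sq, hv]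
      simp only [inner_add_left, inner_add_right, real_inner_smul_left, real_inner_smul_right,
        h6', g2, g3, h.ef]
      ring
    have hv2 : ‖v‖ < s / 4 := by
      refine lt_of_pow_lt_pow_left₀ 2 (by positivity) ?_
      rw [hvn]; exact hz
    have hvw' : inner ℝ v w' ≤ ‖v‖ * ‖w - w'‖ := by
      have h1 : inner ℝ v w' = inner ℝ v (w' - w) := by
        rw [inner_sub_right, hvw]; ring
      rw [h1]
      calc inner ℝ v (w' - w) ≤ ‖v‖ * ‖w' - w‖ := real_inner_le_norm _ _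
        _ = ‖v‖ * ‖w - w'‖ := by rw [norm_sub_rev]
    rw [hpl, inner_add_left, inner_unit (hW1 w hw) (hW1 w' hw')]
    have hvnn := norm_nonneg v
    have hdn := norm_nonneg (w - w')
    nlinarith

theorem cell_out {W : Finset E3} (hW1 : ∀ w ∈ W, ‖w‖ = 1) {s : ℝ} (hs : 0 < s)
    (hs1 : s ≤ 1 / 100)
    (hden : ∀ a : E3, ‖a‖ = 1 → ∃ w ∈ W, ‖a - w‖ < s)
    {w e f : E3} (h : ON w e f) (z : ℝ × ℝ) (hz : z ∈ cell W w e f) :
    z.1 ^ 2 + z.2 ^ 2 ≤ 4 * s ^ 2 := by
  set p := pl w e f z with hp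
  have hp1 : 1 ≤ ‖p‖ := norm_pl_ge h z
  have hpsq : ‖p‖ ^ 2 = 1 + z.1 ^ 2 + z.2 ^ 2 := norm_pl_sq h z
  have hy1 : ‖(‖p‖⁻¹) • p‖ = 1 := by
    rw [norm_smul, norm_inv, norm_norm]
    exact inv_mul_cancel₀ (by linarith)
  obtain ⟨w', hw', hd⟩ := hden _ hy1
  have h1 := inner_unit hy1 (hW1 w' hw')
  have h2 : inner ℝ p w' ≤ (1:ℝ) := hz w' hw'
  rw [real_inner_smul_left] at h1
  have h3 : ‖(‖p‖⁻¹) • p - w'‖ ^ 2 < s ^ 2 := by
    have := norm_nonneg ((‖p‖⁻¹) • p - w')
    nlinarith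
  have h4 : inner ℝ p w' = ‖p‖ * (1 - ‖(‖p‖⁻¹) • p - w'‖ ^ 2 / 2) := by
    rw [← h1]; field_simp
  have h5 : ‖p‖ * (1 - s ^ 2 / 2) ≤ 1 := by
    have : ‖p‖ * (1 - s ^ 2 / 2) ≤ ‖p‖ * (1 - ‖(‖p‖⁻¹) • p - w'‖ ^ 2 / 2) := by
      apply mul_le_mul_of_nonneg_left _ (by linarith)
      linarith
    linarith
  -- ‖p‖ ≤ 1 + s^2
  have hs2 : s ^ 2 ≤ 1 / 10000 := by nlinarith
  have h6 : ‖p‖ ≤ 1 + s ^ 2 := by
    by_contra hcon
    push Not at hcon
    nlinarith [sq_nonneg s]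
  have h7 : ‖p‖ ^ 2 ≤ (1 + s ^ 2) ^ 2 := by
    apply pow_le_pow_left₀ (by linarith) h6
  nlinarith [sq_nonneg s]

theorem sec_cover {W : Finset E3} (hW1 : ∀ w ∈ W, ‖w‖ = 1) {s : ℝ} (hs : 0 < s)
    (hs1 : s ≤ 1 / 100)
    (hden : ∀ a : E3, ‖a‖ = 1 → ∃ w ∈ W, ‖a - w‖ < s)
    (e f : E3 → E3) (hON : ∀ w ∈ W, ON w (e w) (f w)) (x : E3) (hx : ‖x‖ ≤ 1) :
    ∃ w ∈ W, x ∈ sec w (e w) (f w) (cell W w (e w) (f w)) := by
  by_cases hx0 : x = 0
  · subst hx0
    obtain ⟨a, ha⟩ : ∃ a : E3, ‖a‖ = 1 := ⟨EuclideanSpace.single 0 1, by simp⟩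
    obtain ⟨w, hw, -⟩ := hden a ha
    refine ⟨w, hw, by simp, 0, le_refl _, 0, ?_, by simp⟩
    intro w' hw'
    have : pl w (e w) (f w) 0 = w := by simp [pl]
    rw [this]
    calc inner ℝ w w' ≤ ‖w‖ * ‖w'‖ := real_inner_le_norm _ _
      _ = 1 := by rw [hW1 w hw, hW1 w' hw']; norm_num
  · have hxn : 0 < ‖x‖ := norm_pos_iff.mpr hx0
    have hy1 : ‖(‖x‖⁻¹) • x‖ = 1 := by
      rw [norm_smul, norm_inv, norm_norm]
      exact inv_mul_cancel₀ (by linarith)
    obtain ⟨w0, hw0, hd0⟩ := hden _ hy1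
    obtain ⟨w, hw, hmax⟩ := W.exists_max_image (fun w => inner ℝ x w) ⟨w0, hw0⟩
    have h1 := inner_unit hy1 (hW1 w0 hw0)
    rw [real_inner_smul_left] at h1
    have h3 : ‖(‖x‖⁻¹) • x - w0‖ ^ 2 < s ^ 2 := by
      have := norm_nonneg ((‖x‖⁻¹) • x - w0)
      nlinarith
    have hs2 : s ^ 2 ≤ 1 / 10000 := by nlinarith
    have h2 : 0 < ‖x‖⁻¹ * inner ℝ x w0 := by rw [h1]; nlinarith
    have h4 : 0 < inner ℝ x w0 := by
      have := inv_pos.mpr hxn
      exact (mul_pos_iff_of_pos_left this).mp h2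
    have h5 : 0 < inner ℝ x w := lt_of_lt_of_le h4 (hmax w0 hw0)
    set r : ℝ := inner ℝ x w with hr
    have hxpl : x = r • pl w (e w) (f w) (inner ℝ x (e w) / r, inner ℝ x (f w) / r) := by
      have := ON_expand (hON w hw) x
      rw [← hr] at this
      unfold pl
      rw [smul_add, smul_add, smul_smul, smul_smul]
      simp only
      rw [mul_div_cancel₀ _ h5.ne', mul_div_cancel₀ _ h5.ne']
      exact this
    refine ⟨w, hw, hx, r, h5.le, (inner ℝ x (e w) / r, inner ℝ x (f w) / r), ?_, hxpl⟩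
    intro w' hw'
    have h6 := hmax w' hw'
    try rw [← hr] at h6
    rw [hxpl, real_inner_smul_left] at h6
    have : r * inner ℝ (pl w (e w) (f w) (inner ℝ x (e w) / r, inner ℝ x (f w) / r)) w' ≤ r * 1 := by
      rw [mul_one]
      exact h6
    exact le_of_mul_le_mul_left this h5

theorem sec_inner {W : Finset E3} {w w' : E3} (e f : E3) (hw : ON w e f) (hw' : w' ∈ W)
    {x : E3} (hx : x ∈ sec w e f (cell W w e f)) : inner ℝ x w' ≤ (inner ℝ x w : ℝ) := by
  obtain ⟨-, r, hr, z, hz, rfl⟩ := hx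
  rw [real_inner_smul_left, real_inner_smul_left, inner_pl_w hw]
  exact mul_le_mul_of_nonneg_left (hz w' hw') hr

theorem sec_disj {W : Finset E3} (e f : E3 → E3) (hON : ∀ w ∈ W, ON w (e w) (f w))
    {w w' : E3} (hw : w ∈ W) (hw' : w' ∈ W) (hne : w ≠ w') :
    MeasureTheory.AEDisjoint MeasureTheory.volume
      (sec w (e w) (f w) (cell W w (e w) (f w)))
      (sec w' (e w') (f w') (cell W w' (e w') (f w'))) := by
  have hsub : sec w (e w) (f w) (cell W w (e w) (f w)) ∩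
      sec w' (e w') (f w') (cell W w' (e w') (f w')) ⊆
      ((LinearMap.ker (innerSL ℝ (w - w')).toLinearMap : Submodule ℝ E3) : Set E3) := by
    intro x hx
    have h1 := sec_inner (e w) (f w) (hON w hw) hw' hx.1
    have h2 := sec_inner (e w') (f w') (hON w' hw') hw hx.2
    have h3 : inner ℝ x w = (inner ℝ x w' : ℝ) := le_antisymm h2 h1
    simp only [SetLike.mem_coe, LinearMap.mem_ker, ContinuousLinearMap.coe_coe, innerSL_apply_apply]
    rw [real_inner_comm, inner_sub_right]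
    linarith
  have hne' : (LinearMap.ker (innerSL ℝ (w - w')).toLinearMap : Submodule ℝ E3) ≠ ⊤ := by
    intro htop
    have : (w - w') ∈ (LinearMap.ker (innerSL ℝ (w - w')).toLinearMap : Submodule ℝ E3) := by
      rw [htop]; trivial
    simp only [LinearMap.mem_ker, ContinuousLinearMap.coe_coe, innerSL_apply_apply] at this
    rw [inner_self_eq_zero] at this
    exact hne (sub_eq_zero.mp this)
  exact MeasureTheory.measure_mono_null hsub
    (MeasureTheory.Measure.addHaar_submodule MeasureTheory.volume _ hne')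

theorem vol_ball : MeasureTheory.volume (Metric.closedBall (0 : E3) 1) =
    ENNReal.ofReal (4 * Real.pi / 3) := by
  rw [EuclideanSpace.volume_closedBall_fin_three]
  simp only [ENNReal.ofReal_one, one_pow, one_mul]
  congr 1
  ring

theorem sec_union {W : Finset E3} (hW1 : ∀ w ∈ W, ‖w‖ = 1) {s : ℝ} (hs : 0 < s)
    (hs1 : s ≤ 1 / 100)
    (hden : ∀ a : E3, ‖a‖ = 1 → ∃ w ∈ W, ‖a - w‖ < s)
    (e f : E3 → E3) (hON : ∀ w ∈ W, ON w (e w) (f w)) :
    (⋃ w ∈ W, sec w (e w) (f w) (cell W w (e w) (f w))) = Metric.closedBall (0 : E3) 1 := by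
  ext x
  simp only [mem_iUnion, mem_closedBall_zero_iff, exists_prop]
  constructor
  · rintro ⟨w, hw, hx⟩
    exact hx.1
  · intro hx
    exact sec_cover hW1 hs hs1 hden e f hON x hx

theorem polar_closed (Y : Finset E3) : IsClosed (polar Y) := by
  have : polar Y = ⋂ u ∈ Y, {x | inner ℝ x u ≤ (1:ℝ)} := by
    ext z; simp [polar]
  rw [this]
  refine isClosed_biInter ?_
  intro w' _
  exact isClosed_le (continuous_id.inner continuous_const) continuous_const

theorem step1 : ∃ C1 : ℝ, 0 < C1 ∧ ∀ h : ℝ, 0 < h → h ≤ 1 / 10000 →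
    ∃ X : Finset E3, (∀ x ∈ X, ‖x‖ = 1) ∧
      (X.card : ℝ) * (√3 / 2 * h ^ 2) ≤ 4 * Real.pi * (1 + 7 * h) ∧
      (∀ a : E3, ‖a‖ = 1 → ∃ x ∈ X, ‖x - a‖ ≤ 18 * h) ∧
      ∀ Y : Finset E3, X ⊆ Y → (∀ x ∈ Y, ‖x‖ = 1) →
        (MeasureTheory.volume (polar Y)).toReal ≤
          4 * Real.pi / 3 + 5 * Real.pi / 18 * h ^ 2 * (1 + C1 * √h) := by
  refine ⟨120000, by norm_num, ?_⟩
  intro h hh hh1
  set s : ℝ := √h with hsdef
  have hs : 0 < s := Real.sqrt_pos.mpr hh
  have hs2 : s ^ 2 = h := Real.sq_sqrt hh.le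
  have hs1 : s ≤ 1 / 100 := by
    rw [hsdef]
    apply Real.sqrt_le_iff.mpr
    constructor
    · norm_num
    · norm_num; linarith
  have hs3 : 100 * h ≤ s := by nlinarith
  obtain ⟨W, hW1, hsep, hden⟩ := exists_net s hs
  have hex : ∀ w : E3, ∃ e f : E3, ‖w‖ = 1 → ON w e f := by
    intro w
    by_cases hw : ‖w‖ = 1
    · obtain ⟨e, f, hef⟩ := exists_ON hw
      exact ⟨e, f, fun _ => hef⟩
    · exact ⟨0, 0, fun h => absurd h hw⟩
  choose e f hON' using hex
  have hON : ∀ w ∈ W, ON w (e w) (f w) := fun w hw => hON' w (hW1 w hw)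
  set A : E3 → Set (ℝ × ℝ) := fun w => cell W w (e w) (f w) with hA
  have hAm : ∀ w, MeasurableSet (A w) := fun w => (cell_closed W w (e w) (f w)).measurableSet
  have hAc : ∀ w, Convex ℝ (A w) := fun w => cell_convex W w (e w) (f w)
  have hAin : ∀ w ∈ W, ∀ z : ℝ × ℝ, z.1 ^ 2 + z.2 ^ 2 < (s / 4) ^ 2 → z ∈ A w := fun w hw z hz =>
    cell_in hW1 hs hsep hw (hON w hw) z hz
  have hAout : ∀ w ∈ W, ∀ z ∈ A w, z.1 ^ 2 + z.2 ^ 2 ≤ 4 * s ^ 2 := fun w hw z hz =>
    cell_out hW1 hs hs1 hden (hON w hw) z hz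
  have hpatch : ∀ w : E3, ∃ X : Finset E3, w ∈ W → ((∀ x ∈ X, ‖x‖ = 1) ∧
      (X.card : ℝ) * (√3 / 2 * h ^ 2) ≤ (MeasureTheory.volume (A w)).toReal ∧
      (∀ z ∈ A w, ∃ x ∈ X, ‖x - nrm (pl w (e w) (f w) z)‖ ≤ 18 * h) ∧
      ∀ K : Set E3, MeasurableSet K → (∀ x ∈ K, ∀ u ∈ X, inner ℝ x u ≤ (1:ℝ)) →
        K ⊆ Metric.closedBall 0 (1 + 400 * h ^ 2) →
        (MeasureTheory.volume (con w (e w) (f w) (A w) ∩ (K \ Metric.closedBall 0 1))).toReal ≤
          5 / 72 * h ^ 2 * (1 + 2 * h ^ 2) * (MeasureTheory.volume (A w)).toReal +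
            8000 * (h ^ 3 / s) * (MeasureTheory.volume (A w)).toReal) := by
    intro w
    by_cases hw : w ∈ W
    · obtain ⟨X, hX⟩ := exists_patchA (hON w hw) hh hs3 hs1 (A w) (hAm w) (hAc w) (hAin w hw)
        (hAout w hw)
      exact ⟨X, fun _ => hX⟩
    · exact ⟨∅, fun h => absurd h hw⟩
  choose X hX using hpatch
  -- volumes
  have hdisj : Set.Pairwise (↑W : Set E3) (Function.onFun (MeasureTheory.AEDisjoint MeasureTheory.volume)
      (fun w => sec w (e w) (f w) (A w))) := by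
    intro w hw w' hw' hne
    exact sec_disj e f hON hw hw' hne
  have hnull : ∀ w ∈ W, MeasureTheory.NullMeasurableSet (sec w (e w) (f w) (A w))
      MeasureTheory.volume := fun w hw => sec_measurable (hON w hw) (hAm w)
  have hsum := MeasureTheory.measure_biUnion_finset₀ hdisj hnull
  have hun : (⋃ w ∈ W, sec w (e w) (f w) (A w)) = Metric.closedBall (0 : E3) 1 :=
    sec_union hW1 hs hs1 hden e f hON
  rw [hun, vol_ball] at hsum
  have hpi := Real.pi_pos
  have hsecfin : ∀ w ∈ W, MeasureTheory.volume (sec w (e w) (f w) (A w)) ≠ ⊤ := by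
    intro w hw
    have h1 : MeasureTheory.volume (sec w (e w) (f w) (A w)) ≤
        MeasureTheory.volume (Metric.closedBall (0 : E3) 1) := by
      apply MeasureTheory.measure_mono
      intro x hx
      rw [mem_closedBall_zero_iff]
      exact hx.1
    rw [vol_ball] at h1
    exact ne_top_of_le_ne_top ENNReal.ofReal_ne_top h1
  have hsumR : ∑ w ∈ W, (MeasureTheory.volume (sec w (e w) (f w) (A w))).toReal = 4 * Real.pi / 3 := by
    rw [← ENNReal.toReal_sum hsecfin, ← hsum, ENNReal.toReal_ofReal (by positivity)]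
  have hAle : ∀ w ∈ W, (MeasureTheory.volume (A w)).toReal ≤
      3 * (1 + 7 * h) * (MeasureTheory.volume (sec w (e w) (f w) (A w))).toReal := by
    intro w hw
    have h1 := le_vol_sec (hON w hw) (hAm w) hs.le (by linarith) (hAout w hw)
    have h2 : (MeasureTheory.volume (A w)).toReal ≤ (3 * ENNReal.ofReal (1 + 7 * s ^ 2) *
        MeasureTheory.volume (sec w (e w) (f w) (A w))).toReal := by
      apply ENNReal.toReal_mono _ h1
      exact ENNReal.mul_ne_top (ENNReal.mul_ne_top (by norm_num) ENNReal.ofReal_ne_top)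
        (hsecfin w hw)
    rw [ENNReal.toReal_mul, ENNReal.toReal_mul, ENNReal.toReal_ofReal (by positivity), hs2] at h2
    simpa using h2
  have hAsum : ∑ w ∈ W, (MeasureTheory.volume (A w)).toReal ≤ 4 * Real.pi * (1 + 7 * h) := by
    calc ∑ w ∈ W, (MeasureTheory.volume (A w)).toReal
        ≤ ∑ w ∈ W, 3 * (1 + 7 * h) * (MeasureTheory.volume (sec w (e w) (f w) (A w))).toReal :=
          Finset.sum_le_sum hAle
      _ = 3 * (1 + 7 * h) * (4 * Real.pi / 3) := by rw [← Finset.mul_sum, hsumR]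
      _ = 4 * Real.pi * (1 + 7 * h) := by ring
  classical
  have hcov : ∀ a : E3, ‖a‖ = 1 → ∃ x ∈ W.biUnion X, ‖x - a‖ ≤ 18 * h := by
    intro a ha
    obtain ⟨w, hw, hxw⟩ := sec_cover hW1 hs hs1 hden e f hON a ha.le
    obtain ⟨-, r, hr, z, hz, hza⟩ := hxw
    obtain ⟨x, hx, hxz⟩ := (hX w hw).2.2.1 z hz
    refine ⟨x, Finset.mem_biUnion.mpr ⟨w, hw, hx⟩, ?_⟩
    have hr0 : 0 < r := by
      rcases hr.lt_or_eq with h1 | h1
      · exact h1
      · exfalso
        rw [← h1, zero_smul] at hza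
        rw [hza, norm_zero] at ha
        norm_num at ha
    have : nrm (pl w (e w) (f w) z) = a := by
      have h1 : ‖a‖ = r * ‖pl w (e w) (f w) z‖ := by
        rw [hza, norm_smul, Real.norm_of_nonneg hr]
      rw [ha] at h1
      unfold nrm
      have h2 : ‖pl w (e w) (f w) z‖⁻¹ = r := by
        rw [eq_comm]
        exact eq_inv_of_mul_eq_one_left h1.symm
      rw [h2, hza]
    rw [this] at hxz
    exact hxz
  refine ⟨W.biUnion X, ?_, ?_, hcov, ?_⟩
  · intro x hx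
    rw [Finset.mem_biUnion] at hx
    obtain ⟨w, hw, hxw⟩ := hx
    exact (hX w hw).1 x hxw
  · have h1 : ((W.biUnion X).card : ℝ) ≤ ∑ w ∈ W, ((X w).card : ℝ) := by
      exact_mod_cast Finset.card_biUnion_le
    calc ((W.biUnion X).card : ℝ) * (√3 / 2 * h ^ 2)
        ≤ (∑ w ∈ W, ((X w).card : ℝ)) * (√3 / 2 * h ^ 2) :=
          mul_le_mul_of_nonneg_right h1 (by positivity)
      _ = ∑ w ∈ W, ((X w).card : ℝ) * (√3 / 2 * h ^ 2) := by rw [Finset.sum_mul]
      _ ≤ ∑ w ∈ W, (MeasureTheory.volume (A w)).toReal :=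
          Finset.sum_le_sum (fun w hw => (hX w hw).2.1)
      _ ≤ _ := hAsum
  · intro Y hXY hY
    set K : Set E3 := polar Y with hK
    have hKcl : IsClosed K := polar_closed Y
    have hKm : MeasurableSet K := hKcl.measurableSet
    have hh2 : h ^ 2 ≤ 1 / 10 ^ 8 := by nlinarith
    have hKball : K ⊆ Metric.closedBall (0 : E3) (1 + 400 * h ^ 2) := by
      intro x hx
      rw [mem_closedBall_zero_iff]
      by_cases hx0 : x = 0
      · rw [hx0, norm_zero]; positivity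
      · have hxn : 0 < ‖x‖ := norm_pos_iff.mpr hx0
        have hy1 : ‖(‖x‖⁻¹) • x‖ = 1 := by
          rw [norm_smul, norm_inv, norm_norm]
          exact inv_mul_cancel₀ (by linarith)
        obtain ⟨u, hu, hux⟩ := hcov _ hy1
        have huY : u ∈ Y := hXY hu
        have h1 := inner_unit hy1 (hY u huY)
        rw [real_inner_smul_left] at h1
        have h2 : inner ℝ x u ≤ (1:ℝ) := hx u huY
        have h3 : ‖(‖x‖⁻¹) • x - u‖ ^ 2 ≤ (18 * h) ^ 2 := by
          rw [norm_sub_rev]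
          exact pow_le_pow_left₀ (norm_nonneg _) hux 2
        have h4 : inner ℝ x u = ‖x‖ * (1 - ‖(‖x‖⁻¹) • x - u‖ ^ 2 / 2) := by
          rw [← h1]; field_simp
        have h5 : ‖x‖ * (1 - 162 * h ^ 2) ≤ 1 := by
          have : ‖x‖ * (1 - 162 * h ^ 2) ≤ ‖x‖ * (1 - ‖(‖x‖⁻¹) • x - u‖ ^ 2 / 2) := by
            apply mul_le_mul_of_nonneg_left _ hxn.le
            nlinarith
          linarith
        by_contra hcon
        have hcon' := not_le.1 hcon
        have h6 : (1 + 400 * h ^ 2) * (1 - 162 * h ^ 2) < ‖x‖ * (1 - 162 * h ^ 2) := by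
          apply mul_lt_mul_of_pos_right hcon'
          linarith
        nlinarith [sq_nonneg h]
    have hBK : Metric.closedBall (0 : E3) 1 ⊆ K := by
      intro x hx u hu
      rw [mem_closedBall_zero_iff] at hx
      calc inner ℝ x u ≤ ‖x‖ * ‖u‖ := real_inner_le_norm _ _
        _ = ‖x‖ := by rw [hY u hu, mul_one]
        _ ≤ 1 := hx
    have hloc : ∀ w ∈ W, (MeasureTheory.volume (con w (e w) (f w) (A w) ∩ (K \ Metric.closedBall 0 1))).toReal ≤
          5 / 72 * h ^ 2 * (1 + 2 * h ^ 2) * (MeasureTheory.volume (A w)).toReal +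
            8000 * (h ^ 3 / s) * (MeasureTheory.volume (A w)).toReal := by
      intro w hw
      apply (hX w hw).2.2.2 K hKm _ hKball
      intro x hx u hu
      exact hx u (hXY (Finset.mem_biUnion.mpr ⟨w, hw, hu⟩))
    have hKsub : K \ Metric.closedBall (0 : E3) 1 ⊆
        ⋃ w ∈ W, (con w (e w) (f w) (A w) ∩ (K \ Metric.closedBall 0 1)) := by
      intro x hx
      have hx1 : 1 < ‖x‖ := by
        have := hx.2
        rw [mem_closedBall_zero_iff] at this
        exact not_le.1 this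
      have hxn : 0 < ‖x‖ := by linarith
      have hy1 : ‖(‖x‖⁻¹) • x‖ = 1 := by
        rw [norm_smul, norm_inv, norm_norm]
        exact inv_mul_cancel₀ (by linarith)
      obtain ⟨w, hw, hxw⟩ := sec_cover hW1 hs hs1 hden e f hON _ hy1.le
      obtain ⟨-, r, hr, z, hz, hza⟩ := hxw
      simp only [mem_iUnion, exists_prop]
      refine ⟨w, hw, ⟨‖x‖ * r, by positivity, z, hz, ?_⟩, hx⟩
      rw [mul_smul, ← hza, smul_smul, mul_inv_cancel₀ hxn.ne', one_smul]
    have hdiff : MeasureTheory.volume (K \ Metric.closedBall (0 : E3) 1) ≤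
        ∑ w ∈ W, MeasureTheory.volume (con w (e w) (f w) (A w) ∩ (K \ Metric.closedBall 0 1)) :=
      (MeasureTheory.measure_mono hKsub).trans (MeasureTheory.measure_biUnion_finset_le W _)
    have hKfin : MeasureTheory.volume K ≠ ⊤ :=
      ne_top_of_le_ne_top (MeasureTheory.measure_closedBall_lt_top).ne (MeasureTheory.measure_mono hKball)
    have hdiffeq : (MeasureTheory.volume K).toReal =
        4 * Real.pi / 3 + (MeasureTheory.volume (K \ Metric.closedBall (0 : E3) 1)).toReal := by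
      have hm : MeasurableSet (Metric.closedBall (0 : E3) 1) := Metric.isClosed_closedBall.measurableSet
      have h1 := MeasureTheory.measure_inter_add_sdiff (μ := MeasureTheory.volume) K hm
      rw [inter_eq_self_of_subset_right hBK, vol_ball] at h1
      rw [← h1, ENNReal.toReal_add ENNReal.ofReal_ne_top, ENNReal.toReal_ofReal (by positivity)]
      exact ne_top_of_le_ne_top hKfin (MeasureTheory.measure_mono sdiff_subset)
    have hsdfin : ∀ w ∈ W, MeasureTheory.volume (con w (e w) (f w) (A w) ∩ (K \ Metric.closedBall 0 1)) ≠ ⊤ := by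
      intro w hw
      exact ne_top_of_le_ne_top hKfin (MeasureTheory.measure_mono (inter_subset_right.trans sdiff_subset))
    have hdR : (MeasureTheory.volume (K \ Metric.closedBall (0 : E3) 1)).toReal ≤
        ∑ w ∈ W, (MeasureTheory.volume (con w (e w) (f w) (A w) ∩ (K \ Metric.closedBall 0 1))).toReal := by
      rw [← ENNReal.toReal_sum hsdfin]
      apply ENNReal.toReal_mono _ hdiff
      exact (ENNReal.sum_ne_top.mpr hsdfin)
    have hfin : ∑ w ∈ W, (MeasureTheory.volume (con w (e w) (f w) (A w) ∩ (K \ Metric.closedBall 0 1))).toReal ≤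
        (5 / 72 * h ^ 2 * (1 + 2 * h ^ 2) + 8000 * (h ^ 3 / s)) * (4 * Real.pi * (1 + 7 * h)) := by
      calc ∑ w ∈ W, (MeasureTheory.volume (con w (e w) (f w) (A w) ∩ (K \ Metric.closedBall 0 1))).toReal
          ≤ ∑ w ∈ W, (5 / 72 * h ^ 2 * (1 + 2 * h ^ 2) * (MeasureTheory.volume (A w)).toReal +
            8000 * (h ^ 3 / s) * (MeasureTheory.volume (A w)).toReal) := Finset.sum_le_sum hloc
        _ = (5 / 72 * h ^ 2 * (1 + 2 * h ^ 2) + 8000 * (h ^ 3 / s)) *
            ∑ w ∈ W, (MeasureTheory.volume (A w)).toReal := by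
            rw [Finset.mul_sum]
            apply Finset.sum_congr rfl
            intro w _
            ring
        _ ≤ _ := mul_le_mul_of_nonneg_left hAsum (by positivity)
    have hh3 : h ^ 3 / s = h ^ 2 * s := by
      rw [div_eq_iff hs.ne']
      have : h ^ 3 = h ^ 2 * h := by ring
      rw [this, mul_assoc, ← sq, hs2]
    rw [hh3] at hfin
    have hlast : (5 / 72 * h ^ 2 * (1 + 2 * h ^ 2) + 8000 * (h ^ 2 * s)) * (4 * Real.pi * (1 + 7 * h)) ≤
          5 * Real.pi / 18 * h ^ 2 * (1 + 120000 * s) := by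
      have e1 : (5 / 72 * h ^ 2 * (1 + 2 * h ^ 2) + 8000 * (h ^ 2 * s)) * (4 * Real.pi * (1 + 7 * h)) =
          5 * Real.pi / 18 * h ^ 2 * ((1 + 2 * h ^ 2) * (1 + 7 * h) + 115200 * (1 + 7 * h) * s) := by ring
      rw [e1]
      apply mul_le_mul_of_nonneg_left _ (by positivity)
      have e2 : (1 + 2 * h ^ 2) * (1 + 7 * h) ≤ 1 + s := by nlinarith
      have e3 : 115200 * (1 + 7 * h) * s ≤ 116000 * s := by
        apply mul_le_mul_of_nonneg_right _ hs.le
        linarith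
      linarith
    linarith

theorem fin_est {C1 t h0 m sh : ℝ} (hC1 : 0 < C1) (ht0 : 0 < t) (ht1 : t ≤ 1) (htsq : t ^ 2 = h0)
    (hh0le : h0 ≤ 1 / 20000) (hsh : sh ≤ 2 * t) (hsh0 : 0 ≤ sh) (ht2 : t ≤ 2 * m) :
    (1 + 10 * h0) ^ 2 * (1 + C1 * sh) ≤ 1 + 2 * (30 + 62 * C1) * m := by
  have hh0 : h0 ≤ t := by nlinarith
  have hh0' : 0 ≤ h0 := by nlinarith
  have e3 : (1 + 10 * h0) ^ 2 ≤ 1 + 30 * t := by nlinarith
  have e4 : 1 + C1 * sh ≤ 1 + 2 * C1 * t := by nlinarith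
  have e5 : (1 + 10 * h0) ^ 2 * (1 + C1 * sh) ≤ 1 + (30 + 62 * C1) * t := by
    calc (1 + 10 * h0) ^ 2 * (1 + C1 * sh) ≤ (1 + 30 * t) * (1 + 2 * C1 * t) := by
          apply mul_le_mul e3 e4 (by positivity) (by positivity)
      _ ≤ 1 + (30 + 62 * C1) * t := by
          have : t * t ≤ t := by nlinarith
          nlinarith
  have e6 : (30 + 62 * C1) * t ≤ (30 + 62 * C1) * (2 * m) :=
    mul_le_mul_of_nonneg_left ht2 (by positivity)
  linarith

theorem competitorA : ∃ C : ℝ, 0 < C ∧ ∃ N : ℕ, 1 ≤ N ∧ ∀ n : ℕ, N ≤ n → ∃ Y : Finset E3,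
    Y.card = n ∧ (∀ x ∈ Y, ‖x‖ = 1) ∧ (∀ a : E3, a ≠ 0 → ∃ x ∈ Y, 0 < inner ℝ a x) ∧
    (MeasureTheory.volume (polar Y)).toReal ≤ 4 * Real.pi / 3 +
      20 * Real.pi ^ 2 / (9 * √3 * n) * (1 + C * (n : ℝ) ^ (-(1 / 4 : ℝ))) := by
  obtain ⟨C1, hC1, hstep⟩ := step1
  refine ⟨2 * (30 + 62 * C1), by positivity, 10 ^ 10, by norm_num, ?_⟩
  intro n hn
  have hn' : (10 : ℝ) ^ 10 ≤ (n : ℝ) := by exact_mod_cast hn
  have hn0 : (0 : ℝ) < n := by linarith [show (0:ℝ) < 10 ^ 10 by norm_num]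
  have hpi := Real.pi_pos
  have hpi2 := Real.pi_lt_d2
  have h3 : (0:ℝ) < √3 := Real.sqrt_pos.mpr (by norm_num)
  have h3sq : √3 ^ 2 = (3:ℝ) := Real.sq_sqrt (by norm_num)
  have h3' : (1.73:ℝ) ≤ √3 := by
    apply Real.le_sqrt_of_sq_le; norm_num
  set q : ℝ := 8 * Real.pi / (√3 * n) with hq
  have hq0 : 0 < q := by positivity
  have hqn : q ≤ 16 / n := by
    rw [hq, div_le_div_iff₀ (by positivity) hn0]
    nlinarith
  set h0 : ℝ := √q with hh0
  have hh0pos : 0 < h0 := Real.sqrt_pos.mpr hq0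
  have hh0sq : h0 ^ 2 = q := Real.sq_sqrt hq0.le
  have hq1 : q ≤ (1 / 20000) ^ 2 := by
    refine hqn.trans ?_
    rw [div_le_iff₀ hn0]
    nlinarith
  have hh0le : h0 ≤ 1 / 20000 := by
    refine le_of_pow_le_pow_left₀ two_ne_zero (by norm_num) ?_
    rw [hh0sq]; exact hq1
  set h : ℝ := h0 * (1 + 10 * h0) with hh
  have hhpos : 0 < h := by positivity
  have hh2 : h ≤ 2 * h0 := by rw [hh]; nlinarith
  have hhle : h ≤ 1 / 10000 := by linarith
  obtain ⟨X, hX1, hXc, hXcov, hXv⟩ := hstep h hhpos hhle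
  have hcard : X.card ≤ n := by
    have h1 : (X.card : ℝ) * (√3 / 2 * h ^ 2) ≤ n * (√3 / 2 * h ^ 2) := by
      refine hXc.trans ?_
      have e1 : (n : ℝ) * (√3 / 2 * h ^ 2) = (√3 * n * q) / 2 * (1 + 10 * h0) ^ 2 := by
        rw [hh, mul_pow, hh0sq]; ring
      have e2 : √3 * n * q = 8 * Real.pi := by
        rw [hq]; field_simp
      rw [e1, e2]
      have e3 : 1 + 7 * h ≤ (1 + 10 * h0) ^ 2 := by nlinarith
      nlinarith
    have h2 : (X.card : ℝ) ≤ n := le_of_mul_le_mul_right h1 (by positivity)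
    exact_mod_cast h2
  obtain ⟨Y, hXY, hYc, hY1⟩ := exists_pad X hX1 n hcard
  refine ⟨Y, hYc, hY1, ?_, ?_⟩
  · intro a ha
    have han : 0 < ‖a‖ := norm_pos_iff.mpr ha
    have hy1 : ‖(‖a‖⁻¹) • a‖ = 1 := by
      rw [norm_smul, norm_inv, norm_norm]
      exact inv_mul_cancel₀ (by linarith)
    obtain ⟨x, hx, hxa⟩ := hXcov _ hy1
    refine ⟨x, hXY hx, ?_⟩
    have h1 := inner_unit hy1 (hX1 x hx)
    rw [real_inner_smul_left] at h1
    have h3 : ‖(‖a‖⁻¹) • a - x‖ ^ 2 ≤ (18 * h) ^ 2 := by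
      rw [norm_sub_rev]
      exact pow_le_pow_left₀ (norm_nonneg _) hxa 2
    have h4 : 0 < ‖a‖⁻¹ * inner ℝ a x := by rw [h1]; nlinarith
    exact (mul_pos_iff_of_pos_left (inv_pos.mpr han)).mp h4
  refine le_trans (hXv Y hXY hY1) ?_
  set t : ℝ := √h0 with ht
  have ht0 : 0 < t := Real.sqrt_pos.mpr hh0pos
  have htsq : t ^ 2 = h0 := Real.sq_sqrt hh0pos.le
  have ht1 : t ≤ 1 := by
    refine le_of_pow_le_pow_left₀ two_ne_zero (by norm_num) ?_
    rw [htsq]; linarith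
  have hsh : √h ≤ 2 * t := by
    apply Real.sqrt_le_iff.mpr
    constructor
    · positivity
    · rw [mul_pow, htsq]; linarith
  have ht2 : t ≤ 2 * (n : ℝ) ^ (-(1 / 4 : ℝ)) := by
    have hm0 : 0 < (n : ℝ) ^ (-(1 / 4 : ℝ)) := Real.rpow_pos_of_pos hn0 _
    have h4 : ((n : ℝ) ^ (-(1 / 4 : ℝ))) ^ 4 = 1 / n := by
      rw [← Real.rpow_natCast, ← Real.rpow_mul hn0.le]
      norm_num
      rw [Real.rpow_neg_one]
    have h5 : t ^ 4 ≤ (2 * (n : ℝ) ^ (-(1 / 4 : ℝ))) ^ 4 := by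
      rw [mul_pow, h4]
      have : t ^ 4 = q := by
        have : t ^ 4 = (t ^ 2) ^ 2 := by ring
        rw [this, htsq, hh0sq]
      rw [this]
      refine hqn.trans (le_of_eq ?_)
      ring
    exact le_of_pow_le_pow_left₀ (by norm_num) (by positivity) h5
  have hmain : 5 * Real.pi / 18 * h ^ 2 * (1 + C1 * √h) ≤
      20 * Real.pi ^ 2 / (9 * √3 * n) * (1 + 2 * (30 + 62 * C1) * (n : ℝ) ^ (-(1 / 4 : ℝ))) := by
    have e1 : 20 * Real.pi ^ 2 / (9 * √3 * n) = 5 * Real.pi / 18 * q := by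
      rw [hq]
      field_simp
      norm_num
    rw [e1]
    have e2 : h ^ 2 = q * (1 + 10 * h0) ^ 2 := by rw [hh, mul_pow, hh0sq]
    rw [e2]
    have hm := fin_est hC1 ht0 ht1 htsq hh0le hsh (Real.sqrt_nonneg h) ht2
    calc 5 * Real.pi / 18 * (q * (1 + 10 * h0) ^ 2) * (1 + C1 * √h)
        = 5 * Real.pi / 18 * q * ((1 + 10 * h0) ^ 2 * (1 + C1 * √h)) := by ring
      _ ≤ 5 * Real.pi / 18 * q * (1 + 2 * (30 + 62 * C1) * (n : ℝ) ^ (-(1 / 4 : ℝ))) :=
          mul_le_mul_of_nonneg_left hm (by positivity)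
  linarith

end Pool.Agent.Helper320.Gold.NB3
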