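import Mathlib
import Pool.Agent.Helper320.GBaseA

set_option autoImplicit false
open Set

namespace Pool.Agent.Helper320.Gold

/-- a convex polyhedron: the convex hull of finitely many points, with an interior point -/
def IsPolyhedron (P : Set E3) : Prop :=
  (interior P).Nonempty ∧ ∃ F : Finset E3, P = convexHull ℝ (F : Set E3)

/-- `F` is a face of `P` of dimension `d` -/
def IsFace (P : Set E3) (d : ℕ) (F : Set E3) : Prop :=
  F.Nonempty ∧ IsExposed ℝ P F ∧ Module.finrank ℝ (vectorSpan ℝ F) = d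

/-- the number of (two-dimensional) faces -/
noncomputable def numFaces (P : Set E3) : ℕ := {F : Set E3 | IsFace P 2 F}.ncard

/-- every vertex lies on exactly three edges -/
def IsSimple (P : Set E3) : Prop :=
  ∀ v : E3, IsFace P 0 {v} → {E : Set E3 | IsFace P 1 E ∧ v ∈ E}.ncard = 3

/-- the number of sides of the face `F` of `P` -/
noncomputable def sides (P F : Set E3) : ℕ := {E : Set E3 | IsFace P 1 E ∧ E ⊆ F}.ncard

/-- medial polyhedra with `f` faces -/
def IsMedial (P : Set E3) (f : ℕ) : Prop :=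
  numFaces P = f ∧ IsSimple P ∧ ∀ F : Set E3, IsFace P 2 F →
    sides P F = ⌊(6 : ℝ) - 12 / f⌋₊ ∨ sides P F = ⌊(6 : ℝ) - 12 / f⌋₊ + 1

/-- surface area: the two-dimensional Hausdorff measure of the boundary -/
noncomputable def surf (P : Set E3) : ℝ :=
  (MeasureTheory.Measure.hausdorffMeasure 2 (frontier P)).toReal

/-- the isoperimetric quotient -/
noncomputable def iq (P : Set E3) : ℝ := surf P ^ 3 / (MeasureTheory.volume P).toReal ^ 2

/-- the face of `P` in direction `u` -/
def fc (P : Set E3) (u : E3) : Set E3 := {x | x ∈ P ∧ ∀ y ∈ P, inner ℝ u y ≤ inner ℝ u x}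

/-- outer unit normals of the two-dimensional faces -/
def nrmls (P : Set E3) : Set E3 :=
  {u | ‖u‖ = 1 ∧ Module.finrank ℝ (vectorSpan ℝ (fc P u)) = 2}

/-- description of `P` by its facets -/
structure PD (P : Set E3) (N : Finset E3) (h : E3 → ℝ) : Prop where
  unit : ∀ u ∈ N, ‖u‖ = 1
  pos : ∀ u ∈ N, 0 < h u
  rep : P = {x | ∀ u ∈ N, inner ℝ u x ≤ h u}
  orig : ∀ a : E3, a ≠ 0 → ∃ u ∈ N, 0 < inner ℝ a u

/-- the prism of height one over the facet of `P` with normal `u` -/
def prism (P : Set E3) (h : E3 → ℝ) (u : E3) : Set E3 :=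
  {x | ∃ y, y ∈ P ∧ inner ℝ u y = h u ∧ ∃ s : ℝ, 0 ≤ s ∧ s ≤ 1 ∧ x = y + s • u}

/-- the pyramid with apex at the origin over the facet of `P` with normal `u` -/
def pyr (P : Set E3) (h : E3 → ℝ) (u : E3) : Set E3 :=
  {x | ∃ y, y ∈ P ∧ inner ℝ u y = h u ∧ ∃ s : ℝ, 0 ≤ s ∧ s ≤ 1 ∧ x = s • y}

/-- the area of the facet of `P` with normal `u` -/
noncomputable def ar (P : Set E3) (h : E3 → ℝ) (u : E3) : ℝ :=
  (MeasureTheory.volume (prism P h u)).toReal

/-- the intersection of two facets of the polar body -/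
def ed (S : Finset E3) (u w : E3) : Set E3 :=
  {x | x ∈ polar S ∧ inner ℝ x u = 1 ∧ inner ℝ x w = 1}

end Pool.Agent.Helper320.Gold
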