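import Mathlib
import Pool.Agent.Helper320.GBaseG

set_option autoImplicit false
open Set

namespace Pool.Agent.Helper320.Gold.NG1

open Pool.Agent.Helper320.Gold

theorem ext_span {V : Finset E3} {c : E3 → ℝ} {a : E3}
    (ha : a ∈ extremePoints ℝ {a : E3 | ∀ v ∈ V, inner ℝ v a ≤ c v}) :
    Submodule.span ℝ {v : E3 | v ∈ V ∧ inner ℝ v a = c v} = ⊤ := by
  classical
  by_contra hne
  set K := Submodule.span ℝ {v : E3 | v ∈ V ∧ inner ℝ v a = c v} with hK
  have h1 : Kᗮ ≠ ⊥ := by
    intro h
    exact hne ((Submodule.orthogonal_eq_bot_iff).1 h)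
  obtain ⟨d, hdK, hd0⟩ := Submodule.exists_mem_ne_zero_of_ne_bot h1
  have hd : ∀ v ∈ V, inner ℝ v a = c v → inner ℝ v d = 0 := by
    intro v hv hva
    exact (Submodule.mem_orthogonal K d).1 hdK v (Submodule.subset_span ⟨hv, hva⟩)
  have haD : ∀ v ∈ V, inner ℝ v a ≤ c v := ha.1
  -- small epsilon
  have hev : ∀ v ∈ V, ∀ᶠ t : ℝ in nhds 0,
      inner ℝ v a + t * inner ℝ v d ≤ c v ∧ inner ℝ v a - t * inner ℝ v d ≤ c v := by
    intro v hv
    by_cases hva : inner ℝ v a = c v
    · apply Filter.Eventually.of_forall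
      intro t
      rw [hd v hv hva, hva]
      simp
    · have hlt : inner ℝ v a < c v := lt_of_le_of_ne (haD v hv) hva
      have c1 : Filter.Tendsto (fun t : ℝ => inner ℝ v a + t * inner ℝ v d) (nhds 0)
          (nhds (inner ℝ v a)) := by
        have : Continuous (fun t : ℝ => inner ℝ v a + t * inner ℝ v d) := by fun_prop
        have h2 := this.tendsto 0
        simpa using h2
      have c2 : Filter.Tendsto (fun t : ℝ => inner ℝ v a - t * inner ℝ v d) (nhds 0)
          (nhds (inner ℝ v a)) := by
        have : Continuous (fun t : ℝ => inner ℝ v a - t * inner ℝ v d) := by fun_prop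
        have h2 := this.tendsto 0
        simpa using h2
      filter_upwards [c1.eventually (gt_mem_nhds hlt), c2.eventually (gt_mem_nhds hlt)] with t h3 h4
      exact ⟨h3.le, h4.le⟩
  have hall := (Filter.eventually_all_finset V).2 hev
  obtain ⟨ε, hε, hball⟩ := Metric.eventually_nhds_iff.1 hall
  have hε2 := hball (y := ε / 2) (by
    rw [Real.dist_eq, sub_zero, abs_of_pos (by linarith)]; linarith)
  have hp : a + (ε / 2) • d ∈ {a : E3 | ∀ v ∈ V, inner ℝ v a ≤ c v} := by
    intro v hv
    rw [inner_add_right, real_inner_smul_right]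
    exact (hε2 v hv).1
  have hm : a - (ε / 2) • d ∈ {a : E3 | ∀ v ∈ V, inner ℝ v a ≤ c v} := by
    intro v hv
    rw [inner_sub_right, real_inner_smul_right]
    exact (hε2 v hv).2
  have hseg : a ∈ openSegment ℝ (a + (ε / 2) • d) (a - (ε / 2) • d) := by
    refine ⟨1 / 2, 1 / 2, by norm_num, by norm_num, by norm_num, ?_⟩
    rw [← smul_add]
    have : a + (ε / 2) • d + (a - (ε / 2) • d) = (2 : ℝ) • a := by
      rw [two_smul]; abel
    rw [this, smul_smul]
    norm_num
  have heq := ha.2 hp hm hseg
  have h5 : (ε / 2) • d = 0 := by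
    have h6 : a + (ε / 2) • d = a := by
      first
        | exact heq
        | exact heq.1
    exact left_eq_add.1 h6.symm
  rcases smul_eq_zero.1 h5 with h6 | h6
  · linarith
  · exact hd0 h6

theorem ext_finite (V : Finset E3) (c : E3 → ℝ) :
    (extremePoints ℝ {a : E3 | ∀ v ∈ V, inner ℝ v a ≤ c v}).Finite := by
  classical
  apply Set.Finite.of_finite_image (f := fun a => V.filter (fun v => inner ℝ v a = c v))
  · apply (V.powerset.finite_toSet).subset
    rintro _ ⟨a, _, rfl⟩
    simp only [Finset.coe_powerset, Set.mem_preimage, Set.mem_powerset_iff, Finset.coe_subset]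
    exact Finset.filter_subset _ _
  · intro a ha b hb hab
    simp only at hab
    have h1 := ext_span ha
    have h2 : ∀ v ∈ V, inner ℝ v a = c v → inner ℝ v (a - b) = 0 := by
      intro v hv hva
      have h3 : v ∈ V.filter (fun v => inner ℝ v a = c v) := Finset.mem_filter.2 ⟨hv, hva⟩
      rw [hab, Finset.mem_filter] at h3
      rw [inner_sub_right, hva, h3.2, sub_self]
    have h4 : a - b ∈ (Submodule.span ℝ {v : E3 | v ∈ V ∧ inner ℝ v a = c v})ᗮ := by
      rw [Submodule.mem_orthogonal]
      intro u hu
      induction hu using Submodule.span_induction with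
      | mem x hx => exact h2 x hx.1 hx.2
      | zero => exact inner_zero_left _
      | add x y _ _ hx hy => rw [inner_add_left, hx, hy, add_zero]
      | smul r x _ hx => rw [real_inner_smul_left, hx, mul_zero]
    rw [h1, Submodule.top_orthogonal_eq_bot, Submodule.mem_bot, sub_eq_zero] at h4
    exact h4

theorem PD_compact {P : Set E3} {N : Finset E3} {h : E3 → ℝ} (H : PD P N h) : IsCompact P := by
  classical
  apply Metric.isCompact_of_isClosed_isBounded
  · rw [H.rep]
    have : {x : E3 | ∀ u ∈ N, inner ℝ u x ≤ h u} = ⋂ u ∈ N, {x : E3 | inner ℝ u x ≤ h u} := by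
      ext x; simp
    rw [this]
    apply isClosed_biInter
    intro u _
    exact isClosed_le (by fun_prop) continuous_const
  · -- N nonempty
    have hN : N.Nonempty := by
      obtain ⟨u, hu, -⟩ := H.orig (EuclideanSpace.single 0 1) (by
        intro h0
        have := congrArg (fun v : E3 => v 0) h0
        simp at this)
      exact ⟨u, hu⟩
    set g : E3 → ℝ := fun a => N.sup' hN (fun u => inner ℝ a u) with hg
    have hgc : Continuous g := by
      apply Continuous.finset_sup'_apply
      intro u _
      fun_prop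
    have hS : IsCompact (Metric.sphere (0 : E3) 1) := isCompact_sphere _ _
    have hSn : (Metric.sphere (0 : E3) 1).Nonempty := by
      refine ⟨EuclideanSpace.single 0 1, ?_⟩
      simp
    obtain ⟨a₀, ha₀, hmin⟩ := hS.exists_isMinOn hSn hgc.continuousOn
    set r := g a₀ with hr
    have hr0 : 0 < r := by
      obtain ⟨u, hu, hu0⟩ := H.orig a₀ (by
        intro h0
        rw [h0] at ha₀
        simp at ha₀)
      exact lt_of_lt_of_le hu0 (Finset.le_sup' (fun u => inner ℝ a₀ u) hu)
    set M := N.sup' hN h with hM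
    rw [Metric.isBounded_iff_subset_closedBall 0]
    refine ⟨M / r, ?_⟩
    intro x hx
    rw [mem_closedBall_zero_iff]
    by_cases hx0 : x = 0
    · rw [hx0, norm_zero]
      obtain ⟨u, hu⟩ := hN
      have : 0 < M := lt_of_lt_of_le (H.pos u hu) (Finset.le_sup' h hu)
      positivity
    · have hxn : 0 < ‖x‖ := norm_pos_iff.2 hx0
      set b : E3 := (‖x‖)⁻¹ • x with hb
      have hbS : b ∈ Metric.sphere (0 : E3) 1 := by
        rw [mem_sphere_zero_iff_norm, hb, norm_smul, norm_inv, norm_norm]
        exact inv_mul_cancel₀ hxn.ne'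
      have h1 : r ≤ g b := hmin hbS
      obtain ⟨u, hu, hgu⟩ := Finset.exists_mem_eq_sup' hN (fun u => inner ℝ b u)
      have h2 : r ≤ inner ℝ b u := by
        have : g b = inner ℝ b u := hgu
        rw [← this]; exact h1
      have h3 : inner ℝ b u = (‖x‖)⁻¹ * inner ℝ u x := by
        rw [hb, real_inner_smul_left, real_inner_comm]
      have hxP : inner ℝ u x ≤ h u := by
        rw [H.rep] at hx
        exact hx u hu
      have h4 : h u ≤ M := Finset.le_sup' h hu
      rw [le_div_iff₀ hr0]
      rw [h3] at h2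
      have h5 : ‖x‖ * r ≤ inner ℝ u x := by
        calc ‖x‖ * r ≤ ‖x‖ * ((‖x‖)⁻¹ * inner ℝ u x) := by gcongr
          _ = inner ℝ u x := by
              rw [← mul_assoc, mul_inv_cancel₀ hxn.ne', one_mul]
      linarith

theorem PD_poly {P : Set E3} {N : Finset E3} {h : E3 → ℝ} (H : PD P N h) :
    IsPolyhedron P ∧ Convex ℝ P ∧ (0 : E3) ∈ interior P := by
  classical
  have hconv : Convex ℝ P := by
    rw [H.rep]
    intro x hx y hy a b ha hb hab u hu
    rw [inner_add_right, real_inner_smul_right, real_inner_smul_right]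
    have h1 := hx u hu
    have h2 := hy u hu
    calc a * inner ℝ u x + b * inner ℝ u y ≤ a * h u + b * h u := by gcongr
      _ = h u := by rw [← add_mul, hab, one_mul]
  have hint : (0 : E3) ∈ interior P := by
    rw [mem_interior_iff_mem_nhds, H.rep]
    have hev : ∀ u ∈ N, ∀ᶠ x : E3 in nhds 0, inner ℝ u x ≤ h u := by
      intro u hu
      have c1 : Filter.Tendsto (fun x : E3 => inner ℝ u x) (nhds 0) (nhds (inner ℝ u (0 : E3))) := by
        have : Continuous (fun x : E3 => inner ℝ u x) := by fun_prop
        exact this.tendsto 0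
      rw [inner_zero_right] at c1
      filter_upwards [c1.eventually (gt_mem_nhds (H.pos u hu))] with x hx
      exact hx.le
    exact (Filter.eventually_all_finset N).2 hev
  refine ⟨⟨⟨0, hint⟩, ?_⟩, hconv, hint⟩
  have hfin : (extremePoints ℝ P).Finite := by
    rw [H.rep]
    exact ext_finite N h
  refine ⟨hfin.toFinset, ?_⟩
  rw [Set.Finite.coe_toFinset]
  have h1 := closure_convexHull_extremePoints (PD_compact H) hconv
  have h2 : IsClosed (convexHull ℝ (extremePoints ℝ P)) :=
    (Set.Finite.isCompact_convexHull (𝕜 := ℝ) hfin).isClosed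
  rw [h2.closure_eq] at h1
  exact h1.symm

end Pool.Agent.Helper320.Gold.NG1
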