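import Mathlib
import Pool.Agent.Helper320.GBaseG
import Pool.Agent.Helper320.GG1

set_option autoImplicit false
open Set

namespace Pool.Agent.Helper320.Gold.NG2

open Pool.Agent.Helper320.Gold Pool.Agent.Helper320.Gold.NG1

lemma _root_.Pool.Agent.Helper320.Gold.PD.small_step {P : Set E3} {N : Finset E3} {h : E3 → ℝ} (H : PD P N h) {y : E3}
    (hy : ∀ w ∈ N, inner ℝ w y < h w) (v : E3) : ∃ t : ℝ, 0 < t ∧ y + t • v ∈ P := by
  have hopen : IsOpen (⋂ w ∈ N, {x : E3 | inner ℝ w x < h w}) := by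
    apply isOpen_biInter_finset
    intro w _
    exact isOpen_lt (by fun_prop) continuous_const
  have hmem : y ∈ ⋂ w ∈ N, {x : E3 | inner ℝ w x < h w} := by
    simp only [mem_iInter, mem_ofPred_eq]
    exact hy
  have hcont : ContinuousAt (fun t : ℝ => y + t • v) 0 := by fun_prop
  have hev : ∀ᶠ t in nhds (0 : ℝ), y + t • v ∈ ⋂ w ∈ N, {x : E3 | inner ℝ w x < h w} := by
    have h2 : (⋂ w ∈ N, {x : E3 | inner ℝ w x < h w}) ∈ nhds (y + (0 : ℝ) • v) := by
      rw [zero_smul, add_zero]; exact hopen.mem_nhds hmem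
    exact hcont h2
  obtain ⟨ε, hε, hball⟩ := Metric.eventually_nhds_iff.mp hev
  refine ⟨ε / 2, by positivity, ?_⟩
  have h1 := hball (y := ε / 2) (by rw [Real.dist_eq, sub_zero, abs_of_pos (by positivity)]; linarith)
  rw [H.rep]
  intro w hw
  simp only [mem_iInter, mem_ofPred_eq] at h1
  exact (h1 w hw).le

lemma _root_.Pool.Agent.Helper320.Gold.PD.convex {P : Set E3} {N : Finset E3} {h : E3 → ℝ} (H : PD P N h) : Convex ℝ P := by
  rw [H.rep]
  intro x hx y hy a b ha hb hab w hw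
  rw [inner_add_right, inner_smul_right, inner_smul_right]
  have h1 := mul_le_mul_of_nonneg_left (hx w hw) ha
  have h2 := mul_le_mul_of_nonneg_left (hy w hw) hb
  calc a * inner ℝ w x + b * inner ℝ w y ≤ a * h w + b * h w := add_le_add h1 h2
    _ = h w := by rw [← add_mul, hab, one_mul]

lemma fc_convex {P : Set E3} (hP : Convex ℝ P) (u : E3) : Convex ℝ (fc P u) := by
  intro x hx y hy a b ha hb hab
  refine ⟨hP hx.1 hy.1 ha hb hab, fun z hz => ?_⟩
  rw [inner_add_right, inner_smul_right, inner_smul_right]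
  have h1 := mul_le_mul_of_nonneg_left (hx.2 z hz) ha
  have h2 := mul_le_mul_of_nonneg_left (hy.2 z hz) hb
  calc inner ℝ u z = a * inner ℝ u z + b * inner ℝ u z := by rw [← add_mul, hab, one_mul]
    _ ≤ _ := add_le_add h1 h2

lemma vectorSpan_fc_le {P : Set E3} (u : E3) : vectorSpan ℝ (fc P u) ≤ (Submodule.span ℝ {u})ᗮ := by
  rw [vectorSpan_def, Submodule.span_le]
  rintro _ ⟨x, hx, y, hy, rfl⟩
  rw [SetLike.mem_coe, Submodule.mem_orthogonal_singleton_iff_inner_right]
  simp only [vsub_eq_sub, inner_sub_right]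
  have h1 := hx.2 y hy.1
  have h2 := hy.2 x hx.1
  linarith

theorem nrmls_sub {P : Set E3} {N : Finset E3} {h : E3 → ℝ} (H : PD P N h) :
    nrmls P ⊆ (N : Set E3) := by
  rintro u ⟨hu1, hu2⟩
  have hGconv := fc_convex H.convex u
  have hGne : (fc P u).Nonempty := by
    by_contra hne
    rw [not_nonempty_iff_eq_empty] at hne
    rw [hne, vectorSpan_empty, finrank_bot] at hu2
    exact absurd hu2 (by norm_num)
  have hle : ∀ y ∈ P, ∀ w ∈ N, inner ℝ w y ≤ h w := by
    intro y hy w hw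
    rw [H.rep] at hy
    exact hy w hw
  have hact : ∀ y ∈ fc P u, ∃ w ∈ N, inner ℝ w y = h w := by
    intro y hy
    by_contra hcon
    push Not at hcon
    obtain ⟨t, ht, hmem⟩ := H.small_step (y := y)
      (fun w hw => lt_of_le_of_ne (hle y hy.1 w hw) (hcon w hw)) u
    have h1 := hy.2 _ hmem
    rw [inner_add_right, inner_smul_right, real_inner_self_eq_norm_sq, hu1] at h1
    linarith
  have hex : ∃ w ∈ N, ∀ y ∈ fc P u, inner ℝ w y = h w := by
    by_contra hcon
    push Not at hcon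
    choose! Y hY1 hY2 using hcon
    obtain ⟨y0, hy0⟩ := hGne
    obtain ⟨w0, hw0, _⟩ := hact y0 hy0
    have hcard : (0 : ℝ) < N.card := by
      exact_mod_cast Finset.card_pos.mpr ⟨w0, hw0⟩
    have hx : ∑ w ∈ N, ((N.card : ℝ)⁻¹) • Y w ∈ fc P u := by
      apply hGconv.sum_mem (fun _ _ => by positivity) _ (fun w hw => hY1 w hw)
      rw [Finset.sum_const, nsmul_eq_mul, mul_inv_cancel₀ hcard.ne']
    obtain ⟨w, hw, hwx⟩ := hact _ hx
    rw [inner_sum] at hwx
    have hlt : ∑ i ∈ N, inner ℝ w (((N.card : ℝ)⁻¹) • Y i) < ∑ i ∈ N, (N.card : ℝ)⁻¹ * h w := by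
      apply Finset.sum_lt_sum
      · intro i hi
        rw [inner_smul_right]
        exact mul_le_mul_of_nonneg_left (hle _ (hY1 i hi).1 w hw) (by positivity)
      · refine ⟨w, hw, ?_⟩
        rw [inner_smul_right]
        exact mul_lt_mul_of_pos_left
          (lt_of_le_of_ne (hle _ (hY1 w hw).1 w hw) (hY2 w hw)) (by positivity)
    rw [hwx, Finset.sum_const, nsmul_eq_mul, ← mul_assoc, mul_inv_cancel₀ hcard.ne', one_mul] at hlt
    exact lt_irrefl _ hlt
  obtain ⟨w, hw, hwG⟩ := hex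
  have hwspan : vectorSpan ℝ (fc P u) ≤ (Submodule.span ℝ {w})ᗮ := by
    rw [vectorSpan_def, Submodule.span_le]
    rintro _ ⟨x, hx, y, hy, rfl⟩
    rw [SetLike.mem_coe, Submodule.mem_orthogonal_singleton_iff_inner_right]
    simp only [vsub_eq_sub, inner_sub_right]
    rw [hwG x hx, hwG y hy, sub_self]
  have huspan := vectorSpan_fc_le (P := P) u
  set K := vectorSpan ℝ (fc P u) with hK
  have hfin : Module.finrank ℝ Kᗮ = 1 := by
    have := Submodule.finrank_add_finrank_orthogonal K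
    rw [hu2, finrank_euclideanSpace_fin] at this
    omega
  have hmem : ∀ v : E3, K ≤ (Submodule.span ℝ {v})ᗮ → v ∈ Kᗮ := by
    intro v hv
    rw [Submodule.mem_orthogonal]
    intro x hx
    have := hv hx
    rw [Submodule.mem_orthogonal_singleton_iff_inner_left] at this
    exact this
  have huK := hmem u huspan
  have hwK := hmem w hwspan
  have hu0 : u ≠ 0 := by
    intro h0
    rw [h0, norm_zero] at hu1
    exact zero_ne_one hu1
  have hu0' : (⟨u, huK⟩ : Kᗮ) ≠ 0 := by
    intro h0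
    exact hu0 (congrArg Subtype.val h0)
  obtain ⟨c, hc⟩ := (finrank_eq_one_iff_of_nonzero' _ hu0').mp hfin ⟨w, hwK⟩
  have hcw : c • u = w := congrArg Subtype.val hc
  have hwn := H.unit w hw
  rw [← hcw, norm_smul, hu1, mul_one, Real.norm_eq_abs] at hwn
  obtain ⟨x, hx⟩ := hGne
  have hxu : 0 < inner ℝ u x := by
    obtain ⟨t, ht, hmem⟩ := H.small_step (y := 0)
      (fun w hw => by rw [inner_zero_right]; exact H.pos w hw) u
    have h1 := hx.2 _ hmem
    rw [zero_add, inner_smul_right, real_inner_self_eq_norm_sq, hu1] at h1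
    linarith
  have hxw : 0 < inner ℝ w x := by rw [hwG x hx]; exact H.pos w hw
  rw [← hcw, real_inner_smul_left] at hxw
  have hcpos : 0 < c := (pos_iff_pos_of_mul_pos hxw).mpr hxu
  rw [abs_of_pos hcpos] at hwn
  rw [hwn, one_smul] at hcw
  rw [hcw]
  exact hw


lemma inner_le_of_hull {F : Finset E3} {a : E3} (ha : ∀ v ∈ F, inner ℝ v a ≤ (1 : ℝ)) :
    ∀ y ∈ convexHull ℝ (F : Set E3), inner ℝ y a ≤ (1 : ℝ) := by
  have hsub : convexHull ℝ (F : Set E3) ⊆ {y : E3 | inner ℝ y a ≤ (1 : ℝ)} := by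
    apply convexHull_min
    · intro v hv
      exact ha v hv
    · intro x hx y hy s t hs ht hst
      simp only [mem_ofPred_eq] at hx hy ⊢
      rw [inner_add_left, real_inner_smul_left, real_inner_smul_left]
      nlinarith
  exact fun y hy => hsub hy

lemma polar_compact {F : Finset E3} (h0 : (0 : E3) ∈ interior (convexHull ℝ (F : Set E3))) :
    IsCompact {a : E3 | ∀ v ∈ F, inner ℝ v a ≤ (1 : ℝ)} := by
  apply Metric.isCompact_of_isClosed_isBounded
  · have : {a : E3 | ∀ v ∈ F, inner ℝ v a ≤ (1 : ℝ)} = ⋂ v ∈ F, {a : E3 | inner ℝ v a ≤ (1 : ℝ)} := by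
      ext a; simp
    rw [this]
    apply isClosed_biInter
    intro v _
    exact isClosed_le (by fun_prop) continuous_const
  · rw [mem_interior_iff_mem_nhds, Metric.nhds_basis_closedBall.mem_iff] at h0
    obtain ⟨r, hr, hball⟩ := h0
    rw [isBounded_iff_forall_norm_le]
    refine ⟨r⁻¹, fun a ha => ?_⟩
    by_cases ha0 : a = 0
    · rw [ha0, norm_zero]; positivity
    have hna : 0 < ‖a‖ := norm_pos_iff.mpr ha0
    have h1 := inner_le_of_hull ha ((r / ‖a‖) • a) (hball (by
      rw [mem_closedBall_zero_iff, norm_smul, Real.norm_eq_abs, abs_of_pos (by positivity),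
        div_mul_cancel₀ _ hna.ne']))
    rw [real_inner_smul_left, real_inner_self_eq_norm_sq] at h1
    have h2 : r / ‖a‖ * ‖a‖ ^ 2 = r * ‖a‖ := by field_simp
    rw [h2] at h1
    rw [← one_div, le_div_iff₀ hr]
    linarith

lemma vertex_facts {F : Finset E3} {P : Set E3} (hP : P = convexHull ℝ (F : Set E3)) {a : E3}
    (ha : a ∈ extremePoints ℝ {a : E3 | ∀ v ∈ F, inner ℝ v a ≤ (1 : ℝ)}) (ha0 : a ≠ 0) :
    sSup ((fun x => inner ℝ (‖a‖⁻¹ • a) x) '' P) = ‖a‖⁻¹ ∧
    (∀ y ∈ P, inner ℝ (‖a‖⁻¹ • a) y ≤ ‖a‖⁻¹) ∧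
    Module.finrank ℝ (vectorSpan ℝ (fc P (‖a‖⁻¹ • a))) = 2 := by
  have hna : 0 < ‖a‖ := norm_pos_iff.mpr ha0
  have haD := ha.1
  have hspan := ext_span (V := F) (c := fun _ => (1 : ℝ)) ha
  set A : Set E3 := {v : E3 | v ∈ F ∧ inner ℝ v a = (1 : ℝ)} with hA
  have hAne : A.Nonempty := by
    by_contra hne
    rw [not_nonempty_iff_eq_empty] at hne
    rw [hne, Submodule.span_empty] at hspan
    exact absurd hspan bot_ne_top
  set u : E3 := ‖a‖⁻¹ • a with hu
  have hun : ‖u‖ = 1 := by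
    rw [hu, norm_smul, norm_inv, norm_norm, inv_mul_cancel₀ hna.ne']
  have hle : ∀ y ∈ P, inner ℝ u y ≤ ‖a‖⁻¹ := by
    intro y hy
    rw [hP] at hy
    have h1 := inner_le_of_hull haD y hy
    rw [hu, real_inner_smul_left, real_inner_comm]
    calc ‖a‖⁻¹ * inner ℝ y a ≤ ‖a‖⁻¹ * 1 := mul_le_mul_of_nonneg_left h1 (by positivity)
      _ = ‖a‖⁻¹ := mul_one _
  have hAP : ∀ v ∈ A, v ∈ P ∧ inner ℝ u v = ‖a‖⁻¹ := by
    intro v hv
    refine ⟨by rw [hP]; exact subset_convexHull ℝ _ hv.1, ?_⟩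
    rw [hu, real_inner_smul_left, real_inner_comm, hv.2, mul_one]
  have hAfc : ∀ v ∈ A, v ∈ fc P u := by
    intro v hv
    refine ⟨(hAP v hv).1, fun y hy => ?_⟩
    rw [(hAP v hv).2]
    exact hle y hy
  obtain ⟨v0, hv0⟩ := hAne
  refine ⟨?_, hle, ?_⟩
  · apply IsGreatest.csSup_eq
    refine ⟨⟨v0, (hAP v0 hv0).1, (hAP v0 hv0).2⟩, ?_⟩
    rintro _ ⟨y, hy, rfl⟩
    exact hle y hy
  · have hu0 : u ≠ 0 := by
      intro h0
      rw [h0, norm_zero] at hun
      exact zero_ne_one hun
    have : Fact (Module.finrank ℝ E3 = 2 + 1) := ⟨by rw [finrank_euclideanSpace_fin]⟩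
    apply le_antisymm
    · have h1 := Submodule.finrank_mono (vectorSpan_fc_le (P := P) u)
      rw [Submodule.finrank_orthogonal_span_singleton (n := 2) hu0] at h1
      exact h1
    · have htop : (⊤ : Submodule ℝ E3) ≤ vectorSpan ℝ (fc P u) ⊔ Submodule.span ℝ {v0} := by
        rw [← hspan, Submodule.span_le]
        intro v hv
        have h1 : v - v0 ∈ vectorSpan ℝ (fc P u) :=
          vsub_mem_vectorSpan ℝ (hAfc v hv) (hAfc v0 hv0)
        have h2 : v = (v - v0) + v0 := by abel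
        rw [SetLike.mem_coe, h2]
        exact Submodule.add_mem_sup h1 (Submodule.mem_span_singleton_self v0)
      have h3 := Submodule.finrank_mono htop
      have h4 := Submodule.finrank_add_le_finrank_add_finrank (vectorSpan ℝ (fc P u))
        (Submodule.span ℝ {v0})
      have h5 : Module.finrank ℝ (Submodule.span ℝ {v0}) ≤ 1 := by
        have h6 := finrank_span_le_card (R := ℝ) ({v0} : Set E3)
        simpa using h6
      rw [finrank_top, finrank_euclideanSpace_fin] at h3
      omega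

theorem exists_PD {P : Set E3} (hP : IsPolyhedron P) (h0 : (0 : E3) ∈ interior P) :
    ∃ N : Finset E3, ∃ h : E3 → ℝ, (N : Set E3) = nrmls P ∧ PD P N h := by
  classical
  obtain ⟨_, F, hF⟩ := hP
  set D : Set E3 := {a : E3 | ∀ v ∈ F, inner ℝ v a ≤ (1 : ℝ)} with hD
  have hDc : IsCompact D := polar_compact (by rw [← hF]; exact h0)
  have hDconv : Convex ℝ D := by
    intro x hx y hy s t hs ht hst v hv
    rw [inner_add_right, inner_smul_right, inner_smul_right]
    have h1 := hx v hv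
    have h2 := hy v hv
    nlinarith
  have hPc : IsCompact P := by rw [hF]; exact F.finite_toSet.isCompact_convexHull ℝ
  have hPconv : Convex ℝ P := by rw [hF]; exact convex_convexHull ℝ _
  have h0P : (0 : E3) ∈ P := interior_subset h0
  set Ex := (ext_finite F (fun _ => 1)).toFinset.filter (fun a => a ≠ 0) with hEx
  have hExmem : ∀ a, a ∈ Ex ↔ a ∈ extremePoints ℝ D ∧ a ≠ 0 := by
    intro a
    rw [hEx, Finset.mem_filter, Set.Finite.mem_toFinset]
  set N := Ex.image (fun a => ‖a‖⁻¹ • a) with hN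
  set h : E3 → ℝ := fun u => sSup ((fun x => inner ℝ u x) '' P) with hh
  have hNmem : ∀ u, u ∈ N ↔ ∃ a ∈ Ex, ‖a‖⁻¹ • a = u := by
    intro u; rw [hN, Finset.mem_image]
  have hrep : P = {x | ∀ u ∈ N, inner ℝ u x ≤ h u} := by
    apply Subset.antisymm
    · intro x hx u hu
      obtain ⟨a, ha, rfl⟩ := (hNmem u).mp hu
      obtain ⟨ha1, ha2⟩ := (hExmem a).mp ha
      obtain ⟨f1, f2, _⟩ := vertex_facts hF ha1 ha2
      rw [hh]
      simp only
      rw [f1]
      exact f2 x hx
    · intro x hx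
      by_contra hxP
      obtain ⟨l, s, hl1, hl2⟩ := geometric_hahn_banach_closed_point hPconv hPc.isClosed hxP
      have hs : 0 < s := by simpa using hl1 0 h0P
      set b := (InnerProductSpace.toDual ℝ E3).symm l with hb
      have hbl : ∀ y, inner ℝ b y = l y := fun y => InnerProductSpace.toDual_symm_apply
      set a1 : E3 := s⁻¹ • b with ha1
      have ha1D : a1 ∈ D := by
        intro v hv
        rw [ha1, inner_smul_right, real_inner_comm, hbl]
        have := hl1 v (by rw [hF]; exact subset_convexHull ℝ _ hv)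
        rw [inv_mul_le_iff₀ hs, mul_one]
        exact this.le
      have ha1x : 1 < inner ℝ x a1 := by
        rw [ha1, inner_smul_right, real_inner_comm, hbl, lt_inv_mul_iff₀ hs, mul_one]
        exact hl2
      set m : E3 →L[ℝ] ℝ := innerSL ℝ x with hm
      have hexp := ContinuousLinearMap.toExposed.isExposed (l := m) (A := D)
      have hDm : IsCompact (m.toExposed D) := hexp.isCompact hDc
      obtain ⟨a2, ha2, ha2max⟩ := hDc.exists_isMaxOn ⟨a1, ha1D⟩ m.continuous.continuousOn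
      have hne : (m.toExposed D).Nonempty := ⟨a2, ha2, fun y hy => ha2max hy⟩
      obtain ⟨a, ha⟩ := hDm.extremePoints_nonempty hne
      have haD : a ∈ extremePoints ℝ D := hexp.isExtreme.extremePoints_subset_extremePoints ha
      have hax : 1 < inner ℝ x a := lt_of_lt_of_le ha1x (ha.1.2 a1 ha1D)
      have ha0 : a ≠ 0 := by
        rintro rfl
        rw [inner_zero_right] at hax
        linarith
      obtain ⟨f1, f2, _⟩ := vertex_facts hF haD ha0
      have hna : 0 < ‖a‖ := norm_pos_iff.mpr ha0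
      have h1 := hx (‖a‖⁻¹ • a) ((hNmem _).mpr ⟨a, (hExmem a).mpr ⟨haD, ha0⟩, rfl⟩)
      rw [hh] at h1
      simp only at h1
      rw [f1, real_inner_smul_left, real_inner_comm] at h1
      have h2 : ‖a‖⁻¹ * 1 < ‖a‖⁻¹ * inner ℝ x a := mul_lt_mul_of_pos_left hax (by positivity)
      rw [mul_one] at h2
      linarith
  have hPD : PD P N h := by
    refine ⟨?_, ?_, hrep, ?_⟩
    · intro u hu
      obtain ⟨a, ha, rfl⟩ := (hNmem u).mp hu
      obtain ⟨ha1, ha2⟩ := (hExmem a).mp ha
      rw [norm_smul, norm_inv, norm_norm, inv_mul_cancel₀ (norm_pos_iff.mpr ha2).ne']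
    · intro u hu
      obtain ⟨a, ha, rfl⟩ := (hNmem u).mp hu
      obtain ⟨ha1, ha2⟩ := (hExmem a).mp ha
      obtain ⟨f1, _, _⟩ := vertex_facts hF ha1 ha2
      rw [hh]
      simp only
      rw [f1]
      exact inv_pos.mpr (norm_pos_iff.mpr ha2)
    · intro a ha
      by_contra hcon
      push Not at hcon
      have hpos : ∀ u ∈ N, 0 < h u := by
        intro u hu
        obtain ⟨a, ha, rfl⟩ := (hNmem u).mp hu
        obtain ⟨ha1, ha2⟩ := (hExmem a).mp ha
        obtain ⟨f1, _, _⟩ := vertex_facts hF ha1 ha2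
        rw [hh]
        simp only
        rw [f1]
        exact inv_pos.mpr (norm_pos_iff.mpr ha2)
      obtain ⟨C, hC⟩ := isBounded_iff_forall_norm_le.mp hPc.isBounded
      have hna : 0 < ‖a‖ := norm_pos_iff.mpr ha
      have hmem : ((|C| + 1) / ‖a‖) • a ∈ P := by
        rw [hrep]
        intro u hu
        rw [inner_smul_right, real_inner_comm]
        have h1 := hcon u hu
        have h2 := hpos u hu
        have h3 : 0 ≤ (|C| + 1) / ‖a‖ := by positivity
        nlinarith [mul_nonneg h3 (neg_nonneg.mpr h1)]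
      have h1 := hC _ hmem
      rw [norm_smul, Real.norm_eq_abs, abs_of_nonneg (by positivity), div_mul_cancel₀ _ hna.ne'] at h1
      have := le_abs_self C
      linarith
  refine ⟨N, h, ?_, hPD⟩
  apply Subset.antisymm
  · intro u hu
    refine ⟨hPD.unit u hu, ?_⟩
    obtain ⟨a, ha, rfl⟩ := (hNmem u).mp hu
    obtain ⟨ha1, ha2⟩ := (hExmem a).mp ha
    exact (vertex_facts hF ha1 ha2).2.2
  · exact nrmls_sub hPD

end Pool.Agent.Helper320.Gold.NG2
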