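import Mathlib
import Pool.Agent.Helper320.GBaseG
import Pool.Agent.Helper320.GG2

set_option autoImplicit false
open Set

namespace Pool.Agent.Helper320.Gold.NG3

open Pool.Agent.Helper320.Gold Pool.Agent.Helper320.Gold.NG2

theorem PD_polar {Y : Finset E3} (hu : ∀ x ∈ Y, ‖x‖ = 1)
    (ho : ∀ a : E3, a ≠ 0 → ∃ x ∈ Y, 0 < inner ℝ a x) : PD (polar Y) Y (fun _ => 1) := by
  refine ⟨hu, fun _ _ => one_pos, ?_, ho⟩
  ext x
  unfold polar
  simp only [mem_ofPred_eq]
  constructor
  · intro h u hu'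
    rw [real_inner_comm]; exact h u hu'
  · intro h u hu'
    rw [real_inner_comm]; exact h u hu'

theorem fc_polar {Y : Finset E3} (hu : ∀ x ∈ Y, ‖x‖ = 1) {u : E3} (h : u ∈ Y) :
    fc (polar Y) u = {x | x ∈ polar Y ∧ inner ℝ x u = 1} := by
  have huu : (inner ℝ u u : ℝ) = 1 := by
    rw [real_inner_self_eq_norm_sq, hu u h]; norm_num
  have hup : u ∈ polar Y := by
    intro w hw
    calc (inner ℝ u w : ℝ) ≤ ‖u‖ * ‖w‖ := real_inner_le_norm u w
      _ = 1 := by rw [hu u h, hu w hw]; norm_num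
  ext x
  constructor
  · rintro ⟨hx, hx2⟩
    refine ⟨hx, ?_⟩
    have h1 := hx2 u hup
    have h2 : (inner ℝ x u : ℝ) ≤ 1 := hx u h
    rw [huu, real_inner_comm] at h1
    linarith
  · rintro ⟨hx, hx2⟩
    refine ⟨hx, fun y hy => ?_⟩
    have h2 : (inner ℝ y u : ℝ) ≤ 1 := hy u h
    rw [real_inner_comm, real_inner_comm x u, hx2]
    exact h2

lemma vspan_le (P : Set E3) (u : E3) : vectorSpan ℝ (fc P u) ≤ (Submodule.span ℝ {u})ᗮ := by
  rw [vectorSpan_def, Submodule.span_le]
  rintro _ ⟨x, hx, y, hy, rfl⟩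
  rw [SetLike.mem_coe, Submodule.mem_orthogonal_singleton_iff_inner_right]
  have h1 := hx.2 y hy.1
  have h2 := hy.2 x hx.1
  have h3 : x -ᵥ y = x - y := rfl
  show (inner ℝ u (x -ᵥ y) : ℝ) = 0
  rw [h3, inner_sub_right]
  linarith

lemma finrank_orth {u : E3} (hu : u ≠ 0) : Module.finrank ℝ ↥((Submodule.span ℝ {u})ᗮ) = 2 := by
  have : Fact (Module.finrank ℝ E3 = 2 + 1) := ⟨by simp⟩
  exact Submodule.finrank_orthogonal_span_singleton hu

theorem nrmls_polar {Y : Finset E3} (hu : ∀ x ∈ Y, ‖x‖ = 1)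
    (ho : ∀ a : E3, a ≠ 0 → ∃ x ∈ Y, 0 < inner ℝ a x) : nrmls (polar Y) = (Y : Set E3) := by
  apply Set.Subset.antisymm (nrmls_sub (PD_polar hu ho))
  intro u huY
  have huY' : u ∈ Y := huY
  refine ⟨hu u huY', ?_⟩
  have hu0 : u ≠ 0 := by
    intro h; have := hu u huY'; rw [h, norm_zero] at this; norm_num at this
  have huu : (inner ℝ u u : ℝ) = 1 := by
    rw [real_inner_self_eq_norm_sq, hu u huY']; norm_num
  have key : vectorSpan ℝ (fc (polar Y) u) = (Submodule.span ℝ {u})ᗮ := by
    apply le_antisymm (vspan_le _ _)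
    intro d hd
    rw [Submodule.mem_orthogonal_singleton_iff_inner_right] at hd
    rw [fc_polar hu huY']
    have hev : ∀ᶠ t : ℝ in nhdsWithin 0 (Ioi 0), ∀ w ∈ Y, (inner ℝ (u + t • d) w : ℝ) ≤ 1 := by
      rw [Filter.eventually_all_finset]
      intro w hw
      by_cases hwu : w = u
      · subst hwu
        refine Filter.Eventually.of_forall fun t => ?_
        rw [inner_add_left, real_inner_smul_left, huu, real_inner_comm, hd]
        simp
      · have h1 : (inner ℝ u w : ℝ) < 1 :=
          (inner_lt_one_iff_real_of_norm_eq_one (hu u huY') (hu w hw)).mpr (Ne.symm hwu)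
        have h2 : ContinuousAt (fun t : ℝ => (inner ℝ (u + t • d) w : ℝ)) 0 := by fun_prop
        have h3 : (fun t : ℝ => (inner ℝ (u + t • d) w : ℝ)) 0 < 1 := by simpa using h1
        have h4 : ∀ᶠ t : ℝ in nhds 0, (inner ℝ (u + t • d) w : ℝ) < 1 := h2.eventually_lt continuousAt_const h3
        have h5 : ∀ᶠ t : ℝ in nhdsWithin 0 (Ioi 0), (inner ℝ (u + t • d) w : ℝ) < 1 :=
          Filter.Eventually.filter_mono nhdsWithin_le_nhds h4
        exact h5.mono fun t ht => le_of_lt ht
    obtain ⟨t, ht, ht0⟩ := (hev.and self_mem_nhdsWithin).exists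
    have ht0' : (0 : ℝ) < t := ht0
    have m1 : u + t • d ∈ {x | x ∈ polar Y ∧ (inner ℝ x u : ℝ) = 1} := by
      refine ⟨ht, ?_⟩
      rw [inner_add_left, real_inner_smul_left, huu, real_inner_comm, hd]
      simp
    have m2 : u ∈ {x | x ∈ polar Y ∧ (inner ℝ x u : ℝ) = 1} := by
      refine ⟨?_, huu⟩
      intro w hw
      calc (inner ℝ u w : ℝ) ≤ ‖u‖ * ‖w‖ := real_inner_le_norm u w
        _ = 1 := by rw [hu u huY', hu w hw]; norm_num
    have m3 := vsub_mem_vectorSpan ℝ m1 m2
    have m4 : (u + t • d) -ᵥ u = t • d := by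
      show (u + t • d) - u = t • d
      abel
    rw [m4] at m3
    have m5 := Submodule.smul_mem _ (t⁻¹) m3
    rwa [smul_smul, inv_mul_cancel₀ ht0'.ne', one_smul] at m5
  rw [key]
  exact finrank_orth hu0

lemma vspan_top {P : Set E3} (hP : (interior P).Nonempty) : vectorSpan ℝ P = ⊤ := by
  have h1 : affineSpan ℝ (interior P) = ⊤ := isOpen_interior.affineSpan_eq_top hP
  have h2 : affineSpan ℝ P = ⊤ := by
    rw [eq_top_iff, ← h1]
    exact affineSpan_mono ℝ interior_subset
  exact AffineSubspace.vectorSpan_eq_top_of_affineSpan_eq_top ℝ E3 E3 h2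

theorem face_iff {P : Set E3} (hP : (interior P).Nonempty) (G : Set E3) :
    IsFace P 2 G ↔ ∃ u ∈ nrmls P, G = fc P u := by
  constructor
  · rintro ⟨hne, hex, hfr⟩
    obtain ⟨l, hl⟩ := hex hne
    set a : E3 := (InnerProductSpace.toDual ℝ E3).symm l with ha
    have hla : ∀ y, l y = inner ℝ a y := fun y => (InnerProductSpace.toDual_symm_apply).symm
    have ha0 : a ≠ 0 := by
      intro h0
      have hGP : G = P := by
        rw [hl]
        ext x
        constructor
        · rintro ⟨h, _⟩; exact h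
        · intro h
          refine ⟨h, fun y _ => ?_⟩
          rw [hla, hla, h0, inner_zero_left, inner_zero_left]
      rw [hGP, vspan_top hP, finrank_top] at hfr
      simp at hfr
    have han : 0 < ‖a‖ := norm_pos_iff.mpr ha0
    have hG : G = fc P (‖a‖⁻¹ • a) := by
      rw [hl]
      ext x
      unfold fc
      constructor
      · rintro ⟨h, h2⟩
        refine ⟨h, fun y hy => ?_⟩
        have := h2 y hy
        rw [hla, hla] at this
        rw [real_inner_smul_left, real_inner_smul_left]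
        exact mul_le_mul_of_nonneg_left this (by positivity)
      · rintro ⟨h, h2⟩
        refine ⟨h, fun y hy => ?_⟩
        have := h2 y hy
        rw [real_inner_smul_left, real_inner_smul_left] at this
        rw [hla, hla]
        exact le_of_mul_le_mul_left this (by positivity)
    refine ⟨‖a‖⁻¹ • a, ⟨?_, ?_⟩, hG⟩
    · rw [norm_smul, norm_inv, norm_norm, inv_mul_cancel₀ han.ne']
    · rw [← hG]; exact hfr
  · rintro ⟨u, ⟨hu1, hu2⟩, rfl⟩
    refine ⟨?_, ?_, hu2⟩
    · by_contra hempty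
      rw [Set.not_nonempty_iff_eq_empty] at hempty
      rw [hempty, vectorSpan_empty] at hu2
      simp at hu2
    · intro _
      refine ⟨InnerProductSpace.toDual ℝ E3 u, ?_⟩
      rfl

theorem numFaces_eq {P : Set E3} (hP : (interior P).Nonempty) :
    numFaces P = (nrmls P).ncard := by
  have h1 : {F : Set E3 | IsFace P 2 F} = fc P '' nrmls P := by
    ext G
    rw [mem_ofPred_eq, face_iff hP, Set.mem_image]
    constructor
    · rintro ⟨u, hu, rfl⟩; exact ⟨u, hu, rfl⟩
    · rintro ⟨u, hu, rfl⟩; exact ⟨u, hu, rfl⟩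
  unfold numFaces
  rw [h1]
  apply Set.InjOn.ncard_image
  intro u hu w hw huw
  have huw' : fc P u = fc P w := huw
  set V := vectorSpan ℝ (fc P u) with hV
  have hV2 : Module.finrank ℝ V = 2 := hu.2
  have hVo : Module.finrank ℝ ↥(Vᗮ) = 1 := by
    have h := Submodule.finrank_add_finrank_orthogonal V
    rw [hV2, finrank_euclideanSpace_fin] at h
    omega
  have huV : u ∈ Vᗮ := by
    rw [Submodule.mem_orthogonal']
    intro v hv
    exact (Submodule.mem_orthogonal_singleton_iff_inner_right).mp (vspan_le P u hv)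
  have hwV : w ∈ Vᗮ := by
    rw [Submodule.mem_orthogonal']
    intro v hv
    rw [hV, huw'] at hv
    exact (Submodule.mem_orthogonal_singleton_iff_inner_right).mp (vspan_le P w hv)
  have hu0 : u ≠ 0 := by
    intro h; have := hu.1; rw [h, norm_zero] at this; norm_num at this
  have hu0' : (⟨u, huV⟩ : ↥(Vᗮ)) ≠ 0 := by
    intro h; exact hu0 (congrArg Subtype.val h)
  obtain ⟨c, hc⟩ := exists_smul_eq_of_finrank_eq_one hVo hu0' (⟨w, hwV⟩ : ↥(Vᗮ))
  have hc' : c • u = w := congrArg Subtype.val hc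
  have hcn : |c| = 1 := by
    have := congrArg norm hc'
    rw [norm_smul, hu.1, hw.1, mul_one, Real.norm_eq_abs] at this
    exact this
  rcases abs_eq (by norm_num : (0 : ℝ) ≤ 1) |>.mp hcn with h | h
  · rw [h, one_smul] at hc'; exact hc'
  · exfalso
    rw [h, neg_smul, one_smul] at hc'
    have hne : (fc P u).Nonempty := by
      by_contra hempty
      rw [Set.not_nonempty_iff_eq_empty] at hempty
      rw [hV, hempty, vectorSpan_empty] at hV2
      simp at hV2
    obtain ⟨x, hx⟩ := hne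
    have hx2 : x ∈ fc P w := huw' ▸ hx
    have hconst : ∀ y ∈ P, (inner ℝ u y : ℝ) = inner ℝ u x := by
      intro y hy
      have a1 := hx.2 y hy
      have a2 := hx2.2 y hy
      rw [← hc', inner_neg_left, inner_neg_left] at a2
      linarith
    obtain ⟨x0, hx0⟩ := hP
    have hcont : ContinuousAt (fun t : ℝ => x0 + t • u) 0 := by fun_prop
    have hev : ∀ᶠ t : ℝ in nhds 0, x0 + t • u ∈ P := by
      apply hcont.eventually
      have : (fun t : ℝ => x0 + t • u) 0 = x0 := by simp
      rw [this]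
      exact mem_interior_iff_mem_nhds.mp hx0
    have hev2 : ∀ᶠ t : ℝ in nhdsWithin 0 (Ioi 0), x0 + t • u ∈ P :=
      Filter.Eventually.filter_mono nhdsWithin_le_nhds hev
    obtain ⟨t, ht, ht0⟩ := (hev2.and self_mem_nhdsWithin).exists
    have ht0' : (0 : ℝ) < t := ht0
    have b1 := hconst _ ht
    have b2 := hconst _ (interior_subset hx0)
    rw [inner_add_right, real_inner_smul_right, real_inner_self_eq_norm_sq, hu.1] at b1
    linarith

end Pool.Agent.Helper320.Gold.NG3
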