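import Mathlib
import Pool.Agent.Helper320.GBaseG
import Pool.Agent.Helper320.GG1
import Pool.Agent.Helper320.GK0

set_option autoImplicit false
open Set

namespace Pool.Agent.Helper320.Gold.NG4

open Pool.Agent.Helper320.Gold Pool.Agent.Helper320.Gold.NG1 Pool.Agent.Helper320.Gold.NK0

open MeasureTheory in
private theorem sa_vol (u : E3) (hu : ‖u‖ = 1) (a : ℝ) (F : Set E3)
    (hFa : ∀ y ∈ F, inner ℝ u y = a) :
    volume {x : E3 | ∃ y ∈ F, ∃ t : ℝ, 0 ≤ t ∧ t ≤ 1 ∧ x = y + t • u} =
      (Measure.euclideanHausdorffMeasure 2 : Measure E3) F := by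
  set s : Submodule ℝ E3 := Submodule.span ℝ {u} with hs
  have huu : inner ℝ u u = (1 : ℝ) := by rw [real_inner_self_eq_norm_sq, hu]; norm_num
  have hus : u ∈ s := Submodule.mem_span_singleton_self u
  have h1 : ∀ x : E3, ((s.orthogonalProjectionOnto x : s) : E3) = (inner ℝ u x : ℝ) • u := by
    intro x
    rw [Submodule.coe_orthogonalProjectionOnto_apply]
    exact Submodule.starProjection_unit_singleton ℝ hu x
  have h2 : ∀ x : E3, ((sᗮ.orthogonalProjectionOnto x : sᗮ) : E3) = x - (inner ℝ u x : ℝ) • u := by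
    intro x
    rw [← h1 x]
    exact eq_sub_of_add_eq' (s.starProjection_add_starProjection_orthogonal x)
  have hpres := s.measurePreserving_measurableEquivProd (0 : E3)
  set I : Set s := {c | inner ℝ u (c : E3) ∈ Icc a (a + 1)} with hI
  set F' : Set sᗮ := {z | a • u + (z : E3) ∈ F} with hF'
  have hT : {x : E3 | ∃ y ∈ F, ∃ t : ℝ, 0 ≤ t ∧ t ≤ 1 ∧ x = y + t • u} =
      (s.measurableEquivProd (0 : E3)) ⁻¹' (I ×ˢ F') := by
    ext x
    simp only [Set.mem_setOf_eq, Set.mem_preimage, Submodule.measurableEquivProd_apply, vsub_eq_sub,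
      sub_zero, Set.mem_prod, hI, hF', h1, h2]
    rw [inner_smul_right, huu, mul_one]
    constructor
    · rintro ⟨y, hy, t, ht0, ht1, rfl⟩
      have h3 : inner ℝ u (y + t • u) = a + t := by
        rw [inner_add_right, inner_smul_right, huu, hFa y hy, mul_one]
      rw [h3]
      refine ⟨⟨by linarith, by linarith⟩, ?_⟩
      have : a • u + (y + t • u - (a + t) • u) = y := by rw [add_smul]; abel
      rw [this]; exact hy
    · rintro ⟨⟨h3, h4⟩, h5⟩
      refine ⟨_, h5, inner ℝ u x - a, by linarith, by linarith, ?_⟩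
      rw [sub_smul]; abel
  have hfin3 : (Measure.euclideanHausdorffMeasure (Module.finrank ℝ E3) : Measure E3) = volume :=
    InnerProductSpace.euclideanHausdorffMeasure_eq_volume
  rw [← hfin3, hT, hpres.measure_preimage_equiv, Measure.volume_eq_prod, Measure.prod_prod]
  have hvI : volume I = 1 := by
    let φ : ℝ ≃ₗᵢ[ℝ] s := LinearIsometryEquiv.toSpanUnitSingleton u hu
    rw [← φ.measurePreserving.measure_preimage_equiv (f := φ.toHomeomorph.toMeasurableEquiv)]
    have : (φ.toHomeomorph.toMeasurableEquiv) ⁻¹' I = Icc a (a + 1) := by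
      ext r
      change inner ℝ u ((φ r : s) : E3) ∈ Icc a (a + 1) ↔ r ∈ Icc a (a + 1)
      have : ((φ r : s) : E3) = r • u := rfl
      rw [this, inner_smul_right, huu, mul_one]
    rw [this, Real.volume_Icc]
    simp
  have hvF : volume F' = (Measure.euclideanHausdorffMeasure 2 : Measure E3) F := by
    haveI : Fact (Module.finrank ℝ E3 = 2 + 1) := ⟨by simp⟩
    have hu0 : u ≠ 0 := by
      intro h; rw [h, norm_zero] at hu; exact zero_ne_one hu
    have hfr : Module.finrank ℝ sᗮ = 2 := Submodule.finrank_orthogonal_span_singleton hu0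
    have h3 : (Measure.euclideanHausdorffMeasure (Module.finrank ℝ sᗮ) : Measure sᗮ) = volume :=
      InnerProductSpace.euclideanHausdorffMeasure_eq_volume
    rw [← h3, hfr]
    have hiso : Isometry (fun z : sᗮ => a • u + (z : E3)) := by
      intro z w
      rw [edist_dist, edist_dist, dist_eq_norm, add_sub_add_left_eq_sub, Subtype.dist_eq,
        dist_eq_norm]
    rw [← hiso.euclideanHausdorffMeasure_image]
    congr 1
    ext y
    constructor
    · rintro ⟨z, hz, rfl⟩
      exact hz
    · intro hy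
      have hmem : y - a • u ∈ sᗮ := by
        rw [hs, Submodule.mem_orthogonal_singleton_iff_inner_right, inner_sub_right,
          inner_smul_right, huu, hFa y hy]
        ring
      refine ⟨⟨y - a • u, hmem⟩, ?_, ?_⟩
      · change a • u + (y - a • u) ∈ F
        rw [add_sub_cancel]; exact hy
      · change a • u + (y - a • u) = y
        rw [add_sub_cancel]
  rw [hvI, hvF, one_mul]

private theorem sa_frontier {P : Set E3} {N : Finset E3} {h : E3 → ℝ} (H : PD P N h) :
    frontier P = ⋃ u ∈ N, {y : E3 | y ∈ P ∧ inner ℝ u y = h u} := by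
  have hcl : IsClosed P := (PD_compact H).isClosed
  rw [hcl.frontier_eq]
  ext x
  simp only [Set.mem_sdiff, Set.mem_iUnion]
  constructor
  · rintro ⟨hxP, hxi⟩
    by_contra hcon
    push Not at hcon
    apply hxi
    rw [mem_interior]
    refine ⟨{y : E3 | ∀ u ∈ N, inner ℝ u y < h u}, ?_, ?_, ?_⟩
    · intro y hy
      rw [H.rep]
      exact fun u hu => (hy u hu).le
    · have : {y : E3 | ∀ u ∈ N, inner ℝ u y < h u} = ⋂ u ∈ N, {y : E3 | inner ℝ u y < h u} := by
        ext y; simp
      rw [this]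
      refine isOpen_biInter_finset fun u _ => isOpen_lt (by fun_prop) continuous_const
    · intro u hu
      have h1 : inner ℝ u x ≤ h u := by
        have h2 : x ∈ {x : E3 | ∀ u ∈ N, inner ℝ u x ≤ h u} := by rw [← H.rep]; exact hxP
        exact h2 u hu
      refine lt_of_le_of_ne h1 fun heq => ?_
      exact hcon u hu ⟨hxP, heq⟩
  · rintro ⟨u, hu, hxP, hxu⟩
    refine ⟨hxP, fun hxi => ?_⟩
    have huu : inner ℝ u u = (1 : ℝ) := by rw [real_inner_self_eq_norm_sq, H.unit u hu]; norm_num
    have hc : Filter.Tendsto (fun t : ℝ => x + t • u) (nhdsWithin 0 (Set.Ioi 0)) (nhds x) := by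
      have h1 : Continuous fun t : ℝ => x + t • u := by fun_prop
      have h2 := (h1.tendsto 0).mono_left (nhdsWithin_le_nhds (s := Set.Ioi 0))
      simpa using h2
    have h3 := hc.eventually (mem_interior_iff_mem_nhds.mp hxi)
    obtain ⟨t, ht, ht0⟩ := (h3.and self_mem_nhdsWithin).exists
    have h4 : x + t • u ∈ {x : E3 | ∀ u ∈ N, inner ℝ u x ≤ h u} := by rw [← H.rep]; exact ht
    have h5 := h4 u hu
    rw [inner_add_right, inner_smul_right, huu, hxu] at h5
    have ht0' : (0 : ℝ) < t := ht0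
    linarith

open MeasureTheory in
private theorem sa_null {P : Set E3} {N : Finset E3} {h : E3 → ℝ} (H : PD P N h) {u w : E3}
    (hu : u ∈ N) (hw : w ∈ N) (huw : u ≠ w) :
    (Measure.euclideanHausdorffMeasure 2 : Measure E3)
      ({y : E3 | y ∈ P ∧ inner ℝ u y = h u} ∩ {y : E3 | y ∈ P ∧ inner ℝ w y = h w}) = 0 := by
  have huu : inner ℝ u u = (1 : ℝ) := by rw [real_inner_self_eq_norm_sq, H.unit u hu]; norm_num
  have hww : inner ℝ w w = (1 : ℝ) := by rw [real_inner_self_eq_norm_sq, H.unit w hw]; norm_num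
  set F : Set E3 := {y : E3 | y ∈ P ∧ inner ℝ u y = h u} ∩ {y : E3 | y ∈ P ∧ inner ℝ w y = h w}
    with hF
  rw [← sa_vol u (H.unit u hu) (h u) F (fun y hy => hy.1.2)]
  set w' : E3 := w - (inner ℝ u w : ℝ) • u with hw'
  have huw' : inner ℝ w' u = (0 : ℝ) := by
    rw [hw', inner_sub_left, inner_smul_left, huu, real_inner_comm]; simp
  by_cases hz : w' = 0
  · -- parallel
    have h1 : w = (inner ℝ u w : ℝ) • u := sub_eq_zero.mp hz
    have h2 : (inner ℝ u w : ℝ) * (inner ℝ u w : ℝ) = 1 := by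
      have h3 : inner ℝ w w = (inner ℝ u w : ℝ) * (inner ℝ u w : ℝ) := by
        conv_lhs => rw [h1]
        rw [inner_smul_left, inner_smul_right, huu]; simp
      rw [← h3, hww]
    have hemp : {x : E3 | ∃ y ∈ F, ∃ t : ℝ, 0 ≤ t ∧ t ≤ 1 ∧ x = y + t • u} = ∅ := by
      rw [Set.eq_empty_iff_forall_notMem]
      rintro x ⟨y, ⟨⟨_, hyu⟩, ⟨_, hyw⟩⟩, _⟩
      have hpu := H.pos u hu
      have hpw := H.pos w hw
      rcases mul_self_eq_one_iff.mp h2 with h3 | h3
      · rw [h3, one_smul] at h1
        exact huw h1.symm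
      · rw [h3] at h1
        rw [h1, inner_smul_left, hyu] at hyw
        have hyw' : -1 * h u = h ((-1 : ℝ) • u) := by simpa using hyw
        rw [← h1] at hyw'
        linarith
    rw [hemp, measure_empty]
  · let A : AffineSubspace ℝ E3 :=
      { carrier := {x : E3 | inner ℝ w' x = h w - inner ℝ u w * h u}
        smul_vsub_vadd_mem' := by
          intro c p1 p2 p3 h1 h2 h3
          simp only [Set.mem_setOf_eq, vsub_eq_sub, vadd_eq_add, inner_add_right,
            inner_smul_right, inner_sub_right] at h1 h2 h3 ⊢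
          rw [h1, h2, h3]; ring }
    have hA : A ≠ ⊤ := by
      intro htop
      have h1 : (0 : E3) ∈ A := by rw [htop]; trivial
      have h2 : w' ∈ A := by rw [htop]; trivial
      have h1' : inner ℝ w' (0 : E3) = h w - inner ℝ u w * h u := h1
      have h2' : inner ℝ w' w' = h w - inner ℝ u w * h u := h2
      rw [← h1', inner_zero_right] at h2'
      exact hz (inner_self_eq_zero.mp h2')
    refine measure_mono_null ?_ (Measure.addHaar_affineSubspace volume A hA)
    rintro x ⟨y, ⟨⟨_, hyu⟩, ⟨_, hyw⟩⟩, t, _, _, rfl⟩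
    change inner ℝ w' (y + t • u) = h w - inner ℝ u w * h u
    rw [inner_add_right, inner_smul_right, huw', hw', inner_sub_left, inner_smul_left, hyu, hyw]
    simp

open MeasureTheory in
private theorem exists_kappa_aux : ∃ κ : ℝ, 0 < κ ∧ ∀ (P : Set E3) (N : Finset E3) (h : E3 → ℝ),
    PD P N h → surf P = κ * ∑ u ∈ N, ar P h u := by
  classical
  set α : NNReal := Measure.addHaarScalarFactor (volume : Measure (EuclideanSpace ℝ (Fin 2)))
    (Measure.hausdorffMeasure ((2 : ℕ) : ℝ)) with hα
  have hα0 : α ≠ 0 := Measure.addHaarScalarFactor_volume_hausdorffMeasure_ne_zero 2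
  have hαpos : (0 : ℝ) < (α : ℝ) := by
    exact_mod_cast pos_iff_ne_zero.mpr hα0
  have hHE : ∀ S : Set E3, (Measure.euclideanHausdorffMeasure 2 : Measure E3) S =
      (α : ENNReal) * (Measure.hausdorffMeasure 2 : Measure E3) S := by
    intro S
    rw [Measure.euclideanHausdorffMeasure_def, ← hα]
    have : ((2 : ℕ) : ℝ) = 2 := by norm_num
    rw [this]
    rfl
  refine ⟨(α : ℝ)⁻¹, inv_pos.mpr hαpos, fun P N h H => ?_⟩
  have hPc := PD_compact H
  have hsurf : surf P = (α : ℝ)⁻¹ *
      ((Measure.euclideanHausdorffMeasure 2 : Measure E3) (frontier P)).toReal := by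
    rw [hHE, ENNReal.toReal_mul, ENNReal.coe_toReal, ← mul_assoc, inv_mul_cancel₀ hαpos.ne',
      one_mul]
    rfl
  rw [hsurf]
  congr 1
  rw [sa_frontier H, measure_biUnion_finset₀]
  · have hvol : ∀ u ∈ N, (Measure.euclideanHausdorffMeasure 2 : Measure E3)
        {y : E3 | y ∈ P ∧ inner ℝ u y = h u} = volume (prism P h u) := by
      intro u hu
      rw [← sa_vol u (H.unit u hu) (h u) _ (fun y hy => hy.2)]
      congr 1
      ext x
      constructor
      · rintro ⟨y, ⟨h1, h2⟩, t, h3, h4, h5⟩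
        exact ⟨y, h1, h2, t, h3, h4, h5⟩
      · rintro ⟨y, h1, h2, t, h3, h4, h5⟩
        exact ⟨y, ⟨h1, h2⟩, t, h3, h4, h5⟩
    have hfin : ∀ u ∈ N, volume (prism P h u) ≠ ⊤ := by
      intro u _
      have hK : IsCompact ((fun q : E3 × ℝ => q.1 + q.2 • u) '' (P ×ˢ Set.Icc (0 : ℝ) 1)) :=
        (hPc.prod isCompact_Icc).image (by fun_prop)
      refine ne_top_of_le_ne_top hK.measure_lt_top.ne (measure_mono ?_)
      rintro x ⟨y, h1, _, t, h3, h4, rfl⟩
      exact ⟨(y, t), ⟨h1, h3, h4⟩, rfl⟩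
    rw [ENNReal.toReal_sum (fun u hu => by rw [hvol u hu]; exact hfin u hu)]
    exact Finset.sum_congr rfl fun u hu => by rw [hvol u hu]; rfl
  · intro u hu w hw huw
    exact sa_null H hu hw huw
  · intro u _
    refine (IsClosed.measurableSet ?_).nullMeasurableSet
    exact hPc.isClosed.inter (isClosed_eq (by fun_prop) continuous_const)

theorem exists_kappa : ∃ κ : ℝ, 0 < κ ∧ ∀ (P : Set E3) (N : Finset E3) (h : E3 → ℝ),
    PD P N h → surf P = κ * ∑ u ∈ N, ar P h u :=
  exists_kappa_aux

end Pool.Agent.Helper320.Gold.NG4
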