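import Mathlib
import Pool.Agent.Helper320.GBaseG
import Pool.Agent.Helper320.GG1
import Pool.Agent.Helper320.GK0

set_option autoImplicit false
open Set

namespace Pool.Agent.Helper320.Gold.NG5

open Pool.Agent.Helper320.Gold Pool.Agent.Helper320.Gold.NG1 Pool.Agent.Helper320.Gold.NK0

open MeasureTheory in
theorem coordEq {w e f : E3} (H : ON w e f) : ∃ M : (ℝ × (Fin 2 → ℝ)) ≃ᵐ E3,
    MeasurePreserving M volume volume ∧ (∀ t z, M (t, z) = t • w + z 0 • e + z 1 • f) := by
  have hon : Orthonormal ℝ ![w, e, f] := by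
    constructor
    · intro i
      fin_cases i
      · exact H.w1
      · exact H.e1
      · exact H.f1
    · intro i j hij
      fin_cases i <;> fin_cases j <;> simp at hij ⊢ <;>
        first
          | exact H.we
          | exact H.wf
          | exact H.ef
          | (rw [real_inner_comm]; first | exact H.we | exact H.wf | exact H.ef)
  have hcard : Fintype.card (Fin 3) = Module.finrank ℝ E3 := by simp
  let b0 := basisOfOrthonormalOfCardEqFinrank hon hcard
  have hb0 : (b0 : Fin 3 → E3) = ![w, e, f] := coe_basisOfOrthonormalOfCardEqFinrank hon hcard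
  let b : OrthonormalBasis (Fin 3) ℝ E3 := b0.toOrthonormalBasis (by rw [hb0]; exact hon)
  have hb : (b : Fin 3 → E3) = ![w, e, f] := by
    rw [← hb0]; exact Module.Basis.coe_toOrthonormalBasis _ _
  let M1 := (MeasurableEquiv.piFinSuccAbove (fun _ : Fin 3 => ℝ) 0).symm
  let M2 := MeasurableEquiv.toLp 2 (Fin 3 → ℝ)
  let M3 := b.repr.symm.toHomeomorph.toMeasurableEquiv
  refine ⟨(M1.trans M2).trans M3, ?_, ?_⟩
  · have h1 : MeasurePreserving M1 volume volume :=
      (volume_preserving_piFinSuccAbove (fun _ : Fin 3 => ℝ) 0).symm _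
    have h2 : MeasurePreserving M2 volume volume := PiLp.volume_preserving_toLp (Fin 3)
    have h3 : MeasurePreserving M3 volume volume := b.measurePreserving_repr_symm
    exact (h1.trans h2).trans h3
  · intro t z
    show b.repr.symm (WithLp.toLp 2 ((MeasurableEquiv.piFinSuccAbove (fun _ : Fin 3 => ℝ) 0).symm (t, z))) = _
    rw [← OrthonormalBasis.sum_repr_symm]
    rw [Fin.sum_univ_three, hb]
    simp [MeasurableEquiv.piFinSuccAbove]
    rfl
theorem inner_coord {w e f : E3} (H : ON w e f) (t : ℝ) (z : Fin 2 → ℝ) :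
    inner ℝ w (t • w + z 0 • e + z 1 • f) = t := by
  rw [inner_add_right, inner_add_right, real_inner_smul_right, real_inner_smul_right,
    real_inner_smul_right, real_inner_self_eq_norm_sq, H.w1, H.we, H.wf]; ring

theorem face_compact {P : Set E3} {N : Finset E3} {h : E3 → ℝ} (H : PD P N h) (u : E3) :
    IsCompact {y | y ∈ P ∧ inner ℝ u y = h u} := by
  have : {y | y ∈ P ∧ inner ℝ u y = h u} = P ∩ {y | inner ℝ u y = h u} := rfl
  rw [this]
  exact (PD_compact H).inter_right (isClosed_eq (by fun_prop) (by fun_prop))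

theorem pyr_compact {P : Set E3} {N : Finset E3} {h : E3 → ℝ} (H : PD P N h) (u : E3) :
    IsCompact (pyr P h u) := by
  have : pyr P h u = (fun p : ℝ × E3 => p.1 • p.2) '' (Icc (0 : ℝ) 1 ×ˢ {y | y ∈ P ∧ inner ℝ u y = h u}) := by
    ext x
    constructor
    · rintro ⟨y, hy, hyu, s, hs0, hs1, rfl⟩
      exact ⟨(s, y), ⟨⟨hs0, hs1⟩, hy, hyu⟩, rfl⟩
    · rintro ⟨⟨s, y⟩, ⟨⟨hs0, hs1⟩, hy, hyu⟩, rfl⟩
      exact ⟨y, hy, hyu, s, hs0, hs1, rfl⟩
  rw [this]
  exact (isCompact_Icc.prod (face_compact H u)).image (by fun_prop)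

open MeasureTheory Pointwise in
theorem vol_prism_aux {P : Set E3} {N : Finset E3} {h : E3 → ℝ} {u e f : E3} (hon : ON u e f)
    (M : (ℝ × (Fin 2 → ℝ)) ≃ᵐ E3) (hM : MeasurePreserving M volume volume)
    (hM2 : ∀ t z, M (t, z) = t • u + z 0 • e + z 1 • f) :
    volume (prism P h u) = volume {z : Fin 2 → ℝ | h u • u + z 0 • e + z 1 • f ∈ P} := by
  rw [← hM.measure_preimage_equiv]
  have : M ⁻¹' (prism P h u) = Icc (h u) (h u + 1) ×ˢ
      {z : Fin 2 → ℝ | h u • u + z 0 • e + z 1 • f ∈ P} := by
    ext ⟨t, z⟩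
    simp only [mem_preimage, hM2, mem_prod, mem_Icc, mem_setOf_eq]
    constructor
    · rintro ⟨y, hy, hyu, s, hs0, hs1, hx⟩
      have h1 := congrArg (fun v => inner ℝ u v) hx
      simp only [inner_coord hon, inner_add_right, hyu, real_inner_smul_right,
        real_inner_self_eq_norm_sq, hon.w1] at h1
      have h2 : t = h u + s := by linarith
      refine ⟨⟨by linarith, by linarith⟩, ?_⟩
      have : h u • u + z 0 • e + z 1 • f = y := by
        rw [h2] at hx
        have : h u • u + z 0 • e + z 1 • f = ((h u + s) • u + z 0 • e + z 1 • f) - s • u := by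
          rw [add_smul]; abel
        rw [this, hx]; abel
      rw [this]; exact hy
    · rintro ⟨⟨h1, h2⟩, h3⟩
      refine ⟨_, h3, inner_coord hon _ _, t - h u, by linarith, by linarith, ?_⟩
      rw [sub_smul]; abel
  rw [this]
  show (volume.prod volume) _ = _
  rw [Measure.prod_prod]
  simp

open MeasureTheory Pointwise in
theorem lint_aux {c : ℝ} (hc : 0 < c) (A : ENNReal) :
    ∫⁻ t : ℝ, (Ioc 0 c).indicator (fun t => ENNReal.ofReal ((t / c) ^ 2) * A) t =
      ENNReal.ofReal (c / 3) * A := by
  rw [lintegral_indicator measurableSet_Ioc, lintegral_mul_const _ (by fun_prop)]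
  congr 1
  rw [← ofReal_integral_eq_lintegral_ofReal]
  · congr 1
    rw [← intervalIntegral.integral_of_le hc.le]
    simp only [div_pow]
    rw [intervalIntegral.integral_div, integral_pow]
    field_simp
    ring
  · exact (Continuous.integrableOn_Icc (by fun_prop)).mono_set Ioc_subset_Icc_self
  · exact Filter.Eventually.of_forall (fun t => sq_nonneg _)

open MeasureTheory Pointwise in
theorem vol_pyr {P : Set E3} {N : Finset E3} {h : E3 → ℝ} (H : PD P N h) {u : E3} (hu : u ∈ N) :
    (MeasureTheory.volume (pyr P h u)).toReal = h u * ar P h u / 3 := by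
  obtain ⟨e, f, hon⟩ := exists_ON (H.unit u hu)
  obtain ⟨M, hM, hM2⟩ := coordEq hon
  have hpos := H.pos u hu
  set Z := {z : Fin 2 → ℝ | h u • u + z 0 • e + z 1 • f ∈ P} with hZ
  have h1 : volume (pyr P h u) = ENNReal.ofReal (h u / 3) * volume Z := by
    rw [← hM.measure_preimage_equiv]
    have hmeas : MeasurableSet (M ⁻¹' (pyr P h u)) :=
      M.measurable (pyr_compact H u).measurableSet
    show (volume.prod volume) _ = _
    rw [Measure.prod_apply hmeas, ← lint_aux hpos]
    apply lintegral_congr_ae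
    have h0 : ∀ᵐ t : ℝ ∂volume, t ≠ 0 := by
      rw [ae_iff]; simp
    filter_upwards [h0] with t ht
    by_cases hti : t ∈ Ioc 0 (h u)
    · rw [indicator_of_mem hti]
      have hs : 0 < t / h u := div_pos hti.1 hpos
      have : Prod.mk t ⁻¹' (M ⁻¹' pyr P h u) = (t / h u) • Z := by
        ext z
        rw [mem_smul_set_iff_inv_smul_mem₀ hs.ne']
        simp only [mem_preimage, hM2, hZ, mem_setOf_eq, Pi.smul_apply, smul_eq_mul]
        constructor
        · rintro ⟨y, hy, hyu, s, hs0, hs1, hx⟩
          have h1 := congrArg (fun v => inner ℝ u v) hx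
          simp only [inner_coord hon, hyu, real_inner_smul_right] at h1
          have h2 : t / h u = s := by rw [h1]; field_simp
          have h3 : s ≠ 0 := by rw [← h2]; exact hs.ne'
          have : h u • u + ((t / h u)⁻¹ * z 0) • e + ((t / h u)⁻¹ * z 1) • f = y := by
            rw [h2]
            have : y = s⁻¹ • (t • u + z 0 • e + z 1 • f) := by
              rw [hx, smul_smul, inv_mul_cancel₀ h3, one_smul]
            rw [this, smul_add, smul_add, smul_smul, smul_smul, smul_smul]
            congr 3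
            rw [h1]; field_simp
          rw [this]; exact hy
        · intro h3
          refine ⟨_, h3, ?_, t / h u, hs.le, ?_, ?_⟩
          · exact inner_coord hon (h u) (fun i => (t / h u)⁻¹ * z i)
          · rw [div_le_one hpos]; exact hti.2
          · rw [smul_add, smul_add, smul_smul, smul_smul, smul_smul]
            have hne : t ≠ 0 := ht
            have hne2 : h u ≠ 0 := hpos.ne'
            have e1 : t / h u * h u = t := by field_simp
            have e2 : t / h u * ((t / h u)⁻¹ * z 0) = z 0 := by field_simp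
            have e3 : t / h u * ((t / h u)⁻¹ * z 1) = z 1 := by field_simp
            rw [e1, e2, e3]
      rw [this, Measure.addHaar_smul]
      simp only [Module.finrank_fintype_fun_eq_card, Fintype.card_fin]
      rw [abs_of_nonneg (sq_nonneg _)]
    · rw [indicator_of_notMem hti]
      have : Prod.mk t ⁻¹' (M ⁻¹' pyr P h u) = ∅ := by
        ext z
        simp only [mem_preimage, hM2, mem_empty_iff_false, iff_false]
        rintro ⟨y, hy, hyu, s, hs0, hs1, hx⟩
        have h1 := congrArg (fun v => inner ℝ u v) hx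
        simp only [inner_coord hon, hyu, real_inner_smul_right] at h1
        apply hti
        constructor
        · rcases lt_or_eq_of_le (mul_nonneg hs0 hpos.le) with h2 | h2
          · rw [h1]; exact h2
          · exact absurd (h1.trans h2.symm) ht
        · rw [h1]; nlinarith
      rw [this, measure_empty]
  have h2 : ar P h u = (volume Z).toReal := by
    unfold ar
    rw [vol_prism_aux (P := P) (N := N) (h := h) hon M hM hM2]
  rw [h1, h2, ENNReal.toReal_mul, ENNReal.toReal_ofReal (by positivity)]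
  ring

/-- key observation -/
theorem key_max {P : Set E3} {N : Finset E3} {h : E3 → ℝ} (H : PD P N h) {x : E3} (hx : x ≠ 0) :
    ∃ u ∈ N, 0 < inner ℝ u x ∧ (∀ v ∈ N, inner ℝ v x / h v ≤ inner ℝ u x / h u) ∧
      ∃ y, y ∈ P ∧ inner ℝ u y = h u ∧ x = (inner ℝ u x / h u) • y := by
  obtain ⟨u0, hu0, hu0p⟩ := H.orig x hx
  obtain ⟨u, hu, hmax⟩ := Finset.exists_max_image N (fun v => inner ℝ v x / h v) ⟨u0, hu0⟩
  have hg0 : 0 < inner ℝ u0 x / h u0 := by
    apply div_pos _ (H.pos u0 hu0)
    rw [real_inner_comm]; exact hu0p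
  have hg : 0 < inner ℝ u x / h u := lt_of_lt_of_le hg0 (hmax u0 hu0)
  have hup := H.pos u hu
  have hip : 0 < inner ℝ u x := by
    rw [div_pos_iff] at hg
    rcases hg with hg | hg
    · exact hg.1
    · exact absurd hg.2 (not_lt.mpr hup.le)
  refine ⟨u, hu, hip, hmax, (inner ℝ u x / h u)⁻¹ • x, ?_, ?_, ?_⟩
  · rw [H.rep]
    intro v hv
    rw [real_inner_smul_right, inv_mul_le_iff₀ hg]
    have h2 := hmax v hv
    rw [div_le_iff₀ (H.pos v hv)] at h2
    exact h2
  · rw [real_inner_smul_right, inv_div]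
    field_simp
  · rw [smul_smul, mul_inv_cancel₀ hg.ne', one_smul]

theorem pyr_sub {P : Set E3} {N : Finset E3} {h : E3 → ℝ} (H : PD P N h) {u : E3} :
    pyr P h u ⊆ P := by
  rintro x ⟨y, hy, hyu, s, hs0, hs1, rfl⟩
  rw [H.rep] at hy ⊢
  intro v hv
  rw [real_inner_smul_right]
  have h1 := hy v hv
  have h2 := H.pos v hv
  nlinarith [mul_le_mul_of_nonneg_left h1 hs0]

theorem pyr_max {P : Set E3} {N : Finset E3} {h : E3 → ℝ} (H : PD P N h) {u : E3} (hu : u ∈ N) {x : E3}
    (hx : x ∈ pyr P h u) : ∀ v ∈ N, inner ℝ v x / h v ≤ inner ℝ u x / h u := by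
  obtain ⟨y, hy, hyu, s, hs0, hs1, rfl⟩ := hx
  intro v hv
  rw [H.rep] at hy
  have h1 := hy v hv
  have hu' := H.pos u hu
  have hv' := H.pos v hv
  rw [real_inner_smul_right, real_inner_smul_right, hyu, mul_div_assoc, mul_div_assoc, div_self hu'.ne']
  apply mul_le_mul_of_nonneg_left _ hs0
  rw [div_le_one hv']
  exact h1

open MeasureTheory Pointwise in
theorem pyr_disj {P : Set E3} {N : Finset E3} {h : E3 → ℝ} (H : PD P N h) {u w : E3} (hu : u ∈ N)
    (hw : w ∈ N) (huw : u ≠ w) : volume (pyr P h u ∩ pyr P h w) = 0 := by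
  have hup := H.pos u hu
  have hwp := H.pos w hw
  set a : E3 := (h u)⁻¹ • u - (h w)⁻¹ • w with ha
  have hane : a ≠ 0 := by
    intro h0
    rw [ha, sub_eq_zero] at h0
    have h1 := congrArg norm h0
    rw [norm_smul, norm_smul, H.unit u hu, H.unit w hw, mul_one, mul_one, Real.norm_eq_abs,
      Real.norm_eq_abs, abs_of_pos (inv_pos.mpr hup), abs_of_pos (inv_pos.mpr hwp)] at h1
    rw [h1] at h0
    apply huw
    have h2 := congrArg (fun v => (h w) • v) h0
    simpa [smul_smul, hwp.ne'] using h2
  have hsub : pyr P h u ∩ pyr P h w ⊆ ((innerSL ℝ a).ker : Submodule ℝ E3) := by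
    rintro x ⟨hx1, hx2⟩
    have h1 := pyr_max H hu hx1 w hw
    have h2 := pyr_max H hw hx2 u hu
    have h3 := le_antisymm h1 h2
    simp only [SetLike.mem_coe, LinearMap.mem_ker]
    show inner ℝ a x = 0
    rw [ha, inner_sub_left, real_inner_smul_left, real_inner_smul_left]
    rw [div_eq_inv_mul, div_eq_inv_mul] at h3
    linarith
  apply measure_mono_null hsub
  apply Measure.addHaar_submodule
  intro htop
  have : a ∈ ((innerSL ℝ a).ker : Submodule ℝ E3) := by rw [htop]; trivial
  rw [LinearMap.mem_ker] at this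
  have h5 : inner ℝ a a = (0 : ℝ) := this
  exact hane (inner_self_eq_zero.mp h5)

open MeasureTheory Pointwise in
theorem vol_PD {P : Set E3} {N : Finset E3} {h : E3 → ℝ} (H : PD P N h) :
    (MeasureTheory.volume P).toReal = ∑ u ∈ N, h u * ar P h u / 3 := by
  have h1 : volume P = volume (⋃ u ∈ N, pyr P h u) := by
    apply le_antisymm
    · have hsub : P ⊆ (⋃ u ∈ N, pyr P h u) ∪ {0} := by
        intro x hx
        by_cases hx0 : x = 0
        · right; exact hx0
        · left
          obtain ⟨u, hu, hip, hmax, y, hy, hyu, hxy⟩ := key_max H hx0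
          simp only [mem_iUnion]
          refine ⟨u, hu, y, hy, hyu, inner ℝ u x / h u, ?_, ?_, hxy⟩
          · exact (div_pos hip (H.pos u hu)).le
          · rw [div_le_one (H.pos u hu)]
            rw [H.rep] at hx
            exact hx u hu
      refine (measure_mono hsub).trans ?_
      refine (measure_union_le _ _).trans ?_
      simp
    · apply measure_mono
      intro x hx
      simp only [mem_iUnion] at hx
      obtain ⟨u, hu, hx⟩ := hx
      exact pyr_sub H hx
  rw [h1, measure_biUnion_finset₀]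
  · rw [ENNReal.toReal_sum]
    · exact Finset.sum_congr rfl (fun u hu => vol_pyr H hu)
    · intro u hu
      exact (pyr_compact H u).measure_lt_top.ne
  · intro u hu w hw huw
    exact pyr_disj H hu hw huw
  · intro u hu
    exact (pyr_compact H u).measurableSet.nullMeasurableSet

open MeasureTheory Pointwise in
theorem vol_outer {P : Set E3} {N : Finset E3} {h : E3 → ℝ} (H : PD P N h) {ε : ℝ} (hε : 0 ≤ ε) :
    (MeasureTheory.volume {x : E3 | ∀ u ∈ N, inner ℝ u x ≤ h u + ε}).toReal ≤
      ∑ u ∈ N, (1 + ε / h u) ^ 3 * (h u * ar P h u / 3) := by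
  have hsub : {x : E3 | ∀ u ∈ N, inner ℝ u x ≤ h u + ε} ⊆
      (⋃ u ∈ N, (1 + ε / h u) • pyr P h u) ∪ {0} := by
    intro x hx
    by_cases hx0 : x = 0
    · right; exact hx0
    · left
      obtain ⟨u, hu, hip, hmax, y, hy, hyu, hxy⟩ := key_max H hx0
      have hup := H.pos u hu
      simp only [mem_iUnion]
      refine ⟨u, hu, ?_⟩
      have hc : 0 < 1 + ε / h u := by positivity
      rw [mem_smul_set_iff_inv_smul_mem₀ hc.ne']
      refine ⟨y, hy, hyu, (1 + ε / h u)⁻¹ * (inner ℝ u x / h u), ?_, ?_, ?_⟩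
      · positivity
      · rw [inv_mul_le_iff₀ hc, mul_one, div_le_iff₀ hup]
        have := hx u hu
        have h2 : (1 + ε / h u) * h u = h u + ε := by field_simp
        rw [h2]; exact this
      · conv_lhs => rw [hxy]
        rw [smul_smul]
  have h1 : volume {x : E3 | ∀ u ∈ N, inner ℝ u x ≤ h u + ε} ≤
      ∑ u ∈ N, ENNReal.ofReal ((1 + ε / h u) ^ 3) * volume (pyr P h u) := by
    refine (measure_mono hsub).trans ?_
    refine (measure_union_le _ _).trans ?_
    rw [measure_singleton, add_zero]
    refine (measure_biUnion_finset_le _ _).trans ?_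
    apply Finset.sum_le_sum
    intro u hu
    have hup := H.pos u hu
    rw [Measure.addHaar_smul]
    rw [finrank_euclideanSpace_fin, abs_of_nonneg (by positivity)]
  have h2 : ∑ u ∈ N, ENNReal.ofReal ((1 + ε / h u) ^ 3) * volume (pyr P h u) ≠ ⊤ := by
    apply ne_of_lt
    rw [ENNReal.sum_lt_top]
    intro u hu
    exact ENNReal.mul_lt_top ENNReal.ofReal_lt_top (pyr_compact H u).measure_lt_top
  refine (ENNReal.toReal_mono h2 h1).trans ?_
  rw [ENNReal.toReal_sum]
  · apply Finset.sum_le_sum
    intro u hu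
    have hup := H.pos u hu
    rw [ENNReal.toReal_mul, ENNReal.toReal_ofReal (by positivity), vol_pyr H hu]
  · intro u hu
    exact (ENNReal.mul_lt_top ENNReal.ofReal_lt_top (pyr_compact H u).measure_lt_top).ne

end Pool.Agent.Helper320.Gold.NG5
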