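import Mathlib
import Pool.Agent.Helper320.GBaseA

set_option autoImplicit false
open Set

namespace Pool.Agent.Helper320.Gold.NP1

open Pool.Agent.Helper320.Gold

open MeasureTheory Filter Topology in
/-- the distribution function of a positive continuous density on an open interval -/
lemma exists_distr {a b : ℝ} (hab : a < b) {f : ℝ → ℝ} (hfc : ContinuousOn f (Ioo a b))
    (hf : ∀ s ∈ Ioo a b, 0 < f s) (hfi : IntegrableOn f (Ioo a b))
    (hf1 : ∫ s in Ioo a b, f s = 1) :
    ∃ F : ℝ → ℝ, (∀ s ∈ Ioo a b, HasDerivAt F (f s) s) ∧ StrictMonoOn F (Ioo a b) ∧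
      F '' Ioo a b = Ioo 0 1 := by
  set f' : ℝ → ℝ := (Ioo a b).indicator f with hf'
  have hint : Integrable f' := hfi.integrable_indicator measurableSet_Ioo
  have hcont : Continuous fun s => ∫ x in a..s, f' x := intervalIntegral.continuous_primitive
    (fun u v => hint.intervalIntegrable) a
  have hder : ∀ s ∈ Ioo a b, HasDerivAt (fun s => ∫ x in a..s, f' x) (f s) s := by
    intro s hs
    have hev : f' =ᶠ[𝓝 s] f := by
      filter_upwards [isOpen_Ioo.mem_nhds hs] with x hx
      simp only [hf', indicator_of_mem hx]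
    have hca : ContinuousAt f' s :=
      (hfc.continuousAt (isOpen_Ioo.mem_nhds hs)).congr hev.symm
    have h1 := intervalIntegral.integral_hasDerivAt_right (hint.intervalIntegrable (a := a) (b := s))
      (hint.aestronglyMeasurable.stronglyMeasurableAtFilter) hca
    rwa [hev.eq_of_nhds] at h1
  have hmono : StrictMonoOn (fun s => ∫ x in a..s, f' x) (Icc a b) := by
    refine strictMonoOn_of_deriv_pos (convex_Icc a b) hcont.continuousOn ?_
    intro x hx
    rw [interior_Icc] at hx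
    rw [(hder x hx).deriv]
    exact hf x hx
  have h0 : (∫ x in a..a, f' x) = 0 := intervalIntegral.integral_same
  have hb1 : (∫ x in a..b, f' x) = 1 := by
    rw [intervalIntegral.integral_of_le hab.le, integral_Ioc_eq_integral_Ioo, ← hf1]
    refine setIntegral_congr_fun measurableSet_Ioo ?_
    intro x hx
    simp only [hf', indicator_of_mem hx]
  refine ⟨fun s => ∫ x in a..s, f' x, hder, hmono.mono Ioo_subset_Icc_self, ?_⟩
  apply Subset.antisymm
  · rintro y ⟨s, hs, rfl⟩
    constructor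
    · have := hmono (left_mem_Icc.2 hab.le) (Ioo_subset_Icc_self hs) hs.1
      simpa only [h0] using this
    · have := hmono (Ioo_subset_Icc_self hs) (right_mem_Icc.2 hab.le) hs.2
      simpa only [hb1] using this
  · have := intermediate_value_Ioo hab.le hcont.continuousOn (f := fun s => ∫ x in a..s, f' x)
    simpa only [h0, hb1] using this

open MeasureTheory Filter Topology in
/-- the transport map -/
lemma exists_transport {a b c d : ℝ} {f g F G : ℝ → ℝ}
    (hg : ∀ s ∈ Ioo c d, 0 < g s)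
    (hF : ∀ s ∈ Ioo a b, HasDerivAt F (f s) s) (hFm : StrictMonoOn F (Ioo a b))
    (hFi : F '' Ioo a b = Ioo 0 1)
    (hG : ∀ s ∈ Ioo c d, HasDerivAt G (g s) s) (hGm : StrictMonoOn G (Ioo c d))
    (hGi : G '' Ioo c d = Ioo 0 1) :
    ∃ T : ℝ → ℝ, (∀ s ∈ Ioo a b, T s ∈ Ioo c d) ∧ T '' Ioo a b = Ioo c d ∧
      StrictMonoOn T (Ioo a b) ∧ ∀ s ∈ Ioo a b, HasDerivAt T (f s / g (T s)) s := by
  set Gi : ℝ → ℝ := Function.invFunOn G (Ioo c d) with hGidef
  have hex : ∀ y ∈ Ioo (0 : ℝ) 1, ∃ t ∈ Ioo c d, G t = y := by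
    intro y hy
    rw [← hGi] at hy
    exact hy
  have hGimem : ∀ y ∈ Ioo (0 : ℝ) 1, Gi y ∈ Ioo c d := fun y hy =>
    Function.invFunOn_mem (hex y hy)
  have hGGi : ∀ y ∈ Ioo (0 : ℝ) 1, G (Gi y) = y := fun y hy => Function.invFunOn_eq (hex y hy)
  have hGiG : ∀ t ∈ Ioo c d, Gi (G t) = t := fun t ht =>
    hGm.injOn.leftInvOn_invFunOn ht
  have hFmem : ∀ s ∈ Ioo a b, F s ∈ Ioo (0 : ℝ) 1 := fun s hs => by
    rw [← hFi]; exact mem_image_of_mem _ hs
  have hGmem : ∀ s ∈ Ioo c d, G s ∈ Ioo (0 : ℝ) 1 := fun s hs => by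
    rw [← hGi]; exact mem_image_of_mem _ hs
  have hGimono : StrictMonoOn Gi (Ioo 0 1) := by
    intro y hy y' hy' hlt
    by_contra hcon
    have h1 : G (Gi y') ≤ G (Gi y) := hGm.monotoneOn (hGimem y' hy') (hGimem y hy) (not_lt.1 hcon)
    rw [hGGi y hy, hGGi y' hy'] at h1
    linarith
  have hGiimage : Gi '' Ioo 0 1 = Ioo c d := by
    apply Subset.antisymm
    · rintro _ ⟨y, hy, rfl⟩
      exact hGimem y hy
    · intro t ht
      exact ⟨G t, hGmem t ht, hGiG t ht⟩
  have hGicont : ∀ y ∈ Ioo (0 : ℝ) 1, ContinuousAt Gi y := by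
    intro y hy
    refine continuousAt_of_monotoneOn_of_image_mem_nhds hGimono.monotoneOn
      (isOpen_Ioo.mem_nhds hy) ?_
    rw [hGiimage]
    exact isOpen_Ioo.mem_nhds (hGimem y hy)
  have hGider : ∀ y ∈ Ioo (0 : ℝ) 1, HasDerivAt Gi (g (Gi y))⁻¹ y := by
    intro y hy
    refine HasDerivAt.of_local_left_inverse (hGicont y hy) (hG _ (hGimem y hy))
      (hg _ (hGimem y hy)).ne' ?_
    filter_upwards [isOpen_Ioo.mem_nhds hy] with y' hy'
    exact hGGi y' hy'
  refine ⟨fun s => Gi (F s), fun s hs => hGimem _ (hFmem s hs), ?_, ?_, ?_⟩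
  · apply Subset.antisymm
    · rintro _ ⟨s, hs, rfl⟩
      exact hGimem _ (hFmem s hs)
    · intro t ht
      have h1 := hGmem t ht
      rw [← hFi] at h1
      obtain ⟨s, hs, hst⟩ := h1
      exact ⟨s, hs, by simp only [hst, hGiG t ht]⟩
  · intro s hs s' hs' hlt
    exact hGimono (hFmem s hs) (hFmem s' hs') (hFm hs hs' hlt)
  · intro s hs
    have h1 := (hGider _ (hFmem s hs)).comp s (hF s hs)
    rw [div_eq_inv_mul]
    exact h1

open MeasureTheory Filter Topology in
theorem pl_eq {θ : ℝ} (h0 : 0 < θ) (h1 : θ < 1) {a b c d : ℝ} (hab : a < b) (hcd : c < d)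
    {f g h : ℝ → ℝ} (hfc : ContinuousOn f (Ioo a b)) (hgc : ContinuousOn g (Ioo c d))
    (hf : ∀ s ∈ Ioo a b, 0 < f s) (hg : ∀ s ∈ Ioo c d, 0 < g s)
    (hfi : MeasureTheory.IntegrableOn f (Ioo a b)) (hgi : MeasureTheory.IntegrableOn g (Ioo c d))
    (hf1 : ∫ s in Ioo a b, f s = 1) (hg1 : ∫ s in Ioo c d, g s = 1)
    (hh : MeasureTheory.Integrable h) (hh0 : ∀ x, 0 ≤ h x)
    (H : ∀ s ∈ Ioo a b, ∀ t ∈ Ioo c d, f s ^ θ * g t ^ (1 - θ) ≤ h (θ * s + (1 - θ) * t)) :
    1 ≤ ∫ x, h x ∧ ((∫ x, h x) ≤ 1 → d - c = b - a ∧ ∀ s ∈ Ioo a b, g (s + (c - a)) = f s) := by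
  obtain ⟨F, hF, hFm, hFi⟩ := exists_distr hab hfc hf hfi hf1
  obtain ⟨G, hG, hGm, hGi⟩ := exists_distr hcd hgc hg hgi hg1
  obtain ⟨T, hTm, hTi, hTmono, hTd⟩ := exists_transport (f := f) hg hF hFm hFi hG hGm hGi
  have h1' : 0 < 1 - θ := by linarith
  set z : ℝ → ℝ := fun s => θ * s + (1 - θ) * T s with hz
  set z' : ℝ → ℝ := fun s => θ + (1 - θ) * (f s / g (T s)) with hz'
  have hzd : ∀ s ∈ Ioo a b, HasDerivWithinAt z (z' s) (Ioo a b) s := by
    intro s hs
    have e1 : HasDerivAt z (θ * 1 + (1 - θ) * (f s / g (T s))) s :=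
      ((hasDerivAt_id s).const_mul θ).add ((hTd s hs).const_mul (1 - θ))
    rw [mul_one] at e1
    exact e1.hasDerivWithinAt
  have hzinj : InjOn z (Ioo a b) := by
    have : StrictMonoOn z (Ioo a b) := by
      intro s hs s' hs' hlt
      have e1 := hTmono hs hs' hlt
      have e2 := mul_lt_mul_of_pos_left hlt h0
      have e3 := mul_lt_mul_of_pos_left e1 h1'
      show θ * s + (1 - θ) * T s < θ * s' + (1 - θ) * T s'
      linarith
    exact this.injOn
  have hx0 : ∀ s ∈ Ioo a b, 0 < f s / g (T s) := fun s hs => div_pos (hf s hs) (hg _ (hTm s hs))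
  have hz'0 : ∀ s ∈ Ioo a b, 0 < z' s := fun s hs => by
    have := mul_pos h1' (hx0 s hs)
    show 0 < θ + (1 - θ) * (f s / g (T s))
    linarith
  -- pointwise inequality
  have hpt1 : ∀ s ∈ Ioo a b, z' s * (f s ^ θ * g (T s) ^ (1 - θ)) ≤ |z' s| • h (z s) := by
    intro s hs
    rw [abs_of_pos (hz'0 s hs), smul_eq_mul]
    exact mul_le_mul_of_nonneg_left (H s hs _ (hTm s hs)) (hz'0 s hs).le
  have hkey : ∀ s ∈ Ioo a b, f s = (f s / g (T s)) ^ (1 - θ) * (f s ^ θ * g (T s) ^ (1 - θ)) := by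
    intro s hs
    have e1 := hf s hs
    have e2 := hg _ (hTm s hs)
    rw [Real.div_rpow e1.le e2.le]
    have e3 : g (T s) ^ (1 - θ) ≠ 0 := (Real.rpow_pos_of_pos e2 _).ne'
    have e4 : f s ^ (1 - θ) * f s ^ θ = f s := by
      rw [← Real.rpow_add e1]; simp
    calc f s = f s ^ (1 - θ) * f s ^ θ := e4.symm
      _ = _ := by field_simp
  have hbern : ∀ x : ℝ, 0 < x → x ^ (1 - θ) ≤ θ + (1 - θ) * x := by
    intro x hx
    have := Real.geom_mean_le_arith_mean2_weighted h0.le h1'.le zero_le_one hx.le (by ring)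
    rw [Real.one_rpow, one_mul, mul_one] at this
    exact this
  have hpt2 : ∀ s ∈ Ioo a b, f s ≤ z' s * (f s ^ θ * g (T s) ^ (1 - θ)) := by
    intro s hs
    have e1 := hf s hs
    have e2 := hg _ (hTm s hs)
    calc f s = (f s / g (T s)) ^ (1 - θ) * (f s ^ θ * g (T s) ^ (1 - θ)) := hkey s hs
      _ ≤ _ := mul_le_mul_of_nonneg_right (hbern _ (hx0 s hs)) (by positivity)
  have hint : IntegrableOn (fun s => |z' s| • h (z s)) (Ioo a b) :=
    (integrableOn_image_iff_integrableOn_abs_deriv_smul measurableSet_Ioo hzd hzinj h).1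
      hh.integrableOn
  have hle1 : ∫ s in Ioo a b, |z' s| • h (z s) ≤ ∫ x, h x := by
    rw [← integral_image_eq_integral_abs_deriv_smul measurableSet_Ioo hzd hzinj h]
    exact setIntegral_le_integral hh (Eventually.of_forall hh0)
  have hle2 : 1 ≤ ∫ s in Ioo a b, |z' s| • h (z s) := by
    rw [← hf1]
    exact setIntegral_mono_on hfi hint measurableSet_Ioo fun s hs =>
      (hpt2 s hs).trans (hpt1 s hs)
  refine ⟨hle2.trans hle1, fun hle => ?_⟩
  -- the equality case
  have hzero : ∫ s in Ioo a b, (|z' s| • h (z s) - f s) = 0 := by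
    rw [integral_sub hint hfi, hf1]
    have := hle1.trans hle
    linarith
  have hae : (fun s => |z' s| • h (z s) - f s) =ᵐ[volume.restrict (Ioo a b)] 0 := by
    refine (integral_eq_zero_iff_of_nonneg_ae ?_ (hint.sub hfi)).1 hzero
    filter_upwards [ae_restrict_mem measurableSet_Ioo] with s hs
    exact sub_nonneg.2 ((hpt2 s hs).trans (hpt1 s hs))
  have hae2 : (fun s => f s) =ᵐ[volume.restrict (Ioo a b)] fun s => g (T s) := by
    filter_upwards [hae, ae_restrict_mem measurableSet_Ioo] with s hs1 hs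
    have e1 := hf s hs
    have e2 := hg _ (hTm s hs)
    have e3 : |z' s| • h (z s) = f s := sub_eq_zero.1 hs1
    have e4 : z' s * (f s ^ θ * g (T s) ^ (1 - θ)) = f s :=
      le_antisymm ((hpt1 s hs).trans e3.le) (hpt2 s hs)
    have e5 : 0 < f s ^ θ * g (T s) ^ (1 - θ) := by positivity
    have e6 : z' s = (f s / g (T s)) ^ (1 - θ) := by
      have := e4.trans (hkey s hs)
      exact mul_right_cancel₀ e5.ne' this
    -- strictness in the weighted AM-GM
    have e7 : f s / g (T s) = 1 := by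
      by_contra hne
      have hx := hx0 s hs
      set x := f s / g (T s)
      have hlt : x ^ (1 - θ) < 1 + (1 - θ) * (x - 1) := by
        have hb := rpow_one_add_lt_one_add_mul_self (s := x - 1) (by linarith)
          (sub_ne_zero.2 hne) h1' (by linarith)
        rwa [add_sub_cancel] at hb
      have e8 : θ + (1 - θ) * x = x ^ (1 - θ) := e6
      linarith [hlt, e8]
    have e8 := (div_eq_one_iff_eq e2.ne').1 e7
    exact e8
  have hTcont : ContinuousOn T (Ioo a b) := fun s hs => (hTd s hs).continuousAt.continuousWithinAt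
  have heq : EqOn f (fun s => g (T s)) (Ioo a b) :=
    Measure.eqOn_open_of_ae_eq hae2 isOpen_Ioo hfc
      (hgc.comp hTcont fun s hs => hTm s hs)
  have hconst : ∃ k, ∀ s ∈ Ioo a b, T s = s + k := by
    have hd : ∀ s ∈ Ioo a b, HasDerivAt (fun s => T s - s) 0 s := by
      intro s hs
      have e1 := (hTd s hs).sub (hasDerivAt_id s)
      have e2 : f s / g (T s) = 1 := by
        rw [heq hs]
        exact div_self (hg _ (hTm s hs)).ne'
      rw [e2, sub_self] at e1
      exact e1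
    obtain ⟨k, hk⟩ := isOpen_Ioo.exists_is_const_of_deriv_eq_zero (f := fun s => T s - s)
      (s := Ioo a b) isPreconnected_Ioo
      (fun s hs => (hd s hs).differentiableAt.differentiableWithinAt)
      (fun s hs => (hd s hs).deriv)
    refine ⟨k, fun s hs => ?_⟩
    have e : T s - s = k := hk s hs
    linarith
  obtain ⟨k, hk⟩ := hconst
  have himage : Ioo (a + k) (b + k) = Ioo c d := by
    rw [← hTi]
    have : T '' Ioo a b = (fun s => s + k) '' Ioo a b := image_congr fun s hs => hk s hs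
    rw [this, image_add_const_Ioo]
  have hlt : a + k < b + k := by linarith
  have hc : a + k = c := by
    have e1 := csInf_Ioo hlt
    rw [himage, csInf_Ioo hcd] at e1
    exact e1.symm
  have hd : b + k = d := by
    have e1 := csSup_Ioo hlt
    rw [himage, csSup_Ioo hcd] at e1
    exact e1.symm
  refine ⟨by linarith, fun s hs => ?_⟩
  have e1 : c - a = k := by linarith
  rw [e1, ← hk s hs]
  exact (heq hs).symm

end Pool.Agent.Helper320.Gold.NP1
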