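import Mathlib
import Pool.Agent.Helper320.GBaseA
import Pool.Agent.Helper320.GP1

set_option autoImplicit false
open Set
open scoped Pointwise

namespace Pool.Agent.Helper320.Gold.NP2

open Pool.Agent.Helper320.Gold Pool.Agent.Helper320.Gold.NP1

open MeasureTheory in
noncomputable def ln (A : Set (ℝ × ℝ)) (s : ℝ) : ℝ := (volume (Prod.mk s ⁻¹' A)).toReal

theorem ln_nonneg (A : Set (ℝ × ℝ)) (s : ℝ) : 0 ≤ ln A s := ENNReal.toReal_nonneg

theorem slice_cpt {A : Set (ℝ × ℝ)} (hA : IsCompact A) (s : ℝ) : IsCompact (Prod.mk s ⁻¹' A) := by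
  have : Prod.mk s ⁻¹' A = Prod.snd '' (A ∩ {p | p.1 = s}) := by
    ext y
    constructor
    · intro h
      exact ⟨(s, y), ⟨h, rfl⟩, rfl⟩
    · rintro ⟨⟨u, v⟩, ⟨h1, h2⟩, h3⟩
      simp only [Set.mem_ofPred_eq] at h2 h3
      subst h2; subst h3
      exact h1
  rw [this]
  exact (hA.inter_right (isClosed_eq continuous_fst continuous_const)).image continuous_snd

theorem slice_convex {A : Set (ℝ × ℝ)} (hA : Convex ℝ A) (s : ℝ) :
    Convex ℝ (Prod.mk s ⁻¹' A) := by
  intro x hx y hy u v hu hv huv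
  have := hA hx hy hu hv huv
  have h2 : u • (s, x) + v • (s, y) = (s, u • x + v • y) := by
    ext
    · simp only [Prod.fst_add, Prod.smul_fst, smul_eq_mul]
      rw [← add_mul, huv, one_mul]
    · simp
  rw [h2] at this
  exact this

theorem slice_vol {A : Set (ℝ × ℝ)} (hA : IsCompact A) (hAc : Convex ℝ A) {s y0 : ℝ}
    (h : (s, y0) ∈ A) :
    ∃ p q, (s, p) ∈ A ∧ (s, q) ∈ A ∧ p ≤ q ∧ ln A s = q - p := by
  have hc := slice_cpt hA s
  have hne : (Prod.mk s ⁻¹' A).Nonempty := ⟨y0, h⟩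
  have hp := hc.sInf_mem hne
  have hq := hc.sSup_mem hne
  have hle : sInf (Prod.mk s ⁻¹' A) ≤ sSup (Prod.mk s ⁻¹' A) :=
    csInf_le hc.bddBelow hq
  refine ⟨_, _, hp, hq, hle, ?_⟩
  have heq : Prod.mk s ⁻¹' A = Icc (sInf (Prod.mk s ⁻¹' A)) (sSup (Prod.mk s ⁻¹' A)) := by
    apply Set.Subset.antisymm
    · intro y hy
      exact ⟨csInf_le hc.bddBelow hy, le_csSup hc.bddAbove hy⟩
    · exact (slice_convex hAc s).ordConnected.out hp hq
  unfold ln
  conv_lhs => rw [heq]
  rw [Real.volume_Icc, ENNReal.toReal_ofReal (by linarith)]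

theorem slice_ge {C : Set (ℝ × ℝ)} (hC : IsCompact C) (hCc : Convex ℝ C) {s p q : ℝ}
    (hp : (s, p) ∈ C) (hq : (s, q) ∈ C) (hpq : p ≤ q) : q - p ≤ ln C s := by
  have hsub : Icc p q ⊆ Prod.mk s ⁻¹' C := (slice_convex hCc s).ordConnected.out hp hq
  have h1 := MeasureTheory.measure_mono (μ := MeasureTheory.volume) hsub
  rw [Real.volume_Icc] at h1
  have h2 := ENNReal.toReal_mono (slice_cpt hC s).measure_lt_top.ne h1
  rw [ENNReal.toReal_ofReal (by linarith)] at h2
  exact h2

theorem sum_ge {A B C : Set (ℝ × ℝ)} (hA : IsCompact A) (hB : IsCompact B) (hAc : Convex ℝ A)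
    (hBc : Convex ℝ B) {θ : ℝ} (h0 : 0 ≤ θ) (h1 : θ ≤ 1) (hC : IsCompact C)
    (hCc : Convex ℝ C) (hsub : ∀ x ∈ A, ∀ y ∈ B, θ • x + (1 - θ) • y ∈ C) {s t y0 y1 : ℝ}
    (hs : (s, y0) ∈ A) (ht : (t, y1) ∈ B) :
    θ * ln A s + (1 - θ) * ln B t ≤ ln C (θ * s + (1 - θ) * t) := by
  obtain ⟨p, q, hp, hq, hpq, e1⟩ := slice_vol hA hAc hs
  obtain ⟨p', q', hp', hq', hpq', e2⟩ := slice_vol hB hBc ht
  have a1 := hsub _ hp _ hp'
  have a2 := hsub _ hq _ hq'
  have c1 : θ • (s, p) + (1 - θ) • (t, p') = (θ * s + (1 - θ) * t, θ * p + (1 - θ) * p') := by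
    ext <;> simp
  have c2 : θ • (s, q) + (1 - θ) • (t, q') = (θ * s + (1 - θ) * t, θ * q + (1 - θ) * q') := by
    ext <;> simp
  rw [c1] at a1
  rw [c2] at a2
  have := slice_ge hC hCc a1 a2 (by
    have := mul_le_mul_of_nonneg_left hpq h0
    have := mul_le_mul_of_nonneg_left hpq' (sub_nonneg.2 h1)
    linarith)
  rw [e1, e2]
  linarith

theorem body {A : Set (ℝ × ℝ)} (hA : IsCompact A) (hAc : Convex ℝ A)
    (hAi : (interior A).Nonempty) :
    ∃ a b : ℝ, a < b ∧ ContinuousOn (ln A) (Ioo a b) ∧ (∀ s ∈ Ioo a b, 0 < ln A s) ∧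
      (∀ s ∈ Ioo a b, ∃ y, (s, y) ∈ A) ∧ (∀ s, s ∉ Icc a b → ln A s = 0) := by
  obtain ⟨⟨x0, y0⟩, hz⟩ := hAi
  obtain ⟨ε, hε, hball⟩ := Metric.mem_nhds_iff.1 (mem_interior_iff_mem_nhds.1 hz)
  have hmem : ∀ u v : ℝ, |u| ≤ ε / 2 → |v| ≤ ε / 2 → (x0 + u, y0 + v) ∈ A := by
    intro u v hu hv
    apply hball
    rw [Metric.mem_ball, Prod.dist_eq]
    simp only [dist_self_add_left, Real.norm_eq_abs]
    exact max_lt (by linarith) (by linarith)
  have hP : IsCompact (Prod.fst '' A) := hA.image continuous_fst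
  have hPc : Convex ℝ (Prod.fst '' A) := hAc.is_linear_image (LinearMap.fst ℝ ℝ ℝ).isLinear
  have hne : (Prod.fst '' A).Nonempty := ⟨x0 + 0, _, hmem 0 0 (by simp; positivity) (by simp; positivity), rfl⟩
  set a := sInf (Prod.fst '' A) with ha
  set b := sSup (Prod.fst '' A) with hb
  have hap : a ∈ Prod.fst '' A := hP.sInf_mem hne
  have hbp : b ∈ Prod.fst '' A := hP.sSup_mem hne
  have ha0 : a ≤ x0 - ε / 2 := by
    apply csInf_le hP.bddBelow
    exact ⟨_, hmem (-(ε/2)) 0 (by rw [abs_neg, abs_of_pos (by positivity)]) (by simp; positivity), by simp; ring⟩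
  have hb0 : x0 + ε / 2 ≤ b := by
    apply le_csSup hP.bddAbove
    exact ⟨_, hmem (ε/2) 0 (by rw [abs_of_pos (by positivity)]) (by simp; positivity), by simp⟩
  have hsl : ∀ s ∈ Icc a b, ∃ y, (s, y) ∈ A := by
    intro s hs
    obtain ⟨⟨u, v⟩, h1, h2⟩ := hPc.ordConnected.out hap hbp hs
    simp only at h2
    subst h2
    exact ⟨v, h1⟩
  have hx0 : 0 < ln A x0 := by
    have h1 := hmem 0 (-(ε/2)) (by simp; positivity) (by rw [abs_neg, abs_of_pos (by positivity)])
    have h2 := hmem 0 (ε/2) (by simp; positivity) (by rw [abs_of_pos (by positivity)])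
    rw [add_zero] at h1 h2
    have := slice_ge hA hAc h1 h2 (by linarith)
    linarith
  have hconc : ConcaveOn ℝ (Icc a b) (ln A) := by
    refine ⟨convex_Icc a b, ?_⟩
    intro x hx y hy u v hu hv huv
    obtain ⟨x', hx'⟩ := hsl x hx
    obtain ⟨y', hy'⟩ := hsl y hy
    have hv' : v = 1 - u := by linarith
    subst hv'
    have := sum_ge hA hA hAc hAc hu (by linarith) hA hAc
      (fun p hp q hq => hAc hp hq hu hv huv) hx' hy'
    simpa only [smul_eq_mul] using this
  refine ⟨a, b, by linarith, ?_, ?_, fun s hs => hsl s (Ioo_subset_Icc_self hs), ?_⟩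
  · exact (hconc.subset Ioo_subset_Icc_self (convex_Ioo a b)).continuousOn isOpen_Ioo
  · intro s hs
    rcases le_total s x0 with h | h
    · -- s = (1 - l) a + l x0
      have hd : 0 < x0 - a := by linarith
      have hl0 : 0 < (s - a) / (x0 - a) := div_pos (by linarith [hs.1]) hd
      have hl1 : (s - a) / (x0 - a) ≤ 1 := (div_le_one hd).2 (by linarith)
      have := hconc.2 (show a ∈ Icc a b from ⟨le_rfl, by linarith⟩)
        (show x0 ∈ Icc a b from ⟨by linarith, by linarith⟩)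
        (show 0 ≤ 1 - (s - a) / (x0 - a) by linarith) hl0.le (by ring)
      have e : (1 - (s - a) / (x0 - a)) • a + ((s - a) / (x0 - a)) • x0 = s := by
        simp only [smul_eq_mul]; field_simp; ring
      rw [e] at this
      simp only [smul_eq_mul] at this
      have g1 := mul_nonneg (sub_nonneg.2 hl1) (ln_nonneg A a)
      have g2 := mul_pos hl0 hx0
      linarith
    · have hd : 0 < b - x0 := by linarith
      have hl0 : 0 < (b - s) / (b - x0) := div_pos (by linarith [hs.2]) hd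
      have hl1 : (b - s) / (b - x0) ≤ 1 := (div_le_one hd).2 (by linarith)
      have := hconc.2 (show b ∈ Icc a b from ⟨by linarith, le_rfl⟩)
        (show x0 ∈ Icc a b from ⟨by linarith, by linarith⟩)
        (show 0 ≤ 1 - (b - s) / (b - x0) by linarith) hl0.le (by ring)
      have e : (1 - (b - s) / (b - x0)) • b + ((b - s) / (b - x0)) • x0 = s := by
        simp only [smul_eq_mul]; field_simp; ring
      rw [e] at this
      simp only [smul_eq_mul] at this
      have g1 := mul_nonneg (sub_nonneg.2 hl1) (ln_nonneg A b)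
      have g2 := mul_pos hl0 hx0
      linarith
  · intro s hs
    have : Prod.mk s ⁻¹' A = ∅ := by
      rw [Set.eq_empty_iff_forall_notMem]
      intro y hy
      apply hs
      exact ⟨csInf_le hP.bddBelow ⟨_, hy, rfl⟩, le_csSup hP.bddAbove ⟨_, hy, rfl⟩⟩
    unfold ln
    rw [this]; simp

theorem ln_int {A : Set (ℝ × ℝ)} (hA : IsCompact A) :
    MeasureTheory.Integrable (ln A) ∧ ∫ s, ln A s = (MeasureTheory.volume A).toReal := by
  have hm : Measurable fun s => MeasureTheory.volume (Prod.mk s ⁻¹' A) :=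
    measurable_measure_prodMk_left hA.measurableSet
  have hv : ∫⁻ s, MeasureTheory.volume (Prod.mk s ⁻¹' A) = MeasureTheory.volume A := by
    rw [MeasureTheory.Measure.volume_eq_prod, MeasureTheory.Measure.prod_apply hA.measurableSet]
  constructor
  · apply MeasureTheory.integrable_toReal_of_lintegral_ne_top hm.aemeasurable
    rw [hv]
    exact hA.measure_lt_top.ne
  · unfold ln
    rw [MeasureTheory.integral_toReal hm.aemeasurable
      (Filter.Eventually.of_forall fun s => (slice_cpt hA s).measure_lt_top), hv]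

theorem body_int {A : Set (ℝ × ℝ)} (hA : IsCompact A) {a b : ℝ}
    (h : ∀ s, s ∉ Icc a b → ln A s = 0) :
    ∫ s in Ioo a b, ln A s = (MeasureTheory.volume A).toReal := by
  rw [← MeasureTheory.integral_Icc_eq_integral_Ioo,
    MeasureTheory.setIntegral_eq_integral_of_forall_compl_eq_zero h, (ln_int hA).2]

theorem bm2 {θ : ℝ} (h0 : 0 < θ) (h1 : θ < 1) {A B : Set (ℝ × ℝ)} (hA : IsCompact A)
    (hB : IsCompact B) (hAc : Convex ℝ A) (hBc : Convex ℝ B) (hAi : (interior A).Nonempty)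
    (hBi : (interior B).Nonempty) :
    (MeasureTheory.volume A).toReal ^ θ * (MeasureTheory.volume B).toReal ^ (1 - θ) ≤
      (MeasureTheory.volume (θ • A + (1 - θ) • B)).toReal := by
  have hCk : IsCompact (θ • A + (1 - θ) • B) := (hA.smul θ).add (hB.smul (1 - θ))
  have hCc : Convex ℝ (θ • A + (1 - θ) • B) := (hAc.smul θ).add (hBc.smul (1 - θ))
  obtain ⟨a, b, hab, hfc, hf, hfe, hfz⟩ := body hA hAc hAi
  obtain ⟨c, d, hcd, hgc, hg, hge, hgz⟩ := body hB hBc hBi
  have hVA : 0 < (MeasureTheory.volume A).toReal :=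
    ENNReal.toReal_pos (MeasureTheory.Measure.measure_pos_of_nonempty_interior _ hAi).ne'
      hA.measure_lt_top.ne
  have hVB : 0 < (MeasureTheory.volume B).toReal :=
    ENNReal.toReal_pos (MeasureTheory.Measure.measure_pos_of_nonempty_interior _ hBi).ne'
      hB.measure_lt_top.ne
  have iA := body_int hA hfz
  have iB := body_int hB hgz
  set VA := (MeasureTheory.volume A).toReal with hVAd
  set VB := (MeasureTheory.volume B).toReal with hVBd
  set W := VA ^ θ * VB ^ (1 - θ) with hW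
  have hWp : 0 < W := by positivity
  have key := pl_eq (f := fun s => ln A s / VA) (g := fun s => ln B s / VB)
    (h := fun s => ln (θ • A + (1 - θ) • B) s / W) h0 h1 hab hcd
    (hfc.div_const VA) (hgc.div_const VB) (fun s hs => div_pos (hf s hs) hVA)
    (fun s hs => div_pos (hg s hs) hVB) ((ln_int hA).1.div_const VA).integrableOn
    ((ln_int hB).1.div_const VB).integrableOn
    (by rw [MeasureTheory.integral_div, iA, div_self hVA.ne'])
    (by rw [MeasureTheory.integral_div, iB, div_self hVB.ne'])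
    ((ln_int hCk).1.div_const W) (fun x => div_nonneg (ln_nonneg _ _) hWp.le)
    (by
      intro s hs t ht
      obtain ⟨y0, hy0⟩ := hfe s hs
      obtain ⟨y1, hy1⟩ := hge t ht
      have hsum := sum_ge hA hB hAc hBc h0.le h1.le hCk hCc
        (fun x hx y hy => Set.add_mem_add (Set.smul_mem_smul_set hx) (Set.smul_mem_smul_set hy))
        hy0 hy1
      have ham := Real.geom_mean_le_arith_mean2_weighted h0.le (by linarith : 0 ≤ 1 - θ)
        (ln_nonneg A s) (ln_nonneg B t) (by ring)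
      rw [Real.div_rpow (ln_nonneg A s) hVA.le, Real.div_rpow (ln_nonneg B t) hVB.le,
        div_mul_div_comm]
      exact div_le_div_of_nonneg_right (ham.trans hsum) hWp.le)
  have k1 := key.1
  rw [MeasureTheory.integral_div, (ln_int hCk).2, le_div_iff₀ hWp, one_mul] at k1
  exact k1

end Pool.Agent.Helper320.Gold.NP2
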