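import Mathlib
import Pool.Agent.Helper320.GBaseA
import Pool.Agent.Helper320.GP1
import Pool.Agent.Helper320.GP2

set_option autoImplicit false
open Set
open scoped Pointwise

namespace Pool.Agent.Helper320.Gold.NP3

open Pool.Agent.Helper320.Gold Pool.Agent.Helper320.Gold.NP1 Pool.Agent.Helper320.Gold.NP2

/-! slices -/

theorem sl_meas {K : Set (ℝ × (ℝ × ℝ))} (hK : IsCompact K) (s : ℝ) :
    IsCompact (Prod.mk s ⁻¹' K) := by
  have h1 : Prod.mk s ⁻¹' K = Prod.snd '' (K ∩ (Prod.fst ⁻¹' {s})) := by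
    ext y
    constructor
    · intro hy
      exact ⟨(s, y), ⟨hy, rfl⟩, rfl⟩
    · rintro ⟨⟨s', y'⟩, ⟨h, h'⟩, rfl⟩
      have : s' = s := h'
      subst this
      exact h
  rw [h1]
  exact (hK.inter_right (isClosed_singleton.preimage continuous_fst)).image continuous_snd

theorem sl_conv {K : Set (ℝ × (ℝ × ℝ))} (hK : Convex ℝ K) (s : ℝ) :
    Convex ℝ (Prod.mk s ⁻¹' K) := by
  intro x hx y hy a b ha hb hab
  have := hK hx hy ha hb hab
  have e : a • (s, x) + b • (s, y) = (s, a • x + b • y) := by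
    ext
    · simp only [Prod.smul_mk, Prod.mk_add_mk, smul_eq_mul]
      rw [← add_mul, hab, one_mul]
    · simp
    · simp
  rw [e] at this
  exact this

theorem sl_sub {θ : ℝ} {K K' : Set (ℝ × (ℝ × ℝ))} (s t : ℝ) :
    θ • (Prod.mk s ⁻¹' K) + (1 - θ) • (Prod.mk t ⁻¹' K')
      ⊆ Prod.mk (θ * s + (1 - θ) * t) ⁻¹' (θ • K + (1 - θ) • K') := by
  rintro z ⟨x, ⟨x', hx', rfl⟩, y, ⟨y', hy', rfl⟩, rfl⟩
  refine ⟨θ • (s, x'), ⟨(s, x'), hx', rfl⟩, (1 - θ) • (t, y'), ⟨(t, y'), hy', rfl⟩, ?_⟩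
  simp

theorem sl_comb {K : Set (ℝ × (ℝ × ℝ))} (hK : Convex ℝ K) {θ : ℝ} (h0 : 0 ≤ θ) (h1 : θ ≤ 1) :
    θ • K + (1 - θ) • K ⊆ K := by
  rintro z ⟨x, ⟨x', hx', rfl⟩, y, ⟨y', hy', rfl⟩, rfl⟩
  exact hK hx' hy' h0 (by linarith) (by ring)

/-- area of the slice -/
noncomputable def sa (K : Set (ℝ × (ℝ × ℝ))) (s : ℝ) : ℝ :=
  (MeasureTheory.volume (Prod.mk s ⁻¹' K)).toReal

theorem sa_nonneg (K : Set (ℝ × (ℝ × ℝ))) (s : ℝ) : 0 ≤ sa K s := ENNReal.toReal_nonneg

theorem sa_integrable {K : Set (ℝ × (ℝ × ℝ))} (hK : IsCompact K) :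
    MeasureTheory.Integrable (sa K) :=
  MeasureTheory.Measure.integrable_measure_prodMk_left hK.measurableSet
    (hK.measure_lt_top (μ := MeasureTheory.volume)).ne

theorem sa_integral {K : Set (ℝ × (ℝ × ℝ))} (hK : IsCompact K) :
    ∫ s, sa K s = (MeasureTheory.volume K).toReal := by
  have h1 : MeasureTheory.volume K = ∫⁻ s, MeasureTheory.volume (Prod.mk s ⁻¹' K) := by
    rw [MeasureTheory.Measure.volume_eq_prod]
    exact MeasureTheory.Measure.prod_apply hK.measurableSet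
  rw [h1]
  unfold sa
  rw [MeasureTheory.integral_toReal]
  · exact (measurable_measure_prodMk_left hK.measurableSet).aemeasurable
  · exact Filter.Eventually.of_forall fun s => (sl_meas hK s).measure_lt_top

/-- first moment -/
theorem sa_moment {K : Set (ℝ × (ℝ × ℝ))} (hK : IsCompact K) :
    MeasureTheory.Integrable (fun s => s * sa K s) ∧ ∫ p in K, p.1 = ∫ s, s * sa K s := by
  have hint : MeasureTheory.Integrable (K.indicator (fun p : ℝ × (ℝ × ℝ) => p.1)) := by
    rw [MeasureTheory.integrable_indicator_iff hK.measurableSet]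
    exact continuous_fst.continuousOn.integrableOn_compact hK
  have hsl : ∀ s : ℝ, ∫ y, K.indicator (fun p : ℝ × (ℝ × ℝ) => p.1) (s, y) = s * sa K s := by
    intro s
    have e : (fun y => K.indicator (fun p : ℝ × (ℝ × ℝ) => p.1) (s, y))
        = (Prod.mk s ⁻¹' K).indicator fun _ => s := by
      funext y
      by_cases hy : (s, y) ∈ K
      · rw [Set.indicator_of_mem hy, Set.indicator_of_mem (show y ∈ Prod.mk s ⁻¹' K from hy)]
      · rw [Set.indicator_of_notMem hy,
          Set.indicator_of_notMem (show y ∉ Prod.mk s ⁻¹' K from hy)]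
    rw [e, MeasureTheory.integral_indicator_const _ (sl_meas hK s).measurableSet]
    simp [sa, MeasureTheory.measureReal_def, mul_comm]
  have hint' : MeasureTheory.Integrable (K.indicator (fun p : ℝ × (ℝ × ℝ) => p.1))
      ((MeasureTheory.volume : MeasureTheory.Measure ℝ).prod
        (MeasureTheory.volume : MeasureTheory.Measure (ℝ × ℝ))) := hint
  constructor
  · have h := hint'.integral_prod_left
    simp only [hsl] at h
    exact h
  · rw [← MeasureTheory.integral_indicator hK.measurableSet, MeasureTheory.Measure.volume_eq_prod,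
      MeasureTheory.integral_prod _ hint']
    exact MeasureTheory.integral_congr_ae (Filter.Eventually.of_forall hsl)

/-- the extent of a body in the first coordinate -/
theorem sl_extent {K : Set (ℝ × (ℝ × ℝ))} (hK : IsCompact K) (hKc : Convex ℝ K)
    (hKi : (interior K).Nonempty) :
    ∃ a b : ℝ, a < b ∧ b = sSup (Prod.fst '' K) ∧ (∀ s, s ∉ Icc a b → sa K s = 0) ∧
      ∀ s ∈ Ioo a b, (interior (Prod.mk s ⁻¹' K)).Nonempty := by
  have hKn : K.Nonempty := hKi.mono interior_subset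
  have hcomp : IsCompact (Prod.fst '' K) := hK.image continuous_fst
  have hne : (Prod.fst '' K).Nonempty := hKn.image _
  obtain ⟨pa, hpa, ha⟩ := hcomp.sInf_mem hne
  obtain ⟨pb, hpb, hb⟩ := hcomp.sSup_mem hne
  have hsub : K ⊆ closure (interior K) := by
    rw [hKc.closure_interior_eq_closure_of_nonempty_interior hKi]
    exact subset_closure
  have hI : ∀ s ∈ Ioo (sInf (Prod.fst '' K)) (sSup (Prod.fst '' K)),
      (interior (Prod.mk s ⁻¹' K)).Nonempty := by
    intro s hs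
    have h1 : ∃ p ∈ interior K, p.1 < s := by
      have hop : IsOpen {p : ℝ × (ℝ × ℝ) | p.1 < s} := isOpen_lt continuous_fst continuous_const
      obtain ⟨p, hp1, hp2⟩ := mem_closure_iff.1 (hsub hpa) _ hop
        (by show pa.1 < s; rw [ha]; exact hs.1)
      exact ⟨p, hp2, hp1⟩
    have h2 : ∃ p ∈ interior K, s < p.1 := by
      have hop : IsOpen {p : ℝ × (ℝ × ℝ) | s < p.1} := isOpen_lt continuous_const continuous_fst
      obtain ⟨p, hp1, hp2⟩ := mem_closure_iff.1 (hsub hpb) _ hop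
        (by show s < pb.1; rw [hb]; exact hs.2)
      exact ⟨p, hp2, hp1⟩
    obtain ⟨p, hp, hps⟩ := h1
    obtain ⟨r, hr, hrs⟩ := h2
    have hd : 0 < r.1 - p.1 := by linarith
    have hmem := hKc.interior hp hr (a := (r.1 - s) / (r.1 - p.1)) (b := (s - p.1) / (r.1 - p.1))
      (by apply div_nonneg <;> linarith) (by apply div_nonneg <;> linarith)
      (by rw [← add_div]; rw [div_eq_one_iff_eq hd.ne']; ring)
    set q := ((r.1 - s) / (r.1 - p.1)) • p + ((s - p.1) / (r.1 - p.1)) • r with hq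
    have hq1 : q.1 = s := by
      simp only [hq, Prod.fst_add, Prod.smul_fst, smul_eq_mul]
      field_simp
      ring
    refine ⟨q.2, ?_⟩
    rw [mem_interior]
    refine ⟨Prod.mk s ⁻¹' interior K, preimage_mono interior_subset,
      isOpen_interior.preimage (by fun_prop), ?_⟩
    show (s, q.2) ∈ interior K
    rw [← hq1]
    exact hmem
  refine ⟨sInf (Prod.fst '' K), sSup (Prod.fst '' K), ?_, rfl, ?_, hI⟩
  · obtain ⟨p, hp⟩ := hKi
    obtain ⟨ε, hε, hball⟩ := Metric.isOpen_iff.1 isOpen_interior p hp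
    have hm1 : ((p.1 + ε / 2, p.2) : ℝ × (ℝ × ℝ)) ∈ K := by
      refine interior_subset (hball ?_)
      rw [Metric.mem_ball, Prod.dist_eq]
      simp only [dist_self, Real.dist_eq]
      rw [max_lt_iff]
      refine ⟨?_, hε⟩
      rw [add_sub_cancel_left, abs_of_pos (by linarith)]; linarith
    have hm2 : p ∈ K := interior_subset hp
    have h1 : p.1 + ε / 2 ≤ sSup (Prod.fst '' K) :=
      le_csSup hcomp.bddAbove ⟨_, hm1, rfl⟩
    have h2 : sInf (Prod.fst '' K) ≤ p.1 := csInf_le hcomp.bddBelow ⟨_, hm2, rfl⟩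
    linarith
  · intro s hs
    have : Prod.mk s ⁻¹' K = ∅ := by
      rw [Set.eq_empty_iff_forall_notMem]
      intro y hy
      refine hs ⟨csInf_le hcomp.bddBelow ⟨(s, y), hy, rfl⟩, le_csSup hcomp.bddAbove ⟨(s, y), hy, rfl⟩⟩
    simp [sa, this]

theorem sl_le {K : Set (ℝ × (ℝ × ℝ))} (hK : IsCompact K) {S : Set (ℝ × ℝ)} {s : ℝ}
    (h : S ⊆ Prod.mk s ⁻¹' K) : (MeasureTheory.volume S).toReal ≤ sa K s :=
  ENNReal.toReal_mono (sl_meas hK s).measure_lt_top.ne (MeasureTheory.measure_mono h)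

theorem sa_pos {K : Set (ℝ × (ℝ × ℝ))} (hK : IsCompact K) {s : ℝ}
    (h : (interior (Prod.mk s ⁻¹' K)).Nonempty) : 0 < sa K s := by
  refine ENNReal.toReal_pos ?_ (sl_meas hK s).measure_lt_top.ne
  exact ((isOpen_interior.measure_pos MeasureTheory.volume h).trans_le
    (MeasureTheory.measure_mono interior_subset)).ne'

theorem sa_bm {K K' : Set (ℝ × (ℝ × ℝ))} (hK : IsCompact K) (hKc : Convex ℝ K)
    (hK' : IsCompact K') (hKc' : Convex ℝ K') {θ : ℝ} (h0 : 0 < θ) (h1 : θ < 1) {s t : ℝ}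
    (hs : (interior (Prod.mk s ⁻¹' K)).Nonempty) (ht : (interior (Prod.mk t ⁻¹' K')).Nonempty) :
    sa K s ^ θ * sa K' t ^ (1 - θ) ≤ sa (θ • K + (1 - θ) • K') (θ * s + (1 - θ) * t) := by
  have h := bm2 h0 h1 (sl_meas hK s) (sl_meas hK' t) (sl_conv hKc s) (sl_conv hKc' t) hs ht
  exact h.trans (sl_le ((hK.smul _).add (hK'.smul _)) (sl_sub s t))

theorem sa_continuousOn {K : Set (ℝ × (ℝ × ℝ))} (hK : IsCompact K) (hKc : Convex ℝ K)
    {a b : ℝ} (hI : ∀ s ∈ Ioo a b, (interior (Prod.mk s ⁻¹' K)).Nonempty) :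
    ContinuousOn (sa K) (Ioo a b) := by
  have hconc : ConcaveOn ℝ (Ioo a b) (fun s => Real.log (sa K s)) := by
    refine ⟨convex_Ioo a b, ?_⟩
    intro s hs t ht p q hp hq hpq
    rcases hp.eq_or_lt with hp0 | hp0
    · subst hp0
      have : q = 1 := by linarith
      subst this
      simp
    rcases hq.eq_or_lt with hq0 | hq0
    · subst hq0
      have : p = 1 := by linarith
      subst this
      simp
    have hq' : q = 1 - p := by linarith
    subst hq'
    have hst := convex_Ioo a b hs ht hp hq hpq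
    have hp1 := sa_pos hK (hI s hs)
    have hp2 := sa_pos hK (hI t ht)
    have h1 := sa_bm hK hKc hK hKc hp0 (by linarith) (hI s hs) (hI t ht)
    have h2 : sa (p • K + (1 - p) • K) (p * s + (1 - p) * t) ≤ sa K (p * s + (1 - p) * t) :=
      sl_le hK (preimage_mono (sl_comb hKc hp0.le (by linarith)))
    have h3 := Real.log_le_log (by positivity) (h1.trans h2)
    rw [Real.log_mul (by positivity) (by positivity), Real.log_rpow hp1, Real.log_rpow hp2] at h3
    simpa only [smul_eq_mul] using h3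
  have hcont := hconc.continuousOn isOpen_Ioo
  have := hcont.rexp
  refine this.congr fun s hs => ?_
  exact (Real.exp_log (sa_pos hK (hI s hs))).symm

theorem sa_Ioo {K : Set (ℝ × (ℝ × ℝ))} {a b : ℝ}
    (h0 : ∀ s, s ∉ Icc a b → sa K s = 0) : ∫ s in Ioo a b, sa K s = ∫ s, sa K s := by
  rw [← MeasureTheory.integral_Icc_eq_integral_Ioo]
  exact MeasureTheory.setIntegral_eq_integral_of_forall_compl_eq_zero h0

/-- the core in the space `ℝ × (ℝ × ℝ)` -/
theorem core {θ : ℝ} (h0 : 0 < θ) (h1 : θ < 1) {K K' : Set (ℝ × (ℝ × ℝ))} (hK : IsCompact K)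
    (hK' : IsCompact K') (hKc : Convex ℝ K) (hKc' : Convex ℝ K') (hKi : (interior K).Nonempty)
    (hKi' : (interior K').Nonempty) (hv : MeasureTheory.volume K = 1)
    (hv' : MeasureTheory.volume K' = 1) :
    1 ≤ MeasureTheory.volume (θ • K + (1 - θ) • K') ∧
    (MeasureTheory.volume (θ • K + (1 - θ) • K') ≤ 1 →
      sSup (Prod.fst '' K') = sSup (Prod.fst '' K) + ((∫ p in K', p.1) - ∫ p in K, p.1)) := by
  obtain ⟨a, b, hab, hb, hz, hI⟩ := sl_extent hK hKc hKi
  obtain ⟨c, d, hcd, hd, hz', hI'⟩ := sl_extent hK' hKc' hKi'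
  have hC : IsCompact (θ • K + (1 - θ) • K') := (hK.smul _).add (hK'.smul _)
  have hCt : MeasureTheory.volume (θ • K + (1 - θ) • K') ≠ ⊤ := hC.measure_lt_top.ne
  have hint : ∫ s, sa K s = 1 := by rw [sa_integral hK, hv]; simp
  have hint' : ∫ s, sa K' s = 1 := by rw [sa_integral hK', hv']; simp
  have key := pl_eq h0 h1 hab hcd (sa_continuousOn hK hKc hI) (sa_continuousOn hK' hKc' hI')
    (fun s hs => sa_pos hK (hI s hs)) (fun s hs => sa_pos hK' (hI' s hs))
    (sa_integrable hK).integrableOn (sa_integrable hK').integrableOn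
    (by rw [sa_Ioo hz, hint]) (by rw [sa_Ioo hz', hint'])
    (sa_integrable hC) (sa_nonneg _)
    (fun s hs t ht => sa_bm hK hKc hK' hKc' h0 h1 (hI s hs) (hI' t ht))
  rw [sa_integral hC] at key
  constructor
  · rw [← ENNReal.ofReal_toReal hCt, ← ENNReal.ofReal_one]
    exact ENNReal.ofReal_le_ofReal key.1
  · intro hle
    have hle' : (MeasureTheory.volume (θ • K + (1 - θ) • K')).toReal ≤ 1 := by
      have := ENNReal.toReal_mono ENNReal.one_ne_top hle
      simpa using this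
    obtain ⟨hlen, hsh⟩ := key.2 hle'
    have hae : (sa K') =ᵐ[MeasureTheory.volume] fun t => sa K (t - (c - a)) := by
      have h2 : ∀ᵐ t : ℝ, t ≠ c ∧ t ≠ d := by
        have e1 : ∀ᵐ t : ℝ, t ≠ c := MeasureTheory.Measure.ae_ne _ _
        have e2 : ∀ᵐ t : ℝ, t ≠ d := MeasureTheory.Measure.ae_ne _ _
        filter_upwards [e1, e2] with t h1 h2 using ⟨h1, h2⟩
      filter_upwards [h2] with t ht
      by_cases htt : t ∈ Ioo c d
      · have := hsh (t - (c - a)) ⟨by linarith [htt.1], by linarith [htt.2]⟩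
        rw [← this]; congr 1; ring
      · have h3 : t ∉ Icc c d := by
          rintro ⟨h4, h5⟩
          exact htt ⟨lt_of_le_of_ne h4 (Ne.symm ht.1), lt_of_le_of_ne h5 ht.2⟩
        rw [hz' t h3, hz]
        rintro ⟨h4, h5⟩
        exact h3 ⟨by linarith, by linarith⟩
    have hmom : ∫ p in K', p.1 = (∫ p in K, p.1) + (c - a) := by
      rw [(sa_moment hK').2, (sa_moment hK).2]
      have e1 : ∫ t, t * sa K' t = ∫ t, t * sa K (t - (c - a)) := by
        refine MeasureTheory.integral_congr_ae ?_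
        filter_upwards [hae] with t ht
        rw [ht]
      have e2 : ∫ t, t * sa K (t - (c - a)) = ∫ s, (s + (c - a)) * sa K s := by
        have := MeasureTheory.integral_sub_right_eq_self (μ := MeasureTheory.volume)
          (fun s : ℝ => (s + (c - a)) * sa K s) (c - a)
        rw [← this]
        refine MeasureTheory.integral_congr_ae (Filter.Eventually.of_forall fun t => ?_)
        simp
      rw [e1, e2]
      have e3 : ∀ s : ℝ, (s + (c - a)) * sa K s = s * sa K s + (c - a) * sa K s := fun s => by ring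
      simp only [e3]
      rw [MeasureTheory.integral_add (sa_moment hK).1 ((sa_integrable hK).const_mul _),
        MeasureTheory.integral_const_mul, hint, mul_one]
    rw [hmom, ← hb, ← hd]
    linarith

/-! coordinates adapted to a direction -/

/-- coordinates -/
noncomputable def Psi (b : OrthonormalBasis (Fin 3) ℝ E3) (p : ℝ × (ℝ × ℝ)) : E3 :=
  p.1 • b 2 + (p.2.1 • b 0 + p.2.2 • b 1)

theorem Psi_mp (b : OrthonormalBasis (Fin 3) ℝ E3) :
    MeasureTheory.MeasurePreserving (Psi b) := by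
  have m1 := (MeasureTheory.volume_preserving_finTwoArrow ℝ).symm
  have m2 : MeasureTheory.MeasurePreserving (Prod.map (id : ℝ → ℝ)
      (MeasurableEquiv.finTwoArrow (α := ℝ)).symm) :=
    (MeasureTheory.MeasurePreserving.id MeasureTheory.volume).prod m1
  have m3 := (MeasureTheory.volume_preserving_piFinSuccAbove (fun _ : Fin 3 => ℝ) 2).symm
  have m4 := PiLp.volume_preserving_toLp (Fin 3)
  have m5 := b.measurePreserving_repr_symm
  have m6 := m5.comp (m4.comp (m3.comp m2))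
  have hfun : Psi b = (⇑b.repr.symm ∘ WithLp.toLp 2 ∘
      ⇑(MeasurableEquiv.piFinSuccAbove (fun _ : Fin 3 => ℝ) 2).symm ∘
      Prod.map (id : ℝ → ℝ) (MeasurableEquiv.finTwoArrow (α := ℝ)).symm) := by
    funext p
    simp only [Function.comp_apply, Psi]
    rw [← b.sum_repr_symm, Fin.sum_univ_three]
    show p.1 • b 2 + (p.2.1 • b 0 + p.2.2 • b 1)
      = p.2.1 • b 0 + p.2.2 • b 1 + p.1 • b 2
    abel
  rw [hfun]
  exact m6

theorem Psi_cont (b : OrthonormalBasis (Fin 3) ℝ E3) : Continuous (Psi b) := by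
  unfold Psi; fun_prop

theorem Psi_inner (b : OrthonormalBasis (Fin 3) ℝ E3) (p : ℝ × (ℝ × ℝ)) :
    inner ℝ (Psi b p) (b 2) = p.1 := by
  unfold Psi
  rw [inner_add_left, inner_add_left, inner_smul_left, inner_smul_left, inner_smul_left,
    b.inner_eq_ite, b.inner_eq_ite, b.inner_eq_ite]
  simp

/-- inverse coordinates -/
noncomputable def Psi' (b : OrthonormalBasis (Fin 3) ℝ E3) (x : E3) : ℝ × (ℝ × ℝ) :=
  (inner ℝ (b 2) x, (inner ℝ (b 0) x, inner ℝ (b 1) x))

theorem Psi_Psi' (b : OrthonormalBasis (Fin 3) ℝ E3) (x : E3) : Psi b (Psi' b x) = x := by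
  have := b.sum_repr' x
  rw [Fin.sum_univ_three] at this
  conv_rhs => rw [← this]
  unfold Psi Psi'
  simp only
  abel

theorem Psi'_Psi (b : OrthonormalBasis (Fin 3) ℝ E3) (p : ℝ × (ℝ × ℝ)) : Psi' b (Psi b p) = p := by
  unfold Psi Psi'
  simp only [inner_add_right, inner_smul_right, b.inner_eq_ite]
  ext <;> simp

theorem Psi'_cont (b : OrthonormalBasis (Fin 3) ℝ E3) : Continuous (Psi' b) := by
  unfold Psi'; fun_prop

theorem Psi_add (b : OrthonormalBasis (Fin 3) ℝ E3) (p q : ℝ × (ℝ × ℝ)) :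
    Psi b (p + q) = Psi b p + Psi b q := by
  unfold Psi
  simp only [Prod.fst_add, Prod.snd_add, add_smul]
  abel

theorem Psi_smul (b : OrthonormalBasis (Fin 3) ℝ E3) (c : ℝ) (p : ℝ × (ℝ × ℝ)) :
    Psi b (c • p) = c • Psi b p := by
  unfold Psi
  simp only [Prod.smul_fst, Prod.smul_snd, smul_eq_mul, smul_add, mul_smul]

/-- homeomorphism -/
noncomputable def PsiH (b : OrthonormalBasis (Fin 3) ℝ E3) : (ℝ × (ℝ × ℝ)) ≃ₜ E3 where
  toFun := Psi b
  invFun := Psi' b
  left_inv := Psi'_Psi b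
  right_inv := Psi_Psi' b
  continuous_toFun := Psi_cont b
  continuous_invFun := Psi'_cont b

theorem Psi_vol (b : OrthonormalBasis (Fin 3) ℝ E3) (S : Set E3) :
    MeasureTheory.volume (Psi b ⁻¹' S) = MeasureTheory.volume S :=
  (Psi_mp b).measure_preimage_emb (PsiH b).measurableEmbedding S

theorem Psi_pre_compact (b : OrthonormalBasis (Fin 3) ℝ E3) {A : Set E3} (hA : IsCompact A) :
    IsCompact (Psi b ⁻¹' A) := (PsiH b).isCompact_preimage.2 hA

theorem Psi_pre_convex (b : OrthonormalBasis (Fin 3) ℝ E3) {A : Set E3} (hA : Convex ℝ A) :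
    Convex ℝ (Psi b ⁻¹' A) := by
  intro x hx y hy p q hp hq hpq
  show Psi b (p • x + q • y) ∈ A
  rw [Psi_add, Psi_smul, Psi_smul]
  exact hA hx hy hp hq hpq

theorem Psi_pre_interior (b : OrthonormalBasis (Fin 3) ℝ E3) {A : Set E3}
    (hA : (interior A).Nonempty) : (interior (Psi b ⁻¹' A)).Nonempty := by
  have : Psi b ⁻¹' interior A = interior (Psi b ⁻¹' A) := (PsiH b).preimage_interior A
  rw [← this]
  obtain ⟨x, hx⟩ := hA
  exact ⟨Psi' b x, by show Psi b (Psi' b x) ∈ interior A; rwa [Psi_Psi']⟩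

theorem Psi_pre_comb (b : OrthonormalBasis (Fin 3) ℝ E3) (A B : Set E3) (θ : ℝ) :
    Psi b ⁻¹' (θ • A + (1 - θ) • B) = θ • (Psi b ⁻¹' A) + (1 - θ) • (Psi b ⁻¹' B) := by
  ext p
  constructor
  · rintro ⟨x, ⟨x', hx', hx⟩, y, ⟨y', hy', hy⟩, hxy⟩
    refine ⟨θ • Psi' b x', ⟨Psi' b x', ?_, rfl⟩, (1 - θ) • Psi' b y', ⟨Psi' b y', ?_, rfl⟩, ?_⟩
    · show Psi b (Psi' b x') ∈ A; rwa [Psi_Psi']
    · show Psi b (Psi' b y') ∈ B; rwa [Psi_Psi']
    · apply (PsiH b).injective
      show Psi b (θ • Psi' b x' + (1 - θ) • Psi' b y') = Psi b p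
      rw [Psi_add, Psi_smul, Psi_smul, Psi_Psi', Psi_Psi', ← hxy]
      simp only at hx hy
      rw [hx, hy]
  · rintro ⟨x, ⟨x', hx', rfl⟩, y, ⟨y', hy', rfl⟩, rfl⟩
    show Psi b (θ • x' + (1 - θ) • y') ∈ θ • A + (1 - θ) • B
    rw [Psi_add, Psi_smul, Psi_smul]
    exact ⟨_, ⟨_, hx', rfl⟩, _, ⟨_, hy', rfl⟩, rfl⟩

theorem Psi_pre_fst (b : OrthonormalBasis (Fin 3) ℝ E3) (A : Set E3) :
    Prod.fst '' (Psi b ⁻¹' A) = (fun x => inner ℝ x (b 2)) '' A := by
  ext s
  constructor
  · rintro ⟨p, hp, rfl⟩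
    exact ⟨Psi b p, hp, Psi_inner b p⟩
  · rintro ⟨x, hx, rfl⟩
    refine ⟨Psi' b x, ?_, ?_⟩
    · show Psi b (Psi' b x) ∈ A; rwa [Psi_Psi']
    · show inner ℝ (b 2) x = inner ℝ x (b 2)
      rw [real_inner_comm]

theorem Psi_pre_int (b : OrthonormalBasis (Fin 3) ℝ E3) {A : Set E3} (hA : IsCompact A) :
    ∫ p in Psi b ⁻¹' A, p.1 = inner ℝ (∫ x in A, x) (b 2) := by
  have h1 : ∫ p in Psi b ⁻¹' A, (inner ℝ (Psi b p) (b 2)) = ∫ x in A, inner ℝ x (b 2) :=
    (Psi_mp b).setIntegral_preimage_emb (PsiH b).measurableEmbedding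
      (fun x => inner ℝ x (b 2)) A
  simp only [Psi_inner] at h1
  rw [h1]
  have hint : MeasureTheory.IntegrableOn (fun x : E3 => x) A :=
    continuous_id.continuousOn.integrableOn_compact hA
  have h2 := integral_inner (𝕜 := ℝ) hint (b 2)
  rw [real_inner_comm, ← h2]
  refine MeasureTheory.integral_congr_ae (Filter.Eventually.of_forall fun x => ?_)
  exact real_inner_comm _ _

theorem exists_basis {u : E3} (hu : ‖u‖ = 1) :
    ∃ b : OrthonormalBasis (Fin 3) ℝ E3, b 2 = u := by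
  have ho : Orthonormal ℝ (({2} : Set (Fin 3)).domRestrict fun _ => u) := by
    constructor
    · intro i; exact hu
    · intro i j hij
      exact absurd (Subsingleton.elim i j) hij
  obtain ⟨b, hb⟩ := ho.exists_orthonormalBasis_extension_of_card_eq (by simp)
  exact ⟨b, hb 2 rfl⟩

/-- support functions in a unit direction -/
theorem supp_shift {θ : ℝ} (h0 : 0 < θ) (h1 : θ < 1) {A B : Set E3} (hA : IsCompact A)
    (hB : IsCompact B) (hAc : Convex ℝ A) (hBc : Convex ℝ B) (hAi : (interior A).Nonempty)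
    (hBi : (interior B).Nonempty) (hA1 : MeasureTheory.volume A = 1)
    (hB1 : MeasureTheory.volume B = 1) {u : E3} (hu : ‖u‖ = 1) :
    1 ≤ MeasureTheory.volume (θ • A + (1 - θ) • B) ∧
    (MeasureTheory.volume (θ • A + (1 - θ) • B) ≤ 1 →
      sSup ((fun x => inner ℝ x u) '' B) = sSup ((fun x => inner ℝ x u) '' A)
        + inner ℝ ((∫ x in B, x) - ∫ x in A, x) u) := by
  obtain ⟨b, rfl⟩ := exists_basis hu
  have key := core h0 h1 (Psi_pre_compact b hA) (Psi_pre_compact b hB) (Psi_pre_convex b hAc)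
    (Psi_pre_convex b hBc) (Psi_pre_interior b hAi) (Psi_pre_interior b hBi)
    (by rw [Psi_vol, hA1]) (by rw [Psi_vol, hB1])
  rw [← Psi_pre_comb, Psi_vol, Psi_pre_fst, Psi_pre_fst, Psi_pre_int b hA, Psi_pre_int b hB] at key
  rw [inner_sub_left]
  exact key

theorem subset_of_supp {A B : Set E3} (hA : IsCompact A) (hAc : Convex ℝ A) (hAn : A.Nonempty)
    (hB : IsCompact B)
    (h : ∀ u : E3, ‖u‖ = 1 → sSup ((fun x => inner ℝ x u) '' B)
      ≤ sSup ((fun x => inner ℝ x u) '' A)) : B ⊆ A := by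
  intro x hx
  by_contra hxA
  obtain ⟨f, r, hf1, hf2⟩ := geometric_hahn_banach_closed_point hAc hA.isClosed hxA
  obtain ⟨v, hv⟩ : ∃ v : E3, ∀ y, f y = inner ℝ y v := by
    refine ⟨(InnerProductSpace.toDual ℝ E3).symm f, fun y => ?_⟩
    rw [real_inner_comm, InnerProductSpace.toDual_symm_apply]
  obtain ⟨a, ha⟩ := hAn
  have hv0 : v ≠ 0 := by
    rintro rfl
    have h1 := hf1 a ha
    rw [hv, inner_zero_right] at h1
    rw [hv, inner_zero_right] at hf2
    linarith
  have hn : 0 < ‖v‖ := norm_pos_iff.2 hv0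
  have hu : ‖(‖v‖⁻¹ • v)‖ = 1 := by
    rw [norm_smul, norm_inv, norm_norm, inv_mul_cancel₀ hn.ne']
  have h2 := h _ hu
  have hcont : Continuous fun y : E3 => inner ℝ y (‖v‖⁻¹ • v) := by fun_prop
  have h3 : inner ℝ x (‖v‖⁻¹ • v) ≤ sSup ((fun y => inner ℝ y (‖v‖⁻¹ • v)) '' B) :=
    le_csSup (hB.image hcont).bddAbove ⟨x, hx, rfl⟩
  have h4 : sSup ((fun y => inner ℝ y (‖v‖⁻¹ • v)) '' A) ≤ ‖v‖⁻¹ * r := by
    refine csSup_le (Set.Nonempty.image _ ⟨a, ha⟩) ?_
    rintro _ ⟨y, hy, rfl⟩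
    simp only
    rw [inner_smul_right, ← hv]
    exact mul_le_mul_of_nonneg_left (hf1 y hy).le (by positivity)
  rw [inner_smul_right, ← hv] at h3
  have h5 : ‖v‖⁻¹ * r < ‖v‖⁻¹ * f x := mul_lt_mul_of_pos_left hf2 (by positivity)
  linarith

theorem bm3_eq {θ : ℝ} (h0 : 0 < θ) (h1 : θ < 1) {A B : Set E3} (hA : IsCompact A)
    (hB : IsCompact B) (hAc : Convex ℝ A) (hBc : Convex ℝ B) (hAi : (interior A).Nonempty)
    (hBi : (interior B).Nonempty) (hA1 : MeasureTheory.volume A = 1)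
    (hB1 : MeasureTheory.volume B = 1) :
    1 ≤ MeasureTheory.volume (θ • A + (1 - θ) • B) ∧
    (MeasureTheory.volume (θ • A + (1 - θ) • B) ≤ 1 → ∃ t : E3, B = (fun x => x + t) '' A) := by
  have hu1 : ‖(EuclideanSpace.single (0 : Fin 3) (1 : ℝ) : E3)‖ = 1 := by simp
  refine ⟨(supp_shift h0 h1 hA hB hAc hBc hAi hBi hA1 hB1 hu1).1, fun hle => ?_⟩
  set t : E3 := (∫ x in B, x) - ∫ x in A, x with ht
  have hAn : A.Nonempty := hAi.mono interior_subset
  have hBn : B.Nonempty := hBi.mono interior_subset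
  have hcontt : Continuous fun x : E3 => x + t := by fun_prop
  have hA' : IsCompact ((fun x => x + t) '' A) := hA.image hcontt
  have hAc' : Convex ℝ ((fun x => x + t) '' A) := by
    have h1 := hAc.translate t
    have h2 : (fun x => x + t) '' A = (fun x => t + x) '' A :=
      Set.image_congr fun x _ => add_comm x t
    rw [h2]; exact h1
  have hs : ∀ u : E3, ‖u‖ = 1 → sSup ((fun x => inner ℝ x u) '' B)
      = sSup ((fun x => inner ℝ x u) '' ((fun x => x + t) '' A)) := by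
    intro u hu
    rw [(supp_shift h0 h1 hA hB hAc hBc hAi hBi hA1 hB1 hu).2 hle, ← ht]
    have hcont : Continuous fun y : E3 => inner ℝ y u := by fun_prop
    have hbd := (hA.image hcont).bddAbove
    have hne : ((fun x => inner ℝ x u) '' A).Nonempty := hAn.image _
    apply le_antisymm
    · rw [← le_sub_iff_add_le]
      refine csSup_le hne ?_
      rintro _ ⟨x, hx, rfl⟩
      rw [le_sub_iff_add_le]
      simp only
      rw [← inner_add_left]
      exact le_csSup (hA'.image hcont).bddAbove ⟨x + t, ⟨x, hx, rfl⟩, rfl⟩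
    · refine csSup_le ((hAn.image _).image _) ?_
      rintro _ ⟨_, ⟨x, hx, rfl⟩, rfl⟩
      simp only
      rw [inner_add_left]
      gcongr
      exact le_csSup hbd ⟨x, hx, rfl⟩
  refine ⟨t, Subset.antisymm ?_ ?_⟩
  · exact subset_of_supp hA' hAc' (hAn.image _) hB fun u hu => (hs u hu).le
  · exact subset_of_supp hB hBc hBn hA' fun u hu => (hs u hu).ge

theorem bm3_add {A B : Set E3} (hA : IsCompact A) (hB : IsCompact B) (hAc : Convex ℝ A)
    (hBc : Convex ℝ B) (hAi : (interior A).Nonempty) (hBi : (interior B).Nonempty) :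
    (MeasureTheory.volume A).toReal ^ (1 / 3 : ℝ) + (MeasureTheory.volume B).toReal ^ (1 / 3 : ℝ) ≤
      (MeasureTheory.volume (A + B)).toReal ^ (1 / 3 : ℝ) ∧
    ((MeasureTheory.volume (A + B)).toReal ^ (1 / 3 : ℝ) ≤
      (MeasureTheory.volume A).toReal ^ (1 / 3 : ℝ) +
      (MeasureTheory.volume B).toReal ^ (1 / 3 : ℝ) →
      ∃ c : ℝ, 0 < c ∧ ∃ t : E3, A = (fun x => c • x + t) '' B) := by
  have hpos : ∀ S : Set E3, IsCompact S → (interior S).Nonempty →
      0 < (MeasureTheory.volume S).toReal := by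
    intro S hS hi
    refine ENNReal.toReal_pos ?_ hS.measure_lt_top.ne
    exact ((isOpen_interior.measure_pos MeasureTheory.volume hi).trans_le
      (MeasureTheory.measure_mono interior_subset)).ne'
  have hvA := hpos A hA hAi
  have hvB := hpos B hB hBi
  obtain ⟨al, hal⟩ : ∃ al : ℝ, al = (MeasureTheory.volume A).toReal ^ (1 / 3 : ℝ) := ⟨_, rfl⟩
  obtain ⟨be, hbe⟩ : ∃ be : ℝ, be = (MeasureTheory.volume B).toReal ^ (1 / 3 : ℝ) := ⟨_, rfl⟩
  have hal0 : 0 < al := by rw [hal]; positivity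
  have hbe0 : 0 < be := by rw [hbe]; positivity
  have hal3 : al ^ 3 = (MeasureTheory.volume A).toReal := by
    rw [hal, ← Real.rpow_natCast, ← Real.rpow_mul hvA.le]; norm_num
  have hbe3 : be ^ 3 = (MeasureTheory.volume B).toReal := by
    rw [hbe, ← Real.rpow_natCast, ← Real.rpow_mul hvB.le]; norm_num
  have hscale : ∀ (S : Set E3) (r : ℝ), 0 < r → r ^ 3 = (MeasureTheory.volume S).toReal →
      IsCompact S → MeasureTheory.volume (r⁻¹ • S) = 1 := by
    intro S r hr hr3 hS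
    rw [MeasureTheory.Measure.addHaar_smul_of_nonneg _ (by positivity)]
    rw [← ENNReal.ofReal_toReal hS.measure_lt_top.ne, ← hr3, ← ENNReal.ofReal_mul (by positivity)]
    simp only [finrank_euclideanSpace, Fintype.card_fin]
    rw [inv_pow, inv_mul_cancel₀ (by positivity), ENNReal.ofReal_one]
  have hA1 := hscale A al hal0 hal3 hA
  have hB1 := hscale B be hbe0 hbe3 hB
  have hintS : ∀ (S : Set E3) (r : ℝ), 0 < r → (interior S).Nonempty →
      (interior (r⁻¹ • S)).Nonempty := by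
    intro S r hr hi
    rw [interior_smul₀ (by positivity)]
    exact hi.smul_set
  have hθ0 : 0 < al / (al + be) := by positivity
  have hθ1 : al / (al + be) < 1 := by
    rw [div_lt_one (by positivity)]; linarith
  have hθ' : 1 - al / (al + be) = be / (al + be) := by
    field_simp; ring
  have hmain := bm3_eq hθ0 hθ1 (hA.smul al⁻¹) (hB.smul be⁻¹) (hAc.smul _) (hBc.smul _)
    (hintS A al hal0 hAi) (hintS B be hbe0 hBi) hA1 hB1
  have hcomb : (al / (al + be)) • (al⁻¹ • A) + (1 - al / (al + be)) • (be⁻¹ • B)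
      = (al + be)⁻¹ • (A + B) := by
    rw [hθ', smul_smul, smul_smul, smul_add]
    congr 2
    · field_simp
    · field_simp
  rw [hcomb] at hmain
  have hABc : IsCompact (A + B) := hA.add hB
  have hvol : MeasureTheory.volume ((al + be)⁻¹ • (A + B))
      = ENNReal.ofReal (((al + be)⁻¹) ^ 3 * (MeasureTheory.volume (A + B)).toReal) := by
    rw [MeasureTheory.Measure.addHaar_smul_of_nonneg _ (by positivity),
      ENNReal.ofReal_mul (by positivity), ENNReal.ofReal_toReal hABc.measure_lt_top.ne]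
    simp only [finrank_euclideanSpace, Fintype.card_fin]
  rw [hvol] at hmain
  rw [← hal, ← hbe]
  have hs0 : 0 < al + be := by positivity
  constructor
  · have h := hmain.1
    rw [ENNReal.one_le_ofReal, inv_pow, inv_mul_eq_div, le_div_iff₀ (by positivity), one_mul] at h
    have h2 := Real.rpow_le_rpow (by positivity) h (show (0 : ℝ) ≤ 1 / 3 by norm_num)
    rwa [← Real.rpow_natCast, ← Real.rpow_mul hs0.le,
      show ((3 : ℕ) : ℝ) * (1 / 3) = 1 by norm_num, Real.rpow_one] at h2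
  · intro hle
    have h3 : (MeasureTheory.volume (A + B)).toReal ≤ (al + be) ^ 3 := by
      have hv0 : 0 ≤ (MeasureTheory.volume (A + B)).toReal := ENNReal.toReal_nonneg
      have h4 := pow_le_pow_left₀ (by positivity) hle 3
      rwa [← Real.rpow_natCast, ← Real.rpow_mul hv0,
        show (1 / 3 : ℝ) * ((3 : ℕ) : ℝ) = 1 by norm_num, Real.rpow_one] at h4
    obtain ⟨t, ht⟩ := hmain.2 (by
      rw [ENNReal.ofReal_le_one, inv_pow, inv_mul_eq_div, div_le_one (by positivity)]
      exact h3)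
    refine ⟨al / be, by positivity, -(al • t), ?_⟩
    have hB' : B = be • ((fun x => x + t) '' (al⁻¹ • A)) := by
      rw [← ht, smul_inv_smul₀ hbe0.ne']
    ext y
    constructor
    · intro hy
      refine ⟨be • (al⁻¹ • y + t), ?_, ?_⟩
      · rw [hB']
        exact ⟨_, ⟨al⁻¹ • y, ⟨y, hy, rfl⟩, rfl⟩, rfl⟩
      · simp only
        rw [smul_smul, div_mul_cancel₀ _ hbe0.ne', smul_add, smul_inv_smul₀ hal0.ne']
        abel
    · rintro ⟨x, hx, rfl⟩
      rw [hB'] at hx
      obtain ⟨_, ⟨_, ⟨z, hz, rfl⟩, rfl⟩, rfl⟩ := hx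
      simp only
      rw [smul_smul, div_mul_cancel₀ _ hbe0.ne', smul_add, smul_inv_smul₀ hal0.ne']
      rw [add_neg_cancel_right]
      exact hz

end Pool.Agent.Helper320.Gold.NP3
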