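import Mathlib
import Pool.Agent.Helper320.GBaseG
import Pool.Agent.Helper320.GG1
import Pool.Agent.Helper320.GG3
import Pool.Agent.Helper320.GG5
import Pool.Agent.Helper320.GP3

set_option autoImplicit false
open Set
open scoped Pointwise

namespace Pool.Agent.Helper320.Gold.NG6

open Pool.Agent.Helper320.Gold Pool.Agent.Helper320.Gold.NG1 Pool.Agent.Helper320.Gold.NG3 Pool.Agent.Helper320.Gold.NG5 Pool.Agent.Helper320.Gold.NP3

theorem ld_smul (X : Set E3) {c : ℝ} (hc : 0 ≤ c) :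
    (MeasureTheory.volume (c • X)).toReal ^ (1 / 3 : ℝ) =
      c * (MeasureTheory.volume X).toReal ^ (1 / 3 : ℝ) := by
  rw [MeasureTheory.Measure.addHaar_smul, ENNReal.toReal_mul,
    ENNReal.toReal_ofReal (abs_nonneg _), abs_of_nonneg (by positivity),
    Real.mul_rpow (by positivity) ENNReal.toReal_nonneg]
  congr 1
  have h1 : Module.finrank ℝ E3 = 3 := by simp
  rw [h1, ← Real.rpow_natCast, ← Real.rpow_mul hc]
  norm_num

theorem ld_cube (X : Set E3) :
    ((MeasureTheory.volume X).toReal ^ (1 / 3 : ℝ)) ^ 3 = (MeasureTheory.volume X).toReal := by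
  rw [← Real.rpow_natCast, ← Real.rpow_mul ENNReal.toReal_nonneg]
  norm_num

theorem ld_incl {P : Set E3} {N : Finset E3} {h : E3 → ℝ} (H : PD P N h) {ε : ℝ} (h0 : 0 < ε)
    (h1 : ε < 1) : (1 - ε) • P + ε • (P + polar N) ⊆
      {x : E3 | ∀ u ∈ N, inner ℝ u x ≤ h u + ε} := by
  rintro _ ⟨_, ⟨a, ha, rfl⟩, _, ⟨_, ⟨b, hb, c, hc, rfl⟩, rfl⟩, rfl⟩
  intro u hu
  rw [H.rep] at ha hb
  have h2 : inner ℝ u a ≤ h u := ha u hu
  have h3 : inner ℝ u b ≤ h u := hb u hu
  have h4 : inner ℝ u c ≤ 1 := by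
    have := hc u hu
    rwa [real_inner_comm] at this
  simp only [inner_add_right, inner_smul_right]
  nlinarith

theorem ld_main {P : Set E3} {N : Finset E3} {h : E3 → ℝ} (H : PD P N h) {ε : ℝ} (h0 : 0 < ε)
    (h1 : ε < 1) :
    ((1 - ε) * (MeasureTheory.volume P).toReal ^ (1 / 3 : ℝ) +
      ε * (MeasureTheory.volume (P + polar N)).toReal ^ (1 / 3 : ℝ)) ^ 3 ≤
      ∑ u ∈ N, (1 + ε / h u) ^ 3 * (h u * ar P h u / 3) := by
  have HT : PD (polar N) N (fun _ => 1) := PD_polar H.unit H.orig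
  obtain ⟨-, hPc, hP0⟩ := PD_poly H
  obtain ⟨-, hTc, hT0⟩ := PD_poly HT
  have hPk := PD_compact H
  have hTk := PD_compact HT
  have hsub : P ⊆ P + polar N := fun x hx => ⟨x, hx, 0, interior_subset hT0, add_zero x⟩
  have hSi : (interior (P + polar N)).Nonempty := ⟨0, interior_mono hsub hP0⟩
  have hA : (interior ((1 - ε) • P)).Nonempty := by
    rw [interior_smul₀ (by linarith : (1 - ε) ≠ 0)]
    exact Set.Nonempty.smul_set ⟨0, hP0⟩
  have hB : (interior (ε • (P + polar N))).Nonempty := by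
    rw [interior_smul₀ h0.ne']
    exact hSi.smul_set
  obtain ⟨hbm, -⟩ := bm3_add (hPk.smul (1 - ε)) ((hPk.add hTk).smul ε) (hPc.smul _)
    ((hPc.add hTc).smul _) hA hB
  rw [ld_smul _ (by linarith), ld_smul _ h0.le] at hbm
  have hnn : 0 ≤ (1 - ε) * (MeasureTheory.volume P).toReal ^ (1 / 3 : ℝ) +
      ε * (MeasureTheory.volume (P + polar N)).toReal ^ (1 / 3 : ℝ) := by
    have : 0 ≤ 1 - ε := by linarith
    positivity
  have h3 := pow_le_pow_left₀ hnn hbm 3
  rw [ld_cube] at h3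
  have HPe : PD {x : E3 | ∀ u ∈ N, inner ℝ u x ≤ h u + ε} N (fun u => h u + ε) :=
    ⟨H.unit, fun u hu => add_pos (H.pos u hu) h0, rfl, H.orig⟩
  have h4 : (MeasureTheory.volume ((1 - ε) • P + ε • (P + polar N))).toReal ≤
      (MeasureTheory.volume {x : E3 | ∀ u ∈ N, inner ℝ u x ≤ h u + ε}).toReal :=
    ENNReal.toReal_mono (PD_compact HPe).measure_lt_top.ne
      (MeasureTheory.measure_mono (ld_incl H h0 h1))
  exact h3.trans (h4.trans (vol_outer H h0.le))

theorem ld_ar_nonneg (P : Set E3) (h : E3 → ℝ) (u : E3) : 0 ≤ ar P h u := ENNReal.toReal_nonneg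

theorem ld_deriv {P : Set E3} {N : Finset E3} {h : E3 → ℝ} (H : PD P N h)
    (hD : (MeasureTheory.volume P).toReal ^ (1 / 3 : ℝ) ≤
      (MeasureTheory.volume (P + polar N)).toReal ^ (1 / 3 : ℝ)) :
    3 * ((MeasureTheory.volume P).toReal ^ (1 / 3 : ℝ)) ^ 2 *
      ((MeasureTheory.volume (P + polar N)).toReal ^ (1 / 3 : ℝ) -
        (MeasureTheory.volume P).toReal ^ (1 / 3 : ℝ)) ≤ ∑ u ∈ N, ar P h u := by
  set p := (MeasureTheory.volume P).toReal ^ (1 / 3 : ℝ) with hp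
  set q := (MeasureTheory.volume (P + polar N)).toReal ^ (1 / 3 : ℝ) with hq
  have hp0 : 0 ≤ p := by positivity
  set K1 := ∑ u ∈ N, ar P h u / h u with hK1
  set K2 := ∑ u ∈ N, ar P h u / (3 * h u ^ 2) with hK2
  have hK1n : 0 ≤ K1 := Finset.sum_nonneg fun u hu =>
    div_nonneg (ld_ar_nonneg _ _ _) (H.pos u hu).le
  have hK2n : 0 ≤ K2 := Finset.sum_nonneg fun u hu =>
    div_nonneg (ld_ar_nonneg _ _ _) (by positivity)
  have hbound : ∀ ε : ℝ, 0 < ε → ε < 1 →
      3 * p ^ 2 * (q - p) ≤ ∑ u ∈ N, ar P h u + ε * (K1 + K2) := by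
    intro ε h0 h1
    have h2 := ld_main H h0 h1
    rw [← hp, ← hq] at h2
    have h3 : ∑ u ∈ N, (1 + ε / h u) ^ 3 * (h u * ar P h u / 3) =
        p ^ 3 + ε * ∑ u ∈ N, ar P h u + ε ^ 2 * K1 + ε ^ 3 * K2 := by
      rw [hp, ld_cube, vol_PD H, hK1, hK2, Finset.mul_sum, Finset.mul_sum, Finset.mul_sum,
        ← Finset.sum_add_distrib, ← Finset.sum_add_distrib, ← Finset.sum_add_distrib]
      refine Finset.sum_congr rfl fun u hu => ?_
      have := (H.pos u hu).ne'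
      field_simp
      ring
    rw [h3] at h2
    have hD' : 0 ≤ q - p := by linarith
    have h4 : p ^ 3 + 3 * p ^ 2 * (q - p) * ε ≤ ((1 - ε) * p + ε * q) ^ 3 := by
      have h5 : ((1 - ε) * p + ε * q) ^ 3 = p ^ 3 + 3 * p ^ 2 * (q - p) * ε +
          (3 * p * (q - p) ^ 2 * ε ^ 2 + (q - p) ^ 3 * ε ^ 3) := by ring
      rw [h5]
      have : 0 ≤ 3 * p * (q - p) ^ 2 * ε ^ 2 + (q - p) ^ 3 * ε ^ 3 := by positivity
      linarith
    have h6 : 3 * p ^ 2 * (q - p) * ε ≤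
        (∑ u ∈ N, ar P h u + ε * (K1 + K2)) * ε := by
      have h7 : ε ^ 3 * K2 ≤ ε ^ 2 * K2 := by
        apply mul_le_mul_of_nonneg_right _ hK2n
        nlinarith [sq_nonneg ε]
      nlinarith
    exact le_of_mul_le_mul_right h6 h0
  refine le_of_forall_pos_le_add fun δ hδ => ?_
  have hK : 0 < K1 + K2 + 1 := by linarith
  have hpos : 0 < min (1 / 2) (δ / (K1 + K2 + 1)) := lt_min (by norm_num) (by positivity)
  have h8 := hbound (min (1 / 2) (δ / (K1 + K2 + 1))) hpos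
    ((min_le_left _ _).trans_lt (by norm_num))
  have h9 : min (1 / 2) (δ / (K1 + K2 + 1)) * (K1 + K2) ≤ δ := by
    calc min (1 / 2) (δ / (K1 + K2 + 1)) * (K1 + K2)
        ≤ (δ / (K1 + K2 + 1)) * (K1 + K2 + 1) :=
          mul_le_mul (min_le_right _ _) (by linarith) (by linarith) (by positivity)
      _ = δ := by field_simp
  linarith

theorem lindelof {P : Set E3} {N : Finset E3} {h : E3 → ℝ} (H : PD P N h) :
    27 * (MeasureTheory.volume P).toReal ^ 2 * (MeasureTheory.volume (polar N)).toReal ≤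
      (∑ u ∈ N, ar P h u) ^ 3 ∧
    ((∑ u ∈ N, ar P h u) ^ 3 ≤
      27 * (MeasureTheory.volume P).toReal ^ 2 * (MeasureTheory.volume (polar N)).toReal →
      ∃ c : ℝ, 0 < c ∧ ∃ t : E3, P = (fun x => c • x + t) '' polar N) := by
  have HT : PD (polar N) N (fun _ => 1) := PD_polar H.unit H.orig
  obtain ⟨-, hPc, hP0⟩ := PD_poly H
  obtain ⟨-, hTc, hT0⟩ := PD_poly HT
  have hPk := PD_compact H
  have hTk := PD_compact HT
  obtain ⟨hbm, heq⟩ := bm3_add hPk hTk hPc hTc ⟨0, hP0⟩ ⟨0, hT0⟩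
  have hp0 : 0 < (MeasureTheory.volume P).toReal ^ (1 / 3 : ℝ) := by
    apply Real.rpow_pos_of_pos
    exact ENNReal.toReal_pos
      (MeasureTheory.Measure.measure_pos_of_nonempty_interior _ ⟨0, hP0⟩).ne'
      hPk.measure_lt_top.ne
  have ht0 : 0 ≤ (MeasureTheory.volume (polar N)).toReal ^ (1 / 3 : ℝ) := by positivity
  have hder := ld_deriv H (by linarith)
  have hcP := ld_cube P
  have hcT := ld_cube (polar N)
  set p := (MeasureTheory.volume P).toReal ^ (1 / 3 : ℝ) with hp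
  set t := (MeasureTheory.volume (polar N)).toReal ^ (1 / 3 : ℝ) with ht
  set q := (MeasureTheory.volume (P + polar N)).toReal ^ (1 / 3 : ℝ) with hq
  set A := ∑ u ∈ N, ar P h u with hA
  have hval : 27 * (MeasureTheory.volume P).toReal ^ 2 *
      (MeasureTheory.volume (polar N)).toReal = (3 * p ^ 2 * t) ^ 3 := by
    rw [← hcP, ← hcT]
    ring
  have h1 : 3 * p ^ 2 * t ≤ A := by
    have : 3 * p ^ 2 * t ≤ 3 * p ^ 2 * (q - p) := by
      apply mul_le_mul_of_nonneg_left _ (by positivity)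
      linarith
    linarith
  rw [hval]
  refine ⟨pow_le_pow_left₀ (by positivity) h1 3, fun h2 => ?_⟩
  have hA0 : 0 ≤ A := Finset.sum_nonneg fun u _ => ld_ar_nonneg _ _ _
  have h3 : A ≤ 3 * p ^ 2 * t := by
    by_contra hcon
    have := pow_lt_pow_left₀ (not_le.1 hcon) (by positivity) (by norm_num : 3 ≠ 0)
    linarith
  have h4 : q - p ≤ t := by
    have h5 : 3 * p ^ 2 * (q - p) ≤ 3 * p ^ 2 * t := hder.trans h3
    exact le_of_mul_le_mul_left h5 (by positivity)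
  exact heq (by linarith)

end Pool.Agent.Helper320.Gold.NG6
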