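import Mathlib
import Pool.Agent.Helper320.GBaseG

set_option autoImplicit false
open Set

namespace Pool.Agent.Helper320.Gold.NG7

open Pool.Agent.Helper320.Gold

/-- the homothety as a homeomorphism -/
noncomputable def homH (c : ℝ) (hc : c ≠ 0) (t : E3) : E3 ≃ₜ E3 :=
  (Homeomorph.smulOfNeZero c hc).trans (Homeomorph.addRight t)

theorem homH_coe (c : ℝ) (hc : c ≠ 0) (t : E3) : (homH c hc t : E3 → E3) = fun x => c • x + t := by
  funext x
  simp [homH]

/-- the homothety as an affine map -/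
noncomputable def homA (c : ℝ) (t : E3) : E3 →ᵃ[ℝ] E3 :=
  c • AffineMap.id ℝ E3 + AffineMap.const ℝ E3 t

theorem homA_coe (c : ℝ) (t : E3) : (homA c t : E3 → E3) = fun x => c • x + t := by
  funext x
  simp [homA]

theorem homA_lin (c : ℝ) (t : E3) : (homA c t).linear = c • (LinearMap.id : E3 →ₗ[ℝ] E3) := by
  simp [homA]

theorem hom_inv_left (c : ℝ) (hc : c ≠ 0) (t : E3) (A : Set E3) :
    (fun x => c⁻¹ • x + (-(c⁻¹ • t))) '' ((fun x => c • x + t) '' A) = A := by
  rw [image_image]
  have : (fun x : E3 => c⁻¹ • (c • x + t) + (-(c⁻¹ • t))) = id := by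
    funext x
    simp [smul_add, smul_smul, inv_mul_cancel₀ hc]
  rw [this, image_id]

theorem hom_inv_right (c : ℝ) (hc : c ≠ 0) (t : E3) (A : Set E3) :
    (fun x => c • x + t) '' ((fun x => c⁻¹ • x + (-(c⁻¹ • t))) '' A) = A := by
  rw [image_image]
  have : (fun x : E3 => c • (c⁻¹ • x + (-(c⁻¹ • t))) + t) = id := by
    funext x
    simp [smul_add, smul_smul, mul_inv_cancel₀ hc]
  rw [this, image_id]

theorem hom_inj (c : ℝ) (hc : c ≠ 0) (t : E3) : Function.Injective (fun x : E3 => c • x + t) := by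
  rw [← homH_coe c hc t]
  exact (homH c hc t).injective

theorem poly_hom {P : Set E3} (hP : IsPolyhedron P) {c : ℝ} (hc : 0 < c) (t : E3) :
    IsPolyhedron ((fun x => c • x + t) '' P) := by
  classical
  obtain ⟨⟨v, hv⟩, F, hF⟩ := hP
  refine ⟨?_, F.image (fun x => c • x + t), ?_⟩
  · rw [← homH_coe c hc.ne' t, ← (homH c hc.ne' t).image_interior P]
    exact ⟨_, mem_image_of_mem _ hv⟩
  · rw [Finset.coe_image, hF, ← homA_coe c t, AffineMap.image_convexHull]

theorem face_fwd (P : Set E3) (d : ℕ) (F : Set E3) {c : ℝ} (hc : 0 < c) (t : E3)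
    (h : IsFace P d F) : IsFace ((fun x => c • x + t) '' P) d ((fun x => c • x + t) '' F) := by
  obtain ⟨h1, h2, h3⟩ := h
  refine ⟨h1.image _, ?_, ?_⟩
  · intro _
    obtain ⟨l, hl⟩ := h2 h1
    refine ⟨l, ?_⟩
    ext y
    constructor
    · rintro ⟨x, hx, rfl⟩
      rw [hl] at hx
      refine ⟨mem_image_of_mem _ hx.1, ?_⟩
      rintro _ ⟨z, hz, rfl⟩
      have := hx.2 z hz
      simp only [map_add, map_smul, smul_eq_mul]
      nlinarith
    · rintro ⟨⟨x, hx, rfl⟩, hy⟩
      refine mem_image_of_mem _ ?_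
      rw [hl]
      refine ⟨hx, fun z hz => ?_⟩
      have := hy _ (mem_image_of_mem (fun x => c • x + t) hz)
      simp only [map_add, map_smul, smul_eq_mul] at this
      have h4 : c * l z ≤ c * l x := by linarith
      exact le_of_mul_le_mul_left h4 hc
  · rw [← h3, ← homA_coe c t, ← AffineMap.map_vectorSpan, homA_lin,
      Submodule.map_smul _ _ _ hc.ne', Submodule.map_id]

theorem face_hom (P : Set E3) (d : ℕ) (F : Set E3) {c : ℝ} (hc : 0 < c) (t : E3) :
    IsFace ((fun x => c • x + t) '' P) d ((fun x => c • x + t) '' F) ↔ IsFace P d F := by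
  constructor
  · intro h
    have := face_fwd _ d _ (inv_pos.2 hc) (-(c⁻¹ • t)) h
    rwa [hom_inv_left c hc.ne' t, hom_inv_left c hc.ne' t] at this
  · exact face_fwd P d F hc t

theorem faces_image (P : Set E3) (d : ℕ) (Q R : Set E3 → Prop) {c : ℝ} (hc : 0 < c) (t : E3)
    (hQR : ∀ F, Q ((fun x => c • x + t) '' F) ↔ R F) :
    {G | IsFace ((fun x => c • x + t) '' P) d G ∧ Q G}.ncard = {F | IsFace P d F ∧ R F}.ncard := by
  have h1 : {G | IsFace ((fun x => c • x + t) '' P) d G ∧ Q G} =
      (fun F => (fun x => c • x + t) '' F) '' {F | IsFace P d F ∧ R F} := by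
    ext G
    constructor
    · rintro ⟨hG, hQ⟩
      refine ⟨(fun x => c⁻¹ • x + (-(c⁻¹ • t))) '' G, ⟨?_, ?_⟩, hom_inv_right c hc.ne' t G⟩
      · rw [← face_hom P d _ hc t, hom_inv_right c hc.ne' t G]
        exact hG
      · rw [← hQR, hom_inv_right c hc.ne' t G]
        exact hQ
    · rintro ⟨F, ⟨hF, hR⟩, rfl⟩
      exact ⟨(face_hom P d F hc t).2 hF, (hQR F).2 hR⟩
  rw [h1]
  exact Set.ncard_image_of_injective _ (Set.image_injective.2 (hom_inj c hc.ne' t))

theorem numFaces_hom (P : Set E3) {c : ℝ} (hc : 0 < c) (t : E3) :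
    numFaces ((fun x => c • x + t) '' P) = numFaces P := by
  have := faces_image P 2 (fun _ => True) (fun _ => True) hc t (fun F => Iff.rfl)
  simp only [and_true] at this
  exact this

theorem sides_hom (P F : Set E3) {c : ℝ} (hc : 0 < c) (t : E3) :
    sides ((fun x => c • x + t) '' P) ((fun x => c • x + t) '' F) = sides P F :=
  faces_image P 1 (fun E => E ⊆ (fun x => c • x + t) '' F) (fun E => E ⊆ F) hc t
    (fun E => Set.image_subset_image_iff (hom_inj c hc.ne' t))

theorem medial_hom {P : Set E3} {f : ℕ} (hP : IsMedial P f) {c : ℝ} (hc : 0 < c) (t : E3) :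
    IsMedial ((fun x => c • x + t) '' P) f := by
  obtain ⟨h1, h2, h3⟩ := hP
  refine ⟨by rw [numFaces_hom P hc t, h1], ?_, ?_⟩
  · intro v hv
    obtain ⟨w, hw⟩ : ∃ w, (fun x => c • x + t) w = v := by
      rw [← homH_coe c hc.ne' t]
      exact (homH c hc.ne' t).surjective v
    subst hw
    rw [show ({(fun x => c • x + t) w} : Set E3) = (fun x => c • x + t) '' {w} by
      rw [image_singleton], face_hom P 0 {w} hc t] at hv
    refine Eq.trans ?_ (h2 w hv)
    refine faces_image P 1 _ _ hc t (fun F => ?_)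
    exact (hom_inj c hc.ne' t).mem_set_image
  · intro G hG
    have hG' : G = (fun x => c • x + t) '' ((fun x => c⁻¹ • x + (-(c⁻¹ • t))) '' G) :=
      (hom_inv_right c hc.ne' t G).symm
    rw [hG'] at hG ⊢
    rw [sides_hom P _ hc t]
    exact h3 _ ((face_hom P 2 _ hc t).1 hG)

open Pointwise in
theorem surf_hom (P : Set E3) {c : ℝ} (hc : 0 < c) (t : E3) :
    surf ((fun x => c • x + t) '' P) = c ^ 2 * surf P := by
  have h1 : frontier ((fun x => c • x + t) '' P) = (fun x => x + t) '' (c • frontier P) := by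
    rw [← homH_coe c hc.ne' t, ← (homH c hc.ne' t).image_frontier P, homH_coe]
    rw [← Set.image_smul, image_image]
  unfold surf
  rw [h1]
  have h2 : MeasureTheory.Measure.hausdorffMeasure 2 ((fun x : E3 => x + t) '' (c • frontier P)) =
      MeasureTheory.Measure.hausdorffMeasure 2 (c • frontier P) :=
    Isometry.hausdorffMeasure_image (isometry_add_right t) (Or.inl (by norm_num)) _
  rw [h2, MeasureTheory.Measure.hausdorffMeasure_smul₀ (by norm_num) hc.ne']
  rw [ENNReal.toReal_smul]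
  have h3 : ((‖c‖₊ ^ (2 : ℝ) : NNReal) : ℝ) = c ^ 2 := by
    rw [NNReal.coe_rpow]
    simp [abs_of_pos hc]
  rw [← h3]
  rfl

open Pointwise in
theorem vol_hom (P : Set E3) {c : ℝ} (hc : 0 < c) (t : E3) :
    (MeasureTheory.volume ((fun x => c • x + t) '' P)).toReal = c ^ 3 * (MeasureTheory.volume P).toReal := by
  have h1 : (fun x => c • x + t) '' P = (fun x => x + t) '' (c • P) := by
    rw [← Set.image_smul, image_image]
  rw [h1]
  have h2 : MeasureTheory.volume ((fun x : E3 => x + t) '' (c • P)) = MeasureTheory.volume (c • P) := by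
    rw [Set.image_add_right]
    exact MeasureTheory.measure_preimage_add_right _ _ _
  rw [h2, MeasureTheory.Measure.addHaar_smul, ENNReal.toReal_mul]
  congr 1
  rw [finrank_euclideanSpace, Fintype.card_fin, ENNReal.toReal_ofReal (abs_nonneg _), abs_of_pos (by positivity)]

theorem iq_hom (P : Set E3) {c : ℝ} (hc : 0 < c) (t : E3) :
    iq ((fun x => c • x + t) '' P) = iq P := by
  unfold iq
  rw [surf_hom P hc t, vol_hom P hc t, mul_pow, mul_pow, ← pow_mul, ← pow_mul]
  exact mul_div_mul_left _ _ (by positivity)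

end Pool.Agent.Helper320.Gold.NG7
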