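import Mathlib
import Pool.Agent.Helper320.GBaseG
import Pool.Agent.Helper320.GG3

set_option autoImplicit false
open Set

namespace Pool.Agent.Helper320.Gold.NG8

open Pool.Agent.Helper320.Gold Pool.Agent.Helper320.Gold.NG3

namespace G8Aux
open Filter Topology

theorem perturb {S : Finset E3} {x0 e : E3} (hx0 : x0 ∈ polar S)
    (he : ∀ v ∈ S, (inner ℝ x0 v : ℝ) = 1 → (inner ℝ e v : ℝ) = 0) :
    ∀ᶠ t : ℝ in 𝓝 0, x0 + t • e ∈ polar S := by
  unfold polar
  show ∀ᶠ t : ℝ in 𝓝 0, ∀ u ∈ S, (inner ℝ (x0 + t • e) u : ℝ) ≤ 1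
  rw [Filter.eventually_all_finset]
  intro v hv
  by_cases h1 : (inner ℝ x0 v : ℝ) = 1
  · refine Filter.Eventually.of_forall fun t => ?_
    rw [inner_add_left, inner_smul_left, he v hv h1, h1]
    simp
  · have h2 : (inner ℝ x0 v : ℝ) < 1 := lt_of_le_of_ne (hx0 v hv) h1
    have hc : Continuous fun t : ℝ => (inner ℝ (x0 + t • e) v : ℝ) := by fun_prop
    have h3 : Tendsto (fun t : ℝ => (inner ℝ (x0 + t • e) v : ℝ)) (𝓝 0) (𝓝 (inner ℝ x0 v)) := by
      have := hc.tendsto 0
      simpa using this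
    exact (h3.eventually_lt_const h2).mono fun t ht => ht.le

theorem perturb' {S : Finset E3} {x0 e : E3} (hx0 : x0 ∈ polar S)
    (he : ∀ v ∈ S, (inner ℝ x0 v : ℝ) = 1 → (inner ℝ e v : ℝ) = 0) :
    ∃ t : ℝ, 0 < t ∧ x0 + t • e ∈ polar S ∧ x0 + (-t) • e ∈ polar S := by
  obtain ⟨δ, hδ, h⟩ := Metric.eventually_nhds_iff.1 (perturb hx0 he)
  refine ⟨δ / 2, by positivity, h ?_, h ?_⟩
  · rw [Real.dist_eq, sub_zero, abs_of_pos (by positivity)]; linarith
  · rw [Real.dist_eq, sub_zero, abs_neg, abs_of_pos (by positivity)]; linarith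

theorem adj_point {S : Finset E3} (ho : ∀ a : E3, a ≠ 0 → ∃ x ∈ S, 0 < (inner ℝ a x : ℝ))
    {u w : E3} (h : Adj S u w) : u ∈ S ∧ w ∈ S ∧ u ≠ w ∧ ∃ p ∈ polar S,
      (inner ℝ p u : ℝ) = 1 ∧ (inner ℝ p w : ℝ) = 1 ∧
        ∀ v ∈ S, (inner ℝ p v : ℝ) = 1 → v = u ∨ v = w := by
  obtain ⟨huw, a, ha, hmax⟩ := h
  have hu := (hmax u).2 (Or.inl rfl)
  have hw := (hmax w).2 (Or.inr rfl)
  obtain ⟨x, hx, hax⟩ := ho a ha
  set m : ℝ := inner ℝ a u with hm
  have hm0 : 0 < m := lt_of_lt_of_le hax (hu.2 x hx)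
  have hwm : (inner ℝ a w : ℝ) = m := le_antisymm (hu.2 w hw.1) (hw.2 u hu.1)
  have hin : ∀ v : E3, (inner ℝ (m⁻¹ • a) v : ℝ) = m⁻¹ * inner ℝ a v := by
    intro v
    rw [inner_smul_left]; rfl
  refine ⟨hu.1, hw.1, huw, m⁻¹ • a, ?_, ?_, ?_, ?_⟩
  · intro v hv
    rw [hin, inv_mul_le_iff₀ hm0, mul_one]
    exact hu.2 v hv
  · rw [hin, ← hm, inv_mul_cancel₀ hm0.ne']
  · rw [hin, hwm, inv_mul_cancel₀ hm0.ne']
  · intro v hv h1
    rw [hin] at h1
    have h2 : (inner ℝ a v : ℝ) = m := by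
      field_simp at h1
      exact h1
    refine (hmax v).1 ⟨hv, fun y hy => ?_⟩
    rw [h2]
    exact hu.2 y hy

theorem adj_of_point {S : Finset E3} {u w p : E3} (hu : u ∈ S) (hw : w ∈ S) (huw : u ≠ w)
    (hp : p ∈ polar S) (h1 : (inner ℝ p u : ℝ) = 1) (h2 : (inner ℝ p w : ℝ) = 1)
    (h3 : ∀ v ∈ S, (inner ℝ p v : ℝ) = 1 → v = u ∨ v = w) : Adj S u w := by
  refine ⟨huw, p, ?_, ?_⟩
  · rintro rfl
    simp at h1
  · intro x
    constructor
    · rintro ⟨hx, hm⟩
      refine h3 x hx (le_antisymm (hp x hx) ?_)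
      rw [← h1]
      exact hm u hu
    · rintro (rfl | rfl)
      · exact ⟨hu, fun y hy => by rw [h1]; exact hp y hy⟩
      · exact ⟨hw, fun y hy => by rw [h2]; exact hp y hy⟩

theorem adj_symm {S : Finset E3} {u w : E3} (h : Adj S u w) : Adj S w u := by
  obtain ⟨h1, a, ha, h2⟩ := h
  exact ⟨h1.symm, a, ha, fun x => (h2 x).trans or_comm⟩

theorem ed_symm (S : Finset E3) (u w : E3) : ed S u w = ed S w u := by
  ext x
  constructor
  · rintro ⟨h1, h2, h3⟩; exact ⟨h1, h3, h2⟩
  · rintro ⟨h1, h2, h3⟩; exact ⟨h1, h3, h2⟩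

theorem finrank_pair_compl {x y : E3} (h : ∀ s t : ℝ, s • x + t • y = 0 → s = 0 ∧ t = 0) :
    Module.finrank ℝ (Submodule.span ℝ ({x, y} : Set E3))ᗮ = 1 := by
  have hli : LinearIndependent ℝ ![x, y] := LinearIndependent.pair_iff.2 h
  have h1 : Module.finrank ℝ (Submodule.span ℝ (Set.range ![x, y])) = 2 := by
    rw [finrank_span_eq_card hli]; simp
  have h2 : Set.range ![x, y] = ({x, y} : Set E3) := by
    simp [Set.pair_comm]
  rw [h2] at h1
  have h3 := Submodule.finrank_add_finrank_orthogonal (Submodule.span ℝ ({x, y} : Set E3))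
  rw [h1, finrank_euclideanSpace, Fintype.card_fin] at h3
  omega

theorem mem_orth_pair {x y z : E3} :
    z ∈ (Submodule.span ℝ ({x, y} : Set E3))ᗮ ↔ (inner ℝ z x : ℝ) = 0 ∧ (inner ℝ z y : ℝ) = 0 := by
  rw [Submodule.mem_orthogonal']
  constructor
  · intro h
    exact ⟨h x (Submodule.subset_span (by simp)), h y (Submodule.subset_span (by simp))⟩
  · rintro ⟨h1, h2⟩ v hv
    obtain ⟨a, b, rfl⟩ := Submodule.mem_span_pair.1 hv
    rw [inner_add_right, inner_smul_right, inner_smul_right, h1, h2]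
    simp

theorem inj3 {v1 v2 v3 : E3} (h12 : v1 ≠ v2) (h13 : v1 ≠ v3) (h23 : v2 ≠ v3) :
    Function.Injective ![v1, v2, v3] := by
  intro i j hij
  fin_cases i <;> fin_cases j
  · rfl
  · exact absurd hij h12
  · exact absurd hij h13
  · exact absurd hij.symm h12
  · rfl
  · exact absurd hij h23
  · exact absurd hij.symm h13
  · exact absurd hij.symm h23
  · rfl

theorem mem3 {A : Finset E3} {v1 v2 v3 : E3} (h1 : v1 ∈ A) (h2 : v2 ∈ A) (h3 : v3 ∈ A) :
    ∀ z ∈ Set.range ![v1, v2, v3], z ∈ A := by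
  rintro _ ⟨i, rfl⟩
  fin_cases i
  exacts [h1, h2, h3]

/-- three different unit vectors cannot be orthogonal to the differences... -/
theorem three {A : Finset E3} {x0 d : E3} (hA1 : ∀ v ∈ A, ‖v‖ = 1)
    (hx0A : ∀ v ∈ A, (inner ℝ x0 v : ℝ) = 1) (hd0 : d ≠ 0)
    (hdA : ∀ v ∈ A, (inner ℝ d v : ℝ) = 0) : A.card ≤ 2 := by
  by_contra hcon
  push Not at hcon
  obtain ⟨v1, v2, v3, h1, h2, h3, h12, h13, h23⟩ := Finset.two_lt_card_iff.1 hcon
  have hli : ∀ s t : ℝ, s • x0 + t • d = 0 → s = 0 ∧ t = 0 := by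
    intro s t hst
    have e1 := congrArg (fun z => (inner ℝ z v1 : ℝ)) hst
    simp only [inner_add_left, inner_smul_left, hx0A v1 h1, hdA v1 h1, inner_zero_left,
      conj_trivial, mul_one, mul_zero, add_zero] at e1
    rw [e1, zero_smul, zero_add] at hst
    exact ⟨e1, (smul_eq_zero.1 hst).resolve_right hd0⟩
  have hK := finrank_pair_compl hli
  have hcos : EuclideanGeometry.Cospherical ((A : Set E3)) :=
    ⟨0, 1, fun z hz => by rw [dist_zero_right]; exact hA1 z hz⟩
  have haff := hcos.affineIndependent (p := ![v1, v2, v3]) (mem3 h1 h2 h3) (inj3 h12 h13 h23)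
  have hr : Module.finrank ℝ (vectorSpan ℝ (Set.range ![v1, v2, v3])) = 2 :=
    haff.finrank_vectorSpan (by simp)
  have hsub : vectorSpan ℝ (Set.range ![v1, v2, v3]) ≤
      (Submodule.span ℝ ({x0, d} : Set E3))ᗮ := by
    rw [vectorSpan_def, Submodule.span_le]
    have hrng := mem3 h1 h2 h3
    rintro _ ⟨x, hx, y, hy, rfl⟩
    show x -ᵥ y ∈ (Submodule.span ℝ ({x0, d} : Set E3))ᗮ
    rw [vsub_eq_sub, mem_orth_pair, real_inner_comm, inner_sub_right,
      real_inner_comm d (x - y), inner_sub_right, hx0A x (hrng x hx), hx0A y (hrng y hy),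
      hdA x (hrng x hx), hdA y (hrng y hy)]
    simp
  have := Submodule.finrank_mono hsub
  omega

end G8Aux

open G8Aux in
theorem ed_face {S : Finset E3} (hS : ∀ x ∈ S, ‖x‖ = 1)
    (ho : ∀ a : E3, a ≠ 0 → ∃ x ∈ S, 0 < inner ℝ a x) {u w : E3} (h : Adj S u w) :
    u ∈ S ∧ w ∈ S ∧ IsFace (polar S) 1 (ed S u w) ∧
      ∀ v ∈ S, (∀ x ∈ ed S u w, inner ℝ x v = 1) → v = u ∨ v = w := by
  obtain ⟨hu, hw, huw, p, hp, hpu, hpw, hpv⟩ := adj_point ho h
  have hped : p ∈ ed S u w := ⟨hp, hpu, hpw⟩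
  refine ⟨hu, hw, ⟨⟨p, hped⟩, ?_, ?_⟩, ?_⟩
  · intro _
    refine ⟨innerSL ℝ (u + w), ?_⟩
    ext x
    constructor
    · rintro ⟨hx, hxu, hxw⟩
      refine ⟨hx, fun y hy => ?_⟩
      rw [innerSL_apply_apply, innerSL_apply_apply, inner_add_left, inner_add_left,
        real_inner_comm x u, real_inner_comm x w, real_inner_comm y u, real_inner_comm y w]
      have h1 := hy u hu
      have h2 := hy w hw
      linarith
    · rintro ⟨hx, hmax⟩
      have h3 := hmax p hp
      rw [innerSL_apply_apply, innerSL_apply_apply, inner_add_left, inner_add_left,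
        real_inner_comm x u, real_inner_comm x w, real_inner_comm p u, real_inner_comm p w] at h3
      have h1 := hx u hu
      have h2 := hx w hw
      exact ⟨hx, by linarith, by linarith⟩
  · have hK : vectorSpan ℝ (ed S u w) = (Submodule.span ℝ ({u, w} : Set E3))ᗮ := by
      refine le_antisymm ?_ ?_
      · rw [vectorSpan_def, Submodule.span_le]
        rintro _ ⟨x, hx, y, hy, rfl⟩
        show x -ᵥ y ∈ (Submodule.span ℝ ({u, w} : Set E3))ᗮ
        rw [vsub_eq_sub, mem_orth_pair, inner_sub_left, inner_sub_left, hx.2.1, hx.2.2, hy.2.1,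
          hy.2.2]
        simp
      · intro e he
        rw [mem_orth_pair] at he
        obtain ⟨t, ht, h1, -⟩ := perturb' (e := e) hp (by
          intro v hv hv1
          rcases hpv v hv hv1 with rfl | rfl
          exacts [he.1, he.2])
        have h2 : p + t • e ∈ ed S u w := by
          refine ⟨h1, ?_, ?_⟩
          · rw [inner_add_left, inner_smul_left, he.1, hpu]; simp
          · rw [inner_add_left, inner_smul_left, he.2, hpw]; simp
        have h3 := vsub_mem_vectorSpan ℝ h2 hped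
        rw [vsub_eq_sub, add_sub_cancel_left] at h3
        have h4 := (vectorSpan ℝ (ed S u w)).smul_mem t⁻¹ h3
        rwa [smul_smul, inv_mul_cancel₀ ht.ne', one_smul] at h4
    rw [hK]
    refine finrank_pair_compl ?_
    intro s t hst
    have h1 : s + t = 0 := by
      have := congrArg (fun z => (inner ℝ p z : ℝ)) hst
      simp only [inner_add_right, inner_smul_right, hpu, hpw, inner_zero_right] at this
      linarith
    have h2 : t = -s := by linarith
    rw [h2, neg_smul, ← sub_eq_add_neg, ← smul_sub] at hst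
    rcases smul_eq_zero.1 hst with h3 | h3
    · exact ⟨h3, by rw [h2, h3, neg_zero]⟩
    · exact absurd (sub_eq_zero.1 h3) huw
  · intro v hv h1
    exact hpv v hv (h1 p hped)

open G8Aux in
theorem face_ed {S : Finset E3} (hS : ∀ x ∈ S, ‖x‖ = 1)
    (ho : ∀ a : E3, a ≠ 0 → ∃ x ∈ S, 0 < inner ℝ a x) {E : Set E3}
    (hE : IsFace (polar S) 1 E) : ∃ u w, Adj S u w ∧ E = ed S u w := by
  classical
  obtain ⟨hne, hexp, hrk⟩ := hE
  obtain ⟨l, hl⟩ := hexp hne
  have hET : ∀ x ∈ E, x ∈ polar S := by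
    intro x hx
    rw [hl] at hx
    exact hx.1
  -- a point with the least number of active constraints
  obtain ⟨x0, hx0, hmin⟩ : ∃ x0 ∈ E, ∀ x ∈ E,
      (S.filter fun v => (inner ℝ x0 v : ℝ) = 1).card ≤
        (S.filter fun v => (inner ℝ x v : ℝ) = 1).card := by
    have hs : ((fun x : E3 => (S.filter fun v => (inner ℝ x v : ℝ) = 1).card) '' E).Nonempty :=
      hne.image _
    obtain ⟨x0, hx0, he⟩ := Nat.sInf_mem hs
    refine ⟨x0, hx0, fun x hx => ?_⟩
    have he' : (S.filter fun v => (inner ℝ x0 v : ℝ) = 1).card = _ := he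
    rw [he']
    exact Nat.sInf_le ⟨x, hx, rfl⟩
  set A := S.filter fun v => (inner ℝ x0 v : ℝ) = 1 with hA
  have hx0T := hET x0 hx0
  have hAE : ∀ v ∈ A, ∀ x ∈ E, (inner ℝ x v : ℝ) = 1 := by
    intro v hv x hx
    have hmid : (1 / 2 : ℝ) • x0 + (1 / 2 : ℝ) • x ∈ E := by
      rw [hl] at hx hx0 ⊢
      refine ⟨?_, fun y hy => ?_⟩
      · intro z hz
        rw [inner_add_left, inner_smul_left, inner_smul_left]
        have h1 := hx.1 z hz
        have h2 := hx0.1 z hz
        simp only [conj_trivial]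
        linarith
      · have h1 := hx.2 y hy
        have h2 := hx0.2 y hy
        rw [map_add, map_smul, map_smul, smul_eq_mul, smul_eq_mul]
        linarith
    have hsub : (S.filter fun z => (inner ℝ ((1 / 2 : ℝ) • x0 + (1 / 2 : ℝ) • x) z : ℝ) = 1) ⊆
        A := by
      intro z hz
      rw [Finset.mem_filter] at hz
      rw [hA, Finset.mem_filter]
      refine ⟨hz.1, ?_⟩
      have h3 := hz.2
      rw [inner_add_left, inner_smul_left, inner_smul_left] at h3
      simp only [conj_trivial] at h3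
      have h1 := hET x hx z hz.1
      have h2 := hx0T z hz.1
      linarith
    have heq := Finset.eq_of_subset_of_card_le hsub (hmin _ hmid)
    rw [← heq, Finset.mem_filter] at hv
    have h3 := hv.2
    rw [inner_add_left, inner_smul_left, inner_smul_left] at h3
    simp only [conj_trivial] at h3
    have h1 := hET x hx v hv.1
    have h2 := hx0T v hv.1
    linarith
  -- directions orthogonal to the active constraints
  have hle : ∀ e : E3, (∀ v ∈ A, (inner ℝ e v : ℝ) = 0) → l e = 0 := by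
    intro e he
    obtain ⟨t, ht, h1, h2⟩ := perturb' (e := e) hx0T (by
      intro v hv hv1
      exact he v (by rw [hA, Finset.mem_filter]; exact ⟨hv, hv1⟩))
    have hx0' := hx0
    rw [hl] at hx0'
    have h3 := hx0'.2 _ h1
    have h4 := hx0'.2 _ h2
    rw [map_add, map_smul, smul_eq_mul] at h3 h4
    nlinarith
  have hspan : (Submodule.span ℝ (A : Set E3))ᗮ ≤ vectorSpan ℝ E := by
    intro e he
    rw [Submodule.mem_orthogonal'] at he
    have he' : ∀ v ∈ A, (inner ℝ e v : ℝ) = 0 := fun v hv => he v (Submodule.subset_span hv)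
    obtain ⟨t, ht, h1, -⟩ := perturb' (e := e) hx0T (by
      intro v hv hv1
      exact he' v (by rw [hA, Finset.mem_filter]; exact ⟨hv, hv1⟩))
    have h2 : x0 + t • e ∈ E := by
      have hx0' := hx0
      rw [hl] at hx0' ⊢
      refine ⟨h1, fun y hy => ?_⟩
      rw [map_add, map_smul, hle e he', smul_zero, add_zero]
      exact hx0'.2 y hy
    have h3 := vsub_mem_vectorSpan ℝ h2 hx0
    rw [vsub_eq_sub, add_sub_cancel_left] at h3
    have h4 := (vectorSpan ℝ E).smul_mem t⁻¹ h3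
    rwa [smul_smul, inv_mul_cancel₀ ht.ne', one_smul] at h4
  have hcard2 : 2 ≤ A.card := by
    have h1 := Submodule.finrank_mono hspan
    have h2 := Submodule.finrank_add_finrank_orthogonal (Submodule.span ℝ (A : Set E3))
    rw [finrank_euclideanSpace, Fintype.card_fin] at h2
    have h3 := finrank_span_finset_le_card (R := ℝ) A
    have h4 : Module.finrank ℝ (Submodule.span ℝ (A : Set E3)) ≤ A.card := h3
    omega
  obtain ⟨d, hd, hd0⟩ : ∃ d ∈ vectorSpan ℝ E, d ≠ 0 := by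
    have : vectorSpan ℝ E ≠ ⊥ := by
      intro hb
      rw [hb, finrank_bot] at hrk
      exact absurd hrk (by norm_num)
    exact (Submodule.ne_bot_iff _).1 this
  have hdA : ∀ v ∈ A, (inner ℝ d v : ℝ) = 0 := by
    intro v hv
    have h1 : vectorSpan ℝ E ≤ (Submodule.span ℝ ({v, v} : Set E3))ᗮ := by
      rw [vectorSpan_def, Submodule.span_le]
      rintro _ ⟨x, hx, y, hy, rfl⟩
      show x -ᵥ y ∈ (Submodule.span ℝ ({v, v} : Set E3))ᗮ
      rw [vsub_eq_sub, mem_orth_pair, inner_sub_left, hAE v hv x hx, hAE v hv y hy]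
      simp
    exact (mem_orth_pair.1 (h1 hd)).1
  have hx0A : ∀ v ∈ A, (inner ℝ x0 v : ℝ) = 1 := fun v hv => (Finset.mem_filter.1 hv).2
  have hAS : ∀ v ∈ A, v ∈ S := fun v hv => (Finset.mem_filter.1 hv).1
  have hcard3 : A.card ≤ 2 := three (fun v hv => hS v (hAS v hv)) hx0A hd0 hdA
  obtain ⟨u, w, huw, hAuw⟩ := Finset.card_eq_two.1 (le_antisymm hcard3 hcard2)
  have huA : u ∈ A := by rw [hAuw]; simp
  have hwA : w ∈ A := by rw [hAuw]; simp
  refine ⟨u, w, adj_of_point (hAS u huA) (hAS w hwA) huw hx0T (hx0A u huA) (hx0A w hwA) ?_, ?_⟩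
  · intro v hv h1
    have : v ∈ A := by rw [hA, Finset.mem_filter]; exact ⟨hv, h1⟩
    rw [hAuw] at this
    simpa using this
  · ext y
    constructor
    · intro hy
      exact ⟨hET y hy, hAE u huA y hy, hAE w hwA y hy⟩
    · rintro ⟨hyT, hyu, hyw⟩
      have h1 : l (y - x0) = 0 := by
        refine hle _ fun v hv => ?_
        rw [hAuw] at hv
        rw [inner_sub_left]
        have hv' : v = u ∨ v = w := by simpa using hv
        rcases hv' with rfl | rfl
        · rw [hyu, hx0A v huA, sub_self]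
        · rw [hyw, hx0A v hwA, sub_self]
      rw [map_sub, sub_eq_zero] at h1
      have hx0' := hx0
      rw [hl] at hx0' ⊢
      exact ⟨hyT, fun z hz => by rw [h1]; exact hx0'.2 z hz⟩

open G8Aux in
theorem sides_eq {S : Finset E3} (hS : ∀ x ∈ S, ‖x‖ = 1)
    (ho : ∀ a : E3, a ≠ 0 → ∃ x ∈ S, 0 < inner ℝ a x) {u : E3} (hu : u ∈ S) :
    sides (polar S) (fc (polar S) u) = {w | Adj S u w}.ncard := by
  unfold sides
  have himg : {E : Set E3 | IsFace (polar S) 1 E ∧ E ⊆ fc (polar S) u} =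
      (fun w => ed S u w) '' {w | Adj S u w} := by
    rw [fc_polar hS hu]
    ext E
    constructor
    · rintro ⟨hE, hsub⟩
      obtain ⟨u', w', hadj, rfl⟩ := face_ed hS ho hE
      rcases (ed_face hS ho hadj).2.2.2 u hu (fun x hx => (hsub hx).2) with rfl | rfl
      · exact ⟨w', hadj, rfl⟩
      · exact ⟨u', adj_symm hadj, ed_symm S _ _⟩
    · rintro ⟨w, hw, rfl⟩
      exact ⟨(ed_face hS ho hw).2.2.1, fun x hx => ⟨hx.1, hx.2.1⟩⟩
  rw [himg]
  refine Set.InjOn.ncard_image ?_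
  intro w hw w' hw' heq
  have heq' : ed S u w = ed S u w' := heq
  rcases (ed_face hS ho hw).2.2.2 w' (ed_face hS ho hw').2.1
    (fun x hx => by rw [heq'] at hx; exact hx.2.2) with h | h
  · exact absurd h.symm hw'.1
  · exact h.symm

end Pool.Agent.Helper320.Gold.NG8
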