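import Mathlib
import Pool.Agent.Helper320.GBaseG
import Pool.Agent.Helper320.GG8

set_option autoImplicit false
open Set

namespace Pool.Agent.Helper320.Gold.NG9

open Pool.Agent.Helper320.Gold Pool.Agent.Helper320.Gold.NG8

theorem line_of {p n : E3} (hind : LinearIndependent ℝ ![p, n]) {g g' : E3} (hg : g ≠ 0)
    (h1 : inner ℝ p g = 0) (h2 : inner ℝ n g = 0) (h3 : inner ℝ p g' = 0) (h4 : inner ℝ n g' = 0) :
    ∃ β : ℝ, g' = β • g := by
  set K : Submodule ℝ E3 := Submodule.span ℝ (Set.range ![p, n]) with hK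
  have hfK : Module.finrank ℝ K = 2 := by
    have := finrank_span_eq_card hind
    simpa using this
  have hsum := Submodule.finrank_add_finrank_orthogonal K
  have h3' : Module.finrank ℝ E3 = 3 := by simp
  have hf1 : Module.finrank ℝ Kᗮ = 1 := by omega
  have hmem : ∀ x : E3, inner ℝ p x = 0 → inner ℝ n x = 0 → x ∈ Kᗮ := by
    intro x hx1 hx2
    rw [Submodule.mem_orthogonal]
    intro y hy
    rw [hK] at hy
    induction hy using Submodule.span_induction with
    | mem y hy =>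
      obtain ⟨i, rfl⟩ := hy
      fin_cases i
      · exact hx1
      · exact hx2
    | zero => simp
    | add y z _ _ hy hz => rw [inner_add_left, hy, hz, add_zero]
    | smul c y _ hy => rw [inner_smul_left, hy, mul_zero]
  have hgne : (⟨g, hmem g h1 h2⟩ : Kᗮ) ≠ 0 := fun h => hg (congrArg Subtype.val h)
  obtain ⟨β, hβ⟩ := (finrank_eq_one_iff_of_nonzero' _ hgne).1 hf1 ⟨g', hmem g' h3 h4⟩
  exact ⟨β, (congrArg Subtype.val hβ).symm⟩

/-- three unit vectors are not on a line -/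
theorem uniq3 {p n : E3} (hind : LinearIndependent ℝ ![p, n]) {u v v' : E3} (hu : ‖u‖ = 1)
    (hv : ‖v‖ = 1) (hv' : ‖v'‖ = 1) (huv : u ≠ v) (huv' : u ≠ v') (hvv : v ≠ v')
    (h1 : inner ℝ p (v - u) = 0) (h2 : inner ℝ n (v - u) = 0)
    (h3 : inner ℝ p (v' - u) = 0) (h4 : inner ℝ n (v' - u) = 0) : False := by
  have hg : v - u ≠ 0 := fun h => huv (sub_eq_zero.1 h).symm
  obtain ⟨β, hβ⟩ := line_of hind hg h1 h2 h3 h4
  set g := v - u with hgd
  have e1 : v = u + g := by rw [hgd]; abel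
  have e2 : v' = u + β • g := by rw [← hβ]; abel
  have n1 : ‖u + g‖ ^ 2 = 1 := by rw [← e1, hv]; norm_num
  have n2 : ‖u + β • g‖ ^ 2 = 1 := by rw [← e2, hv']; norm_num
  rw [norm_add_sq_real, hu] at n1 n2
  rw [inner_smul_right, norm_smul, mul_pow, Real.norm_eq_abs, sq_abs] at n2
  have hgpos : 0 < ‖g‖ ^ 2 := by
    have := norm_pos_iff.2 hg
    positivity
  have h5 : β * (β - 1) * ‖g‖ ^ 2 = 0 := by
    linear_combination n2 - β * n1
  rcases mul_eq_zero.1 h5 with h6 | h6
  · rcases mul_eq_zero.1 h6 with h7 | h7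
    · apply huv'
      rw [e2, h7, zero_smul, add_zero]
    · apply hvv
      rw [e1, e2, sub_eq_zero.1 h7, one_smul]
  · exact hgpos.ne' h6

theorem adj_of {S : Finset E3} {p u w n z : E3} (hp : ∀ v ∈ S, inner ℝ p v ≤ 1) (hu : u ∈ S)
    (hpu : inner ℝ p u = 1) (hw : w ∈ S) (hpw : inner ℝ p w = 1) (huw : u ≠ w)
    (hn : ∀ v ∈ S, inner ℝ p v = 1 → inner ℝ n (v - u) ≤ 0)
    (hn0 : ∀ v ∈ S, inner ℝ p v = 1 → inner ℝ n (v - u) = 0 → v = u ∨ v = w)
    (hnw : inner ℝ n (w - u) = 0) (hz : z ∈ S) (hpz : inner ℝ p z = 1) (hzu : z ≠ u)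
    (hzw : z ≠ w) : Adj S u w := by
  have hev : ∀ v ∈ S, inner ℝ p v < 1 →
      ∀ᶠ η : ℝ in nhdsWithin 0 (Ioi 0), η * inner ℝ n (v - u) < 1 - inner ℝ p v := by
    intro v _ hlt
    have ht : Filter.Tendsto (fun η : ℝ => η * inner ℝ n (v - u)) (nhdsWithin 0 (Ioi 0))
        (nhds (0 * inner ℝ n (v - u))) :=
      ((continuous_id.mul continuous_const).tendsto 0).mono_left nhdsWithin_le_nhds
    rw [zero_mul] at ht
    exact ht.eventually (gt_mem_nhds (by linarith))
  have hev2 : ∀ᶠ η : ℝ in nhdsWithin 0 (Ioi 0), ∀ v ∈ S, inner ℝ p v < 1 →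
      η * inner ℝ n (v - u) < 1 - inner ℝ p v := by
    rw [Filter.eventually_all_finset]
    intro v hv
    by_cases h : inner ℝ p v < 1
    · filter_upwards [hev v hv h] with η hη _ using hη
    · exact Filter.Eventually.of_forall fun η h' => absurd h' h
  obtain ⟨η, hη, hη0⟩ := (hev2.and self_mem_nhdsWithin).exists
  have hη0' : 0 < η := hη0
  set b : E3 := p + η • n with hb
  have hdiff : ∀ v, inner ℝ b v - inner ℝ b u = inner ℝ p v - inner ℝ p u + η * inner ℝ n (v - u) := by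
    intro v
    rw [hb, inner_add_left, inner_add_left, inner_smul_left, inner_smul_left, inner_sub_right]
    simp
    ring
  have hle : ∀ v ∈ S, inner ℝ b v ≤ inner ℝ b u ∧
      (inner ℝ b v = inner ℝ b u → v = u ∨ v = w) := by
    intro v hv
    have hd := hdiff v
    rw [hpu] at hd
    rcases (hp v hv).lt_or_eq with h1 | h1
    · have h2 := hη v hv h1
      constructor
      · linarith
      · intro h3
        linarith
    · have h2 := hn v hv h1
      have h3 : η * inner ℝ n (v - u) ≤ 0 := mul_nonpos_of_nonneg_of_nonpos hη0'.le h2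
      constructor
      · linarith
      · intro h4
        apply hn0 v hv h1
        have h5 : η * inner ℝ n (v - u) = 0 := by linarith
        exact (mul_eq_zero.1 h5).resolve_left hη0'.ne'
  have hbw : inner ℝ b w = inner ℝ b u := by
    have hd := hdiff w
    rw [hpu, hpw, hnw, mul_zero] at hd
    linarith
  refine ⟨huw, b, ?_, ?_⟩
  · rintro hb0
    have h1 := (hle z hz).2 (by rw [hb0, inner_zero_left, inner_zero_left])
    rcases h1 with h1 | h1
    · exact hzu h1
    · exact hzw h1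
  · intro v
    constructor
    · rintro ⟨hv, hmax⟩
      exact (hle v hv).2 (le_antisymm (hle v hv).1 (hmax u hu))
    · rintro (rfl | rfl)
      · exact ⟨hu, fun x hx => (hle x hx).1⟩
      · exact ⟨hw, fun x hx => by rw [hbw]; exact (hle x hx).1⟩

theorem max_pos {S : Finset E3} (ho : ∀ a : E3, a ≠ 0 → ∃ x ∈ S, 0 < inner ℝ a x) {a u : E3}
    (ha : a ≠ 0) (hu : IsMax S a u) : 0 < inner ℝ a u := by
  obtain ⟨x, hx, hx2⟩ := ho a ha
  exact hx2.trans_le (hu.2 x hx)

theorem isMax_iff {S : Finset E3} (ho : ∀ a : E3, a ≠ 0 → ∃ x ∈ S, 0 < inner ℝ a x) {a u : E3}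
    (ha : a ≠ 0) (hu : IsMax S a u) (v : E3) :
    IsMax S a v ↔ v ∈ S ∧ inner ℝ ((inner ℝ a u)⁻¹ • a) v = (1 : ℝ) := by
  have hm := max_pos ho ha hu
  rw [inner_smul_left]
  simp only [conj_trivial]
  rw [inv_mul_eq_one₀ hm.ne']
  constructor
  · rintro ⟨hv, hmax⟩
    exact ⟨hv, le_antisymm (hmax u hu.1) (hu.2 v hv)⟩
  · rintro ⟨hv, he⟩
    exact ⟨hv, fun x hx => by rw [← he]; exact hu.2 x hx⟩

theorem p_le {S : Finset E3} (ho : ∀ a : E3, a ≠ 0 → ∃ x ∈ S, 0 < inner ℝ a x) {a u : E3}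
    (ha : a ≠ 0) (hu : IsMax S a u) (v : E3) (hv : v ∈ S) :
    inner ℝ ((inner ℝ a u)⁻¹ • a) v ≤ (1 : ℝ) := by
  have hm := max_pos ho ha hu
  rw [inner_smul_left]
  simp only [conj_trivial]
  rw [inv_mul_le_one₀ hm]
  exact hu.2 v hv

theorem two_edges {S : Finset E3} (hS : ∀ x ∈ S, ‖x‖ = 1)
    (ho : ∀ a : E3, a ≠ 0 → ∃ x ∈ S, 0 < inner ℝ a x) {a u x y : E3} (ha : a ≠ 0)
    (hu : IsMax S a u) (hx : IsMax S a x) (hy : IsMax S a y) (hux : u ≠ x) (huy : u ≠ y)
    (hxy : x ≠ y) : ∃ w₁ w₂, w₁ ≠ w₂ ∧ IsMax S a w₁ ∧ IsMax S a w₂ ∧ Adj S u w₁ ∧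
      Adj S u w₂ := by
  classical
  have hm := max_pos ho ha hu
  have hiff := isMax_iff ho ha hu
  have hple := p_le ho ha hu
  have hp0 : (inner ℝ a u : ℝ)⁻¹ • a ≠ 0 := smul_ne_zero (inv_ne_zero hm.ne') ha
  set p : E3 := (inner ℝ a u)⁻¹ • a with hpd
  -- the vector τ
  obtain ⟨τ, hτ0, hτu, hτp⟩ : ∃ τ : E3, τ ≠ 0 ∧ inner ℝ τ u = 0 ∧ inner ℝ τ p = 0 := by
    set K : Submodule ℝ E3 := Submodule.span ℝ (Set.range ![u, p]) with hK
    have hfK : Module.finrank ℝ K ≤ 2 := by
      have := finrank_range_le_card (R := ℝ) ![u, p]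
      simpa [Set.finrank] using this
    have hsum := Submodule.finrank_add_finrank_orthogonal K
    have h3' : Module.finrank ℝ E3 = 3 := by simp
    have hpos : 0 < Module.finrank ℝ Kᗮ := by omega
    obtain ⟨τ, hτ⟩ := Module.finrank_pos_iff_exists_ne_zero.1 hpos
    refine ⟨τ, fun h => hτ (Subtype.ext h), ?_, ?_⟩
    · have := (Submodule.mem_orthogonal K _).1 τ.2 u (Submodule.subset_span ⟨0, rfl⟩)
      rw [real_inner_comm]; exact this
    · have := (Submodule.mem_orthogonal K _).1 τ.2 p (Submodule.subset_span ⟨1, rfl⟩)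
      rw [real_inner_comm]; exact this
  have hind : ∀ s : ℝ, LinearIndependent ℝ ![p, τ + s • u] := by
    intro s
    rw [LinearIndependent.pair_iff]
    intro α β h
    have h1 := congrArg (fun z => inner ℝ τ z) h
    simp only [inner_add_right, inner_smul_right, hτp, hτu, mul_zero, zero_add, add_zero,
      inner_zero_right, real_inner_self_eq_norm_sq] at h1
    have hτn : ‖τ‖ ^ 2 ≠ 0 := pow_ne_zero _ (norm_ne_zero_iff.2 hτ0)
    have hβ : β = 0 := (mul_eq_zero.1 h1).resolve_right hτn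
    rw [hβ, zero_smul, add_zero] at h
    exact ⟨(smul_eq_zero.1 h).resolve_right hp0, hβ⟩
  have huS := hu.1
  have hu1 : ‖u‖ = 1 := hS u huS
  have hpu : inner ℝ p u = (1 : ℝ) := ((hiff u).1 hu).2
  have hlt : ∀ v ∈ S, v ≠ u → inner ℝ u v < (1 : ℝ) := by
    intro v hv hne
    exact (inner_lt_one_iff_real_of_norm_eq_one hu1 (hS v hv)).2 hne.symm
  set sl : E3 → ℝ := fun v => inner ℝ τ v / (1 - inner ℝ u v) with hsl
  have hform : ∀ (s : ℝ) (v : E3), v ∈ S → v ≠ u →
      inner ℝ (τ + s • u) (v - u) = (1 - inner ℝ u v) * (sl v - s) := by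
    intro s v hv hne
    have h1 := hlt v hv hne
    have h2 : (1 - inner ℝ u v : ℝ) ≠ 0 := by linarith
    have h3 : (1 - inner ℝ u v) * sl v = inner ℝ τ v := by
      simp only [hsl]; field_simp
    rw [mul_sub, h3, inner_add_left, inner_smul_left, inner_sub_right, inner_sub_right, hτu,
      real_inner_self_eq_norm_sq, hu1]
    simp
    ring
  have hinj : ∀ v v', v ∈ S → v' ∈ S → inner ℝ p v = (1 : ℝ) → inner ℝ p v' = (1 : ℝ) → v ≠ u →
      v' ≠ u → sl v = sl v' → v = v' := by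
    intro v v' hv hv' hpv hpv' hvu hvu' hs
    by_contra hne
    refine uniq3 (hind (sl v)) hu1 (hS v hv) (hS v' hv') hvu.symm hvu'.symm hne ?_ ?_ ?_ ?_
    · rw [inner_sub_right, hpv, hpu, sub_self]
    · rw [hform _ v hv hvu, sub_self, mul_zero]
    · rw [inner_sub_right, hpv', hpu, sub_self]
    · rw [hform _ v' hv' hvu', hs, sub_self, mul_zero]
  set M : Finset E3 := S.filter (fun v => inner ℝ p v = (1 : ℝ) ∧ v ≠ u) with hM
  have hxM : x ∈ M := by
    rw [hM, Finset.mem_filter]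
    exact ⟨hx.1, ((hiff x).1 hx).2, hux.symm⟩
  have hyM : y ∈ M := by
    rw [hM, Finset.mem_filter]
    exact ⟨hy.1, ((hiff y).1 hy).2, huy.symm⟩
  obtain ⟨w₁, hw₁, hmax⟩ := Finset.exists_max_image M sl ⟨x, hxM⟩
  obtain ⟨w₂, hw₂, hmin⟩ := Finset.exists_min_image M sl ⟨x, hxM⟩
  have hw₁' := hw₁
  have hw₂' := hw₂
  rw [hM, Finset.mem_filter] at hw₁' hw₂'
  obtain ⟨hw₁S, hw₁p, hw₁u⟩ := hw₁'
  obtain ⟨hw₂S, hw₂p, hw₂u⟩ := hw₂'
  have hmemM : ∀ v ∈ S, inner ℝ p v = (1 : ℝ) → v ≠ u → v ∈ M := by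
    intro v hv h1 h2
    rw [hM, Finset.mem_filter]
    exact ⟨hv, h1, h2⟩
  have hne : w₁ ≠ w₂ := by
    intro h
    apply hxy
    have h1 := hmax x hxM
    have h2 := hmax y hyM
    have h3 := hmin x hxM
    have h4 := hmin y hyM
    rw [← h] at h3 h4
    exact hinj x y hx.1 hy.1 ((hiff x).1 hx).2 ((hiff y).1 hy).2 hux.symm huy.symm
      (by linarith)
  refine ⟨w₁, w₂, hne, (hiff w₁).2 ⟨hw₁S, hw₁p⟩, (hiff w₂).2 ⟨hw₂S, hw₂p⟩, ?_, ?_⟩
  · refine adj_of (z := w₂) (n := τ + sl w₁ • u) hple huS hpu hw₁S hw₁p hw₁u.symm ?_ ?_ ?_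
      hw₂S hw₂p hw₂u hne.symm
    · intro v hv hpv
      by_cases hvu : v = u
      · rw [hvu, sub_self, inner_zero_right]
      · rw [hform _ v hv hvu]
        have h1 := hlt v hv hvu
        have h2 := hmax v (hmemM v hv hpv hvu)
        exact mul_nonpos_of_nonneg_of_nonpos (by linarith) (by linarith)
    · intro v hv hpv h0
      by_cases hvu : v = u
      · exact Or.inl hvu
      · right
        rw [hform _ v hv hvu] at h0
        have h1 := hlt v hv hvu
        rcases mul_eq_zero.1 h0 with h2 | h2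
        · linarith
        · exact hinj v w₁ hv hw₁S hpv hw₁p hvu hw₁u (by linarith)
    · rw [hform _ w₁ hw₁S hw₁u, sub_self, mul_zero]
  · have hneg : ∀ v ∈ S, v ≠ u → inner ℝ (-(τ + sl w₂ • u)) (v - u)
        = (1 - inner ℝ u v) * (sl w₂ - sl v) := by
      intro v hv hvu
      rw [inner_neg_left, hform _ v hv hvu]
      ring
    refine adj_of (z := w₁) (n := -(τ + sl w₂ • u)) hple huS hpu hw₂S hw₂p hw₂u.symm ?_ ?_ ?_
      hw₁S hw₁p hw₁u hne
    · intro v hv hpv
      by_cases hvu : v = u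
      · rw [hvu, sub_self, inner_zero_right]
      · rw [hneg v hv hvu]
        have h1 := hlt v hv hvu
        have h2 := hmin v (hmemM v hv hpv hvu)
        exact mul_nonpos_of_nonneg_of_nonpos (by linarith) (by linarith)
    · intro v hv hpv h0
      by_cases hvu : v = u
      · exact Or.inl hvu
      · right
        rw [hneg v hv hvu] at h0
        have h1 := hlt v hv hvu
        rcases mul_eq_zero.1 h0 with h2 | h2
        · linarith
        · exact hinj v w₂ hv hw₂S hpv hw₂p hvu hw₂u (by linarith)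
    · rw [hneg w₂ hw₂S hw₂u, sub_self, mul_zero]

theorem good_of_simple {S : Finset E3} (hS : ∀ x ∈ S, ‖x‖ = 1)
    (ho : ∀ a : E3, a ≠ 0 → ∃ x ∈ S, 0 < inner ℝ a x) (hs : IsSimple (polar S)) : Good S := by
  classical
  refine ⟨hS, ?_, ho⟩
  intro a ha T' hT'
  by_contra hcard
  push Not at hcard
  obtain ⟨u, huT⟩ : T'.Nonempty := by
    rw [← Finset.card_pos]; omega
  have hu : IsMax S a u := hT' u huT
  have hm := max_pos ho ha hu
  have hiff := isMax_iff ho ha hu
  have hple := p_le ho ha hu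
  have hp0 : (inner ℝ a u : ℝ)⁻¹ • a ≠ 0 := smul_ne_zero (inv_ne_zero hm.ne') ha
  set p : E3 := (inner ℝ a u)⁻¹ • a with hpd
  set M : Finset E3 := S.filter (fun v => inner ℝ p v = (1 : ℝ)) with hM
  have hMiff : ∀ v, v ∈ M ↔ IsMax S a v := by
    intro v
    rw [hM, Finset.mem_filter, hiff]
  have hMcard : 4 ≤ M.card := by
    have : T' ⊆ M := fun v hv => (hMiff v).2 (hT' v hv)
    have := Finset.card_le_card this
    omega
  have hMS : ∀ v ∈ M, v ∈ S := fun v hv => ((hMiff v).1 hv).1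
  have hMp : ∀ v ∈ M, inner ℝ p v = (1 : ℝ) := fun v hv => ((hiff v).1 ((hMiff v).1 hv)).2
  have hpT : p ∈ polar S := fun v hv => hple v hv
  -- uniqueness of p
  have huniq : ∀ x : E3, (∀ v ∈ M, inner ℝ x v = (1 : ℝ)) → x = p := by
    intro x hx
    by_contra hne
    set d := x - p with hdd
    have hd0 : d ≠ 0 := fun h => hne (sub_eq_zero.1 h)
    have hdv : ∀ v ∈ M, inner ℝ d v = (0 : ℝ) := by
      intro v hv
      rw [hdd, inner_sub_left, hx v hv, hMp v hv, sub_self]
    obtain ⟨v1, hv1, v2, hv2, v3, hv3, h12, h13, h23⟩ := Finset.two_lt_card.1 (by omega : 2 < M.card)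
    have hind : LinearIndependent ℝ ![p, d] := by
      rw [LinearIndependent.pair_iff]
      intro α β h
      have h1 := congrArg (fun z => inner ℝ z v1) h
      simp only [inner_add_left, inner_smul_left, hMp v1 hv1, hdv v1 hv1, conj_trivial, mul_one,
        mul_zero, add_zero, inner_zero_left] at h1
      rw [h1, zero_smul, zero_add] at h
      exact ⟨h1, (smul_eq_zero.1 h).resolve_right hd0⟩
    refine uniq3 hind (hS v1 (hMS v1 hv1)) (hS v2 (hMS v2 hv2)) (hS v3 (hMS v3 hv3)) h12 h13 h23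
      ?_ ?_ ?_ ?_
    · rw [inner_sub_right, hMp v1 hv1, hMp v2 hv2, sub_self]
    · rw [inner_sub_right, hdv v1 hv1, hdv v2 hv2, sub_self]
    · rw [inner_sub_right, hMp v1 hv1, hMp v3 hv3, sub_self]
    · rw [inner_sub_right, hdv v1 hv1, hdv v3 hv3, sub_self]
  -- p is a vertex
  have hvert : IsFace (polar S) 0 {p} := by
    refine ⟨singleton_nonempty p, ?_, ?_⟩
    · intro _
      refine ⟨innerSL ℝ (∑ v ∈ M, v), ?_⟩
      have hl : ∀ x : E3, innerSL ℝ (∑ v ∈ M, v) x = ∑ v ∈ M, inner ℝ x v := by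
        intro x
        rw [innerSL_apply_apply, sum_inner]
        exact Finset.sum_congr rfl fun v _ => real_inner_comm _ _
      have hlp : innerSL ℝ (∑ v ∈ M, v) p = (M.card : ℝ) := by
        rw [hl, Finset.sum_congr rfl hMp]
        simp
      have hle : ∀ x ∈ polar S, innerSL ℝ (∑ v ∈ M, v) x ≤ (M.card : ℝ) := by
        intro x hx
        rw [hl]
        calc ∑ v ∈ M, inner ℝ x v ≤ ∑ v ∈ M, (1 : ℝ) :=
              Finset.sum_le_sum fun v hv => hx v (hMS v hv)
          _ = _ := by simp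
      ext x
      constructor
      · rintro rfl
        exact ⟨hpT, fun y hy => by rw [hlp]; exact hle y hy⟩
      · rintro ⟨hxT, hxmax⟩
        have h1 := hxmax p hpT
        rw [hlp, hl] at h1
        apply huniq
        by_contra hcon
        push Not at hcon
        obtain ⟨v, hv, hvne⟩ := hcon
        have : ∑ v ∈ M, inner ℝ x v < ∑ v ∈ M, (1 : ℝ) :=
          Finset.sum_lt_sum (fun v hv => hxT v (hMS v hv))
            ⟨v, hv, lt_of_le_of_ne (hxT v (hMS v hv)) hvne⟩
        simp only [Finset.sum_const, nsmul_eq_mul, mul_one] at this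
        linarith
    · simp
  have hcard3 := hs p hvert
  have hfin : {E : Set E3 | IsFace (polar S) 1 E ∧ p ∈ E}.Finite :=
    Set.finite_of_ncard_ne_zero (by rw [hcard3]; norm_num)
  set t : Finset (Set E3) := hfin.toFinset with ht
  have htcard : t.card = 3 := by
    rw [← hcard3, Set.ncard_eq_toFinset_card _ hfin]
  have hdc := Finset.card_mul_le_card_mul (s := M) (t := t)
    (fun (v : E3) (E : Set E3) => ∀ x ∈ E, inner ℝ x v = (1 : ℝ)) (m := 2) (n := 2) ?_ ?_
  · omega
  · intro v hv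
    have hvmax := (hMiff v).1 hv
    have hcard' : 1 < (M.erase v).card := by
      rw [Finset.card_erase_of_mem hv]; omega
    obtain ⟨x, hx, y, hy, hxy⟩ := Finset.one_lt_card.1 hcard'
    rw [Finset.mem_erase] at hx hy
    obtain ⟨w₁, w₂, hne, hw₁, hw₂, ha1, ha2⟩ := two_edges hS ho ha hvmax ((hMiff x).1 hx.2)
      ((hMiff y).1 hy.2) hx.1.symm hy.1.symm hxy
    have hf1 := ed_face hS ho ha1
    have hf2 := ed_face hS ho ha2
    have hmem : ∀ w, IsMax S a w → Adj S v w → ed S v w ∈ t := by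
      intro w hw hadj
      rw [ht, Set.Finite.mem_toFinset]
      exact ⟨(ed_face hS ho hadj).2.2.1, hpT, hMp v hv, hMp w ((hMiff w).2 hw)⟩
    have hne2 : ed S v w₁ ≠ ed S v w₂ := by
      intro h
      have h1 := hf1.2.2.2 w₂ hw₂.1 (fun x hx => by
        rw [h] at hx
        exact hx.2.2)
      rcases h1 with h1 | h1
      · exact ha2.1 h1.symm
      · exact hne h1.symm
    calc 2 = ({ed S v w₁, ed S v w₂} : Finset (Set E3)).card := (Finset.card_pair hne2).symm
      _ ≤ _ := by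
        apply Finset.card_le_card
        intro E hE
        rw [Finset.mem_bipartiteAbove]
        rcases Finset.mem_insert.1 hE with rfl | hE
        · exact ⟨hmem w₁ hw₁ ha1, fun x hx => hx.2.1⟩
        · rw [Finset.mem_singleton] at hE
          subst hE
          exact ⟨hmem w₂ hw₂ ha2, fun x hx => hx.2.1⟩
  · intro E hE
    rw [ht, Set.Finite.mem_toFinset] at hE
    obtain ⟨u', w', hadj, rfl⟩ := face_ed hS ho hE.1
    calc _ ≤ ({u', w'} : Finset E3).card := by
          apply Finset.card_le_card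
          intro v hv
          rw [Finset.mem_bipartiteBelow] at hv
          rw [Finset.mem_insert, Finset.mem_singleton]
          exact (ed_face hS ho hadj).2.2.2 v (hMS v hv.1) hv.2
      _ ≤ 2 := Finset.card_le_two

end Pool.Agent.Helper320.Gold.NG9
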