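import Mathlib
import Pool.Agent.Helper320.GBaseG
import Pool.Agent.Helper320.GA9
import Pool.Agent.Helper320.GB3
import Pool.Agent.Helper320.GG1
import Pool.Agent.Helper320.GG2
import Pool.Agent.Helper320.GG3
import Pool.Agent.Helper320.GG4
import Pool.Agent.Helper320.GG5
import Pool.Agent.Helper320.GG6
import Pool.Agent.Helper320.GG7
import Pool.Agent.Helper320.GG8
import Pool.Agent.Helper320.GG9

set_option autoImplicit false
open Set
open scoped Pointwise

namespace Pool.Agent.Helper320.Gold.NFinG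

open Pool.Agent.Helper320.Gold Pool.Agent.Helper320.Gold.NA9 Pool.Agent.Helper320.Gold.NB3 Pool.Agent.Helper320.Gold.NG1 Pool.Agent.Helper320.Gold.NG2 Pool.Agent.Helper320.Gold.NG3 Pool.Agent.Helper320.Gold.NG4 Pool.Agent.Helper320.Gold.NG5 Pool.Agent.Helper320.Gold.NG6 Pool.Agent.Helper320.Gold.NG7 Pool.Agent.Helper320.Gold.NG8 Pool.Agent.Helper320.Gold.NG9

/-- the surface area and the volume of a polar body -/
theorem iq_polar {κ : ℝ} (hκ : ∀ (P : Set E3) (N : Finset E3) (h : E3 → ℝ),
    PD P N h → surf P = κ * ∑ u ∈ N, ar P h u) {S : Finset E3} (hS : ∀ x ∈ S, ‖x‖ = 1)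
    (ho : ∀ a : E3, a ≠ 0 → ∃ x ∈ S, 0 < inner ℝ a x) :
    0 < (MeasureTheory.volume (polar S)).toReal ∧
      iq (polar S) = 27 * κ ^ 3 * (MeasureTheory.volume (polar S)).toReal := by
  have H := PD_polar hS ho
  have hv := vol_PD H
  have hc := PD_compact H
  have hp := PD_poly H
  have hpos : 0 < (MeasureTheory.volume (polar S)).toReal := by
    refine ENNReal.toReal_pos ?_ hc.measure_lt_top.ne
    have : 0 < MeasureTheory.volume (interior (polar S)) :=
      isOpen_interior.measure_pos _ ⟨0, hp.2.2⟩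
    exact (this.trans_le (MeasureTheory.measure_mono interior_subset)).ne'
  refine ⟨hpos, ?_⟩
  have hA : ∑ u ∈ S, ar (polar S) (fun _ => 1) u =
      3 * (MeasureTheory.volume (polar S)).toReal := by
    rw [hv, Finset.mul_sum]
    refine Finset.sum_congr rfl fun u _ => ?_
    ring
  unfold iq
  rw [hκ _ _ _ H, hA]
  field_simp
  try ring

/-- asymptotic disproof of Goldberg's conjecture -/
theorem main : ∃ N : ℕ, ∀ f : ℕ, N ≤ f → ∀ P : Set E3, IsPolyhedron P → IsMedial P f →
    ∃ Q : Set E3, IsPolyhedron Q ∧ numFaces Q = f ∧ iq Q < iq P := by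
  obtain ⟨C, hC, N1, -, hcomp⟩ := competitorA
  obtain ⟨N2, hno⟩ := no_good_medialA C hC
  obtain ⟨κ, hκ0, hκ⟩ := exists_kappa
  refine ⟨max (max N1 N2) 14, fun f hf P0 hP0 hM0 => ?_⟩
  have hf1 : N1 ≤ f := le_trans (le_trans (le_max_left _ _) (le_max_left _ _)) hf
  have hf2 : N2 ≤ f := le_trans (le_trans (le_max_right _ _) (le_max_left _ _)) hf
  have hf14 : 14 ≤ f := le_trans (le_max_right _ _) hf
  -- move an interior point to the origin
  obtain ⟨o, ho⟩ := hP0.1
  set P : Set E3 := (fun x => (1 : ℝ) • x + (-o)) '' P0 with hPdef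
  have hP : IsPolyhedron P := poly_hom hP0 one_pos (-o)
  have hM : IsMedial P f := medial_hom hM0 one_pos (-o)
  have hiq : iq P = iq P0 := iq_hom P0 one_pos (-o)
  have h0 : (0 : E3) ∈ interior P := by
    have h1 : P = (Homeomorph.addRight (-o)) '' P0 := by
      rw [hPdef]; refine image_congr fun x _ => ?_
      simp
    rw [h1, ← Homeomorph.image_interior]
    exact ⟨o, ho, by simp⟩
  rw [← hiq]
  obtain ⟨S, h, hS, H⟩ := exists_PD hP h0
  have hcard : S.card = f := by
    have h1 := numFaces_eq hP.1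
    rw [← hS, ncard_coe_finset] at h1
    rw [← h1, hM.1]
  have HT := PD_polar H.unit H.orig
  obtain ⟨hTpos, hTiq⟩ := iq_polar hκ H.unit H.orig
  obtain ⟨hL1, hL2⟩ := lindelof H
  set A : ℝ := ∑ u ∈ S, ar P h u with hA
  have hVpos : 0 < (MeasureTheory.volume P).toReal := by
    refine ENNReal.toReal_pos ?_ (PD_compact H).measure_lt_top.ne
    have : 0 < MeasureTheory.volume (interior P) := isOpen_interior.measure_pos _ ⟨0, h0⟩
    exact (this.trans_le (MeasureTheory.measure_mono interior_subset)).ne'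
  have hPiq : iq P = κ ^ 3 * A ^ 3 / (MeasureTheory.volume P).toReal ^ 2 := by
    unfold iq; rw [hκ _ _ _ H, mul_pow]
  have hκ3 : 0 < κ ^ 3 := by positivity
  have hge : iq (polar S) ≤ iq P := by
    rw [hTiq, hPiq, le_div_iff₀ (by positivity)]
    calc 27 * κ ^ 3 * (MeasureTheory.volume (polar S)).toReal *
          (MeasureTheory.volume P).toReal ^ 2 =
        κ ^ 3 * (27 * (MeasureTheory.volume P).toReal ^ 2 *
          (MeasureTheory.volume (polar S)).toReal) := by ring
      _ ≤ κ ^ 3 * A ^ 3 := mul_le_mul_of_nonneg_left hL1 hκ3.le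
  by_cases hV : (MeasureTheory.volume (polar S)).toReal ≤
      4 * Real.pi / 3 + 20 * Real.pi ^ 2 / (9 * √3 * f) * (1 + C * (f : ℝ) ^ (-(1 / 4 : ℝ)))
  · by_contra hcon
    push Not at hcon
    have hle : iq P ≤ iq (polar S) := by
      refine hcon (polar S) (PD_poly HT).1 ?_
      rw [numFaces_eq (PD_poly HT).1.1, nrmls_polar H.unit H.orig, ncard_coe_finset, hcard]
    have hle2 : A ^ 3 ≤ 27 * (MeasureTheory.volume P).toReal ^ 2 *
        (MeasureTheory.volume (polar S)).toReal := by
      rw [hTiq, hPiq, div_le_iff₀ (by positivity)] at hle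
      have h3 : κ ^ 3 * A ^ 3 ≤ κ ^ 3 * (27 * (MeasureTheory.volume P).toReal ^ 2 *
          (MeasureTheory.volume (polar S)).toReal) := by
        calc _ ≤ _ := hle
          _ = _ := by ring
      exact le_of_mul_le_mul_left h3 hκ3
    obtain ⟨c, hc, t, hPT⟩ := hL2 hle2
    have hTP : polar S = (fun x => c⁻¹ • x + (-(c⁻¹ • t))) '' P := by
      rw [hPT, image_image]
      have : (fun x : E3 => c⁻¹ • (c • x + t) + (-(c⁻¹ • t))) = id := by
        funext x
        rw [smul_add, smul_smul, inv_mul_cancel₀ hc.ne', one_smul]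
        simp
      rw [this, image_id]
    have hMT : IsMedial (polar S) f := by
      rw [hTP]; exact medial_hom hM (inv_pos.2 hc) _
    have hG : Good S := good_of_simple H.unit H.orig hMT.2.1
    have hk : ⌊(6 : ℝ) - 12 / f⌋₊ = 5 := by
      have hf' : (14 : ℝ) ≤ f := by exact_mod_cast hf14
      rw [Nat.floor_eq_iff]
      · constructor
        · have : (12 : ℝ) / f ≤ 1 := by
            rw [div_le_one (by linarith)]; linarith
          push_cast; linarith
        · have : (0 : ℝ) < 12 / f := by positivity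
          push_cast; linarith
      · have : (12 : ℝ) / f ≤ 1 := by
          rw [div_le_one (by linarith)]; linarith
        linarith
    refine hno f hf2 S hG hcard (fun v hv => ?_) hV
    have h1 := hMT.2.2 (fc (polar S) v) ?_
    · rw [sides_eq H.unit H.orig hv, hk] at h1
      exact h1
    · rw [face_iff (PD_poly HT).1.1]
      exact ⟨v, by rw [nrmls_polar H.unit H.orig]; exact hv, rfl⟩
  · push Not at hV
    obtain ⟨Y, hYc, hYu, hYo, hYV⟩ := hcomp f hf1
    obtain ⟨hYpos, hYiq⟩ := iq_polar hκ hYu hYo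
    have HY := PD_polar hYu hYo
    refine ⟨polar Y, (PD_poly HY).1, ?_, ?_⟩
    · rw [numFaces_eq (PD_poly HY).1.1, nrmls_polar hYu hYo, ncard_coe_finset, hYc]
    · refine lt_of_lt_of_le ?_ hge
      rw [hYiq, hTiq]
      exact mul_lt_mul_of_pos_left (hYV.trans_lt hV) (by positivity)

end Pool.Agent.Helper320.Gold.NFinG
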