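import Mathlib

set_option autoImplicit false
open Filter Topology

namespace Pool.Agent.Helper320.Refl

/-- Smooth real functions. -/
def Sm (F : ℝ → ℝ) : Prop := ∀ k : ℕ, ContDiff ℝ (k : WithTop ℕ∞) F

/-- A circle map with a smooth lift. -/
def SmL (f : Circle → Circle) : Prop := ∃ F : ℝ → ℝ, Sm F ∧ ∀ t, f (Circle.exp t) = Circle.exp (F t)

lemma SmL.comp {f g : Circle → Circle} (hf : SmL f) (hg : SmL g) : SmL (f ∘ g) := by
  obtain ⟨F, hF, hF2⟩ := hf
  obtain ⟨G, hG, hG2⟩ := hg
  exact ⟨F ∘ G, fun k => (hF k).comp (hG k), fun t => by simp [hG2, hF2]⟩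

lemma SmL_id : SmL id := ⟨id, fun _ => contDiff_id, fun _ => rfl⟩

/-- The basic reflection. -/
noncomputable def r0 (z : Circle) : Circle :=
  ⟨(3/2 - (z : ℂ)) / (1 - (3/2) * (z : ℂ)), by
    show _ ∈ Metric.sphere (0:ℂ) 1
    rw [mem_sphere_zero_iff_norm, norm_div]
    have h1 : Complex.normSq (3/2 - (z : ℂ)) = Complex.normSq (1 - (3/2) * (z : ℂ)) := by
      have hz := Circle.normSq_coe z
      simp only [Complex.normSq_apply] at hz ⊢
      simp only [Complex.sub_re, Complex.sub_im, Complex.mul_re, Complex.mul_im,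
        Complex.one_re, Complex.one_im]
      norm_num
      nlinarith
    have h0 : (1 - (3/2) * (z : ℂ)) ≠ 0 := by
      intro h
      have hz := Circle.norm_coe z
      have h2 : (z : ℂ) = 2/3 := by
        have : (3/2 : ℂ) * (z : ℂ) = 1 := (sub_eq_zero.1 h).symm
        calc (z : ℂ) = (2/3) * ((3/2) * (z:ℂ)) := by ring
          _ = 2/3 := by rw [this]; ring
      rw [h2] at hz
      norm_num at hz
    have h3 : ‖(3/2 - (z : ℂ))‖ = ‖(1 - (3/2) * (z : ℂ))‖ := by
      rw [Complex.normSq_eq_norm_sq, Complex.normSq_eq_norm_sq] at h1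
      have := (sq_eq_sq₀ (norm_nonneg _) (norm_nonneg _)).1 h1
      exact this
    rw [h3, div_self]
    exact norm_ne_zero_iff.2 h0⟩

lemma den_ne (z : Circle) : (1 - (3/2) * (z : ℂ)) ≠ 0 := by
  intro h
  have hz := Circle.norm_coe z
  have h2 : (z : ℂ) = 2/3 := by
    have : (3/2 : ℂ) * (z : ℂ) = 1 := (sub_eq_zero.1 h).symm
    calc (z : ℂ) = (2/3) * ((3/2) * (z:ℂ)) := by ring
      _ = 2/3 := by rw [this]; ring
  rw [h2] at hz
  norm_num at hz

lemma coe_r0 (z : Circle) : (r0 z : ℂ) = (3/2 - (z : ℂ)) / (1 - (3/2) * (z : ℂ)) := rfl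

lemma r0_r0 (z : Circle) : r0 (r0 z) = z := by
  apply Circle.ext
  rw [coe_r0]
  have h := den_ne z
  have h2 := den_ne (r0 z)
  rw [div_eq_iff h2]
  have hw : (r0 z : ℂ) * (1 - (3/2) * (z : ℂ)) = 3/2 - (z : ℂ) := div_mul_cancel₀ _ h
  apply mul_right_cancel₀ h
  linear_combination (-1 + 3/2 * (z : ℂ)) * hw

lemma re_sq (z : Circle) : (z : ℂ).re * (z : ℂ).re + (z : ℂ).im * (z : ℂ).im = 1 := by
  have := Circle.normSq_coe z
  rwa [Complex.normSq_apply] at this

lemma re_r0 (z : Circle) : (13/4 - 3 * (z : ℂ).re) * ((r0 z : ℂ).re - 2/3) =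
    5/4 * (2/3 - (z : ℂ).re) := by
  have hz := re_sq z
  have h := den_ne z
  have hN : Complex.normSq (1 - (3/2) * (z : ℂ)) = 13/4 - 3 * (z : ℂ).re := by
    rw [Complex.normSq_apply]
    simp only [Complex.sub_re, Complex.sub_im, Complex.mul_re, Complex.mul_im,
        Complex.one_re, Complex.one_im]
    norm_num
    nlinarith
  have hN0 : (13/4 - 3 * (z : ℂ).re) ≠ 0 := by
    rw [← hN]
    exact (Complex.normSq_pos.2 h).ne'
  have : (r0 z : ℂ).re = (3 - 13/4 * (z : ℂ).re) / (13/4 - 3 * (z : ℂ).re) := by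
    rw [coe_r0, Complex.div_re, hN]
    rw [← add_div]
    congr 1
    simp only [Complex.sub_re, Complex.sub_im, Complex.mul_re, Complex.mul_im,
        Complex.one_re, Complex.one_im]
    norm_num
    nlinarith
  have h5 : (r0 z : ℂ).re * (13/4 - 3 * (z : ℂ).re) = 3 - 13/4 * (z : ℂ).re := by
    rw [this, div_mul_cancel₀ _ hN0]
  linear_combination h5

lemma im_r0 (z : Circle) : (13/4 - 3 * (z : ℂ).re) * (r0 z : ℂ).im = 5/4 * (z : ℂ).im := by
  have hz := re_sq z
  have h := den_ne z
  have hN : Complex.normSq (1 - (3/2) * (z : ℂ)) = 13/4 - 3 * (z : ℂ).re := by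
    rw [Complex.normSq_apply]
    simp only [Complex.sub_re, Complex.sub_im, Complex.mul_re, Complex.mul_im,
        Complex.one_re, Complex.one_im]
    norm_num
    nlinarith
  have hN0 : (13/4 - 3 * (z : ℂ).re) ≠ 0 := by
    rw [← hN]
    exact (Complex.normSq_pos.2 h).ne'
  have : (r0 z : ℂ).im = (5/4 * (z : ℂ).im) / (13/4 - 3 * (z : ℂ).re) := by
    rw [coe_r0, Complex.div_im, hN]
    rw [← sub_div]
    congr 1
    simp only [Complex.sub_re, Complex.sub_im, Complex.mul_re, Complex.mul_im,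
        Complex.one_re, Complex.one_im]
    norm_num
    nlinarith
  rw [this, mul_div_cancel₀ _ hN0]

lemma re_le_one (z : Circle) : (z : ℂ).re ≤ 1 := by
  have := re_sq z
  nlinarith [mul_self_nonneg (z : ℂ).im]

lemma neg_one_le_re (z : Circle) : -1 ≤ (z : ℂ).re := by
  have := re_sq z
  nlinarith [mul_self_nonneg (z : ℂ).im]

lemma r0_gt {z : Circle} (hz : (z : ℂ).re < 2/3) : 2/3 < (r0 z : ℂ).re := by
  have h := re_r0 z
  have h1 := re_le_one z
  have hp : 0 < 13/4 - 3 * (z : ℂ).re := by linarith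
  by_contra hcon
  push Not at hcon
  have : (13/4 - 3 * (z : ℂ).re) * ((r0 z : ℂ).re - 2/3) ≤ 0 :=
    mul_nonpos_of_nonneg_of_nonpos hp.le (by linarith)
  linarith

/-- Lift of the reflection. -/
lemma r0_smooth : SmL r0 := by
  refine ⟨fun t => Real.pi - t - 2 * Real.arctan (Real.sin t / (3/2 - Real.cos t)), ?_, ?_⟩
  · intro k
    have hne : ∀ t, (3/2 - Real.cos t) ≠ 0 := fun t => by
      have := Real.cos_le_one t
      intro h
      linarith
    have h1 : ContDiff ℝ (k : WithTop ℕ∞) (fun t => Real.sin t / (3/2 - Real.cos t)) :=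
      Real.contDiff_sin.div (contDiff_const.sub Real.contDiff_cos) hne
    exact (contDiff_const.sub contDiff_id).sub (contDiff_const.mul (Real.contDiff_arctan.comp h1))
  · intro t
    show r0 (Circle.exp t) =
      Circle.exp (Real.pi - t - 2 * Real.arctan (Real.sin t / (3/2 - Real.cos t)))
    set a := Real.arctan (Real.sin t / (3/2 - Real.cos t)) with ha
    have hpos : 0 < 3/2 - Real.cos t := by linarith [Real.cos_le_one t]
    have hre := re_r0 (Circle.exp t)
    have him := im_r0 (Circle.exp t)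
    have hc : ((Circle.exp t : Circle) : ℂ).re = Real.cos t := by
      rw [Circle.coe_exp, Complex.exp_ofReal_mul_I_re]
    have hs : ((Circle.exp t : Circle) : ℂ).im = Real.sin t := by
      rw [Circle.coe_exp, Complex.exp_ofReal_mul_I_im]
    rw [hc] at hre him
    rw [hs] at him
    have hN : 0 < 13/4 - 3 * Real.cos t := by linarith [Real.cos_le_one t]
    have hsc := Real.sin_sq_add_cos_sq t
    set q := Real.sin t / (3/2 - Real.cos t) with hq
    have hq2 : q * (3/2 - Real.cos t) = Real.sin t := div_mul_cancel₀ _ hpos.ne'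
    have h1q : 0 < 1 + q ^ 2 := by positivity
    have hcosa : Real.cos a = 1 / Real.sqrt (1 + q ^ 2) := by rw [ha, Real.cos_arctan]
    have hsina : Real.sin a = q / Real.sqrt (1 + q ^ 2) := by rw [ha, Real.sin_arctan]
    have hsqrt : Real.sqrt (1 + q ^ 2) ^ 2 = 1 + q ^ 2 := Real.sq_sqrt h1q.le
    have hcos2 : Real.cos (2 * a) = (1 - q ^ 2) / (1 + q ^ 2) := by
      rw [Real.cos_two_mul, hcosa, div_pow, hsqrt]
      field_simp
      ring
    have hsin2 : Real.sin (2 * a) = 2 * q / (1 + q ^ 2) := by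
      rw [Real.sin_two_mul, hcosa, hsina]
      have : 2 * (q / Real.sqrt (1 + q ^ 2)) * (1 / Real.sqrt (1 + q ^ 2)) =
          2 * q / (Real.sqrt (1 + q ^ 2) ^ 2) := by
        rw [pow_two]
        field_simp
      rw [this, hsqrt]
    have hNq : (1 + q ^ 2) * (3/2 - Real.cos t) ^ 2 = 13/4 - 3 * Real.cos t := by
      have : (1 + q ^ 2) * (3/2 - Real.cos t) ^ 2 =
        (3/2 - Real.cos t) ^ 2 + (q * (3/2 - Real.cos t)) ^ 2 := by ring
      rw [this, hq2]
      nlinarith
    have hcos3 : Real.cos (2 * a) * (13/4 - 3 * Real.cos t) =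
        (3/2 - Real.cos t) ^ 2 - Real.sin t ^ 2 := by
      rw [hcos2, ← hNq]
      field_simp
      rw [← hq2]
      ring
    have hsin3 : Real.sin (2 * a) * (13/4 - 3 * Real.cos t) =
        2 * Real.sin t * (3/2 - Real.cos t) := by
      rw [hsin2, ← hNq]
      field_simp
      rw [← hq2]
      ring
    have e : Real.pi - t - 2 * a = Real.pi - (t + 2 * a) := by ring
    rw [e]
    apply Circle.ext
    apply Complex.ext
    · rw [Circle.coe_exp, Complex.exp_ofReal_mul_I_re, Real.cos_pi_sub, Real.cos_add]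
      apply mul_left_cancel₀ hN.ne'
      have e1 : (13/4 - 3 * Real.cos t) * -(Real.cos t * Real.cos (2 * a) -
          Real.sin t * Real.sin (2 * a)) =
          - (Real.cos t * (Real.cos (2 * a) * (13/4 - 3 * Real.cos t))) +
          Real.sin t * (Real.sin (2 * a) * (13/4 - 3 * Real.cos t)) := by ring
      rw [e1, hcos3, hsin3]
      have hs2 : Real.sin t ^ 2 = 1 - Real.cos t ^ 2 := by linarith
      have e2 : Real.sin t * (2 * Real.sin t * (3 / 2 - Real.cos t)) =
        2 * Real.sin t ^ 2 * (3 / 2 - Real.cos t) := by ring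
      rw [e2, hs2]
      linear_combination hre
    · rw [Circle.coe_exp, Complex.exp_ofReal_mul_I_im, Real.sin_pi_sub, Real.sin_add]
      apply mul_left_cancel₀ hN.ne'
      have e1 : (13/4 - 3 * Real.cos t) * (Real.sin t * Real.cos (2 * a) +
          Real.cos t * Real.sin (2 * a)) =
          (Real.sin t * (Real.cos (2 * a) * (13/4 - 3 * Real.cos t))) +
          Real.cos t * (Real.sin (2 * a) * (13/4 - 3 * Real.cos t)) := by ring
      rw [e1, hcos3, hsin3]
      have hs2 : Real.sin t ^ 2 = 1 - Real.cos t ^ 2 := by linarith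
      rw [hs2]
      linear_combination him


/-- The reflection in the direction `u`. -/
noncomputable def rfun (u z : Circle) : Circle := u * r0 (u⁻¹ * z)

/-- The reflection in the direction `u`, as a permutation. -/
noncomputable def Rp (u : Circle) : Equiv.Perm Circle where
  toFun := rfun u
  invFun := rfun u
  left_inv z := by simp [rfun, r0_r0]
  right_inv z := by simp [rfun, r0_r0]

/-- The three directions. -/
noncomputable def ang : Fin 3 → ℝ := ![0, 2 * Real.pi / 3, -(2 * Real.pi / 3)]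

/-- The three directions on the circle. -/
noncomputable def u (k : Fin 3) : Circle := Circle.exp (ang k)

/-- The three reflections. -/
noncomputable def R (k : Fin 3) : Equiv.Perm Circle := Rp (u k)

lemma R_apply (k : Fin 3) (z : Circle) : R k z = u k * r0 ((u k)⁻¹ * z) := rfl

lemma R_inv (k : Fin 3) : (R k)⁻¹ = R k := rfl

lemma R_R (k : Fin 3) (z : Circle) : R k (R k z) = z := (Rp (u k)).left_inv z

/-- The three closed arcs. -/
def A (k : Fin 3) : Set Circle := {z | 2/3 ≤ (((u k)⁻¹ * z : Circle) : ℂ).re}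

/-- The arc carrying the bump. -/
def V : Set Circle := {z | (z : ℂ).re < -99/100}

lemma cos_aux1 : Real.cos (2 * Real.pi / 3) = -1/2 := by
  have : 2 * Real.pi / 3 = Real.pi - Real.pi / 3 := by ring
  rw [this, Real.cos_pi_sub, Real.cos_pi_div_three]
  norm_num

lemma cos_aux2 : Real.cos (2 * Real.pi / 3 + 2 * Real.pi / 3) = -1/2 := by
  have : 2 * Real.pi / 3 + 2 * Real.pi / 3 = Real.pi / 3 + Real.pi := by ring
  rw [this, Real.cos_add_pi, Real.cos_pi_div_three]
  norm_num

lemma exp_re (t : ℝ) : ((Circle.exp t : Circle) : ℂ).re = Real.cos t := by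
  rw [Circle.coe_exp, Complex.exp_ofReal_mul_I_re]

lemma u_re {j k : Fin 3} (h : j ≠ k) : (((u j)⁻¹ * u k : Circle) : ℂ).re = -1/2 := by
  have e : (u j)⁻¹ * u k = Circle.exp (ang k - ang j) := by
    unfold u
    rw [Circle.exp_sub, div_eq_mul_inv, mul_comm]
  rw [e, exp_re]
  have c1 := cos_aux1
  have c2 := cos_aux2
  have c3 : Real.cos (-(2 * Real.pi / 3)) = -1/2 := by rw [Real.cos_neg, c1]
  have c4 : Real.cos (-(2 * Real.pi / 3 + 2 * Real.pi / 3)) = -1/2 := by rw [Real.cos_neg, c2]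
  fin_cases j <;> fin_cases k
  · exact absurd rfl h
  · show Real.cos (2 * Real.pi / 3 - 0) = -1/2
    rw [sub_zero, c1]
  · show Real.cos (-(2 * Real.pi / 3) - 0) = -1/2
    rw [sub_zero, c3]
  · show Real.cos (0 - 2 * Real.pi / 3) = -1/2
    rw [zero_sub, c3]
  · exact absurd rfl h
  · show Real.cos (-(2 * Real.pi / 3) - 2 * Real.pi / 3) = -1/2
    rw [← c4]; congr 1; ring
  · show Real.cos (0 - -(2 * Real.pi / 3)) = -1/2
    rw [← c1]; congr 1; ring
  · show Real.cos (2 * Real.pi / 3 - -(2 * Real.pi / 3)) = -1/2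
    rw [← c2]; congr 1; ring
  · exact absurd rfl h

lemma mul_re' (v p : Circle) : ((v * p : Circle) : ℂ).re =
    (v : ℂ).re * (p : ℂ).re - (v : ℂ).im * (p : ℂ).im := by
  rw [Circle.coe_mul, Complex.mul_re]

lemma A_disj {j k : Fin 3} (h : j ≠ k) {z : Circle} (hz : z ∈ A j) : z ∉ A k := by
  intro hk
  have hj : 2/3 ≤ (((u j)⁻¹ * z : Circle) : ℂ).re := hz
  have hk' : 2/3 ≤ (((u k)⁻¹ * z : Circle) : ℂ).re := hk
  have e : (u k)⁻¹ * z = ((u k)⁻¹ * u j) * ((u j)⁻¹ * z) := by group
  rw [e, mul_re', u_re h.symm] at hk'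
  set p := (u j)⁻¹ * z
  set v := (u k)⁻¹ * u j with hv
  have h1 := re_sq p
  have h2 := re_sq v
  rw [hv, u_re h.symm, ← hv] at h2
  set a := (p : ℂ).re
  set b := (p : ℂ).im
  set s := (v : ℂ).im
  have h3 : 1 ≤ -(s * b) := by linarith
  have h4 : (s * b) ^ 2 = (s * s) * (b * b) := by ring
  have h5 : s * s = 3/4 := by linarith
  have h6 : b * b ≤ 5/9 := by nlinarith
  nlinarith

lemma V_not_A {z : Circle} (hz : z ∈ V) (k : Fin 3) : z ∉ A k := by
  intro hk
  have hz' : (z : ℂ).re < -99/100 := hz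
  have hk' : 2/3 ≤ (((u k)⁻¹ * z : Circle) : ℂ).re := hk
  have h1 := re_sq z
  have hz2 := neg_one_le_re z
  by_cases h0 : k = 0
  · subst h0
    have e : (u 0)⁻¹ * z = z := by
      have : u 0 = 1 := by
        show Circle.exp 0 = 1
        exact Circle.exp_zero
      rw [this]; simp
    rw [e] at hk'
    linarith
  · have e : (u k)⁻¹ = (u k)⁻¹ * u 0 := by
      have : u 0 = 1 := by
        show Circle.exp 0 = 1
        exact Circle.exp_zero
      rw [this]; simp
    rw [e, mul_re', u_re h0] at hk'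
    have h2 := re_sq ((u k)⁻¹ * u 0)
    rw [u_re h0] at h2
    set a := (z : ℂ).re
    set b := (z : ℂ).im
    set s := (((u k)⁻¹ * u 0 : Circle) : ℂ).im
    have h3 : 1/6 ≤ -(s * b) := by linarith
    have h5 : s * s = 3/4 := by linarith
    have h6 : b * b ≤ 199/10000 := by nlinarith
    have h4 : (s * b) ^ 2 = (s * s) * (b * b) := by ring
    nlinarith

lemma R_mem {k : Fin 3} {z : Circle} (h : z ∉ A k) : R k z ∈ A k := by
  have h' : (((u k)⁻¹ * z : Circle) : ℂ).re < 2/3 := not_le.1 h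
  show 2/3 ≤ (((u k)⁻¹ * (u k * r0 ((u k)⁻¹ * z)) : Circle) : ℂ).re
  rw [inv_mul_cancel_left]
  exact (r0_gt h').le

/-- Action of reduced words. -/
lemma word_mem : ∀ (l : List (Fin 3)) (i : Fin 3), (i :: l).IsChain (· ≠ ·) → ∀ x : Circle,
    (∀ j, R j x ∈ A j) → ((i :: l).map R).prod x ∈ A i
  | [], i, _, x, hx => by simpa using hx i
  | j :: l, i, h, x, hx => by
    have h1 : i ≠ j := (List.isChain_cons_cons.1 h).1
    have h2 := (List.isChain_cons_cons.1 h).2
    have h3 := word_mem l j h2 x hx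
    have h4 : ((j :: l).map R).prod x ∉ A i := A_disj h1.symm h3
    have h5 := R_mem h4
    simpa using h5

/-- The reflection group. -/
def Wg : Subgroup (Equiv.Perm Circle) := Subgroup.closure (Set.range R)

lemma exists_word {w : Equiv.Perm Circle} (hw : w ∈ Wg) :
    ∃ l : List (Fin 3), l.IsChain (· ≠ ·) ∧ w = (l.map R).prod := by
  have step : ∀ (k : Fin 3) (y : Equiv.Perm Circle),
      (∃ l : List (Fin 3), l.IsChain (· ≠ ·) ∧ y = (l.map R).prod) →
      (∃ l : List (Fin 3), l.IsChain (· ≠ ·) ∧ R k * y = (l.map R).prod) := by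
    rintro k y ⟨l, hl, rfl⟩
    rcases l with _ | ⟨j, l⟩
    · exact ⟨[k], List.isChain_singleton _, by simp⟩
    · by_cases hkj : k = j
      · subst hkj
        refine ⟨l, hl.tail, ?_⟩
        ext x
        simp [R_R]
      · exact ⟨k :: j :: l, List.isChain_cons_cons.2 ⟨hkj, hl⟩, by simp⟩
  unfold Wg at hw
  induction hw using Subgroup.closure_induction_left with
  | one => exact ⟨[], List.isChain_nil, by simp⟩
  | mul_left x hx y hy ih =>
    obtain ⟨k, rfl⟩ := hx
    exact step k y ih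
  | inv_mul_cancel x hx y hy ih =>
    obtain ⟨k, rfl⟩ := hx
    rw [R_inv]
    exact step k y ih

lemma V_base {x : Circle} (hx : x ∈ V) (j : Fin 3) : R j x ∈ A j := R_mem (V_not_A hx j)

/-- Nontrivial elements of the reflection group move `V` off itself. -/
lemma Wg_V {w : Equiv.Perm Circle} (hw : w ∈ Wg) (hne : w ≠ 1) {x : Circle} (hx : x ∈ V) :
    w x ∉ V := by
  obtain ⟨l, hl, rfl⟩ := exists_word hw
  rcases l with _ | ⟨i, l⟩
  · exact absurd (by simp) hne
  · intro h
    exact V_not_A h i (word_mem l i hl x (V_base hx))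


lemma S_le_one (x : ℝ) : expNegInvGlue x ≤ 1 := by
  rcases le_or_gt x 0 with h | h
  · rw [expNegInvGlue.zero_of_nonpos h]; norm_num
  · unfold expNegInvGlue
    rw [if_neg h.not_ge]
    rw [Real.exp_le_one_iff]
    have := inv_pos.2 h
    linarith

theorem exists_bump : ∃ c : Equiv.Perm Circle, SmL c ∧ SmL (c⁻¹ : Equiv.Perm Circle) ∧
    (∀ z, z ∉ V → c z = z) ∧ c (c (Circle.exp Real.pi)) ≠ Circle.exp Real.pi := by
  have hSsm : ∀ k : ℕ, ContDiff ℝ (k : WithTop ℕ∞) expNegInvGlue := fun k =>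
    expNegInvGlue.contDiff (n := (k : ℕ∞))
  have hS1 : ContDiff ℝ 1 expNegInvGlue := by simpa using hSsm 1
  have hSd : Differentiable ℝ expNegInvGlue := hS1.differentiable (by norm_num)
  obtain ⟨B, hB⟩ := (isCompact_Icc (a := (-2:ℝ)) (b := 1)).exists_bound_of_continuousOn
    (hS1.continuous_deriv (by norm_num)).continuousOn
  have hB0 : 0 ≤ B := (norm_nonneg _).trans (hB 0 (by norm_num))
  set κ : ℝ := 1 / (2 * (B + 1)) with hκ
  have hκ0 : 0 < κ := by positivity
  have hκB : κ * B ≤ 1/2 := by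
    rw [hκ, div_mul_eq_mul_div, div_le_iff₀ (by positivity)]
    linarith
  have hκ1 : κ ≤ 1/2 := by
    rw [hκ, div_le_iff₀ (by positivity)]
    linarith
  set C : ℝ → ℝ := fun t => t + κ * expNegInvGlue (-99/100 - Real.cos t) with hC
  have hCsm : Sm C := fun k => contDiff_id.add (contDiff_const.mul
    ((hSsm k).comp (contDiff_const.sub Real.contDiff_cos)))
  have hCd : ∀ t, HasDerivAt C (1 + κ * (deriv expNegInvGlue (-99/100 - Real.cos t) * Real.sin t)) t := by
    intro t
    have h1 : HasDerivAt (fun t => -99/100 - Real.cos t) (Real.sin t) t := by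
      simpa using (Real.hasDerivAt_cos t).const_sub (-99/100)
    have h2 := (hSd (-99/100 - Real.cos t)).hasDerivAt.comp t h1
    exact (hasDerivAt_id t).add (h2.const_mul κ)
  have hpos : ∀ t, 0 < 1 + κ * (deriv expNegInvGlue (-99/100 - Real.cos t) * Real.sin t) := by
    intro t
    have h1 := hB (-99/100 - Real.cos t)
      ⟨by linarith [Real.cos_le_one t], by linarith [Real.neg_one_le_cos t]⟩
    rw [Real.norm_eq_abs] at h1
    have h2 := Real.abs_sin_le_one t
    have h3 : |deriv expNegInvGlue (-99/100 - Real.cos t) * Real.sin t| ≤ B := by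
      rw [abs_mul]
      calc _ ≤ B * 1 := mul_le_mul h1 h2 (abs_nonneg _) hB0
        _ = B := mul_one B
    have h4 := (abs_le.1 h3).1
    nlinarith
  have hmono : StrictMono C := strictMono_of_deriv_pos fun t => by
    rw [(hCd t).deriv]; exact hpos t
  have hCc : Continuous C := (hCsm 0).continuous
  have hle : ∀ t, t ≤ C t := fun t => by
    have := mul_nonneg hκ0.le (expNegInvGlue.nonneg (-99/100 - Real.cos t))
    simp only [hC]; linarith
  have hge : ∀ t, C t ≤ t + κ := fun t => by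
    have := mul_le_mul_of_nonneg_left (S_le_one (-99/100 - Real.cos t)) hκ0.le
    simp only [hC]; linarith
  have hsurj : Function.Surjective C := hCc.surjective
    (tendsto_atTop_mono hle tendsto_id)
    (tendsto_atBot_mono hge (tendsto_atBot_add_const_right _ _ tendsto_id))
  let Ch : ℝ ≃ₜ ℝ := (hmono.orderIsoOfSurjective C hsurj).toHomeomorph
  have hCh : ∀ t, Ch t = C t := fun t => rfl
  have hChs : ∀ t, C (Ch.symm t) = t := fun t => Ch.apply_symm_apply t
  have hsymm : Sm Ch.symm := fun k =>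
    Ch.contDiff_symm_deriv (fun t => (hpos t).ne') hCd (hCsm k)
  let cf : Circle → Circle := fun z => z * Circle.exp (κ * expNegInvGlue (-99/100 - (z : ℂ).re))
  have hcf : ∀ t, cf (Circle.exp t) = Circle.exp (C t) := by
    intro t
    show Circle.exp t * Circle.exp (κ * expNegInvGlue (-99/100 - ((Circle.exp t : Circle) : ℂ).re)) = _
    rw [exp_re, ← Circle.exp_add]
  have hCper : ∀ (t : ℝ) (m : ℤ), C (t + m * (2 * Real.pi)) = C t + m * (2 * Real.pi) := by
    intro t m
    simp only [hC]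
    rw [Real.cos_add_int_mul_two_pi]
    ring
  have hbij : Function.Bijective cf := by
    constructor
    · intro z z' h
      obtain ⟨t, rfl⟩ := Circle.exp_surjective z
      obtain ⟨t', rfl⟩ := Circle.exp_surjective z'
      rw [hcf, hcf, Circle.exp_eq_exp] at h
      obtain ⟨m, hm⟩ := h
      rw [← hCper] at hm
      exact Circle.exp_eq_exp.2 ⟨m, hmono.injective hm⟩
    · intro z
      obtain ⟨t, rfl⟩ := Circle.exp_surjective z
      exact ⟨Circle.exp (Ch.symm t), by rw [hcf, hChs]⟩
  refine ⟨Equiv.ofBijective cf hbij, ⟨C, hCsm, hcf⟩, ⟨Ch.symm, hsymm, ?_⟩, ?_, ?_⟩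
  · intro t
    rw [Equiv.Perm.inv_eq_iff_eq]
    show _ = cf _
    rw [hcf, hChs]
  · intro z hz
    have hz' : -99/100 ≤ (z : ℂ).re := not_lt.1 hz
    show z * Circle.exp (κ * expNegInvGlue (-99/100 - (z : ℂ).re)) = z
    rw [expNegInvGlue.zero_of_nonpos (by linarith)]
    simp
  · show cf (cf (Circle.exp Real.pi)) ≠ _
    rw [hcf, hcf]
    intro h
    obtain ⟨m, hm⟩ := Circle.exp_eq_exp.1 h
    have h1 : Real.pi < C Real.pi := by
      simp only [hC]
      rw [Real.cos_pi]
      have := expNegInvGlue.pos_of_pos (x := -99/100 - -1) (by norm_num)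
      have := mul_pos hκ0 this
      linarith
    have h2 := hle (C Real.pi)
    have h3 := hge (C Real.pi)
    have h4 := hge Real.pi
    have h5 := Real.pi_gt_three
    have h6 : 0 < (m : ℝ) * (2 * Real.pi) := by linarith
    have h7 : (m : ℝ) * (2 * Real.pi) ≤ 1 := by linarith
    have h8 : (0:ℝ) < m := by
      by_contra hcon
      push Not at hcon
      nlinarith
    have h9 : (1:ℝ) ≤ m := by exact_mod_cast (show (0:ℤ) < m by exact_mod_cast h8)
    nlinarith

end Pool.Agent.Helper320.Refl
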