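import Mathlib
set_option autoImplicit false
open Filter Topology MeasureTheory
namespace Pool.Agent.Helper320.CQ

/-- Standing assumptions on a lift. -/
structure Lift (F : ℝ → ℝ) : Prop where
  c2 : ContDiff ℝ 2 F
  per : ∀ x, F (x + 1) = F x + 1
  pos : ∀ x, 0 < deriv F x

/-- Derivative of the iterate. -/
noncomputable def DF (F : ℝ → ℝ) (i : ℕ) (x : ℝ) : ℝ :=
  ∏ l ∈ Finset.range i, deriv F (F^[l] x)

/-- Nonlinearity. -/
noncomputable def nl (F : ℝ → ℝ) (x : ℝ) : ℝ := deriv (deriv F) x / deriv F x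

/-- Nonlinearity of the iterate. -/
noncomputable def NF (F : ℝ → ℝ) (i : ℕ) (x : ℝ) : ℝ :=
  ∑ l ∈ Finset.range i, nl F (F^[l] x) * DF F l x

/-- A good pair of return times. -/
structure GP (F : ℝ → ℝ) (q q' : ℕ) (p p' : ℤ) : Prop where
  q_pos : 0 < q
  lt : q < q'
  pos : ∀ x, x < F^[q] x - p
  neg : ∀ x, F^[q'] x - p' < x
  add : ∀ x, x < F^[q + q'] x - (p + p')
  uni : (q : ℤ) * p' - q' * p = 1

/-- Total nonlinearity. -/
noncomputable def Vt (F : ℝ → ℝ) : ℝ := ∫ t in (0:ℝ)..1, |nl F t|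

/-! Basics. -/

lemma Lift.diff {F : ℝ → ℝ} (hF : Lift F) : Differentiable ℝ F := hF.c2.differentiable (by norm_num)

lemma Lift.continuous {F : ℝ → ℝ} (hF : Lift F) : Continuous F := hF.c2.continuous

lemma Lift.strictMono {F : ℝ → ℝ} (hF : Lift F) : StrictMono F := strictMono_of_deriv_pos hF.pos

lemma Lift.deriv_c1 {F : ℝ → ℝ} (hF : Lift F) : ContDiff ℝ 1 (deriv F) := by
  have h : ContDiff ℝ (1 + 1) F := by
    have := hF.c2
    norm_num
    exact this
  exact (contDiff_succ_iff_deriv.1 h).2.2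

lemma Lift.deriv_per {F : ℝ → ℝ} (hF : Lift F) (x : ℝ) : deriv F (x + 1) = deriv F x := by
  have h1 : (fun y => F (y + 1)) = fun y => F y + 1 := funext hF.per
  have h2 : deriv (fun y => F (y + 1)) x = deriv F (x + 1) := deriv_comp_add_const F 1 x
  rw [← h2, h1, deriv_add_const]

lemma Lift.deriv2_per {F : ℝ → ℝ} (hF : Lift F) (x : ℝ) :
    deriv (deriv F) (x + 1) = deriv (deriv F) x := by
  have h1 : (fun y => deriv F (y + 1)) = deriv F := funext hF.deriv_per
  have h2 : deriv (fun y => deriv F (y + 1)) x = deriv (deriv F) (x + 1) :=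
    deriv_comp_add_const (deriv F) 1 x
  rw [← h2, h1]

lemma nl_per {F : ℝ → ℝ} (hF : Lift F) (x : ℝ) : nl F (x + 1) = nl F x := by
  unfold nl
  rw [hF.deriv_per, hF.deriv2_per]

lemma nl_cont {F : ℝ → ℝ} (hF : Lift F) : Continuous (nl F) := by
  unfold nl
  exact (hF.deriv_c1.continuous_deriv le_rfl).div hF.deriv_c1.continuous
    (fun x => (hF.pos x).ne')

lemma hasDerivAt_logderiv {F : ℝ → ℝ} (hF : Lift F) (x : ℝ) :
    HasDerivAt (fun y => Real.log (deriv F y)) (nl F x) x := by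
  have h1 : HasDerivAt (deriv F) (deriv (deriv F) x) x :=
    (hF.deriv_c1.differentiable (by norm_num) x).hasDerivAt
  exact h1.log (hF.pos x).ne'

lemma iter_per {F : ℝ → ℝ} (hper : ∀ x, F (x + 1) = F x + 1) (i : ℕ) (x : ℝ) :
    F^[i] (x + 1) = F^[i] x + 1 := by
  induction i generalizing x with
  | zero => rfl
  | succ i ih => rw [Function.iterate_succ_apply, hper, ih, Function.iterate_succ_apply]

lemma iter_add_int {F : ℝ → ℝ} (hper : ∀ x, F (x + 1) = F x + 1) (i : ℕ) (x : ℝ) (k : ℤ) :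
    F^[i] (x + k) = F^[i] x + k := by
  induction k using Int.induction_on with
  | zero => simp
  | succ n ih =>
    push_cast at ih ⊢
    rw [← add_assoc, iter_per hper, ih]
    ring
  | pred n ih =>
    push_cast at ih ⊢
    have h := iter_per hper i (x + (-(n:ℝ) - 1))
    have h2 : x + (-(n:ℝ) - 1) + 1 = x + -(n:ℝ) := by ring
    rw [h2, ih] at h
    linarith

lemma iter_sub_int {F : ℝ → ℝ} (hper : ∀ x, F (x + 1) = F x + 1) (i : ℕ) (x : ℝ) (k : ℤ) :
    F^[i] (x - k) = F^[i] x - k := by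
  have := iter_add_int hper i x (-k)
  push_cast at this
  rw [sub_eq_add_neg, this]
  ring

lemma iter_mono {F : ℝ → ℝ} (hm : StrictMono F) (i : ℕ) : StrictMono F^[i] := hm.iterate i

lemma DF_zero (F : ℝ → ℝ) (x : ℝ) : DF F 0 x = 1 := by simp [DF]

lemma DF_succ (F : ℝ → ℝ) (i : ℕ) (x : ℝ) : DF F (i + 1) x = DF F i x * deriv F (F^[i] x) := by
  simp [DF, Finset.prod_range_succ]

lemma DF_pos {F : ℝ → ℝ} (hF : Lift F) (i : ℕ) (x : ℝ) : 0 < DF F i x :=
  Finset.prod_pos fun l _ => hF.pos _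

lemma DF_add (F : ℝ → ℝ) (i j : ℕ) (x : ℝ) : DF F (i + j) x = DF F i (F^[j] x) * DF F j x := by
  induction i with
  | zero => simp [DF_zero]
  | succ i ih =>
    rw [show i + 1 + j = (i + j) + 1 by ring, DF_succ, ih, DF_succ, ← Function.iterate_add_apply]
    ring

lemma hasDerivAt_iter {F : ℝ → ℝ} (hF : Lift F) (i : ℕ) (x : ℝ) :
    HasDerivAt (F^[i]) (DF F i x) x := by
  induction i with
  | zero => rw [DF_zero]; exact hasDerivAt_id x
  | succ i ih =>
    rw [DF_succ, Function.iterate_succ', mul_comm]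
    exact HasDerivAt.comp x (hF.diff _).hasDerivAt ih

lemma iter_cont {F : ℝ → ℝ} (hF : Lift F) (i : ℕ) : Continuous (F^[i]) :=
  hF.continuous.iterate i

lemma DF_per {F : ℝ → ℝ} (hF : Lift F) (i : ℕ) (x : ℝ) : DF F i (x + 1) = DF F i x := by
  unfold DF
  apply Finset.prod_congr rfl
  intro l _
  rw [iter_per hF.per, hF.deriv_per]

lemma NF_zero (F : ℝ → ℝ) (x : ℝ) : NF F 0 x = 0 := by simp [NF]

lemma NF_succ (F : ℝ → ℝ) (i : ℕ) (x : ℝ) :
    NF F (i + 1) x = NF F i x + nl F (F^[i] x) * DF F i x := by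
  simp [NF, Finset.sum_range_succ]

lemma NF_per {F : ℝ → ℝ} (hF : Lift F) (i : ℕ) (x : ℝ) : NF F i (x + 1) = NF F i x := by
  unfold NF
  apply Finset.sum_congr rfl
  intro l _
  rw [iter_per hF.per, nl_per hF, DF_per hF]

lemma hasDerivAt_DF {F : ℝ → ℝ} (hF : Lift F) (i : ℕ) (x : ℝ) :
    HasDerivAt (DF F i) (DF F i x * NF F i x) x := by
  induction i with
  | zero =>
    rw [NF_zero, mul_zero]
    have : DF F 0 = fun _ => 1 := funext (DF_zero F)
    rw [this]
    exact hasDerivAt_const x 1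
  | succ i ih =>
    have h1 : DF F (i + 1) = fun y => DF F i y * deriv F (F^[i] y) := funext (DF_succ F i)
    rw [h1]
    have h2 : HasDerivAt (fun y => deriv F (F^[i] y)) (deriv (deriv F) (F^[i] x) * DF F i x) x :=
      HasDerivAt.comp x (hF.deriv_c1.differentiable (by norm_num) _).hasDerivAt
        (hasDerivAt_iter hF i x)
    have h3 : HasDerivAt (fun y => DF F i y * deriv F (F^[i] y)) _ x := ih.mul h2
    have h4 : DF F i x * deriv F (F^[i] x) * NF F (i + 1) x =
        DF F i x * NF F i x * deriv F (F^[i] x) +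
          DF F i x * (deriv (deriv F) (F^[i] x) * DF F i x) := by
      rw [NF_succ]
      unfold nl
      have := (hF.pos (F^[i] x)).ne'
      field_simp
    rw [h4]
    exact h3

lemma DF_cont {F : ℝ → ℝ} (hF : Lift F) (i : ℕ) : Continuous (DF F i) :=
  continuous_iff_continuousAt.2 fun x => (hasDerivAt_DF hF i x).continuousAt

lemma NF_cont {F : ℝ → ℝ} (hF : Lift F) (i : ℕ) : Continuous (NF F i) := by
  unfold NF
  apply continuous_finsetSum
  intro l _
  exact ((nl_cont hF).comp (iter_cont hF l)).mul (DF_cont hF l)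

lemma log_DF (F : ℝ → ℝ) (hF : Lift F) (i : ℕ) (x : ℝ) :
    Real.log (DF F i x) = ∑ l ∈ Finset.range i, Real.log (deriv F (F^[l] x)) := by
  unfold DF
  rw [Real.log_prod]
  intro l _
  exact (hF.pos _).ne'

end Pool.Agent.Helper320.CQ
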