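import Pool.Agent.Helper320.CQBasics
set_option autoImplicit false
open Filter Topology MeasureTheory
namespace Pool.Agent.Helper320.CQ

theorem cob_per_int {f : ℝ → ℝ} (h : ∀ x, f (x + 1) = f x) (n : ℤ) (x : ℝ) : f (x + n) = f x := by
  have hp : Function.Periodic f 1 := h
  have := hp.int_mul n x
  simpa using this

theorem cob_Fper_int {F : ℝ → ℝ} (h : ∀ x, F (x + 1) = F x + 1) (n : ℤ) (x : ℝ) :
    F (x + n) = F x + n := by
  have h1 : ∀ x, (fun x => F x - x) (x + 1) = (fun x => F x - x) x := by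
    intro x; simp only [h]; ring
  have := cob_per_int (f := fun x => F x - x) h1 n x
  linarith

theorem cob_inv {F : ℝ → ℝ} (hF : Lift F) : ∃ G : ℝ → ℝ, Continuous G ∧
    (∀ x, F (G x) = x) ∧ (∀ x, G (F x) = x) ∧ (∀ x, G (x + 1) = G x + 1) ∧ StrictMono G := by
  have hmono : StrictMono F := strictMono_of_deriv_pos hF.pos
  have hcont : Continuous F := hF.c2.continuous
  have hsurj : Function.Surjective F := by
    apply hcont.surjective
    · rw [tendsto_atTop]
      intro b
      filter_upwards [eventually_ge_atTop ((⌈b - F 0⌉ : ℤ) : ℝ)] with x hx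
      have h1 := cob_Fper_int hF.per ⌈b - F 0⌉ 0
      rw [zero_add] at h1
      have h2 : F ((⌈b - F 0⌉ : ℤ) : ℝ) ≤ F x := hmono.monotone hx
      have h3 := Int.le_ceil (b - F 0)
      linarith
    · rw [tendsto_atBot]
      intro b
      filter_upwards [eventually_le_atBot ((⌊b - F 0⌋ : ℤ) : ℝ)] with x hx
      have h1 := cob_Fper_int hF.per ⌊b - F 0⌋ 0
      rw [zero_add] at h1
      have h2 : F x ≤ F ((⌊b - F 0⌋ : ℤ) : ℝ) := hmono.monotone hx
      have h3 := Int.floor_le (b - F 0)
      linarith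
  let e := hmono.orderIsoOfSurjective F hsurj
  have hFG : ∀ x, F (e.symm x) = x := fun x => e.apply_symm_apply x
  have hGF : ∀ x, e.symm (F x) = x := fun x => e.symm_apply_apply x
  refine ⟨e.symm, e.symm.continuous, hFG, hGF, ?_, e.symm.strictMono⟩
  intro x
  apply hmono.injective
  rw [hFG, hF.per, hFG]

theorem cob_hasDerivAt {F : ℝ → ℝ} (hF : Lift F) (x : ℝ) : HasDerivAt F (deriv F x) x :=
  (hF.c2.differentiable (by norm_num) x).hasDerivAt

/-- preimages of null sets are null -/
theorem cob_null {F : ℝ → ℝ} (hF : Lift F) {N : Set ℝ} (hN : volume N = 0) :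
    volume (F ⁻¹' N) = 0 := by
  obtain ⟨G, hGc, hFG, hGF, hGper, hGm⟩ := cob_inv hF
  have h1 : F ⁻¹' N = G '' N := by
    ext x
    constructor
    · intro hx
      exact ⟨F x, hx, hGF x⟩
    · rintro ⟨y, hy, rfl⟩
      simpa [hFG] using hy
  rw [h1]
  apply addHaar_image_eq_zero_of_differentiableOn_of_addHaar_eq_zero volume _ hN
  intro y _
  have h2 : HasDerivAt F (deriv F (G y)) (G y) := cob_hasDerivAt hF (G y)
  have h3 : HasDerivAt G (deriv F (G y))⁻¹ y :=
    h2.of_local_left_inverse hGc.continuousAt (hF.pos (G y)).ne'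
      (Filter.Eventually.of_forall hFG)
  exact h3.differentiableAt.differentiableWithinAt

theorem cob_ae_comp {F : ℝ → ℝ} (hF : Lift F) {P : ℝ → Prop} (hP : ∀ᵐ x, P x) :
    ∀ᵐ x, P (F x) := by
  rw [ae_iff] at hP ⊢
  exact cob_null hF hP

/-- periodic function vanishing a.e. on (0,1) vanishes a.e. -/
theorem cob_ae_per {w : ℝ → ℝ} (hw : ∀ x, w (x + 1) = w x)
    (h : ∀ᵐ x : ℝ, x ∈ Set.Ioo (0:ℝ) 1 → w x = 0) : ∀ᵐ x, w x = 0 := by
  have h1 : ∀ᵐ x : ℝ, ∀ n : ℤ, x - n ∈ Set.Ioo (0:ℝ) 1 → w (x - n) = 0 := by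
    rw [ae_all_iff]
    intro n
    have := (measurePreserving_sub_right volume ((n:ℤ):ℝ)).quasiMeasurePreserving.ae h
    exact this
  have h2 : ∀ᵐ x : ℝ, x ∉ Set.range (fun n : ℤ => (n:ℝ)) :=
    (Set.countable_range _).ae_notMem volume
  filter_upwards [h1, h2] with x hx1 hx2
  have h3 := hx1 ⌊x⌋ ⟨by
    have := Int.floor_le x
    have hne : (⌊x⌋ : ℝ) ≠ x := fun h => hx2 ⟨⌊x⌋, h⟩
    have := lt_of_le_of_ne this hne
    linarith, by have := Int.lt_floor_add_one x; linarith⟩
  have h4 := cob_per_int hw (-⌊x⌋) x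
  rw [← h4]
  push_cast
  rw [← sub_eq_add_neg]
  exact h3

theorem cob_const {F : ℝ → ℝ} (hF : Lift F)
    (herg : ∀ A : Set ℝ, MeasurableSet A → (∀ y, y + 1 ∈ A ↔ y ∈ A) → (∀ y, F y ∈ A ↔ y ∈ A) →
      volume A = 0 ∨ volume Aᶜ = 0) {u : ℝ → ℝ} (hu : Measurable u)
    (hper : ∀ x, u (x + 1) = u x) (hint : IntervalIntegrable u volume 0 1)
    (horth : ∀ v : ℝ → ℝ, Continuous v → (∀ x, v (x + 1) = v x) →
      ∫ x in (0:ℝ)..1, v (F x) * deriv F x * u x = ∫ x in (0:ℝ)..1, v x * u x) :
    ∃ c : ℝ, ∀ᵐ x, u x = c := by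
  obtain ⟨G, hGc, hFG, hGF, hGper, hGm⟩ := cob_inv hF
  have hmono : StrictMono F := strictMono_of_deriv_pos hF.pos
  have hcont : Continuous F := hF.c2.continuous
  have hdcont : Continuous (deriv F) := hF.c2.continuous_deriv (by norm_num)
  have hinj : ∀ s, Set.InjOn F s := fun s => hmono.injective.injOn
  have himg : ∀ a b, F '' Set.Ioc a b = Set.Ioc (F a) (F b) := by
    intro a b
    ext y
    constructor
    · rintro ⟨x, hx, rfl⟩
      exact ⟨hmono hx.1, hmono.monotone hx.2⟩
    · intro hy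
      refine ⟨G y, ⟨?_, ?_⟩, hFG y⟩
      · have := hGm hy.1; rwa [hGF] at this
      · have := hGm.monotone hy.2; rwa [hGF] at this
  have huG1 : ∀ x, u (G (x + 1)) = u (G x) := by
    intro x; rw [hGper, hper]
  have hupI : ∀ a b, IntervalIntegrable u volume a b := by
    intro a b
    have hp : Function.Periodic u 1 := hper
    exact hp.intervalIntegrable₀ one_ne_zero hint a b
  -- integrability of u ∘ G
  have huGI : IntegrableOn (fun y => u (G y)) (Set.Ioc 0 1) := by
    have h1 := (integrableOn_image_iff_integrableOn_abs_deriv_smul (s := Set.Ioc (G 0) (G 1))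
      (f := F) (f' := deriv F) measurableSet_Ioc (fun x _ => (cob_hasDerivAt hF x).hasDerivWithinAt)
      (hinj _) (fun y => u (G y)))
    rw [himg, hFG, hFG] at h1
    rw [h1]
    have h2 : IntervalIntegrable (fun x => |deriv F x| * u x) volume (G 0) (G 1) :=
      (hupI (G 0) (G 1)).continuousOn_mul hdcont.abs.continuousOn
    have h3 := (intervalIntegrable_iff_integrableOn_Ioc_of_le (hGm.monotone zero_le_one)).1 h2
    refine h3.congr_fun ?_ measurableSet_Ioc
    intro x _
    simp only [hGF, smul_eq_mul]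
  have hcov : ∀ v : ℝ → ℝ, Continuous v → (∀ x, v (x + 1) = v x) →
      ∫ x in (0:ℝ)..1, v (F x) * deriv F x * u x = ∫ x in (0:ℝ)..1, v x * u (G x) := by
    intro v hv hv1
    have h1 := integral_image_eq_integral_abs_deriv_smul (s := Set.Ioc 0 1)
      (f := F) (f' := deriv F) measurableSet_Ioc (fun x _ => (cob_hasDerivAt hF x).hasDerivWithinAt)
      (hinj _) (fun y => v y * u (G y))
    rw [himg] at h1
    have h2 : F 1 = F 0 + 1 := by rw [← hF.per, zero_add]
    rw [h2, ← intervalIntegral.integral_of_le (by linarith)] at h1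
    have hp : Function.Periodic (fun y => v y * u (G y)) 1 := by
      intro y
      simp only [hv1, huG1]
    have h3 := hp.intervalIntegral_add_eq (F 0) 0
    rw [zero_add] at h3
    rw [← h3, h1, intervalIntegral.integral_of_le zero_le_one]
    apply setIntegral_congr_fun measurableSet_Ioc
    intro x _
    simp only [hGF, smul_eq_mul, abs_of_pos (hF.pos x)]
    ring
  have hw0 : ∀ᵐ x : ℝ, x ∈ Set.Ioo (0:ℝ) 1 → u (G x) - u x = 0 := by
    refine isOpen_Ioo.ae_eq_zero_of_integral_contDiff_smul_eq_zero ?_ ?_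
    · apply IntegrableOn.locallyIntegrableOn
      refine (Integrable.sub (huGI.mono_set Set.Ioo_subset_Ioc_self) ?_)
      exact ((intervalIntegrable_iff_integrableOn_Ioc_of_le zero_le_one).1 hint).mono_set
        Set.Ioo_subset_Ioc_self
    · intro φ hφ hφc hφs
      -- periodisation
      set v : ℝ → ℝ := fun x => φ (Int.fract x) with hv
      have hφ0 : ∀ x, x ∉ Set.Ioo (0:ℝ) 1 → φ x = 0 := by
        intro x hx
        exact image_eq_zero_of_notMem_tsupport (fun h => hx (hφs h))
      have hvcont : Continuous v := by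
        apply ContinuousOn.comp_fract'' (f := φ)
        · exact hφ.continuous.continuousOn
        · rw [hφ0 0 (by simp), hφ0 1 (by simp)]
      have hv1 : ∀ x, v (x + 1) = v x := by
        intro x; simp only [hv, Int.fract_add_one]
      have h1 := horth v hvcont hv1
      rw [hcov v hvcont hv1] at h1
      have hvb : ContinuousOn v (Set.uIcc 0 1) := hvcont.continuousOn
      have hi1 : IntervalIntegrable (fun x => v x * u (G x)) volume 0 1 :=
        IntervalIntegrable.continuousOn_mul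
          ((intervalIntegrable_iff_integrableOn_Ioc_of_le zero_le_one).2 huGI) hvb
      have hi2 : IntervalIntegrable (fun x => v x * u x) volume 0 1 :=
        IntervalIntegrable.continuousOn_mul hint hvb
      have h2 : ∫ x in (0:ℝ)..1, (v x * u (G x) - v x * u x) = 0 := by
        rw [intervalIntegral.integral_sub hi1 hi2, h1, sub_self]
      rw [intervalIntegral.integral_of_le zero_le_one, integral_Ioc_eq_integral_Ioo] at h2
      rw [← h2, ← integral_indicator measurableSet_Ioo]
      apply integral_congr_ae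
      refine Filter.Eventually.of_forall ?_
      intro x
      simp only [Set.indicator]
      split_ifs with hx
      · have : Int.fract x = x := Int.fract_eq_self.2 ⟨hx.1.le, hx.2⟩
        simp only [hv, this, smul_eq_mul]
        ring
      · simp only [hφ0 x hx, zero_smul]
  have hw1 : ∀ᵐ x, u (G x) - u x = 0 :=
    cob_ae_per (w := fun x => u (G x) - u x) (fun x => by simp only [huG1, hper]) hw0
  have hinv : ∀ᵐ x, u (F x) = u x := by
    have := cob_ae_comp hF hw1
    filter_upwards [this] with x hx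
    rw [hGF] at hx
    linarith
  have hinvn : ∀ᵐ x, ∀ n : ℕ, u (F^[n] x) = u x := by
    rw [ae_all_iff]
    intro n
    induction n with
    | zero => simp
    | succ n ih =>
      have h1 := cob_ae_comp hF ih
      filter_upwards [h1, hinv] with x hx1 hx2
      rw [Function.iterate_succ_apply, hx1, hx2]
  have hFn1 : ∀ n x, F^[n] (x + 1) = F^[n] x + 1 := by
    intro n
    induction n with
    | zero => intro x; simp
    | succ n ih => intro x; rw [Function.iterate_succ_apply, Function.iterate_succ_apply, hF.per, ih]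
  have hFnm : ∀ n, Measurable (F^[n]) := fun n => (hcont.iterate n).measurable
  have hsep : ∀ U : Set ℝ, MeasurableSet U → (∀ᵐ x, u x ∈ U) ∨ (∀ᵐ x, u x ∉ U) := by
    intro U hU
    set A : Set ℝ := {x | ∃ᶠ n in atTop, u (F^[n] x) ∈ U} with hA
    have hAm : MeasurableSet A := by
      have : A = ⋂ m : ℕ, ⋃ n : ℕ, ⋃ (_ : m ≤ n), {x | u (F^[n] x) ∈ U} := by
        ext x
        simp only [hA, Set.mem_ofPred_eq, frequently_atTop, Set.mem_iInter, Set.mem_iUnion,
          exists_prop]
      rw [this]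
      refine MeasurableSet.iInter fun m => MeasurableSet.iUnion fun n => MeasurableSet.iUnion fun _ => ?_
      exact (hu.comp (hFnm n)) hU
    have hA1 : ∀ y, y + 1 ∈ A ↔ y ∈ A := by
      intro y
      simp only [hA, Set.mem_ofPred_eq, hFn1, hper]
    have hAF : ∀ y, F y ∈ A ↔ y ∈ A := by
      intro y
      simp only [hA, Set.mem_ofPred_eq]
      have : (fun n => u (F^[n] (F y)) ∈ U) = (fun n => (fun n => u (F^[n] y) ∈ U) (n + 1)) := by
        funext n
        simp only [Function.iterate_succ_apply]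
      rw [show (∃ᶠ n in atTop, u (F^[n] (F y)) ∈ U) ↔
        (∃ᶠ n in atTop, (fun n => u (F^[n] y) ∈ U) (n + 1)) by rw [← this]]
      rw [← Filter.frequently_map (m := fun n => n + 1) (P := fun n => u (F^[n] y) ∈ U)]
      rw [Filter.map_add_atTop_eq_nat]
    have hAe : ∀ᵐ x, (x ∈ A ↔ u x ∈ U) := by
      filter_upwards [hinvn] with x hx
      simp only [hA, Set.mem_ofPred_eq, hx]
      simp
    rcases herg A hAm hA1 hAF with h | h
    · right
      have h1 : ∀ᵐ x, x ∉ A := by rw [ae_iff]; simpa using h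
      filter_upwards [h1, hAe] with x hx1 hx2
      rwa [← hx2]
    · left
      have h1 : ∀ᵐ x, x ∈ A := by rw [ae_iff]; exact h
      filter_upwards [h1, hAe] with x hx1 hx2
      rwa [← hx2]
  obtain ⟨c, hc⟩ := Filter.exists_eventuallyEq_const_of_forall_separating (l := ae volume)
    (f := u) MeasurableSet hsep
  exact ⟨c, hc⟩

/-- The space of coboundaries in L². -/
noncomputable def cobK (F : ℝ → ℝ) : Submodule ℝ (Lp ℝ 2 (volume.restrict (Set.Ioc (0:ℝ) 1))) where
  carrier := {h | ∃ v : ℝ → ℝ, Continuous v ∧ (∀ x, v (x + 1) = v x) ∧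
    (h : ℝ → ℝ) =ᵐ[volume.restrict (Set.Ioc (0:ℝ) 1)] fun x => v (F x) * deriv F x - v x}
  add_mem' := by
    rintro a b ⟨v, hv, hv1, hva⟩ ⟨w, hw, hw1, hwb⟩
    refine ⟨fun x => v x + w x, hv.add hw, fun x => by simp only [hv1, hw1], ?_⟩
    filter_upwards [hva, hwb, Lp.coeFn_add a b] with x h1 h2 h3
    rw [h3, Pi.add_apply, h1, h2]; ring
  zero_mem' := by
    refine ⟨fun _ => 0, continuous_const, fun _ => rfl, ?_⟩
    filter_upwards [Lp.coeFn_zero ℝ 2 (volume.restrict (Set.Ioc (0:ℝ) 1))] with x h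
    rw [h]; simp
  smul_mem' := by
    rintro c a ⟨v, hv, hv1, hva⟩
    refine ⟨fun x => c * v x, continuous_const.mul hv, fun x => by simp only [hv1], ?_⟩
    filter_upwards [hva, Lp.coeFn_smul c a] with x h1 h3
    rw [h3, Pi.smul_apply, h1, smul_eq_mul]; ring

theorem cob_memLp {h : ℝ → ℝ} (hh : Continuous h) :
    MemLp h 2 (volume.restrict (Set.Ioc (0:ℝ) 1)) := by
  obtain ⟨C, hC⟩ := isCompact_Icc.exists_bound_of_continuousOn (s := Set.Icc (0:ℝ) 1)
    hh.continuousOn
  refine MemLp.of_bound hh.aestronglyMeasurable C ?_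
  rw [ae_restrict_iff' measurableSet_Ioc]
  exact Filter.Eventually.of_forall fun x hx => hC x ⟨hx.1.le, hx.2⟩

theorem coboundary {F : ℝ → ℝ} (hF : Lift F)
    (herg : ∀ A : Set ℝ, MeasurableSet A → (∀ y, y + 1 ∈ A ↔ y ∈ A) → (∀ y, F y ∈ A ↔ y ∈ A) →
      volume A = 0 ∨ volume Aᶜ = 0) {g : ℝ → ℝ} (hg : Continuous g) (hg1 : ∀ x, g (x + 1) = g x)
    (hg0 : ∫ t in (0:ℝ)..1, g t = 0) {δ : ℝ} (hδ : 0 < δ) :
    ∃ v : ℝ → ℝ, Continuous v ∧ (∀ x, v (x + 1) = v x) ∧
      ∫ t in (0:ℝ)..1, |g t + v (F t) * deriv F t - v t| ≤ δ := by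
  have hcont : Continuous F := hF.c2.continuous
  have hdcont : Continuous (deriv F) := hF.c2.continuous_deriv (by norm_num)
  set μ : Measure ℝ := volume.restrict (Set.Ioc (0:ℝ) 1) with hμ
  have hprob : IsProbabilityMeasure μ := ⟨by rw [hμ]; simp⟩
  let Gc : Lp ℝ 2 μ := (cob_memLp hg).toLp g
  have hGc : (Gc : ℝ → ℝ) =ᵐ[μ] g := MemLp.coeFn_toLp _
  have hmem : Gc ∈ (cobK F).topologicalClosure := by
    rw [← Submodule.orthogonal_orthogonal_eq_closure, Submodule.mem_orthogonal]
    intro u hu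
    rw [Submodule.mem_orthogonal] at hu
    -- periodic extension
    set u' : ℝ → ℝ := fun x => (u : ℝ → ℝ) (Int.fract x) with hu'
    have hu'm : Measurable u' := (Lp.stronglyMeasurable u).measurable.comp measurable_fract
    have hu'1 : ∀ x, u' (x + 1) = u' x := by
      intro x; simp only [hu', Int.fract_add_one]
    have hu'e : (u : ℝ → ℝ) =ᵐ[μ] u' := by
      have h1 : ∀ᵐ x ∂μ, x ≠ 1 := by
        apply ae_restrict_of_ae
        exact (Set.countable_singleton (1:ℝ)).ae_notMem volume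
      have h2 : ∀ᵐ x ∂μ, x ∈ Set.Ioc (0:ℝ) 1 := ae_restrict_mem measurableSet_Ioc
      filter_upwards [h1, h2] with x hx1 hx2
      have : Int.fract x = x := Int.fract_eq_self.2 ⟨hx2.1.le, lt_of_le_of_ne hx2.2 hx1⟩
      simp only [hu', this]
    have huI : Integrable (u : ℝ → ℝ) μ := (Lp.memLp u).integrable (by norm_num)
    have hu'I : IntervalIntegrable u' volume 0 1 := by
      rw [intervalIntegrable_iff_integrableOn_Ioc_of_le zero_le_one]
      exact huI.congr hu'e
    have horth : ∀ v : ℝ → ℝ, Continuous v → (∀ x, v (x + 1) = v x) →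
        ∫ x in (0:ℝ)..1, v (F x) * deriv F x * u' x = ∫ x in (0:ℝ)..1, v x * u' x := by
      intro v hv hv1
      have hc1 : Continuous (fun x => v (F x) * deriv F x) := (hv.comp hcont).mul hdcont
      have hcc : Continuous (fun x => v (F x) * deriv F x - v x) := hc1.sub hv
      have h1 := hu ((cob_memLp hcc).toLp _) ⟨v, hv, hv1, MemLp.coeFn_toLp _⟩
      rw [MeasureTheory.L2.inner_def] at h1
      have h2 : ∫ x in (0:ℝ)..1, (v (F x) * deriv F x * u' x - v x * u' x) = 0 := by
        rw [intervalIntegral.integral_of_le zero_le_one]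
        refine Eq.trans ?_ h1
        apply integral_congr_ae
        filter_upwards [hu'e, MemLp.coeFn_toLp (cob_memLp hcc)] with x hx1 hx2
        rw [hx2, hx1]
        rw [Real.inner_apply]
        ring
      rw [intervalIntegral.integral_sub (hu'I.continuousOn_mul hc1.continuousOn)
        (hu'I.continuousOn_mul hv.continuousOn)] at h2
      linarith
    obtain ⟨c, hc⟩ := cob_const hF herg hu'm hu'1 hu'I horth
    rw [MeasureTheory.L2.inner_def]
    have hc' : ∀ᵐ x ∂μ, u' x = c := ae_restrict_of_ae hc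
    have h3 : ∫ x, inner ℝ ((u : ℝ → ℝ) x) ((Gc : ℝ → ℝ) x) ∂μ = ∫ x, g x * c ∂μ := by
      apply integral_congr_ae
      filter_upwards [hu'e, hc', hGc] with x hx1 hx2 hx3
      rw [hx1, hx2, hx3]
      rw [Real.inner_apply]
      ring
    rw [h3, integral_mul_const, ← intervalIntegral.integral_of_le zero_le_one, hg0, zero_mul]
  rw [← SetLike.mem_coe, Submodule.topologicalClosure_coe, Metric.mem_closure_iff] at hmem
  obtain ⟨h, ⟨w, hw, hw1, hwe⟩, hdist⟩ := hmem δ hδ
  refine ⟨fun x => - w x, hw.neg, fun x => by simp only [hw1], ?_⟩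
  have hc1 : Continuous (fun x => w (F x) * deriv F x) := (hw.comp hcont).mul hdcont
  have hcc : Continuous (fun x => g x - (w (F x) * deriv F x - w x)) := hg.sub (hc1.sub hw)
  have h1 : ∫ t in (0:ℝ)..1, |g t + -w (F t) * deriv F t - -w t| =
      ∫ t, ‖g t - (w (F t) * deriv F t - w t)‖ ∂μ := by
    rw [intervalIntegral.integral_of_le zero_le_one]
    apply integral_congr_ae
    refine Filter.Eventually.of_forall fun t => ?_
    simp only [Real.norm_eq_abs]
    congr 1; ring
  rw [h1, integral_norm_eq_lintegral_enorm hcc.aestronglyMeasurable]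
  have h2 : ∫⁻ t, ‖g t - (w (F t) * deriv F t - w t)‖ₑ ∂μ =
      eLpNorm (fun t => g t - (w (F t) * deriv F t - w t)) 1 μ := by
    rw [eLpNorm_one_eq_lintegral_enorm]
  rw [h2]
  have h3 : eLpNorm (fun t => g t - (w (F t) * deriv F t - w t)) 1 μ ≤
      eLpNorm (fun t => g t - (w (F t) * deriv F t - w t)) 2 μ :=
    eLpNorm_le_eLpNorm_of_exponent_le (by norm_num) hcc.aestronglyMeasurable
  have h4 : eLpNorm (fun t => g t - (w (F t) * deriv F t - w t)) 2 μ =
      eLpNorm ((Gc : ℝ → ℝ) - (h : ℝ → ℝ)) 2 μ := by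
    apply eLpNorm_congr_ae
    filter_upwards [hGc, hwe] with x hx1 hx2
    rw [Pi.sub_apply, hx1, hx2]
  have h5 : eLpNorm ((Gc : ℝ → ℝ) - (h : ℝ → ℝ)) 2 μ = ENNReal.ofReal (dist Gc h) := by
    rw [Lp.dist_def, ENNReal.ofReal_toReal]
    exact ((Lp.memLp Gc).sub (Lp.memLp h)).2.ne
  rw [h4, h5] at h3
  have h6 := ENNReal.toReal_mono ENNReal.ofReal_ne_top h3
  rw [ENNReal.toReal_ofReal dist_nonneg] at h6
  exact h6.trans hdist.le

end Pool.Agent.Helper320.CQ
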