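import Pool.Agent.Helper320.CQBasics
set_option autoImplicit false
open Filter Topology MeasureTheory
namespace Pool.Agent.Helper320.CQ

theorem Lift.hd {F : ℝ → ℝ} (h : Lift F) (x : ℝ) : HasDerivAt F (deriv F x) x :=
  (h.c2.differentiable (by norm_num) x).hasDerivAt

theorem Lift.hdd {F : ℝ → ℝ} (h : Lift F) (x : ℝ) :
    HasDerivAt (deriv F) (deriv (deriv F) x) x := by
  have h2 : ContDiff ℝ (1 + 1) F := by
    have := h.c2; norm_num at this ⊢; exact this
  have h1 : ContDiff ℝ 1 (deriv F) := (contDiff_succ_iff_deriv.1 h2).2.2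
  exact (h1.differentiable (by norm_num) x).hasDerivAt

theorem conj_close (F : CircleDeg1Lift) (hF : Lift F) (H : ℝ → ℝ) (hH : Lift H) {ε : ℝ}
    (hε : 0 < ε) (hε1 : ε ≤ 1)
    (hb : ∀ x, |nl H (F x) * deriv F x + nl F x - nl H x| ≤ ε * deriv H x) :
    ∃ H' : CircleDeg1Lift, ∃ Hinv : ℝ → ℝ,
          ContDiff ℝ 2 (H' : ℝ → ℝ) ∧
          (∀ x : ℝ, 0 < deriv (H' : ℝ → ℝ) x) ∧
          Function.LeftInverse Hinv H' ∧
          Function.RightInverse Hinv H' ∧
          ∀ x : ℝ,
            |H' (F (Hinv x)) - x - CircleDeg1Lift.translationNumber F| ≤ 10 * ε ∧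
            |deriv (fun y : ℝ => H' (F (Hinv y))) x - 1| ≤ 10 * ε ∧
            |deriv (deriv (fun y : ℝ => H' (F (Hinv y)))) x| ≤ 10 * ε := by
  have hmono : StrictMono H := strictMono_of_deriv_pos hH.pos
  let H' : CircleDeg1Lift := ⟨⟨H, hmono.monotone⟩, hH.per⟩
  have hH' : (H' : ℝ → ℝ) = H := rfl
  have hcont : Continuous H := hH.c2.continuous
  have hsurj : Function.Surjective H := by
    apply hcont.surjective
    · exact H'.tendsto_atTop
    · exact H'.tendsto_atBot
  let e : ℝ ≃o ℝ := StrictMono.orderIsoOfSurjective H hmono hsurj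
  have he : ∀ x, e x = H x := fun x => rfl
  let Hi : ℝ → ℝ := e.symm
  have hLI : Function.LeftInverse Hi H := fun x => e.symm_apply_apply x
  have hRI : Function.RightInverse Hi H := fun x => e.apply_symm_apply x
  have hHic : Continuous Hi := e.symm.continuous
  have hHid : ∀ y, HasDerivAt Hi (deriv H (Hi y))⁻¹ y := by
    intro y
    exact HasDerivAt.of_local_left_inverse hHic.continuousAt (hH.hd (Hi y)) (hH.pos _).ne'
      (Filter.Eventually.of_forall hRI)
  have hHiper : ∀ y, Hi (y + 1) = Hi y + 1 := by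
    intro y
    apply hmono.injective
    rw [hRI, hH.per, hRI]
  let Hi' : CircleDeg1Lift := ⟨⟨Hi, e.symm.monotone⟩, hHiper⟩
  let K : ℝ → ℝ := fun x => deriv H (F x) * deriv F x / deriv H x
  have hKpos : ∀ x, 0 < K x := fun x => div_pos (mul_pos (hH.pos _) (hF.pos _)) (hH.pos _)
  have hK : ∀ x, HasDerivAt K (K x * (nl H (F x) * deriv F x + nl F x - nl H x)) x := by
    intro x
    have h1 : HasDerivAt (fun x => deriv H (F x)) (deriv (deriv H) (F x) * deriv F x) x :=
      (hH.hdd (F x)).comp x (hF.hd x)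
    have h2 := (h1.mul (hF.hdd x)).div (hH.hdd x) (hH.pos x).ne'
    refine h2.congr_deriv ?_
    simp only [K, nl]
    have e1 := (hH.pos (F x)).ne'
    have e2 := (hH.pos x).ne'
    have e3 := (hF.pos x).ne'
    have e4 : ((fun x => deriv H (F x)) * deriv (F : ℝ → ℝ)) x = deriv H (F x) * deriv F x := rfl
    rw [e4]
    field_simp
  let G : ℝ → ℝ := fun y => H (F (Hi y))
  have hG : ∀ y, HasDerivAt G (K (Hi y)) y := by
    intro y
    have h1 := (hH.hd (F (Hi y))).comp y ((hF.hd (Hi y)).comp y (hHid y))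
    refine h1.congr_deriv ?_
    simp only [K]
    rw [div_eq_mul_inv]; ring
  have hdG : deriv G = fun y => K (Hi y) := funext fun y => (hG y).deriv
  have hG2 : ∀ y, HasDerivAt (deriv G) (K (Hi y) * (nl H (F (Hi y)) * deriv F (Hi y) +
      nl F (Hi y) - nl H (Hi y)) * (deriv H (Hi y))⁻¹) y := by
    intro y
    rw [hdG]
    exact (hK (Hi y)).comp y (hHid y)
  have hbound : ∀ y, |deriv (deriv G) y| ≤ ε * deriv G y := by
    intro y
    rw [(hG2 y).deriv, (hG y).deriv, abs_mul, abs_mul, abs_of_pos (hKpos _), abs_inv,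
      abs_of_pos (hH.pos _)]
    have h1 := hb (Hi y)
    have h2 := hH.pos (Hi y)
    have h3 := hKpos (Hi y)
    calc _ ≤ K (Hi y) * (ε * deriv H (Hi y)) * (deriv H (Hi y))⁻¹ := by gcongr
      _ = ε * K (Hi y) := by field_simp
  have hGpos : ∀ y, 0 < deriv G y := fun y => by rw [(hG y).deriv]; exact hKpos _
  have hGper : ∀ y, G (y + 1) = G y + 1 := by
    intro y
    simp only [G]
    rw [hHiper, hF.per, hH.per]
  -- the logarithm of the derivative
  have hlogd : ∀ y, HasDerivAt (fun y => Real.log (deriv G y)) (deriv (deriv G) y / deriv G y) y := by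
    intro y
    have := (hG2 y).differentiableAt.hasDerivAt.log (hGpos y).ne'
    exact this
  have hlog : ∀ y, |Real.log (deriv G y)| ≤ ε := by
    intro y
    obtain ⟨ξ, hξ, hξ1⟩ := exists_deriv_eq_slope G (show y < y + 1 by linarith)
      (fun z _ => (hG z).continuousAt.continuousWithinAt)
      (fun z _ => (hG z).differentiableAt.differentiableWithinAt)
    rw [hGper] at hξ1
    have hξ2 : deriv G ξ = 1 := by rw [hξ1]; ring
    have hlip := Convex.norm_image_sub_le_of_norm_hasDerivWithin_le
      (f := fun y => Real.log (deriv G y)) (s := Set.univ) (C := ε) (x := ξ) (y := y)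
      (fun z _ => (hlogd z).hasDerivWithinAt) (fun z _ => by
        rw [Real.norm_eq_abs, abs_div, abs_of_pos (hGpos z)]
        rw [div_le_iff₀ (hGpos z)]
        exact hbound z) convex_univ (Set.mem_univ _) (Set.mem_univ _)
    simp only [hξ2, Real.log_one, sub_zero, Real.norm_eq_abs] at hlip
    have h3 : |y - ξ| ≤ 1 := by
      rw [abs_le]; constructor <;> linarith [hξ.1, hξ.2]
    calc _ ≤ ε * |y - ξ| := hlip
      _ ≤ ε * 1 := by gcongr
      _ = ε := mul_one _
  have hd1 : ∀ y, |deriv G y - 1| ≤ 2 * ε := by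
    intro y
    have h1 := Real.abs_exp_sub_one_le (x := Real.log (deriv G y)) ((hlog y).trans hε1)
    rw [Real.exp_log (hGpos y)] at h1
    linarith [hlog y]
  have hd2 : ∀ y, |deriv (deriv G) y| ≤ 3 * ε := by
    intro y
    have h1 := hbound y
    have h2 := (abs_le.1 (hd1 y)).2
    have h3 : deriv G y ≤ 3 := by linarith
    calc _ ≤ ε * deriv G y := h1
      _ ≤ ε * 3 := by gcongr
      _ = 3 * ε := by ring
  let Gc : CircleDeg1Lift := H' * F * Hi'
  have hGc : (Gc : ℝ → ℝ) = G := rfl
  have hτ : CircleDeg1Lift.translationNumber F = CircleDeg1Lift.translationNumber Gc := by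
    apply CircleDeg1Lift.translationNumber_eq_of_semiconj (f := H')
    intro x
    change H (F x) = H (F (Hi (H x)))
    rw [hLI x]
  have hGcont : Continuous G := continuous_iff_continuousAt.2 fun y => (hG y).continuousAt
  obtain ⟨y0, hy0⟩ := Gc.exists_eq_add_translationNumber (by rw [hGc]; exact hGcont)
  rw [← hτ] at hy0
  have hdist : ∀ y, |G y - y - CircleDeg1Lift.translationNumber F| ≤ 2 * ε := by
    intro y
    set n : ℤ := ⌊y - y0⌋ with hn
    have h1 : y0 ≤ y - n := by have := Int.floor_le (y - y0); linarith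
    have h2 : y - n < y0 + 1 := by have := Int.lt_floor_add_one (y - y0); linarith
    have h3 : G (y - n) = G y - n := Gc.map_sub_int y n
    have hlip := Convex.norm_image_sub_le_of_norm_hasDerivWithin_le
      (f := fun y => G y - y) (f' := fun y => deriv G y - 1) (s := Set.univ) (C := 2 * ε)
      (x := y0) (y := y - n)
      (fun z _ => ((hG z).differentiableAt.hasDerivAt.sub (hasDerivAt_id z)).hasDerivWithinAt)
      (fun z _ => by rw [Real.norm_eq_abs]; exact hd1 z) convex_univ
      (Set.mem_univ _) (Set.mem_univ _)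
    have h4 : G y0 = y0 + CircleDeg1Lift.translationNumber F := hy0
    simp only [Real.norm_eq_abs] at hlip
    rw [h3, h4] at hlip
    have h5 : |y - n - y0| ≤ 1 := by
      rw [abs_le]; constructor <;> linarith
    have h6 : G y - ↑n - (y - ↑n) - (y0 + CircleDeg1Lift.translationNumber F - y0) =
      G y - y - CircleDeg1Lift.translationNumber F := by ring
    rw [h6] at hlip
    calc _ ≤ 2 * ε * |y - n - y0| := hlip
      _ ≤ 2 * ε * 1 := by gcongr
      _ = 2 * ε := mul_one _
  refine ⟨H', Hi, hH.c2, hH.pos, hLI, hRI, fun x => ⟨?_, ?_, ?_⟩⟩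
  · exact (hdist x).trans (by linarith)
  · exact (hd1 x).trans (by linarith)
  · exact (hd2 x).trans (by linarith)

end Pool.Agent.Helper320.CQ
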