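import Pool.Agent.Helper320.CQDist
set_option autoImplicit false
open Filter Topology MeasureTheory
namespace Pool.Agent.Helper320.CQ

lemma ind_int {A : Set ℝ} (hA : MeasurableSet A) (u v : ℝ) :
    IntervalIntegrable (A.indicator (fun _ => (1:ℝ))) volume u v := by
  rw [intervalIntegrable_iff]
  exact (integrableOn_const (by simp)).indicator hA

lemma ind_eq {A : Set ℝ} (hA : MeasurableSet A) {u v : ℝ} (huv : u ≤ v) :
    ∫ t in u..v, A.indicator (fun _ => (1:ℝ)) t = volume.real (A ∩ Set.Ioc u v) := by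
  rw [intervalIntegral.integral_of_le huv, integral_indicator hA, Measure.restrict_restrict hA]
  simp

lemma image_bound {F : ℝ → ℝ} (hF : Lift F) {A : Set ℝ} (hA : MeasurableSet A)
    (hAi : ∀ (i : ℕ) (y : ℝ), F^[i] y ∈ A ↔ y ∈ A) (i : ℕ) {x b K : ℝ} (hxb : x ≤ b) (hK : 0 ≤ K)
    (hb : ∀ y ∈ Set.Icc x b, DF F i y ≤ K) :
    volume.real (A ∩ Set.Ioc (F^[i] x) (F^[i] b)) ≤ K * volume.real (A ∩ Set.Ioc x b) := by
  have hmono := iter_mono hF.strictMono i
  have himg : A ∩ Set.Ioc (F^[i] x) (F^[i] b) = F^[i] '' (A ∩ Set.Ioc x b) := by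
    ext z
    constructor
    · rintro ⟨hzA, hz⟩
      obtain ⟨y, hy, rfl⟩ := intermediate_value_Ioc hxb (iter_cont hF i).continuousOn hz
      exact ⟨y, ⟨(hAi i y).1 hzA, hy⟩, rfl⟩
    · rintro ⟨y, ⟨hyA, hy⟩, rfl⟩
      exact ⟨(hAi i y).2 hyA, hmono hy.1, hmono.monotone hy.2⟩
  have hmeas : MeasurableSet (A ∩ Set.Ioc x b) := hA.inter measurableSet_Ioc
  have h1 := lintegral_image_eq_lintegral_abs_deriv_mul hmeas
    (f := F^[i]) (f' := DF F i) (fun y _ => (hasDerivAt_iter hF i y).hasDerivWithinAt)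
    hmono.injective.injOn (fun _ => 1)
  rw [setLIntegral_one] at h1
  have h2 : volume (F^[i] '' (A ∩ Set.Ioc x b)) ≤ ENNReal.ofReal K * volume (A ∩ Set.Ioc x b) := by
    rw [h1]
    calc ∫⁻ y in A ∩ Set.Ioc x b, ENNReal.ofReal |DF F i y| * 1
        ≤ ∫⁻ _y in A ∩ Set.Ioc x b, ENNReal.ofReal K := by
          apply setLIntegral_mono' hmeas
          intro y hy
          rw [mul_one, abs_of_pos (DF_pos hF i y)]
          exact ENNReal.ofReal_le_ofReal (hb y ⟨hy.2.1.le, hy.2.2⟩)
      _ = ENNReal.ofReal K * volume (A ∩ Set.Ioc x b) := by rw [setLIntegral_const]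
  have hfin : volume (A ∩ Set.Ioc x b) ≠ ⊤ :=
    ((measure_mono Set.inter_subset_right).trans_lt (by simp)).ne
  rw [himg]
  unfold Measure.real
  calc (volume (F^[i] '' (A ∩ Set.Ioc x b))).toReal
      ≤ (ENNReal.ofReal K * volume (A ∩ Set.Ioc x b)).toReal :=
        ENNReal.toReal_mono (ENNReal.mul_ne_top ENNReal.ofReal_ne_top hfin) h2
    _ = K * (volume (A ∩ Set.Ioc x b)).toReal := by
        rw [ENNReal.toReal_mul, ENNReal.toReal_ofReal hK]

theorem dens {F : ℝ → ℝ} (hF : Lift F) {q q' : ℕ} {p p' : ℤ} (h : GP F q q' p p') {A : Set ℝ}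
    (hA : MeasurableSet A) (hA1 : ∀ y, y + 1 ∈ A ↔ y ∈ A) (hAF : ∀ y, F y ∈ A ↔ y ∈ A) (x : ℝ) :
    volume.real (A ∩ Set.Ioc 0 1) * (F^[q] x - p - x) ≤
      2 * Real.exp (5 * Vt F) * volume.real (A ∩ Set.Ioc x (F^[q] x - p)) := by
  have hm := hF.strictMono
  have hper := hF.per
  have hAi : ∀ (i : ℕ) (y : ℝ), F^[i] y ∈ A ↔ y ∈ A := by
    intro i
    induction i with
    | zero => intro y; rfl
    | succ i ih => intro y; rw [Function.iterate_succ_apply, ih, hAF]
  set b := F^[q] x - p with hb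
  have hxb : x < b := h.pos x
  set m := volume.real (A ∩ Set.Ioc x b) with hmdef
  set a := volume.real (A ∩ Set.Ioc 0 1) with ha
  set W : ℝ → ℝ := fun y => ∫ t in (0:ℝ)..y, A.indicator (fun _ => (1:ℝ)) t with hWdef
  have hWsub : ∀ u v, W v - W u = ∫ t in u..v, A.indicator (fun _ => (1:ℝ)) t := by
    intro u v
    simp only [hWdef]
    rw [intervalIntegral.integral_interval_sub_left (ind_int hA _ _) (ind_int hA _ _)]
  have hWsub' : ∀ u v, u ≤ v → W v - W u = volume.real (A ∩ Set.Ioc u v) := by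
    intro u v huv; rw [hWsub, ind_eq hA huv]
  have hWmono : Monotone W := by
    intro u v huv
    have := hWsub' u v huv
    have h0 : 0 ≤ volume.real (A ∩ Set.Ioc u v) := measureReal_nonneg
    linarith
  have hperiodic : Function.Periodic (A.indicator (fun _ => (1:ℝ))) 1 := by
    intro y
    by_cases hy : y ∈ A
    · rw [Set.indicator_of_mem hy, Set.indicator_of_mem ((hA1 y).2 hy)]
    · rw [Set.indicator_of_notMem hy, Set.indicator_of_notMem (fun hh => hy ((hA1 y).1 hh))]
  have hWper : ∀ y, W (y + 1) = W y + a := by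
    intro y
    have h1 := hWsub y (y + 1)
    have h2 := hperiodic.intervalIntegral_add_eq y 0
    rw [zero_add, ind_eq hA zero_le_one] at h2
    rw [h2] at h1
    linarith
  have hlow := T_low hm hper h hWmono hWper x
  have hiter : ∀ i, F^[i + q] x - p = F^[i] b := by
    intro i
    rw [Function.iterate_add_apply, hb, iter_sub_int hper]
  have hterm : ∀ i ∈ Finset.range (q + q'), (W (F^[i + q] x - p) - W (F^[i] x)) * (b - x)
      ≤ Real.exp (5 * Vt F) * m * (F^[i + q] x - p - F^[i] x) := by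
    intro i hi
    rw [Finset.mem_range] at hi
    have hi2 : i ≤ 2 * q' := by have := h.lt; omega
    have hle : F^[i] x ≤ F^[i] b := (iter_mono hm i).monotone hxb.le
    have h1 : W (F^[i + q] x - p) - W (F^[i] x) ≤ (Real.exp (2 * Vt F) * DF F i x) * m := by
      rw [hiter i, hWsub' _ _ hle]
      apply image_bound hF hA hAi i hxb.le
      · exact mul_nonneg (Real.exp_pos _).le (DF_pos hF i x).le
      · intro y hy
        have h2 := dist_I hF h hi2 (x := x) (y := y) hy
        have h3 : Real.log (DF F i y) ≤ 2 * Vt F + Real.log (DF F i x) := by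
          have := (abs_le.1 h2).2; linarith
        calc DF F i y = Real.exp (Real.log (DF F i y)) := (Real.exp_log (DF_pos hF i y)).symm
          _ ≤ Real.exp (2 * Vt F + Real.log (DF F i x)) := Real.exp_le_exp.2 h3
          _ = Real.exp (2 * Vt F) * DF F i x := by rw [Real.exp_add, Real.exp_log (DF_pos hF i x)]
    have h4 := le_len hF h hi2 x
    have hm0 : 0 ≤ m := measureReal_nonneg
    have hbx : 0 ≤ b - x := by linarith
    calc (W (F^[i + q] x - p) - W (F^[i] x)) * (b - x)
        ≤ ((Real.exp (2 * Vt F) * DF F i x) * m) * (b - x) := mul_le_mul_of_nonneg_right h1 hbx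
      _ = Real.exp (2 * Vt F) * m * (DF F i x * (b - x)) := by ring
      _ ≤ Real.exp (2 * Vt F) * m * (Real.exp (3 * Vt F) * (F^[i + q] x - p - F^[i] x)) :=
          mul_le_mul_of_nonneg_left h4 (mul_nonneg (Real.exp_pos _).le hm0)
      _ = Real.exp (5 * Vt F) * m * (F^[i + q] x - p - F^[i] x) := by
          rw [show (5 * Vt F) = 2 * Vt F + 3 * Vt F by ring, Real.exp_add]; ring
  -- total length
  have hid : Monotone (fun y : ℝ => y) := monotone_id
  have hup : ∀ z, ∑ i ∈ Finset.range q', (F^[i + q] z - p - F^[i] z) ≤ 1 := fun z =>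
    T_up hm hper h (W := fun y => y) hid (α := 1) (fun y => rfl) z
  have hnn : ∀ z (i : ℕ), 0 ≤ F^[i + q] z - p - F^[i] z := by
    intro z i
    have h1 := h.pos (F^[i] z)
    rw [← Function.iterate_add_apply, add_comm q i] at h1
    linarith
  have htot : ∑ i ∈ Finset.range (q + q'), (F^[i + q] x - p - F^[i] x) ≤ 2 := by
    rw [add_comm q q', Finset.sum_range_add]
    have h1 := hup x
    have h2 : ∑ j ∈ Finset.range q, (F^[q' + j + q] x - p - F^[q' + j] x) ≤ 1 := by
      have h3 : ∀ j ∈ Finset.range q, (F^[q' + j + q] x - p - F^[q' + j] x)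
          = (F^[j + q] (F^[q'] x) - p - F^[j] (F^[q'] x)) := by
        intro j _
        rw [← Function.iterate_add_apply, ← Function.iterate_add_apply,
          show q' + j + q = j + q + q' by ring, show q' + j = j + q' by ring]
      rw [Finset.sum_congr rfl h3]
      refine le_trans ?_ (hup (F^[q'] x))
      exact Finset.sum_le_sum_of_subset_of_nonneg (Finset.range_subset_range.2 h.lt.le)
        (fun j _ _ => hnn _ j)
    linarith
  have hm0 : 0 ≤ m := measureReal_nonneg
  calc a * (b - x) ≤ (∑ i ∈ Finset.range (q + q'), (W (F^[i + q] x - p) - W (F^[i] x))) * (b - x) :=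
        mul_le_mul_of_nonneg_right hlow (by linarith)
    _ = ∑ i ∈ Finset.range (q + q'), (W (F^[i + q] x - p) - W (F^[i] x)) * (b - x) := by
        rw [Finset.sum_mul]
    _ ≤ ∑ i ∈ Finset.range (q + q'), Real.exp (5 * Vt F) * m * (F^[i + q] x - p - F^[i] x) :=
        Finset.sum_le_sum hterm
    _ = Real.exp (5 * Vt F) * m * ∑ i ∈ Finset.range (q + q'), (F^[i + q] x - p - F^[i] x) := by
        rw [Finset.mul_sum]
    _ ≤ Real.exp (5 * Vt F) * m * 2 :=
        mul_le_mul_of_nonneg_left htot (mul_nonneg (Real.exp_pos _).le hm0)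
    _ = 2 * Real.exp (5 * Vt F) * m := by ring

end Pool.Agent.Helper320.CQ
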