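import Pool.Agent.Helper320.CQTele
set_option autoImplicit false
open Filter Topology MeasureTheory
namespace Pool.Agent.Helper320.CQ

/-- Primitive of `|w|`. -/
noncomputable def Wf (w : ℝ → ℝ) (y : ℝ) : ℝ := ∫ t in (0:ℝ)..y, |w t|

lemma Wf_sub {w : ℝ → ℝ} (hw : Continuous w) (a b : ℝ) :
    Wf w b - Wf w a = ∫ t in a..b, |w t| := by
  unfold Wf
  rw [intervalIntegral.integral_interval_sub_left] <;>
  exact (hw.abs).intervalIntegrable _ _

lemma Wf_mono {w : ℝ → ℝ} (hw : Continuous w) : Monotone (Wf w) := by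
  intro a b hab
  have h := Wf_sub hw a b
  have h2 : 0 ≤ ∫ t in a..b, |w t| := intervalIntegral.integral_nonneg hab fun _ _ => abs_nonneg _
  linarith

lemma Wf_per {w : ℝ → ℝ} (hw : Continuous w) (hw1 : ∀ x, w (x + 1) = w x) (y : ℝ) :
    Wf w (y + 1) = Wf w y + ∫ t in (0:ℝ)..1, |w t| := by
  have h := Wf_sub hw y (y + 1)
  have hp : Function.Periodic (fun t => |w t|) 1 := fun t => by simp only [hw1]
  have h2 := hp.intervalIntegral_add_eq y 0
  rw [zero_add] at h2
  rw [h2] at h
  linarith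

lemma Vt_nonneg (F : ℝ → ℝ) : 0 ≤ Vt F :=
  intervalIntegral.integral_nonneg (by norm_num) fun _ _ => abs_nonneg _

lemma log_sub {F : ℝ → ℝ} (hF : Lift F) {a b : ℝ} (hab : a ≤ b) :
    |Real.log (deriv F b) - Real.log (deriv F a)| ≤ Wf (nl F) b - Wf (nl F) a := by
  have h1 : ∫ t in a..b, nl F t = Real.log (deriv F b) - Real.log (deriv F a) :=
    intervalIntegral.integral_eq_sub_of_hasDerivAt (fun x _ => hasDerivAt_logderiv hF x)
      ((nl_cont hF).intervalIntegrable _ _)
  rw [← h1, Wf_sub (nl_cont hF)]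
  exact intervalIntegral.abs_integral_le_integral_abs hab

lemma iter_q {F : ℝ → ℝ} (hF : Lift F) (i q : ℕ) (p : ℤ) (x : ℝ) :
    F^[i] (F^[q] x - p) = F^[i + q] x - p := by
  rw [iter_sub_int hF.per, Function.iterate_add_apply]

lemma iter_comm (F : ℝ → ℝ) (i j : ℕ) (x : ℝ) : F^[i] (F^[j] x) = F^[j] (F^[i] x) := by
  rw [← Function.iterate_add_apply, ← Function.iterate_add_apply, add_comm]

theorem dist_I1 {F : ℝ → ℝ} (hF : Lift F) {q q' : ℕ} {p p' : ℤ} (h : GP F q q' p p') {i : ℕ}
    (hi : i ≤ q') {x y : ℝ} (hy : y ∈ Set.Icc x (F^[q] x - p)) :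
    |Real.log (DF F i y) - Real.log (DF F i x)| ≤ Vt F := by
  have hmono := Wf_mono (nl_cont hF)
  rw [log_DF F hF, log_DF F hF, ← Finset.sum_sub_distrib]
  calc |∑ l ∈ Finset.range i, (Real.log (deriv F (F^[l] y)) - Real.log (deriv F (F^[l] x)))| ≤
      ∑ l ∈ Finset.range i, |Real.log (deriv F (F^[l] y)) - Real.log (deriv F (F^[l] x))| :=
        Finset.abs_sum_le_sum_abs _ _
    _ ≤ ∑ l ∈ Finset.range i, (Wf (nl F) (F^[l + q] x - p) - Wf (nl F) (F^[l] x)) := by
        apply Finset.sum_le_sum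
        intro l _
        have h1 : F^[l] x ≤ F^[l] y := (iter_mono hF.strictMono l).monotone hy.1
        have h2 : F^[l] y ≤ F^[l + q] x - p := by
          rw [← iter_q hF]
          exact (iter_mono hF.strictMono l).monotone hy.2
        have h3 := log_sub hF h1
        have h4 := hmono h2
        linarith
    _ ≤ ∑ l ∈ Finset.range q', (Wf (nl F) (F^[l + q] x - p) - Wf (nl F) (F^[l] x)) := by
        apply Finset.sum_le_sum_of_subset_of_nonneg
        · exact Finset.range_mono hi
        · intro l _ _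
          have h1 := h.pos (F^[l] x)
          rw [← Function.iterate_add_apply, add_comm] at h1
          have := hmono h1.le
          linarith
    _ ≤ Vt F := T_up hF.strictMono hF.per h hmono (Wf_per (nl_cont hF) (nl_per hF)) x

theorem dist_I {F : ℝ → ℝ} (hF : Lift F) {q q' : ℕ} {p p' : ℤ} (h : GP F q q' p p') {i : ℕ}
    (hi : i ≤ 2 * q') {x y : ℝ} (hy : y ∈ Set.Icc x (F^[q] x - p)) :
    |Real.log (DF F i y) - Real.log (DF F i x)| ≤ 2 * Vt F := by
  have hV := Vt_nonneg F
  by_cases hi2 : i ≤ q'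
  · have := dist_I1 hF h hi2 hy
    linarith
  · push Not at hi2
    obtain ⟨j, rfl⟩ : ∃ j, i = j + q' := ⟨i - q', by omega⟩
    have hj : j ≤ q' := by omega
    rw [DF_add, DF_add, Real.log_mul (DF_pos hF _ _).ne' (DF_pos hF _ _).ne',
      Real.log_mul (DF_pos hF _ _).ne' (DF_pos hF _ _).ne']
    have h1 := dist_I1 hF h le_rfl hy
    have hm := (iter_mono hF.strictMono q').monotone
    have h2 : F^[q'] y ∈ Set.Icc (F^[q'] x) (F^[q] (F^[q'] x) - p) := by
      refine ⟨hm hy.1, ?_⟩
      have := hm hy.2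
      rwa [iter_sub_int hF.per, iter_comm] at this
    have h3 := dist_I1 hF h hj h2
    rw [abs_le] at h1 h3 ⊢
    constructor <;> linarith [h1.1, h1.2, h3.1, h3.2]

theorem denjoy {F : ℝ → ℝ} (hF : Lift F) {q q' : ℕ} {p p' : ℤ} (h : GP F q q' p p') (x : ℝ) :
    |Real.log (DF F q' x)| ≤ 2 * Vt F := by
  have hmono := Wf_mono (nl_cont hF)
  have hV := Vt_nonneg F
  -- invariance along the orbit
  have horb : ∀ x : ℝ, ∀ a, a ≤ q + q' →
      |Real.log (DF F q' (F^[a] x)) - Real.log (DF F q' x)| ≤ Vt F := by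
    intro x a ha
    have h1 : Real.log (DF F q' (F^[a] x)) - Real.log (DF F q' x) =
        ∑ j ∈ Finset.range a, (Real.log (deriv F (F^[j + q'] x)) - Real.log (deriv F (F^[j] x))) := by
      have h2 : DF F (q' + a) x = DF F q' (F^[a] x) * DF F a x := DF_add F q' a x
      have h3 : DF F (a + q') x = DF F a (F^[q'] x) * DF F q' x := DF_add F a q' x
      rw [add_comm] at h2
      have h4 : Real.log (DF F q' (F^[a] x)) + Real.log (DF F a x) =
          Real.log (DF F a (F^[q'] x)) + Real.log (DF F q' x) := by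
        rw [← Real.log_mul (DF_pos hF _ _).ne' (DF_pos hF _ _).ne',
          ← Real.log_mul (DF_pos hF _ _).ne' (DF_pos hF _ _).ne', ← h2, ← h3]
      rw [Finset.sum_sub_distrib]
      have h5 := log_DF F hF a x
      have h6 := log_DF F hF a (F^[q'] x)
      simp only [← Function.iterate_add_apply] at h6
      linarith
    rw [h1]
    calc |∑ j ∈ Finset.range a, (Real.log (deriv F (F^[j + q'] x)) -
          Real.log (deriv F (F^[j] x)))| ≤
        ∑ j ∈ Finset.range a, |Real.log (deriv F (F^[j + q'] x)) -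
          Real.log (deriv F (F^[j] x))| := Finset.abs_sum_le_sum_abs _ _
      _ ≤ ∑ j ∈ Finset.range a, (Wf (nl F) (F^[j] x) - Wf (nl F) (F^[j + q'] x - p')) := by
          apply Finset.sum_le_sum
          intro j _
          have h2 : F^[j + q'] x - p' ≤ F^[j] x := by
            have := h.neg (F^[j] x)
            rw [← Function.iterate_add_apply, add_comm] at this
            exact this.le
          have h3 := log_sub hF h2
          have h4 : deriv F (F^[j + q'] x - p') = deriv F (F^[j + q'] x) := by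
            have hp : Function.Periodic (deriv F) 1 := hF.deriv_per
            have := hp.sub_int_mul_eq (x := F^[j + q'] x) p'
            rwa [mul_one] at this
          rw [h4] at h3
          rw [abs_sub_comm]
          exact h3
      _ ≤ ∑ j ∈ Finset.range (q + q'), (Wf (nl F) (F^[j] x) - Wf (nl F) (F^[j + q'] x - p')) := by
          apply Finset.sum_le_sum_of_subset_of_nonneg
          · exact Finset.range_mono ha
          · intro j _ _
            have h2 : F^[j + q'] x - p' ≤ F^[j] x := by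
              have := h.neg (F^[j] x)
              rw [← Function.iterate_add_apply, add_comm] at this
              exact this.le
            have := hmono h2
            linarith
      _ ≤ Vt F := T_back hF.strictMono hF.per h hmono (Wf_per (nl_cont hF) (nl_per hF)) x
  have hall : ∀ y, |Real.log (DF F q' y) - Real.log (DF F q' x)| ≤ 2 * Vt F := by
    intro y
    obtain ⟨a, ha, k, hk1, hk2⟩ := cover hF.strictMono hF.per h x y
    have h1 : y - k ∈ Set.Icc (F^[a] x) (F^[q] (F^[a] x) - p) := by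
      rw [← Function.iterate_add_apply, add_comm q a]
      exact ⟨by linarith, by linarith⟩
    have h2 := dist_I1 hF h le_rfl h1
    have h3 : DF F q' (y - k) = DF F q' y := by
      have hp : Function.Periodic (DF F q') 1 := DF_per hF q'
      have := hp.sub_int_mul_eq (x := y) k
      rwa [mul_one] at this
    rw [h3] at h2
    have h4 := horb x a ha.le
    rw [abs_le] at h2 h4 ⊢
    constructor <;> linarith [h2.1, h2.2, h4.1, h4.2]
  obtain ⟨c, -, hc⟩ := exists_hasDerivAt_eq_slope (F^[q']) (DF F q') (show (0:ℝ) < 1 by norm_num)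
    (iter_cont hF q').continuousOn (fun y _ => hasDerivAt_iter hF q' y)
  have hc2 : DF F q' c = 1 := by
    rw [hc]
    have := iter_per hF.per q' 0
    rw [zero_add] at this
    rw [this]
    norm_num
  have := hall c
  rw [hc2, Real.log_one, zero_sub, abs_neg] at this
  exact this

lemma mvt_len {F : ℝ → ℝ} (hF : Lift F) {q q' : ℕ} {p p' : ℤ} (h : GP F q q' p p') (i : ℕ)
    (x : ℝ) : ∃ c ∈ Set.Icc x (F^[q] x - p),
      F^[i + q] x - p - F^[i] x = DF F i c * (F^[q] x - p - x) := by
  have hlt : x < F^[q] x - p := h.pos x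
  obtain ⟨c, hc, hc2⟩ := exists_hasDerivAt_eq_slope (F^[i]) (DF F i) hlt
    (iter_cont hF i).continuousOn (fun y _ => hasDerivAt_iter hF i y)
  refine ⟨c, Set.Ioo_subset_Icc_self hc, ?_⟩
  rw [hc2, iter_q hF, div_mul_cancel₀]
  linarith

theorem len_le {F : ℝ → ℝ} (hF : Lift F) {q q' : ℕ} {p p' : ℤ} (h : GP F q q' p p') {i : ℕ}
    (hi : i ≤ 2 * q') (x : ℝ) :
    F^[i + q] x - p - F^[i] x ≤ Real.exp (3 * Vt F) * (DF F i x * (F^[q] x - p - x)) := by
  obtain ⟨c, hc, hc2⟩ := mvt_len hF h i x
  rw [hc2]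
  have h1 := dist_I hF h hi hc
  have hV := Vt_nonneg F
  have h2 : DF F i c ≤ Real.exp (3 * Vt F) * DF F i x := by
    rw [← Real.log_le_log_iff (DF_pos hF _ _) (mul_pos (Real.exp_pos _) (DF_pos hF _ _)),
      Real.log_mul (Real.exp_pos _).ne' (DF_pos hF _ _).ne', Real.log_exp]
    rw [abs_le] at h1
    linarith [h1.2]
  have h3 : 0 ≤ F^[q] x - p - x := by linarith [h.pos x]
  calc _ ≤ (Real.exp (3 * Vt F) * DF F i x) * (F^[q] x - p - x) :=
        mul_le_mul_of_nonneg_right h2 h3
    _ = _ := by ring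

theorem le_len {F : ℝ → ℝ} (hF : Lift F) {q q' : ℕ} {p p' : ℤ} (h : GP F q q' p p') {i : ℕ}
    (hi : i ≤ 2 * q') (x : ℝ) :
    DF F i x * (F^[q] x - p - x) ≤ Real.exp (3 * Vt F) * (F^[i + q] x - p - F^[i] x) := by
  obtain ⟨c, hc, hc2⟩ := mvt_len hF h i x
  rw [hc2]
  have h1 := dist_I hF h hi hc
  have hV := Vt_nonneg F
  have h2 : DF F i x ≤ Real.exp (3 * Vt F) * DF F i c := by
    rw [← Real.log_le_log_iff (DF_pos hF _ _) (mul_pos (Real.exp_pos _) (DF_pos hF _ _)),
      Real.log_mul (Real.exp_pos _).ne' (DF_pos hF _ _).ne', Real.log_exp]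
    rw [abs_le] at h1
    linarith [h1.1]
  have h3 : 0 ≤ F^[q] x - p - x := by linarith [h.pos x]
  calc _ ≤ (Real.exp (3 * Vt F) * DF F i c) * (F^[q] x - p - x) :=
        mul_le_mul_of_nonneg_right h2 h3
    _ = _ := by ring

end Pool.Agent.Helper320.CQ
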