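import Pool.Agent.Helper320.CQSmall
import Pool.Agent.Helper320.CQDens
set_option autoImplicit false
open Filter Topology MeasureTheory
namespace Pool.Agent.Helper320.CQ

lemma per_int {A : Set ℝ} (hA1 : ∀ y, y + 1 ∈ A ↔ y ∈ A) (k : ℤ) (y : ℝ) :
    y + k ∈ A ↔ y ∈ A := by
  induction k using Int.induction_on with
  | zero => simp
  | succ n ih =>
    push_cast at ih ⊢
    rw [← ih, ← hA1 (y + n), add_assoc]
  | pred n ih =>
    push_cast at ih ⊢
    rw [← ih, ← hA1 (y + (-(n:ℝ) - 1))]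
    ring_nf

lemma measure_zero_of_per {A : Set ℝ} (hA1 : ∀ y, y + 1 ∈ A ↔ y ∈ A)
    (h0 : volume (A ∩ Set.Ioc 0 1) = 0) : volume A = 0 := by
  have h1 : A = ⋃ k : ℤ, A ∩ Set.Ioc (k : ℝ) (k + 1) := by
    rw [← Set.inter_iUnion, iUnion_Ioc_intCast, Set.inter_univ]
  rw [h1, measure_iUnion_null_iff]
  intro k
  have h2 : (fun y => y + (k : ℝ)) ⁻¹' (A ∩ Set.Ioc (k : ℝ) (k + 1)) = A ∩ Set.Ioc 0 1 := by
    ext y
    simp only [Set.mem_preimage, Set.mem_inter_iff, Set.mem_Ioc, per_int hA1]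
    constructor
    · rintro ⟨h3, h4, h5⟩
      exact ⟨h3, by linarith, by linarith⟩
    · rintro ⟨h3, h4, h5⟩
      exact ⟨h3, by linarith, by linarith⟩
  rw [← measure_preimage_add_right volume (k : ℝ), h2, h0]

theorem erg {F : ℝ → ℝ} (hF : Lift F)
    (hGP : ∀ N : ℕ, ∃ (q q' : ℕ) (p p' : ℤ), N ≤ q ∧ GP F q q' p p') {A : Set ℝ}
    (hA : MeasurableSet A) (hA1 : ∀ y, y + 1 ∈ A ↔ y ∈ A) (hAF : ∀ y, F y ∈ A ↔ y ∈ A) :
    volume A = 0 ∨ volume Aᶜ = 0 := by
  by_contra hcon
  push Not at hcon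
  obtain ⟨hA0, hB0⟩ := hcon
  have hfin : volume (A ∩ Set.Ioc 0 1) ≠ ⊤ :=
    ((measure_mono Set.inter_subset_right).trans_lt (by simp)).ne
  have hα : 0 < volume.real (A ∩ Set.Ioc 0 1) := by
    rw [Measure.real, ENNReal.toReal_pos_iff]
    exact ⟨pos_iff_ne_zero.2 fun h => hA0 (measure_zero_of_per hA1 h), hfin.lt_top⟩
  have hrne : volume.restrict Aᶜ ≠ 0 := by
    rwa [Ne, Measure.restrict_eq_zero]
  haveI : (ae (volume.restrict Aᶜ)).NeBot := ae_neBot.2 hrne
  obtain ⟨x, hx⟩ := (IsUnifLocDoublingMeasure.ae_tendsto_measure_inter_div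
    (volume : Measure ℝ) Aᶜ 1).exists
  have hch : ∀ n : ℕ, ∃ r : ℝ, 0 < r ∧ r < 1 / ((n : ℝ) + 1) ∧
      volume.real (A ∩ Set.Ioc 0 1) * r ≤
        2 * Real.exp (5 * Vt F) * volume.real (A ∩ Set.Ioc x (x + r)) := by
    intro n
    obtain ⟨N, hN⟩ := small hF (ε := 1 / ((n : ℝ) + 1)) (by positivity)
    obtain ⟨q, q', p, p', hq, hg⟩ := hGP N
    refine ⟨F^[q] x - p - x, by linarith [hg.pos x], hN q q' p p' hq hg x, ?_⟩
    have h1 := dens hF hg hA hA1 hAF x
    have h2 : x + (F^[q] x - p - x) = F^[q] x - p := by ring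
    rw [h2]
    exact h1
  choose r hr0 hr1 hr2 using hch
  have hrlim : Tendsto r atTop (𝓝 0) :=
    squeeze_zero (fun n => (hr0 n).le) (fun n => (hr1 n).le) tendsto_one_div_add_atTop_nhds_zero_nat
  have hδlim : Tendsto (fun n => r n / 2) atTop (𝓝[>] 0) := by
    rw [tendsto_nhdsWithin_iff]
    refine ⟨by simpa using hrlim.div_const 2, Eventually.of_forall fun n => ?_⟩
    have := hr0 n
    simp only [Set.mem_Ioi]
    linarith
  have hlim := hx (fun n => x + r n / 2) (fun n => r n / 2) hδlim (Eventually.of_forall fun n => by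
    have := hr0 n
    rw [one_mul, Metric.mem_closedBall, Real.dist_eq]
    rw [abs_of_nonpos (by linarith)]
    linarith)
  have hball : ∀ n, Metric.closedBall (x + r n / 2) (r n / 2) = Set.Icc x (x + r n) := by
    intro n
    rw [Real.closedBall_eq_Icc]
    congr 1 <;> ring
  simp only [hball] at hlim
  have hlim2 := (ENNReal.tendsto_toReal ENNReal.one_ne_top).comp hlim
  set K : ℝ := 2 * Real.exp (5 * Vt F) with hK
  have hK0 : 0 < K := by positivity
  set α : ℝ := volume.real (A ∩ Set.Ioc 0 1) with hαd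
  have hbound : ∀ n, (volume (Aᶜ ∩ Set.Icc x (x + r n)) / volume (Set.Icc x (x + r n))).toReal ≤
      1 - α / K := by
    intro n
    rw [ENNReal.toReal_div]
    have hI : volume.real (Set.Icc x (x + r n)) = r n := by
      rw [Real.volume_real_Icc_of_le (by linarith [hr0 n])]
      ring
    have hIfin : volume (Set.Icc x (x + r n)) ≠ ⊤ := by
      rw [Real.volume_Icc]; exact ENNReal.ofReal_ne_top
    have hsum : volume.real (A ∩ Set.Icc x (x + r n)) + volume.real (Aᶜ ∩ Set.Icc x (x + r n)) =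
        r n := by
      have h7 := measureReal_inter_add_sdiff (μ := volume) (s := Set.Icc x (x + r n)) hA hIfin
      rw [hI, Set.sdiff_eq, Set.inter_comm _ A, Set.inter_comm _ Aᶜ] at h7
      exact h7
    have hle : volume.real (A ∩ Set.Ioc x (x + r n)) ≤ volume.real (A ∩ Set.Icc x (x + r n)) := by
      exact measureReal_mono (Set.inter_subset_inter_right _ Set.Ioc_subset_Icc_self)
        (ne_top_of_le_ne_top hIfin (measure_mono Set.inter_subset_right))
    have h3 := hr2 n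
    have h4 : α * r n ≤ K * volume.real (A ∩ Set.Icc x (x + r n)) :=
      h3.trans (mul_le_mul_of_nonneg_left hle hK0.le)
    change volume.real (Aᶜ ∩ Set.Icc x (x + r n)) / volume.real (Set.Icc x (x + r n)) ≤ _
    rw [hI, div_le_iff₀ (hr0 n)]
    have h5 : α / K * r n ≤ volume.real (A ∩ Set.Icc x (x + r n)) := by
      rw [div_mul_eq_mul_div, div_le_iff₀ hK0]
      linarith
    linarith
  have hfinal : (1 : ENNReal).toReal ≤ 1 - α / K :=
    le_of_tendsto hlim2 (Eventually.of_forall hbound)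
  rw [ENNReal.toReal_one] at hfinal
  have : 0 < α / K := div_pos hα hK0
  linarith

end Pool.Agent.Helper320.CQ
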