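import Pool.Agent.Helper320.CQDist
set_option autoImplicit false
open Filter Topology MeasureTheory
namespace Pool.Agent.Helper320.CQ

/-! Helper lemmas for the target. -/

lemma contDiff_iter {F : ℝ → ℝ} (hF : Lift F) (i : ℕ) : ContDiff ℝ 2 (F^[i]) := by
  induction i with
  | zero => exact contDiff_id
  | succ i ih => rw [Function.iterate_succ']; exact hF.c2.comp ih

/-- weights -/
noncomputable def wt (L i : ℕ) : ℝ := ((min i (2 * L - i) : ℕ) : ℝ)

lemma wt_nonneg (L i : ℕ) : 0 ≤ wt L i := Nat.cast_nonneg _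

lemma wt_abs (L i : ℕ) : |wt L i - wt L (i + 1)| ≤ 1 := by
  unfold wt
  have h : ((min i (2 * L - i) : ℕ) : ℤ) - ((min (i + 1) (2 * L - (i + 1)) : ℕ) : ℤ) ≤ 1 ∧
      -1 ≤ ((min i (2 * L - i) : ℕ) : ℤ) - ((min (i + 1) (2 * L - (i + 1)) : ℕ) : ℤ) := by
    omega
  rw [abs_le]
  constructor
  · have := h.2
    have h2 : ((-1 : ℤ) : ℝ) ≤ ((((min i (2 * L - i) : ℕ) : ℤ) -
      ((min (i + 1) (2 * L - (i + 1)) : ℕ) : ℤ) : ℤ) : ℝ) := by exact_mod_cast this
    push_cast at h2 ⊢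
    linarith
  · have := h.1
    have h2 : ((((min i (2 * L - i) : ℕ) : ℤ) -
      ((min (i + 1) (2 * L - (i + 1)) : ℕ) : ℤ) : ℤ) : ℝ) ≤ ((1 : ℤ) : ℝ) := by exact_mod_cast this
    push_cast at h2 ⊢
    linarith

lemma wt_zero (L : ℕ) : wt L 0 = 0 := by simp [wt]

lemma wt_two (L : ℕ) : wt L (2 * L) = 0 := by simp [wt]

lemma wt_split (L : ℕ) (f : ℕ → ℝ) :
    ∑ i ∈ Finset.range (2 * L + 1), wt L i * f i =
      ∑ i ∈ Finset.range L, ((i : ℝ) + 1) * f (i + 1) +
      ∑ i ∈ Finset.range L, ((L : ℝ) - (i + 1)) * f (L + (i + 1)) := by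
  rw [Finset.sum_range_succ', wt_zero, zero_mul, add_zero, two_mul, Finset.sum_range_add]
  congr 1
  · apply Finset.sum_congr rfl
    intro i hi
    rw [Finset.mem_range] at hi
    have : wt L (i + 1) = (i : ℝ) + 1 := by
      unfold wt
      rw [show min (i + 1) (2 * L - (i + 1)) = i + 1 by omega]
      push_cast; ring
    rw [this]
  · apply Finset.sum_congr rfl
    intro i hi
    rw [Finset.mem_range] at hi
    have : wt L (L + i + 1) = (L : ℝ) - (i + 1) := by
      unfold wt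
      rw [show min (L + i + 1) (2 * L - (L + i + 1)) = L - (i + 1) by omega]
      rw [Nat.cast_sub (by omega)]
      push_cast; ring
    rw [this, add_assoc]

lemma wt_sum (L : ℕ) : ∑ i ∈ Finset.range (2 * L + 1), wt L i = (L : ℝ) ^ 2 := by
  have h := wt_split L (fun _ => 1)
  simp only [mul_one] at h
  rw [h, ← Finset.sum_add_distrib]
  have : ∀ i ∈ Finset.range L, ((i : ℝ) + 1 + ((L : ℝ) - (i + 1))) = (L : ℝ) := by
    intro i _; ring
  rw [Finset.sum_congr rfl this, Finset.sum_const, Finset.card_range, nsmul_eq_mul]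
  ring

lemma wt_shift (L : ℕ) (f : ℕ → ℝ) :
    ∑ i ∈ Finset.range (2 * L + 1), wt L i * f (i + 1) -
      ∑ i ∈ Finset.range (2 * L + 1), wt L i * f i =
      ∑ i ∈ Finset.range (2 * L), (wt L i - wt L (i + 1)) * f (i + 1) := by
  rw [Finset.sum_range_succ, wt_two, zero_mul, add_zero,
    Finset.sum_range_succ' (fun i => wt L i * f i), wt_zero, zero_mul, add_zero,
    ← Finset.sum_sub_distrib]
  apply Finset.sum_congr rfl
  intro i _
  ring

noncomputable def HH (F : ℝ → ℝ) (L : ℕ) (x : ℝ) : ℝ :=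
  (∑ i ∈ Finset.range (2 * L + 1), wt L i * F^[i] x) / (L : ℝ) ^ 2

noncomputable def PP (F : ℝ → ℝ) (L : ℕ) (x : ℝ) : ℝ :=
  ∑ i ∈ Finset.range (2 * L + 1), wt L i * DF F i x

noncomputable def P1 (F : ℝ → ℝ) (L : ℕ) (x : ℝ) : ℝ :=
  ∑ i ∈ Finset.range (2 * L + 1), wt L i * (DF F i x * NF F i x)

noncomputable def EE (F : ℝ → ℝ) (L : ℕ) (x : ℝ) : ℝ :=
  ∑ i ∈ Finset.range (2 * L), (wt L i - wt L (i + 1)) * DF F (i + 1) x

noncomputable def E1 (F : ℝ → ℝ) (L : ℕ) (x : ℝ) : ℝ :=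
  ∑ i ∈ Finset.range (2 * L), (wt L i - wt L (i + 1)) * (DF F (i + 1) x * NF F (i + 1) x)

noncomputable def TT (F : ℝ → ℝ) (L : ℕ) (x : ℝ) : ℝ :=
  ∑ i ∈ Finset.range (2 * L), DF F (i + 1) x

lemma hasDerivAt_HH {F : ℝ → ℝ} (hF : Lift F) (L : ℕ) (x : ℝ) :
    HasDerivAt (HH F L) (PP F L x / (L : ℝ) ^ 2) x := by
  unfold HH PP
  apply HasDerivAt.div_const
  apply HasDerivAt.fun_sum
  intro i _
  exact (hasDerivAt_iter hF i x).const_mul _

lemma hasDerivAt_PP {F : ℝ → ℝ} (hF : Lift F) (L : ℕ) (x : ℝ) :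
    HasDerivAt (PP F L) (P1 F L x) x := by
  unfold P1 PP
  apply HasDerivAt.fun_sum
  intro i _
  exact (hasDerivAt_DF hF i x).const_mul _

lemma hasDerivAt_EE {F : ℝ → ℝ} (hF : Lift F) (L : ℕ) (x : ℝ) :
    HasDerivAt (EE F L) (E1 F L x) x := by
  unfold E1 EE
  apply HasDerivAt.fun_sum
  intro i _
  exact (hasDerivAt_DF hF (i + 1) x).const_mul _

lemma PP_shift {F : ℝ → ℝ} (L : ℕ) (x : ℝ) :
    PP F L (F x) * deriv F x = PP F L x + EE F L x := by
  have h := wt_shift L (fun i => DF F i x)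
  unfold PP EE
  rw [← h, Finset.sum_mul, add_sub_cancel]
  apply Finset.sum_congr rfl
  intro i _
  have := DF_add F i 1 x
  simp only [Function.iterate_one] at this
  rw [this]
  have h1 : DF F 1 x = deriv F x := by simp [DF]
  rw [h1]; ring

lemma PP_pos {F : ℝ → ℝ} (hF : Lift F) (L : ℕ) (hL : 0 < L) (x : ℝ) : 0 < PP F L x := by
  unfold PP
  apply Finset.sum_pos'
  · intro i _
    exact mul_nonneg (wt_nonneg L i) (DF_pos hF i x).le
  · refine ⟨L, by rw [Finset.mem_range]; omega, ?_⟩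
    apply mul_pos _ (DF_pos hF L x)
    unfold wt
    rw [show min L (2 * L - L) = L by omega]
    exact_mod_cast hL

lemma deriv_HH {F : ℝ → ℝ} (hF : Lift F) (L : ℕ) :
    deriv (HH F L) = fun x => PP F L x / (L : ℝ) ^ 2 :=
  funext fun x => (hasDerivAt_HH hF L x).deriv

lemma lift_HH {F : ℝ → ℝ} (hF : Lift F) (L : ℕ) (hL : 0 < L) : Lift (HH F L) := by
  have hL' : (0 : ℝ) < L := by exact_mod_cast hL
  refine ⟨?_, ?_, ?_⟩
  · unfold HH
    apply ContDiff.div_const
    apply ContDiff.sum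
    intro i _
    exact contDiff_const.mul (contDiff_iter hF i)
  · intro x
    unfold HH
    have : ∀ i ∈ Finset.range (2 * L + 1), wt L i * F^[i] (x + 1) = wt L i * F^[i] x + wt L i := by
      intro i _
      rw [iter_per hF.per]; ring
    rw [Finset.sum_congr rfl this, Finset.sum_add_distrib, wt_sum]
    field_simp
  · intro x
    rw [deriv_HH hF]
    have := PP_pos hF L hL x
    positivity

lemma nl_HH {F : ℝ → ℝ} (hF : Lift F) (L : ℕ) (hL : 0 < L) (x : ℝ) :
    nl (HH F L) x = P1 F L x / PP F L x := by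
  have hL' : (0 : ℝ) < L := by exact_mod_cast hL
  have hP := PP_pos hF L hL x
  unfold nl
  rw [deriv_HH hF]
  have h2 : deriv (fun x => PP F L x / (L : ℝ) ^ 2) x = P1 F L x / (L : ℝ) ^ 2 :=
    ((hasDerivAt_PP hF L x).div_const _).deriv
  rw [h2]
  field_simp

lemma P1_shift {F : ℝ → ℝ} (hF : Lift F) (L : ℕ) (x : ℝ) :
    P1 F L (F x) * deriv F x * deriv F x + PP F L (F x) * deriv (deriv F) x =
      P1 F L x + E1 F L x := by
  have h1 : HasDerivAt (fun y => PP F L (F y) * deriv F y)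
      (P1 F L (F x) * deriv F x * deriv F x + PP F L (F x) * deriv (deriv F) x) x := by
    have a1 : HasDerivAt (fun y => PP F L (F y)) (P1 F L (F x) * deriv F x) x :=
      HasDerivAt.comp x (hasDerivAt_PP hF L (F x)) (hF.diff x).hasDerivAt
    have a2 : HasDerivAt (deriv F) (deriv (deriv F) x) x :=
      (hF.deriv_c1.differentiable (by norm_num) x).hasDerivAt
    exact a1.fun_mul a2
  have h2 : HasDerivAt (fun y => PP F L y + EE F L y) (P1 F L x + E1 F L x) x :=
    (hasDerivAt_PP hF L x).fun_add (hasDerivAt_EE hF L x)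
  have h3 : (fun y => PP F L (F y) * deriv F y) = fun y => PP F L y + EE F L y :=
    funext fun y => PP_shift L y
  rw [h3] at h1
  exact h1.unique h2

lemma quantity_eq {F : ℝ → ℝ} (hF : Lift F) (L : ℕ) (hL : 0 < L) (x : ℝ) :
    nl (HH F L) (F x) * deriv F x + nl F x - nl (HH F L) x =
      (E1 F L x * PP F L x - EE F L x * P1 F L x) / (PP F L x * (PP F L x + EE F L x)) := by
  rw [nl_HH hF L hL, nl_HH hF L hL]
  have hP := PP_pos hF L hL x
  have hP' := PP_pos hF L hL (F x)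
  have hd := hF.pos x
  have h1 := PP_shift (F := F) L x
  have h2 := P1_shift hF L x
  have h3 : 0 < PP F L x + EE F L x := by rw [← h1]; positivity
  have h4 : P1 F L (F x) / PP F L (F x) * deriv F x + nl F x =
      (P1 F L x + E1 F L x) / (PP F L x + EE F L x) := by
    rw [← h1, ← h2]
    unfold nl
    field_simp
  rw [h4]
  field_simp
  ring

lemma sum_abs_le {F : ℝ → ℝ} (hF : Lift F) (L : ℕ) (x : ℝ) (g : ℕ → ℝ) (K : ℝ)
    (hg : ∀ i ≤ 2 * L, |g i| ≤ K) :
    |∑ i ∈ Finset.range (2 * L), (wt L i - wt L (i + 1)) * (DF F (i + 1) x * g (i + 1))| ≤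
      TT F L x * K := by
  refine (Finset.abs_sum_le_sum_abs _ _).trans ?_
  unfold TT
  rw [Finset.sum_mul]
  apply Finset.sum_le_sum
  intro i hi
  rw [Finset.mem_range] at hi
  rw [abs_mul, abs_mul, abs_of_pos (DF_pos hF (i + 1) x)]
  have h1 := wt_abs L i
  have h2 := hg (i + 1) (by omega)
  have h3 := DF_pos hF (i + 1) x
  have h4 : DF F (i + 1) x * |g (i + 1)| ≤ DF F (i + 1) x * K := by gcongr
  have h5 : 0 ≤ DF F (i + 1) x * |g (i + 1)| := by positivity
  calc |wt L i - wt L (i + 1)| * (DF F (i + 1) x * |g (i + 1)|)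
      ≤ 1 * (DF F (i + 1) x * |g (i + 1)|) := by gcongr
    _ ≤ _ := by rw [one_mul]; exact h4

lemma P1_abs_le {F : ℝ → ℝ} (hF : Lift F) (L : ℕ) (x : ℝ) (K : ℝ)
    (hg : ∀ i ≤ 2 * L, |NF F i x| ≤ K) :
    |P1 F L x| ≤ PP F L x * K := by
  unfold P1 PP
  refine (Finset.abs_sum_le_sum_abs _ _).trans ?_
  rw [Finset.sum_mul]
  apply Finset.sum_le_sum
  intro i hi
  rw [Finset.mem_range] at hi
  rw [abs_mul, abs_mul, abs_of_pos (DF_pos hF i x), abs_of_nonneg (wt_nonneg L i), mul_assoc]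
  have h2 := hg i (by omega)
  have h3 := DF_pos hF i x
  have h4 := wt_nonneg L i
  gcongr

lemma Vt_nonneg_final (F : ℝ → ℝ) : 0 ≤ Vt F := by
  unfold Vt
  exact intervalIntegral.integral_nonneg (by norm_num) (fun t _ => abs_nonneg _)

lemma TT_le {F : ℝ → ℝ} (hF : Lift F) {q q' : ℕ} {p p' : ℤ} (h : GP F q q' p p') (x : ℝ) :
    TT F q' x * q' ≤ (1 + Real.exp (2 * Vt F)) * Real.exp (2 * Vt F) * PP F q' x := by
  set e := Real.exp (2 * Vt F) with he
  have he0 : 0 < e := Real.exp_pos _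
  have he1 : 1 ≤ e := by
    rw [he]; apply Real.one_le_exp; have := Vt_nonneg_final F; linarith
  have hden : ∀ y, DF F q' y ≤ e ∧ 1 ≤ e * DF F q' y := by
    intro y
    have h1 := denjoy hF h y
    rw [abs_le] at h1
    have h2 := DF_pos hF q' y
    constructor
    · rw [he, ← Real.exp_log h2]
      exact Real.exp_le_exp.mpr h1.2
    · rw [he, ← Real.exp_log h2, ← Real.exp_add]
      apply Real.one_le_exp
      linarith
  set S : ℝ := ∑ i ∈ Finset.range q', DF F (i + 1) x with hS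
  have hS0 : 0 ≤ S := Finset.sum_nonneg (fun i _ => (DF_pos hF (i + 1) x).le)
  have hT : TT F q' x ≤ (1 + e) * S := by
    unfold TT
    rw [two_mul, Finset.sum_range_add, add_mul, one_mul]
    apply add_le_add le_rfl
    rw [Finset.mul_sum]
    apply Finset.sum_le_sum
    intro i _
    rw [show q' + i + 1 = q' + (i + 1) by ring, DF_add F q' (i + 1) x]
    have h3 := DF_pos hF (i + 1) x
    have h4 := (hden (F^[i + 1] x)).1
    gcongr
  have hP : q' * S ≤ e * PP F q' x := by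
    unfold PP
    rw [wt_split, Finset.mul_sum, ← Finset.sum_add_distrib, Finset.mul_sum]
    apply Finset.sum_le_sum
    intro i hi
    rw [Finset.mem_range] at hi
    rw [DF_add F q' (i + 1) x]
    have h3 := DF_pos hF (i + 1) x
    have h4 := (hden (F^[i + 1] x)).2
    have h5 : ((i : ℝ) + 1) ≤ q' := by exact_mod_cast hi
    have h6 : (0 : ℝ) ≤ (i : ℝ) + 1 := by positivity
    have h7 : ((q' : ℝ) - (i + 1)) * 1 ≤ ((q' : ℝ) - (i + 1)) * (e * DF F q' (F^[i + 1] x)) := by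
      apply mul_le_mul_of_nonneg_left h4; linarith
    have h8 : ((i : ℝ) + 1) * 1 ≤ ((i : ℝ) + 1) * e := by
      apply mul_le_mul_of_nonneg_left he1 h6
    have h9 : (q' : ℝ) * DF F (i + 1) x ≤
        (((i : ℝ) + 1) * e + ((q' : ℝ) - (i + 1)) * (e * DF F q' (F^[i + 1] x))) *
          DF F (i + 1) x := by
      apply mul_le_mul_of_nonneg_right _ h3.le
      linarith
    refine h9.trans (le_of_eq ?_)
    ring
  calc TT F q' x * q' ≤ (1 + e) * S * q' := by gcongr
    _ = (1 + e) * (q' * S) := by ring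
    _ ≤ (1 + e) * (e * PP F q' x) := by gcongr
    _ = _ := by ring

lemma TT_low {F : ℝ → ℝ} (hF : Lift F) {q q' : ℕ} {p p' : ℤ} (h : GP F q q' p p') (x : ℝ) :
    1 ≤ Real.exp (3 * Vt F) * (TT F q' x * (F^[q] x - p - x)) := by
  have h1 := T_low hF.strictMono hF.per h (W := id) monotone_id (α := 1) (fun y => rfl) (F x)
  have h2 : ∑ i ∈ Finset.range (q + q'), (id (F^[i + q] (F x) - p) - id (F^[i] (F x))) ≤
      ∑ i ∈ Finset.range (2 * q'), (F^[i + 1 + q] x - p - F^[i + 1] x) := by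
    have hsub : Finset.range (q + q') ⊆ Finset.range (2 * q') := by
      apply Finset.range_subset_range.mpr
      have := h.lt; omega
    have h3 : ∑ i ∈ Finset.range (q + q'), (id (F^[i + q] (F x) - p) - id (F^[i] (F x))) =
        ∑ i ∈ Finset.range (q + q'), (F^[i + 1 + q] x - p - F^[i + 1] x) := by
      apply Finset.sum_congr rfl
      intro i _
      simp only [id]
      rw [← Function.iterate_succ_apply, ← Function.iterate_succ_apply]
      rw [show (i + q).succ = i + 1 + q by omega]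
    rw [h3]
    apply Finset.sum_le_sum_of_subset_of_nonneg hsub
    intro i _ _
    have h4 := h.pos (F^[i + 1] x)
    rw [← Function.iterate_add_apply, show q + (i + 1) = i + 1 + q by ring] at h4
    linarith
  have h5 : ∑ i ∈ Finset.range (2 * q'), (F^[i + 1 + q] x - p - F^[i + 1] x) ≤
      Real.exp (3 * Vt F) * (TT F q' x * (F^[q] x - p - x)) := by
    unfold TT
    rw [Finset.sum_mul, Finset.mul_sum]
    apply Finset.sum_le_sum
    intro i hi
    rw [Finset.mem_range] at hi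
    exact len_le hF h (by omega) x
  linarith

/-! Target. -/

theorem final_bound {F : ℝ → ℝ} (hF : Lift F) : ∃ C : ℝ, 0 < C ∧ ∀ κ : ℝ, 0 < κ → κ ≤ 1 →
    ∃ N : ℕ, ∀ (q q' : ℕ) (p p' : ℤ), N ≤ q → GP F q q' p p' →
      (∀ i ≤ 2 * q', ∀ x, (F^[q] x - p - x) * |NF F i x| ≤ κ) →
      ∃ H : ℝ → ℝ, Lift H ∧ ∀ x,
        |nl H (F x) * deriv F x + nl F x - nl H x| ≤ C * κ * deriv H x := by
  set e := Real.exp (2 * Vt F) with he
  set e3 := Real.exp (3 * Vt F) with he3
  have he0 : 0 < e := Real.exp_pos _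
  have he30 : 0 < e3 := Real.exp_pos _
  set C1 := (1 + e) * e with hC1
  have hC10 : 0 < C1 := by positivity
  refine ⟨4 * C1 ^ 2 * e3, by positivity, ?_⟩
  intro κ hκ hκ1
  refine ⟨⌈2 * C1⌉₊, ?_⟩
  intro q q' p p' hN hGP hNF
  have hq' : 0 < q' := by have := hGP.lt; omega
  have hq'r : (0 : ℝ) < q' := by exact_mod_cast hq'
  have hLC : 2 * C1 ≤ q' := by
    have h1 := Nat.ceil_le.mp hN
    have h2 : (q : ℝ) ≤ q' := by exact_mod_cast hGP.lt.le
    linarith
  refine ⟨HH F q', lift_HH hF q' hq', ?_⟩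
  intro x
  rw [quantity_eq hF q' hq', deriv_HH hF]
  set D := F^[q] x - p - x with hD
  have hD0 : 0 < D := by have := hGP.pos x; rw [hD]; linarith
  set P := PP F q' x with hP
  set T := TT F q' x with hT
  have hP0 : 0 < P := PP_pos hF q' hq' x
  have hT0 : 0 ≤ T := Finset.sum_nonneg (fun i _ => (DF_pos hF (i + 1) x).le)
  have hNF' : ∀ i ≤ 2 * q', |NF F i x| ≤ κ / D := by
    intro i hi
    rw [le_div_iff₀ hD0]
    have := hNF i hi x
    rw [mul_comm]; exact this
  have hE1 : |E1 F q' x| ≤ T * (κ / D) := sum_abs_le hF q' x (fun i => NF F i x) _ hNF'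
  have hE : |EE F q' x| ≤ T := by
    have := sum_abs_le hF q' x (fun _ => 1) 1 (by simp)
    simpa [EE] using this
  have hP1 : |P1 F q' x| ≤ P * (κ / D) := P1_abs_le hF q' x _ hNF'
  have hTP : T * q' ≤ C1 * P := TT_le hF hGP x
  have hTP2 : 2 * T ≤ P := by
    have h1 : T * (2 * C1) ≤ C1 * P := (mul_le_mul_of_nonneg_left hLC hT0).trans hTP
    have h2 : C1 * (2 * T) ≤ C1 * P := by linarith
    exact le_of_mul_le_mul_left h2 hC10
  have hTl : 1 ≤ e3 * (T * D) := TT_low hF hGP x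
  have hPE : P / 2 ≤ P + EE F q' x := by
    have := (abs_le.mp hE).1
    linarith
  have hPE0 : 0 < P + EE F q' x := by linarith
  have hκD : 0 < κ / D := by positivity
  have hnum : |E1 F q' x * P - EE F q' x * P1 F q' x| ≤ 2 * (T * P * (κ / D)) := by
    calc |E1 F q' x * P - EE F q' x * P1 F q' x|
        ≤ |E1 F q' x * P| + |EE F q' x * P1 F q' x| := abs_sub _ _
      _ = |E1 F q' x| * P + |EE F q' x| * |P1 F q' x| := by
          rw [abs_mul, abs_mul, abs_of_pos hP0]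
      _ ≤ T * (κ / D) * P + T * (P * (κ / D)) := by
          gcongr
      _ = _ := by ring
  rw [abs_div, abs_of_pos (mul_pos hP0 hPE0)]
  have h1 : |E1 F q' x * P - EE F q' x * P1 F q' x| / (P * (P + EE F q' x)) ≤
      2 * (T * P * (κ / D)) / (P * (P / 2)) := by
    gcongr
  refine h1.trans ?_
  have h2 : 2 * (T * P * (κ / D)) / (P * (P / 2)) = 4 * T * κ / (D * P) := by
    field_simp
    ring
  rw [h2]
  rw [div_le_iff₀ (by positivity)]
  -- goal: 4 T κ ≤ 4 C1^2 e3 κ (P / q'^2) (D P)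
  have h3 : T * q' * (T * q') ≤ C1 * P * (C1 * P) := by
    apply mul_le_mul hTP hTP (by positivity) (by positivity)
  have h4 : T ≤ C1 ^ 2 * e3 * (P / (q' : ℝ) ^ 2) * (D * P) := by
    have h5 : C1 ^ 2 * e3 * (P / (q' : ℝ) ^ 2) * (D * P) =
        e3 * D * (C1 * P * (C1 * P)) / (q' : ℝ) ^ 2 := by
      field_simp
    rw [h5, le_div_iff₀ (by positivity)]
    have h6 : e3 * D * (T * q' * (T * q')) ≤ e3 * D * (C1 * P * (C1 * P)) := by
      apply mul_le_mul_of_nonneg_left h3 (by positivity)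
    have h7 : T * (q' : ℝ) ^ 2 * 1 ≤ T * (q' : ℝ) ^ 2 * (e3 * (T * D)) := by
      apply mul_le_mul_of_nonneg_left hTl (by positivity)
    calc T * (q' : ℝ) ^ 2 = T * (q' : ℝ) ^ 2 * 1 := by ring
      _ ≤ T * (q' : ℝ) ^ 2 * (e3 * (T * D)) := h7
      _ = e3 * D * (T * q' * (T * q')) := by ring
      _ ≤ _ := h6
  calc 4 * T * κ = 4 * κ * T := by ring
    _ ≤ 4 * κ * (C1 ^ 2 * e3 * (P / (q' : ℝ) ^ 2) * (D * P)) := by gcongr
    _ = _ := by ring

end Pool.Agent.Helper320.CQ
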