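import Pool.Agent.Helper320.CQDist
set_option autoImplicit false
open Filter Topology MeasureTheory
namespace Pool.Agent.Helper320.CQ

lemma id_per (y : ℝ) : (fun z : ℝ => z) (y + 1) = (fun z : ℝ => z) y + 1 := rfl

lemma sum_len_le {F : ℝ → ℝ} (hF : Lift F) {q q' : ℕ} {p p' : ℤ} (h : GP F q q' p p') (x : ℝ) :
    ∑ i ∈ Finset.range q', (F^[i + q] x - p - F^[i] x) ≤ 1 :=
  T_up hF.strictMono hF.per h (W := fun z => z) (fun _ _ h => h) id_per x

/-- The sum of a function with small integral along the return intervals. -/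
lemma sum_w_le {F : ℝ → ℝ} (hF : Lift F) {q q' : ℕ} {p p' : ℤ} (h : GP F q q' p p')
    {w : ℝ → ℝ} (hw : Continuous w) (hw1 : ∀ x, w (x + 1) = w x) {ρ ω : ℝ}
    (hρ : ∀ x, F^[q] x - p - x < ρ) (hω : 0 ≤ ω) (hunif : ∀ s t, |s - t| < ρ → |w s - w t| ≤ ω)
    (x : ℝ) :
    ∑ i ∈ Finset.range q', |w (F^[i] x)| * (F^[i + q] x - p - F^[i] x) ≤
      (∫ t in (0:ℝ)..1, |w t|) + ω := by
  have hterm : ∀ i ∈ Finset.range q', |w (F^[i] x)| * (F^[i + q] x - p - F^[i] x) ≤
      (Wf w (F^[i + q] x - p) - Wf w (F^[i] x)) + ω * (F^[i + q] x - p - F^[i] x) := by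
    intro i _
    have hpos : F^[i] x < F^[i + q] x - p := by
      have := h.pos (F^[i] x)
      rwa [← Function.iterate_add_apply, add_comm] at this
    have hlt : F^[i + q] x - p - F^[i] x < ρ := by
      have := hρ (F^[i] x)
      rwa [← Function.iterate_add_apply, add_comm] at this
    rw [Wf_sub hw]
    have h1 : ∫ t in (F^[i] x)..(F^[i + q] x - p), (|w (F^[i] x)| - ω) ≤
        ∫ t in (F^[i] x)..(F^[i + q] x - p), |w t| := by
      apply intervalIntegral.integral_mono_on hpos.le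
      · exact intervalIntegrable_const
      · exact hw.abs.intervalIntegrable _ _
      · intro t ht
        have h2 : |F^[i] x - t| < ρ := by
          rw [abs_lt]
          constructor <;> linarith [ht.1, ht.2]
        have h3 := hunif _ _ h2
        have h4 := abs_sub_abs_le_abs_sub (w (F^[i] x)) (w t)
        linarith
    rw [intervalIntegral.integral_const, smul_eq_mul] at h1
    nlinarith
  refine (Finset.sum_le_sum hterm).trans ?_
  rw [Finset.sum_add_distrib, ← Finset.mul_sum]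
  have h1 := T_up hF.strictMono hF.per h (Wf_mono hw) (Wf_per hw hw1) x
  have h2 := sum_len_le hF h x
  have h3 := mul_le_mul_of_nonneg_left h2 hω
  linarith

/-- Telescoping of a coboundary. -/
lemma NF_eq {F v w : ℝ → ℝ} (hvw : ∀ y, w y = nl F y + v (F y) * deriv F y - v y) (i : ℕ)
    (x : ℝ) : NF F i x = v x - v (F^[i] x) * DF F i x +
      ∑ l ∈ Finset.range i, w (F^[l] x) * DF F l x := by
  induction i with
  | zero => simp [NF_zero, DF_zero]
  | succ i ih =>
    rw [NF_succ, ih, Finset.sum_range_succ, hvw (F^[i] x), DF_succ, Function.iterate_succ_apply']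
    ring

lemma periodic_bdd {v : ℝ → ℝ} (hv : Continuous v) (hv1 : ∀ x, v (x + 1) = v x) :
    ∃ B : ℝ, 0 < B ∧ ∀ x, |v x| ≤ B := by
  obtain ⟨B, hB⟩ := (isCompact_Icc (a := (0:ℝ)) (b := 1)).exists_bound_of_continuousOn
    hv.continuousOn
  refine ⟨max B 1, lt_max_of_lt_right one_pos, fun x => ?_⟩
  have hp : Function.Periodic v 1 := hv1
  obtain ⟨y, hy, hxy⟩ := hp.exists_mem_Ico₀ one_pos x
  rw [hxy]
  have := hB y ⟨hy.1, hy.2.le⟩
  rw [Real.norm_eq_abs] at this
  exact this.trans (le_max_left _ _)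

lemma periodic_unif {w : ℝ → ℝ} (hw : Continuous w) (hw1 : ∀ x, w (x + 1) = w x) {ω : ℝ}
    (hω : 0 < ω) : ∃ ρ > 0, ∀ s t, |s - t| < ρ → |w s - w t| ≤ ω := by
  have hc : IsCompact (Set.Icc (-1:ℝ) 2) := isCompact_Icc
  have hu := hc.uniformContinuousOn_of_continuous hw.continuousOn
  rw [Metric.uniformContinuousOn_iff] at hu
  obtain ⟨ρ, hρ, hρ2⟩ := hu ω hω
  refine ⟨min ρ 1, lt_min hρ one_pos, fun s t hst => ?_⟩
  have hp : Function.Periodic w 1 := hw1
  have h1 : w s = w (s - ⌊s⌋) := by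
    have := hp.sub_int_mul_eq (x := s) ⌊s⌋
    rw [mul_one] at this
    exact this.symm
  have h2 : w t = w (t - ⌊s⌋) := by
    have := hp.sub_int_mul_eq (x := t) ⌊s⌋
    rw [mul_one] at this
    exact this.symm
  rw [h1, h2]
  have hf1 := Int.floor_le s
  have hf2 := Int.lt_floor_add_one s
  have h3 := lt_min_iff.1 hst
  rw [abs_lt] at h3
  have h4 := abs_lt.1 h3.2
  have := hρ2 (s - ⌊s⌋) ⟨by linarith, by linarith⟩ (t - ⌊s⌋) ⟨by linarith, by linarith⟩
    (by rw [Real.dist_eq, show s - ⌊s⌋ - (t - ⌊s⌋) = s - t by ring, abs_lt]; exact h3.1)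
  rw [Real.dist_eq] at this
  exact this.le

/-- Main estimate. -/
theorem kappa {F : ℝ → ℝ} (hF : Lift F)
    (hsmall : ∀ ε > (0:ℝ), ∃ N : ℕ, ∀ (q q' : ℕ) (p p' : ℤ), N ≤ q → GP F q q' p p' →
      ∀ x, F^[q] x - p - x < ε)
    (hcob : ∀ δ > (0:ℝ), ∃ v : ℝ → ℝ, Continuous v ∧ (∀ x, v (x + 1) = v x) ∧
      ∫ t in (0:ℝ)..1, |nl F t + v (F t) * deriv F t - v t| ≤ δ) {κ : ℝ} (hκ : 0 < κ) :
    ∃ N : ℕ, ∀ (q q' : ℕ) (p p' : ℤ), N ≤ q → GP F q q' p p' → ∀ i ≤ 2 * q', ∀ x,
      (F^[q] x - p - x) * |NF F i x| ≤ κ := by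
  set E := Real.exp (3 * Vt F) with hE
  have hEpos : 0 < E := Real.exp_pos _
  obtain ⟨v, hvc, hv1, hvδ⟩ := hcob (κ / (8 * E)) (by positivity)
  obtain ⟨B, hB, hvB⟩ := periodic_bdd hvc hv1
  set w : ℝ → ℝ := fun t => nl F t + v (F t) * deriv F t - v t with hw
  have hwc : Continuous w :=
    ((nl_cont hF).add ((hvc.comp hF.continuous).mul hF.deriv_c1.continuous)).sub hvc
  have hw1 : ∀ x, w (x + 1) = w x := by
    intro x
    simp only [hw]
    rw [nl_per hF, hF.per, hv1, hv1, hF.deriv_per]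
  obtain ⟨ρ, hρ, hunif⟩ := periodic_unif hwc hw1 (show 0 < κ / (8 * E) by positivity)
  obtain ⟨N, hN⟩ := hsmall (min ρ (κ / (4 * (1 + E) * B)))
    (lt_min hρ (by positivity))
  refine ⟨N, fun q q' p p' hNq h i hi x => ?_⟩
  have hsm : ∀ x, F^[q] x - p - x < ρ := fun x => (hN q q' p p' hNq h x).trans_le (min_le_left _ _)
  have hsm2 : ∀ x, F^[q] x - p - x < κ / (4 * (1 + E) * B) :=
    fun x => (hN q q' p p' hNq h x).trans_le (min_le_right _ _)
  set D := F^[q] x - p - x with hD
  have hDpos : 0 < D := by have := h.pos x; linarith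
  rw [NF_eq (v := v) (w := w) (fun y => rfl) i x]
  -- sum estimate
  have hsum : ∀ y, ∑ l ∈ Finset.range q', |w (F^[l] y)| * (F^[l + q] y - p - F^[l] y) ≤
      κ / (8 * E) + κ / (8 * E) := fun y =>
    (sum_w_le hF h hwc hw1 hsm (by positivity) hunif y).trans (by linarith)
  have hsum2 : ∑ l ∈ Finset.range (2 * q'), |w (F^[l] x)| * (F^[l + q] x - p - F^[l] x) ≤
      κ / (2 * E) := by
    have h1 := hsum x
    have h2 := hsum (F^[q'] x)
    rw [two_mul, Finset.sum_range_add]
    have h3 : ∑ l ∈ Finset.range q', |w (F^[q' + l] x)| * (F^[q' + l + q] x - p - F^[q' + l] x) =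
        ∑ l ∈ Finset.range q', |w (F^[l] (F^[q'] x))| *
          (F^[l + q] (F^[q'] x) - p - F^[l] (F^[q'] x)) := by
      apply Finset.sum_congr rfl
      intro l _
      rw [← Function.iterate_add_apply, ← Function.iterate_add_apply,
        show q' + l = l + q' by ring, show l + q' + q = l + q + q' by ring]
    rw [h3]
    have h4 : κ / (2 * E) = κ / (8 * E) + κ / (8 * E) + (κ / (8 * E) + κ / (8 * E)) := by
      field_simp
      norm_num
    rw [h4]
    linarith
  have hsum3 : D * |∑ l ∈ Finset.range i, w (F^[l] x) * DF F l x| ≤ κ / 2 := by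
    calc D * |∑ l ∈ Finset.range i, w (F^[l] x) * DF F l x| ≤
        D * ∑ l ∈ Finset.range i, |w (F^[l] x) * DF F l x| :=
          mul_le_mul_of_nonneg_left (Finset.abs_sum_le_sum_abs _ _) hDpos.le
      _ = ∑ l ∈ Finset.range i, |w (F^[l] x)| * (DF F l x * D) := by
          rw [Finset.mul_sum]
          apply Finset.sum_congr rfl
          intro l _
          rw [abs_mul, abs_of_pos (DF_pos hF l x)]
          ring
      _ ≤ ∑ l ∈ Finset.range i, |w (F^[l] x)| * (E * (F^[l + q] x - p - F^[l] x)) := by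
          apply Finset.sum_le_sum
          intro l hl
          apply mul_le_mul_of_nonneg_left _ (abs_nonneg _)
          exact le_len hF h (by have := Finset.mem_range.1 hl; omega) x
      _ ≤ ∑ l ∈ Finset.range (2 * q'), |w (F^[l] x)| * (E * (F^[l + q] x - p - F^[l] x)) := by
          apply Finset.sum_le_sum_of_subset_of_nonneg (Finset.range_mono hi)
          intro l _ _
          have := h.pos (F^[l] x)
          rw [← Function.iterate_add_apply, add_comm] at this
          have h5 : 0 ≤ F^[l + q] x - p - F^[l] x := by linarith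
          positivity
      _ = E * ∑ l ∈ Finset.range (2 * q'), |w (F^[l] x)| * (F^[l + q] x - p - F^[l] x) := by
          rw [Finset.mul_sum]
          apply Finset.sum_congr rfl
          intro l _
          ring
      _ ≤ E * (κ / (2 * E)) := mul_le_mul_of_nonneg_left hsum2 hEpos.le
      _ = κ / 2 := by field_simp
  have hb1 : D * |v x| ≤ B * (κ / (4 * (1 + E) * B)) := by
    rw [mul_comm]
    exact mul_le_mul (hvB x) (hsm2 x).le hDpos.le hB.le
  have hb2 : D * |v (F^[i] x) * DF F i x| ≤ B * (E * (κ / (4 * (1 + E) * B))) := by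
    rw [abs_mul, abs_of_pos (DF_pos hF i x)]
    have h1 := le_len hF h hi x
    have h2 := hsm2 (F^[i] x)
    rw [← Function.iterate_add_apply, add_comm q i] at h2
    calc D * (|v (F^[i] x)| * DF F i x) = |v (F^[i] x)| * (DF F i x * D) := by ring
      _ ≤ B * (E * (F^[i + q] x - p - F^[i] x)) :=
          mul_le_mul (hvB _) h1 (mul_pos (DF_pos hF _ _) hDpos).le hB.le
      _ ≤ _ := by
          apply mul_le_mul_of_nonneg_left _ hB.le
          exact mul_le_mul_of_nonneg_left h2.le hEpos.le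
  have hb3 : B * (κ / (4 * (1 + E) * B)) + B * (E * (κ / (4 * (1 + E) * B))) = κ / 4 := by
    field_simp
  have habs : |v x - v (F^[i] x) * DF F i x + ∑ l ∈ Finset.range i, w (F^[l] x) * DF F l x| ≤
      |v x| + |v (F^[i] x) * DF F i x| + |∑ l ∈ Finset.range i, w (F^[l] x) * DF F l x| := by
    refine (abs_add_le _ _).trans ?_
    have := abs_sub (v x) (v (F^[i] x) * DF F i x)
    linarith
  calc _ ≤ D * (|v x| + |v (F^[i] x) * DF F i x| +
        |∑ l ∈ Finset.range i, w (F^[l] x) * DF F l x|) := mul_le_mul_of_nonneg_left habs hDpos.le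
    _ ≤ κ := by
      rw [mul_add, mul_add]
      linarith

end Pool.Agent.Helper320.CQ
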