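import Pool.Agent.Helper320.CQBasics
set_option autoImplicit false
open Filter Topology MeasureTheory
namespace Pool.Agent.Helper320.CQ

theorem farey_step (t : ℝ) (ht : Irrational t) (q q' : ℕ) (p p' : ℤ) (hq : 0 < q) (hq' : 0 < q')
    (hb' : 0 < p' - q' * t) (hbb : p' - q' * t < q * t - p) (det : (q : ℤ) * p' - q' * p = 1) :
    ∃ (Q Q' : ℕ) (P P' : ℤ), q + 1 ≤ Q ∧ Q < Q' ∧ 0 < P' - Q' * t ∧
      P' - Q' * t < Q * t - P ∧ (Q : ℤ) * P' - Q' * P = 1 := by
  have hirr : ∀ (Q : ℕ) (P : ℤ), 0 < Q → (Q : ℝ) * t - P ≠ 0 := by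
    intro Q P hQ h
    have h1 : Irrational ((Q : ℝ) * t) := ht.natCast_mul hQ.ne'
    exact h1.ne_int P (by linarith)
  set b : ℝ := q * t - p with hb
  set b' : ℝ := p' - q' * t with hb'd
  set k : ℕ := ⌊b / b'⌋₊ with hk
  have hbpos : 0 < b := hb'.trans hbb
  have hk1 : 1 ≤ k := by
    rw [hk, Nat.one_le_floor_iff, one_le_div hb']
    exact hbb.le
  have hk2 : (k : ℝ) * b' ≤ b := by
    have := Nat.floor_le (div_pos hbpos hb').le
    rwa [← hk, le_div_iff₀ hb'] at this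
  have hk3 : b < (k + 1) * b' := by
    have := Nat.lt_floor_add_one (b / b')
    rwa [← hk, div_lt_iff₀ hb'] at this
  set Q : ℕ := q + k * q' with hQ
  set P : ℤ := p + k * p' with hP
  have hQpos : 0 < Q := by omega
  set B : ℝ := Q * t - P with hB
  have hB1 : B = b - k * b' := by
    rw [hB, hQ, hP, hb, hb'd]; push_cast; ring
  have hB0 : 0 < B := by
    refine lt_of_le_of_ne (by rw [hB1]; linarith) ?_
    exact (hirr Q P hQpos).symm
  have hBb' : B < b' := by rw [hB1]; linarith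
  set l : ℕ := ⌊b' / B⌋₊ with hl
  have hl1 : 1 ≤ l := by
    rw [hl, Nat.one_le_floor_iff, one_le_div hB0]
    exact hBb'.le
  have hl2 : (l : ℝ) * B ≤ b' := by
    have := Nat.floor_le (div_pos hb' hB0).le
    rwa [← hl, le_div_iff₀ hB0] at this
  have hl3 : b' < (l + 1) * B := by
    have := Nat.lt_floor_add_one (b' / B)
    rwa [← hl, div_lt_iff₀ hB0] at this
  have hkq : q' ≤ k * q' := Nat.le_mul_of_pos_left _ hk1
  have hlQ : Q ≤ l * Q := Nat.le_mul_of_pos_left _ hl1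
  have hB' : (((p' + l * P : ℤ)) : ℝ) - ((q' + l * Q : ℕ) : ℝ) * t = b' - l * B := by
    rw [hB, hb'd]; push_cast; ring
  refine ⟨Q, q' + l * Q, P, p' + l * P, by omega, by omega, ?_, ?_, ?_⟩
  · refine lt_of_le_of_ne (by rw [hB']; linarith) ?_
    have := hirr (q' + l * Q) (p' + l * P) (by omega)
    intro h
    apply this
    linarith
  · rw [hB']; linarith
  · rw [hQ, hP]
    push_cast
    linear_combination det

theorem farey_exists (t : ℝ) (ht : Irrational t) (N : ℕ) :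
    ∃ (Q Q' : ℕ) (P P' : ℤ), N ≤ Q ∧ 0 < Q ∧ Q < Q' ∧ 0 < P' - Q' * t ∧
      P' - Q' * t < Q * t - P ∧ (Q : ℤ) * P' - Q' * P = 1 := by
  induction N with
  | zero =>
    have h0 : t - ⌊t⌋ ≠ 0 := fun h => ht.ne_int ⌊t⌋ (by linarith)
    have h1 : 0 < t - ⌊t⌋ := lt_of_le_of_ne (by linarith [Int.floor_le t]) h0.symm
    have h2 : t - ⌊t⌋ < 1 := by linarith [Int.lt_floor_add_one t]
    set b : ℝ := t - ⌊t⌋ with hb
    set k : ℕ := ⌊1 / b⌋₊ with hk
    have hk1 : 1 ≤ k := by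
      rw [hk, Nat.one_le_floor_iff, one_le_div h1]
      exact h2.le
    have hk2 : (k : ℝ) * b ≤ 1 := by
      have := Nat.floor_le (div_pos one_pos h1).le
      rwa [← hk, le_div_iff₀ h1] at this
    have hk3 : 1 < (k + 1) * b := by
      have := Nat.lt_floor_add_one (1 / b)
      rwa [← hk, div_lt_iff₀ h1] at this
    have hB' : (((1 + k * ⌊t⌋ : ℤ)) : ℝ) - (k : ℝ) * t = 1 - k * b := by
      rw [hb]; push_cast; ring
    obtain ⟨Q, Q', P, P', g1, g2, g3, g4, g5⟩ := farey_step t ht 1 k ⌊t⌋ (1 + k * ⌊t⌋)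
      one_pos hk1 (by
        refine lt_of_le_of_ne (by rw [hB']; linarith) ?_
        intro h
        have h3 : Irrational ((k : ℝ) * t) := ht.natCast_mul (by omega)
        exact h3.ne_int (1 + k * ⌊t⌋) (by linarith)) (by
        rw [hB', Nat.cast_one, one_mul, ← hb]; linarith) (by push_cast; ring)
    exact ⟨Q, Q', P, P', by omega, by omega, g2, g3, g4, g5⟩
  | succ N ih =>
    obtain ⟨q, q', p, p', h1, h2, h3, h4, h5, h6⟩ := ih
    obtain ⟨Q, Q', P, P', g1, g2, g3, g4, g5⟩ := farey_step t ht q q' p p' h2 (by omega) h4 h5 h6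
    exact ⟨Q, Q', P, P', by omega, by omega, g2, g3, g4, g5⟩

theorem lt_iter (F : CircleDeg1Lift) (q : ℕ) (p : ℤ)
    (h : (p : ℝ) < q * CircleDeg1Lift.translationNumber F) (x : ℝ) : x < F^[q] x - p := by
  by_contra hx
  have h1 : (F ^ q) x ≤ x + p := by
    rw [CircleDeg1Lift.coe_pow]
    linarith
  have h2 := CircleDeg1Lift.translationNumber_le_of_le_add_int (F ^ q) h1
  rw [CircleDeg1Lift.translationNumber_pow] at h2
  linarith

theorem iter_lt (F : CircleDeg1Lift) (q : ℕ) (p : ℤ)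
    (h : q * CircleDeg1Lift.translationNumber F < (p : ℝ)) (x : ℝ) : F^[q] x - p < x := by
  by_contra hx
  have h1 : x + p ≤ (F ^ q) x := by
    rw [CircleDeg1Lift.coe_pow]
    linarith
  have h2 := CircleDeg1Lift.le_translationNumber_of_add_int_le (F ^ q) h1
  rw [CircleDeg1Lift.translationNumber_pow] at h2
  linarith

theorem exists_GP (F : CircleDeg1Lift) (hc : Continuous F)
    (hirr : Irrational (CircleDeg1Lift.translationNumber F)) (N : ℕ) :
    ∃ (q q' : ℕ) (p p' : ℤ), N ≤ q ∧ GP F q q' p p' := by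
  obtain ⟨q, q', p, p', h1, h2, h3, h4, h5, h6⟩ := farey_exists _ hirr N
  refine ⟨q, q', p, p', h1, h2, h3, ?_, ?_, ?_, h6⟩
  · exact lt_iter F q p (by linarith)
  · exact iter_lt F q' p' (by linarith)
  · intro x
    have := lt_iter F (q + q') (p + p') (by push_cast; linarith) x
    push_cast at this
    exact this

end Pool.Agent.Helper320.CQ
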