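import Pool.Agent.Helper320.CQDist
set_option autoImplicit false
open Filter Topology MeasureTheory
namespace Pool.Agent.Helper320.CQ

theorem small {F : ℝ → ℝ} (hF : Lift F) {ε : ℝ} (hε : 0 < ε) :
    ∃ N : ℕ, ∀ (q q' : ℕ) (p p' : ℤ), N ≤ q → GP F q q' p p' → ∀ x, F^[q] x - p - x < ε := by
  by_contra hcon
  push Not at hcon
  choose q q' p p' hN hGP x hx using hcon
  have hm := hF.strictMono
  -- normalise the base points
  set y : ℕ → ℝ := fun n => Int.fract (x n) with hy
  have hyx : ∀ n, y n = x n - (⌊x n⌋ : ℤ) := fun n => rfl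
  have hyε : ∀ n, ε ≤ F^[q n] (y n) - p n - y n := by
    intro n
    rw [hyx, iter_sub_int hF.per]
    have := hx n
    linarith
  have hy01 : ∀ n, y n ∈ Set.Icc (0:ℝ) 1 := fun n =>
    ⟨Int.fract_nonneg _, (Int.fract_lt_one _).le⟩
  obtain ⟨z, -, φ, hφ, hlim⟩ := (isCompact_Icc (a := (0:ℝ)) (b := 1)).tendsto_subseq hy01
  set a : ℝ := z + ε / 4 with ha
  set b : ℝ := z + ε / 2 with hb
  have hab : a < b := by rw [ha, hb]; linarith
  set l : ℕ → ℝ := fun i => F^[i] b - F^[i] a with hl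
  have hl0 : ∀ i, 0 ≤ l i := fun i => sub_nonneg.2 ((iter_mono hm i).monotone hab.le)
  have hev : ∀ᶠ n in atTop, |y (φ n) - z| < ε / 4 := by
    have := (Metric.tendsto_atTop.1 hlim) (ε / 4) (by linarith)
    obtain ⟨M, hM⟩ := this
    filter_upwards [eventually_ge_atTop M] with n hn
    have := hM n hn
    rwa [Real.dist_eq] at this
  have hsum : ∀ᶠ n in atTop, ∑ i ∈ Finset.range (q' (φ n)), l i ≤ 1 := by
    filter_upwards [hev] with n hn
    rw [abs_lt] at hn
    have h1 := T_up hm hF.per (hGP (φ n)) (W := id) monotone_id (α := 1) (fun _ => rfl) (y (φ n))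
    refine le_trans (Finset.sum_le_sum fun i _ => ?_) h1
    have h2 : F^[i + q (φ n)] (y (φ n)) - p (φ n) = F^[i] (F^[q (φ n)] (y (φ n)) - p (φ n)) := by
      rw [iter_sub_int hF.per, Function.iterate_add_apply]
    show F^[i] b - F^[i] a ≤ (F^[i + q (φ n)] (y (φ n)) - p (φ n)) - F^[i] (y (φ n))
    rw [h2]
    have h3 : F^[i] b ≤ F^[i] (F^[q (φ n)] (y (φ n)) - p (φ n)) := by
      apply (iter_mono hm i).monotone
      have := hyε (φ n)
      rw [hb]
      linarith [hn.1]
    have h4 : F^[i] (y (φ n)) ≤ F^[i] a := by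
      apply (iter_mono hm i).monotone
      rw [ha]
      linarith [hn.2]
    linarith
  have hbig : ∀ m : ℕ, ∀ᶠ n in atTop, m ≤ q' (φ n) := by
    intro m
    filter_upwards [eventually_ge_atTop m] with n hn
    have h1 := hφ.id_le n
    have h2 := hN (φ n)
    have h3 := (hGP (φ n)).lt
    simp only [id] at h1
    omega
  have hsum' : ∀ m : ℕ, ∑ i ∈ Finset.range m, l i ≤ 1 := by
    intro m
    obtain ⟨n, h1, h2⟩ := ((hbig m).and hsum).exists
    refine le_trans (Finset.sum_le_sum_of_subset_of_nonneg ?_ fun i _ _ => hl0 i) h2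
    exact Finset.range_mono h1
  have hsummable : Summable l := summable_of_sum_range_le hl0 hsum'
  have hl_lim := hsummable.tendsto_atTop_zero
  set c : ℝ := Real.exp (-(2 * Vt F)) * (b - a) with hc
  have hc0 : 0 < c := mul_pos (Real.exp_pos _) (sub_pos.2 hab)
  have hlt : ∀ᶠ k in atTop, l k < c := hl_lim.eventually (gt_mem_nhds hc0)
  obtain ⟨K, hK⟩ := eventually_atTop.1 hlt
  obtain ⟨n, hn⟩ := (hbig K).exists
  have h1 := hK _ hn
  obtain ⟨t, -, ht⟩ := exists_hasDerivAt_eq_slope (F^[q' (φ n)]) (DF F (q' (φ n))) hab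
    ((iter_cont hF _).continuousOn) (fun s _ => hasDerivAt_iter hF _ s)
  have h2 : Real.exp (-(2 * Vt F)) ≤ DF F (q' (φ n)) t := by
    have h3 := denjoy hF (hGP (φ n)) t
    rw [abs_le] at h3
    rw [← Real.exp_log (DF_pos hF (q' (φ n)) t)]
    exact Real.exp_le_exp.2 h3.1
  have h4 : c ≤ l (q' (φ n)) := by
    rw [hc]
    have h5 : l (q' (φ n)) = DF F (q' (φ n)) t * (b - a) := by
      rw [ht, div_mul_cancel₀ _ (sub_pos.2 hab).ne']
    rw [h5]
    exact mul_le_mul_of_nonneg_right h2 (sub_pos.2 hab).le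
  linarith

end Pool.Agent.Helper320.CQ
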