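import Pool.Agent.Helper320.CQBasics
set_option autoImplicit false
open Filter Topology MeasureTheory
namespace Pool.Agent.Helper320.CQ

theorem j2_iter_int {F : ℝ → ℝ} (hper : ∀ x, F (x + 1) = F x + 1) (i : ℕ) (x : ℝ) (k : ℤ) :
    F^[i] (x + k) = F^[i] x + k := by
  have h1 : ∀ x : ℝ, F^[i] (x + 1) = F^[i] x + 1 := by
    induction i with
    | zero => intro x; rfl
    | succ m ih =>
      intro x
      rw [Function.iterate_succ_apply, Function.iterate_succ_apply, hper, ih]
  have h2 : ∀ (n : ℕ) (x : ℝ), F^[i] (x + n) = F^[i] x + n := by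
    intro n
    induction n with
    | zero => intro x; simp
    | succ m ih =>
      intro x
      have : x + ((m + 1 : ℕ) : ℝ) = (x + m) + 1 := by push_cast; ring
      rw [this, h1, ih]
      push_cast; ring
  obtain ⟨n, rfl | rfl⟩ := k.eq_nat_or_neg
  · exact_mod_cast h2 n x
  · have h3 := h2 n (x + ((-(n : ℤ) : ℤ) : ℝ))
    have h4 : x + ((-(n : ℤ) : ℤ) : ℝ) + (n : ℝ) = x := by push_cast; ring
    rw [h4] at h3
    rw [h3]
    push_cast; ring

theorem j2_W_int {W : ℝ → ℝ} {α : ℝ} (hWper : ∀ y, W (y + 1) = W y + α) (y : ℝ) (k : ℤ) :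
    W (y + k) = W y + k * α := by
  have h2 : ∀ (n : ℕ) (x : ℝ), W (x + n) = W x + n * α := by
    intro n
    induction n with
    | zero => intro x; simp
    | succ m ih =>
      intro x
      have : x + ((m + 1 : ℕ) : ℝ) = (x + m) + 1 := by push_cast; ring
      rw [this, hWper, ih]
      push_cast; ring
  obtain ⟨n, rfl | rfl⟩ := k.eq_nat_or_neg
  · exact_mod_cast h2 n y
  · have h3 := h2 n (y + ((-(n : ℤ) : ℤ) : ℝ))
    have h4 : y + ((-(n : ℤ) : ℤ) : ℝ) + (n : ℝ) = y := by push_cast; ring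
    rw [h4] at h3
    rw [h3]
    push_cast; ring

theorem j2_W_sub {W : ℝ → ℝ} {α : ℝ} (hWper : ∀ y, W (y + 1) = W y + α) (y : ℝ) (k : ℤ) :
    W (y - k) = W y - k * α := by
  have h := j2_W_int hWper y (-k)
  push_cast at h
  rw [← sub_eq_add_neg] at h
  rw [h]; ring

theorem j2_tele {F : ℝ → ℝ} {q q' : ℕ} {p p' : ℤ} (h : GP F q q' p p') {W : ℝ → ℝ} {α : ℝ}
    (hWper : ∀ y, W (y + 1) = W y + α) (x : ℝ) :
    ∑ i ∈ Finset.range q', (W (F^[i + q] x - p) - W (F^[i] x)) +
    ∑ j ∈ Finset.range q, (W (F^[j] x) - W (F^[j + q'] x - p')) = α := by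
  have hu : ((q : ℝ) * p' - q' * p) = 1 := by exact_mod_cast h.uni
  have e1 : ∑ i ∈ Finset.range (q + q'), W (F^[i] x) =
      ∑ i ∈ Finset.range q, W (F^[i] x) + ∑ i ∈ Finset.range q', W (F^[q + i] x) :=
    Finset.sum_range_add _ q q'
  have e2 : ∑ i ∈ Finset.range (q' + q), W (F^[i] x) =
      ∑ i ∈ Finset.range q', W (F^[i] x) + ∑ i ∈ Finset.range q, W (F^[q' + i] x) :=
    Finset.sum_range_add _ q' q
  rw [add_comm q' q, e1] at e2
  simp only [j2_W_sub hWper, Finset.sum_sub_distrib, Finset.sum_const, Finset.card_range,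
    nsmul_eq_mul]
  have e3 : ∀ i, F^[i + q] x = F^[q + i] x := fun i => by rw [add_comm]
  have e4 : ∀ i, F^[i + q'] x = F^[q' + i] x := fun i => by rw [add_comm]
  simp only [e3, e4]
  linear_combination e2 + α * hu

theorem j2_neg {F : ℝ → ℝ} {q q' : ℕ} {p p' : ℤ} (h : GP F q q' p p') (j : ℕ) (x : ℝ) :
    F^[j + q'] x - p' < F^[j] x := by
  have := h.neg (F^[j] x)
  rwa [← Function.iterate_add_apply, add_comm] at this

theorem j2_pos {F : ℝ → ℝ} {q q' : ℕ} {p p' : ℤ} (h : GP F q q' p p') (j : ℕ) (x : ℝ) :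
    F^[j] x < F^[j + q] x - p := by
  have := h.pos (F^[j] x)
  rwa [← Function.iterate_add_apply, add_comm] at this

theorem j2_add {F : ℝ → ℝ} {q q' : ℕ} {p p' : ℤ} (h : GP F q q' p p') (j : ℕ) (x : ℝ) :
    F^[j] x + p < F^[j + q + q'] x - p' := by
  have := h.add (F^[j] x)
  rw [← Function.iterate_add_apply] at this
  have e : q + q' + j = j + q + q' := by ring
  rw [e] at this
  linarith

theorem T_up {F : ℝ → ℝ} (hm : StrictMono F) (hper : ∀ x, F (x + 1) = F x + 1) {q q' : ℕ}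
    {p p' : ℤ} (h : GP F q q' p p') {W : ℝ → ℝ} (hW : Monotone W) {α : ℝ}
    (hWper : ∀ y, W (y + 1) = W y + α) (x : ℝ) :
    ∑ i ∈ Finset.range q', (W (F^[i + q] x - p) - W (F^[i] x)) ≤ α := by
  have h1 := j2_tele h hWper x
  have h2 : 0 ≤ ∑ j ∈ Finset.range q, (W (F^[j] x) - W (F^[j + q'] x - p')) := by
    apply Finset.sum_nonneg
    intro j _
    exact sub_nonneg.mpr (hW (j2_neg h j x).le)
  linarith

theorem T_low {F : ℝ → ℝ} (hm : StrictMono F) (hper : ∀ x, F (x + 1) = F x + 1) {q q' : ℕ}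
    {p p' : ℤ} (h : GP F q q' p p') {W : ℝ → ℝ} (hW : Monotone W) {α : ℝ}
    (hWper : ∀ y, W (y + 1) = W y + α) (x : ℝ) :
    α ≤ ∑ i ∈ Finset.range (q + q'), (W (F^[i + q] x - p) - W (F^[i] x)) := by
  have h1 := j2_tele h hWper (F^[q] x)
  rw [Finset.sum_range_add]
  have h2 : ∑ j ∈ Finset.range q, (W (F^[j] (F^[q] x)) - W (F^[j + q'] (F^[q] x) - p')) ≤
      ∑ i ∈ Finset.range q, (W (F^[i + q] x - p) - W (F^[i] x)) := by
    apply Finset.sum_le_sum
    intro j _
    rw [← Function.iterate_add_apply, ← Function.iterate_add_apply]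
    have e : j + q' + q = j + q + q' := by ring
    rw [e]
    have h3 := hW (j2_add h j x).le
    rw [j2_W_int hWper] at h3
    rw [j2_W_sub hWper (F^[j + q] x) p]
    linarith
  have h4 : ∑ i ∈ Finset.range q', (W (F^[i + q] (F^[q] x) - p) - W (F^[i] (F^[q] x))) =
      ∑ i ∈ Finset.range q', (W (F^[q + i + q] x - p) - W (F^[q + i] x)) := by
    refine Finset.sum_congr rfl fun i _ => ?_
    rw [← Function.iterate_add_apply, ← Function.iterate_add_apply]
    have e1 : i + q + q = q + i + q := by ring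
    have e2 : i + q = q + i := by ring
    rw [e1, e2]
  rw [h4] at h1
  linarith

theorem T_back {F : ℝ → ℝ} (hm : StrictMono F) (hper : ∀ x, F (x + 1) = F x + 1) {q q' : ℕ}
    {p p' : ℤ} (h : GP F q q' p p') {W : ℝ → ℝ} (hW : Monotone W) {α : ℝ}
    (hWper : ∀ y, W (y + 1) = W y + α) (x : ℝ) :
    ∑ j ∈ Finset.range (q + q'), (W (F^[j] x) - W (F^[j + q'] x - p')) ≤ α := by
  have h1 := j2_tele h hWper x
  rw [Finset.sum_range_add]
  have h2 : ∑ i ∈ Finset.range q', (W (F^[q + i] x) - W (F^[q + i + q'] x - p')) ≤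
      ∑ i ∈ Finset.range q', (W (F^[i + q] x - p) - W (F^[i] x)) := by
    apply Finset.sum_le_sum
    intro i _
    have e1 : q + i + q' = i + q + q' := by ring
    have e2 : q + i = i + q := by ring
    rw [e1, e2]
    have h3 := hW (j2_add h i x).le
    rw [j2_W_int hWper] at h3
    rw [j2_W_sub hWper (F^[i + q] x) p]
    linarith
  linarith

theorem cover {F : ℝ → ℝ} (hm : StrictMono F) (hper : ∀ x, F (x + 1) = F x + 1) {q q' : ℕ}
    {p p' : ℤ} (h : GP F q q' p p') (x y : ℝ) :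
    ∃ a < q + q', ∃ k : ℤ, F^[a] x + k ≤ y ∧ y ≤ F^[a + q] x - p + k := by
  have hne : (Finset.range (q + q')).Nonempty := by
    rw [Finset.nonempty_range_iff]
    have := h.q_pos
    omega
  obtain ⟨a, ha, hmax⟩ := Finset.exists_max_image (Finset.range (q + q'))
    (fun a => F^[a] x + (⌊y - F^[a] x⌋ : ℝ)) hne
  rw [Finset.mem_range] at ha
  set k : ℤ := ⌊y - F^[a] x⌋ with hk
  have hle : F^[a] x + k ≤ y := by
    have := Int.floor_le (y - F^[a] x)
    linarith
  -- a larger point of the family lies above `y`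
  have key : ∀ b < q + q', ∀ m : ℤ, F^[a] x + k < F^[b] x + m → y < F^[b] x + m := by
    intro b hb m hm2
    by_contra hcon
    rw [not_lt] at hcon
    have h1 : m ≤ ⌊y - F^[b] x⌋ := by
      rw [Int.le_floor]
      linarith
    have h2 := hmax b (Finset.mem_range.mpr hb)
    have h3 : (m : ℝ) ≤ (⌊y - F^[b] x⌋ : ℝ) := by exact_mod_cast h1
    linarith
  refine ⟨a, ha, k, hle, ?_⟩
  by_cases haq : a < q'
  · have h1 := j2_pos h a x
    have h2 := key (a + q) (by omega) (k - p) (by push_cast; linarith)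
    push_cast at h2
    linarith
  · rw [not_lt] at haq
    obtain ⟨b, rfl⟩ := Nat.exists_eq_add_of_le haq
    have h1 := j2_neg h b x
    have e1 : b + q' = q' + b := by ring
    rw [e1] at h1
    have h2 := key b (by omega) (k + p') (by push_cast; linarith)
    push_cast at h2
    have h3 := j2_add h b x
    have e2 : b + q + q' = q' + b + q := by ring
    rw [e2] at h3
    linarith

end Pool.Agent.Helper320.CQ
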