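import Mathlib

set_option autoImplicit false

namespace Pool.Agent.Helper320.DJ

open Real Filter Topology

/-- the modulus of continuity `t log (1 + 1/t)` -/
noncomputable def om (t : ℝ) : ℝ := t * Real.log (1 + 1 / t)

theorem om_nonneg {t : ℝ} (ht : 0 ≤ t) : 0 ≤ om t := by
  unfold om
  apply mul_nonneg ht
  apply Real.log_nonneg
  have : 0 ≤ 1 / t := by positivity
  linarith

theorem log_conc {x y : ℝ} (hx : 0 ≤ x) (hxy : x ≤ y) (hy : 0 < y) :
    x / y * Real.log (1 + y) ≤ Real.log (1 + x) := by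
  have ha : 0 ≤ 1 - x / y := by rw [sub_nonneg, div_le_one hy]; exact hxy
  have hb : 0 ≤ x / y := by positivity
  have m1 : (1 : ℝ) ∈ Set.Ioi (0 : ℝ) := by simp
  have m2 : (1 + y) ∈ Set.Ioi (0 : ℝ) := by simp only [Set.mem_Ioi]; linarith
  have h := strictConcaveOn_log_Ioi.concaveOn.2 m1 m2 ha hb (by ring)
  simp only [smul_eq_mul, Real.log_one, mul_zero, zero_add, mul_one] at h
  have h2 : 1 - x / y + x / y * (1 + y) = 1 + x := by
    field_simp
    ring
  rw [h2] at h
  exact h

theorem om_mul_le {c t : ℝ} (hc : 1 ≤ c) (ht : 0 ≤ t) : om (c * t) ≤ c * om t := by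
  unfold om
  rcases eq_or_lt_of_le ht with h | h
  · rw [← h]; simp
  · rw [mul_assoc]
    apply mul_le_mul_of_nonneg_left _ (by linarith)
    apply mul_le_mul_of_nonneg_left _ ht
    apply Real.log_le_log (by positivity)
    have : 1 / (c * t) ≤ 1 / t := by
      apply one_div_le_one_div_of_le h
      nlinarith
    linarith

theorem om_mono {s t : ℝ} (hs : 0 ≤ s) (hst : s ≤ t) : om s ≤ om t := by
  rcases eq_or_lt_of_le hs with h | h
  · rw [← h]
    have : om 0 = 0 := by unfold om; simp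
    rw [this]
    exact om_nonneg (hs.trans hst)
  · have ht : 0 < t := lt_of_lt_of_le h hst
    have h1 := log_conc (x := 1 / t) (y := 1 / s) (by positivity)
      (one_div_le_one_div_of_le h hst) (by positivity)
    unfold om
    have h2 : 1 / t / (1 / s) = s / t := by field_simp
    rw [h2] at h1
    have h3 := mul_le_mul_of_nonneg_left h1 ht.le
    have h4 : t * (s / t * Real.log (1 + 1 / s)) = s * Real.log (1 + 1 / s) := by field_simp
    rw [h4] at h3
    exact h3

theorem om_ge {q D : ℝ} (hq : 1 ≤ q) (hD : 0 ≤ D) :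
    min D (1 / q) * Real.log (1 + q) ≤ om D := by
  have hq0 : 0 < q := by linarith
  rcases eq_or_lt_of_le hD with h | h
  · rw [← h]
    have h1 : min (0 : ℝ) (1 / q) = 0 := min_eq_left (by positivity)
    rw [h1]
    unfold om
    simp
  · have hlq : 0 ≤ Real.log (1 + q) := Real.log_nonneg (by linarith)
    unfold om
    rcases le_total D (1 / q) with h1 | h1
    · rw [min_eq_left h1]
      apply mul_le_mul_of_nonneg_left _ hD
      apply Real.log_le_log (by linarith)
      have : q ≤ 1 / D := by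
        rw [le_div_iff₀ h]
        rw [le_div_iff₀ hq0] at h1
        linarith
      linarith
    · rw [min_eq_right h1]
      have h2 : 1 / D ≤ q := by
        rw [div_le_iff₀ h]
        rw [div_le_iff₀ hq0] at h1
        linarith
      have h3 := log_conc (x := 1 / D) (y := q) (by positivity) h2 hq0
      have h4 := mul_le_mul_of_nonneg_left h3 hD
      have h5 : D * (1 / D / q * Real.log (1 + q)) = 1 / q * Real.log (1 + q) := by field_simp
      rw [h5] at h4
      exact h4

theorem om_le {t : ℝ} (ht : 0 ≤ t) (ht2 : t ≤ 1 / 2) : om t ≤ 2 * |t * Real.log t| := by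
  rcases eq_or_lt_of_le ht with h | h
  · rw [← h]; unfold om; simp
  · have h1 : Real.log t ≤ 0 := Real.log_nonpos ht (by linarith)
    rw [abs_of_nonpos (mul_nonpos_of_nonneg_of_nonpos ht h1)]
    have h2 : Real.log (1 + 1 / t) ≤ 2 * (-Real.log t) := by
      have h3 : 2 * (-Real.log t) = Real.log ((1 / t) ^ 2) := by
        rw [Real.log_pow, one_div, Real.log_inv]
        push_cast
        ring
      rw [h3]
      apply Real.log_le_log (by positivity)
      have h4 : 2 ≤ 1 / t := by
        rw [le_div_iff₀ h]; linarith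
      nlinarith
    unfold om
    nlinarith


/-- stage of the construction -/
structure Good (q : ℕ) (p : ℤ) (A rho E C U : ℝ) (H r r1 r2 : ℝ → ℝ) : Prop where
  qpos : 1 ≤ q
  cop : IsCoprime p (q : ℤ)
  H0 : H 0 = 0
  H1 : ∀ x, H (x + 1) = H x + 1
  rper : ∀ x, r (x + 1) = r x
  dH : ∀ x, HasDerivAt H (Real.exp (r x)) x
  dr : ∀ x, HasDerivAt r (r1 x) x
  dr1 : ∀ x, HasDerivAt r1 (r2 x) x
  b1 : ∀ x, |r1 x| ≤ A * q
  b2 : ∀ x, |r2 x| ≤ A * q ^ 2
  lo : ∀ x, rho ≤ Real.exp (r x)
  up : ∀ x, Real.exp (r x) ≤ E * q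
  md : ∀ x y, |(r (x + p / q) - r x) - (r (y + p / q) - r y)| ≤ C * om |H x - H y|
  ub : ∀ x, |r (x + p / q) - r x| ≤ U

/-- relation between consecutive stages -/
structure Rel (κ : ℝ) (q : ℕ) (p : ℤ) (H r : ℝ → ℝ) (q' : ℕ) (p' : ℤ) (H' r' : ℝ → ℝ) : Prop where
  det : p' * q - p * q' = 1
  ex : ∃ B : ℝ → ℝ, (∀ x, H' x = H (B x)) ∧
    (∀ x, |H' (x + p' / q') - H (B x + p / q)| ≤ κ) ∧
    (∀ x, |(r' (x + p' / q') - r' x) - (r (B x + p / q) - r (B x))| ≤ κ)
  right : H (1 / (16 * q)) ≤ H' (1 / (16 * q'))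
  left : H' (-(1 / (16 * q'))) ≤ H (-(1 / (16 * q)))

end Pool.Agent.Helper320.DJ
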