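import Mathlib
import Pool.Agent.Helper320.DJBasics
set_option autoImplicit false

namespace Pool.Agent.Helper320.DJ

open Real Filter Topology

theorem Hint {H : ℝ → ℝ} (h1 : ∀ x, H (x + 1) = H x + 1) (x : ℝ) (k : ℤ) :
    H (x + k) = H x + k := by
  have hn : ∀ (n : ℕ) x, H (x + n) = H x + n := by
    intro n
    induction n with
    | zero => intro x; simp
    | succ n ih =>
      intro x
      have := h1 (x + n)
      rw [ih] at this
      push_cast
      rw [← add_assoc, this]
      ring
  rcases Int.eq_nat_or_neg k with ⟨n, rfl | rfl⟩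
  · exact_mod_cast hn n x
  · have := hn n (x + ((-(n : ℤ) : ℤ) : ℝ))
    push_cast at this ⊢
    have e : x + -(n : ℝ) + n = x := by ring
    rw [e] at this
    linarith

/-- conjugated rotations -/
theorem conj_map (q : ℕ) (p : ℤ) (A rho E C U : ℝ) (H r r1 r2 : ℝ → ℝ)
    (hg : Good q p A rho E C U H r r1 r2) :
    ∃ F φ K : ℝ → ℝ, (∀ x, K (H x) = x) ∧ (∀ y, H (K y) = y) ∧
      (∀ y, F y = H (K y + p / q)) ∧ (∀ y, φ y = r (K y + p / q) - r (K y)) ∧
      (∀ y, HasDerivAt F (Real.exp (φ y)) y) ∧ (∀ y, F (y + 1) = F y + 1) ∧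
      (∀ y z, |φ y - φ z| ≤ C * om |y - z|) ∧ (∀ y, |φ y| ≤ U) ∧
      (∀ (t : ℕ) y, |F^[t] y - y - t * (p / q)| ≤ 2) ∧
      (∀ (t : ℕ) (k : ℤ), 0 < t → t < q →
        H (1 / (16 * q)) ≤ F^[t] 0 + k ∨ F^[t] 0 + k ≤ H (-(1 / (16 * q)))) := by
  have hd := hg.dH
  have hcont : Continuous H := continuous_iff_continuousAt.2 fun x => (hd x).continuousAt
  have hmono : StrictMono H := by
    apply strictMono_of_deriv_pos
    intro x
    rw [(hd x).deriv]
    exact Real.exp_pos _
  have hZ : ∀ x (k : ℤ), H (x + k) = H x + k := Hint hg.H1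
  have hZ0 : ∀ k : ℤ, H k = k := by
    intro k
    have := hZ 0 k
    simpa [hg.H0] using this
  have hup : ∀ x, H x ≤ x + 1 := by
    intro x
    have h1 : H x ≤ H ((⌊x⌋ + 1 : ℤ) : ℝ) := hmono.monotone (by
      push_cast; exact (Int.lt_floor_add_one x).le)
    rw [hZ0] at h1
    push_cast at h1
    have := Int.floor_le x
    linarith
  have hlo : ∀ x, x - 1 ≤ H x := by
    intro x
    have h1 : H ((⌊x⌋ : ℤ) : ℝ) ≤ H x := hmono.monotone (Int.floor_le x)
    rw [hZ0] at h1
    have := Int.lt_floor_add_one x
    linarith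
  have hsurj : Function.Surjective H := by
    apply hcont.surjective
    · exact tendsto_atTop_mono hlo (tendsto_atTop_add_const_right _ _ tendsto_id)
    · exact tendsto_atBot_mono hup (tendsto_atBot_add_const_right _ _ tendsto_id)
  set e := StrictMono.orderIsoOfSurjective H hmono hsurj with he
  have heH : ∀ x, e x = H x := fun x => rfl
  set K : ℝ → ℝ := fun y => e.symm y with hKdef
  have hKH : ∀ x, K (H x) = x := fun x => by
    simp only [hKdef]; rw [← heH]; exact e.symm_apply_apply x
  have hHK : ∀ y, H (K y) = y := fun y => by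
    simp only [hKdef]; rw [← heH]; exact e.apply_symm_apply y
  have hKc : Continuous K := e.symm.continuous
  have hKd : ∀ y, HasDerivAt K (Real.exp (r (K y)))⁻¹ y := by
    intro y
    apply HasDerivAt.of_local_left_inverse hKc.continuousAt (hd (K y)) (Real.exp_pos _).ne'
    exact Filter.Eventually.of_forall hHK
  have hKb : ∀ y, |K y - y| ≤ 1 := by
    intro y
    have h1 := hup (K y)
    have h2 := hlo (K y)
    rw [hHK] at h1 h2
    rw [abs_le]
    constructor <;> linarith
  have hit : ∀ (t : ℕ) y, (fun y => H (K y + p / q))^[t] y = H (K y + t * (p / q)) := by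
    intro t
    induction t with
    | zero => intro y; simp [hHK]
    | succ t ih =>
      intro y
      rw [Function.iterate_succ_apply', ih, hKH]
      congr 1
      push_cast
      ring
  have hK0 : K 0 = 0 := by
    have := hKH 0
    rwa [hg.H0] at this
  have hqpos : (0 : ℝ) < q := by exact_mod_cast hg.qpos
  refine ⟨fun y => H (K y + p / q), fun y => r (K y + p / q) - r (K y), K, hKH, hHK,
    fun _ => rfl, fun _ => rfl, ?_, ?_, ?_, ?_, ?_, ?_⟩
  · intro y
    have h1 := (hd (K y + p / q)).comp y ((hKd y).add_const ((p : ℝ) / q))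
    rw [Real.exp_sub, div_eq_mul_inv]
    exact h1
  · intro y
    have h1 : K (y + 1) = K y + 1 := by
      apply hmono.injective
      rw [hHK, hg.H1, hHK]
    simp only [h1]
    rw [← hg.H1]
    congr 1
    ring
  · intro y z
    have := hg.md (K y) (K z)
    rwa [hHK, hHK] at this
  · intro y
    exact hg.ub (K y)
  · intro t y
    rw [hit]
    have h1 := hup (K y + t * (p / q))
    have h2 := hlo (K y + t * (p / q))
    have h3 := abs_le.1 (hKb y)
    rw [abs_le]
    constructor <;> linarith [h3.1, h3.2]
  · intro t k ht htq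
    rw [hit, hK0, zero_add]
    have h1 : H (t * (p / q)) + k = H (((t * p + k * q : ℤ) : ℝ) / q) := by
      rw [← hZ]
      congr 1
      push_cast
      field_simp
    rw [h1]
    have hne : (t * p + k * q : ℤ) ≠ 0 := by
      intro h0
      have hdv : (q : ℤ) ∣ t * p := ⟨-k, by linear_combination h0⟩
      have := hg.cop.symm.dvd_of_dvd_mul_right hdv
      have h2 := Int.le_of_dvd (by exact_mod_cast ht) this
      omega
    rcases lt_or_gt_of_ne hne with hn | hn
    · right
      apply hmono.monotone
      have : ((t * p + k * q : ℤ) : ℝ) ≤ -1 := by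
        have : (t * p + k * q : ℤ) ≤ -1 := by omega
        exact_mod_cast this
      rw [div_le_iff₀ hqpos]
      have e1 : -(1 / (16 * (q : ℝ))) * q = -(1/16) := by field_simp
      rw [e1]
      linarith
    · left
      apply hmono.monotone
      have : (1 : ℝ) ≤ ((t * p + k * q : ℤ) : ℝ) := by
        have : (1 : ℤ) ≤ (t * p + k * q : ℤ) := by omega
        exact_mod_cast this
      rw [le_div_iff₀ hqpos]
      have e1 : (1 / (16 * (q : ℝ))) * q = (1/16) := by field_simp
      rw [e1]
      linarith

end Pool.Agent.Helper320.DJ
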