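import Mathlib

set_option autoImplicit false

namespace Pool.Agent.Helper320.DJ

open Real Filter Topology

theorem alpha_irr (q : ℕ → ℕ) (p : ℕ → ℤ) (hq0 : 1 ≤ q 0)
    (hbig : ∀ n, 2 * q n ≤ q (n + 1))
    (hdet : ∀ n, p (n + 1) * q n - p n * q (n + 1) = 1) :
    ∃ α : ℝ, Irrational α ∧ Tendsto (fun n => (p n : ℝ) / q n) atTop (𝓝 α) := by
  have hq2 : ∀ n, 2 ^ n ≤ q n := by
    intro n
    induction n with
    | zero => simpa using hq0
    | succ n ih =>
      have := hbig n
      rw [pow_succ]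
      omega
  have hq1 : ∀ n, 1 ≤ q n := fun n => le_trans Nat.one_le_two_pow (hq2 n)
  have hqR : ∀ n, (1 : ℝ) ≤ q n := fun n => by exact_mod_cast hq1 n
  have hqp : ∀ n, (0 : ℝ) < q n := fun n => lt_of_lt_of_le one_pos (hqR n)
  have hstep : ∀ n, (p (n + 1) : ℝ) / q (n + 1) - (p n : ℝ) / q n = 1 / (q n * q (n + 1)) := by
    intro n
    have h1 := (hqp n).ne'
    have h2 := (hqp (n + 1)).ne'
    have h3 : (p (n + 1) : ℝ) * q n - p n * q (n + 1) = 1 := by exact_mod_cast hdet n
    field_simp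
    linarith
  have htp : ∀ n, (0 : ℝ) < 1 / (q n * q (n + 1)) := fun n =>
    one_div_pos.2 (mul_pos (hqp n) (hqp (n + 1)))
  have htt : ∀ n, (1 : ℝ) / (q (n + 1) * q (n + 2)) ≤ (1 / (q n * q (n + 1))) / 2 := by
    intro n
    rw [div_div]
    apply one_div_le_one_div_of_le
    · exact mul_pos (mul_pos (hqp n) (hqp (n + 1))) two_pos
    · have h1 : (2 : ℝ) * q n ≤ q (n + 1) := by exact_mod_cast hbig n
      have h2 : (2 : ℝ) * q (n + 1) ≤ q (n + 2) := by exact_mod_cast hbig (n + 1)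
      have h3 := hqp n
      have h4 := hqp (n + 1)
      have h5 : (q n : ℝ) * q (n + 1) * 2 ≤ q (n + 1) * q (n + 1) := by nlinarith
      have h6 : (q (n + 1) : ℝ) ≤ q (n + 2) := by linarith
      calc (q n : ℝ) * q (n + 1) * 2 ≤ q (n + 1) * q (n + 1) := h5
        _ ≤ q (n + 1) * q (n + 2) := mul_le_mul_of_nonneg_left h6 h4.le
  set x : ℕ → ℝ := fun n => (p n : ℝ) / q n with hx
  set t : ℕ → ℝ := fun n => 1 / (q n * q (n + 1)) with ht
  have hxs : ∀ n, x (n + 1) = x n + t n := by
    intro n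
    have := hstep n
    simp only [hx, ht]
    linarith
  have hts : ∀ n, t (n + 1) ≤ t n / 2 := htt
  have htpos : ∀ n, 0 < t n := htp
  have hxmono : Monotone x := monotone_nat_of_le_succ (fun n => by
    rw [hxs]; linarith [htpos n])
  have hyanti : Antitone (fun n => x n + 2 * t n) := antitone_nat_of_succ_le (fun n => by
    show x (n + 1) + 2 * t (n + 1) ≤ x n + 2 * t n
    rw [hxs]
    linarith [hts n, htpos n])
  have hxy : ∀ m n, x m ≤ x n + 2 * t n := by
    intro m n
    have h1 : x m ≤ x (max m n) := hxmono (le_max_left _ _)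
    have h2 : x (max m n) + 2 * t (max m n) ≤ x n + 2 * t n := hyanti (le_max_right m n)
    linarith [htpos (max m n)]
  have hbdd : BddAbove (Set.range x) := ⟨x 0 + 2 * t 0, by
    rintro _ ⟨m, rfl⟩
    exact hxy m 0⟩
  have hlim : Tendsto x atTop (𝓝 (⨆ n, x n)) := tendsto_atTop_ciSup hxmono hbdd
  refine ⟨⨆ n, x n, ?_, hlim⟩
  set α := ⨆ n, x n with hα
  have hlow : ∀ n, x n < α := by
    intro n
    have h1 : x (n + 1) ≤ α := le_ciSup hbdd (n + 1)
    rw [hxs] at h1
    linarith [htpos n]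
  have hup : ∀ n, α ≤ x n + 2 * t n := fun n => ciSup_le (fun m => hxy m n)
  rintro ⟨r, hr⟩
  have hb : (0 : ℝ) < r.den := by exact_mod_cast r.den_pos
  have hrr : α = (r.num : ℝ) / r.den := by
    rw [← hr, Rat.cast_def]
  have key : ∀ n, q (n + 1) ≤ 2 * r.den := by
    intro n
    have h1 := hlow n
    have h2 := hup n
    have hqn := hqp n
    have hqn1 := hqp (n + 1)
    have h3 : (0 : ℝ) < r.num * q n - r.den * p n := by
      have h4 : (p n : ℝ) / q n < (r.num : ℝ) / r.den := by rw [← hrr]; exact h1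
      rw [div_lt_div_iff₀ hqn hb] at h4
      linarith
    have h5 : (1 : ℝ) ≤ r.num * q n - r.den * p n := by
      have h6 : (0 : ℤ) < r.num * q n - r.den * p n := by exact_mod_cast h3
      have h7 : (1 : ℤ) ≤ r.num * q n - r.den * p n := h6
      exact_mod_cast h7
    have h8 : α - x n = (r.num * q n - r.den * p n) / (r.den * q n) := by
      rw [hrr]
      show (r.num : ℝ) / r.den - (p n : ℝ) / q n = _
      field_simp
    have h9 : (1 : ℝ) / (r.den * q n) ≤ α - x n := by
      rw [h8]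
      exact div_le_div_of_nonneg_right h5 (mul_pos hb hqn).le
    have h10 : (1 : ℝ) / (r.den * q n) ≤ 2 * (1 / (q n * q (n + 1))) := by
      have : α - x n ≤ 2 * t n := by linarith
      exact h9.trans this
    have h11 : (2 : ℝ) * (1 / (q n * q (n + 1))) = 2 / (q n * q (n + 1)) := by ring
    rw [h11, div_le_div_iff₀ (mul_pos hb hqn) (mul_pos hqn hqn1)] at h10
    have h12 : (q (n + 1) : ℝ) ≤ 2 * r.den := by
      have h13 : (q n : ℝ) * q (n + 1) ≤ q n * (2 * r.den) := by linarith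
      exact le_of_mul_le_mul_left h13 hqn
    exact_mod_cast h12
  have h1 := key (2 * r.den)
  have h2 := hq2 (2 * r.den + 1)
  have h3 : 2 * r.den + 1 < 2 ^ (2 * r.den + 1) := Nat.lt_two_pow_self
  omega

end Pool.Agent.Helper320.DJ
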