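import Mathlib
import Pool.Agent.Helper320.DJBasics
set_option autoImplicit false

namespace Pool.Agent.Helper320.DJ

open Real Filter Topology

theorem cauchy_lim (f : ℕ → ℝ → ℝ) (h : ∀ n y, |f (n + 1) y - f n y| ≤ (1 / 2) ^ (n + 3)) :
    ∃ g : ℝ → ℝ, (∀ y, Tendsto (fun n => f n y) atTop (𝓝 (g y))) ∧
      ∀ n y, |f n y - g y| ≤ (1 / 4) / 2 ^ n := by
  have hd : ∀ y n, dist (f n y) (f (n + 1) y) ≤ (1 / 4) / 2 / 2 ^ n := by
    intro y n
    rw [dist_comm, Real.dist_eq]
    refine (h n y).trans (le_of_eq ?_)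
    rw [pow_add, one_div_pow]
    ring
  have hc : ∀ y, ∃ a, Tendsto (fun n => f n y) atTop (𝓝 a) := fun y =>
    cauchySeq_tendsto_of_complete (cauchySeq_of_le_geometric_two (fun n => hd y n))
  choose g hg using hc
  refine ⟨g, hg, fun n y => ?_⟩
  have := dist_le_of_le_geometric_two_of_tendsto (fun n => hd y n) (hg y) n
  rwa [Real.dist_eq] at this

theorem exp_lip {a b : ℝ} (ha : a ≤ 1) (hb : b ≤ 1) :
    |Real.exp a - Real.exp b| ≤ Real.exp 1 * |a - b| := by
  have key : ∀ a b : ℝ, a ≤ 1 → Real.exp a - Real.exp b ≤ Real.exp 1 * |a - b| := by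
    intro a b ha
    have h1 := Real.add_one_le_exp (b - a)
    have h2 : Real.exp b = Real.exp a * Real.exp (b - a) := by
      rw [← Real.exp_add]
      congr 1
      ring
    have h3 : Real.exp a - Real.exp b ≤ Real.exp a * (a - b) := by
      rw [h2]
      nlinarith [Real.exp_pos a]
    have h4 : Real.exp a ≤ Real.exp 1 := Real.exp_le_exp.2 ha
    calc Real.exp a - Real.exp b ≤ Real.exp a * (a - b) := h3
      _ ≤ Real.exp a * |a - b| := by gcongr; exact le_abs_self _
      _ ≤ Real.exp 1 * |a - b| := by gcongr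
  rw [abs_sub_le_iff]
  refine ⟨key a b ha, ?_⟩
  rw [abs_sub_comm]
  exact key b a hb

theorem tendsto_quarter : Tendsto (fun n : ℕ => (1 / 4 : ℝ) / 2 ^ n) atTop (𝓝 0) := by
  have := (tendsto_pow_atTop_nhds_zero_of_lt_one (r := (1 / 2 : ℝ)) (by norm_num) (by norm_num)).const_mul (1 / 4 : ℝ)
  rw [mul_zero] at this
  refine this.congr fun n => ?_
  rw [one_div_pow]
  ring

/-- limit lemma -/
theorem limit_map (F φ : ℕ → ℝ → ℝ)
    (hd : ∀ n y, HasDerivAt (F n) (Real.exp (φ n y)) y)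
    (hper : ∀ n y, F n (y + 1) = F n y + 1)
    (hmod : ∀ n y z, |φ n y - φ n z| ≤ om |y - z|)
    (hb : ∀ n y, |φ n y| ≤ 1)
    (hF : ∀ n y, |F (n + 1) y - F n y| ≤ (1 / 2) ^ (n + 3))
    (hφ : ∀ n y, |φ (n + 1) y - φ n y| ≤ (1 / 2) ^ (n + 3)) :
    ∃ G : ℝ → ℝ, ContDiff ℝ 1 G ∧ (∀ x, 0 < deriv G x) ∧ (∀ x, G (x + 1) = G x + 1) ∧
      (∃ C δ : ℝ, 0 < δ ∧ ∀ x y : ℝ, abs (x - y) < δ →
        abs (deriv G x - deriv G y) ≤ C * abs ((x - y) * Real.log (abs (x - y)))) ∧
      (∀ (t : ℕ) (y : ℝ), Tendsto (fun n => (F n)^[t] y) atTop (𝓝 (G^[t] y))) := by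
  obtain ⟨G, hG, hG2⟩ := cauchy_lim F hF
  obtain ⟨ψ, hψ, hψ2⟩ := cauchy_lim φ hφ
  have hψb : ∀ y, |ψ y| ≤ 1 := fun y =>
    le_of_tendsto (hψ y).abs (Eventually.of_forall fun n => hb n y)
  have hψm : ∀ y z, |ψ y - ψ z| ≤ om |y - z| := fun y z =>
    le_of_tendsto ((hψ y).sub (hψ z)).abs (Eventually.of_forall fun n => hmod n y z)
  have hle : ∀ y, ψ y ≤ 1 := fun y => (abs_le.1 (hψb y)).2
  have hle' : ∀ n y, φ n y ≤ 1 := fun n y => (abs_le.1 (hb n y)).2
  have hunif : TendstoUniformly (fun n y => Real.exp (φ n y)) (fun y => Real.exp (ψ y)) atTop := by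
    rw [Metric.tendstoUniformly_iff]
    intro ε hε
    have h1 := tendsto_quarter.const_mul (Real.exp 1)
    rw [mul_zero] at h1
    filter_upwards [h1.eventually (gt_mem_nhds hε)] with n hn y
    rw [dist_comm, Real.dist_eq]
    calc |Real.exp (φ n y) - Real.exp (ψ y)| ≤ Real.exp 1 * |φ n y - ψ y| := exp_lip (hle' n y) (hle y)
      _ ≤ Real.exp 1 * ((1 / 4) / 2 ^ n) := by gcongr; exact hψ2 n y
      _ < ε := hn
  have hderiv : ∀ y, HasDerivAt G (Real.exp (ψ y)) y := fun y =>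
    hasDerivAt_of_tendstoUniformly hunif (Eventually.of_forall fun n y => hd n y) hG y
  have hder : deriv G = fun y => Real.exp (ψ y) := funext fun y => (hderiv y).deriv
  have hcont : Continuous ψ := by
    rw [continuous_iff_continuousAt]
    intro y
    rw [Metric.continuousAt_iff]
    intro ε hε
    have h1 : Tendsto (fun t : ℝ => 2 * |t * Real.log t|) (𝓝 0) (𝓝 0) := by
      have := (Real.continuous_mul_log.abs.const_mul 2).tendsto (0 : ℝ)
      simpa using this
    obtain ⟨δ, hδ, hδ2⟩ := Metric.eventually_nhds_iff.1 (h1.eventually (gt_mem_nhds hε))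
    refine ⟨min δ (1 / 2), lt_min hδ (by norm_num), fun z hz => ?_⟩
    rw [Real.dist_eq] at hz ⊢
    have hz1 : |z - y| < δ := lt_of_lt_of_le hz (min_le_left _ _)
    have hz2 : |z - y| ≤ 1 / 2 := (lt_of_lt_of_le hz (min_le_right _ _)).le
    refine lt_of_le_of_lt (hψm z y) (lt_of_le_of_lt (om_le (abs_nonneg _) hz2) ?_)
    exact hδ2 (by rw [Real.dist_eq, sub_zero, abs_abs]; exact hz1)
  have hGc : Continuous G := continuous_iff_continuousAt.2 fun y => (hderiv y).continuousAt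
  refine ⟨G, ?_, ?_, ?_, ?_, ?_⟩
  · rw [contDiff_one_iff_deriv]
    refine ⟨fun y => (hderiv y).differentiableAt, ?_⟩
    rw [hder]
    exact Real.continuous_exp.comp hcont
  · intro x
    rw [hder]
    exact Real.exp_pos _
  · intro x
    refine tendsto_nhds_unique (hG (x + 1)) ?_
    refine ((hG x).add_const 1).congr fun n => ?_
    rw [hper]
  · refine ⟨2 * Real.exp 1, 1 / 2, by norm_num, fun x y hxy => ?_⟩
    rw [hder]
    calc |Real.exp (ψ x) - Real.exp (ψ y)| ≤ Real.exp 1 * |ψ x - ψ y| := exp_lip (hle x) (hle y)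
      _ ≤ Real.exp 1 * (2 * |(|x - y|) * Real.log (|x - y|)|) := by
          gcongr
          exact (hψm x y).trans (om_le (abs_nonneg _) hxy.le)
      _ = 2 * Real.exp 1 * abs ((x - y) * Real.log (abs (x - y))) := by
          rw [abs_mul, abs_abs, abs_mul]
          ring
  · intro t y
    induction t with
    | zero => simp
    | succ t ih =>
      simp only [Function.iterate_succ_apply']
      have h1 : Tendsto (fun n => G ((F n)^[t] y)) atTop (𝓝 (G (G^[t] y))) :=
        (hGc.tendsto _).comp ih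
      have h2 : Tendsto (fun n => F n ((F n)^[t] y) - G ((F n)^[t] y)) atTop (𝓝 0) :=
        squeeze_zero_norm (fun n => by rw [Real.norm_eq_abs]; exact hG2 n _) tendsto_quarter
      have h3 := h2.add h1
      simpa using h3

end Pool.Agent.Helper320.DJ
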