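import Mathlib

set_option autoImplicit false

namespace Pool.Agent.Helper320.DJ

open Real Filter Topology

noncomputable def pS (x : ℝ) : ℝ := Real.sin (2 * π * x)
noncomputable def pC (x : ℝ) : ℝ := Real.cos (2 * π * x)
noncomputable def pM (A x : ℝ) : ℝ := (A ^ 2 + 1) - (A ^ 2 - 1) * pC x
noncomputable def pN (A x : ℝ) : ℝ := (A + 1) - (A - 1) * pC x
noncomputable def pU (A x : ℝ) : ℝ := (A - 1) * pS x / pN A x
noncomputable def pBeta (A x : ℝ) : ℝ := x + (1 / (2 * π)) * Real.arctan (pU A x)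
noncomputable def pB (A x : ℝ) : ℝ := 1 / 2 + A / pM A x
noncomputable def pK (A : ℝ) : ℝ := 4 * π * A * (A ^ 2 - 1)
noncomputable def pQ (A x : ℝ) : ℝ := pM A x * (pM A x + 2 * A)
noncomputable def pL (A x : ℝ) : ℝ := -(pK A * pS x) / pQ A x
noncomputable def pMm (A x : ℝ) : ℝ :=
  (-(pK A * (2 * π * pC x)) * pQ A x - -(pK A * pS x) *
    ((A ^ 2 - 1) * (2 * π * pS x) * (pM A x + 2 * A) + pM A x * ((A ^ 2 - 1) * (2 * π * pS x)))) /
    (pQ A x) ^ 2

theorem pSC (x : ℝ) : pS x ^ 2 + pC x ^ 2 = 1 := Real.sin_sq_add_cos_sq _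

theorem pC_le (x : ℝ) : pC x ≤ 1 := Real.cos_le_one _
theorem pC_ge (x : ℝ) : -1 ≤ pC x := Real.neg_one_le_cos _

theorem pS_der (x : ℝ) : HasDerivAt pS (2 * π * pC x) x := by
  have h1 : HasDerivAt (fun y : ℝ => 2 * π * y) (2 * π) x := by
    simpa using (hasDerivAt_id x).const_mul (2 * π)
  have h2 := h1.sin
  unfold pC
  rw [mul_comm]
  exact h2

theorem pC_der (x : ℝ) : HasDerivAt pC (-(2 * π * pS x)) x := by
  have h1 : HasDerivAt (fun y : ℝ => 2 * π * y) (2 * π) x := by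
    simpa using (hasDerivAt_id x).const_mul (2 * π)
  have h2 := h1.cos
  unfold pS
  have e : -(2 * π * Real.sin (2 * π * x)) = -Real.sin (2 * π * x) * (2 * π) := by ring
  rw [e]
  exact h2

theorem pM_der (A x : ℝ) : HasDerivAt (pM A) ((A ^ 2 - 1) * (2 * π * pS x)) x := by
  have h := ((pC_der x).const_mul (A ^ 2 - 1)).const_sub (A ^ 2 + 1)
  have e : (A ^ 2 - 1) * (2 * π * pS x) = -((A ^ 2 - 1) * -(2 * π * pS x)) := by ring
  rw [e]
  exact h

theorem pN_der (A x : ℝ) : HasDerivAt (pN A) ((A - 1) * (2 * π * pS x)) x := by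
  have h := ((pC_der x).const_mul (A - 1)).const_sub (A + 1)
  have e : (A - 1) * (2 * π * pS x) = -((A - 1) * -(2 * π * pS x)) := by ring
  rw [e]
  exact h

theorem pM_ge {A : ℝ} (hA : 1 ≤ A) (x : ℝ) : 2 ≤ pM A x := by
  unfold pM
  have h1 := pC_le x
  nlinarith [mul_nonneg (show (0:ℝ) ≤ A ^ 2 - 1 by nlinarith) (show 0 ≤ 1 - pC x by linarith)]

theorem pN_ge {A : ℝ} (hA : 1 ≤ A) (x : ℝ) : 2 ≤ pN A x := by
  unfold pN
  have h1 := pC_le x
  nlinarith [mul_nonneg (show (0:ℝ) ≤ A - 1 by linarith) (show 0 ≤ 1 - pC x by linarith)]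

theorem pBeta_der {A : ℝ} (hA : 1 ≤ A) (x : ℝ) : HasDerivAt (pBeta A) (pB A x) x := by
  have hN := pN_ge hA x
  have hM := pM_ge hA x
  have hN0 : pN A x ≠ 0 := by linarith
  have hM0 : pM A x ≠ 0 := by linarith
  have h1 : HasDerivAt (pU A) (((A - 1) * (2 * π * pC x) * pN A x -
      (A - 1) * pS x * ((A - 1) * (2 * π * pS x))) / (pN A x) ^ 2) x :=
    ((pS_der x).const_mul (A - 1)).div (pN_der A x) hN0
  have h2 := (hasDerivAt_id x).add (h1.arctan.const_mul (1 / (2 * π)))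
  refine HasDerivAt.congr_deriv h2 ?_
  have hsc := pSC x
  have hkey : (pN A x) ^ 2 + ((A - 1) * pS x) ^ 2 = 2 * pM A x := by
    unfold pN pM
    linear_combination (A - 1) ^ 2 * hsc
  have hpos : (pN A x) ^ 2 + ((A - 1) * pS x) ^ 2 ≠ 0 := by
    rw [hkey]; linarith
  have h3 : 1 / (1 + pU A x ^ 2) = (pN A x) ^ 2 / (2 * pM A x) := by
    rw [← hkey]
    unfold pU
    field_simp
  rw [h3]
  have hpi : (π : ℝ) ≠ 0 := Real.pi_ne_zero
  unfold pB
  have h4 : (A - 1) * (2 * π * pC x) * pN A x - (A - 1) * pS x * ((A - 1) * (2 * π * pS x)) =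
      2 * π * ((A ^ 2 - 1) * pC x - (A - 1) ^ 2) := by
    unfold pN
    linear_combination (-(2 * π * (A - 1) ^ 2)) * hsc
  rw [h4]
  have h5 : (A ^ 2 - 1) * pC x = (A ^ 2 + 1) - pM A x := by unfold pM; ring
  rw [h5]
  field_simp
  ring

theorem pB_der {A : ℝ} (hA : 1 ≤ A) (x : ℝ) :
    HasDerivAt (pB A) (-(A * ((A ^ 2 - 1) * (2 * π * pS x))) / (pM A x) ^ 2) x := by
  have hM := pM_ge hA x
  have hM0 : pM A x ≠ 0 := by linarith
  have h1 := ((hasDerivAt_const x A).div (pM_der A x) hM0).const_add (1 / 2)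
  refine HasDerivAt.congr_deriv h1 ?_
  congr 1
  ring

theorem pB_ge {A : ℝ} (hA : 1 ≤ A) (x : ℝ) : 1 / 2 ≤ pB A x := by
  have hM := pM_ge hA x
  unfold pB
  have : 0 ≤ A / pM A x := by positivity
  linarith

theorem pB_le {A : ℝ} (hA : 1 ≤ A) (x : ℝ) : pB A x ≤ A := by
  have hM := pM_ge hA x
  unfold pB
  have : A / pM A x ≤ A / 2 := by
    apply div_le_div_of_nonneg_left (by linarith) (by norm_num) hM
  linarith

theorem pL_der1 {A : ℝ} (hA : 1 ≤ A) (x : ℝ) :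
    HasDerivAt (fun y => Real.log (pB A y)) (pL A x) x := by
  have hM := pM_ge hA x
  have hM0 : pM A x ≠ 0 := by linarith
  have hB := pB_ge hA x
  have h1 := (pB_der hA x).log (by linarith : pB A x ≠ 0)
  refine HasDerivAt.congr_deriv h1 ?_
  have hB2 : pB A x = (pM A x + 2 * A) / (2 * pM A x) := by
    unfold pB
    field_simp
  have hMA : pM A x + 2 * A ≠ 0 := by
    have : 0 < pM A x + 2 * A := by linarith
    exact this.ne'
  rw [hB2]
  unfold pL pQ pK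
  field_simp
  ring

theorem pQ_pos {A : ℝ} (hA : 1 ≤ A) (x : ℝ) : 0 < pQ A x := by
  have hM := pM_ge hA x
  unfold pQ
  positivity

theorem pL_der2 {A : ℝ} (hA : 1 ≤ A) (x : ℝ) : HasDerivAt (pL A) (pMm A x) x := by
  have hQ := pQ_pos hA x
  have h1 : HasDerivAt (fun y => pM A y + 2 * A) ((A ^ 2 - 1) * (2 * π * pS x)) x :=
    (pM_der A x).add_const _
  have h2 : HasDerivAt (pQ A) ((A ^ 2 - 1) * (2 * π * pS x) * (pM A x + 2 * A) +
      pM A x * ((A ^ 2 - 1) * (2 * π * pS x))) x := (pM_der A x).mul h1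
  have h3 : HasDerivAt (fun y => -(pK A * pS y)) (-(pK A * (2 * π * pC x))) x :=
    ((pS_der x).const_mul (pK A)).neg
  exact h3.div h2 hQ.ne'

/-- key estimate: `(A^2-1)^2 s^2 ≤ 2 A^2 (M - 2)` -/
theorem key_est {A : ℝ} (hA : 1 ≤ A) (x : ℝ) :
    ((A ^ 2 - 1) * pS x) ^ 2 ≤ 2 * A ^ 2 * (pM A x - 2) := by
  have h1 := pC_le x
  have h2 := pC_ge x
  have hsc := pSC x
  have hs : pS x ^ 2 = (1 - pC x) * (1 + pC x) := by linear_combination hsc
  have hM : pM A x - 2 = (A ^ 2 - 1) * (1 - pC x) := by unfold pM; ring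
  rw [mul_pow, hs, hM]
  have hA2 : 0 ≤ A ^ 2 - 1 := by nlinarith
  have h3 : 0 ≤ (A ^ 2 - 1) * (1 - pC x) := mul_nonneg hA2 (by linarith)
  have h4 : (A ^ 2 - 1) * (1 + pC x) ≤ 2 * A ^ 2 := by nlinarith
  calc (A ^ 2 - 1) ^ 2 * ((1 - pC x) * (1 + pC x)) =
      ((A ^ 2 - 1) * (1 - pC x)) * ((A ^ 2 - 1) * (1 + pC x)) := by ring
    _ ≤ ((A ^ 2 - 1) * (1 - pC x)) * (2 * A ^ 2) := mul_le_mul_of_nonneg_left h4 h3
    _ = 2 * A ^ 2 * ((A ^ 2 - 1) * (1 - pC x)) := by ring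

theorem abs_As_le {A : ℝ} (hA : 1 ≤ A) (x : ℝ) : (A ^ 2 - 1) * |pS x| ≤ A * pM A x := by
  have h := key_est hA x
  have hM := pM_ge hA x
  have hA2 : 0 ≤ A ^ 2 - 1 := by nlinarith
  have h1 : ((A ^ 2 - 1) * |pS x|) ^ 2 ≤ (A * pM A x) ^ 2 := by
    rw [mul_pow, sq_abs, ← mul_pow]
    refine h.trans ?_
    have : 2 * (pM A x - 2) ≤ (pM A x) ^ 2 := by nlinarith [sq_nonneg (pM A x - 1)]
    calc 2 * A ^ 2 * (pM A x - 2) = A ^ 2 * (2 * (pM A x - 2)) := by ring
      _ ≤ A ^ 2 * (pM A x) ^ 2 := mul_le_mul_of_nonneg_left this (sq_nonneg _)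
      _ = (A * pM A x) ^ 2 := by ring
  exact le_of_sq_le_sq h1 (by positivity)

theorem pL_bound {A : ℝ} (hA : 1 ≤ A) (x : ℝ) : |pL A x| ≤ 8 * A := by
  have hM := pM_ge hA x
  have hQ := pQ_pos hA x
  have hpi : π ≤ 4 := Real.pi_le_four
  have hpi0 := Real.pi_pos
  unfold pL
  rw [abs_div, abs_neg, abs_of_pos hQ, div_le_iff₀ hQ, abs_mul]
  have hA2 : 0 ≤ A ^ 2 - 1 := by nlinarith
  have hK : 0 ≤ pK A := by unfold pK; positivity
  rw [abs_of_nonneg hK]
  have h1 := abs_As_le hA x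
  have h2 : pK A * |pS x| = 4 * π * A * ((A ^ 2 - 1) * |pS x|) := by unfold pK; ring
  rw [h2]
  calc 4 * π * A * ((A ^ 2 - 1) * |pS x|) ≤ 4 * 4 * A * (A * pM A x) := by gcongr
    _ = 8 * A * (pM A x * (2 * A)) := by ring
    _ ≤ 8 * A * pQ A x := by
      unfold pQ
      gcongr
      linarith

theorem pMm_bound {A : ℝ} (hA : 1 ≤ A) (x : ℝ) : |pMm A x| ≤ 320 * A * pB A x := by
  have hM := pM_ge hA x
  have hQ := pQ_pos hA x
  have hpi : π ≤ 4 := Real.pi_le_four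
  have hpi0 := Real.pi_pos
  have hA2 : 0 ≤ A ^ 2 - 1 := by nlinarith
  have hK : 0 ≤ pK A := by unfold pK; positivity
  have hM0 : pM A x ≠ 0 := by linarith
  have hMA : 0 < pM A x + 2 * A := by linarith
  have hB2 : pB A x = (pM A x + 2 * A) / (2 * pM A x) := by
    unfold pB
    field_simp
  have hsplit : pMm A x = -(2 * π * pK A * pC x / pQ A x) +
      4 * π * pK A * (A ^ 2 - 1) * pS x ^ 2 * (pM A x + A) / (pQ A x) ^ 2 := by
    unfold pMm
    have hQ0 := hQ.ne'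
    field_simp
    ring
  rw [hsplit]
  refine (abs_add_le _ _).trans ?_
  have hpi2 : π ^ 2 ≤ 10 := by
    have := Real.pi_lt_d2
    nlinarith
  -- first term
  have t1 : |(-(2 * π * pK A * pC x / pQ A x))| ≤ 40 * A * pB A x := by
    rw [abs_neg, abs_div, abs_of_pos hQ, div_le_iff₀ hQ, abs_mul,
      abs_of_nonneg (by positivity : (0:ℝ) ≤ 2 * π * pK A)]
    have hc : |pC x| ≤ 1 := abs_le.2 ⟨pC_ge x, pC_le x⟩
    have e1 : 40 * A * pB A x * pQ A x = 20 * A * (pM A x + 2 * A) ^ 2 := by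
      rw [hB2]; unfold pQ; field_simp; ring
    rw [e1]
    calc 2 * π * pK A * |pC x| ≤ 2 * π * pK A * 1 := by gcongr
      _ = 8 * π ^ 2 * (A * (A ^ 2 - 1)) := by unfold pK; ring
      _ ≤ 8 * 10 * (A * (A ^ 2)) := by
        have : A * (A ^ 2 - 1) ≤ A * A ^ 2 := by nlinarith
        have h0 : 0 ≤ A * (A ^ 2 - 1) := by positivity
        nlinarith
      _ = 20 * A * (2 * A) ^ 2 := by ring
      _ ≤ 20 * A * (pM A x + 2 * A) ^ 2 := by
        gcongr
        linarith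
  have t2 : |4 * π * pK A * (A ^ 2 - 1) * pS x ^ 2 * (pM A x + A) / (pQ A x) ^ 2| ≤
      160 * A * pB A x := by
    have hMA2 : 0 < pM A x + A := by linarith
    rw [abs_of_nonneg (by positivity), div_le_iff₀ (by positivity)]
    have e1 : 160 * A * pB A x * (pQ A x) ^ 2 = 80 * A * pM A x * (pM A x + 2 * A) ^ 3 := by
      rw [hB2]; unfold pQ; field_simp; ring
    rw [e1]
    have hk := key_est hA x
    calc 4 * π * pK A * (A ^ 2 - 1) * pS x ^ 2 * (pM A x + A) =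
        16 * π ^ 2 * (A * (pM A x + A)) * ((A ^ 2 - 1) * pS x) ^ 2 := by unfold pK; ring
      _ ≤ 16 * 10 * (A * (pM A x + A)) * (2 * A ^ 2 * (pM A x - 2)) := by gcongr
      _ ≤ 16 * 10 * (A * (pM A x + 2 * A)) * (2 * A ^ 2 * pM A x) := by
        have : pM A x - 2 ≤ pM A x := by linarith
        have h0 : 0 ≤ pM A x - 2 := by linarith
        gcongr
        linarith
      _ = 80 * A * pM A x * ((pM A x + 2 * A) * (2 * A) ^ 2) := by ring
      _ ≤ 80 * A * pM A x * ((pM A x + 2 * A) * (pM A x + 2 * A) ^ 2) := by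
        gcongr
        linarith
      _ = 80 * A * pM A x * (pM A x + 2 * A) ^ 3 := by ring
  have hb : 0 ≤ A * pB A x := mul_nonneg (by linarith) (by linarith [pB_ge hA x])
  nlinarith

theorem pBeta_zero (A : ℝ) : pBeta A 0 = 0 := by
  unfold pBeta pU pS
  simp

theorem pPer (x : ℝ) : pS (x + 1) = pS x ∧ pC (x + 1) = pC x := by
  unfold pS pC
  have : 2 * π * (x + 1) = 2 * π * x + 2 * π := by ring
  rw [this]
  exact ⟨Real.sin_add_two_pi _, Real.cos_add_two_pi _⟩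

theorem pBeta_odd (A x : ℝ) : pBeta A (-x) = -pBeta A x := by
  have h1 : pS (-x) = -pS x := by
    unfold pS
    rw [show 2 * π * -x = -(2 * π * x) by ring, Real.sin_neg]
  have h2 : pC (-x) = pC x := by
    unfold pC
    rw [show 2 * π * -x = -(2 * π * x) by ring, Real.cos_neg]
  have h3 : pU A (-x) = - pU A x := by
    unfold pU pN
    rw [h1, h2]
    ring
  unfold pBeta
  rw [h3, Real.arctan_neg]
  ring

theorem pPeak {a : ℝ} (ha : 1 ≤ a) : 1 / 16 ≤ pBeta (16 * a) (1 / (16 * a)) := by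
  have ha0 : 0 < a := by linarith
  have hpi := Real.pi_pos
  have hpi2 : π ^ 2 ≤ 10 := by
    have := Real.pi_lt_d2
    nlinarith
  have hth : 2 * π * (1 / (16 * a)) = π / (8 * a) := by field_simp; ring
  have hle : π / (8 * a) ≤ π / 2 := by
    apply div_le_div_of_nonneg_left hpi.le (by norm_num)
    linarith
  have hS : 1 / (4 * a) ≤ pS (1 / (16 * a)) := by
    unfold pS
    rw [hth]
    have h := Real.mul_le_sin (x := π / (8 * a)) (by positivity) hle
    refine le_trans (le_of_eq ?_) h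
    field_simp
    ring
  have hC : 1 - 5 / (64 * a) ≤ pC (1 / (16 * a)) := by
    unfold pC
    rw [hth]
    have h := Real.one_sub_sq_div_two_le_cos (x := π / (8 * a))
    refine le_trans ?_ h
    have h2 : (π / (8 * a)) ^ 2 / 2 = π ^ 2 / (128 * a ^ 2) := by field_simp; ring
    rw [h2]
    have h3 : π ^ 2 / (128 * a ^ 2) ≤ 10 / (128 * a) := by
      apply div_le_div₀ (by norm_num) hpi2 (by positivity)
      nlinarith
    have h4 : (10 : ℝ) / (128 * a) = 5 / (64 * a) := by field_simp; ring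
    linarith
  have hA : (1:ℝ) ≤ 16 * a := by linarith
  have hN := pN_ge hA (1 / (16 * a))
  have hU : 1 ≤ pU (16 * a) (1 / (16 * a)) := by
    unfold pU
    rw [le_div_iff₀ (by linarith), one_mul]
    unfold pN
    have h1 : (16 * a - 1) * (1 / (4 * a)) ≤ (16 * a - 1) * pS (1 / (16 * a)) := by
      apply mul_le_mul_of_nonneg_left hS; linarith
    have h2 : (16 * a - 1) * (1 - 5 / (64 * a)) ≤ (16 * a - 1) * pC (1 / (16 * a)) := by
      apply mul_le_mul_of_nonneg_left hC; linarith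
    have h3 : (16 * a - 1) * (1 / (4 * a)) = 4 - 1 / (4 * a) := by field_simp; ring
    have h4 : (16 * a - 1) * (1 - 5 / (64 * a)) = 16 * a - 1 - 5 / 4 + 5 / (64 * a) := by
      field_simp; ring
    have h5 : 1 / (4 * a) ≤ 1 / 4 := by
      apply div_le_div_of_nonneg_left (by norm_num) (by norm_num); linarith
    have h6 : 0 ≤ 5 / (64 * a) := by positivity
    linarith
  have hat : π / 4 ≤ Real.arctan (pU (16 * a) (1 / (16 * a))) := by
    rw [← Real.arctan_one]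
    exact Real.arctan_strictMono.monotone hU
  unfold pBeta
  have h7 : (1 / (2 * π)) * (π / 4) ≤ (1 / (2 * π)) * Real.arctan (pU (16 * a) (1 / (16 * a))) :=
    mul_le_mul_of_nonneg_left hat (by positivity)
  have h8 : (1 / (2 * π)) * (π / 4) = 1 / 8 := by field_simp; norm_num
  have h9 : 0 ≤ 1 / (16 * a) := by positivity
  linarith

/-- Profile lemma -/
theorem profile : ∃ C0 : ℝ, 1 ≤ C0 ∧ ∀ a : ℝ, 1 ≤ a → ∃ β b l m : ℝ → ℝ,
    β 0 = 0 ∧ (∀ x, β (x + 1) = β x + 1) ∧ (∀ x, HasDerivAt β (b x) x) ∧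
    (∀ x, b (x + 1) = b x) ∧
    (∀ x, 1 / C0 ≤ b x) ∧ (∀ x, b x ≤ C0 * a) ∧
    (∀ x, HasDerivAt (fun y => Real.log (b y)) (l x) x) ∧ (∀ x, HasDerivAt l (m x) x) ∧
    (∀ x, |l x| ≤ C0 * a) ∧ (∀ x, |m x| ≤ C0 * a * b x) ∧
    1 / 16 ≤ β (1 / (16 * a)) ∧ β (-(1 / (16 * a))) ≤ -(1 / 16) := by
  refine ⟨5120, by norm_num, ?_⟩
  intro a ha
  have hA : (1:ℝ) ≤ 16 * a := by linarith
  refine ⟨pBeta (16 * a), pB (16 * a), pL (16 * a), pMm (16 * a), pBeta_zero _, ?_, pBeta_der hA,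
    ?_, ?_, ?_, pL_der1 hA, pL_der2 hA, ?_, ?_, pPeak ha, ?_⟩
  · intro x
    unfold pBeta pU pN
    rw [(pPer x).1, (pPer x).2]
    ring
  · intro x
    unfold pB pM
    rw [(pPer x).2]
  · intro x
    have := pB_ge hA x
    have h : (1:ℝ) / 5120 ≤ 1 / 2 := by norm_num
    linarith
  · intro x
    have := pB_le hA x
    linarith
  · intro x
    have := pL_bound hA x
    linarith
  · intro x
    have := pMm_bound hA x
    have e : 320 * (16 * a) * pB (16 * a) x = 5120 * a * pB (16 * a) x := by ring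
    linarith
  · rw [pBeta_odd]
    have := pPeak ha
    linarith

end Pool.Agent.Helper320.DJ
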