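import Mathlib
import Pool.Agent.Helper320.DJBasics
set_option autoImplicit false

namespace Pool.Agent.Helper320.DJ

open Real Filter Topology

theorem mv (f f1 : ℝ → ℝ) (hf : ∀ x, HasDerivAt f (f1 x) x) (M : ℝ) (h : ∀ x, |f1 x| ≤ M) :
    ∀ x y, |f x - f y| ≤ M * |x - y| := by
  intro x y
  have := Convex.norm_image_sub_le_of_norm_hasDerivWithin_le (f := f) (f' := f1) (C := M)
    (s := Set.univ) (x := y) (y := x) (fun z _ => (hf z).hasDerivWithinAt)
    (fun z _ => by simpa using h z) convex_univ (Set.mem_univ _) (Set.mem_univ _)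
  simpa using this

theorem cmv (f f1 g g1 : ℝ → ℝ) (hf : ∀ x, HasDerivAt f (f1 x) x)
    (hg : ∀ x, HasDerivAt g (g1 x) x) (h : ∀ x, |f1 x| ≤ g1 x) :
    ∀ x y, |f x - f y| ≤ |g x - g y| := by
  have h1 : Monotone (fun x => g x + f x) := by
    refine monotone_of_deriv_nonneg (fun x => ((hg x).add (hf x)).differentiableAt) ?_
    intro x
    rw [HasDerivAt.deriv (f := fun x => g x + f x) ((hg x).add (hf x))]
    have := abs_le.mp (h x)
    linarith [this.1]
  have h2 : Monotone (fun x => g x - f x) := by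
    refine monotone_of_deriv_nonneg (fun x => ((hg x).sub (hf x)).differentiableAt) ?_
    intro x
    rw [HasDerivAt.deriv (f := fun x => g x - f x) ((hg x).sub (hf x))]
    have := abs_le.mp (h x)
    linarith [this.2]
  have key : ∀ x y, y ≤ x → |f x - f y| ≤ |g x - g y| := by
    intro x y hxy
    have a1 := h1 hxy
    have a2 := h2 hxy
    simp only at a1 a2
    have : 0 ≤ g x - g y := by linarith
    rw [abs_of_nonneg this, abs_le]
    constructor <;> linarith
  intro x y
  rcases le_total y x with hxy | hxy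
  · exact key x y hxy
  · rw [abs_sub_comm (f x), abs_sub_comm (g x)]
    exact key y x hxy

theorem add_int (β : ℝ → ℝ) (h : ∀ x, β (x + 1) = β x + 1) (n : ℤ) (x : ℝ) :
    β (x + n) = β x + n := by
  induction n using Int.induction_on with
  | zero => simp
  | succ k ih =>
    have : x + ((k : ℤ) + 1 : ℤ) = (x + (k : ℤ)) + 1 := by push_cast; ring
    rw [this, h, ih]; push_cast; ring
  | pred k ih =>
    have h1 := h (x + ((-(k : ℤ) - 1 : ℤ) : ℝ))
    have : x + ((-(k : ℤ) - 1 : ℤ) : ℝ) + 1 = x + ((-(k : ℤ) : ℤ) : ℝ) := by push_cast; ring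
    rw [this, ih] at h1
    push_cast at h1 ⊢
    linarith

theorem per_int (b : ℝ → ℝ) (h : ∀ x, b (x + 1) = b x) (n : ℤ) (x : ℝ) :
    b (x + n) = b x := by
  induction n using Int.induction_on with
  | zero => simp
  | succ k ih =>
    have : x + ((k : ℤ) + 1 : ℤ) = (x + (k : ℤ)) + 1 := by push_cast; ring
    rw [this, h, ih]
  | pred k ih =>
    have h1 := h (x + ((-(k : ℤ) - 1 : ℤ) : ℝ))
    have : x + ((-(k : ℤ) - 1 : ℤ) : ℝ) + 1 = x + ((-(k : ℤ) : ℤ) : ℝ) := by push_cast; ring
    rw [this, ih] at h1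
    exact h1.symm

theorem exp_small {s : ℝ} (h0 : 0 ≤ s) (h1 : s ≤ 1) : Real.exp s ≤ 1 + 2 * s := by
  have := Real.exp_bound_div_one_sub_of_interval h0
  have h2 := Real.abs_exp_sub_one_sub_id_le (x := s) (by rw [abs_of_nonneg h0]; exact h1)
  have h3 := (abs_le.mp h2).2
  nlinarith
/-- One step.  -/
theorem step (C0 : ℝ) (hC0 : 1 ≤ C0)
    (hprof : ∀ a : ℝ, 1 ≤ a → ∃ β b l m : ℝ → ℝ,
    β 0 = 0 ∧ (∀ x, β (x + 1) = β x + 1) ∧ (∀ x, HasDerivAt β (b x) x) ∧
    (∀ x, b (x + 1) = b x) ∧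
    (∀ x, 1 / C0 ≤ b x) ∧ (∀ x, b x ≤ C0 * a) ∧
    (∀ x, HasDerivAt (fun y => Real.log (b y)) (l x) x) ∧ (∀ x, HasDerivAt l (m x) x) ∧
    (∀ x, |l x| ≤ C0 * a) ∧ (∀ x, |m x| ≤ C0 * a * b x) ∧
    1 / 16 ≤ β (1 / (16 * a)) ∧ β (-(1 / (16 * a))) ≤ -(1 / 16))
    (A rho E κ : ℝ) (hA : 0 ≤ A) (hrho : 0 < rho) (hE : 1 ≤ E) (hκ : 0 < κ) (hκ1 : κ ≤ 1 / 4) :
    ∃ N : ℝ, ∀ (q : ℕ) (p : ℤ) (C U : ℝ) (H r r1 r2 : ℝ → ℝ), N ≤ q → 0 ≤ C → C ≤ 1 →
      Good q p A rho E C U H r r1 r2 →
      ∀ (q' : ℕ) (p' : ℤ), q ≤ q' → p' * q - p * q' = 1 →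
      ∃ H' r' r1' r2' : ℝ → ℝ,
        Good q' p' ((2 * A + 1) * C0 ^ 2) (rho / C0) (C0 * E) (C + κ) (U + κ) H' r' r1' r2' ∧
        Rel κ q p H r q' p' H' r' := by
  set A' : ℝ := (2 * A + 1) * C0 ^ 2 with hA'def
  set M : ℝ := (2 * A + 1) * C0 / rho with hMdef
  have hC0p : 0 < C0 := by linarith
  have hM0 : 0 ≤ M := by positivity
  have hA'0 : 0 ≤ A' := by positivity
  have hC02 : C0 ≤ C0 ^ 2 := by nlinarith
  have hA1 : (A + 1) * C0 ≤ A' := by
    rw [hA'def]; nlinarith [mul_nonneg hA hC0p.le, mul_nonneg hA (sub_nonneg.mpr hC02)]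
  have hA2 : 2 * A * C0 ≤ A' := by
    rw [hA'def]; nlinarith [mul_nonneg hA hC0p.le, mul_nonneg hA (sub_nonneg.mpr hC02)]
  refine ⟨1 + 8 * A' / κ + E * C0 / κ + Real.exp (4 * (A' + M) / κ), ?_⟩
  intro q p C U H r r1 r2 hqN hC0' hC1 hg q' p' hqq' hdet
  have hq1 : (1 : ℝ) ≤ q := by exact_mod_cast hg.qpos
  have hqp : (0 : ℝ) < q := by linarith
  have hqq'R : (q : ℝ) ≤ q' := by exact_mod_cast hqq'
  have hq'p : (0 : ℝ) < q' := by linarith
  have hq'1 : 1 ≤ q' := le_trans hg.qpos hqq'
  -- thresholds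
  have t1 : 8 * A' / κ ≤ q := by
    have : 0 ≤ E * C0 / κ := by positivity
    have := Real.exp_pos (4 * (A' + M) / κ)
    linarith
  have t2 : E * C0 / κ ≤ q := by
    have : 0 ≤ 8 * A' / κ := by positivity
    have := Real.exp_pos (4 * (A' + M) / κ)
    linarith
  have t3 : Real.exp (4 * (A' + M) / κ) ≤ 1 + q := by
    have : 0 ≤ 8 * A' / κ := by positivity
    have : 0 ≤ E * C0 / κ := by positivity
    linarith
  have t3' : 4 * (A' + M) / κ ≤ Real.log (1 + q) := by
    rw [Real.le_log_iff_exp_le (by linarith)]; exact t3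
  have t4 : 2 * (A' + M) ≤ κ / 2 * Real.log (1 + q) := by
    have := mul_le_mul_of_nonneg_left t3' (show (0 : ℝ) ≤ κ / 2 by linarith)
    calc 2 * (A' + M) = κ / 2 * (4 * (A' + M) / κ) := by field_simp; ring
      _ ≤ _ := this
  have hσ : A' / q ≤ κ / 8 := by
    rw [div_le_iff₀ hqp]
    rw [div_le_iff₀ hκ] at t1
    linarith
  have hσ0 : 0 ≤ A' / q := by positivity
  have hEC : E * C0 / q ≤ κ := by
    rw [div_le_iff₀ hqp]
    rw [div_le_iff₀ hκ] at t2
    linarith
  -- the profile
  set a : ℝ := (q' : ℝ) / q with hadef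
  have ha1 : 1 ≤ a := by rw [hadef, le_div_iff₀ hqp]; linarith
  have hap : 0 < a := by linarith
  have haq : a * q = q' := by rw [hadef]; field_simp
  obtain ⟨β, b, l, m, hβ0, hβ1, hβd, hb1, hblo, hbup, hld, hmd, hl, hm, hβr, hβl⟩ := hprof a ha1
  have hbpos : ∀ x, 0 < b x := fun x => lt_of_lt_of_le (by positivity) (hblo x)
  have hbd : ∀ x, HasDerivAt b (b x * l x) x := by
    intro x
    have h1 := (hld x).exp
    have h2 : (fun y => Real.exp (Real.log (b y))) = b := by
      funext y; exact Real.exp_log (hbpos y)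
    rw [h2, Real.exp_log (hbpos x)] at h1
    exact h1
  -- B
  set B : ℝ → ℝ := fun x => β (q * x) / q with hB
  have hBd : ∀ x, HasDerivAt B (b (q * x)) x := by
    intro x
    have h1 : HasDerivAt (fun y : ℝ => (q : ℝ) * y) (q : ℝ) x := by
      simpa using (hasDerivAt_id x).const_mul (q : ℝ)
    have h2 := ((hβd (q * x)).comp x h1).div_const (q : ℝ)
    have h3 : b (q * x) * q / q = b (q * x) := by field_simp
    rw [h3] at h2
    exact h2
  set H' : ℝ → ℝ := fun x => H (B x) with hH'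
  set r' : ℝ → ℝ := fun x => r (B x) + Real.log (b (q * x)) with hr'
  set r1' : ℝ → ℝ := fun x => r1 (B x) * b (q * x) + q * l (q * x) with hr1'
  set r2' : ℝ → ℝ := fun x => r2 (B x) * b (q * x) * b (q * x)
    + r1 (B x) * (q * (b (q * x) * l (q * x))) + q * (q * m (q * x)) with hr2'
  have hlin : ∀ x : ℝ, HasDerivAt (fun y : ℝ => (q : ℝ) * y) (q : ℝ) x := by
    intro x; simpa using (hasDerivAt_id x).const_mul (q : ℝ)
  have hexp : ∀ x, Real.exp (r' x) = Real.exp (r (B x)) * b (q * x) := by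
    intro x; simp only [hr']; rw [Real.exp_add, Real.exp_log (hbpos _)]
  have hH'd : ∀ x, HasDerivAt H' (Real.exp (r' x)) x := by
    intro x
    rw [hexp]
    exact (hg.dH (B x)).comp x (hBd x)
  have hr'd : ∀ x, HasDerivAt r' (r1' x) x := by
    intro x
    have h1 := (hg.dr (B x)).comp x (hBd x)
    have h2 := (hld (q * x)).comp x (hlin x)
    have h3 := h1.add h2
    have h4 : r1' x = r1 (B x) * b (q * x) + l (q * x) * q := by
      simp only [hr1']; ring
    rw [h4]; exact h3
  have hr1'd : ∀ x, HasDerivAt r1' (r2' x) x := by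
    intro x
    have h1 := (hg.dr1 (B x)).comp x (hBd x)
    have h2 := (hbd (q * x)).comp x (hlin x)
    have h3 := ((hmd (q * x)).comp x (hlin x)).const_mul (q : ℝ)
    have h4 := (h1.mul h2).add h3
    have h5 : r2' x = (r2 (B x) * b (q * x)) * b (q * x)
        + r1 (B x) * (b (q * x) * l (q * x) * q) + q * (m (q * x) * q) := by
      simp only [hr2']; ring
    rw [h5]; exact h4
  -- bounds
  have hb1' : ∀ x, |r1' x| ≤ A' * q' := by
    intro x
    have e1 : |r1 (B x) * b (q * x)| ≤ (A * q) * (C0 * a) := by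
      rw [abs_mul, abs_of_pos (hbpos _)]
      exact mul_le_mul (hg.b1 _) (hbup _) (hbpos _).le (by positivity)
    have e2 : |(q : ℝ) * l (q * x)| ≤ q * (C0 * a) := by
      rw [abs_mul, abs_of_pos hqp]
      exact mul_le_mul_of_nonneg_left (hl _) hqp.le
    calc |r1' x| ≤ |r1 (B x) * b (q * x)| + |(q : ℝ) * l (q * x)| := abs_add_le _ _
      _ ≤ (A * q) * (C0 * a) + q * (C0 * a) := add_le_add e1 e2
      _ = (A + 1) * C0 * (a * q) := by ring
      _ = (A + 1) * C0 * q' := by rw [haq]
      _ ≤ A' * q' := mul_le_mul_of_nonneg_right hA1 hq'p.le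
  have hb2b : ∀ x, |r2' x| ≤ (2 * A + 1) * C0 * (q * q') * b (q * x) := by
    intro x
    have hbx := hbpos (q * x)
    have e1 : |r2 (B x) * b (q * x) * b (q * x)| ≤ (A * q ^ 2) * (C0 * a) * b (q * x) := by
      rw [abs_mul, abs_mul, abs_of_pos hbx]
      refine mul_le_mul_of_nonneg_right ?_ hbx.le
      exact mul_le_mul (hg.b2 _) (hbup _) hbx.le (by positivity)
    have e2 : |r1 (B x) * (q * (b (q * x) * l (q * x)))| ≤
        (A * q) * (q * (b (q * x) * (C0 * a))) := by
      rw [abs_mul, abs_mul, abs_mul, abs_of_pos hbx, abs_of_pos hqp]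
      refine mul_le_mul (hg.b1 _) ?_ (by positivity) (by positivity)
      refine mul_le_mul_of_nonneg_left ?_ hqp.le
      exact mul_le_mul_of_nonneg_left (hl _) hbx.le
    have e3 : |(q : ℝ) * (q * m (q * x))| ≤ q * (q * (C0 * a * b (q * x))) := by
      rw [abs_mul, abs_mul, abs_of_pos hqp]
      refine mul_le_mul_of_nonneg_left ?_ hqp.le
      exact mul_le_mul_of_nonneg_left (hm _) hqp.le
    calc |r2' x| ≤ |r2 (B x) * b (q * x) * b (q * x)
            + r1 (B x) * (q * (b (q * x) * l (q * x)))| + |(q : ℝ) * (q * m (q * x))| :=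
          abs_add_le _ _
      _ ≤ |r2 (B x) * b (q * x) * b (q * x)| + |r1 (B x) * (q * (b (q * x) * l (q * x)))|
            + |(q : ℝ) * (q * m (q * x))| := by
          gcongr; exact abs_add_le _ _
      _ ≤ (A * q ^ 2) * (C0 * a) * b (q * x) + (A * q) * (q * (b (q * x) * (C0 * a)))
            + q * (q * (C0 * a * b (q * x))) := by
          gcongr
      _ = (2 * A + 1) * C0 * (q * (a * q)) * b (q * x) := by ring
      _ = _ := by rw [haq]
  have hb2' : ∀ x, |r2' x| ≤ A' * q' ^ 2 := by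
    intro x
    calc |r2' x| ≤ (2 * A + 1) * C0 * (q * q') * b (q * x) := hb2b x
      _ ≤ (2 * A + 1) * C0 * (q * q') * (C0 * a) :=
          mul_le_mul_of_nonneg_left (hbup _) (by positivity)
      _ = (2 * A + 1) * C0 ^ 2 * (a * q) * q' := by ring
      _ = A' * q' ^ 2 := by rw [haq]; ring
  have hb2M : ∀ x, |r2' x| ≤ M * (q * q') * Real.exp (r' x) := by
    intro x
    rw [hexp]
    have h1 := hg.lo (B x)
    calc |r2' x| ≤ (2 * A + 1) * C0 * (q * q') * b (q * x) := hb2b x
      _ = M * (q * q') * (rho * b (q * x)) := by rw [hMdef]; field_simp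
      _ ≤ M * (q * q') * (Real.exp (r (B x)) * b (q * x)) := by
          refine mul_le_mul_of_nonneg_left ?_ (by positivity)
          exact mul_le_mul_of_nonneg_right h1 (hbpos _).le
  have hlo' : ∀ x, rho / C0 ≤ Real.exp (r' x) := by
    intro x
    rw [hexp]
    calc rho / C0 = rho * (1 / C0) := by ring
      _ ≤ _ := mul_le_mul (hg.lo _) (hblo _) (by positivity) (Real.exp_pos _).le
  have hup' : ∀ x, Real.exp (r' x) ≤ C0 * E * q' := by
    intro x
    rw [hexp]
    calc Real.exp (r (B x)) * b (q * x) ≤ (E * q) * (C0 * a) :=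
          mul_le_mul (hg.up _) (hbup _) (hbpos _).le (by positivity)
      _ = C0 * E * (a * q) := by ring
      _ = _ := by rw [haq]
  -- the shift
  set δ : ℝ := 1 / (q * q') with hδ
  have hδp : 0 < δ := by positivity
  have hδq : δ * (q * q') = 1 := by rw [hδ]; field_simp
  have hdetR : (p' : ℝ) * q - p * q' = 1 := by exact_mod_cast hdet
  have hα : (p' : ℝ) / q' = p / q + δ := by
    rw [hδ]; field_simp; linarith
  have hBshift : ∀ x, B (x + p' / q') = B (x + δ) + p / q := by
    intro x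
    simp only [hB]
    have : (q : ℝ) * (x + p' / q') = q * (x + δ) + p := by
      rw [hα]; field_simp; ring
    rw [this, add_int β hβ1]
    ring
  have hbshift : ∀ x, b (q * (x + p' / q')) = b (q * (x + δ)) := by
    intro x
    have : (q : ℝ) * (x + p' / q') = q * (x + δ) + p := by
      rw [hα]; field_simp; ring
    rw [this, per_int b hb1]
  set u : ℝ → ℝ := fun y => r (y + p / q) - r y with hu
  set S : ℝ → ℝ := fun x => r' (x + δ) - r' x with hS
  have hkey : ∀ x, r' (x + p' / q') - r' x = u (B (x + δ)) + S x := by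
    intro x
    simp only [hu, hS, hr']
    rw [hBshift, hbshift]; ring
  have hSsup : ∀ x, |S x| ≤ A' / q := by
    intro x
    have := mv r' r1' hr'd (A' * q') hb1' (x + δ) x
    calc |S x| ≤ A' * q' * |x + δ - x| := this
      _ = A' * q' * δ := by rw [add_sub_cancel_left, abs_of_pos hδp]
      _ = A' / q := by rw [hδ]; field_simp
  have hrsup : ∀ x z, x ≤ z → z ≤ x + δ → |r' z - r' x| ≤ A' / q := by
    intro x z hxz hzx
    have := mv r' r1' hr'd (A' * q') hb1' z x
    calc |r' z - r' x| ≤ A' * q' * |z - x| := this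
      _ ≤ A' * q' * δ := by
          refine mul_le_mul_of_nonneg_left ?_ (by positivity)
          rw [abs_of_nonneg (by linarith)]; linarith
      _ = A' / q := by rw [hδ]; field_simp
  have hσ1 : A' / q ≤ 1 := by linarith
  have hexpσ : Real.exp (A' / q) ≤ 1 + 2 * (A' / q) := exp_small hσ0 hσ1
  have hexpσ2 : Real.exp (A' / q) ≤ 2 := by linarith
  -- S' bound
  have hSd : ∀ x, HasDerivAt S (r1' (x + δ) - r1' x) x := by
    intro x
    have h1 : HasDerivAt (fun y : ℝ => y + δ) 1 x := (hasDerivAt_id x).add_const δ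
    have h2 := (hr'd (x + δ)).comp x h1
    rw [mul_one] at h2
    exact h2.sub (hr'd x)
  have hSd2 : ∀ x, |r1' (x + δ) - r1' x| ≤ 2 * M * Real.exp (r' x) := by
    intro x
    obtain ⟨ξ, hξ, hξ2⟩ := exists_hasDerivAt_eq_slope r1' r2' (show x < x + δ by linarith)
      (fun z _ => (hr1'd z).continuousAt.continuousWithinAt) (fun z _ => hr1'd z)
    have h1 : r1' (x + δ) - r1' x = r2' ξ * δ := by
      rw [hξ2]
      have : x + δ - x = δ := by ring
      rw [this]; field_simp
    rw [h1, abs_mul, abs_of_pos hδp]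
    have h2 : Real.exp (r' ξ) ≤ 2 * Real.exp (r' x) := by
      have := (abs_le.mp (hrsup x ξ hξ.1.le hξ.2.le)).2
      calc Real.exp (r' ξ) ≤ Real.exp (A' / q + r' x) := Real.exp_le_exp.mpr (by linarith)
        _ = Real.exp (A' / q) * Real.exp (r' x) := Real.exp_add _ _
        _ ≤ 2 * Real.exp (r' x) := mul_le_mul_of_nonneg_right hexpσ2 (Real.exp_pos _).le
    calc |r2' ξ| * δ ≤ (M * (q * q') * Real.exp (r' ξ)) * δ :=
          mul_le_mul_of_nonneg_right (hb2M ξ) hδp.le
      _ = M * Real.exp (r' ξ) * (δ * (q * q')) := by ring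
      _ = M * Real.exp (r' ξ) := by rw [hδq, mul_one]
      _ ≤ M * (2 * Real.exp (r' x)) := mul_le_mul_of_nonneg_left h2 hM0
      _ = _ := by ring
  have hSlip : ∀ x y, |S x - S y| ≤ 2 * M * |H' x - H' y| := by
    intro x y
    have h1 : ∀ x, HasDerivAt (fun z => 2 * M * H' z) (2 * M * Real.exp (r' x)) x :=
      fun x => (hH'd x).const_mul (2 * M)
    have h2 := cmv S (fun x => r1' (x + δ) - r1' x) (fun z => 2 * M * H' z)
      (fun x => 2 * M * Real.exp (r' x)) hSd h1 hSd2 x y
    have h3 : 2 * M * H' x - 2 * M * H' y = 2 * M * (H' x - H' y) := by ring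
    try simp only at h2
    rw [h3, abs_mul, abs_of_nonneg (by positivity : (0 : ℝ) ≤ 2 * M)] at h2
    exact h2
  have hShift : ∀ x y, |H' (x + δ) - H' (y + δ)| ≤ Real.exp (A' / q) * |H' x - H' y| := by
    intro x y
    have h0 : ∀ x, HasDerivAt (fun z => H' (z + δ)) (Real.exp (r' (x + δ))) x := by
      intro x
      have h1 : HasDerivAt (fun y : ℝ => y + δ) 1 x := (hasDerivAt_id x).add_const δ
      have h2 := (hH'd (x + δ)).comp x h1
      rw [mul_one] at h2
      exact h2
    have h1 : ∀ x, HasDerivAt (fun z => Real.exp (A' / q) * H' z)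
        (Real.exp (A' / q) * Real.exp (r' x)) x := fun x => (hH'd x).const_mul _
    have h2 := cmv _ _ _ _ h0 h1 (by
      intro z
      rw [abs_of_pos (Real.exp_pos _), ← Real.exp_add]
      apply Real.exp_le_exp.mpr
      have := (abs_le.mp (hSsup z)).2
      simp only [hS] at this
      linarith) x y
    have h3 : Real.exp (A' / q) * H' x - Real.exp (A' / q) * H' y
        = Real.exp (A' / q) * (H' x - H' y) := by ring
    try simp only at h2
    rw [h3, abs_mul, abs_of_pos (Real.exp_pos _)] at h2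
    exact h2
  have hSmod : ∀ x y, |S x - S y| ≤ κ / 2 * om |H' x - H' y| := by
    intro x y
    set D := |H' x - H' y| with hD
    have hD0 : 0 ≤ D := abs_nonneg _
    have hge := om_ge hq1 hD0
    have hlog : 0 ≤ Real.log (1 + q) := Real.log_nonneg (by linarith)
    rcases le_total D (1 / (q : ℝ)) with hc | hc
    · rw [min_eq_left hc] at hge
      calc |S x - S y| ≤ 2 * M * D := hSlip x y
        _ ≤ (κ / 2 * Real.log (1 + q)) * D := by
            refine mul_le_mul_of_nonneg_right ?_ hD0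
            linarith
        _ = κ / 2 * (D * Real.log (1 + q)) := by ring
        _ ≤ _ := mul_le_mul_of_nonneg_left hge (by linarith)
    · rw [min_eq_right hc] at hge
      have h1 : |S x - S y| ≤ 2 * (A' / q) := by
        calc |S x - S y| ≤ |S x| + |S y| := abs_sub _ _
          _ ≤ _ := by linarith [hSsup x, hSsup y]
      calc |S x - S y| ≤ 2 * (A' / q) := h1
        _ = (2 * A') * (1 / q) := by ring
        _ ≤ (κ / 2 * Real.log (1 + q)) * (1 / q) := by
            refine mul_le_mul_of_nonneg_right ?_ (by positivity)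
            linarith
        _ = κ / 2 * (1 / q * Real.log (1 + q)) := by ring
        _ ≤ _ := mul_le_mul_of_nonneg_left hge (by linarith)
  have hmd' : ∀ x y, |(r' (x + p' / q') - r' x) - (r' (y + p' / q') - r' y)|
      ≤ (C + κ) * om |H' x - H' y| := by
    intro x y
    rw [hkey x, hkey y]
    set D := |H' x - H' y| with hD
    have hD0 : 0 ≤ D := abs_nonneg _
    have hom0 : 0 ≤ om D := om_nonneg hD0
    have h1 : |u (B (x + δ)) - u (B (y + δ))| ≤ (C + κ / 2) * om D := by
      have e1 := hg.md (B (x + δ)) (B (y + δ))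
      have e2 : om |H (B (x + δ)) - H (B (y + δ))| ≤ (1 + 2 * (A' / q)) * om D := by
        calc om |H (B (x + δ)) - H (B (y + δ))|
            ≤ om ((1 + 2 * (A' / q)) * D) := by
              refine om_mono (abs_nonneg _) ?_
              exact le_trans (hShift x y) (mul_le_mul_of_nonneg_right hexpσ hD0)
          _ ≤ _ := om_mul_le (by linarith) hD0
      calc |u (B (x + δ)) - u (B (y + δ))| ≤ C * om |H (B (x + δ)) - H (B (y + δ))| := e1
        _ ≤ C * ((1 + 2 * (A' / q)) * om D) := mul_le_mul_of_nonneg_left e2 hC0'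
        _ = (C + C * (2 * (A' / q))) * om D := by ring
        _ ≤ (C + κ / 2) * om D := by
            refine mul_le_mul_of_nonneg_right ?_ hom0
            have : C * (2 * (A' / q)) ≤ 1 * (2 * (A' / q)) :=
              mul_le_mul_of_nonneg_right hC1 (by linarith)
            linarith
    have h2 := hSmod x y
    have h3 : u (B (x + δ)) + S x - (u (B (y + δ)) + S y)
        = (u (B (x + δ)) - u (B (y + δ))) + (S x - S y) := by ring
    rw [h3]
    calc |(u (B (x + δ)) - u (B (y + δ))) + (S x - S y)|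
        ≤ |u (B (x + δ)) - u (B (y + δ))| + |S x - S y| := abs_add_le _ _
      _ ≤ (C + κ / 2) * om D + κ / 2 * om D := add_le_add h1 h2
      _ = _ := by ring
  have hub' : ∀ x, |r' (x + p' / q') - r' x| ≤ U + κ := by
    intro x
    rw [hkey x]
    calc |u (B (x + δ)) + S x| ≤ |u (B (x + δ))| + |S x| := abs_add_le _ _
      _ ≤ U + A' / q := add_le_add (hg.ub _) (hSsup x)
      _ ≤ _ := by linarith
  -- B Lipschitz
  have hBlip : ∀ x y, |B x - B y| ≤ C0 * a * |x - y| :=
    mv B (fun x => b (q * x)) hBd (C0 * a) (fun x => by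
      rw [abs_of_pos (hbpos _)]; exact hbup _)
  have hBδ : ∀ x, |B (x + δ) - B x| ≤ C0 * a * δ := by
    intro x
    have := hBlip (x + δ) x
    rwa [add_sub_cancel_left, abs_of_pos hδp] at this
  have haδ : a * δ = 1 / (q * q) := by
    rw [hadef, hδ]; field_simp
  have hHlip : ∀ x y, |H x - H y| ≤ E * q * |x - y| :=
    mv H (fun x => Real.exp (r x)) hg.dH (E * q) (fun x => by
      rw [abs_of_pos (Real.exp_pos _)]; exact hg.up x)
  have hrlip : ∀ x y, |r x - r y| ≤ A * q * |x - y| := mv r r1 hg.dr (A * q) hg.b1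
  refine ⟨H', r', r1', r2', ⟨hq'1, ?_, ?_, ?_, ?_, hH'd, hr'd, hr1'd, hb1', hb2', hlo', hup',
    hmd', hub'⟩, ⟨hdet, ⟨B, fun x => rfl, ?_, ?_⟩, ?_, ?_⟩⟩
  · exact ⟨(q : ℤ), -p, by linarith⟩
  · simp only [hH', hB, mul_zero, hβ0, zero_div]; exact hg.H0
  · intro x
    simp only [hH', hB]
    have h1 : (q : ℝ) * (x + 1) = q * x + ((q : ℤ) : ℝ) := by push_cast; ring
    rw [h1, add_int β hβ1]
    have h2 : (β (q * x) + ((q : ℤ) : ℝ)) / q = β (q * x) / q + 1 := by
      push_cast; field_simp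
    rw [h2, hg.H1]
  · intro x
    simp only [hr', hB]
    have h1 : (q : ℝ) * (x + 1) = q * x + ((q : ℤ) : ℝ) := by push_cast; ring
    rw [h1, add_int β hβ1, per_int b hb1]
    have h2 : (β (q * x) + ((q : ℤ) : ℝ)) / q = β (q * x) / q + 1 := by
      push_cast; field_simp
    rw [h2, hg.rper]
  · intro x
    simp only [hH']
    rw [hBshift]
    calc |H (B (x + δ) + p / q) - H (B x + p / q)|
        ≤ E * q * |B (x + δ) + p / q - (B x + p / q)| := hHlip _ _
      _ = E * q * |B (x + δ) - B x| := by congr 2; ring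
      _ ≤ E * q * (C0 * a * δ) := mul_le_mul_of_nonneg_left (hBδ x) (by positivity)
      _ = E * C0 * q * (a * δ) := by ring
      _ = E * C0 / q := by rw [haδ]; field_simp
      _ ≤ κ := hEC
  · intro x
    rw [hkey x]
    have h1 : |u (B (x + δ)) - u (B x)| ≤ 2 * A * C0 / q := by
      have e1 := hrlip (B (x + δ) + p / q) (B x + p / q)
      have e2 := hrlip (B (x + δ)) (B x)
      have e3 : B (x + δ) + (p : ℝ) / q - (B x + p / q) = B (x + δ) - B x := by ring
      rw [e3] at e1
      have e4 : u (B (x + δ)) - u (B x) = (r (B (x + δ) + p / q) - r (B x + p / q))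
          - (r (B (x + δ)) - r (B x)) := by simp only [hu]; ring
      rw [e4]
      calc |(r (B (x + δ) + p / q) - r (B x + p / q)) - (r (B (x + δ)) - r (B x))|
          ≤ |r (B (x + δ) + p / q) - r (B x + p / q)| + |r (B (x + δ)) - r (B x)| := abs_sub _ _
        _ ≤ A * q * |B (x + δ) - B x| + A * q * |B (x + δ) - B x| := add_le_add e1 e2
        _ = 2 * A * q * |B (x + δ) - B x| := by ring
        _ ≤ 2 * A * q * (C0 * a * δ) := mul_le_mul_of_nonneg_left (hBδ x) (by positivity)
        _ = 2 * A * C0 * q * (a * δ) := by ring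
        _ = 2 * A * C0 / q := by rw [haδ]; field_simp
    have h2 : 2 * A * C0 / q ≤ A' / q := div_le_div_of_nonneg_right hA2 hqp.le
    have h3 : u (B (x + δ)) + S x - (r (B x + p / q) - r (B x))
        = (u (B (x + δ)) - u (B x)) + S x := by simp only [hu]; ring
    rw [h3]
    calc |(u (B (x + δ)) - u (B x)) + S x| ≤ |u (B (x + δ)) - u (B x)| + |S x| := abs_add_le _ _
      _ ≤ A' / q + A' / q := add_le_add (le_trans h1 h2) (hSsup x)
      _ ≤ κ := by linarith
  · have hmono : StrictMono H := strictMono_of_deriv_pos (fun x => by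
      rw [(hg.dH x).deriv]; exact Real.exp_pos _)
    apply hmono.monotone
    simp only [hB]
    rw [le_div_iff₀ hqp]
    have h1 : (q : ℝ) * (1 / (16 * q')) = 1 / (16 * a) := by rw [hadef]; field_simp
    rw [h1]
    have h2 : 1 / (16 * (q : ℝ)) * q = 1 / 16 := by field_simp
    rw [h2]; exact hβr
  · have hmono : StrictMono H := strictMono_of_deriv_pos (fun x => by
      rw [(hg.dH x).deriv]; exact Real.exp_pos _)
    apply hmono.monotone
    simp only [hB]
    rw [div_le_iff₀ hqp]
    have h1 : (q : ℝ) * -(1 / (16 * q')) = -(1 / (16 * a)) := by rw [hadef]; field_simp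
    rw [h1]
    have h2 : -(1 / (16 * (q : ℝ))) * q = -(1 / 16) := by field_simp
    rw [h2]; exact hβl

end Pool.Agent.Helper320.DJ
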