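import Mathlib
import Pool.Agent.Helper320.DJStep
import Pool.Agent.Helper320.DJProfile
set_option autoImplicit false

namespace Pool.Agent.Helper320.DJ

open Real Filter Topology

/-- number theory: next approximant -/
theorem next_approx (q : ℕ) (p : ℤ) (hq : 1 ≤ q) (hc : IsCoprime p (q : ℤ)) (N : ℝ) :
    ∃ (q' : ℕ) (p' : ℤ), N ≤ q' ∧ q ≤ q' ∧ p' * q - p * q' = 1 ∧ IsCoprime p' (q' : ℤ) := by
  obtain ⟨u, v, huv⟩ := hc
  obtain ⟨K, hK⟩ := exists_nat_ge (max N 0)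
  have hKN : N ≤ K := le_trans (le_max_left _ _) hK
  -- m = |u| + K + q
  have hq0 : (1 : ℤ) ≤ (q : ℤ) := by exact_mod_cast hq
  set m : ℤ := |u| + K + q with hm
  have hm0 : 0 ≤ m := by positivity
  have hu : -|u| ≤ -u := by
    have := le_abs_self u
    linarith
  have hbig : (K : ℤ) + q ≤ -u + m * q := by
    have h1 : m ≤ m * q := by nlinarith
    have h2 : m = |u| + K + q := hm
    linarith
  have hpos : 0 ≤ -u + m * q := le_trans (by positivity) hbig
  obtain ⟨q', hq'⟩ := Int.eq_ofNat_of_zero_le hpos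
  have hdet : (v + m * p) * (q : ℤ) - p * (q' : ℤ) = 1 := by
    rw [← hq']
    linear_combination huv
  refine ⟨q', v + m * p, ?_, ?_, hdet, ?_⟩
  · have h3 : (K : ℤ) ≤ (q' : ℤ) := by
      rw [← hq']
      linarith
    have h4 : (K : ℝ) ≤ (q' : ℝ) := by exact_mod_cast h3
    linarith
  · have h3 : (q : ℤ) ≤ (q' : ℤ) := by
      rw [← hq']
      have : (0 : ℤ) ≤ (K : ℤ) := by positivity
      linarith
    exact_mod_cast h3
  · exact ⟨q, -p, by linear_combination hdet⟩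

/-- the sequence of stages -/
theorem seq_exists : ∃ (A rho E C U : ℕ → ℝ) (q : ℕ → ℕ) (p : ℕ → ℤ) (H r r1 r2 : ℕ → ℝ → ℝ),
    (∀ n, Good (q n) (p n) (A n) (rho n) (E n) (C n) (U n) (H n) (r n) (r1 n) (r2 n)) ∧
    (∀ n, 0 ≤ C n ∧ C n ≤ 1 ∧ U n ≤ 1) ∧
    (∀ n, 2 * q n ≤ q (n + 1)) ∧
    (∀ n, Rel ((1 / 2) ^ (n + 3)) (q n) (p n) (H n) (r n)
      (q (n + 1)) (p (n + 1)) (H (n + 1)) (r (n + 1))) := by
  classical
  obtain ⟨C0, hC0, hprof⟩ := profile
  have hC0p : 0 < C0 := by linarith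
  -- constants
  let A : ℕ → ℝ := fun n => Nat.rec (motive := fun _ => ℝ) 0 (fun _ a => (2 * a + 1) * C0 ^ 2) n
  let rho : ℕ → ℝ := fun n => 1 / C0 ^ n
  let E : ℕ → ℝ := fun n => C0 ^ n
  let kap : ℕ → ℝ := fun n => (1 / 2) ^ (n + 3)
  let C : ℕ → ℝ := fun n => ∑ i ∈ Finset.range n, kap i
  have hA0 : A 0 = 0 := rfl
  have hAs : ∀ n, A (n + 1) = (2 * A n + 1) * C0 ^ 2 := fun n => rfl
  have hA : ∀ n, 0 ≤ A n := by
    intro n
    induction n with
    | zero => exact le_of_eq hA0.symm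
    | succ n ih => rw [hAs]; positivity
  have hrho : ∀ n, 0 < rho n := fun n => by positivity
  have hrhos : ∀ n, rho (n + 1) = rho n / C0 := fun n => by
    simp only [rho]
    rw [pow_succ]
    field_simp
  have hE : ∀ n, 1 ≤ E n := fun n => one_le_pow₀ hC0
  have hEs : ∀ n, E (n + 1) = C0 * E n := fun n => by
    simp only [E]
    rw [pow_succ]
    ring
  have hkap : ∀ n, 0 < kap n := fun n => by positivity
  have hkap1 : ∀ n, kap n ≤ 1 / 4 := fun n => by
    simp only [kap]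
    have h1 : ((1 : ℝ) / 2) ^ (n + 3) ≤ (1 / 2) ^ 2 :=
      pow_le_pow_of_le_one (by norm_num) (by norm_num) (by omega)
    linarith [h1, show ((1 : ℝ) / 2) ^ 2 = 1 / 4 by norm_num]
  have hCs : ∀ n, C (n + 1) = C n + kap n := fun n => by
    simp only [C]
    rw [Finset.sum_range_succ]
  have hCnn : ∀ n, 0 ≤ C n := fun n => Finset.sum_nonneg fun i _ => (hkap i).le
  have hCform : ∀ n, C n = 1 / 4 - (1 / 2) ^ (n + 2) := by
    intro n
    induction n with
    | zero => simp [C]; norm_num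
    | succ n ih =>
      rw [hCs, ih]
      simp only [kap]
      ring
  have hC1 : ∀ n, C n ≤ 1 := fun n => by
    rw [hCform]
    have : (0 : ℝ) ≤ (1 / 2) ^ (n + 2) := by positivity
    linarith
  have hstep := fun n => step C0 hC0 hprof (A n) (rho n) (E n) (kap n) (hA n) (hrho n) (hE n)
    (hkap n) (hkap1 n)
  choose N hN using hstep
  -- states
  let S := ℕ × ℤ × (ℝ → ℝ) × (ℝ → ℝ) × (ℝ → ℝ) × (ℝ → ℝ)
  let P : ℕ → S → Prop := fun n s =>
    Good s.1 s.2.1 (A n) (rho n) (E n) (C n) (C n) s.2.2.1 s.2.2.2.1 s.2.2.2.2.1 s.2.2.2.2.2 ∧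
      N n ≤ s.1
  let R : ℕ → S → S → Prop := fun n s s' =>
    Rel (kap n) s.1 s.2.1 s.2.2.1 s.2.2.2.1 s'.1 s'.2.1 s'.2.2.1 s'.2.2.2.1 ∧
      2 * s.1 ≤ s'.1
  have hnext : ∀ n (s : S), P n s → ∃ s' : S, P (n + 1) s' ∧ R n s s' := by
    rintro n ⟨q, p, H, r, r1, r2⟩ ⟨hG, hNq⟩
    dsimp only at hG hNq
    obtain ⟨q', p', hq1, hq2, hdet, hcop⟩ :=
      next_approx q p hG.qpos hG.cop (max (N (n + 1)) (2 * q))
    have hq3 : N (n + 1) ≤ q' := le_trans (le_max_left _ _) hq1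
    have hq4 : (2 * (q : ℝ)) ≤ q' := le_trans (le_max_right _ _) hq1
    obtain ⟨H', r', r1', r2', hG', hR'⟩ :=
      hN n q p (C n) (C n) H r r1 r2 hNq (hCnn n) (hC1 n) hG q' p' hq2 hdet
    refine ⟨⟨q', p', H', r', r1', r2'⟩, ⟨?_, hq3⟩, hR', ?_⟩
    · dsimp only
      rw [hAs, hrhos, hEs, hCs]
      exact hG'
    · dsimp only
      exact_mod_cast hq4
  have hinit : ∃ s : S, P 0 s := by
    obtain ⟨K, hK⟩ := exists_nat_ge (max (N 0) 1)
    have h1 : N 0 ≤ K := le_trans (le_max_left _ _) hK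
    have h2 : (1 : ℝ) ≤ K := le_trans (le_max_right _ _) hK
    refine ⟨⟨K, 1, fun x => x, fun _ => 0, fun _ => 0, fun _ => 0⟩, ?_, h1⟩
    dsimp only
    have hC00 : C 0 = 0 := by simp [C]
    have hr00 : rho 0 = 1 := by simp [rho]
    have hE00 : E 0 = 1 := by simp [E]
    constructor
    · exact_mod_cast h2
    · exact isCoprime_one_left
    · rfl
    · intro x; rfl
    · intro x; rfl
    · intro x
      have h3 : HasDerivAt (fun y : ℝ => y) (1 : ℝ) x := hasDerivAt_id' x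
      have h4 : Real.exp ((fun _ : ℝ => (0 : ℝ)) x) = 1 := Real.exp_zero
      rw [h4]
      exact h3
    · intro x
      exact hasDerivAt_const x (0 : ℝ)
    · intro x
      exact hasDerivAt_const x (0 : ℝ)
    · intro x; rw [hA0]; simp
    · intro x; rw [hA0]; simp
    · intro x; rw [hr00]; simp
    · intro x; rw [hE00]; simpa using h2
    · intro x y; rw [hC00]; simp
    · intro x; rw [hC00]; simp
  obtain ⟨s0, hs0⟩ := hinit
  let f : (n : ℕ) → {s : S // P n s} := fun n =>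
    Nat.rec (motive := fun n => {s : S // P n s}) ⟨s0, hs0⟩
      (fun n t => ⟨Classical.choose (hnext n t.1 t.2), (Classical.choose_spec (hnext n t.1 t.2)).1⟩) n
  have hf : ∀ n, R n (f n).1 (f (n + 1)).1 := fun n =>
    (Classical.choose_spec (hnext n (f n).1 (f n).2)).2
  refine ⟨A, rho, E, C, C, fun n => (f n).1.1, fun n => (f n).1.2.1, fun n => (f n).1.2.2.1,
    fun n => (f n).1.2.2.2.1, fun n => (f n).1.2.2.2.2.1, fun n => (f n).1.2.2.2.2.2,
    fun n => (f n).2.1, fun n => ⟨hCnn n, hC1 n, hC1 n⟩, fun n => (hf n).2, fun n => (hf n).1⟩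

end Pool.Agent.Helper320.DJ
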