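import Mathlib
import Pool.Agent.Helper320.DJSeq
import Pool.Agent.Helper320.DJConj
import Pool.Agent.Helper320.DJLimit
import Pool.Agent.Helper320.DJIrr
set_option autoImplicit false

namespace Pool.Agent.Helper320.DJ

open Real Filter Topology

theorem final :
    ¬ (∀ F : ℝ → ℝ, ContDiff ℝ 1 F → (∀ x, 0 < deriv F x) → (∀ x, F (x + 1) = F x + 1) →
      (∃ C δ : ℝ, 0 < δ ∧ ∀ x y : ℝ, abs (x - y) < δ →
        abs (deriv F x - deriv F y) ≤ C * abs ((x - y) * Real.log (abs (x - y)))) →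
      (∀ x : ℝ, ∀ n : ℕ, 0 < n → ∀ k : ℤ, F^[n] x ≠ x + (k : ℝ)) →
      ∀ x : ℝ, Dense {y : ℝ | ∃ n : ℕ, ∃ k : ℤ, y = F^[n] x + (k : ℝ)}) := by
  intro hmain
  obtain ⟨A, rho, E, C, U, q, p, H, r, r1, r2, hG, hC, hq2, hR⟩ := seq_exists
  choose F φ K hKH hHK hFd hφd hFder hFper hφm hφb hrot havoid using fun n =>
    conj_map (q n) (p n) (A n) (rho n) (E n) (C n) (U n) (H n) (r n) (r1 n) (r2 n) (hG n)
  have hFF : ∀ n y, |F (n + 1) y - F n y| ≤ (1 / 2) ^ (n + 3) := by
    intro n y
    obtain ⟨B, hB1, hB2, hB3⟩ := (hR n).ex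
    have hy : H n (B (K (n + 1) y)) = y := by rw [← hB1, hHK]
    have hK : K n y = B (K (n + 1) y) := by
      have := hKH n (B (K (n + 1) y))
      rwa [hy] at this
    rw [hFd (n + 1), hFd n, hK]
    exact hB2 _
  have hφφ : ∀ n y, |φ (n + 1) y - φ n y| ≤ (1 / 2) ^ (n + 3) := by
    intro n y
    obtain ⟨B, hB1, hB2, hB3⟩ := (hR n).ex
    have hy : H n (B (K (n + 1) y)) = y := by rw [← hB1, hHK]
    have hK : K n y = B (K (n + 1) y) := by
      have := hKH n (B (K (n + 1) y))
      rwa [hy] at this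
    rw [hφd (n + 1), hφd n, hK]
    exact hB3 _
  have hmod : ∀ n y z, |φ n y - φ n z| ≤ om |y - z| := by
    intro n y z
    refine (hφm n y z).trans ?_
    have h1 := om_nonneg (abs_nonneg (y - z))
    have h2 := (hC n).2.1
    nlinarith
  have hb : ∀ n y, |φ n y| ≤ 1 := fun n y => (hφb n y).trans (hC n).2.2
  obtain ⟨G, hGc, hGd, hGper, hGmod, hGt⟩ := limit_map F φ hFder hFper hmod hb hFF hφφ
  obtain ⟨α, hα, hαt⟩ := alpha_irr q p (hG 0).qpos hq2 (fun n => (hR n).det)
  have hlim : ∀ (x : ℝ) (t : ℕ), |G^[t] x - x - t * α| ≤ 2 := by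
    intro x t
    have h1 : Tendsto (fun n => |(F n)^[t] x - x - t * ((p n : ℝ) / q n)|) atTop
        (𝓝 |G^[t] x - x - t * α|) :=
      (((hGt t x).sub_const x).sub (hαt.const_mul (t : ℝ))).abs
    exact le_of_tendsto h1 (Eventually.of_forall fun n => hrot n t x)
  have hGnat : ∀ (k : ℕ) (x : ℝ), G (x + k) = G x + k := by
    intro k
    induction k with
    | zero => intro x; simp
    | succ k ih =>
      intro x
      push_cast
      rw [← add_assoc, hGper, ih]
      ring
  have hGint : ∀ (k : ℤ) (x : ℝ), G (x + k) = G x + k := by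
    intro k x
    obtain ⟨m, rfl | rfl⟩ := Int.eq_nat_or_neg k
    · exact_mod_cast hGnat m x
    · have := hGnat m (x + ((-(m : ℤ) : ℤ) : ℝ))
      push_cast at this ⊢
      rw [neg_add_cancel_right] at this
      linarith
  have hGitint : ∀ (n : ℕ) (k : ℤ) (x : ℝ), G^[n] (x + k) = G^[n] x + k := by
    intro n
    induction n with
    | zero => intro k x; rfl
    | succ n ih =>
      intro k x
      rw [Function.iterate_succ_apply, Function.iterate_succ_apply, hGint, ih]
  have hnp : ∀ x : ℝ, ∀ n : ℕ, 0 < n → ∀ k : ℤ, G^[n] x ≠ x + (k : ℝ) := by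
    intro x n hn k h
    have hit : ∀ m : ℕ, G^[n * m] x = x + ((m * k : ℤ) : ℝ) := by
      intro m
      induction m with
      | zero => simp
      | succ m ih =>
        rw [Nat.mul_succ, Nat.add_comm, Function.iterate_add_apply, ih, hGitint, h]
        push_cast
        ring
    have hne : (k : ℝ) - n * α ≠ 0 := by
      intro h0
      apply hα
      refine ⟨(k : ℚ) / n, ?_⟩
      have hn' : (n : ℝ) ≠ 0 := by positivity
      push_cast
      rw [div_eq_iff hn']
      linarith
    have hpos : 0 < |(k : ℝ) - n * α| := abs_pos.2 hne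
    obtain ⟨m, hm⟩ := exists_nat_gt (2 / |(k : ℝ) - n * α|)
    have h1 := hlim x (n * m)
    rw [hit m] at h1
    have h2 : x + ((m * k : ℤ) : ℝ) - x - ((n * m : ℕ) : ℝ) * α = m * ((k : ℝ) - n * α) := by
      push_cast
      ring
    rw [h2, abs_mul, Nat.abs_cast] at h1
    rw [div_lt_iff₀ hpos] at hm
    linarith
  have hdense := hmain G hGc hGd hGper hGmod hnp (G 0)
  -- the wandering interval
  have hmono : StrictMono (H 0) :=
    strictMono_of_hasDerivAt_pos (fun x => (hG 0).dH x) (fun x => Real.exp_pos _)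
  have hq0 : (0 : ℝ) < q 0 := by exact_mod_cast (hG 0).qpos
  have hδ : (0 : ℝ) < 1 / (16 * q 0) := by positivity
  have hsp : 0 < H 0 (1 / (16 * q 0)) := by
    have := hmono hδ
    rwa [(hG 0).H0] at this
  have hsm : H 0 (-(1 / (16 * q 0))) < 0 := by
    have := hmono (neg_lt_zero.2 hδ)
    rwa [(hG 0).H0] at this
  have hr : ∀ i, H 0 (1 / (16 * q 0)) ≤ H i (1 / (16 * q i)) := by
    intro i
    induction i with
    | zero => exact le_refl _
    | succ i ih => exact ih.trans (hR i).right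
  have hl : ∀ i, H i (-(1 / (16 * q i))) ≤ H 0 (-(1 / (16 * q 0))) := by
    intro i
    induction i with
    | zero => exact le_refl _
    | succ i ih => exact (hR i).left.trans ih
  have hqbig : ∀ i, i < q i := by
    intro i
    induction i with
    | zero => exact (hG 0).qpos
    | succ i ih =>
      have := hq2 i
      omega
  have hcl : IsClosed ({y : ℝ | H 0 (1 / (16 * q 0)) ≤ y} ∪ {y : ℝ | y ≤ H 0 (-(1 / (16 * q 0)))}) :=
    (isClosed_le continuous_const continuous_id).union (isClosed_le continuous_id continuous_const)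
  have hav : ∀ (t : ℕ) (k : ℤ), 0 < t → G^[t] 0 + k ∈
      ({y : ℝ | H 0 (1 / (16 * q 0)) ≤ y} ∪ {y : ℝ | y ≤ H 0 (-(1 / (16 * q 0)))}) := by
    intro t k ht
    refine hcl.mem_of_tendsto ((hGt t 0).add_const (k : ℝ)) ?_
    filter_upwards [eventually_ge_atTop t] with i hi
    have h1 := havoid i t k ht (hi.trans_lt (hqbig i))
    rcases h1 with h1 | h1
    · exact Or.inl ((hr i).trans h1)
    · exact Or.inr (h1.trans (hl i))
  obtain ⟨y, hy1, hy2⟩ := hdense.inter_open_nonempty (Set.Ioo (H 0 (-(1 / (16 * q 0)))) (H 0 (1 / (16 * q 0))))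
    isOpen_Ioo ⟨0, hsm, hsp⟩
  obtain ⟨n, k, rfl⟩ := hy2
  have h1 := hav (n + 1) k (Nat.succ_pos n)
  rw [Function.iterate_succ_apply] at h1
  rcases h1 with h1 | h1
  · exact absurd h1 (not_le.2 hy1.2)
  · exact absurd h1 (not_le.2 hy1.1)

end Pool.Agent.Helper320.DJ
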