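import Mathlib
import Pool.Agent.Helper320.GBase
import Pool.Agent.Helper320.GLA
import Pool.Agent.Helper320.GLC
import Pool.Agent.Helper320.GAL
import Pool.Agent.Helper320.GFV
import Pool.Agent.Helper320.GTI
import Pool.Agent.Helper320.GCAP
import Pool.Agent.Helper320.GEU
import Pool.Agent.Helper320.GFC

set_option autoImplicit false
open Set

namespace Pool.Agent.Helper320.Gold.NLD

open Pool.Agent.Helper320.Gold Pool.Agent.Helper320.Gold.NLA Pool.Agent.Helper320.Gold.NLC Pool.Agent.Helper320.Gold.NAL Pool.Agent.Helper320.Gold.NFV Pool.Agent.Helper320.Gold.NTI Pool.Agent.Helper320.Gold.NCAP Pool.Agent.Helper320.Gold.NEU Pool.Agent.Helper320.Gold.NFC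

theorem aux_sq_sum {S : Finset E3} (hS : Good S) {q : ℝ} (hq : q ≤ 1 / 10) (hq0 : 0 ≤ q)
    (hcov : ∀ a : E3, ‖a‖ = 1 → ∃ x ∈ S, ‖a - x‖ ≤ q) {X ε : ℝ} (hX : 0 < X)
    (hXc : ((FS S).card : ℝ) * X = 24 * Real.pi)
    (hvol : 4 * Real.pi / 3 - √3 * Real.pi / 3 * X * (1 + ε) ≤
      (MeasureTheory.volume (convexHull ℝ (S : Set E3))).toReal) :
    ∑ t ∈ FS S, (tpt t - X) ^ 2 ≤ 24 * Real.pi * X * (ε + 3 * q ^ 2) := by
  have h := (sum_pen hS hq hq0 hcov hX hXc hvol).2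
  have h3 : (0:ℝ) < √3 := Real.sqrt_pos.mpr (by norm_num)
  have hle : ∑ t ∈ FS S, √3 / 24 * (tpt t - X) ^ 2 ≤ ∑ t ∈ FS S, pen X t := by
    apply Finset.sum_le_sum
    intro t ht
    obtain ⟨h0, _, _, h4⟩ := facet_bounds hS hq hq0 hcov t ht
    unfold pen
    have : 0 ≤ tpt t * (sq3 t - 2 * √3 * tpt t) / 48 := by
      apply div_nonneg _ (by norm_num)
      apply mul_nonneg h0.le
      linarith
    linarith
  rw [← Finset.mul_sum] at hle
  have h5 : √3 / 24 * ∑ t ∈ FS S, (tpt t - X) ^ 2 ≤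
      √3 / 24 * (24 * Real.pi * X * (ε + 3 * q ^ 2)) := by
    calc _ ≤ _ := hle.trans h
      _ = _ := by ring
  exact le_of_mul_le_mul_left h5 (by positivity)

theorem aux_dev {S : Finset E3} (hS : Good S) {q : ℝ} (hq : q ≤ 1 / 10) (hq0 : 0 ≤ q)
    (hcov : ∀ a : E3, ‖a‖ = 1 → ∃ x ∈ S, ‖a - x‖ ≤ q) {X ε : ℝ} (hX : 0 < X)
    (hXc : ((FS S).card : ℝ) * X = 24 * Real.pi)
    (hvol : 4 * Real.pi / 3 - √3 * Real.pi / 3 * X * (1 + ε) ≤
      (MeasureTheory.volume (convexHull ℝ (S : Set E3))).toReal)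
    (F : Finset (E3 × E3 × E3)) (hF : F ⊆ FS S) :
    |∑ t ∈ F, (tpt t - X)| ≤ 24 * Real.pi * √(ε + 3 * q ^ 2) := by
  have h := aux_sq_sum hS hq hq0 hcov hX hXc hvol
  have h1 : ∑ t ∈ F, (tpt t - X) ^ 2 ≤ 24 * Real.pi * X * (ε + 3 * q ^ 2) :=
    (Finset.sum_le_sum_of_subset_of_nonneg hF (fun _ _ _ => sq_nonneg _)).trans h
  have hpi := Real.pi_pos
  have h0 : 0 ≤ ε + 3 * q ^ 2 := by
    have : 0 ≤ 24 * Real.pi * X * (ε + 3 * q ^ 2) :=
      (Finset.sum_nonneg (fun t _ => sq_nonneg _)).trans h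
    exact nonneg_of_mul_nonneg_right this (by positivity)
  have hcs : (∑ t ∈ F, (tpt t - X)) ^ 2 ≤ (F.card : ℝ) * ∑ t ∈ F, (tpt t - X) ^ 2 :=
    sq_sum_le_card_mul_sum_sq
  have hc : (F.card : ℝ) ≤ (FS S).card := by exact_mod_cast Finset.card_le_card hF
  have hcX : (F.card : ℝ) * X ≤ 24 * Real.pi := by
    calc (F.card : ℝ) * X ≤ (FS S).card * X := by gcongr
      _ = _ := hXc
  have h2 : (∑ t ∈ F, (tpt t - X)) ^ 2 ≤ (24 * Real.pi * √(ε + 3 * q ^ 2)) ^ 2 := by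
    rw [mul_pow, Real.sq_sqrt h0]
    calc _ ≤ (F.card : ℝ) * ∑ t ∈ F, (tpt t - X) ^ 2 := hcs
      _ ≤ (F.card : ℝ) * (24 * Real.pi * X * (ε + 3 * q ^ 2)) := by gcongr
      _ = (F.card : ℝ) * X * (24 * Real.pi * (ε + 3 * q ^ 2)) := by ring
      _ ≤ 24 * Real.pi * (24 * Real.pi * (ε + 3 * q ^ 2)) := by gcongr
      _ = _ := by ring
  exact abs_le_of_sq_le_sq h2 (by positivity)

theorem aux_smul_cone {u v w x : E3} (hx : x ∈ cone3 u v w) {c : ℝ} (hc : 0 ≤ c) :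
    c • x ∈ cone3 u v w := by
  obtain ⟨r, s, t, hr, hs, ht, rfl⟩ := hx
  refine ⟨c * r, c * s, c * t, mul_nonneg hc hr, mul_nonneg hc hs, mul_nonneg hc ht, ?_⟩
  simp only [smul_add, smul_smul]

theorem aux_inner {y p : E3} (hy : ‖y‖ = 1) (hp : ‖p‖ = 1) :
    ‖y - p‖ ^ 2 = 2 - 2 * inner ℝ y p := by
  rw [norm_sub_sq_real, hy, hp]; ring

theorem aux_meas (p : E3) (κ : ℝ) : MeasurableSet (capS p κ) := by
  apply IsClosed.measurableSet
  have : capS p κ = {x | ‖x‖ ≤ 1} ∩ {x | (1 - κ ^ 2 / 2) * ‖x‖ ≤ inner ℝ x p} := rfl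
  rw [this]
  apply IsClosed.inter
  · exact isClosed_le continuous_norm continuous_const
  · exact isClosed_le (by fun_prop) (by fun_prop)

theorem aux_fin (u v w : E3) (A : Set E3) (hA : A ⊆ Metric.closedBall 0 1) :
    MeasureTheory.volume (cone3 u v w ∩ A) ≠ ⊤ := by
  apply ne_top_of_le_ne_top (b := MeasureTheory.volume (Metric.closedBall (0:E3) 1))
  · exact (isCompact_closedBall (0:E3) 1).measure_lt_top.ne
  · exact MeasureTheory.measure_mono (inter_subset_right.trans hA)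

theorem aux_capS_sub (p : E3) (κ : ℝ) : capS p κ ⊆ Metric.closedBall 0 1 := by
  intro x hx
  rw [mem_closedBall_zero_iff]
  exact hx.1

theorem aux_sum_cap {S : Finset E3} (hS : Good S) {p : E3} (hp : ‖p‖ = 1) {κ : ℝ} (h0 : 0 ≤ κ)
    (h1 : κ ≤ 1) :
    ∑ t ∈ FS S, (MeasureTheory.volume (cone3 t.1 t.2.1 t.2.2 ∩ capS p κ)).toReal =
      Real.pi * κ ^ 2 := by
  have h := tile hS (capS p κ) (aux_meas p κ)
  rw [vol_cap hp h0 h1] at h
  rw [← ENNReal.toReal_sum (fun t _ => aux_fin _ _ _ _ (aux_capS_sub p κ)), h]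
  rw [ENNReal.toReal_mul, ENNReal.toReal_ofReal (by positivity)]
  simp
  ring

theorem aux_count {S : Finset E3} (hS : Good S) (P : E3 → Prop) [DecidablePred P]
    (h6 : ∀ w ∈ S, P w → {x | Adj S w x}.ncard = 6) :
    ((FS S).filter (fun t => P t.1)).card = 6 * (S.filter P).card := by
  have hmap : ∀ t ∈ (FS S).filter (fun t => P t.1), t.1 ∈ S.filter P := by
    intro t ht
    rw [Finset.mem_filter] at ht ⊢
    refine ⟨?_, ht.2⟩
    have := ht.1
    simp only [FS, Finset.mem_filter, Finset.mem_product] at this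
    exact this.1.1
  rw [Finset.card_eq_sum_card_fiberwise (f := fun t => t.1) (t := S.filter P) (fun t ht => hmap t ht)]
  have : ∀ w ∈ S.filter P, (((FS S).filter (fun t => P t.1)).filter (fun t => t.1 = w)).card = 6 := by
    intro w hw
    rw [Finset.mem_filter] at hw
    have e : ((FS S).filter (fun t => P t.1)).filter (fun t => t.1 = w) =
        (FS S).filter (fun t => t.1 = w) := by
      ext t
      simp only [Finset.mem_filter]
      constructor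
      · rintro ⟨⟨a, b⟩, c⟩; exact ⟨a, c⟩
      · rintro ⟨a, c⟩; exact ⟨⟨a, by rw [c]; exact hw.2⟩, c⟩
    rw [e, fiber_card hS w hw.1, h6 w hw.1 hw.2]
  rw [Finset.sum_congr rfl this, Finset.sum_const, smul_eq_mul, mul_comm]

theorem aux_facet {S : Finset E3} {t : E3 × E3 × E3} (ht : t ∈ FS S) :
    Facet S t.1 t.2.1 t.2.2 ∧ t.1 ∈ S := by
  simp only [FS, Finset.mem_filter, Finset.mem_product] at ht
  exact ⟨ht.2.1, ht.1.1⟩

theorem aux_near {S : Finset E3} (hS : Good S) {q : ℝ} (hq : q ≤ 1)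
    (hcov : ∀ a : E3, ‖a‖ = 1 → ∃ x ∈ S, ‖a - x‖ ≤ q) {t : E3 × E3 × E3} (ht : t ∈ FS S)
    {y : E3} (hy : y ∈ cone3 t.1 t.2.1 t.2.2) (hy1 : ‖y‖ = 1) : ‖y - t.1‖ ≤ 2 * q := by
  obtain ⟨hF, hm⟩ := aux_facet ht
  obtain ⟨a, ha, _, _, _, hn⟩ := cone_near hS hq hcov hF
  have h1 := hn y hy hy1
  have h2 := hn t.1 ⟨1, 0, 0, zero_le_one, le_rfl, le_rfl, by simp⟩ (hS.unit _ hm)
  calc ‖y - t.1‖ = ‖(y - a) - (t.1 - a)‖ := by congr 1; abel
    _ ≤ ‖y - a‖ + ‖t.1 - a‖ := norm_sub_le _ _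
    _ ≤ 2 * q := by linarith

theorem count_upper {S : Finset E3} (hS : Good S) {q : ℝ} (hq : q ≤ 1 / 10) (hq0 : 0 ≤ q)
    (hcov : ∀ a : E3, ‖a‖ = 1 → ∃ x ∈ S, ‖a - x‖ ≤ q) {X ε : ℝ} (hX : 0 < X)
    (hXc : ((FS S).card : ℝ) * X = 24 * Real.pi)
    (hvol : 4 * Real.pi / 3 - √3 * Real.pi / 3 * X * (1 + ε) ≤
      (MeasureTheory.volume (convexHull ℝ (S : Set E3))).toReal) {v : E3} (hv : ‖v‖ = 1)
    {κ : ℝ} (hκ0 : 0 ≤ κ) (hκ : κ ≤ 0.6)
    (h6 : ∀ w ∈ S, ‖w - v‖ < κ → {x | Adj S w x}.ncard = 6) :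
    ((S.filter (fun w => ‖w - v‖ < κ)).card : ℝ) * X ≤
      Real.pi * (κ + 2 * q) ^ 2 + 4 * Real.pi * √(ε + 3 * q ^ 2) := by
  have hcount := aux_count hS (fun w => ‖w - v‖ < κ) h6
  set F := (FS S).filter (fun t => ‖t.1 - v‖ < κ) with hFdef
  have hFsub : F ⊆ FS S := Finset.filter_subset _ _
  have hdev := aux_dev hS hq hq0 hcov hX hXc hvol F hFsub
  have hdev2 := (abs_le.mp hdev).1
  rw [Finset.sum_sub_distrib, Finset.sum_const, nsmul_eq_mul] at hdev2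
  have hcard : (F.card : ℝ) = 6 * ((S.filter (fun w => ‖w - v‖ < κ)).card : ℝ) := by
    rw [hcount]; push_cast; rfl
  have hK1 : κ + 2 * q ≤ 1 := by norm_num at hκ ⊢; linarith
  have hK0 : 0 ≤ κ + 2 * q := by positivity
  have hsum := aux_sum_cap hS hv hK0 hK1
  have hle : ∑ t ∈ F, tpt t ≤ 6 * (Real.pi * (κ + 2 * q) ^ 2) := by
    rw [← hsum, Finset.mul_sum]
    calc ∑ t ∈ F, tpt t ≤ ∑ t ∈ F, 6 * (MeasureTheory.volume
          (cone3 t.1 t.2.1 t.2.2 ∩ capS v (κ + 2 * q))).toReal := by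
          apply Finset.sum_le_sum
          intro t ht
          have htF := hFsub ht
          have htk : ‖t.1 - v‖ < κ := (Finset.mem_filter.mp ht).2
          obtain ⟨h0, h1, _, _⟩ := facet_bounds hS hq hq0 hcov t htF
          have hs : 0 ≤ sq3 t := by unfold sq3; positivity
          have h2 : 0 ≤ tpt t * sq3 t / 48 := by positivity
          have h3 : (MeasureTheory.volume (cone3 t.1 t.2.1 t.2.2 ∩ Metric.closedBall 0 1)).toReal ≤
              (MeasureTheory.volume (cone3 t.1 t.2.1 t.2.2 ∩ capS v (κ + 2 * q))).toReal := by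
            apply ENNReal.toReal_mono (aux_fin _ _ _ _ (aux_capS_sub _ _))
            apply MeasureTheory.measure_mono
            rintro x ⟨hx, hxb⟩
            refine ⟨hx, ?_⟩
            rw [mem_closedBall_zero_iff] at hxb
            refine ⟨hxb, ?_⟩
            by_cases hx0 : x = 0
            · subst hx0; simp
            · have hn : 0 < ‖x‖ := norm_pos_iff.mpr hx0
              have hy := aux_smul_cone hx (inv_nonneg.mpr hn.le)
              have hy1 : ‖(‖x‖⁻¹) • x‖ = 1 := by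
                rw [norm_smul, norm_inv, norm_norm, inv_mul_cancel₀ hn.ne']
              have hnear := aux_near hS (by linarith) hcov htF hy hy1
              have hd : ‖(‖x‖⁻¹) • x - v‖ ≤ κ + 2 * q := by
                calc ‖(‖x‖⁻¹) • x - v‖ = ‖((‖x‖⁻¹) • x - t.1) + (t.1 - v)‖ := by congr 1; abel
                  _ ≤ ‖(‖x‖⁻¹) • x - t.1‖ + ‖t.1 - v‖ := norm_add_le _ _
                  _ ≤ κ + 2 * q := by linarith
              have hi := aux_inner hy1 hv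
              have hd2 : ‖(‖x‖⁻¹) • x - v‖ ^ 2 ≤ (κ + 2 * q) ^ 2 := by gcongr
              have hi2 : 1 - (κ + 2 * q) ^ 2 / 2 ≤ inner ℝ ((‖x‖⁻¹) • x) v := by linarith
              rw [inner_smul_left] at hi2
              simp only [conj_trivial] at hi2
              calc (1 - (κ + 2 * q) ^ 2 / 2) * ‖x‖ ≤ (‖x‖⁻¹ * inner ℝ x v) * ‖x‖ := by gcongr
                _ = inner ℝ x v := by field_simp
          linarith
      _ ≤ ∑ t ∈ FS S, 6 * (MeasureTheory.volume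
          (cone3 t.1 t.2.1 t.2.2 ∩ capS v (κ + 2 * q))).toReal := by
          apply Finset.sum_le_sum_of_subset_of_nonneg hFsub
          intro t _ _
          positivity
  rw [hcard] at hdev2
  nlinarith [hdev2, hle]

theorem count_lower {S : Finset E3} (hS : Good S) {q : ℝ} (hq : q ≤ 1e-5) (hq0 : 0 ≤ q)
    (hcov : ∀ a : E3, ‖a‖ = 1 → ∃ x ∈ S, ‖a - x‖ ≤ q) {X ε : ℝ} (hX : 0 < X)
    (hXc : ((FS S).card : ℝ) * X = 24 * Real.pi)
    (hvol : 4 * Real.pi / 3 - √3 * Real.pi / 3 * X * (1 + ε) ≤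
      (MeasureTheory.volume (convexHull ℝ (S : Set E3))).toReal) {p : E3} (hp : ‖p‖ = 1)
    (h6 : ∀ w ∈ S, ‖w - p‖ < 0.002 → {x | Adj S w x}.ncard = 6) :
    3e-6 - 4 * Real.pi * √(ε + 3 * q ^ 2) ≤
      ((S.filter (fun w => ‖w - p‖ < 0.002)).card : ℝ) * X := by
  classical
  have hq' : q ≤ 1 / 10 := by norm_num at hq ⊢; linarith
  have hcount := aux_count hS (fun w => ‖w - p‖ < 0.002) h6
  set F := (FS S).filter (fun t => ∃ y ∈ cone3 t.1 t.2.1 t.2.2, ‖y‖ = 1 ∧ ‖y - p‖ ≤ 0.001) with hFdef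
  have hFsub : F ⊆ FS S := Finset.filter_subset _ _
  have hdev := aux_dev hS hq' hq0 hcov hX hXc hvol F hFsub
  have hdev2 := (abs_le.mp hdev).1
  have hdev3 := (abs_le.mp hdev).2
  rw [Finset.sum_sub_distrib, Finset.sum_const, nsmul_eq_mul] at hdev2 hdev3
  have hcardle : F.card ≤ 6 * (S.filter (fun w => ‖w - p‖ < 0.002)).card := by
    rw [← hcount]
    apply Finset.card_le_card
    intro t ht
    rw [hFdef, Finset.mem_filter] at ht
    obtain ⟨htF, y, hy, hy1, hyp⟩ := ht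
    rw [Finset.mem_filter]
    refine ⟨htF, ?_⟩
    have hnear := aux_near hS (by linarith) hcov htF hy hy1
    calc ‖t.1 - p‖ = ‖(y - p) - (y - t.1)‖ := by congr 1; abel
      _ ≤ ‖y - p‖ + ‖y - t.1‖ := norm_sub_le _ _
      _ ≤ 0.001 + 2 * q := by linarith
      _ < 0.002 := by norm_num at hq ⊢; linarith
  have hcardle' : (F.card : ℝ) * X ≤ 6 * ((S.filter (fun w => ‖w - p‖ < 0.002)).card : ℝ) * X := by
    have : (F.card : ℝ) ≤ 6 * ((S.filter (fun w => ‖w - p‖ < 0.002)).card : ℝ) := by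
      exact_mod_cast hcardle
    gcongr
  have hsum := aux_sum_cap hS hp (κ := 0.001) (by norm_num) (by norm_num)
  have hzero : ∀ t ∈ FS S, t ∉ F →
      (MeasureTheory.volume (cone3 t.1 t.2.1 t.2.2 ∩ capS p 0.001)).toReal = 0 := by
    intro t ht htn
    have hsub : cone3 t.1 t.2.1 t.2.2 ∩ capS p 0.001 ⊆ {0} := by
      rintro x ⟨hx, hxc⟩
      by_contra hx0
      have hx0' : x ≠ 0 := hx0
      apply htn
      rw [hFdef, Finset.mem_filter]
      have hn : 0 < ‖x‖ := norm_pos_iff.mpr hx0'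
      have hy := aux_smul_cone hx (inv_nonneg.mpr hn.le)
      have hy1 : ‖(‖x‖⁻¹) • x‖ = 1 := by
        rw [norm_smul, norm_inv, norm_norm, inv_mul_cancel₀ hn.ne']
      refine ⟨ht, _, hy, hy1, ?_⟩
      have hi := aux_inner hy1 hp
      have h2 := hxc.2
      have hi2 : 1 - (0.001:ℝ) ^ 2 / 2 ≤ inner ℝ ((‖x‖⁻¹) • x) p := by
        rw [inner_smul_left]
        simp only [conj_trivial]
        calc 1 - (0.001:ℝ) ^ 2 / 2 = ‖x‖⁻¹ * ((1 - (0.001:ℝ) ^ 2 / 2) * ‖x‖) := by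
              field_simp
          _ ≤ ‖x‖⁻¹ * inner ℝ x p := by gcongr
      have hsq : ‖(‖x‖⁻¹) • x - p‖ ^ 2 ≤ (0.001:ℝ) ^ 2 := by linarith
      exact le_of_sq_le_sq hsq (by norm_num)
    have : MeasureTheory.volume (cone3 t.1 t.2.1 t.2.2 ∩ capS p 0.001) = 0 := by
      apply MeasureTheory.measure_mono_null hsub
      exact MeasureTheory.measure_singleton _
    rw [this]; rfl
  have hsumF : ∑ t ∈ F, (MeasureTheory.volume (cone3 t.1 t.2.1 t.2.2 ∩ capS p 0.001)).toReal =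
      Real.pi * 0.001 ^ 2 := by
    rw [← hsum]
    exact Finset.sum_subset hFsub (fun t ht htn => hzero t ht htn)
  have hge : 6 * (1 - 3 / 2 * q ^ 2) * (Real.pi * 0.001 ^ 2) ≤ ∑ t ∈ F, tpt t := by
    rw [← hsumF, Finset.mul_sum]
    apply Finset.sum_le_sum
    intro t ht
    obtain ⟨h0, _, h2, _⟩ := facet_bounds hS hq' hq0 hcov t (hFsub ht)
    have h3 : (MeasureTheory.volume (cone3 t.1 t.2.1 t.2.2 ∩ capS p 0.001)).toReal ≤
        (MeasureTheory.volume (cone3 t.1 t.2.1 t.2.2 ∩ Metric.closedBall 0 1)).toReal := by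
      apply ENNReal.toReal_mono (aux_fin _ _ _ _ subset_rfl)
      apply MeasureTheory.measure_mono
      exact inter_subset_inter_right _ (aux_capS_sub _ _)
    have h4 : 0 ≤ 1 - 3 / 2 * q ^ 2 := by nlinarith
    have h5 := mul_le_mul_of_nonneg_left h3 h4
    linarith
  have hpi := Real.pi_gt_d2
  have hq2 : q ^ 2 ≤ 1e-10 := by
    have : q ^ 2 ≤ (1e-5) ^ 2 := by gcongr
    norm_num at this ⊢; linarith
  have hge2 : 18e-6 ≤ ∑ t ∈ F, tpt t := by
    refine le_trans ?_ hge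
    have h1 : (1 - 3 / 2 * 1e-10 : ℝ) ≤ 1 - 3 / 2 * q ^ 2 := by linarith
    calc (18e-6 : ℝ) ≤ 6 * (1 - 3 / 2 * 1e-10) * (3.14 * 0.001 ^ 2) := by norm_num
      _ ≤ 6 * (1 - 3 / 2 * q ^ 2) * (Real.pi * 0.001 ^ 2) := by
        have : (0:ℝ) ≤ 1 - 3 / 2 * 1e-10 := by norm_num
        gcongr
  have : 18e-6 - 24 * Real.pi * √(ε + 3 * q ^ 2) ≤
      6 * ((S.filter (fun w => ‖w - p‖ < 0.002)).card : ℝ) * X := by linarith
  have e : (3e-6 : ℝ) - 4 * Real.pi * √(ε + 3 * q ^ 2) =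
      (18e-6 - 24 * Real.pi * √(ε + 3 * q ^ 2)) / 6 := by norm_num; ring
  rw [e]
  linarith

end Pool.Agent.Helper320.Gold.NLD
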