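import Mathlib
import Pool.Agent.Helper320.GBase
import Pool.Agent.Helper320.GL
import Pool.Agent.Helper320.GTI
import Pool.Agent.Helper320.GDV
import Pool.Agent.Helper320.GC3
import Pool.Agent.Helper320.GAL
import Pool.Agent.Helper320.GLA
import Pool.Agent.Helper320.GLD
import Pool.Agent.Helper320.GCAP
import Pool.Agent.Helper320.GEU

set_option autoImplicit false
open Set

namespace Pool.Agent.Helper320.Gold.NCA

open Pool.Agent.Helper320.Gold Pool.Agent.Helper320.Gold.NL Pool.Agent.Helper320.Gold.NTI Pool.Agent.Helper320.Gold.NDV Pool.Agent.Helper320.Gold.NC3 Pool.Agent.Helper320.Gold.NAL Pool.Agent.Helper320.Gold.NLA Pool.Agent.Helper320.Gold.NLD Pool.Agent.Helper320.Gold.NCAP Pool.Agent.Helper320.Gold.NEU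

theorem ca_facet_mem {S : Finset E3} {u v w : E3} (h : Facet S u v w) : u ∈ S ∧ v ∈ S ∧ w ∈ S := by
  obtain ⟨_, _, _, a, _, ha⟩ := h
  exact ⟨((ha u).2 (Or.inl rfl)).1, ((ha v).2 (Or.inr (Or.inl rfl))).1,
    ((ha w).2 (Or.inr (Or.inr rfl))).1⟩

theorem ca_adj_mem {S : Finset E3} {v w : E3} (h : Adj S v w) : w ∈ S := by
  obtain ⟨_, a, _, ha⟩ := h
  exact ((ha w).2 (Or.inr rfl)).1

theorem core_contra {S : Finset E3} (hS : Good S)
    (h56 : ∀ v ∈ S, {w | Adj S v w}.ncard = 5 ∨ {w | Adj S v w}.ncard = 6)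
    {q : ℝ} (hq0 : 0 < q) (hq : q ≤ 1e-9)
    (hcov : ∀ a : E3, ‖a‖ = 1 → ∃ x ∈ S, ‖a - x‖ ≤ q) {X ε l : ℝ} (hX : 0 < X)
    (hXc : ((FS S).card : ℝ) * X = 24 * Real.pi) (hε : 0 ≤ ε)
    (hvol : 4 * Real.pi / 3 - √3 * Real.pi / 3 * X * (1 + ε) ≤
      (MeasureTheory.volume (convexHull ℝ (S : Set E3))).toReal)
    (hl0 : 0 < l) (hl : l ≤ 1e-6) (hlX : X = √3 / 2 * l ^ 2)
    (h1 : √(ε + 3 * q ^ 2) ≤ 1e-8) (h2 : (ε + 3 * q ^ 2) * q ≤ 1e-29 * l) : False := by
  classical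
  -- the far point
  set P : Finset E3 := S.filter (fun v => {w | Adj S v w}.ncard = 5) with hP
  have hPc : P.card = 12 := by
    have h := twelve hS h56
    have e : {v | v ∈ S ∧ {w | Adj S v w}.ncard = 5} = (P : Set E3) := by
      ext v
      simp only [Set.mem_setOf_eq, hP, Finset.coe_filter]
    rw [e, Set.ncard_coe_finset] at h
    exact h
  obtain ⟨p, hp1, hpP⟩ := exists_far P hPc.le (fun x hx => hS.unit x (Finset.mem_filter.1 hx).1)
  have h6 : ∀ v ∈ S, ‖v - p‖ < 0.5773 → {w | Adj S v w}.ncard = 6 := by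
    intro v hv hvp
    rcases h56 v hv with h | h
    · have := hpP v (Finset.mem_filter.2 ⟨hv, h⟩)
      linarith
    · exact h
  obtain ⟨T, D, hTD, hTi⟩ := exists_dev hS hp1 (r := 0.5773) (r1 := 0.577) (q := q)
    (by norm_num) (by norm_num) hq0.le (by norm_num at hq ⊢; linarith) hcov h6
  have hdev : Dev S p q T D :=
    { mem := fun v hv hvp k => ca_adj_mem (hTD v hv hvp k).1
      dev := fun v hv hvp k => (hTD v hv hvp k).2
      step := fun v hv hvp k => by
        rw [norm_sub_rev]; exact adj_near hS hcov (hTD v hv hvp k).1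
      inv := fun v hv hvp k hk => (hTi v hv hvp k hk).1
      tri := fun v hv hvp k hk => (hTi v hv hvp k hk).2 }
  -- numerics
  have hs3 : (0 : ℝ) < √3 := Real.sqrt_pos.2 (by norm_num)
  have hs3sq : √3 ^ 2 = 3 := Real.sq_sqrt (by norm_num)
  have hs3lo : (1.732 : ℝ) ≤ √3 := Real.le_sqrt_of_sq_le (by norm_num)
  have hs3hi : √3 ≤ 1.8 := by
    rw [show (1.8 : ℝ) = √(1.8 ^ 2) from (Real.sqrt_sq (by norm_num)).symm]
    exact Real.sqrt_le_sqrt (by norm_num)
  have hpi0 := Real.pi_pos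
  have hpi := Real.pi_lt_d4
  have hq10 : q ≤ 1 / 10 := by norm_num at hq ⊢; linarith
  have hq5 : q ≤ 1e-5 := by norm_num at hq ⊢; linarith
  obtain ⟨hpen0, hpen⟩ := sum_pen hS hq10 hq0.le hcov hX hXc hvol
  set τ : ℝ := ε + 3 * q ^ 2 with hτ
  -- bad vertices
  set FB : Finset (E3 × E3 × E3) := (FS S).filter (fun t => 1e-12 * X ^ 2 < pen X t) with hFB
  set Bad : Finset E3 := FB.image (fun t => t.1) with hBad
  have hBc : (Bad.card : ℝ) ≤ FB.card := by exact_mod_cast Finset.card_image_le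
  have hFBc : (FB.card : ℝ) * (1e-12 * X ^ 2) ≤ √3 * Real.pi * X * τ := by
    have e1 : (FB.card : ℝ) * (1e-12 * X ^ 2) ≤ ∑ t ∈ FB, pen X t := by
      rw [← nsmul_eq_mul, ← Finset.sum_const]
      exact Finset.sum_le_sum fun t ht => (Finset.mem_filter.1 ht).2.le
    have e2 : ∑ t ∈ FB, pen X t ≤ ∑ t ∈ FS S, pen X t :=
      Finset.sum_le_sum_of_subset_of_nonneg (Finset.filter_subset _ _)
        (fun t ht _ => hpen0 t ht)
    exact e1.trans (e2.trans hpen)
  have hB : (Bad.card : ℝ) * l * q ≤ 1e-16 := by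
    set b : ℝ := (Bad.card : ℝ) with hb
    have hb0 : 0 ≤ b := Nat.cast_nonneg _
    -- b * X ≤ 1e12 * √3 π τ
    have e1 : b * (1e-12 * X ^ 2) ≤ √3 * Real.pi * X * τ :=
      (mul_le_mul_of_nonneg_right hBc (by positivity)).trans hFBc
    have e2 : (b * X) * X ≤ (1e12 * (√3 * Real.pi * τ)) * X := by
      have : (1e-12 : ℝ) * 1e12 = 1 := by norm_num
      nlinarith
    have e3 : b * X ≤ 1e12 * (√3 * Real.pi * τ) := le_of_mul_le_mul_right e2 hX
    -- insert X
    rw [hlX] at e3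
    have e4 : b * l ^ 2 ≤ 2e12 * (Real.pi * τ) := by
      have : √3 * (b * l ^ 2) ≤ √3 * (2e12 * (Real.pi * τ)) := by nlinarith
      exact le_of_mul_le_mul_left this hs3
    have e5 : (b * l ^ 2) * q ≤ 2e12 * Real.pi * (1e-29 * l) := by
      have := mul_le_mul_of_nonneg_right e4 hq0.le
      have h3 : 2e12 * (Real.pi * τ) * q = 2e12 * Real.pi * (τ * q) := by ring
      rw [h3] at this
      exact this.trans (mul_le_mul_of_nonneg_left h2 (by positivity))
    have e6 : (b * l * q) * l ≤ (2e-17 * Real.pi) * l := by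
      have h4 : 2e12 * Real.pi * (1e-29 * l) = (2e-17 * Real.pi) * l := by
        norm_num; ring
      rw [← h4]; linarith
    have e7 : b * l * q ≤ 2e-17 * Real.pi := le_of_mul_le_mul_right e6 hl0
    have e8 : 2e-17 * Real.pi ≤ (1e-16 : ℝ) := by
      norm_num at hpi ⊢; linarith
    exact e7.trans e8
  have hgood : ∀ v ∈ S, ‖v - p‖ < 0.577 → v ∉ Bad → ∀ k, |‖T k v - v‖ - l| ≤ 1e-4 * l := by
    intro v hv hvp hvB k
    have hadj := (hTD v hv hvp k).1
    obtain ⟨hfac, htp⟩ := nxt_spec hS hadj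
    obtain ⟨hm1, hm2, hm3⟩ := ca_facet_mem hfac
    set t : E3 × E3 × E3 := (v, T k v, nxt S v (T k v)) with ht
    have htFS : t ∈ FS S := by
      unfold FS
      rw [Finset.mem_filter, Finset.mem_product, Finset.mem_product]
      exact ⟨⟨hm1, hm2, hm3⟩, hfac, htp⟩
    have hpent : pen X t ≤ 1e-12 * X ^ 2 := by
      by_contra hc
      push Not at hc
      exact hvB (Finset.mem_image.2 ⟨t, Finset.mem_filter.2 ⟨htFS, hc⟩, rfl⟩)
    have := near_regular (hS.unit _ hm1) (hS.unit _ hm2) (hS.unit _ hm3) htp hl0 hlX (by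
      have h := hpent
      unfold pen sq3 tpt at h
      exact h)
    rw [norm_sub_rev]
    exact this
  have hup : ∀ v ∈ S, ‖v - p‖ < 0.002 →
      ((S.filter (fun w => ‖w - v‖ < 0.5748)).card : ℝ) * l ^ 2 ≤ 1.2 := by
    intro v hv hvp
    have h := count_upper hS hq10 hq0.le hcov hX hXc hvol (hS.unit v hv) (κ := 0.5748)
      (by norm_num) (by norm_num) (by
        intro w hw hwv
        apply h6 w hw
        calc ‖w - p‖ = ‖(w - v) + (v - p)‖ := by congr 1; abel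
          _ ≤ ‖w - v‖ + ‖v - p‖ := norm_add_le _ _
          _ < 0.5748 + 0.002 := add_lt_add hwv hvp
          _ ≤ 0.5773 := by norm_num)
    set N : ℝ := ((S.filter (fun w => ‖w - v‖ < 0.5748)).card : ℝ) with hN
    have e1 : (0.5748 + 2 * q) ^ 2 ≤ 0.3304 := by
      have : 0.5748 + 2 * q ≤ 0.5748001 := by norm_num at hq ⊢; linarith
      have h0 : (0 : ℝ) ≤ 0.5748 + 2 * q := by positivity
      calc (0.5748 + 2 * q) ^ 2 ≤ 0.5748001 ^ 2 := pow_le_pow_left₀ h0 this 2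
        _ ≤ 0.3304 := by norm_num
    have e2 : Real.pi * (0.5748 + 2 * q) ^ 2 ≤ 3.1416 * 0.3304 :=
      mul_le_mul hpi.le e1 (by positivity) (by norm_num)
    have e3 : 4 * Real.pi * √τ ≤ 4 * 3.1416 * 1e-8 :=
      mul_le_mul (by linarith) h1 (Real.sqrt_nonneg _) (by norm_num)
    have e4 : N * X ≤ 1.0381 := by
      have : (3.1416 * 0.3304 + 4 * 3.1416 * 1e-8 : ℝ) ≤ 1.0381 := by norm_num
      linarith
    rw [hlX] at e4
    have hN0 : 0 ≤ N * l ^ 2 := by positivity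
    have e5 : 1.732 * (N * l ^ 2) ≤ √3 * (N * l ^ 2) := mul_le_mul_of_nonneg_right hs3lo hN0
    have e6 : √3 * (N * l ^ 2) ≤ 2.0762 := by
      norm_num at e4 ⊢
      linarith
    norm_num at e5 e6 ⊢
    linarith
  have hM : 1e-6 ≤ ((S.filter (fun v => ‖v - p‖ < 0.002)).card : ℝ) * l ^ 2 := by
    have h := count_lower hS hq5 hq0.le hcov hX hXc hvol hp1 (by
      intro w hw hwp
      apply h6 w hw
      exact hwp.trans (by norm_num))
    set N : ℝ := ((S.filter (fun v => ‖v - p‖ < 0.002)).card : ℝ) with hN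
    have e3 : 4 * Real.pi * √τ ≤ 4 * 3.1416 * 1e-8 :=
      mul_le_mul (by linarith) h1 (Real.sqrt_nonneg _) (by norm_num)
    rw [hlX] at h
    have hN0 : 0 ≤ N * l ^ 2 := by positivity
    have e5 : √3 * (N * l ^ 2) ≤ 1.8 * (N * l ^ 2) := mul_le_mul_of_nonneg_right hs3hi hN0
    norm_num at e3 e5 h ⊢
    linarith
  exact count_contra hdev (fun x hx => hS.unit x hx) hq0 hq5 hl0 hl (by norm_num) le_rfl Bad hB
    hgood hup hM

end Pool.Agent.Helper320.Gold.NCA
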