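import Mathlib
import Pool.Agent.Helper320.GBase
import Pool.Agent.Helper320.GEU
import Pool.Agent.Helper320.GLC
import Pool.Agent.Helper320.GCA

set_option autoImplicit false
open Set

namespace Pool.Agent.Helper320.Gold.NCB

open Pool.Agent.Helper320.Gold Pool.Agent.Helper320.Gold.NEU Pool.Agent.Helper320.Gold.NLC Pool.Agent.Helper320.Gold.NCA

set_option maxHeartbeats 4000000 in
theorem no_good_medial (C : ℝ) (hC : 0 < C) : ∃ N : ℕ, ∀ n : ℕ, N ≤ n → ∀ S : Finset E3,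
    Good S → S.card = n →
    (∀ v ∈ S, {w | Adj S v w}.ncard = 5 ∨ {w | Adj S v w}.ncard = 6) →
    4 * Real.pi / 3 - 4 * Real.pi ^ 2 / (√3 * n) * (1 + C * (n : ℝ) ^ (-(1 / 4 : ℝ))) ≤
      (MeasureTheory.volume (convexHull ℝ (S : Set E3))).toReal → False := by
  obtain ⟨K, hK⟩ : ∃ K : ℝ, K = 988 * C + 40000000 := ⟨_, rfl⟩
  obtain ⟨M, hM⟩ : ∃ M : ℝ, M = C + 3 * K ^ 2 := ⟨_, rfl⟩
  have hK1 : 40000000 ≤ K := by rw [hK]; linarith
  have hM1 : 1 ≤ M := by rw [hM]; nlinarith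
  have hMC : 1 + C ≤ M := by rw [hM]; nlinarith
  obtain ⟨δ₀, hδ₀⟩ : ∃ δ₀ : ℝ, δ₀ = 1e-30 / (M * K) := ⟨_, rfl⟩
  have hMK : 0 < M * K := by positivity
  have hδ₀0 : 0 < δ₀ := by rw [hδ₀]; positivity
  refine ⟨max 100 ⌈(1 / δ₀) ^ 16⌉₊, fun n hn S hS hcard h56 hvol => ?_⟩
  have hn100 : (100 : ℝ) ≤ n := by
    have : 100 ≤ n := (le_max_left _ _).trans hn
    exact_mod_cast this
  have hn16 : (1 / δ₀) ^ 16 ≤ (n : ℝ) := by
    have : ⌈(1 / δ₀) ^ 16⌉₊ ≤ n := (le_max_right _ _).trans hn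
    exact (Nat.le_ceil _).trans (by exact_mod_cast this)
  have hn0 : (0 : ℝ) < n := by linarith
  obtain ⟨δ, hδ⟩ : ∃ δ : ℝ, δ = (n : ℝ) ^ (-(1 / 16 : ℝ)) := ⟨_, rfl⟩
  have hδ0 : 0 < δ := by rw [hδ]; positivity
  have hδ16 : δ ^ 16 = 1 / n := by
    rw [hδ, ← Real.rpow_natCast, ← Real.rpow_mul hn0.le]
    norm_num
    rw [Real.rpow_neg_one]
  have hδ4 : δ ^ 4 = (n : ℝ) ^ (-(1 / 4 : ℝ)) := by
    rw [hδ, ← Real.rpow_natCast, ← Real.rpow_mul hn0.le]
    norm_num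
  have hδle : δ ≤ δ₀ := by
    have h1 : δ ^ 16 ≤ δ₀ ^ 16 := by
      rw [hδ16]
      rw [one_div_pow, div_le_iff₀ (by positivity)] at hn16
      rw [div_le_iff₀ hn0]
      linarith
    exact (pow_le_pow_iff_left₀ hδ0.le hδ₀0.le (by norm_num)).mp h1
  have hMKδ : M * K * δ ≤ 1e-30 := by
    have : M * K * δ ≤ M * K * δ₀ := by gcongr
    refine this.trans (le_of_eq ?_)
    rw [hδ₀]
    field_simp
  have hK0 : 0 < K := by linarith
  have hM0 : 0 < M := by linarith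
  have hKδ : K * δ ≤ 1e-30 := by
    have : 1 * (K * δ) ≤ M * (K * δ) := by gcongr
    linarith
  have hMδ : M * δ ≤ 1e-30 := by
    have : 1 * (M * δ) ≤ K * (M * δ) := by
      gcongr
      linarith
    linarith
  have hδs : δ ≤ 1e-30 := by
    have : 1 * δ ≤ K * δ := by
      gcongr
      linarith
    linarith
  have hδ1 : δ ≤ 1 := by
    have : (1e-30 : ℝ) ≤ 1 := by norm_num
    linarith
  have hpow : ∀ k : ℕ, k ≠ 0 → δ ^ k ≤ δ := fun k hk => pow_le_of_le_one hδ0.le hδ1 hk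
  -- the parameters
  obtain ⟨X, hX⟩ : ∃ X : ℝ, X = 4 * Real.pi / (n - 2) := ⟨_, rfl⟩
  have hn2 : (0 : ℝ) < n - 2 := by linarith
  have hπ := Real.pi_pos
  have hX0 : 0 < X := by rw [hX]; positivity
  have hXc : ((FS S).card : ℝ) * X = 24 * Real.pi := by
    have h1 : ((FS S).card : ℝ) + 12 = 6 * n := by
      have := euler hS
      rw [hcard] at this
      exact_mod_cast this
    have h2 : ((FS S).card : ℝ) = 6 * (n - 2) := by linarith
    rw [h2, hX]
    field_simp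
    norm_num
  have hXu : X ≤ 26 * δ ^ 16 := by
    rw [hδ16, hX, mul_one_div, div_le_div_iff₀ hn2 hn0]
    have := Real.pi_lt_d2
    nlinarith
  have hXl : 12 * δ ^ 16 ≤ X := by
    rw [hδ16, hX, mul_one_div, div_le_div_iff₀ hn0 hn2]
    have := Real.pi_gt_three
    nlinarith
  obtain ⟨ε, hε⟩ : ∃ ε : ℝ, ε = C * (n : ℝ) ^ (-(1 / 4 : ℝ)) := ⟨_, rfl⟩
  have hε4 : ε = C * δ ^ 4 := by rw [hε, hδ4]
  have hε0 : 0 ≤ ε := by rw [hε4]; positivity
  rw [← hε] at hvol
  have h3pos : 0 < √(3 : ℝ) := Real.sqrt_pos.mpr (by norm_num)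
  have h3sq : √(3 : ℝ) * √3 = 3 := Real.mul_self_sqrt (by norm_num)
  have h3l : (17 / 10 : ℝ) ≤ √3 := Real.le_sqrt_of_sq_le (by norm_num)
  have h3u : √(3 : ℝ) ≤ 2 := by
    rw [Real.sqrt_le_left (by norm_num)]
    norm_num
  have hvol' : 4 * Real.pi / 3 - √3 * Real.pi / 3 * X * (1 + ε) ≤
      (MeasureTheory.volume (convexHull ℝ (S : Set E3))).toReal := by
    refine le_trans ?_ hvol
    have h1 : 4 * Real.pi ^ 2 / (√3 * n) ≤ √3 * Real.pi / 3 * X := by
      have e1 : √3 * Real.pi / 3 * X = 4 * Real.pi ^ 2 / (√3 * (n - 2)) := by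
        rw [hX]
        field_simp
        nlinarith
      rw [e1]
      gcongr
      linarith
    have h2 : 4 * Real.pi ^ 2 / (√3 * n) * (1 + ε) ≤ √3 * Real.pi / 3 * X * (1 + ε) := by gcongr
    linarith
  obtain ⟨q, hq0, z, hz, hqz, hcov⟩ := exists_cov hS
  -- crude bound
  have hq1 : q ≤ 1 / 10 := by
    have h1 := hole_crude hS hz (r := min q 1) (le_min hq0.le zero_le_one) (min_le_right _ _)
      (fun x hx => (min_le_left _ _).trans (hqz x hx))
    have h2 : Real.pi * (min q 1) ^ 4 / 32 ≤ √3 * Real.pi / 3 * X * (1 + ε) := by linarith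
    have h3 : √3 * Real.pi / 3 * X * (1 + ε) ≤ 2 * Real.pi / 3 * (26 * δ ^ 16) * M := by
      have h4 : 1 + ε ≤ M := by
        have : C * δ ^ 4 ≤ C * 1 := by
          gcongr
          exact (hpow 4 (by norm_num)).trans hδ1
        rw [hε4]
        linarith
      gcongr
    have h5 : (min q 1) ^ 4 ≤ 600 * (M * δ ^ 16) := by
      have h6 : Real.pi * (min q 1) ^ 4 / 32 ≤ Real.pi * (52 / 3 * (M * δ ^ 16)) := by
        have : 2 * Real.pi / 3 * (26 * δ ^ 16) * M = Real.pi * (52 / 3 * (M * δ ^ 16)) := by ring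
        linarith
      have h7 : Real.pi * ((min q 1) ^ 4 / 32) ≤ Real.pi * (52 / 3 * (M * δ ^ 16)) := by
        have : Real.pi * ((min q 1) ^ 4 / 32) = Real.pi * (min q 1) ^ 4 / 32 := by ring
        linarith
      have h8 := le_of_mul_le_mul_left h7 hπ
      have h9 : 0 ≤ M * δ ^ 16 := by positivity
      linarith
    have h10 : M * δ ^ 16 ≤ M * δ := by
      gcongr
      exact hpow 16 (by norm_num)
    have h11 : (min q 1) ^ 4 ≤ (1 / 10) ^ 4 := by
      have : (600 : ℝ) * 1e-30 ≤ (1 / 10) ^ 4 := by norm_num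
      linarith
    have h12 : min q 1 ≤ 1 / 10 :=
      (pow_le_pow_iff_left₀ (le_min hq0.le zero_le_one) (by norm_num) (by norm_num)).mp h11
    rcases le_total q 1 with h | h
    · rwa [min_eq_left h] at h12
    · rw [min_eq_right h] at h12
      norm_num at h12
  -- refined bound
  have hb := hole_bound hS hq1 hq0.le hcov hz hqz hX0 hε0 hXc hvol'
  have hqK : q ≤ K * δ ^ 5 := by
    have h1 : q ^ 4 ≤ 494 * C * δ ^ 20 + 2964 * δ ^ 16 * q ^ 2 := by
      refine hb.trans ?_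
      calc 19 * X * ε + 114 * X * q ^ 2 ≤ 19 * (26 * δ ^ 16) * ε + 114 * (26 * δ ^ 16) * q ^ 2 := by
            gcongr
        _ = 494 * C * δ ^ 20 + 2964 * δ ^ 16 * q ^ 2 := by rw [hε4]; ring
    have h2 : q ^ 4 ≤ K * δ ^ 20 := by
      rcases le_total (2964 * δ ^ 16 * q ^ 2) (494 * C * δ ^ 20) with h | h
      · calc q ^ 4 ≤ 494 * C * δ ^ 20 + 494 * C * δ ^ 20 := by linarith
          _ = 988 * C * δ ^ 20 := by ring
          _ ≤ K * δ ^ 20 := by
              gcongr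
              rw [hK]
              linarith
      · have h3 : q ^ 2 * q ^ 2 ≤ 5928 * δ ^ 16 * q ^ 2 := by
          have : q ^ 4 = q ^ 2 * q ^ 2 := by ring
          linarith
        have h4 : q ^ 2 ≤ 5928 * δ ^ 16 := le_of_mul_le_mul_right h3 (by positivity)
        calc q ^ 4 = q ^ 2 * q ^ 2 := by ring
          _ ≤ (5928 * δ ^ 16) * (5928 * δ ^ 16) := by gcongr
          _ = 35141184 * δ ^ 20 * δ ^ 12 := by ring
          _ ≤ 35141184 * δ ^ 20 * 1 := by
              gcongr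
              exact (hpow 12 (by norm_num)).trans hδ1
          _ = 35141184 * δ ^ 20 := mul_one _
          _ ≤ K * δ ^ 20 := by
              gcongr
              linarith
    have h5 : q ^ 4 ≤ (K * δ ^ 5) ^ 4 := by
      calc q ^ 4 ≤ K * δ ^ 20 := h2
        _ = (K * 1) * δ ^ 20 := by ring
        _ ≤ (K * K ^ 3) * δ ^ 20 := by
            gcongr
            exact one_le_pow₀ (by linarith)
        _ = (K * δ ^ 5) ^ 4 := by ring
    exact (pow_le_pow_iff_left₀ hq0.le (by positivity) (by norm_num)).mp h5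
  have hqe : ε + 3 * q ^ 2 ≤ M * δ ^ 4 := by
    have h1 : q ^ 2 ≤ K ^ 2 * δ ^ 4 := by
      calc q ^ 2 ≤ (K * δ ^ 5) ^ 2 := by gcongr
        _ = K ^ 2 * (δ ^ 4 * δ ^ 6) := by ring
        _ ≤ K ^ 2 * (δ ^ 4 * 1) := by
            gcongr
            exact (hpow 6 (by norm_num)).trans hδ1
        _ = K ^ 2 * δ ^ 4 := by ring
    rw [hε4, hM]
    linarith
  obtain ⟨l, hl⟩ : ∃ l : ℝ, l = √(2 * X / √3) := ⟨_, rfl⟩
  have hl0 : 0 < l := by rw [hl]; apply Real.sqrt_pos.mpr; positivity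
  have hl2 : l ^ 2 = 2 * X / √3 := by rw [hl]; exact Real.sq_sqrt (by positivity)
  have hlX : X = √3 / 2 * l ^ 2 := by
    rw [hl2]
    field_simp
  have hlu : l ≤ 6 * δ ^ 8 := by
    have h1 : l ^ 2 ≤ (6 * δ ^ 8) ^ 2 := by
      rw [hl2, div_le_iff₀ h3pos]
      calc 2 * X ≤ 2 * (26 * δ ^ 16) := by gcongr
        _ = 52 * δ ^ 16 := by ring
        _ ≤ 36 * δ ^ 16 * (17 / 10) := by
            have : 0 ≤ δ ^ 16 := by positivity
            linarith
        _ ≤ 36 * δ ^ 16 * √3 := by gcongr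
        _ = (6 * δ ^ 8) ^ 2 * √3 := by ring
    exact (pow_le_pow_iff_left₀ hl0.le (by positivity) (by norm_num)).mp h1
  have hll : 3 * δ ^ 8 ≤ l := by
    have h1 : (3 * δ ^ 8) ^ 2 ≤ l ^ 2 := by
      rw [hl2, le_div_iff₀ h3pos]
      calc (3 * δ ^ 8) ^ 2 * √3 = 9 * δ ^ 16 * √3 := by ring
        _ ≤ 9 * δ ^ 16 * 2 := by gcongr
        _ ≤ 2 * (12 * δ ^ 16) := by
            have : 0 ≤ δ ^ 16 := by positivity
            linarith
        _ ≤ 2 * X := by gcongr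
    exact (pow_le_pow_iff_left₀ (by positivity) hl0.le (by norm_num)).mp h1
  apply core_contra hS h56 hq0 _ hcov hX0 hXc hε0 hvol' hl0 _ hlX
  · calc √(ε + 3 * q ^ 2) ≤ √((M * δ) ^ 2) := by
          apply Real.sqrt_le_sqrt
          refine hqe.trans ?_
          calc M * δ ^ 4 = M * 1 * (δ ^ 2 * δ ^ 2) := by ring
            _ ≤ M * M * (δ ^ 2 * 1) := by
                gcongr
                exact (hpow 2 (by norm_num)).trans hδ1
            _ = (M * δ) ^ 2 := by ring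
      _ = M * δ := Real.sqrt_sq (by positivity)
      _ ≤ 1e-8 := hMδ.trans (by norm_num)
  · calc (ε + 3 * q ^ 2) * q ≤ (M * δ ^ 4) * (K * δ ^ 5) := by gcongr
      _ = (M * K * δ) * δ ^ 8 := by ring
      _ ≤ 1e-30 * δ ^ 8 := by gcongr
      _ ≤ 1e-29 * (3 * δ ^ 8) := by
          have : 0 ≤ δ ^ 8 := by positivity
          norm_num
          linarith
      _ ≤ 1e-29 * l := by gcongr
  · calc q ≤ K * δ ^ 5 := hqK
      _ ≤ K * δ := by
          gcongr
          exact hpow 5 (by norm_num)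
      _ ≤ 1e-9 := hKδ.trans (by norm_num)
  · calc l ≤ 6 * δ ^ 8 := hlu
      _ ≤ 6 * δ := by
          gcongr
          exact hpow 8 (by norm_num)
      _ ≤ 6 * 1e-30 := by gcongr
      _ ≤ 1e-6 := by norm_num

end Pool.Agent.Helper320.Gold.NCB
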