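import Mathlib
import Pool.Agent.Helper320.GBase
import Pool.Agent.Helper320.GFA
import Pool.Agent.Helper320.GL

set_option autoImplicit false
open Set

namespace Pool.Agent.Helper320.Gold.NCL

open Pool.Agent.Helper320.Gold Pool.Agent.Helper320.Gold.NFA Pool.Agent.Helper320.Gold.NL

private theorem cl_inner_lt {p q : E3} (hp : ‖p‖ = 1) (hq : ‖q‖ = 1) (h : p ≠ q) :
    inner ℝ p q < 1 := by
  have h1 : ‖p - q‖ ^ 2 = ‖p‖ ^ 2 - 2 * inner ℝ p q + ‖q‖ ^ 2 := norm_sub_sq_real p q
  have h2 : 0 < ‖p - q‖ := norm_pos_iff.mpr (sub_ne_zero.mpr h)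
  rw [hp, hq] at h1
  nlinarith [pow_pos h2 2]

private theorem cl_prod_zero {p q r : E3} (hp : ‖p‖ = 1) (hq : ‖q‖ = 1) (hr : ‖r‖ = 1)
    (h : p ≠ q) {a b c : ℝ} (hs : a + b + c = 0) (he : a • p + b • q + c • r = 0) :
    a * b = 0 := by
  have h1 : a • p + b • q = (-c) • r := by
    rw [neg_smul]; exact eq_neg_of_add_eq_zero_left he
  have h2 : ‖a • p + b • q‖ ^ 2 = ‖(-c) • r‖ ^ 2 := by rw [h1]
  rw [norm_add_sq_real, norm_smul, norm_smul, norm_smul, inner_smul_left, inner_smul_right,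
    hp, hq, hr] at h2
  simp only [mul_one, Real.norm_eq_abs, sq_abs, conj_trivial] at h2
  have h3 := cl_inner_lt hp hq h
  have hc : c = -(a + b) := by linarith
  subst hc
  have h4 : (a * b) * (1 - inner ℝ p q) = 0 := by nlinarith
  rcases mul_eq_zero.mp h4 with h5 | h5
  · exact h5
  · linarith

private theorem cl_li {a p q r : E3} (hp : ‖p‖ = 1) (hq : ‖q‖ = 1) (hr : ‖r‖ = 1)
    (hpq : p ≠ q) (hqr : q ≠ r) (hpr : p ≠ r) (ap : inner ℝ a p = (1 : ℝ))
    (aq : inner ℝ a q = (1 : ℝ)) (ar : inner ℝ a r = (1 : ℝ)) :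
    LinearIndependent ℝ ![p, q, r] := by
  rw [Fintype.linearIndependent_iff]
  intro g hg
  rw [Fin.sum_univ_three] at hg
  simp only [Matrix.cons_val_zero, Matrix.cons_val_one, Matrix.cons_val] at hg
  have hs : g 0 + g 1 + g 2 = 0 := by
    have := congrArg (fun z => inner ℝ a z) hg
    simp only [inner_add_right, inner_smul_right, ap, aq, ar, inner_zero_right, mul_one] at this
    exact this
  have e01 : g 0 * g 1 = 0 := cl_prod_zero hp hq hr hpq hs hg
  have e12 : g 1 * g 2 = 0 := by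
    refine cl_prod_zero hq hr hp hqr (a := g 1) (b := g 2) (c := g 0) (by linarith) ?_
    rw [← hg]; abel
  have e02 : g 0 * g 2 = 0 := by
    refine cl_prod_zero hp hr hq hpr (a := g 0) (b := g 2) (c := g 1) (by linarith) ?_
    rw [← hg]; abel
  have h0 : g 0 * g 0 = 0 := by linear_combination g 0 * hs - e01 - e02
  have h1 : g 1 * g 1 = 0 := by linear_combination g 1 * hs - e01 - e12
  have h2 : g 2 * g 2 = 0 := by linear_combination g 2 * hs - e02 - e12
  intro i
  fin_cases i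
  · exact mul_self_eq_zero.mp h0
  · exact mul_self_eq_zero.mp h1
  · exact mul_self_eq_zero.mp h2

private theorem cl_eq_zero {a p q r d : E3} (hp : ‖p‖ = 1) (hq : ‖q‖ = 1) (hr : ‖r‖ = 1)
    (hpq : p ≠ q) (hqr : q ≠ r) (hpr : p ≠ r) (ap : inner ℝ a p = (1 : ℝ))
    (aq : inner ℝ a q = (1 : ℝ)) (ar : inner ℝ a r = (1 : ℝ)) (dp : inner ℝ d p = (0 : ℝ))
    (dq : inner ℝ d q = (0 : ℝ)) (dr : inner ℝ d r = (0 : ℝ)) : d = 0 := by
  have hli := cl_li hp hq hr hpq hqr hpr ap aq ar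
  have hspan : Submodule.span ℝ (Set.range ![p, q, r]) = ⊤ := by
    apply hli.span_eq_top_of_card_eq_finrank
    simp
  have hmem : d ∈ Submodule.span ℝ (Set.range ![p, q, r]) := by rw [hspan]; trivial
  have hall : ∀ x ∈ Submodule.span ℝ (Set.range ![p, q, r]), inner ℝ d x = (0 : ℝ) := by
    intro x hx
    induction hx using Submodule.span_induction with
    | mem x hx =>
      obtain ⟨i, rfl⟩ := hx
      fin_cases i
      · exact dp
      · exact dq
      · exact dr
    | zero => exact inner_zero_right _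
    | add x y _ _ hx hy => rw [inner_add_right, hx, hy, add_zero]
    | smul c x _ hx => rw [inner_smul_right, hx, mul_zero]
  exact inner_self_eq_zero.mp (hall d hmem)

private theorem cl_normal {S : Finset E3}
    (ho : ∀ a : E3, a ≠ 0 → ∃ x ∈ S, 0 < inner ℝ a x) {u v w : E3} (h : Facet S u v w) :
    ∃ n : E3, (∀ y ∈ S, inner ℝ n y ≤ (1 : ℝ)) ∧ inner ℝ n u = (1 : ℝ) ∧ inner ℝ n v = (1 : ℝ)
      ∧ inner ℝ n w = (1 : ℝ) ∧ (∀ y ∈ S, inner ℝ n y = (1 : ℝ) → (y = u ∨ y = v ∨ y = w)) := by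
  obtain ⟨_, _, _, a, ha, hm⟩ := h
  have hu : IsMax S a u := (hm u).mpr (Or.inl rfl)
  have hv : IsMax S a v := (hm v).mpr (Or.inr (Or.inl rfl))
  have hw : IsMax S a w := (hm w).mpr (Or.inr (Or.inr rfl))
  obtain ⟨x, hx, hx0⟩ := ho a ha
  have hpos : 0 < inner ℝ a u := lt_of_lt_of_le hx0 (hu.2 x hx)
  have huv : inner ℝ a v = inner ℝ a u := le_antisymm (hu.2 v hv.1) (hv.2 u hu.1)
  have huw : inner ℝ a w = inner ℝ a u := le_antisymm (hu.2 w hw.1) (hw.2 u hu.1)
  refine ⟨(inner ℝ a u)⁻¹ • a, ?_, ?_, ?_, ?_, ?_⟩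
  · intro y hy
    rw [real_inner_smul_left, inv_mul_le_iff₀ hpos, mul_one]
    exact hu.2 y hy
  · rw [real_inner_smul_left]; exact inv_mul_cancel₀ hpos.ne'
  · rw [real_inner_smul_left, huv]; exact inv_mul_cancel₀ hpos.ne'
  · rw [real_inner_smul_left, huw]; exact inv_mul_cancel₀ hpos.ne'
  · intro y hy h1
    rw [real_inner_smul_left] at h1
    have h2 : inner ℝ a y = inner ℝ a u := by
      field_simp at h1
      linarith
    exact (hm y).mp ⟨hy, fun z hz => by rw [h2]; exact hu.2 z hz⟩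

theorem good_of_closed {S : Finset E3} (hu : ∀ x ∈ S, ‖x‖ = 1)
    (ho : ∀ a : E3, a ≠ 0 → ∃ x ∈ S, 0 < inner ℝ a x) (F : E3 → E3 → E3 → Prop)
    (hne : ∃ u v w, F u v w) (hF : ∀ u v w, F u v w → Facet S u v w)
    (hrot : ∀ u v w, F u v w → F v w u)
    (hnb : ∀ u v w, F u v w → ∃ x, x ≠ w ∧ F v u x) : Good S := by
  classical
  refine ⟨hu, ?_, ho⟩
  intro a ha T hT
  by_contra hcard
  have hcard : 3 < T.card := not_le.mp hcard
  obtain ⟨T', hT'T, hT'c⟩ := Finset.exists_subset_card_eq (n := 3) (s := T) hcard.le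
  obtain ⟨p, q, r, hpq, hpr, hqr, rfl⟩ := Finset.card_eq_three.mp hT'c
  have hpT : p ∈ T := hT'T (by simp)
  have hqT : q ∈ T := hT'T (by simp)
  have hrT : r ∈ T := hT'T (by simp)
  obtain ⟨x, hx, hx0⟩ := ho a ha
  have hpos : 0 < inner ℝ a p := lt_of_lt_of_le hx0 ((hT p hpT).2 x hx)
  have hall : ∀ y ∈ T, inner ℝ a y = inner ℝ a p := fun y hy =>
    le_antisymm ((hT p hpT).2 y (hT y hy).1) ((hT y hy).2 p (hT p hpT).1)
  set a' : E3 := (inner ℝ a p)⁻¹ • a with ha'
  have a'1 : ∀ y ∈ T, inner ℝ a' y = (1 : ℝ) := by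
    intro y hy
    rw [ha', real_inner_smul_left, hall y hy]; exact inv_mul_cancel₀ hpos.ne'
  have a'le : ∀ y ∈ S, inner ℝ a' y ≤ (1 : ℝ) := by
    intro y hy
    rw [ha', real_inner_smul_left, inv_mul_le_iff₀ hpos, mul_one]
    exact (hT p hpT).2 y hy
  have hpS := (hT p hpT).1
  have hqS := (hT q hqT).1
  have hrS := (hT r hrT).1
  -- normals
  have hN : ∀ t : E3 × E3 × E3, ∃ n : E3, F t.1 t.2.1 t.2.2 →
      ((∀ y ∈ S, inner ℝ n y ≤ (1 : ℝ)) ∧ inner ℝ n t.1 = (1 : ℝ) ∧ inner ℝ n t.2.1 = (1 : ℝ)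
      ∧ inner ℝ n t.2.2 = (1 : ℝ) ∧
      (∀ y ∈ S, inner ℝ n y = (1 : ℝ) → (y = t.1 ∨ y = t.2.1 ∨ y = t.2.2))) := by
    intro t
    by_cases h : F t.1 t.2.1 t.2.2
    · obtain ⟨n, hn⟩ := cl_normal ho (hF _ _ _ h)
      exact ⟨n, fun _ => hn⟩
    · exact ⟨0, fun h' => absurd h' h⟩
  choose N hN using hN
  have hmemS : ∀ u v w, F u v w → u ∈ S ∧ v ∈ S ∧ w ∈ S := by
    intro u v w h
    obtain ⟨_, _, _, b, _, hm⟩ := hF u v w h
    exact ⟨((hm u).mpr (Or.inl rfl)).1, ((hm v).mpr (Or.inr (Or.inl rfl))).1,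
      ((hm w).mpr (Or.inr (Or.inr rfl))).1⟩
  set c : E3 := p + q + r with hc
  set X : Finset (E3 × E3 × E3) := (S ×ˢ S ×ˢ S).filter (fun t => F t.1 t.2.1 t.2.2) with hX
  have hXmem : ∀ u v w, F u v w → (u, v, w) ∈ X := by
    intro u v w h
    obtain ⟨h1, h2, h3⟩ := hmemS u v w h
    simp only [hX, Finset.mem_filter, Finset.mem_product]
    exact ⟨⟨h1, h2, h3⟩, h⟩
  have hXne : X.Nonempty := by
    obtain ⟨u, v, w, h⟩ := hne
    exact ⟨_, hXmem u v w h⟩
  obtain ⟨⟨u, v, w⟩, htX, hmax⟩ := Finset.exists_max_image X (fun t => inner ℝ (N t) c) hXne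
  have hFuvw : F u v w := by
    simp only [hX, Finset.mem_filter, Finset.mem_product] at htX
    exact htX.2
  obtain ⟨huS, hvS, hwS⟩ := hmemS u v w hFuvw
  obtain ⟨huv, hvw, huw, _⟩ := hF u v w hFuvw
  obtain ⟨n1, nu, nv, nw, n2⟩ := hN (u, v, w) hFuvw
  simp only at nu nv nw n2
  set n : E3 := N (u, v, w) with hn
  have hcn : inner ℝ n c = inner ℝ n p + inner ℝ n q + inner ℝ n r := by
    rw [hc, inner_add_right, inner_add_right]
  have hca : inner ℝ a' c = (3 : ℝ) := by
    rw [hc, inner_add_right, inner_add_right, a'1 p hpT, a'1 q hqT, a'1 r hrT]; norm_num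
  by_cases h3 : inner ℝ n c = (3 : ℝ)
  · have e1 := n1 p hpS
    have e2 := n1 q hqS
    have e3 := n1 r hrS
    have f1 : inner ℝ n p = (1 : ℝ) := by linarith
    have f2 : inner ℝ n q = (1 : ℝ) := by linarith
    have f3 : inner ℝ n r = (1 : ℝ) := by linarith
    have hz : n - a' = 0 := by
      apply cl_eq_zero (hu p hpS) (hu q hqS) (hu r hrS) hpq hqr hpr f1 f2 f3
      · rw [inner_sub_left, f1, a'1 p hpT, sub_self]
      · rw [inner_sub_left, f2, a'1 q hqT, sub_self]
      · rw [inner_sub_left, f3, a'1 r hrT, sub_self]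
    have hna : n = a' := sub_eq_zero.mp hz
    have hsub : T ⊆ {u, v, w} := by
      intro y hy
      have := n2 y (hT y hy).1 (by rw [hna]; exact a'1 y hy)
      simpa using this
    have := Finset.card_le_card hsub
    have h4 : ({u, v, w} : Finset E3).card ≤ 3 := Finset.card_le_three
    omega
  · have hlt : inner ℝ n c < (3 : ℝ) := by
      apply lt_of_le_of_ne _ h3
      rw [hcn]
      linarith [n1 p hpS, n1 q hqS, n1 r hrS]
    -- neighbour across an edge
    have hnbr : ∀ u' v' w', F u' v' w' → inner ℝ n u' = (1 : ℝ) → inner ℝ n v' = (1 : ℝ) →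
        inner ℝ n w' = (1 : ℝ) → ∃ e : E3, inner ℝ e u' = (0 : ℝ) ∧ inner ℝ e v' = (0 : ℝ) ∧
          inner ℝ e w' < (0 : ℝ) ∧ inner ℝ e c ≤ (0 : ℝ) := by
      intro u' v' w' h' k1 k2 k3
      obtain ⟨x', hx', hFx⟩ := hnb u' v' w' h'
      obtain ⟨m1, mv, mu, mx, m2⟩ := hN (v', u', x') hFx
      simp only at mv mu mx m2
      obtain ⟨d1, d2, d3, _⟩ := hF u' v' w' h'
      have hw'S := (hmemS u' v' w' h').2.2
      refine ⟨N (v', u', x') - n, ?_, ?_, ?_, ?_⟩
      · rw [inner_sub_left, mu, k1, sub_self]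
      · rw [inner_sub_left, mv, k2, sub_self]
      · rw [inner_sub_left, k3]
        have : inner ℝ (N (v', u', x')) w' < (1 : ℝ) := by
          apply lt_of_le_of_ne (m1 w' hw'S)
          intro heq
          rcases m2 w' hw'S heq with h | h | h
          · exact d2 h.symm
          · exact d3 h.symm
          · exact hx' h.symm
        linarith
      · rw [inner_sub_left]
        have := hmax _ (hXmem v' u' x' hFx)
        linarith
    obtain ⟨ew, w1, w2, w3, w4⟩ := hnbr u v w hFuvw nu nv nw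
    obtain ⟨eu, u1, u2, u3, u4⟩ := hnbr v w u (hrot _ _ _ hFuvw) nv nw nu
    obtain ⟨ev, v1, v2, v3, v4⟩ := hnbr w u v (hrot _ _ _ (hrot _ _ _ hFuvw)) nw nu nv
    set d : E3 := a' - n with hd
    have du : inner ℝ d u ≤ (0 : ℝ) := by
      rw [hd, inner_sub_left, nu]; linarith [a'le u huS]
    have dv : inner ℝ d v ≤ (0 : ℝ) := by
      rw [hd, inner_sub_left, nv]; linarith [a'le v hvS]
    have dw : inner ℝ d w ≤ (0 : ℝ) := by
      rw [hd, inner_sub_left, nw]; linarith [a'le w hwS]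
    have dc : 0 < inner ℝ d c := by
      rw [hd, inner_sub_left, hca]; linarith
    have hz : d - ((inner ℝ d w / inner ℝ ew w) • ew + (inner ℝ d u / inner ℝ eu u) • eu
        + (inner ℝ d v / inner ℝ ev v) • ev) = 0 := by
      apply cl_eq_zero (hu u huS) (hu v hvS) (hu w hwS) huv hvw huw nu nv nw
      · rw [inner_sub_left, inner_add_left, inner_add_left, real_inner_smul_left,
          real_inner_smul_left, real_inner_smul_left, w1, v2, div_mul_cancel₀ _ u3.ne]
        ring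
      · rw [inner_sub_left, inner_add_left, inner_add_left, real_inner_smul_left,
          real_inner_smul_left, real_inner_smul_left, w2, u1, div_mul_cancel₀ _ v3.ne]
        ring
      · rw [inner_sub_left, inner_add_left, inner_add_left, real_inner_smul_left,
          real_inner_smul_left, real_inner_smul_left, v1, u2, div_mul_cancel₀ _ w3.ne]
        ring
    have hd2 : d = (inner ℝ d w / inner ℝ ew w) • ew + (inner ℝ d u / inner ℝ eu u) • eu
        + (inner ℝ d v / inner ℝ ev v) • ev := sub_eq_zero.mp hz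
    have hdc : inner ℝ d c = (inner ℝ d w / inner ℝ ew w) * inner ℝ ew c
        + (inner ℝ d u / inner ℝ eu u) * inner ℝ eu c
        + (inner ℝ d v / inner ℝ ev v) * inner ℝ ev c := by
      conv_lhs => rw [hd2]
      rw [inner_add_left, inner_add_left, real_inner_smul_left,
          real_inner_smul_left, real_inner_smul_left]
    have k1 : (inner ℝ d w / inner ℝ ew w) * inner ℝ ew c ≤ 0 :=
      mul_nonpos_of_nonneg_of_nonpos (div_nonneg_of_nonpos dw w3.le) w4
    have k2 : (inner ℝ d u / inner ℝ eu u) * inner ℝ eu c ≤ 0 :=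
      mul_nonpos_of_nonneg_of_nonpos (div_nonneg_of_nonpos du u3.le) u4
    have k3 : (inner ℝ d v / inner ℝ ev v) * inner ℝ ev c ≤ 0 :=
      mul_nonpos_of_nonneg_of_nonpos (div_nonneg_of_nonpos dv v3.le) v4
    linarith

theorem valence_of_cycle {S : Finset E3} (hS : Good S) {v : E3} {d : ℕ} (hd : 0 < d)
    (w : ℕ → E3) (hinj : ∀ i < d, ∀ j < d, w i = w j → i = j) (hper : w d = w 0)
    (hF : ∀ i < d, Facet S v (w i) (w (i + 1)) ∧ 0 < tp v (w i) (w (i + 1))) :
    {x | Adj S v x}.ncard = d := by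
  classical
  have hnxt : ∀ i < d, nxt S v (w i) = w (i + 1) := fun i hi => nxt_eq hS (hF i hi).1 (hF i hi).2
  have hadj : ∀ i < d, Adj S v (w i) := fun i hi => adj_of_facet hS (hF i hi).1
  have hit : ∀ k : ℕ, (nxt S v)^[k] (w 0) = w (k % d) := by
    intro k
    induction k with
    | zero => simp
    | succ k ih =>
      rw [Function.iterate_succ_apply', ih, hnxt _ (Nat.mod_lt _ hd)]
      have hlt := Nat.mod_lt k hd
      rcases Nat.lt_or_ge (k % d + 1) d with h | h
      · have : (k + 1) % d = k % d + 1 := by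
          rw [Nat.add_mod, Nat.mod_eq_of_lt (show 1 < d by omega), Nat.mod_eq_of_lt h]
        rw [this]
      · have h1 : k % d + 1 = d := by omega
        have : (k + 1) % d = 0 := by
          have h2 : (k + 1) % d = (k % d + 1) % d := by rw [Nat.mod_add_mod]
          rw [h2, h1, Nat.mod_self]
        rw [this, h1, hper]
  have hset : {x | Adj S v x} = (fun i => w i) '' (↑(Finset.range d) : Set ℕ) := by
    ext x
    simp only [Set.mem_setOf_eq, Set.mem_image, Finset.coe_range, Set.mem_Iio]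
    constructor
    · intro hx
      obtain ⟨k, hk⟩ := link_conn hS (hadj 0 hd) hx
      exact ⟨k % d, Nat.mod_lt _ hd, by rw [← hit, hk]⟩
    · rintro ⟨i, hi, rfl⟩
      exact hadj i hi
  rw [hset, Set.ncard_image_of_injOn]
  · rw [Set.ncard_coe_finset, Finset.card_range]
  · intro i hi j hj hij
    simp only [Finset.coe_range, Set.mem_Iio] at hi hj
    exact hinj i hi j hj hij

end Pool.Agent.Helper320.Gold.NCL
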