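import Mathlib
import Pool.Agent.Helper320.GBase
import Pool.Agent.Helper320.GCL

set_option autoImplicit false
open Set

namespace Pool.Agent.Helper320.Gold.NEX

open Pool.Agent.Helper320.Gold Pool.Agent.Helper320.Gold.NCL

section aux
open Real

noncomputable def mk3 (a b c : ℝ) : E3 := !₂[a, b, c]

@[simp] lemma mk3_0 (a b c : ℝ) : mk3 a b c 0 = a := rfl
@[simp] lemma mk3_1 (a b c : ℝ) : mk3 a b c 1 = b := rfl
@[simp] lemma mk3_2 (a b c : ℝ) : mk3 a b c 2 = c := rfl

lemma inner3 (a x : E3) : inner ℝ a x = a 0 * x 0 + a 1 * x 1 + a 2 * x 2 := by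
  rw [PiLp.inner_apply, Fin.sum_univ_three]
  simp only [RCLike.inner_apply, conj_trivial]
  ring

lemma norm3 {x : E3} (h : x 0 ^ 2 + x 1 ^ 2 + x 2 ^ 2 = 1) : ‖x‖ = 1 := by
  rw [EuclideanSpace.norm_eq, Fin.sum_univ_three]
  simp only [Real.norm_eq_abs, sq_abs]
  rw [h, Real.sqrt_one]

/-- cosine and sine of integer multiples of `π/5` -/
noncomputable def ka (u : ℤ) : ℝ := Real.cos (u * (π / 5))
noncomputable def si (u : ℤ) : ℝ := Real.sin (u * (π / 5))
noncomputable def CC : ℝ := (1 + √5) / 4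

lemma CC_sq : 4 * CC ^ 2 = 2 * CC + 1 := by
  have h : (√5) ^ 2 = 5 := Real.sq_sqrt (by norm_num)
  unfold CC
  nlinarith

lemma CC_lo : 0.809 < CC := by
  have h : (2.236 : ℝ) < √5 := by
    rw [Real.lt_sqrt (by norm_num)]; norm_num
  unfold CC; linarith

lemma CC_hi : CC < 0.8091 := by
  have h : √5 < (2.2362 : ℝ) := by
    rw [Real.sqrt_lt' (by norm_num)]; norm_num
  unfold CC; linarith

lemma ka_sq (u : ℤ) : ka u ^ 2 + si u ^ 2 = 1 := Real.cos_sq_add_sin_sq _

lemma ka_sub (s f : ℤ) : ka (s - f) = ka s * ka f + si s * si f := by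
  unfold ka si
  rw [← Real.cos_sub]; push_cast; ring_nf

lemma si_sub (s f : ℤ) : si (s - f) = si s * ka f - ka s * si f := by
  unfold ka si
  rw [← Real.sin_sub]; push_cast; ring_nf

lemma ka_per (u q : ℤ) : ka (u + 10 * q) = ka u := by
  unfold ka
  rw [← Real.cos_add_int_mul_two_pi (u * (π / 5)) q]
  congr 1; push_cast; ring

lemma si_per (u q : ℤ) : si (u + 10 * q) = si u := by
  unfold si
  rw [← Real.sin_add_int_mul_two_pi (u * (π / 5)) q]
  congr 1; push_cast; ring

lemma ka_mod (u : ℤ) : ka u = ka (u % 10) := by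
  conv_lhs => rw [← Int.emod_add_mul_ediv u 10]
  exact ka_per _ _

lemma ka0 : ka 0 = 1 := by simp [ka]
lemma ka1 : ka 1 = CC := by
  unfold ka CC
  rw [Int.cast_one, one_mul, Real.cos_pi_div_five]
lemma ka2 : ka 2 = CC - 1 / 2 := by
  have h : ka 2 = 2 * ka 1 ^ 2 - 1 := by
    unfold ka
    rw [← Real.cos_two_mul]; congr 1; push_cast; ring
  rw [h, ka1]
  have := CC_sq
  linarith
lemma ka_refl (u : ℤ) : ka (5 - u) = - ka u := by
  unfold ka
  rw [← Real.cos_pi_sub]; congr 1; push_cast; ring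
lemma ka_refl2 (u : ℤ) : ka (10 - u) = ka u := by
  unfold ka
  rw [← Real.cos_two_pi_sub]; congr 1; push_cast; ring
lemma ka3 : ka 3 = 1 / 2 - CC := by
  have := ka_refl 2
  rw [ka2] at this
  rw [show (3 : ℤ) = 5 - 2 by norm_num, this]; ring
lemma ka4 : ka 4 = - CC := by
  have := ka_refl 1
  rw [ka1] at this
  rw [show (4 : ℤ) = 5 - 1 by norm_num, this]
lemma ka5 : ka 5 = - 1 := by
  have := ka_refl 0
  rw [ka0] at this
  rw [show (5 : ℤ) = 5 - 0 by norm_num, this]
lemma ka6 : ka 6 = - CC := by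
  rw [show (6 : ℤ) = 10 - 4 by norm_num, ka_refl2, ka4]
lemma ka7 : ka 7 = 1 / 2 - CC := by
  rw [show (7 : ℤ) = 10 - 3 by norm_num, ka_refl2, ka3]
lemma ka8 : ka 8 = CC - 1 / 2 := by
  rw [show (8 : ℤ) = 10 - 2 by norm_num, ka_refl2, ka2]
lemma ka9 : ka 9 = CC := by
  rw [show (9 : ℤ) = 10 - 1 by norm_num, ka_refl2, ka1]

lemma ka_le_one (u : ℤ) : ka u ≤ 1 := Real.cos_le_one _

lemma ka_one {u : ℤ} (h : ka u = 1) : u % 10 = 0 := by
  rw [ka_mod] at h
  have h1 : 0 ≤ u % 10 := Int.emod_nonneg _ (by norm_num)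
  have h2 : u % 10 < 10 := Int.emod_lt_of_pos _ (by norm_num)
  have hlo := CC_lo
  have hhi := CC_hi
  generalize u % 10 = r at *
  interval_cases r
  · rfl
  all_goals exfalso
  · rw [ka1] at h; linarith
  · rw [ka2] at h; linarith
  · rw [ka3] at h; linarith
  · rw [ka4] at h; linarith
  · rw [ka5] at h; linarith
  · rw [ka6] at h; linarith
  · rw [ka7] at h; linarith
  · rw [ka8] at h; linarith
  · rw [ka9] at h; linarith

lemma ka_odd {u : ℤ} (hu : u % 2 = 1) : ka u ≤ CC ∧ (ka u = CC → u % 10 = 1 ∨ u % 10 = 9) := by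
  rw [ka_mod]
  have h1 : 0 ≤ u % 10 := Int.emod_nonneg _ (by norm_num)
  have h2 : u % 10 < 10 := Int.emod_lt_of_pos _ (by norm_num)
  have h3 : (u % 10) % 2 = 1 := by omega
  have hlo := CC_lo
  have hhi := CC_hi
  generalize u % 10 = r at *
  interval_cases r
  · omega
  · rw [ka1]; exact ⟨le_refl _, fun _ => Or.inl rfl⟩
  · omega
  · rw [ka3]; exact ⟨by linarith, fun h => by linarith⟩
  · omega
  · rw [ka5]; exact ⟨by linarith, fun h => by linarith⟩
  · omega
  · rw [ka7]; exact ⟨by linarith, fun h => by linarith⟩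
  · omega
  · rw [ka9]; exact ⟨le_refl _, fun _ => Or.inr rfl⟩

noncomputable def rho (j : ℤ) : ℝ := (2 : ℝ) ^ j

lemma rho_pos (j : ℤ) : 0 < rho j := by unfold rho; positivity

lemma rho_succ (j : ℤ) : rho (j + 1) = 2 * rho j := by
  unfold rho
  rw [zpow_add_one₀ (by norm_num)]; ring

lemma rho_add (i j : ℤ) : rho (i + j) = rho i * rho j := by
  unfold rho
  rw [zpow_add₀ (by norm_num)]

lemma rho_le {i j : ℤ} (h : i ≤ j) : rho i ≤ rho j := by
  unfold rho
  exact zpow_le_zpow_right₀ (by norm_num) h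

lemma rho_inj {i j : ℤ} (h : rho i = rho j) : i = j := by
  unfold rho at h
  exact zpow_right_injective₀ (by norm_num) (by norm_num) h

lemma rho0 : rho 0 = 1 := by simp [rho]
lemma rho1 : rho 1 = 2 := by simp [rho]
lemma rho2 : rho 2 = 4 := by unfold rho; norm_num
lemma rho3 : rho 3 = 8 := by unfold rho; norm_num
lemma rhom1 : rho (-1) = 1 / 2 := by unfold rho; norm_num
lemma rhom2 : rho (-2) = 1 / 4 := by unfold rho; norm_num

/-- the basic dichotomy for the levels -/
lemma rho_odd {n : ℤ} (hn : n % 2 = 1) : rho n ≤ 1 / 2 ∨ n = 1 ∨ 8 ≤ rho n := by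
  rcases lt_trichotomy n 1 with h | h | h
  · left; rw [← rhom1]; exact rho_le (by omega)
  · right; left; exact h
  · right; right; rw [← rho3]; exact rho_le (by omega)

lemma rho_even {n : ℤ} (hn : n % 2 = 0) : rho n ≤ 1 / 4 ∨ n = 0 ∨ 4 ≤ rho n := by
  rcases lt_trichotomy n 0 with h | h | h
  · left; rw [← rhom2]; exact rho_le (by omega)
  · right; left; exact h
  · right; right; rw [← rho2]; exact rho_le (by omega)

noncomputable def c1 : ℝ := 3 / (2 * (2 - CC))
noncomputable def P1 : ℝ := 4 * c1 - 4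
noncomputable def c2 : ℝ := 3 / (2 * (2 * CC - 1))
noncomputable def P2 : ℝ := 2 * c2 - 1

lemma c1_eq : c1 * (4 - 2 * CC) = 3 := by
  have hhi := CC_hi
  unfold c1
  have : (2 * (2 - CC)) ≠ 0 := by
    have : 0 < 2 - CC := by linarith
    positivity
  rw [div_mul_eq_mul_div, div_eq_iff this]
  ring

lemma c2_eq : c2 * (4 * CC - 2) = 3 := by
  have hlo := CC_lo
  unfold c2
  have : (2 * (2 * CC - 1)) ≠ 0 := by
    have : 0 < 2 * CC - 1 := by linarith
    positivity
  rw [div_mul_eq_mul_div, div_eq_iff this]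
  ring

lemma c1_pos : 0 < c1 := by
  have hhi := CC_hi
  unfold c1
  have : 0 < 2 - CC := by linarith
  positivity

lemma c2_pos : 0 < c2 := by
  have hlo := CC_lo
  unfold c2
  have : 0 < 2 * CC - 1 := by linarith
  positivity

lemma P1_b : 1 < P1 ∧ P1 < 4 := by
  have h := c1_eq
  have hlo := CC_lo
  have hhi := CC_hi
  have h0 := c1_pos
  unfold P1
  constructor
  · nlinarith
  · nlinarith

lemma P2_b : 1 < P2 ∧ P2 < 4 := by
  have h := c2_eq
  have hlo := CC_lo
  have hhi := CC_hi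
  have h0 := c2_pos
  unfold P2
  constructor
  · nlinarith
  · nlinarith

lemma num1 (n u : ℤ) (hpar : (n + u) % 2 = 1) :
    0 ≤ rho n ^ 2 - 2 * rho n * c1 * ka u + P1 ∧
      (rho n ^ 2 - 2 * rho n * c1 * ka u + P1 = 0 →
        (n = 0 ∧ (u % 10 = 1 ∨ u % 10 = 9)) ∨ (n = 1 ∧ u % 10 = 0)) := by
  have hc := c1_eq
  have hc0 := c1_pos
  obtain ⟨hP1, hP2⟩ := P1_b
  have hx := rho_pos n
  have hPd : P1 = 4 * c1 - 4 := rfl
  rcases Int.emod_two_eq_zero_or_one n with hn | hn
  · -- n even, u odd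
    have hu : u % 2 = 1 := by omega
    obtain ⟨hk, hk2⟩ := ka_odd hu
    have hPe : P1 = 2 * c1 * CC - 1 := by rw [hPd]; linarith
    -- lower bound
    have hlow : (rho n - 1) * (rho n - P1) ≤ rho n ^ 2 - 2 * rho n * c1 * ka u + P1 := by
      have h1 : rho n * c1 * ka u ≤ rho n * c1 * CC :=
        mul_le_mul_of_nonneg_left hk (by positivity)
      have h2 : (rho n - 1) * (rho n - P1) = rho n ^ 2 - 2 * rho n * c1 * CC + P1 := by
        have : rho n * (1 + P1) = rho n * (2 * c1 * CC) := by rw [hPe]; ring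
        linarith
      rw [h2]; linarith
    rcases rho_even hn with h | h | h
    · have hpos : 0 < (rho n - 1) * (rho n - P1) := mul_pos_of_neg_of_neg (by linarith) (by linarith)
      exact ⟨by linarith, fun h0 => by linarith⟩
    · subst h
      rw [rho0]
      have h3 : (1 : ℝ) ^ 2 - 2 * 1 * c1 * ka u + P1 = 2 * c1 * (CC - ka u) := by
        rw [hPe]; ring
      rw [h3]
      refine ⟨mul_nonneg (by positivity) (by linarith), fun h0 => ?_⟩
      left
      refine ⟨rfl, hk2 ?_⟩
      rcases mul_eq_zero.1 h0 with h4 | h4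
      · linarith
      · linarith
    · have hpos : 0 < (rho n - 1) * (rho n - P1) := mul_pos (by linarith) (by linarith)
      exact ⟨by linarith, fun h0 => by linarith⟩
  · -- n odd
    have hk := ka_le_one u
    have hlow : (rho n - 2) * (rho n - P1 / 2) ≤ rho n ^ 2 - 2 * rho n * c1 * ka u + P1 := by
      have h1 : rho n * c1 * ka u ≤ rho n * c1 * 1 :=
        mul_le_mul_of_nonneg_left hk (by positivity)
      have h2 : (rho n - 2) * (rho n - P1 / 2) = rho n ^ 2 - 2 * rho n * c1 * 1 + P1 := by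
        rw [hPd]; ring
      rw [h2]; linarith
    rcases rho_odd hn with h | h | h
    · have hpos : 0 < (rho n - 2) * (rho n - P1 / 2) :=
        mul_pos_of_neg_of_neg (by linarith) (by linarith)
      exact ⟨by linarith, fun h0 => by linarith⟩
    · subst h
      rw [rho1]
      have h3 : (2 : ℝ) ^ 2 - 2 * 2 * c1 * ka u + P1 = 4 * c1 * (1 - ka u) := by
        rw [hPd]; ring
      rw [h3]
      refine ⟨mul_nonneg (by positivity) (by linarith), fun h0 => ?_⟩
      right
      refine ⟨rfl, ka_one ?_⟩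
      rcases mul_eq_zero.1 h0 with h4 | h4
      · linarith
      · linarith
    · have hpos : 0 < (rho n - 2) * (rho n - P1 / 2) := mul_pos (by linarith) (by linarith)
      exact ⟨by linarith, fun h0 => by linarith⟩

lemma num2 (n u : ℤ) (hpar : (n + u) % 2 = 0) :
    0 ≤ rho n ^ 2 - 2 * rho n * c2 * ka u + P2 ∧
      (rho n ^ 2 - 2 * rho n * c2 * ka u + P2 = 0 →
        (n = 0 ∧ u % 10 = 0) ∨ (n = 1 ∧ (u % 10 = 1 ∨ u % 10 = 9))) := by
  have hc := c2_eq
  have hc0 := c2_pos
  obtain ⟨hP1, hP2⟩ := P2_b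
  have hx := rho_pos n
  have hPd : P2 = 2 * c2 - 1 := rfl
  rcases Int.emod_two_eq_zero_or_one n with hn | hn
  · -- n even, u even
    have hk := ka_le_one u
    have hlow : (rho n - 1) * (rho n - P2) ≤ rho n ^ 2 - 2 * rho n * c2 * ka u + P2 := by
      have h1 : rho n * c2 * ka u ≤ rho n * c2 * 1 :=
        mul_le_mul_of_nonneg_left hk (by positivity)
      have h2 : (rho n - 1) * (rho n - P2) = rho n ^ 2 - 2 * rho n * c2 * 1 + P2 := by
        rw [hPd]; ring
      rw [h2]; linarith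
    rcases rho_even hn with h | h | h
    · have hpos : 0 < (rho n - 1) * (rho n - P2) := mul_pos_of_neg_of_neg (by linarith) (by linarith)
      exact ⟨by linarith, fun h0 => by linarith⟩
    · subst h
      rw [rho0]
      have h3 : (1 : ℝ) ^ 2 - 2 * 1 * c2 * ka u + P2 = 2 * c2 * (1 - ka u) := by
        rw [hPd]; ring
      rw [h3]
      refine ⟨mul_nonneg (by positivity) (by linarith), fun h0 => ?_⟩
      left
      refine ⟨rfl, ka_one ?_⟩
      rcases mul_eq_zero.1 h0 with h4 | h4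
      · linarith
      · linarith
    · have hpos : 0 < (rho n - 1) * (rho n - P2) := mul_pos (by linarith) (by linarith)
      exact ⟨by linarith, fun h0 => by linarith⟩
  · -- n odd, u odd
    have hu : u % 2 = 1 := by omega
    obtain ⟨hk, hk2⟩ := ka_odd hu
    have hPe : P2 = 4 * c2 * CC - 4 := by rw [hPd]; linarith
    have hlow : (rho n - 2) * (rho n - P2 / 2) ≤ rho n ^ 2 - 2 * rho n * c2 * ka u + P2 := by
      have h1 : rho n * c2 * ka u ≤ rho n * c2 * CC :=
        mul_le_mul_of_nonneg_left hk (by positivity)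
      have h2 : (rho n - 2) * (rho n - P2 / 2) = rho n ^ 2 - 2 * rho n * c2 * CC + P2 := by
        have : rho n * (2 + P2 / 2) = rho n * (2 * c2 * CC) := by rw [hPe]; ring
        linarith
      rw [h2]; linarith
    rcases rho_odd hn with h | h | h
    · have hpos : 0 < (rho n - 2) * (rho n - P2 / 2) :=
        mul_pos_of_neg_of_neg (by linarith) (by linarith)
      exact ⟨by linarith, fun h0 => by linarith⟩
    · subst h
      rw [rho1]
      have h3 : (2 : ℝ) ^ 2 - 2 * 2 * c2 * ka u + P2 = 4 * c2 * (CC - ka u) := by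
        rw [hPe]; ring
      rw [h3]
      refine ⟨mul_nonneg (by positivity) (by linarith), fun h0 => ?_⟩
      right
      refine ⟨rfl, hk2 ?_⟩
      rcases mul_eq_zero.1 h0 with h4 | h4
      · linarith
      · linarith
    · have hpos : 0 < (rho n - 2) * (rho n - P2 / 2) := mul_pos (by linarith) (by linarith)
      exact ⟨by linarith, fun h0 => by linarith⟩

/-- the points -/
noncomputable def p (j t : ℤ) : E3 :=
  mk3 (2 * rho j * ka t / (1 + rho j ^ 2)) (2 * rho j * si t / (1 + rho j ^ 2))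
    ((rho j ^ 2 - 1) / (1 + rho j ^ 2))
noncomputable def NP : E3 := mk3 0 0 1
noncomputable def OP : E3 := mk3 0 0 (-1)

lemma den_pos (j : ℤ) : 0 < 1 + rho j ^ 2 := by positivity

lemma p_congr {j t t' : ℤ} (h : (t - t') % 10 = 0) : p j t = p j t' := by
  have h1 : t = t' + 10 * ((t - t') / 10) := by omega
  unfold p
  rw [h1, ka_per, si_per]

lemma p_unit (j t : ℤ) : ‖p j t‖ = 1 := by
  apply norm3
  have h := ka_sq t
  have hd := den_pos j
  simp only [p, mk3_0, mk3_1, mk3_2]
  have : 4 * rho j ^ 2 * (ka t ^ 2 + si t ^ 2) + (rho j ^ 2 - 1) ^ 2 = (1 + rho j ^ 2) ^ 2 := by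
    rw [h]; ring
  rw [div_pow, div_pow, div_pow, ← add_div, ← add_div, div_eq_one_iff_eq (by positivity), ← this]
  ring

lemma NP_unit : ‖NP‖ = 1 := norm3 (by simp [NP])
lemma OP_unit : ‖OP‖ = 1 := norm3 (by simp [OP])

lemma p2_lt (j t : ℤ) : p j t 2 < 1 := by
  simp only [p, mk3_2]
  rw [div_lt_one (den_pos j)]; linarith

lemma p2_gt (j t : ℤ) : -1 < p j t 2 := by
  simp only [p, mk3_2]
  rw [lt_div_iff₀ (den_pos j)]
  have := rho_pos j
  nlinarith

lemma p_ne_NP (j t : ℤ) : p j t ≠ NP := by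
  intro h
  have h1 := p2_lt j t
  rw [h] at h1
  simp [NP] at h1

lemma p_ne_OP (j t : ℤ) : p j t ≠ OP := by
  intro h
  have h1 := p2_gt j t
  rw [h] at h1
  simp [OP] at h1

lemma NP_ne_OP : NP ≠ OP := by
  intro h
  have h1 := congrArg (fun x : E3 => x 2) h
  simp [NP, OP] at h1
  linarith

lemma p_inj {j t j' t' : ℤ} (h : p j t = p j' t') : j = j' ∧ (t - t') % 10 = 0 := by
  have hd := den_pos j
  have hd' := den_pos j'
  have h2 := congrArg (fun x : E3 => x 2) h
  simp only [p, mk3_2] at h2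
  rw [div_eq_div_iff hd.ne' hd'.ne'] at h2
  have h3 : rho j ^ 2 = rho j' ^ 2 := by nlinarith
  have h4 : rho j = rho j' := by
    have := rho_pos j
    have := rho_pos j'
    nlinarith
  have h5 := rho_inj h4
  subst h5
  refine ⟨rfl, ?_⟩
  have hr := rho_pos j
  have h0 := congrArg (fun x : E3 => x 0) h
  have h1 := congrArg (fun x : E3 => x 1) h
  simp only [p, mk3_0, mk3_1] at h0 h1
  rw [div_left_inj' hd.ne'] at h0 h1
  have e0 : ka t = ka t' := by
    have : 2 * rho j ≠ 0 := by positivity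
    exact mul_left_cancel₀ this h0
  have e1 : si t = si t' := by
    have : 2 * rho j ≠ 0 := by positivity
    exact mul_left_cancel₀ this h1
  apply ka_one
  rw [ka_sub, e0, e1]
  have := ka_sq t'
  linarith

lemma p_ne {j t j' t' : ℤ} (h : j ≠ j' ∨ (t - t') % 10 ≠ 0) : p j t ≠ p j' t' := by
  intro he
  obtain ⟨h1, h2⟩ := p_inj he
  rcases h with h | h
  · exact h h1
  · exact h h2

/-- the vertex set -/
noncomputable def SS (m : ℕ) : Finset E3 :=
  open Classical in insert NP (insert OP (((Finset.Icc (-(m : ℤ)) m) ×ˢ (Finset.range 5)).image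
    (fun q : ℤ × ℕ => p q.1 (q.1 + 2 * q.2))))

lemma mem_SS (m : ℕ) (x : E3) : x ∈ SS m ↔ x = NP ∨ x = OP ∨
    ∃ j t : ℤ, -(m : ℤ) ≤ j ∧ j ≤ m ∧ (t - j) % 2 = 0 ∧ x = p j t := by
  unfold SS
  rw [Finset.mem_insert, Finset.mem_insert, Finset.mem_image]
  constructor
  · rintro (h | h | ⟨⟨j, k⟩, hq, h⟩)
    · exact Or.inl h
    · exact Or.inr (Or.inl h)
    · right; right
      rw [Finset.mem_product, Finset.mem_Icc, Finset.mem_range] at hq
      simp only at hq h
      exact ⟨j, j + 2 * k, hq.1.1, hq.1.2, by omega, h.symm⟩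
  · rintro (h | h | ⟨j, t, h1, h2, h3, h⟩)
    · exact Or.inl h
    · exact Or.inr (Or.inl h)
    · right; right
      refine ⟨(j, (((t - j) / 2) % 5).toNat), ?_, ?_⟩
      · rw [Finset.mem_product, Finset.mem_Icc, Finset.mem_range]
        simp only
        omega
      · rw [h]
        simp only
        apply p_congr
        have h4 : ((((t - j) / 2) % 5).toNat : ℤ) = ((t - j) / 2) % 5 :=
          Int.toNat_of_nonneg (Int.emod_nonneg _ (by norm_num))
        rw [h4]
        omega

lemma p_mem {m : ℕ} {j t : ℤ} (h1 : -(m : ℤ) ≤ j) (h2 : j ≤ m) (h3 : (t - j) % 2 = 0) :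
    p j t ∈ SS m := (mem_SS m _).2 (Or.inr (Or.inr ⟨j, t, h1, h2, h3, rfl⟩))

lemma NP_mem (m : ℕ) : NP ∈ SS m := (mem_SS m _).2 (Or.inl rfl)
lemma OP_mem (m : ℕ) : OP ∈ SS m := (mem_SS m _).2 (Or.inr (Or.inl rfl))

lemma SS_card (m : ℕ) : (SS m).card = 10 * m + 7 := by
  classical
  unfold SS
  rw [Finset.card_insert_of_notMem, Finset.card_insert_of_notMem, Finset.card_image_of_injOn]
  · rw [Finset.card_product, Finset.card_range, Int.card_Icc]
    omega
  · rintro ⟨j, k⟩ hq ⟨j', k'⟩ hq' h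
    rw [Finset.mem_coe, Finset.mem_product, Finset.mem_range] at hq hq'
    simp only at h hq hq'
    obtain ⟨h1, h2⟩ := p_inj h
    subst h1
    have : k = k' := by omega
    rw [this]
  · rw [Finset.mem_image]
    rintro ⟨q, _, h⟩
    exact p_ne_OP _ _ h
  · rw [Finset.mem_insert, Finset.mem_image]
    rintro (h | ⟨q, _, h⟩)
    · exact NP_ne_OP h
    · exact p_ne_NP _ _ h

lemma SS_unit (m : ℕ) : ∀ x ∈ SS m, ‖x‖ = 1 := by
  intro x hx
  rcases (mem_SS m x).1 hx with h | h | ⟨j, t, _, _, _, h⟩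
  · rw [h]; exact NP_unit
  · rw [h]; exact OP_unit
  · rw [h]; exact p_unit _ _

lemma SS_origin (m : ℕ) : ∀ a : E3, a ≠ 0 → ∃ x ∈ SS m, 0 < inner ℝ a x := by
  intro a ha
  by_contra hcon
  push Not at hcon
  have hN := hcon _ (NP_mem m)
  have hO := hcon _ (OP_mem m)
  rw [inner3] at hN hO
  simp only [NP, OP, mk3_0, mk3_1, mk3_2] at hN hO
  have h2 : a 2 = 0 := by linarith
  have hk : ∀ t : ℤ, t % 2 = 0 → a 0 * ka t + a 1 * si t ≤ 0 := by
    intro t ht
    have h := hcon _ (p_mem (m := m) (j := 0) (t := t) (by omega) (by omega) (by omega))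
    rw [inner3] at h
    simp only [p, mk3_0, mk3_1, mk3_2, rho0, h2] at h
    norm_num at h
    linarith
  have k0 := hk 0 (by norm_num)
  have k2 := hk 2 (by norm_num)
  have k8 := hk 8 (by norm_num)
  have k4 := hk 4 (by norm_num)
  have k6 := hk 6 (by norm_num)
  have s8 : si 8 = - si 2 := by
    have := si_sub 10 2
    have h10 : si 10 = 0 := by
      have := si_per 0 1
      rw [show (10 : ℤ) = 0 + 10 * 1 by norm_num, this]; simp [si]
    have hk10 : ka 10 = 1 := by
      have := ka_per 0 1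
      rw [show (10 : ℤ) = 0 + 10 * 1 by norm_num, this, ka0]
    rw [h10, hk10] at this
    norm_num at this
    exact this
  have s6 : si 6 = - si 4 := by
    have := si_sub 10 4
    have h10 : si 10 = 0 := by
      have := si_per 0 1
      rw [show (10 : ℤ) = 0 + 10 * 1 by norm_num, this]; simp [si]
    have hk10 : ka 10 = 1 := by
      have := ka_per 0 1
      rw [show (10 : ℤ) = 0 + 10 * 1 by norm_num, this, ka0]
    rw [h10, hk10] at this
    norm_num at this
    exact this
  have hs0 : si 0 = 0 := by simp [si]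
  rw [ka0, hs0] at k0
  rw [ka4] at k4
  rw [ka6, s6] at k6
  rw [ka2] at k2
  rw [ka8, s8] at k8
  have hlo := CC_lo
  have e0 : a 0 = 0 := by nlinarith
  rw [e0] at k2 k8
  have hs2 : 0 < si 2 := by
    unfold si
    apply Real.sin_pos_of_pos_of_lt_pi
    · have := Real.pi_pos; push_cast; linarith
    · have := Real.pi_pos; push_cast; linarith
  have e1 : a 1 = 0 := by nlinarith
  apply ha
  ext i
  fin_cases i
  · exact e0
  · exact e1
  · exact h2

/-- slack of a plane given by a circle -/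
lemma slack (γ P : ℝ) (f j t : ℤ) :
    (1 + P) - inner ℝ (mk3 (2 * γ * ka f) (2 * γ * si f) (P - 1)) (p j t) =
      2 * (rho j ^ 2 - 2 * rho j * γ * ka (t - f) + P) / (1 + rho j ^ 2) := by
  have hd := den_pos j
  rw [inner3, ka_sub]
  simp only [p, mk3_0, mk3_1, mk3_2]
  field_simp
  ring

lemma facet_of {S : Finset E3} {a u v w : E3} {h : ℝ} (hh : 0 < h) (huv : u ≠ v) (hvw : v ≠ w)
    (huw : u ≠ w) (hu : u ∈ S) (hv : v ∈ S) (hw : w ∈ S) (hau : inner ℝ a u = h)
    (hav : inner ℝ a v = h) (haw : inner ℝ a w = h) (hle : ∀ x ∈ S, inner ℝ a x ≤ h)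
    (heq : ∀ x ∈ S, inner ℝ a x = h → x = u ∨ x = v ∨ x = w) : Facet S u v w := by
  refine ⟨huv, hvw, huw, a, ?_, ?_⟩
  · rintro rfl
    rw [inner_zero_left] at hau
    linarith
  · intro x
    constructor
    · rintro ⟨hx, hmax⟩
      apply heq x hx
      have h1 := hmax u hu
      rw [hau] at h1
      exact le_antisymm (hle x hx) h1
    · intro hx
      have key : ∀ y, y ∈ S → inner ℝ a y = h → IsMax S a y := by
        intro y hy hy2
        exact ⟨hy, fun z hz => by rw [hy2]; exact hle z hz⟩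
      rcases hx with rfl | rfl | rfl
      · exact key _ hu hau
      · exact key _ hv hav
      · exact key _ hw haw

lemma _root_.Pool.Agent.Helper320.Gold.Facet.rot {S : Finset E3} {u v w : E3} (h : Facet S u v w) : Facet S v w u := by
  obtain ⟨h1, h2, h3, a, ha, hx⟩ := h
  refine ⟨h2, h3.symm, h1.symm, a, ha, fun x => ?_⟩
  rw [hx]
  tauto

lemma ka_neg (u : ℤ) : ka (-u) = ka u := by
  unfold ka
  rw [← Real.cos_neg]; congr 1; push_cast; ring

lemma si_neg (u : ℤ) : si (-u) = - si u := by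
  unfold si
  rw [← Real.sin_neg]; congr 1; push_cast; ring

lemma slack_scaled (c P0 : ℝ) (j f i t : ℤ) :
    (1 + rho j ^ 2 * P0) - inner ℝ (mk3 (2 * (rho j * c) * ka f) (2 * (rho j * c) * si f)
      (rho j ^ 2 * P0 - 1)) (p i t) =
      2 * rho j ^ 2 * (rho (i - j) ^ 2 - 2 * rho (i - j) * c * ka (t - f) + P0) /
        (1 + rho i ^ 2) := by
  rw [slack]
  have h : rho i = rho (i - j) * rho j := by rw [← rho_add]; congr 1; ring
  congr 1
  rw [h]; ring

lemma inner_NP (a : E3) : inner ℝ a NP = a 2 := by rw [inner3]; simp [NP]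
lemma inner_OP (a : E3) : inner ℝ a OP = - a 2 := by rw [inner3]; simp [OP]

lemma facet_gen (m : ℕ) (j f : ℤ) (c P0 : ℝ) (hP0 : 0 < P0) (u v w : E3)
    (huv : u ≠ v) (hvw : v ≠ w) (huw : u ≠ w) (hu : u ∈ SS m) (hv : v ∈ SS m) (hw : w ∈ SS m)
    (hzero : ∀ y, (y = u ∨ y = v ∨ y = w) → ∃ i t : ℤ, y = p i t ∧
      rho (i - j) ^ 2 - 2 * rho (i - j) * c * ka (t - f) + P0 = 0)
    (hnon : ∀ i t : ℤ, (t - i) % 2 = 0 →
      0 ≤ rho (i - j) ^ 2 - 2 * rho (i - j) * c * ka (t - f) + P0 ∧
      (rho (i - j) ^ 2 - 2 * rho (i - j) * c * ka (t - f) + P0 = 0 →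
        p i t = u ∨ p i t = v ∨ p i t = w)) : Facet (SS m) u v w := by
  set a : E3 := mk3 (2 * (rho j * c) * ka f) (2 * (rho j * c) * si f) (rho j ^ 2 * P0 - 1) with ha
  have hj := rho_pos j
  have hP : 0 < rho j ^ 2 * P0 := by positivity
  have hval : ∀ y, (y = u ∨ y = v ∨ y = w) → inner ℝ a y = 1 + rho j ^ 2 * P0 := by
    intro y hy
    obtain ⟨i, t, rfl, h⟩ := hzero y hy
    have h1 := slack_scaled c P0 j f i t
    rw [h, mul_zero, zero_div] at h1
    linarith
  refine facet_of (a := a) (h := 1 + rho j ^ 2 * P0) (by linarith) huv hvw huw hu hv hw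
    (hval u (Or.inl rfl)) (hval v (Or.inr (Or.inl rfl))) (hval w (Or.inr (Or.inr rfl))) ?_ ?_
  · intro x hx
    rcases (mem_SS m x).1 hx with h | h | ⟨i, t, _, _, h3, h⟩
    · rw [h, inner_NP, ha, mk3_2]; linarith
    · rw [h, inner_OP, ha, mk3_2]; linarith
    · rw [h]
      have h1 := slack_scaled c P0 j f i t
      have h2 := (hnon i t h3).1
      have h4 : 0 ≤ 2 * rho j ^ 2 * (rho (i - j) ^ 2 - 2 * rho (i - j) * c * ka (t - f) + P0) /
        (1 + rho i ^ 2) := div_nonneg (mul_nonneg (by positivity) h2) (den_pos i).le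
      linarith
  · intro x hx hxv
    rcases (mem_SS m x).1 hx with h | h | ⟨i, t, _, _, h3, h⟩
    · exfalso; rw [h, inner_NP, ha, mk3_2] at hxv; linarith
    · exfalso; rw [h, inner_OP, ha, mk3_2] at hxv; linarith
    · rw [h] at hxv ⊢
      apply (hnon i t h3).2
      have h1 := slack_scaled c P0 j f i t
      rw [hxv, sub_self] at h1
      have h4 := h1.symm
      rw [div_eq_zero_iff] at h4
      rcases h4 with h4 | h4
      · rcases mul_eq_zero.1 h4 with h5 | h5
        · exfalso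
          have : 0 < 2 * rho j ^ 2 := by positivity
          linarith
        · exact h5
      · exact absurd h4 (den_pos i).ne'

lemma facet1 (m : ℕ) (j f : ℤ) (hj : -(m : ℤ) ≤ j) (hj' : j < m) (hf : (f - j) % 2 = 1) :
    Facet (SS m) (p j (f - 1)) (p j (f + 1)) (p (j + 1) f) := by
  have e1 : rho 0 ^ 2 - 2 * rho 0 * c1 * CC + P1 = 0 := by
    have h := c1_eq
    rw [rho0]; unfold P1; linarith
  have e2 : rho 1 ^ 2 - 2 * rho 1 * c1 * 1 + P1 = 0 := by
    rw [rho1]; unfold P1; ring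
  refine facet_gen m j f c1 P1 (by linarith [P1_b.1]) _ _ _ (p_ne (Or.inr (by omega)))
    (p_ne (Or.inl (by omega))) (p_ne (Or.inl (by omega))) (p_mem hj hj'.le (by omega))
    (p_mem hj hj'.le (by omega)) (p_mem (by omega) (by omega) (by omega)) ?_ ?_
  · rintro y (rfl | rfl | rfl)
    · refine ⟨j, f - 1, rfl, ?_⟩
      rw [show j - j = 0 by ring, show f - 1 - f = -1 by ring, ka_neg, ka1]; exact e1
    · refine ⟨j, f + 1, rfl, ?_⟩
      rw [show j - j = 0 by ring, show f + 1 - f = 1 by ring, ka1]; exact e1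
    · refine ⟨j + 1, f, rfl, ?_⟩
      rw [show j + 1 - j = 1 by ring, show f - f = 0 by ring, ka0]; exact e2
  · intro i t hit
    obtain ⟨h1, h2⟩ := num1 (i - j) (t - f) (by omega)
    refine ⟨h1, fun h => ?_⟩
    rcases h2 h with ⟨h3, h4 | h4⟩ | ⟨h3, h4⟩
    · right; left
      have : i = j := by omega
      subst this
      exact p_congr (by omega)
    · left
      have : i = j := by omega
      subst this
      exact p_congr (by omega)
    · right; right
      have : i = j + 1 := by omega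
      subst this
      exact p_congr (by omega)

lemma facet2 (m : ℕ) (j f : ℤ) (hj : -(m : ℤ) ≤ j) (hj' : j < m) (hf : (f - j) % 2 = 0) :
    Facet (SS m) (p j f) (p (j + 1) (f + 1)) (p (j + 1) (f - 1)) := by
  have e1 : rho 0 ^ 2 - 2 * rho 0 * c2 * 1 + P2 = 0 := by
    rw [rho0]; unfold P2; ring
  have e2 : rho 1 ^ 2 - 2 * rho 1 * c2 * CC + P2 = 0 := by
    have h := c2_eq
    rw [rho1]; unfold P2; linarith
  refine facet_gen m j f c2 P2 (by linarith [P2_b.1]) _ _ _ (p_ne (Or.inl (by omega)))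
    (p_ne (Or.inr (by omega))) (p_ne (Or.inl (by omega))) (p_mem hj hj'.le (by omega))
    (p_mem (by omega) (by omega) (by omega)) (p_mem (by omega) (by omega) (by omega)) ?_ ?_
  · rintro y (rfl | rfl | rfl)
    · refine ⟨j, f, rfl, ?_⟩
      rw [show j - j = 0 by ring, show f - f = 0 by ring, ka0]; exact e1
    · refine ⟨j + 1, f + 1, rfl, ?_⟩
      rw [show j + 1 - j = 1 by ring, show f + 1 - f = 1 by ring, ka1]; exact e2
    · refine ⟨j + 1, f - 1, rfl, ?_⟩
      rw [show j + 1 - j = 1 by ring, show f - 1 - f = -1 by ring, ka_neg, ka1]; exact e2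
  · intro i t hit
    obtain ⟨h1, h2⟩ := num2 (i - j) (t - f) (by omega)
    refine ⟨h1, fun h => ?_⟩
    rcases h2 h with ⟨h3, h4⟩ | ⟨h3, h4 | h4⟩
    · left
      have : i = j := by omega
      subst this
      exact p_congr (by omega)
    · right; left
      have : i = j + 1 := by omega
      subst this
      exact p_congr (by omega)
    · right; right
      have : i = j + 1 := by omega
      subst this
      exact p_congr (by omega)

lemma facetO (m : ℕ) (hm : 1 ≤ m) (f : ℤ) (hf : (f + m) % 2 = 1) :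
    Facet (SS m) OP (p (-m) (f + 1)) (p (-m) (f - 1)) := by
  have hlo := CC_lo
  have hC : 0 < CC := by linarith
  set γ : ℝ := rho (-m) / (2 * CC) with hγ
  have hr := rho_pos (-(m : ℤ))
  have hγ0 : 0 < γ := by positivity
  have hγC : 2 * γ * CC = rho (-m) := by rw [hγ]; field_simp
  set a : E3 := mk3 (2 * γ * ka f) (2 * γ * si f) (0 - 1) with ha
  have hsl : ∀ i t : ℤ, 1 - inner ℝ a (p i t) =
      2 * (rho i * (rho i - 2 * γ * ka (t - f))) / (1 + rho i ^ 2) := by
    intro i t
    have h := slack γ 0 f i t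
    rw [add_zero, add_zero] at h
    rw [ha, h]; congr 1; ring
  have hnn : ∀ i t : ℤ, -(m : ℤ) ≤ i → (t - i) % 2 = 0 → 0 ≤ rho i - 2 * γ * ka (t - f) ∧
      (rho i - 2 * γ * ka (t - f) = 0 → p i t = p (-m) (f + 1) ∨ p i t = p (-m) (f - 1)) := by
    intro i t hi hit
    rcases eq_or_lt_of_le hi with h | h
    · rw [← h] at hit ⊢
      have h1 := ka_odd (u := t - f) (by omega)
      have h2 : rho (-(m : ℤ)) - 2 * γ * ka (t - f) = 2 * γ * (CC - ka (t - f)) := by
        rw [← hγC]; ring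
      rw [h2]
      refine ⟨mul_nonneg (by positivity) (by linarith [h1.1]), fun h3 => ?_⟩
      have h4 : ka (t - f) = CC := by
        rcases mul_eq_zero.1 h3 with h5 | h5
        · linarith
        · linarith
      rcases h1.2 h4 with h5 | h5
      · left; exact p_congr (by omega)
      · right; exact p_congr (by omega)
    · have h1 : 2 * rho (-(m : ℤ)) ≤ rho i := by
        rw [← rho_succ]; exact rho_le (by omega)
      have h2 := ka_le_one (t - f)
      have h3 : 2 * γ * ka (t - f) ≤ 2 * γ * 1 := mul_le_mul_of_nonneg_left h2 (by positivity)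
      have h4 : 2 * γ * 1 < 2 * rho (-(m : ℤ)) := by
        rw [← hγC]; nlinarith
      exact ⟨by linarith, fun h5 => by linarith⟩
  have hv : ∀ t : ℤ, (t = f + 1 ∨ t = f - 1) → inner ℝ a (p (-m) t) = 1 := by
    intro t ht
    have h := hsl (-m) t
    have h1 : ka (t - f) = CC := by
      rcases ht with rfl | rfl
      · rw [show f + 1 - f = 1 by ring, ka1]
      · rw [show f - 1 - f = -1 by ring, ka_neg, ka1]
    rw [h1, hγC, sub_self, mul_zero, mul_zero, zero_div] at h
    linarith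
  refine facet_of (a := a) (h := 1) one_pos (p_ne_OP _ _).symm (p_ne (Or.inr (by omega)))
    (p_ne_OP _ _).symm (OP_mem m) (p_mem (by omega) (by omega) (by omega))
    (p_mem (by omega) (by omega) (by omega)) ?_ (hv _ (Or.inl rfl)) (hv _ (Or.inr rfl)) ?_ ?_
  · rw [inner_OP, ha, mk3_2]; norm_num
  · intro x hx
    rcases (mem_SS m x).1 hx with h | h | ⟨i, t, h1, _, h3, h⟩
    · rw [h, inner_NP, ha, mk3_2]; norm_num
    · rw [h, inner_OP, ha, mk3_2]; norm_num
    · rw [h]
      have h4 := hsl i t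
      have h5 := (hnn i t h1 h3).1
      have hi := rho_pos i
      have h6 : 0 ≤ 2 * (rho i * (rho i - 2 * γ * ka (t - f))) / (1 + rho i ^ 2) :=
        div_nonneg (mul_nonneg (by norm_num) (mul_nonneg hi.le h5)) (den_pos i).le
      linarith
  · intro x hx hxv
    rcases (mem_SS m x).1 hx with h | h | ⟨i, t, h1, _, h3, h⟩
    · exfalso; rw [h, inner_NP, ha, mk3_2] at hxv; norm_num at hxv
    · left; exact h
    · rw [h] at hxv ⊢
      right
      apply (hnn i t h1 h3).2
      have h4 := hsl i t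
      rw [hxv, sub_self] at h4
      have h5 := h4.symm
      rw [div_eq_zero_iff] at h5
      have hi := rho_pos i
      rcases h5 with h5 | h5
      · have h6 : rho i * (rho i - 2 * γ * ka (t - f)) = 0 := by linarith
        rcases mul_eq_zero.1 h6 with h7 | h7
        · linarith
        · exact h7
      · exact absurd h5 (den_pos i).ne'

lemma facetN (m : ℕ) (hm : 1 ≤ m) (f : ℤ) (hf : (f - m) % 2 = 1) :
    Facet (SS m) NP (p m (f - 1)) (p m (f + 1)) := by
  have hlo := CC_lo
  have hC : 0 < CC := by linarith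
  have hr := rho_pos (m : ℤ)
  set γ : ℝ := 1 / (2 * CC * rho m) with hγ
  have hγ0 : 0 < γ := by positivity
  have hγC : 2 * γ * CC * rho m = 1 := by rw [hγ]; field_simp
  set a : E3 := mk3 (2 * γ * ka f) (2 * γ * si f) 1 with ha
  have hsl : ∀ i t : ℤ, 1 - inner ℝ a (p i t) =
      2 * (1 - 2 * γ * rho i * ka (t - f)) / (1 + rho i ^ 2) := by
    intro i t
    have hd := den_pos i
    rw [inner3, ka_sub, ha]
    simp only [p, mk3_0, mk3_1, mk3_2]
    field_simp
    ring
  have hnn : ∀ i t : ℤ, i ≤ (m : ℤ) → (t - i) % 2 = 0 → 0 ≤ 1 - 2 * γ * rho i * ka (t - f) ∧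
      (1 - 2 * γ * rho i * ka (t - f) = 0 → p i t = p m (f - 1) ∨ p i t = p m (f + 1)) := by
    intro i t hi hit
    rcases eq_or_lt_of_le hi with h | h
    · rw [h] at hit ⊢
      have h1 := ka_odd (u := t - f) (by omega)
      have h2 : 1 - 2 * γ * rho m * ka (t - f) = 2 * γ * rho m * (CC - ka (t - f)) := by
        linear_combination -hγC
      rw [h2]
      refine ⟨mul_nonneg (by positivity) (by linarith [h1.1]), fun h3 => ?_⟩
      have h4 : ka (t - f) = CC := by
        rcases mul_eq_zero.1 h3 with h5 | h5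
        · exfalso
          have : 0 < 2 * γ * rho m := by positivity
          linarith
        · linarith
      rcases h1.2 h4 with h5 | h5
      · right; exact p_congr (by omega)
      · left; exact p_congr (by omega)
    · have h1 : 2 * rho i ≤ rho m := by
        rw [← rho_succ]; exact rho_le (by omega)
      have hi0 := rho_pos i
      have h2 := ka_le_one (t - f)
      have h3 : 2 * γ * rho i * ka (t - f) ≤ 2 * γ * rho i * 1 :=
        mul_le_mul_of_nonneg_left h2 (by positivity)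
      have h4 : 2 * γ * rho i * 1 < 1 := by
        have h5 : 2 * γ * rho i * 1 ≤ γ * rho m := by nlinarith
        have h6 : γ * rho m < 2 * γ * CC * rho m := by
          have : 0 < γ * rho m := by positivity
          nlinarith
        linarith
      exact ⟨by linarith, fun h5 => by linarith⟩
  have hv : ∀ t : ℤ, (t = f + 1 ∨ t = f - 1) → inner ℝ a (p m t) = 1 := by
    intro t ht
    have h := hsl m t
    have h1 : ka (t - f) = CC := by
      rcases ht with rfl | rfl
      · rw [show f + 1 - f = 1 by ring, ka1]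
      · rw [show f - 1 - f = -1 by ring, ka_neg, ka1]
    have h2 : 1 - 2 * γ * rho m * CC = 0 := by linear_combination -hγC
    rw [h1, h2, mul_zero, zero_div] at h
    linarith
  refine facet_of (a := a) (h := 1) one_pos (p_ne_NP _ _).symm (p_ne (Or.inr (by omega)))
    (p_ne_NP _ _).symm (NP_mem m) (p_mem (by omega) (by omega) (by omega))
    (p_mem (by omega) (by omega) (by omega)) ?_ (hv _ (Or.inr rfl)) (hv _ (Or.inl rfl)) ?_ ?_
  · rw [inner_NP, ha, mk3_2]
  · intro x hx
    rcases (mem_SS m x).1 hx with h | h | ⟨i, t, _, h2, h3, h⟩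
    · rw [h, inner_NP, ha, mk3_2]
    · rw [h, inner_OP, ha, mk3_2]; norm_num
    · rw [h]
      have h4 := hsl i t
      have h5 := (hnn i t h2 h3).1
      have h6 : 0 ≤ 2 * (1 - 2 * γ * rho i * ka (t - f)) / (1 + rho i ^ 2) :=
        div_nonneg (mul_nonneg (by norm_num) h5) (den_pos i).le
      linarith
  · intro x hx hxv
    rcases (mem_SS m x).1 hx with h | h | ⟨i, t, _, h2, h3, h⟩
    · left; exact h
    · exfalso; rw [h, inner_OP, ha, mk3_2] at hxv; norm_num at hxv
    · rw [h] at hxv ⊢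
      right
      apply (hnn i t h2 h3).2
      have h4 := hsl i t
      rw [hxv, sub_self] at h4
      have h5 := h4.symm
      rw [div_eq_zero_iff] at h5
      rcases h5 with h5 | h5
      · linarith
      · exact absurd h5 (den_pos i).ne'

/-- positively oriented base triangles -/
inductive TT (m : ℕ) : E3 → E3 → E3 → Prop
  | t1 (j f : ℤ) : -(m : ℤ) ≤ j → j < m → (f - j) % 2 = 1 →
      TT m (p j (f - 1)) (p j (f + 1)) (p (j + 1) f)
  | t2 (j f : ℤ) : -(m : ℤ) ≤ j → j < m → (f - j) % 2 = 0 →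
      TT m (p j f) (p (j + 1) (f + 1)) (p (j + 1) (f - 1))
  | tO (f : ℤ) : (f + m) % 2 = 1 → TT m OP (p (-m) (f + 1)) (p (-m) (f - 1))
  | tN (f : ℤ) : (f - m) % 2 = 1 → TT m NP (p m (f - 1)) (p m (f + 1))

def FF (m : ℕ) (u v w : E3) : Prop := TT m u v w ∨ TT m v w u ∨ TT m w u v

lemma FF.rot {m : ℕ} {u v w : E3} (h : FF m u v w) : FF m v w u := by
  rcases h with h | h | h
  · exact Or.inr (Or.inr h)
  · exact Or.inl h
  · exact Or.inr (Or.inl h)

lemma TT.facet {m : ℕ} (hm : 1 ≤ m) {u v w : E3} (h : TT m u v w) : Facet (SS m) u v w := by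
  cases h with
  | t1 j f h1 h2 h3 => exact facet1 m j f h1 h2 h3
  | t2 j f h1 h2 h3 => exact facet2 m j f h1 h2 h3
  | tO f h => exact facetO m hm f h
  | tN f h => exact facetN m hm f h

lemma FF.facet {m : ℕ} (hm : 1 ≤ m) {u v w : E3} (h : FF m u v w) : Facet (SS m) u v w := by
  rcases h with h | h | h
  · exact h.facet hm
  · exact (h.facet hm).rot.rot
  · exact (h.facet hm).rot

lemma tp_rot (u v w : E3) : tp v w u = tp u v w := by unfold tp; ring

lemma tp_p (j1 t1 j2 t2 j3 t3 : ℤ) : tp (p j1 t1) (p j2 t2) (p j3 t3) =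
    (4 * rho j1 * rho j2 * si (t2 - t1) * (rho j3 ^ 2 - 1) +
      4 * rho j2 * rho j3 * si (t3 - t2) * (rho j1 ^ 2 - 1) +
      4 * rho j3 * rho j1 * si (t1 - t3) * (rho j2 ^ 2 - 1)) /
      ((1 + rho j1 ^ 2) * (1 + rho j2 ^ 2) * (1 + rho j3 ^ 2)) := by
  have h1 := den_pos j1
  have h2 := den_pos j2
  have h3 := den_pos j3
  unfold tp
  simp only [p, mk3_0, mk3_1, mk3_2, si_sub]
  field_simp
  ring

lemma si1_pos : 0 < si 1 := by
  unfold si
  apply Real.sin_pos_of_pos_of_lt_pi
  · have := Real.pi_pos; push_cast; linarith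
  · have := Real.pi_pos; push_cast; linarith

lemma si2_eq : si 2 = 2 * si 1 * CC := by
  rw [← ka1]
  unfold si ka
  rw [← Real.sin_two_mul]; congr 1; push_cast; ring

lemma TT.tp {m : ℕ} {u v w : E3} (h : TT m u v w) : 0 < tp u v w := by
  have hs := si1_pos
  have hlo := CC_lo
  have hhi := CC_hi
  cases h with
  | t1 j f h1 h2 h3 =>
    rw [tp_p]
    have hj := rho_pos j
    apply div_pos _ (by positivity)
    rw [show f + 1 - (f - 1) = 2 by ring, show f - (f + 1) = -1 by ring,
      show f - 1 - f = -1 by ring, si_neg, si2_eq, rho_succ]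
    have : 4 * rho j * rho j * (2 * si 1 * CC) * ((2 * rho j) ^ 2 - 1) +
        4 * rho j * (2 * rho j) * -si 1 * (rho j ^ 2 - 1) +
        4 * (2 * rho j) * rho j * -si 1 * (rho j ^ 2 - 1) =
        4 * rho j ^ 2 * si 1 * ((8 * CC - 4) * rho j ^ 2 + (4 - 2 * CC)) := by ring
    rw [this]
    have h5 : 0 < (8 * CC - 4) * rho j ^ 2 + (4 - 2 * CC) := by
      have : 0 < (8 * CC - 4) * rho j ^ 2 := mul_pos (by linarith) (by positivity)
      linarith
    positivity
  | t2 j f h1 h2 h3 =>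
    rw [tp_p]
    have hj := rho_pos j
    apply div_pos _ (by have := rho_pos (j + 1); positivity)
    rw [show f + 1 - f = 1 by ring, show f - 1 - (f + 1) = -2 by ring,
      show f - (f - 1) = 1 by ring, si_neg, si2_eq, rho_succ]
    have : 4 * rho j * (2 * rho j) * si 1 * ((2 * rho j) ^ 2 - 1) +
        4 * (2 * rho j) * (2 * rho j) * -(2 * si 1 * CC) * (rho j ^ 2 - 1) +
        4 * (2 * rho j) * rho j * si 1 * ((2 * rho j) ^ 2 - 1) =
        16 * rho j ^ 2 * si 1 * ((4 - 2 * CC) * rho j ^ 2 + (2 * CC - 1)) := by ring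
    rw [this]
    have h5 : 0 < (4 - 2 * CC) * rho j ^ 2 + (2 * CC - 1) := by
      have : 0 < (4 - 2 * CC) * rho j ^ 2 := mul_pos (by linarith) (by positivity)
      linarith
    positivity
  | tO f h =>
    have hj := rho_pos (-(m : ℤ))
    have hd := den_pos (-(m : ℤ))
    have e : Gold.tp OP (p (-m) (f + 1)) (p (-m) (f - 1)) =
        4 * rho (-m) ^ 2 * si ((f + 1) - (f - 1)) / (1 + rho (-m) ^ 2) ^ 2 := by
      unfold Gold.tp
      simp only [p, OP, mk3_0, mk3_1, mk3_2, si_sub]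
      field_simp
      ring
    rw [e, show f + 1 - (f - 1) = 2 by ring, si2_eq]
    have hC : 0 < CC := by linarith
    positivity
  | tN f h =>
    have hj := rho_pos (m : ℤ)
    have hd := den_pos (m : ℤ)
    have e : Gold.tp NP (p m (f - 1)) (p m (f + 1)) =
        4 * rho m ^ 2 * si ((f + 1) - (f - 1)) / (1 + rho m ^ 2) ^ 2 := by
      unfold Gold.tp
      simp only [p, NP, mk3_0, mk3_1, mk3_2, si_sub]
      field_simp
      ring
    rw [e, show f + 1 - (f - 1) = 2 by ring, si2_eq]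
    have hC : 0 < CC := by linarith
    positivity

lemma FF.tp {m : ℕ} {u v w : E3} (h : FF m u v w) : 0 < tp u v w := by
  rcases h with h | h | h
  · exact h.tp
  · have := h.tp; rwa [tp_rot] at this
  · have := h.tp; rwa [tp_rot, tp_rot] at this

/-! the triangles around a vertex -/

lemma A1 {m : ℕ} {j t : ℤ} (h1 : -(m : ℤ) ≤ j) (h2 : j < m) (h3 : (t - j) % 2 = 0) :
    FF m (p j t) (p j (t + 2)) (p (j + 1) (t + 1)) := by
  have h := TT.t1 (m := m) j (t + 1) h1 h2 (by omega)
  rw [show t + 1 - 1 = t by ring, show t + 1 + 1 = t + 2 by ring] at h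
  exact Or.inl h

lemma A2 {m : ℕ} {j t : ℤ} (h1 : -(m : ℤ) ≤ j) (h2 : j < m) (h3 : (t - j) % 2 = 0) :
    FF m (p j t) (p (j + 1) (t + 1)) (p (j + 1) (t - 1)) :=
  Or.inl (TT.t2 j t h1 h2 h3)

lemma A3 {m : ℕ} {j t : ℤ} (h1 : -(m : ℤ) ≤ j) (h2 : j < m) (h3 : (t - j) % 2 = 0) :
    FF m (p j t) (p (j + 1) (t - 1)) (p j (t - 2)) := by
  have h := TT.t1 (m := m) j (t - 1) h1 h2 (by omega)
  rw [show t - 1 - 1 = t - 2 by ring, show t - 1 + 1 = t by ring] at h
  exact Or.inr (Or.inr h)

lemma B1 {m : ℕ} {j t : ℤ} (h1 : -(m : ℤ) < j) (h2 : j ≤ m) (h3 : (t - j) % 2 = 0) :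
    FF m (p j t) (p j (t - 2)) (p (j - 1) (t - 1)) := by
  have h := TT.t2 (m := m) (j - 1) (t - 1) (by omega) (by omega) (by omega)
  rw [show t - 1 - 1 = t - 2 by ring, show t - 1 + 1 = t by ring,
    show j - 1 + 1 = j by ring] at h
  exact Or.inr (Or.inr h)

lemma B2 {m : ℕ} {j t : ℤ} (h1 : -(m : ℤ) < j) (h2 : j ≤ m) (h3 : (t - j) % 2 = 0) :
    FF m (p j t) (p (j - 1) (t - 1)) (p (j - 1) (t + 1)) := by
  have h := TT.t1 (m := m) (j - 1) t (by omega) (by omega) (by omega)
  rw [show j - 1 + 1 = j by ring] at h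
  exact Or.inr (Or.inl h)

lemma B3 {m : ℕ} {j t : ℤ} (h1 : -(m : ℤ) < j) (h2 : j ≤ m) (h3 : (t - j) % 2 = 0) :
    FF m (p j t) (p (j - 1) (t + 1)) (p j (t + 2)) := by
  have h := TT.t2 (m := m) (j - 1) (t + 1) (by omega) (by omega) (by omega)
  rw [show t + 1 + 1 = t + 2 by ring, show t + 1 - 1 = t by ring,
    show j - 1 + 1 = j by ring] at h
  exact Or.inr (Or.inl h)

lemma O1 {m : ℕ} {t : ℤ} (h3 : (t + m) % 2 = 0) :
    FF m (p (-m) t) (p (-m) (t - 2)) OP := by
  have h := TT.tO (m := m) (t - 1) (by omega)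
  rw [show t - 1 - 1 = t - 2 by ring, show t - 1 + 1 = t by ring] at h
  exact Or.inr (Or.inr h)

lemma O2 {m : ℕ} {t : ℤ} (h3 : (t + m) % 2 = 0) :
    FF m (p (-m) t) OP (p (-m) (t + 2)) := by
  have h := TT.tO (m := m) (t + 1) (by omega)
  rw [show t + 1 - 1 = t by ring, show t + 1 + 1 = t + 2 by ring] at h
  exact Or.inr (Or.inl h)

lemma N1 {m : ℕ} {t : ℤ} (h3 : (t - m) % 2 = 0) :
    FF m (p m t) (p m (t + 2)) NP := by
  have h := TT.tN (m := m) (t + 1) (by omega)
  rw [show t + 1 - 1 = t by ring, show t + 1 + 1 = t + 2 by ring] at h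
  exact Or.inr (Or.inr h)

lemma N2 {m : ℕ} {t : ℤ} (h3 : (t - m) % 2 = 0) :
    FF m (p m t) NP (p m (t - 2)) := by
  have h := TT.tN (m := m) (t - 1) (by omega)
  rw [show t - 1 - 1 = t - 2 by ring, show t - 1 + 1 = t by ring] at h
  exact Or.inr (Or.inl h)

lemma TT.nb {m : ℕ} (hm : 1 ≤ m) {u v w : E3} (h : TT m u v w) :
    (∃ x, x ≠ w ∧ FF m v u x) ∧ (∃ x, x ≠ u ∧ FF m w v x) ∧ (∃ x, x ≠ v ∧ FF m u w x) := by
  cases h with
  | t1 j f h1 h2 h3 =>
    refine ⟨?_, ?_, ?_⟩
    · rcases eq_or_lt_of_le h1 with h4 | h4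
      · refine ⟨OP, (p_ne_OP _ _).symm, ?_⟩
        rw [← h4] at h3 ⊢
        have := TT.tO (m := m) f (by omega)
        exact Or.inr (Or.inr this)
      · refine ⟨p (j - 1) f, p_ne (Or.inl (by omega)), ?_⟩
        have := TT.t2 (m := m) (j - 1) f (by omega) (by omega) (by omega)
        rw [show j - 1 + 1 = j by ring] at this
        exact Or.inr (Or.inr this)
    · refine ⟨p (j + 1) (f + 2), p_ne (Or.inl (by omega)), ?_⟩
      have := TT.t2 (m := m) j (f + 1) h1 h2 (by omega)
      rw [show f + 1 + 1 = f + 2 by ring, show f + 1 - 1 = f by ring] at this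
      exact Or.inr (Or.inl this)
    · refine ⟨p (j + 1) (f - 2), p_ne (Or.inl (by omega)), ?_⟩
      have := TT.t2 (m := m) j (f - 1) h1 h2 (by omega)
      rw [show f - 1 + 1 = f by ring, show f - 1 - 1 = f - 2 by ring] at this
      exact Or.inl this
  | t2 j f h1 h2 h3 =>
    refine ⟨?_, ?_, ?_⟩
    · refine ⟨p j (f + 2), p_ne (Or.inl (by omega)), ?_⟩
      have := TT.t1 (m := m) j (f + 1) h1 h2 (by omega)
      rw [show f + 1 - 1 = f by ring, show f + 1 + 1 = f + 2 by ring] at this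
      exact Or.inr (Or.inl this)
    · rcases eq_or_lt_of_le (show j + 1 ≤ m by omega) with h4 | h4
      · refine ⟨NP, (p_ne_NP _ _).symm, ?_⟩
        rw [h4]
        have := TT.tN (m := m) f (by omega)
        exact Or.inr (Or.inr this)
      · refine ⟨p (j + 1 + 1) f, p_ne (Or.inl (by omega)), ?_⟩
        have := TT.t1 (m := m) (j + 1) f (by omega) h4 (by omega)
        exact Or.inl this
    · refine ⟨p j (f - 2), p_ne (Or.inl (by omega)), ?_⟩
      have := TT.t1 (m := m) j (f - 1) h1 h2 (by omega)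
      rw [show f - 1 - 1 = f - 2 by ring, show f - 1 + 1 = f by ring] at this
      exact Or.inr (Or.inr this)
  | tO f h =>
    refine ⟨?_, ?_, ?_⟩
    · refine ⟨p (-m) (f + 3), p_ne (Or.inr (by omega)), ?_⟩
      have := TT.tO (m := m) (f + 2) (by omega)
      rw [show f + 2 + 1 = f + 3 by ring, show f + 2 - 1 = f + 1 by ring] at this
      exact Or.inr (Or.inl this)
    · refine ⟨p (-m + 1) f, p_ne_OP _ _, ?_⟩
      have := TT.t1 (m := m) (-m) f le_rfl (by omega) (by omega)
      exact Or.inl this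
    · refine ⟨p (-m) (f - 3), p_ne (Or.inr (by omega)), ?_⟩
      have := TT.tO (m := m) (f - 2) (by omega)
      rw [show f - 2 + 1 = f - 1 by ring, show f - 2 - 1 = f - 3 by ring] at this
      exact Or.inl this
  | tN f h =>
    refine ⟨?_, ?_, ?_⟩
    · refine ⟨p m (f - 3), p_ne (Or.inr (by omega)), ?_⟩
      have := TT.tN (m := m) (f - 2) (by omega)
      rw [show f - 2 + 1 = f - 1 by ring, show f - 2 - 1 = f - 3 by ring] at this
      exact Or.inr (Or.inl this)
    · refine ⟨p (m - 1) f, p_ne_NP _ _, ?_⟩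
      have := TT.t2 (m := m) (m - 1) f (by omega) (by omega) (by omega)
      rw [show (m : ℤ) - 1 + 1 = m by ring] at this
      exact Or.inr (Or.inr this)
    · refine ⟨p m (f + 3), p_ne (Or.inr (by omega)), ?_⟩
      have := TT.tN (m := m) (f + 2) (by omega)
      rw [show f + 2 + 1 = f + 3 by ring, show f + 2 - 1 = f + 1 by ring] at this
      exact Or.inl this

lemma FF.nb {m : ℕ} (hm : 1 ≤ m) {u v w : E3} (h : FF m u v w) : ∃ x, x ≠ w ∧ FF m v u x := by
  rcases h with h | h | h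
  · exact (h.nb hm).1
  · exact (h.nb hm).2.2
  · exact (h.nb hm).2.1

lemma SS_good (m : ℕ) (hm : 1 ≤ m) : Good (SS m) := by
  refine good_of_closed (SS_unit m) (SS_origin m) (FF m) ?_ (fun u v w h => h.facet hm)
    (fun u v w h => h.rot) (fun u v w h => h.nb hm)
  exact ⟨_, _, _, Or.inl (TT.t1 (m := m) 0 1 (by omega) (by omega) (by norm_num))⟩

lemma val_of {m : ℕ} (hm : 1 ≤ m) {v : E3} {d : ℕ} (hd : 0 < d) (w : ℕ → E3)
    (hinj : ∀ i < d, ∀ j < d, w i = w j → i = j) (hper : w d = w 0)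
    (hF : ∀ i < d, FF m v (w i) (w (i + 1))) : {x | Adj (SS m) v x}.ncard = d :=
  valence_of_cycle (SS_good m hm) hd w hinj hper (fun i hi => ⟨(hF i hi).facet hm, (hF i hi).tp⟩)

lemma val_N (m : ℕ) (hm : 1 ≤ m) : {x | Adj (SS m) NP x}.ncard = 5 := by
  refine val_of hm (by norm_num) (fun i => p m (m + 2 * i)) ?_ ?_ ?_
  · intro i hi j hj h
    have := (p_inj h).2
    omega
  · apply p_congr
    push_cast
    omega
  · intro i hi
    have := TT.tN (m := m) (m + 2 * i + 1) (by omega)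
    rw [show (m : ℤ) + 2 * i + 1 - 1 = m + 2 * i by ring,
      show (m : ℤ) + 2 * i + 1 + 1 = m + 2 * ((i + 1 : ℕ) : ℤ) by push_cast; ring] at this
    exact Or.inl this

lemma val_O (m : ℕ) (hm : 1 ≤ m) : {x | Adj (SS m) OP x}.ncard = 5 := by
  refine val_of hm (by norm_num) (fun i => p (-m) (m - 2 * i)) ?_ ?_ ?_
  · intro i hi j hj h
    have := (p_inj h).2
    omega
  · apply p_congr
    push_cast
    omega
  · intro i hi
    have := TT.tO (m := m) (m - 2 * i - 1) (by omega)
    rw [show (m : ℤ) - 2 * i - 1 + 1 = m - 2 * i by ring,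
      show (m : ℤ) - 2 * i - 1 - 1 = m - 2 * ((i + 1 : ℕ) : ℤ) by push_cast; ring] at this
    exact Or.inl this

lemma val_mid (m : ℕ) (hm : 1 ≤ m) (j t : ℤ) (h1 : -(m : ℤ) < j) (h2 : j < m)
    (h3 : (t - j) % 2 = 0) : {x | Adj (SS m) (p j t) x}.ncard = 6 := by
  let w : ℕ → E3 := fun i => match i with
    | 0 => p j (t + 2)
    | 1 => p (j + 1) (t + 1)
    | 2 => p (j + 1) (t - 1)
    | 3 => p j (t - 2)
    | 4 => p (j - 1) (t - 1)
    | 5 => p (j - 1) (t + 1)
    | 6 => p j (t + 2)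
    | _ => 0
  refine val_of hm (by norm_num) w ?_ rfl ?_
  · intro i hi k hk h
    interval_cases i <;> interval_cases k <;> first | rfl | (exfalso; have := p_inj h; omega)
  · intro i hi
    interval_cases i
    · exact A1 h1.le h2 h3
    · exact A2 h1.le h2 h3
    · exact A3 h1.le h2 h3
    · exact B1 h1 h2.le h3
    · exact B2 h1 h2.le h3
    · exact B3 h1 h2.le h3

lemma val_bot (m : ℕ) (hm : 1 ≤ m) (t : ℤ) (h3 : (t + m) % 2 = 0) :
    {x | Adj (SS m) (p (-m) t) x}.ncard = 5 := by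
  let w : ℕ → E3 := fun i => match i with
    | 0 => p (-m) (t + 2)
    | 1 => p (-m + 1) (t + 1)
    | 2 => p (-m + 1) (t - 1)
    | 3 => p (-m) (t - 2)
    | 4 => OP
    | 5 => p (-m) (t + 2)
    | _ => 0
  refine val_of hm (by norm_num) w ?_ rfl ?_
  · intro i hi k hk h
    interval_cases i <;> interval_cases k <;> first
      | rfl
      | (exfalso; exact p_ne_OP _ _ h)
      | (exfalso; exact p_ne_OP _ _ h.symm)
      | (exfalso; have := p_inj h; omega)
  · intro i hi
    interval_cases i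
    · exact A1 le_rfl (by omega) (by omega)
    · exact A2 le_rfl (by omega) (by omega)
    · exact A3 le_rfl (by omega) (by omega)
    · exact O1 h3
    · exact O2 h3

lemma val_top (m : ℕ) (hm : 1 ≤ m) (t : ℤ) (h3 : (t - m) % 2 = 0) :
    {x | Adj (SS m) (p m t) x}.ncard = 5 := by
  let w : ℕ → E3 := fun i => match i with
    | 0 => p m (t + 2)
    | 1 => NP
    | 2 => p m (t - 2)
    | 3 => p (m - 1) (t - 1)
    | 4 => p (m - 1) (t + 1)
    | 5 => p m (t + 2)
    | _ => 0
  refine val_of hm (by norm_num) w ?_ rfl ?_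
  · intro i hi k hk h
    interval_cases i <;> interval_cases k <;> first
      | rfl
      | (exfalso; exact p_ne_NP _ _ h)
      | (exfalso; exact p_ne_NP _ _ h.symm)
      | (exfalso; have := p_inj h; omega)
  · intro i hi
    interval_cases i
    · exact N1 h3
    · exact N2 h3
    · exact B1 (by omega) le_rfl h3
    · exact B2 (by omega) le_rfl h3
    · exact B3 (by omega) le_rfl h3

end aux

theorem exists_medial (m : ℕ) (hm : 1 ≤ m) : ∃ S : Finset E3, S.card = 10 * m + 7 ∧ Good S ∧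
    ∀ v ∈ S, {w | Adj S v w}.ncard = 5 ∨ {w | Adj S v w}.ncard = 6 := by
  refine ⟨SS m, SS_card m, SS_good m hm, ?_⟩
  intro v hv
  rcases (mem_SS m v).1 hv with h | h | ⟨j, t, h1, h2, h3, h⟩
  · left; rw [h]; exact val_N m hm
  · left; rw [h]; exact val_O m hm
  · rw [h]
    rcases eq_or_lt_of_le h1 with h4 | h4
    · left
      rw [← h4] at h3 ⊢
      exact val_bot m hm t (by omega)
    · rcases eq_or_lt_of_le h2 with h5 | h5
      · left
        rw [h5] at h3 ⊢
        exact val_top m hm t h3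
      · right
        exact val_mid m hm j t h4 h5 h3

end Pool.Agent.Helper320.Gold.NEX
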