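import Mathlib
import Pool.Agent.Helper320.GBase
import Pool.Agent.Helper320.GFV
import Pool.Agent.Helper320.GK0
import Pool.Agent.Helper320.GK1
import Pool.Agent.Helper320.GK3

set_option autoImplicit false
open Set

namespace Pool.Agent.Helper320.Gold.NK4

open Pool.Agent.Helper320.Gold Pool.Agent.Helper320.Gold.NFV Pool.Agent.Helper320.Gold.NK0 Pool.Agent.Helper320.Gold.NK1 Pool.Agent.Helper320.Gold.NK3

section aux

variable {w e f : E3} (hON : ON w e f)

include hON

theorem pl_inner_w (z : ℝ × ℝ) : inner ℝ (pl w e f z) w = 1 := by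
  have h1 := hON.we
  have h2 := hON.wf
  rw [real_inner_comm] at h1 h2
  rw [pl, inner_add_left, inner_add_left, real_inner_smul_left, real_inner_smul_left, h1, h2,
    real_inner_self_eq_norm_sq, hON.w1]
  ring

theorem pl_inner_e (z : ℝ × ℝ) : inner ℝ (pl w e f z) e = z.1 := by
  have h1 := hON.we
  have h2 := hON.ef
  rw [real_inner_comm] at h2
  rw [pl, inner_add_left, inner_add_left, real_inner_smul_left, real_inner_smul_left, h1, h2,
    real_inner_self_eq_norm_sq, hON.e1]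
  ring

theorem pl_inner_f (z : ℝ × ℝ) : inner ℝ (pl w e f z) f = z.2 := by
  have h1 := hON.wf
  have h2 := hON.ef
  rw [pl, inner_add_left, inner_add_left, real_inner_smul_left, real_inner_smul_left, h1, h2,
    real_inner_self_eq_norm_sq, hON.f1]
  ring

theorem pl_norm (z : ℝ × ℝ) : ‖pl w e f z‖ ^ 2 = 1 + z.1 ^ 2 + z.2 ^ 2 := by
  rw [← real_inner_self_eq_norm_sq]
  nth_rewrite 2 [pl]
  rw [inner_add_right, inner_add_right, real_inner_smul_right, real_inner_smul_right,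
    pl_inner_w hON, pl_inner_e hON, pl_inner_f hON]
  ring

theorem pl_norm_ge (z : ℝ × ℝ) : 1 ≤ ‖pl w e f z‖ := by
  have h := pl_norm hON z
  nlinarith [norm_nonneg (pl w e f z), sq_nonneg z.1, sq_nonneg z.2]

theorem pl_sub_norm (z z' : ℝ × ℝ) :
    ‖pl w e f z - pl w e f z'‖ ^ 2 = (z.1 - z'.1) ^ 2 + (z.2 - z'.2) ^ 2 := by
  have h : pl w e f z - pl w e f z' = (z.1 - z'.1) • e + (z.2 - z'.2) • f := by
    simp only [pl, sub_smul]; abel
  have h2 := hON.ef
  rw [real_inner_comm] at h2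
  rw [h, ← real_inner_self_eq_norm_sq, inner_add_left, inner_add_right, inner_add_right]
  simp only [real_inner_smul_left, real_inner_smul_right, hON.ef, h2, real_inner_self_eq_norm_sq,
    norm_smul, mul_pow, hON.e1, hON.f1, Real.norm_eq_abs, sq_abs]
  ring

theorem pl_inj {z z' : ℝ × ℝ} (h : pl w e f z = pl w e f z') : z = z' := by
  have h1 := pl_inner_e hON z
  have h2 := pl_inner_f hON z
  rw [h, pl_inner_e hON] at h1
  rw [h, pl_inner_f hON] at h2
  exact Prod.ext h1.symm h2.symm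

theorem tp_sq : tp w e f ^ 2 = 1 := by
  have e1 := hON.w1
  have e2 := hON.e1
  have e3 := hON.f1
  have e4 := hON.we
  have e5 := hON.wf
  have e6 := hON.ef
  have n1 : inner ℝ w w = 1 := by rw [real_inner_self_eq_norm_sq, e1]; norm_num
  have n2 : inner ℝ e e = 1 := by rw [real_inner_self_eq_norm_sq, e2]; norm_num
  have n3 : inner ℝ f f = 1 := by rw [real_inner_self_eq_norm_sq, e3]; norm_num
  simp only [PiLp.inner_apply, Fin.sum_univ_three, RCLike.inner_apply, conj_trivial] at n1 n2 n3 e4 e5 e6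
  have key : tp w e f ^ 2 =
      (w 0 * w 0 + w 1 * w 1 + w 2 * w 2) * (e 0 * e 0 + e 1 * e 1 + e 2 * e 2) *
        (f 0 * f 0 + f 1 * f 1 + f 2 * f 2)
      + 2 * (e 0 * w 0 + e 1 * w 1 + e 2 * w 2) * (f 0 * e 0 + f 1 * e 1 + f 2 * e 2) *
        (f 0 * w 0 + f 1 * w 1 + f 2 * w 2)
      - (w 0 * w 0 + w 1 * w 1 + w 2 * w 2) * (f 0 * e 0 + f 1 * e 1 + f 2 * e 2) ^ 2
      - (e 0 * e 0 + e 1 * e 1 + e 2 * e 2) * (f 0 * w 0 + f 1 * w 1 + f 2 * w 2) ^ 2
      - (f 0 * f 0 + f 1 * f 1 + f 2 * f 2) * (e 0 * w 0 + e 1 * w 1 + e 2 * w 2) ^ 2 := by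
    unfold tp; ring
  rw [key, n1, n2, n3, e4, e5, e6]; ring

end aux

theorem nrm_norm {x : E3} (h : 1 ≤ ‖x‖) : ‖nrm x‖ = 1 := by
  rw [nrm, norm_smul, norm_inv, norm_norm, inv_mul_cancel₀ (by linarith)]

theorem nrm_lip {x y : E3} (hx : 1 ≤ ‖x‖) (hy : 1 ≤ ‖y‖) : ‖nrm x - nrm y‖ ≤ ‖x - y‖ := by
  have h1 : ‖nrm x - nrm y‖ ^ 2 ≤ ‖x - y‖ ^ 2 := by
    rw [norm_sub_sq_real, norm_sub_sq_real, nrm_norm hx, nrm_norm hy]
    set a := ‖x‖ with ha
    set b := ‖y‖ with hb
    have ha0 : 0 < a := by linarith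
    have hb0 : 0 < b := by linarith
    have h2 : inner ℝ (nrm x) (nrm y) = inner ℝ x y / (a * b) := by
      rw [nrm, nrm, real_inner_smul_left, real_inner_smul_right, ← ha, ← hb]
      field_simp
    have h3 : inner ℝ x y ≤ a * b := real_inner_le_norm x y
    rw [h2]
    set c := inner ℝ x y / (a * b) with hc
    have h4 : inner ℝ x y = c * (a * b) := by rw [hc]; field_simp
    have h5 : c ≤ 1 := by rw [hc, div_le_one (by positivity)]; exact h3
    rw [h4]
    nlinarith [sq_nonneg (a - b), mul_nonneg (sub_nonneg.2 h5)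
      (sub_nonneg.2 (one_le_mul_of_one_le_of_one_le hx hy))]
  exact (pow_le_pow_iff_left₀ (norm_nonneg _) (norm_nonneg _) (by norm_num)).1 h1

theorem cone3_convex (u v w : E3) : Convex ℝ (cone3 u v w) := by
  rintro _ ⟨r, s, t, hr, hs, ht, rfl⟩ _ ⟨r', s', t', hr', hs', ht', rfl⟩ a b ha hb hab
  refine ⟨a * r + b * r', a * s + b * s', a * t + b * t', by positivity, by positivity,
    by positivity, ?_⟩
  simp only [smul_add, add_smul, mul_smul]
  abel

theorem cone3_swap (u v w : E3) : cone3 u v w = cone3 u w v := by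
  ext x
  constructor
  · rintro ⟨r, s, t, hr, hs, ht, rfl⟩
    exact ⟨r, t, s, hr, ht, hs, by abel⟩
  · rintro ⟨r, s, t, hr, hs, ht, rfl⟩
    exact ⟨r, t, s, hr, ht, hs, by abel⟩

open MeasureTheory in
theorem vol_ne_top {S : Set E3} (h : S ⊆ Metric.closedBall 0 1) : volume S ≠ ⊤ :=
  ((measure_mono h).trans_lt measure_closedBall_lt_top).ne

open MeasureTheory in
theorem core {u v w : E3} (hu : ‖u‖ = 1) (hv : ‖v‖ = 1) (hw : ‖w‖ = 1)
    (hD : 0 < tp u v w) {h : ℝ} (hh : h ≤ 1 / 10) (h1 : ‖u - v‖ ≤ h) (h2 : ‖v - w‖ ≤ h)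
    (h3 : ‖w - u‖ ≤ h) (K : Set E3) (hK : Convex ℝ K) (h0 : (0 : E3) ∈ K) (huK : u ∈ K)
    (hvK : v ∈ K) (hwK : w ∈ K) :
    (volume ((cone3 u v w ∩ Metric.closedBall 0 1) \ K)).toReal ≤
      (volume (cone3 u v w ∩ Metric.closedBall 0 1)).toReal * (3 / 8 * h ^ 2 * (1 + 2 * h ^ 2)) := by
  set S := cone3 u v w ∩ Metric.closedBall (0 : E3) 1 with hS
  set Cv := convexHull ℝ ({0, u, v, w} : Set E3) with hCv
  have hSb : S ⊆ Metric.closedBall (0 : E3) 1 := inter_subset_right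
  have hCvK : Cv ⊆ K := by
    apply convexHull_min _ hK
    rintro x (rfl | rfl | rfl | rfl) <;> assumption
  have hCvS : Cv ⊆ S := by
    apply convexHull_min _ ((cone3_convex u v w).inter (convex_closedBall _ _))
    rintro x (rfl | rfl | rfl | rfl)
    · exact ⟨⟨0, 0, 0, le_rfl, le_rfl, le_rfl, by simp⟩, by simp⟩
    · exact ⟨⟨1, 0, 0, zero_le_one, le_rfl, le_rfl, by simp⟩, by simp [hu]⟩
    · exact ⟨⟨0, 1, 0, le_rfl, zero_le_one, le_rfl, by simp⟩, by simp [hv]⟩
    · exact ⟨⟨0, 0, 1, le_rfl, le_rfl, zero_le_one, by simp⟩, by simp [hw]⟩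
  have hCvm : MeasurableSet Cv :=
    (Set.Finite.isCompact_convexHull ℝ (Set.toFinite _)).isClosed.measurableSet
  have hvolC : (volume Cv).toReal = tp u v w / 6 := by
    rw [hCv, vol_tetra, ENNReal.toReal_ofReal (by positivity), abs_of_pos hD]
  have hup := vol_sector_upper hu hv hw hD hh h1 h2 h3
  rw [← hS] at hup
  have hSt : volume S ≠ ⊤ := vol_ne_top hSb
  have hCt : volume Cv ≠ ⊤ := vol_ne_top (hCvS.trans hSb)
  have hdiff : (volume (S \ Cv)).toReal = (volume S).toReal - (volume Cv).toReal := by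
    rw [measure_sdiff hCvS hCvm.nullMeasurableSet hCt, ENNReal.toReal_sub_of_le (measure_mono hCvS) hSt]
  have hle : (volume (S \ K)).toReal ≤ (volume (S \ Cv)).toReal :=
    ENNReal.toReal_mono (vol_ne_top (sdiff_subset.trans hSb)) (measure_mono (sdiff_subset_sdiff_right hCvK))
  have hlow : tp u v w / 6 ≤ (volume S).toReal := by
    rw [← hvolC]; exact ENNReal.toReal_mono hSt (measure_mono hCvS)
  have hpos : 0 ≤ 3 / 8 * h ^ 2 * (1 + 2 * h ^ 2) := by positivity
  calc _ ≤ _ := hle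
    _ = (volume S).toReal - tp u v w / 6 := by rw [hdiff, hvolC]
    _ ≤ tp u v w * (3 * h ^ 2) / 48 * (1 + 2 * h ^ 2) := by linarith
    _ = tp u v w / 6 * (3 / 8 * h ^ 2 * (1 + 2 * h ^ 2)) := by ring
    _ ≤ _ := mul_le_mul_of_nonneg_right hlow hpos

theorem sec_conv {w e f : E3} (hON : ON w e f) (v : Fin 3 → ℝ × ℝ) :
    sec w e f (convexHull ℝ (range v)) =
      cone3 (nrm (pl w e f (v 0))) (nrm (pl w e f (v 1))) (nrm (pl w e f (v 2))) ∩
        Metric.closedBall 0 1 := by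
  have hn : ∀ z, 0 < ‖pl w e f z‖ := fun z => by linarith [pl_norm_ge hON z]
  have hr : ∀ z, pl w e f z = ‖pl w e f z‖ • nrm (pl w e f z) := by
    intro z; rw [nrm, smul_smul, mul_inv_cancel₀ (hn z).ne', one_smul]
  have haff : ∀ a b c : ℝ, a + b + c = 1 → pl w e f (a • v 0 + b • v 1 + c • v 2) =
      a • pl w e f (v 0) + b • pl w e f (v 1) + c • pl w e f (v 2) := by
    intro a b c habc
    have : a • w + b • w + c • w = w := by rw [← add_smul, ← add_smul, habc, one_smul]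
    simp only [pl, Prod.fst_add, Prod.snd_add, Prod.smul_fst, Prod.smul_snd, smul_eq_mul,
      smul_add, add_smul, mul_smul]
    nth_rewrite 1 [← this]
    abel
  have hconv : ∀ z, z ∈ convexHull ℝ (range v) ↔ ∃ a b c : ℝ, 0 ≤ a ∧ 0 ≤ b ∧ 0 ≤ c ∧
      a + b + c = 1 ∧ z = a • v 0 + b • v 1 + c • v 2 := by
    intro z
    constructor
    · intro hz
      have : convexHull ℝ (range v) ⊆ {z | ∃ a b c : ℝ, 0 ≤ a ∧ 0 ≤ b ∧ 0 ≤ c ∧
          a + b + c = 1 ∧ z = a • v 0 + b • v 1 + c • v 2} := by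
        apply convexHull_min
        · rintro _ ⟨i, rfl⟩
          fin_cases i
          · exact ⟨1, 0, 0, by norm_num, le_rfl, le_rfl, by norm_num, by simp⟩
          · exact ⟨0, 1, 0, le_rfl, by norm_num, le_rfl, by norm_num, by simp⟩
          · exact ⟨0, 0, 1, le_rfl, le_rfl, by norm_num, by norm_num, by simp⟩
        · rintro _ ⟨a, b, c, ha, hb, hc, habc, rfl⟩ _ ⟨a', b', c', ha', hb', hc', habc', rfl⟩
            s t hs ht hst
          refine ⟨s * a + t * a', s * b + t * b', s * c + t * c', by positivity, by positivity,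
            by positivity, by linear_combination s * habc + t * habc' + hst, ?_⟩
          simp only [smul_add, add_smul, mul_smul]
          abel
      exact this hz
    · rintro ⟨a, b, c, ha, hb, hc, habc, rfl⟩
      have hcx := convex_convexHull ℝ (range v)
      have h0 := subset_convexHull ℝ (range v) (mem_range_self 0)
      have h1 := subset_convexHull ℝ (range v) (mem_range_self 1)
      have h2 := subset_convexHull ℝ (range v) (mem_range_self 2)
      have := hcx.sum_mem (t := Finset.univ) (w := ![a, b, c]) (z := v)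
        (by intro i _; fin_cases i <;> simpa) (by simp [Fin.sum_univ_three, habc])
        (by intro i _; exact subset_convexHull ℝ _ (mem_range_self i))
      simpa [Fin.sum_univ_three] using this
  ext x
  constructor
  · rintro ⟨hx, r, hr0, z, hz, rfl⟩
    refine ⟨?_, by simpa using hx⟩
    obtain ⟨a, b, c, ha, hb, hc, habc, rfl⟩ := (hconv z).1 hz
    refine ⟨r * a * ‖pl w e f (v 0)‖, r * b * ‖pl w e f (v 1)‖, r * c * ‖pl w e f (v 2)‖,
      by positivity, by positivity, by positivity, ?_⟩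
    rw [haff a b c habc]
    simp only [mul_smul, smul_add]
    rw [← hr, ← hr, ← hr]
  · rintro ⟨⟨a, b, c, ha, hb, hc, rfl⟩, hx⟩
    refine ⟨by simpa using hx, ?_⟩
    set a' := a * ‖pl w e f (v 0)‖⁻¹ with ha'
    set b' := b * ‖pl w e f (v 1)‖⁻¹ with hb'
    set c' := c * ‖pl w e f (v 2)‖⁻¹ with hc'
    have ha0 : 0 ≤ a' := by positivity
    have hb0 : 0 ≤ b' := by positivity
    have hc0 : 0 ≤ c' := by positivity
    have hx' : a • nrm (pl w e f (v 0)) + b • nrm (pl w e f (v 1)) + c • nrm (pl w e f (v 2)) =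
        a' • pl w e f (v 0) + b' • pl w e f (v 1) + c' • pl w e f (v 2) := by
      simp only [nrm, smul_smul, ha', hb', hc']
    rw [hx']
    rcases (add_nonneg (add_nonneg ha0 hb0) hc0).eq_or_lt with h0 | h0
    · refine ⟨0, le_rfl, v 0, subset_convexHull ℝ _ (mem_range_self 0), ?_⟩
      have h1 : a' = 0 := by linarith
      have h2 : b' = 0 := by linarith
      have h3 : c' = 0 := by linarith
      rw [h1, h2, h3]; simp
    · set S := a' + b' + c' with hS
      have hsum : a' / S + b' / S + c' / S = 1 := by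
        rw [← add_div, ← add_div, ← hS, div_self h0.ne']
      refine ⟨S, h0.le, (a' / S) • v 0 + (b' / S) • v 1 + (c' / S) • v 2,
        (hconv _).2 ⟨_, _, _, by positivity, by positivity, by positivity, hsum, rfl⟩, ?_⟩
      rw [haff _ _ _ hsum]
      simp only [smul_add, smul_smul]
      rw [mul_div_cancel₀ _ h0.ne', mul_div_cancel₀ _ h0.ne', mul_div_cancel₀ _ h0.ne']

theorem tp_pl (w e f : E3) (a b c : ℝ × ℝ) : tp (pl w e f a) (pl w e f b) (pl w e f c) =
    tp w e f * ((b.1 - a.1) * (c.2 - a.2) - (b.2 - a.2) * (c.1 - a.1)) := by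
  simp only [tp, pl, PiLp.add_apply, PiLp.smul_apply, smul_eq_mul]
  ring

theorem tp_smul (r s t : ℝ) (a b c : E3) : tp (r • a) (s • b) (t • c) = r * s * t * tp a b c := by
  simp only [tp, PiLp.smul_apply, smul_eq_mul]
  ring

theorem tp_swap (a b c : E3) : tp a c b = - tp a b c := by
  simp only [tp]; ring

theorem tv_det (h : ℝ) (τ : ℝ × ℝ) (t : (ℤ × ℤ) × Fin 2) :
    ((tv h τ t 1).1 - (tv h τ t 0).1) * ((tv h τ t 2).2 - (tv h τ t 0).2) -
      ((tv h τ t 1).2 - (tv h τ t 0).2) * ((tv h τ t 2).1 - (tv h τ t 0).1) = √3 / 2 * h ^ 2 := by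
  unfold tv
  split_ifs
  · simp only [Matrix.cons_val_zero, Matrix.cons_val_one, Matrix.cons_val, lat, Prod.fst_add,
      Prod.snd_add]
    push_cast
    ring
  · simp only [Matrix.cons_val_zero, Matrix.cons_val_one, Matrix.cons_val, lat, Prod.fst_add,
      Prod.snd_add]
    push_cast
    ring

theorem tv_dist (h : ℝ) (τ : ℝ × ℝ) (t : (ℤ × ℤ) × Fin 2) :
    ((tv h τ t 0).1 - (tv h τ t 1).1) ^ 2 + ((tv h τ t 0).2 - (tv h τ t 1).2) ^ 2 = h ^ 2 ∧
    ((tv h τ t 1).1 - (tv h τ t 2).1) ^ 2 + ((tv h τ t 1).2 - (tv h τ t 2).2) ^ 2 = h ^ 2 ∧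
    ((tv h τ t 2).1 - (tv h τ t 0).1) ^ 2 + ((tv h τ t 2).2 - (tv h τ t 0).2) ^ 2 = h ^ 2 := by
  have h3 : √3 ^ 2 = 3 := Real.sq_sqrt (by norm_num)
  unfold tv
  split_ifs
  · simp only [Matrix.cons_val_zero, Matrix.cons_val_one, Matrix.cons_val, lat, Prod.fst_add,
      Prod.snd_add]
    push_cast
    refine ⟨?_, ?_, ?_⟩
    · ring
    · linear_combination (h ^ 2 / 4) * h3
    · linear_combination (h ^ 2 / 4) * h3
  · simp only [Matrix.cons_val_zero, Matrix.cons_val_one, Matrix.cons_val, lat, Prod.fst_add,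
      Prod.snd_add]
    push_cast
    refine ⟨?_, ?_, ?_⟩
    · ring
    · linear_combination (h ^ 2 / 4) * h3
    · linear_combination (h ^ 2 / 4) * h3

open MeasureTheory in
theorem tri_bound {w e f : E3} (hON : ON w e f) {h : ℝ} (hh : 0 < h) (hh1 : h ≤ 1 / 10)
    (τ : ℝ × ℝ) (t : (ℤ × ℤ) × Fin 2) (K : Set E3) (hK : Convex ℝ K) (h0 : (0 : E3) ∈ K)
    (hx : ∀ i, nrm (pl w e f (tv h τ t i)) ∈ K) :
    (volume (sec w e f (convexHull ℝ (range (tv h τ t))) \ K)).toReal ≤
      (volume (sec w e f (convexHull ℝ (range (tv h τ t))))).toReal *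
        (3 / 8 * h ^ 2 * (1 + 2 * h ^ 2)) := by
  have hn : ∀ z, 0 < ‖pl w e f z‖ := fun z => by linarith [pl_norm_ge hON z]
  obtain ⟨d1, d2, d3⟩ := tv_dist h τ t
  have hd : ∀ a b : ℝ × ℝ, (a.1 - b.1) ^ 2 + (a.2 - b.2) ^ 2 = h ^ 2 →
      ‖nrm (pl w e f a) - nrm (pl w e f b)‖ ≤ h := by
    intro a b hab
    refine (nrm_lip (pl_norm_ge hON a) (pl_norm_ge hON b)).trans ?_
    have := pl_sub_norm hON a b
    rw [hab] at this
    exact ((pow_left_inj₀ (norm_nonneg _) hh.le (by norm_num)).1 this).le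
  have hd' : ∀ a b : ℝ × ℝ, (a.1 - b.1) ^ 2 + (a.2 - b.2) ^ 2 = h ^ 2 →
      ‖nrm (pl w e f b) - nrm (pl w e f a)‖ ≤ h := by
    intro a b hab
    rw [norm_sub_rev]; exact hd a b hab
  have hs3 : 0 < √3 := Real.sqrt_pos.2 (by norm_num)
  have htp : tp (nrm (pl w e f (tv h τ t 0))) (nrm (pl w e f (tv h τ t 1)))
      (nrm (pl w e f (tv h τ t 2))) = ‖pl w e f (tv h τ t 0)‖⁻¹ * ‖pl w e f (tv h τ t 1)‖⁻¹ *
        ‖pl w e f (tv h τ t 2)‖⁻¹ * (tp w e f * (√3 / 2 * h ^ 2)) := by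
    rw [nrm, nrm, nrm, tp_smul, tp_pl, tv_det]
  have hpos : 0 < ‖pl w e f (tv h τ t 0)‖⁻¹ * ‖pl w e f (tv h τ t 1)‖⁻¹ *
        ‖pl w e f (tv h τ t 2)‖⁻¹ * (√3 / 2 * h ^ 2) := by
    have h1 := hn (tv h τ t 0)
    have h2 := hn (tv h τ t 1)
    have h3 := hn (tv h τ t 2)
    positivity
  have hsq := tp_sq hON
  rw [sec_conv hON]
  rcases lt_or_ge 0 (tp w e f) with hp | hp
  · apply core (nrm_norm (pl_norm_ge hON _)) (nrm_norm (pl_norm_ge hON _))
      (nrm_norm (pl_norm_ge hON _)) _ hh1 (hd _ _ d1) (hd _ _ d2) (hd _ _ d3) K hK h0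
      (hx 0) (hx 1) (hx 2)
    rw [htp]
    have := mul_pos hpos hp
    linarith
  · have hp' : 0 < - tp w e f := by
      rcases hp.eq_or_lt with h1 | h1
      · rw [h1] at hsq; norm_num at hsq
      · linarith
    rw [cone3_swap]
    apply core (nrm_norm (pl_norm_ge hON _)) (nrm_norm (pl_norm_ge hON _))
      (nrm_norm (pl_norm_ge hON _)) _ hh1 (hd' _ _ d3) (hd' _ _ d2) (hd' _ _ d1) K hK h0
      (hx 0) (hx 2) (hx 1)
    rw [tp_swap, htp]
    have := mul_pos hpos hp'
    linarith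

theorem sec_mono {w e f : E3} {Z Z' : Set (ℝ × ℝ)} (h : Z ⊆ Z') : sec w e f Z ⊆ sec w e f Z' := by
  rintro x ⟨hx, r, hr, z, hz, rfl⟩
  exact ⟨hx, r, hr, z, h hz, rfl⟩

theorem sec_ball {w e f : E3} (Z : Set (ℝ × ℝ)) : sec w e f Z ⊆ Metric.closedBall 0 1 := by
  rintro x ⟨hx, -⟩
  simpa using hx

theorem sec_inter {w e f : E3} (hON : ON w e f) (Z Z' : Set (ℝ × ℝ)) :
    sec w e f Z ∩ sec w e f Z' ⊆ sec w e f (Z ∩ Z') ∪ {0} := by
  rintro x ⟨⟨hx, r, hr, z, hz, hxz⟩, ⟨-, r', hr', z', hz', hxz'⟩⟩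
  have h1 : inner ℝ x w = r := by
    rw [hxz, real_inner_smul_left, pl_inner_w hON, mul_one]
  have h2 : inner ℝ x w = r' := by
    rw [hxz', real_inner_smul_left, pl_inner_w hON, mul_one]
  have h3 : r = r' := h1.symm.trans h2
  subst h3
  rcases hr.eq_or_lt with h0 | h0
  · right
    rw [← h0, zero_smul] at hxz
    exact hxz
  · left
    have h4 : pl w e f z = pl w e f z' := by
      have h5 := hxz.symm.trans hxz'
      exact smul_right_injective _ h0.ne' h5
    have h5 := pl_inj hON h4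
    subst h5
    exact ⟨hx, r, hr, z, ⟨hz, hz'⟩, hxz⟩

open MeasureTheory Pointwise in
theorem sec_outer {w e f : E3} {Z : Set (ℝ × ℝ)} {ρ : ℝ} (hρ : 0 ≤ ρ) (hρ1 : ρ ≤ 1) :
    (volume (sec w e f Z \ Metric.closedBall 0 ρ)).toReal ≤
      (1 - ρ ^ 3) * (volume (sec w e f Z)).toReal := by
  have h1 : ρ • sec w e f Z ⊆ sec w e f Z ∩ Metric.closedBall 0 ρ := by
    rintro _ ⟨x, ⟨hx, r, hr, z, hz, rfl⟩, rfl⟩
    dsimp only
    have h2 : ‖ρ • r • pl w e f z‖ ≤ ρ := by
      rw [norm_smul, Real.norm_of_nonneg hρ]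
      calc ρ * ‖r • pl w e f z‖ ≤ ρ * 1 := mul_le_mul_of_nonneg_left hx hρ
        _ = ρ := mul_one _
    refine ⟨⟨h2.trans hρ1, ρ * r, mul_nonneg hρ hr, z, hz, by rw [smul_smul]⟩, by simpa using h2⟩
  have h3 : volume (ρ • sec w e f Z) = ENNReal.ofReal (ρ ^ 3) * volume (sec w e f Z) := by
    rw [Measure.addHaar_smul, finrank_euclideanSpace, Fintype.card_fin,
      abs_of_nonneg (by positivity)]
  have hfin : volume (sec w e f Z) ≠ ⊤ := vol_ne_top (sec_ball Z)
  have h4 := measure_inter_add_sdiff (μ := volume) (sec w e f Z)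
    (Metric.isClosed_closedBall (x := (0 : E3)) (ε := ρ)).measurableSet
  have h5 := congrArg ENNReal.toReal h4
  rw [ENNReal.toReal_add (vol_ne_top (inter_subset_left.trans (sec_ball Z)))
    (vol_ne_top (sdiff_subset.trans (sec_ball Z)))] at h5
  have h6 : (volume (ρ • sec w e f Z)).toReal ≤
      (volume (sec w e f Z ∩ Metric.closedBall 0 ρ)).toReal :=
    ENNReal.toReal_mono (vol_ne_top (inter_subset_left.trans (sec_ball Z))) (measure_mono h1)
  rw [h3, ENNReal.toReal_mul, ENNReal.toReal_ofReal (by positivity)] at h6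
  linarith

open MeasureTheory in
theorem exists_patch {w e f : E3} (hON : ON w e f) {h s : ℝ} (hh : 0 < h) (hs : 100 * h ≤ s)
    (hs1 : s ≤ 1 / 100) (A : Set (ℝ × ℝ)) (hA : MeasurableSet A) (hc : Convex ℝ A)
    (hin : ∀ z : ℝ × ℝ, z.1 ^ 2 + z.2 ^ 2 < (s / 4) ^ 2 → z ∈ A)
    (hout : ∀ z ∈ A, z.1 ^ 2 + z.2 ^ 2 ≤ 4 * s ^ 2) :
    ∃ X : Finset E3, (∀ x ∈ X, ‖x‖ = 1) ∧
      (X.card : ℝ) * (√3 / 2 * h ^ 2) ≤ (MeasureTheory.volume A).toReal ∧
      (∀ z ∈ A, ∃ x ∈ X, ‖x - nrm (pl w e f z)‖ ≤ 18 * h) ∧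
      ∀ K : Set E3, Convex ℝ K → MeasurableSet K → (X : Set E3) ⊆ K →
        Metric.closedBall 0 (1 - 200 * h ^ 2) ⊆ K →
        (MeasureTheory.volume (sec w e f A \ K)).toReal ≤
          (MeasureTheory.volume (sec w e f A)).toReal * (3 / 8 * h ^ 2 * (1 + 2 * h ^ 2)) +
            4000 * (h ^ 3 / s) * (MeasureTheory.volume A).toReal := by
  classical
  have hs0 : 0 < s := by linarith
  have hh1 : h ≤ 1 / 10 := by linarith
  have hh2 : h ≤ 1 / 10000 := by linarith
  have hbd : Bornology.IsBounded A := by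
    refine (Metric.isBounded_closedBall (x := (0 : ℝ × ℝ)) (r := 2 * s)).subset ?_
    intro z hz
    have h1 := hout z hz
    rw [Metric.mem_closedBall, dist_zero_right, Prod.norm_def, max_le_iff, Real.norm_eq_abs,
      Real.norm_eq_abs]
    constructor
    · apply abs_le_of_sq_le_sq _ (by linarith)
      nlinarith [sq_nonneg z.2]
    · apply abs_le_of_sq_le_sq _ (by linarith)
      nlinarith [sq_nonneg z.1]
  have hAfin : volume A ≠ ⊤ := hbd.measure_lt_top.ne
  obtain ⟨τ, hfin, hcard⟩ := exists_shift h hh A hA hbd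
  set X : Finset E3 := hfin.toFinset.image (fun z => nrm (pl w e f (lat h τ z))) with hX
  have hXmem : ∀ z, lat h τ z ∈ A → nrm (pl w e f (lat h τ z)) ∈ X := by
    intro z hz
    rw [hX, Finset.mem_image]
    exact ⟨z, hfin.mem_toFinset.2 hz, rfl⟩
  refine ⟨X, ?_, ?_, ?_, ?_⟩
  · intro x hx
    rw [hX, Finset.mem_image] at hx
    obtain ⟨z, -, rfl⟩ := hx
    exact nrm_norm (pl_norm_ge hON _)
  · refine le_trans ?_ hcard
    apply mul_le_mul_of_nonneg_right _ (by positivity)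
    have h1 : X.card ≤ hfin.toFinset.card := Finset.card_image_le
    rw [← Set.ncard_eq_toFinset_card _ hfin] at h1
    exact_mod_cast h1
  · intro z hz
    obtain ⟨k, hk, hk2⟩ := lat_near h s hh hs τ A hc hin hout z hz
    refine ⟨_, hXmem k hk, (nrm_lip (pl_norm_ge hON _) (pl_norm_ge hON _)).trans ?_⟩
    rw [← pl_sub_norm hON] at hk2
    exact (pow_le_pow_iff_left₀ (norm_nonneg _) (by positivity) (by norm_num)).1 hk2
  · intro K hKc _ hXK hbK
    obtain ⟨hTfin, hfill⟩ := tv_fill h s hh hs τ A hA hc hin hout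
    set T : Set ((ℤ × ℤ) × Fin 2) := {t | ∀ i, tv h τ t i ∈ A} with hT
    set Tf := hTfin.toFinset with hTf
    have hTm : ∀ t, t ∈ Tf ↔ ∀ i, tv h τ t i ∈ A := by
      intro t; rw [hTf, Set.Finite.mem_toFinset]; rfl
    set Ct : ((ℤ × ℤ) × Fin 2) → Set (ℝ × ℝ) := fun t => convexHull ℝ (range (tv h τ t)) with hCt
    have hCm : ∀ t, MeasurableSet (Ct t) := fun t =>
      (Set.Finite.isCompact_convexHull ℝ (Set.toFinite _)).isClosed.measurableSet
    have hCA : ∀ t ∈ Tf, Ct t ⊆ A := by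
      intro t ht
      apply convexHull_min _ hc
      rintro _ ⟨i, rfl⟩
      exact (hTm t).1 ht i
    set Z0 : Set (ℝ × ℝ) := A \ ⋃ t ∈ T, Ct t with hZ0
    have hUn : (⋃ t ∈ T, Ct t) = ⋃ t ∈ Tf, Ct t := by
      ext z; simp only [mem_iUnion, hTf, Set.Finite.mem_toFinset]
    have hZ0m : MeasurableSet Z0 := by
      rw [hZ0, hUn]
      exact hA.diff (Finset.measurableSet_biUnion _ (fun t _ => hCm t))
    have hZ0A : Z0 ⊆ A := sdiff_subset
    have h0K : (0 : E3) ∈ K := hbK (by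
      rw [Metric.mem_closedBall, dist_self]; nlinarith)
    have hxK : ∀ t ∈ Tf, ∀ i, nrm (pl w e f (tv h τ t i)) ∈ K := by
      intro t ht i
      apply hXK
      have h1 := (hTm t).1 ht i
      have h2 : ∃ z, tv h τ t i = lat h τ z := by
        unfold tv
        split_ifs <;> fin_cases i <;> exact ⟨_, rfl⟩
      obtain ⟨z, hz⟩ := h2
      rw [hz] at h1 ⊢
      exact hXmem z h1
    set κ : ℝ := 3 / 8 * h ^ 2 * (1 + 2 * h ^ 2) with hκ
    have hκ0 : 0 ≤ κ := by positivity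
    set ρ : ℝ := 1 - 200 * h ^ 2 with hρ
    have hρ0 : 0 ≤ ρ := by rw [hρ]; nlinarith
    have hρ1 : ρ ≤ 1 := by rw [hρ]; nlinarith [sq_nonneg h]
    -- the sectors over the triangles
    have hsumle : ∑ t ∈ Tf, (volume (sec w e f (Ct t))).toReal ≤ (volume (sec w e f A)).toReal := by
      have h1 : volume (⋃ t ∈ Tf, sec w e f (Ct t)) = ∑ t ∈ Tf, volume (sec w e f (Ct t)) := by
        apply measure_biUnion_finset₀
        · intro t _ t' _ htt'
          have h2 := tv_disj h hh τ t t' htt'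
          have h3 : volume (sec w e f (Ct t ∩ Ct t')) = 0 := by
            have := vol_sec_le hON ((hCm t).inter (hCm t'))
            rw [h2] at this
            simpa using this
          refine measure_mono_null (sec_inter hON _ _) ?_
          exact measure_union_null h3 (by simp)
        · intro t _
          exact sec_measurable hON (hCm t)
      have h2 : (⋃ t ∈ Tf, sec w e f (Ct t)) ⊆ sec w e f A :=
        iUnion₂_subset (fun t ht => sec_mono (hCA t ht))
      rw [← ENNReal.toReal_sum (fun t _ => vol_ne_top (sec_ball _)), ← h1]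
      exact ENNReal.toReal_mono (vol_ne_top (sec_ball _)) (measure_mono h2)
    have hcover : sec w e f A \ K ⊆ (⋃ t ∈ Tf, (sec w e f (Ct t) \ K)) ∪
        (sec w e f Z0 \ Metric.closedBall 0 ρ) := by
      rintro x ⟨⟨hx, r, hr, z, hz, rfl⟩, hxK'⟩
      by_cases hzT : z ∈ ⋃ t ∈ Tf, Ct t
      · left
        simp only [mem_iUnion] at hzT ⊢
        obtain ⟨t, ht, hzt⟩ := hzT
        exact ⟨t, ht, ⟨hx, r, hr, z, hzt, rfl⟩, hxK'⟩
      · right
        refine ⟨⟨hx, r, hr, z, ⟨hz, by rwa [hUn]⟩, rfl⟩, fun hb => hxK' (hbK hb)⟩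
    have hsub1 : (⋃ t ∈ Tf, (sec w e f (Ct t) \ K)) ⊆ Metric.closedBall (0 : E3) 1 :=
      iUnion₂_subset (fun t _ => sdiff_subset.trans (sec_ball _))
    have hsub2 : (sec w e f Z0 \ Metric.closedBall 0 ρ) ⊆ Metric.closedBall (0 : E3) 1 :=
      sdiff_subset.trans (sec_ball _)
    have hle1 : (volume (sec w e f A \ K)).toReal ≤
        (volume (⋃ t ∈ Tf, (sec w e f (Ct t) \ K))).toReal +
          (volume (sec w e f Z0 \ Metric.closedBall 0 ρ)).toReal := by
      rw [← ENNReal.toReal_add (vol_ne_top hsub1) (vol_ne_top hsub2)]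
      apply ENNReal.toReal_mono (ENNReal.add_ne_top.2 ⟨vol_ne_top hsub1, vol_ne_top hsub2⟩)
      exact (measure_mono hcover).trans (measure_union_le _ _)
    have hle2 : (volume (⋃ t ∈ Tf, (sec w e f (Ct t) \ K))).toReal ≤
        ∑ t ∈ Tf, (volume (sec w e f (Ct t) \ K)).toReal := by
      have hft : ∀ t ∈ Tf, volume (sec w e f (Ct t) \ K) ≠ ⊤ :=
        fun t _ => vol_ne_top (sdiff_subset.trans (sec_ball _))
      rw [← ENNReal.toReal_sum hft]
      apply ENNReal.toReal_mono (ENNReal.sum_ne_top.2 hft)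
      exact measure_biUnion_finset_le _ _
    have hle3 : ∑ t ∈ Tf, (volume (sec w e f (Ct t) \ K)).toReal ≤
        (volume (sec w e f A)).toReal * κ := by
      calc _ ≤ ∑ t ∈ Tf, (volume (sec w e f (Ct t))).toReal * κ := by
            apply Finset.sum_le_sum
            intro t ht
            exact tri_bound hON hh hh1 τ t K hKc h0K (hxK t ht)
        _ = (∑ t ∈ Tf, (volume (sec w e f (Ct t))).toReal) * κ := by rw [Finset.sum_mul]
        _ ≤ _ := mul_le_mul_of_nonneg_right hsumle hκ0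
    have hle4 : (volume (sec w e f Z0)).toReal ≤ (volume Z0).toReal / 3 := by
      have h1 := vol_sec_le hON hZ0m
      have h2 : volume Z0 ≠ ⊤ := ((measure_mono hZ0A).trans_lt hAfin.lt_top).ne
      have h3 := ENNReal.toReal_mono (ENNReal.div_ne_top h2 (by norm_num)) h1
      rwa [ENNReal.toReal_div] at h3
    have hle5 := sec_outer (w := w) (e := e) (f := f) (Z := Z0) hρ0 hρ1
    have hρ3 : 1 - ρ ^ 3 ≤ 600 * h ^ 2 := by
      rw [hρ]
      have h1 : 0 ≤ h ^ 2 := sq_nonneg h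
      have h2 : 200 * h ^ 2 ≤ 1 := by nlinarith
      nlinarith [mul_nonneg h1 h1, mul_nonneg (mul_nonneg h1 h1) h1]
    have hle6 : (volume (sec w e f Z0 \ Metric.closedBall 0 ρ)).toReal ≤
        4000 * (h ^ 3 / s) * (volume A).toReal := by
      have hV0 : 0 ≤ (volume A).toReal := ENNReal.toReal_nonneg
      calc _ ≤ (1 - ρ ^ 3) * (volume (sec w e f Z0)).toReal := hle5
        _ ≤ 600 * h ^ 2 * (volume (sec w e f Z0)).toReal :=
            mul_le_mul_of_nonneg_right hρ3 ENNReal.toReal_nonneg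
        _ ≤ 600 * h ^ 2 * ((volume Z0).toReal / 3) :=
            mul_le_mul_of_nonneg_left hle4 (by positivity)
        _ ≤ 600 * h ^ 2 * ((17 * (h / s) * (volume A).toReal) / 3) := by
            apply mul_le_mul_of_nonneg_left _ (by positivity)
            exact div_le_div_of_nonneg_right hfill (by norm_num)
        _ = 3400 * (h ^ 3 / s) * (volume A).toReal := by ring
        _ ≤ _ := by
            apply mul_le_mul_of_nonneg_right _ hV0
            apply mul_le_mul_of_nonneg_right (by norm_num) (by positivity)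
    linarith

end Pool.Agent.Helper320.Gold.NK4
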