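import Mathlib
import Pool.Agent.Helper320.GBase
import Pool.Agent.Helper320.GEX
import Pool.Agent.Helper320.GK5
import Pool.Agent.Helper320.GCB

set_option autoImplicit false
open Set

namespace Pool.Agent.Helper320.Gold.NFinB

open Pool.Agent.Helper320.Gold Pool.Agent.Helper320.Gold.NK5 Pool.Agent.Helper320.Gold.NCB

/-- the neighbours of `v` in the sense of supporting planes -/
def nbr (S : Finset E3) (v : E3) : Set E3 :=
  {w | w ∈ S ∧ w ≠ v ∧ ∃ (a : E3) (c : ℝ), (∀ x ∈ S, inner ℝ a x ≤ c) ∧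
    ∀ x ∈ S, (inner ℝ a x = c ↔ (x = v ∨ x = w))}

theorem nbr_eq {S : Finset E3} (hc : 3 ≤ S.card) {v : E3} (hv : v ∈ S) :
    nbr S v = {w | Adj S v w} := by
  ext w
  constructor
  · rintro ⟨hw, hwv, a, c, h1, h2⟩
    refine ⟨fun h => hwv h.symm, a, ?_, ?_⟩
    · rintro rfl
      have hc0 : (0 : ℝ) = c := by
        have := (h2 v hv).2 (Or.inl rfl)
        simpa using this
      have : S ⊆ {v, w} := by
        intro x hx
        have := (h2 x hx).1 (by simpa using hc0)
        simpa using this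
      have := Finset.card_le_card this
      have h3 : ({v, w} : Finset E3).card ≤ 2 := Finset.card_le_two
      omega
    · intro x
      have hvc : inner ℝ a v = c := (h2 v hv).2 (Or.inl rfl)
      constructor
      · rintro ⟨hx, hm⟩
        refine (h2 x hx).1 (le_antisymm (h1 x hx) ?_)
        rw [← hvc]; exact hm v hv
      · intro hx
        have hxS : x ∈ S := by rcases hx with rfl | rfl <;> assumption
        refine ⟨hxS, fun y hy => ?_⟩
        rw [(h2 x hxS).2 hx]; exact h1 y hy
  · rintro ⟨hvw, a, ha, h⟩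
    have hw : IsMax S a w := (h w).2 (Or.inr rfl)
    have hv' : IsMax S a v := (h v).2 (Or.inl rfl)
    refine ⟨hw.1, fun e => hvw e.symm, a, inner ℝ a v, hv'.2, fun x hx => ?_⟩
    rw [← h x]
    constructor
    · intro e
      refine ⟨hx, fun y hy => ?_⟩
      rw [e]; exact hv'.2 y hy
    · intro e
      exact le_antisymm (hv'.2 x hx) (e.2 v hv)

theorem simp_of {S : Finset E3}
    (h : ∀ (a : E3) (c : ℝ) (T : Finset E3), a ≠ 0 → T ⊆ S → (∀ x ∈ S, inner ℝ a x ≤ c) →
      (∀ x ∈ T, inner ℝ a x = c) → T.card ≤ 3) :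
    ∀ a : E3, a ≠ 0 → ∀ T : Finset E3, (∀ x ∈ T, IsMax S a x) → T.card ≤ 3 := by
  intro a ha T hT
  rcases T.eq_empty_or_nonempty with rfl | ⟨x0, hx0⟩
  · simp
  · refine h a (inner ℝ a x0) T ha (fun x hx => (hT x hx).1) (hT x0 hx0).2 (fun x hx => ?_)
    exact le_antisymm ((hT x0 hx0).2 x (hT x hx).1) ((hT x hx).2 x0 (hT x0 hx0).1)

theorem of_simp {S : Finset E3} (hS : Good S) :
    ∀ (a : E3) (c : ℝ) (T : Finset E3), a ≠ 0 → T ⊆ S → (∀ x ∈ S, inner ℝ a x ≤ c) →
      (∀ x ∈ T, inner ℝ a x = c) → T.card ≤ 3 := by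
  intro a c T ha hT h1 h2
  refine hS.simp a ha T (fun x hx => ⟨hT hx, fun y hy => ?_⟩)
  rw [h2 x hx]; exact h1 y hy

theorem half_volume {S : Finset E3} (hu : ∀ x ∈ S, ‖x‖ = 1) {a : E3} (ha : a ≠ 0)
    (h : ∀ x ∈ S, inner ℝ a x ≤ 0) :
    (MeasureTheory.volume (convexHull ℝ (S : Set E3))).toReal ≤ 2 * Real.pi / 3 := by
  have hball : convexHull ℝ (S : Set E3) ⊆ Metric.closedBall 0 1 := by
    refine convexHull_min (fun x hx => ?_) (convex_closedBall 0 1)
    simp [hu x hx]
  have hhalf : convexHull ℝ (S : Set E3) ⊆ {x | inner ℝ a x ≤ 0} := by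
    refine convexHull_min (fun x hx => h x hx) ?_
    exact convex_halfSpace_le (innerₛₗ ℝ a).isLinear 0
  have hneg : MeasureTheory.volume ((fun x : E3 => -x) ⁻¹' convexHull ℝ (S : Set E3)) =
      MeasureTheory.volume (convexHull ℝ (S : Set E3)) :=
    MeasureTheory.Measure.measure_preimage_neg _ _
  have hms : MeasurableSet (convexHull ℝ (S : Set E3)) :=
    (Set.Finite.isCompact_convexHull ℝ S.finite_toSet).isClosed.measurableSet
  have hdis : MeasureTheory.AEDisjoint MeasureTheory.volume (convexHull ℝ (S : Set E3))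
      ((fun x : E3 => -x) ⁻¹' convexHull ℝ (S : Set E3)) := by
    refine MeasureTheory.measure_mono_null (t := ((LinearMap.ker (innerₛₗ ℝ a) : Submodule ℝ E3) : Set E3)) ?_ ?_
    · rintro x ⟨h1, h2⟩
      have h3 := hhalf h1
      have h4 := hhalf h2
      simp only [mem_ofPred_eq, inner_neg_right] at h3 h4
      simp only [SetLike.mem_coe, LinearMap.mem_ker, innerₛₗ_apply_apply]
      linarith
    · refine MeasureTheory.Measure.addHaar_submodule _ _ ?_
      intro htop
      have : a ∈ (LinearMap.ker (innerₛₗ ℝ a) : Submodule ℝ E3) := by rw [htop]; trivial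
      simp only [LinearMap.mem_ker, innerₛₗ_apply_apply, inner_self_eq_zero] at this
      exact ha this
  have hun : MeasureTheory.volume (convexHull ℝ (S : Set E3) ∪
      ((fun x : E3 => -x) ⁻¹' convexHull ℝ (S : Set E3))) =
      MeasureTheory.volume (convexHull ℝ (S : Set E3)) +
      MeasureTheory.volume (convexHull ℝ (S : Set E3)) := by
    rw [MeasureTheory.measure_union₀ (hms.preimage measurable_neg).nullMeasurableSet hdis, hneg]
  have hle : MeasureTheory.volume (convexHull ℝ (S : Set E3)) +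
      MeasureTheory.volume (convexHull ℝ (S : Set E3)) ≤
      MeasureTheory.volume (Metric.closedBall (0 : E3) 1) := by
    rw [← hun]
    refine MeasureTheory.measure_mono (union_subset hball ?_)
    intro x hx
    have := hball hx
    simpa using this
  have hvb : MeasureTheory.volume (Metric.closedBall (0 : E3) 1) =
      ENNReal.ofReal (Real.pi * 4 / 3) := by
    rw [EuclideanSpace.volume_closedBall_fin_three] <;> simp
  rw [hvb] at hle
  have hfin : MeasureTheory.volume (convexHull ℝ (S : Set E3)) ≠ ⊤ := by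
    intro htop
    rw [htop] at hle
    simp at hle
  have h5 := ENNReal.toReal_mono ENNReal.ofReal_ne_top hle
  rw [ENNReal.toReal_add hfin hfin, ENNReal.toReal_ofReal (by positivity)] at h5
  linarith


theorem floor_ceil {n : ℕ} (hn : 13 ≤ n) : ⌊(6 : ℝ) - 12 / (n : ℝ)⌋ = 5 ∧
    ⌈(6 : ℝ) - 12 / (n : ℝ)⌉ = 6 := by
  have h0 : (0 : ℝ) < 12 / n := by positivity
  have h1 : (12 : ℝ) / n < 1 := by
    rw [div_lt_one (by positivity)]
    exact_mod_cast (by omega : 12 < n)
  constructor
  · rw [Int.floor_eq_iff]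
    constructor <;> push_cast <;> linarith
  · rw [Int.ceil_eq_iff]
    constructor <;> push_cast <;> linarith

end Pool.Agent.Helper320.Gold.NFinB
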