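import Pool.Agent.Helper320.LCPath

set_option autoImplicit false
open Filter Topology

namespace Pool.Agent.Helper320.LC

/-- `p` is an attracting fixed point of an element of `G`, with basin of radius `r`. -/
def Att (G : Subgroup (Circ ≃ₜ Circ)) (r : ℝ) (p : Circ) : Prop :=
  ∃ g ∈ G, g p = p ∧ ∀ z, dist z p ≤ r → dist (g z) p ≤ dist z p / 2

/-- Absence of resilient configurations at scale `r`. -/
def NoRes (G : Subgroup (Circ ≃ₜ Circ)) (r : ℝ) : Prop :=
  ∀ p q : Circ, ∀ g ∈ G, (∀ z, dist z p ≤ r → dist (g z) p ≤ dist z p / 2) → q ≠ p →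
    dist q p < r → ¬ (∀ τ > 0, ∃ h ∈ G, ∃ δ > 0, ∀ z, dist z p < δ → dist (h z) q < τ)

variable {S : Set (Circ ≃ₜ Circ)} {D : (Circ ≃ₜ Circ) → Circ → ℝ} {A : ℝ}
variable {ε' σ δ : ℝ} {e : ℕ → ℝ}

lemma att_iso {G : Subgroup (Circ ≃ₜ Circ)} {r : ℝ} (hN : NoRes G r) {p : Circ}
    (hp : Att G r p) : ∀ h ∈ G, dist (h p) p < r → h p = p := by
  intro h hh hd
  by_contra hne
  obtain ⟨g, hg, -, hgc⟩ := hp
  refine hN p (h p) g hg hgc hne hd (fun τ hτ => ?_)
  obtain ⟨δ, hδ, hδ2⟩ := Metric.continuous_iff.1 h.continuous p τ hτ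
  exact ⟨h, hh, δ, hδ, hδ2⟩

lemma att_sep {G : Subgroup (Circ ≃ₜ Circ)} {r : ℝ} (hr : 0 < r) (hN : NoRes G r) {p p' : Circ}
    (hp : Att G r p) (hp' : Att G r p') (hd : dist p' p < r) : p' = p := by
  by_contra hne
  obtain ⟨g, hg, -, hgc⟩ := hp
  obtain ⟨g', hg', hgp', hgc'⟩ := hp'
  refine hN p p' g hg hgc hne hd (fun τ hτ => ?_)
  have hit : ∀ n : ℕ, ∀ z, dist z p' ≤ r → dist ((g' ^ n) z) p' ≤ r / 2 ^ n := by
    intro n
    induction n with
    | zero => intro z hz; simpa using hz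
    | succ n ih =>
      intro z hz
      have h1 := ih z hz
      have h2 : r / 2 ^ n ≤ r := div_le_self hr.le (one_le_pow₀ (by norm_num))
      rw [pow_succ']
      show dist (g' ((g' ^ n) z)) p' ≤ _
      have h3 := hgc' ((g' ^ n) z) (h1.trans h2)
      calc _ ≤ dist ((g' ^ n) z) p' / 2 := h3
        _ ≤ (r / 2 ^ n) / 2 := by linarith
        _ = _ := by rw [pow_succ]; field_simp
  obtain ⟨n, hn⟩ : ∃ n : ℕ, r / 2 ^ n < τ := by
    obtain ⟨n, hn⟩ := exists_pow_lt_of_lt_one (div_pos hτ hr) (show (1/2 : ℝ) < 1 by norm_num)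
    refine ⟨n, ?_⟩
    rw [lt_div_iff₀ hr] at hn
    calc r / 2 ^ n = (1/2) ^ n * r := by
          rw [one_div, inv_pow]; field_simp
      _ < τ := hn
  refine ⟨g' ^ n, Subgroup.pow_mem _ hg' n, r - dist p' p, by linarith, fun z hz => ?_⟩
  refine (hit n z ?_).trans_lt hn
  have := dist_triangle z p p'
  rw [dist_comm p p'] at this
  linarith

lemma finite_of_sep {T : Set Circ} {c : ℝ} (hc : 0 < c)
    (hT : ∀ x ∈ T, ∀ y ∈ T, x ≠ y → c ≤ dist x y) : T.Finite := by
  obtain ⟨t, -, htf, ht⟩ := finite_cover_balls_of_compact (isCompact_univ (X := Circ))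
    (half_pos hc)
  have hsub : T ⊆ ⋃ x ∈ t, (T ∩ Metric.ball x (c / 2)) := by
    intro y hy
    obtain ⟨x, hx, hyx⟩ := Set.mem_iUnion₂.1 (ht (Set.mem_univ y))
    exact Set.mem_iUnion₂.2 ⟨x, hx, hy, hyx⟩
  refine (htf.biUnion fun x _ => ?_).subset hsub
  apply Set.Subsingleton.finite
  rintro y ⟨hy, hyx⟩ z ⟨hz, hzx⟩
  by_contra hne
  have h1 := hT y hy z hz hne
  have h2 := dist_triangle_right y z x
  rw [Metric.mem_ball] at hyx hzx
  linarith

lemma att_finite {G : Subgroup (Circ ≃ₜ Circ)} {r : ℝ} (hr : 0 < r) (hN : NoRes G r) :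
    {p | Att G r p}.Finite :=
  finite_of_sep hr fun x hx y hy hne => by
    by_contra hcon
    push Not at hcon
    exact hne (att_sep hr hN hy hx hcon)

/-- Capture: a close return of a good orbit yields an attracting fixed point nearby. -/
lemma capture (hC : Cst S D A ε' σ δ e) {a : ℕ → (Circ ≃ₜ Circ)} (ha : ∀ j, a j ∈ S) {x : Circ}
    {N : ℕ} (hg : Good0 D ε' a x N) {m : ℕ} (hm : m ≤ N) (hσm : Real.exp (-σ * m) ≤ 1/16)
    (hret : dist (fl a m x) x ≤ δ / 16) :
    ∃ p, Att (Subgroup.closure S) (δ / 2) p ∧ dist x p ≤ δ / 8 := by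
  have hδ := hC.δ_pos
  set u := fl a m with hu
  have h1 : ∀ z, dist z x ≤ δ → dist (u z) (u x) ≤ δ / 16 := fun z hz => by
    have := contr1' hC ha hg hz hm
    have h2 : Real.exp (-σ * m) * dist z x ≤ 1/16 * δ :=
      mul_le_mul hσm hz dist_nonneg (by norm_num)
    linarith
  have h2 : ∀ z, dist z x ≤ δ → dist (u z) x ≤ δ / 8 := fun z hz => by
    have := dist_triangle (u z) (u x) x
    linarith [h1 z hz]
  have h3 : ∀ z z', dist z x ≤ δ → dist z' x ≤ δ → dist (u z) (u z') ≤ dist z z' / 2 := by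
    intro z z' hz hz'
    have h4 := contr2 hC ha hg hz hz' hm
    have h5 := expo_le hC hg hm
    have h6 : Real.exp (Ls D a x m + 3 * Es e m) ≤ 1/16 :=
      (Real.exp_le_exp.2 h5).trans hσm
    have h7 : Real.exp (Ls D a x m + 3 * Es e m) * dist z z' ≤ 1/16 * dist z z' :=
      mul_le_mul_of_nonneg_right h6 dist_nonneg
    have h8 : (0:ℝ) ≤ dist z z' := dist_nonneg
    linarith
  have hmaps : Set.MapsTo u (Metric.closedBall x δ) (Metric.closedBall x δ) := fun z hz =>
    Metric.mem_closedBall.2 ((h2 z hz).trans (by linarith))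
  have hcontr : ContractingWith (1/2) (hmaps.restrict u _ _) := by
    refine ⟨by norm_num, LipschitzWith.of_dist_le_mul fun z z' => ?_⟩
    have := h3 z z' z.2 z'.2
    show dist (u z) (u z') ≤ _
    rw [show dist z z' = dist (z : Circ) z' from rfl]
    push_cast
    linarith
  obtain ⟨p, hpB, hpf, -, -⟩ := hcontr.exists_fixedPoint' Metric.isClosed_closedBall.isComplete
    hmaps (x := x) (Metric.mem_closedBall_self hδ.le) (edist_ne_top _ _)
  have hpf' : u p = p := hpf
  have hpx : dist p x ≤ δ / 8 := by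
    have := h2 p hpB
    rwa [hpf'] at this
  refine ⟨p, ⟨u, fl_mem ha m, hpf', fun z hz => ?_⟩, by rw [dist_comm]; exact hpx⟩
  have hzx : dist z x ≤ δ := by
    have := dist_triangle z p x
    linarith
  have := h3 z p hzx hpB
  rwa [hpf'] at this

/-- Time `j` is good with horizon `N`. -/
def Good (D : (Circ ≃ₜ Circ) → Circ → ℝ) (ε' : ℝ) (a : ℕ → (Circ ≃ₜ Circ)) (x : Circ) (N : ℕ)
    (j : ℕ) : Prop := j ≤ N ∧ Good0 D ε' (sh a j) (fl a j x) (N - j)

lemma good_iff {a : ℕ → (Circ ≃ₜ Circ)} {x : Circ} {N j : ℕ} :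
    Good D ε' a x N j ↔ j ≤ N ∧ ∀ i, j ≤ i → i ≤ N →
      Ls D a x i + ε' * i ≤ Ls D a x j + ε' * j := by
  unfold Good Good0
  constructor
  · rintro ⟨h1, h2⟩
    refine ⟨h1, fun i hi hi2 => ?_⟩
    have h3 := h2 (i - j) (by omega)
    have h4 := Ls_add D a x j (i - j)
    rw [show j + (i - j) = i by omega] at h4
    rw [Nat.cast_sub hi] at h3
    linarith
  · rintro ⟨h1, h2⟩
    refine ⟨h1, fun m hm => ?_⟩
    have h3 := h2 (j + m) (by omega) (by omega)
    rw [Ls_add] at h3
    push_cast at h3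
    linarith

/-- Slow drop between good times. -/
lemma drop (hB : Base S D A) (hε : 0 ≤ ε') {a : ℕ → (Circ ≃ₜ Circ)} (ha : ∀ j, a j ∈ S)
    {x : Circ} {N r : ℕ} (hr : Good D ε' a x N r) (Gd : Finset ℕ) (k : ℕ) :
    ∀ b, b + k = r → (∀ j, b ≤ j → j < r → Good D ε' a x N j → j ∈ Gd) →
      ∀ i, b ≤ i → i ≤ N → Ls D a x i + ε' * i ≤
        Ls D a x r + ε' * r + A * (Gd.filter (fun j => b ≤ j)).card := by
  have hA := hB.A_pos
  induction k with
  | zero =>
    intro b hb _ i hi hi2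
    have h1 := (good_iff.1 hr).2 i (by omega) hi2
    have h2 : 0 ≤ A * (Gd.filter (fun j => b ≤ j)).card := by positivity
    linarith
  | succ k ih =>
    intro b hb hG i hi hi2
    have ih' := ih (b + 1) (by omega) (fun j hj hj2 hj3 => hG j (by omega) hj2 hj3)
    have hmono : ((Gd.filter (fun j => b + 1 ≤ j)).card : ℝ) ≤
        (Gd.filter (fun j => b ≤ j)).card := by
      exact_mod_cast Finset.card_le_card (fun j hj => by
        rw [Finset.mem_filter] at hj ⊢
        exact ⟨hj.1, by omega⟩)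
    have hmono' := mul_le_mul_of_nonneg_left hmono hA.le
    rcases Nat.eq_or_lt_of_le hi with rfl | hlt
    · by_cases hgb : Good D ε' a x N b
      · have hbG : b ∈ Gd := hG b le_rfl (by omega) hgb
        have hcard : (Gd.filter (fun j => b + 1 ≤ j)).card + 1 ≤
            (Gd.filter (fun j => b ≤ j)).card := by
          rw [← Finset.card_insert_of_notMem (a := b)]
          · apply Finset.card_le_card
            intro j hj
            rw [Finset.mem_insert, Finset.mem_filter] at hj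
            rw [Finset.mem_filter]
            rcases hj with rfl | hj
            · exact ⟨hbG, le_rfl⟩
            · exact ⟨hj.1, by omega⟩
          · rw [Finset.mem_filter]
            omega
        have hcard' : ((Gd.filter (fun j => b + 1 ≤ j)).card : ℝ) + 1 ≤
            (Gd.filter (fun j => b ≤ j)).card := by exact_mod_cast hcard
        have hrN : r ≤ N := hr.1
        have h1 := ih' (b + 1) le_rfl (by omega)
        have h2 := hB.log_lb (ha b) (fl a b x)
        rw [Ls_succ] at h1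
        push_cast at h1
        nlinarith
      · rw [good_iff] at hgb
        push Not at hgb
        obtain ⟨i', hi'1, hi'2, hi'3⟩ := hgb hi2
        have hne : i' ≠ b := by
          rintro rfl
          exact lt_irrefl _ hi'3
        have h1 := ih' i' (by omega) hi'2
        linarith
    · have h1 := ih' i (by omega) hi2
      linarith

end Pool.Agent.Helper320.LC
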