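import Pool.Agent.Helper320.LCCapt

set_option autoImplicit false
open Filter Topology

namespace Pool.Agent.Helper320.LC

variable {S : Set (Circ ≃ₜ Circ)} {D : (Circ ≃ₜ Circ) → Circ → ℝ} {A : ℝ}
variable {ε' σ δ : ℝ} {e : ℕ → ℝ}

/-- Captured points. -/
def Capd (S : Set (Circ ≃ₜ Circ)) (δ : ℝ) (x : Circ) : Prop :=
  ∃ p, Att (Subgroup.closure S) (δ / 2) p ∧ dist x p ≤ δ / 8

lemma exists_Q0 (S : Set (Circ ≃ₜ Circ)) (D : (Circ ≃ₜ Circ) → Circ → ℝ) (A ε' : ℝ)
    (hσ : 0 < σ) (hδ : 0 < δ) :
    ∃ Q0 : ℕ, ∀ (e : ℕ → ℝ), Cst S D A ε' σ δ e → ∀ (a : ℕ → (Circ ≃ₜ Circ)),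
      (∀ j, a j ∈ S) → ∀ (x : Circ) (N : ℕ) (B : Finset ℕ),
      (∀ j ∈ B, Good D ε' a x N j ∧ ¬ Capd S δ (fl a j x)) → B.card ≤ Q0 := by
  obtain ⟨n0, hn0⟩ : ∃ n0 : ℕ, 0 < n0 ∧ Real.exp (-σ * n0) ≤ 1/16 := by
    have h1 : Tendsto (fun n : ℕ => Real.exp (-σ * n)) atTop (𝓝 0) := by
      apply Real.tendsto_exp_atBot.comp
      exact (tendsto_natCast_atTop_atTop (R := ℝ)).const_mul_atTop_of_neg (by linarith)
    obtain ⟨n, hn⟩ := ((h1.eventually (gt_mem_nhds (show (0:ℝ) < 1/16 by norm_num))).and
      (eventually_gt_atTop 0)).exists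
    exact ⟨n, hn.2, hn.1.le⟩
  obtain ⟨t, -, htf, ht⟩ := finite_cover_balls_of_compact (isCompact_univ (X := Circ))
    (show 0 < δ / 32 by positivity)
  have hcell : ∀ x : Circ, ∃ c, c ∈ htf.toFinset ∧ dist x c < δ / 32 := by
    intro x
    obtain ⟨c, hc, hxc⟩ := Set.mem_iUnion₂.1 (ht (Set.mem_univ x))
    exact ⟨c, htf.mem_toFinset.2 hc, hxc⟩
  choose cell hcell1 hcell2 using hcell
  refine ⟨(Finset.range n0 ×ˢ htf.toFinset).card, ?_⟩
  intro e hC a ha x N B hB
  apply Finset.card_le_card_of_injOn (fun j => (j % n0, cell (fl a j x)))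
  · intro j hj
    simp only [Finset.coe_product, Set.mem_prod, Finset.mem_coe, Finset.mem_range]
    exact ⟨Nat.mod_lt _ hn0.1, hcell1 _⟩
  · have key : ∀ i ∈ B, ∀ j ∈ B, i < j → i % n0 = j % n0 →
        cell (fl a i x) = cell (fl a j x) → False := by
      intro i hi j hj hij hmod hc
      have hge : i + n0 ≤ j := by
        have h1 := Nat.div_add_mod i n0
        have h2 := Nat.div_add_mod j n0
        have h3 : i / n0 < j / n0 := by
          by_contra hcon
          push Not at hcon
          have := Nat.mul_le_mul_left n0 hcon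
          omega
        have h4 : n0 * (i / n0 + 1) ≤ n0 * (j / n0) := Nat.mul_le_mul_left n0 h3
        rw [mul_add, mul_one] at h4
        omega
      have hjN := (hB j hj).1.1
      apply (hB i hi).2
      refine capture hC (sh_mem ha i) (hB i hi).1.2 (m := j - i) (by omega) ?_ ?_
      · refine le_trans (Real.exp_le_exp.2 ?_) hn0.2
        have : (n0 : ℝ) ≤ ((j - i : ℕ) : ℝ) := by exact_mod_cast (show n0 ≤ j - i by omega)
        nlinarith
      · rw [← fl_add_apply, show i + (j - i) = j by omega]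
        have h1 := hcell2 (fl a i x)
        have h2 := hcell2 (fl a j x)
        rw [hc] at h1
        have := dist_triangle_right (fl a j x) (fl a i x) (cell (fl a j x))
        linarith
    intro i hi j hj hij
    simp only [Prod.mk.injEq] at hij
    rcases lt_trichotomy i j with h | h | h
    · exact (key i hi j hj h hij.1 hij.2).elim
    · exact h
    · exact (key j hj i hi h hij.1.symm hij.2.symm).elim

/-- Isolation radius of `z` in its orbit (capped by `1/2`). -/
noncomputable def isoR (G : Subgroup (Circ ≃ₜ Circ)) (z : Circ) : ℝ :=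
  sSup {r : ℝ | r ≤ 1/2 ∧ ∀ h ∈ G, h z ≠ z → r ≤ dist (h z) z}

lemma isoR_bdd (G : Subgroup (Circ ≃ₜ Circ)) (z : Circ) :
    BddAbove {r : ℝ | r ≤ 1/2 ∧ ∀ h ∈ G, h z ≠ z → r ≤ dist (h z) z} :=
  ⟨1/2, fun _ hr => hr.1⟩

lemma isoR_nonneg (G : Subgroup (Circ ≃ₜ Circ)) (z : Circ) : 0 ≤ isoR G z :=
  le_csSup (isoR_bdd G z) ⟨by norm_num, fun _ _ _ => dist_nonneg⟩

lemma isoR_le_half (G : Subgroup (Circ ≃ₜ Circ)) (z : Circ) : isoR G z ≤ 1/2 :=
  csSup_le ⟨0, by norm_num, fun _ _ _ => dist_nonneg⟩ fun _ hr => hr.1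

lemma isoR_le {G : Subgroup (Circ ≃ₜ Circ)} {z : Circ} {h : Circ ≃ₜ Circ} (hh : h ∈ G)
    (hne : h z ≠ z) : isoR G z ≤ dist (h z) z :=
  csSup_le ⟨0, by norm_num, fun _ _ _ => dist_nonneg⟩ fun _ hr => hr.2 h hh hne

lemma le_isoR {G : Subgroup (Circ ≃ₜ Circ)} {z : Circ} {r : ℝ} (hr : r ≤ 1/2)
    (h : ∀ h ∈ G, h z ≠ z → r ≤ dist (h z) z) : r ≤ isoR G z :=
  le_csSup (isoR_bdd G z) ⟨hr, h⟩

/-- Relative isolation. -/
noncomputable def kap (G : Subgroup (Circ ≃ₜ Circ)) (z z' : Circ) : ℝ :=
  if z = z' then 1 else min 1 (isoR G z / dist z z')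

lemma kap_nonneg (G : Subgroup (Circ ≃ₜ Circ)) (z z' : Circ) : 0 ≤ kap G z z' := by
  unfold kap
  split_ifs
  · norm_num
  · exact le_min (by norm_num) (div_nonneg (isoR_nonneg G z) dist_nonneg)

/-- Summed chain weights. -/
noncomputable def Om (G : Subgroup (Circ ≃ₜ Circ)) (E : Finset Circ) : ℕ → Circ → ℝ
  | 0, _ => 0
  | k + 1, z => isoR G z + ∑ z' ∈ E, kap G z z' * Om G E k z'

lemma Om_nonneg (G : Subgroup (Circ ≃ₜ Circ)) (E : Finset Circ) (k : ℕ) (z : Circ) :
    0 ≤ Om G E k z := by
  induction k generalizing z with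
  | zero => simp [Om]
  | succ k ih =>
    simp only [Om]
    exact add_nonneg (isoR_nonneg G z)
      (Finset.sum_nonneg fun z' _ => mul_nonneg (kap_nonneg G z z') (ih z'))

lemma dist_le_half (x y : Circ) : dist x y ≤ 1/2 := by
  rw [dist_eq_norm]
  have := AddCircle.norm_le_half_period (1:ℝ) one_ne_zero (x := x - y)
  simpa using this

lemma isoR_le_kap (G : Subgroup (Circ ≃ₜ Circ)) (z Q : Circ) : isoR G z ≤ kap G z Q := by
  unfold kap
  have h1 := isoR_le_half G z
  have h0 := isoR_nonneg G z
  split_ifs with h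
  · linarith
  · have hd : 0 < dist z Q := dist_pos.2 h
    have hd2 := dist_le_half z Q
    refine le_min (by linarith) ?_
    rw [le_div_iff₀ hd]
    nlinarith

lemma sum_Om_le {G : Subgroup (Circ ≃ₜ Circ)} {E : Finset Circ} {K : ℝ}
    (hK : ∀ Q : Circ, ∑ z ∈ E, kap G z Q ≤ K) (k : ℕ) :
    ∑ z ∈ E, Om G E k z + 1 ≤ (1 + K) ^ k := by
  have hK0 : 0 ≤ K := (Finset.sum_nonneg fun z _ => kap_nonneg G z 0).trans (hK 0)
  induction k with
  | zero => simp [Om]
  | succ k ih =>
    have h1 : ∑ z ∈ E, Om G E (k + 1) z =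
        ∑ z ∈ E, isoR G z + ∑ z' ∈ E, (∑ z ∈ E, kap G z z') * Om G E k z' := by
      simp only [Om, Finset.sum_add_distrib]
      congr 1
      rw [Finset.sum_comm]
      exact Finset.sum_congr rfl fun z' _ => by rw [Finset.sum_mul]
    have h2 : ∑ z ∈ E, isoR G z ≤ K :=
      (Finset.sum_le_sum fun z _ => isoR_le_kap G z 0).trans (hK 0)
    have h3 : ∑ z' ∈ E, (∑ z ∈ E, kap G z z') * Om G E k z' ≤ K * ∑ z' ∈ E, Om G E k z' := by
      rw [Finset.mul_sum]
      exact Finset.sum_le_sum fun z' _ =>
        mul_le_mul_of_nonneg_right (hK z') (Om_nonneg G E k z')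
    rw [h1, pow_succ]
    have h4 : 0 ≤ ∑ z' ∈ E, Om G E k z' := Finset.sum_nonneg fun z _ => Om_nonneg G E k z
    nlinarith [one_le_pow₀ (show (1:ℝ) ≤ 1 + K by linarith) (n := k)]


/-- The chain lemma. -/
theorem chain (hC : Cst S D A ε' σ δ e) (hδ1 : δ ≤ 1) (hε' : 0 ≤ ε')
    (hN : NoRes (Subgroup.closure S) (δ / 2)) {η' C0 : ℝ} (hη' : 0 ≤ η') (hC0 : 0 ≤ C0)
    (hE : ∀ m : ℕ, Es e m ≤ C0 + η' * m) {Q0 : ℕ}
    (hQ : ∀ (a : ℕ → (Circ ≃ₜ Circ)), (∀ j, a j ∈ S) → ∀ (x : Circ) (N : ℕ) (B : Finset ℕ),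
      (∀ j ∈ B, Good D ε' a x N j ∧ ¬ Capd S δ (fl a j x)) → B.card ≤ Q0)
    {N : ℕ} {E : Finset Circ}
    (hEm : ∀ z, (∃ p, Att (Subgroup.closure S) (δ / 2) p ∧ ∃ h ∈ Subgroup.closure S, h p = z) →
      δ / 2 * Real.exp (-(A + 3 * η') * N - 3 * C0) ≤ isoR (Subgroup.closure S) z → z ∈ E)
    {a : ℕ → (Circ ≃ₜ Circ)} (ha : ∀ j, a j ∈ S) {x : Circ} (k : ℕ) :
    ∀ (R : Finset Circ), R.card ≤ k → ∀ r, Good D ε' a x N r → ∀ p ∈ R,
      Att (Subgroup.closure S) (δ / 2) p → dist (fl a r x) p ≤ δ / 8 →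
      (∀ j, r ≤ j → Good D ε' a x N j → ∀ p', Att (Subgroup.closure S) (δ / 2) p' →
        dist (fl a j x) p' ≤ δ / 8 → p' ∈ R) →
      fl (sh a r) (N - r) p ∈ E ∧
      (δ / 2 * Real.exp (-4 * C0 - A * (1 + Q0) - 4 * η' * N)) ^ k *
        Real.exp (-ε' * ((N : ℝ) - r)) ≤ Om (Subgroup.closure S) E k (fl (sh a r) (N - r) p) := by
  classical
  set κ0 := δ / 2 * Real.exp (-4 * C0 - A * (1 + Q0) - 4 * η' * N) with hκ0
  have hδ := hC.δ_pos
  have hA := hC.base.A_pos
  have hκ0pos : 0 < κ0 := by positivity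
  have hκ0le : κ0 ≤ 1 := by
    have h1 : Real.exp (-4 * C0 - A * (1 + Q0) - 4 * η' * N) ≤ 1 := by
      rw [Real.exp_le_one_iff]
      have : 0 ≤ A * (1 + Q0) := by positivity
      have : 0 ≤ 4 * η' * N := by positivity
      linarith
    rw [hκ0]
    nlinarith [Real.exp_pos (-4 * C0 - A * (1 + Q0) - 4 * η' * N)]
  induction k with
  | zero =>
    intro R hR r hr p hp
    have : R = ∅ := Finset.card_eq_zero.1 (by omega)
    rw [this] at hp
    exact absurd hp (Finset.notMem_empty p)
  | succ k ih =>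
    intro R hR r hr p hpR hpA hpd hcap
    -- the last good time captured by `p`
    let Tb := (Finset.range (N + 1)).filter
      (fun j => r ≤ j ∧ Good D ε' a x N j ∧ dist (fl a j x) p ≤ δ / 8)
    have hTb : ∀ j, j ∈ Tb ↔ r ≤ j ∧ Good D ε' a x N j ∧ dist (fl a j x) p ≤ δ / 8 := by
      intro j
      simp only [Tb, Finset.mem_filter, Finset.mem_range]
      constructor
      · exact fun h => h.2
      · exact fun h => ⟨by have := h.2.1.1; omega, h⟩
    have hrT : r ∈ Tb := (hTb r).2 ⟨le_rfl, hr, hpd⟩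
    set b := Tb.max' ⟨r, hrT⟩ with hb
    have hbT : b ∈ Tb := Finset.max'_mem _ _
    have hbmax : ∀ j ∈ Tb, j ≤ b := fun j hj => Finset.le_max' _ _ hj
    obtain ⟨hrb, hbG, hbd⟩ := (hTb b).1 hbT
    have hbN := hbG.1
    have hrN := hr.1
    have hbd' : dist p (fl a b x) ≤ δ / 8 := by rw [dist_comm]; exact hbd
    have hpd' : dist p (fl a r x) ≤ δ / 8 := by rw [dist_comm]; exact hpd
    have hfix : fl (sh a r) (b - r) p = p := by
      apply att_iso hN hpA _ (fl_mem (sh_mem ha r) _)
      have h1 := contr1' hC (sh_mem ha r) hr.2 (z := p) (by linarith) (m := b - r) (by omega)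
      rw [← fl_add_apply, show r + (b - r) = b by omega] at h1
      have h2 : Real.exp (-σ * ((b - r : ℕ) : ℝ)) ≤ 1 := by
        rw [Real.exp_le_one_iff]
        have := hC.σ_pos
        have : (0:ℝ) ≤ ((b - r : ℕ) : ℝ) := by positivity
        nlinarith
      have h3 : Real.exp (-σ * ((b - r : ℕ) : ℝ)) * dist p (fl a r x) ≤ 1 * (δ / 8) :=
        mul_le_mul h2 hpd' dist_nonneg (by norm_num)
      have h4 := dist_triangle (fl (sh a r) (b - r) p) (fl a b x) p
      linarith
    have hz : fl (sh a r) (N - r) p = fl (sh a b) (N - b) p := by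
      have h1 := fl_add_apply (sh a r) (b - r) (N - b) p
      rw [hfix, sh_sh, show r + (b - r) = b by omega, show b - r + (N - b) = N - r by omega] at h1
      exact h1
    rw [hz]
    set z := fl (sh a b) (N - b) p with hzdef
    set Lb := Ls D (sh a b) (fl a b x) (N - b) with hLb
    have hLN : Ls D a x N = Ls D a x b + Lb := by
      have := Ls_add D a x b (N - b)
      rwa [show b + (N - b) = N by omega] at this
    have hcastNb : ((N - b : ℕ) : ℝ) = (N : ℝ) - b := Nat.cast_sub hbN
    have hEs0 : 0 ≤ Es e (N - b) := Es_nonneg hC.e_nonneg _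
    have hEsN : Es e (N - b) ≤ C0 + η' * N := by
      have h1 := hE (N - b)
      rw [hcastNb] at h1
      have : (0:ℝ) ≤ b := by positivity
      nlinarith
    have hLb0 : Lb ≤ 0 := by
      have h1 := expo_le hC hbG.2 (m := N - b) le_rfl
      have := hC.σ_pos
      have h2 : (0:ℝ) ≤ ((N - b : ℕ) : ℝ) := by positivity
      nlinarith
    have hisoz : δ / 2 * Real.exp (Lb - 3 * Es e (N - b)) ≤ isoR (Subgroup.closure S) z := by
      apply le_isoR
      · have : Real.exp (Lb - 3 * Es e (N - b)) ≤ 1 := by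
          rw [Real.exp_le_one_iff]; linarith
        nlinarith [Real.exp_pos (Lb - 3 * Es e (N - b))]
      · intro h' hh' hne
        by_contra hcon
        push Not at hcon
        apply hne
        exact iso_transport hC (sh_mem ha b) hbG.2 (p := p) (r := δ / 2) (by linarith)
          (by linarith) (by positivity) (att_iso hN hpA) (m := N - b) le_rfl
          (h' * fl (sh a b) (N - b)) (Subgroup.mul_mem _ hh' (fl_mem (sh_mem ha b) _)) hcon
    have hzE : z ∈ E := by
      apply hEm
      · exact ⟨p, hpA, fl (sh a b) (N - b), fl_mem (sh_mem ha b) _, rfl⟩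
      · refine le_trans ?_ hisoz
        apply mul_le_mul_of_nonneg_left _ (by positivity)
        apply Real.exp_le_exp.2
        have h1 := Ls_lb hC.base (sh_mem ha b) (fl a b x) (N - b)
        rw [hcastNb] at h1
        have : (0:ℝ) ≤ b := by positivity
        nlinarith
    refine ⟨hzE, ?_⟩
    -- slow drop after `b`
    have hdrop : ∀ r', b ≤ r' → Good D ε' a x N r' →
        (∀ j, b < j → j < r' → Good D ε' a x N j → ¬ Capd S δ (fl a j x)) →
        Ls D a x b + ε' * b ≤ Ls D a x r' + ε' * r' + A * (1 + Q0) := by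
      intro r' hbr' hr'G hnc
      let Gd := (Finset.range r').filter (fun j => b ≤ j ∧ Good D ε' a x N j)
      have h1 := drop hC.base hε' ha hr'G Gd (r' - b) b (by omega)
        (fun j hj hj2 hj3 => Finset.mem_filter.2 ⟨Finset.mem_range.2 hj2, hj, hj3⟩) b le_rfl hbN
      have h2 : (Gd.erase b).card ≤ Q0 := by
        apply hQ a ha x N
        intro j hj
        rw [Finset.mem_erase, Finset.mem_filter, Finset.mem_range] at hj
        exact ⟨hj.2.2.2, hnc j (by omega) hj.2.1 hj.2.2.2⟩
      have h3 : (Gd.filter (fun j => b ≤ j)).card ≤ 1 + Q0 := by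
        have h4 := Finset.card_filter_le Gd (fun j => b ≤ j)
        have h5 := Finset.pred_card_le_card_erase (s := Gd) (a := b)
        omega
      have h6 : ((Gd.filter (fun j => b ≤ j)).card : ℝ) ≤ 1 + Q0 := by exact_mod_cast h3
      have h7 := mul_le_mul_of_nonneg_left h6 hA.le
      linarith
    have hrbR : (r : ℝ) ≤ b := by exact_mod_cast hrb
    have hbNR : (b : ℝ) ≤ N := by exact_mod_cast hbN
    let Tc := (Finset.range (N + 1)).filter
      (fun j => b < j ∧ Good D ε' a x N j ∧ Capd S δ (fl a j x))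
    have hTc : ∀ j, j ∈ Tc ↔ b < j ∧ Good D ε' a x N j ∧ Capd S δ (fl a j x) := by
      intro j
      simp only [Tc, Finset.mem_filter, Finset.mem_range]
      constructor
      · exact fun h => h.2
      · exact fun h => ⟨by have := h.2.1.1; omega, h⟩
    by_cases hne : Tc.Nonempty
    · -- next captured time
      set r' := Tc.min' hne with hr'
      obtain ⟨hbr', hr'G, p', hp'A, hp'd⟩ := (hTc r').1 (Finset.min'_mem _ _)
      have hmin : ∀ j ∈ Tc, r' ≤ j := fun j hj => Finset.min'_le _ _ hj
      have hr'N := hr'G.1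
      have hp'R : p' ∈ R := hcap r' (by omega) hr'G p' hp'A hp'd
      have hp'ne : p' ≠ p := by
        rintro rfl
        have := hbmax r' ((hTb r').2 ⟨by omega, hr'G, hp'd⟩)
        omega
      have hcard : (R.erase p).card ≤ k := by
        rw [Finset.card_erase_of_mem hpR]
        omega
      obtain ⟨hz'E, hOm⟩ := ih (R.erase p) hcard r' hr'G p' (Finset.mem_erase.2 ⟨hp'ne, hp'R⟩)
        hp'A hp'd (fun j hj hjG p'' hp''A hp''d => by
          refine Finset.mem_erase.2 ⟨?_, hcap j (by omega) hjG p'' hp''A hp''d⟩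
          rintro rfl
          have := hbmax j ((hTb j).2 ⟨by omega, hjG, hp''d⟩)
          omega)
      set z' := fl (sh a r') (N - r') p' with hz'def
      have hdr := hdrop r' (by omega) hr'G (fun j hj hj2 hjG hjC => by
        have := hmin j ((hTc j).2 ⟨hj, hjG, hjC⟩)
        omega)
      have hr'NR : (r' : ℝ) ≤ N := by exact_mod_cast hr'N
      have hbr'R : (b : ℝ) ≤ r' := by exact_mod_cast hbr'.le
      set Lr := Ls D (sh a r') (fl a r' x) (N - r') with hLr
      have hLNr : Ls D a x N = Ls D a x r' + Lr := by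
        have := Ls_add D a x r' (N - r')
        rwa [show r' + (N - r') = N by omega] at this
      have hEsr0 : 0 ≤ Es e (N - r') := Es_nonneg hC.e_nonneg _
      have hEsr : Es e (N - r') ≤ C0 + η' * N := by
        have h1 := hE (N - r')
        rw [Nat.cast_sub hr'N] at h1
        have : (0:ℝ) ≤ r' := by positivity
        nlinarith
      have hkap : κ0 * Real.exp (-ε' * ((r' : ℝ) - b)) ≤ kap (Subgroup.closure S) z z' := by
        have hexp1 : Real.exp (-ε' * ((r' : ℝ) - b)) ≤ 1 := by
          rw [Real.exp_le_one_iff]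
          nlinarith
        have hle1 : κ0 * Real.exp (-ε' * ((r' : ℝ) - b)) ≤ 1 := by
          nlinarith [Real.exp_pos (-ε' * ((r' : ℝ) - b))]
        unfold kap
        split_ifs with heq
        · exact hle1
        · refine le_min hle1 ?_
          have hdpos : 0 < dist z z' := dist_pos.2 heq
          rw [le_div_iff₀ hdpos]
          -- distance bound
          have hd1 : dist z z' ≤ (δ / 4) * Real.exp (Lr + Es e (N - r')) := by
            have hzr : z = fl (sh a r') (N - r') (fl (sh a b) (r' - b) p) := by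
              have h1 := fl_add_apply (sh a b) (r' - b) (N - r') p
              rw [sh_sh, show b + (r' - b) = r' by omega,
                show r' - b + (N - r') = N - b by omega] at h1
              exact h1
            have hq : dist (fl (sh a b) (r' - b) p) (fl a r' x) ≤ δ / 8 := by
              have h1 := contr1' hC (sh_mem ha b) hbG.2 (z := p) (by linarith) (m := r' - b)
                (by omega)
              rw [← fl_add_apply, show b + (r' - b) = r' by omega] at h1
              have h2 : Real.exp (-σ * ((r' - b : ℕ) : ℝ)) ≤ 1 := by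
                rw [Real.exp_le_one_iff]
                have := hC.σ_pos
                have : (0:ℝ) ≤ ((r' - b : ℕ) : ℝ) := by positivity
                nlinarith
              have h3 : Real.exp (-σ * ((r' - b : ℕ) : ℝ)) * dist p (fl a b x) ≤ 1 * (δ / 8) :=
                mul_le_mul h2 hbd' dist_nonneg (by norm_num)
              linarith
            have h1 := contr1 hC (sh_mem ha r') hr'G.2 (z := fl (sh a b) (r' - b) p)
              (by linarith) (m := N - r') le_rfl
            have hp'd' : dist p' (fl a r' x) ≤ δ / 8 := by rw [dist_comm]; exact hp'd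
            have h2 := contr1 hC (sh_mem ha r') hr'G.2 (z := p') (by linarith)
              (m := N - r') le_rfl
            rw [← hzr] at h1
            have hexp := Real.exp_pos (Lr + Es e (N - r'))
            have h3 := dist_triangle_right z z' (fl (sh a r') (N - r') (fl a r' x))
            have h4 := mul_le_mul_of_nonneg_left hq hexp.le
            have h5 := mul_le_mul_of_nonneg_left hp'd' hexp.le
            linarith
          refine le_trans ?_ hisoz
          calc κ0 * Real.exp (-ε' * ((r' : ℝ) - b)) * dist z z' ≤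
              κ0 * Real.exp (-ε' * ((r' : ℝ) - b)) * ((δ / 4) * Real.exp (Lr + Es e (N - r'))) :=
                mul_le_mul_of_nonneg_left hd1 (by positivity)
            _ = (δ / 2) * ((δ / 4) * Real.exp (-4 * C0 - A * (1 + Q0) - 4 * η' * N +
                (-ε' * ((r' : ℝ) - b)) + (Lr + Es e (N - r')))) := by
                have hsplit : ∀ u v w : ℝ, Real.exp (u + v + w) =
                    Real.exp u * Real.exp v * Real.exp w := fun u v w => by
                  rw [Real.exp_add, Real.exp_add]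
                rw [hκ0, hsplit]
                ring
            _ ≤ (δ / 2) * (1 * Real.exp (Lb - 3 * Es e (N - b))) := by
                apply mul_le_mul_of_nonneg_left _ (by positivity)
                apply mul_le_mul (by linarith) _ (Real.exp_pos _).le (by norm_num)
                apply Real.exp_le_exp.2
                nlinarith
            _ = _ := by ring
      have hsum : kap (Subgroup.closure S) z z' * Om (Subgroup.closure S) E k z' ≤
          Om (Subgroup.closure S) E (k + 1) z := by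
        have h1 : kap (Subgroup.closure S) z z' * Om (Subgroup.closure S) E k z' ≤
            ∑ z'' ∈ E, kap (Subgroup.closure S) z z'' * Om (Subgroup.closure S) E k z'' :=
          Finset.single_le_sum (f := fun z'' => kap (Subgroup.closure S) z z'' *
            Om (Subgroup.closure S) E k z'')
            (fun z'' _ => mul_nonneg (kap_nonneg _ _ _) (Om_nonneg _ _ _ _)) hz'E
        simp only [Om]
        have h2 := isoR_nonneg (Subgroup.closure S) z
        linarith
      refine le_trans ?_ hsum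
      calc κ0 ^ (k + 1) * Real.exp (-ε' * ((N : ℝ) - r)) ≤
          κ0 ^ (k + 1) * Real.exp (-ε' * ((N : ℝ) - b)) := by
            apply mul_le_mul_of_nonneg_left _ (by positivity)
            apply Real.exp_le_exp.2
            nlinarith
        _ = (κ0 * Real.exp (-ε' * ((r' : ℝ) - b))) * (κ0 ^ k * Real.exp (-ε' * ((N : ℝ) - r'))) := by
            have : -ε' * ((N : ℝ) - b) = -ε' * ((r' : ℝ) - b) + -ε' * ((N : ℝ) - r') := by ring
            rw [this, Real.exp_add]
            ring
        _ ≤ _ := mul_le_mul hkap hOm (by positivity) (kap_nonneg _ _ _)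
    · -- no further captured time
      have hNG : Good D ε' a x N N := good_iff.2 ⟨le_rfl, fun i hi hi2 => by
        have : i = N := le_antisymm hi2 hi
        rw [this]⟩
      have hdr := hdrop N hbN hNG (fun j hj hj2 hjG hjC =>
        hne ⟨j, (hTc j).2 ⟨hj, hjG, hjC⟩⟩)
      have h1 : isoR (Subgroup.closure S) z ≤ Om (Subgroup.closure S) E (k + 1) z := by
        simp only [Om]
        have : 0 ≤ ∑ z' ∈ E, kap (Subgroup.closure S) z z' * Om (Subgroup.closure S) E k z' :=
          Finset.sum_nonneg fun z'' _ => mul_nonneg (kap_nonneg _ _ _) (Om_nonneg _ _ _ _)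
        linarith
      refine le_trans (le_trans ?_ hisoz) h1
      calc κ0 ^ (k + 1) * Real.exp (-ε' * ((N : ℝ) - r)) ≤
          κ0 * Real.exp (-ε' * ((N : ℝ) - b)) := by
            apply mul_le_mul _ _ (Real.exp_pos _).le hκ0pos.le
            · rw [pow_succ]
              have : κ0 ^ k ≤ 1 := pow_le_one₀ hκ0pos.le hκ0le
              nlinarith
            · apply Real.exp_le_exp.2
              nlinarith
        _ = δ / 2 * Real.exp (-4 * C0 - A * (1 + Q0) - 4 * η' * N + -ε' * ((N : ℝ) - b)) := by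
            rw [hκ0, Real.exp_add]
            ring
        _ ≤ _ := by
            apply mul_le_mul_of_nonneg_left _ (by positivity)
            apply Real.exp_le_exp.2
            have : 0 ≤ η' * N := by positivity
            linarith

end Pool.Agent.Helper320.LC
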