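import Mathlib

set_option autoImplicit false

namespace Pool.Agent.Helper320.LC

/-- The circle `ℝ/ℤ`. -/
abbrev Circ : Type := AddCircle (1 : ℝ)

/-- A homeomorphism of the circle is a `C^1` diffeomorphism when it has a `C^1` lift to the line
whose derivative never vanishes. -/
def IsC1Diffeo (f : Circ ≃ₜ Circ) : Prop :=
  ∃ F : ℝ → ℝ, ContDiff ℝ 1 F ∧ (∀ x : ℝ, deriv F x ≠ 0) ∧
    ∀ x : ℝ, f (x : Circ) = (F x : Circ)

/-- `G` contains a resilient pair: elements `f, g` and points `x, y` of the circle such that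
`x, f x, f y, g x, g y, y` are distinct and occur in this order along an arc starting at `x`. -/
def HasResilientPair (G : Subgroup (Circ ≃ₜ Circ)) : Prop :=
  ∃ f ∈ G, ∃ g ∈ G, ∃ t₀ t₁ t₂ t₃ t₄ t₅ : ℝ,
    t₀ < t₁ ∧ t₁ < t₂ ∧ t₂ < t₃ ∧ t₃ < t₄ ∧ t₄ < t₅ ∧ t₅ < t₀ + 1 ∧
    f (t₀ : Circ) = (t₁ : Circ) ∧ f (t₅ : Circ) = (t₂ : Circ) ∧
    g (t₀ : Circ) = (t₃ : Circ) ∧ g (t₅ : Circ) = (t₄ : Circ)

/-- `D` is a system of derivatives for the maps in `S`. -/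
def IsDeriv (S : Set (Circ ≃ₜ Circ)) (D : (Circ ≃ₜ Circ) → Circ → ℝ) : Prop :=
  ∀ s ∈ S, ∃ F : ℝ → ℝ, ContDiff ℝ 1 F ∧ (∀ x : ℝ, deriv F x ≠ 0) ∧
    (∀ x : ℝ, s (x : Circ) = (F x : Circ)) ∧ ∀ x : ℝ, D s (x : Circ) = |deriv F x|

end Pool.Agent.Helper320.LC
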