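import Pool.Agent.Helper320.LCMark

set_option autoImplicit false
open Filter Topology
open scoped ENNReal

namespace Pool.Agent.Helper320.LC

variable {S : Set (Circ ≃ₜ Circ)} {D : (Circ ≃ₜ Circ) → Circ → ℝ} {A : ℝ}

lemma fl_continuous (a : ℕ → (Circ ≃ₜ Circ)) (m : ℕ) : Continuous (fun x => fl a m x) :=
  (fl a m).continuous

lemma Ls_continuous (hB : Base S D A) (hcont : ∀ s ∈ S, Continuous (D s))
    {a : ℕ → (Circ ≃ₜ Circ)} (ha : ∀ j, a j ∈ S) (m : ℕ) :
    Continuous (fun x => Ls D a x m) := by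
  unfold Ls
  apply continuous_finsetSum
  intro l _
  apply Continuous.log
  · exact (hcont _ (ha l)).comp (fl_continuous a l)
  · exact fun x => (hB.pos (ha l) _).ne'

/-- The density. -/
noncomputable def Mx (S : Set (Circ ≃ₜ Circ)) (D : (Circ ≃ₜ Circ) → Circ → ℝ) (ε : ℝ)
    (x : Circ) : ℝ≥0∞ :=
  ⨆ (t : ℕ), ⨆ (a : {a : ℕ → (Circ ≃ₜ Circ) // ∀ j, a j ∈ S}),
    ENNReal.ofReal (Real.exp (-ε * t + Ls D a.1 x t))

lemma Mx_measurable (hB : Base S D A) (hcont : ∀ s ∈ S, Continuous (D s)) (ε : ℝ) :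
    Measurable (Mx S D ε) := by
  apply LowerSemicontinuous.measurable
  apply lowerSemicontinuous_iSup
  intro t
  apply lowerSemicontinuous_iSup
  intro a
  apply Continuous.lowerSemicontinuous
  apply ENNReal.continuous_ofReal.comp
  apply Real.continuous_exp.comp
  exact continuous_const.add (Ls_continuous hB hcont a.2 t)

lemma one_le_Mx (hS : S.Nonempty) (D : (Circ ≃ₜ Circ) → Circ → ℝ) (ε : ℝ) (x : Circ) :
    1 ≤ Mx S D ε x := by
  obtain ⟨s, hs⟩ := hS
  refine le_trans ?_ (le_iSup₂ (f := fun (t : ℕ) (a : {a : ℕ → (Circ ≃ₜ Circ) // ∀ j, a j ∈ S}) =>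
    ENNReal.ofReal (Real.exp (-ε * t + Ls D a.1 x t))) 0 ⟨fun _ => s, fun _ => hs⟩)
  simp

lemma Mx_step (hB : Base S D A) (ε : ℝ) {s : Circ ≃ₜ Circ} (hs : s ∈ S) (x : Circ) :
    ENNReal.ofReal (D s x) * Mx S D ε (s x) ≤ ENNReal.ofReal (Real.exp ε) * Mx S D ε x := by
  unfold Mx
  rw [ENNReal.mul_iSup]
  apply iSup_le
  intro t
  rw [ENNReal.mul_iSup]
  apply iSup_le
  rintro ⟨a, ha⟩
  have hp := hB.pos hs x
  let a' : ℕ → (Circ ≃ₜ Circ) := fun j => Nat.casesOn j s a
  have ha' : ∀ j, a' j ∈ S := by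
    intro j
    cases j with
    | zero => exact hs
    | succ j => exact ha j
  have hsh : sh a' 1 = a := by
    funext l
    simp only [sh]
    rw [add_comm]
  have hfl : fl a' 1 x = s x := rfl
  have h1 : Ls D a' x (t + 1) = Real.log (D s x) + Ls D a (s x) t := by
    rw [add_comm, Ls_add, hsh, hfl]
    congr 1
    rw [show (1:ℕ) = 0 + 1 from rfl, Ls_succ, Ls_zero, zero_add]
    rfl
  have h2 : ENNReal.ofReal (D s x) * ENNReal.ofReal (Real.exp (-ε * t + Ls D a (s x) t)) =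
      ENNReal.ofReal (Real.exp ε) *
        ENNReal.ofReal (Real.exp (-ε * ((t + 1 : ℕ) : ℝ) + Ls D a' x (t + 1))) := by
    rw [← ENNReal.ofReal_mul hp.le, ← ENNReal.ofReal_mul (Real.exp_pos _).le, h1,
      ← Real.exp_add]
    congr 1
    have h3 : ε + (-ε * ((t + 1 : ℕ) : ℝ) + (Real.log (D s x) + Ls D a (s x) t)) =
        Real.log (D s x) + (-ε * t + Ls D a (s x) t) := by
      push_cast
      ring
    rw [h3, Real.exp_add (Real.log (D s x)), Real.exp_log hp]
  show ENNReal.ofReal (D s x) * ENNReal.ofReal (Real.exp (-ε * t + Ls D a (s x) t)) ≤ _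
  rw [h2]
  gcongr
  exact le_iSup₂ (f := fun (t : ℕ) (a : {a : ℕ → (Circ ≃ₜ Circ) // ∀ j, a j ∈ S}) =>
    ENNReal.ofReal (Real.exp (-ε * t + Ls D a.1 x t))) (t + 1) ⟨a', ha'⟩

lemma exists_argmax (f : ℕ → ℝ) (t : ℕ) : ∃ N ≤ t, ∀ i ≤ t, f i ≤ f N := by
  obtain ⟨N, hN, hN2⟩ := (Finset.range (t + 1)).exists_max_image f ⟨0, by simp⟩
  exact ⟨N, by simpa [Nat.lt_succ_iff] using hN, fun i hi => hN2 i (by simp; omega)⟩

/-- Pointwise bound of the density. -/
lemma Mx_le (hB : Base S D A) {ε : ℝ} (hε : 0 < ε) (T1 : ℕ) (F : ℕ → Circ → ℝ)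
    (hF : ∀ N ≥ T1, ∀ a : ℕ → (Circ ≃ₜ Circ), (∀ j, a j ∈ S) → ∀ x,
      (∀ t ≤ N, Ls D a x t - ε * t ≤ Ls D a x N - ε * N) →
        Real.exp (-ε * N + Ls D a x N) ≤ F N x) (x : Circ) :
    Mx S D ε x ≤ ENNReal.ofReal (Real.exp (A * T1)) + ∑' N, ENNReal.ofReal (F N x) := by
  unfold Mx
  apply iSup_le
  intro t
  apply iSup_le
  rintro ⟨a, ha⟩
  obtain ⟨N, hNt, hN⟩ := exists_argmax (fun i => Ls D a x i - ε * i) t
  have h1 : Real.exp (-ε * t + Ls D a x t) ≤ Real.exp (-ε * N + Ls D a x N) := by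
    apply Real.exp_le_exp.2
    have := hN t le_rfl
    linarith
  refine (ENNReal.ofReal_le_ofReal h1).trans ?_
  by_cases hNT : T1 ≤ N
  · refine le_trans ?_ le_add_self
    refine le_trans ?_ (ENNReal.le_tsum N)
    apply ENNReal.ofReal_le_ofReal
    exact hF N hNT a ha x (fun i hi => hN i (by omega))
  · refine le_trans ?_ le_self_add
    apply ENNReal.ofReal_le_ofReal
    apply Real.exp_le_exp.2
    have h2 := Ls_ub hB ha x N
    have h3 : (N : ℝ) ≤ T1 := by exact_mod_cast (by omega : N ≤ T1)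
    have h4 := mul_le_mul_of_nonneg_left h3 hB.A_pos.le
    have h5 : 0 ≤ ε * N := by positivity
    linarith

lemma summable_poly (C c ε : ℝ) (hε : 0 < ε) (k : ℕ) :
    Summable (fun N : ℕ => C * (c * (N + 1)) ^ k * Real.exp (-ε * N)) := by
  have h1 : ‖Real.exp (-ε)‖ < 1 := by
    rw [Real.norm_of_nonneg (Real.exp_pos _).le, Real.exp_lt_one_iff]
    linarith
  have h2 := summable_pow_mul_geometric_of_norm_lt_one k h1
  have h3 := (summable_nat_add_iff 1).2 h2
  have h4 := h3.mul_left (C * c ^ k * Real.exp ε)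
  refine h4.congr (fun N => ?_)
  rw [← Real.exp_nat_mul]
  push_cast
  rw [mul_pow]
  have : Real.exp (-ε * N) = Real.exp ε * Real.exp ((N + 1) * -ε) := by
    rw [← Real.exp_add]
    congr 1
    ring
  rw [this]
  ring

lemma exp_alg1 (u v w z c : ℝ) : Real.exp u * Real.exp v * (c * Real.exp w * Real.exp z) =
    c * Real.exp (u + v + w + z) := by
  rw [Real.exp_add, Real.exp_add, Real.exp_add]
  ring

lemma exp_alg2 (u v w c : ℝ) : Real.exp u * c * Real.exp v * Real.exp w =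
    c * Real.exp (u + v + w) := by
  rw [Real.exp_add, Real.exp_add]
  ring

/-- The density is integrable. -/
theorem exists_density (hSne : S.Nonempty) (hB : Base S D A)
    (hcont : ∀ s ∈ S, Continuous (D s))
    (hest : ∀ η > 0, ∃ δ > 0, ∀ s ∈ S, ∀ x y, (dist x y ≤ δ ∨ dist (s x) (s y) ≤ δ) →
        Real.exp (-η) * D s x * dist x y ≤ dist (s x) (s y) ∧
        dist (s x) (s y) ≤ Real.exp η * D s x * dist x y)
    (hres : ∀ r : ℝ, 0 < r → r < 1/4 → NoRes (Subgroup.closure S) r) {ε : ℝ} (hε : 0 < ε) :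
    ∃ M : Circ → ℝ≥0∞, Measurable M ∧ (∀ x, 1 ≤ M x) ∧ ∫⁻ x, M x ≠ ∞ ∧
      ∀ s ∈ S, ∀ x, ENNReal.ofReal (D s x) * M (s x) ≤ ENNReal.ofReal (Real.exp ε) * M x := by
  classical
  refine ⟨Mx S D ε, Mx_measurable hB hcont ε, one_le_Mx hSne D ε, ?_,
    fun s hs x => Mx_step hB ε hs x⟩
  have hA := hB.A_pos
  -- constants
  obtain ⟨ε', hε'def⟩ : ∃ ε' : ℝ, ε' = ε / 8 := ⟨_, rfl⟩
  have hε' : 0 < ε' := by rw [hε'def]; positivity
  obtain ⟨η, hηdef⟩ : ∃ η : ℝ, η = ε' / 8 := ⟨_, rfl⟩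
  have hη : 0 < η := by rw [hηdef]; positivity
  obtain ⟨σ, hσdef⟩ : ∃ σ : ℝ, σ = ε' / 2 := ⟨_, rfl⟩
  have hσ : 0 < σ := by rw [hσdef]; positivity
  obtain ⟨δ₁, hδ₁, hest1⟩ := hest η hη
  obtain ⟨δ, hδdef⟩ : ∃ δ : ℝ, δ = min (δ₁ / 2) (1 / 8) := ⟨_, rfl⟩
  have hδ : 0 < δ := by rw [hδdef]; exact lt_min (by positivity) (by norm_num)
  have hδa : 2 * δ ≤ δ₁ := by
    have := min_le_left (δ₁ / 2) (1 / 8)
    rw [hδdef]; linarith
  have hδb : δ ≤ 1 / 8 := by rw [hδdef]; exact min_le_right _ _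
  have hN : NoRes (Subgroup.closure S) (δ / 2) := hres _ (by positivity) (by linarith)
  obtain ⟨k, hk⟩ : ∃ k : ℕ, k = (att_finite (half_pos hδ) hN).toFinset.card := ⟨_, rfl⟩
  obtain ⟨η', hη'def⟩ : ∃ η' : ℝ, η' = ε' / (8 * (4 * k + 1)) := ⟨_, rfl⟩
  have hη' : 0 < η' := by rw [hη'def]; positivity
  have hη'η : η' ≤ η := by
    rw [hη'def, hηdef]
    apply div_le_div_of_nonneg_left hε'.le (by norm_num)
    have : (0:ℝ) ≤ k := by positivity
    linarith
  have hη'k : (4 * k + 1) * η' ≤ ε' := by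
    rw [hη'def]
    have : (4 * (k:ℝ) + 1) * (ε' / (8 * (4 * k + 1))) = ε' / 8 := by
      field_simp
    rw [this]
    linarith
  obtain ⟨δ₂, hδ₂, hest2⟩ := hest η' hη'
  obtain ⟨l0, hl0⟩ : ∃ l0 : ℕ, 2 * δ * Real.exp (-σ * l0) ≤ δ₂ := by
    have h1 : Tendsto (fun n : ℕ => 2 * δ * Real.exp (-σ * n)) atTop (𝓝 (2 * δ * 0)) := by
      apply Tendsto.const_mul
      apply Real.tendsto_exp_atBot.comp
      exact (tendsto_natCast_atTop_atTop (R := ℝ)).const_mul_atTop_of_neg (by linarith)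
    rw [mul_zero] at h1
    obtain ⟨n, hn⟩ := (h1.eventually (gt_mem_nhds hδ₂)).exists
    exact ⟨n, hn.le⟩
  let e : ℕ → ℝ := fun l => if l < l0 then η else η'
  have he0 : ∀ l, 0 ≤ e l := by
    intro l
    simp only [e]
    split_ifs <;> positivity
  have heη : ∀ l, e l ≤ η := by
    intro l
    simp only [e]
    split_ifs
    · exact le_rfl
    · exact hη'η
  obtain ⟨C0, hC0def⟩ : ∃ C0 : ℝ, C0 = η * l0 := ⟨_, rfl⟩
  have hC0 : 0 ≤ C0 := by rw [hC0def]; positivity
  have hE : ∀ m : ℕ, Es e m ≤ C0 + η' * m := by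
    have h1 : ∀ m : ℕ, Es e m ≤ η * (min m l0 : ℕ) + η' * m := by
      intro m
      induction m with
      | zero => simp
      | succ m ih =>
        rw [Es_succ]
        by_cases hm : m < l0
        · have h2 : e m = η := by simp only [e]; rw [if_pos hm]
          rw [h2]
          rw [min_eq_left (by omega)] at ih ⊢
          push_cast
          linarith
        · have h2 : e m = η' := by simp only [e]; rw [if_neg hm]
          rw [h2]
          rw [min_eq_right (by omega)] at ih ⊢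
          push_cast
          linarith
    intro m
    refine (h1 m).trans ?_
    have h2 : ((min m l0 : ℕ) : ℝ) ≤ l0 := by exact_mod_cast min_le_right m l0
    rw [hC0def]
    have := mul_le_mul_of_nonneg_left h2 hη.le
    linarith
  have hC : Cst S D A ε' σ δ e := by
    refine ⟨hB, hδ, hσ, he0, ?_, ?_⟩
    · intro l
      have h1 := heη l
      rw [hσdef]
      rw [hηdef] at h1
      linarith
    · intro l s hs x y hxy
      by_cases hl : l < l0
      · have h2 : e l = η := by simp only [e]; rw [if_pos hl]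
        rw [h2]
        apply hest1 s hs x y
        have h3 : 2 * δ * Real.exp (-σ * l) ≤ δ₁ := by
          have h4 : Real.exp (-σ * l) ≤ 1 := by
            rw [Real.exp_le_one_iff]
            have : (0:ℝ) ≤ l := by positivity
            nlinarith
          nlinarith [Real.exp_pos (-σ * l)]
        rcases hxy with h | h
        · exact Or.inl (h.trans h3)
        · exact Or.inr (h.trans h3)
      · have h2 : e l = η' := by simp only [e]; rw [if_neg hl]
        rw [h2]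
        apply hest2 s hs x y
        have h3 : 2 * δ * Real.exp (-σ * l) ≤ δ₂ := by
          refine le_trans ?_ hl0
          apply mul_le_mul_of_nonneg_left _ (by positivity)
          apply Real.exp_le_exp.2
          have : (l0:ℝ) ≤ l := by exact_mod_cast (by omega : l0 ≤ l)
          nlinarith
        rcases hxy with h | h
        · exact Or.inl (h.trans h3)
        · exact Or.inr (h.trans h3)
  obtain ⟨Q0, hQ0⟩ := exists_Q0 S D A ε' hσ hδ
  have hQ := hQ0 e hC
  have hinv : ∀ s ∈ S, ∀ x, Real.log (D s⁻¹ (s x)) = -Real.log (D s x) :=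
    fun s hs x => D_inv hB hest hs x
  have hεε' : ε' < ε := by rw [hε'def]; linarith
  obtain ⟨T1, hT1⟩ : ∃ T1 : ℕ, A * Q0 < (ε - ε') * T1 := by
    obtain ⟨T, hT⟩ := exists_nat_gt (A * Q0 / (ε - ε'))
    refine ⟨T, ?_⟩
    rw [div_lt_iff₀ (by linarith)] at hT
    linarith
  -- the scales
  obtain ⟨c1, hc1⟩ : ∃ c1 : ℕ, (1/2 : ℝ) ^ c1 ≤ Real.exp (-(A + 3 * η')) := by
    obtain ⟨n, hn⟩ := exists_pow_lt_of_lt_one (Real.exp_pos (-(A + 3 * η')))
      (show (1/2 : ℝ) < 1 by norm_num)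
    exact ⟨n, hn.le⟩
  obtain ⟨c2, hc2⟩ : ∃ c2 : ℕ, (1/2 : ℝ) ^ c2 ≤ δ / 2 * Real.exp (-3 * C0) := by
    obtain ⟨n, hn⟩ := exists_pow_lt_of_lt_one (show 0 < δ / 2 * Real.exp (-3 * C0) by positivity)
      (show (1/2 : ℝ) < 1 by norm_num)
    exact ⟨n, hn.le⟩
  have hτpos : ∀ N : ℕ, 0 < δ / 2 * Real.exp (-(A + 3 * η') * N - 3 * C0) := fun N => by
    positivity
  have hLτ : ∀ N : ℕ, (1/2 : ℝ) ^ (c1 * N + c2 + 1) ≤
      δ / 2 * Real.exp (-(A + 3 * η') * N - 3 * C0) := by
    intro N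
    have h1 : (1/2 : ℝ) ^ (c1 * N) ≤ Real.exp (-(A + 3 * η') * N) := by
      rw [pow_mul]
      calc ((1/2 : ℝ) ^ c1) ^ N ≤ (Real.exp (-(A + 3 * η'))) ^ N :=
            pow_le_pow_left₀ (by positivity) hc1 N
        _ = _ := by
          rw [← Real.exp_nat_mul]
          congr 1
          ring
    calc (1/2 : ℝ) ^ (c1 * N + c2 + 1) ≤ (1/2 : ℝ) ^ (c1 * N + c2) :=
          pow_le_pow_of_le_one (by norm_num) (by norm_num) (by omega)
      _ = (1/2 : ℝ) ^ (c1 * N) * (1/2 : ℝ) ^ c2 := pow_add _ _ _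
      _ ≤ Real.exp (-(A + 3 * η') * N) * (δ / 2 * Real.exp (-3 * C0)) :=
          mul_le_mul h1 hc2 (by positivity) (Real.exp_pos _).le
      _ = _ := by
          have : -(A + 3 * η') * N - 3 * C0 = -(A + 3 * η') * N + -3 * C0 := by ring
          rw [this, Real.exp_add]
          ring
  have hLA : ∀ N : ℕ, (1/2 : ℝ) ^ (c1 * N + c2 + 1) ≤ Real.exp (-A * N) := by
    intro N
    refine (hLτ N).trans ?_
    calc _ ≤ 1 * Real.exp (-A * N) := by
          apply mul_le_mul (by linarith) _ (Real.exp_pos _).le (by norm_num)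
          apply Real.exp_le_exp.2
          have : 0 ≤ η' * N := by positivity
          linarith
      _ = _ := one_mul _
  have hEN : ∀ N : ℕ, ∃ E : Finset Circ,
      (∀ z, (∃ p, Att (Subgroup.closure S) (δ / 2) p ∧ ∃ h ∈ Subgroup.closure S, h p = z) →
        δ / 2 * Real.exp (-(A + 3 * η') * N - 3 * C0) ≤ isoR (Subgroup.closure S) z → z ∈ E) ∧
      ∀ Q, ∑ z ∈ E, kap (Subgroup.closure S) z Q ≤ k * (7 * ((c1 * N + c2 : ℕ) + 1)) := by
    intro N
    rw [hk]
    exact exists_E (half_pos hδ) hN (hτpos N) (hLτ N)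
  choose EN hEN1 hEN2 using hEN
  -- the weights
  let κ : ℕ → ℝ := fun N => δ / 2 * Real.exp (-4 * C0 - A * (1 + Q0) - 4 * η' * N)
  have hκpos : ∀ N, 0 < κ N := fun N => by simp only [κ]; positivity
  let W : ℕ → ℝ := fun N => Real.exp (-ε * N) * Real.exp (A * T1 + C0 + η' * N) *
    (((κ N) ^ k)⁻¹ * Real.exp (ε' * N))
  have hWpos : ∀ N, 0 < W N := fun N => by
    have := hκpos N
    simp only [W]; positivity
  have hF : ∀ N ≥ T1, ∀ a : ℕ → (Circ ≃ₜ Circ), (∀ j, a j ∈ S) → ∀ x,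
      (∀ t ≤ N, Ls D a x t - ε * t ≤ Ls D a x N - ε * N) →
        Real.exp (-ε * N + Ls D a x N) ≤ FN (Subgroup.closure S) (W N) A k N (EN N) x := by
    intro N hNT a ha x hmax
    obtain ⟨z, hzE, hz1, hz2⟩ := marker hC (by linarith) hε'.le hN hη'.le hC0 hE hQ hinv hεε'.le
      hT1 hNT (hEN1 N) (k := k) hk.ge ha hmax
    have hκN := hκpos N
    have hmaxpos : 0 < max (dist x z) (Real.exp (-A * N)) :=
      lt_max_of_lt_right (Real.exp_pos _)
    have h1 : 1 ≤ ((κ N) ^ k)⁻¹ * Real.exp (ε' * N) * Om (Subgroup.closure S) (EN N) k z := by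
      have h2 : ((κ N) ^ k)⁻¹ * Real.exp (ε' * N) * ((κ N) ^ k * Real.exp (-ε' * N)) = 1 := by
        have h3 : Real.exp (ε' * N) * Real.exp (-ε' * N) = 1 := by
          rw [← Real.exp_add]
          simp
        have h4 : ((κ N) ^ k)⁻¹ * (κ N) ^ k = 1 := inv_mul_cancel₀ (by positivity)
        calc _ = (((κ N) ^ k)⁻¹ * (κ N) ^ k) * (Real.exp (ε' * N) * Real.exp (-ε' * N)) := by ring
          _ = 1 := by rw [h3, h4, one_mul]
      refine h2.symm.le.trans ?_
      apply mul_le_mul_of_nonneg_left _ (by positivity)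
      exact hz1
    have h5 : Real.exp (Ls D a x N) ≤ Real.exp (A * T1 + C0 + η' * N) *
        (1 / max (dist x z) (Real.exp (-A * N))) := by
      rw [mul_one_div, le_div_iff₀ hmaxpos]
      exact hz2
    have h6 : Om (Subgroup.closure S) (EN N) k z * (1 / max (dist x z) (Real.exp (-A * N))) ≤
        ∑ z ∈ EN N, Om (Subgroup.closure S) (EN N) k z *
          (1 / max (dist x z) (Real.exp (-A * N))) := by
      apply Finset.single_le_sum (f := fun z => Om (Subgroup.closure S) (EN N) k z *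
          (1 / max (dist x z) (Real.exp (-A * N)))) _ hzE
      intro z' _
      have := Om_nonneg (Subgroup.closure S) (EN N) k z'
      positivity
    unfold FN
    refine le_trans ?_ (mul_le_mul_of_nonneg_left h6 (hWpos N).le)
    have hOm0 := Om_nonneg (Subgroup.closure S) (EN N) k z
    calc Real.exp (-ε * N + Ls D a x N) = Real.exp (-ε * N) * Real.exp (Ls D a x N) * 1 := by
          rw [Real.exp_add, mul_one]
      _ ≤ Real.exp (-ε * N) * (Real.exp (A * T1 + C0 + η' * N) *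
        (1 / max (dist x z) (Real.exp (-A * N)))) *
          (((κ N) ^ k)⁻¹ * Real.exp (ε' * N) * Om (Subgroup.closure S) (EN N) k z) := by
          apply mul_le_mul _ h1 (by norm_num) (by positivity)
          exact mul_le_mul_of_nonneg_left h5 (Real.exp_pos _).le
      _ = _ := by simp only [W]; ring
  have hbound := Mx_le hB hε T1 (fun N x => FN (Subgroup.closure S) (W N) A k N (EN N) x) hF
  -- integrate
  have hint : ∫⁻ x : Circ, Mx S D ε x ≤ ENNReal.ofReal (Real.exp (A * T1)) +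
      ∑' N : ℕ, ENNReal.ofReal (W N * ((1 + k * (7 * ((c1 * N + c2 : ℕ) + 1))) ^ k *
        (4 * ((c1 * N + c2 : ℕ) + 1)))) := by
    have hmeas : ∀ N, Measurable (fun x : Circ =>
        ENNReal.ofReal (FN (Subgroup.closure S) (W N) A k N (EN N) x)) := by
      intro N
      apply ENNReal.measurable_ofReal.comp
      unfold FN
      apply Measurable.const_mul
      apply Finset.measurable_fun_sum
      intro z _
      apply Measurable.const_mul
      apply Measurable.const_div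
      exact ((continuous_id.dist continuous_const).max continuous_const).measurable
    calc ∫⁻ x : Circ, Mx S D ε x ≤ ∫⁻ x : Circ, (ENNReal.ofReal (Real.exp (A * T1)) +
          ∑' N : ℕ, ENNReal.ofReal (FN (Subgroup.closure S) (W N) A k N (EN N) x)) :=
          MeasureTheory.lintegral_mono hbound
      _ = ENNReal.ofReal (Real.exp (A * T1)) +
          ∑' N : ℕ, ∫⁻ x : Circ, ENNReal.ofReal (FN (Subgroup.closure S) (W N) A k N (EN N) x) := by
          rw [MeasureTheory.lintegral_add_left measurable_const,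
            MeasureTheory.lintegral_tsum (fun N => (hmeas N).aemeasurable)]
          congr 1
          rw [MeasureTheory.lintegral_const]
          have : (MeasureTheory.volume : MeasureTheory.Measure Circ) Set.univ = 1 := by
            rw [AddCircle.measure_univ]
            simp
          rw [this, mul_one]
      _ ≤ _ := by
          gcongr with N
          exact FN_int (hWpos N).le k N (c1 * N + c2) (EN N) (hLA N) (hEN2 N)
  refine ne_of_lt (lt_of_le_of_lt hint ?_)
  apply ENNReal.add_lt_top.2 ⟨ENNReal.ofReal_lt_top, ?_⟩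
  -- summability
  obtain ⟨c, hc⟩ : ∃ c : ℝ, c = 1 + (7 * k + 4) * (c1 + c2 + 1) := ⟨_, rfl⟩
  have hc0 : 0 ≤ c := by rw [hc]; positivity
  obtain ⟨C, hCdef⟩ : ∃ C : ℝ, C = Real.exp (A * T1 + C0) * ((δ / 2) ^ k)⁻¹ *
    Real.exp (k * (4 * C0 + A * (1 + Q0))) := ⟨_, rfl⟩
  have hCpos : 0 ≤ C := by rw [hCdef]; positivity
  have hWle : ∀ N : ℕ, W N ≤ C * Real.exp (-(ε / 2) * N) := by
    intro N
    have h1 : ((κ N) ^ k)⁻¹ = ((δ / 2) ^ k)⁻¹ *
        Real.exp (k * (4 * C0 + A * (1 + Q0) + 4 * η' * N)) := by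
      simp only [κ]
      rw [mul_pow, mul_inv, ← Real.exp_nat_mul, ← Real.exp_neg]
      congr 2
      ring
    have h2 : W N = C * Real.exp ((-ε + ε' + η' + 4 * k * η') * N) := by
      simp only [W]
      rw [h1, hCdef]
      have h3 : Real.exp (-ε * N) * Real.exp (A * T1 + C0 + η' * N) *
          (((δ / 2) ^ k)⁻¹ * Real.exp (k * (4 * C0 + A * (1 + Q0) + 4 * η' * N)) *
            Real.exp (ε' * N)) = ((δ / 2) ^ k)⁻¹ * Real.exp (-ε * N + (A * T1 + C0 + η' * N) +
            k * (4 * C0 + A * (1 + Q0) + 4 * η' * N) + ε' * N) := exp_alg1 _ _ _ _ _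
      have h4 : Real.exp (A * T1 + C0) * ((δ / 2) ^ k)⁻¹ *
          Real.exp (k * (4 * C0 + A * (1 + Q0))) *
          Real.exp ((-ε + ε' + η' + 4 * k * η') * N) = ((δ / 2) ^ k)⁻¹ *
          Real.exp ((A * T1 + C0) + k * (4 * C0 + A * (1 + Q0)) +
            (-ε + ε' + η' + 4 * k * η') * N) := exp_alg2 _ _ _ _
      rw [h3, h4]
      congr 2
      ring
    rw [h2]
    apply mul_le_mul_of_nonneg_left _ hCpos
    apply Real.exp_le_exp.2
    have h5 : (-ε + ε' + η' + 4 * k * η') ≤ -(ε / 2) := by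
      have : (4 * (k:ℝ) + 1) * η' = 4 * k * η' + η' := by ring
      rw [hε'def] at hη'k ⊢
      linarith
    have : (0:ℝ) ≤ N := by positivity
    nlinarith
  have hpoly : ∀ N : ℕ, W N * ((1 + k * (7 * ((c1 * N + c2 : ℕ) + 1))) ^ k *
        (4 * ((c1 * N + c2 : ℕ) + 1))) ≤ C * (c * (N + 1)) ^ (k + 1) *
          Real.exp (-(ε / 2) * N) := by
    intro N
    have hN0 : (0:ℝ) ≤ N := by positivity
    have hk0 : (0:ℝ) ≤ k := by positivity
    have hc10 : (0:ℝ) ≤ c1 := by positivity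
    have hc20 : (0:ℝ) ≤ c2 := by positivity
    have h1 : ((c1 * N + c2 : ℕ) : ℝ) + 1 ≤ (c1 + c2 + 1) * (N + 1) := by
      push_cast
      nlinarith
    have h2 : 1 + k * (7 * (((c1 * N + c2 : ℕ) : ℝ) + 1)) ≤ c * (N + 1) := by
      rw [hc]
      have h3 : (k:ℝ) * (7 * (((c1 * N + c2 : ℕ) : ℝ) + 1)) ≤
          k * (7 * ((c1 + c2 + 1) * (N + 1))) := by
        apply mul_le_mul_of_nonneg_left _ hk0
        linarith
      have h4 : 0 ≤ (c1 + c2 + 1 : ℝ) * (N + 1) := by positivity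
      nlinarith
    have h5 : 4 * (((c1 * N + c2 : ℕ) : ℝ) + 1) ≤ c * (N + 1) := by
      rw [hc]
      have h4 : 0 ≤ (k:ℝ) * ((c1 + c2 + 1 : ℝ) * (N + 1)) := by positivity
      nlinarith
    have h6 : (1 + k * (7 * (((c1 * N + c2 : ℕ) : ℝ) + 1))) ^ k *
        (4 * (((c1 * N + c2 : ℕ) : ℝ) + 1)) ≤ (c * (N + 1)) ^ (k + 1) := by
      rw [pow_succ]
      apply mul_le_mul (pow_le_pow_left₀ (by positivity) h2 k) h5 (by positivity) (by positivity)
    calc _ ≤ (C * Real.exp (-(ε / 2) * N)) * (c * (N + 1)) ^ (k + 1) :=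
          mul_le_mul (hWle N) h6 (by positivity) (by positivity)
      _ = _ := by ring
  have hsum : Summable (fun N : ℕ => W N * ((1 + k * (7 * ((c1 * N + c2 : ℕ) + 1))) ^ k *
        (4 * ((c1 * N + c2 : ℕ) + 1)))) :=
    Summable.of_nonneg_of_le (fun N => by have := hWpos N; positivity) hpoly
      (summable_poly C c (ε / 2) (by positivity) (k + 1))
  rw [← ENNReal.ofReal_tsum_of_nonneg (fun N => by have := hWpos N; positivity) hsum]
  exact ENNReal.ofReal_lt_top

end Pool.Agent.Helper320.LC
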