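import Pool.Agent.Helper320.LCDefs

set_option autoImplicit false

namespace Pool.Agent.Helper320.LC.JA




open Set Metric

/-- the section of the quotient map centred at `t0` -/
noncomputable def sec (t0 : ℝ) (x : Circ) : ℝ := (AddCircle.equivIco (1 : ℝ) (t0 - 1 / 2) x : ℝ)

lemma sec_coe (t0 : ℝ) (x : Circ) : ((sec t0 x : ℝ) : Circ) = x := AddCircle.coe_equivIco

lemma sec_mem (t0 : ℝ) (x : Circ) : t0 - 1 / 2 ≤ sec t0 x ∧ sec t0 x < t0 + 1 / 2 := by
  have h := (AddCircle.equivIco (1 : ℝ) (t0 - 1 / 2) x).2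
  rw [mem_Ico] at h
  refine ⟨h.1, ?_⟩
  have := h.2
  unfold sec
  linarith

lemma sec_of_mem (t0 t : ℝ) (h1 : t0 - 1 / 2 ≤ t) (h2 : t < t0 + 1 / 2) : sec t0 (t : Circ) = t := by
  unfold sec
  exact AddCircle.equivIco_coe_of_mem ⟨h1, by linarith⟩

lemma sec_near (t0 c ρ : ℝ) (x : Circ) (hc : |c - t0| + ρ < 1 / 4)
    (hx : dist x (c : Circ) ≤ ρ) : |sec t0 x - c| ≤ ρ := by
  have hm := sec_mem t0 x
  have e : dist x (c : Circ) = ‖((sec t0 x - c : ℝ) : Circ)‖ := by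
    rw [dist_eq_norm, AddCircle.coe_sub, sec_coe]
  rw [e, UnitAddCircle.norm_eq] at hx
  set n := round (sec t0 x - c) with hn
  have h1 := abs_le.mp hx
  have h2 := le_abs_self (c - t0)
  have h3 := neg_le_abs (c - t0)
  have h4 : (n : ℝ) < 1 := by linarith
  have h5 : (-1 : ℝ) < n := by linarith
  have h6 : n < 1 := by exact_mod_cast h4
  have h7 : -1 < n := by exact_mod_cast h5
  have h8 : n = 0 := by omega
  rw [h8] at hx
  simpa using hx

lemma dist_coe_le (s t : ℝ) : dist (s : Circ) (t : Circ) ≤ |s - t| := by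
  rw [dist_eq_norm, ← AddCircle.coe_sub, UnitAddCircle.norm_eq]
  have := round_le (s - t) 0
  simpa using this

lemma coe_inj {t0 s t : ℝ} (hs : |s - t0| < 1 / 2) (ht : |t - t0| < 1 / 2)
    (h : (s : Circ) = (t : Circ)) : s = t := by
  have hs' := abs_lt.mp hs
  have ht' := abs_lt.mp ht
  rw [← sec_of_mem t0 s (by linarith) (by linarith), h,
    sec_of_mem t0 t (by linarith) (by linarith)]

lemma sec_cont (t0 : ℝ) (x : Circ) (hx : t0 - 1 / 2 < sec t0 x) :
    ContinuousAt (sec t0) x := by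
  unfold sec
  apply continuousAt_subtype_val.comp
  apply AddCircle.continuousAt_equivIco
  intro h
  rw [h, sec_of_mem t0 (t0 - 1 / 2) le_rfl (by linarith)] at hx
  exact lt_irrefl _ hx

/-- a homeomorphism sending the closed arc around `t0` close to `c` has a monotone square -/
lemma square_mono (t0 r : ℝ) (hr : 0 < r) (hr2 : r < 1 / 4) (F : Circ ≃ₜ Circ) (c ρ : ℝ)
    (hρ : ∀ z, dist z (t0 : Circ) ≤ r → dist (F z) (c : Circ) ≤ ρ) (hc : |c - t0| + ρ < r) :
    ∃ u v : ℝ, t0 - r < u ∧ u < v ∧ v < t0 + r ∧ |u - c| ≤ ρ ∧ |v - c| ≤ ρ ∧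
      (F * F) ((t0 - r : ℝ) : Circ) = (u : Circ) ∧ (F * F) ((t0 + r : ℝ) : Circ) = (v : Circ) := by
  set φ : ℝ → ℝ := fun t => sec t0 (F (t : Circ)) with hφ
  have hin : ∀ t ∈ Icc (t0 - r) (t0 + r), dist (t : Circ) (t0 : Circ) ≤ r := by
    intro t ht
    refine (dist_coe_le t t0).trans ?_
    rw [abs_le]
    constructor <;> linarith [ht.1, ht.2]
  have hφc : ∀ t ∈ Icc (t0 - r) (t0 + r), |φ t - c| ≤ ρ := by
    intro t ht
    exact sec_near t0 c ρ _ (by linarith) (hρ _ (hin t ht))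
  have hφin : ∀ t ∈ Icc (t0 - r) (t0 + r), φ t ∈ Ioo (t0 - r) (t0 + r) := by
    intro t ht
    have h1 := abs_le.mp (hφc t ht)
    have h2 := le_abs_self (c - t0)
    have h3 := neg_le_abs (c - t0)
    constructor <;> linarith
  have hcont : ContinuousOn φ (Icc (t0 - r) (t0 + r)) := by
    intro t ht
    apply ContinuousAt.continuousWithinAt
    have h1 : ContinuousAt (sec t0) (F (t : Circ)) := by
      apply sec_cont
      have := (hφin t ht).1
      simp only [hφ] at this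
      linarith
    have h2 : ContinuousAt (fun t : ℝ => F (t : Circ)) t :=
      (F.continuous.comp (AddCircle.continuous_mk' (1 : ℝ))).continuousAt
    exact ContinuousAt.comp (f := fun t : ℝ => F (t : Circ)) (g := sec t0) h1 h2
  have hinj : InjOn φ (Icc (t0 - r) (t0 + r)) := by
    intro s hs t ht hst
    have h1 : F (s : Circ) = F (t : Circ) := by
      rw [← sec_coe t0 (F (s : Circ)), ← sec_coe t0 (F (t : Circ))]
      simp only [hφ] at hst
      rw [hst]
    have h2 := F.injective h1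
    apply coe_inj (t0 := t0) _ _ h2
    · rw [abs_lt]; constructor <;> linarith [hs.1, hs.2]
    · rw [abs_lt]; constructor <;> linarith [ht.1, ht.2]
  have ha : t0 - r ∈ Icc (t0 - r) (t0 + r) := ⟨le_rfl, by linarith⟩
  have hb : t0 + r ∈ Icc (t0 - r) (t0 + r) := ⟨by linarith, le_rfl⟩
  have hab : t0 - r < t0 + r := by linarith
  have hφa := hφin _ ha
  have hφb := hφin _ hb
  have hφa' : φ (t0 - r) ∈ Icc (t0 - r) (t0 + r) := Ioo_subset_Icc_self hφa
  have hφb' : φ (t0 + r) ∈ Icc (t0 - r) (t0 + r) := Ioo_subset_Icc_self hφb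
  have hsq : ∀ t : ℝ, (F * F) (t : Circ) = ((φ (φ t) : ℝ) : Circ) := by
    intro t
    simp only [hφ]
    rw [sec_coe, sec_coe]
    rfl
  refine ⟨φ (φ (t0 - r)), φ (φ (t0 + r)), (hφin _ hφa').1, ?_, (hφin _ hφb').2, hφc _ hφa',
    hφc _ hφb', hsq _, hsq _⟩
  rcases ContinuousOn.strictMonoOn_of_injOn_Icc' hab.le hcont hinj with hm | hm
  · exact hm hφa' hφb' (hm ha hb hab)
  · exact hm hφb' hφa' (hm ha hb hab)

/-- A resilient pair with both maps in the set `T`. -/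
def HasPairIn (T : Set (Circ ≃ₜ Circ)) : Prop :=
  ∃ f ∈ T, ∃ g ∈ T, ∃ t₀ t₁ t₂ t₃ t₄ t₅ : ℝ,
    t₀ < t₁ ∧ t₁ < t₂ ∧ t₂ < t₃ ∧ t₃ < t₄ ∧ t₄ < t₅ ∧ t₅ < t₀ + 1 ∧
    f (t₀ : Circ) = (t₁ : Circ) ∧ f (t₅ : Circ) = (t₂ : Circ) ∧
    g (t₀ : Circ) = (t₃ : Circ) ∧ g (t₅ : Circ) = (t₄ : Circ)

/-- An attracting fixed point `p` and group elements mapping neighbourhoods of `p` close to
another point `q` of the basin give a resilient pair consisting of squares. -/
theorem resilient_of_sq {G : Subgroup (Circ ≃ₜ Circ)} {p q : Circ} {r : ℝ} (hr : 0 < r)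
    (hr2 : r < 1/4) (g : Circ ≃ₜ Circ) (hg : g ∈ G)
    (hgp : ∀ z, dist z p ≤ r → dist (g z) p ≤ dist z p / 2)
    (hq : q ≠ p) (hqp : dist q p < r)
    (H : ∀ τ > 0, ∃ h ∈ G, ∃ δ > 0, ∀ z, dist z p < δ → dist (h z) q < τ) :
    HasPairIn {g | ∃ u ∈ G, g = u * u} := by
  obtain ⟨t0, rfl⟩ := QuotientAddGroup.mk_surjective p
  change q ≠ (t0 : Circ) at hq
  change dist q (t0 : Circ) < r at hqp
  set p : Circ := (t0 : Circ) with hp
  have hd : 0 < dist q p := dist_pos.mpr hq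
  set c := sec t0 q with hcdef
  have hcq : (c : Circ) = q := sec_coe t0 q
  have hcd : |c - t0| = dist q p := by
    apply le_antisymm
    · refine sec_near t0 t0 (dist q p) q ?_ le_rfl
      simp; linarith
    · rw [← hcq]; exact dist_coe_le c t0
  obtain ⟨h, hh, δ, hδ, hhδ⟩ := H (min (dist q p / 4) ((r - dist q p) / 2))
    (lt_min (by linarith) (by linarith))
  set τ := min (dist q p / 4) ((r - dist q p) / 2) with hτ
  have hτ1 : τ ≤ dist q p / 4 := min_le_left _ _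
  have hτ2 : τ ≤ (r - dist q p) / 2 := min_le_right _ _
  -- powers of g
  have hpow : ∀ M : ℕ, ∀ z, dist z p ≤ r → dist ((g ^ M) z) p ≤ r / 2 ^ M := by
    intro M
    induction M with
    | zero => intro z hz; simpa using hz
    | succ M ih =>
      intro z hz
      rw [pow_succ']
      have h1 := ih z hz
      have h2 : r / 2 ^ M ≤ r := div_le_self hr.le (one_le_pow₀ (by norm_num))
      have h3 := hgp _ (h1.trans h2)
      have h4 : (g * g ^ M) z = g ((g ^ M) z) := rfl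
      rw [h4]
      refine h3.trans ?_
      rw [pow_succ, ← div_div]
      linarith
  obtain ⟨M, hM⟩ : ∃ M : ℕ, r / 2 ^ M < min δ (dist q p / 4) := by
    obtain ⟨M, hM⟩ := exists_pow_lt_of_lt_one
      (show 0 < min δ (dist q p / 4) / r from div_pos (lt_min hδ (by linarith)) hr)
      (by norm_num : (1 / 2 : ℝ) < 1)
    refine ⟨M, ?_⟩
    rw [lt_div_iff₀ hr] at hM
    rw [one_div, inv_pow] at hM
    rw [div_eq_mul_inv, mul_comm]
    exact hM
  have hM1 : r / 2 ^ M < δ := hM.trans_le (min_le_left _ _)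
  have hM2 : r / 2 ^ M < dist q p / 4 := hM.trans_le (min_le_right _ _)
  obtain ⟨u, v, hu1, huv, hv1, huc, hvc, hFu, hFv⟩ := square_mono t0 r hr hr2 (g ^ M) t0
    (dist q p / 4) (fun z hz => (hpow M z hz).trans hM2.le) (by simp; linarith)
  obtain ⟨u', v', hu1', huv', hv1', huc', hvc', hFu', hFv'⟩ := square_mono t0 r hr hr2 (h * g ^ M) c
    τ (fun z hz => by
      have h1 : dist ((g ^ M) z) p < δ := (hpow M z hz).trans_lt hM1
      have h2 := hhδ _ h1
      rw [hcq]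
      exact h2.le) (by rw [hcd]; linarith)
  have a1 := abs_le.mp huc
  have a2 := abs_le.mp hvc
  have a3 := abs_le.mp huc'
  have a4 := abs_le.mp hvc'
  rcases le_total t0 c with hle | hle
  · rw [abs_of_nonneg (by linarith)] at hcd
    exact ⟨g ^ M * g ^ M, ⟨g ^ M, G.pow_mem hg M, rfl⟩, h * g ^ M * (h * g ^ M),
      ⟨h * g ^ M, G.mul_mem hh (G.pow_mem hg M), rfl⟩, t0 - r, u, v, u', v', t0 + r,
      hu1, huv, by linarith, huv', hv1', by linarith, hFu, hFv, hFu', hFv'⟩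
  · rw [abs_of_nonpos (by linarith)] at hcd
    exact ⟨h * g ^ M * (h * g ^ M), ⟨h * g ^ M, G.mul_mem hh (G.pow_mem hg M), rfl⟩,
      g ^ M * g ^ M, ⟨g ^ M, G.pow_mem hg M, rfl⟩, t0 - r, u', v', u, v, t0 + r,
      hu1', huv', by linarith, huv, hv1, by linarith, hFu', hFv', hFu, hFv⟩

/-- Resilient pairs in `G`. -/
theorem resilient_of {G : Subgroup (Circ ≃ₜ Circ)} {p q : Circ} {r : ℝ} (hr : 0 < r)
    (hr2 : r < 1/4) (g : Circ ≃ₜ Circ) (hg : g ∈ G)
    (hgp : ∀ z, dist z p ≤ r → dist (g z) p ≤ dist z p / 2)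
    (hq : q ≠ p) (hqp : dist q p < r)
    (H : ∀ τ > 0, ∃ h ∈ G, ∃ δ > 0, ∀ z, dist z p < δ → dist (h z) q < τ) :
    HasResilientPair G := by
  obtain ⟨f, ⟨u, hu, rfl⟩, g', ⟨v, hv, rfl⟩, hrest⟩ :=
    resilient_of_sq hr hr2 g hg hgp hq hqp H
  exact ⟨u * u, G.mul_mem hu hu, v * v, G.mul_mem hv hv, hrest⟩

end Pool.Agent.Helper320.LC.JA
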