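import Pool.Agent.Helper320.LCDefs

set_option autoImplicit false

namespace Pool.Agent.Helper320.LC.JB


/-- representatives realising the distance -/
lemma exists_rep (x y : Circ) : ∃ a b : ℝ, (a : Circ) = x ∧ (b : Circ) = y ∧ |a - b| = dist x y := by
  induction x using QuotientAddGroup.induction_on with
  | H a0 =>
  induction y using QuotientAddGroup.induction_on with
  | H b =>
  refine ⟨a0 - round (a0 - b), b, ?_, rfl, ?_⟩
  · have h := AddCircle.coe_sub (1:ℝ) a0 (round (a0 - b) : ℝ)
    have h2 : (((round (a0 - b) : ℤ) : ℝ) : Circ) = 0 := by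
      rw [AddCircle.coe_eq_zero_iff]
      exact ⟨round (a0 - b), by simp⟩
    rw [h2, sub_zero] at h
    exact h
  · have h3 : dist (QuotientAddGroup.mk a0 : Circ) (QuotientAddGroup.mk b : Circ)
        = ‖((a0 - b : ℝ) : Circ)‖ := by
      rw [dist_eq_norm]; rfl
    rw [h3, AddCircle.norm_eq]
    simp only [inv_one, one_mul, mul_one]
    congr 1
    ring

lemma dist_coe_of_le {a b : ℝ} (h : |a - b| ≤ 1 / 2) : dist (a : Circ) (b : Circ) = |a - b| := by
  rw [dist_eq_norm, ← AddCircle.coe_sub, AddCircle.norm_coe_eq_abs_iff (1:ℝ) one_ne_zero]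
  simpa using h

lemma dist_coe_le (a b : ℝ) : dist (a : Circ) (b : Circ) ≤ |a - b| := by
  rw [dist_eq_norm, ← AddCircle.coe_sub, AddCircle.norm_eq]
  have := round_le (a - b) 0
  simpa using this

/-- periodicity of the derivative of a lift -/
lemma deriv_periodic (s : Circ ≃ₜ Circ) (F : ℝ → ℝ) (hF : ContDiff ℝ 1 F)
    (hl : ∀ x : ℝ, s (x : Circ) = (F x : Circ)) : Function.Periodic (deriv F) 1 := by
  have hcont : Continuous F := hF.continuous
  -- F (x+1) - F x is an integer
  have hint : ∀ x : ℝ, ∃ n : ℤ, F (x + 1) - F x = n := by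
    intro x
    have h1 : ((F (x + 1) - F x : ℝ) : Circ) = 0 := by
      rw [AddCircle.coe_sub, ← hl, ← hl]
      have : ((x + 1 : ℝ) : Circ) = (x : Circ) := by
        have := AddCircle.coe_add_period (1:ℝ) x
        exact this
      rw [this, sub_self]
    rw [AddCircle.coe_eq_zero_iff] at h1
    obtain ⟨n, hn⟩ := h1
    exact ⟨n, by rw [← hn]; simp⟩
  choose N hN using hint
  -- continuity of N
  have hNc : Continuous N := by
    have h2 : Continuous (fun x => ((N x : ℤ) : ℝ)) := by
      have : (fun x => ((N x : ℤ) : ℝ)) = fun x => F (x + 1) - F x := by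
        funext x; exact (hN x).symm
      rw [this]
      exact (hcont.comp (continuous_id.add continuous_const)).sub hcont
    exact (Int.isClosedEmbedding_coe_real.isEmbedding.continuous_iff).2 h2
  have hconst : ∀ x, N x = N 0 := by
    intro x
    exact PreconnectedSpace.constant inferInstance hNc
  intro x
  have hfun : (fun y => F (y + 1)) = fun y => F y + N 0 := by
    funext y
    have := hN y
    rw [hconst y] at this
    linarith
  have h3 : deriv (fun y => F (y + 1)) x = deriv F (x + 1) := by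
    rw [deriv_comp_add_const]
  rw [← h3, hfun, deriv_add_const]

/-- the single map statement -/
lemma single (s : Circ ≃ₜ Circ) (F : ℝ → ℝ) (hF : ContDiff ℝ 1 F) (hne : ∀ x : ℝ, deriv F x ≠ 0)
    (hl : ∀ x : ℝ, s (x : Circ) = (F x : Circ)) :
    ∃ g : Circ → ℝ, (∀ x : ℝ, g (x : Circ) = |deriv F x|) ∧ Continuous g ∧
      (∃ A > 0, ∀ x, Real.exp (-A) ≤ g x ∧ g x ≤ Real.exp A) ∧
      (∀ η > 0, ∃ δ > 0, ∀ x y, (dist x y ≤ δ ∨ dist (s x) (s y) ≤ δ) →
        Real.exp (-η) * g x * dist x y ≤ dist (s x) (s y) ∧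
        dist (s x) (s y) ≤ Real.exp η * g x * dist x y) := by
  have hper := deriv_periodic s F hF hl
  have hper' : Function.Periodic (fun x => |deriv F x|) 1 := fun x => by
    simp only [hper x]
  have hdc : Continuous (deriv F) := hF.continuous_deriv le_rfl
  refine ⟨hper'.lift, fun x => hper'.lift_coe x, ?_, ?_⟩
  · exact continuous_coinduced_dom.mpr (by exact hdc.abs)
  have hgc : Continuous (hper'.lift : Circ → ℝ) :=
    continuous_coinduced_dom.mpr (by exact hdc.abs)
  set g : Circ → ℝ := hper'.lift with hg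
  have hgx : ∀ x : ℝ, g (x : Circ) = |deriv F x| := fun x => hper'.lift_coe x
  have hpos : ∀ x : Circ, 0 < g x := by
    intro x
    induction x using QuotientAddGroup.induction_on with
    | H a =>
    have := hgx a
    have h2 : g (QuotientAddGroup.mk a) = |deriv F a| := this
    rw [h2]
    exact abs_pos.2 (hne a)
  have hlogc : Continuous (fun x => Real.log (g x)) := hgc.log (fun x => (hpos x).ne')
  -- bound
  have hA : ∃ A > 0, ∀ x, Real.exp (-A) ≤ g x ∧ g x ≤ Real.exp A := by
    obtain ⟨C, hC⟩ := IsCompact.exists_bound_of_continuousOn (isCompact_univ (X := Circ))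
      hlogc.continuousOn
    refine ⟨|C| + 1, by positivity, fun x => ?_⟩
    have h1 := hC x (Set.mem_univ x)
    rw [Real.norm_eq_abs, abs_le] at h1
    have h2 := le_abs_self C
    constructor
    · rw [← Real.exp_log (hpos x)]
      exact Real.exp_le_exp.2 (by linarith [h1.1])
    · rw [← Real.exp_log (hpos x)]
      exact Real.exp_le_exp.2 (by linarith [h1.2])
  refine ⟨hA, ?_⟩
  obtain ⟨A, hA0, hA⟩ := hA
  intro η hη
  have huc : UniformContinuous (fun x => Real.log (g x)) :=
    CompactSpace.uniformContinuous_of_continuous hlogc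
  rw [Metric.uniformContinuous_iff] at huc
  obtain ⟨δ1, hδ1, huc⟩ := huc η hη
  -- the near statement
  set δ0 : ℝ := min (δ1 / 2) (min (1 / 2) (Real.exp (-A) / 2)) with hδ0
  have hδ0pos : 0 < δ0 := by positivity
  have near : ∀ x y : Circ, dist x y ≤ δ0 →
      Real.exp (-η) * g x * dist x y ≤ dist (s x) (s y) ∧
        dist (s x) (s y) ≤ Real.exp η * g x * dist x y := by
    intro x y hxy
    obtain ⟨a, b, rfl, rfl, hab⟩ := exists_rep x y
    rw [hl, hl, ← hab]
    rw [← hab] at hxy
    have hx1 : |a - b| ≤ δ1 / 2 := hxy.trans (min_le_left _ _)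
    have hx3 : |a - b| ≤ Real.exp (-A) / 2 :=
      hxy.trans ((min_le_right _ _).trans (min_le_right _ _))
    -- mean value
    have hmv : ∃ ξ : ℝ, |a - ξ| ≤ |a - b| ∧ F a - F b = deriv F ξ * (a - b) := by
      rcases lt_trichotomy a b with h | h | h
      · obtain ⟨c, hc, hc'⟩ := exists_deriv_eq_slope F h hF.continuous.continuousOn
          ((hF.differentiable one_ne_zero).differentiableOn)
        refine ⟨c, ?_, ?_⟩
        · rw [abs_of_neg (by linarith [hc.1]), abs_of_neg (by linarith)]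
          linarith [hc.2]
        · rw [hc']
          have : b - a ≠ 0 := by linarith
          field_simp
          ring
      · exact ⟨a, by simp, by simp [h]⟩
      · obtain ⟨c, hc, hc'⟩ := exists_deriv_eq_slope F h hF.continuous.continuousOn
          ((hF.differentiable one_ne_zero).differentiableOn)
        refine ⟨c, ?_, ?_⟩
        · rw [abs_of_pos (by linarith [hc.2]), abs_of_pos (by linarith)]
          linarith [hc.1]
        · rw [hc']
          have : a - b ≠ 0 := by linarith
          field_simp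
    obtain ⟨ξ, hξ, hξ'⟩ := hmv
    have habs : |F a - F b| = g (ξ : Circ) * |a - b| := by
      rw [hξ', abs_mul, hgx]
    have hdist : dist (F a : Circ) (F b : Circ) = |F a - F b| := by
      apply dist_coe_of_le
      rw [habs]
      calc g (ξ : Circ) * |a - b| ≤ Real.exp A * (Real.exp (-A) / 2) := by
            apply mul_le_mul (hA _).2 hx3 (abs_nonneg _) (Real.exp_pos _).le
        _ = 1 / 2 := by
            rw [← mul_div_assoc, ← Real.exp_add]; simp
    rw [hdist, habs]
    have hnear : dist (Real.log (g (a : Circ))) (Real.log (g (ξ : Circ))) < η := by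
      apply huc
      calc dist (a : Circ) (ξ : Circ) ≤ |a - ξ| := dist_coe_le a ξ
        _ ≤ |a - b| := hξ
        _ ≤ δ1 / 2 := hx1
        _ < δ1 := by linarith
    rw [Real.dist_eq, abs_lt] at hnear
    constructor
    · apply mul_le_mul_of_nonneg_right _ (abs_nonneg _)
      rw [← Real.exp_log (hpos (a : Circ)), ← Real.exp_log (hpos (ξ : Circ)), ← Real.exp_add]
      exact Real.exp_le_exp.2 (by linarith [hnear.2])
    · apply mul_le_mul_of_nonneg_right _ (abs_nonneg _)
      rw [← Real.exp_log (hpos (a : Circ)), ← Real.exp_log (hpos (ξ : Circ)), ← Real.exp_add]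
      exact Real.exp_le_exp.2 (by linarith [hnear.1])
  -- uniform continuity of the inverse
  have hinv : UniformContinuous (s.symm : Circ → Circ) :=
    CompactSpace.uniformContinuous_of_continuous s.symm.continuous
  rw [Metric.uniformContinuous_iff] at hinv
  obtain ⟨δ2, hδ2, hinv⟩ := hinv δ0 hδ0pos
  refine ⟨min δ0 (δ2 / 2), by positivity, ?_⟩
  intro x y hxy
  apply near
  rcases hxy with h | h
  · exact h.trans (min_le_left _ _)
  · have h2 : dist (s x) (s y) < δ2 := by
      have := h.trans (min_le_right _ _)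
      linarith
    have := hinv h2
    simpa using this.le

/-- JOB B (uniform differentiability of finitely many C^1 circle diffeomorphisms). -/
theorem exists_deriv (S : Set (Circ ≃ₜ Circ)) (hfin : S.Finite) (hC1 : ∀ s ∈ S, IsC1Diffeo s) :
    ∃ D : (Circ ≃ₜ Circ) → Circ → ℝ, IsDeriv S D ∧
      (∀ s ∈ S, Continuous (D s)) ∧
      (∃ A > 0, ∀ s ∈ S, ∀ x, Real.exp (-A) ≤ D s x ∧ D s x ≤ Real.exp A) ∧
      (∀ η > 0, ∃ δ > 0, ∀ s ∈ S, ∀ x y, (dist x y ≤ δ ∨ dist (s x) (s y) ≤ δ) →
        Real.exp (-η) * D s x * dist x y ≤ dist (s x) (s y) ∧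
        dist (s x) (s y) ≤ Real.exp η * D s x * dist x y) := by
  have key : ∀ s : Circ ≃ₜ Circ, ∃ g : Circ → ℝ, s ∈ S →
      (∃ F : ℝ → ℝ, ContDiff ℝ 1 F ∧ (∀ x : ℝ, deriv F x ≠ 0) ∧
        (∀ x : ℝ, s (x : Circ) = (F x : Circ)) ∧ ∀ x : ℝ, g (x : Circ) = |deriv F x|) ∧
      Continuous g ∧
      (∃ A > 0, ∀ x, Real.exp (-A) ≤ g x ∧ g x ≤ Real.exp A) ∧
      (∀ η > 0, ∃ δ > 0, ∀ x y, (dist x y ≤ δ ∨ dist (s x) (s y) ≤ δ) →
        Real.exp (-η) * g x * dist x y ≤ dist (s x) (s y) ∧
        dist (s x) (s y) ≤ Real.exp η * g x * dist x y) := by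
    intro s
    by_cases hs : s ∈ S
    · obtain ⟨F, hF, hne, hl⟩ := hC1 s hs
      obtain ⟨g, h1, h2, h3, h4⟩ := single s F hF hne hl
      exact ⟨g, fun _ => ⟨⟨F, hF, hne, hl, h1⟩, h2, h3, h4⟩⟩
    · exact ⟨fun _ => 0, fun h => absurd h hs⟩
  choose D hD using key
  refine ⟨D, fun s hs => (hD s hs).1, fun s hs => (hD s hs).2.1, ?_, ?_⟩
  · -- bound
    have hev : ∀ᶠ A in Filter.atTop, ∀ s ∈ S, ∀ x, Real.exp (-A) ≤ D s x ∧ D s x ≤ Real.exp A := by
      rw [Filter.eventually_all_finite hfin]
      intro s hs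
      obtain ⟨A, -, hA⟩ := (hD s hs).2.2.1
      filter_upwards [Filter.eventually_ge_atTop A] with B hB x
      constructor
      · exact (Real.exp_le_exp.2 (by linarith)).trans (hA x).1
      · exact (hA x).2.trans (Real.exp_le_exp.2 hB)
    obtain ⟨A, hA, hA0⟩ := (hev.and (Filter.eventually_gt_atTop (0:ℝ))).exists
    exact ⟨A, hA0, hA⟩
  · intro η hη
    have hev : ∀ᶠ δ in nhdsWithin (0:ℝ) (Set.Ioi 0), ∀ s ∈ S, ∀ x y,
        (dist x y ≤ δ ∨ dist (s x) (s y) ≤ δ) →
        Real.exp (-η) * D s x * dist x y ≤ dist (s x) (s y) ∧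
        dist (s x) (s y) ≤ Real.exp η * D s x * dist x y := by
      rw [Filter.eventually_all_finite hfin]
      intro s hs
      obtain ⟨δ0, hδ0, h⟩ := (hD s hs).2.2.2 η hη
      have : Set.Ioc (0:ℝ) δ0 ∈ nhdsWithin (0:ℝ) (Set.Ioi 0) := Ioc_mem_nhdsGT hδ0
      filter_upwards [this] with δ hδ x y hxy
      apply h
      rcases hxy with h' | h'
      · exact Or.inl (h'.trans hδ.2)
      · exact Or.inr (h'.trans hδ.2)
    obtain ⟨δ, hδ, hδ0⟩ := (hev.and self_mem_nhdsWithin).exists
    exact ⟨δ, hδ0, hδ⟩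


end Pool.Agent.Helper320.LC.JB
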