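import Pool.Agent.Helper320.LCDefs

set_option autoImplicit false
open scoped ENNReal NNReal

namespace Pool.Agent.Helper320.LC.JC


/-- descend a degree one map of the line to the circle -/
noncomputable def desc (φ : ℝ → ℝ) (hφ : ∀ x, φ (x + 1) = φ x + 1) : Circ → Circ :=
  Function.Periodic.lift (f := fun x : ℝ => ((φ x : ℝ) : Circ)) (c := (1 : ℝ)) (by
    intro x
    show ((φ (x + 1) : ℝ) : Circ) = _
    rw [hφ, AddCircle.coe_add_period])

lemma desc_coe (φ : ℝ → ℝ) (hφ : ∀ x, φ (x + 1) = φ x + 1) (x : ℝ) :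
    desc φ hφ (x : Circ) = (φ x : Circ) := rfl

lemma desc_cont (φ : ℝ → ℝ) (hφ : ∀ x, φ (x + 1) = φ x + 1) (hc : Continuous φ) :
    Continuous (desc φ hφ) := by
  apply (AddCircle.continuous_mk' (1 : ℝ)).comp hc |>.quotient_lift

/-- A circle homeomorphism from an order isomorphism of the line commuting with the translation. -/
lemma exists_homeo (e : ℝ ≃o ℝ) (he : ∀ x, e (x + 1) = e x + 1) :
    ∃ h : Circ ≃ₜ Circ, (∀ x : ℝ, h (x : Circ) = (e x : Circ)) ∧
      (∀ x : ℝ, h.symm (x : Circ) = (e.symm x : Circ)) := by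
  have he' : ∀ x, e.symm (x + 1) = e.symm x + 1 := by
    intro x
    apply e.injective
    rw [he]; simp
  have hl : Function.LeftInverse (desc e.symm he') (desc e he) := by
    intro x
    induction x using QuotientAddGroup.induction_on with
    | H x =>
      show desc e.symm he' (desc e he (x : Circ)) = (x : Circ)
      rw [desc_coe, desc_coe]; simp
  have hr : Function.RightInverse (desc e.symm he') (desc e he) := by
    intro x
    induction x using QuotientAddGroup.induction_on with
    | H x =>
      show desc e he (desc e.symm he' (x : Circ)) = (x : Circ)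
      rw [desc_coe, desc_coe]; simp
  exact ⟨⟨⟨desc e he, desc e.symm he', hl, hr⟩, desc_cont _ he e.continuous,
    desc_cont _ he' e.symm.continuous⟩, fun x => rfl, fun x => rfl⟩

/-- JOB C (conjugacy from a density): an integrable function `M ≥ 1` with
`D s x * M (s x) ≤ K * M x` gives a homeomorphism conjugating all `s ∈ S` to `K`-Lipschitz maps:
take `h (t) = ∫_0^t M / ∫_0^1 M` on lifts. -/
theorem conj_of_density (S : Set (Circ ≃ₜ Circ)) (D : (Circ ≃ₜ Circ) → Circ → ℝ)
    (hD : IsDeriv S D) (M : Circ → ℝ≥0∞) (hMm : Measurable M) (hM1 : ∀ x, 1 ≤ M x)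
    (hMfin : ∫⁻ x, M x ≠ ∞) (K : ℝ≥0)
    (hMS : ∀ s ∈ S, ∀ x, ENNReal.ofReal (D s x) * M (s x) ≤ K * M x) :
    ∃ h : Circ ≃ₜ Circ, ∀ s ∈ S, LipschitzWith K (fun x => h (s (h.symm x))) := by
  classical
  set Mt : ℝ → ℝ≥0∞ := fun t => M (t : Circ) with hMt
  have hMtm : Measurable Mt := hMm.comp AddCircle.measurable_mk'
  set m : ℝ → ℝ := fun t => (Mt t).toReal with hm
  have hmm : Measurable m := hMtm.ennreal_toReal
  have hper : Function.Periodic m 1 := by
    intro t
    simp only [hm, hMt]
    rw [AddCircle.coe_add_period]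
  have hint1 : ∀ t : ℝ, ∫⁻ x in Set.Ioc t (t + 1), Mt x ≠ ∞ := by
    intro t
    have := AddCircle.lintegral_preimage (1:ℝ) t M
    rw [this]; exact hMfin
  have hint01 : IntervalIntegrable m MeasureTheory.volume 0 (0 + 1) := by
    rw [intervalIntegrable_iff_integrableOn_Ioc_of_le (by norm_num)]
    exact MeasureTheory.integrable_toReal_of_lintegral_ne_top hMtm.aemeasurable (hint1 0)
  have hint : ∀ a b : ℝ, IntervalIntegrable m MeasureTheory.volume a b :=
    fun a b => hper.intervalIntegrable one_ne_zero hint01 a b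
  -- finiteness of the lower integral on bounded intervals
  have hfin0 : ∀ (a : ℝ) (n : ℕ), ∫⁻ t in Set.Ioc a (a + n), Mt t ≠ ∞ := by
    intro a n
    induction n with
    | zero => simp
    | succ n ih =>
      have hsub : Set.Ioc a (a + (n + 1 : ℕ)) ⊆ Set.Ioc a (a + n) ∪ Set.Ioc (a + n) (a + n + 1) := by
        intro x hx
        rcases le_or_gt x (a + n) with h | h
        · exact Or.inl ⟨hx.1, h⟩
        · refine Or.inr ⟨h, ?_⟩
          have := hx.2
          push_cast at this
          linarith
      refine ne_top_of_le_ne_top (ENNReal.add_ne_top.2 ⟨ih, hint1 (a + n)⟩) ?_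
      exact (MeasureTheory.lintegral_mono_set hsub).trans (MeasureTheory.lintegral_union_le _ _ _)
  have hfin : ∀ a b : ℝ, ∫⁻ t in Set.Ioc a b, Mt t ≠ ∞ := by
    intro a b
    obtain ⟨n, hn⟩ := exists_nat_ge (b - a)
    refine ne_top_of_le_ne_top (hfin0 a n) ?_
    apply MeasureTheory.lintegral_mono_set
    apply Set.Ioc_subset_Ioc_right
    linarith
  have hkey : ∀ a b : ℝ, a ≤ b →
      ∫ t in a..b, m t = (∫⁻ t in Set.Ioc a b, Mt t).toReal := by
    intro a b hab
    rw [intervalIntegral.integral_of_le hab]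
    exact MeasureTheory.integral_toReal hMtm.aemeasurable
      (MeasureTheory.ae_lt_top hMtm (hfin a b))
  have hlow : ∀ a b : ℝ, a ≤ b → b - a ≤ ∫ t in a..b, m t := by
    intro a b hab
    rw [hkey a b hab]
    rw [← ENNReal.ofReal_le_iff_le_toReal (hfin a b)]
    calc ENNReal.ofReal (b - a) = ∫⁻ t in Set.Ioc a b, 1 := by simp
      _ ≤ ∫⁻ t in Set.Ioc a b, Mt t := by
        apply MeasureTheory.lintegral_mono
        intro t
        exact hM1 _
  set H : ℝ → ℝ := fun t => ∫ x in (0:ℝ)..t, m x with hH
  have hHsub : ∀ a b : ℝ, H b - H a = ∫ t in a..b, m t := by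
    intro a b
    simp only [hH]
    rw [intervalIntegral.integral_interval_sub_left (hint 0 b) (hint 0 a)]
  have hHc : Continuous H := intervalIntegral.continuous_primitive hint 0
  have hH0 : H 0 = 0 := by simp [hH]
  set c : ℝ := H 1 with hc
  have hc1 : 1 ≤ c := by
    have := hlow 0 1 zero_le_one
    rw [← hHsub, hH0] at this
    linarith
  have hcpos : 0 < c := by linarith
  have hHp : ∀ t, H (t + 1) = H t + c := by
    intro t
    have h1 := hper.intervalIntegral_add_eq t 0
    rw [zero_add, ← hHsub, ← hHsub, hH0] at h1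
    linarith
  set g : ℝ → ℝ := fun t => H t / c with hg
  have hgmono : StrictMono g := by
    intro a b hab
    have h1 := hlow a b hab.le
    rw [← hHsub] at h1
    simp only [hg]
    apply div_lt_div_of_pos_right _ hcpos
    linarith
  have hgc : Continuous g := hHc.div_const c
  have hgsurj : Function.Surjective g := by
    apply hgc.surjective
    · apply Filter.tendsto_atTop_mono' Filter.atTop
        (f₁ := fun t => t / c) _ (Filter.tendsto_id.atTop_div_const hcpos)
      filter_upwards [Filter.eventually_ge_atTop (0:ℝ)] with t ht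
      have h1 := hlow 0 t ht
      rw [← hHsub, hH0] at h1
      simp only [hg]
      apply div_le_div_of_nonneg_right _ hcpos.le
      linarith
    · refine Filter.tendsto_atBot_mono' Filter.atBot
        (f₁ := fun t => t / c) ?_ (Filter.Tendsto.atBot_div_const hcpos Filter.tendsto_id)
      filter_upwards [Filter.eventually_le_atBot (0:ℝ)] with t ht
      have h1 := hlow t 0 ht
      rw [← hHsub, hH0] at h1
      simp only [hg]
      apply div_le_div_of_nonneg_right _ hcpos.le
      linarith
  set e : ℝ ≃o ℝ := hgmono.orderIsoOfSurjective g hgsurj with he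
  have hecoe : ∀ x, e x = g x := fun x => rfl
  have hep : ∀ x, e (x + 1) = e x + 1 := by
    intro x
    rw [hecoe, hecoe]
    simp only [hg]
    rw [hHp, add_div, div_self hcpos.ne']
  obtain ⟨h, hh, hhs⟩ := exists_homeo e hep
  refine ⟨h, ?_⟩
  intro s hs
  obtain ⟨F, hFc, hFd, hFs, hFD⟩ := hD s hs
  have hFdiff : Differentiable ℝ F := hFc.differentiable one_ne_zero
  have hFinj : Function.Injective F := by
    have key : ∀ a b : ℝ, a < b → F a ≠ F b := by
      intro a b hab hF
      obtain ⟨z, _, hz⟩ := exists_deriv_eq_zero hab hFdiff.continuous.continuousOn hF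
      exact hFd z hz
    intro a b hab
    rcases lt_trichotomy a b with h1 | h1 | h1
    · exact absurd hab (key a b h1)
    · exact h1
    · exact absurd hab.symm (key b a h1)
  -- the main estimate
  have hmain : ∀ a b : ℝ, a ≤ b → |g (F a) - g (F b)| ≤ K * |g a - g b| := by
    intro a b hab
    have hIcc : Set.Icc a b = Set.uIcc a b := (Set.uIcc_of_le hab).symm
    have hsub : Set.uIoc (F a) (F b) ⊆ F '' Set.Icc a b := by
      intro y hy
      have := intermediate_value_uIcc (a := a) (b := b) (f := F) hFdiff.continuous.continuousOn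
      rw [hIcc]
      exact this (Set.uIoc_subset_uIcc hy)
    have h1 : ∫⁻ t in Set.uIoc (F a) (F b), Mt t ≤ K * ∫⁻ t in Set.Ioc a b, Mt t := by
      calc ∫⁻ t in Set.uIoc (F a) (F b), Mt t ≤ ∫⁻ t in F '' Set.Icc a b, Mt t :=
            MeasureTheory.lintegral_mono_set hsub
        _ = ∫⁻ t in Set.Icc a b, ENNReal.ofReal (|deriv F t|) * Mt (F t) :=
            MeasureTheory.lintegral_image_eq_lintegral_abs_deriv_mul measurableSet_Icc
              (fun x _ => (hFdiff x).hasDerivAt.hasDerivWithinAt) hFinj.injOn Mt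
        _ ≤ ∫⁻ t in Set.Icc a b, K * Mt t := by
            apply MeasureTheory.lintegral_mono
            intro t
            have := hMS s hs (t : Circ)
            rw [hFs, hFD] at this
            exact this
        _ = K * ∫⁻ t in Set.Icc a b, Mt t := MeasureTheory.lintegral_const_mul _ hMtm
        _ = K * ∫⁻ t in Set.Ioc a b, Mt t := by
            rw [MeasureTheory.setLIntegral_congr MeasureTheory.Ioc_ae_eq_Icc]
    have h2 : ∀ p q : ℝ, |g p - g q| = (∫⁻ t in Set.uIoc p q, Mt t).toReal / c := by
      intro p q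
      simp only [hg]
      rw [← sub_div, abs_div, abs_of_pos hcpos]
      congr 1
      rcases le_total p q with hpq | hpq
      · rw [Set.uIoc_of_le hpq, ← hkey p q hpq, abs_sub_comm, ← hHsub]
        apply abs_of_nonneg
        have := hlow p q hpq
        rw [← hHsub] at this
        linarith
      · rw [Set.uIoc_of_ge hpq, ← hkey q p hpq, ← hHsub]
        apply abs_of_nonneg
        have := hlow q p hpq
        rw [← hHsub] at this
        linarith
    rw [h2, h2, ← mul_div_assoc]
    apply div_le_div_of_nonneg_right _ hcpos.le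
    have h3 := ENNReal.toReal_mono (ENNReal.mul_ne_top ENNReal.coe_ne_top (hfin a b)) h1
    rw [ENNReal.toReal_mul] at h3
    rw [Set.uIoc_of_le hab]
    simpa using h3
  have hmain' : ∀ a b : ℝ, |g (F a) - g (F b)| ≤ K * |g a - g b| := by
    intro a b
    rcases le_total a b with hab | hab
    · exact hmain a b hab
    · rw [abs_sub_comm, abs_sub_comm (g a)]
      exact hmain b a hab
  apply LipschitzWith.of_dist_le_mul
  intro x y
  -- representatives
  obtain ⟨u, rfl⟩ := QuotientAddGroup.mk_surjective x
  obtain ⟨w, hw⟩ := QuotientAddGroup.mk_surjective ((u : Circ) - y)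
  set w' : ℝ := w - round w with hw'
  have hw1 : ((w' : ℝ) : Circ) = (u : Circ) - y := by
    rw [← hw, hw', AddCircle.coe_sub]
    have : ((round w : ℝ) : Circ) = 0 := by
      have := (AddCircle.coe_eq_zero_iff (1:ℝ) (x := (round w : ℝ))).2 ⟨round w, by simp⟩
      exact this
    rw [this, sub_zero]
  have hw2 : ‖(u : Circ) - y‖ = |w'| := by
    rw [← hw1]
    rw [AddCircle.norm_coe_eq_abs_iff _ one_ne_zero]
    rw [hw', abs_one]
    exact abs_sub_round w
  set v : ℝ := u - w' with hv
  have hy : y = (v : Circ) := by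
    rw [hv, AddCircle.coe_sub, hw1]; abel
  subst hy
  have hx1 : ((QuotientAddGroup.mk u : Circ)) = (u : Circ) := rfl
  rw [hx1]
  rw [dist_eq_norm, dist_eq_norm, hw2]
  show ‖h (s (h.symm (u : Circ))) - h (s (h.symm (v : Circ)))‖ ≤ _
  rw [hhs, hhs, hFs, hFs, hh, hh, ← AddCircle.coe_sub]
  have h5 : |w'| = |g (e.symm u) - g (e.symm v)| := by
    rw [← hecoe, ← hecoe, e.apply_symm_apply, e.apply_symm_apply, hv]
    congr 1; ring
  rw [h5]
  refine le_trans ?_ (hmain' (e.symm u) (e.symm v))
  rw [hecoe, hecoe]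
  rw [AddCircle.norm_eq]
  simp only [inv_one, one_mul, mul_one]
  exact round_le (g (F (e.symm u)) - g (F (e.symm v))) 0 |>.trans (by simp)


end Pool.Agent.Helper320.LC.JC
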