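import Pool.Agent.Helper320.LCDefs

set_option autoImplicit false
open MeasureTheory

namespace Pool.Agent.Helper320.LC.JD


theorem circ_dist_le_half (x y : Circ) : dist x y ≤ 1 / 2 := by
  rw [dist_eq_norm]
  have h := AddCircle.norm_le_half_period (p := (1:ℝ)) one_ne_zero (x := x - y)
  simpa using h

theorem dyadic_pointwise (L : ℕ) (m d : ℝ) (hm : (1/2 : ℝ) ^ (L + 1) ≤ m) (hd : d ≤ m)
    (hd1 : d ≤ 1) :
    1 / m ≤ ∑ l ∈ Finset.range (L + 1), if d ≤ (1/2 : ℝ) ^ l then (2:ℝ) ^ (l + 1) else 0 := by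
  induction L with
  | zero =>
    have hmpos : 0 < m := lt_of_lt_of_le (by positivity) hm
    simp only [zero_add, Finset.range_one, Finset.sum_singleton, pow_zero, hd1, if_true, pow_one]
    rw [div_le_iff₀ hmpos]
    norm_num at hm
    linarith
  | succ L ih =>
    rw [Finset.sum_range_succ]
    by_cases h : (1/2 : ℝ) ^ (L + 1) ≤ m
    · have := ih h
      have h2 : (0:ℝ) ≤ if d ≤ (1/2 : ℝ) ^ (L+1) then (2:ℝ) ^ (L + 1 + 1) else 0 := by
        split_ifs <;> positivity
      linarith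
    · push Not at h
      have hmpos : 0 < m := lt_of_lt_of_le (by positivity) hm
      have hd2 : d ≤ (1/2 : ℝ) ^ (L+1) := hd.trans h.le
      rw [if_pos hd2]
      have hnn : (0:ℝ) ≤ ∑ l ∈ Finset.range (L + 1), if d ≤ (1/2 : ℝ) ^ l then (2:ℝ) ^ (l + 1) else 0 := by
        apply Finset.sum_nonneg
        intro i _
        split_ifs <;> positivity
      have h3 : 1 / m ≤ (2:ℝ) ^ (L + 1 + 1) := by
        rw [div_le_iff₀ hmpos]
        calc (1:ℝ) = (2:ℝ) ^ (L+1+1) * (1/2 : ℝ) ^ (L + 1 + 1) := by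
              rw [← mul_pow]; norm_num
          _ ≤ (2:ℝ) ^ (L+1+1) * m := by gcongr
      linarith

/-- JOB D, part 1. -/
theorem lint_inv_dist (Q : Circ) (τ : ℝ) (L : ℕ) (hτ : (1/2 : ℝ) ^ (L + 1) ≤ τ) :
    ∫⁻ x : Circ, ENNReal.ofReal (1 / max (dist x Q) τ) ≤ ENNReal.ofReal (4 * (L + 1)) := by
  have hpt : ∀ x : Circ, ENNReal.ofReal (1 / max (dist x Q) τ) ≤
      ∑ l ∈ Finset.range (L + 1), (Metric.closedBall Q ((1/2 : ℝ) ^ l)).indicator
        (fun _ => ENNReal.ofReal ((2:ℝ) ^ (l + 1))) x := by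
    intro x
    have h1 := dyadic_pointwise L (max (dist x Q) τ) (dist x Q) (hτ.trans (le_max_right _ _))
      (le_max_left _ _) ((circ_dist_le_half x Q).trans (by norm_num))
    refine (ENNReal.ofReal_le_ofReal h1).trans ?_
    rw [ENNReal.ofReal_sum_of_nonneg (fun i _ => by split_ifs <;> positivity)]
    apply Finset.sum_le_sum
    intro l _
    by_cases hl : dist x Q ≤ (1/2 : ℝ) ^ l
    · rw [if_pos hl, Set.indicator_of_mem (by simpa [Metric.mem_closedBall] using hl)]
    · rw [if_neg hl]; simp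
  calc ∫⁻ x : Circ, ENNReal.ofReal (1 / max (dist x Q) τ)
      ≤ ∫⁻ x : Circ, ∑ l ∈ Finset.range (L + 1), (Metric.closedBall Q ((1/2 : ℝ) ^ l)).indicator
        (fun _ => ENNReal.ofReal ((2:ℝ) ^ (l + 1))) x := lintegral_mono hpt
    _ = ∑ l ∈ Finset.range (L + 1), ∫⁻ x : Circ, (Metric.closedBall Q ((1/2 : ℝ) ^ l)).indicator
        (fun _ => ENNReal.ofReal ((2:ℝ) ^ (l + 1))) x := by
        rw [lintegral_finsetSum]
        intro l _
        exact measurable_const.indicator measurableSet_closedBall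
    _ ≤ ∑ l ∈ Finset.range (L + 1), ENNReal.ofReal 4 := by
        apply Finset.sum_le_sum
        intro l _
        rw [lintegral_indicator measurableSet_closedBall, setLIntegral_const,
          AddCircle.volume_closedBall, ← ENNReal.ofReal_mul (by positivity)]
        apply ENNReal.ofReal_le_ofReal
        calc (2:ℝ) ^ (l+1) * min 1 (2 * (1/2 : ℝ) ^ l) ≤ (2:ℝ) ^ (l+1) * (2 * (1/2 : ℝ) ^ l) := by
              gcongr; exact min_le_right _ _
          _ = 4 * ((2:ℝ) ^ l * (1/2 : ℝ) ^ l) := by ring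
          _ = 4 := by rw [← mul_pow]; norm_num
    _ = ENNReal.ofReal (4 * (L + 1)) := by
        rw [Finset.sum_const, Finset.card_range, nsmul_eq_mul, mul_comm (4:ℝ),
          ENNReal.ofReal_mul (by positivity)]
        congr 1
        rw [show ((L:ℝ) + 1) = ((L + 1 : ℕ) : ℝ) by push_cast; ring, ENNReal.ofReal_natCast]

theorem kappa_pt (z Q : Circ) (r τ : ℝ) (hτ : 0 < τ) (h1 : τ ≤ r) (h2 : r ≤ 1/2) :
    ENNReal.ofReal (min 1 (r / dist z Q)) ≤
      ENNReal.ofReal (3/2) * ∫⁻ x in Metric.ball z (r/2), ENNReal.ofReal (1 / max (dist x Q) τ) := by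
  have hr : 0 < r := hτ.trans_le h1
  set M := max (dist z Q) r with hM
  have hMpos : 0 < M := lt_of_lt_of_le hr (le_max_right _ _)
  have hlow : ENNReal.ofReal (2/3 / M) * ENNReal.ofReal r ≤
      ∫⁻ x in Metric.ball z (r/2), ENNReal.ofReal (1 / max (dist x Q) τ) := by
    have hvol : volume (Metric.ball z (r/2)) = ENNReal.ofReal r := by
      have hcb : volume (Metric.closedBall z (r/2)) = ENNReal.ofReal r := by
        rw [AddCircle.volume_closedBall]
        congr 1
        rw [min_eq_right] <;> linarith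
      rw [← hcb]
      exact measure_congr AddCircle.closedBall_ae_eq_ball.symm
    rw [← hvol, ← setLIntegral_const]
    apply setLIntegral_mono' measurableSet_ball
    intro x hx
    apply ENNReal.ofReal_le_ofReal
    have hx' : dist x z < r / 2 := hx
    have hd : dist x Q ≤ dist x z + dist z Q := dist_triangle _ _ _
    have hle1 : dist z Q ≤ M := le_max_left _ _
    have hle2 : r ≤ M := le_max_right _ _
    have hmax : max (dist x Q) τ ≤ 3/2 * M := by
      apply max_le <;> linarith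
    have hmaxpos : 0 < max (dist x Q) τ := lt_of_lt_of_le hτ (le_max_right _ _)
    rw [div_div, div_le_div_iff₀ (by positivity) hmaxpos]
    linarith
  calc ENNReal.ofReal (min 1 (r / dist z Q)) ≤ ENNReal.ofReal (3/2) * (ENNReal.ofReal (2/3 / M) * ENNReal.ofReal r) := by
        rw [← ENNReal.ofReal_mul (by positivity), ← ENNReal.ofReal_mul (by positivity)]
        apply ENNReal.ofReal_le_ofReal
        have e : (3/2 : ℝ) * (2/3 / M * r) = r / M := by field_simp
        rw [e]
        rcases le_total (dist z Q) r with h | h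
        · rw [hM, max_eq_right h, div_self hr.ne']
          exact min_le_left _ _
        · rw [hM, max_eq_left h]
          exact min_le_right _ _
    _ ≤ _ := by gcongr

/-- JOB D, part 2. -/
theorem sum_kappa (E : Finset Circ) (ρ : Circ → ℝ) (τ : ℝ) (L : ℕ)
    (hτ : (1/2 : ℝ) ^ (L + 1) ≤ τ) (hρ : ∀ z ∈ E, τ ≤ ρ z ∧ ρ z ≤ 1/2)
    (hsep : ∀ z ∈ E, ∀ z' ∈ E, z ≠ z' → ρ z ≤ dist z z') (Q : Circ) :
    ∑ z ∈ E, min 1 (ρ z / dist z Q) ≤ 6 * (L + 1) := by
  have hτ0 : 0 < τ := lt_of_lt_of_le (by positivity) hτ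
  have hnn : ∀ z ∈ E, 0 ≤ min 1 (ρ z / dist z Q) := by
    intro z hz
    have := (hρ z hz).1
    have h0 : 0 ≤ ρ z := hτ0.le.trans this
    exact le_min zero_le_one (by positivity)
  rw [← ENNReal.ofReal_le_ofReal_iff (by positivity), ENNReal.ofReal_sum_of_nonneg hnn]
  have hdisj : (E : Set Circ).PairwiseDisjoint (fun z => Metric.ball z (ρ z / 2)) := by
    intro z hz z' hz' hne
    apply Metric.ball_disjoint_ball
    have h1 := hsep z hz z' hz' hne
    have h2 := hsep z' hz' z hz hne.symm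
    rw [dist_comm] at h2
    linarith
  calc ∑ z ∈ E, ENNReal.ofReal (min 1 (ρ z / dist z Q))
      ≤ ∑ z ∈ E, ENNReal.ofReal (3/2) * ∫⁻ x in Metric.ball z (ρ z/2), ENNReal.ofReal (1 / max (dist x Q) τ) := by
        apply Finset.sum_le_sum
        intro z hz
        exact kappa_pt z Q (ρ z) τ hτ0 (hρ z hz).1 (hρ z hz).2
    _ = ENNReal.ofReal (3/2) * ∫⁻ x in ⋃ z ∈ E, Metric.ball z (ρ z/2), ENNReal.ofReal (1 / max (dist x Q) τ) := by
        rw [lintegral_biUnion_finset hdisj (fun z _ => measurableSet_ball), Finset.mul_sum]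
    _ ≤ ENNReal.ofReal (3/2) * ∫⁻ x : Circ, ENNReal.ofReal (1 / max (dist x Q) τ) := by
        gcongr
        exact Measure.restrict_le_self
    _ ≤ ENNReal.ofReal (3/2) * ENNReal.ofReal (4 * (L + 1)) := by
        gcongr
        exact lint_inv_dist Q τ L hτ
    _ = ENNReal.ofReal (6 * (L + 1)) := by
        rw [← ENNReal.ofReal_mul (by positivity)]
        congr 1
        ring


end Pool.Agent.Helper320.LC.JD
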