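import Pool.Agent.Helper320.LCDens

set_option autoImplicit false

namespace Pool.Agent.Helper320.LC

/-- The circle homeomorphism `f` preserves the orientation: it has an increasing lift. -/
def OrPres (f : Circ ≃ₜ Circ) : Prop :=
  ∃ F : ℝ → ℝ, Continuous F ∧ StrictMono F ∧ ∀ x : ℝ, f (x : Circ) = (F x : Circ)

/-- `f` has a monotone lift. -/
def HasMonoLift (f : Circ ≃ₜ Circ) : Prop :=
  ∃ F : ℝ → ℝ, Continuous F ∧ (StrictMono F ∨ StrictAnti F) ∧
    ∀ x : ℝ, f (x : Circ) = (F x : Circ)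

lemma hasMonoLift_of_C1 {f : Circ ≃ₜ Circ} (hf : IsC1Diffeo f) : HasMonoLift f := by
  obtain ⟨F, hF, hne, hl⟩ := hf
  refine ⟨F, hF.continuous, ?_, hl⟩
  have hcont : Continuous (deriv F) := hF.continuous_deriv le_rfl
  by_cases h : 0 < deriv F 0
  · left
    apply strictMono_of_deriv_pos
    intro x
    by_contra hx
    push Not at hx
    obtain ⟨y, hy⟩ : (0:ℝ) ∈ Set.range (deriv F) :=
      mem_range_of_exists_le_of_exists_ge hcont ⟨x, hx⟩ ⟨0, h.le⟩
    exact hne y hy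
  · right
    apply strictAnti_of_deriv_neg
    intro x
    by_contra hx
    push Not at hx h
    obtain ⟨y, hy⟩ : (0:ℝ) ∈ Set.range (deriv F) :=
      mem_range_of_exists_le_of_exists_ge hcont ⟨0, h⟩ ⟨x, hx⟩
    exact hne y hy

lemma hasMonoLift_mul {f g : Circ ≃ₜ Circ} (hf : HasMonoLift f) (hg : HasMonoLift g) :
    HasMonoLift (f * g) := by
  obtain ⟨F, hF, hF2, hFl⟩ := hf
  obtain ⟨H, hH, hH2, hHl⟩ := hg
  refine ⟨F ∘ H, hF.comp hH, ?_, fun x => ?_⟩
  · rcases hF2 with h | h <;> rcases hH2 with h' | h'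
    · exact Or.inl (h.comp h')
    · exact Or.inr (h.comp_strictAnti h')
    · exact Or.inr (h.comp_strictMono h')
    · exact Or.inl (h.comp h')
  · show f (g (x : Circ)) = _
    rw [hHl, hFl]
    rfl

lemma hasMonoLift_of_mem {S : Set (Circ ≃ₜ Circ)} (hsym : ∀ s ∈ S, s⁻¹ ∈ S)
    (hC1 : ∀ s ∈ S, IsC1Diffeo s) {g : Circ ≃ₜ Circ} (hg : g ∈ Subgroup.closure S) :
    HasMonoLift g := by
  induction hg using Subgroup.closure_induction'' with
  | mem x hx => exact hasMonoLift_of_C1 (hC1 x hx)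
  | inv_mem x hx => exact hasMonoLift_of_C1 (hC1 _ (hsym x hx))
  | one => exact ⟨id, continuous_id, Or.inl strictMono_id, fun x => rfl⟩
  | mul x y hx hy ihx ihy => exact hasMonoLift_mul ihx ihy

lemma orPres_sq {u : Circ ≃ₜ Circ} (hu : HasMonoLift u) : OrPres (u * u) := by
  obtain ⟨F, hF, hF2, hFl⟩ := hu
  refine ⟨F ∘ F, hF.comp hF, ?_, fun x => ?_⟩
  · rcases hF2 with h | h
    · exact h.comp h
    · exact h.comp h
  · show u (u (x : Circ)) = _
    rw [hFl, hFl]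
    rfl

/-- Groups of `C^1` circle diffeomorphisms whose orientation preserving elements form no
resilient pair have small Lipschitz conjugates. -/
theorem main_robust (S : Set (Circ ≃ₜ Circ)) (hfin : S.Finite) (hsym : ∀ s ∈ S, s⁻¹ ∈ S)
    (hC1 : ∀ s ∈ S, IsC1Diffeo s)
    (hres : ¬ JA.HasPairIn {g | g ∈ Subgroup.closure S ∧ OrPres g})
    (ε : ℝ) (hε : 0 < ε) :
    ∃ h : Circ ≃ₜ Circ, ∀ s ∈ S,
      LipschitzWith (Real.toNNReal (Real.exp ε)) (fun x => h (s (h.symm x))) := by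
  rcases S.eq_empty_or_nonempty with hS | hS
  · exact ⟨Homeomorph.refl Circ, fun s hs => by rw [hS] at hs; exact absurd hs (Set.notMem_empty s)⟩
  obtain ⟨D, hD, hcont, ⟨A, hA, hAb⟩, hest⟩ := JB.exists_deriv S hfin hC1
  have hB : Base S D A := ⟨hsym, hA, fun s hs x => (hAb s hs x).1, fun s hs x => (hAb s hs x).2⟩
  have hNR : ∀ r : ℝ, 0 < r → r < 1/4 → NoRes (Subgroup.closure S) r := by
    intro r hr hr2 p q g hg hgp hq hqp H
    apply hres
    obtain ⟨f, ⟨u, hu, rfl⟩, g', ⟨v, hv, rfl⟩, hrest⟩ :=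
      JA.resilient_of_sq hr hr2 g hg hgp hq hqp H
    exact ⟨u * u, ⟨Subgroup.mul_mem _ hu hu, orPres_sq (hasMonoLift_of_mem hsym hC1 hu)⟩,
      v * v, ⟨Subgroup.mul_mem _ hv hv, orPres_sq (hasMonoLift_of_mem hsym hC1 hv)⟩, hrest⟩
  obtain ⟨M, hMm, hM1, hMfin, hMS⟩ := exists_density hS hB hcont hest hNR hε
  exact JC.conj_of_density S D hD M hMm hM1 hMfin (Real.toNNReal (Real.exp ε)) hMS

/-- Groups of `C^1` circle diffeomorphisms without resilient pairs have small Lipschitz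
conjugates. -/
theorem main (S : Set (Circ ≃ₜ Circ)) (hfin : S.Finite) (hsym : ∀ s ∈ S, s⁻¹ ∈ S)
    (hC1 : ∀ s ∈ S, IsC1Diffeo s) (hres : ¬ HasResilientPair (Subgroup.closure S))
    (ε : ℝ) (hε : 0 < ε) :
    ∃ h : Circ ≃ₜ Circ, ∀ s ∈ S,
      LipschitzWith (Real.toNNReal (Real.exp ε)) (fun x => h (s (h.symm x))) := by
  apply main_robust S hfin hsym hC1 _ ε hε
  rintro ⟨f, hf, g, hg, h⟩
  exact hres ⟨f, hf.1, g, hg.1, h⟩

end Pool.Agent.Helper320.LC
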