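import Pool.Agent.Helper320.LCOrb

set_option autoImplicit false
open Filter Topology

namespace Pool.Agent.Helper320.LC

variable {S : Set (Circ ≃ₜ Circ)} {D : (Circ ≃ₜ Circ) → Circ → ℝ} {A : ℝ}
variable {ε' σ δ : ℝ} {e : ℕ → ℝ}

/-- Markers of points with a large derivative. -/
theorem marker (hC : Cst S D A ε' σ δ e) (hδ1 : δ ≤ 1) (hε' : 0 ≤ ε')
    (hN : NoRes (Subgroup.closure S) (δ / 2)) {η' C0 : ℝ} (hη' : 0 ≤ η') (hC0 : 0 ≤ C0)
    (hE : ∀ m : ℕ, Es e m ≤ C0 + η' * m) {Q0 : ℕ}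
    (hQ : ∀ (a : ℕ → (Circ ≃ₜ Circ)), (∀ j, a j ∈ S) → ∀ (x : Circ) (N : ℕ) (B : Finset ℕ),
      (∀ j ∈ B, Good D ε' a x N j ∧ ¬ Capd S δ (fl a j x)) → B.card ≤ Q0)
    (hinv : ∀ s ∈ S, ∀ x, Real.log (D s⁻¹ (s x)) = -Real.log (D s x))
    {ε : ℝ} (hεε' : ε' ≤ ε) {T1 : ℕ} (hT1 : A * Q0 < (ε - ε') * T1)
    {N : ℕ} (hNT : T1 ≤ N) {E : Finset Circ}
    (hEm : ∀ z, (∃ p, Att (Subgroup.closure S) (δ / 2) p ∧ ∃ h ∈ Subgroup.closure S, h p = z) →
      δ / 2 * Real.exp (-(A + 3 * η') * N - 3 * C0) ≤ isoR (Subgroup.closure S) z → z ∈ E)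
    {k : ℕ} (hk : (att_finite (half_pos hC.δ_pos) hN).toFinset.card ≤ k)
    {a : ℕ → (Circ ≃ₜ Circ)} (ha : ∀ j, a j ∈ S) {x : Circ}
    (hmax : ∀ t ≤ N, Ls D a x t - ε * t ≤ Ls D a x N - ε * N) :
    ∃ z ∈ E, (δ / 2 * Real.exp (-4 * C0 - A * (1 + Q0) - 4 * η' * N)) ^ k *
        Real.exp (-ε' * N) ≤ Om (Subgroup.closure S) E k z ∧
      Real.exp (Ls D a x N) * max (dist x z) (Real.exp (-A * N)) ≤
        Real.exp (A * T1 + C0 + η' * N) := by
  classical
  have hA := hC.base.A_pos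
  have hδ := hC.δ_pos
  set b := rv a N with hb
  set y := fl a N x with hy
  have hbm : ∀ j, b j ∈ S := rv_mem hC.base.sym ha N
  have hLb : ∀ j ≤ N, Ls D b y j ≤ -ε * j := by
    intro j hj
    rw [hb, hy, Ls_rv hinv ha N x hj]
    have h1 := hmax (N - j) (by omega)
    rw [Nat.cast_sub hj] at h1
    linarith
  have hNG : Good D ε' b y N N := good_iff.2 ⟨le_rfl, fun i hi hi2 => by
    have : i = N := le_antisymm hi2 hi
    rw [this]⟩
  obtain ⟨r, hrT, hrG, hrC⟩ : ∃ r, r < T1 ∧ Good D ε' b y N r ∧ Capd S δ (fl b r y) := by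
    by_contra hcon
    push Not at hcon
    have hex : ∃ r, T1 ≤ r ∧ Good D ε' b y N r := ⟨N, hNT, hNG⟩
    obtain ⟨hr1, hr2⟩ := Nat.find_spec hex
    set r := Nat.find hex with hr
    let Gd := (Finset.range T1).filter (fun j => Good D ε' b y N j)
    have h1 := drop hC.base hε' hbm hr2 Gd r 0 (by omega)
      (fun j _ hj2 hj3 => Finset.mem_filter.2 ⟨Finset.mem_range.2 (by
        by_contra h
        push Not at h
        have := Nat.find_min' hex ⟨h, hj3⟩
        omega), hj3⟩) 0 le_rfl (Nat.zero_le _)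
    have h2 : (Gd.filter (fun j => 0 ≤ j)).card ≤ Q0 := by
      apply hQ b hbm y N
      intro j hj
      rw [Finset.mem_filter, Finset.mem_filter, Finset.mem_range] at hj
      exact ⟨hj.1.2, hcon j hj.1.1 hj.1.2⟩
    have h3 : ((Gd.filter (fun j => 0 ≤ j)).card : ℝ) ≤ Q0 := by exact_mod_cast h2
    have h4 := hLb r hr2.1
    have h5 : (T1 : ℝ) ≤ r := by exact_mod_cast hr1
    have h6 := mul_le_mul_of_nonneg_left h3 hA.le
    have h7 : (ε - ε') * T1 ≤ (ε - ε') * r := mul_le_mul_of_nonneg_left h5 (by linarith)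
    rw [Ls_zero] at h1
    push_cast at h1
    linarith
  obtain ⟨p, hpA, hpd⟩ := hrC
  have hrN := hrG.1
  obtain ⟨hzE, hOm⟩ := chain hC hδ1 hε' hN hη' hC0 hE hQ hEm hbm (x := y) k
    (att_finite (half_pos hC.δ_pos) hN).toFinset hk r hrG p
    ((att_finite (half_pos hC.δ_pos) hN).mem_toFinset.2 hpA) hpA hpd
    (fun j _ _ p' hp' _ => (att_finite (half_pos hC.δ_pos) hN).mem_toFinset.2 hp')
  refine ⟨_, hzE, le_trans ?_ hOm, ?_⟩
  · apply mul_le_mul_of_nonneg_left _ (by positivity)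
    apply Real.exp_le_exp.2
    have : (0:ℝ) ≤ r := by positivity
    nlinarith
  · set z := fl (sh b r) (N - r) p with hz
    have hx : fl (sh b r) (N - r) (fl b r y) = x := by
      rw [← fl_add_apply, show r + (N - r) = N by omega, hb, hy, fl_rv a N x le_rfl]
      simp
    have h1 := contr1 hC (sh_mem hbm r) hrG.2 (z := p) (by rw [dist_comm]; linarith)
      (m := N - r) le_rfl
    rw [hx] at h1
    have h2 := Ls_add D b y r (N - r)
    rw [show r + (N - r) = N by omega] at h2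
    have h3 : Ls D b y N = -Ls D a x N := by
      rw [hb, hy, Ls_rv hinv ha N x le_rfl]
      simp
    have h4 := Ls_lb hC.base hbm y r
    have h5 := hE (N - r)
    rw [Nat.cast_sub hrN] at h5
    have hr0 : (0:ℝ) ≤ r := by positivity
    have hrT' : (r:ℝ) ≤ T1 := by exact_mod_cast hrT.le
    have hpy : dist p (fl b r y) ≤ 1 := by rw [dist_comm]; linarith
    have h6 : dist x z ≤ Real.exp (-Ls D a x N + A * T1 + C0 + η' * N) := by
      rw [dist_comm]
      refine h1.trans ?_
      calc _ ≤ Real.exp (Ls D (sh b r) (fl b r y) (N - r) + Es e (N - r)) * 1 :=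
            mul_le_mul_of_nonneg_left hpy (Real.exp_pos _).le
        _ ≤ _ := by
          rw [mul_one]
          apply Real.exp_le_exp.2
          have := mul_le_mul_of_nonneg_left hrT' hA.le
          have := mul_nonneg hη' hr0
          nlinarith
    have h7 : Real.exp (Ls D a x N) * dist x z ≤ Real.exp (A * T1 + C0 + η' * N) := by
      calc _ ≤ Real.exp (Ls D a x N) * Real.exp (-Ls D a x N + A * T1 + C0 + η' * N) :=
            mul_le_mul_of_nonneg_left h6 (Real.exp_pos _).le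
        _ = _ := by
          rw [← Real.exp_add]
          congr 1
          ring
    have h8 : Real.exp (Ls D a x N) * Real.exp (-A * N) ≤ Real.exp (A * T1 + C0 + η' * N) := by
      rw [← Real.exp_add]
      apply Real.exp_le_exp.2
      have h9 := Ls_ub hC.base ha x N
      have : (0:ℝ) ≤ A * T1 := by positivity
      have : (0:ℝ) ≤ η' * N := by positivity
      linarith
    rw [mul_max_of_nonneg _ _ (Real.exp_pos _).le]
    exact max_le h7 h8

/-- The dominating function at time `N`. -/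
noncomputable def FN (G : Subgroup (Circ ≃ₜ Circ)) (W A : ℝ) (k N : ℕ) (E : Finset Circ)
    (x : Circ) : ℝ := W * ∑ z ∈ E, Om G E k z * (1 / max (dist x z) (Real.exp (-A * N)))

lemma FN_int {G : Subgroup (Circ ≃ₜ Circ)} {W A : ℝ} (hW : 0 ≤ W) (k N L : ℕ) (E : Finset Circ)
    (hL : (1/2 : ℝ) ^ (L + 1) ≤ Real.exp (-A * N)) {K : ℝ}
    (hK : ∀ Q : Circ, ∑ z ∈ E, kap G z Q ≤ K) :
    ∫⁻ x : Circ, ENNReal.ofReal (FN G W A k N E x) ≤
      ENNReal.ofReal (W * ((1 + K) ^ k * (4 * (L + 1)))) := by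
  have hm : ∀ z : Circ, Measurable
      (fun x : Circ => ENNReal.ofReal (1 / max (dist x z) (Real.exp (-A * N)))) := by
    intro z
    apply ENNReal.measurable_ofReal.comp
    apply Measurable.const_div
    exact ((continuous_id.dist continuous_const).max continuous_const).measurable
  have h1 : ∀ x : Circ, ENNReal.ofReal (FN G W A k N E x) =
      ∑ z ∈ E, ENNReal.ofReal (W * Om G E k z) *
        ENNReal.ofReal (1 / max (dist x z) (Real.exp (-A * N))) := by
    intro x
    unfold FN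
    rw [Finset.mul_sum, ENNReal.ofReal_sum_of_nonneg]
    · apply Finset.sum_congr rfl
      intro z _
      rw [← mul_assoc, ENNReal.ofReal_mul (mul_nonneg hW (Om_nonneg G E k z))]
    · intro z _
      have := Om_nonneg G E k z
      positivity
  simp_rw [h1]
  rw [MeasureTheory.lintegral_finsetSum]
  · have h2 : ∀ z ∈ E, ∫⁻ x : Circ, ENNReal.ofReal (W * Om G E k z) *
        ENNReal.ofReal (1 / max (dist x z) (Real.exp (-A * N))) ≤
        ENNReal.ofReal (W * Om G E k z * (4 * (L + 1))) := by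
      intro z _
      rw [MeasureTheory.lintegral_const_mul _ (hm z),
        ENNReal.ofReal_mul (mul_nonneg hW (Om_nonneg G E k z))]
      gcongr
      exact JD.lint_inv_dist z _ L hL
    refine (Finset.sum_le_sum h2).trans ?_
    rw [← ENNReal.ofReal_sum_of_nonneg]
    · apply ENNReal.ofReal_le_ofReal
      have h3 := sum_Om_le hK k
      have h4 : ∑ z ∈ E, W * Om G E k z * (4 * ((L:ℝ) + 1)) =
          W * ((∑ z ∈ E, Om G E k z) * (4 * ((L:ℝ) + 1))) := by
        rw [Finset.sum_mul, Finset.mul_sum]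
        exact Finset.sum_congr rfl fun z _ => by ring
      rw [h4]
      apply mul_le_mul_of_nonneg_left _ hW
      apply mul_le_mul_of_nonneg_right _ (by positivity)
      linarith
    · intro z _
      have := Om_nonneg G E k z
      positivity
  · intro z _
    exact (hm z).const_mul _

end Pool.Agent.Helper320.LC
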