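import Pool.Agent.Helper320.LCChain
import Pool.Agent.Helper320.LCJobA
import Pool.Agent.Helper320.LCJobB
import Pool.Agent.Helper320.LCJobC
import Pool.Agent.Helper320.LCJobD

set_option autoImplicit false
open Filter Topology

namespace Pool.Agent.Helper320.LC

/-- Orbit points of `p` with isolation radius at least `τ`. -/
def OrbE (G : Subgroup (Circ ≃ₜ Circ)) (p : Circ) (τ : ℝ) : Set Circ :=
  {z | (∃ h ∈ G, h p = z) ∧ τ ≤ isoR G z}

lemma orbE_sep {G : Subgroup (Circ ≃ₜ Circ)} {p : Circ} {τ : ℝ} {z z' : Circ}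
    (hz : z ∈ OrbE G p τ) (hz' : z' ∈ OrbE G p τ) (hne : z ≠ z') : isoR G z ≤ dist z z' := by
  obtain ⟨⟨h, hh, hz⟩, -⟩ := hz
  obtain ⟨⟨h', hh', hz'⟩, -⟩ := hz'
  have h1 : (h' * h⁻¹) z = z' := by
    rw [← hz, ← hz']
    show h' (h.symm (h p)) = h' p
    rw [h.symm_apply_apply]
  have := isoR_le (G := G) (z := z) (Subgroup.mul_mem _ hh' (Subgroup.inv_mem _ hh))
    (by rw [h1]; exact hne.symm)
  rw [h1, dist_comm] at this
  exact this

lemma orbE_finite (G : Subgroup (Circ ≃ₜ Circ)) (p : Circ) {τ : ℝ} (hτ : 0 < τ) :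
    (OrbE G p τ).Finite :=
  finite_of_sep hτ fun _ hx _ hy hne => hx.2.trans (orbE_sep hx hy hne)

lemma sum_biUnion_le' {P : Finset Circ} {F : Circ → Finset Circ} [DecidableEq Circ]
    {f : Circ → ℝ} (hf : ∀ z, 0 ≤ f z) {c : ℝ} (hF : ∀ p, ∑ z ∈ F p, f z ≤ c) :
    ∑ z ∈ P.biUnion F, f z ≤ P.card * c := by
  induction P using Finset.induction_on with
  | empty => simp
  | insert p P hp ih =>
    rw [Finset.biUnion_insert, Finset.card_insert_of_notMem hp]
    have h1 : ∑ z ∈ F p ∪ P.biUnion F, f z ≤ ∑ z ∈ F p, f z + ∑ z ∈ P.biUnion F, f z := by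
      rw [← Finset.sum_union_inter]
      have : 0 ≤ ∑ z ∈ F p ∩ P.biUnion F, f z := Finset.sum_nonneg fun z _ => hf z
      linarith
    have h2 := hF p
    push_cast
    linarith

lemma exists_E {G : Subgroup (Circ ≃ₜ Circ)} {r : ℝ} (hr : 0 < r) (hN : NoRes G r) {τ : ℝ}
    (hτ0 : 0 < τ) {L : ℕ} (hτ : (1/2 : ℝ) ^ (L + 1) ≤ τ) :
    ∃ E : Finset Circ,
      (∀ z, (∃ p, Att G r p ∧ ∃ h ∈ G, h p = z) → τ ≤ isoR G z → z ∈ E) ∧
      ∀ Q, ∑ z ∈ E, kap G z Q ≤ (att_finite hr hN).toFinset.card * (7 * (L + 1)) := by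
  classical
  refine ⟨(att_finite hr hN).toFinset.biUnion (fun p => (orbE_finite G p hτ0).toFinset), ?_, ?_⟩
  · rintro z ⟨p, hp, h, hh, hz⟩ hτz
    rw [Finset.mem_biUnion]
    exact ⟨p, (att_finite hr hN).mem_toFinset.2 hp,
      (orbE_finite G p hτ0).mem_toFinset.2 ⟨⟨h, hh, hz⟩, hτz⟩⟩
  · intro Q
    apply sum_biUnion_le' (fun z => kap_nonneg G z Q)
    intro p
    have h1 := JD.sum_kappa (orbE_finite G p hτ0).toFinset (isoR G) τ L hτ
      (fun z hz => ⟨((orbE_finite G p hτ0).mem_toFinset.1 hz).2, isoR_le_half G z⟩)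
      (fun z hz z' hz' hne => orbE_sep ((orbE_finite G p hτ0).mem_toFinset.1 hz)
        ((orbE_finite G p hτ0).mem_toFinset.1 hz') hne) Q
    have h2 : ∑ z ∈ (orbE_finite G p hτ0).toFinset, kap G z Q ≤
        ∑ z ∈ (orbE_finite G p hτ0).toFinset, (min 1 (isoR G z / dist z Q) +
          if z = Q then 1 else 0) := by
      apply Finset.sum_le_sum
      intro z _
      unfold kap
      split_ifs with h
      · subst h
        simp
      · simp
    rw [Finset.sum_add_distrib] at h2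
    have h3 : ∑ z ∈ (orbE_finite G p hτ0).toFinset, (if z = Q then (1:ℝ) else 0) ≤ 1 := by
      rw [Finset.sum_ite_eq']
      split_ifs <;> norm_num
    have h4 : (0:ℝ) ≤ L := by positivity
    linarith

lemma noRes_of {G : Subgroup (Circ ≃ₜ Circ)} (hG : ¬ HasResilientPair G) {r : ℝ} (hr : 0 < r)
    (hr2 : r < 1/4) : NoRes G r := by
  intro p q g hg hgp hq hqp H
  exact hG (JA.resilient_of hr hr2 g hg hgp hq hqp H)

lemma exists_near (x : Circ) {δ : ℝ} (hδ : 0 < δ) : ∃ y, y ≠ x ∧ dist x y ≤ δ := by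
  refine ⟨x + ((min δ (1/4) : ℝ) : Circ), ?_, ?_⟩
  · intro h
    have h1 : ((min δ (1/4) : ℝ) : Circ) = 0 := by
      simpa using h
    have h2 : ‖((min δ (1/4) : ℝ) : Circ)‖ = |min δ (1/4)| := by
      rw [AddCircle.norm_coe_eq_abs_iff (1:ℝ) one_ne_zero]
      rw [abs_of_pos (lt_min hδ (by norm_num))]
      have := min_le_right δ (1/4)
      norm_num
    rw [h1, norm_zero, abs_of_pos (lt_min hδ (by norm_num))] at h2
    have := lt_min hδ (show (0:ℝ) < 1/4 by norm_num)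
    linarith
  · rw [dist_eq_norm]
    have h0 : x - (x + ((min δ (1/4) : ℝ) : Circ)) = -((min δ (1/4) : ℝ) : Circ) := by abel
    rw [h0, norm_neg]
    have h2 : ‖((min δ (1/4) : ℝ) : Circ)‖ = |min δ (1/4)| := by
      rw [AddCircle.norm_coe_eq_abs_iff (1:ℝ) one_ne_zero]
      rw [abs_of_pos (lt_min hδ (by norm_num))]
      have := min_le_right δ (1/4)
      norm_num
    rw [h2, abs_of_pos (lt_min hδ (by norm_num))]
    exact min_le_left _ _

/-- Derivative of the inverse. -/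
lemma D_inv {S : Set (Circ ≃ₜ Circ)} {D : (Circ ≃ₜ Circ) → Circ → ℝ} {A : ℝ} (hB : Base S D A)
    (hest : ∀ η > 0, ∃ δ > 0, ∀ s ∈ S, ∀ x y, (dist x y ≤ δ ∨ dist (s x) (s y) ≤ δ) →
        Real.exp (-η) * D s x * dist x y ≤ dist (s x) (s y) ∧
        dist (s x) (s y) ≤ Real.exp η * D s x * dist x y) {s : Circ ≃ₜ Circ} (hs : s ∈ S)
    (x : Circ) : Real.log (D s⁻¹ (s x)) = -Real.log (D s x) := by
  have hs' := hB.sym s hs
  have hp := hB.pos hs x
  have hp' := hB.pos hs' (s x)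
  have hinv : ∀ z, s⁻¹ (s z) = z := fun z => s.symm_apply_apply z
  have key : ∀ η > 0, |Real.log (D s⁻¹ (s x)) + Real.log (D s x)| ≤ 2 * η := by
    intro η hη
    obtain ⟨δ, hδ, hδ2⟩ := hest η hη
    obtain ⟨y, hyx, hxy⟩ := exists_near x hδ
    have hd : 0 < dist x y := dist_pos.2 hyx.symm
    have h1 := hδ2 s hs x y (Or.inl hxy)
    have h2 := hδ2 s⁻¹ hs' (s x) (s y) (Or.inr (by rw [hinv, hinv]; exact hxy))
    rw [hinv, hinv] at h2
    have hprod : Real.exp (Real.log (D s⁻¹ (s x)) + Real.log (D s x)) = D s⁻¹ (s x) * D s x := by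
      rw [Real.exp_add, Real.exp_log hp, Real.exp_log hp']
    rw [abs_le]
    constructor
    · -- lower bound
      have h3 : dist x y ≤ (Real.exp η * D s⁻¹ (s x)) * (Real.exp η * D s x * dist x y) :=
        h2.2.trans (mul_le_mul_of_nonneg_left h1.2 (mul_pos (Real.exp_pos _) hp').le)
      have h4 : 1 * dist x y ≤ (Real.exp (2 * η) * (D s⁻¹ (s x) * D s x)) * dist x y := by
        rw [two_mul, Real.exp_add]
        nlinarith
      have h5 := le_of_mul_le_mul_right h4 hd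
      rw [← hprod, ← Real.exp_add] at h5
      have h6 : Real.exp 0 ≤ Real.exp (2 * η + (Real.log (D s⁻¹ (s x)) + Real.log (D s x))) := by
        rw [Real.exp_zero]; exact h5
      have := Real.exp_le_exp.1 h6
      linarith
    · have h3 : (Real.exp (-η) * D s⁻¹ (s x)) * (Real.exp (-η) * D s x * dist x y) ≤ dist x y :=
        (mul_le_mul_of_nonneg_left h1.1 (mul_pos (Real.exp_pos _) hp').le).trans h2.1
      have h4 : (Real.exp (-η + -η) * (D s⁻¹ (s x) * D s x)) * dist x y ≤ 1 * dist x y := by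
        rw [Real.exp_add]
        nlinarith
      have h5 := le_of_mul_le_mul_right h4 hd
      rw [← hprod, ← Real.exp_add] at h5
      have h6 : Real.exp (-η + -η + (Real.log (D s⁻¹ (s x)) + Real.log (D s x))) ≤ Real.exp 0 := by
        rw [Real.exp_zero]; exact h5
      have := Real.exp_le_exp.1 h6
      linarith
  have hz : |Real.log (D s⁻¹ (s x)) + Real.log (D s x)| = 0 := by
    by_contra hne
    have hpos : 0 < |Real.log (D s⁻¹ (s x)) + Real.log (D s x)| :=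
      lt_of_le_of_ne (abs_nonneg _) (Ne.symm hne)
    have := key (|Real.log (D s⁻¹ (s x)) + Real.log (D s x)| / 4) (by linarith)
    linarith
  have := abs_eq_zero.1 hz
  linarith

/-- Reversed path. -/
def rv (a : ℕ → (Circ ≃ₜ Circ)) (N : ℕ) : ℕ → (Circ ≃ₜ Circ) := fun j => (a (N - 1 - j))⁻¹

lemma rv_mem {S : Set (Circ ≃ₜ Circ)} (hS : ∀ s ∈ S, s⁻¹ ∈ S) {a : ℕ → (Circ ≃ₜ Circ)}
    (ha : ∀ j, a j ∈ S) (N : ℕ) : ∀ j, rv a N j ∈ S := fun j => hS _ (ha _)

lemma fl_rv (a : ℕ → (Circ ≃ₜ Circ)) (N : ℕ) (x : Circ) {j : ℕ} (hj : j ≤ N) :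
    fl (rv a N) j (fl a N x) = fl a (N - j) x := by
  induction j with
  | zero => simp
  | succ j ih =>
    rw [fl_succ_apply, ih (by omega)]
    have h1 : N - j = (N - (j + 1)) + 1 := by omega
    rw [h1, fl_succ_apply]
    show (a (N - 1 - j)).symm (a (N - (j + 1)) (fl a (N - (j + 1)) x)) = _
    rw [show N - 1 - j = N - (j + 1) by omega, Homeomorph.symm_apply_apply]

lemma Ls_rv {S : Set (Circ ≃ₜ Circ)} {D : (Circ ≃ₜ Circ) → Circ → ℝ}
    (hinv : ∀ s ∈ S, ∀ x, Real.log (D s⁻¹ (s x)) = -Real.log (D s x))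
    {a : ℕ → (Circ ≃ₜ Circ)} (ha : ∀ j, a j ∈ S) (N : ℕ) (x : Circ) {j : ℕ} (hj : j ≤ N) :
    Ls D (rv a N) (fl a N x) j = Ls D a x (N - j) - Ls D a x N := by
  induction j with
  | zero => simp
  | succ j ih =>
    rw [Ls_succ, ih (by omega), fl_rv a N x (by omega)]
    have h1 : N - j = (N - (j + 1)) + 1 := by omega
    rw [h1, Ls_succ, fl_succ_apply]
    have h2 : rv a N j = (a (N - (j + 1)))⁻¹ := by
      unfold rv
      rw [show N - 1 - j = N - (j + 1) by omega]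
    rw [h2, hinv _ (ha _)]
    ring

end Pool.Agent.Helper320.LC
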