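import Pool.Agent.Helper320.LCDefs

set_option autoImplicit false
open Filter Topology

namespace Pool.Agent.Helper320.LC

/-- Composition of the first `m` maps. -/
def fl (a : ℕ → (Circ ≃ₜ Circ)) : ℕ → (Circ ≃ₜ Circ)
  | 0 => 1
  | m + 1 => a m * fl a m

/-- Shifted sequence. -/
def sh (a : ℕ → (Circ ≃ₜ Circ)) (i : ℕ) : ℕ → (Circ ≃ₜ Circ) := fun l => a (i + l)

@[simp] lemma fl_zero (a : ℕ → (Circ ≃ₜ Circ)) : fl a 0 = 1 := rfl

lemma fl_succ (a : ℕ → (Circ ≃ₜ Circ)) (m : ℕ) : fl a (m + 1) = a m * fl a m := rfl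

lemma fl_succ_apply (a : ℕ → (Circ ≃ₜ Circ)) (m : ℕ) (x : Circ) :
    fl a (m + 1) x = a m (fl a m x) := rfl

lemma fl_add (a : ℕ → (Circ ≃ₜ Circ)) (i m : ℕ) : fl a (i + m) = fl (sh a i) m * fl a i := by
  induction m with
  | zero => simp
  | succ m ih =>
    rw [← add_assoc, fl_succ, ih, fl_succ, mul_assoc]
    rfl

lemma fl_add_apply (a : ℕ → (Circ ≃ₜ Circ)) (i m : ℕ) (x : Circ) :
    fl a (i + m) x = fl (sh a i) m (fl a i x) := by
  rw [fl_add]; rfl

lemma sh_sh (a : ℕ → (Circ ≃ₜ Circ)) (i j : ℕ) : sh (sh a i) j = sh a (i + j) := by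
  funext l
  simp only [sh]
  rw [add_assoc]

/-- Sum of the logarithms of the derivatives. -/
noncomputable def Ls (D : (Circ ≃ₜ Circ) → Circ → ℝ) (a : ℕ → (Circ ≃ₜ Circ)) (x : Circ)
    (m : ℕ) : ℝ := ∑ l ∈ Finset.range m, Real.log (D (a l) (fl a l x))

@[simp] lemma Ls_zero (D : (Circ ≃ₜ Circ) → Circ → ℝ) (a : ℕ → (Circ ≃ₜ Circ)) (x : Circ) :
    Ls D a x 0 = 0 := by simp [Ls]

lemma Ls_succ (D : (Circ ≃ₜ Circ) → Circ → ℝ) (a : ℕ → (Circ ≃ₜ Circ)) (x : Circ) (m : ℕ) :
    Ls D a x (m + 1) = Ls D a x m + Real.log (D (a m) (fl a m x)) := by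
  simp [Ls, Finset.sum_range_succ]

lemma Ls_add (D : (Circ ≃ₜ Circ) → Circ → ℝ) (a : ℕ → (Circ ≃ₜ Circ)) (x : Circ) (i m : ℕ) :
    Ls D a x (i + m) = Ls D a x i + Ls D (sh a i) (fl a i x) m := by
  induction m with
  | zero => simp
  | succ m ih =>
    rw [← add_assoc, Ls_succ, ih, Ls_succ, fl_add_apply]
    simp only [sh]
    ring

/-- Basic bounds. -/
structure Base (S : Set (Circ ≃ₜ Circ)) (D : (Circ ≃ₜ Circ) → Circ → ℝ) (A : ℝ) : Prop where
  sym : ∀ s ∈ S, s⁻¹ ∈ S
  A_pos : 0 < A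
  lb : ∀ s ∈ S, ∀ x, Real.exp (-A) ≤ D s x
  ub : ∀ s ∈ S, ∀ x, D s x ≤ Real.exp A

/-- Distance distortion at the scales `2 δ e^{-σ l}`. -/
def He (S : Set (Circ ≃ₜ Circ)) (D : (Circ ≃ₜ Circ) → Circ → ℝ) (δ σ : ℝ) (e : ℕ → ℝ) : Prop :=
  ∀ l : ℕ, ∀ s ∈ S, ∀ x y, (dist x y ≤ 2 * δ * Real.exp (-σ * l) ∨
      dist (s x) (s y) ≤ 2 * δ * Real.exp (-σ * l)) →
    Real.exp (-e l) * D s x * dist x y ≤ dist (s x) (s y) ∧
      dist (s x) (s y) ≤ Real.exp (e l) * D s x * dist x y

variable {S : Set (Circ ≃ₜ Circ)} {D : (Circ ≃ₜ Circ) → Circ → ℝ} {A : ℝ}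

lemma Base.pos (hB : Base S D A) {s : Circ ≃ₜ Circ} (hs : s ∈ S) (x : Circ) : 0 < D s x :=
  (Real.exp_pos _).trans_le (hB.lb s hs x)

lemma Base.log_lb (hB : Base S D A) {s : Circ ≃ₜ Circ} (hs : s ∈ S) (x : Circ) :
    -A ≤ Real.log (D s x) := by
  rw [← Real.log_exp (-A)]
  exact Real.log_le_log (Real.exp_pos _) (hB.lb s hs x)

lemma Base.log_ub (hB : Base S D A) {s : Circ ≃ₜ Circ} (hs : s ∈ S) (x : Circ) :
    Real.log (D s x) ≤ A := by
  rw [← Real.log_exp A]
  exact Real.log_le_log (hB.pos hs x) (hB.ub s hs x)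

lemma Ls_ub (hB : Base S D A) {a : ℕ → (Circ ≃ₜ Circ)} (ha : ∀ j, a j ∈ S) (x : Circ) (m : ℕ) :
    Ls D a x m ≤ A * m := by
  induction m with
  | zero => simp
  | succ m ih =>
    rw [Ls_succ]
    have := hB.log_ub (ha m) (fl a m x)
    push_cast
    linarith

lemma Ls_lb (hB : Base S D A) {a : ℕ → (Circ ≃ₜ Circ)} (ha : ∀ j, a j ∈ S) (x : Circ) (m : ℕ) :
    -(A * m) ≤ Ls D a x m := by
  induction m with
  | zero => simp
  | succ m ih =>
    rw [Ls_succ]
    have := hB.log_lb (ha m) (fl a m x)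
    push_cast
    linarith

lemma fl_mem {a : ℕ → (Circ ≃ₜ Circ)} (ha : ∀ j, a j ∈ S) (m : ℕ) :
    fl a m ∈ Subgroup.closure S := by
  induction m with
  | zero => exact Subgroup.one_mem _
  | succ m ih => exact Subgroup.mul_mem _ (Subgroup.subset_closure (ha m)) ih

lemma sh_mem {a : ℕ → (Circ ≃ₜ Circ)} (ha : ∀ j, a j ∈ S) (i : ℕ) : ∀ j, sh a i j ∈ S :=
  fun j => ha (i + j)

lemma Dcomp (hB : Base S D A) {δ σ : ℝ} {e : ℕ → ℝ} (he0 : ∀ l, 0 ≤ e l) (hHe : He S D δ σ e)
    {l : ℕ} {s : Circ ≃ₜ Circ}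
    (hs : s ∈ S) {x y : Circ} (hxy : dist x y ≤ 2 * δ * Real.exp (-σ * l)) :
    D s x ≤ Real.exp (2 * e l) * D s y := by
  by_cases h : x = y
  · subst h
    have h1 := he0 l
    have := Real.one_le_exp (x := 2 * e l) (by linarith)
    nlinarith [hB.pos hs x]
  · have hd : 0 < dist x y := dist_pos.2 h
    have h1 := (hHe l s hs x y (Or.inl hxy)).1
    have h2 := (hHe l s hs y x (Or.inl (by rw [dist_comm]; exact hxy))).2
    rw [dist_comm (s y), dist_comm y] at h2
    have h3 : Real.exp (-e l) * D s x ≤ Real.exp (e l) * D s y :=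
      le_of_mul_le_mul_right (h1.trans h2) hd
    have h4 : Real.exp (2 * e l) * D s y = Real.exp (e l) * (Real.exp (e l) * D s y) := by
      rw [two_mul, Real.exp_add]; ring
    rw [h4]
    calc D s x = Real.exp (e l) * (Real.exp (-e l) * D s x) := by
          rw [← mul_assoc, ← Real.exp_add]; simp
      _ ≤ _ := mul_le_mul_of_nonneg_left h3 (Real.exp_pos _).le

/-- Partial sums of the distortion sequence. -/
def Es (e : ℕ → ℝ) (m : ℕ) : ℝ := ∑ l ∈ Finset.range m, e l

@[simp] lemma Es_zero (e : ℕ → ℝ) : Es e 0 = 0 := by simp [Es]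

lemma Es_succ (e : ℕ → ℝ) (m : ℕ) : Es e (m + 1) = Es e m + e m := by
  simp [Es, Finset.sum_range_succ]

lemma Es_le {e : ℕ → ℝ} {η : ℝ} (he : ∀ l, e l ≤ η) (m : ℕ) : Es e m ≤ η * m := by
  induction m with
  | zero => simp
  | succ m ih =>
    rw [Es_succ]
    push_cast
    linarith [he m]

lemma Es_nonneg {e : ℕ → ℝ} (he : ∀ l, 0 ≤ e l) (m : ℕ) : 0 ≤ Es e m :=
  Finset.sum_nonneg fun l _ => he l

/-- The set-up of constants: `δ` is the radius, `3 η ≤ ε' - σ`. -/
structure Cst (S : Set (Circ ≃ₜ Circ)) (D : (Circ ≃ₜ Circ) → Circ → ℝ) (A ε' σ δ : ℝ)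
    (e : ℕ → ℝ) : Prop where
  base : Base S D A
  δ_pos : 0 < δ
  σ_pos : 0 < σ
  e_nonneg : ∀ l, 0 ≤ e l
  e_le : ∀ l, 3 * e l ≤ ε' - σ
  he : He S D δ σ e

variable {ε' σ δ : ℝ} {e : ℕ → ℝ}

/-- Time `0` is good up to horizon `N`. -/
def Good0 (D : (Circ ≃ₜ Circ) → Circ → ℝ) (ε' : ℝ) (a : ℕ → (Circ ≃ₜ Circ)) (x : Circ) (N : ℕ) :
    Prop := ∀ m ≤ N, Ls D a x m ≤ -ε' * m

lemma expo_le (hC : Cst S D A ε' σ δ e) {a : ℕ → (Circ ≃ₜ Circ)} {x : Circ} {N : ℕ}
    (hg : Good0 D ε' a x N) {m : ℕ} (hm : m ≤ N) :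
    Ls D a x m + 3 * Es e m ≤ -σ * m := by
  have h1 := hg m hm
  have h2 : Es e m ≤ ((ε' - σ) / 3) * m := Es_le (fun l => by linarith [hC.e_le l]) m
  linarith

/-- Forward contraction towards the reference orbit. -/
lemma contr1 (hC : Cst S D A ε' σ δ e) {a : ℕ → (Circ ≃ₜ Circ)} (ha : ∀ j, a j ∈ S) {x z : Circ}
    {N : ℕ} (hg : Good0 D ε' a x N) (hz : dist z x ≤ δ) {m : ℕ} (hm : m ≤ N) :
    dist (fl a m z) (fl a m x) ≤ Real.exp (Ls D a x m + Es e m) * dist z x := by
  induction m with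
  | zero => simp
  | succ m ih =>
    have ih := ih (by omega)
    have h1 := expo_le hC hg (show m ≤ N by omega)
    have h0 := Es_nonneg hC.e_nonneg m
    have h2 : dist (fl a m z) (fl a m x) ≤ δ * Real.exp (-σ * m) := by
      calc _ ≤ Real.exp (Ls D a x m + Es e m) * dist z x := ih
        _ ≤ Real.exp (-σ * m) * δ := by
          apply mul_le_mul _ hz dist_nonneg (Real.exp_pos _).le
          exact Real.exp_le_exp.2 (by linarith)
        _ = _ := mul_comm _ _
    have h3 : dist (fl a m x) (fl a m z) ≤ 2 * δ * Real.exp (-σ * m) := by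
      rw [dist_comm]
      have := mul_pos hC.δ_pos (Real.exp_pos (-σ * m))
      linarith
    have h4 := (hC.he m (a m) (ha m) (fl a m x) (fl a m z) (Or.inl h3)).2
    rw [dist_comm (a m (fl a m x)), dist_comm (fl a m x)] at h4
    rw [fl_succ_apply, fl_succ_apply, Ls_succ, Es_succ]
    have hpos := hC.base.pos (ha m) (fl a m x)
    calc _ ≤ Real.exp (e m) * D (a m) (fl a m x) * dist (fl a m z) (fl a m x) := h4
      _ ≤ Real.exp (e m) * D (a m) (fl a m x) *
          (Real.exp (Ls D a x m + Es e m) * dist z x) :=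
        mul_le_mul_of_nonneg_left ih (mul_pos (Real.exp_pos _) hpos).le
      _ = _ := by
        have : Ls D a x m + Real.log (D (a m) (fl a m x)) + (Es e m + e m) =
          e m + Real.log (D (a m) (fl a m x)) + (Ls D a x m + Es e m) := by ring
        rw [this, Real.exp_add (e m + _), Real.exp_add (e m), Real.exp_log hpos]
        ring

lemma contr1' (hC : Cst S D A ε' σ δ e) {a : ℕ → (Circ ≃ₜ Circ)} (ha : ∀ j, a j ∈ S) {x z : Circ}
    {N : ℕ} (hg : Good0 D ε' a x N) (hz : dist z x ≤ δ) {m : ℕ} (hm : m ≤ N) :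
    dist (fl a m z) (fl a m x) ≤ Real.exp (-σ * m) * dist z x := by
  refine (contr1 hC ha hg hz hm).trans (mul_le_mul_of_nonneg_right ?_ dist_nonneg)
  have h1 := expo_le hC hg hm
  have h0 := Es_nonneg hC.e_nonneg m
  exact Real.exp_le_exp.2 (by linarith)

/-- Two point contraction. -/
lemma contr2 (hC : Cst S D A ε' σ δ e) {a : ℕ → (Circ ≃ₜ Circ)} (ha : ∀ j, a j ∈ S)
    {x z z' : Circ} {N : ℕ} (hg : Good0 D ε' a x N) (hz : dist z x ≤ δ) (hz' : dist z' x ≤ δ)
    {m : ℕ} (hm : m ≤ N) :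
    dist (fl a m z) (fl a m z') ≤ Real.exp (Ls D a x m + 3 * Es e m) * dist z z' := by
  induction m with
  | zero => simp
  | succ m ih =>
    have ih := ih (by omega)
    have h1 := expo_le hC hg (show m ≤ N by omega)
    have h0 := Es_nonneg hC.e_nonneg m
    have hδ := hC.δ_pos
    have hE := Real.exp_pos (-σ * m)
    have hzz : dist z z' ≤ 2 * δ := by
      have := dist_triangle_right z z' x
      linarith
    have h2 : dist (fl a m z) (fl a m z') ≤ 2 * δ * Real.exp (-σ * m) := by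
      calc _ ≤ Real.exp (Ls D a x m + 3 * Es e m) * dist z z' := ih
        _ ≤ Real.exp (-σ * m) * (2 * δ) := by
          apply mul_le_mul _ hzz dist_nonneg (Real.exp_pos _).le
          exact Real.exp_le_exp.2 (by linarith)
        _ = _ := mul_comm _ _
    have h3 : dist (fl a m z) (fl a m x) ≤ 2 * δ * Real.exp (-σ * m) := by
      have h5 := contr1' hC ha hg hz (show m ≤ N by omega)
      nlinarith [mul_le_mul_of_nonneg_left hz hE.le, mul_pos hδ hE]
    have h4 := (hC.he m (a m) (ha m) (fl a m z) (fl a m z') (Or.inl h2)).2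
    have h6 := Dcomp hC.base hC.e_nonneg hC.he (ha m) h3
    rw [fl_succ_apply, fl_succ_apply, Ls_succ, Es_succ]
    have hpos := hC.base.pos (ha m) (fl a m x)
    calc _ ≤ Real.exp (e m) * D (a m) (fl a m z) * dist (fl a m z) (fl a m z') := h4
      _ ≤ Real.exp (e m) * (Real.exp (2 * e m) * D (a m) (fl a m x)) *
          (Real.exp (Ls D a x m + 3 * Es e m) * dist z z') := by
        apply mul_le_mul _ ih dist_nonneg
        · have := mul_pos (Real.exp_pos (2 * e m)) hpos
          positivity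
        · exact mul_le_mul_of_nonneg_left h6 (Real.exp_pos _).le
      _ = _ := by
        have : Ls D a x m + Real.log (D (a m) (fl a m x)) + 3 * (Es e m + e m) =
          e m + (2 * e m + Real.log (D (a m) (fl a m x))) + (Ls D a x m + 3 * Es e m) := by ring
        rw [this, Real.exp_add (e m + _), Real.exp_add (e m), Real.exp_add (2 * e m),
          Real.exp_log hpos]
        ring

/-- Transport of isolation. -/
lemma iso_transport (hC : Cst S D A ε' σ δ e) {a : ℕ → (Circ ≃ₜ Circ)} (ha : ∀ j, a j ∈ S)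
    {x p : Circ} {N : ℕ} (hg : Good0 D ε' a x N) (hp : dist p x ≤ δ) {r : ℝ} (hr : r ≤ 2 * δ)
    (hr0 : 0 < r) (hiso : ∀ h ∈ Subgroup.closure S, dist (h p) p < r → h p = p) {m : ℕ}
    (hm : m ≤ N) : ∀ h ∈ Subgroup.closure S,
    dist (h p) (fl a m p) < r * Real.exp (Ls D a x m - 3 * Es e m) → h p = fl a m p := by
  induction m with
  | zero =>
    intro h hh hd
    simp only [fl_zero, Ls_zero, Es_zero, mul_zero, sub_zero, Real.exp_zero, mul_one] at hd ⊢
    exact hiso h hh hd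
  | succ m ih =>
    intro h hh hd
    have ih := ih (by omega)
    have hδ := hC.δ_pos
    have hE := Real.exp_pos (-σ * m)
    have hamem : a m ∈ Subgroup.closure S := Subgroup.subset_closure (ha m)
    have h1 := expo_le hC hg hm
    have h0 := Es_nonneg hC.e_nonneg (m + 1)
    set q := ((a m)⁻¹ * h) p with hq
    have haq : a m q = h p := by
      rw [hq]
      show a m ((a m).symm (h p)) = h p
      exact (a m).apply_symm_apply _
    have hscale : dist (h p) (fl a (m + 1) p) ≤ 2 * δ * Real.exp (-σ * m) := by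
      refine hd.le.trans ?_
      apply mul_le_mul hr _ (Real.exp_pos _).le (by linarith)
      apply Real.exp_le_exp.2
      have hσ := hC.σ_pos
      push_cast at h1
      nlinarith
    have h2 : dist (a m (fl a m p)) (a m q) ≤ 2 * δ * Real.exp (-σ * m) := by
      rw [haq, dist_comm]
      exact hscale
    have h3 := (hC.he m (a m) (ha m) (fl a m p) q (Or.inr h2)).1
    have h4 : dist (fl a m x) (fl a m p) ≤ 2 * δ * Real.exp (-σ * m) := by
      have h5 := contr1' hC ha hg hp (show m ≤ N by omega)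
      rw [dist_comm]
      nlinarith [mul_le_mul_of_nonneg_left hp hE.le, mul_pos hδ hE]
    have h6 := Dcomp hC.base hC.e_nonneg hC.he (ha m) h4
    have hpos := hC.base.pos (ha m) (fl a m x)
    have hpos' := hC.base.pos (ha m) (fl a m p)
    have h7 : dist q (fl a m p) < r * Real.exp (Ls D a x m - 3 * Es e m) := by
      rw [haq, dist_comm (a m (fl a m p)), dist_comm (fl a m p)] at h3
      rw [← fl_succ_apply] at h3
      have h8 : Real.exp (-e m) * D (a m) (fl a m p) * dist q (fl a m p) <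
          r * Real.exp (Ls D a x (m + 1) - 3 * Es e (m + 1)) := h3.trans_lt hd
      rw [Ls_succ, Es_succ] at h8
      have h9 : r * Real.exp (Ls D a x m + Real.log (D (a m) (fl a m x)) - 3 * (Es e m + e m)) =
          (Real.exp (-3 * e m) * D (a m) (fl a m x)) * (r * Real.exp (Ls D a x m - 3 * Es e m)) := by
        have : Ls D a x m + Real.log (D (a m) (fl a m x)) - 3 * (Es e m + e m) =
          (-3 * e m + Real.log (D (a m) (fl a m x))) + (Ls D a x m - 3 * Es e m) := by ring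
        rw [this, Real.exp_add (-3 * e m + _), Real.exp_add (-3 * e m), Real.exp_log hpos]
        ring
      rw [h9] at h8
      have h10 : Real.exp (-3 * e m) * D (a m) (fl a m x) ≤
          Real.exp (-e m) * D (a m) (fl a m p) := by
        calc _ ≤ Real.exp (-3 * e m) * (Real.exp (2 * e m) * D (a m) (fl a m p)) :=
              mul_le_mul_of_nonneg_left h6 (Real.exp_pos _).le
          _ = _ := by
            rw [← mul_assoc, ← Real.exp_add]
            congr 2
            ring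
      by_contra hcon
      push Not at hcon
      have h11 : (Real.exp (-3 * e m) * D (a m) (fl a m x)) *
          (r * Real.exp (Ls D a x m - 3 * Es e m)) ≤
          Real.exp (-e m) * D (a m) (fl a m p) * dist q (fl a m p) :=
        mul_le_mul h10 hcon (by positivity) (by positivity)
      linarith
    have h12 := ih ((a m)⁻¹ * h) (Subgroup.mul_mem _ (Subgroup.inv_mem _ hamem) hh) h7
    rw [fl_succ_apply, ← h12, ← hq, haq]

end Pool.Agent.Helper320.LC
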