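import Mathlib

set_option autoImplicit false
open Filter Topology

namespace Pool.Agent.Helper320.NoMin

/-- The covering map of period one. -/
noncomputable def E (x : ℝ) : Circle := Circle.exp (2 * Real.pi * x)

lemma E_cont : Continuous E := by
  unfold E
  fun_prop

lemma E_surj : Function.Surjective E := by
  intro z
  obtain ⟨t, ht⟩ := Circle.exp_surjective z
  refine ⟨t / (2 * Real.pi), ?_⟩
  unfold E
  rw [← ht]
  congr 1
  field_simp

lemma E_eq {x y : ℝ} : E x = E y ↔ ∃ m : ℤ, x = y + m := by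
  unfold E
  rw [Circle.exp_eq_exp]
  have hp : (0:ℝ) < 2 * Real.pi := by positivity
  refine exists_congr fun m => ?_
  constructor
  · intro h
    have : 2 * Real.pi * x = 2 * Real.pi * (y + m) := by rw [h]; ring
    exact mul_left_cancel₀ hp.ne' this
  · rintro rfl
    ring

lemma E_add_int (x : ℝ) (m : ℤ) : E (x + m) = E x := E_eq.2 ⟨m, rfl⟩

/-- A continuous real function with integer values is constant. -/
lemma const_of_int {u : ℝ → ℝ} (hu : Continuous u) (hi : ∀ x, ∃ m : ℤ, u x = m) :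
    ∃ m : ℤ, ∀ x, u x = m := by
  choose k hk using hi
  have hkc : Continuous k := by
    rw [Int.isClosedEmbedding_coe_real.isInducing.continuous_iff]
    have : ((↑) : ℤ → ℝ) ∘ k = u := by
      funext x
      exact (hk x).symm
    rw [this]
    exact hu
  refine ⟨k 0, fun x => ?_⟩
  rw [hk x, PreconnectedSpace.constant inferInstance hkc (x := x) (y := 0)]

/-- Lifts of continuous maps. -/
lemma exists_lift {f : Circle → Circle} (hf : Continuous f) :
    ∃ F : ℝ → ℝ, Continuous F ∧ ∀ x, f (E x) = E (F x) := by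
  obtain ⟨e₀, he₀⟩ := Circle.exp_surjective (f (E 0))
  obtain ⟨F, ⟨-, hF⟩, -⟩ := Circle.isCoveringMap_exp.existsUnique_continuousMap_lifts
    (A := ℝ) ⟨fun x => f (E x), hf.comp E_cont⟩ 0 e₀ he₀
  refine ⟨fun x => F x / (2 * Real.pi), by fun_prop, fun x => ?_⟩
  have := congrFun hF x
  simp only [Function.comp_apply, ContinuousMap.coe_mk] at this
  rw [← this]
  unfold E
  congr 1
  field_simp


lemma deg {f : Circle → Circle} {F : ℝ → ℝ} (hFc : Continuous F)
    (hF : ∀ x, f (E x) = E (F x)) : ∃ k : ℤ, ∀ (x : ℝ) (n : ℤ), F (x + n) = F x + k * n := by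
  obtain ⟨k, hk⟩ := const_of_int (u := fun x => F (x + 1) - F x) (by fun_prop) (by
    intro x
    have h : E (F (x + 1)) = E (F x) := by
      rw [← hF, ← hF]
      have := E_add_int x 1
      rw [Int.cast_one] at this
      rw [this]
    obtain ⟨m, hm⟩ := E_eq.1 h
    exact ⟨m, by rw [hm]; ring⟩)
  refine ⟨k, fun x n => ?_⟩
  have h1 : ∀ x, F (x + 1) = F x + k := fun x => by
    have := hk x
    linarith
  induction n using Int.induction_on with
  | zero => simp
  | succ i ih =>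
    push_cast at ih ⊢
    rw [← add_assoc, h1, ih]
    ring
  | pred i ih =>
    push_cast at ih ⊢
    have := h1 (x + (-i - 1))
    have e : x + (-(i:ℝ) - 1) + 1 = x + -i := by ring
    rw [e, ih] at this
    linarith

/-- Orientation preserving, with an invertible lift of degree one. -/
def Lf (f : Circle → Circle) (F : CircleDeg1Liftˣ) : Prop := ∀ t, f (E t) = E (F t)

lemma unit_cont (F : CircleDeg1Liftˣ) : Continuous (F : ℝ → ℝ) :=
  (CircleDeg1Lift.toOrderIso F).continuous

lemma Lf_sq {f f' : Circle → Circle} (hf : Continuous f) (hf' : Continuous f')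
    (h1 : ∀ x, f (f' x) = x) (h2 : ∀ x, f' (f x) = x) : ∃ F, Lf (f ∘ f) F := by
  obtain ⟨F, hFc, hF⟩ := exists_lift hf
  obtain ⟨F', hFc', hF'⟩ := exists_lift hf'
  obtain ⟨k, hk⟩ := deg hFc hF
  obtain ⟨k', hk'⟩ := deg hFc' hF'
  obtain ⟨c, hc⟩ := const_of_int (u := fun x => F' (F x) - x) (by fun_prop) (by
    intro x
    have h : E (F' (F x)) = E x := by rw [← hF', ← hF, h2]
    obtain ⟨m, hm⟩ := E_eq.1 h
    exact ⟨m, by rw [hm]; ring⟩)
  obtain ⟨c', hc'⟩ := const_of_int (u := fun x => F (F' x) - x) (by fun_prop) (by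
    intro x
    have h : E (F (F' x)) = E x := by rw [← hF, ← hF', h1]
    obtain ⟨m, hm⟩ := E_eq.1 h
    exact ⟨m, by rw [hm]; ring⟩)
  have hc2 : ∀ x, F' (F x) = x + c := fun x => by
    have := hc x
    linarith
  have hc2' : ∀ x, F (F' x) = x + c' := fun x => by
    have := hc' x
    linarith
  have hkk : k' * k = 1 := by
    have e1 := hc2 (0 + (1 : ℤ))
    rw [hk, Int.cast_one, mul_one, hk', hc2] at e1
    have : ((k' * k : ℤ) : ℝ) = ((1 : ℤ) : ℝ) := by
      push_cast at e1 ⊢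
      linarith
    exact_mod_cast this
  have hk1 : k * k = 1 := by
    rcases Int.eq_one_or_neg_one_of_mul_eq_one hkk with h | h
    · rw [h] at hkk
      have : k = 1 := by linarith
      rw [this]; norm_num
    · rw [h] at hkk
      have : k = -1 := by linarith
      rw [this]; norm_num
  have hinj : Function.Injective F := by
    intro x y hxy
    have h3 := hc2 x
    have h4 := hc2 y
    rw [hxy] at h3
    linarith
  have hsurj : Function.Surjective F := by
    intro y
    refine ⟨F' (y - c'), ?_⟩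
    rw [hc2']
    ring
  have hmono : StrictMono (F ∘ F) := by
    rcases hFc.strictMono_of_inj hinj with h | h
    · exact h.comp h
    · exact h.comp h
  let H : CircleDeg1Lift :=
    { toFun := F ∘ F
      monotone' := hmono.monotone
      map_add_one' := by
        intro x
        have e1 := hk x 1
        rw [Int.cast_one, mul_one] at e1
        show F (F (x + 1)) = F (F x) + 1
        rw [e1, hk]
        have : ((k : ℝ) * k) = 1 := by exact_mod_cast hk1
        rw [this] }
  have hH : Function.Bijective H := ⟨hinj.comp hinj, hsurj.comp hsurj⟩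
  obtain ⟨U, hU⟩ := CircleDeg1Lift.isUnit_iff_bijective.2 hH
  refine ⟨U, fun t => ?_⟩
  rw [hU]
  show f (f (E t)) = E (F (F t))
  rw [hF, hF]

lemma Lf_inv {f f' : Circle → Circle} (h2 : ∀ x, f' (f x) = x) {F : CircleDeg1Liftˣ}
    (hF : Lf f F) : Lf f' F⁻¹ := by
  intro t
  have := hF ((F⁻¹ : CircleDeg1Liftˣ) t)
  rw [CircleDeg1Lift.units_apply_inv_apply] at this
  rw [← this, h2]

lemma Lf_mul {f g : Circle → Circle} {F G : CircleDeg1Liftˣ}
    (hF : Lf f F) (hG : Lf g G) : Lf (f ∘ g) (F * G) := by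
  intro t
  show f (g (E t)) = _
  rw [hG, hF]
  rfl

/-- The commutator-type element has a fixed point. -/
lemma exists_fixed {c c' : Circle → Circle} {C Γ : CircleDeg1Liftˣ} (hc : Lf c C)
    (hc' : Lf c' (Γ * C * Γ⁻¹)) (hcomm : ∀ x, c (c' x) = c' (c x)) :
    ∃ t : ℝ, (C * (Γ * C * Γ⁻¹)⁻¹ : CircleDeg1Liftˣ) t = t := by
  set C' := Γ * C * Γ⁻¹ with hC'
  have hCc := unit_cont C
  have hCc' := unit_cont C'
  obtain ⟨m, hm⟩ := const_of_int (u := fun t => C (C' t) - C' (C t)) (by fun_prop) (by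
    intro t
    have h : E (C (C' t)) = E (C' (C t)) := by rw [← hc, ← hc', ← hc', ← hc, hcomm]
    obtain ⟨m, hm⟩ := E_eq.1 h
    exact ⟨m, by rw [hm]; ring⟩)
  have hm' : ∀ t, C (C' t) = C' (C t) + m := fun t => by
    have := hm t
    linarith
  have hτ : CircleDeg1Lift.translationNumber (C' : CircleDeg1Lift) =
      CircleDeg1Lift.translationNumber (C : CircleDeg1Lift) := by
    rw [hC']
    push_cast
    rw [CircleDeg1Lift.translationNumber_conj_eq]
  have hm0 : m = 0 := by
    have e1 : ((C : CircleDeg1Lift) * C' * (C⁻¹ : CircleDeg1Liftˣ)) =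
        (CircleDeg1Lift.translate (Multiplicative.ofAdd (m : ℝ)) : CircleDeg1Lift) * C' := by
      apply CircleDeg1Lift.ext
      intro t
      simp only [CircleDeg1Lift.mul_apply]
      rw [hm', CircleDeg1Lift.units_apply_inv_apply, CircleDeg1Lift.translate_apply, add_comm]
    have e2 := CircleDeg1Lift.translationNumber_conj_eq C (C' : CircleDeg1Lift)
    rw [e1, CircleDeg1Lift.translationNumber_mul_of_commute,
      CircleDeg1Lift.translationNumber_translate] at e2
    · have : (m : ℝ) = 0 := by linarith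
      exact_mod_cast this
    · rw [CircleDeg1Lift.commute_iff_commute]
      intro t
      rw [CircleDeg1Lift.translate_apply, CircleDeg1Lift.translate_apply,
        CircleDeg1Lift.map_int_add]
  have hcom : Commute (C : CircleDeg1Lift) (C' : CircleDeg1Lift) := by
    rw [CircleDeg1Lift.commute_iff_commute]
    intro t
    rw [hm', hm0]
    simp
  have hcomu : Commute C C' := by
    apply Units.ext
    exact hcom
  have hcom2 : Commute (C : CircleDeg1Lift) ((C'⁻¹ : CircleDeg1Liftˣ) : CircleDeg1Lift) := by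
    have := hcomu.inv_right
    exact congrArg Units.val this
  have hτ0 : CircleDeg1Lift.translationNumber ((C * C'⁻¹ : CircleDeg1Liftˣ) : CircleDeg1Lift)
      = ((0 : ℤ) : ℝ) := by
    push_cast
    rw [CircleDeg1Lift.translationNumber_mul_of_commute hcom2,
      CircleDeg1Lift.translationNumber_units_inv, hτ]
    ring
  obtain ⟨t, ht⟩ := (CircleDeg1Lift.translationNumber_eq_int_iff _ (unit_cont _)).1 hτ0
  exact ⟨t, by simpa using ht⟩

/-- Monotone dynamics: an invariant nonempty closed set contains a fixed point. -/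
lemma exists_fixed_in {f : Circle → Circle} {F : CircleDeg1Liftˣ}
    (hF : Lf f F) {z : Circle} (hz : f z = z) {K : Set Circle} (hK : IsClosed K)
    (hne : K.Nonempty) (hinv : ∀ x ∈ K, f x ∈ K) : ∃ x ∈ K, f x = x := by
  obtain ⟨t, rfl⟩ := E_surj z
  obtain ⟨x, hx⟩ := hne
  obtain ⟨s₀, rfl⟩ := E_surj x
  obtain ⟨m, hm⟩ := E_eq.1 ((hF t).symm.trans hz)
  obtain ⟨s, hs1, hs2, hs3⟩ : ∃ s, E s = E s₀ ∧ t ≤ s ∧ s ≤ t + 1 := by
    refine ⟨t + Int.fract (s₀ - t), E_eq.2 ⟨-⌊s₀ - t⌋, ?_⟩, ?_, ?_⟩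
    · rw [Int.fract]
      push_cast
      ring
    · linarith [Int.fract_nonneg (s₀ - t)]
    · linarith [Int.fract_lt_one (s₀ - t)]
  rw [← hs1] at hx
  set F1 : ℝ → ℝ := fun u => F u - m with hF1
  have hF1c : Continuous F1 := (unit_cont F).sub continuous_const
  have hF1m : Monotone F1 := fun a b hab => by
    have := (F : CircleDeg1Lift).monotone hab
    simp only [hF1]
    linarith
  have hF1t : F1 t = t := by simp only [hF1]; rw [hm]; ring
  have hF1t1 : F1 (t + 1) = t + 1 := by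
    simp only [hF1]
    rw [CircleDeg1Lift.map_add_one, hm]
    ring
  have hF1E : ∀ u, f (E u) = E (F1 u) := by
    intro u
    rw [hF u]
    exact E_eq.2 ⟨m, by simp only [hF1]; ring⟩
  have hit : ∀ n : ℕ, f^[n] (E s) = E (F1^[n] s) := by
    intro n
    induction n with
    | zero => rfl
    | succ n ih => rw [Function.iterate_succ_apply', Function.iterate_succ_apply', ih, hF1E]
  have hitK : ∀ n : ℕ, f^[n] (E s) ∈ K := by
    intro n
    induction n with
    | zero => exact hx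
    | succ n ih => rw [Function.iterate_succ_apply']; exact hinv _ ih
  have hb : ∀ n : ℕ, t ≤ F1^[n] s ∧ F1^[n] s ≤ t + 1 := by
    intro n
    induction n with
    | zero => exact ⟨hs2, hs3⟩
    | succ n ih =>
      rw [Function.iterate_succ_apply']
      exact ⟨hF1t ▸ hF1m ih.1, hF1t1 ▸ hF1m ih.2⟩
  obtain ⟨l, hl⟩ : ∃ l, Tendsto (fun n => F1^[n] s) atTop (𝓝 l) := by
    rcases le_total s (F1 s) with h | h
    · exact ⟨_, tendsto_atTop_ciSup (hF1m.monotone_iterate_of_le_map h)
        ⟨t + 1, by rintro _ ⟨n, rfl⟩; exact (hb n).2⟩⟩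
    · exact ⟨_, tendsto_atTop_ciInf (hF1m.antitone_iterate_of_map_le h)
        ⟨t, by rintro _ ⟨n, rfl⟩; exact (hb n).1⟩⟩
  have hfix : F1 l = l := isFixedPt_of_tendsto_iterate hl hF1c.continuousAt
  refine ⟨E l, ?_, ?_⟩
  · have : Tendsto (fun n => f^[n] (E s)) atTop (𝓝 (E l)) := by
      simp_rw [hit]
      exact (E_cont.tendsto l).comp hl
    exact hK.mem_of_tendsto this (Eventually.of_forall hitK)
  · rw [hF1E, hfix]


theorem no_minimal {G : Type*} [Group G] (Φ : G → Circle → Circle) (h1 : Φ 1 = id)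
    (hmul : ∀ g h, Φ (g * h) = Φ g ∘ Φ h) (hcont : ∀ g, Continuous (Φ g))
    (hinj : Function.Injective Φ) (hmin : ∀ x, Dense {y | ∃ g, Φ g x = y}) (c₀ g₀ : G)
    (hcomm : ∀ h : G, Commute c₀ (h * c₀ * h⁻¹))
    (hd : c₀ ^ 2 * ((g₀ ^ 2) * c₀ ^ 2 * (g₀ ^ 2)⁻¹)⁻¹ ≠ 1) : False := by
  set g := g₀ ^ 2 with hg
  set d := c₀ ^ 2 * (g * c₀ ^ 2 * g⁻¹)⁻¹ with hddef
  have happ : ∀ a b x, Φ (a * b) x = Φ a (Φ b x) := fun a b x => by rw [hmul]; rfl
  have hi1 : ∀ a x, Φ a (Φ a⁻¹ x) = x := fun a x => by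
    rw [← happ, mul_inv_cancel, h1]; rfl
  have hi2 : ∀ a x, Φ a⁻¹ (Φ a x) = x := fun a x => by
    rw [← happ, inv_mul_cancel, h1]; rfl
  have hsq : ∀ x : G, ∃ F, Lf (Φ (x ^ 2)) F := fun x => by
    obtain ⟨F, hF⟩ := Lf_sq (hcont x) (hcont x⁻¹) (hi1 x) (hi2 x)
    refine ⟨F, ?_⟩
    rw [pow_two, hmul]
    exact hF
  have hmulL : ∀ {a b : G} {F F' : CircleDeg1Liftˣ}, Lf (Φ a) F → Lf (Φ b) F' →
      Lf (Φ (a * b)) (F * F') := fun {a b F F'} h h' => by
    rw [hmul]; exact Lf_mul h h'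
  have hinvL : ∀ {a : G} {F : CircleDeg1Liftˣ}, Lf (Φ a) F → Lf (Φ a⁻¹) F⁻¹ :=
    fun {a F} h => Lf_inv (hi2 a) h
  -- conjugates of c₀ commute
  have hcomm2 : ∀ h h' : G, Commute (h * c₀ * h⁻¹) (h' * c₀ * h'⁻¹) := by
    intro h h'
    have := hcomm (h⁻¹ * h')
    have h3 := congrArg (fun y => h * y * h⁻¹) this.eq
    show _ = _
    simp only [mul_inv_rev, inv_inv] at h3
    calc h * c₀ * h⁻¹ * (h' * c₀ * h'⁻¹) = h * (c₀ * (h⁻¹ * h' * c₀ * (h'⁻¹ * h))) * h⁻¹ := by group
      _ = h * (h⁻¹ * h' * c₀ * (h'⁻¹ * h) * c₀) * h⁻¹ := h3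
      _ = h' * c₀ * h'⁻¹ * (h * c₀ * h⁻¹) := by group
  have hform : ∀ h : G, h * d * h⁻¹ =
      (h * c₀ * h⁻¹) ^ 2 * (((h * g) * c₀ * (h * g)⁻¹) ^ 2)⁻¹ := by
    intro h
    rw [hddef, conj_pow, conj_pow]
    group
  have hdcomm : ∀ h h' : G, Commute (h * d * h⁻¹) (h' * d * h'⁻¹) := by
    intro h h'
    rw [hform, hform]
    have A : ∀ a b : G, Commute ((a * c₀ * a⁻¹) ^ 2) ((b * c₀ * b⁻¹) ^ 2) := fun a b =>
      (hcomm2 a b).pow_pow 2 2
    exact Commute.mul_left (Commute.mul_right (A _ _) (A _ _).inv_right)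
      (Commute.mul_right (A _ _).inv_left (A _ _).inv_inv)
  have hdL : ∀ h : G, ∃ F, Lf (Φ (h * d * h⁻¹)) F := by
    intro h
    obtain ⟨F, hF⟩ := hsq (h * c₀ * h⁻¹)
    obtain ⟨F', hF'⟩ := hsq ((h * g) * c₀ * (h * g)⁻¹)
    rw [hform]
    exact ⟨_, hmulL hF (hinvL hF')⟩
  -- d has a fixed point
  obtain ⟨z, hz⟩ : ∃ z, Φ d z = z := by
    obtain ⟨C, hC⟩ := hsq c₀
    obtain ⟨Γ, hΓ⟩ := hsq g₀
    have hC' : Lf (Φ (g * c₀ ^ 2 * g⁻¹)) (Γ * C * Γ⁻¹) := hmulL (hmulL hΓ hC) (hinvL hΓ)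
    obtain ⟨t, ht⟩ := exists_fixed hC hC' (by
      intro x
      rw [← happ, ← happ]
      have : Commute (c₀ ^ 2) (g * c₀ ^ 2 * g⁻¹) := by
        have e : g * c₀ ^ 2 * g⁻¹ = (g * c₀ * g⁻¹) ^ 2 := conj_pow.symm
        rw [e]
        exact (hcomm g).pow_pow 2 2
      rw [this.eq])
    refine ⟨E t, ?_⟩
    have := (hmulL hC (hinvL hC')) t
    rw [hddef, this, ht]
  have hfix : ∀ h : G, Φ (h * d * h⁻¹) (Φ h z) = Φ h z := by
    intro h
    rw [happ, happ, hi2, hz]
  have hclosed : ∀ h : G, IsClosed {x | Φ (h * d * h⁻¹) x = x} := fun h =>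
    isClosed_eq (hcont _) continuous_id
  have hfin : ∀ s : Finset G, (⋂ h ∈ s, {x | Φ (h * d * h⁻¹) x = x}).Nonempty := by
    intro s
    classical
    induction s using Finset.induction_on with
    | empty => exact ⟨z, by simp⟩
    | insert a s _ ih =>
      obtain ⟨F, hF⟩ := hdL a
      obtain ⟨x, hx, hx2⟩ := exists_fixed_in hF (hfix a)
        (isClosed_biInter fun h (_ : h ∈ s) => hclosed h) ih (by
          intro x hx
          simp only [Set.mem_iInter] at hx ⊢
          intro h hh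
          have hxh := hx h hh
          show Φ (h * d * h⁻¹) (Φ (a * d * a⁻¹) x) = Φ (a * d * a⁻¹) x
          rw [← happ, (hdcomm h a).eq, happ]
          exact congrArg _ hxh)
      refine ⟨x, ?_⟩
      simp only [Set.mem_iInter] at hx ⊢
      intro h hh
      rcases Finset.mem_insert.1 hh with rfl | hh
      · exact hx2
      · exact hx h hh
  have hne := isCompact_univ.inter_iInter_nonempty
    (fun h : G => {x | Φ (h * d * h⁻¹) x = x}) hclosed (by simpa using hfin)
  obtain ⟨x, -, hx⟩ := hne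
  simp only [Set.mem_iInter] at hx
  have hall : ∀ y, Φ d y = y := by
    have hsub : {y | ∃ g, Φ g x = y} ⊆ {y | Φ d y = y} := by
      rintro y ⟨a, rfl⟩
      have h3 : Φ (a⁻¹ * d * a⁻¹⁻¹) x = x := hx a⁻¹
      show Φ d (Φ a x) = Φ a x
      rw [inv_inv, happ, happ] at h3
      have := congrArg (Φ a) h3
      rw [hi1] at this
      exact this
    have hcl : IsClosed {y | Φ d y = y} := isClosed_eq (hcont _) continuous_id
    intro y
    have : y ∈ closure {y | Φ d y = y} := closure_mono hsub (hmin x y)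
    rw [hcl.closure_eq] at this
    exact this
  exact hd (hinj (by rw [h1]; funext y; exact hall y))

end Pool.Agent.Helper320.NoMin
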