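import Mathlib

set_option autoImplicit false

namespace Pool.Agent.Helper320.TW

/-- representative of y modulo q in [0,q) -/
noncomputable def md (q : ℕ) (y : ℝ) : ℝ := y - q * ⌊y / q⌋

/-- The profile functions. -/
structure Prof where
  β : ℝ → ℝ
  Θ : ℝ → ℝ
  Φ : ℝ → ℝ
  Φi : ℝ → ℝ
  G : ℝ → ℝ
  Gi : ℝ → ℝ
  E : ℝ → ℝ
  β_mono : StrictMono β
  β_cont : Continuous β
  β_add : ∀ z, β (z + 1) = β z + 1
  β_J : ∀ z, |z| ≤ 1 / 128 → β z = 16 * z
  β_A : ∀ z, 1 / 64 ≤ z → z ≤ 3 / 64 → β z = 1 / 4 + 2 * z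
  β_B : ∀ z, 5 / 64 ≤ z → z ≤ 63 / 64 → β z = 7 / 16 + z / 4
  Θ_β : ∀ z, Θ (β z) = β (z + 1 / 16)
  Φ_mono : StrictMono Φ
  Φ_cont : Continuous Φ
  Φi_Φ : ∀ s, Φi (Φ s) = s
  Φ_Φi : ∀ s, Φ (Φi s) = s
  Φ_lo : ∀ s, s ≤ 11 / 4 → Φ s = s
  Φ_hi : ∀ s, 13 / 4 ≤ s → Φ s = Θ s
  Φ_ge : ∀ s, s ≤ Φ s
  Φ_le : ∀ s, Φ s ≤ Θ s
  G_eq : ∀ s, G s = Φ (Φi s + 1)
  Gi_eq : ∀ s, Gi s = Φ (Φi s - 1)
  E_eq : ∀ s, E s = G s - s - 1

/-- the map f-hat -/
noncomputable def fh (P : Prof) (q : ℕ) (p : ℤ) (s : ℝ) : ℝ :=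
  s + p + P.E (md q (s + p - 1))

/-- the shear Z -/
noncomputable def Zf (P : Prof) (q m : ℕ) (p : ℤ) (w : ℕ → ℝ) (s : ℝ) : ℝ :=
  s + ∑ i ∈ Finset.range m, w i * P.E (md q (s - i * p))

/-- slope of ι on the window [t+1/4,t+3/4] -/
noncomputable def sl (ι : ℝ → ℝ) (t : ℤ) : ℝ := 2 * (ι (t + 3 / 4) - ι (t + 1 / 4))

/-- Stage of the construction -/
structure Stage (q m m2 : ℕ) (p r : ℤ) (ι : ℝ → ℝ) : Prop where
  m2_lt : m2 < m
  q_eq : q + m2 = 16 * m
  det : (m : ℤ) * p - r * q = 1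
  mono : StrictMono ι
  surj : Function.Surjective ι
  add_q : ∀ s, ι (s + q) = ι s + 1
  win : ∀ t : ℤ, ∀ s : ℝ, 1 / 4 ≤ s → s ≤ 3 / 4 →
    ι (t + s) = ι (t + 1 / 4) + sl ι t * (s - 1 / 4)
  base : ∀ i : ℕ, i ≤ m → ∀ s : ℝ, 5 / 4 ≤ s → s ≤ 59 / 4 →
    ι (s + i * p) = ι (5 / 4 + i * p) + sl ι (1 + i * p) * (s - 5 / 4)
  J : ∀ s, |s| ≤ 1 / 8 → ι s = s / 16

/-- the sum R -/
noncomputable def Rs (ι : ℝ → ℝ) (m : ℕ) (p : ℤ) : ℝ :=
  ∑ i ∈ Finset.range m, 1 / (sl ι (1 + i * p) * sl ι (1 + (i + 1) * p))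

/-- the weights -/
noncomputable def wt (ι : ℝ → ℝ) (m : ℕ) (p : ℤ) (i : ℕ) : ℝ :=
  (∑ l ∈ Finset.range i, 1 / (sl ι (1 + l * p) * sl ι (1 + (l + 1) * p))) / Rs ι m p

/-- the circle map F(ι s) = ι(s+p) -/
noncomputable def FF (ι : ℝ → ℝ) (p : ℤ) (x : ℝ) : ℝ := ι (Function.invFun ι x + p)

namespace Prof

variable (P : Prof)

theorem β_add_int (z : ℝ) (n : ℤ) : P.β (z + n) = P.β z + n := by
  induction n using Int.induction_on with
  | zero => simp
  | succ k ih =>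
    have := P.β_add (z + (k : ℤ))
    push_cast at *
    rw [← add_assoc, this, ih]; ring
  | pred k ih =>
    have := P.β_add (z + ((-(k : ℤ) - 1 : ℤ) : ℝ))
    push_cast at *
    have e : z + (-(k:ℝ) - 1) + 1 = z + -(k:ℝ) := by ring
    rw [e, ih] at this
    linarith

theorem β_zero : P.β 0 = 0 := by
  have := P.β_J 0 (by norm_num)
  simpa using this

theorem β_surj : Function.Surjective P.β := by
  apply P.β_cont.surjective
  · refine Filter.tendsto_atTop_mono (f := fun z : ℝ => z - 1) (fun z => ?_)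
      (Filter.tendsto_atTop_add_const_right _ _ Filter.tendsto_id)
    have h1 : P.β (0 + (⌊z⌋ : ℤ)) ≤ P.β z := P.β_mono.monotone (by simpa using Int.floor_le z)
    rw [P.β_add_int, P.β_zero] at h1
    have := Int.lt_floor_add_one z
    linarith
  · refine Filter.tendsto_atBot_mono (f := fun z : ℝ => z + 1) (fun z => ?_)
      (Filter.tendsto_atBot_add_const_right _ _ Filter.tendsto_id)
    have h1 : P.β z ≤ P.β (0 + ((⌊z⌋ + 1 : ℤ) : ℝ)) := P.β_mono.monotone (by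
      push_cast; linarith [Int.lt_floor_add_one z])
    rw [P.β_add_int, P.β_zero] at h1
    have := Int.floor_le z
    push_cast at h1
    linarith

theorem Θ_mono : StrictMono P.Θ := by
  intro a b hab
  obtain ⟨x, rfl⟩ := P.β_surj a
  obtain ⟨y, rfl⟩ := P.β_surj b
  rw [P.Θ_β, P.Θ_β]
  have := P.β_mono.lt_iff_lt.mp hab
  exact P.β_mono (by linarith)

theorem Θ_add (s : ℝ) : P.Θ (s + 1) = P.Θ s + 1 := by
  obtain ⟨x, rfl⟩ := P.β_surj s
  rw [← P.β_add, P.Θ_β, P.Θ_β, ← P.β_add]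
  congr 1; ring

theorem Θ_add_int (s : ℝ) (n : ℤ) : P.Θ (s + n) = P.Θ s + n := by
  induction n using Int.induction_on with
  | zero => simp
  | succ k ih =>
    have := P.Θ_add (s + (k : ℤ))
    push_cast at *
    rw [← add_assoc, this, ih]; ring
  | pred k ih =>
    have := P.Θ_add (s + ((-(k : ℤ) - 1 : ℤ) : ℝ))
    push_cast at *
    have e : s + (-(k:ℝ) - 1) + 1 = s + -(k:ℝ) := by ring
    rw [e, ih] at this
    linarith

theorem lt_Θ (s : ℝ) : s < P.Θ s := by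
  obtain ⟨x, rfl⟩ := P.β_surj s
  rw [P.Θ_β]
  exact P.β_mono (by linarith)

theorem Θ_lt (s : ℝ) : P.Θ s < s + 1 := by
  obtain ⟨x, rfl⟩ := P.β_surj s
  rw [P.Θ_β, ← P.β_add]
  exact P.β_mono (by linarith)

theorem Φi_mono : StrictMono P.Φi := by
  intro a b hab
  rw [← P.Φ_mono.lt_iff_lt, P.Φ_Φi, P.Φ_Φi]
  exact hab

theorem Φi_cont : Continuous P.Φi :=
  P.Φi_mono.monotone.continuous_of_surjective (fun s => ⟨P.Φ s, P.Φi_Φ s⟩)

theorem G_mono : StrictMono P.G := by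
  intro a b hab
  rw [P.G_eq, P.G_eq]
  exact P.Φ_mono (by linarith [P.Φi_mono hab])

theorem G_cont : Continuous P.G := by
  have : P.G = fun s => P.Φ (P.Φi s + 1) := funext P.G_eq
  rw [this]
  exact P.Φ_cont.comp (P.Φi_cont.add continuous_const)

theorem E_cont : Continuous P.E := by
  have : P.E = fun s => P.G s - s - 1 := funext P.E_eq
  rw [this]
  exact (P.G_cont.sub continuous_id).sub continuous_const

theorem G_Gi (s : ℝ) : P.G (P.Gi s) = s := by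
  rw [P.G_eq, P.Gi_eq, P.Φi_Φ, sub_add_cancel, P.Φ_Φi]

theorem Gi_G (s : ℝ) : P.Gi (P.G s) = s := by
  rw [P.Gi_eq, P.G_eq, P.Φi_Φ, add_sub_cancel_right, P.Φ_Φi]

theorem G_Φ (s : ℝ) : P.G (P.Φ s) = P.Φ (s + 1) := by
  rw [P.G_eq, P.Φi_Φ]

theorem Φi_lo (s : ℝ) (hs : s ≤ 11 / 4) : P.Φi s = s := by
  have := P.Φi_Φ s
  rwa [P.Φ_lo s hs] at this

theorem Φ_add_ge (s : ℝ) : P.Φ s + 1 ≤ P.Φ (s + 1) := by
  by_cases h : s ≤ 11 / 4
  · rw [P.Φ_lo s h]; exact P.Φ_ge _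
  · push Not at h
    rw [P.Φ_hi (s + 1) (by linarith), P.Θ_add]
    linarith [P.Φ_le s]

theorem E_nonneg (s : ℝ) : 0 ≤ P.E s := by
  rw [P.E_eq, P.G_eq]
  have := P.Φ_add_ge (P.Φi s)
  rw [P.Φ_Φi] at this
  linarith

theorem E_lt (s : ℝ) : P.E s < 1 := by
  rw [P.E_eq, P.G_eq]
  have h1 := P.Φ_le (P.Φi s + 1)
  rw [P.Θ_add] at h1
  have h2 := P.Θ_lt (P.Φi s)
  have h3 := P.Φ_ge (P.Φi s)
  rw [P.Φ_Φi] at h3
  linarith

theorem E_lo (s : ℝ) (hs : s ≤ 7 / 4) : P.E s = 0 := by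
  rw [P.E_eq, P.G_eq, P.Φi_lo s (by linarith), P.Φ_lo (s + 1) (by linarith)]
  ring

theorem E_hi (s : ℝ) (hs : 17 / 4 ≤ s) : P.E s = 0 := by
  have h1 : 13 / 4 ≤ P.Φi s := by
    rw [← P.Φ_mono.le_iff_le, P.Φ_Φi, P.Φ_hi _ le_rfl]
    have := P.Θ_lt (13 / 4)
    linarith
  have h2 : P.Θ (P.Φi s) = s := by rw [← P.Φ_hi _ h1, P.Φ_Φi]
  rw [P.E_eq, P.G_eq, P.Φ_hi _ (by linarith), P.Θ_add, h2]
  ring

theorem E_add_lt (s t : ℝ) (h : s < t) : s + P.E s < t + P.E t := by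
  have := P.G_mono h
  rw [P.E_eq, P.E_eq]
  linarith

theorem G_ge (s : ℝ) : s + 1 ≤ P.G s := by
  have := P.E_nonneg s
  rw [P.E_eq] at this
  linarith

theorem G_lt (s : ℝ) : P.G s < s + 2 := by
  have := P.E_lt s
  rw [P.E_eq] at this
  linarith

/-- G + G^{-1} - 2 id in terms of E -/
theorem D_eq (s : ℝ) : P.G s + P.Gi s - 2 * s = P.E s - P.E (P.Gi s) := by
  rw [P.E_eq, P.E_eq, P.G_Gi]
  ring

theorem D_lo (s : ℝ) (hs : s ≤ 7 / 4) : P.G s + P.Gi s - 2 * s = 0 := by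
  rw [P.D_eq, P.E_lo s hs, P.E_lo (P.Gi s)]
  · ring
  · have := P.G_ge (P.Gi s)
    rw [P.G_Gi] at this
    linarith

theorem D_hi (s : ℝ) (hs : 21 / 4 ≤ s) : P.G s + P.Gi s - 2 * s = 0 := by
  rw [P.D_eq, P.E_hi s (by linarith), P.E_hi (P.Gi s)]
  · ring
  · by_contra h
    push Not at h
    have h1 := P.G_mono h
    rw [P.G_Gi] at h1
    have h2 := P.E_hi (17 / 4) le_rfl
    rw [P.E_eq] at h2
    linarith

/-- E(s+2) = Θ s - s for s in [1/4, 3/4] -/
theorem E_two (s : ℝ) (h1 : 1 / 4 ≤ s) (h2 : s ≤ 3 / 4) : P.E (s + 2) = P.Θ s - s := by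
  rw [P.E_eq, P.G_eq, P.Φi_lo _ (by linarith), P.Φ_hi _ (by linarith),
    show s + 2 + 1 = s + ((3 : ℤ) : ℝ) by push_cast; ring, P.Θ_add_int]
  push_cast; ring

theorem E_three (s : ℝ) (h1 : 1 / 4 ≤ s) : P.E (P.Θ s + 3) = 0 := by
  have h3 : P.Φ (s + 3) = P.Θ s + 3 := by
    rw [P.Φ_hi _ (by linarith), show s + 3 = s + ((3 : ℤ) : ℝ) by push_cast; ring, P.Θ_add_int]
    push_cast; ring
  rw [P.E_eq, ← h3, P.G_Φ, P.Φ_hi _ (by linarith), P.Θ_add, P.Φ_hi _ (by linarith)]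
  ring

end Prof

theorem md_spec (q : ℕ) (y : ℝ) : y = md q y + ⌊y / q⌋ * q := by
  unfold md; ring

theorem md_add (q : ℕ) (hq : 0 < q) (y : ℝ) (k : ℤ) : md q (y + k * q) = md q y := by
  have hq' : (q : ℝ) ≠ 0 := by positivity
  unfold md
  have : (y + k * q) / q = y / q + k := by field_simp
  rw [this, Int.floor_add_intCast]
  push_cast; ring

theorem md_nonneg (q : ℕ) (hq : 0 < q) (y : ℝ) : 0 ≤ md q y := by
  have hq' : (0 : ℝ) < q := by exact_mod_cast hq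
  have := Int.floor_le (y / q)
  rw [le_div_iff₀ hq'] at this
  unfold md; linarith [mul_comm (q : ℝ) ⌊y / q⌋]

theorem md_lt (q : ℕ) (hq : 0 < q) (y : ℝ) : md q y < q := by
  have hq' : (0 : ℝ) < q := by exact_mod_cast hq
  have := Int.lt_floor_add_one (y / q)
  rw [div_lt_iff₀ hq'] at this
  unfold md; linarith [mul_comm (q : ℝ) ⌊y / q⌋]

theorem md_self (q : ℕ) (hq : 0 < q) (y : ℝ) (h0 : 0 ≤ y) (h1 : y < q) : md q y = y := by
  have hq' : (0 : ℝ) < q := by exact_mod_cast hq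
  have : ⌊y / q⌋ = 0 := by
    rw [Int.floor_eq_zero_iff]
    constructor
    · positivity
    · rwa [div_lt_one hq']
  unfold md; rw [this]; simp

theorem Ep_eq (P : Prof) (q : ℕ) (hq : 16 ≤ q) (z : ℝ) (k : ℤ) (h1 : -11 ≤ z) (h2 : z ≤ 17) :
    P.E (md q (z + k * q)) = P.E z := by
  have hq' : (16 : ℝ) ≤ q := by exact_mod_cast hq
  rw [md_add q (by omega)]
  rcases lt_or_ge z 0 with h | h
  · have : md q z = z + q := by
      rw [← md_add q (by omega) z 1]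
      rw [show z + ((1 : ℤ) : ℝ) * q = z + q by push_cast; ring]
      exact md_self q (by omega) _ (by linarith) (by linarith)
    rw [this, P.E_hi _ (by linarith), P.E_lo _ (by linarith)]
  · rcases lt_or_ge z q with h' | h'
    · rw [md_self q (by omega) z h h']
    · have : md q z = z - q := by
        rw [← md_add q (by omega) z (-1)]
        rw [show z + ((-1 : ℤ) : ℝ) * q = z - q by push_cast; ring]
        exact md_self q (by omega) _ (by linarith) (by linarith)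
      rw [this, P.E_lo _ (by linarith), P.E_hi _ (by linarith)]

theorem Ep_eq0 (P : Prof) (q : ℕ) (hq : 16 ≤ q) (z : ℝ) (h1 : -11 ≤ z) (h2 : z ≤ 17) :
    P.E (md q z) = P.E z := by
  have := Ep_eq P q hq z 0 h1 h2
  simpa using this

theorem Ep_ne (P : Prof) (q : ℕ) (y : ℝ) (h : P.E (md q y) ≠ 0) :
    ∃ k : ℤ, 7 / 4 < y - k * q ∧ y - k * q < 17 / 4 := by
  refine ⟨⌊y / q⌋, ?_⟩
  have e : y - ⌊y / q⌋ * q = md q y := by unfold md; ring
  rw [e]
  constructor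
  · by_contra h'
    push Not at h'
    exact h (P.E_lo _ h')
  · by_contra h'
    push Not at h'
    exact h (P.E_hi _ h')

theorem Ep_add_lt (P : Prof) (q : ℕ) (hq : 16 ≤ q) (u v : ℝ) (h : u < v) :
    u + P.E (md q u) < v + P.E (md q v) := by
  by_cases h0 : P.E (md q u) = 0
  · rw [h0]
    linarith [P.E_nonneg (md q v)]
  · obtain ⟨k, hk1, hk2⟩ := Ep_ne P q u h0
    have e1 : P.E (md q u) = P.E (u - k * q) := by
      have := Ep_eq P q hq (u - k * q) k (by linarith) (by linarith)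
      rwa [sub_add_cancel] at this
    rcases le_or_gt (v - k * q) 17 with h' | h'
    · have e2 : P.E (md q v) = P.E (v - k * q) := by
        have := Ep_eq P q hq (v - k * q) k (by linarith) h'
        rwa [sub_add_cancel] at this
      have := P.E_add_lt (u - k * q) (v - k * q) (by linarith)
      rw [e1, e2]
      linarith
    · have := P.E_lt (md q u)
      have := P.E_nonneg (md q v)
      linarith

theorem Ep_cont (P : Prof) (q : ℕ) (hq : 16 ≤ q) : Continuous (fun u : ℝ => P.E (md q u)) := by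
  have hq' : (16 : ℝ) ≤ q := by exact_mod_cast hq
  have h1 : Continuous ((fun x : ℝ => P.E (q * x)) ∘ Int.fract) := by
    apply ContinuousOn.comp_fract''
    · exact (P.E_cont.comp (continuous_const.mul continuous_id)).continuousOn
    · simp only [mul_zero, mul_one]
      rw [P.E_lo 0 (by norm_num), P.E_hi q (by linarith)]
  have h2 : (fun u : ℝ => P.E (md q u)) =
      ((fun x : ℝ => P.E (q * x)) ∘ Int.fract) ∘ (fun u : ℝ => u / q) := by
    funext u
    simp only [Function.comp]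
    congr 1
    unfold md Int.fract
    have hne : (q : ℝ) ≠ 0 := by positivity
    field_simp
  rw [h2]
  exact h1.comp (continuous_id.div_const _)

theorem ar (q m : ℕ) (p r : ℤ) (h3 : (m : ℤ) * p - r * q = 1) (j x k : ℤ)
    (h : j * p = x + k * q) : ∃ l : ℤ, j = m * x + l * q := by
  refine ⟨m * k - r * j, ?_⟩
  have : j = j * ((m : ℤ) * p - r * q) := by rw [h3, mul_one]
  calc j = j * ((m : ℤ) * p - r * q) := this
    _ = m * (j * p) - r * q * j := by ring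
    _ = _ := by rw [h]; ring

theorem q16 (q m m2 : ℕ) (h1 : m2 < m) (h2 : q + m2 = 16 * m) : 16 ≤ q := by omega

theorem fh_add (P : Prof) (q : ℕ) (hq : 0 < q) (p : ℤ) (s : ℝ) (k : ℤ) :
    fh P q p (s + k * q) = fh P q p s + k * q := by
  unfold fh
  rw [show s + k * q + p - 1 = (s + p - 1) + k * q by ring, md_add q hq]
  ring

theorem fh_iter_add (P : Prof) (q : ℕ) (hq : 0 < q) (p : ℤ) (s : ℝ) (k : ℤ) (n : ℕ) :
    (fh P q p)^[n] (s + k * q) = (fh P q p)^[n] s + k * q := by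
  induction n with
  | zero => rfl
  | succ n ih => rw [Function.iterate_succ_apply', Function.iterate_succ_apply', ih, fh_add P q hq]

theorem fh_mono (P : Prof) (q : ℕ) (hq : 16 ≤ q) (p : ℤ) : StrictMono (fh P q p) := by
  intro a b hab
  have := Ep_add_lt P q hq (a + p - 1) (b + p - 1) (by linarith)
  unfold fh
  linarith

theorem fh_ge (P : Prof) (q : ℕ) (p : ℤ) (s : ℝ) : s + p ≤ fh P q p s := by
  unfold fh; linarith [P.E_nonneg (md q (s + p - 1))]

theorem fh_lt (P : Prof) (q : ℕ) (p : ℤ) (s : ℝ) : fh P q p s < s + p + 1 := by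
  unfold fh; linarith [P.E_lt (md q (s + p - 1))]

theorem fh_cont (P : Prof) (q : ℕ) (hq : 16 ≤ q) (p : ℤ) : Continuous (fh P q p) := by
  unfold fh
  exact (continuous_id.add continuous_const).add
    ((Ep_cont P q hq).comp ((continuous_id.add continuous_const).sub continuous_const))

theorem fh_surj (P : Prof) (q : ℕ) (hq : 16 ≤ q) (p : ℤ) : Function.Surjective (fh P q p) := by
  apply (fh_cont P q hq p).surjective
  · exact Filter.tendsto_atTop_mono (fun z => fh_ge P q p z)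
      (Filter.tendsto_atTop_add_const_right _ _ Filter.tendsto_id)
  · refine Filter.tendsto_atBot_mono (f := fun z : ℝ => z + (p + 1)) (fun z => ?_)
      (Filter.tendsto_atBot_add_const_right _ _ Filter.tendsto_id)
    linarith [fh_lt P q p z]

/-- properties of the conjugacy b (b-hat) -/
structure Comb (P : Prof) (q q' : ℕ) (p p' : ℤ) (b : ℝ → ℝ) : Prop where
  mono : StrictMono b
  surj : Function.Surjective b
  base : ∀ s, -1 / 4 ≤ s → s ≤ 63 / 4 → b s = P.β (s / 16)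
  add : ∀ s, b (s + q') = b s + q
  conj : ∀ s, fh P q p (b s) = b (s + p')

/-- the new ι -/
noncomputable def nu (P : Prof) (q m : ℕ) (p : ℤ) (ι b : ℝ → ℝ) (s : ℝ) : ℝ :=
  ι (Zf P q m p (wt ι m p) (b s))

theorem sl_pos (ι : ℝ → ℝ) (hι : StrictMono ι) (t : ℤ) : 0 < sl ι t := by
  have : ι (t + 1 / 4) < ι (t + 3 / 4) := hι (by linarith)
  unfold sl; linarith

theorem Rs_pos (ι : ℝ → ℝ) (hι : StrictMono ι) (m : ℕ) (hm : 0 < m) (p : ℤ) :
    0 < Rs ι m p := by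
  unfold Rs
  apply Finset.sum_pos
  · intro i _
    have h1 := sl_pos ι hι (1 + i * p)
    have h2 := sl_pos ι hι (1 + (i + 1) * p)
    positivity
  · exact ⟨0, by simpa using hm⟩

theorem wt_zero (ι : ℝ → ℝ) (m : ℕ) (p : ℤ) : wt ι m p 0 = 0 := by
  unfold wt; simp

theorem wt_top (ι : ℝ → ℝ) (hι : StrictMono ι) (m : ℕ) (hm : 0 < m) (p : ℤ) :
    wt ι m p m = 1 := by
  have := Rs_pos ι hι m hm p
  unfold wt
  rw [div_eq_one_iff_eq this.ne']
  rfl

theorem wt_succ (ι : ℝ → ℝ) (m : ℕ) (p : ℤ) (i : ℕ) :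
    wt ι m p (i + 1) = wt ι m p i +
      1 / (sl ι (1 + i * p) * sl ι (1 + (i + 1) * p)) / Rs ι m p := by
  unfold wt
  rw [Finset.sum_range_succ, add_div]

theorem wt_nonneg (ι : ℝ → ℝ) (hι : StrictMono ι) (m : ℕ) (hm : 0 < m) (p : ℤ) (i : ℕ) :
    0 ≤ wt ι m p i := by
  have := Rs_pos ι hι m hm p
  unfold wt
  apply div_nonneg _ this.le
  apply Finset.sum_nonneg
  intro j _
  have h1 := sl_pos ι hι (1 + j * p)
  have h2 := sl_pos ι hι (1 + (j + 1) * p)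
  positivity

theorem wt_mono (ι : ℝ → ℝ) (hι : StrictMono ι) (m : ℕ) (hm : 0 < m) (p : ℤ) :
    Monotone (wt ι m p) := by
  apply monotone_nat_of_le_succ
  intro i
  rw [wt_succ]
  have := Rs_pos ι hι m hm p
  have h1 := sl_pos ι hι (1 + i * p)
  have h2 := sl_pos ι hι (1 + (i + 1) * p)
  have : 0 < 1 / (sl ι (1 + i * p) * sl ι (1 + (i + 1) * p)) / Rs ι m p := by positivity
  linarith

theorem wt_le_one (ι : ℝ → ℝ) (hι : StrictMono ι) (m : ℕ) (hm : 0 < m) (p : ℤ) (i : ℕ)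
    (hi : i ≤ m) : wt ι m p i ≤ 1 := by
  have := wt_mono ι hι m hm p hi
  rwa [wt_top ι hι m hm p] at this

theorem FF_apply (ι : ℝ → ℝ) (hι : StrictMono ι) (p : ℤ) (s : ℝ) :
    FF ι p (ι s) = ι (s + p) := by
  unfold FF
  rw [Function.leftInverse_invFun hι.injective]

namespace Stage

variable {q m m2 : ℕ} {p r : ℤ} {ι : ℝ → ℝ} (h : Stage q m m2 p r ι)
include h

theorem m_pos : 0 < m := by have := h.m2_lt; omega

theorem q16 : 16 ≤ q := by have := h.m2_lt; have := h.q_eq; omega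

theorem add_int (s : ℝ) (k : ℤ) : ι (s + k * q) = ι s + k := by
  induction k using Int.induction_on with
  | zero => simp
  | succ k ih =>
    have := h.add_q (s + (k : ℤ) * q)
    push_cast at *
    rw [show s + ((k : ℝ) + 1) * q = s + k * q + q by ring, this, ih]; ring
  | pred k ih =>
    have := h.add_q (s + ((-(k : ℤ) - 1 : ℤ) : ℝ) * q)
    push_cast at *
    have e : s + (-(k:ℝ) - 1) * q + q = s + -(k:ℝ) * q := by ring
    rw [e, ih] at this
    linarith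

theorem sl_add (t k : ℤ) : sl ι (t + k * q) = sl ι t := by
  unfold sl
  push_cast
  rw [show (t : ℝ) + k * q + 3 / 4 = (t + 3 / 4) + k * q by ring,
    show (t : ℝ) + k * q + 1 / 4 = (t + 1 / 4) + k * q by ring, h.add_int, h.add_int]
  ring

/-- affine on the window -/
theorem win_sub (t : ℤ) (s s0 : ℝ) (h1 : 1 / 4 ≤ s) (h2 : s ≤ 3 / 4) (h3 : 1 / 4 ≤ s0)
    (h4 : s0 ≤ 3 / 4) : ι (s + t) - ι (s0 + t) = sl ι t * (s - s0) := by
  have a := h.win t s h1 h2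
  have b := h.win t s0 h3 h4
  rw [add_comm s, add_comm s0, a, b]; ring

/-- affine on the base interval, with period shift -/
theorem base_sub (i : ℕ) (hi : i ≤ m) (k : ℤ) (s s0 : ℝ) (h1 : 5 / 4 ≤ s) (h2 : s ≤ 59 / 4)
    (h3 : 5 / 4 ≤ s0) (h4 : s0 ≤ 59 / 4) :
    ι (s + i * p + k * q) - ι (s0 + i * p + k * q) = sl ι (1 + i * p) * (s - s0) := by
  rw [h.add_int, h.add_int, h.base i hi s h1 h2, h.base i hi s0 h3 h4]; ring

theorem base_sl (i : ℕ) (hi : i ≤ m) (k : ℕ) (hk : 1 ≤ k) (hk' : k ≤ 14) :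
    sl ι (k + i * p) = sl ι (1 + i * p) := by
  have hk1 : (1 : ℝ) ≤ k := by exact_mod_cast hk
  have hk2 : (k : ℝ) ≤ 14 := by exact_mod_cast hk'
  have := h.base_sub i hi 0 (k + 3 / 4) (k + 1 / 4) (by linarith) (by linarith) (by linarith)
    (by linarith)
  simp only [Int.cast_zero, zero_mul, add_zero] at this
  rw [show sl ι (k + i * p) = 2 * (ι (k + 3 / 4 + i * p) - ι (k + 1 / 4 + i * p)) by
    unfold sl; push_cast; rw [show (k : ℝ) + i * p + 3 / 4 = k + 3 / 4 + i * p by ring,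
      show (k : ℝ) + i * p + 1 / 4 = k + 1 / 4 + i * p by ring], this]
  ring

end Stage

/-- G + G^{-1} - 2 id -/
noncomputable def DD (P : Prof) (s : ℝ) : ℝ := P.G s + P.Gi s - 2 * s

end Pool.Agent.Helper320.TW
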