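import Mathlib

set_option autoImplicit false

namespace Pool.Agent.Helper320.TW

theorem eb_S_deriv_nonneg (x : ℝ) : 0 ≤ deriv Real.smoothTransition x :=
  Real.smoothTransition.monotone.deriv_nonneg

theorem eb_S_deriv_zero_left {x : ℝ} (hx : x ≤ 0) : deriv Real.smoothTransition x = 0 := by
  have h : IsLocalMin Real.smoothTransition x := by
    refine Filter.Eventually.of_forall fun y => ?_
    rw [Real.smoothTransition.zero_of_nonpos hx]
    exact Real.smoothTransition.nonneg y
  exact h.deriv_eq_zero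

theorem eb_S_deriv_zero_right {x : ℝ} (hx : 1 ≤ x) : deriv Real.smoothTransition x = 0 := by
  have h : IsLocalMax Real.smoothTransition x := by
    refine Filter.Eventually.of_forall fun y => ?_
    rw [Real.smoothTransition.one_of_one_le hx]
    exact Real.smoothTransition.le_one y
  exact h.deriv_eq_zero

/-- scaled transition -/
noncomputable def ebc (a b : ℝ) (u : ℝ) : ℝ := Real.smoothTransition (a * (u - b))

theorem ebc_hasDerivAt (a b u : ℝ) :
    HasDerivAt (ebc a b) (deriv Real.smoothTransition (a * (u - b)) * a) u := by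
  have h1 : HasDerivAt (fun u : ℝ => a * (u - b)) a u := by
    simpa using ((hasDerivAt_id u).sub_const b).const_mul a
  have h2 : HasDerivAt Real.smoothTransition (deriv Real.smoothTransition (a * (u - b)))
      (a * (u - b)) := by
    apply DifferentiableAt.hasDerivAt
    have : ContDiff ℝ ((1 : ℕ∞) : WithTop ℕ∞) Real.smoothTransition := Real.smoothTransition.contDiff
    exact (this.differentiable (by simp)).differentiableAt
  exact h2.comp u h1

theorem ebc_contDiff (a b : ℝ) : ContDiff ℝ 4 (ebc a b) := by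
  have h : ContDiff ℝ ((4 : ℕ∞) : WithTop ℕ∞) Real.smoothTransition := Real.smoothTransition.contDiff
  have h' : ContDiff ℝ 4 Real.smoothTransition := by exact_mod_cast h
  unfold ebc
  exact h'.comp (by fun_prop)

theorem ebc_zero {a b u : ℝ} (ha : 0 < a) (h : u ≤ b) : ebc a b u = 0 := by
  unfold ebc
  apply Real.smoothTransition.zero_of_nonpos
  exact mul_nonpos_of_nonneg_of_nonpos ha.le (by linarith)

theorem ebc_one {a b u : ℝ} (h : 1 ≤ a * (u - b)) : ebc a b u = 1 := by
  unfold ebc
  exact Real.smoothTransition.one_of_one_le h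

theorem ebc_nonneg (a b u : ℝ) : 0 ≤ ebc a b u := Real.smoothTransition.nonneg _
theorem ebc_le_one (a b u : ℝ) : ebc a b u ≤ 1 := Real.smoothTransition.le_one _

noncomputable def ebt (u : ℝ) : ℝ :=
  16 * u + ebc 128 (1 / 128) u * (1 / 4 - 14 * u) + ebc 32 (3 / 64) u * (3 / 16 - 7 / 4 * u)
    + ebc 128 (63 / 64) u * (63 / 4 * u - 247 / 16)

theorem ebt_contDiff : ContDiff ℝ 4 ebt := by
  have h1 := ebc_contDiff 128 (1 / 128)
  have h2 := ebc_contDiff 32 (3 / 64)
  have h3 := ebc_contDiff 128 (63 / 64)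
  unfold ebt
  fun_prop

theorem ebt_deriv_pos (u : ℝ) : 0 < deriv ebt u := by
  have h1 := ebc_hasDerivAt 128 (1 / 128) u
  have h2 := ebc_hasDerivAt 32 (3 / 64) u
  have h3 := ebc_hasDerivAt 128 (63 / 64) u
  have l1 : HasDerivAt (fun u : ℝ => 1 / 4 - 14 * u) (-14) u := by
    simpa using ((hasDerivAt_id u).const_mul 14).const_sub ((1 : ℝ) / 4)
  have l2 : HasDerivAt (fun u : ℝ => 3 / 16 - 7 / 4 * u) (-(7 / 4)) u := by
    simpa using ((hasDerivAt_id u).const_mul (7 / 4)).const_sub ((3 : ℝ) / 16)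
  have l3 : HasDerivAt (fun u : ℝ => 63 / 4 * u - 247 / 16) (63 / 4) u := by
    simpa using ((hasDerivAt_id u).const_mul (63 / 4)).sub_const ((247 : ℝ) / 16)
  have l0 : HasDerivAt (fun u : ℝ => 16 * u) 16 u := by
    simpa using (hasDerivAt_id u).const_mul 16
  have h := ((l0.add (h1.mul l1)).add (h2.mul l2)).add (h3.mul l3)
  have hd : deriv ebt u = _ := h.deriv
  rw [hd]
  have a1 := ebc_le_one 128 (1 / 128) u
  have a2 := ebc_le_one 32 (3 / 64) u
  have a3 := ebc_nonneg 128 (63 / 64) u
  have b1 : 0 ≤ deriv Real.smoothTransition (128 * (u - 1 / 128)) * 128 * (1 / 4 - 14 * u) := by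
    rcases le_total u (1 / 64) with h | h
    · have := eb_S_deriv_nonneg (128 * (u - 1 / 128))
      have h' : 0 ≤ 1 / 4 - 14 * u := by linarith
      positivity
    · rw [eb_S_deriv_zero_right (by linarith)]; simp
  have b2 : 0 ≤ deriv Real.smoothTransition (32 * (u - 3 / 64)) * 32 * (3 / 16 - 7 / 4 * u) := by
    rcases le_total u (5 / 64) with h | h
    · have := eb_S_deriv_nonneg (32 * (u - 3 / 64))
      have h' : 0 ≤ 3 / 16 - 7 / 4 * u := by linarith
      positivity
    · rw [eb_S_deriv_zero_right (by linarith)]; simp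
  have b3 : 0 ≤ deriv Real.smoothTransition (128 * (u - 63 / 64)) * 128 *
      (63 / 4 * u - 247 / 16) := by
    rcases le_total (63 / 64) u with h | h
    · have := eb_S_deriv_nonneg (128 * (u - 63 / 64))
      have h' : 0 ≤ 63 / 4 * u - 247 / 16 := by linarith
      positivity
    · rw [eb_S_deriv_zero_left (by linarith)]; simp
  linarith

theorem ebt_low {u : ℝ} (h : u ≤ 1 / 128) : ebt u = 16 * u := by
  unfold ebt
  rw [ebc_zero (by norm_num) h, ebc_zero (by norm_num) (by linarith),
    ebc_zero (by norm_num) (by linarith)]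
  ring

theorem ebt_high {u : ℝ} (h : 127 / 128 ≤ u) : ebt u = 1 + 16 * (u - 1) := by
  unfold ebt
  rw [ebc_one (by linarith), ebc_one (by linarith), ebc_one (by linarith)]
  ring

theorem ebt_A {u : ℝ} (h1 : 1 / 64 ≤ u) (h2 : u ≤ 3 / 64) : ebt u = 1 / 4 + 2 * u := by
  unfold ebt
  rw [ebc_one (by linarith), ebc_zero (by norm_num) (by linarith),
    ebc_zero (by norm_num) (by linarith)]
  ring

theorem ebt_B {u : ℝ} (h1 : 5 / 64 ≤ u) (h2 : u ≤ 63 / 64) : ebt u = 7 / 16 + u / 4 := by
  unfold ebt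
  rw [ebc_one (by linarith), ebc_one (by linarith),
    ebc_zero (by norm_num) (by linarith)]
  ring

noncomputable def ebeta (z : ℝ) : ℝ := ⌊z⌋ + ebt (Int.fract z)

theorem ebeta_local (n : ℤ) {z : ℝ} (h1 : (n : ℝ) - 1 / 128 < z) (h2 : z < n + 1 + 1 / 128) :
    ebeta z = n + ebt (z - n) := by
  unfold ebeta
  rcases lt_or_ge z n with h | h
  · have hf : ⌊z⌋ = n - 1 := by
      rw [Int.floor_eq_iff]; push_cast; constructor <;> linarith
    rw [Int.fract, hf]
    push_cast
    rw [ebt_high (by linarith), ebt_low (by linarith)]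
    ring
  · rcases lt_or_ge z (n + 1) with h' | h'
    · have hf : ⌊z⌋ = n := by
        rw [Int.floor_eq_iff]; constructor <;> linarith
      rw [Int.fract, hf]
    · have hf : ⌊z⌋ = n + 1 := by
        rw [Int.floor_eq_iff]; push_cast; constructor <;> linarith
      rw [Int.fract, hf]
      push_cast
      rw [ebt_low (by linarith), ebt_high (by linarith)]
      ring

theorem ebeta_eventually (z : ℝ) :
    ebeta =ᶠ[nhds z] fun w => (⌊z⌋ : ℝ) + ebt (w - ⌊z⌋) := by
  have h1 : (⌊z⌋ : ℝ) - 1 / 128 < z := by linarith [Int.floor_le z]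
  have h2 : z < (⌊z⌋ : ℝ) + 1 + 1 / 128 := by linarith [Int.lt_floor_add_one z]
  filter_upwards [Ioo_mem_nhds h1 h2] with w hw
  exact ebeta_local ⌊z⌋ hw.1 hw.2

theorem exists_beta : ∃ β : ℝ → ℝ, ContDiff ℝ 4 β ∧ (∀ z, 0 < deriv β z) ∧
    (∀ z, β (z + 1) = β z + 1) ∧
    (∀ z, |z| ≤ 1 / 128 → β z = 16 * z) ∧
    (∀ z, 1 / 64 ≤ z → z ≤ 3 / 64 → β z = 1 / 4 + 2 * z) ∧
    (∀ z, 5 / 64 ≤ z → z ≤ 63 / 64 → β z = 7 / 16 + z / 4) := by
  refine ⟨ebeta, ?_, ?_, ?_, ?_, ?_, ?_⟩
  · rw [contDiff_iff_contDiffAt]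
    intro z
    refine ContDiffAt.congr_of_eventuallyEq ?_ (ebeta_eventually z)
    have := ebt_contDiff
    exact ContDiff.contDiffAt (by fun_prop)
  · intro z
    rw [(ebeta_eventually z).deriv_eq, deriv_const_add, deriv_comp_sub_const]
    exact ebt_deriv_pos _
  · intro z
    unfold ebeta
    rw [Int.floor_add_one, Int.fract_add_one]
    push_cast
    ring
  · intro z hz
    rcases le_total 0 z with h | h
    · rw [abs_of_nonneg h] at hz
      rw [ebeta_local 0 (by push_cast; linarith) (by push_cast; linarith)]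
      push_cast
      rw [ebt_low (by linarith)]
      ring
    · rw [abs_of_nonpos h] at hz
      rw [ebeta_local (-1) (by push_cast; linarith) (by push_cast; linarith)]
      push_cast
      rw [ebt_high (by linarith)]
      ring
  · intro z h1 h2
    rw [ebeta_local 0 (by push_cast; linarith) (by push_cast; linarith)]
    push_cast
    rw [ebt_A (by linarith) (by linarith)]
    ring
  · intro z h1 h2
    rw [ebeta_local 0 (by push_cast; linarith) (by push_cast; linarith)]
    push_cast
    rw [ebt_B (by linarith) (by linarith)]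
    ring

end Pool.Agent.Helper320.TW
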