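import Mathlib
import Pool.Agent.Helper320.TWBasics

set_option autoImplicit false

namespace Pool.Agent.Helper320.TW

theorem fh_key (P : Prof) (q m : ℕ) (p r : ℤ) (h3 : (m : ℤ) * p - r * q = 1) (s : ℝ) (i : ℕ)
    (h : P.E (md q (s + i * p + p - 1)) ≠ 0) :
    ∃ x l : ℤ, 11 / 4 - s < x ∧ (x : ℝ) < 21 / 4 - s ∧ ((i : ℤ) + 1) = m * x + l * q := by
  obtain ⟨k, hk1, hk2⟩ := Ep_ne P q _ h
  obtain ⟨l, hl⟩ := ar q m p r h3 ((i : ℤ) + 1) (((i : ℤ) + 1) * p - k * q) k (by ring)
  refine ⟨((i : ℤ) + 1) * p - k * q, l, ?_, ?_, hl⟩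
  · push_cast; linarith
  · push_cast; linarith

theorem fh_A (P : Prof) (q m m2 : ℕ) (p r : ℤ) (h1 : m2 < m) (h2 : q + m2 = 16 * m)
    (h3 : (m : ℤ) * p - r * q = 1) (s : ℝ) (hs : -1 / 2 ≤ s) (hs' : s ≤ 27 / 2) :
    (∀ i : ℕ, i < m → (fh P q p)^[i] s = s + i * p) ∧
      (fh P q p)^[m] s = P.G s + r * q := by
  have hq := q16 q m m2 h1 h2
  have A : ∀ i : ℕ, i < m → (fh P q p)^[i] s = s + i * p := by
    intro i
    induction i with
    | zero => intro _; simp
    | succ i ih =>
      intro hi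
      rw [Function.iterate_succ_apply', ih (by omega)]
      have hE : P.E (md q (s + i * p + p - 1)) = 0 := by
        by_contra hne
        obtain ⟨x, l, hx1, hx2, hl⟩ := fh_key P q m p r h3 s i hne
        have hx3 : (-10 : ℤ) ≤ x := by
          have : (-11 : ℝ) < x := by linarith
          have : (-11 : ℤ) < x := by exact_mod_cast this
          omega
        have hx4 : x ≤ (5 : ℤ) := by
          have : (x : ℝ) < 6 := by linarith
          have : x < (6 : ℤ) := by exact_mod_cast this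
          omega
        have hlt : l ≤ 0 := by
          by_contra hc
          have : (q : ℤ) ≤ l * q := by nlinarith
          interval_cases x <;> omega
        have hgt : 0 ≤ l := by
          by_contra hc
          have : l * q ≤ -(q : ℤ) := by nlinarith
          interval_cases x <;> omega
        have hl0 : l = 0 := le_antisymm hlt hgt
        subst hl0
        interval_cases x <;> omega
      unfold fh
      rw [hE]
      push_cast; ring
  refine ⟨A, ?_⟩
  obtain ⟨m0, rfl⟩ : ∃ m0, m = m0 + 1 := ⟨m - 1, by omega⟩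
  rw [Function.iterate_succ_apply', A m0 (by omega)]
  have e3 : ((m0 : ℝ) + 1) * p - r * q = 1 := by
    have : (((((m0 + 1 : ℕ) : ℤ) * p - r * q : ℤ)) : ℝ) = ((1 : ℤ) : ℝ) := by rw [h3]
    push_cast at this
    exact this
  have e4 : s + m0 * p + p - 1 = s + r * q := by linarith
  unfold fh
  rw [e4, Ep_eq P q hq s r (by linarith) (by linarith), P.E_eq]
  linarith

theorem fh_C (P : Prof) (q m m2 : ℕ) (p r : ℤ) (h1 : m2 < m) (h2 : q + m2 = 16 * m)
    (h3 : (m : ℤ) * p - r * q = 1) (s : ℝ) (hs : 23 / 2 ≤ s) (hs' : s ≤ 14) (j : ℕ)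
    (hj : j + m2 ≤ 4 * m) : (fh P q p)^[j] s = s + j * p := by
  revert hj
  induction j with
  | zero => intro _; simp
  | succ i ih =>
    intro hi
    rw [Function.iterate_succ_apply', ih (by omega)]
    have hE : P.E (md q (s + i * p + p - 1)) = 0 := by
      by_contra hne
      obtain ⟨x, l, hx1, hx2, hl⟩ := fh_key P q m p r h3 s i hne
      have hx3 : (-11 : ℤ) ≤ x := by
        have : (-12 : ℝ) < x := by linarith
        have : (-12 : ℤ) < x := by exact_mod_cast this
        omega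
      have hx4 : x ≤ (-7 : ℤ) := by
        have : (x : ℝ) < -6 := by linarith
        have : x < (-6 : ℤ) := by exact_mod_cast this
        omega
      rcases le_or_gt l 0 with hc | hc
      · have : l * q ≤ 0 := by nlinarith
        interval_cases x <;> omega
      · have : (q : ℤ) ≤ l * q := by nlinarith
        interval_cases x <;> omega
    unfold fh
    rw [hE]
    push_cast; ring

theorem fh_B (P : Prof) (q m m2 : ℕ) (p r : ℤ) (h1 : m2 < m) (h2 : q + m2 = 16 * m)
    (h3 : (m : ℤ) * p - r * q = 1) (s : ℝ) (hs : -1 / 2 ≤ s) (hs' : s ≤ 1) (k : ℕ)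
    (hk : k ≤ 12) : (fh P q p)^[k * m] s = P.Φ (s + k) + k * r * q := by
  have hq0 : 0 < q := by omega
  induction k with
  | zero =>
    rw [Nat.zero_mul, Function.iterate_zero, id, Nat.cast_zero, add_zero, P.Φ_lo s (by linarith)]
    ring
  | succ k ih =>
    have ih' := ih (by omega)
    have hk' : (k : ℝ) ≤ 11 := by exact_mod_cast (by omega : k ≤ 11)
    have hk0 : (0 : ℝ) ≤ k := Nat.cast_nonneg k
    have hA := (fh_A P q m m2 p r h1 h2 h3 (P.Φ (s + k)) (by linarith [P.Φ_ge (s + k)])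
      (by linarith [P.Φ_le (s + k), P.Θ_lt (s + k)])).2
    rw [show (k + 1) * m = m + k * m by ring, Function.iterate_add_apply, ih',
      show P.Φ (s + k) + (k : ℝ) * r * q = P.Φ (s + k) + (((k : ℤ) * r : ℤ) : ℝ) * q by
        push_cast; ring,
      fh_iter_add P q hq0, hA, P.G_Φ]
    push_cast
    rw [show s + (k : ℝ) + 1 = s + ((k : ℝ) + 1) by ring]
    ring

theorem fh_12 (P : Prof) (q m m2 : ℕ) (p r : ℤ) (h1 : m2 < m) (h2 : q + m2 = 16 * m)
    (h3 : (m : ℤ) * p - r * q = 1) (s : ℝ) (hs : -1 / 2 ≤ s) (hs' : s ≤ 1) (j : ℕ)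
    (hj : j + m2 ≤ 4 * m) : (fh P q p)^[j + 12 * m] s = P.Θ s + ((j + 12 * m : ℕ) : ℝ) * p := by
  have hq0 : 0 < q := by omega
  have h3' : (m : ℝ) * p - r * q = 1 := by exact_mod_cast h3
  have hB := fh_B P q m m2 p r h1 h2 h3 s hs hs' 12 le_rfl
  have hΦ : P.Φ (s + ((12 : ℕ) : ℝ)) = P.Θ s + 12 := by
    rw [P.Φ_hi _ (by push_cast; linarith)]
    have := P.Θ_add_int s 12
    push_cast at this ⊢
    exact this
  rw [hΦ] at hB
  rw [Function.iterate_add_apply, hB,
    show P.Θ s + 12 + ((12 : ℕ) : ℝ) * r * q = (P.Θ s + 12) + (((12 : ℤ) * r : ℤ) : ℝ) * q by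
      push_cast; ring,
    fh_iter_add P q hq0,
    fh_C P q m m2 p r h1 h2 h3 (P.Θ s + 12) (by linarith [P.lt_Θ s]) (by linarith [P.Θ_lt s]) j hj]
  push_cast
  linear_combination -12 * h3'

theorem fh_q (P : Prof) (q m m2 : ℕ) (p r : ℤ) (h1 : m2 < m) (h2 : q + m2 = 16 * m)
    (h3 : (m : ℤ) * p - r * q = 1) (s : ℝ) (hs : -1 / 2 ≤ s) (hs' : s ≤ 1) :
    (fh P q p)^[q] s = P.Θ s + q * p := by
  have h := fh_12 P q m m2 p r h1 h2 h3 s hs hs' (4 * m - m2) (by omega)
  have e : 4 * m - m2 + 12 * m = q := by omega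
  rw [e] at h
  exact h

theorem fh_G (P : Prof) (q m m2 : ℕ) (p r : ℤ) (h1 : m2 < m) (h2 : q + m2 = 16 * m)
    (h3 : (m : ℤ) * p - r * q = 1) (s : ℝ) (hs : 1 / 4 ≤ s) (hs' : s ≤ 3 / 4) (t : ℕ)
    (ht : t ≤ q) :
    (t < 3 * m → (fh P q p)^[t] s = s + t * p) ∧
      (3 * m ≤ t → (fh P q p)^[t] s = P.Θ s + t * p) := by
  have hq0 : 0 < q := by omega
  have hm0 : 0 < m := by omega
  have h3' : (m : ℝ) * p - r * q = 1 := by exact_mod_cast h3
  obtain ⟨i, k, him, hdm⟩ : ∃ i k : ℕ, i < m ∧ t = i + k * m := by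
    refine ⟨t % m, t / m, Nat.mod_lt t hm0, ?_⟩
    have := Nat.mod_add_div t m
    rw [mul_comm] at this
    exact this.symm
  constructor
  · intro htm
    have hk : k ≤ 2 := by
      by_contra hc
      have : 3 * m ≤ k * m := Nat.mul_le_mul_right _ (by omega)
      omega
    have hkR : (k : ℝ) ≤ 2 := by exact_mod_cast hk
    have hk0 : (0 : ℝ) ≤ (k : ℝ) := Nat.cast_nonneg _
    have hB := fh_B P q m m2 p r h1 h2 h3 s (by linarith) (by linarith) k (by omega)
    rw [P.Φ_lo _ (by linarith)] at hB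
    have hA := (fh_A P q m m2 p r h1 h2 h3 (s + (k : ℝ)) (by linarith)
      (by linarith)).1 i him
    rw [hdm, Function.iterate_add_apply, hB,
      show s + (k : ℝ) + (k : ℝ) * r * q =
        s + (k : ℝ) + (((k : ℤ) * r : ℤ) : ℝ) * q by push_cast; ring,
      fh_iter_add P q hq0, hA]
    push_cast
    linear_combination -(k : ℝ) * h3'
  · intro htm
    rcases lt_or_ge t (12 * m) with h12 | h12
    · have hk : k ≤ 11 := by
        by_contra hc
        have : 12 * m ≤ k * m := Nat.mul_le_mul_right _ (by omega)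
        omega
      have hk3 : 3 ≤ k := by
        by_contra hc
        have : k * m ≤ 2 * m := Nat.mul_le_mul_right _ (by omega)
        omega
      have hkR : (k : ℝ) ≤ 11 := by exact_mod_cast hk
      have hk3R : (3 : ℝ) ≤ (k : ℝ) := by exact_mod_cast hk3
      have hB := fh_B P q m m2 p r h1 h2 h3 s (by linarith) (by linarith) k (by omega)
      have hΘ : P.Θ (s + (k : ℝ)) = P.Θ s + (k : ℝ) := by
        have := P.Θ_add_int s (k : ℤ)
        rwa [Int.cast_natCast] at this
      rw [P.Φ_hi _ (by linarith), hΘ] at hB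
      have hA := (fh_A P q m m2 p r h1 h2 h3 (P.Θ s + (k : ℝ))
        (by linarith [P.lt_Θ s]) (by linarith [P.Θ_lt s])).1 i him
      rw [hdm, Function.iterate_add_apply, hB,
        show P.Θ s + (k : ℝ) + (k : ℝ) * r * q =
          P.Θ s + (k : ℝ) + (((k : ℤ) * r : ℤ) : ℝ) * q by push_cast; ring,
        fh_iter_add P q hq0, hA]
      push_cast
      linear_combination -(k : ℝ) * h3'
    · have h := fh_12 P q m m2 p r h1 h2 h3 s (by linarith) (by linarith) (t - 12 * m) (by omega)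
      have e : t - 12 * m + 12 * m = t := by omega
      rw [e] at h
      exact h

end Pool.Agent.Helper320.TW
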