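import Mathlib
import Pool.Agent.Helper320.TWOrb

set_option autoImplicit false

namespace Pool.Agent.Helper320.TW

/-- a strictly monotone group element moving every point up -/
theorem aux_zpow_strictMono (M : ℝ ≃o ℝ) (u : ℝ) (h : u < M u) : StrictMono (fun k : ℤ => (M ^ k) u) := by
  apply strictMono_int_of_lt_succ
  intro k
  show (M ^ k) u < (M ^ (k + 1)) u
  rw [zpow_add_one, RelIso.mul_apply]
  exact (M ^ k).strictMono h

theorem comb (P : Prof) (q m m2 : ℕ) (p r : ℤ) (h1 : m2 < m) (h2 : q + m2 = 16 * m)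
    (h3 : (m : ℤ) * p - r * q = 1) (q' : ℕ) (hq' : q' + m = 16 * q) :
    ∃ b : ℝ → ℝ, StrictMono b ∧ Function.Surjective b ∧
      (∀ s, -1 / 4 ≤ s → s ≤ 63 / 4 → b s = P.β (s / 16)) ∧
      (∀ s, b (s + q') = b s + q) ∧
      (∀ s, fh P q p (b s) = b (s + ((16 * p - r : ℤ) : ℝ))) := by
  have hq16 : 16 ≤ q := q16 q m m2 h1 h2
  have hq0 : 0 < q := by omega
  -- the group elements
  let F : ℝ ≃o ℝ := (fh_mono P q hq16 p).orderIsoOfSurjective _ (fh_surj P q hq16 p)
  let T : ℝ ≃o ℝ := OrderIso.addRight (q : ℝ)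
  have hF : ∀ y, F y = fh P q p y := fun y => rfl
  have hT : ∀ y, T y = y + q := fun y => rfl
  have hFn : ∀ (n : ℕ) (y : ℝ), (F ^ n) y = (fh P q p)^[n] y := by
    intro n
    induction n with
    | zero => intro y; simp
    | succ n ih =>
      intro y
      rw [pow_succ', RelIso.mul_apply, ih, Function.iterate_succ_apply', hF]
  have hTz : ∀ (k : ℤ) (y : ℝ), (T ^ k) y = y + k * q := by
    intro k
    induction k using Int.induction_on with
    | zero => intro y; simp
    | succ n ih =>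
      intro y
      rw [zpow_add_one, RelIso.mul_apply, hT, ih]
      push_cast; ring
    | pred n ih =>
      intro y
      have h := ih (T⁻¹ y)
      have e : T (T⁻¹ y) = y := RelIso.apply_inv_self _ _
      rw [hT] at e
      rw [zpow_sub_one, RelIso.mul_apply, h]
      push_cast
      push_cast at e
      linarith
  have hFT : Commute F T := by
    show F * T = T * F
    apply RelIso.ext
    intro y
    rw [RelIso.mul_apply, RelIso.mul_apply, hT, hT, hF, hF]
    have := fh_add P q hq0 p y 1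
    simpa using this
  let g : ℤ → ℤ → (ℝ ≃o ℝ) := fun a b => F ^ a * T ^ b
  have hg_mul : ∀ a b c d, g a b * g c d = g (a + c) (b + d) := by
    intro a b c d
    show F ^ a * T ^ b * (F ^ c * T ^ d) = F ^ (a + c) * T ^ (b + d)
    rw [zpow_add, zpow_add, mul_assoc, mul_assoc, ← mul_assoc (T ^ b), ← mul_assoc (F ^ c),
      ((hFT.zpow_zpow c b).eq)]
  have hg_comm : ∀ a b c d, g a b * g c d = g c d * g a b := by
    intro a b c d
    rw [hg_mul, hg_mul, add_comm a c, add_comm b d]
  have hg_zero : g 0 0 = 1 := by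
    show F ^ (0 : ℤ) * T ^ (0 : ℤ) = 1
    simp
  have hg_inv : ∀ a b, (g a b)⁻¹ = g (-a) (-b) := by
    intro a b
    rw [inv_eq_iff_mul_eq_one, hg_mul]
    simp [hg_zero]
  have hg_pow : ∀ (a b k : ℤ), (g a b) ^ k = g (k * a) (k * b) := by
    intro a b k
    induction k using Int.induction_on with
    | zero => simp [hg_zero]
    | succ n ih => rw [zpow_add_one, ih, hg_mul]; congr 1 <;> ring
    | pred n ih => rw [zpow_sub_one, ih, hg_inv, hg_mul]; congr 1 <;> ring
  have hg_app : ∀ (n : ℕ) (b : ℤ) (y : ℝ), g n b y = (fh P q p)^[n] y + b * q := by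
    intro n b y
    show (F ^ (n : ℤ) * T ^ b) y = _
    rw [RelIso.mul_apply, hTz, zpow_natCast, hFn]
    exact fh_iter_add P q hq0 p y b n
  set M := g q (-p) with hM
  set N := g m (-r) with hN
  set p1 : ℤ := 16 * p - r with hp1
  set H := g q' (-p1) with hH
  have hq'z : (q' : ℤ) = 16 * q - m := by omega
  have hHN : H * N = M ^ (16 : ℤ) := by
    rw [hH, hN, hM, hg_mul, hg_pow]
    congr 1
    · rw [hq'z]; ring
    · rw [hp1]; ring
  have hMN : M * N = N * M := hg_comm _ _ _ _
  have hHM : H * M = M * H := hg_comm _ _ _ _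
  have hHNc : H * N = N * H := hg_comm _ _ _ _
  -- special point
  set u := P.β (-(1 / 64)) with hu
  have huv : u = -81 / 256 := by
    have e1 := P.β_add (-(1 / 64))
    have e2 := P.β_B (63 / 64) (by norm_num) (by norm_num)
    have e3 : (-(1 / 64) : ℝ) + 1 = 63 / 64 := by norm_num
    rw [e3, e2, ← hu] at e1
    linarith
  have hβlo : ∀ z, -(1 / 64) ≤ z → -1 / 2 ≤ P.β z := by
    intro z hz
    have := P.β_mono.monotone hz
    rw [← hu, huv] at this
    linarith
  have hβhi : ∀ z, z ≤ 63 / 64 → P.β z ≤ 1 := by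
    intro z hz
    have := P.β_mono.monotone hz
    rw [P.β_B (63 / 64) (by norm_num) (by norm_num)] at this
    linarith
  have hMβ : ∀ z, -(1 / 64) ≤ z → z ≤ 63 / 64 → M (P.β z) = P.β (z + 1 / 16) := by
    intro z hz1 hz2
    rw [hM, hg_app, fh_q P q m m2 p r h1 h2 h3 _ (hβlo z hz1) (hβhi z hz2), P.Θ_β]
    push_cast; ring
  have hMk : ∀ (k : ℕ) (z : ℝ), -(1 / 64) ≤ z → z + k / 16 ≤ 67 / 64 →
      (M ^ (k : ℤ)) (P.β z) = P.β (z + k / 16) := by
    intro k
    induction k with
    | zero => intro z _ _; simp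
    | succ k ih =>
      intro z hz1 hz2
      push_cast at hz2 ⊢
      have hk0 : (0 : ℝ) ≤ (k : ℝ) / 16 := by positivity
      rw [add_comm (k : ℤ) 1, zpow_add, zpow_one, RelIso.mul_apply,
        ih z hz1 (by linarith), hMβ _ (by linarith) (by linarith)]
      congr 1; ring
  -- N moves points up by at least one
  have hNge : ∀ y, y + 1 ≤ N y := by
    intro y
    have hit : ∀ n : ℕ, y + n * p ≤ (fh P q p)^[n] y := by
      intro n
      induction n with
      | zero => simp
      | succ n ih =>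
        rw [Function.iterate_succ_apply']
        have := fh_ge P q p ((fh P q p)^[n] y)
        push_cast
        linarith
    rw [hN, hg_app]
    have h4 := hit m
    have h5 : (m : ℝ) * p - r * q = 1 := by exact_mod_cast h3
    push_cast
    linarith
  have hNβ : ∀ z, -(1 / 64) ≤ z → z ≤ 3 / 64 → N (P.β z) = P.β z + 1 := by
    intro z hz1 hz2
    have hb1 := hβhi z (by linarith)
    rw [hN, hg_app, (fh_A P q m m2 p r h1 h2 h3 _ (hβlo z hz1) (by linarith)).2]
    have h4 := P.E_lo (P.β z) (by linarith)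
    rw [P.E_eq] at h4
    push_cast
    linarith
  have hHβ : ∀ z, -(1 / 64) ≤ z → z ≤ 3 / 64 → H (P.β z) = P.β z := by
    intro z hz1 hz2
    have h4 : (M ^ (16 : ℤ)) (P.β z) = P.β z + 1 := by
      have := hMk 16 z hz1 (by push_cast; linarith)
      rw [show ((16 : ℕ) : ℤ) = 16 by rfl] at this
      rw [this, ← P.β_add]
      congr 1; push_cast; ring
    have h5 : N (H (P.β z)) = N (P.β z) := by
      rw [← RelIso.mul_apply, ← hHNc, hHN, h4, hNβ z hz1 hz2]
    exact N.injective h5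
  have hMu : M u = P.β (3 / 64) := by
    rw [hu, hMβ _ (by norm_num) (by norm_num)]
    congr 1; norm_num
  have huMu : u < M u := by
    rw [hMu, hu]; exact P.β_mono (by norm_num)
  have hmonoM := aux_zpow_strictMono M u huMu
  have hM16u : (M ^ (16 : ℤ)) u = N u := by
    rw [← hHN, hHNc, RelIso.mul_apply, hu, hHβ _ le_rfl (by norm_num)]
  have hcommZ : ∀ (k : ℤ) (y : ℝ), N ((M ^ k) y) = (M ^ k) (N y) := by
    intro k y
    rw [← RelIso.mul_apply, ← RelIso.mul_apply]
    congr 1
    exact ((show Commute M N from hMN).zpow_left k).eq.symm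
  have hup : ∀ j : ℕ, u + j ≤ (M ^ (16 * (j : ℤ))) u := by
    intro j
    induction j with
    | zero => simp
    | succ j ih =>
      have e : (M ^ (16 * ((j + 1 : ℕ) : ℤ))) u = N ((M ^ (16 * (j : ℤ))) u) := by
        rw [hcommZ, ← hM16u, ← RelIso.mul_apply, ← zpow_add]
        congr 2
      rw [e]
      have := hNge ((M ^ (16 * (j : ℤ))) u)
      push_cast
      linarith
  have hdown : ∀ j : ℕ, (M ^ (-(16 * (j : ℤ)))) u ≤ u - j := by
    intro j
    induction j with
    | zero => simp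
    | succ j ih =>
      have e : N ((M ^ (-(16 * ((j + 1 : ℕ) : ℤ)))) u) = (M ^ (-(16 * (j : ℤ)))) u := by
        rw [hcommZ, ← hM16u, ← RelIso.mul_apply, ← zpow_add]
        congr 2
        push_cast; ring
      have := hNge ((M ^ (-(16 * ((j + 1 : ℕ) : ℤ)))) u)
      rw [e] at this
      push_cast at this ih ⊢
      linarith
  have hdec : ∀ y : ℝ, ∃ (k : ℤ) (z : ℝ), -(1 / 64) ≤ z ∧ z < 3 / 64 ∧ y = (M ^ k) (P.β z) := by
    intro y
    obtain ⟨j1, hj1⟩ := exists_nat_gt (y - u)
    obtain ⟨j2, hj2⟩ := exists_nat_gt (u - y)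
    have hbdd : ∃ b : ℤ, ∀ z : ℤ, (M ^ z) u ≤ y → z ≤ b := by
      refine ⟨16 * (j1 : ℤ), ?_⟩
      intro z hz
      by_contra hcon
      push Not at hcon
      have e1 := hmonoM hcon
      have e2 := hup j1
      simp only at e1
      linarith
    have hinh : ∃ z : ℤ, (M ^ z) u ≤ y := by
      refine ⟨-(16 * (j2 : ℤ)), ?_⟩
      have := hdown j2
      linarith
    obtain ⟨k, hk1, hk2⟩ := Int.exists_greatest_of_bdd hbdd hinh
    have hk3 : y < (M ^ (k + 1)) u := by
      by_contra hcon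
      have := hk2 (k + 1) (not_lt.1 hcon)
      omega
    obtain ⟨z, hz⟩ := P.β_surj ((M ^ k).symm y)
    have hz' : (M ^ k) (P.β z) = y := by rw [hz]; exact (M ^ k).apply_symm_apply y
    refine ⟨k, z, ?_, ?_, hz'.symm⟩
    · rw [← hz', (M ^ k).le_iff_le, hu, P.β_mono.le_iff_le] at hk1
      exact hk1
    · rw [zpow_add_one, RelIso.mul_apply, ← hz', (M ^ k).lt_iff_lt, hMu, P.β_mono.lt_iff_lt] at hk3
      exact hk3
  have hcommH : ∀ (k : ℤ) (y : ℝ), H ((M ^ k) y) = (M ^ k) (H y) := by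
    intro k y
    rw [← RelIso.mul_apply, ← RelIso.mul_apply]
    congr 1
    exact ((show Commute H M from hHM).zpow_right k).eq
  have hH1 : H = 1 := by
    apply RelIso.ext
    intro y
    obtain ⟨k, z, hz1, hz2, rfl⟩ := hdec y
    rw [hcommH, hHβ z hz1 hz2.le]
    rfl
  have hgt : ∀ y, y < M y := by
    intro y
    obtain ⟨k, z, hz1, hz2, rfl⟩ := hdec y
    have e : M ((M ^ k) (P.β z)) = (M ^ k) (M (P.β z)) := by
      rw [← RelIso.mul_apply, ← RelIso.mul_apply]
      congr 1
      exact (Commute.self_zpow M k).eq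
    rw [e]
    apply (M ^ k).strictMono
    rw [hMβ z hz1 (by linarith)]
    exact P.β_mono (by linarith)
  -- determinant identities
  have hMT : M ^ (q' : ℤ) = T := by
    have e1 : M ^ (q' : ℤ) = H ^ (q : ℤ) * g 0 1 := by
      rw [hM, hH, hg_pow, hg_pow, hg_mul]
      congr 1
      · ring
      · rw [hp1, hq'z]; linear_combination h3
    rw [e1, hH1, one_zpow, one_mul]
    show F ^ (0 : ℤ) * T ^ (1 : ℤ) = T
    simp
  have hMF : M ^ p1 = F := by
    have e1 : M ^ p1 = H ^ p * g 1 0 := by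
      rw [hM, hH, hg_pow, hg_pow, hg_mul]
      congr 1
      · rw [hp1, hq'z]; linear_combination h3
      · ring
    rw [e1, hH1, one_zpow, one_mul]
    show F ^ (1 : ℤ) * T ^ (0 : ℤ) = F
    simp
  -- the conjugacy
  let b : ℝ → ℝ := fun s => (M ^ ⌊s + 1 / 4⌋) (P.β ((s - ⌊s + 1 / 4⌋) / 16))
  have hb_add : ∀ (s : ℝ) (n : ℤ), b (s + n) = (M ^ n) (b s) := by
    intro s n
    show (M ^ ⌊s + n + 1 / 4⌋) (P.β ((s + n - ⌊s + n + 1 / 4⌋) / 16)) =
      (M ^ n) ((M ^ ⌊s + 1 / 4⌋) (P.β ((s - ⌊s + 1 / 4⌋) / 16)))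
    have e : ⌊s + n + 1 / 4⌋ = n + ⌊s + 1 / 4⌋ := by
      rw [show s + n + 1 / 4 = (s + 1 / 4) + n by ring, Int.floor_add_intCast]; ring
    rw [e, zpow_add, RelIso.mul_apply]
    congr 3
    push_cast; ring
  have hb_win : ∀ s, -1 / 4 ≤ s → s ≤ 63 / 4 → b s = P.β (s / 16) := by
    intro s hs1 hs2
    show (M ^ ⌊s + 1 / 4⌋) (P.β ((s - ⌊s + 1 / 4⌋) / 16)) = P.β (s / 16)
    have hk0 : 0 ≤ ⌊s + 1 / 4⌋ := Int.floor_nonneg.2 (by linarith)
    obtain ⟨k, hk⟩ := Int.eq_ofNat_of_zero_le hk0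
    have hf1 := Int.floor_le (s + 1 / 4)
    have hf2 := Int.lt_floor_add_one (s + 1 / 4)
    rw [hk] at hf1 hf2 ⊢
    push_cast at hf1 hf2
    have hz : (s - ((k : ℤ) : ℝ)) / 16 + k / 16 = s / 16 := by push_cast; ring
    rw [hMk k ((s - ((k : ℤ) : ℝ)) / 16) (by push_cast; linarith) (by rw [hz]; linarith), hz]
  have hb_loc : ∀ s ε : ℝ, 0 < ε → ε < 1 → b s < b (s + ε) := by
    intro s ε h0 h1'
    have hf1 := Int.floor_le (s + 1 / 4)
    have hf2 := Int.lt_floor_add_one (s + 1 / 4)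
    have e2 : b s = (M ^ ⌊s + 1 / 4⌋) (b (s - ⌊s + 1 / 4⌋)) := by
      rw [← hb_add, sub_add_cancel]
    have e3 : b (s + ε) = (M ^ ⌊s + 1 / 4⌋) (b (s - ⌊s + 1 / 4⌋ + ε)) := by
      rw [← hb_add]; congr 1; ring
    rw [e2, e3]
    apply (M ^ ⌊s + 1 / 4⌋).strictMono
    rw [hb_win _ (by linarith) (by linarith), hb_win _ (by linarith) (by linarith)]
    exact P.β_mono (by linarith)
  have hb_nat : ∀ (n : ℕ) (s : ℝ), b s ≤ b (s + n) ∧ (n ≠ 0 → b s < b (s + n)) := by
    intro n
    induction n with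
    | zero => intro s; simp
    | succ n ih =>
      intro s
      have e : b (s + ((n + 1 : ℕ) : ℝ)) = M (b (s + n)) := by
        have := hb_add (s + n) 1
        rw [zpow_one] at this
        rw [← this]
        congr 1; push_cast; ring
      have h4 := hgt (b (s + n))
      have h5 := (ih s).1
      rw [e]
      exact ⟨by linarith, fun _ => by linarith⟩
  have hb_mono : StrictMono b := by
    intro s t hst
    have hn0 : 0 ≤ ⌊t - s⌋ := Int.floor_nonneg.2 (by linarith)
    obtain ⟨n, hn⟩ := Int.eq_ofNat_of_zero_le hn0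
    have hf1 := Int.floor_le (t - s)
    have hf2 := Int.lt_floor_add_one (t - s)
    rw [hn] at hf1 hf2
    push_cast at hf1 hf2
    have e : t = (s + (t - s - n)) + n := by ring
    rcases eq_or_lt_of_le (show (0 : ℝ) ≤ t - s - n by linarith) with hε | hε
    · have hn' : n ≠ 0 := by
        rintro rfl
        simp at hε
        linarith
      have := (hb_nat n s).2 hn'
      have e' : t = s + n := by linarith
      rw [e']; exact this
    · have h4 := hb_loc s (t - s - n) hε (by linarith)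
      have h5 := (hb_nat n (s + (t - s - n))).1
      rw [← e] at h5
      linarith
  refine ⟨b, hb_mono, ?_, hb_win, ?_, ?_⟩
  · intro y
    obtain ⟨k, z, hz1, hz2, rfl⟩ := hdec y
    refine ⟨16 * z + k, ?_⟩
    have e : ⌊16 * z + (k : ℝ) + 1 / 4⌋ = k := by
      rw [Int.floor_eq_iff]
      constructor <;> linarith
    show (M ^ ⌊16 * z + k + 1 / 4⌋) (P.β ((16 * z + k - ⌊16 * z + k + 1 / 4⌋) / 16)) = _
    rw [e]
    congr 2; ring
  · intro s
    have := hb_add s q'
    rw [hMT, hT] at this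
    simpa using this
  · intro s
    have := hb_add s p1
    rw [hMF, hF] at this
    exact this.symm

end Pool.Agent.Helper320.TW
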