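import Mathlib
import Pool.Agent.Helper320.TWOrb

set_option autoImplicit false

namespace Pool.Agent.Helper320.TW

theorem Z_ar (q m m2 : ℕ) (p r : ℤ) (h1 : m2 < m) (h2 : q + m2 = 16 * m)
    (h3 : (m : ℤ) * p - r * q = 1) (i j : ℕ) (hi : i < m) (hj : j < m) (x k : ℤ)
    (hx1 : -13 ≤ x) (hx2 : x ≤ 14) (h : ((i : ℤ) - j) * p = x + k * q) : i = j := by
  obtain ⟨l, hl⟩ := ar q m p r h3 _ x k h
  have hm : (0 : ℤ) ≤ m := by positivity
  have e1 : -13 * (m : ℤ) ≤ m * x := by nlinarith
  have e2 : (m : ℤ) * x ≤ 14 * m := by nlinarith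
  have hq : (0 : ℤ) ≤ q := by positivity
  rcases lt_trichotomy l 0 with h0 | h0 | h0
  · have : l * q ≤ -q := by nlinarith
    omega
  · subst h0
    have hx0 : x = 0 := by
      by_contra hx
      rcases lt_or_gt_of_ne hx with h4 | h4
      · have : (m : ℤ) * x ≤ -m := by nlinarith
        omega
      · have : (m : ℤ) ≤ m * x := by nlinarith
        omega
    subst hx0
    simp at hl
    omega
  · have : (q : ℤ) ≤ l * q := by nlinarith
    omega

theorem Z_disj (P : Prof) (q m m2 : ℕ) (p r : ℤ) (h1 : m2 < m) (h2 : q + m2 = 16 * m)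
    (h3 : (m : ℤ) * p - r * q = 1) (s : ℝ) (i j : ℕ) (hi : i < m) (hj : j < m)
    (hEi : P.E (md q (s - i * p)) ≠ 0) (hEj : P.E (md q (s - j * p)) ≠ 0) : i = j := by
  obtain ⟨k, hk1, hk2⟩ := Ep_ne P q _ hEi
  obtain ⟨k', hk1', hk2'⟩ := Ep_ne P q _ hEj
  obtain ⟨x, hx⟩ : ∃ x : ℤ, x = ((i : ℤ) - j) * p + (k - k') * q := ⟨_, rfl⟩
  have hxr : (x : ℝ) = ((i : ℝ) - j) * p + (k - k') * q := by rw [hx]; push_cast; ring
  have hx1 : (-13 : ℝ) ≤ x := by rw [hxr]; linarith
  have hx2 : (x : ℝ) ≤ 14 := by rw [hxr]; linarith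
  refine Z_ar q m m2 p r h1 h2 h3 i j hi hj x (k' - k) (by exact_mod_cast hx1)
    (by exact_mod_cast hx2) ?_
  rw [hx]; ring

theorem Z_mono (P : Prof) (q m m2 : ℕ) (p r : ℤ) (h1 : m2 < m) (h2 : q + m2 = 16 * m)
    (h3 : (m : ℤ) * p - r * q = 1) (w : ℕ → ℝ) (hw : ∀ i, i < m → 0 ≤ w i ∧ w i ≤ 1) :
    StrictMono (Zf P q m p w) := by
  intro s t hst
  have hq := q16 q m m2 h1 h2
  have hnn : ∀ u : ℝ, ∀ i ∈ Finset.range m, 0 ≤ w i * P.E (md q (u - i * p)) := fun u i hi =>
    mul_nonneg (hw i (Finset.mem_range.mp hi)).1 (P.E_nonneg _)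
  unfold Zf
  by_cases hex : ∃ i ∈ Finset.range m, P.E (md q (s - i * p)) ≠ 0
  · obtain ⟨i, hi, hEi⟩ := hex
    have hi' := Finset.mem_range.mp hi
    rw [Finset.sum_eq_single i (fun j hj hji => by
      by_contra hne
      have hEj : P.E (md q (s - j * p)) ≠ 0 := fun h0 => hne (by rw [h0, mul_zero])
      exact hji (Z_disj P q m m2 p r h1 h2 h3 s j i (Finset.mem_range.mp hj) hi' hEj hEi))
      (fun h0 => absurd hi h0)]
    have hge := Finset.single_le_sum (hnn t) hi
    have hlt := Ep_add_lt P q hq (s - i * p) (t - i * p) (by linarith)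
    obtain ⟨hw0, hw1⟩ := hw i hi'
    have key : s + w i * P.E (md q (s - i * p)) < t + w i * P.E (md q (t - i * p)) := by
      rcases hw0.eq_or_lt with h0 | h0
      · rw [← h0]; linarith
      · nlinarith [mul_pos h0 (sub_pos.mpr hlt), mul_nonneg (sub_nonneg.mpr hw1) (sub_pos.mpr hst).le]
    linarith
  · push Not at hex
    rw [Finset.sum_eq_zero (fun i hi => by rw [hex i hi, mul_zero])]
    have := Finset.sum_nonneg (hnn t)
    linarith

theorem Z_surj (P : Prof) (q m m2 : ℕ) (p r : ℤ) (h1 : m2 < m) (h2 : q + m2 = 16 * m)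
    (h3 : (m : ℤ) * p - r * q = 1) (w : ℕ → ℝ) (hw : ∀ i, i < m → 0 ≤ w i ∧ w i ≤ 1) :
    Function.Surjective (Zf P q m p w) := by
  have _ := h3
  have hq := q16 q m m2 h1 h2
  have hnn : ∀ u : ℝ, ∀ i ∈ Finset.range m, 0 ≤ w i * P.E (md q (u - i * p)) := fun u i hi =>
    mul_nonneg (hw i (Finset.mem_range.mp hi)).1 (P.E_nonneg _)
  have hle : ∀ u : ℝ, ∑ i ∈ Finset.range m, w i * P.E (md q (u - i * p)) ≤ m := by
    intro u
    calc ∑ i ∈ Finset.range m, w i * P.E (md q (u - i * p)) ≤ ∑ i ∈ Finset.range m, (1 : ℝ) := by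
          apply Finset.sum_le_sum
          intro i hi
          obtain ⟨hw0, hw1⟩ := hw i (Finset.mem_range.mp hi)
          have e1 := P.E_lt (md q (u - i * p))
          have e2 := P.E_nonneg (md q (u - i * p))
          nlinarith
      _ = m := by simp
  have hcont : Continuous (Zf P q m p w) := by
    unfold Zf
    refine continuous_id.add (continuous_finset_sum _ fun i _ => ?_)
    exact continuous_const.mul ((Ep_cont P q hq).comp (continuous_id.sub continuous_const))
  apply hcont.surjective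
  · exact Filter.tendsto_atTop_mono (fun z => by
      unfold Zf; have := Finset.sum_nonneg (hnn z); simp only [id]; linarith) Filter.tendsto_id
  · refine Filter.tendsto_atBot_mono (f := fun z : ℝ => z + m) (fun z => ?_)
      (Filter.tendsto_atBot_add_const_right _ _ Filter.tendsto_id)
    unfold Zf
    linarith [hle z]

theorem Z_add (P : Prof) (q m : ℕ) (hq : 0 < q) (p : ℤ) (w : ℕ → ℝ) (s : ℝ) (k : ℤ) :
    Zf P q m p w (s + k * q) = Zf P q m p w s + k * q := by
  unfold Zf
  have : ∀ i : ℕ, md q (s + k * q - i * p) = md q (s - i * p) := by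
    intro i
    rw [show s + k * q - i * p = (s - i * p) + k * q by ring, md_add q hq]
  simp only [this]
  ring

theorem Z_A (P : Prof) (q m m2 : ℕ) (p r : ℤ) (h1 : m2 < m) (h2 : q + m2 = 16 * m)
    (h3 : (m : ℤ) * p - r * q = 1) (w : ℕ → ℝ) (i : ℕ) (hi : i < m) (z : ℝ) (k : ℤ)
    (hz : -10 ≤ z) (hz' : z ≤ 15) :
    Zf P q m p w (z + i * p + k * q) = z + i * p + w i * P.E z + k * q := by
  have hq := q16 q m m2 h1 h2
  unfold Zf
  rw [Finset.sum_eq_single i]
  · rw [show z + i * p + k * q - i * p = z + k * q by ring,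
      Ep_eq P q hq z k (by linarith) (by linarith)]
    ring
  · intro j hj hji
    by_contra hne
    have hE : P.E (md q (z + i * p + k * q - j * p)) ≠ 0 := fun h0 => hne (by rw [h0, mul_zero])
    obtain ⟨k', hk1, hk2⟩ := Ep_ne P q _ hE
    obtain ⟨x, hx⟩ : ∃ x : ℤ, x = ((i : ℤ) - j) * p + (k - k') * q := ⟨_, rfl⟩
    have hxr : (x : ℝ) = ((i : ℝ) - j) * p + (k - k') * q := by rw [hx]; push_cast; ring
    have hx1 : (-14 : ℝ) < x := by rw [hxr]; linarith
    have hx2 : (x : ℝ) < 15 := by rw [hxr]; linarith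
    have hx1' : -14 < x := by exact_mod_cast hx1
    have hx2' : x < 15 := by exact_mod_cast hx2
    exact hji (Z_ar q m m2 p r h1 h2 h3 i j hi (Finset.mem_range.mp hj) x (k' - k) (by omega)
      (by omega) (by rw [hx]; ring)).symm
  · intro h0
    exact absurd (Finset.mem_range.mpr hi) h0

theorem detR (q m : ℕ) (p r : ℤ) (h3 : (m : ℤ) * p - r * q = 1) :
    (m : ℝ) * p = 1 + r * q := by
  have : ((m : ℤ) : ℝ) * p - r * q = 1 := by exact_mod_cast h3
  push_cast at this
  linarith

theorem Z_eq_self (P : Prof) (q m : ℕ) (p : ℤ) (w : ℕ → ℝ) (y : ℝ)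
    (h : ∀ i, i < m → w i = 0 ∨ P.E (md q (y - i * p)) = 0) :
    Zf P q m p w y = y := by
  unfold Zf
  rw [Finset.sum_eq_zero]
  · ring
  · intro i hi
    rcases h i (Finset.mem_range.1 hi) with h | h
    · rw [h, zero_mul]
    · rw [h, mul_zero]

theorem Z_H (P : Prof) (q m m2 : ℕ) (p r : ℤ) (h1 : m2 < m) (h2 : q + m2 = 16 * m)
    (h3 : (m : ℤ) * p - r * q = 1) (w : ℕ → ℝ) (s : ℝ) (hs : 1 / 4 ≤ s) (hs' : s ≤ 3 / 4)
    (t : ℕ) (ht : t ≤ q) :
    (t < 2 * m → Zf P q m p w ((fh P q p)^[t] s) = s + t * p) ∧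
      (∀ i, i < m → t = 2 * m + i →
        Zf P q m p w ((fh P q p)^[t] s) = s + w i * (P.Θ s - s) + t * p) ∧
      (3 * m ≤ t → Zf P q m p w ((fh P q p)^[t] s) = P.Θ s + t * p) := by
  have hG := fh_G P q m m2 p r h1 h2 h3 s hs hs' t ht
  have hd := detR q m p r h3
  refine ⟨?_, ?_, ?_⟩
  · intro htm
    rw [hG.1 (by omega)]
    rcases lt_or_ge t m with h | h
    · have := Z_A P q m m2 p r h1 h2 h3 w t h s 0 (by linarith) (by linarith)
      rw [P.E_lo s (by linarith)] at this
      simpa using this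
    · obtain ⟨i, rfl⟩ := Nat.exists_eq_add_of_le h
      have := Z_A P q m m2 p r h1 h2 h3 w i (by omega) (s + 1) r (by linarith) (by linarith)
      rw [P.E_lo (s + 1) (by linarith)] at this
      have e : s + ((m + i : ℕ) : ℝ) * p = s + 1 + i * p + r * q := by
        push_cast
        linear_combination hd
      rw [e, this]
      ring
  · intro i hi hti
    rw [hG.1 (by omega)]
    have := Z_A P q m m2 p r h1 h2 h3 w i hi (s + 2) (2 * r) (by linarith) (by linarith)
    rw [P.E_two s hs hs'] at this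
    have e : s + (t : ℝ) * p = s + 2 + i * p + ((2 * r : ℤ) : ℝ) * q := by
      rw [hti]
      push_cast
      linear_combination 2 * hd
    rw [e, this]
    rw [hti]
    push_cast
    linear_combination (-2) * hd
  · intro htm
    rw [hG.2 htm]
    apply Z_eq_self
    intro i hi
    right
    by_contra hne
    obtain ⟨k, hk1, hk2⟩ := Ep_ne P q _ hne
    have hT1 := P.lt_Θ s
    have hT2 := P.Θ_lt s
    set x : ℤ := ((t : ℤ) - i) * p - k * q with hx
    have hxR : (x : ℝ) = ((t : ℝ) - i) * p - k * q := by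
      rw [hx]; push_cast; ring
    have hx0 : 0 < x := by
      have : (0 : ℝ) < x := by rw [hxR]; linarith
      exact_mod_cast this
    have hx4 : x < 4 := by
      have : (x : ℝ) < 4 := by rw [hxR]; linarith
      exact_mod_cast this
    obtain ⟨l, hl⟩ := ar q m p r h3 ((t : ℤ) - i) x k (by rw [hx]; ring)
    have hm0 : (0 : ℤ) < m := by omega
    have hq0 : (15 : ℤ) * m < q := by omega
    have hl0 : l = 0 := by
      rcases lt_trichotomy l 0 with h | h | h
      · exfalso
        have a1 : l * q ≤ (-1) * q := by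
          apply mul_le_mul_of_nonneg_right (by omega) (by omega)
        have a2 : (m : ℤ) * x ≤ m * 3 := mul_le_mul_of_nonneg_left (by omega) (by omega)
        omega
      · exact h
      · exfalso
        have a1 : 1 * (q : ℤ) ≤ l * q := by
          apply mul_le_mul_of_nonneg_right (by omega) (by omega)
        have a2 : (m : ℤ) * 1 ≤ m * x := mul_le_mul_of_nonneg_left (by omega) (by omega)
        omega
    subst hl0
    have hx3 : x = 3 := by
      by_contra hne3
      have a2 : (m : ℤ) * x ≤ m * 2 := mul_le_mul_of_nonneg_left (by omega) (by omega)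
      omega
    apply hne
    have e : P.Θ s + t * p - i * p = (P.Θ s + 3) + k * q := by
      have : (x : ℝ) = 3 := by rw [hx3]; norm_num
      rw [hxR] at this
      linear_combination this
    rw [e, Ep_eq P q (by omega) _ k (by linarith) (by linarith)]
    exact P.E_three s hs

theorem tower (P : Prof) (q m m2 : ℕ) (p r : ℤ) (h1 : m2 < m) (h2 : q + m2 = 16 * m)
    (h3 : (m : ℤ) * p - r * q = 1) (w : ℕ → ℝ) (hw0 : w 0 = 0) (hwm : w m = 1)
    (i : ℕ) (hi : i < m) (z : ℝ) (k : ℤ) (hz : -1 / 2 ≤ z) (hz' : z ≤ 12) :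
    Zf P q m p w (fh P q p (z + i * p + k * q)) =
      z + (i + 1) * p + w (i + 1) * P.E z + k * q := by
  have hd := detR q m p r h3
  obtain ⟨hA1, hA2⟩ := fh_A P q m m2 p r h1 h2 h3 z hz (by linarith)
  rw [fh_add P q (by omega)]
  rcases Nat.lt_or_ge (i + 1) m with h | h
  · have e : fh P q p (z + i * p) = z + (i + 1 : ℕ) * p := by
      rw [← hA1 i hi, ← hA1 (i + 1) h, Function.iterate_succ_apply']
    rw [e, Z_A P q m m2 p r h1 h2 h3 w (i + 1) h z k (by linarith) (by linarith)]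
    push_cast
    ring
  · have him : i + 1 = m := by omega
    have e : fh P q p (z + i * p) = P.G z + r * q := by
      rw [← hA1 i hi, ← hA2, ← him, Function.iterate_succ_apply']
    have hg1 := P.G_ge z
    have hg2 := P.G_lt z
    have := Z_A P q m m2 p r h1 h2 h3 w 0 (by omega) (P.G z) (r + k) (by linarith) (by linarith)
    have e2 : P.G z + r * q + k * q = P.G z + ((0 : ℕ) : ℝ) * p + ((r + k : ℤ) : ℝ) * q := by
      push_cast; ring
    rw [e, e2, this, hw0, him, hwm, P.E_eq z]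
    have him' : (i : ℝ) + 1 = m := by exact_mod_cast him
    rw [him']
    push_cast
    linear_combination (-1) * hd

theorem non_tower (P : Prof) (q m m2 : ℕ) (p r : ℤ) (h1 : m2 < m) (h2 : q + m2 = 16 * m)
    (h3 : (m : ℤ) * p - r * q = 1) (w : ℕ → ℝ) (hw0 : w 0 = 0) (y : ℝ)
    (hy : ∀ i : ℕ, i < m → ∀ k : ℤ, 7 / 4 < y - i * p - k * q → 17 / 4 ≤ y - i * p - k * q) :
    Zf P q m p w y = y ∧ fh P q p y = y + p ∧ Zf P q m p w (y + p) = y + p := by
  have hd := detR q m p r h3
  have hE : ∀ i : ℕ, i < m → P.E (md q (y - i * p)) = 0 := by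
    intro i hi
    by_contra hne
    obtain ⟨k, hk1, hk2⟩ := Ep_ne P q _ hne
    linarith [hy i hi k hk1]
  refine ⟨?_, ?_, ?_⟩
  · exact Z_eq_self P q m p w y (fun i hi => Or.inr (hE i hi))
  · unfold fh
    have : P.E (md q (y + p - 1)) = 0 := by
      by_contra hne
      obtain ⟨k, hk1, hk2⟩ := Ep_ne P q _ hne
      have hm1 : ((m - 1 : ℕ) : ℝ) = (m : ℝ) - 1 := by
        rw [Nat.cast_sub (by omega)]; norm_num
      have e : y + p - 1 - k * q = y - ((m - 1 : ℕ) : ℝ) * p - ((k - r : ℤ) : ℝ) * q := by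
        rw [hm1]; push_cast
        linear_combination hd
      rw [e] at hk1 hk2
      linarith [hy (m - 1) (by omega) (k - r) hk1]
    rw [this, add_zero]
  · apply Z_eq_self
    intro i hi
    rcases Nat.eq_zero_or_pos i with h | h
    · left; rw [h, hw0]
    · right
      have hi1 : ((i - 1 : ℕ) : ℝ) = (i : ℝ) - 1 := by
        rw [Nat.cast_sub (by omega)]; norm_num
      have e : y + p - i * p = y - ((i - 1 : ℕ) : ℝ) * p := by
        rw [hi1]; ring
      rw [e]
      exact hE (i - 1) (by omega)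

end Pool.Agent.Helper320.TW
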