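import Mathlib
import Pool.Agent.Helper320.TWShear

set_option autoImplicit false

namespace Pool.Agent.Helper320.TW

theorem A_tower (P : Prof) (q m m2 : ℕ) (p r : ℤ) (ι : ℝ → ℝ) (h : Stage q m m2 p r ι)
    (i : ℕ) (hi : i < m) (z : ℝ) (k : ℤ) (hz : 5 / 4 ≤ z) (hz' : z ≤ 12) :
    ι (Zf P q m p (wt ι m p) (fh P q p (z + i * p + k * q))) -
      ι (Zf P q m p (wt ι m p) (z + i * p + k * q) + p) =
      P.E z / (Rs ι m p * sl ι (1 + i * p)) := by
  have hm := h.m_pos
  rw [tower P q m m2 p r h.m2_lt h.q_eq h.det (wt ι m p) (wt_zero ι m p) (wt_top ι h.mono m hm p)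
    i hi z k (by linarith) hz',
    Z_A P q m m2 p r h.m2_lt h.q_eq h.det (wt ι m p) i hi z k (by linarith) (by linarith)]
  have hE0 := P.E_nonneg z
  have hE1 := P.E_lt z
  have w0 := wt_nonneg ι h.mono m hm p i
  have w1 := wt_nonneg ι h.mono m hm p (i + 1)
  have w2 := wt_le_one ι h.mono m hm p i hi.le
  have w3 := wt_le_one ι h.mono m hm p (i + 1) hi
  have key := h.base_sub (i + 1) hi k (z + wt ι m p (i + 1) * P.E z) (z + wt ι m p i * P.E z)
    (by nlinarith) (by nlinarith) (by nlinarith) (by nlinarith)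
  push_cast at key
  rw [show z + ((i : ℝ) + 1) * p + wt ι m p (i + 1) * P.E z + k * q =
    z + wt ι m p (i + 1) * P.E z + ((i : ℝ) + 1) * p + k * q by ring,
    show z + (i : ℝ) * p + wt ι m p i * P.E z + k * q + p =
    z + wt ι m p i * P.E z + ((i : ℝ) + 1) * p + k * q by ring, key, wt_succ]
  have hR := Rs_pos ι h.mono m hm p
  have s1 := sl_pos ι h.mono (1 + i * p)
  have s2 := sl_pos ι h.mono (1 + (i + 1) * p)
  field_simp
  ring

theorem B_tower (P : Prof) (q m m2 : ℕ) (p r : ℤ) (ι : ℝ → ℝ) (h : Stage q m m2 p r ι)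
    (i : ℕ) (hi : i < m) (z : ℝ) (k : ℤ) (hz : 5 / 4 ≤ z) (hz' : z ≤ 12) :
    ι (Zf P q m p (wt ι m p) (z + i * p + k * q)) -
      ι (Zf P q m p (wt ι m p) (fh P q p (z + i * p + k * q)) - p) =
      - P.E z / (Rs ι m p * sl ι (1 + (i + 1) * p)) := by
  have hm := h.m_pos
  rw [tower P q m m2 p r h.m2_lt h.q_eq h.det (wt ι m p) (wt_zero ι m p) (wt_top ι h.mono m hm p)
    i hi z k (by linarith) hz',
    Z_A P q m m2 p r h.m2_lt h.q_eq h.det (wt ι m p) i hi z k (by linarith) (by linarith)]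
  have hE0 := P.E_nonneg z
  have hE1 := P.E_lt z
  have w0 := wt_nonneg ι h.mono m hm p i
  have w1 := wt_nonneg ι h.mono m hm p (i + 1)
  have w2 := wt_le_one ι h.mono m hm p i hi.le
  have w3 := wt_le_one ι h.mono m hm p (i + 1) hi
  have key := h.base_sub i hi.le k (z + wt ι m p i * P.E z) (z + wt ι m p (i + 1) * P.E z)
    (by nlinarith) (by nlinarith) (by nlinarith) (by nlinarith)
  rw [show z + ((i : ℝ) + 1) * p + wt ι m p (i + 1) * P.E z + k * q - p =
    z + wt ι m p (i + 1) * P.E z + (i : ℝ) * p + k * q by ring,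
    show z + (i : ℝ) * p + wt ι m p i * P.E z + k * q =
    z + wt ι m p i * P.E z + (i : ℝ) * p + k * q by ring, key, wt_succ]
  have hR := Rs_pos ι h.mono m hm p
  have s1 := sl_pos ι h.mono (1 + i * p)
  have s2 := sl_pos ι h.mono (1 + (i + 1) * p)
  field_simp
  ring

theorem U_lem (P : Prof) (q m m2 : ℕ) (p r : ℤ) (ι : ℝ → ℝ) (h : Stage q m m2 p r ι)
    (v : ℝ) (k : ℤ) (hv : 5 / 4 ≤ v) (hv' : v < 5 / 4 + q) :
    (v ≤ 59 / 4 → 5 / 4 + Int.fract (ι (v + k * q) - ι (5 / 4)) / sl ι 1 = v) ∧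
      (59 / 4 ≤ v → DD P (5 / 4 + Int.fract (ι (v + k * q) - ι (5 / 4)) / sl ι 1) = 0) := by
  have he := sl_pos ι h.mono 1
  have e1 : ι (v + k * q) - ι (5 / 4) = (ι v - ι (5 / 4)) + k := by
    rw [h.add_int]; ring
  have n0 : 0 ≤ ι v - ι (5 / 4) := by
    have := h.mono.monotone hv
    linarith
  have n1 : ι v - ι (5 / 4) < 1 := by
    have h1 := h.mono hv'
    have h2 := h.add_int (5 / 4) 1
    simp only [Int.cast_one, one_mul] at h2
    linarith
  have e2 : Int.fract (ι (v + k * q) - ι (5 / 4)) = ι v - ι (5 / 4) := by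
    rw [e1, Int.fract_add_intCast, Int.fract_eq_self]
    exact ⟨n0, n1⟩
  rw [e2]
  have bs : ∀ s : ℝ, 5 / 4 ≤ s → s ≤ 59 / 4 → ι s - ι (5 / 4) = sl ι 1 * (s - 5 / 4) := by
    intro s hs hs'
    have := h.base_sub 0 (Nat.zero_le _) 0 s (5 / 4) hs hs' le_rfl (by norm_num)
    simpa using this
  constructor
  · intro h1
    rw [bs v hv h1]
    field_simp
    ring
  · intro h1
    apply P.D_hi
    have h2 := bs (59 / 4) (by norm_num) le_rfl
    have h3 := h.mono.monotone h1
    have h4 : 27 / 2 ≤ (ι v - ι (5 / 4)) / sl ι 1 := by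
      rw [le_div_iff₀ he]
      linarith
    linarith

theorem U_zero (P : Prof) (q m m2 : ℕ) (p r : ℤ) (ι : ℝ → ℝ) (h : Stage q m m2 p r ι)
    (Y : ℝ) (hY : ∀ (v : ℝ) (k : ℤ), Y = v + k * q → 7 / 4 < v → v < 21 / 4 → DD P v = 0) :
    DD P (5 / 4 + Int.fract (ι Y - ι (5 / 4)) / sl ι 1) = 0 := by
  have hq : (0 : ℝ) < q := by
    have := h.q16
    exact_mod_cast (by omega : 0 < q)
  set k : ℤ := ⌊(Y - 5 / 4) / q⌋ with hk
  have f1 : (k : ℝ) * q ≤ Y - 5 / 4 := by
    rw [← le_div_iff₀ hq]; exact Int.floor_le _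
  have f2 : Y - 5 / 4 < (k + 1) * q := by
    rw [← div_lt_iff₀ hq]; exact Int.lt_floor_add_one _
  obtain ⟨U1, U2⟩ := U_lem P q m m2 p r ι h (Y - k * q) k (by linarith) (by linarith)
  rw [sub_add_cancel] at U1 U2
  rcases le_or_gt (59 / 4) (Y - k * q) with h1 | h1
  · exact U2 h1
  · rw [U1 h1.le]
    rcases le_or_gt (Y - k * q) (7 / 4) with h2 | h2
    · exact P.D_lo _ h2
    · rcases le_or_gt (21 / 4) (Y - k * q) with h3 | h3
      · exact P.D_hi _ h3
      · exact hY _ k (by ring) h2 h3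

theorem fh_tower (P : Prof) (q m m2 : ℕ) (p r : ℤ) (h1 : m2 < m) (h2 : q + m2 = 16 * m)
    (h3 : (m : ℤ) * p - r * q = 1) (i : ℕ) (hi : i + 1 < m) (z : ℝ) (k : ℤ)
    (hz : -1 / 2 ≤ z) (hz' : z ≤ 27 / 2) :
    fh P q p (z + i * p + k * q) = z + (i + 1) * p + k * q := by
  obtain ⟨a, -⟩ := fh_A P q m m2 p r h1 h2 h3 z hz hz'
  have e1 := a i (by omega)
  have e2 := a (i + 1) hi
  rw [Function.iterate_succ_apply', e1] at e2
  push_cast at e2
  rw [fh_add P q (by omega), e2]

theorem fh_top (P : Prof) (q m m2 : ℕ) (p r : ℤ) (h1 : m2 < m) (h2 : q + m2 = 16 * m)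
    (h3 : (m : ℤ) * p - r * q = 1) (i : ℕ) (hi : i + 1 = m) (z : ℝ) (k : ℤ)
    (hz : -1 / 2 ≤ z) (hz' : z ≤ 27 / 2) :
    fh P q p (z + i * p + k * q) = P.G z + (r + k) * q := by
  obtain ⟨a, b⟩ := fh_A P q m m2 p r h1 h2 h3 z hz hz'
  have e1 := a i (by omega)
  rw [← hi, Function.iterate_succ_apply', e1] at b
  rw [fh_add P q (by omega), b]
  ring

/-- the core identity -/
theorem V_core (P : Prof) (q m m2 : ℕ) (p r : ℤ) (ι : ℝ → ℝ) (h : Stage q m m2 p r ι)
    (y0 y1 : ℝ) (hy : fh P q p y0 = y1) :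
    ι (Zf P q m p (wt ι m p) (fh P q p y1)) + ι (Zf P q m p (wt ι m p) y0) =
      ι (Zf P q m p (wt ι m p) y1 + p) + ι (Zf P q m p (wt ι m p) y1 + (-p : ℤ)) +
        1 / (Rs ι m p * sl ι 1) *
          DD P (5 / 4 + Int.fract (ι (Zf P q m p (wt ι m p) y1) - ι (5 / 4)) / sl ι 1) := by
  have hm := h.m_pos
  have hq16 := h.q16
  have hq : (16 : ℝ) ≤ q := by exact_mod_cast hq16
  have hR := Rs_pos ι h.mono m hm p
  have he := sl_pos ι h.mono 1
  have det := h.det
  have w0 := wt_zero ι m p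
  by_cases T0 : ∃ i : ℕ, i < m ∧ ∃ k : ℤ, 7 / 4 < y0 - i * p - k * q ∧ y0 - i * p - k * q < 17 / 4
  · -- case I
    obtain ⟨i, hi, k, hz1, hz2⟩ := T0
    obtain ⟨z, rfl⟩ : ∃ z : ℝ, y0 = z + i * p + k * q := ⟨y0 - i * p - k * q, by ring⟩
    rw [show z + i * p + k * q - i * p - k * q = z by ring] at hz1 hz2
    have B := B_tower P q m m2 p r ι h i hi z k (by linarith) (by linarith)
    rw [hy] at B
    rcases Nat.lt_or_ge (i + 1) m with hi1 | hi1
    · -- I.1
      have ey := fh_tower P q m m2 p r h.m2_lt h.q_eq h.det i hi1 z k (by linarith) (by linarith)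
      rw [hy] at ey
      have A := A_tower P q m m2 p r ι h (i + 1) hi1 z k (by linarith) (by linarith)
      have ZA := Z_A P q m m2 p r h.m2_lt h.q_eq h.det (wt ι m p) (i + 1) hi1 z k (by linarith)
        (by linarith)
      push_cast at A ZA
      rw [← ey] at A ZA
      have D0 : DD P (5 / 4 + Int.fract (ι (Zf P q m p (wt ι m p) y1) - ι (5 / 4)) / sl ι 1) = 0 := by
        apply U_zero P q m m2 p r ι h
        intro v k' e hv1 hv2
        exfalso
        rw [ZA] at e
        have hE0 := P.E_nonneg z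
        have hE1 := P.E_lt z
        have w1 := wt_nonneg ι h.mono m hm p (i + 1)
        have w3 := wt_le_one ι h.mono m hm p (i + 1) hi
        have hwE0 : 0 ≤ wt ι m p (i + 1) * P.E z := mul_nonneg w1 hE0
        have hwE1 : wt ι m p (i + 1) * P.E z < 1 := by nlinarith
        obtain ⟨x, hx⟩ : ∃ x : ℤ, x = ((i : ℤ) + 1) * p - (k' - k) * q := ⟨_, rfl⟩
        have hxr : (x : ℝ) = v - z - wt ι m p (i + 1) * P.E z := by
          rw [hx]; push_cast; linarith
        have b1 : x ≤ 3 := by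
          have : (x : ℝ) < 4 := by rw [hxr]; linarith
          have : x < 4 := by exact_mod_cast this
          omega
        have b2 : -3 ≤ x := by
          have : (-4 : ℝ) < x := by rw [hxr]; linarith
          have : -4 < x := by exact_mod_cast this
          omega
        obtain ⟨l, hl⟩ := ar q m p r h.det ((i : ℤ) + 1) x (k' - k) (by rw [hx]; ring)
        have hqm : 15 * (m : ℤ) < q := by
          have := h.q_eq; have := h.m2_lt; omega
        have hmz : (0 : ℤ) < m := by exact_mod_cast hm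
        have hi1' : (i : ℤ) + 1 < m := by exact_mod_cast hi1
        rcases lt_trichotomy l 0 with hl0 | hl0 | hl0
        · nlinarith
        · subst hl0
          rcases le_or_gt x 0 with hx0 | hx0
          · nlinarith
          · nlinarith
        · nlinarith
      rw [D0, mul_zero, add_zero]
      have c : ι (Zf P q m p (wt ι m p) y1 + ((-p : ℤ) : ℝ)) = ι (Zf P q m p (wt ι m p) y1 - p) := by
        congr 1; push_cast; ring
      rw [c]
      have : P.E z / (Rs ι m p * sl ι (1 + ((i : ℤ) + 1) * p)) +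
        (- P.E z / (Rs ι m p * sl ι (1 + ((i : ℤ) + 1) * p))) = 0 := by ring
      linarith
    · -- I.2
      have him : i + 1 = m := by omega
      have ey := fh_top P q m m2 p r h.m2_lt h.q_eq h.det i him z k (by linarith) (by linarith)
      rw [hy] at ey
      have g1 := P.G_ge z
      have g2 := P.G_lt z
      have ey' : y1 = P.G z + ((0 : ℕ) : ℝ) * p + ((r + k : ℤ) : ℝ) * q := by
        rw [ey]; push_cast; ring
      have A := A_tower P q m m2 p r ι h 0 hm (P.G z) (r + k) (by linarith) (by linarith)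
      have ZA := Z_A P q m m2 p r h.m2_lt h.q_eq h.det (wt ι m p) 0 hm (P.G z) (r + k) (by linarith)
        (by linarith)
      rw [← ey'] at A ZA
      rw [w0] at ZA
      obtain ⟨U1, -⟩ := U_lem P q m m2 p r ι h (P.G z) (r + k) (by linarith) (by linarith)
      have ZA' : Zf P q m p (wt ι m p) y1 = P.G z + ((r + k : ℤ) : ℝ) * q := by
        rw [ZA]; push_cast; ring
      have U := U1 (by linarith)
      rw [← ZA'] at U
      rw [U]
      have c : ι (Zf P q m p (wt ι m p) y1 + ((-p : ℤ) : ℝ)) = ι (Zf P q m p (wt ι m p) y1 - p) := by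
        congr 1; push_cast; ring
      rw [c]
      have mu : sl ι (1 + ((i : ℤ) + 1) * p) = sl ι 1 := by
        have e1 : 1 + ((i : ℤ) + 1) * p = 2 + r * q := by
          have : ((i : ℤ) + 1) = m := by exact_mod_cast him
          rw [this]; linarith
        rw [e1, h.sl_add]
        have := h.base_sl 0 (Nat.zero_le _) 2 (by norm_num) (by norm_num)
        simpa using this
      rw [mu] at B
      have hDD : DD P (P.G z) = P.E (P.G z) - P.E z := by
        unfold DD
        rw [P.D_eq, P.Gi_G]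
      rw [hDD]
      simp only [Nat.cast_zero, zero_mul, add_zero] at A
      have : 1 / (Rs ι m p * sl ι 1) * (P.E (P.G z) - P.E z) =
        P.E (P.G z) / (Rs ι m p * sl ι 1) + (- P.E z / (Rs ι m p * sl ι 1)) := by ring
      rw [this]
      linarith
  · -- case II
    have NT0 : ∀ i : ℕ, i < m → ∀ k : ℤ, 7 / 4 < y0 - i * p - k * q →
        17 / 4 ≤ y0 - i * p - k * q := by
      intro i hi k h1
      by_contra h2
      push Not at h2
      exact T0 ⟨i, hi, k, h1, h2⟩
    obtain ⟨n1, n2, n3⟩ := non_tower P q m m2 p r h.m2_lt h.q_eq h.det (wt ι m p) w0 y0 NT0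
    have ey : y1 = y0 + p := by rw [← hy, n2]
    rw [← ey] at n3
    have c : ι (Zf P q m p (wt ι m p) y1 + ((-p : ℤ) : ℝ)) = ι (Zf P q m p (wt ι m p) y0) := by
      rw [n3, n1, ey]; congr 1; push_cast; ring
    rw [c]
    have star : ∀ (v : ℝ) (k : ℤ), y1 = v + k * q → 5 / 4 ≤ v → v ≤ 12 → P.E (P.Gi v) = 0 := by
      intro v k e hv1 hv2
      by_contra hne
      have z1 : 7 / 4 < P.Gi v := by
        by_contra h'
        push Not at h'
        exact hne (P.E_lo _ h')
      have z2 : P.Gi v < 17 / 4 := by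
        by_contra h'
        push Not at h'
        exact hne (P.E_hi _ h')
      have ft := fh_top P q m m2 p r h.m2_lt h.q_eq h.det (m - 1) (by omega) (P.Gi v) (k - r)
        (by linarith) (by linarith)
      rw [P.G_Gi] at ft
      have e2 : v + ((r : ℝ) + ((k - r : ℤ) : ℝ)) * q = y1 := by
        rw [e]; push_cast; ring
      rw [e2, ← hy] at ft
      have inj := (fh_mono P q hq16 p).injective ft
      have := NT0 (m - 1) (by omega) (k - r) (by rw [← inj]; linarith)
      rw [← inj] at this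
      linarith
    by_cases T1 : ∃ i : ℕ, i < m ∧ ∃ k : ℤ, 7 / 4 < y1 - i * p - k * q ∧
        y1 - i * p - k * q < 17 / 4
    · -- II.a
      obtain ⟨i, hi, k, hz1, hz2⟩ := T1
      obtain ⟨z, hz⟩ : ∃ z : ℝ, y1 = z + i * p + k * q := ⟨y1 - i * p - k * q, by ring⟩
      have hz' : y1 - i * p - k * q = z := by rw [hz]; ring
      rw [hz'] at hz1 hz2
      rcases Nat.eq_zero_or_pos i with hi0 | hi0
      · subst hi0
        have A := A_tower P q m m2 p r ι h 0 hm z k (by linarith) (by linarith)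
        rw [← hz] at A
        have e1 : y1 = z + k * q := by rw [hz]; push_cast; ring
        obtain ⟨U1, -⟩ := U_lem P q m m2 p r ι h z k (by linarith) (by linarith)
        have U := U1 (by linarith)
        rw [n3]
        rw [n3] at A
        rw [← e1] at U
        rw [U]
        have hDD : DD P z = P.E z := by
          unfold DD
          rw [P.D_eq, star z k e1 (by linarith) (by linarith), sub_zero]
        rw [hDD]
        simp only [Nat.cast_zero, zero_mul, add_zero] at A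
        have : 1 / (Rs ι m p * sl ι 1) * P.E z = P.E z / (Rs ι m p * sl ι 1) := by ring
        rw [this]
        linarith
      · exfalso
        have ic : ((i - 1 : ℕ) : ℝ) = (i : ℝ) - 1 := by
          rw [Nat.cast_sub hi0]; simp
        have e0 : y0 - ((i - 1 : ℕ) : ℝ) * p - k * q = z := by
          rw [ic]
          have : y0 = y1 - p := by rw [ey]; ring
          rw [this, hz]; ring
        have := NT0 (i - 1) (by omega) k (by rw [e0]; exact hz1)
        rw [e0] at this
        linarith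
    · -- II.b
      have NT1 : ∀ i : ℕ, i < m → ∀ k : ℤ, 7 / 4 < y1 - i * p - k * q →
          17 / 4 ≤ y1 - i * p - k * q := by
        intro i hi k h1
        by_contra h2
        push Not at h2
        exact T1 ⟨i, hi, k, h1, h2⟩
      obtain ⟨k1, k2, k3⟩ := non_tower P q m m2 p r h.m2_lt h.q_eq h.det (wt ι m p) w0 y1 NT1
      have D0 : DD P (5 / 4 + Int.fract (ι (Zf P q m p (wt ι m p) y1) - ι (5 / 4)) / sl ι 1) = 0 := by
        apply U_zero P q m m2 p r ι h
        intro v k' e hv1 hv2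
        rw [k1] at e
        have s1 := star v k' e (by linarith) (by linarith)
        have s2 : P.E v = 0 := by
          apply P.E_hi
          have e0 : y1 - ((0 : ℕ) : ℝ) * p - k' * q = v := by rw [e]; push_cast; ring
          have := NT1 0 hm k' (by rw [e0]; exact hv1)
          rwa [e0] at this
        unfold DD
        rw [P.D_eq, s1, s2, sub_zero]
      rw [D0, k2, k3, k1]
      ring

theorem A_nonneg (P : Prof) (q m m2 : ℕ) (p r : ℤ) (ι : ℝ → ℝ) (h : Stage q m m2 p r ι)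
    (y1 : ℝ) : ι (Zf P q m p (wt ι m p) y1 + p) ≤ ι (Zf P q m p (wt ι m p) (fh P q p y1)) := by
  have hm := h.m_pos
  have hR := Rs_pos ι h.mono m hm p
  have w0 := wt_zero ι m p
  by_cases T1 : ∃ i : ℕ, i < m ∧ ∃ k : ℤ, 7 / 4 < y1 - i * p - k * q ∧
        y1 - i * p - k * q < 17 / 4
  · obtain ⟨i, hi, k, hz1, hz2⟩ := T1
    have A := A_tower P q m m2 p r ι h i hi (y1 - i * p - k * q) k (by linarith) (by linarith)
    rw [show y1 - i * p - k * q + i * p + k * q = y1 by ring] at A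
    have s1 := sl_pos ι h.mono (1 + i * p)
    have : 0 ≤ P.E (y1 - i * p - k * q) / (Rs ι m p * sl ι (1 + i * p)) :=
      div_nonneg (P.E_nonneg _) (by positivity)
    linarith
  · have NT1 : ∀ i : ℕ, i < m → ∀ k : ℤ, 7 / 4 < y1 - i * p - k * q →
        17 / 4 ≤ y1 - i * p - k * q := by
      intro i hi k h1
      by_contra h2
      push Not at h2
      exact T1 ⟨i, hi, k, h1, h2⟩
    obtain ⟨k1, k2, k3⟩ := non_tower P q m m2 p r h.m2_lt h.q_eq h.det (wt ι m p) w0 y1 NT1
    rw [k2, k3, k1]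

theorem V_id (P : Prof) (q m m2 : ℕ) (p r : ℤ) (ι : ℝ → ℝ) (h : Stage q m m2 p r ι) (q' : ℕ)
    (hq' : q' + m = 16 * q) (b : ℝ → ℝ) (hb : Comb P q q' p (16 * p - r) b) :
    (∀ x, FF (nu P q m p ι b) (16 * p - r) x + FF (nu P q m p ι b) (-(16 * p - r)) x =
      FF ι p x + FF ι (-p) x +
        1 / (Rs ι m p * sl ι 1) * DD P (5 / 4 + Int.fract (x - ι (5 / 4)) / sl ι 1)) ∧
    (∀ x, FF ι p x ≤ FF (nu P q m p ι b) (16 * p - r) x) := by
  have hm := h.m_pos
  have hw : ∀ i, i < m → 0 ≤ wt ι m p i ∧ wt ι m p i ≤ 1 := fun i hi =>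
    ⟨wt_nonneg ι h.mono m hm p i, wt_le_one ι h.mono m hm p i hi.le⟩
  have Zm := Z_mono P q m m2 p r h.m2_lt h.q_eq h.det (wt ι m p) hw
  have Zs := Z_surj P q m m2 p r h.m2_lt h.q_eq h.det (wt ι m p) hw
  have nm : StrictMono (nu P q m p ι b) := fun a c hac => h.mono (Zm (hb.mono hac))
  have ns : Function.Surjective (nu P q m p ι b) := by
    intro x
    obtain ⟨y, hy⟩ := h.surj x
    obtain ⟨z, hz⟩ := Zs y
    obtain ⟨s, hs⟩ := hb.surj z
    exact ⟨s, by unfold nu; rw [hs, hz, hy]⟩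
  have key : ∀ x, ∃ y0 y1 : ℝ, fh P q p y0 = y1 ∧
      x = ι (Zf P q m p (wt ι m p) y1) ∧
      FF (nu P q m p ι b) (16 * p - r) x = ι (Zf P q m p (wt ι m p) (fh P q p y1)) ∧
      FF (nu P q m p ι b) (-(16 * p - r)) x = ι (Zf P q m p (wt ι m p) y0) := by
    intro x
    obtain ⟨s, rfl⟩ := ns x
    refine ⟨b (s + ((-(16 * p - r) : ℤ) : ℝ)), b s, ?_, rfl, ?_, ?_⟩
    · rw [hb.conj]; congr 1; push_cast; ring
    · rw [FF_apply _ nm, hb.conj]; rfl
    · rw [FF_apply _ nm]; rfl
  constructor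
  · intro x
    obtain ⟨y0, y1, hy, hx, F1, F2⟩ := key x
    rw [F1, F2, hx, FF_apply _ h.mono, FF_apply _ h.mono]
    exact V_core P q m m2 p r ι h y0 y1 hy
  · intro x
    obtain ⟨y0, y1, hy, hx, F1, F2⟩ := key x
    rw [F1, hx, FF_apply _ h.mono]
    exact A_nonneg P q m m2 p r ι h y1

end Pool.Agent.Helper320.TW
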