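import Mathlib
import Pool.Agent.Helper320.TWIrr

set_option autoImplicit false

namespace Pool.Agent.Helper320.TW

open Filter Topology

theorem twl_lim (u : ℕ → ℝ → ℝ) (C : ℝ) (h : ∀ n x, |u (n + 1) x - u n x| ≤ C * (1 / 2) ^ n) :
    ∃ w : ℝ → ℝ, (∀ x, Tendsto (fun n => u n x) atTop (𝓝 (w x))) ∧ TendstoUniformly u w atTop := by
  have hd : ∀ x n, dist (u n x) (u (n + 1) x) ≤ C * (1 / 2) ^ n := by
    intro x n
    rw [dist_comm, Real.dist_eq]
    exact h n x
  have hc : ∀ x, CauchySeq (fun n => u n x) := fun x =>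
    cauchySeq_of_le_geometric (1 / 2) C (by norm_num) (hd x)
  choose w hw using fun x => cauchySeq_tendsto_of_complete (hc x)
  refine ⟨w, hw, ?_⟩
  rw [Metric.tendstoUniformly_iff]
  intro ε hε
  have hlim : Tendsto (fun n : ℕ => C * (1 / 2 : ℝ) ^ n / (1 - 1 / 2)) atTop (𝓝 0) := by
    have h1 : Tendsto (fun n : ℕ => (1 / 2 : ℝ) ^ n) atTop (𝓝 0) :=
      tendsto_pow_atTop_nhds_zero_of_lt_one (by norm_num) (by norm_num)
    have h2 := (h1.const_mul C).div_const (1 - 1 / 2)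
    simpa using h2
  filter_upwards [hlim.eventually (gt_mem_nhds hε)] with n hn x
  rw [dist_comm]
  exact (dist_le_of_le_geometric_of_tendsto (1 / 2) C (by norm_num) (hd x) (hw x) n).trans_lt hn

theorem twl_contDiff {f f' : ℝ → ℝ} (n : ℕ) (h : ∀ x, HasDerivAt f (f' x) x)
    (hf' : ContDiff ℝ n f') : ContDiff ℝ (n + 1 : ℕ) f := by
  push_cast
  rw [contDiff_succ_iff_deriv]
  refine ⟨fun x => (h x).differentiableAt, fun h => absurd h (by simp), ?_⟩
  have : deriv f = f' := funext fun x => (h x).deriv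
  rw [this]
  exact hf'

theorem twl_cont {f : ℝ → ℝ} {L : ℝ} (hL : 0 ≤ L) (h : ∀ x y, |f y - f x| ≤ L * |y - x|) :
    Continuous f := by
  have : LipschitzWith ⟨L, hL⟩ f := by
    apply LipschitzWith.of_dist_le_mul
    intro x y
    rw [Real.dist_eq, Real.dist_eq]
    exact h y x
  exact this.continuous

/-- limits of uniformly Lipschitz functions along convergent sequences -/
theorem twl_comp {F : ℕ → ℝ → ℝ} {f : ℝ → ℝ} {L : ℝ}
    (hL : ∀ n x y, |F n y - F n x| ≤ L * |y - x|)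
    (hF : ∀ x, Tendsto (fun n => F n x) atTop (𝓝 (f x))) {a : ℕ → ℝ} {x : ℝ}
    (ha : Tendsto a atTop (𝓝 x)) : Tendsto (fun n => F n (a n)) atTop (𝓝 (f x)) := by
  have h1 : Tendsto (fun n => L * |a n - x|) atTop (𝓝 0) := by
    have h2 : Tendsto (fun n => |a n - x|) atTop (𝓝 0) := by
      have := (ha.sub_const x).abs
      simpa using this
    simpa using h2.const_mul L
  have h3 : Tendsto (fun n => F n (a n) - F n x) atTop (𝓝 0) :=
    squeeze_zero_norm (fun n => by rw [Real.norm_eq_abs]; exact hL n x (a n)) h1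
  have h4 := h3.add (hF x)
  simpa using h4

theorem twist_limit (q : ℕ → ℕ) (p : ℕ → ℤ) (F K v0 v1 v2 v3 : ℕ → ℝ → ℝ) (C : ℝ)
    (hq0 : 1 ≤ q 0) (hq : ∀ n, 2 * q n ≤ q (n + 1))
    (hdet : ∀ n, p (n + 1) * q n - p n * q (n + 1) = 1)
    (hF1 : ∀ n x, F n (x + 1) = F n x + 1)
    (hFm : ∀ n, StrictMono (F n)) (hKm : ∀ n, StrictMono (K n))
    (hFK : ∀ n x, F n (K n x) = x) (hKF : ∀ n x, K n (F n x) = x)
    (hV : ∀ n x, F n x + K n x = 2 * x + v0 n x)
    (h01 : ∀ n x, HasDerivAt (v0 n) (v1 n x) x) (h12 : ∀ n x, HasDerivAt (v1 n) (v2 n x) x)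
    (h23 : ∀ n x, HasDerivAt (v2 n) (v3 n x) x) (h3 : ∀ n, Continuous (v3 n))
    (h0 : ∀ x, v0 0 x = 0 ∧ v1 0 x = 0 ∧ v2 0 x = 0 ∧ v3 0 x = 0)
    (hC0 : ∀ n x, |v0 (n + 1) x - v0 n x| ≤ C * (1 / 2) ^ n)
    (hC1 : ∀ n x, |v1 (n + 1) x - v1 n x| ≤ C * (1 / 2) ^ n)
    (hC2 : ∀ n x, |v2 (n + 1) x - v2 n x| ≤ C * (1 / 2) ^ n)
    (hC3 : ∀ n x, |v3 (n + 1) x - v3 n x| ≤ C * (1 / 2) ^ n)
    (hmono : ∀ n x, F n x ≤ F (n + 1) x)
    (hrot : ∀ n (t : ℕ) x, |(F n)^[t] x - x - t * (p n / q n)| ≤ 2)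
    (hav : ∀ n (t : ℕ) (k : ℤ), 0 < t → t < q n →
      1 / 128 ≤ (F n)^[t] 0 + k ∨ (F n)^[t] 0 + k ≤ -(1 / 128)) :
    ∃ (v f g : ℝ → ℝ) (α : ℝ), ContDiff ℝ 3 v ∧ StrictMono f ∧ Continuous f ∧
      Continuous g ∧ (∀ x, f (g x) = x) ∧ (∀ x, g (f x) = x) ∧
      (∀ x, f (x + 1) = f x + 1) ∧ (∀ x, f x + g x = 2 * x + v x) ∧ Irrational α ∧
      (∀ (t : ℕ) x, |f^[t] x - x - t * α| ≤ 2) ∧
      (∀ (t : ℕ) (j : ℤ), 0 < t → 1 / 128 ≤ f^[t] 0 + j ∨ f^[t] 0 + j ≤ -(1 / 128)) := by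
  obtain ⟨α, hα, hαt⟩ := alpha_irr q p hq0 hq hdet
  have hC : 0 ≤ C := by
    have := (abs_nonneg _).trans (hC0 0 0)
    simpa using this
  -- limits of the derivatives
  obtain ⟨v, hv, hvu⟩ := twl_lim v0 C hC0
  obtain ⟨w1, hw1, hw1u⟩ := twl_lim v1 C hC1
  obtain ⟨w2, hw2, hw2u⟩ := twl_lim v2 C hC2
  obtain ⟨w3, hw3, hw3u⟩ := twl_lim v3 C hC3
  have hd1 : ∀ x, HasDerivAt v (w1 x) x := fun x =>
    hasDerivAt_of_tendstoUniformly hw1u (Eventually.of_forall fun n => h01 n) hv x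
  have hd2 : ∀ x, HasDerivAt w1 (w2 x) x := fun x =>
    hasDerivAt_of_tendstoUniformly hw2u (Eventually.of_forall fun n => h12 n) hw1 x
  have hd3 : ∀ x, HasDerivAt w2 (w3 x) x := fun x =>
    hasDerivAt_of_tendstoUniformly hw3u (Eventually.of_forall fun n => h23 n) hw2 x
  have hc3 : Continuous w3 := hw3u.continuous (Frequently.of_forall h3)
  have hv3 : ContDiff ℝ 3 v := by
    have e0 : ContDiff ℝ (0 : ℕ) w3 := by
      rw [Nat.cast_zero]
      exact contDiff_zero.2 hc3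
    have e1 := twl_contDiff 0 hd3 e0
    have e2 := twl_contDiff 1 hd2 e1
    have e3 := twl_contDiff 2 hd1 e2
    exact_mod_cast e3
  -- Lipschitz bounds
  have hv1b : ∀ n x, |v1 n x| ≤ 2 * C * (1 - (1 / 2) ^ n) := by
    intro n x
    induction n with
    | zero => rw [(h0 x).2.1]; simp
    | succ n ih =>
      have h4 := hC1 n x
      have h5 : |v1 (n + 1) x| ≤ |v1 (n + 1) x - v1 n x| + |v1 n x| := by
        have := abs_add_le (v1 (n + 1) x - v1 n x) (v1 n x)
        simpa using this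
      calc |v1 (n + 1) x| ≤ C * (1 / 2) ^ n + 2 * C * (1 - (1 / 2) ^ n) := by linarith
        _ = 2 * C * (1 - (1 / 2) ^ (n + 1)) := by rw [pow_succ]; ring
  have hv1b' : ∀ n x, |v1 n x| ≤ 2 * C := by
    intro n x
    refine (hv1b n x).trans ?_
    have : (0 : ℝ) ≤ (1 / 2) ^ n := by positivity
    nlinarith
  have hv0L : ∀ n x y, |v0 n y - v0 n x| ≤ 2 * C * |y - x| := by
    intro n x y
    have := Convex.norm_image_sub_le_of_norm_hasDerivWithin_le (s := Set.univ) (f := v0 n)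
      (f' := v1 n) (C := 2 * C) (x := x) (y := y) (fun x _ => (h01 n x).hasDerivWithinAt)
      (fun x _ => by rw [Real.norm_eq_abs]; exact hv1b' n x) convex_univ (Set.mem_univ _)
      (Set.mem_univ _)
    simpa [Real.norm_eq_abs] using this
  set L : ℝ := 2 + 2 * C with hLdef
  have hL0 : 0 ≤ L := by positivity
  have hFL' : ∀ n x y, x ≤ y → F n y - F n x ≤ L * (y - x) ∧ K n y - K n x ≤ L * (y - x) := by
    intro n x y hxy
    have h4 := (hKm n).monotone hxy
    have h5 := (hFm n).monotone hxy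
    have h6 := hV n x
    have h7 := hV n y
    have h8 := (abs_le.1 (hv0L n x y)).2
    rw [abs_of_nonneg (sub_nonneg.2 hxy)] at h8
    constructor <;> nlinarith
  have hFL : ∀ n x y, |F n y - F n x| ≤ L * |y - x| := by
    intro n x y
    rcases le_total x y with h | h
    · rw [abs_of_nonneg (sub_nonneg.2 h), abs_of_nonneg (sub_nonneg.2 ((hFm n).monotone h))]
      exact (hFL' n x y h).1
    · rw [abs_sub_comm, abs_sub_comm y x, abs_of_nonneg (sub_nonneg.2 h),
        abs_of_nonneg (sub_nonneg.2 ((hFm n).monotone h))]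
      exact (hFL' n y x h).1
  have hKL : ∀ n x y, |K n y - K n x| ≤ L * |y - x| := by
    intro n x y
    rcases le_total x y with h | h
    · rw [abs_of_nonneg (sub_nonneg.2 h), abs_of_nonneg (sub_nonneg.2 ((hKm n).monotone h))]
      exact (hFL' n x y h).2
    · rw [abs_sub_comm, abs_sub_comm y x, abs_of_nonneg (sub_nonneg.2 h),
        abs_of_nonneg (sub_nonneg.2 ((hKm n).monotone h))]
      exact (hFL' n y x h).2
  -- the limit maps
  obtain ⟨B, hB⟩ := hαt.bddAbove_range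
  have hbdd : ∀ x, BddAbove (Set.range (fun n => F n x)) := by
    intro x
    refine ⟨x + B + 2, ?_⟩
    rintro _ ⟨n, rfl⟩
    have h4 := (abs_le.1 (hrot n 1 x)).2
    have h5 := hB ⟨n, rfl⟩
    simp only [Function.iterate_one, Nat.cast_one, one_mul] at h4 h5
    show F n x ≤ _
    linarith
  have hFt : ∀ x, Tendsto (fun n => F n x) atTop (𝓝 (⨆ n, F n x)) := fun x =>
    tendsto_atTop_ciSup (monotone_nat_of_le_succ (fun n => hmono n x)) (hbdd x)
  set f : ℝ → ℝ := fun x => ⨆ n, F n x with hf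
  set g : ℝ → ℝ := fun x => 2 * x + v x - f x with hg
  have hKt : ∀ x, Tendsto (fun n => K n x) atTop (𝓝 (g x)) := by
    intro x
    have h4 := ((hv x).const_add (2 * x)).sub (hFt x)
    refine h4.congr (fun n => ?_)
    have := hV n x
    linarith
  have hfL : ∀ x y, |f y - f x| ≤ L * |y - x| := fun x y =>
    le_of_tendsto' ((hFt y).sub (hFt x)).abs (fun n => hFL n x y)
  have hgL : ∀ x y, |g y - g x| ≤ L * |y - x| := fun x y =>
    le_of_tendsto' ((hKt y).sub (hKt x)).abs (fun n => hKL n x y)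
  have hfg : ∀ x, f (g x) = x := by
    intro x
    have h4 : Tendsto (fun n => F n (K n x)) atTop (𝓝 (f (g x))) := twl_comp hFL hFt (hKt x)
    simp only [hFK] at h4
    exact tendsto_nhds_unique h4 tendsto_const_nhds
  have hgf : ∀ x, g (f x) = x := by
    intro x
    have h4 : Tendsto (fun n => K n (F n x)) atTop (𝓝 (g (f x))) := twl_comp hKL hKt (hFt x)
    simp only [hKF] at h4
    exact tendsto_nhds_unique h4 tendsto_const_nhds
  have hfm : StrictMono f := by
    apply Monotone.strictMono_of_injective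
    · intro x y hxy
      exact le_of_tendsto_of_tendsto' (hFt x) (hFt y) (fun n => (hFm n).monotone hxy)
    · intro x y hxy
      rw [← hgf x, ← hgf y, hxy]
  have hiter : ∀ (t : ℕ) x, Tendsto (fun n => (F n)^[t] x) atTop (𝓝 (f^[t] x)) := by
    intro t x
    induction t with
    | zero => simp
    | succ t ih =>
      simp only [Function.iterate_succ_apply']
      exact twl_comp hFL hFt ih
  have hqn : ∀ n, 2 ^ n ≤ q n := by
    intro n
    induction n with
    | zero => simpa using hq0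
    | succ n ih =>
      have := hq n
      rw [pow_succ]
      omega
  refine ⟨v, f, g, α, hv3, hfm, twl_cont hL0 hfL, twl_cont hL0 hgL, hfg, hgf, ?_, ?_, hα, ?_, ?_⟩
  · intro x
    have h4 : Tendsto (fun n => F n (x + 1)) atTop (𝓝 (f (x + 1))) := hFt (x + 1)
    have h5 : Tendsto (fun n => F n (x + 1)) atTop (𝓝 (f x + 1)) :=
      ((hFt x).add_const 1).congr (fun n => (hF1 n x).symm)
    exact tendsto_nhds_unique h4 h5
  · intro x
    simp only [hg]
    ring
  · intro t x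
    have h4 : Tendsto (fun n => |(F n)^[t] x - x - t * ((p n : ℝ) / q n)|) atTop
        (𝓝 |f^[t] x - x - t * α|) :=
      (((hiter t x).sub_const x).sub (hαt.const_mul (t : ℝ))).abs
    exact le_of_tendsto' h4 (fun n => hrot n t x)
  · intro t j ht
    have hcl : IsClosed {y : ℝ | 1 / 128 ≤ y ∨ y ≤ -(1 / 128)} :=
      isClosed_Ici.union isClosed_Iic
    have h4 := (hiter t 0).add_const (j : ℝ)
    refine hcl.mem_of_tendsto h4 ?_
    filter_upwards [eventually_ge_atTop t] with n hn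
    refine hav n t j ht ?_
    calc t ≤ n := hn
      _ < 2 ^ n := Nat.lt_two_pow_self
      _ ≤ q n := hqn n

end Pool.Agent.Helper320.TW
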