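import Mathlib

set_option autoImplicit false

namespace Pool.Agent.Helper320.TW

open Filter Topology

theorem twist_conclude (v f g : ℝ → ℝ) (α : ℝ) (hv : ContDiff ℝ 3 v) (hf : StrictMono f)
    (hfc : Continuous f) (hgc : Continuous g) (hfg : ∀ x, f (g x) = x) (hgf : ∀ x, g (f x) = x)
    (hf1 : ∀ x, f (x + 1) = f x + 1) (hV : ∀ x, f x + g x = 2 * x + v x) (hα : Irrational α)
    (hrot : ∀ (t : ℕ) x, |f^[t] x - x - t * α| ≤ 2)
    (hav : ∀ (t : ℕ) (j : ℤ), 0 < t → 1 / 128 ≤ f^[t] 0 + j ∨ f^[t] 0 + j ≤ -(1 / 128)) :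
    ∃ F : ℝ × ℝ → ℝ × ℝ, ContDiff ℝ 3 F ∧ Function.Bijective F ∧
      (∀ x y : ℝ, F (x + 1, y) = F (x, y) + (1, 0)) ∧
      (∀ p : ℝ × ℝ, LinearMap.det (fderiv ℝ F p).toLinearMap = 1) ∧
      (∀ p : ℝ × ℝ, 0 < (fderiv ℝ F p (0, 1)).1) ∧
      ∃ γ : ℝ → ℝ, Continuous γ ∧ (∀ x, γ (x + 1) = γ x) ∧
        ∃ g : CircleDeg1Lift, (∀ x, F (x, γ x) = (g x, γ (g x))) ∧
          Irrational g.translationNumber ∧
          ¬ ∃ h : ℝ ≃ₜ ℝ, ∃ a : ℝ, (∀ x, h (x + 1) = h x + 1) ∧
              ∀ x, h (g x) = h x + a := by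
  have hg1 : ∀ x, g (x + 1) = g x + 1 := by
    intro x
    have h1 : f (g x + 1) = x + 1 := by rw [hf1, hfg]
    rw [← h1, hgf]
  have hv1 : ∀ x, v (x + 1) = v x := by
    intro x
    have h1 := hV (x + 1)
    have h2 := hV x
    rw [hf1, hg1] at h1
    linarith
  set F : ℝ × ℝ → ℝ × ℝ := fun p => (p.1 + p.2 + v p.1, p.2 + v p.1) with hF
  have hFd : ∀ p : ℝ × ℝ, HasFDerivAt F
      ((ContinuousLinearMap.fst ℝ ℝ ℝ + ContinuousLinearMap.snd ℝ ℝ ℝ
          + (deriv v p.1) • ContinuousLinearMap.fst ℝ ℝ ℝ).prod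
        (ContinuousLinearMap.snd ℝ ℝ ℝ + (deriv v p.1) • ContinuousLinearMap.fst ℝ ℝ ℝ)) p := by
    intro p
    have h1 : HasFDerivAt (fun p : ℝ × ℝ => p.1) (ContinuousLinearMap.fst ℝ ℝ ℝ) p :=
      hasFDerivAt_fst
    have h2 : HasFDerivAt (fun p : ℝ × ℝ => p.2) (ContinuousLinearMap.snd ℝ ℝ ℝ) p :=
      hasFDerivAt_snd
    have h3 : HasDerivAt v (deriv v p.1) p.1 :=
      ((hv.differentiable (by norm_num)) p.1).hasDerivAt
    have h4 : HasFDerivAt (fun p : ℝ × ℝ => v p.1)
        ((deriv v p.1) • ContinuousLinearMap.fst ℝ ℝ ℝ) p :=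
      h3.comp_hasFDerivAt p h1
    exact ((h1.add h2).add h4).prodMk (h2.add h4)
  have hFfd : ∀ p : ℝ × ℝ, fderiv ℝ F p = 
      ((ContinuousLinearMap.fst ℝ ℝ ℝ + ContinuousLinearMap.snd ℝ ℝ ℝ
          + (deriv v p.1) • ContinuousLinearMap.fst ℝ ℝ ℝ).prod
        (ContinuousLinearMap.snd ℝ ℝ ℝ + (deriv v p.1) • ContinuousLinearMap.fst ℝ ℝ ℝ)) :=
    fun p => (hFd p).fderiv
  have hF3 : ContDiff ℝ 3 F := by
    have h1 : ContDiff ℝ 3 (fun p : ℝ × ℝ => v p.1) := hv.comp contDiff_fst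
    exact ((contDiff_fst.add contDiff_snd).add h1).prodMk (contDiff_snd.add h1)
  refine ⟨F, hF3, ?_, ?_, ?_, ?_, fun x => x - g x, ?_, ?_, ⟨⟨f, hf.monotone⟩, hf1⟩, ?_, ?_, ?_⟩
  · constructor
    · rintro ⟨x, y⟩ ⟨x', y'⟩ h
      simp only [hF, Prod.mk.injEq] at h
      obtain ⟨h1, h2⟩ := h
      have hx : x = x' := by linarith
      subst hx
      have hy : y = y' := by linarith
      rw [hy]
    · rintro ⟨X, Y⟩
      refine ⟨(X - Y, Y - v (X - Y)), ?_⟩
      simp only [hF, Prod.mk.injEq]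
      constructor <;> ring
  · intro x y
    simp only [hF, hv1, Prod.mk_add_mk, Prod.mk.injEq]
    constructor <;> ring
  · intro p
    rw [hFfd, ← LinearMap.det_toMatrix (Module.Basis.finTwoProd ℝ), Matrix.det_fin_two]
    simp [LinearMap.toMatrix_apply, Module.Basis.finTwoProd_zero, Module.Basis.finTwoProd_one]
  · intro p
    rw [hFfd]
    simp
  · exact continuous_id.sub hgc
  · intro x
    simp only [hg1]
    ring
  · intro x
    show F (x, x - g x) = (f x, f x - g (f x))
    simp only [hF, Prod.mk.injEq, hgf]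
    have := hV x
    constructor <;> linarith
  · -- translation number
    set gl : CircleDeg1Lift := ⟨⟨f, hf.monotone⟩, hf1⟩ with hgl
    have h1 := gl.tendsto_translationNumber 0
    have hpow : ∀ n : ℕ, (gl ^ n) 0 = f^[n] 0 := by
      intro n
      rw [CircleDeg1Lift.coe_pow]
      rfl
    have h2 : Tendsto (fun n : ℕ => ((gl ^ n) 0 - 0) / (n : ℝ)) atTop (𝓝 α) := by
      rw [tendsto_iff_norm_sub_tendsto_zero]
      refine squeeze_zero' (Eventually.of_forall fun n => norm_nonneg _) ?_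
        (tendsto_const_div_atTop_nhds_zero_nat (2 : ℝ))
      filter_upwards [eventually_gt_atTop 0] with n hn
      have hn' : (0 : ℝ) < n := by exact_mod_cast hn
      rw [hpow, Real.norm_eq_abs, sub_zero]
      have h3 : f^[n] 0 / (n : ℝ) - α = (f^[n] 0 - 0 - n * α) / n := by
        field_simp
        ring
      rw [h3, abs_div, abs_of_pos hn']
      exact div_le_div_of_nonneg_right (hrot n 0) hn'.le
    rw [tendsto_nhds_unique h1 h2]
    exact hα
  · rintro ⟨h, a, hh1, hha⟩
    have hha' : ∀ x, h (f x) = h x + a := hha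
    have hit : ∀ (t : ℕ) x, h (f^[t] x) = h x + t * a := by
      intro t
      induction t with
      | zero => intro x; simp
      | succ t ih =>
        intro x
        rw [Function.iterate_succ_apply, ih, hha']
        push_cast
        ring
    have hint : ∀ (j : ℤ) x, h (x + j) = h x + j := by
      intro j
      induction j using Int.induction_on with
      | zero => intro x; simp
      | succ i ih =>
        intro x
        push_cast
        rw [← add_assoc, hh1]
        have := ih x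
        push_cast at this
        rw [this]
        ring
      | pred i ih =>
        intro x
        have h1 := hh1 (x + ((-(i:ℤ) - 1 : ℤ) : ℝ))
        have h2 : x + ((-(i:ℤ) - 1 : ℤ) : ℝ) + 1 = x + ((-(i:ℤ) : ℤ) : ℝ) := by
          push_cast; ring
        rw [h2, ih x] at h1
        have h3 : ((-(i:ℤ) - 1 : ℤ) : ℝ) = ((-(i:ℤ) : ℤ) : ℝ) - 1 := by push_cast; ring
        rw [h3] at h1 ⊢
        linarith
    have hmono : StrictMono h := by
      rcases h.continuous.strictMono_of_inj h.injective with h1 | h1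
      · exact h1
      · exfalso
        have h2 := h1 (zero_lt_one' ℝ)
        have h3 := hh1 0
        rw [zero_add] at h3
        linarith
    set δ := min (h (1 / 128) - h 0) (h 0 - h (-(1 / 128))) with hδ
    have hδ0 : 0 < δ := by
      refine lt_min ?_ ?_
      · have := hmono (show (0:ℝ) < 1 / 128 by norm_num)
        linarith
      · have := hmono (show (-(1 / 128) : ℝ) < 0 by norm_num)
        linarith
    obtain ⟨n, hn⟩ := exists_nat_one_div_lt hδ0
    obtain ⟨k, hk0, -, hk⟩ := Real.exists_nat_abs_mul_sub_round_le a (Nat.succ_pos n)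
    have hk2 : |(k : ℝ) * a - round ((k : ℝ) * a)| < δ := by
      refine lt_of_le_of_lt hk (lt_of_le_of_lt ?_ hn)
      apply one_div_le_one_div_of_le (by positivity)
      push_cast
      linarith
    rw [abs_lt] at hk2
    have hval : h (f^[k] 0 + ((-round ((k : ℝ) * a) : ℤ) : ℝ)) =
        h 0 + (k * a - round ((k : ℝ) * a)) := by
      rw [hint, hit]
      push_cast
      ring
    have hlt1 : h (f^[k] 0 + ((-round ((k : ℝ) * a) : ℤ) : ℝ)) < h (1 / 128) := by
      rw [hval]
      have := min_le_left (h (1 / 128) - h 0) (h 0 - h (-(1 / 128)))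
      linarith
    have hlt2 : h (-(1 / 128)) < h (f^[k] 0 + ((-round ((k : ℝ) * a) : ℤ) : ℝ)) := by
      rw [hval]
      have := min_le_right (h (1 / 128) - h 0) (h 0 - h (-(1 / 128)))
      linarith
    have h5 := hmono.lt_iff_lt.mp hlt1
    have h6 := hmono.lt_iff_lt.mp hlt2
    rcases hav k (-round ((k : ℝ) * a)) hk0 with h7 | h7 <;> linarith

end Pool.Agent.Helper320.TW
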