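import Mathlib
import Pool.Agent.Helper320.TWShear

set_option autoImplicit false

namespace Pool.Agent.Helper320.TW

theorem nu_iter (P : Prof) (q q' : ℕ) (p p' : ℤ) (b : ℝ → ℝ) (hb : Comb P q q' p p' b) (t : ℕ)
    (s : ℝ) : b (s + t * (p' : ℝ)) = (fh P q p)^[t] (b s) := by
  induction t with
  | zero => simp
  | succ t ih =>
    rw [Function.iterate_succ_apply', ← ih, hb.conj]
    congr 1; push_cast; ring

theorem seg_gen (P : Prof) (q m m2 : ℕ) (p r : ℤ) (ι : ℝ → ℝ) (h : Stage q m m2 p r ι)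
    (t : ℕ) (ht : t ≤ q) (A B : ℝ) (k : ℤ) :
    ∃ c : ℝ, (t < 2 * m → c = sl ι (t * p) * A) ∧ (k = 0 → A = B → c = sl ι (t * p) * A) ∧
      ∀ y y0 d : ℝ, 1 / 4 ≤ y → y ≤ 3 / 4 → 1 / 4 ≤ y0 → y0 ≤ 3 / 4 → y - y0 = A * d →
        P.Θ y - P.Θ y0 = B * d → 1 / 4 + k ≤ P.Θ y → P.Θ y ≤ 3 / 4 + k → 1 / 4 + k ≤ P.Θ y0 →
        P.Θ y0 ≤ 3 / 4 + k →
        ι (Zf P q m p (wt ι m p) ((fh P q p)^[t] y)) -
          ι (Zf P q m p (wt ι m p) ((fh P q p)^[t] y0)) = c * d := by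
  have hm := h.m_pos
  have hdet : (m : ℝ) * p = 1 + r * q := by
    have : ((m : ℤ) : ℝ) * p - r * q = 1 := by exact_mod_cast h.det
    push_cast at this; linarith
  rcases lt_or_ge t (2 * m) with h1 | h1
  · refine ⟨sl ι (t * p) * A, fun _ => rfl, fun _ _ => rfl, ?_⟩
    intro y y0 d a1 a2 a3 a4 e1 e2 _ _ _ _
    rw [(Z_H P q m m2 p r h.m2_lt h.q_eq h.det (wt ι m p) y a1 a2 t ht).1 h1,
      (Z_H P q m m2 p r h.m2_lt h.q_eq h.det (wt ι m p) y0 a3 a4 t ht).1 h1]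
    have := h.win_sub (t * p) y y0 a1 a2 a3 a4
    push_cast at this
    rw [this, e1]; ring
  · rcases lt_or_ge t (3 * m) with h2 | h2
    · obtain ⟨i, hi⟩ : ∃ i, t = 2 * m + i := ⟨t - 2 * m, by omega⟩
      have him : i < m := by omega
      have htp : (t : ℝ) * p = 2 + i * p + (2 * r : ℤ) * q := by
        rw [hi]; push_cast; linear_combination 2 * hdet
      have hslt : sl ι (t * p) = sl ι (1 + i * p) := by
        have e : (t : ℤ) * p = ((2 : ℕ) + (i : ℤ) * p) + (2 * r) * q := by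
          have := h.det
          rw [hi]; push_cast; linear_combination 2 * this
        rw [e, h.sl_add, h.base_sl i him.le 2 (by norm_num) (by norm_num)]
      refine ⟨sl ι (1 + i * p) * (A + wt ι m p i * (B - A)), fun h' => by omega,
        fun _ hAB => by rw [hslt, hAB]; ring, ?_⟩
      intro y y0 d a1 a2 a3 a4 e1 e2 _ _ _ _
      rw [(Z_H P q m m2 p r h.m2_lt h.q_eq h.det (wt ι m p) y a1 a2 t ht).2.1 i him hi,
        (Z_H P q m m2 p r h.m2_lt h.q_eq h.det (wt ι m p) y0 a3 a4 t ht).2.1 i him hi, htp]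
      have w0 := wt_nonneg ι h.mono m hm p i
      have w1 := wt_le_one ι h.mono m hm p i him.le
      have b1 := P.lt_Θ y
      have b2 := P.Θ_lt y
      have b3 := P.lt_Θ y0
      have b4 := P.Θ_lt y0
      have c1 : 0 ≤ wt ι m p i * (P.Θ y - y) := mul_nonneg w0 (by linarith)
      have c2 : wt ι m p i * (P.Θ y - y) ≤ 1 := by nlinarith
      have c3 : 0 ≤ wt ι m p i * (P.Θ y0 - y0) := mul_nonneg w0 (by linarith)
      have c4 : wt ι m p i * (P.Θ y0 - y0) ≤ 1 := by nlinarith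
      have := h.base_sub i him.le (2 * r) (y + 2 + wt ι m p i * (P.Θ y - y))
        (y0 + 2 + wt ι m p i * (P.Θ y0 - y0)) (by linarith) (by linarith) (by linarith)
        (by linarith)
      rw [show y + wt ι m p i * (P.Θ y - y) + (2 + i * p + (2 * r : ℤ) * q) =
          y + 2 + wt ι m p i * (P.Θ y - y) + i * p + (2 * r : ℤ) * q by ring,
        show y0 + wt ι m p i * (P.Θ y0 - y0) + (2 + i * p + (2 * r : ℤ) * q) =
          y0 + 2 + wt ι m p i * (P.Θ y0 - y0) + i * p + (2 * r : ℤ) * q by ring, this]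
      linear_combination sl ι (1 + i * p) * (1 - wt ι m p i) * e1 +
        sl ι (1 + i * p) * wt ι m p i * e2
    · refine ⟨sl ι (t * p + k) * B, fun h' => by omega, fun hk hAB => by
        rw [hk, hAB, add_zero], ?_⟩
      intro y y0 d a1 a2 a3 a4 e1 e2 g1 g2 g3 g4
      rw [(Z_H P q m m2 p r h.m2_lt h.q_eq h.det (wt ι m p) y a1 a2 t ht).2.2 h2,
        (Z_H P q m m2 p r h.m2_lt h.q_eq h.det (wt ι m p) y0 a3 a4 t ht).2.2 h2]
      have := h.win_sub (t * p + k) (P.Θ y - k) (P.Θ y0 - k) (by linarith) (by linarith)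
        (by linarith) (by linarith)
      push_cast at this
      rw [show P.Θ y - k + (t * p + k) = P.Θ y + t * p by ring,
        show P.Θ y0 - k + (t * p + k) = P.Θ y0 + t * p by ring] at this
      rw [this]
      linear_combination sl ι (t * p + k) * e2

theorem seg (P : Prof) (q m m2 : ℕ) (p r : ℤ) (ι : ℝ → ℝ) (h : Stage q m m2 p r ι) (q' : ℕ)
    (hq' : q' + m = 16 * q) (b : ℝ → ℝ) (hb : Comb P q q' p (16 * p - r) b)
    (t : ℕ) (ht : t ≤ q) (s s0 : ℝ) (h1 : 5 / 4 ≤ s) (h2 : s ≤ 59 / 4) (h3 : 5 / 4 ≤ s0)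
    (h4 : s0 ≤ 59 / 4) :
    nu P q m p ι b (s + t * ((16 * p - r : ℤ) : ℝ)) -
      nu P q m p ι b (s0 + t * ((16 * p - r : ℤ) : ℝ)) = sl ι (t * p) / 64 * (s - s0) := by
  obtain ⟨c, -, hc, hd⟩ := seg_gen P q m m2 p r ι h t ht (1 / 64) (1 / 64) 0
  have hc' := hc rfl rfl
  have e : ∀ s : ℝ, 5 / 4 ≤ s → s ≤ 59 / 4 → b s = 7 / 16 + s / 64 ∧
      P.Θ (b s) = 7 / 16 + (s + 1) / 64 := by
    intro s h1 h2
    have e1 := hb.base s (by linarith) (by linarith)
    have e2 := P.β_B (s / 16) (by linarith) (by linarith)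
    have e3 := P.β_B (s / 16 + 1 / 16) (by linarith) (by linarith)
    rw [e1, P.Θ_β, e3, e2]
    constructor <;> ring
  obtain ⟨e1, e2⟩ := e s h1 h2
  obtain ⟨e3, e4⟩ := e s0 h3 h4
  unfold nu
  rw [nu_iter P q q' p _ b hb, nu_iter P q q' p _ b hb,
    hd (b s) (b s0) (s - s0) (by linarith) (by linarith) (by linarith) (by linarith)
      (by rw [e1, e3]; ring) (by rw [e2, e4]; ring) (by push_cast; linarith)
      (by push_cast; linarith) (by push_cast; linarith) (by push_cast; linarith), hc']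
  ring

theorem seg0 (P : Prof) (q m m2 : ℕ) (p r : ℤ) (ι : ℝ → ℝ) (h : Stage q m m2 p r ι) (q' : ℕ)
    (hq' : q' + m = 16 * q) (b : ℝ → ℝ) (hb : Comb P q q' p (16 * p - r) b)
    (t : ℕ) (ht : t ≤ q) : ∃ c : ℝ, (t = 0 → c = sl ι 0 / 8) ∧
      ∀ s s0 : ℝ, 1 / 4 ≤ s → s ≤ 3 / 4 → 1 / 4 ≤ s0 → s0 ≤ 3 / 4 →
        nu P q m p ι b (s + t * ((16 * p - r : ℤ) : ℝ)) -
          nu P q m p ι b (s0 + t * ((16 * p - r : ℤ) : ℝ)) = c * (s - s0) := by
  obtain ⟨c, hc, -, hd⟩ := seg_gen P q m m2 p r ι h t ht (1 / 8) (1 / 64) 0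
  have hm := h.m_pos
  refine ⟨c, fun h0 => by
    rw [hc (by omega), h0]
    simp only [Nat.cast_zero, zero_mul]
    ring, ?_⟩
  intro s s0 h1 h2 h3 h4
  have e : ∀ s : ℝ, 1 / 4 ≤ s → s ≤ 3 / 4 → b s = 1 / 4 + s / 8 ∧
      P.Θ (b s) = 7 / 16 + (s + 1) / 64 := by
    intro s h1 h2
    have e1 := hb.base s (by linarith) (by linarith)
    have e2 := P.β_A (s / 16) (by linarith) (by linarith)
    have e3 := P.β_B (s / 16 + 1 / 16) (by linarith) (by linarith)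
    rw [e1, P.Θ_β, e3, e2]
    constructor <;> ring
  obtain ⟨e1, e2⟩ := e s h1 h2
  obtain ⟨e3, e4⟩ := e s0 h3 h4
  unfold nu
  rw [nu_iter P q q' p _ b hb, nu_iter P q q' p _ b hb,
    hd (b s) (b s0) (s - s0) (by linarith) (by linarith) (by linarith) (by linarith)
      (by rw [e1, e3]; ring) (by rw [e2, e4]; ring) (by push_cast; linarith)
      (by push_cast; linarith) (by push_cast; linarith) (by push_cast; linarith)]

theorem seg15 (P : Prof) (q m m2 : ℕ) (p r : ℤ) (ι : ℝ → ℝ) (h : Stage q m m2 p r ι) (q' : ℕ)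
    (hq' : q' + m = 16 * q) (b : ℝ → ℝ) (hb : Comb P q q' p (16 * p - r) b)
    (t : ℕ) (ht : t ≤ q) : ∃ c : ℝ,
      ∀ s s0 : ℝ, 61 / 4 ≤ s → s ≤ 63 / 4 → 61 / 4 ≤ s0 → s0 ≤ 63 / 4 →
        nu P q m p ι b (s + t * ((16 * p - r : ℤ) : ℝ)) -
          nu P q m p ι b (s0 + t * ((16 * p - r : ℤ) : ℝ)) = c * (s - s0) := by
  obtain ⟨c, -, -, hd⟩ := seg_gen P q m m2 p r ι h t ht (1 / 64) (1 / 8) 1
  refine ⟨c, ?_⟩
  intro s s0 h1 h2 h3 h4
  have e : ∀ s : ℝ, 61 / 4 ≤ s → s ≤ 63 / 4 → b s = 7 / 16 + s / 64 ∧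
      P.Θ (b s) = 5 / 4 + (s - 15) / 8 := by
    intro s h1 h2
    have e1 := hb.base s (by linarith) (by linarith)
    have e2 := P.β_B (s / 16) (by linarith) (by linarith)
    have e3 := P.β_A ((s - 15) / 16) (by linarith) (by linarith)
    have e4 := P.β_add ((s - 15) / 16)
    rw [e1, P.Θ_β, e2, show s / 16 + 1 / 16 = (s - 15) / 16 + 1 by ring, e4, e3]
    constructor <;> ring
  obtain ⟨e1, e2⟩ := e s h1 h2
  obtain ⟨e3, e4⟩ := e s0 h3 h4
  unfold nu
  rw [nu_iter P q q' p _ b hb, nu_iter P q q' p _ b hb,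
    hd (b s) (b s0) (s - s0) (by linarith) (by linarith) (by linarith) (by linarith)
      (by rw [e1, e3]; ring) (by rw [e2, e4]; ring) (by push_cast; linarith)
      (by push_cast; linarith) (by push_cast; linarith) (by push_cast; linarith)]

end Pool.Agent.Helper320.TW
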