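import Mathlib
import Pool.Agent.Helper320.TWSeg

set_option autoImplicit false

namespace Pool.Agent.Helper320.TW

theorem nu_win (P : Prof) (q m m2 : ℕ) (p r : ℤ) (ι : ℝ → ℝ) (h : Stage q m m2 p r ι) (q' : ℕ)
    (hq' : q' + m = 16 * q) (b : ℝ → ℝ) (hb : Comb P q q' p (16 * p - r) b)
    (hadd : ∀ s, nu P q m p ι b (s + q') = nu P q m p ι b s + 1) (j : ℤ) (s : ℝ)
    (h1 : 1 / 4 ≤ s) (h2 : s ≤ 3 / 4) :
    nu P q m p ι b (j + s) = nu P q m p ι b (j + 1 / 4) + sl (nu P q m p ι b) j * (s - 1 / 4) := by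
  set N := nu P q m p ι b with hN
  have hm2 := h.m2_lt
  have hqe := h.q_eq
  have hdet := h.det
  have hqpos : 0 < q := by omega
  have hq'pos : 0 < q' := by omega
  have hq'lt : q' ≤ 16 * q := by omega
  have hNk : ∀ (x : ℝ) (k : ℤ), N (x + k * q') = N x + k := by
    intro x k
    induction k using Int.induction_on with
    | zero => simp
    | succ k ih =>
      have := hadd (x + (k : ℤ) * q')
      push_cast at *
      rw [show x + ((k : ℝ) + 1) * q' = x + k * q' + q' by ring, this, ih]; ring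
    | pred k ih =>
      have := hadd (x + ((-(k : ℤ) - 1 : ℤ) : ℝ) * q')
      push_cast at *
      have e : x + (-(k:ℝ) - 1) * q' + q' = x + -(k:ℝ) * q' := by ring
      rw [e, ih] at this
      linarith
  have hq'Z : (0 : ℤ) < q' := by exact_mod_cast hq'pos
  obtain ⟨a, ha⟩ : ∃ a : ℕ, (a : ℤ) = (j * q) % q' :=
    ⟨((j * q) % q').toNat, Int.toNat_of_nonneg (Int.emod_nonneg _ hq'Z.ne')⟩
  have halt : a < q' := by
    have := Int.emod_lt_of_pos (j * q) hq'Z
    rw [← ha] at this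
    exact_mod_cast this
  have hjq : j * q = a + q' * ((j * q) / q') := by
    rw [ha]
    exact (Int.emod_add_mul_ediv _ _).symm
  set k1 := (j * q) / q' with hk1
  obtain ⟨K, t, hKt, htq, hK⟩ : ∃ K t : ℕ, a = K * q + t ∧ t ≤ q ∧ K ≤ 15 := by
    refine ⟨a / q, a % q, ?_, (Nat.mod_lt _ hqpos).le, ?_⟩
    · have := Nat.div_add_mod a q
      rw [mul_comm] at this
      exact this.symm
    · have : a / q < 16 := by
        rw [Nat.div_lt_iff_lt_mul hqpos]
        omega
      omega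
  have hq'e : (q' : ℤ) = 16 * q - m := by
    have : (q' : ℤ) + m = 16 * q := by exact_mod_cast hq'
    linarith
  have haZ : (a : ℤ) = K * q + t := by exact_mod_cast hKt
  have hj : j = K + t * (16 * p - r) + (K * p - j * p + k1 * (16 * p - r)) * q' := by
    have e1 : (t : ℤ) = j * q - q' * k1 - K * q := by linarith
    have e2 : (q : ℤ) * (16 * p - r) - p * q' = 1 := by
      rw [hq'e]
      linear_combination hdet
    rw [e1]
    linear_combination (K - j) * e2
  have hjR : ∀ x : ℝ, (j : ℝ) + x = (K + x + t * ((16 * p - r : ℤ) : ℝ)) +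
      ((K * p - j * p + k1 * (16 * p - r) : ℤ) : ℝ) * q' := by
    intro x
    have : (j : ℝ) = ((K + t * (16 * p - r) + (K * p - j * p + k1 * (16 * p - r)) * q' : ℤ) : ℝ) := by
      exact_mod_cast hj
    rw [this]
    push_cast
    ring
  have hc : ∃ c : ℝ, ∀ x x0 : ℝ, 1 / 4 ≤ x → x ≤ 3 / 4 → 1 / 4 ≤ x0 → x0 ≤ 3 / 4 →
      N (K + x + t * ((16 * p - r : ℤ) : ℝ)) - N (K + x0 + t * ((16 * p - r : ℤ) : ℝ)) =
        c * (x - x0) := by
    rcases Nat.eq_zero_or_pos K with hK0 | hK0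
    · obtain ⟨c, -, hc⟩ := seg0 P q m m2 p r ι h q' hq' b hb t htq
      refine ⟨c, fun x x0 hx1 hx2 hx3 hx4 => ?_⟩
      rw [hK0, Nat.cast_zero, zero_add, zero_add]
      exact hc x x0 hx1 hx2 hx3 hx4
    · rcases Nat.lt_or_ge K 15 with hK1 | hK1
      · refine ⟨sl ι (t * p) / 64, fun x x0 hx1 hx2 hx3 hx4 => ?_⟩
        have hKr : (1 : ℝ) ≤ K := by exact_mod_cast hK0
        have hKr2 : (K : ℝ) ≤ 14 := by exact_mod_cast (by omega : K ≤ 14)
        have := seg P q m m2 p r ι h q' hq' b hb t htq (K + x) (K + x0) (by linarith)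
          (by linarith) (by linarith) (by linarith)
        rw [this]
        ring
      · have hKe : K = 15 := by omega
        obtain ⟨c, hc⟩ := seg15 P q m m2 p r ι h q' hq' b hb t htq
        refine ⟨c, fun x x0 hx1 hx2 hx3 hx4 => ?_⟩
        have hKr : (K : ℝ) = 15 := by exact_mod_cast hKe
        have := hc (K + x) (K + x0) (by linarith) (by linarith) (by linarith) (by linarith)
        rw [this]
        ring
  obtain ⟨c, hc⟩ := hc
  have hdiff : ∀ x x0 : ℝ, 1 / 4 ≤ x → x ≤ 3 / 4 → 1 / 4 ≤ x0 → x0 ≤ 3 / 4 →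
      N (j + x) - N (j + x0) = c * (x - x0) := by
    intro x x0 hx1 hx2 hx3 hx4
    rw [hjR x, hjR x0, hNk, hNk]
    have := hc x x0 hx1 hx2 hx3 hx4
    linarith
  have hsl : sl N j = c := by
    unfold sl
    have := hdiff (3 / 4) (1 / 4) (by norm_num) (by norm_num) (by norm_num) (by norm_num)
    rw [this]
    ring
  have := hdiff s (1 / 4) h1 h2 (by norm_num) (by norm_num)
  rw [hsl]
  linarith

end Pool.Agent.Helper320.TW
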