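import Mathlib
import Pool.Agent.Helper320.TWWin

set_option autoImplicit false

namespace Pool.Agent.Helper320.TW

theorem new_stage_aux_add (P : Prof) (q m m2 : ℕ) (p r : ℤ) (ι : ℝ → ℝ)
    (h : Stage q m m2 p r ι) (q' : ℕ)
    (b : ℝ → ℝ) (hb : Comb P q q' p (16 * p - r) b) (s : ℝ) :
    nu P q m p ι b (s + q') = nu P q m p ι b s + 1 := by
  have hq := h.q16
  unfold nu
  have e : b s + (q : ℝ) = b s + ((1 : ℤ) : ℝ) * q := by push_cast; ring
  rw [hb.add, e, Z_add P q m (by omega), h.add_int]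
  push_cast
  ring

theorem new_stage_aux_slope (P : Prof) (q m m2 : ℕ) (p r : ℤ) (ι : ℝ → ℝ)
    (h : Stage q m m2 p r ι) (q' : ℕ)
    (hq' : q' + m = 16 * q) (b : ℝ → ℝ) (hb : Comb P q q' p (16 * p - r) b) (i : ℕ) (hi : i ≤ q) :
    sl (nu P q m p ι b) (1 + i * (16 * p - r)) = sl ι (i * p) / 64 := by
  have h1 := seg P q m m2 p r ι h q' hq' b hb i hi (7 / 4) (5 / 4) (by norm_num) (by norm_num)
    (by norm_num) (by norm_num)
  unfold sl
  unfold sl at h1
  have e1 : (((1 + i * (16 * p - r) : ℤ)) : ℝ) + 3 / 4 =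
      7 / 4 + i * ((16 * p - r : ℤ) : ℝ) := by push_cast; ring
  have e2 : (((1 + i * (16 * p - r) : ℤ)) : ℝ) + 1 / 4 =
      5 / 4 + i * ((16 * p - r : ℤ) : ℝ) := by push_cast; ring
  rw [e1, e2, h1]
  ring

theorem new_stage_aux_stage (P : Prof) (q m m2 : ℕ) (p r : ℤ) (ι : ℝ → ℝ)
    (h : Stage q m m2 p r ι) (q' : ℕ)
    (hq' : q' + m = 16 * q) (b : ℝ → ℝ) (hb : Comb P q q' p (16 * p - r) b) :
    Stage q' q m (16 * p - r) p (nu P q m p ι b) := by
  have hq := h.q16
  have hm := h.m_pos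
  have hlt := h.m2_lt
  have hqe := h.q_eq
  have hw : ∀ i, i < m → 0 ≤ wt ι m p i ∧ wt ι m p i ≤ 1 := fun i hi =>
    ⟨wt_nonneg ι h.mono m hm p i, wt_le_one ι h.mono m hm p i hi.le⟩
  have hadd := new_stage_aux_add P q m m2 p r ι h q' b hb
  refine ⟨by omega, hq', ?_, ?_, ?_, hadd, ?_, ?_, ?_⟩
  · have e : (q' : ℤ) = 16 * q - m := by
      have : (q' : ℤ) + m = 16 * q := by exact_mod_cast hq'
      linarith
    rw [e]
    linear_combination h.det
  · intro x y hxy
    exact h.mono (Z_mono P q m m2 p r hlt hqe h.det _ hw (hb.mono hxy))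
  · exact h.surj.comp ((Z_surj P q m m2 p r hlt hqe h.det _ hw).comp hb.surj)
  · intro t s hs1 hs2
    exact nu_win P q m m2 p r ι h q' hq' b hb hadd t s hs1 hs2
  · intro i hi s hs1 hs2
    have h1 := seg P q m m2 p r ι h q' hq' b hb i hi s (5 / 4) hs1 hs2 (by norm_num) (by norm_num)
    rw [new_stage_aux_slope P q m m2 p r ι h q' hq' b hb i hi]
    linarith
  · intro s hs
    have hs' := abs_le.1 hs
    have e1 : b s = s := by
      rw [hb.base s (by linarith) (by linarith), P.β_J (s / 16) ?_]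
      · ring
      · rw [abs_div, abs_of_pos (by norm_num : (0 : ℝ) < 16)]
        linarith
    have e2 : Zf P q m p (wt ι m p) s = s := by
      have := Z_A P q m m2 p r hlt hqe h.det (wt ι m p) 0 hm s 0 (by linarith) (by linarith)
      simpa [wt_zero] using this
    unfold nu
    rw [e1, e2]
    exact h.J s hs

theorem new_stage_aux_block (q m m2 : ℕ) (p r : ℤ) (ι : ℝ → ℝ)
    (h : Stage q m m2 p r ι) (k : ℕ) (hk : 1 ≤ k) (hk' : k ≤ 14) (i : ℕ) (hi : i ≤ m) :
    sl ι (((k * m + i : ℕ) : ℤ) * p) = sl ι (1 + i * p) := by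
  have e : ((k * m + i : ℕ) : ℤ) * p = (k + i * p) + (k * r) * q := by
    push_cast
    linear_combination (k : ℤ) * h.det
  rw [e, h.sl_add, h.base_sl i hi k hk hk']

theorem new_stage_aux_sum (q m m2 : ℕ) (p r : ℤ) (ι : ℝ → ℝ)
    (h : Stage q m m2 p r ι) (K : ℕ) (hK : K ≤ 14) :
    K * Rs ι m p ≤ ∑ t ∈ Finset.range ((K + 1) * m),
      1 / (sl ι ((t : ℤ) * p) * sl ι (((t + 1 : ℕ) : ℤ) * p)) := by
  have hpos : ∀ t : ℕ, 0 < 1 / (sl ι ((t : ℤ) * p) * sl ι (((t + 1 : ℕ) : ℤ) * p)) := by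
    intro t
    have h1 := sl_pos ι h.mono ((t : ℤ) * p)
    have h2 := sl_pos ι h.mono (((t + 1 : ℕ) : ℤ) * p)
    positivity
  induction K with
  | zero =>
    simp only [Nat.cast_zero, zero_mul]
    exact Finset.sum_nonneg fun t _ => (hpos t).le
  | succ K ih =>
    have ih' := ih (by omega)
    have e : (K + 1 + 1) * m = (K + 1) * m + m := by ring
    rw [e, Finset.sum_range_add]
    have e2 : ∑ x ∈ Finset.range m, 1 / (sl ι ((((K + 1) * m + x : ℕ) : ℤ) * p) *
        sl ι ((((K + 1) * m + x + 1 : ℕ) : ℤ) * p)) = Rs ι m p := by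
      unfold Rs
      refine Finset.sum_congr rfl fun x hx => ?_
      rw [Finset.mem_range] at hx
      have h1 := new_stage_aux_block q m m2 p r ι h (K + 1) (by omega) hK x hx.le
      have h2 := new_stage_aux_block q m m2 p r ι h (K + 1) (by omega) hK (x + 1) hx
      rw [← add_assoc] at h2
      rw [h1, h2]
      push_cast
      rfl
    rw [e2]
    have e3 : ((K + 1 : ℕ) : ℝ) = K + 1 := by push_cast; ring
    rw [e3]
    linarith

theorem new_stage (P : Prof) (q m m2 : ℕ) (p r : ℤ) (ι : ℝ → ℝ) (h : Stage q m m2 p r ι) (q' : ℕ)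
    (hq' : q' + m = 16 * q) (b : ℝ → ℝ) (hb : Comb P q q' p (16 * p - r) b) :
    Stage q' q m (16 * p - r) p (nu P q m p ι b) ∧
      sl (nu P q m p ι b) 0 = sl ι 0 / 8 ∧ sl (nu P q m p ι b) 1 = sl ι 0 / 64 ∧
      57344 * Rs ι m p ≤ Rs (nu P q m p ι b) q (16 * p - r) := by
  refine ⟨new_stage_aux_stage P q m m2 p r ι h q' hq' b hb, ?_, ?_, ?_⟩
  · obtain ⟨c, hc, hc'⟩ := seg0 P q m m2 p r ι h q' hq' b hb 0 (Nat.zero_le _)
    have h1 := hc' (3 / 4) (1 / 4) (by norm_num) (by norm_num) (by norm_num) (by norm_num)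
    rw [hc rfl] at h1
    have e : sl (nu P q m p ι b) 0 = 2 * (nu P q m p ι b (3 / 4) - nu P q m p ι b (1 / 4)) := by
      unfold sl
      simp
    rw [e]
    simp only [Nat.cast_zero, zero_mul, add_zero] at h1
    rw [h1]
    ring
  · have h1 := new_stage_aux_slope P q m m2 p r ι h q' hq' b hb 0 (Nat.zero_le _)
    simpa using h1
  · have hpos : ∀ t : ℕ, 0 < 1 / (sl ι ((t : ℤ) * p) * sl ι (((t + 1 : ℕ) : ℤ) * p)) := by
      intro t
      have h1 := sl_pos ι h.mono ((t : ℤ) * p)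
      have h2 := sl_pos ι h.mono (((t + 1 : ℕ) : ℤ) * p)
      positivity
    have e : Rs (nu P q m p ι b) q (16 * p - r) = 4096 * ∑ t ∈ Finset.range q,
        1 / (sl ι ((t : ℤ) * p) * sl ι (((t + 1 : ℕ) : ℤ) * p)) := by
      unfold Rs
      rw [Finset.mul_sum]
      refine Finset.sum_congr rfl fun i hi => ?_
      rw [Finset.mem_range] at hi
      have h1 := new_stage_aux_slope P q m m2 p r ι h q' hq' b hb i hi.le
      have h2 := new_stage_aux_slope P q m m2 p r ι h q' hq' b hb (i + 1) hi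
      have e1 : ((i : ℤ) + 1) = ((i + 1 : ℕ) : ℤ) := by push_cast; ring
      rw [e1, h1, h2]
      have h3 := sl_pos ι h.mono ((i : ℤ) * p)
      have h4 := sl_pos ι h.mono (((i + 1 : ℕ) : ℤ) * p)
      field_simp
      norm_num
    rw [e]
    have h5 := new_stage_aux_sum q m m2 p r ι h 14 le_rfl
    have h6 : ∑ t ∈ Finset.range ((14 + 1) * m),
        1 / (sl ι ((t : ℤ) * p) * sl ι (((t + 1 : ℕ) : ℤ) * p)) ≤
        ∑ t ∈ Finset.range q,
        1 / (sl ι ((t : ℤ) * p) * sl ι (((t + 1 : ℕ) : ℤ) * p)) := by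
      apply Finset.sum_le_sum_of_subset_of_nonneg
      · apply Finset.range_subset_range.2
        have := h.m2_lt
        have := h.q_eq
        omega
      · intro i _ _
        exact (hpos i).le
    push_cast at h5 h6 ⊢
    linarith

end Pool.Agent.Helper320.TW
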