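import Mathlib

set_option autoImplicit false

namespace Pool.Agent.Helper320.TW

theorem per_eq_aux (D : ℝ → ℝ) 
    (h0 : ∀ x, x ≤ 7 / 4 → D x = 0) (h1 : ∀ x, 21 / 4 ≤ x → D x = 0) (c e : ℝ) (he : 0 < e)
    (he' : e * (27 / 2) ≤ 1) (x : ℝ) :
    (fun y => D (5 / 4 + Int.fract (y - c) / e)) =ᶠ[nhds x]
      (fun y => D (5 / 4 + (y - c - (⌊x - c⌋ : ℝ)) / e) + D (5 / 4 + (y - c - (⌊x - c⌋ : ℝ) + 1) / e)) := by
  have h1e : 27 / 2 ≤ 1 / e := by
    rw [le_div_iff₀ he]; linarith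
  have hx1 : (⌊x - c⌋ : ℝ) ≤ x - c := Int.floor_le _
  have hx2 : x - c < (⌊x - c⌋ : ℝ) + 1 := Int.lt_floor_add_one _
  have hI : Set.Ioo (c + (⌊x - c⌋ : ℝ) - 1) (c + (⌊x - c⌋ : ℝ) + 1) ∈ nhds x := by
    apply Ioo_mem_nhds <;> linarith
  filter_upwards [hI] with y hy
  obtain ⟨hy1, hy2⟩ := hy
  rcases le_or_gt (c + (⌊x - c⌋ : ℝ)) y with h | h
  · have hfl : ⌊y - c⌋ = ⌊x - c⌋ := by
      rw [Int.floor_eq_iff]; constructor <;> linarith
    have hfr : Int.fract (y - c) = y - c - (⌊x - c⌋ : ℝ) := by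
      rw [Int.fract, hfl]
    have h2 : D (5 / 4 + (y - c - (⌊x - c⌋ : ℝ) + 1) / e) = 0 := by
      apply h1
      have : 1 / e ≤ (y - c - (⌊x - c⌋ : ℝ) + 1) / e := by
        apply div_le_div_of_nonneg_right _ he.le; linarith
      linarith
    rw [hfr, h2, add_zero]
  · have hfl : ⌊y - c⌋ = ⌊x - c⌋ - 1 := by
      rw [Int.floor_eq_iff]; push_cast; constructor <;> linarith
    have hfr : Int.fract (y - c) = y - c - (⌊x - c⌋ : ℝ) + 1 := by
      rw [Int.fract, hfl]; push_cast; ring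
    have h2 : D (5 / 4 + (y - c - (⌊x - c⌋ : ℝ)) / e) = 0 := by
      apply h0
      have : (y - c - (⌊x - c⌋ : ℝ)) / e ≤ 0 := by
        apply div_nonpos_of_nonpos_of_nonneg _ he.le; linarith
      linarith
    rw [hfr, h2, zero_add]

theorem per_deriv (D D' : ℝ → ℝ) (hD : ∀ x, HasDerivAt D (D' x) x)
    (h0 : ∀ x, x ≤ 7 / 4 → D x = 0) (h1 : ∀ x, 21 / 4 ≤ x → D x = 0) (c e : ℝ) (he : 0 < e)
    (he' : e * (27 / 2) ≤ 1) (x : ℝ) :
    HasDerivAt (fun x => D (5 / 4 + Int.fract (x - c) / e))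
      (D' (5 / 4 + Int.fract (x - c) / e) / e) x := by
  have h1e : 27 / 2 ≤ 1 / e := by
    rw [le_div_iff₀ he]; linarith
  have key := per_eq_aux D h0 h1 c e he he' x
  refine HasDerivAt.congr_of_eventuallyEq ?_ key
  have hx1 : (⌊x - c⌋ : ℝ) ≤ x - c := Int.floor_le _
  have hfr : Int.fract (x - c) = x - c - (⌊x - c⌋ : ℝ) := rfl
  have hz : D' (5 / 4 + (x - c - (⌊x - c⌋ : ℝ) + 1) / e) = 0 := by
    have hgt : 21 / 4 < 5 / 4 + (x - c - (⌊x - c⌋ : ℝ) + 1) / e := by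
      have : 1 / e ≤ (x - c - (⌊x - c⌋ : ℝ) + 1) / e := by
        apply div_le_div_of_nonneg_right _ he.le; linarith
      linarith
    have hc : HasDerivAt D 0 (5 / 4 + (x - c - (⌊x - c⌋ : ℝ) + 1) / e) := by
      refine HasDerivAt.congr_of_eventuallyEq (hasDerivAt_const _ (0:ℝ)) ?_
      filter_upwards [Ioi_mem_nhds hgt] with z hz
      exact h1 z (le_of_lt hz)
    exact (hD _).unique hc
  have hlin1 : HasDerivAt (fun y : ℝ => 5 / 4 + (y - c - (⌊x - c⌋ : ℝ)) / e) (1 / e) x := by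
    have := ((((hasDerivAt_id x).sub_const c).sub_const (⌊x - c⌋ : ℝ)).div_const e).const_add (5/4)
    simpa using this
  have hlin2 : HasDerivAt (fun y : ℝ => 5 / 4 + (y - c - (⌊x - c⌋ : ℝ) + 1) / e) (1 / e) x := by
    have := (((((hasDerivAt_id x).sub_const c).sub_const (⌊x - c⌋ : ℝ)).add_const 1).div_const e).const_add (5/4)
    simpa using this
  have hd1 := (hD (5 / 4 + (x - c - (⌊x - c⌋ : ℝ)) / e)).comp x hlin1
  have hd2 := (hD (5 / 4 + (x - c - (⌊x - c⌋ : ℝ) + 1) / e)).comp x hlin2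
  have := hd1.add hd2
  rw [hz, zero_mul, add_zero, ← hfr] at this
  rw [mul_one_div] at this
  exact this

theorem per_cont (D : ℝ → ℝ) (hD : Continuous D)
    (h0 : ∀ x, x ≤ 7 / 4 → D x = 0) (h1 : ∀ x, 21 / 4 ≤ x → D x = 0) (c e : ℝ) (he : 0 < e)
    (he' : e * (27 / 2) ≤ 1) :
    Continuous (fun x => D (5 / 4 + Int.fract (x - c) / e)) := by
  rw [continuous_iff_continuousAt]
  intro x
  have key := per_eq_aux D h0 h1 c e he he' x
  refine ContinuousAt.congr ?_ key.symm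
  apply Continuous.continuousAt
  fun_prop

end Pool.Agent.Helper320.TW
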