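import Mathlib
import Pool.Agent.Helper320.TWBasics
import Pool.Agent.Helper320.TWBeta

set_option autoImplicit false

namespace Pool.Agent.Helper320.TW

theorem exists_contDiff_inv (f : ℝ → ℝ) (hf : ContDiff ℝ 4 f) (hd : ∀ x, 0 < deriv f x)
    (hs : Function.Surjective f) :
    ∃ g : ℝ → ℝ, ContDiff ℝ 4 g ∧ (∀ x, g (f x) = x) ∧ ∀ y, f (g y) = y := by
  have hm : StrictMono f := strictMono_of_deriv_pos hd
  let e : ℝ ≃o ℝ := StrictMono.orderIsoOfSurjective f hm hs
  let h : ℝ ≃ₜ ℝ := e.toHomeomorph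
  have hcoe : (h : ℝ → ℝ) = f := rfl
  refine ⟨h.symm, ?_, fun x => h.symm_apply_apply x, fun y => h.apply_symm_apply y⟩
  refine h.contDiff_symm_deriv (f' := deriv f) (fun x => (hd x).ne') (fun x => ?_) ?_
  · rw [hcoe]
    exact (hf.differentiable (by norm_num) x).hasDerivAt
  · rw [hcoe]; exact hf

theorem exists_prof : ∃ P : Prof, ContDiff ℝ 4 P.G ∧ ContDiff ℝ 4 P.Gi := by
  obtain ⟨β, hβ, hβd, hβ1, hβJ, hβA, hβB⟩ := exists_beta
  have hβm : StrictMono β := strictMono_of_deriv_pos hβd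
  have hβc : Continuous β := hβ.continuous
  have hβ0 : β 0 = 0 := by have := hβJ 0 (by norm_num); simpa using this
  have hβint : ∀ (z : ℝ) (n : ℤ), β (z + n) = β z + n := by
    intro z n
    induction n using Int.induction_on with
    | zero => simp
    | succ k ih =>
      have := hβ1 (z + (k : ℤ))
      push_cast at *
      rw [← add_assoc, this, ih]; ring
    | pred k ih =>
      have := hβ1 (z + ((-(k : ℤ) - 1 : ℤ) : ℝ))
      push_cast at *
      have e : z + (-(k:ℝ) - 1) + 1 = z + -(k:ℝ) := by ring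
      rw [e, ih] at this
      linarith
  have hβs : Function.Surjective β := by
    apply hβc.surjective
    · refine Filter.tendsto_atTop_mono (f := fun z : ℝ => z - 1) (fun z => ?_)
        (Filter.tendsto_atTop_add_const_right _ _ Filter.tendsto_id)
      have h1 : β (0 + (⌊z⌋ : ℤ)) ≤ β z := hβm.monotone (by simpa using Int.floor_le z)
      rw [hβint, hβ0] at h1
      have := Int.lt_floor_add_one z
      linarith
    · refine Filter.tendsto_atBot_mono (f := fun z : ℝ => z + 1) (fun z => ?_)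
        (Filter.tendsto_atBot_add_const_right _ _ Filter.tendsto_id)
      have h1 : β z ≤ β (0 + ((⌊z⌋ + 1 : ℤ) : ℝ)) := hβm.monotone (by
        push_cast; linarith [Int.lt_floor_add_one z])
      rw [hβint, hβ0] at h1
      have := Int.floor_le z
      push_cast at h1
      linarith
  obtain ⟨βi, hβi, hβi1, hβi2⟩ := exists_contDiff_inv β hβ hβd hβs
  have hβid : ∀ s, 0 < deriv βi s := by
    intro s
    have h1 : HasDerivAt βi (deriv βi s) s := (hβi.differentiable (by norm_num) s).hasDerivAt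
    have h2 : HasDerivAt β (deriv β (βi s)) (βi s) :=
      (hβ.differentiable (by norm_num) _).hasDerivAt
    have h3 := h2.comp s h1
    have h4 : (β ∘ βi) = id := funext hβi2
    rw [h4] at h3
    have h5 := h3.unique (hasDerivAt_id s)
    by_contra hc
    push Not at hc
    have := mul_nonpos_of_nonneg_of_nonpos (hβd (βi s)).le hc
    linarith
  set Θ : ℝ → ℝ := fun s => β (βi s + 1 / 16) with hΘ
  have hΘC : ContDiff ℝ 4 Θ := hβ.comp (hβi.add contDiff_const)
  have hΘd : ∀ s, 0 < deriv Θ s := by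
    intro s
    have h1 : HasDerivAt (fun s => βi s + 1 / 16) (deriv βi s) s :=
      (hβi.differentiable (by norm_num) s).hasDerivAt.add_const _
    have h2 : HasDerivAt β (deriv β (βi s + 1 / 16)) (βi s + 1 / 16) :=
      (hβ.differentiable (by norm_num) _).hasDerivAt
    have h3 := h2.comp s h1
    have h4 : deriv Θ s = deriv β (βi s + 1 / 16) * deriv βi s := h3.deriv
    rw [h4]
    exact mul_pos (hβd _) (hβid s)
  have hΘlt : ∀ s, s < Θ s := by
    intro s
    have : β (βi s) < β (βi s + 1 / 16) := hβm (by linarith)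
    rwa [hβi2] at this
  have hΘlt' : ∀ s, Θ s < s + 1 := by
    intro s
    have : β (βi s + 1 / 16) < β (βi s + 1) := hβm (by linarith)
    rwa [hβ1, hβi2] at this
  set c : ℝ → ℝ := fun s => Real.smoothTransition (2 * (s - 11 / 4)) with hc
  have hcC : ContDiff ℝ 4 c := by
    refine (Real.smoothTransition.contDiff (n := 4)).comp ?_
    exact contDiff_const.mul (contDiff_id.sub contDiff_const)
  have hc0 : ∀ s, 0 ≤ c s := fun s => Real.smoothTransition.nonneg _
  have hc1 : ∀ s, c s ≤ 1 := fun s => Real.smoothTransition.le_one _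
  have hcm : Monotone c := by
    intro a b hab
    exact Real.smoothTransition.monotone (by linarith)
  have hcd : ∀ s, 0 ≤ deriv c s := fun s => hcm.deriv_nonneg
  set Φ : ℝ → ℝ := fun s => s + c s * (Θ s - s) with hΦ
  have hΦC : ContDiff ℝ 4 Φ := contDiff_id.add (hcC.mul (hΘC.sub contDiff_id))
  have hΦd : ∀ s, 0 < deriv Φ s := by
    intro s
    have h1 : HasDerivAt c (deriv c s) s := (hcC.differentiable (by norm_num) s).hasDerivAt
    have h2 : HasDerivAt Θ (deriv Θ s) s := (hΘC.differentiable (by norm_num) s).hasDerivAt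
    have h3 : HasDerivAt Φ (1 + (deriv c s * (Θ s - s) + c s * (deriv Θ s - 1))) s :=
      (hasDerivAt_id s).add (h1.mul (h2.sub (hasDerivAt_id s)))
    rw [h3.deriv]
    have e1 : 0 ≤ deriv c s * (Θ s - s) := mul_nonneg (hcd s) (by linarith [hΘlt s])
    have e2 : 0 < 1 + c s * (deriv Θ s - 1) := by
      rcases lt_or_eq_of_le (hc0 s) with h | h
      · nlinarith [mul_pos h (hΘd s), hc1 s]
      · rw [← h]; norm_num
    linarith
  have hΦge : ∀ s, s ≤ Φ s := by
    intro s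
    have := mul_nonneg (hc0 s) (by linarith [hΘlt s] : 0 ≤ Θ s - s)
    simp only [hΦ]; linarith
  have hΦle : ∀ s, Φ s ≤ Θ s := by
    intro s
    have := mul_le_mul_of_nonneg_right (hc1 s) (by linarith [hΘlt s] : 0 ≤ Θ s - s)
    simp only [hΦ]; linarith
  have hΦs : Function.Surjective Φ := by
    apply hΦC.continuous.surjective
    · exact Filter.tendsto_atTop_mono hΦge Filter.tendsto_id
    · refine Filter.tendsto_atBot_mono (f := fun z : ℝ => z + 1) (g := Φ) (fun z => ?_)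
        (Filter.tendsto_atBot_add_const_right _ _ Filter.tendsto_id)
      linarith [hΦle z, hΘlt' z]
  obtain ⟨Φi, hΦi, hΦi1, hΦi2⟩ := exists_contDiff_inv Φ hΦC hΦd hΦs
  let P : Prof :=
    { β := β, Θ := Θ, Φ := Φ, Φi := Φi, G := fun s => Φ (Φi s + 1), Gi := fun s => Φ (Φi s - 1)
      E := fun s => Φ (Φi s + 1) - s - 1
      β_mono := hβm, β_cont := hβc, β_add := hβ1, β_J := hβJ, β_A := hβA, β_B := hβB
      Θ_β := fun z => by simp only [hΘ, hβi1]
      Φ_mono := strictMono_of_deriv_pos hΦd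
      Φ_cont := hΦC.continuous
      Φi_Φ := hΦi1, Φ_Φi := hΦi2
      Φ_lo := fun s hs => by
        have : c s = 0 := Real.smoothTransition.zero_of_nonpos (by linarith)
        simp only [hΦ, this]; ring
      Φ_hi := fun s hs => by
        have : c s = 1 := Real.smoothTransition.one_of_one_le (by linarith)
        simp only [hΦ, this]; ring
      Φ_ge := hΦge, Φ_le := hΦle
      G_eq := fun _ => rfl, Gi_eq := fun _ => rfl, E_eq := fun _ => rfl }
  exact ⟨P, hΦC.comp (hΦi.add contDiff_const), hΦC.comp (hΦi.sub contDiff_const)⟩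

theorem vanish_lo {f f' : ℝ → ℝ} {a : ℝ} (h : ∀ x, HasDerivAt f (f' x) x)
    (h0 : ∀ x, x ≤ a → f x = 0) : ∀ x, x ≤ a → f' x = 0 := by
  intro x hx
  have hx' : x ∈ Set.Iic a := hx
  have e1 : HasDerivWithinAt f (f' x) (Set.Iic a) x := (h x).hasDerivWithinAt
  have e2 : HasDerivWithinAt f 0 (Set.Iic a) x :=
    (hasDerivWithinAt_const x (Set.Iic a) (0 : ℝ)).congr (fun y hy => h0 y hy) (h0 x hx)
  exact (uniqueDiffOn_Iic a x hx').eq_deriv _ e1 e2

theorem vanish_hi {f f' : ℝ → ℝ} {a : ℝ} (h : ∀ x, HasDerivAt f (f' x) x)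
    (h0 : ∀ x, a ≤ x → f x = 0) : ∀ x, a ≤ x → f' x = 0 := by
  intro x hx
  have hx' : x ∈ Set.Ici a := hx
  have e1 : HasDerivWithinAt f (f' x) (Set.Ici a) x := (h x).hasDerivWithinAt
  have e2 : HasDerivWithinAt f 0 (Set.Ici a) x :=
    (hasDerivWithinAt_const x (Set.Ici a) (0 : ℝ)).congr (fun y hy => h0 y hy) (h0 x hx)
  exact (uniqueDiffOn_Ici a x hx').eq_deriv _ e1 e2

theorem bdd_cpt {f : ℝ → ℝ} {a b : ℝ} (hf : Continuous f) (h0 : ∀ x, x ≤ a → f x = 0)
    (h1 : ∀ x, b ≤ x → f x = 0) : ∃ C : ℝ, 0 ≤ C ∧ ∀ x, |f x| ≤ C := by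
  obtain ⟨C, hC⟩ := (isCompact_Icc (a := a) (b := b)).exists_bound_of_continuousOn hf.continuousOn
  refine ⟨max C 0, le_max_right _ _, fun x => ?_⟩
  by_cases hx : x ≤ a
  · rw [h0 x hx, abs_zero]
    exact le_max_right _ _
  · by_cases hx2 : b ≤ x
    · rw [h1 x hx2, abs_zero]
      exact le_max_right _ _
    · push Not at hx hx2
      have := hC x ⟨hx.le, hx2.le⟩
      rw [Real.norm_eq_abs] at this
      exact this.trans (le_max_left _ _)

theorem DD_chain (P : Prof) (h1 : ContDiff ℝ 4 P.G) (h2 : ContDiff ℝ 4 P.Gi) :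
    ∃ D1 D2 D3 : ℝ → ℝ, ∃ C : ℝ,
      (∀ x, HasDerivAt (DD P) (D1 x) x) ∧ (∀ x, HasDerivAt D1 (D2 x) x) ∧
      (∀ x, HasDerivAt D2 (D3 x) x) ∧ Continuous D3 ∧
      (∀ x, x ≤ 7 / 4 → DD P x = 0 ∧ D1 x = 0 ∧ D2 x = 0 ∧ D3 x = 0) ∧
      (∀ x, 21 / 4 ≤ x → DD P x = 0 ∧ D1 x = 0 ∧ D2 x = 0 ∧ D3 x = 0) ∧
      (∀ x, |DD P x| ≤ C ∧ |D1 x| ≤ C ∧ |D2 x| ≤ C ∧ |D3 x| ≤ C) := by
  have c0 : ContDiff ℝ 4 (DD P) := by
    have : DD P = fun s => P.G s + P.Gi s - 2 * s := rfl
    rw [this]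
    exact (h1.add h2).sub (contDiff_const.mul contDiff_id)
  have c0' : ContDiff ℝ (3 + 1) (DD P) := by
    have : (3 + 1 : WithTop ℕ∞) = 4 := by norm_num
    rw [this]; exact c0
  obtain ⟨d0, -, c1⟩ := contDiff_succ_iff_deriv.1 c0'
  have c1' : ContDiff ℝ (2 + 1) (deriv (DD P)) := by
    have : (2 + 1 : WithTop ℕ∞) = 3 := by norm_num
    rw [this]; exact c1
  obtain ⟨d1, -, c2⟩ := contDiff_succ_iff_deriv.1 c1'
  have c2' : ContDiff ℝ (1 + 1) (deriv (deriv (DD P))) := by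
    have : (1 + 1 : WithTop ℕ∞) = 2 := by norm_num
    rw [this]; exact c2
  obtain ⟨d2, -, c3⟩ := contDiff_succ_iff_deriv.1 c2'
  have e0 : ∀ x, HasDerivAt (DD P) (deriv (DD P) x) x := fun x => (d0 x).hasDerivAt
  have e1 : ∀ x, HasDerivAt (deriv (DD P)) (deriv (deriv (DD P)) x) x :=
    fun x => (d1 x).hasDerivAt
  have e2 : ∀ x, HasDerivAt (deriv (deriv (DD P))) (deriv (deriv (deriv (DD P))) x) x :=
    fun x => (d2 x).hasDerivAt
  have l0 : ∀ x, x ≤ 7 / 4 → DD P x = 0 := fun x hx => P.D_lo x hx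
  have l1 := vanish_lo e0 l0
  have l2 := vanish_lo e1 l1
  have l3 := vanish_lo e2 l2
  have u0 : ∀ x, 21 / 4 ≤ x → DD P x = 0 := fun x hx => P.D_hi x hx
  have u1 := vanish_hi e0 u0
  have u2 := vanish_hi e1 u1
  have u3 := vanish_hi e2 u2
  obtain ⟨C0, hC0, b0⟩ := bdd_cpt c0.continuous l0 u0
  obtain ⟨C1, hC1, b1⟩ := bdd_cpt c1.continuous l1 u1
  obtain ⟨C2, hC2, b2⟩ := bdd_cpt c2.continuous l2 u2
  obtain ⟨C3, hC3, b3⟩ := bdd_cpt c3.continuous l3 u3
  refine ⟨deriv (DD P), deriv (deriv (DD P)), deriv (deriv (deriv (DD P))), C0 + C1 + C2 + C3,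
    e0, e1, e2, c3.continuous, fun x hx => ⟨l0 x hx, l1 x hx, l2 x hx, l3 x hx⟩,
    fun x hx => ⟨u0 x hx, u1 x hx, u2 x hx, u3 x hx⟩, fun x => ⟨?_, ?_, ?_, ?_⟩⟩
  · linarith [b0 x]
  · linarith [b1 x]
  · linarith [b2 x]
  · linarith [b3 x]

end Pool.Agent.Helper320.TW
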