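import Mathlib
import Pool.Agent.Helper320.TWComb
import Pool.Agent.Helper320.TWNew
import Pool.Agent.Helper320.TWKey
import Pool.Agent.Helper320.TWPer
import Pool.Agent.Helper320.TWProf
import Pool.Agent.Helper320.TWLim
import Pool.Agent.Helper320.TWMap

set_option autoImplicit false

namespace Pool.Agent.Helper320.TW

theorem FF_iter (ι : ℝ → ℝ) (hι : StrictMono ι) (p : ℤ) (t : ℕ) (s : ℝ) :
    (FF ι p)^[t] (ι s) = ι (s + t * p) := by
  induction t with
  | zero => simp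
  | succ t ih =>
    rw [Function.iterate_succ_apply', ih, FF_apply ι hι]
    congr 1; push_cast; ring

namespace Stage

variable {q m m2 : ℕ} {p r : ℤ} {ι : ℝ → ℝ} (h : Stage q m m2 p r ι)
include h

theorem ext_floor (s d : ℝ) : |ι (s + d) - ι s - d / q| ≤ 1 := by
  have hq : (0 : ℝ) < q := by have := h.q16; exact_mod_cast (by omega : 0 < q)
  have h1 := Int.floor_le (d / q)
  have h2 := Int.lt_floor_add_one (d / q)
  have h3 : (⌊d / q⌋ : ℝ) * q ≤ d := by rwa [le_div_iff₀ hq] at h1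
  have h4 : d < (⌊d / q⌋ + 1 : ℝ) * q := by rwa [div_lt_iff₀ hq] at h2
  have e1 := h.add_int s ⌊d / q⌋
  have e2 := h.add_int s (⌊d / q⌋ + 1)
  push_cast at e2
  have m1 : ι (s + ⌊d / q⌋ * q) ≤ ι (s + d) := h.mono.monotone (by linarith)
  have m2 : ι (s + d) ≤ ι (s + (⌊d / q⌋ + 1) * q) := h.mono.monotone (by linarith)
  rw [e1] at m1
  rw [e2] at m2
  rw [abs_le]
  constructor <;> linarith

theorem rot (t : ℕ) (x : ℝ) : |(FF ι p)^[t] x - x - t * (p / q)| ≤ 2 := by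
  obtain ⟨s, rfl⟩ := h.surj x
  rw [FF_iter ι h.mono]
  have := h.ext_floor s (t * p)
  rw [mul_div_assoc] at this
  linarith

theorem ι_zero : ι 0 = 0 := by
  have := h.J 0 (by norm_num)
  simpa using this

theorem av (t : ℕ) (k : ℤ) (ht : 0 < t) (htq : t < q) :
    1 / 128 ≤ (FF ι p)^[t] 0 + k ∨ (FF ι p)^[t] 0 + k ≤ -(1 / 128) := by
  have e0 : (FF ι p)^[t] 0 + k = ι ((t * p + k * q : ℤ) : ℝ) := by
    have := FF_iter ι h.mono p t 0
    rw [h.ι_zero] at this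
    rw [this, ← h.add_int]
    congr 1; push_cast; ring
  have hne : (t : ℤ) * p + k * q ≠ 0 := by
    intro h0
    have h1 : (t : ℤ) = q * (-(m * k) - r * t) := by
      have := h.det
      calc (t : ℤ) = t * ((m : ℤ) * p - r * q) := by rw [this, mul_one]
        _ = m * (t * p + k * q) + q * (-(m * k) - r * t) := by ring
        _ = _ := by rw [h0]; ring
    have h2 : (q : ℤ) ∣ t := ⟨_, h1⟩
    have h3 := Int.le_of_dvd (by exact_mod_cast ht) h2
    have : q ≤ t := by exact_mod_cast h3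
    omega
  rw [e0]
  rcases lt_or_gt_of_ne hne with h1 | h1
  · right
    have h2 : ((t * p + k * q : ℤ) : ℝ) ≤ -1 := by exact_mod_cast (by omega : (t : ℤ) * p + k * q ≤ -1)
    have h3 := h.J (-(1 / 8)) (by rw [abs_neg, abs_of_nonneg] <;> norm_num)
    have h4 : ι ((t * p + k * q : ℤ) : ℝ) ≤ ι (-(1 / 8)) := h.mono.monotone (by linarith)
    rw [h3] at h4
    linarith
  · left
    have h2 : (1 : ℝ) ≤ ((t * p + k * q : ℤ) : ℝ) := by exact_mod_cast (by omega : (1 : ℤ) ≤ t * p + k * q)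
    have h3 := h.J (1 / 8) (by rw [abs_of_nonneg] <;> norm_num)
    have h4 : ι (1 / 8) ≤ ι ((t * p + k * q : ℤ) : ℝ) := h.mono.monotone (by linarith)
    rw [h3] at h4
    linarith

theorem e_le : sl ι 1 * (27 / 2) ≤ 1 := by
  have h1 := h.base_sub 0 (Nat.zero_le _) 0 (59 / 4) (5 / 4) (by norm_num) (by norm_num)
    (by norm_num) (by norm_num)
  have h2 := h.add_q (5 / 4)
  have hq : (16 : ℝ) ≤ q := by exact_mod_cast h.q16
  have h3 : ι (59 / 4) ≤ ι (5 / 4 + q) := h.mono.monotone (by linarith)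
  simp only [Nat.cast_zero, zero_mul, Int.cast_zero, add_zero] at h1
  linarith

theorem FF_add_one (x : ℝ) (p' : ℤ) : FF ι p' (x + 1) = FF ι p' x + 1 := by
  obtain ⟨s, rfl⟩ := h.surj x
  rw [← h.add_q, FF_apply ι h.mono, FF_apply ι h.mono, ← h.add_q]
  congr 1; ring

theorem FF_mono (p' : ℤ) : StrictMono (FF ι p') := by
  intro x y hxy
  obtain ⟨s, rfl⟩ := h.surj x
  obtain ⟨t, rfl⟩ := h.surj y
  rw [FF_apply ι h.mono, FF_apply ι h.mono]
  have := h.mono.lt_iff_lt.mp hxy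
  exact h.mono (by linarith)

theorem FF_inv (x : ℝ) (p' : ℤ) : FF ι p' (FF ι (-p') x) = x := by
  obtain ⟨s, rfl⟩ := h.surj x
  rw [FF_apply ι h.mono, FF_apply ι h.mono]
  congr 1; push_cast; ring

theorem m_lt_q : m < q := by have := h.m2_lt; have := h.q_eq; omega

end Stage

theorem st0 : Stage 16 1 0 1 0 (fun s => s / 16) where
  m2_lt := by norm_num
  q_eq := by norm_num
  det := by norm_num
  mono := by intro a b hab; simp only; linarith
  surj := fun y => ⟨16 * y, by simp only; ring⟩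
  add_q := by intro s; push_cast; ring
  win := by intro t s _ _; unfold sl; ring
  base := by intro i _ s _ _; unfold sl; push_cast; ring
  J := by intro s _; rfl

theorem st0_sl (t : ℤ) : sl (fun s => s / 16) t = 1 / 16 := by unfold sl; ring

theorem st0_R : Rs (fun s => s / 16) 1 1 = 256 := by
  unfold Rs
  rw [Finset.sum_range_one, st0_sl, st0_sl]; norm_num

/-- a state of the induction -/
structure St where
  q : ℕ
  m : ℕ
  m2 : ℕ
  p : ℤ
  r : ℤ
  ι : ℝ → ℝ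
  h : Stage q m m2 p r ι

/-- relation of consecutive states -/
structure Nx (P : Prof) (a a' : St) : Prop where
  hq : a'.q + a.m = 16 * a.q
  hm : a'.m = a.q
  hm2 : a'.m2 = a.m
  hp : a'.p = 16 * a.p - a.r
  hr : a'.r = a.p
  s0 : sl a'.ι 0 = sl a.ι 0 / 8
  s1 : sl a'.ι 1 = sl a.ι 0 / 64
  hR : 57344 * Rs a.ι a.m a.p ≤ Rs a'.ι a'.m a'.p
  hV : ∀ x, FF a'.ι a'.p x + FF a'.ι (-a'.p) x = FF a.ι a.p x + FF a.ι (-a.p) x +
    1 / (Rs a.ι a.m a.p * sl a.ι 1) * DD P (5 / 4 + Int.fract (x - a.ι (5 / 4)) / sl a.ι 1)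
  hF : ∀ x, FF a.ι a.p x ≤ FF a'.ι a'.p x

theorem exists_next (P : Prof) (a : St) : ∃ a', Nx P a a' := by
  have h16 := a.h.q16
  have hmq := a.h.m_lt_q
  have hq' : (16 * a.q - a.m) + a.m = 16 * a.q := by omega
  obtain ⟨b, hb1, hb2, hb3, hb4, hb5⟩ := comb P a.q a.m a.m2 a.p a.r a.h.m2_lt a.h.q_eq a.h.det
    (16 * a.q - a.m) hq'
  have hb : Comb P a.q (16 * a.q - a.m) a.p (16 * a.p - a.r) b := ⟨hb1, hb2, hb3, hb4, hb5⟩
  obtain ⟨h1, h2, h3, h4⟩ := new_stage P a.q a.m a.m2 a.p a.r a.ι a.h _ hq' b hb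
  obtain ⟨h5, h6⟩ := V_id P a.q a.m a.m2 a.p a.r a.ι a.h _ hq' b hb
  exact ⟨⟨_, _, _, _, _, _, h1⟩, ⟨hq', rfl, rfl, rfl, rfl, h2, h3, h4, h5, h6⟩⟩

theorem exists_seq (P : Prof) : ∃ S : ℕ → St, S 0 = ⟨16, 1, 0, 1, 0, fun s => s / 16, st0⟩ ∧
    ∀ n, Nx P (S n) (S (n + 1)) := by
  choose nx hnx using exists_next P
  refine ⟨fun n => Nat.rec ⟨16, 1, 0, 1, 0, fun s => s / 16, st0⟩ (fun _ s => nx s) n, rfl, ?_⟩
  intro n
  exact hnx _

/-- the lower bound for e^4 R -/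
theorem eR_lower (P : Prof) (S : ℕ → St) (h0 : S 0 = ⟨16, 1, 0, 1, 0, fun s => s / 16, st0⟩)
    (hN : ∀ n, Nx P (S n) (S (n + 1))) (n : ℕ) :
    (14 : ℝ) ^ n / 2 ^ 20 ≤ (sl (S n).ι 1) ^ 4 * Rs (S n).ι (S n).m (S n).p := by
  have hs : ∀ n, (14 : ℝ) ^ n / 256 ≤ (sl (S n).ι 0) ^ 4 * Rs (S n).ι (S n).m (S n).p := by
    intro n
    induction n with
    | zero =>
      rw [h0]
      simp only [st0_sl, st0_R]
      norm_num
    | succ n ih =>
      have h1 := (hN n).s0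
      have h2 := (hN n).hR
      have h3 := sl_pos (S n).ι (S n).h.mono 0
      rw [h1]
      have h4 : (sl (S n).ι 0 / 8) ^ 4 * (57344 * Rs (S n).ι (S n).m (S n).p) ≤
          (sl (S n).ι 0 / 8) ^ 4 * Rs (S (n + 1)).ι (S (n + 1)).m (S (n + 1)).p :=
        mul_le_mul_of_nonneg_left h2 (by positivity)
      refine le_trans ?_ h4
      rw [pow_succ]
      calc (14 : ℝ) ^ n * 14 / 256 = 14 * ((14 : ℝ) ^ n / 256) := by ring
        _ ≤ 14 * ((sl (S n).ι 0) ^ 4 * Rs (S n).ι (S n).m (S n).p) := by linarith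
        _ = _ := by ring
  have he : sl (S n).ι 0 / 8 ≤ sl (S n).ι 1 := by
    cases n with
    | zero =>
      rw [h0]
      simp only [st0_sl]
      norm_num
    | succ n =>
      rw [(hN n).s0, (hN n).s1]
      linarith
  have h3 := sl_pos (S n).ι (S n).h.mono 0
  have hR := Rs_pos (S n).ι (S n).h.mono (S n).m (S n).h.m_pos (S n).p
  have h4 : (sl (S n).ι 0 / 8) ^ 4 ≤ (sl (S n).ι 1) ^ 4 := pow_le_pow_left₀ (by positivity) he 4
  have h5 := mul_le_mul_of_nonneg_right h4 hR.le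
  refine le_trans ?_ h5
  have := hs n
  calc (14 : ℝ) ^ n / 2 ^ 20 = (14 : ℝ) ^ n / 256 / 4096 := by ring
    _ ≤ (sl (S n).ι 0) ^ 4 * Rs (S n).ι (S n).m (S n).p / 4096 := by linarith
    _ = _ := by ring

/-- the increments of the derivatives of v -/
noncomputable def inc (D : ℝ → ℝ) (k : ℕ) (a : St) (x : ℝ) : ℝ :=
  1 / (Rs a.ι a.m a.p * sl a.ι 1 ^ (k + 1)) *
    D (5 / 4 + Int.fract (x - a.ι (5 / 4)) / sl a.ι 1)

theorem inc_bound (D : ℝ → ℝ) (k : ℕ) (hk : k ≤ 3) (a : St) (C : ℝ) (hC : ∀ x, |D x| ≤ C) (n : ℕ)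
    (ha : (14 : ℝ) ^ n / 2 ^ 20 ≤ (sl a.ι 1) ^ 4 * Rs a.ι a.m a.p) (x : ℝ) :
    |inc D k a x| ≤ (C * 2 ^ 20) * (1 / 2) ^ n := by
  have he := sl_pos a.ι a.h.mono 1
  have hR := Rs_pos a.ι a.h.mono a.m a.h.m_pos a.p
  have he1 : sl a.ι 1 ≤ 1 := by have := a.h.e_le; linarith
  have h1 : (14 : ℝ) ^ n / 2 ^ 20 ≤ Rs a.ι a.m a.p * sl a.ι 1 ^ (k + 1) := by
    refine ha.trans ?_
    rw [mul_comm]
    apply mul_le_mul_of_nonneg_left _ hR.le
    exact pow_le_pow_of_le_one he.le he1 (by omega)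
  have hC0 : 0 ≤ C := (abs_nonneg _).trans (hC 0)
  unfold inc
  rw [abs_mul, abs_of_pos (by positivity)]
  have h14 : (0 : ℝ) < (14 : ℝ) ^ n / 2 ^ 20 := by positivity
  have h2 : 1 / (Rs a.ι a.m a.p * sl a.ι 1 ^ (k + 1)) ≤ 1 / ((14 : ℝ) ^ n / 2 ^ 20) :=
    one_div_le_one_div_of_le h14 h1
  have h3 : 1 / ((14 : ℝ) ^ n / 2 ^ 20) ≤ 2 ^ 20 * (1 / 2) ^ n := by
    rw [one_div_div, div_le_iff₀ (by positivity), one_div_pow]
    have : (2 : ℝ) ^ n ≤ 14 ^ n := pow_le_pow_left₀ (by norm_num) (by norm_num) n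
    have h2n : (0 : ℝ) < 2 ^ n := by positivity
    calc (2 : ℝ) ^ 20 = 2 ^ 20 * (1 / 2 ^ n) * 2 ^ n := by field_simp
      _ ≤ 2 ^ 20 * (1 / 2 ^ n) * 14 ^ n := mul_le_mul_of_nonneg_left this (by positivity)
  calc 1 / (Rs a.ι a.m a.p * sl a.ι 1 ^ (k + 1)) * |D _|
      ≤ (2 ^ 20 * (1 / 2) ^ n) * C :=
        mul_le_mul (h2.trans h3) (hC _) (abs_nonneg _) (by positivity)
    _ = _ := by ring

theorem inc_deriv (D D' : ℝ → ℝ) (hD : ∀ x, HasDerivAt D (D' x) x)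
    (h0 : ∀ x, x ≤ 7 / 4 → D x = 0) (h1 : ∀ x, 21 / 4 ≤ x → D x = 0) (k : ℕ) (a : St) (x : ℝ) :
    HasDerivAt (inc D k a) (inc D' (k + 1) a x) x := by
  have he := sl_pos a.ι a.h.mono 1
  have hR := Rs_pos a.ι a.h.mono a.m a.h.m_pos a.p
  have := (per_deriv D D' hD h0 h1 (a.ι (5 / 4)) (sl a.ι 1) he a.h.e_le x).const_mul
    (1 / (Rs a.ι a.m a.p * sl a.ι 1 ^ (k + 1)))
  have e : inc D' (k + 1) a x = 1 / (Rs a.ι a.m a.p * sl a.ι 1 ^ (k + 1)) *
      (D' (5 / 4 + Int.fract (x - a.ι (5 / 4)) / sl a.ι 1) / sl a.ι 1) := by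
    unfold inc
    rw [pow_succ (sl a.ι 1) (k + 1)]
    field_simp
  rw [e]
  exact this

theorem inc_cont (D : ℝ → ℝ) (hD : Continuous D)
    (h0 : ∀ x, x ≤ 7 / 4 → D x = 0) (h1 : ∀ x, 21 / 4 ≤ x → D x = 0) (k : ℕ) (a : St) :
    Continuous (inc D k a) := by
  have he := sl_pos a.ι a.h.mono 1
  have := (per_cont D hD h0 h1 (a.ι (5 / 4)) (sl a.ι 1) he a.h.e_le).const_mul
    (1 / (Rs a.ι a.m a.p * sl a.ι 1 ^ (k + 1)))
  unfold inc
  exact this

theorem main_result :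
    ∃ F : ℝ × ℝ → ℝ × ℝ, ContDiff ℝ 3 F ∧ Function.Bijective F ∧
      (∀ x y : ℝ, F (x + 1, y) = F (x, y) + (1, 0)) ∧
      (∀ p : ℝ × ℝ, LinearMap.det (fderiv ℝ F p).toLinearMap = 1) ∧
      (∀ p : ℝ × ℝ, 0 < (fderiv ℝ F p (0, 1)).1) ∧
      ∃ γ : ℝ → ℝ, Continuous γ ∧ (∀ x, γ (x + 1) = γ x) ∧
        ∃ g : CircleDeg1Lift, (∀ x, F (x, γ x) = (g x, γ (g x))) ∧
          Irrational g.translationNumber ∧
          ¬ ∃ h : ℝ ≃ₜ ℝ, ∃ a : ℝ, (∀ x, h (x + 1) = h x + 1) ∧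
              ∀ x, h (g x) = h x + a := by
  obtain ⟨P, hG, hGi⟩ := exists_prof
  obtain ⟨D1, D2, D3, C, hD0, hD1, hD2, hD3, hlo, hhi, hC⟩ := DD_chain P hG hGi
  obtain ⟨S, hS0, hN⟩ := exists_seq P
  set D0 := DD P with hD0def
  have heR := eR_lower P S hS0 hN
  obtain ⟨v, f, g, α, H1, H2, H3, H4, H5, H6, H7, H8, H9, H10, H11⟩ := twist_limit
    (fun n => (S n).q) (fun n => (S n).p) (fun n => FF (S n).ι (S n).p)
    (fun n => FF (S n).ι (-(S n).p))
    (fun n x => ∑ i ∈ Finset.range n, inc D0 0 (S i) x)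
    (fun n x => ∑ i ∈ Finset.range n, inc D1 1 (S i) x)
    (fun n x => ∑ i ∈ Finset.range n, inc D2 2 (S i) x)
    (fun n x => ∑ i ∈ Finset.range n, inc D3 3 (S i) x)
    (C * 2 ^ 20)
    (by have := (S 0).h.q16; show 1 ≤ (S 0).q; omega)
    (by
      intro n
      have h1 := (hN n).hq
      have h2 := (S n).h.m_lt_q
      show 2 * (S n).q ≤ (S (n + 1)).q
      omega)
    (by
      intro n
      have h1 := (S (n + 1)).h.det
      rw [(hN n).hm, (hN n).hr] at h1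
      show (S (n + 1)).p * ((S n).q : ℤ) - (S n).p * ((S (n + 1)).q : ℤ) = 1
      linarith [mul_comm ((S n).q : ℤ) (S (n + 1)).p])
    (fun n x => (S n).h.FF_add_one x _)
    (fun n => (S n).h.FF_mono _) (fun n => (S n).h.FF_mono _)
    (fun n x => (S n).h.FF_inv x _)
    (fun n x => by simpa using (S n).h.FF_inv x (-(S n).p))
    (by
      intro n x
      show FF (S n).ι (S n).p x + FF (S n).ι (-(S n).p) x =
        2 * x + ∑ i ∈ Finset.range n, inc D0 0 (S i) x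
      induction n with
      | zero =>
        rw [hS0]
        obtain ⟨s, rfl⟩ : ∃ s : ℝ, s / 16 = x := ⟨16 * x, by ring⟩
        have e1 := FF_apply (fun s => s / 16) st0.mono 1 s
        have e2 := FF_apply (fun s => s / 16) st0.mono (-1) s
        simp only [Finset.range_zero, Finset.sum_empty]
        rw [e1, e2]
        push_cast; ring
      | succ n ih =>
        rw [(hN n).hV x, ih, Finset.sum_range_succ]
        unfold inc
        rw [zero_add, pow_one]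
        ring)
    (fun n x => HasDerivAt.fun_sum (fun i _ => inc_deriv D0 D1 hD0 (fun x hx => (hlo x hx).1)
      (fun x hx => (hhi x hx).1) 0 (S i) x))
    (fun n x => HasDerivAt.fun_sum (fun i _ => inc_deriv D1 D2 hD1 (fun x hx => (hlo x hx).2.1)
      (fun x hx => (hhi x hx).2.1) 1 (S i) x))
    (fun n x => HasDerivAt.fun_sum (fun i _ => inc_deriv D2 D3 hD2 (fun x hx => (hlo x hx).2.2.1)
      (fun x hx => (hhi x hx).2.2.1) 2 (S i) x))
    (fun n => continuous_finsetSum _ (fun i _ => inc_cont D3 hD3 (fun x hx => (hlo x hx).2.2.2)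
      (fun x hx => (hhi x hx).2.2.2) 3 (S i)))
    (fun x => by simp)
    (fun n x => by
      simp only [Finset.sum_range_succ, add_sub_cancel_left]
      exact inc_bound D0 0 (by norm_num) (S n) C (fun x => (hC x).1) n (heR n) x)
    (fun n x => by
      simp only [Finset.sum_range_succ, add_sub_cancel_left]
      exact inc_bound D1 1 (by norm_num) (S n) C (fun x => (hC x).2.1) n (heR n) x)
    (fun n x => by
      simp only [Finset.sum_range_succ, add_sub_cancel_left]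
      exact inc_bound D2 2 (by norm_num) (S n) C (fun x => (hC x).2.2.1) n (heR n) x)
    (fun n x => by
      simp only [Finset.sum_range_succ, add_sub_cancel_left]
      exact inc_bound D3 3 (by norm_num) (S n) C (fun x => (hC x).2.2.2) n (heR n) x)
    (fun n x => (hN n).hF x)
    (fun n t x => (S n).h.rot t x)
    (fun n t k ht htq => (S n).h.av t k ht htq)
  exact twist_conclude v f g α H1 H2 H3 H4 H5 H6 H7 H8 H9 H10 H11

end Pool.Agent.Helper320.TW
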